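import Pool.Agent.H94.PA.H63.VC.VolA
import Pool.Agent.H94.PA.H63.VC3.ClausenA
import Pool.Agent.H94.PA.H63.VC3.Defs

/-! The parts of this file: H63.VC3.RealF, H63.VC3.Clausen. -/

section

/-! # Real properties of `Fr` -/

namespace Pool.Agent.H63.VC3

open Pool.Agent.H63.VC Real

theorem Fr_hasDerivAt (x : ℝ) (h0 : 0 < x) (h1 : x < 1) :
    HasDerivAt Fr (Real.log (2 * Real.sin (π * x))) x := by
  have hs : 0 < Real.sin (π * x) := Real.sin_pos_of_pos_of_lt_pi (by positivity) (by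
    calc π * x < π * 1 := mul_lt_mul_of_pos_left h1 Real.pi_pos
      _ = π := mul_one π)
  have h := volA_lob_hasDerivAt (π * x) hs.ne'
  have h2 : HasDerivAt (fun x : ℝ => π * x) π x := by
    simpa using (hasDerivAt_id x).const_mul π
  have h3 := ((h.comp x h2).neg).div_const π
  refine (h3.congr_deriv ?_).congr_of_eventuallyEq ?_
  · rw [abs_of_pos (by positivity)]
    field_simp
  · filter_upwards with y
    rfl

theorem Fr_continuous : Continuous Fr := by
  unfold Fr
  exact ((volA_lob_continuous.comp (continuous_const.mul continuous_id)).neg).div_const _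

theorem Fr_add_one (x : ℝ) : Fr (x + 1) = Fr x := by
  unfold Fr
  rw [mul_add, mul_one, volA_lob_add_pi]

theorem Fr_neg (x : ℝ) : Fr (-x) = -Fr x := by
  unfold Fr
  rw [mul_neg, volA_lob_neg]
  ring

theorem Fr_zero : Fr 0 = 0 := by
  unfold Fr
  rw [mul_zero, volA_lob_zero]
  simp

private lemma RealF_one : Fr 1 = 0 := by
  have := Fr_add_one 0
  rw [zero_add, Fr_zero] at this
  exact this

private lemma RealF_refl (x : ℝ) : Fr (1 - x) = -Fr x := by
  rw [← Fr_neg, ← Fr_add_one (-x)]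
  congr 1
  ring

theorem Fr_half : Fr (1 / 2) = 0 := by
  have h := RealF_refl (1 / 2)
  have e : (1 : ℝ) - 1 / 2 = 1 / 2 := by norm_num
  rw [e] at h
  linarith only [h]

private lemma RealF_sin_half : ∀ x : ℝ, 1 / 6 ≤ x → x ≤ 5 / 6 → 1 / 2 ≤ Real.sin (π * x) := by
  intro x h1 h2
  have hp := Real.pi_pos
  rcases le_total x (1 / 2) with h | h
  · rw [← Real.sin_pi_div_six]
    apply Real.sin_le_sin_of_le_of_le_pi_div_two
    · linarith only [hp]
    · nlinarith only [hp, h]
    · nlinarith only [h1, hp]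
  · have e : Real.sin (π * x) = Real.sin (π - π * x) := (Real.sin_pi_sub _).symm
    rw [e, ← Real.sin_pi_div_six]
    apply Real.sin_le_sin_of_le_of_le_pi_div_two
    · linarith only [hp]
    · nlinarith only [hp, h]
    · nlinarith only [h2, hp]

private lemma RealF_sin_low : ∀ x : ℝ, 0 ≤ x → x ≤ 1 / 6 → Real.sin (π * x) ≤ 1 / 2 := by
  intro x h1 h2
  have hp := Real.pi_pos
  rw [← Real.sin_pi_div_six]
  apply Real.sin_le_sin_of_le_of_le_pi_div_two
  · nlinarith only [hp, h1]
  · nlinarith only [hp]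
  · nlinarith only [h2, hp]

private lemma RealF_mono : MonotoneOn Fr (Set.Icc (1 / 6) (5 / 6)) := by
  apply monotoneOn_of_deriv_nonneg (convex_Icc _ _) Fr_continuous.continuousOn
  · intro x hx
    rw [interior_Icc] at hx
    exact (Fr_hasDerivAt x (by linarith [hx.1]) (by linarith only [hx, hx.2])).differentiableAt.differentiableWithinAt
  · intro x hx
    rw [interior_Icc] at hx
    rw [(Fr_hasDerivAt x (by linarith only [hx, hx.1]) (by linarith [hx.2])).deriv]
    apply Real.log_nonneg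
    linarith only [hx, RealF_sin_half x hx.1.le hx.2.le]

private lemma RealF_anti : AntitoneOn Fr (Set.Icc (5 / 6) 1) := by
  apply antitoneOn_of_deriv_nonpos (convex_Icc _ _) Fr_continuous.continuousOn
  · intro x hx
    rw [interior_Icc] at hx
    exact (Fr_hasDerivAt x (by linarith only [hx, hx.1]) (by linarith [hx.2])).differentiableAt.differentiableWithinAt
  · intro x hx
    rw [interior_Icc] at hx
    rw [(Fr_hasDerivAt x (by linarith only [hx, hx.1]) (by linarith [hx.2])).deriv]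
    have h1 := RealF_sin_low (1 - x) (by linarith [hx.2]) (by linarith only [hx, hx.1])
    have h2 : Real.sin (π * (1 - x)) = Real.sin (π * x) := by
      rw [mul_sub, mul_one, Real.sin_pi_sub]
    rw [h2] at h1
    have h3 : 0 < Real.sin (π * x) := Real.sin_pos_of_pos_of_lt_pi (by
      have := Real.pi_pos
      nlinarith only [this, hx, hx.1]) (by
      calc π * x < π * 1 := mul_lt_mul_of_pos_left hx.2 Real.pi_pos
        _ = π := mul_one π)
    apply Real.log_nonpos
    · positivity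
    · linarith

theorem Fr_nonneg (x : ℝ) (h0 : 1 / 2 ≤ x) (h1 : x ≤ 1) : 0 ≤ Fr x := by
  rcases le_total x (5 / 6) with h | h
  · rw [← Fr_half]
    exact RealF_mono ⟨by norm_num, by norm_num⟩ ⟨by linarith only [h0], h⟩ h0
  · rw [← RealF_one]
    exact RealF_anti ⟨h, h1⟩ ⟨by norm_num, le_rfl⟩ h1

theorem Fr_nonpos (x : ℝ) (h0 : 0 ≤ x) (h1 : x ≤ 1 / 2) : Fr x ≤ 0 := by
  have h := Fr_nonneg (1 - x) (by linarith only [h1]) (by linarith only [h0])
  rw [RealF_refl] at h
  linarith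

theorem Fr_le (x : ℝ) : Fr x ≤ Fr (5 / 6) := by
  have hper : Function.Periodic Fr 1 := Fr_add_one
  obtain ⟨y, hy, hxy⟩ := hper.exists_mem_Ico₀ one_pos x
  rw [hxy]
  have h56 : 0 ≤ Fr (5 / 6) := Fr_nonneg _ (by norm_num) (by norm_num)
  rcases le_total y (1 / 2) with h | h
  · exact (Fr_nonpos y hy.1 h).trans h56
  rcases le_total y (5 / 6) with h' | h'
  · exact RealF_mono ⟨by linarith only [h], h'⟩ ⟨by norm_num, le_rfl⟩ h'
  · exact RealF_anti ⟨le_rfl, by norm_num⟩ ⟨h', hy.2.le⟩ h'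

theorem Fr_ge (x : ℝ) : -Fr (5 / 6) ≤ Fr x := by
  have h := Fr_le (-x)
  rw [Fr_neg] at h
  linarith

private lemma RealF_sin34 : Real.sin (π * (3 / 4)) = √2 / 2 := by
  have e : π * (3 / 4) = π - π / 4 := by ring
  rw [e, Real.sin_pi_sub, Real.sin_pi_div_four]

private lemma RealF_chord (x : ℝ) (h1 : 1 / 2 ≤ x) (h2 : x ≤ 3 / 4) :
    (2 - 2 * x) * Real.log 2 ≤ Real.log (2 * Real.sin (π * x)) := by
  have hp := Real.pi_pos
  have hs0 : 0 ≤ 4 * x - 2 := by linarith
  have hs1 : 0 ≤ 1 - (4 * x - 2) := by linarith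
  have hc := strictConcaveOn_sin_Icc.concaveOn.2
    (x := π / 2) ⟨by positivity, by linarith⟩ (y := π * (3 / 4)) ⟨by positivity, by linarith⟩
    hs1 hs0 (by ring)
  simp only [smul_eq_mul] at hc
  have e : (1 - (4 * x - 2)) * (π / 2) + (4 * x - 2) * (π * (3 / 4)) = π * x := by ring
  rw [e, Real.sin_pi_div_two, RealF_sin34] at hc
  have h20 : (0 : ℝ) < 2 := by norm_num
  have hs2 : (0 : ℝ) < √2 := by positivity
  have hl := strictConcaveOn_log_Ioi.concaveOn.2 (x := 2) (Set.mem_Ioi.2 h20) (y := √2)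
    (Set.mem_Ioi.2 hs2) hs1 hs0 (by ring)
  simp only [smul_eq_mul] at hl
  rw [Real.log_sqrt h20.le] at hl
  have hpos : 0 < (1 - (4 * x - 2)) * 2 + (4 * x - 2) * √2 := by
    rcases hs0.eq_or_lt with h | h
    · rw [← h]; norm_num
    · have := mul_pos h hs2
      linarith [mul_nonneg hs1 h20.le]
  have hfin : Real.log ((1 - (4 * x - 2)) * 2 + (4 * x - 2) * √2) ≤
      Real.log (2 * Real.sin (π * x)) := by
    apply Real.log_le_log hpos
    linarith
  have e2 : (1 - (4 * x - 2)) * Real.log 2 + (4 * x - 2) * (Real.log 2 / 2) =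
      (2 - 2 * x) * Real.log 2 := by ring
  linarith

/-- A numerical comparison, from the concavity of `log sin`. -/
theorem Fr_num : 3 * Fr (5 / 6) ≤ 4 * Fr (3 / 4) - Real.log 2 / 16 := by
  have hp := Real.pi_pos
  -- the first part
  have h1 : Fr (1 / 2) - Real.log 2 * (2 * (1 / 2) - (1 / 2) ^ 2) ≤
      Fr (3 / 4) - Real.log 2 * (2 * (3 / 4) - (3 / 4) ^ 2) := by
    have hd : ∀ x : ℝ, 0 < x → x < 1 →
        HasDerivAt (fun x : ℝ => Fr x - Real.log 2 * (2 * x - x ^ 2))
          (Real.log (2 * Real.sin (π * x)) - Real.log 2 * (2 - 2 * x)) x := by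
      intro x h0 h1
      have h3 : HasDerivAt (fun x : ℝ => 2 * x - x ^ 2) (2 - 2 * x) x := by
        have h4 := ((hasDerivAt_id x).const_mul 2).sub (hasDerivAt_pow 2 x)
        refine (h4.congr_deriv (by simp)).congr_of_eventuallyEq ?_
        filter_upwards with y
        rfl
      exact (Fr_hasDerivAt x h0 h1).sub (h3.const_mul _)
    have hm : MonotoneOn (fun x : ℝ => Fr x - Real.log 2 * (2 * x - x ^ 2))
        (Set.Icc (1 / 2) (3 / 4)) := by
      apply monotoneOn_of_deriv_nonneg (convex_Icc _ _)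
      · apply Continuous.continuousOn
        exact Fr_continuous.sub (continuous_const.mul (by fun_prop))
      · intro x hx
        rw [interior_Icc] at hx
        exact (hd x (by linarith [hx.1]) (by linarith [hx.2])).differentiableAt.differentiableWithinAt
      · intro x hx
        rw [interior_Icc] at hx
        rw [(hd x (by linarith [hx.1]) (by linarith [hx.2])).deriv]
        have := RealF_chord x hx.1.le hx.2.le
        linarith
    exact hm ⟨le_rfl, by norm_num⟩ ⟨by norm_num, le_rfl⟩ (by norm_num)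
  rw [Fr_half] at h1
  -- the second part
  have h2 := Convex.image_sub_le_mul_sub_of_deriv_le (D := Set.Icc (3 / 4 : ℝ) (5 / 6))
    (convex_Icc _ _) (f := Fr) Fr_continuous.continuousOn
    (fun x hx => by
      rw [interior_Icc] at hx
      exact (Fr_hasDerivAt x (by linarith [hx.1])
        (by linarith [hx.2])).differentiableAt.differentiableWithinAt)
    (C := Real.log 2 / 2)
    (fun x hx => by
      rw [interior_Icc] at hx
      rw [(Fr_hasDerivAt x (by linarith [hx.1]) (by linarith [hx.2])).deriv]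
      have h3 : 0 < Real.sin (π * x) := Real.sin_pos_of_pos_of_lt_pi (by nlinarith [hx.1])
        (by nlinarith [hx.2])
      have h4 : Real.sin (π * x) ≤ √2 / 2 := by
        rw [← Real.sin_pi_div_four, ← Real.sin_pi_sub]
        apply Real.sin_le_sin_of_le_of_le_pi_div_two
        · nlinarith [hx.2]
        · linarith
        · nlinarith [hx.1]
      rw [← Real.log_sqrt (by norm_num : (0 : ℝ) ≤ 2)]
      apply Real.log_le_log (by positivity)
      linarith)
    (3 / 4) ⟨le_rfl, by norm_num⟩ (5 / 6) ⟨by norm_num, le_rfl⟩ (by norm_num)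
  linarith

end Pool.Agent.H63.VC3

end

section

/-! # The Clausen type function `ff` on the strip `0 < re z < 1` -/

namespace Pool.Agent.H63.VC3

open Pool.Agent.H63.VC Complex

/-! ### Auxiliary bounds -/

lemma Clausen_norm_cosh_le (w : ℂ) : ‖cosh w‖ ≤ Real.cosh w.re := by
  rw [Complex.cosh, Real.cosh_eq, norm_div]
  have h1 : ‖exp w + exp (-w)‖ ≤ Real.exp w.re + Real.exp (-w.re) := by
    refine (norm_add_le _ _).trans (le_of_eq ?_)
    rw [Complex.norm_exp, Complex.norm_exp, Complex.neg_re]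
  have h2 : ‖(2 : ℂ)‖ = 2 := by simp
  rw [h2]
  exact div_le_div_of_nonneg_right h1 (by norm_num)

lemma Clausen_cosh_mono {a b : ℝ} (h : |a| ≤ |b|) : Real.cosh a ≤ Real.cosh b :=
  Real.cosh_le_cosh.2 h

/-- The convex set used for the mean value inequality. -/
def Clausen_box (w : ℂ) : Set ℂ := {x : ℂ | |x.re| ≤ |w.re|} ∩ Metric.closedBall 0 ‖w‖

lemma Clausen_box_convex (w : ℂ) : Convex ℝ (Clausen_box w) := by
  apply Convex.inter _ (convex_closedBall _ _)
  have h : {x : ℂ | |x.re| ≤ |w.re|} = Complex.reLm ⁻¹' (Set.Icc (-|w.re|) |w.re|) := by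
    ext x
    simp [abs_le]
  rw [h]
  exact (convex_Icc _ _).linear_preimage _

lemma Clausen_zero_mem (w : ℂ) : (0 : ℂ) ∈ Clausen_box w := by
  constructor
  · simp
  · simp

lemma Clausen_self_mem (w : ℂ) : w ∈ Clausen_box w := by
  constructor
  · simp
  · simp

lemma Clausen_norm_sinh_le (w : ℂ) : ‖sinh w‖ ≤ ‖w‖ * Real.cosh w.re := by
  have h := (Clausen_box_convex w).norm_image_sub_le_of_norm_hasDerivWithin_le (f := sinh)
    (f' := cosh) (C := Real.cosh w.re)
    (fun x _ => (Complex.hasDerivAt_sinh x).hasDerivWithinAt)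
    (fun x hx => (Clausen_norm_cosh_le x).trans (Clausen_cosh_mono hx.1))
    (Clausen_zero_mem w) (Clausen_self_mem w)
  simp only [Complex.sinh_zero, sub_zero] at h
  linarith only [h]

lemma Clausen_norm_cosh_sub_le (w : ℂ) : ‖cosh w - 1‖ ≤ ‖w‖ ^ 2 * Real.cosh w.re := by
  have h := (Clausen_box_convex w).norm_image_sub_le_of_norm_hasDerivWithin_le (f := cosh)
    (f' := sinh) (C := ‖w‖ * Real.cosh w.re)
    (fun x _ => (Complex.hasDerivAt_cosh x).hasDerivWithinAt)
    (fun x hx => (Clausen_norm_sinh_le x).trans (mul_le_mul (by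
      have := hx.2; rwa [mem_closedBall_zero_iff] at this) (Clausen_cosh_mono hx.1)
      (Real.cosh_pos _).le (norm_nonneg _)))
    (Clausen_zero_mem w) (Clausen_self_mem w)
  simp only [Complex.cosh_zero, sub_zero] at h
  calc _ ≤ _ := h
    _ = _ := by ring

lemma Clausen_norm_sinh_sub_le (w : ℂ) : ‖sinh w - w‖ ≤ ‖w‖ ^ 3 * Real.cosh w.re := by
  have h := (Clausen_box_convex w).norm_image_sub_le_of_norm_hasDerivWithin_le
    (f := fun x => sinh x - x)
    (f' := fun x => cosh x - 1) (C := ‖w‖ ^ 2 * Real.cosh w.re)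
    (fun x _ => ((Complex.hasDerivAt_sinh x).sub (hasDerivAt_id x)).hasDerivWithinAt)
    (fun x hx => (Clausen_norm_cosh_sub_le x).trans (mul_le_mul (pow_le_pow_left₀ (norm_nonneg _) (by
      have := hx.2; rwa [mem_closedBall_zero_iff] at this) 2) (Clausen_cosh_mono hx.1)
      (Real.cosh_pos _).le (by positivity)))
    (Clausen_zero_mem w) (Clausen_self_mem w)
  simp only [Complex.sinh_zero, sub_zero] at h
  calc _ ≤ _ := h
    _ = _ := by ring

lemma Clausen_ratio {t : ℝ} (ht : 0 < t) : t / Real.sinh t ≤ (1 + 2 * t) * Real.exp (-t) := by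
  have hs : 0 < Real.sinh t := Real.sinh_pos_iff.2 ht
  rw [div_le_iff₀ hs, Real.sinh_eq]
  have h1 : 1 + 2 * t ≤ Real.exp (2 * t) := by
    have := Real.add_one_le_exp (2 * t); linarith only [this]
  have h2 : Real.exp (2 * t) * (Real.exp (-t) * Real.exp (-t)) = 1 := by
    rw [← Real.exp_add, ← Real.exp_add]; simp; ring
  have h3 : Real.exp t * Real.exp (-t) = 1 := by rw [← Real.exp_add]; simp
  have h4 : (1 + 2 * t) * (Real.exp (-t) * Real.exp (-t)) ≤ 1 :=
    (mul_le_mul_of_nonneg_right h1 (by positivity)).trans h2.le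
  have h5 : (1 + 2 * t) * Real.exp (-t) * ((Real.exp t - Real.exp (-t)) / 2) =
      ((1 + 2 * t) * (Real.exp t * Real.exp (-t)) -
        (1 + 2 * t) * (Real.exp (-t) * Real.exp (-t))) / 2 := by ring
  rw [h5, h3]
  linarith only [h4]

lemma Clausen_cosh_le_exp {a t : ℝ} (ht : 0 ≤ t) {b : ℝ} (hab : |a| ≤ b) :
    Real.cosh (a * t) ≤ Real.exp (b * t) := by
  have h1 : Real.cosh (a * t) ≤ Real.cosh (b * t) := by
    apply Clausen_cosh_mono
    rw [abs_mul, abs_mul]
    exact mul_le_mul_of_nonneg_right (hab.trans (le_abs_self b)) (abs_nonneg _)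
  refine h1.trans ?_
  have hb : 0 ≤ b * t := mul_nonneg ((abs_nonneg a).trans hab) ht
  rw [Real.cosh_eq]
  have : Real.exp (-(b * t)) ≤ Real.exp (b * t) := Real.exp_le_exp.2 (by linarith only [hb])
  linarith only [this]

/-- The majorant `(1+2t)^2 e^{-bt}` is integrable. -/
lemma Clausen_majorant {b : ℝ} (hb : 0 < b) (K : ℝ) :
    MeasureTheory.IntegrableOn (fun t : ℝ => K * ((1 + 2 * t) ^ 2 * Real.exp (-b * t)))
      (Set.Ioi 0) := by
  have h0 := integrableOn_rpow_mul_exp_neg_mul_rpow (p := 1) (s := 0) (b := b) (by norm_num)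
    (by norm_num) hb
  have h1 := integrableOn_rpow_mul_exp_neg_mul_rpow (p := 1) (s := 1) (b := b) (by norm_num)
    (by norm_num) hb
  have h2 := integrableOn_rpow_mul_exp_neg_mul_rpow (p := 1) (s := 2) (b := b) (by norm_num)
    (by norm_num) hb
  have h := ((h0.add (h1.const_mul 4)).add (h2.const_mul 4)).const_mul K
  refine MeasureTheory.IntegrableOn.congr_fun h ?_ measurableSet_Ioi
  intro t _
  simp only [Pi.add_apply, Real.rpow_zero, Real.rpow_one, Real.rpow_two]
  ring

lemma Clausen_sinh_norm {t : ℝ} (ht : 0 < t) : ‖sinh (t : ℂ)‖ = Real.sinh t := by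
  rw [← Complex.ofReal_sinh, Complex.norm_real, Real.norm_of_nonneg (Real.sinh_pos_iff.2 ht).le]

/-- Main bound: if `‖N‖ ≤ K t^(j+1) cosh(a t)` ... in the form needed. -/
lemma Clausen_bound {t : ℝ} (ht : 0 < t) {a b K : ℝ} (hab : |a| ≤ b) (hK : 0 ≤ K) {N : ℂ}
    (hN : ‖N‖ ≤ K * t ^ 2 * Real.cosh (a * t)) :
    ‖N / (t * sinh (t : ℂ))‖ ≤ K * ((1 + 2 * t) ^ 2 * Real.exp (-(1 - b) * t)) := by
  have hs : 0 < Real.sinh t := Real.sinh_pos_iff.2 ht
  rw [norm_div, norm_mul, Clausen_sinh_norm ht, Complex.norm_real, Real.norm_of_nonneg ht.le]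
  have h1 := Clausen_ratio ht
  have h2 := Clausen_cosh_le_exp ht.le hab
  have h3 : ‖N‖ / (t * Real.sinh t) ≤ K * (t / Real.sinh t) * Real.cosh (a * t) := by
    rw [div_le_iff₀ (by positivity)]
    refine hN.trans (le_of_eq ?_)
    field_simp
  refine h3.trans ?_
  have h4 : K * (t / Real.sinh t) * Real.cosh (a * t) ≤
      K * ((1 + 2 * t) * Real.exp (-t)) * Real.exp (b * t) := by
    apply mul_le_mul (mul_le_mul_of_nonneg_left h1 hK) h2 (Real.cosh_pos _).le
    positivity
  refine h4.trans ?_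
  have e : Real.exp (-(1 - b) * t) = Real.exp (-t) * Real.exp (b * t) := by
    rw [← Real.exp_add]; congr 1; ring
  rw [e]
  have h5 : (1 + 2 * t) ≤ (1 + 2 * t) ^ 2 := by nlinarith only [ht]
  have h6 : 0 ≤ K * (Real.exp (-t) * Real.exp (b * t)) := by positivity
  calc _ = K * (Real.exp (-t) * Real.exp (b * t)) * (1 + 2 * t) := by ring
    _ ≤ K * (Real.exp (-t) * Real.exp (b * t)) * (1 + 2 * t) ^ 2 :=
      mul_le_mul_of_nonneg_left h5 h6
    _ = _ := by ring

/-! ### The function `hh` -/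

lemma Clausen_sin_re (z : ℂ) (h0 : 0 < z.re) (h1 : z.re < 1) :
    0 < (2 * Complex.sin (Real.pi * z)).re := by
  have e : (Real.pi * z : ℂ) = ((Real.pi * z.re : ℝ) : ℂ) + ((Real.pi * z.im : ℝ) : ℂ) * I := by
    apply Complex.ext <;> simp
  rw [e, Complex.sin_add_mul_I, ← Complex.ofReal_sin, ← Complex.ofReal_cosh, ← Complex.ofReal_cos,
    ← Complex.ofReal_sinh]
  have h2 : ∀ a b c d : ℝ, (2 * ((a : ℂ) * b + (c : ℂ) * d * I)).re = 2 * (a * b) := by
    intro a b c d
    simp
  rw [h2]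
  have h3 : 0 < Real.sin (Real.pi * z.re) := by
    apply Real.sin_pos_of_pos_of_lt_pi
    · positivity
    · nlinarith only [h1, Real.pi_pos]
  have h4 := Real.cosh_pos (Real.pi * z.im)
  positivity

lemma Clausen_slit (z : ℂ) (h0 : 0 < z.re) (h1 : z.re < 1) :
    2 * Complex.sin (Real.pi * z) ∈ Complex.slitPlane :=
  Or.inl (Clausen_sin_re z h0 h1)

theorem hh_hasDerivAt (z : ℂ) (h0 : 0 < z.re) (h1 : z.re < 1) :
    HasDerivAt hh (Real.pi * Complex.cot (Real.pi * z)) z := by
  have hs := Clausen_slit z h0 h1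
  have hd : HasDerivAt (fun z : ℂ => 2 * Complex.sin (Real.pi * z))
      (2 * (Complex.cos (Real.pi * z) * Real.pi)) z := by
    have h2 : HasDerivAt (fun z : ℂ => (Real.pi : ℂ) * z) Real.pi z := by
      simpa using (hasDerivAt_id z).const_mul (Real.pi : ℂ)
    exact ((Complex.hasDerivAt_sin _).comp z h2).const_mul 2
  have h3 := hd.clog hs
  have h4 : Complex.sin (Real.pi * z) ≠ 0 := by
    intro h
    have := Complex.slitPlane_ne_zero hs
    rw [h] at this
    simp at this
  have e : 2 * (Complex.cos (Real.pi * z) * Real.pi) / (2 * Complex.sin (Real.pi * z)) =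
      Real.pi * Complex.cot (Real.pi * z) := by
    rw [Complex.cot]
    field_simp
  rw [e] at h3
  exact h3

theorem hh_exp (z : ℂ) (h0 : 0 < z.re) (h1 : z.re < 1) :
    Complex.exp (hh z) = 2 * Complex.sin (Real.pi * z) :=
  Complex.exp_log (Complex.slitPlane_ne_zero (Clausen_slit z h0 h1))

theorem hh_real (x : ℝ) (h0 : 0 < x) (h1 : x < 1) :
    hh (x : ℂ) = ((Real.log (2 * Real.sin (Real.pi * x)) : ℝ) : ℂ) := by
  unfold hh
  have h2 : 0 < Real.sin (Real.pi * x) := by
    apply Real.sin_pos_of_pos_of_lt_pi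
    · positivity
    · nlinarith only [h1, Real.pi_pos]
  rw [Complex.ofReal_log (by positivity)]
  congr 1
  push_cast
  rfl

/-! ### The integral for `hh` -/

lemma Clausen_hh_norm (c : ℂ) {t : ℝ} (ht : 0 < t) :
    ‖cosh (c * t) - 1‖ ≤ ‖c‖ ^ 2 * t ^ 2 * Real.cosh (c.re * t) := by
  have h := Clausen_norm_cosh_sub_le (c * t)
  rw [norm_mul, Complex.norm_real, Real.norm_of_nonneg ht.le] at h
  have e : (c * (t : ℂ)).re = c.re * t := by simp
  rw [e] at h
  calc _ ≤ _ := h
    _ = _ := by ring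

lemma Clausen_meas_hh (c : ℂ) : MeasureTheory.AEStronglyMeasurable
    (fun t : ℝ => (cosh (c * t) - 1) / (t * sinh (t : ℂ)))
    (MeasureTheory.volume.restrict (Set.Ioi 0)) := by
  apply Measurable.aestronglyMeasurable
  fun_prop

lemma Clausen_hh_int (c : ℂ) (hc : |c.re| < 1) : MeasureTheory.IntegrableOn
    (fun t : ℝ => (cosh (c * t) - 1) / (t * sinh (t : ℂ))) (Set.Ioi 0) := by
  refine MeasureTheory.Integrable.mono' (Clausen_majorant (b := 1 - |c.re|) (by linarith)
    (‖c‖ ^ 2)) (Clausen_meas_hh c) ?_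
  refine (MeasureTheory.ae_restrict_iff' measurableSet_Ioi).2 (Filter.Eventually.of_forall ?_)
  intro t ht
  exact Clausen_bound ht le_rfl (by positivity) (Clausen_hh_norm c ht)

/-- Neighbourhood of a point of the strip with uniform bounds. -/
lemma Clausen_nhds (z : ℂ) (h0 : 0 < z.re) (h1 : z.re < 1) : ∃ b K : ℝ, b < 1 ∧ 0 ≤ K ∧
    {x : ℂ | |(1 - 2 * x).re| ≤ b ∧ ‖1 - 2 * x‖ ≤ K} ∈ nhds z := by
  have hc : |(1 - 2 * z).re| < 1 := by
    rw [abs_lt]
    constructor <;> simp <;> linarith only [h1, h0]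
  refine ⟨(|(1 - 2 * z).re| + 1) / 2, ‖1 - 2 * z‖ + 1, by linarith only [hc], by positivity, ?_⟩
  have hc1 : Continuous fun x : ℂ => |(1 - 2 * x).re| := by fun_prop
  have hc2 : Continuous fun x : ℂ => ‖1 - 2 * x‖ := by fun_prop
  have e1 := hc1.continuousAt.eventually (gt_mem_nhds (show |(1 - 2 * z).re| <
    (|(1 - 2 * z).re| + 1) / 2 by linarith only [hc]))
  have e2 := hc2.continuousAt.eventually (gt_mem_nhds (show ‖1 - 2 * z‖ < ‖1 - 2 * z‖ + 1 by
    linarith))
  filter_upwards [e1, e2] with x hx1 hx2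
  exact ⟨hx1.le, hx2.le⟩

lemma Clausen_J_hasDerivAt (z : ℂ) (h0 : 0 < z.re) (h1 : z.re < 1) :
    HasDerivAt (fun z : ℂ => ∫ t in Set.Ioi (0 : ℝ),
      (cosh ((1 - 2 * z) * t) - 1) / (t * sinh (t : ℂ)))
      (-(Real.pi * Complex.cot (Real.pi * z))) z := by
  obtain ⟨b, K, hb, hK, hs⟩ := Clausen_nhds z h0 h1
  have hz := mem_of_mem_nhds hs
  have h := hasDerivAt_integral_of_dominated_loc_of_deriv_le (𝕜 := ℂ)
    (μ := MeasureTheory.volume.restrict (Set.Ioi (0 : ℝ)))
    (F := fun (z : ℂ) (t : ℝ) => (cosh ((1 - 2 * z) * t) - 1) / (t * sinh (t : ℂ)))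
    (F' := fun (z : ℂ) (t : ℝ) => (sinh ((1 - 2 * z) * t) * (-2 * t)) / (t * sinh (t : ℂ)))
    (x₀ := z) (s := {x : ℂ | |(1 - 2 * x).re| ≤ b ∧ ‖1 - 2 * x‖ ≤ K})
    (bound := fun t => (2 * K) * ((1 + 2 * t) ^ 2 * Real.exp (-(1 - b) * t))) hs
    (Filter.Eventually.of_forall fun x => Clausen_meas_hh (1 - 2 * x))
    (Clausen_hh_int _ (lt_of_le_of_lt hz.1 hb))
    (by
      apply Measurable.aestronglyMeasurable
      fun_prop)
    (by
      refine (MeasureTheory.ae_restrict_iff' measurableSet_Ioi).2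
        (Filter.Eventually.of_forall ?_)
      intro t ht x hx
      have ht' : 0 < t := ht
      apply Clausen_bound ht' hx.1 (by positivity)
      have h2 := Clausen_norm_sinh_le ((1 - 2 * x) * t)
      rw [norm_mul, Complex.norm_real, Real.norm_of_nonneg ht'.le] at h2
      have e : ((1 - 2 * x) * (t : ℂ)).re = (1 - 2 * x).re * t := by simp
      rw [e] at h2
      rw [norm_mul, norm_mul, norm_neg, Complex.norm_real, Real.norm_of_nonneg ht'.le]
      have e2 : ‖(2 : ℂ)‖ = 2 := by simp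
      rw [e2]
      have hcosh := Real.cosh_pos ((1 - 2 * x).re * t)
      calc ‖sinh ((1 - 2 * x) * t)‖ * (2 * t)
          ≤ ‖1 - 2 * x‖ * t * Real.cosh ((1 - 2 * x).re * t) * (2 * t) :=
            mul_le_mul_of_nonneg_right h2 (by positivity)
        _ = ‖1 - 2 * x‖ * (2 * t ^ 2 * Real.cosh ((1 - 2 * x).re * t)) := by ring
        _ ≤ K * (2 * t ^ 2 * Real.cosh ((1 - 2 * x).re * t)) :=
            mul_le_mul_of_nonneg_right hx.2 (by positivity)
        _ = _ := by ring)
    (Clausen_majorant (by linarith) _)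
    (by
      refine (MeasureTheory.ae_restrict_iff' measurableSet_Ioi).2
        (Filter.Eventually.of_forall ?_)
      intro t ht x hx
      have h2 : HasDerivAt (fun x : ℂ => (1 - 2 * x) * t) (-2 * t) x := by
        have := (((hasDerivAt_id x).const_mul (2 : ℂ)).const_sub 1).mul_const (t : ℂ)
        simpa using this
      have h3 := ((Complex.hasDerivAt_cosh _).comp x h2).sub_const 1
      exact h3.div_const _)
  have h2 := h.2
  have e : (∫ t in Set.Ioi (0 : ℝ), (sinh ((1 - 2 * z) * t) * (-2 * t)) / (t * sinh (t : ℂ))) =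
      -(Real.pi * Complex.cot (Real.pi * z)) := by
    rw [← int_sinh z h0 h1, ← neg_mul, ← MeasureTheory.integral_const_mul]
    apply MeasureTheory.setIntegral_congr_fun measurableSet_Ioi
    intro t ht
    have ht' : (t : ℂ) ≠ 0 := by
      have : (0 : ℝ) < t := ht
      exact_mod_cast this.ne'
    simp only
    rw [show sinh ((1 - 2 * z) * t) * (-2 * (t : ℂ)) = (t : ℂ) * (-2 * sinh ((1 - 2 * z) * t)) by
      ring, mul_div_mul_left _ _ ht']
    ring
  rw [e] at h2
  exact h2

/-- The strip is convex and open. -/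
def Clausen_strip : Set ℂ := {z : ℂ | 0 < z.re ∧ z.re < 1}

lemma Clausen_strip_convex : Convex ℝ Clausen_strip := by
  have h : Clausen_strip = Complex.reLm ⁻¹' (Set.Ioo 0 1) := by
    ext x
    simp [Clausen_strip]
  rw [h]
  exact (convex_Ioo _ _).linear_preimage _

lemma Clausen_strip_open : IsOpen Clausen_strip := by
  have h : Clausen_strip = Complex.re ⁻¹' (Set.Ioo 0 1) := by
    ext x
    simp [Clausen_strip]
  rw [h]
  exact isOpen_Ioo.preimage Complex.continuous_re

lemma Clausen_const {f : ℂ → ℂ} (hf : ∀ z : ℂ, 0 < z.re → z.re < 1 → HasDerivAt f 0 z) {z : ℂ}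
    (h0 : 0 < z.re) (h1 : z.re < 1) : f z = f (1 / 2) := by
  apply Clausen_strip_convex.is_const_of_fderivWithin_eq_zero (𝕜 := ℂ) (f := f)
  · intro x hx
    exact (hf x hx.1 hx.2).differentiableAt.differentiableWithinAt
  · intro x hx
    rw [fderivWithin_of_isOpen Clausen_strip_open hx]
    ext
    simp [(hf x hx.1 hx.2).deriv]
  · exact ⟨h0, h1⟩
  · constructor <;> norm_num

/-- `h(z) = log 2 - ∫ (cosh ((1-2z)t) - 1) / (t sinh t)`. -/
theorem hh_integral (z : ℂ) (h0 : 0 < z.re) (h1 : z.re < 1) :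
    MeasureTheory.IntegrableOn (fun t : ℝ => (cosh ((1 - 2 * z) * t) - 1) / (t * sinh (t : ℂ)))
      (Set.Ioi 0) ∧
    hh z = Real.log 2 - ∫ t in Set.Ioi (0 : ℝ),
      (cosh ((1 - 2 * z) * t) - 1) / (t * sinh (t : ℂ)) := by
  have hc : |(1 - 2 * z).re| < 1 := by
    rw [abs_lt]
    constructor <;> simp <;> linarith
  refine ⟨Clausen_hh_int _ hc, ?_⟩
  have h := Clausen_const (f := fun z => hh z + ∫ t in Set.Ioi (0 : ℝ),
      (cosh ((1 - 2 * z) * t) - 1) / (t * sinh (t : ℂ))) (by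
    intro z h0 h1
    have := (hh_hasDerivAt z h0 h1).add (Clausen_J_hasDerivAt z h0 h1)
    rw [add_neg_cancel] at this
    exact this) h0 h1
  have h2 : (∫ t in Set.Ioi (0 : ℝ),
      (cosh ((1 - 2 * (1 / 2 : ℂ)) * t) - 1) / (t * sinh (t : ℂ))) = 0 := by
    have : ∀ t : ℝ, (cosh ((1 - 2 * (1 / 2 : ℂ)) * t) - 1) / (t * sinh (t : ℂ)) = 0 := by
      intro t
      have e : (1 - 2 * (1 / 2 : ℂ)) * t = 0 := by ring
      rw [e, Complex.cosh_zero]
      simp
    simp only [this, MeasureTheory.integral_zero]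
  have h3 : hh (1 / 2) = Real.log 2 := by
    have := hh_real (1 / 2) (by norm_num) (by norm_num)
    have e : Real.pi * (1 / 2) = Real.pi / 2 := by ring
    rw [e, Real.sin_pi_div_two, mul_one] at this
    rw [← this]
    norm_num
  rw [h2, h3, add_zero] at h
  rw [← h]
  ring

/-! ### The function `ff` -/

lemma Clausen_ff_norm (c : ℂ) {t : ℝ} (ht : 0 < t) :
    ‖Complex.sinh (c * t) / (2 * t) - c / 2‖ ≤ ‖c‖ ^ 3 * t ^ 2 * Real.cosh (c.re * t) := by
  have ht' : (t : ℂ) ≠ 0 := by exact_mod_cast ht.ne'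
  have h := Clausen_norm_sinh_sub_le (c * t)
  rw [norm_mul, Complex.norm_real, Real.norm_of_nonneg ht.le] at h
  have e : (c * (t : ℂ)).re = c.re * t := by simp
  rw [e] at h
  have e2 : Complex.sinh (c * t) / (2 * t) - c / 2 = (sinh (c * t) - c * t) / (2 * t) := by
    field_simp
  rw [e2, norm_div, norm_mul, Complex.norm_real, Real.norm_of_nonneg ht.le]
  have e3 : ‖(2 : ℂ)‖ = 2 := by simp
  rw [e3, div_le_iff₀ (by positivity)]
  refine h.trans ?_
  have hcosh := Real.cosh_pos (c.re * t)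
  have : 0 ≤ ‖c‖ ^ 3 * t ^ 3 * Real.cosh (c.re * t) := by positivity
  calc (‖c‖ * t) ^ 3 * Real.cosh (c.re * t) = ‖c‖ ^ 3 * t ^ 3 * Real.cosh (c.re * t) := by ring
    _ ≤ 2 * (‖c‖ ^ 3 * t ^ 3 * Real.cosh (c.re * t)) := by linarith only [this]
    _ = _ := by ring

lemma Clausen_meas_ff (c : ℂ) : MeasureTheory.AEStronglyMeasurable
    (fun t : ℝ => (Complex.sinh (c * t) / (2 * t) - c / 2) / (t * Complex.sinh t))
    (MeasureTheory.volume.restrict (Set.Ioi 0)) := by
  apply Measurable.aestronglyMeasurable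
  fun_prop

theorem ff_integrable (z : ℂ) (h0 : 0 < z.re) (h1 : z.re < 1) :
    MeasureTheory.IntegrableOn (fun t : ℝ =>
      (Complex.sinh ((1 - 2 * z) * t) / (2 * t) - (1 - 2 * z) / 2) / (t * Complex.sinh t))
      (Set.Ioi 0) := by
  have hc : |(1 - 2 * z).re| < 1 := by
    rw [abs_lt]
    constructor <;> simp <;> linarith
  refine MeasureTheory.Integrable.mono' (Clausen_majorant (b := 1 - |(1 - 2 * z).re|)
    (by linarith) (‖1 - 2 * z‖ ^ 3)) (Clausen_meas_ff _) ?_
  refine (MeasureTheory.ae_restrict_iff' measurableSet_Ioi).2 (Filter.Eventually.of_forall ?_)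
  intro t ht
  exact Clausen_bound ht le_rfl (by positivity) (Clausen_ff_norm _ ht)

theorem ff_hasDerivAt (z : ℂ) (h0 : 0 < z.re) (h1 : z.re < 1) : HasDerivAt ff (hh z) z := by
  obtain ⟨b, K, hb, hK, hs⟩ := Clausen_nhds z h0 h1
  have hz := mem_of_mem_nhds hs
  have h := hasDerivAt_integral_of_dominated_loc_of_deriv_le (𝕜 := ℂ)
    (μ := MeasureTheory.volume.restrict (Set.Ioi (0 : ℝ)))
    (F := fun (z : ℂ) (t : ℝ) =>
      (Complex.sinh ((1 - 2 * z) * t) / (2 * t) - (1 - 2 * z) / 2) / (t * Complex.sinh t))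
    (F' := fun (z : ℂ) (t : ℝ) => (cosh ((1 - 2 * z) * t) * (-2 * t) / (2 * t) - (-2) / 2) /
      (t * sinh (t : ℂ)))
    (x₀ := z) (s := {x : ℂ | |(1 - 2 * x).re| ≤ b ∧ ‖1 - 2 * x‖ ≤ K})
    (bound := fun t => (K ^ 2) * ((1 + 2 * t) ^ 2 * Real.exp (-(1 - b) * t))) hs
    (Filter.Eventually.of_forall fun x => Clausen_meas_ff (1 - 2 * x))
    (ff_integrable z h0 h1)
    (by
      apply Measurable.aestronglyMeasurable
      fun_prop)
    (by
      refine (MeasureTheory.ae_restrict_iff' measurableSet_Ioi).2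
        (Filter.Eventually.of_forall ?_)
      intro t ht x hx
      have ht' : 0 < t := ht
      have ht'' : (t : ℂ) ≠ 0 := by exact_mod_cast ht'.ne'
      apply Clausen_bound ht' hx.1 (by positivity)
      have e : cosh ((1 - 2 * x) * t) * (-2 * (t : ℂ)) / (2 * t) - (-2) / 2 =
          -(cosh ((1 - 2 * x) * t) - 1) := by
        field_simp
        ring
      rw [e, norm_neg]
      refine (Clausen_hh_norm _ ht').trans ?_
      have hcosh := Real.cosh_pos ((1 - 2 * x).re * t)
      have : ‖1 - 2 * x‖ ^ 2 ≤ K ^ 2 := pow_le_pow_left₀ (norm_nonneg _) hx.2 2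
      calc ‖1 - 2 * x‖ ^ 2 * t ^ 2 * Real.cosh ((1 - 2 * x).re * t)
          = ‖1 - 2 * x‖ ^ 2 * (t ^ 2 * Real.cosh ((1 - 2 * x).re * t)) := by ring
        _ ≤ K ^ 2 * (t ^ 2 * Real.cosh ((1 - 2 * x).re * t)) :=
            mul_le_mul_of_nonneg_right this (by positivity)
        _ = _ := by ring)
    (Clausen_majorant (by linarith) _)
    (by
      refine (MeasureTheory.ae_restrict_iff' measurableSet_Ioi).2
        (Filter.Eventually.of_forall ?_)
      intro t ht x hx
      have h2 : HasDerivAt (fun x : ℂ => (1 - 2 * x) * t) (-2 * t) x := by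
        have := (((hasDerivAt_id x).const_mul (2 : ℂ)).const_sub 1).mul_const (t : ℂ)
        simpa using this
      have h2' : HasDerivAt (fun x : ℂ => (1 - 2 * x) / 2) (-2 / 2) x := by
        have := (((hasDerivAt_id x).const_mul (2 : ℂ)).const_sub 1).div_const (2 : ℂ)
        simpa using this
      have h3 := (((Complex.hasDerivAt_sinh _).comp x h2).div_const (2 * (t : ℂ))).sub h2'
      exact h3.div_const _)
  have h2 := h.2
  have e : (∫ t in Set.Ioi (0 : ℝ), (cosh ((1 - 2 * z) * t) * (-2 * t) / (2 * t) - (-2) / 2) /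
      (t * sinh (t : ℂ))) = -∫ t in Set.Ioi (0 : ℝ),
      (cosh ((1 - 2 * z) * t) - 1) / (t * sinh (t : ℂ)) := by
    rw [← MeasureTheory.integral_neg]
    apply MeasureTheory.setIntegral_congr_fun measurableSet_Ioi
    intro t ht
    have ht' : (t : ℂ) ≠ 0 := by
      have : (0 : ℝ) < t := ht
      exact_mod_cast this.ne'
    simp only
    rw [← neg_div]
    congr 1
    field_simp
    ring
  rw [e] at h2
  have h3 : HasDerivAt (fun z : ℂ => (z - 1 / 2) * (Real.log 2 : ℂ)) (Real.log 2 : ℂ) z := by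
    have := ((hasDerivAt_id z).sub_const (1 / 2 : ℂ)).mul_const (Real.log 2 : ℂ)
    simpa using this
  have h4 := h3.add h2
  rw [(hh_integral z h0 h1).2]
  have e5 : ((Real.log 2 : ℝ) : ℂ) - ∫ t in Set.Ioi (0 : ℝ),
      (cosh ((1 - 2 * z) * t) - 1) / (t * sinh (t : ℂ)) = ((Real.log 2 : ℝ) : ℂ) +
      -∫ t in Set.Ioi (0 : ℝ), (cosh ((1 - 2 * z) * t) - 1) / (t * sinh (t : ℂ)) := by ring
  rw [e5]
  exact h4

theorem ff_reflect (z : ℂ) : ff (1 - z) = -ff z := by
  unfold ff
  have e : (∫ t in Set.Ioi (0 : ℝ), (Complex.sinh ((1 - 2 * (1 - z)) * t) / (2 * t) -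
      (1 - 2 * (1 - z)) / 2) / (t * Complex.sinh t)) =
      -∫ t in Set.Ioi (0 : ℝ), (Complex.sinh ((1 - 2 * z) * t) / (2 * t) - (1 - 2 * z) / 2) /
        (t * Complex.sinh t) := by
    rw [← MeasureTheory.integral_neg]
    congr 1
    funext t
    have e1 : (1 - 2 * (1 - z)) * (t : ℂ) = -((1 - 2 * z) * t) := by ring
    rw [e1, Complex.sinh_neg]
    ring
  rw [e]
  ring

theorem ff_real (x : ℝ) (h0 : 0 < x) (h1 : x < 1) : ff (x : ℂ) = (Fr x : ℂ) := by
  have key : ∀ y ∈ Set.Ioo (0 : ℝ) 1, HasDerivAt (fun x : ℝ => ff (x : ℂ) - (Fr x : ℂ)) 0 y := by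
    intro y hy
    have h2 := (ff_hasDerivAt (y : ℂ) (by simpa using hy.1) (by simpa using hy.2)).comp_ofReal
    have h3 := (Fr_hasDerivAt y hy.1 hy.2).ofReal_comp
    have h4 := h2.sub h3
    rw [hh_real y hy.1 hy.2, sub_self] at h4
    exact h4
  have h2 : (fun x : ℝ => ff (x : ℂ) - (Fr x : ℂ)) x =
      (fun x : ℝ => ff (x : ℂ) - (Fr x : ℂ)) (1 / 2) := by
    refine (convex_Ioo (0 : ℝ) 1).is_const_of_fderivWithin_eq_zero (𝕜 := ℝ)
      (f := fun x : ℝ => ff (x : ℂ) - (Fr x : ℂ)) ?_ ?_ ?_ ?_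
    · intro y hy
      exact (key y hy).differentiableAt.differentiableWithinAt
    · intro y hy
      rw [fderivWithin_of_isOpen isOpen_Ioo hy]
      ext
      simp [(key y hy).deriv]
    · exact ⟨h0, h1⟩
    · constructor <;> norm_num
  simp only at h2
  have h3 : ff ((1 / 2 : ℝ) : ℂ) = 0 := by
    unfold ff
    have e : ∀ t : ℝ, (Complex.sinh ((1 - 2 * ((1 / 2 : ℝ) : ℂ)) * t) / (2 * t) -
        (1 - 2 * ((1 / 2 : ℝ) : ℂ)) / 2) / (t * Complex.sinh t) = 0 := by
      intro t
      have e2 : (1 - 2 * ((1 / 2 : ℝ) : ℂ)) = 0 := by push_cast; ring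
      rw [e2]
      simp
    simp only [e, MeasureTheory.integral_zero]
    push_cast
    ring
  rw [h3, Fr_half] at h2
  simp only [Complex.ofReal_zero, sub_zero] at h2
  exact sub_eq_zero.1 h2

end Pool.Agent.H63.VC3

end
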