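import Pool.Agent.H94.PA.H63.VC3.LLfun

/-! The parts of this file: H63.VC3.LLasym, H63.VC3.KB. -/

section

/-! # Comparison of `LL` with `ff` -/

namespace Pool.Agent.H63.VC3

open Pool.Agent.H63.VC Complex

private theorem LLasym_sinh_le (x : ℝ) (hx : 0 ≤ x) : Real.sinh x ≤ x * Real.cosh x := by
  have hd : ∀ y : ℝ, HasDerivAt (fun y : ℝ => y * Real.cosh y - Real.sinh y)
      (y * Real.sinh y) y := by
    intro y
    have h := ((hasDerivAt_id y).mul (Real.hasDerivAt_cosh y)).sub (Real.hasDerivAt_sinh y)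
    refine h.congr_deriv ?_
    simp
  have hm : MonotoneOn (fun y : ℝ => y * Real.cosh y - Real.sinh y) (Set.Ici 0) := by
    refine monotoneOn_of_deriv_nonneg (convex_Ici 0)
      (fun y _ => (hd y).continuousAt.continuousWithinAt)
      (fun y _ => (hd y).differentiableAt.differentiableWithinAt) fun y hy => ?_
    rw [interior_Ici, Set.mem_Ioi] at hy
    rw [(hd y).deriv]
    exact mul_nonneg hy.le (Real.sinh_nonneg_iff.2 hy.le)
  have := hm (Set.mem_Ici.2 le_rfl) (Set.mem_Ici.2 hx) hx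
  simp only [zero_mul, Real.sinh_zero, sub_zero] at this
  linarith

private theorem LLasym_abs_sinh_le (x : ℝ) : |Real.sinh x| ≤ |x| * Real.cosh x := by
  rcases le_total 0 x with h | h
  · rw [abs_of_nonneg h, abs_of_nonneg (Real.sinh_nonneg_iff.2 h)]
    exact LLasym_sinh_le x h
  · rw [abs_of_nonpos h, abs_of_nonpos (Real.sinh_nonpos_iff.2 h), ← Real.sinh_neg,
      ← Real.cosh_neg]
    exact LLasym_sinh_le (-x) (by linarith)

private theorem LLasym_csinh (w : ℂ) : ‖Complex.sinh w‖ ≤ (|w.re| + |w.im|) * Real.cosh w.re := by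
  have h : Complex.sinh w = (Real.sinh w.re * Real.cos w.im : ℝ) +
      (Real.cosh w.re * Real.sin w.im : ℝ) * I := by
    conv_lhs => rw [← Complex.re_add_im w]
    rw [Complex.sinh_add, Complex.cosh_mul_I, Complex.sinh_mul_I]
    push_cast
    ring
  rw [h]
  refine (norm_add_le _ _).trans ?_
  rw [norm_mul, Complex.norm_I, mul_one, Complex.norm_real, Complex.norm_real, Real.norm_eq_abs,
    Real.norm_eq_abs, abs_mul, abs_mul, abs_of_pos (Real.cosh_pos w.re)]
  have h1 := LLasym_abs_sinh_le w.re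
  have h2 : |Real.cos w.im| ≤ 1 := Real.abs_cos_le_one _
  have h3 : |Real.sin w.im| ≤ |w.im| := Real.abs_sin_le_abs
  have h4 : |Real.sinh w.re| * |Real.cos w.im| ≤ |w.re| * Real.cosh w.re * 1 := by
    refine mul_le_mul h1 h2 (abs_nonneg _) ?_
    exact mul_nonneg (abs_nonneg _) (Real.cosh_pos _).le
  have h5 : Real.cosh w.re * |Real.sin w.im| ≤ Real.cosh w.re * |w.im| :=
    mul_le_mul_of_nonneg_left h3 (Real.cosh_pos _).le
  nlinarith only [h4, h5]

private theorem LLasym_inv (x : ℝ) (hx : 0 < x) :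
    |1 / Real.sinh x - 1 / x| ≤ x / 2 := by
  have hs : 0 < Real.sinh x := Real.sinh_pos_iff.2 hx
  have h1 : x ≤ Real.sinh x := Real.self_le_sinh_iff.2 hx.le
  have h2 : Real.sinh x ≤ x * Real.cosh x := LLasym_sinh_le x hx.le
  have h3 : Real.sinh (x / 2) ≤ x / 2 * Real.cosh (x / 2) := LLasym_sinh_le (x / 2) (by linarith only [hx])
  have h4 : Real.cosh x - 1 = 2 * Real.sinh (x / 2) ^ 2 := by
    have := Real.cosh_two_mul (x / 2)
    have e := Real.cosh_sq (x / 2)
    rw [show 2 * (x / 2) = x by ring] at this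
    linarith only [this, e]
  have h5 : Real.sinh x = 2 * Real.sinh (x / 2) * Real.cosh (x / 2) := by
    have := Real.sinh_two_mul (x / 2)
    rwa [show 2 * (x / 2) = x by ring] at this
  have hs2 : 0 ≤ Real.sinh (x / 2) := Real.sinh_nonneg_iff.2 (by linarith only [hx])
  have h6 : Real.cosh x - 1 ≤ x / 2 * Real.sinh x := by
    rw [h4, h5]
    nlinarith only [h3, hs2]
  have h7 : Real.sinh x - x ≤ x * (x / 2 * Real.sinh x) := by nlinarith only [h2, hx, h6]
  rw [abs_sub_comm, abs_of_nonneg]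
  · rw [div_sub_div _ _ hx.ne' hs.ne', div_le_div_iff₀ (by positivity) (by norm_num)]
    nlinarith only [h7]
  · rw [sub_nonneg]
    exact one_div_le_one_div_of_le hx h1

private theorem LLasym_frac (t c a : ℝ) (ht : 0 < t) (hc : 0 < c) (ha : |a| ≤ 1 - 2 * c) :
    t / Real.sinh t * Real.cosh (a * t) ≤ (1 + 2 / c) * Real.exp (-c * t) := by
  have hs : 0 < Real.sinh t := Real.sinh_pos_iff.2 ht
  have h1 : Real.cosh (a * t) ≤ Real.exp ((1 - 2 * c) * t) := by
    rw [← Real.cosh_abs, abs_mul, abs_of_pos ht]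
    have : Real.cosh (|a| * t) ≤ Real.exp (|a| * t) := by
      rw [Real.cosh_eq]
      have : Real.exp (-(|a| * t)) ≤ Real.exp (|a| * t) :=
        Real.exp_le_exp.2 (by nlinarith only [ht, abs_nonneg a])
      linarith only [this]
    exact this.trans (Real.exp_le_exp.2 (by nlinarith only [ht, ha]))
  have h2 : t / Real.sinh t ≤ (1 + 2 * t) * Real.exp (-t) := by
    rw [div_le_iff₀ hs, Real.sinh_eq]
    have e1 : Real.exp (-t) * Real.exp t = 1 := by rw [← Real.exp_add]; simp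
    have e2 : Real.exp (-t) * Real.exp (-t) = Real.exp (-(2 * t)) := by
      rw [← Real.exp_add]; congr 1; ring
    have e3 : Real.exp (-(2 * t)) * (1 + 2 * t) ≤ 1 := by
      have h := Real.add_one_le_exp (2 * t)
      have h' : Real.exp (-(2 * t)) * Real.exp (2 * t) = 1 := by rw [← Real.exp_add]; simp
      nlinarith only [h', h, e2, Real.exp_pos (-(2 * t))]
    have : (1 + 2 * t) * Real.exp (-t) * ((Real.exp t - Real.exp (-t)) / 2) =
        ((1 + 2 * t) - Real.exp (-(2 * t)) * (1 + 2 * t)) / 2 := by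
      rw [← e2]
      linear_combination ((1 + 2 * t) / 2) * e1
    rw [this]
    linarith only [e3]
  have h3 : t / Real.sinh t * Real.cosh (a * t) ≤
      ((1 + 2 * t) * Real.exp (-t)) * Real.exp ((1 - 2 * c) * t) :=
    mul_le_mul h2 h1 (Real.cosh_pos _).le (by positivity)
  refine h3.trans ?_
  have h4 : ((1 + 2 * t) * Real.exp (-t)) * Real.exp ((1 - 2 * c) * t) =
      (1 + 2 * t) * Real.exp (-c * t) * Real.exp (-c * t) := by
    rw [mul_assoc, mul_assoc, ← Real.exp_add, ← Real.exp_add]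
    congr 2
    ring
  rw [h4]
  have h5 : (1 + 2 * t) * Real.exp (-c * t) ≤ 1 + 2 / c := by
    have h := Real.add_one_le_exp (c * t)
    have h' : Real.exp (-c * t) * Real.exp (c * t) = 1 := by
      rw [← Real.exp_add]
      simp
    have h6 : 1 + 2 * t ≤ (1 + 2 / c) * (c * t + 1) := by
      have : (1 + 2 / c) * (c * t + 1) = 1 + 2 * t + c * t + 2 / c := by
        field_simp
        ring
      rw [this]
      have : 0 ≤ c * t + 2 / c := by positivity
      linarith only [this]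
    calc (1 + 2 * t) * Real.exp (-c * t) ≤ ((1 + 2 / c) * (c * t + 1)) * Real.exp (-c * t) :=
          mul_le_mul_of_nonneg_right h6 (Real.exp_pos _).le
      _ ≤ ((1 + 2 / c) * Real.exp (c * t)) * Real.exp (-c * t) := by
          refine mul_le_mul_of_nonneg_right ?_ (Real.exp_pos _).le
          exact mul_le_mul_of_nonneg_left h (by positivity)
      _ = 1 + 2 / c := by rw [mul_assoc, mul_comm (Real.exp (c * t)), h', mul_one]
  exact mul_le_mul_of_nonneg_right h5 (Real.exp_pos _).le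

/-- Comparison with `ff`, uniform on compact subsets of the strip. -/
theorem LL_asym (c B : ℝ) (hc : 0 < c) : ∃ C : ℝ, 0 < C ∧ ∀ M : ℕ, 1 ≤ M → ∀ z : ℂ, c ≤ z.re →
    z.re ≤ 1 - c → |z.im| ≤ B → ‖LL M (M * z - 1 / 2) - Real.log M / 2 - M * ff z‖ ≤ C / M := by
  refine ⟨(1 + 2 * |B|) / 4 * (1 + 2 / c) * (1 / c), by positivity, fun M hM z h1 h2 h3 => ?_⟩
  have hM0 : (0 : ℝ) < M := by exact_mod_cast hM
  have hMc : (M : ℂ) ≠ 0 := by exact_mod_cast hM0.ne'
  have hs0 : -1 < ((M : ℂ) * z - 1 / 2).re := by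
    have : ((M : ℂ) * z - 1 / 2).re = M * z.re - 1 / 2 := by simp
    rw [this]
    nlinarith only [hc, h1, h2]
  have hs1 : ((M : ℂ) * z - 1 / 2).re < M := by
    have : ((M : ℂ) * z - 1 / 2).re = M * z.re - 1 / 2 := by simp
    rw [this]
    nlinarith only [hc, h1, h2]
  have i1 := LL_integrable M hM _ hs0 hs1
  have i2 := ff_integrable z (by linarith only [hc, h1]) (by linarith only [hc, h2])
  have e0 : LL M (M * z - 1 / 2) - Real.log M / 2 - M * ff z =
      ∫ t in Set.Ioi (0 : ℝ), ((Complex.sinh ((M - 2 * ((M : ℂ) * z - 1 / 2) - 1) * t / M) /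
        (2 * Complex.sinh (t / M)) + ((M : ℂ) * z - 1 / 2) - (M - 1) / 2) /
        (t * Complex.sinh t) - M * ((Complex.sinh ((1 - 2 * z) * t) / (2 * t) - (1 - 2 * z) / 2) /
        (t * Complex.sinh t))) := by
    rw [MeasureTheory.integral_sub i1 (i2.const_mul _), MeasureTheory.integral_const_mul]
    unfold LL ff
    ring
  rw [e0]
  have hg : MeasureTheory.IntegrableOn (fun t : ℝ => (1 + 2 * |B|) / (4 * M) *
      ((1 + 2 / c) * Real.exp (-c * t))) (Set.Ioi 0) :=
    ((integrableOn_exp_mul_Ioi (a := -c) (by linarith only [hc]) 0).const_mul _).const_mul _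
  refine (MeasureTheory.norm_integral_le_of_norm_le hg ?_).trans ?_
  · refine (MeasureTheory.ae_restrict_iff' measurableSet_Ioi).2 (Filter.Eventually.of_forall ?_)
    intro t ht
    rw [Set.mem_Ioi] at ht
    have hx : 0 < t / M := div_pos ht hM0
    have hsx : 0 < Real.sinh (t / M) := Real.sinh_pos_iff.2 hx
    have hst : 0 < Real.sinh t := Real.sinh_pos_iff.2 ht
    have hsxc : Complex.sinh ((t : ℂ) / M) = ((Real.sinh (t / M) : ℝ) : ℂ) := by
      push_cast; rfl
    have hstc : Complex.sinh (t : ℂ) = ((Real.sinh t : ℝ) : ℂ) := by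
      push_cast; rfl
    have hsxc0 : ((Real.sinh (t / M) : ℝ) : ℂ) ≠ 0 := by exact_mod_cast hsx.ne'
    have hstc0 : ((Real.sinh t : ℝ) : ℂ) ≠ 0 := by exact_mod_cast hst.ne'
    have htc0 : (t : ℂ) ≠ 0 := by exact_mod_cast ht.ne'
    have ecs : (M - 2 * ((M : ℂ) * z - 1 / 2) - 1) * t / M = (1 - 2 * z) * t := by
      field_simp
      ring
    have e1 : ((Complex.sinh ((M - 2 * ((M : ℂ) * z - 1 / 2) - 1) * t / M) /
        (2 * Complex.sinh (t / M)) + ((M : ℂ) * z - 1 / 2) - (M - 1) / 2) /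
        (t * Complex.sinh t) - M * ((Complex.sinh ((1 - 2 * z) * t) / (2 * t) - (1 - 2 * z) / 2) /
        (t * Complex.sinh t))) =
        Complex.sinh ((1 - 2 * z) * t) *
          (((1 / Real.sinh (t / M) - 1 / (t / M)) : ℝ) : ℂ) / 2 / ((t * Real.sinh t : ℝ) : ℂ) := by
      rw [ecs, hsxc, hstc]
      push_cast
      rw [← hsxc, ← hstc] at *
      field_simp
      ring
    rw [e1, norm_div, norm_div, norm_mul, Complex.norm_real, Complex.norm_real, Real.norm_eq_abs,
      Real.norm_eq_abs, abs_of_pos (mul_pos ht hst)]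
    have n1 := LLasym_csinh ((1 - 2 * z) * t)
    have hre : ((1 - 2 * z) * t).re = (1 - 2 * z.re) * t := by simp
    have him : ((1 - 2 * z) * t).im = (-2 * z.im) * t := by simp
    rw [hre, him, abs_mul, abs_mul, abs_of_pos ht] at n1
    have ha : |1 - 2 * z.re| ≤ 1 - 2 * c := abs_le.2 ⟨by linarith only [h2], by linarith only [h1]⟩
    have hb : |(-2) * z.im| ≤ 2 * |B| := by
      rw [abs_mul, abs_neg, abs_two]
      have := h3.trans (le_abs_self B)
      linarith only [this]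
    have n2 : (|1 - 2 * z.re| * t + |(-2) * z.im| * t) * Real.cosh ((1 - 2 * z.re) * t) ≤
        ((1 + 2 * |B|) * t) * Real.cosh ((1 - 2 * z.re) * t) := by
      refine mul_le_mul_of_nonneg_right ?_ (Real.cosh_pos _).le
      nlinarith only [hc, ht, h1, h2, ha, hb]
    have n3 := LLasym_inv (t / M) hx
    have n4 := LLasym_frac t c (1 - 2 * z.re) ht hc ha
    have n5 : ‖Complex.sinh ((1 - 2 * z) * t)‖ * |1 / Real.sinh (t / M) - 1 / (t / M)| ≤
        ((1 + 2 * |B|) * t) * Real.cosh ((1 - 2 * z.re) * t) * (t / M / 2) :=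
      mul_le_mul (n1.trans n2) n3 (abs_nonneg _) (by positivity)
    have h2n : ‖(2 : ℂ)‖ = 2 := by simp
    rw [h2n]
    calc ‖Complex.sinh ((1 - 2 * z) * t)‖ * |1 / Real.sinh (t / M) - 1 / (t / M)| / 2 /
          (t * Real.sinh t)
        ≤ ((1 + 2 * |B|) * t) * Real.cosh ((1 - 2 * z.re) * t) * (t / M / 2) / 2 /
          (t * Real.sinh t) := by gcongr
      _ = (1 + 2 * |B|) / (4 * M) * (t / Real.sinh t * Real.cosh ((1 - 2 * z.re) * t)) := by
          field_simp
          ring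
      _ ≤ (1 + 2 * |B|) / (4 * M) * ((1 + 2 / c) * Real.exp (-c * t)) := by
          refine mul_le_mul_of_nonneg_left n4 (by positivity)
  · rw [MeasureTheory.integral_const_mul, MeasureTheory.integral_const_mul,
      integral_exp_mul_Ioi (a := -c) (by linarith only [hc]) 0]
    apply le_of_eq
    simp only [mul_zero, Real.exp_zero]
    field_simp

end Pool.Agent.H63.VC3

end

section

/-! # Bounds and limits of the kernels -/

namespace Pool.Agent.H63.VC3

open Pool.Agent.H63.VC Complex Filter Topology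

theorem KB_norm_cos_le (z : ℂ) : ‖Complex.cos z‖ ≤ Real.exp |z.im| := by
  rw [Complex.cos, norm_div]
  have h1 : ‖Complex.exp (z * I) + Complex.exp (-z * I)‖ ≤ 2 * Real.exp |z.im| := by
    refine (norm_add_le _ _).trans ?_
    rw [Complex.norm_exp, Complex.norm_exp]
    have e1 : (z * I).re = -z.im := by simp
    have e2 : (-z * I).re = z.im := by simp
    rw [e1, e2]
    have h2 : Real.exp (-z.im) ≤ Real.exp |z.im| := Real.exp_le_exp.2 (neg_le_abs _)
    have h3 : Real.exp z.im ≤ Real.exp |z.im| := Real.exp_le_exp.2 (le_abs_self _)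
    linarith
  have h2 : ‖(2 : ℂ)‖ = 2 := by simp
  rw [h2]
  linarith

theorem KB_norm_sin_le (z : ℂ) : ‖Complex.sin z‖ ≤ Real.exp |z.im| := by
  have h : Complex.sin z = Complex.cos (Real.pi / 2 - z) := by
    rw [← Complex.sin_pi_div_two_sub (Real.pi / 2 - z)]
    congr 1
    ring
  rw [h]
  refine (KB_norm_cos_le _).trans ?_
  have : ((Real.pi : ℂ) / 2 - z).im = -z.im := by
    have h1 : ((Real.pi : ℂ) / 2).im = 0 := by
      have : ((Real.pi : ℂ) / 2) = ((Real.pi / 2 : ℝ) : ℂ) := by push_cast; ring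
      rw [this, Complex.ofReal_im]
    rw [Complex.sub_im, h1]; ring
  rw [this, abs_neg]

theorem KB_Bn_norm (n M : ℕ) (v : ℂ) : ‖Bn n M v‖ ≤ (2 * Real.exp (Real.pi * |v.im|)) ^ (n - 2) := by
  unfold Bn
  rw [_root_.norm_prod]
  calc ∏ j ∈ Finset.range (n - 2), ‖2 * Complex.cos (Real.pi * (v + ((j : ℂ) + 1 - bt n) / M))‖
      ≤ ∏ _j ∈ Finset.range (n - 2), (2 * Real.exp (Real.pi * |v.im|)) := by
        refine Finset.prod_le_prod (fun _ _ => norm_nonneg _) fun j _ => ?_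
        rw [norm_mul]
        have h2 : ‖(2 : ℂ)‖ = 2 := by simp
        rw [h2]
        refine mul_le_mul_of_nonneg_left ?_ (by norm_num)
        refine (KB_norm_cos_le _).trans (le_of_eq ?_)
        congr 1
        have h3 : ((Real.pi : ℂ) * (v + ((j : ℂ) + 1 - bt n) / M)).im = Real.pi * v.im := by
          have h4 : (((j : ℂ) + 1 - bt n) / M) = ((((j : ℝ) + 1 - bt n) / M : ℝ) : ℂ) := by
            push_cast; ring
          rw [h4, Complex.im_ofReal_mul, Complex.add_im, Complex.ofReal_im, add_zero]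
        rw [h3, abs_mul, abs_of_pos Real.pi_pos]
    _ = _ := by rw [Finset.prod_const, Finset.card_range]

/-- The real points at which `LL` is evaluated. -/
theorem KB_arg (n M : ℕ) (hM : (M : ℂ) ≠ 0) (y d : ℂ) :
    (M : ℂ) * (y + 1 / 2) - bt n - 1 / 2 + d =
      M * (y + 1 / 2 + (d - bt n) / M) - 1 / 2 := by
  field_simp
  ring

theorem KB_hh_bound : ∃ K : ℝ, 0 < K ∧ ∀ z : ℂ, 6 / 10 ≤ z.re → z.re ≤ 9 / 10 → |z.im| ≤ 1 / 10 →
    ‖hh z‖ ≤ K := by
  have hcomp : IsCompact (Set.Icc (6 / 10 : ℝ) (9 / 10) ×ℂ Set.Icc (-(1 / 10) : ℝ) (1 / 10)) :=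
    isCompact_Icc.reProdIm isCompact_Icc
  have hcont : ContinuousOn hh (Set.Icc (6 / 10 : ℝ) (9 / 10) ×ℂ Set.Icc (-(1 / 10) : ℝ) (1 / 10)) := by
    intro z hz
    rw [Complex.mem_reProdIm] at hz
    exact (hh_hasDerivAt z (by linarith [hz.1.1]) (by linarith [hz.1.2])).continuousAt.continuousWithinAt
  obtain ⟨K, hK⟩ := hcomp.exists_bound_of_continuousOn hcont
  refine ⟨max K 1, by positivity, fun z h1 h2 h3 => (hK z ?_).trans (le_max_left _ _)⟩
  rw [Complex.mem_reProdIm]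
  exact ⟨⟨h1, h2⟩, abs_le.1 h3⟩

/-- Variation of `ff` for real shifts. -/
theorem KB_ff_shift {K : ℝ} (hK : ∀ z : ℂ, 6 / 10 ≤ z.re → z.re ≤ 9 / 10 → |z.im| ≤ 1 / 10 →
    ‖hh z‖ ≤ K) (z z' : ℂ) (h1 : 6 / 10 ≤ z.re) (h2 : z.re ≤ 9 / 10) (h1' : 6 / 10 ≤ z'.re)
    (h2' : z'.re ≤ 9 / 10) (h3 : |z.im| ≤ 1 / 10) (h3' : |z'.im| ≤ 1 / 10) :
    ‖ff z' - ff z‖ ≤ K * ‖z' - z‖ := by
  have hconv : Convex ℝ (Set.Icc (6 / 10 : ℝ) (9 / 10) ×ℂ Set.Icc (-(1 / 10) : ℝ) (1 / 10)) := by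
    intro u hu w hw a b ha hb hab
    rw [Complex.mem_reProdIm] at hu hw ⊢
    have e1 : (a • u + b • w).re = a • u.re + b • w.re := by simp
    have e2 : (a • u + b • w).im = a • u.im + b • w.im := by simp
    rw [e1, e2]
    exact ⟨convex_Icc _ _ hu.1 hw.1 ha hb hab, convex_Icc _ _ hu.2 hw.2 ha hb hab⟩
  refine hconv.norm_image_sub_le_of_norm_hasDerivWithin_le (f := ff) (f' := hh) (C := K)
    (fun w hw => ?_) (fun w hw => ?_) ?_ ?_
  · rw [Complex.mem_reProdIm] at hw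
    exact (ff_hasDerivAt w (by linarith only [hw, hw.1.1]) (by linarith only [hw, hw.1.2])).hasDerivWithinAt
  · rw [Complex.mem_reProdIm] at hw
    exact hK w hw.1.1 hw.1.2 (abs_le.2 hw.2)
  · rw [Complex.mem_reProdIm]; exact ⟨⟨h1, h2⟩, abs_le.1 h3⟩
  · rw [Complex.mem_reProdIm]; exact ⟨⟨h1', h2'⟩, abs_le.1 h3'⟩

theorem Cc_bound (n g : ℕ) (hg : 1 ≤ g) (hgn : g ≤ n - 1) : ∃ C : ℝ, 0 < C ∧ ∀ M : ℕ,
    1000 * (n + 1) ≤ M → ∀ y : ℂ, 18 / 100 ≤ y.re → y.re ≤ 32 / 100 → |y.im| ≤ 1 / 10 →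
    ‖Cc n g M y‖ ≤ C * (M : ℝ) ^ 2 * Real.exp (M * (4 * ff (y + 1 / 2)).re) := by
  obtain ⟨C₀, hC₀, hL⟩ := LL_asym (1 / 10) (1 / 10) (by norm_num)
  obtain ⟨K, hK0, hK⟩ := KB_hh_bound
  refine ⟨Real.exp (4 * (C₀ + K * n)), by positivity, ?_⟩
  intro M hM y h1 h2 h3
  have hn2 : 2 ≤ n := by omega
  have hM' : 1 ≤ M := by omega
  have hM0 : (0 : ℝ) < M := by exact_mod_cast hM'
  have hM1 : (1 : ℝ) ≤ M := by exact_mod_cast hM'
  have hMn : 1000 * ((n : ℝ) + 1) ≤ M := by exact_mod_cast hM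
  have hMC : (M : ℂ) ≠ 0 := by exact_mod_cast hM0.ne'
  have hCM : C₀ / M ≤ C₀ := div_le_self hC₀.le hM1
  have e2 : ∀ z : ℂ, ((M : ℂ) * z).re = M * z.re := by
    intro z
    have : (M : ℂ) = ((M : ℝ) : ℂ) := by push_cast; rfl
    rw [this, Complex.re_ofReal_mul]
  have hlog : ((Real.log M : ℂ) / 2).re = Real.log M / 2 := by
    have : ((Real.log M : ℂ) / 2) = ((Real.log M / 2 : ℝ) : ℂ) := by push_cast; ring
    rw [this, Complex.ofReal_re]
  have hz_re : (y + 1 / 2 : ℂ).re = y.re + 1 / 2 := by simp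
  have hz_im : (y + 1 / 2 : ℂ).im = y.im := by simp
  -- one factor
  have key : ∀ d : ℝ, 0 ≤ d → d ≤ n - 2 →
      (LL M (M * (y + 1 / 2) - bt n - 1 / 2 + (d : ℂ))).re ≤
        Real.log M / 2 + M * (ff (y + 1 / 2)).re + (C₀ + K * n) := by
    intro d hd0 hd1
    set z : ℂ := y + 1 / 2 with hz
    set δ : ℝ := (d - bt n) / M with hδ
    have hbt : |d - bt n| ≤ n := by
      unfold bt
      rw [abs_le]
      constructor <;> linarith only [hd0, hd1]
    have hδ' : |δ| ≤ 1 / 1000 := by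
      rw [hδ, abs_div, abs_of_pos hM0, div_le_iff₀ hM0]
      linarith only [hMn, hbt]
    have harg : (M : ℂ) * (y + 1 / 2) - bt n - 1 / 2 + (d : ℂ) = M * (z + (δ : ℂ)) - 1 / 2 := by
      rw [KB_arg n M hMC y d, hδ]
      push_cast
      rfl
    rw [harg]
    have hre : (z + (δ : ℂ)).re = y.re + 1 / 2 + δ := by rw [Complex.add_re, hz_re, Complex.ofReal_re]
    have him : (z + (δ : ℂ)).im = y.im := by rw [Complex.add_im, hz_im, Complex.ofReal_im, add_zero]
    rw [abs_le] at hδ'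
    have hA := hL M hM' (z + (δ : ℂ)) (by rw [hre]; linarith only [h1, hδ']) (by rw [hre]; linarith only [h2, hδ'])
      (by rw [him]; exact h3)
    have hA' := (abs_le.1 ((Complex.abs_re_le_norm _).trans (hA.trans hCM))).2
    rw [Complex.sub_re, Complex.sub_re, hlog, e2] at hA'
    have hB := KB_ff_shift hK z (z + (δ : ℂ)) (by rw [hz_re]; linarith only [h1]) (by rw [hz_re]; linarith only [h2])
      (by rw [hre]; linarith only [h1, hδ']) (by rw [hre]; linarith only [h2, hδ']) (by rw [hz_im]; exact h3)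
      (by rw [him]; exact h3)
    rw [add_sub_cancel_left, Complex.norm_real, Real.norm_eq_abs] at hB
    have hB' := (abs_le.1 ((Complex.abs_re_le_norm _).trans hB)).2
    rw [Complex.sub_re] at hB'
    have hMδ : M * (K * |δ|) ≤ K * n := by
      have : (M : ℝ) * |δ| = |d - bt n| := by
        rw [hδ, abs_div, abs_of_pos hM0]; field_simp
      calc (M : ℝ) * (K * |δ|) = K * (M * |δ|) := by ring
        _ ≤ K * n := by rw [this]; exact mul_le_mul_of_nonneg_left hbt hK0.le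
    have h7 := mul_le_mul_of_nonneg_left hB' hM0.le
    linarith only [hA', hMδ, h7]
  have hn2' : (2 : ℝ) ≤ n := by exact_mod_cast hn2
  have hg' : (1 : ℝ) ≤ g := by exact_mod_cast hg
  have hgn' : (g : ℝ) ≤ n - 1 := by
    have : g + 1 ≤ n := by omega
    have h : ((g : ℝ) + 1) ≤ n := by exact_mod_cast this
    linarith only [h]
  have k0 := key 0 le_rfl (by linarith only [hn2'])
  have k1 := key ((g : ℝ) - 1) (by linarith only [hg']) (by linarith only [hgn'])
  have k2 := key ((n : ℝ) - g - 1) (by linarith only [hgn']) (by linarith only [hg'])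
  have k3 := key ((n : ℝ) - 2) (by linarith only [hn2']) le_rfl
  unfold Cc
  rw [Complex.norm_exp]
  have hpow : (M : ℝ) ^ 2 = Real.exp (2 * Real.log M) := by
    rw [mul_comm, Real.exp_mul, Real.exp_log hM0]
    norm_cast
  rw [hpow, ← Real.exp_add, ← Real.exp_add]
  refine Real.exp_le_exp.2 ?_
  rw [Complex.add_re, Complex.add_re, Complex.add_re]
  have e4 : (4 * ff (y + 1 / 2)).re = 4 * (ff (y + 1 / 2)).re := by
    have : (4 : ℂ) = ((4 : ℝ) : ℂ) := by push_cast; rfl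
    rw [this, Complex.re_ofReal_mul]
  rw [e4]
  have c0 : (M : ℂ) * (y + 1 / 2) - bt n - 1 / 2 + ((0 : ℝ) : ℂ) =
    (M : ℂ) * (y + 1 / 2) - bt n - 1 / 2 := by push_cast; ring
  have c1 : (((g : ℝ) - 1 : ℝ) : ℂ) = (g : ℂ) - 1 := by push_cast; ring
  have c2 : (((n : ℝ) - g - 1 : ℝ) : ℂ) = (n : ℂ) - g - 1 := by push_cast; ring
  have c3 : (((n : ℝ) - 2 : ℝ) : ℂ) = (n : ℂ) - 2 := by push_cast; ring
  rw [c0] at k0
  rw [c1] at k1
  rw [c2] at k2
  rw [c3] at k3
  linarith only [k0, k1, k2, k3]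

/-- `LL` along a convergent sequence. -/
theorem KB_asym_tendsto (z : ℂ) (Z : ℕ → ℂ) (hZ : Tendsto Z atTop (𝓝 z)) (h0 : 0 < z.re)
    (h1 : z.re < 1) :
    Tendsto (fun M : ℕ => LL M (M * Z M - 1 / 2) - Real.log M / 2 - M * ff (Z M)) atTop (𝓝 0) := by
  set c : ℝ := min z.re (1 - z.re) / 2 with hc
  have hc0 : 0 < c := by
    rw [hc]; exact half_pos (lt_min h0 (by linarith))
  have hc1 : c < z.re := by
    have : min z.re (1 - z.re) ≤ z.re := min_le_left _ _
    rw [hc]; linarith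
  have hc2 : c < 1 - z.re := by
    have : min z.re (1 - z.re) ≤ 1 - z.re := min_le_right _ _
    rw [hc]; linarith
  obtain ⟨C, hC, hL⟩ := LL_asym c (|z.im| + 1) hc0
  have hre : Tendsto (fun M => (Z M).re) atTop (𝓝 z.re) :=
    (Complex.continuous_re.tendsto _).comp hZ
  have him : Tendsto (fun M => |(Z M).im|) atTop (𝓝 |z.im|) :=
    ((continuous_abs.comp Complex.continuous_im).tendsto _).comp hZ
  have ev1 : ∀ᶠ M in atTop, c ≤ (Z M).re := (hre.eventually (lt_mem_nhds hc1)).mono fun _ h => h.le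
  have ev2 : ∀ᶠ M in atTop, (Z M).re ≤ 1 - c :=
    (hre.eventually (gt_mem_nhds (show z.re < 1 - c by linarith))).mono fun _ h => h.le
  have ev3 : ∀ᶠ M in atTop, |(Z M).im| ≤ |z.im| + 1 :=
    (him.eventually (gt_mem_nhds (show |z.im| < |z.im| + 1 by linarith))).mono fun _ h => h.le
  have hlim : Tendsto (fun M : ℕ => C / (M : ℝ)) atTop (𝓝 0) :=
    tendsto_const_div_atTop_nhds_zero_nat C
  refine squeeze_zero_norm' ?_ hlim
  filter_upwards [ev1, ev2, ev3, eventually_ge_atTop 1] with M h1 h2 h3 h4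
  exact hL M h4 (Z M) h1 h2 h3

/-- Difference quotients of `ff` along a convergent sequence. -/
theorem KB_ff_diff (z δ : ℂ) (Z : ℕ → ℂ) (hZ : Tendsto Z atTop (𝓝 z)) (h0 : 0 < z.re)
    (h1 : z.re < 1) :
    Tendsto (fun M : ℕ => (M : ℂ) * (ff (Z M + δ / M) - ff (Z M))) atTop (𝓝 (δ * hh z)) := by
  have hopen : IsOpen {w : ℂ | 0 < w.re ∧ w.re < 1} :=
    (isOpen_lt continuous_const Complex.continuous_re).inter
      (isOpen_lt Complex.continuous_re continuous_const)
  have hdiff : DifferentiableOn ℂ ff {w : ℂ | 0 < w.re ∧ w.re < 1} := fun w hw =>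
    (ff_hasDerivAt w hw.1 hw.2).differentiableAt.differentiableWithinAt
  have han : AnalyticAt ℂ ff z := hdiff.analyticAt (hopen.mem_nhds ⟨h0, h1⟩)
  have hs : HasStrictDerivAt ff (hh z) z := by
    have := han.hasStrictDerivAt
    rwa [(ff_hasDerivAt z h0 h1).deriv] at this
  have hδ : Tendsto (fun M : ℕ => δ / (M : ℂ)) atTop (𝓝 0) := by
    have h := tendsto_const_div_atTop_nhds_zero_nat (𝕜 := ℂ) δ
    exact h
  have hZ2 : Tendsto (fun M : ℕ => Z M + δ / M) atTop (𝓝 z) := by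
    simpa using hZ.add hδ
  have hpair : Tendsto (fun M : ℕ => (Z M + δ / M, Z M)) atTop (𝓝 (z, z)) :=
    hZ2.prodMk_nhds hZ
  have ho := hs.isLittleO.comp_tendsto hpair
  have ho2 : (fun M : ℕ => ff (Z M + δ / M) - ff (Z M) - (δ / M) * hh z) =o[atTop]
      (fun M : ℕ => δ / (M : ℂ)) := by
    refine (ho.congr_left (fun M => ?_)).congr_right (fun M => ?_)
    · simp only [Function.comp_apply]
      simp
    · simp only [Function.comp_apply]
      ring
  have ho3 : (fun M : ℕ => ff (Z M + δ / M) - ff (Z M) - (δ / M) * hh z) =o[atTop]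
      (fun M : ℕ => ((M : ℂ))⁻¹) := by
    refine ho2.trans_isBigO ?_
    refine Asymptotics.IsBigO.of_bound ‖δ‖ (Eventually.of_forall fun M => ?_)
    rw [div_eq_mul_inv, norm_mul]
  have ho4 : Tendsto (fun M : ℕ => (ff (Z M + δ / M) - ff (Z M) - (δ / M) * hh z) / ((M : ℂ))⁻¹)
      atTop (𝓝 0) := ho3.tendsto_div_nhds_zero
  have h5 : Tendsto (fun M : ℕ => (ff (Z M + δ / M) - ff (Z M) - (δ / M) * hh z) / ((M : ℂ))⁻¹ +
      δ * hh z) atTop (𝓝 (0 + δ * hh z)) := ho4.add tendsto_const_nhds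
  rw [zero_add] at h5
  refine h5.congr' ?_
  filter_upwards [eventually_ge_atTop 1] with M hM
  have hM0 : (M : ℂ) ≠ 0 := by
    have : M ≠ 0 := by omega
    exact_mod_cast this
  field_simp
  ring

theorem KB_Bn_lim (n : ℕ) (v : ℂ) (V : ℕ → ℂ) (hV : Tendsto V atTop (𝓝 v)) :
    Tendsto (fun M : ℕ => Bn n M (V M)) atTop (𝓝 ((2 * cos (Real.pi * v)) ^ (n - 2))) := by
  have h : Tendsto (fun M : ℕ => ∏ j ∈ Finset.range (n - 2),
      2 * Complex.cos (Real.pi * (V M + ((j : ℂ) + 1 - bt n) / M))) atTop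
      (𝓝 (∏ _j ∈ Finset.range (n - 2), 2 * Complex.cos (Real.pi * v))) := by
    refine tendsto_finsetProd _ fun j _ => ?_
    have hδ : Tendsto (fun M : ℕ => ((j : ℂ) + 1 - bt n) / (M : ℂ)) atTop (𝓝 0) :=
      tendsto_const_div_atTop_nhds_zero_nat (𝕜 := ℂ) _
    have h1 : Tendsto (fun M : ℕ => V M + ((j : ℂ) + 1 - bt n) / M) atTop (𝓝 v) := by
      simpa using hV.add hδ
    have hcont : Continuous (fun w : ℂ => 2 * Complex.cos (Real.pi * w)) := by fun_prop
    exact (hcont.tendsto v).comp h1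
  rw [Finset.prod_const, Finset.card_range] at h
  exact h

theorem Cc_lim (n g : ℕ) (hg : 1 ≤ g) (hgn : g ≤ n - 1) (y : ℂ) (Y : ℕ → ℂ)
    (hY : Tendsto Y atTop (𝓝 y)) (h1 : 0 < y.re) (h2 : y.re < 1 / 2) :
    Tendsto (fun M : ℕ => Cc n g M (Y M) / (M : ℂ) ^ 2 * exp (-M * (4 * ff (Y M + 1 / 2)))) atTop
      (𝓝 (exp (-2 * hh (y + 1 / 2)))) := by
  have hre : (y + 1 / 2 : ℂ).re = y.re + 1 / 2 := by simp
  have hz0 : 0 < (y + 1 / 2 : ℂ).re := by rw [hre]; linarith only [h1, h2]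
  have hz1 : (y + 1 / 2 : ℂ).re < 1 := by rw [hre]; linarith only [h2]
  have hY2 : Tendsto (fun M => Y M + 1 / 2) atTop (𝓝 (y + 1 / 2)) := hY.add tendsto_const_nhds
  -- one factor
  have key : ∀ d : ℂ, Tendsto (fun M : ℕ => LL M (M * (Y M + 1 / 2) - bt n - 1 / 2 + d) -
      Real.log M / 2 - M * ff (Y M + 1 / 2)) atTop (𝓝 ((d - bt n) * hh (y + 1 / 2))) := by
    intro d
    have hδ : Tendsto (fun M : ℕ => (d - bt n) / (M : ℂ)) atTop (𝓝 0) :=
      tendsto_const_div_atTop_nhds_zero_nat (𝕜 := ℂ) _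
    have hZ : Tendsto (fun M : ℕ => Y M + 1 / 2 + (d - bt n) / M) atTop (𝓝 (y + 1 / 2)) := by
      simpa using hY2.add hδ
    have hA := KB_asym_tendsto (y + 1 / 2) (fun M => Y M + 1 / 2 + (d - bt n) / M) hZ hz0 hz1
    have hB := KB_ff_diff (y + 1 / 2) (d - bt n) (fun M => Y M + 1 / 2) hY2 hz0 hz1
    have hAB := hA.add hB
    rw [zero_add] at hAB
    refine hAB.congr' ?_
    filter_upwards [eventually_ge_atTop 1] with M hM
    have hM0 : (M : ℂ) ≠ 0 := by
      have : M ≠ 0 := by omega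
      exact_mod_cast this
    rw [KB_arg n M hM0 (Y M) d]
    ring
  have hsum := (((key 0).add (key ((g : ℂ) - 1))).add (key ((n : ℂ) - g - 1))).add
    (key ((n : ℂ) - 2))
  have hval : ((0 : ℂ) - bt n) * hh (y + 1 / 2) + ((g : ℂ) - 1 - bt n) * hh (y + 1 / 2) +
      ((n : ℂ) - g - 1 - bt n) * hh (y + 1 / 2) + ((n : ℂ) - 2 - bt n) * hh (y + 1 / 2) =
      -2 * hh (y + 1 / 2) := by
    unfold bt
    push_cast
    ring
  rw [hval] at hsum
  have hexp := (Complex.continuous_exp.tendsto _).comp hsum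
  refine hexp.congr' ?_
  filter_upwards [eventually_ge_atTop 1] with M hM
  have hM0 : (0 : ℝ) < M := by
    have : 0 < M := by omega
    exact_mod_cast this
  have hMne : (M : ℂ) ≠ 0 := by exact_mod_cast hM0.ne'
  have hlog : (M : ℂ) = exp (Real.log M) := by
    rw [← Complex.ofReal_exp, Real.exp_log hM0]; push_cast; rfl
  have hpow : (M : ℂ) ^ 2 = exp (2 * Real.log M) := by
    rw [two_mul, Complex.exp_add, ← hlog, sq]
  simp only [Function.comp_apply]
  unfold Cc
  rw [hpow, ← Complex.exp_sub, ← Complex.exp_add]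
  congr 1
  rw [add_zero]
  ring

end Pool.Agent.H63.VC3

end
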