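import Pool.Agent.H94.PA.H63.VC3.Defs

/-! The parts of this file: H63.VC.Base, H63.VC4.Defs, H63.VC3.StepDefs, H63.VC7.Defs. -/

section

/-! # Products of sines -/

namespace Pool.Agent.H63.VC

open Filter Topology MeasureTheory Real

noncomputable def sg (M m : ℕ) : ℝ := 2 * Real.sin (π * m / M)

noncomputable def S (M k : ℕ) : ℝ := ∏ m ∈ Finset.Ico 1 (k + 1), sg M m

theorem sg_pos {M m : ℕ} (h1 : 1 ≤ m) (h2 : m < M) : 0 < sg M m := by
  have hM : (0 : ℝ) < M := by exact_mod_cast (by omega : 0 < M)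
  have hm : (0 : ℝ) < m := by exact_mod_cast (by omega : 0 < m)
  have hmM : (m : ℝ) < M := by exact_mod_cast h2
  refine mul_pos two_pos (Real.sin_pos_of_pos_of_lt_pi (by positivity) ?_)
  rw [div_lt_iff₀ hM]
  exact mul_lt_mul_of_pos_left hmM pi_pos

theorem sg_symm {M m : ℕ} (h1 : m ≤ M) (hM : 0 < M) : sg M (M - m) = sg M m := by
  have hM' : (M : ℝ) ≠ 0 := by exact_mod_cast hM.ne'
  unfold sg
  rw [Nat.cast_sub h1]
  have : π * ((M : ℝ) - m) / M = π - π * m / M := by field_simp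
  rw [this, Real.sin_pi_sub]

theorem S_pos {M k : ℕ} (h : k < M) : 0 < S M k := by
  refine Finset.prod_pos fun m hm => ?_
  rw [Finset.mem_Ico] at hm
  exact sg_pos hm.1 (by omega)

theorem S_full (M : ℕ) (hM : 0 < M) : S M (M - 1) = M := by
  obtain ⟨n, rfl⟩ : ∃ n, M = n + 1 := ⟨M - 1, by omega⟩
  have hprim : IsPrimitiveRoot (Complex.exp (2 * π * Complex.I / ((n + 1 : ℕ) : ℂ))) (n + 1) :=
    Complex.isPrimitiveRoot_exp (n + 1) (by omega)
  have h := hprim.prod_one_sub_pow_eq_order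
  have h2 := congrArg (fun z : ℂ => ‖z‖) h
  simp only [norm_prod] at h2
  have h3 : ∀ k ∈ Finset.range n, ‖1 - Complex.exp (2 * π * Complex.I / ((n + 1 : ℕ) : ℂ)) ^ (k + 1)‖
      = sg (n + 1) (k + 1) := by
    intro k hk
    rw [Finset.mem_range] at hk
    rw [← Complex.exp_nat_mul]
    have hpos := sg_pos (M := n + 1) (m := k + 1) (by omega) (by omega)
    have e1 : (((k + 1 : ℕ) : ℂ) * (2 * π * Complex.I / ((n + 1 : ℕ) : ℂ)))
        = ((π * ((k + 1 : ℕ) : ℝ) / ((n + 1 : ℕ) : ℝ) : ℝ) : ℂ) * Complex.I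
          + ((π * ((k + 1 : ℕ) : ℝ) / ((n + 1 : ℕ) : ℝ) : ℝ) : ℂ) * Complex.I := by
      push_cast; ring
    set θ : ℝ := π * ((k + 1 : ℕ) : ℝ) / ((n + 1 : ℕ) : ℝ) with hθ
    rw [e1, Complex.exp_add]
    have e2 : (1 : ℂ) - Complex.exp (θ * Complex.I) * Complex.exp (θ * Complex.I)
        = Complex.exp (θ * Complex.I) * (Complex.exp (-(θ * Complex.I)) - Complex.exp (θ * Complex.I)) := by
      rw [mul_sub, ← Complex.exp_add, ← Complex.exp_add, add_neg_cancel, Complex.exp_zero]
    rw [e2, norm_mul, Complex.norm_exp_ofReal_mul_I, one_mul]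
    have e3 : Complex.exp (-(θ * Complex.I)) - Complex.exp (θ * Complex.I)
        = -(2 * Complex.sin θ * Complex.I) := by
      rw [Complex.two_sin]
      have : Complex.I * Complex.I = -1 := Complex.I_mul_I
      rw [mul_assoc, this, neg_mul]; ring
    rw [e3, norm_neg, norm_mul, Complex.norm_I, mul_one, ← Complex.ofReal_sin]
    have e4 : (2 : ℂ) * ((Real.sin θ : ℝ) : ℂ) = ((2 * Real.sin θ : ℝ) : ℂ) := by push_cast; rfl
    rw [e4, Complex.norm_real]
    exact abs_of_pos hpos
  rw [Finset.prod_congr rfl h3] at h2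
  have h4 : S (n + 1) (n + 1 - 1) = ∏ k ∈ Finset.range n, sg (n + 1) (k + 1) := by
    unfold S
    rw [Finset.prod_Ico_eq_prod_range]
    simp [add_comm]
  rw [h4, h2]
  have : ((n : ℂ) + 1) = ((n + 1 : ℝ) : ℂ) := by push_cast; rfl
  rw [this, Complex.norm_real]
  push_cast
  exact abs_of_pos (by positivity)

theorem S_succ (M k : ℕ) : S M (k + 1) = S M k * sg M (k + 1) := by
  unfold S
  rw [Finset.prod_Ico_succ_top (by omega)]

theorem S_split {M k l : ℕ} (h : k ≤ l) :
    S M l = S M k * ∏ m ∈ Finset.Ico (k + 1) (l + 1), sg M m := by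
  unfold S
  rw [Finset.prod_Ico_consecutive _ (by omega) (by omega)]

theorem S_refl {M k : ℕ} (h : k < M) :
    ∏ m ∈ Finset.Ico (k + 1) M, sg M m = S M (M - 1 - k) := by
  unfold S
  have h1 : ∏ m ∈ Finset.Ico (k + 1) M, sg M m = ∏ m ∈ Finset.Ico (k + 1) M, sg M (M - m) := by
    apply Finset.prod_congr rfl
    intro m hm
    rw [Finset.mem_Ico] at hm
    rw [sg_symm (by omega) (by omega)]
  rw [h1, Finset.prod_Ico_reflect _ _ (by omega)]
  congr 1
  congr 1
  · omega
  · omega

theorem S_mul {M k : ℕ} (h : k < M) : S M k * S M (M - 1 - k) = M := by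
  have h1 := S_split (M := M) (k := k) (l := M - 1) (by omega)
  rw [S_full M (by omega)] at h1
  have h2 : M - 1 + 1 = M := by omega
  rw [h2, S_refl h] at h1
  exact h1.symm

theorem sg_le_two (M m : ℕ) : sg M m ≤ 2 := by
  unfold sg
  linarith [Real.sin_le_one (π * m / M)]

theorem sg_ge {M m : ℕ} (h1 : 1 ≤ m) (h2 : m < M) : 1 / (M : ℝ) ≤ sg M m := by
  have hM : (0 : ℝ) < M := by exact_mod_cast (by omega : 0 < M)
  have key : ∀ j : ℕ, 1 ≤ j → 2 * j ≤ M → 1 / (M : ℝ) ≤ sg M j := by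
    intro j hj1 hj2
    have hj1' : (1 : ℝ) ≤ j := by exact_mod_cast hj1
    have hj2' : (2 * j : ℝ) ≤ M := by exact_mod_cast hj2
    have h3 := Real.mul_le_sin (x := π * j / M) (by positivity) (by
      rw [div_le_iff₀ hM]; nlinarith [pi_pos])
    unfold sg
    have h4 : 2 / π * (π * j / M) = 2 * j / M := by
      field_simp
    rw [h4] at h3
    have h5 : 1 / (M : ℝ) ≤ 2 * (2 * j / M) := by
      rw [← mul_div_assoc]
      apply div_le_div_of_nonneg_right _ hM.le
      linarith
    linarith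
  rcases le_or_gt (2 * m) M with h | h
  · exact key m h1 h
  · rw [← sg_symm h2.le (by omega)]
    exact key (M - m) (by omega) (by omega)

theorem S_ge (M k : ℕ) (h : k < M) : (1 / (M : ℝ)) ^ k ≤ S M k := by
  unfold S
  have : ∏ m ∈ Finset.Ico 1 (k + 1), (1 / (M : ℝ)) ≤ ∏ m ∈ Finset.Ico 1 (k + 1), sg M m := by
    apply Finset.prod_le_prod
    · intro m _
      positivity
    · intro m hm
      rw [Finset.mem_Ico] at hm
      exact sg_ge hm.1 (by omega)
  simpa using this

theorem S_shift_le (M k c : ℕ) (h : k + c < M) : S M (c + k) ≤ S M k * 2 ^ c := by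
  rw [add_comm c k, S_split (M := M) (Nat.le_add_right k c)]
  apply mul_le_mul_of_nonneg_left _ (S_pos (by omega)).le
  have : ∏ m ∈ Finset.Ico (k + 1) (k + c + 1), sg M m ≤ ∏ m ∈ Finset.Ico (k + 1) (k + c + 1), (2 : ℝ) := by
    apply Finset.prod_le_prod
    · intro m hm
      rw [Finset.mem_Ico] at hm
      exact (sg_pos (by omega) (by omega)).le
    · intro m _
      exact sg_le_two M m
  have e : k + c + 1 - (k + 1) = c := by omega
  simpa [e] using this

theorem S_zero (M : ℕ) : S M 0 = 1 := by simp [S]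

theorem tendsto_ratio (a : ℕ) : Tendsto (fun N : ℕ => ((N + a : ℕ) : ℝ) / (N + 1)) atTop (𝓝 1) := by
  have h : Tendsto (fun N : ℕ => 1 + ((a : ℝ) - 1) / ((N : ℝ) + 1)) atTop (𝓝 (1 + 0)) :=
    tendsto_const_nhds.add (tendsto_const_nhds.div_atTop
      (tendsto_natCast_atTop_atTop.atTop_add tendsto_const_nhds))
  rw [add_zero] at h
  refine h.congr fun N => ?_
  have : (N : ℝ) + 1 ≠ 0 := by positivity
  field_simp
  push_cast
  ring

theorem tendsto_log_ratio (a : ℕ) :
    Tendsto (fun N : ℕ => Real.log ((N + a : ℕ) : ℝ) / (N + 1)) atTop (𝓝 0) := by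
  have h1 : Tendsto (fun N : ℕ => Real.log ((N + a : ℕ) : ℝ) / ((N + a : ℕ) : ℝ)) atTop (𝓝 0) := by
    have h2 : Tendsto (fun x : ℝ => Real.log x / x) atTop (𝓝 0) := by
      have := Real.isLittleO_log_id_atTop.tendsto_div_nhds_zero
      simpa using this
    exact h2.comp (tendsto_natCast_atTop_atTop.comp (tendsto_add_atTop_nat a))
  have h3 := h1.mul (tendsto_ratio a)
  rw [zero_mul] at h3
  refine h3.congr' ?_
  filter_upwards [eventually_gt_atTop 0] with N hN
  have : ((N + a : ℕ) : ℝ) ≠ 0 := by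
    have : 0 < N + a := by omega
    exact_mod_cast this.ne'
  have h4 : (N : ℝ) + 1 ≠ 0 := by positivity
  field_simp

end Pool.Agent.H63.VC

end

section

/-!
# Two-bridge knots with many twists: definitions

Auxiliary definitions for the asymptotics of the colored invariants of the two-bridge knots with
an even number of twist regions.
-/

namespace Pool.Agent.H63.VC4

open Pool.Agent.H63.VC Pool.Agent.H63.VC3 Complex

/-! ### The invariants -/

/-! ### The normalized matrices at the root of unity -/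

/-- Phases. -/
noncomputable def th (n M k : ℕ) : ℂ := (-1) ^ k * I ^ k *
  exp (-(Real.pi * I / M) * (k * (n - 1) + k * (k + 1) / 2))

/-! ### Slots -/

/-- The neighbours of the twist regions: `none` at both ends. -/
def ext {α : Type*} {m : ℕ} (f : Fin m → α) : Fin (m + 2) → Option α :=
  Fin.cons (α := fun _ => Option α) none
    (Fin.snoc (α := fun _ => Option α) (fun i => some (f i)) none)

/-! ### Kernels -/

/-- The factor of a slot in the kernel. -/
noncomputable def Qo (n M : ℕ) : Option ℂ → ℂ → ℂ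
  | none, v => Bn n M v / M
  | some y, v => exp (-LL M (M * (y - v) - 1 / 2) - LL M (M * (y + v) - 1 / 2))

/-! ### The potential function and its critical point -/

/-- The contribution of a slot to the potential function. -/
noncomputable def po : Option ℂ → ℂ → ℂ
  | none, _ => 0
  | some y, v => -ff (y - v) - ff (y + v)

/-- Its derivative with respect to `v`. -/
noncomputable def dpo : Option ℂ → ℂ → ℂ
  | none, _ => 0
  | some y, v => hh (y - v) - hh (y + v)

/-- The part of the potential function of a twist region. -/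
noncomputable def WN (r : ℤ) (u u' : Option ℂ) (v : ℂ) : ℂ :=
  2 * Real.pi * I * (r * v ^ 2 + v) + po u v + po u' v

/-- The potential function. -/
noncomputable def VN {m : ℕ} (r : Fin (m + 1) → ℤ) (y : Fin m → ℂ) (v : Fin (m + 1) → ℂ) : ℂ :=
  (∑ j, 4 * ff (y j + 1 / 2)) + ∑ i, WN (r i) (ext y i.castSucc) (ext y i.succ) (v i)

/-- The weights of a slot. -/
noncomputable def es (M : ℕ) : Option ℕ → ℝ
  | none => 1
  | some k => S M k ^ 2

/-- The number of proper slots. -/
noncomputable def ns {α : Type*} : Option α → ℝ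
  | none => 0
  | some _ => 1

/-- The growth rate of a slot. -/
noncomputable def eo (M : ℕ) : Option ℕ → ℝ
  | none => 0
  | some k => 4 * Fr (3 / 4) - (if 53 / 1000 ≤ |(k : ℝ) / M - 3 / 4| then 17 / 1000 else 0)

/-! ### Elementary facts about slots -/

theorem ext_last {α : Type*} {m : ℕ} (f : Fin m → α) : ext f (Fin.last (m + 1)) = none := by
  rw [← Fin.succ_last]
  simp [ext, Fin.snoc_last]

theorem ext_last_succ {α : Type*} {m : ℕ} (f : Fin m → α) :
    ext f (Fin.last m).succ = none := by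
  rw [Fin.succ_last]; exact ext_last f

theorem ext_mid {α : Type*} {m : ℕ} (f : Fin m → α) (j : Fin m) :
    ext f j.castSucc.succ = some (f j) := by
  unfold ext
  rw [Fin.cons_succ, Fin.snoc_castSucc]

theorem ns_none {α : Type*} : ns (none : Option α) = 0 := rfl

theorem ns_some {α : Type*} (a : α) : ns (some a) = 1 := rfl

end Pool.Agent.H63.VC4

end

section

/-! # Intermediate quantities -/

namespace Pool.Agent.H63.VC3

open Pool.Agent.H63.VC Complex

/-- The denominators of the weights. -/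
noncomputable def Dg (n g M : ℕ) : ℝ := S M (g - 1) * S M (n - g - 1) * S M (n - 2)

/-- Right end of the `l`-window. -/
noncomputable def rho (n M l2 : ℕ) : ℝ := (l2 + 1 / 2 + bt n) / M - 1 / 2

end Pool.Agent.H63.VC3

end

section

/-!
# Arborescent links: definitions for the asymptotics
-/

namespace Pool.Agent.H63.VC7

open Pool.Agent.H63.VC
open Pool.Agent.H63.VC3 Pool.Agent.H63.VC4 Complex

variable {m p : ℕ}

/-! ### Graphs -/

/-- The edges at a node. -/
def inc (s t : Fin m → Fin p) (i : Fin p) : Finset (Fin m) :=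
  Finset.univ.filter fun j => s j = i ∨ t j = i

/-- The number of edges at a node. -/
noncomputable def dg (s t : Fin m → Fin p) (i : Fin p) : ℝ := ((inc s t i).card : ℝ)

/-! ### The invariant at the root of unity -/

/-- The factor of a slot, a trigonometric polynomial. -/
noncomputable def qc (M k : ℕ) (v : ℂ) : ℂ := 1 / M * ∏ i ∈ Finset.range (M - 1 - k),
  (4 * (cos (Real.pi * (v + (i + 1 / 2) / M)) * cos (Real.pi * (v - (i + 1 / 2) / M))))

/-- The function whose derivatives are summed at a node. -/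
noncomputable def NT (r : ℝ) (M : ℕ) (A : Finset (Fin m)) (k : Fin m → ℕ) (v : ℂ) : ℂ :=
  exp (2 * Real.pi * I * r * M * v ^ 2) * (2 * sin (2 * Real.pi * v)) * ∏ j ∈ A, qc M (k j) v

/-- The factor of a node. -/
noncomputable def DG (r : ℝ) (M : ℕ) (A : Finset (Fin m)) (k : Fin m → ℕ) : ℂ :=
  ∑ X ∈ Finset.range M, deriv (NT r M A k) ((vl 2 M X : ℝ) : ℂ)

/-- The invariant at the root of unity, up to simple factors. -/
noncomputable def JG (s t : Fin m → Fin p) (r : Fin p → ℝ) (M : ℕ) : ℂ :=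
  ∑ k ∈ Fintype.piFinset (fun _ : Fin m => Finset.range M),
    (∏ j, Cc 2 1 M (yk 2 M (k j))) * ∏ i, DG (r i) M (inc s t i) k

/-- The phase of a node with `a` half twists. -/
noncomputable def cG (a : ℤ) (M : ℕ) : ℂ :=
  exp (a * (Real.pi * I / 2 - Real.pi * I * M / 4 - Real.pi * I / (4 * M)))

/-! ### Kernels -/

/-- The kernel at a node. -/
noncomputable def KG (r : ℝ) (M : ℕ) (A : Finset (Fin m)) (y : Fin m → ℂ) (v : ℂ) : ℂ :=
  exp (2 * Real.pi * I * r * M * v ^ 2) * (2 * sin (2 * Real.pi * v)) *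
    ∏ j ∈ A, Qo 2 M (some (y j)) v

/-- The contour integral at a node. -/
noncomputable def PG (r : ℝ) (M : ℕ) (A : Finset (Fin m)) (y : Fin m → ℂ) (ρ Y : ℝ) : ℂ :=
  Path (fun v => KG r M A y v * om 2 M v) ρ Y

/-- Its flat part. -/
noncomputable def FG (r : ℝ) (M : ℕ) (A : Finset (Fin m)) (y : Fin m → ℂ) (ρ Y : ℝ) : ℂ :=
  ∫ x in (-ρ)..ρ, KG r M A y (x + Y * I) * om 2 M (x + Y * I)

open Classical in
/-- The approximation of the factor of a node. -/
noncomputable def GD (r Y : ℝ) (M k1 k2 l2 : ℕ) (A : Finset (Fin m)) (k : Fin m → ℕ) : ℂ :=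
  if ∀ j ∈ A, k1 ≤ k j ∧ k j ≤ k2 then
    -(4 * Real.pi * I * M ^ 2) *
      FG r M A (fun j => ((yk 2 M (k j) : ℝ) : ℂ)) (rho 2 M l2) Y
  else 0

/-- The integrand for the nodes outside of `B` and the edges outside of `E`. -/
noncomputable def GN (s t : Fin m → Fin p) (r : Fin p → ℝ) (M : ℕ) (B : Finset (Fin p))
    (E : Finset (Fin m)) (y : Fin m → ℂ) (v : Fin p → ℂ) : ℂ :=
  (∏ j ∈ Eᶜ, Cc 2 1 M (y j)) * ∏ i ∈ Bᶜ, (KG (r i) M (inc s t i) y (v i) * om 2 M (v i))

/-- The edges at the nodes of `B`. -/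
def EB (s t : Fin m → Fin p) (B : Finset (Fin p)) : Finset (Fin m) :=
  Finset.univ.filter fun j => s j ∈ B ∨ t j ∈ B

/-- The point of the integration domain. -/
noncomputable def zy7 (Y0 : Fin m → ℝ) (z : Fin m ⊕ Fin p → ℝ) (j : Fin m) : ℂ :=
  z (Sum.inl j) + Y0 j * I

/-- The point of the integration domain. -/
noncomputable def zv7 (Y1 : Fin p → ℝ) (z : Fin m ⊕ Fin p → ℝ) (i : Fin p) : ℂ :=
  z (Sum.inr i) + Y1 i * I

/-- The box. -/
def Bx7 (m p : ℕ) (y1 y2 ρ : ℝ) : Set (Fin m ⊕ Fin p → ℝ) :=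
  Set.pi Set.univ (Sum.elim (fun _ => Set.Ioc y1 y2) (fun _ => Set.Ioc (-ρ) ρ))

/-- The main integral over the flat contours. -/
noncomputable def MG (s t : Fin m → Fin p) (r : Fin p → ℝ) (M : ℕ) (Y0 : Fin m → ℝ)
    (Y1 : Fin p → ℝ) (y1 y2 ρ : ℝ) : ℂ :=
  ∫ z in Bx7 m p y1 y2 ρ, GN s t r M ∅ ∅ (zy7 Y0 z) (zv7 Y1 z)

/-! ### The potential function and its critical point -/

/-- The part of the potential function of a node. -/
noncomputable def WG (r : ℝ) (A : Finset (Fin m)) (y : Fin m → ℂ) (v : ℂ) : ℂ :=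
  2 * Real.pi * I * (r * v ^ 2 + v) + ∑ j ∈ A, po (some (y j)) v

/-- The potential function. -/
noncomputable def VG (s t : Fin m → Fin p) (r : Fin p → ℝ) (y : Fin m → ℂ) (v : Fin p → ℂ) : ℂ :=
  (∑ j, 4 * ff (y j + 1 / 2)) + ∑ i, WG (r i) (inc s t i) y (v i)

/-- The real part of the potential at a node, with half of the adjacent edges. -/
noncomputable def Lg (r : ℝ) (A : Finset (Fin m)) (y : Fin m → ℂ) (v : ℂ) : ℝ :=
  (WG r A y v).re + ∑ j ∈ A, (2 * ff (y j + 1 / 2)).re

/-- The critical point of the potential function, with its approximate location. -/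
structure CritG (s t : Fin m → Fin p) (r : Fin p → ℝ) (y : Fin m → ℂ) (v : Fin p → ℂ) :
    Prop where
  st : ∀ j, s j ≠ t j
  ne : ∀ i, (inc s t i).Nonempty
  hr : ∀ i, 10 * dg s t i ≤ |r i|
  hn : ∀ j, 10 * dg s t (s j) ≤ (r (t j)) ^ 2 ∧ 10 * dg s t (t j) ≤ (r (s j)) ^ 2
  ey : ∀ j, 4 * hh (y j + 1 / 2) =
    hh (y j - v (s j)) + hh (y j + v (s j)) + hh (y j - v (t j)) + hh (y j + v (t j))
  ev : ∀ i, 2 * Real.pi * I * (2 * r i * v i + 1) +
    ∑ j ∈ inc s t i, (hh (y j - v i) - hh (y j + v i)) = 0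
  bdy : ∀ j, ‖y j - 1 / 4‖ ≤ 3 / 10 * (1 / (r (s j)) ^ 2 + 1 / (r (t j)) ^ 2)
  bdv : ∀ i, ‖v i + 1 / (2 * r i)‖ ≤ 3 / 10 * dg s t i / (r i) ^ 2
  imv : ∀ i, 0 < (v i).im

/-- The loss of a slot at the node `i` of the edge `j` whose variable is frozen. -/
noncomputable def loss (s t : Fin m → Fin p) (r : Fin p → ℝ) (i : Fin p) (j : Fin m) : ℝ :=
  21 / 1000 / (r i) ^ 2 + 33 / 1000 * (1 / (r (s j)) ^ 2 + 1 / (r (t j)) ^ 2)

/-! ### Elementary facts -/

theorem mem_inc (s t : Fin m → Fin p) (i : Fin p) (j : Fin m) :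
    j ∈ inc s t i ↔ s j = i ∨ t j = i := by
  simp [inc]

theorem mem_inc_s (s t : Fin m → Fin p) (j : Fin m) : j ∈ inc s t (s j) := by simp [inc]

/-- Sums over the slots. -/
theorem sum_inc {E : Type*} [AddCommMonoid E] (s t : Fin m → Fin p) (hst : ∀ j, s j ≠ t j)
    (h : Fin p → Fin m → E) :
    ∑ i, ∑ j ∈ inc s t i, h i j = ∑ j, (h (s j) j + h (t j) j) := by
  have e : ∀ i, ∑ j ∈ inc s t i, h i j =
      ∑ j, ((if s j = i then h i j else 0) + if t j = i then h i j else 0) := by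
    intro i
    rw [inc, Finset.sum_filter]
    refine Finset.sum_congr rfl fun j _ => ?_
    by_cases h1 : s j = i
    · have h2 : ¬ t j = i := fun h2 => hst j (h1.trans h2.symm)
      simp [h1, h2]
    · simp [h1]
  simp only [e]
  rw [Finset.sum_comm]
  refine Finset.sum_congr rfl fun j _ => ?_
  rw [Finset.sum_add_distrib]
  simp

/-- Products over the slots. -/
theorem prod_inc (s t : Fin m → Fin p) (hst : ∀ j, s j ≠ t j) (h : Fin p → Fin m → ℂ) :
    ∏ i, ∏ j ∈ inc s t i, h i j = ∏ j, (h (s j) j * h (t j) j) := by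
  have := sum_inc (E := Additive ℂ) s t hst (fun i j => Additive.ofMul (h i j))
  exact this

/-- Products over the slots. -/
theorem prod_inc_real (s t : Fin m → Fin p) (hst : ∀ j, s j ≠ t j) (h : Fin p → Fin m → ℝ) :
    ∏ i, ∏ j ∈ inc s t i, h i j = ∏ j, (h (s j) j * h (t j) j) := by
  have := sum_inc (E := Additive ℝ) s t hst (fun i j => Additive.ofMul (h i j))
  exact this

end Pool.Agent.H63.VC7

end
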