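import Pool.Agent.H94.PA.M01
import Pool.Agent.H94.PA.M04

/-! The parts of this file: H63.VC6.Defs, H63.VC3.Om, H63.VC3.SumK, H63.VC7.SlotXa, H63.VC7.Swap, H63.VC7.Geo, H63.VC7.GeoC, H63.VC7.LogP. -/

section

/-!
# Two-bridge knots with many twists: local estimates

Definitions for the asymptotics under a purely local condition on the numbers of twists.
-/

namespace Pool.Agent.H63.VC6

open Pool.Agent.H63.VC
open Pool.Agent.H63.VC3 Complex

/-! ### Pieces of paths -/

/-- A piece of a path with a weight. -/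
structure Piece where
  /-- the beginning -/
  α : ℝ
  /-- the end -/
  β : ℝ
  /-- the weight -/
  w : ℝ → ℂ
  /-- the path -/
  z : ℝ → ℂ

/-- The integral over a piece. -/
noncomputable def Piece.int (P : Piece) (f : ℂ → ℂ) : ℂ := ∫ s in P.α..P.β, P.w s * f (P.z s)

/-- The flat piece. -/
noncomputable def flatP (M : ℕ) (y1 y2 Y : ℝ) : Piece :=
  ⟨y1, y2, fun _ => (M : ℂ), fun x => (x : ℂ) + Y * I⟩

/-- The iterated integral over a product of pieces. -/
noncomputable def itP : {m : ℕ} → (Fin m → Piece) → ((Fin m → ℂ) → ℂ) → ℂ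
  | 0, _, F => F Fin.elim0
  | _ + 1, P, F => itP (fun j => P j.succ) (fun z => (P 0).int (fun w => F (Fin.cons w z)))

/-- The three kinds of points on the paths: `0` flat, `1` sides, `2` lines. -/
def Stt (y1 y2 η Y : ℝ) (σ : Fin 3) (z : ℂ) : Prop :=
  y1 ≤ z.re ∧ z.re ≤ y2 ∧ |z.im| ≤ η ∧ (σ = 0 → z.im = Y) ∧ (σ = 1 → z.re = y1 ∨ z.re = y2) ∧
    (σ = 2 → |z.im| = η)

/-- The damping factor. -/
noncomputable def dmp (η : ℝ) (M : ℕ) (σ : Fin 3) : ℝ :=
  if σ = 2 then Real.exp (2 * Real.pi * η * M) else 1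

/-- A piece consisting of points of one kind, with a bound of the weight. -/
structure Piece.ok (P : Piece) (S : ℂ → Prop) (c : ℝ) : Prop where
  le : P.α ≤ P.β
  cw : Continuous P.w
  cz : Continuous P.z
  mem : ∀ s ∈ Set.Icc P.α P.β, S (P.z s)
  bd : ∀ s ∈ Set.Icc P.α P.β, ‖P.w s‖ * (P.β - P.α) ≤ c

/-- The kind of the nine pieces. -/
def knd (q : Fin 9) : Fin 3 := if q = 0 then 0 else if (q : ℕ) ≤ 6 then 1 else 2

/-! ### Slots with boundary values -/

/-! ### The potential function of a slot -/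

/-- The linear term of a slot. -/
noncomputable def kap (y v : ℂ) : ℝ := (2 * hh (y + 1 / 2) - hh (y - v) - hh (y + v)).re

/-- Half of the contribution of a vertex. -/
noncomputable def vs : Option ℂ → ℝ
  | none => 0
  | some y => (2 * ff (y + 1 / 2)).re

/-- Location of the critical values of the vertices. -/
def yloc (y : ℂ) : Prop := |y.re - 1 / 4| ≤ 6 / 1000 ∧ |y.im| ≤ 6 / 1000

/-- Location of the critical values of the twist regions. -/
def vloc (v : ℂ) : Prop := |v.re| ≤ 53 / 1000 ∧ 0 < v.im ∧ v.im ≤ 3 / 1000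

/-! ### Chains -/

/-! ### Indices -/

end Pool.Agent.H63.VC6

end

section

/-! # The factors `w` and `ω` -/

namespace Pool.Agent.H63.VC3

open Pool.Agent.H63.VC Complex Filter Topology

theorem norm_ww (n M : ℕ) (v : ℂ) : ‖ww n M v‖ = Real.exp (-(2 * Real.pi * M * v.im)) := by
  unfold ww
  rw [Complex.norm_exp]
  congr 1
  simp [Complex.mul_re, Complex.mul_im]
  ring

theorem om_flat (n M : ℕ) (v : ℂ) (h : 1 ≤ 2 * Real.pi * M * v.im) :
    ‖om n M v‖ ≤ 4 * Real.exp (-(2 * Real.pi * M * v.im)) := by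
  unfold om
  rw [norm_div, norm_pow]
  have h1 := norm_ww n M v
  have h2 : ‖ww n M v‖ ≤ 1 / 2 := by
    rw [h1]
    have h3 : Real.exp (-(2 * Real.pi * M * v.im)) ≤ Real.exp (-1) :=
      Real.exp_le_exp.2 (by linarith)
    have h4 : Real.exp (-1) ≤ 1 / 2 := by
      rw [Real.exp_neg]
      have := Real.add_one_le_exp (1 : ℝ)
      rw [inv_eq_one_div, div_le_div_iff₀ (Real.exp_pos 1) (by norm_num)]
      linarith
    linarith
  have h3 : 1 / 2 ≤ ‖1 - ww n M v‖ := by
    have := norm_sub_norm_le (1 : ℂ) (ww n M v)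
    rw [norm_one] at this
    linarith
  rw [div_le_iff₀ (by positivity), ← h1]
  have h4 : (1 / 2 : ℝ) ^ 2 ≤ ‖1 - ww n M v‖ ^ 2 := by gcongr
  nlinarith [norm_nonneg (ww n M v)]

theorem Om_ww_continuous (n M : ℕ) : Continuous (ww n M) := by
  unfold ww
  fun_prop

theorem om_continuousAt (n M : ℕ) (v : ℂ) (h : ww n M v ≠ 1) : ContinuousAt (om n M) v := by
  unfold om
  refine ContinuousAt.div (Om_ww_continuous n M).continuousAt
    ((continuousAt_const.sub (Om_ww_continuous n M).continuousAt).pow 2) ?_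
  exact pow_ne_zero 2 (sub_ne_zero.2 h.symm)

theorem Om_side_aux (n M : ℕ) (v : ℂ) (t : ℝ)
    (h : ww n M v = -(Real.exp (-(2 * Real.pi * M * t)) : ℂ)) :
    ‖om n M v‖ ≤ Real.exp (-(2 * Real.pi * M * t)) ∧ ww n M v ≠ 1 := by
  have hpos := Real.exp_pos (-(2 * Real.pi * M * t))
  set x := Real.exp (-(2 * Real.pi * M * t))
  have h1 : (1 : ℂ) - ww n M v = ((1 + x : ℝ) : ℂ) := by rw [h]; push_cast; ring
  constructor
  · unfold om
    rw [h1, h, norm_div, norm_pow, norm_neg, Complex.norm_of_nonneg hpos.le,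
      Complex.norm_of_nonneg (by positivity), div_le_iff₀ (by positivity)]
    nlinarith [sq_nonneg x, mul_pos hpos hpos]
  · intro hc
    rw [hc, sub_self] at h1
    have h2 : (1 + x : ℝ) = 0 := by exact_mod_cast h1.symm
    linarith

theorem Om_exp_half (k : ℤ) : Complex.exp (2 * Real.pi * I * (k + 1 / 2)) = -1 := by
  have : 2 * (Real.pi : ℂ) * I * (k + 1 / 2) = k * (2 * Real.pi * I) + Real.pi * I := by ring
  rw [this, Complex.exp_add, Complex.exp_int_mul_two_pi_mul_I, Complex.exp_pi_mul_I, one_mul]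

/-- On the vertical sides of the contour. -/
theorem om_side (n M l1 l2 : ℕ) (hM : 0 < M) (hl : l1 + l2 + n = M + 1) (t : ℝ) (ρ : ℝ)
    (hρ : ρ = (l2 + 1 / 2 + bt n) / M - 1 / 2) :
    ‖om n M (ρ + t * I)‖ ≤ Real.exp (-(2 * Real.pi * M * t)) ∧
    ‖om n M (-ρ + t * I)‖ ≤ Real.exp (-(2 * Real.pi * M * t)) ∧
    ww n M (ρ + t * I) ≠ 1 ∧ ww n M (-ρ + t * I) ≠ 1 := by
  have hM' : (M : ℂ) ≠ 0 := by exact_mod_cast hM.ne'
  have hMr : (M : ℝ) ≠ 0 := by exact_mod_cast hM.ne'
  have h1 : ww n M (ρ + t * I) = -(Real.exp (-(2 * Real.pi * M * t)) : ℂ) := by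
    unfold ww
    have e : 2 * (Real.pi : ℂ) * I * (M * ((ρ : ℂ) + t * I + 1 / 2) - bt n) =
        2 * Real.pi * I * (((l2 : ℤ) : ℂ) + 1 / 2) + ((-(2 * Real.pi * M * t) : ℝ) : ℂ) := by
      rw [hρ]
      push_cast
      field_simp
      ring_nf
      rw [Complex.I_sq]
      ring
    rw [e, Complex.exp_add, Om_exp_half, Complex.ofReal_exp]
    ring
  have h2 : ww n M (-ρ + t * I) = -(Real.exp (-(2 * Real.pi * M * t)) : ℂ) := by
    unfold ww
    have hl' : (M : ℂ) = l1 + l2 + n - 1 := by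
      have : ((l1 + l2 + n : ℕ) : ℂ) = ((M + 1 : ℕ) : ℂ) := by rw [hl]
      push_cast at this
      linear_combination -this
    have e : 2 * (Real.pi : ℂ) * I * (M * (-(ρ : ℂ) + t * I + 1 / 2) - bt n) =
        2 * Real.pi * I * ((((l1 : ℤ) - 1 : ℤ) : ℂ) + 1 / 2) +
          ((-(2 * Real.pi * M * t) : ℝ) : ℂ) := by
      have hMρ : (M : ℂ) * ρ = l2 + 1 / 2 + bt n - M / 2 := by
        rw [hρ]; push_cast; field_simp
      have hb : (bt n : ℂ) = ((n : ℂ) - 1) / 2 := by unfold bt; push_cast; ring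
      have e2 : (M : ℂ) * (-(ρ : ℂ) + t * I + 1 / 2) - bt n =
          (l1 - 1 + 1 / 2) + M * t * I := by
        have : (M : ℂ) * (-(ρ : ℂ) + t * I + 1 / 2) - bt n =
          -((M : ℂ) * ρ) + M * t * I + M / 2 - bt n := by ring
        rw [this, hMρ, hb]
        linear_combination hl'
      rw [e2]
      push_cast
      ring_nf
      rw [Complex.I_sq]
      ring
    rw [e, Complex.exp_add, Om_exp_half, Complex.ofReal_exp]
    ring
  obtain ⟨a1, a2⟩ := Om_side_aux n M _ t h1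
  obtain ⟨b1, b2⟩ := Om_side_aux n M _ t h2
  exact ⟨a1, b1, a2, b2⟩

theorem Om_tendsto (n : ℕ) (V : ℕ → ℂ) (Y : ℝ) (h : 0 < Y) (hV : ∀ M, (V M).im = Y) :
    Tendsto (fun M : ℕ => ww n M (V M)) atTop (𝓝 0) := by
  rw [tendsto_zero_iff_norm_tendsto_zero]
  simp_rw [norm_ww, hV]
  apply Real.tendsto_exp_atBot.comp
  apply Filter.tendsto_neg_atTop_atBot.comp
  have : Tendsto (fun M : ℕ => (2 * Real.pi * Y) * (M : ℝ)) atTop atTop :=
    tendsto_natCast_atTop_atTop.const_mul_atTop (by positivity)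
  refine this.congr fun M => ?_
  ring

end Pool.Agent.H63.VC3

end

section

/-! # The sum over `k` as an integral -/

namespace Pool.Agent.H63.VC3

open Complex

end Pool.Agent.H63.VC3

end

section

/-! # The slot factors at the summation points -/

namespace Pool.Agent.H63.VC7

open Pool.Agent.H63.VC
open Pool.Agent.H63.VC3 Pool.Agent.H63.VC4 Complex

private noncomputable def SlotXa_f (M i : ℕ) (v : ℂ) : ℂ :=
  2 * cos (Real.pi * (v + (i + 1 / 2) / M))

private noncomputable def SlotXa_g (M i : ℕ) (v : ℂ) : ℂ :=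
  2 * cos (Real.pi * (v - (i + 1 / 2) / M))

private lemma SlotXa_qc (M k : ℕ) : qc M k = fun v => (1 / (M : ℂ)) *
    ((∏ i ∈ Finset.range (M - 1 - k), SlotXa_f M i v) *
      ∏ i ∈ Finset.range (M - 1 - k), SlotXa_g M i v) := by
  funext v
  unfold qc
  rw [← Finset.prod_mul_distrib]
  congr 1
  refine Finset.prod_congr rfl fun i _ => ?_
  unfold SlotXa_f SlotXa_g
  ring

private lemma SlotXa_fd (M i : ℕ) (v : ℂ) :
    HasDerivAt (SlotXa_f M i) (-(2 * Real.pi) * sin (Real.pi * (v + (i + 1 / 2) / M))) v := by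
  unfold SlotXa_f
  have h1 : HasDerivAt (fun v : ℂ => (Real.pi : ℂ) * (v + (i + 1 / 2) / M)) ((Real.pi : ℂ) * 1) v :=
    ((hasDerivAt_id v).add_const _).const_mul _
  have h2 := (h1.ccos).const_mul (2 : ℂ)
  convert! h2 using 1
  ring

private lemma SlotXa_gd (M i : ℕ) (v : ℂ) :
    HasDerivAt (SlotXa_g M i) (-(2 * Real.pi) * sin (Real.pi * (v - (i + 1 / 2) / M))) v := by
  unfold SlotXa_g
  have h1 : HasDerivAt (fun v : ℂ => (Real.pi : ℂ) * (v - (i + 1 / 2) / M)) ((Real.pi : ℂ) * 1) v :=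
    ((hasDerivAt_id v).sub_const _).const_mul _
  have h2 := (h1.ccos).const_mul (2 : ℂ)
  convert! h2 using 1
  ring

private lemma SlotXa_sin_le (x : ℝ) : ‖-(2 * (Real.pi : ℂ)) * sin (x : ℂ)‖ ≤ 2 * Real.pi := by
  rw [norm_mul, norm_neg, ← ofReal_sin, norm_real]
  have h1 : ‖(2 * (Real.pi : ℂ))‖ = 2 * Real.pi := by
    rw [norm_mul, norm_real, Real.norm_eq_abs, abs_of_pos Real.pi_pos]
    norm_num
  rw [h1, Real.norm_eq_abs]
  have := Real.abs_sin_le_one x
  nlinarith only [this, Real.pi_pos]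

private lemma SlotXa_fb (M i : ℕ) (x : ℝ) :
    ‖-(2 * (Real.pi : ℂ)) * sin (Real.pi * ((x : ℂ) + (i + 1 / 2) / M))‖ ≤ 2 * Real.pi := by
  have := SlotXa_sin_le (Real.pi * (x + (i + 1 / 2) / M))
  push_cast at this
  exact this

private lemma SlotXa_gb (M i : ℕ) (x : ℝ) :
    ‖-(2 * (Real.pi : ℂ)) * sin (Real.pi * ((x : ℂ) - (i + 1 / 2) / M))‖ ≤ 2 * Real.pi := by
  have := SlotXa_sin_le (Real.pi * (x - (i + 1 / 2) / M))
  push_cast at this
  exact this

private lemma SlotXa_vl (M X : ℕ) : vl 2 M X = (X + 1 / 2) / M - 1 / 2 := by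
  unfold vl bt
  norm_num

private lemma SlotXa_fv (M X i : ℕ) :
    SlotXa_f M i ((vl 2 M X : ℝ) : ℂ) = ((sg M (X + i + 1) : ℝ) : ℂ) := by
  unfold SlotXa_f sg
  rw [SlotXa_vl]
  have e : (Real.pi : ℂ) * ((((X + 1 / 2) / M - 1 / 2 : ℝ) : ℂ) + (i + 1 / 2) / M) =
      ((Real.pi * ((X + i + 1 : ℕ) : ℝ) / M : ℝ) : ℂ) - Real.pi / 2 := by
    push_cast
    ring
  rw [e, cos_sub_pi_div_two, ← ofReal_sin]
  push_cast
  ring

private lemma SlotXa_gv (M X i : ℕ) :
    SlotXa_g M i ((vl 2 M X : ℝ) : ℂ) = ((2 * Real.sin (Real.pi * ((X : ℝ) - i) / M) : ℝ) : ℂ) := by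
  unfold SlotXa_g
  rw [SlotXa_vl]
  have e : (Real.pi : ℂ) * ((((X + 1 / 2) / M - 1 / 2 : ℝ) : ℂ) - (i + 1 / 2) / M) =
      ((Real.pi * ((X : ℝ) - i) / M : ℝ) : ℂ) - Real.pi / 2 := by
    push_cast
    ring
  rw [e, cos_sub_pi_div_two, ← ofReal_sin]
  push_cast
  ring

private lemma SlotXa_gv1 (M X i : ℕ) (h : i ≤ X) :
    SlotXa_g M i ((vl 2 M X : ℝ) : ℂ) = ((sg M (X - i) : ℝ) : ℂ) := by
  rw [SlotXa_gv]
  unfold sg
  rw [Nat.cast_sub h]

private lemma SlotXa_gv2 (M X i : ℕ) (h : X ≤ i) :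
    SlotXa_g M i ((vl 2 M X : ℝ) : ℂ) = -((sg M (i - X) : ℝ) : ℂ) := by
  rw [SlotXa_gv]
  unfold sg
  rw [Nat.cast_sub h, ← ofReal_neg]
  congr 1
  have : Real.pi * ((X : ℝ) - i) / M = -(Real.pi * ((i : ℝ) - X) / M) := by ring
  rw [this, Real.sin_neg]
  ring

private lemma SlotXa_g0 (M X : ℕ) : SlotXa_g M X ((vl 2 M X : ℝ) : ℂ) = 0 := by
  rw [SlotXa_gv]
  simp

private lemma SlotXa_prodF (M X t : ℕ) (hX : X < M) :
    ∏ i ∈ Finset.range t, sg M (X + i + 1) = S M (X + t) / S M X := by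
  have h1 := S_split (M := M) (k := X) (l := X + t) (by omega)
  rw [Finset.prod_Ico_eq_prod_range] at h1
  have h2 : X + t + 1 - (X + 1) = t := by omega
  rw [h2] at h1
  rw [h1, mul_div_cancel_left₀ _ (S_pos hX).ne']
  refine Finset.prod_congr rfl fun i _ => ?_
  congr 1
  omega

private lemma SlotXa_prodG (M X : ℕ) : ∀ t : ℕ, t ≤ X →
    S M X = S M (X - t) * ∏ i ∈ Finset.range t, sg M (X - i) := by
  intro t
  induction t with
  | zero => intro _; simp
  | succ t ih =>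
    intro ht
    rw [Finset.prod_range_succ, ih (by omega)]
    have h1 : X - t = (X - (t + 1)) + 1 := by omega
    rw [h1, S_succ, ← h1]
    ring

/-- The norm of the derivative of a product. -/
private lemma SlotXa_prod_bound (t : ℕ) (h h' : ℕ → ℂ) (c D : ℝ) (hc : 0 < c) (hD : 0 ≤ D)
    (h1 : ∀ i < t, c ≤ ‖h i‖) (h2 : ∀ i < t, ‖h' i‖ ≤ D) :
    ‖∑ i ∈ Finset.range t, (∏ j ∈ (Finset.range t).erase i, h j) • h' i‖ ≤
      t * (D / c) * ‖∏ i ∈ Finset.range t, h i‖ := by
  refine (norm_sum_le _ _).trans ?_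
  have h3 : ∀ i ∈ Finset.range t, ‖(∏ j ∈ (Finset.range t).erase i, h j) • h' i‖ ≤
      (D / c) * ‖∏ i ∈ Finset.range t, h i‖ := by
    intro i hi
    rw [← Finset.mul_prod_erase _ _ hi, norm_smul, norm_mul]
    have hi' := Finset.mem_range.1 hi
    have e1 := h1 i hi'
    have e2 := h2 i hi'
    have e3 : (1 : ℝ) ≤ ‖h i‖ / c := by rw [le_div_iff₀ hc]; linarith only [e1]
    calc ‖∏ j ∈ (Finset.range t).erase i, h j‖ * ‖h' i‖
        ≤ ‖∏ j ∈ (Finset.range t).erase i, h j‖ * D := by gcongr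
      _ ≤ ‖∏ j ∈ (Finset.range t).erase i, h j‖ * D * (‖h i‖ / c) :=
          le_mul_of_one_le_right (by positivity) e3
      _ = D / c * (‖h i‖ * ‖∏ j ∈ (Finset.range t).erase i, h j‖) := by ring
  refine (Finset.sum_le_sum h3).trans ?_
  rw [Finset.sum_const, Finset.card_range, nsmul_eq_mul, mul_assoc]

private lemma SlotXa_Fd (M t : ℕ) (v : ℂ) :
    HasDerivAt (fun v => ∏ i ∈ Finset.range t, SlotXa_f M i v)
      (∑ i ∈ Finset.range t, (∏ j ∈ (Finset.range t).erase i, SlotXa_f M j v) •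
        (-(2 * Real.pi) * sin (Real.pi * (v + (i + 1 / 2) / M)))) v :=
  HasDerivAt.fun_finsetProd fun i _ => SlotXa_fd M i v

private lemma SlotXa_Gd (M t : ℕ) (v : ℂ) :
    HasDerivAt (fun v => ∏ i ∈ Finset.range t, SlotXa_g M i v)
      (∑ i ∈ Finset.range t, (∏ j ∈ (Finset.range t).erase i, SlotXa_g M j v) •
        (-(2 * Real.pi) * sin (Real.pi * (v - (i + 1 / 2) / M)))) v :=
  HasDerivAt.fun_finsetProd fun i _ => SlotXa_gd M i v

private lemma SlotXa_qcd (M k : ℕ) (v : ℂ) :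
    deriv (qc M k) v = (1 / (M : ℂ)) *
      ((∑ i ∈ Finset.range (M - 1 - k),
          (∏ j ∈ (Finset.range (M - 1 - k)).erase i, SlotXa_f M j v) •
          (-(2 * Real.pi) * sin (Real.pi * (v + (i + 1 / 2) / M)))) *
        (∏ i ∈ Finset.range (M - 1 - k), SlotXa_g M i v) +
      (∏ i ∈ Finset.range (M - 1 - k), SlotXa_f M i v) *
        (∑ i ∈ Finset.range (M - 1 - k),
          (∏ j ∈ (Finset.range (M - 1 - k)).erase i, SlotXa_g M j v) •
          (-(2 * Real.pi) * sin (Real.pi * (v - (i + 1 / 2) / M))))) := by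
  rw [SlotXa_qc]
  exact (((SlotXa_Fd M (M - 1 - k) v).fun_mul (SlotXa_Gd M (M - 1 - k) v)).const_mul _).deriv

private lemma SlotXa_normF (M X t : ℕ) (hX : X < M) (ht : X + t < M) :
    ‖∏ i ∈ Finset.range t, SlotXa_f M i ((vl 2 M X : ℝ) : ℂ)‖ = S M (X + t) / S M X := by
  rw [← SlotXa_prodF M X t hX, _root_.norm_prod]
  refine Finset.prod_congr rfl fun i hi => ?_
  have hi' := Finset.mem_range.1 hi
  rw [SlotXa_fv, norm_real, Real.norm_eq_abs, abs_of_pos (sg_pos (by omega) (by omega))]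

/-- The values and the derivatives of the slot factor at the summation points in the left half. -/
theorem qc_norm (M k X : ℕ) (hM : 2 ≤ M) (hk : k < M) (hX : 2 * X + 1 ≤ M) :
    (M - 1 - k ≤ X →
      ‖qc M k ((vl 2 M X : ℝ) : ℂ)‖ = S M (X + (M - 1 - k)) / (M * S M (X - (M - 1 - k))) ∧
      ‖deriv (qc M k) ((vl 2 M X : ℝ) : ℂ)‖ ≤ 2 * Real.pi * (M : ℝ) ^ 2 *
        (S M (X + (M - 1 - k)) / (M * S M (X - (M - 1 - k))))) ∧
    (X < M - 1 - k → X ≤ k → qc M k ((vl 2 M X : ℝ) : ℂ) = 0 ∧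
      ‖deriv (qc M k) ((vl 2 M X : ℝ) : ℂ)‖ =
        2 * Real.pi / M * (S M (M - 1 - k + X) * S M (M - 2 - k - X))) ∧
    (k < X → qc M k ((vl 2 M X : ℝ) : ℂ) = 0 ∧ deriv (qc M k) ((vl 2 M X : ℝ) : ℂ) = 0) := by
  have hM0 : (0 : ℝ) < M := by exact_mod_cast (by omega : 0 < M)
  have hXM : X < M := by omega
  have hSX := S_pos hXM
  refine ⟨fun ht => ?_, fun ht hXk => ?_, fun hkX => ?_⟩
  · set t := M - 1 - k with htdef
    have hF := SlotXa_normF M X t hXM (by omega)
    have hGe := SlotXa_prodG M X t ht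
    have hG : ‖∏ i ∈ Finset.range t, SlotXa_g M i ((vl 2 M X : ℝ) : ℂ)‖ =
        S M X / S M (X - t) := by
      have hp := S_pos (M := M) (k := X - t) (by omega)
      rw [hGe, mul_div_cancel_left₀ _ hp.ne', _root_.norm_prod]
      refine Finset.prod_congr rfl fun i hi => ?_
      have hi' := Finset.mem_range.1 hi
      rw [SlotXa_gv1 M X i (by omega), norm_real, Real.norm_eq_abs,
        abs_of_pos (sg_pos (by omega) (by omega))]
    have hp := S_pos (M := M) (k := X - t) (by omega)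
    have hFG : ‖∏ i ∈ Finset.range t, SlotXa_f M i ((vl 2 M X : ℝ) : ℂ)‖ *
        ‖∏ i ∈ Finset.range t, SlotXa_g M i ((vl 2 M X : ℝ) : ℂ)‖ =
        S M (X + t) / S M (X - t) := by
      rw [hF, hG]
      field_simp
    refine ⟨?_, ?_⟩
    · rw [SlotXa_qc]
      simp only
      rw [← htdef, norm_mul, norm_mul, hFG, norm_div, norm_one, _root_.norm_natCast]
      field_simp
    · rw [SlotXa_qcd, ← htdef, norm_mul, norm_div, norm_one, _root_.norm_natCast]
      have b1 := SlotXa_prod_bound t (fun i => SlotXa_f M i ((vl 2 M X : ℝ) : ℂ))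
        (fun i => -(2 * (Real.pi : ℂ)) * sin (Real.pi * (((vl 2 M X : ℝ) : ℂ) + (i + 1 / 2) / M)))
        (1 / M) (2 * Real.pi) (by positivity) (by positivity)
        (fun i hi => by
          rw [SlotXa_fv, norm_real, Real.norm_eq_abs, abs_of_pos (sg_pos (by omega) (by omega))]
          exact sg_ge (by omega) (by omega))
        (fun i _ => SlotXa_fb M i _)
      have b2 := SlotXa_prod_bound t (fun i => SlotXa_g M i ((vl 2 M X : ℝ) : ℂ))
        (fun i => -(2 * (Real.pi : ℂ)) * sin (Real.pi * (((vl 2 M X : ℝ) : ℂ) - (i + 1 / 2) / M)))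
        (1 / M) (2 * Real.pi) (by positivity) (by positivity)
        (fun i hi => by
          rw [SlotXa_gv1 M X i (by omega), norm_real, Real.norm_eq_abs,
            abs_of_pos (sg_pos (by omega) (by omega))]
          exact sg_ge (by omega) (by omega))
        (fun i _ => SlotXa_gb M i _)
      have htM : 2 * (t : ℝ) ≤ M := by exact_mod_cast (by omega : 2 * t ≤ M)
      set F := ∏ i ∈ Finset.range t, SlotXa_f M i ((vl 2 M X : ℝ) : ℂ) with hFd
      set G := ∏ i ∈ Finset.range t, SlotXa_g M i ((vl 2 M X : ℝ) : ℂ) with hGd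
      refine (mul_le_mul_of_nonneg_left (norm_add_le _ _) (by positivity)).trans ?_
      rw [norm_mul, norm_mul]
      have c1 := mul_le_mul_of_nonneg_right b1 (norm_nonneg G)
      have c2 := mul_le_mul_of_nonneg_left b2 (norm_nonneg F)
      have c3 : (1 / (M : ℝ)) * (t * (2 * Real.pi / (1 / M)) * ‖F‖ * ‖G‖ +
          ‖F‖ * (t * (2 * Real.pi / (1 / M)) * ‖G‖)) = 4 * Real.pi * t * (‖F‖ * ‖G‖) := by
        field_simp
        ring
      refine (mul_le_mul_of_nonneg_left (add_le_add c1 c2) (by positivity)).trans ?_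
      rw [c3, hFG]
      have c4 : 2 * Real.pi * (M : ℝ) ^ 2 * (S M (X + t) / (M * S M (X - t))) =
          2 * Real.pi * M * (S M (X + t) / S M (X - t)) := by
        field_simp
      rw [c4]
      have hq : 0 ≤ S M (X + t) / S M (X - t) := by
        rw [← hFG]; positivity
      refine mul_le_mul_of_nonneg_right ?_ hq
      nlinarith only [htM, Real.pi_pos]
  · set t := M - 1 - k with htdef
    have hF := SlotXa_normF M X t hXM (by omega)
    have hG0 : ∏ i ∈ Finset.range t, SlotXa_g M i ((vl 2 M X : ℝ) : ℂ) = 0 :=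
      Finset.prod_eq_zero (Finset.mem_range.2 ht) (SlotXa_g0 M X)
    refine ⟨?_, ?_⟩
    · rw [SlotXa_qc]
      simp only
      rw [← htdef, hG0]
      simp
    · rw [SlotXa_qcd, ← htdef, hG0, mul_zero, zero_add]
      have hs : ∑ i ∈ Finset.range t,
          (∏ j ∈ (Finset.range t).erase i, SlotXa_g M j ((vl 2 M X : ℝ) : ℂ)) •
          (-(2 * (Real.pi : ℂ)) * sin (Real.pi * (((vl 2 M X : ℝ) : ℂ) - (i + 1 / 2) / M))) =
          (∏ j ∈ (Finset.range t).erase X, SlotXa_g M j ((vl 2 M X : ℝ) : ℂ)) •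
          (-(2 * (Real.pi : ℂ)) * sin (Real.pi * (((vl 2 M X : ℝ) : ℂ) - (X + 1 / 2) / M))) := by
        refine Finset.sum_eq_single X ?_ ?_
        · intro i hi hiX
          rw [Finset.prod_eq_zero (Finset.mem_erase.2 ⟨fun h => hiX h.symm,
            Finset.mem_range.2 ht⟩) (SlotXa_g0 M X), zero_smul]
        · intro h
          exact absurd (Finset.mem_range.2 ht) h
      rw [hs]
      have hsin : -(2 * (Real.pi : ℂ)) * sin (Real.pi * (((vl 2 M X : ℝ) : ℂ) - (X + 1 / 2) / M)) =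
          2 * Real.pi := by
        rw [SlotXa_vl]
        have e : (Real.pi : ℂ) * ((((X + 1 / 2) / M - 1 / 2 : ℝ) : ℂ) - (X + 1 / 2) / M) =
            -(Real.pi / 2) := by
          push_cast
          ring
        rw [e, sin_neg, sin_pi_div_two]
        ring
      rw [hsin]
      have hsplit : (Finset.range t).erase X = Finset.range X ∪ Finset.Ico (X + 1) t := by
        ext i
        simp only [Finset.mem_erase, Finset.mem_range, Finset.mem_union, Finset.mem_Ico]
        omega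
      have hdisj : Disjoint (Finset.range X) (Finset.Ico (X + 1) t) := by
        rw [Finset.disjoint_left]
        intro i hi hi2
        rw [Finset.mem_range] at hi
        rw [Finset.mem_Ico] at hi2
        omega
      have hP1 : ‖∏ j ∈ Finset.range X, SlotXa_g M j ((vl 2 M X : ℝ) : ℂ)‖ = S M X := by
        have h1 := SlotXa_prodG M X X le_rfl
        rw [Nat.sub_self, S_zero, one_mul] at h1
        rw [h1, _root_.norm_prod]
        refine Finset.prod_congr rfl fun i hi => ?_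
        have hi' := Finset.mem_range.1 hi
        rw [SlotXa_gv1 M X i (by omega), norm_real, Real.norm_eq_abs,
          abs_of_pos (sg_pos (by omega) (by omega))]
      have hP2 : ‖∏ j ∈ Finset.Ico (X + 1) t, SlotXa_g M j ((vl 2 M X : ℝ) : ℂ)‖ =
          S M (M - 2 - k - X) := by
        rw [Finset.prod_Ico_eq_prod_range, _root_.norm_prod]
        unfold S
        rw [Finset.prod_Ico_eq_prod_range]
        have e1 : t - (X + 1) = M - 2 - k - X + 1 - 1 := by omega
        rw [e1]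
        refine Finset.prod_congr rfl fun i hi => ?_
        have hi' := Finset.mem_range.1 hi
        rw [SlotXa_gv2 M X _ (by omega), norm_neg, norm_real, Real.norm_eq_abs]
        have e2 : X + 1 + i - X = 1 + i := by omega
        rw [e2, abs_of_pos (sg_pos (by omega) (by omega))]
      rw [norm_mul, norm_mul, norm_smul, hF, hsplit, Finset.prod_union hdisj, norm_mul, hP1, hP2,
        norm_div, norm_one, _root_.norm_natCast]
      have hpi : ‖(2 * (Real.pi : ℂ))‖ = 2 * Real.pi := by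
        rw [norm_mul, norm_real, Real.norm_eq_abs, abs_of_pos Real.pi_pos]
        norm_num
      rw [hpi, add_comm t X]
      field_simp
  · set t := M - 1 - k with htdef
    have hG0 : ∏ i ∈ Finset.range t, SlotXa_g M i ((vl 2 M X : ℝ) : ℂ) = 0 :=
      Finset.prod_eq_zero (Finset.mem_range.2 (by omega : X < t)) (SlotXa_g0 M X)
    have hf0 : SlotXa_f M (M - 1 - X) ((vl 2 M X : ℝ) : ℂ) = 0 := by
      rw [SlotXa_fv]
      have e : X + (M - 1 - X) + 1 = M := by omega
      rw [e]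
      unfold sg
      rw [mul_div_assoc, div_self hM0.ne', mul_one, Real.sin_pi]
      simp
    have hF0 : ∏ i ∈ Finset.range t, SlotXa_f M i ((vl 2 M X : ℝ) : ℂ) = 0 :=
      Finset.prod_eq_zero (Finset.mem_range.2 (by omega : M - 1 - X < t)) hf0
    refine ⟨?_, ?_⟩
    · rw [SlotXa_qc]
      simp only
      rw [← htdef, hG0]
      simp
    · rw [SlotXa_qcd, ← htdef, hG0, hF0]
      simp

private lemma SlotXa_even (M k : ℕ) (v : ℂ) : qc M k (-v) = qc M k v := by
  unfold qc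
  congr 1
  refine Finset.prod_congr rfl fun i _ => ?_
  have e1 : (Real.pi : ℂ) * (-v + (i + 1 / 2) / M) = -(Real.pi * (v - (i + 1 / 2) / M)) := by ring
  have e2 : (Real.pi : ℂ) * (-v - (i + 1 / 2) / M) = -(Real.pi * (v + (i + 1 / 2) / M)) := by ring
  rw [e1, e2, cos_neg, cos_neg]
  ring

/-- Reflection. -/
theorem qc_reflect (M k X : ℕ) (hX : X < M) :
    qc M k ((vl 2 M (M - 1 - X) : ℝ) : ℂ) = qc M k ((vl 2 M X : ℝ) : ℂ) ∧
      deriv (qc M k) ((vl 2 M (M - 1 - X) : ℝ) : ℂ) = -deriv (qc M k) ((vl 2 M X : ℝ) : ℂ) := by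
  have hM0 : (M : ℝ) ≠ 0 := by exact_mod_cast (by omega : M ≠ 0)
  have e : ((vl 2 M (M - 1 - X) : ℝ) : ℂ) = -((vl 2 M X : ℝ) : ℂ) := by
    rw [← ofReal_neg]
    congr 1
    rw [SlotXa_vl, SlotXa_vl, Nat.sub_sub, Nat.cast_sub (by omega)]
    push_cast
    field_simp
    ring
  rw [e]
  refine ⟨SlotXa_even M k _, ?_⟩
  have h1 : (fun v => qc M k (-v)) = qc M k := funext fun v => SlotXa_even M k v
  have h2 := deriv_comp_neg (f := qc M k) (x := ((vl 2 M X : ℝ) : ℂ))
  rw [h1] at h2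
  rw [h2, neg_neg]

end Pool.Agent.H63.VC7

end

section

/-! # The state sum as a sum over the edges -/

namespace Pool.Agent.H63.VC7

open Pool.Agent.H63.VC
open Pool.Agent.H63.VC3 Pool.Agent.H63.VC4 Complex

variable {m p : ℕ}

/-- `∏_{i=1}^t {X+i}{X+1-i}`. -/
noncomputable def pw (q : ℂ) (t X : ℕ) : ℂ :=
  ∏ i ∈ Finset.range t, (br q ((X : ℤ) + i + 1) * br q ((X : ℤ) - i))

/-- `∏_{i=1}^t {i}²{M+i}{M-i}`, `M = N + 1`. -/
noncomputable def wd (q : ℂ) (N t : ℕ) : ℂ :=
  ∏ i ∈ Finset.range t, (br q ((i : ℤ) + 1) ^ 2 * (br q ((N : ℤ) + i + 2) * br q ((N : ℤ) - i)))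

/-- The factor of a node. -/
noncomputable def NF (a : ℤ) (N : ℕ) (q : ℂ) (A : Finset (Fin m)) (t : Fin m → ℕ) : ℂ :=
  ∑ X ∈ Finset.range (N + 1), tw q X ^ a * (br q (2 * (X : ℤ) + 1) / br q ((N : ℤ) + 1)) *
    ∏ j ∈ A, pw q (t j) X

theorem Swap_sixj (q : ℂ) (N k l : ℕ) : sixj q N k l =
    ∑ t ∈ Finset.range (N + 1), ((-1) ^ t / wd q N t) * (pw q t k * pw q t l) := by
  unfold sixj
  refine Finset.sum_congr rfl fun t _ => ?_
  rw [Finset.prod_div_distrib, Finset.prod_mul_distrib]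
  change (-1) ^ t * (pw q t k * pw q t l / wd q N t) = _
  ring

theorem jones_swap (s t : Fin m → Fin p) (hst : ∀ j, s j ≠ t j) (a : Fin p → ℤ) (N : ℕ) (q : ℂ) :
    jones s t a N q = ∑ k ∈ Fintype.piFinset (fun _ : Fin m => Finset.range (N + 1)),
      (∏ j, (-1) ^ (k j) / wd q N (k j)) * ∏ i, NF (a i) N q (inc s t i) k := by
  have h1 : ∀ X : Fin p → ℕ, ∏ j, sixj q N (X (s j)) (X (t j)) =
      ∑ k ∈ Fintype.piFinset (fun _ : Fin m => Finset.range (N + 1)),
        (∏ j, (-1) ^ (k j) / wd q N (k j)) * ∏ i, ∏ j ∈ inc s t i, pw q (k j) (X i) := by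
    intro X
    simp only [Swap_sixj]
    rw [Finset.prod_univ_sum]
    refine Finset.sum_congr rfl fun k _ => ?_
    rw [Finset.prod_mul_distrib, prod_inc s t hst (fun i j => pw q (k j) (X i))]
  unfold jones
  simp only [h1, Finset.mul_sum]
  rw [Finset.sum_comm]
  refine Finset.sum_congr rfl fun k _ => ?_
  unfold NF
  rw [Finset.prod_univ_sum, Finset.mul_sum]
  refine Finset.sum_congr rfl fun X _ => ?_
  have h2 : ∏ i, (tw q (X i) ^ a i * (br q (2 * (X i : ℤ) + 1) / br q ((N : ℤ) + 1)) *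
      ∏ j ∈ inc s t i, pw q (k j) (X i)) =
      (∏ i, tw q (X i) ^ a i * (br q (2 * (X i : ℤ) + 1) / br q ((N : ℤ) + 1))) *
        ∏ i, ∏ j ∈ inc s t i, pw q (k j) (X i) := Finset.prod_mul_distrib
  rw [h2, mul_left_comm]

end Pool.Agent.H63.VC7

end

section

/-! # Shape parameters of a block: definitions -/

namespace Pool.Agent.H63.VC7

open Pool.Agent.H63.VC
open Pool.Agent.H63.VC3 Complex

/-- The logarithm of the shape parameter. -/
noncomputable def l0 (z : ℂ) : ℂ := Complex.log z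

/-- The logarithm of the second shape parameter. -/
noncomputable def l1 (z : ℂ) : ℂ := Complex.log (1 / (1 - z))

/-- The logarithm of the third shape parameter. -/
noncomputable def l2 (z : ℂ) : ℂ := Complex.log (1 - 1 / z)

/-- Critical values at an edge with ends `v`, `w`. -/
structure Loc7 (y v w : ℂ) : Prop where
  hy : ‖y - 1 / 4‖ ≤ 6 / 1000
  hv : |v.re| ≤ 53 / 1000 ∧ 0 < v.im ∧ v.im ≤ 3 / 1000
  hw : |w.re| ≤ 53 / 1000 ∧ 0 < w.im ∧ w.im ≤ 3 / 1000
  ey : 4 * hh (y + 1 / 2) = hh (y - v) + hh (y + v) + hh (y - w) + hh (y + w)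

/-- The shape parameter of a tetrahedron of `P`. -/
noncomputable def sX (y v : ℂ) : ℂ :=
  I * exp (-(Real.pi * I * v)) * cos (Real.pi * y) / sin (Real.pi * (y + v))

/-- The shape parameter of a tetrahedron of `P'`. -/
noncomputable def sY (y v : ℂ) : ℂ :=
  I * exp (-(Real.pi * I * v)) * sin (Real.pi * (y + v)) / cos (Real.pi * y)

/-- The shape parameters of `P`. -/
noncomputable def shx (y v w : ℂ) : Fin 4 → ℂ := ![sX y v, sX y (-w), sX y w, sX y (-v)]

/-- The shape parameters of `P'`. -/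
noncomputable def shy (y v w : ℂ) : Fin 4 → ℂ := ![sY y v, sY y (-w), sY y w, sY y (-v)]

end Pool.Agent.H63.VC7

end

section

/-! # Flattenings of a block: definitions -/

namespace Pool.Agent.H63.VC7

open Pool.Agent.H63.VC
open Pool.Agent.H63.VC3 Pool.Agent.H63.VC5 Complex

/-- The integers of the flattening of `P`. -/
def nX (ms mt al be : ℤ) : Fin 4 → Fin 3 → ℤ :=
  ![![al - ms + mt, -al + ms - mt - 1, 0], ![be + ms, -be - 1, -ms],
    ![-be - mt - 1, be + ms, mt - ms], ![-al - 1, al + ms, -ms]]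

/-- The integers of the flattening of `P'`. -/
def nY (ms mt al be : ℤ) : Fin 4 → Fin 3 → ℤ :=
  ![![-al - mt - 1, 0, al + mt], ![-be - ms + mt - 1, -mt, be + ms],
    ![be, 0, -1 - be], ![al + ms, -ms, -1 - al]]

/-- The flattened logarithmic parameters of `P`. -/
noncomputable def FX (y v w : ℂ) (ms mt al be : ℤ) (k : Fin 4) (c : Fin 3) : ℂ :=
  Hyp.lgs (shx y v w k) c + nX ms mt al be k c * (Real.pi * I)

/-- The flattened logarithmic parameters of `P'`. -/
noncomputable def FY (y v w : ℂ) (ms mt al be : ℤ) (k : Fin 4) (c : Fin 3) : ℂ :=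
  Hyp.lgs (shy y v w k) c + nY ms mt al be k c * (Real.pi * I)

/-- `R(z; 0, 0)`. -/
noncomputable def rh0 (z : ℂ) : ℂ :=
  dilog z + Complex.log z * Complex.log (1 - z) / 2 - (Real.pi : ℂ) ^ 2 / 6

theorem lgs_0 (z : ℂ) : Hyp.lgs z 0 = l0 z := rfl

theorem lgs_1 (z : ℂ) : Hyp.lgs z 1 = l1 z := rfl

theorem lgs_2 (z : ℂ) : Hyp.lgs z 2 = l2 z := rfl

/-- `0` or `1`. -/
def bt1 (f : Bool) : ℤ := if f = true then 1 else 0

end Pool.Agent.H63.VC7

end

section

/-! # Logarithms of the shape parameters -/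

namespace Pool.Agent.H63.VC7

open Pool.Agent.H63.VC
open Pool.Agent.H63.VC3 Complex

lemma LogP_sinh {x : ℝ} (hx : |x| ≤ 1 / 10) : |Real.sinh x| ≤ 1 / 5 := by
  have h1 := Real.abs_exp_sub_one_le (x := x) (by linarith only [hx])
  have h2 := Real.abs_exp_sub_one_le (x := -x) (by rw [abs_neg]; linarith only [hx])
  rw [abs_neg] at h2
  rw [Real.sinh_eq, abs_le]
  rw [abs_le] at h1 h2
  constructor <;> linarith only [hx, h1, h2, h1.1, h1.2, h2.1, h2.2]

lemma LogP_sin {a : ℝ} (ha : |a - 1 / 2| ≤ 1 / 3) : 1 / 2 ≤ Real.sin (Real.pi * a) := by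
  have h1 : Real.sin (Real.pi * a) = Real.cos |Real.pi * (a - 1 / 2)| := by
    rw [Real.cos_abs, ← Real.cos_sub_pi_div_two]
    congr 1
    ring
  have h2 : |Real.pi * (a - 1 / 2)| ≤ Real.pi / 3 := by
    rw [abs_mul, abs_of_pos Real.pi_pos]
    have := Real.pi_pos
    nlinarith only [ha, this]
  have h3 := Real.cos_le_cos_of_nonneg_of_le_pi (abs_nonneg _) (by linarith only [Real.pi_pos]) h2
  rw [Real.cos_pi_div_three] at h3
  rw [h1]
  exact h3

/-- The logarithm `hh` in the good region. -/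
lemma LogP_hh {z : ℂ} (h : |z.re - 1 / 2| ≤ 1 / 3) (h' : |z.im| ≤ 1 / 50) :
    |(hh z).im| < 1 / 2 ∧ exp (hh z) = 2 * sin (Real.pi * z) ∧ sin (Real.pi * z) ≠ 0 := by
  have hw : (Real.pi * z : ℂ) = ((Real.pi * z.re : ℝ) : ℂ) + ((Real.pi * z.im : ℝ) : ℂ) * I := by
    apply Complex.ext <;> simp
  have hre : (2 * sin (Real.pi * z)).re =
      2 * (Real.sin (Real.pi * z.re) * Real.cosh (Real.pi * z.im)) := by
    rw [hw, Complex.sin_add_mul_I]
    rw [← Complex.ofReal_sin, ← Complex.ofReal_cos, ← Complex.ofReal_cosh, ← Complex.ofReal_sinh]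
    simp only [mul_re, add_re, ofReal_re, ofReal_im, I_re, I_im, mul_im, re_ofNat, im_ofNat]
    ring
  have him : (2 * sin (Real.pi * z)).im =
      2 * (Real.cos (Real.pi * z.re) * Real.sinh (Real.pi * z.im)) := by
    rw [hw, Complex.sin_add_mul_I]
    rw [← Complex.ofReal_sin, ← Complex.ofReal_cos, ← Complex.ofReal_cosh, ← Complex.ofReal_sinh]
    simp only [mul_re, add_im, add_re, ofReal_re, ofReal_im, I_re, I_im, mul_im, re_ofNat, im_ofNat]
    ring
  have hs := LogP_sin h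
  have hc := Real.one_le_cosh (Real.pi * z.im)
  have hre1 : 1 ≤ (2 * sin (Real.pi * z)).re := by
    rw [hre]; nlinarith only [hs, hc]
  have hb : |Real.pi * z.im| ≤ 1 / 10 := by
    rw [abs_mul, abs_of_pos Real.pi_pos]
    have := Real.pi_lt_four
    nlinarith only [this, h', abs_nonneg z.im, Real.pi_pos]
  have hsh := LogP_sinh hb
  have him1 : |(2 * sin (Real.pi * z)).im| ≤ 2 / 5 := by
    rw [him, abs_mul, abs_mul, abs_of_pos (by norm_num : (0 : ℝ) < 2)]
    have h1 := Real.abs_cos_le_one (Real.pi * z.re)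
    nlinarith only [h1, hsh, abs_nonneg (Real.cos (Real.pi * z.re)), abs_nonneg (Real.sinh (Real.pi * z.im))]
  have hne : sin (Real.pi * z) ≠ 0 := by
    intro h0
    rw [h0] at hre1
    norm_num at hre1
  have hne2 : 2 * sin (Real.pi * z) ≠ 0 := mul_ne_zero two_ne_zero hne
  refine ⟨?_, Complex.exp_log hne2, hne⟩
  have hn : 1 ≤ ‖2 * sin (Real.pi * z)‖ :=
    hre1.trans ((le_abs_self _).trans (Complex.abs_re_le_norm _))
  have hq : |(2 * sin (Real.pi * z)).im / ‖2 * sin (Real.pi * z)‖| ≤ 2 / 5 := by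
    rw [abs_div, abs_of_pos (lt_of_lt_of_le one_pos hn), div_le_iff₀ (lt_of_lt_of_le one_pos hn)]
    nlinarith only [him1, hn]
  have hsin : 2 / 5 < Real.sin (1 / 2) := by
    have := Real.sin_gt_sub_cube (x := 1 / 2) (by norm_num)
    norm_num at this ⊢
    linarith only [this]
  have e : (hh z).im = Real.arcsin ((2 * sin (Real.pi * z)).im / ‖2 * sin (Real.pi * z)‖) := by
    unfold hh
    rw [Complex.log_im, Complex.arg_of_re_nonneg (by linarith only [hre1])]
  rw [e, abs_lt]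
  rw [abs_le] at hq
  constructor
  · rw [Real.lt_arcsin_iff_sin_lt' ⟨by linarith only [Real.pi_gt_three], by linarith only [Real.pi_gt_three]⟩,
      Real.sin_neg]
    linarith only [hq, hsin]
  · rw [Real.arcsin_lt_iff_lt_sin' ⟨by linarith only [Real.pi_gt_three], by linarith only [Real.pi_gt_three]⟩]
    linarith only [hq, hsin]

lemma LogP_log {R z : ℂ} (h : exp R = z) (h1 : -Real.pi < R.im) (h2 : R.im ≤ Real.pi) :
    Complex.log z = R := by
  rw [← h]; exact Complex.log_exp h1 h2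

/-- Bounds and values used below. -/
lemma LogP_data (y v : ℂ) (hy : ‖y - 1 / 4‖ ≤ 6 / 1000) (hv : |v.re| ≤ 53 / 1000)
    (hv' : |v.im| ≤ 3 / 1000) :
    (|(hh (y + 1 / 2)).im| < 1 / 2 ∧ exp (hh (y + 1 / 2)) = 2 * cos (Real.pi * y) ∧
      cos (Real.pi * y) ≠ 0) ∧
    (|(hh (v + 1 / 2)).im| < 1 / 2 ∧ exp (hh (v + 1 / 2)) = 2 * cos (Real.pi * v) ∧
      cos (Real.pi * v) ≠ 0) ∧
    (|(hh (y + v)).im| < 1 / 2 ∧ exp (hh (y + v)) = 2 * sin (Real.pi * (y + v)) ∧
      sin (Real.pi * (y + v)) ≠ 0) ∧ |y.re - 1 / 4| ≤ 6 / 1000 := by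
  have hr : |y.re - 1 / 4| ≤ 6 / 1000 := by
    have h4 : |(y - 1 / 4).re| ≤ ‖y - 1 / 4‖ := Complex.abs_re_le_norm _
    have h5 : (y - 1 / 4).re = y.re - 1 / 4 := by
      rw [Complex.sub_re]; norm_num
    rw [h5] at h4
    linarith only [hy, h4]
  have hi : |y.im| ≤ 6 / 1000 := by
    have h4 : |(y - 1 / 4).im| ≤ ‖y - 1 / 4‖ := Complex.abs_im_le_norm _
    have h5 : (y - 1 / 4).im = y.im := by
      rw [Complex.sub_im]; norm_num
    rw [h5] at h4
    linarith only [hy, h4]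
  have hcos : ∀ z : ℂ, sin (Real.pi * (z + 1 / 2)) = cos (Real.pi * z) := by
    intro z
    rw [← Complex.sin_add_pi_div_two]
    congr 1
    ring
  have hr' := abs_le.1 hr
  have hi' := abs_le.1 hi
  have hvr := abs_le.1 hv
  have hvi := abs_le.1 hv'
  have e1 : (1 / 2 : ℂ).re = 1 / 2 := by norm_num
  have e2 : (1 / 2 : ℂ).im = 0 := by norm_num
  refine ⟨?_, ?_, ?_, hr⟩
  · rw [← hcos y]
    apply LogP_hh
    · rw [Complex.add_re, e1, abs_le]; constructor <;> linarith only [hr']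
    · rw [Complex.add_im, e2, abs_le]; constructor <;> linarith only [hi']
  · rw [← hcos v]
    apply LogP_hh
    · rw [Complex.add_re, e1, abs_le]; constructor <;> linarith only [hvr]
    · rw [Complex.add_im, e2, abs_le]; constructor <;> linarith only [hvi]
  · apply LogP_hh
    · rw [Complex.add_re, abs_le]; constructor <;> linarith only [hr', hvr]
    · rw [Complex.add_im, abs_le]; constructor <;> linarith only [hi', hvi]

lemma LogP_im_pos {R z : ℂ} (h : exp R = z) (h1 : 0 < R.im) (h2 : R.im < Real.pi) :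
    0 < z.im := by
  rw [← h, Complex.exp_im]
  exact mul_pos (Real.exp_pos _) (Real.sin_pos_of_pos_of_lt_pi h1 h2)

lemma LogP_expI : exp (Real.pi * I / 2) = I := by
  rw [show (Real.pi * I / 2 : ℂ) = Real.pi / 2 * I by ring, Complex.exp_pi_div_two_mul_I]

/-- The two basic identities. -/
lemma LogP_id1 (y v : ℂ) : sin (Real.pi * (y + v)) - I * exp (-(Real.pi * I * v)) *
    cos (Real.pi * y) = -I * exp (Real.pi * I * y) * cos (Real.pi * v) := by
  rw [mul_add, Complex.sin_add]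
  have h1 : exp (-(Real.pi * I * v)) = cos (Real.pi * v) - sin (Real.pi * v) * I := by
    rw [show -(Real.pi * I * v : ℂ) = -(Real.pi * v) * I by ring, Complex.exp_mul_I,
      Complex.cos_neg, Complex.sin_neg]
    ring
  have h2 : exp (Real.pi * I * y) = cos (Real.pi * y) + sin (Real.pi * y) * I := by
    rw [show (Real.pi * I * y : ℂ) = (Real.pi * y) * I by ring, Complex.exp_mul_I]
  rw [h1, h2]
  ring_nf
  rw [I_sq]
  ring

lemma LogP_id2 (y v : ℂ) : cos (Real.pi * y) - I * exp (-(Real.pi * I * v)) *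
    sin (Real.pi * (y + v)) = exp (-(Real.pi * I * (y + v))) * cos (Real.pi * v) := by
  have h1 : exp (-(Real.pi * I * v)) = cos (Real.pi * v) - sin (Real.pi * v) * I := by
    rw [show -(Real.pi * I * v : ℂ) = -(Real.pi * v) * I by ring, Complex.exp_mul_I,
      Complex.cos_neg, Complex.sin_neg]
    ring
  have h2 : exp (-(Real.pi * I * (y + v))) =
      cos (Real.pi * (y + v)) - sin (Real.pi * (y + v)) * I := by
    rw [show -(Real.pi * I * (y + v) : ℂ) = -(Real.pi * (y + v)) * I by ring, Complex.exp_mul_I,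
      Complex.cos_neg, Complex.sin_neg]
    ring
  have h3 : cos (Real.pi * y) = cos (Real.pi * (y + v)) * cos (Real.pi * v) +
      sin (Real.pi * (y + v)) * sin (Real.pi * v) := by
    rw [← Complex.cos_sub]
    congr 1
    ring
  rw [h1, h2, h3]
  ring_nf
  rw [I_sq]
  ring

theorem sX_log (y v : ℂ) (hy : ‖y - 1 / 4‖ ≤ 6 / 1000) (hv : |v.re| ≤ 53 / 1000)
    (hv' : |v.im| ≤ 3 / 1000) :
    l0 (sX y v) = Real.pi * I / 2 - Real.pi * I * v + hh (y + 1 / 2) - hh (y + v) ∧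
    l1 (sX y v) = Real.pi * I / 2 - Real.pi * I * y + hh (y + v) - hh (v + 1 / 2) ∧
    l2 (sX y v) = Real.pi * I * (y + v) + hh (v + 1 / 2) - hh (y + 1 / 2) ∧
    0 < (sX y v).im := by
  obtain ⟨⟨a1, a2, a3⟩, ⟨b1, b2, b3⟩, ⟨c1, c2, c3⟩, hr⟩ := LogP_data y v hy hv hv'
  have hr' := abs_le.1 hr
  have hvr := abs_le.1 hv
  have hvi := abs_le.1 hv'
  have a1' := abs_lt.1 a1
  have b1' := abs_lt.1 b1
  have c1' := abs_lt.1 c1
  have p1 := Real.pi_gt_three
  have p2 := Real.pi_lt_d2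
  have hI := I_ne_zero
  have E0 : exp (Real.pi * I / 2 - Real.pi * I * v + hh (y + 1 / 2) - hh (y + v)) = sX y v := by
    rw [exp_sub, exp_add, exp_sub, LogP_expI, a2, c2, sX, exp_neg]
    field_simp
  have hX : sX y v ≠ 0 := by rw [← E0]; exact exp_ne_zero _
  have h1X : 1 - sX y v = -I * exp (Real.pi * I * y) * cos (Real.pi * v) /
      sin (Real.pi * (y + v)) := by
    rw [← LogP_id1, sX]
    field_simp
  have E1 : exp (Real.pi * I / 2 - Real.pi * I * y + hh (y + v) - hh (v + 1 / 2)) =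
      1 / (1 - sX y v) := by
    rw [h1X, exp_sub, exp_add, exp_sub, LogP_expI, b2, c2]
    have := exp_ne_zero (Real.pi * I * y)
    field_simp
    rw [I_sq]
  have E2 : exp (Real.pi * I * (y + v) + hh (v + 1 / 2) - hh (y + 1 / 2)) = 1 - 1 / sX y v := by
    have h3 : 1 - 1 / sX y v = -(1 - sX y v) / sX y v := by field_simp; ring
    rw [h3, h1X, exp_sub, exp_add, b2, a2, sX, exp_neg]
    rw [mul_add, exp_add]
    have := exp_ne_zero (Real.pi * I * y)
    have := exp_ne_zero (Real.pi * I * v)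
    field_simp
  have i0 : (Real.pi * I / 2 - Real.pi * I * v + hh (y + 1 / 2) - hh (y + v)).im =
      Real.pi / 2 - Real.pi * v.re + (hh (y + 1 / 2)).im - (hh (y + v)).im := by
    simp
  have i1 : (Real.pi * I / 2 - Real.pi * I * y + hh (y + v) - hh (v + 1 / 2)).im =
      Real.pi / 2 - Real.pi * y.re + (hh (y + v)).im - (hh (v + 1 / 2)).im := by
    simp
  have i2 : (Real.pi * I * (y + v) + hh (v + 1 / 2) - hh (y + 1 / 2)).im =
      Real.pi * (y.re + v.re) + (hh (v + 1 / 2)).im - (hh (y + 1 / 2)).im := by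
    simp
  refine ⟨LogP_log E0 ?_ ?_, LogP_log E1 ?_ ?_, LogP_log E2 ?_ ?_, LogP_im_pos E0 ?_ ?_⟩
  all_goals first | rw [i0] | rw [i1] | rw [i2]
  all_goals nlinarith only [hvr, a1', c1', p1, p2, hr', b1']

theorem sY_log (y v : ℂ) (hy : ‖y - 1 / 4‖ ≤ 6 / 1000) (hv : |v.re| ≤ 53 / 1000)
    (hv' : |v.im| ≤ 3 / 1000) :
    l0 (sY y v) = Real.pi * I / 2 - Real.pi * I * v + hh (y + v) - hh (y + 1 / 2) ∧
    l1 (sY y v) = Real.pi * I * (y + v) + hh (y + 1 / 2) - hh (v + 1 / 2) ∧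
    l2 (sY y v) = Real.pi * I / 2 - Real.pi * I * y + hh (v + 1 / 2) - hh (y + v) ∧
    0 < (sY y v).im := by
  obtain ⟨⟨a1, a2, a3⟩, ⟨b1, b2, b3⟩, ⟨c1, c2, c3⟩, hr⟩ := LogP_data y v hy hv hv'
  have hr' := abs_le.1 hr
  have hvr := abs_le.1 hv
  have hvi := abs_le.1 hv'
  have a1' := abs_lt.1 a1
  have b1' := abs_lt.1 b1
  have c1' := abs_lt.1 c1
  have p1 := Real.pi_gt_three
  have p2 := Real.pi_lt_d2
  have hI := I_ne_zero
  have E0 : exp (Real.pi * I / 2 - Real.pi * I * v + hh (y + v) - hh (y + 1 / 2)) = sY y v := by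
    rw [exp_sub, exp_add, exp_sub, LogP_expI, a2, c2, sY, exp_neg]
    field_simp
  have hX : sY y v ≠ 0 := by rw [← E0]; exact exp_ne_zero _
  have h1X : 1 - sY y v = exp (-(Real.pi * I * (y + v))) * cos (Real.pi * v) /
      cos (Real.pi * y) := by
    rw [← LogP_id2, sY]
    field_simp
  have E1 : exp (Real.pi * I * (y + v) + hh (y + 1 / 2) - hh (v + 1 / 2)) =
      1 / (1 - sY y v) := by
    rw [h1X, exp_sub, exp_add, a2, b2, exp_neg]
    have := exp_ne_zero (Real.pi * I * (y + v))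
    field_simp
  have E2 : exp (Real.pi * I / 2 - Real.pi * I * y + hh (v + 1 / 2) - hh (y + v)) =
      1 - 1 / sY y v := by
    have h3 : 1 - 1 / sY y v = -(1 - sY y v) / sY y v := by field_simp; ring
    rw [h3, h1X, exp_sub, exp_add, exp_sub, LogP_expI, b2, c2, sY, exp_neg, exp_neg]
    rw [mul_add (Real.pi * I), exp_add]
    have := exp_ne_zero (Real.pi * I * y)
    have := exp_ne_zero (Real.pi * I * v)
    field_simp
    rw [I_sq]
  have i0 : (Real.pi * I / 2 - Real.pi * I * v + hh (y + v) - hh (y + 1 / 2)).im =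
      Real.pi / 2 - Real.pi * v.re + (hh (y + v)).im - (hh (y + 1 / 2)).im := by
    simp
  have i1 : (Real.pi * I * (y + v) + hh (y + 1 / 2) - hh (v + 1 / 2)).im =
      Real.pi * (y.re + v.re) + (hh (y + 1 / 2)).im - (hh (v + 1 / 2)).im := by
    simp
  have i2 : (Real.pi * I / 2 - Real.pi * I * y + hh (v + 1 / 2) - hh (y + v)).im =
      Real.pi / 2 - Real.pi * y.re + (hh (v + 1 / 2)).im - (hh (y + v)).im := by
    simp
  refine ⟨LogP_log E0 ?_ ?_, LogP_log E1 ?_ ?_, LogP_log E2 ?_ ?_, LogP_im_pos E0 ?_ ?_⟩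
  all_goals first | rw [i0] | rw [i1] | rw [i2]
  all_goals nlinarith only [hvr, a1', c1', p1, p2, hr', b1']

end Pool.Agent.H63.VC7

end
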