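import Pool.Agent.H94.PA.M04
import Pool.Agent.H94.PA.M09

/-! The parts of this file: H63.VC3.CritA, H63.VC4.CritNB. -/

section

/-! # Existence of the critical point by contraction -/

namespace Pool.Agent.H63.VC3

open Pool.Agent.H63.VC Complex

/-- The derivative of `hh`. -/
noncomputable def CritA_F (z : ℂ) : ℂ := Real.pi * Complex.cot (Real.pi * z)

lemma CritA_sin_le {θ : ℂ} (h : ‖θ‖ ≤ 1) : ‖sin θ‖ ≤ ‖θ‖ + ‖θ‖ ^ 3 / 6 + ‖θ‖ ^ 5 / 100 := by
  have h1 := Complex.sin_bound h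
  have h2 : sin θ = (sin θ - (θ - θ ^ 3 / 6)) + θ - θ ^ 3 / 6 := by ring
  have h3 : ‖θ ^ 3 / 6‖ = ‖θ‖ ^ 3 / 6 := by
    rw [norm_div, norm_pow]; norm_num
  calc ‖sin θ‖ = ‖(sin θ - (θ - θ ^ 3 / 6)) + θ - θ ^ 3 / 6‖ := by rw [← h2]
    _ ≤ ‖sin θ - (θ - θ ^ 3 / 6)‖ + ‖θ‖ + ‖θ ^ 3 / 6‖ :=
        (norm_sub_le _ _).trans (by gcongr; exact norm_add_le _ _)
    _ ≤ _ := by rw [h3]; linarith only [h1]

lemma CritA_cos_le {θ : ℂ} (h : ‖θ‖ ≤ 1) :
    ‖cos θ - 1‖ ≤ ‖θ‖ ^ 2 / 2 + ‖θ‖ ^ 4 * (5 / 96) := by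
  have h1 := Complex.cos_bound h
  have h2 : cos θ - 1 = (cos θ - (1 - θ ^ 2 / 2)) - θ ^ 2 / 2 := by ring
  have h3 : ‖θ ^ 2 / 2‖ = ‖θ‖ ^ 2 / 2 := by
    rw [norm_div, norm_pow]; norm_num
  calc ‖cos θ - 1‖ = ‖(cos θ - (1 - θ ^ 2 / 2)) - θ ^ 2 / 2‖ := by rw [← h2]
    _ ≤ ‖cos θ - (1 - θ ^ 2 / 2)‖ + ‖θ ^ 2 / 2‖ := norm_sub_le _ _
    _ ≤ _ := by rw [h3]; linarith only [h1]

lemma CritA_sin_small {θ : ℂ} (h : ‖θ‖ ≤ 35 / 100) : ‖sin θ‖ ≤ 1021 / 1000 * ‖θ‖ := by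
  have h1 := CritA_sin_le (h.trans (by norm_num))
  have h0 := norm_nonneg θ
  have h2 : ‖θ‖ ^ 2 ≤ (35 / 100) ^ 2 := by gcongr
  have h4 : ‖θ‖ ^ 4 ≤ (35 / 100) ^ 4 := by gcongr
  have h3 : ‖θ‖ + ‖θ‖ ^ 3 / 6 + ‖θ‖ ^ 5 / 100 = ‖θ‖ * (1 + ‖θ‖ ^ 2 / 6 + ‖θ‖ ^ 4 / 100) := by ring
  rw [h3] at h1
  have h5 : 1 + ‖θ‖ ^ 2 / 6 + ‖θ‖ ^ 4 / 100 ≤ 1021 / 1000 := by
    norm_num at h2 h4 ⊢; linarith only [h2, h4]
  calc ‖sin θ‖ ≤ ‖θ‖ * (1 + ‖θ‖ ^ 2 / 6 + ‖θ‖ ^ 4 / 100) := h1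
    _ ≤ ‖θ‖ * (1021 / 1000) := by gcongr
    _ = _ := by ring

lemma CritA_re {z : ℂ} {R : ℝ} (hR : R < 1 / 4) (hz : ‖z - 1 / 4‖ ≤ R) :
    0 < z.re ∧ z.re < 1 := by
  have h := (Complex.abs_re_le_norm (z - 1 / 4)).trans hz
  have e : (z - 1 / 4).re = z.re - 1 / 4 := by simp
  rw [e, abs_le] at h
  constructor <;> linarith only [hR, h, h.1, h.2]

lemma CritA_norm_pi (u : ℂ) : ‖(Real.pi : ℂ) * u‖ = Real.pi * ‖u‖ := by
  rw [norm_mul, Complex.norm_real, Real.norm_of_nonneg Real.pi_pos.le]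

lemma CritA_sin_lower {z : ℂ} (hz : ‖z - 1 / 4‖ ≤ 71 / 1000) :
    53 / 100 ≤ ‖sin (Real.pi * z)‖ := by
  set θ : ℂ := Real.pi * (z - 1 / 4) with hθ
  have hn : ‖θ‖ ≤ 22306 / 100000 := by
    rw [hθ, CritA_norm_pi]
    have := Real.pi_lt_d4
    have h0 := norm_nonneg (z - 1 / 4)
    nlinarith only [this, hz, Real.pi_pos]
  have h0 := norm_nonneg θ
  have e : sin (Real.pi * z) = ((Real.sqrt 2 / 2 : ℝ) : ℂ) * (cos θ + sin θ) := by
    have e1 : (Real.pi : ℂ) * z = ((Real.pi / 4 : ℝ) : ℂ) + θ := by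
      rw [hθ]; push_cast; ring
    rw [e1, Complex.sin_add, ← Complex.ofReal_sin, ← Complex.ofReal_cos, Real.sin_pi_div_four,
      Real.cos_pi_div_four]
    ring
  have hs := CritA_sin_le (hn.trans (by norm_num))
  have hc := CritA_cos_le (hn.trans (by norm_num))
  have hs' : ‖sin θ‖ ≤ 225 / 1000 := by
    refine hs.trans ?_
    have a3 : ‖θ‖ ^ 3 ≤ (22306 / 100000) ^ 3 := by gcongr
    have a5 : ‖θ‖ ^ 5 ≤ (22306 / 100000) ^ 5 := by gcongr
    norm_num at a3 a5 ⊢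
    linarith only [hn, a3, a5]
  have hc' : ‖cos θ - 1‖ ≤ 251 / 10000 := by
    refine hc.trans ?_
    have a2 : ‖θ‖ ^ 2 ≤ (22306 / 100000) ^ 2 := by gcongr
    have a4 : ‖θ‖ ^ 4 ≤ (22306 / 100000) ^ 4 := by gcongr
    norm_num at a2 a4 ⊢
    linarith only [a2, a4]
  have hl : 7499 / 10000 ≤ ‖cos θ + sin θ‖ := by
    have : (1 : ℂ) = (cos θ + sin θ) - (cos θ - 1) - sin θ := by ring
    have h1 : ‖(1 : ℂ)‖ ≤ ‖cos θ + sin θ‖ + ‖cos θ - 1‖ + ‖sin θ‖ := by
      conv_lhs => rw [this]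
      exact (norm_sub_le _ _).trans (by gcongr; exact norm_sub_le _ _)
    rw [norm_one] at h1
    linarith only [hs', hc', h1]
  have hq : 7071 / 10000 ≤ Real.sqrt 2 / 2 := by
    have : (14142 / 10000 : ℝ) ≤ Real.sqrt 2 := by
      apply Real.le_sqrt_of_sq_le; norm_num
    linarith only [this]
  rw [e, norm_mul, Complex.norm_real, Real.norm_of_nonneg (by positivity)]
  calc (53 / 100 : ℝ) ≤ 7071 / 10000 * (7499 / 10000) := by norm_num
    _ ≤ _ := by gcongr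

lemma CritA_F_sub {a b : ℂ} (ha : sin (Real.pi * a) ≠ 0) (hb : sin (Real.pi * b) ≠ 0) :
    CritA_F a - CritA_F b =
      Real.pi * (sin (Real.pi * (b - a)) / (sin (Real.pi * a) * sin (Real.pi * b))) := by
  unfold CritA_F
  rw [Complex.cot, Complex.cot]
  have : (Real.pi : ℂ) * (b - a) = Real.pi * b - Real.pi * a := by ring
  rw [this, Complex.sin_sub]
  field_simp

lemma CritA_F_lip {a b : ℂ} (ha : ‖a - 1 / 4‖ ≤ 71 / 1000) (hb : ‖b - 1 / 4‖ ≤ 71 / 1000)
    (hab : ‖b - a‖ ≤ 111 / 1000) : ‖CritA_F a - CritA_F b‖ ≤ 36 * ‖b - a‖ := by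
  have h1 := CritA_sin_lower ha
  have h2 := CritA_sin_lower hb
  have hp := Real.pi_lt_d4
  have hp0 := Real.pi_pos
  have h0 := norm_nonneg (b - a)
  rw [CritA_F_sub (by intro h; rw [h, norm_zero] at h1; norm_num at h1)
    (by intro h; rw [h, norm_zero] at h2; norm_num at h2), CritA_norm_pi, norm_div, norm_mul]
  have h3 : ‖sin (Real.pi * (b - a))‖ ≤ 1021 / 1000 * (Real.pi * ‖b - a‖) := by
    have := CritA_sin_small (θ := Real.pi * (b - a)) (by
      rw [CritA_norm_pi]; nlinarith only [hp, hab, hp0])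
    rwa [CritA_norm_pi] at this
  have h4 : (53 / 100 : ℝ) * (53 / 100) ≤ ‖sin (Real.pi * a)‖ * ‖sin (Real.pi * b)‖ := by
    gcongr
  calc Real.pi * (‖sin (Real.pi * (b - a))‖ / (‖sin (Real.pi * a)‖ * ‖sin (Real.pi * b)‖))
      ≤ Real.pi * (1021 / 1000 * (Real.pi * ‖b - a‖) / (53 / 100 * (53 / 100))) := by
        gcongr
    _ = Real.pi ^ 2 * (1021 / 1000 / (53 / 100 * (53 / 100))) * ‖b - a‖ := by ring
    _ ≤ 3.1416 ^ 2 * (1021 / 1000 / (53 / 100 * (53 / 100))) * ‖b - a‖ := by gcongr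
    _ ≤ 36 * ‖b - a‖ := by
        gcongr
        norm_num

lemma CritA_F_bound {z : ℂ} (hz : ‖z - 1 / 4‖ ≤ 71 / 1000) : ‖CritA_F z‖ ≤ 57 / 10 := by
  have h1 : CritA_F (1 / 4) = Real.pi := by
    unfold CritA_F
    have e : (Real.pi : ℂ) * (1 / 4) = ((Real.pi / 4 : ℝ) : ℂ) := by push_cast; ring
    rw [Complex.cot, e, ← Complex.ofReal_sin, ← Complex.ofReal_cos, Real.sin_pi_div_four,
      Real.cos_pi_div_four, div_self, mul_one]
    norm_num
  have h2 := CritA_F_lip (a := 1 / 4) (b := z) (by norm_num) hz (hz.trans (by norm_num))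
  have h3 : CritA_F z = CritA_F (1 / 4) - (CritA_F (1 / 4) - CritA_F z) := by ring
  have h4 : ‖CritA_F (1 / 4)‖ ≤ 3.1416 := by
    rw [h1, Complex.norm_real, Real.norm_of_nonneg Real.pi_pos.le]
    exact Real.pi_lt_d4.le
  rw [h3]
  refine (norm_sub_le _ _).trans ?_
  norm_num at h4 ⊢
  linarith only [hz, h2, h4]

lemma CritA_hasDeriv {z : ℂ} (hz : ‖z - 1 / 4‖ ≤ 71 / 1000) : HasDerivAt hh (CritA_F z) z :=
  hh_hasDerivAt z (CritA_re (by norm_num) hz).1 (CritA_re (by norm_num) hz).2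

/-- `y + (hh (y + 1/2) - hh y) / (2 π)`. -/
noncomputable def CritA_A (y : ℂ) : ℂ := y + (hh (y + 1 / 2) - hh y) / (2 * Real.pi)

lemma CritA_A_deriv {y : ℂ} (hy : ‖y - 1 / 4‖ ≤ 16 / 1000) :
    ∃ d : ℂ, HasDerivAt CritA_A d y ∧ ‖d‖ ≤ 6 / 1000 := by
  have hre := CritA_re (by norm_num) hy
  have h1 := CritA_hasDeriv (hy.trans (by norm_num))
  have hre2 : (y + 1 / 2).re = y.re + 1 / 2 := by simp
  have hyre : |y.re - 1 / 4| ≤ 16 / 1000 := by
    have h := (Complex.abs_re_le_norm (y - 1 / 4)).trans hy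
    have e : (y - 1 / 4).re = y.re - 1 / 4 := by simp
    rwa [e] at h
  rw [abs_le] at hyre
  have h2 : HasDerivAt (fun y => hh (y + 1 / 2)) (CritA_F (y + 1 / 2)) y := by
    have := (hh_hasDerivAt (y + 1 / 2) (by rw [hre2]; linarith only [hre, hyre]) (by rw [hre2]; linarith only [hre, hyre]))
    exact HasDerivAt.comp_add_const y (1 / 2) this
  refine ⟨_, (hasDerivAt_id y).add ((h2.sub h1).div_const (2 * Real.pi)), ?_⟩
  set θ : ℂ := 2 * (Real.pi * (y - 1 / 4)) with hθ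
  have hn : ‖θ‖ ≤ 101 / 1000 := by
    rw [hθ, norm_mul, CritA_norm_pi]
    have := Real.pi_lt_d4
    have h0 := norm_nonneg (y - 1 / 4)
    have : ‖(2 : ℂ)‖ = 2 := by norm_num
    rw [this]
    nlinarith [Real.pi_pos]
  have hc := CritA_cos_le (hn.trans (by norm_num))
  have hc' : ‖cos θ - 1‖ ≤ 52 / 10000 := by
    refine hc.trans ?_
    have h0 := norm_nonneg θ
    have a2 : ‖θ‖ ^ 2 ≤ (101 / 1000) ^ 2 := by gcongr
    have a4 : ‖θ‖ ^ 4 ≤ (101 / 1000) ^ 4 := by gcongr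
    norm_num at a2 a4 ⊢
    linarith only [hre, hyre, a2, a4]
  have hl : 99 / 100 ≤ ‖cos θ‖ := by
    have : (1 : ℂ) = cos θ - (cos θ - 1) := by ring
    have h1 : ‖(1 : ℂ)‖ ≤ ‖cos θ‖ + ‖cos θ - 1‖ := by
      conv_lhs => rw [this]
      exact norm_sub_le _ _
    rw [norm_one] at h1
    linarith only [hre, hyre, hc', h1]
  have hcne : cos θ ≠ 0 := by
    intro h; rw [h, norm_zero] at hl; norm_num at hl
  have es : sin (2 * (Real.pi * y)) = cos θ := by
    rw [hθ, ← Complex.sin_add_pi_div_two]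
    congr 1; ring
  rw [Complex.sin_two_mul] at es
  have hs0 : sin (Real.pi * y) ≠ 0 := by
    intro h; rw [h] at es; apply hcne; rw [← es]; ring
  have hc0 : cos (Real.pi * y) ≠ 0 := by
    intro h; rw [h] at es; apply hcne; rw [← es]; ring
  have hpi : (Real.pi : ℂ) ≠ 0 := by exact_mod_cast Real.pi_ne_zero
  have e : (1 : ℂ) + (CritA_F (y + 1 / 2) - CritA_F y) / (2 * Real.pi) = (cos θ - 1) / cos θ := by
    unfold CritA_F
    have e1 : (Real.pi : ℂ) * (y + 1 / 2) = Real.pi * y + Real.pi / 2 := by ring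
    rw [e1, Complex.cot, Complex.cot, Complex.cos_add_pi_div_two, Complex.sin_add_pi_div_two,
      ← es]
    have hsc := Complex.sin_sq_add_cos_sq (Real.pi * y)
    field_simp
    linear_combination (-1) * hsc
  rw [e, norm_div]
  rw [div_le_iff₀ (by linarith only [hre, hyre, hl])]
  nlinarith only [hre, hyre, hc', hl]

lemma CritA_A_lip {y y' : ℂ} (hy : ‖y - 1 / 4‖ ≤ 16 / 1000) (hy' : ‖y' - 1 / 4‖ ≤ 16 / 1000) :
    ‖CritA_A y' - CritA_A y‖ ≤ 6 / 1000 * ‖y' - y‖ := by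
  have hs : Convex ℝ (Metric.closedBall (1 / 4 : ℂ) (16 / 1000)) := convex_closedBall _ _
  refine Convex.norm_image_sub_le_of_norm_deriv_le (f := CritA_A) (C := 6 / 1000) ?_ ?_ hs
    (mem_closedBall_iff_norm.mpr hy) (mem_closedBall_iff_norm.mpr hy')
  · intro x hx
    obtain ⟨d, hd, -⟩ := CritA_A_deriv (mem_closedBall_iff_norm.mp hx)
    exact hd.differentiableAt
  · intro x hx
    obtain ⟨d, hd, hb⟩ := CritA_A_deriv (mem_closedBall_iff_norm.mp hx)
    rw [hd.deriv]; exact hb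

lemma CritA_A_quarter : CritA_A (1 / 4) = 1 / 4 := by
  unfold CritA_A
  have : hh (1 / 4 + 1 / 2) = hh (1 / 4) := by
    unfold hh
    have e : (Real.pi : ℂ) * (1 / 4 + 1 / 2) = Real.pi - Real.pi * (1 / 4) := by ring
    rw [e, Complex.sin_pi_sub]
  rw [this]; simp

/-- second difference -/
noncomputable def CritA_G (y v : ℂ) : ℂ := 2 * hh y - hh (y - v) - hh (y + v)

/-- first difference -/
noncomputable def CritA_D (y v : ℂ) : ℂ := hh (y - v) - hh (y + v)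

lemma CritA_sub {y v : ℂ} (hy : ‖y - 1 / 4‖ ≤ 16 / 1000) (hv : ‖v‖ ≤ 55 / 1000) :
    ‖y - v - 1 / 4‖ ≤ 71 / 1000 := by
  have e : y - v - 1 / 4 = (y - 1 / 4) - v := by ring
  rw [e]
  refine (norm_sub_le _ _).trans ?_
  linarith only [hy, hv]

lemma CritA_add {y v : ℂ} (hy : ‖y - 1 / 4‖ ≤ 16 / 1000) (hv : ‖v‖ ≤ 55 / 1000) :
    ‖y + v - 1 / 4‖ ≤ 71 / 1000 := by
  have e : y + v - 1 / 4 = (y - 1 / 4) + v := by ring
  rw [e]
  refine (norm_add_le _ _).trans ?_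
  linarith only [hy, hv]

lemma CritA_dsub_v {y v : ℂ} (hy : ‖y - 1 / 4‖ ≤ 16 / 1000) (hv : ‖v‖ ≤ 55 / 1000) :
    HasDerivAt (fun v => hh (y - v)) (-CritA_F (y - v)) v := by
  have h := CritA_hasDeriv (CritA_sub hy hv)
  have h2 : HasDerivAt (fun v => y - v) (-1) v := by
    simpa using (hasDerivAt_id v).const_sub y
  have := HasDerivAt.comp v h h2
  simpa [Function.comp_def] using this

lemma CritA_dadd_v {y v : ℂ} (hy : ‖y - 1 / 4‖ ≤ 16 / 1000) (hv : ‖v‖ ≤ 55 / 1000) :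
    HasDerivAt (fun v => hh (y + v)) (CritA_F (y + v)) v := by
  have h := CritA_hasDeriv (CritA_add hy hv)
  have h2 : HasDerivAt (fun v => y + v) 1 v := by
    simpa using (hasDerivAt_id v).const_add y
  have := HasDerivAt.comp v h h2
  simpa [Function.comp_def] using this

lemma CritA_dsub_y {y v : ℂ} (hy : ‖y - 1 / 4‖ ≤ 16 / 1000) (hv : ‖v‖ ≤ 55 / 1000) :
    HasDerivAt (fun y => hh (y - v)) (CritA_F (y - v)) y := by
  have h := CritA_hasDeriv (CritA_sub hy hv)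
  have h2 : HasDerivAt (fun y => y - v) 1 y := by
    simpa using (hasDerivAt_id y).sub_const v
  have := HasDerivAt.comp y h h2
  simpa [Function.comp_def] using this

lemma CritA_dadd_y {y v : ℂ} (hy : ‖y - 1 / 4‖ ≤ 16 / 1000) (hv : ‖v‖ ≤ 55 / 1000) :
    HasDerivAt (fun y => hh (y + v)) (CritA_F (y + v)) y := by
  have h := CritA_hasDeriv (CritA_add hy hv)
  have h2 : HasDerivAt (fun y => y + v) 1 y := by
    simpa using (hasDerivAt_id y).add_const v
  have := HasDerivAt.comp y h h2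
  simpa [Function.comp_def] using this

lemma CritA_G_lip_v {y v v' : ℂ} {R : ℝ} (hR : R ≤ 55 / 1000) (hy : ‖y - 1 / 4‖ ≤ 16 / 1000)
    (hv : ‖v‖ ≤ R) (hv' : ‖v'‖ ≤ R) :
    ‖CritA_G y v' - CritA_G y v‖ ≤ 72 * R * ‖v' - v‖ := by
  have hs : Convex ℝ (Metric.closedBall (0 : ℂ) R) := convex_closedBall _ _
  have key : ∀ x ∈ Metric.closedBall (0 : ℂ) R,
      HasDerivAt (CritA_G y) (CritA_F (y - x) - CritA_F (y + x)) x := by
    intro x hx
    rw [mem_closedBall_zero_iff] at hx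
    have hx' := hx.trans hR
    have := ((hasDerivAt_const x (2 * hh y)).sub (CritA_dsub_v hy hx')).sub (CritA_dadd_v hy hx')
    have e : CritA_F (y - x) - CritA_F (y + x) = 0 - -CritA_F (y - x) - CritA_F (y + x) := by ring
    rw [e]
    exact this
  refine Convex.norm_image_sub_le_of_norm_deriv_le (f := CritA_G y) (C := 72 * R) ?_ ?_ hs
    (mem_closedBall_zero_iff.mpr hv) (mem_closedBall_zero_iff.mpr hv')
  · intro x hx
    exact (key x hx).differentiableAt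
  · intro x hx
    rw [(key x hx).deriv]
    rw [mem_closedBall_zero_iff] at hx
    have hx' := hx.trans hR
    have e : y + x - (y - x) = 2 * x := by ring
    have n2 : ‖2 * x‖ = 2 * ‖x‖ := by rw [norm_mul]; norm_num
    have := CritA_F_lip (CritA_sub hy hx') (CritA_add hy hx') (by rw [e, n2]; linarith)
    rw [e, n2] at this
    linarith

lemma CritA_G_zero (y : ℂ) : CritA_G y 0 = 0 := by
  unfold CritA_G; simp; ring

lemma CritA_G_bound {y v : ℂ} (hy : ‖y - 1 / 4‖ ≤ 16 / 1000) (hv : ‖v‖ ≤ 55 / 1000) :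
    ‖CritA_G y v‖ ≤ 54 * ‖v‖ ^ 2 := by
  have n2 : ‖v / 2‖ = ‖v‖ / 2 := by rw [norm_div]; norm_num
  have h0 := norm_nonneg v
  have h1 := CritA_G_lip_v (y := y) (v := v / 2) (v' := v) hv hy (by rw [n2]; linarith only [h0]) le_rfl
  have h2 := CritA_G_lip_v (y := y) (v := 0) (v' := v / 2) (R := ‖v‖ / 2) (by linarith only [hv]) hy
    (by rw [norm_zero]; linarith) (by rw [n2])
  have e1 : v - v / 2 = v / 2 := by ring
  rw [e1, n2] at h1
  rw [sub_zero, n2, CritA_G_zero, sub_zero] at h2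
  have e : CritA_G y v = (CritA_G y v - CritA_G y (v / 2)) + CritA_G y (v / 2) := by ring
  rw [e]
  refine (norm_add_le _ _).trans ?_
  nlinarith only [h1, h2]

lemma CritA_G_lip_y {y y' v : ℂ} (hy : ‖y - 1 / 4‖ ≤ 16 / 1000) (hy' : ‖y' - 1 / 4‖ ≤ 16 / 1000)
    (hv : ‖v‖ ≤ 55 / 1000) :
    ‖CritA_G y' v - CritA_G y v‖ ≤ 396 / 100 * ‖y' - y‖ := by
  have hs : Convex ℝ (Metric.closedBall (1 / 4 : ℂ) (16 / 1000)) := convex_closedBall _ _
  have key : ∀ x ∈ Metric.closedBall (1 / 4 : ℂ) (16 / 1000),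
      HasDerivAt (fun y => CritA_G y v) (2 * CritA_F x - CritA_F (x - v) - CritA_F (x + v)) x := by
    intro x hx
    rw [mem_closedBall_iff_norm] at hx
    exact (((CritA_hasDeriv (hx.trans (by norm_num))).const_mul 2).sub
      (CritA_dsub_y hx hv)).sub (CritA_dadd_y hx hv)
  refine Convex.norm_image_sub_le_of_norm_deriv_le (f := fun y => CritA_G y v)
    (C := 396 / 100) ?_ ?_ hs
    (mem_closedBall_iff_norm.mpr hy) (mem_closedBall_iff_norm.mpr hy')
  · intro x hx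
    exact (key x hx).differentiableAt
  · intro x hx
    rw [(key x hx).deriv]
    rw [mem_closedBall_iff_norm] at hx
    have a1 := CritA_F_lip (a := x - v) (b := x) (CritA_sub hx hv) (hx.trans (by norm_num))
      (by rw [sub_sub_cancel]; linarith only [hv])
    have a2 := CritA_F_lip (a := x) (b := x + v) (hx.trans (by norm_num)) (CritA_add hx hv)
      (by rw [add_sub_cancel_left]; linarith only [hv])
    rw [sub_sub_cancel] at a1
    rw [add_sub_cancel_left] at a2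
    have e : 2 * CritA_F x - CritA_F (x - v) - CritA_F (x + v) =
        (CritA_F x - CritA_F (x + v)) - (CritA_F (x - v) - CritA_F x) := by ring
    rw [e]
    refine (norm_sub_le _ _).trans ?_
    linarith only [hv, a1, a2]

lemma CritA_D_lip_v {y v v' : ℂ} (hy : ‖y - 1 / 4‖ ≤ 16 / 1000)
    (hv : ‖v‖ ≤ 55 / 1000) (hv' : ‖v'‖ ≤ 55 / 1000) :
    ‖CritA_D y v' - CritA_D y v‖ ≤ 114 / 10 * ‖v' - v‖ := by
  have hs : Convex ℝ (Metric.closedBall (0 : ℂ) (55 / 1000)) := convex_closedBall _ _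
  have key : ∀ x ∈ Metric.closedBall (0 : ℂ) (55 / 1000),
      HasDerivAt (CritA_D y) (-CritA_F (y - x) - CritA_F (y + x)) x := by
    intro x hx
    rw [mem_closedBall_zero_iff] at hx
    exact (CritA_dsub_v hy hx).sub (CritA_dadd_v hy hx)
  refine Convex.norm_image_sub_le_of_norm_deriv_le (f := CritA_D y) (C := 114 / 10) ?_ ?_ hs
    (mem_closedBall_zero_iff.mpr hv) (mem_closedBall_zero_iff.mpr hv')
  · intro x hx
    exact (key x hx).differentiableAt
  · intro x hx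
    rw [(key x hx).deriv]
    rw [mem_closedBall_zero_iff] at hx
    have a1 := CritA_F_bound (CritA_sub hy hx)
    have a2 := CritA_F_bound (CritA_add hy hx)
    refine (norm_sub_le _ _).trans ?_
    rw [norm_neg]
    linarith only [a1, a2]

lemma CritA_D_zero (y : ℂ) : CritA_D y 0 = 0 := by
  unfold CritA_D; simp

lemma CritA_D_bound {y v : ℂ} (hy : ‖y - 1 / 4‖ ≤ 16 / 1000) (hv : ‖v‖ ≤ 55 / 1000) :
    ‖CritA_D y v‖ ≤ 114 / 10 * ‖v‖ := by
  have := CritA_D_lip_v (v := 0) (v' := v) hy (by norm_num) hv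
  rwa [CritA_D_zero, sub_zero, sub_zero] at this

lemma CritA_D_lip_y {y y' v : ℂ} (hy : ‖y - 1 / 4‖ ≤ 16 / 1000) (hy' : ‖y' - 1 / 4‖ ≤ 16 / 1000)
    (hv : ‖v‖ ≤ 55 / 1000) :
    ‖CritA_D y' v - CritA_D y v‖ ≤ 396 / 100 * ‖y' - y‖ := by
  have hs : Convex ℝ (Metric.closedBall (1 / 4 : ℂ) (16 / 1000)) := convex_closedBall _ _
  have key : ∀ x ∈ Metric.closedBall (1 / 4 : ℂ) (16 / 1000),
      HasDerivAt (fun y => CritA_D y v) (CritA_F (x - v) - CritA_F (x + v)) x := by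
    intro x hx
    rw [mem_closedBall_iff_norm] at hx
    exact (CritA_dsub_y hx hv).sub (CritA_dadd_y hx hv)
  refine Convex.norm_image_sub_le_of_norm_deriv_le (f := fun y => CritA_D y v)
    (C := 396 / 100) ?_ ?_ hs
    (mem_closedBall_iff_norm.mpr hy) (mem_closedBall_iff_norm.mpr hy')
  · intro x hx
    exact (key x hx).differentiableAt
  · intro x hx
    rw [(key x hx).deriv]
    rw [mem_closedBall_iff_norm] at hx
    have e : x + v - (x - v) = 2 * v := by ring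
    have n2 : ‖2 * v‖ = 2 * ‖v‖ := by rw [norm_mul]; norm_num
    have := CritA_F_lip (CritA_sub hx hv) (CritA_add hx hv) (by rw [e, n2]; linarith only [hv])
    rw [e, n2] at this
    linarith only [hv, this]

lemma CritA_lip_G {y y' v v' : ℂ} {d : ℝ} (hy : ‖y - 1 / 4‖ ≤ 16 / 1000)
    (hy' : ‖y' - 1 / 4‖ ≤ 16 / 1000) (hv : ‖v‖ ≤ 55 / 1000) (hv' : ‖v'‖ ≤ 55 / 1000)
    (h1 : ‖y' - y‖ ≤ d) (h2 : ‖v' - v‖ ≤ d) : ‖CritA_G y' v' - CritA_G y v‖ ≤ 792 / 100 * d := by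
  have a := CritA_G_lip_v (y := y') le_rfl hy' hv hv'
  have b := CritA_G_lip_y hy hy' hv
  have e : CritA_G y' v' - CritA_G y v =
      (CritA_G y' v' - CritA_G y' v) + (CritA_G y' v - CritA_G y v) := by ring
  rw [e]
  refine (norm_add_le _ _).trans ?_
  linarith only [h1, h2, a, b]

lemma CritA_lip_D {y y' v v' : ℂ} {d : ℝ} (hy : ‖y - 1 / 4‖ ≤ 16 / 1000)
    (hy' : ‖y' - 1 / 4‖ ≤ 16 / 1000) (hv : ‖v‖ ≤ 55 / 1000) (hv' : ‖v'‖ ≤ 55 / 1000)
    (h1 : ‖y' - y‖ ≤ d) (h2 : ‖v' - v‖ ≤ d) : ‖CritA_D y' v' - CritA_D y v‖ ≤ 16 * d := by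
  have a := CritA_D_lip_v (y := y') hy' hv hv'
  have b := CritA_D_lip_y hy hy' hv
  have hd : 0 ≤ d := (norm_nonneg _).trans h1
  have e : CritA_D y' v' - CritA_D y v =
      (CritA_D y' v' - CritA_D y' v) + (CritA_D y' v - CritA_D y v) := by ring
  rw [e]
  refine (norm_add_le _ _).trans ?_
  linarith

end Pool.Agent.H63.VC3

end

section

/-! # Location of the critical point -/

namespace Pool.Agent.H63.VC4

open Pool.Agent.H63.VC Pool.Agent.H63.VC3 Complex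
open scoped BigOperators

theorem CritNB_norm_sin (z : ℂ) :
    ‖Complex.sin z‖ ^ 2 = Real.sin z.re ^ 2 + Real.sinh z.im ^ 2 := by
  have h : Complex.sin z = (Real.sin z.re * Real.cosh z.im : ℝ) +
      (Real.cos z.re * Real.sinh z.im : ℝ) * I := by
    rw [Complex.sin_eq]; push_cast; ring
  rw [Complex.sq_norm, h, Complex.normSq_add_mul_I]
  have h1 := Real.cosh_sq z.im
  have h2 := Real.sin_sq_add_cos_sq z.re
  nlinarith only [h1, h2]

theorem CritNB_norm_cos (z : ℂ) :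
    ‖Complex.cos z‖ ^ 2 = Real.cos z.re ^ 2 + Real.sinh z.im ^ 2 := by
  have h : Complex.cos z = (Real.cos z.re * Real.cosh z.im : ℝ) +
      (-(Real.sin z.re * Real.sinh z.im) : ℝ) * I := by
    rw [Complex.cos_eq]; push_cast; ring
  rw [Complex.sq_norm, h, Complex.normSq_add_mul_I]
  have h1 := Real.cosh_sq z.im
  have h2 := Real.sin_sq_add_cos_sq z.re
  nlinarith only [h1, h2]

/-- the second difference -/
theorem CritNB_sd {S : Set ℂ} (hS : Convex ℝ S) {f f' f'' : ℂ → ℂ}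
    (hf : ∀ z ∈ S, HasDerivAt f (f' z) z) (hf' : ∀ z ∈ S, HasDerivAt f' (f'' z) z) {B : ℝ}
    (hB : ∀ z ∈ S, ‖f'' z‖ ≤ B) {y v : ℂ} (h1 : y - v ∈ S) (h2 : y + v ∈ S) :
    ‖f (y - v) + f (y + v) - 2 * f y‖ ≤ B * ‖v‖ ^ 2 := by
  have hmem : ∀ s : ℝ, s ∈ Set.Icc (0 : ℝ) 1 → y - s * v ∈ S ∧ y + s * v ∈ S := by
    intro s hs
    constructor
    · have := hS h1 h2 (a := (1 + s) / 2) (b := (1 - s) / 2) (by linarith [hs.1]) (by
        linarith [hs.2]) (by ring)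
      convert this using 1
      simp only [real_smul]
      push_cast
      ring
    · have := hS h1 h2 (a := (1 - s) / 2) (b := (1 + s) / 2) (by linarith [hs.2]) (by
        linarith [hs.1]) (by ring)
      convert this using 1
      simp only [real_smul]
      push_cast
      ring
  have hder : ∀ s : ℝ, s ∈ Set.Icc (0 : ℝ) 1 →
      HasDerivAt (fun s : ℝ => f (y - s * v) + f (y + s * v) - 2 * f y)
        (v * (f' (y + s * v) - f' (y - s * v))) s := by
    intro s hs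
    obtain ⟨m1, m2⟩ := hmem s hs
    have a1 : HasDerivAt (fun s : ℝ => (y - s * v : ℂ)) (-v) s := by
      have := ((hasDerivAt_id s).ofReal_comp.mul_const v).const_sub y
      simpa using this
    have a2 : HasDerivAt (fun s : ℝ => (y + s * v : ℂ)) v s := by
      have := ((hasDerivAt_id s).ofReal_comp.mul_const v).const_add y
      simpa using this
    have b1 := (hf _ m1).comp s a1
    have b2 := (hf _ m2).comp s a2
    have b3 := (b1.add b2).sub_const (2 * f y)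
    exact b3.congr_deriv (by ring)
  have hbd : ∀ s : ℝ, s ∈ Set.Icc (0 : ℝ) 1 →
      ‖v * (f' (y + s * v) - f' (y - s * v))‖ ≤ 2 * (B * ‖v‖ ^ 2) * s := by
    intro s hs
    obtain ⟨m1, m2⟩ := hmem s hs
    have h3 := hS.norm_image_sub_le_of_norm_hasDerivWithin_le
      (fun z hz => (hf' z hz).hasDerivWithinAt) hB m1 m2
    have h4 : y + s * v - (y - s * v) = 2 * s * v := by ring
    rw [h4, norm_mul, norm_mul, norm_real, Real.norm_eq_abs, abs_of_nonneg hs.1] at h3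
    rw [norm_mul]
    simp only [Complex.norm_ofNat] at h3
    calc ‖v‖ * ‖f' (y + s * v) - f' (y - s * v)‖ ≤ ‖v‖ * (B * (2 * s * ‖v‖)) :=
          mul_le_mul_of_nonneg_left h3 (norm_nonneg _)
      _ = 2 * (B * ‖v‖ ^ 2) * s := by ring
  have key := image_norm_le_of_norm_deriv_right_le_deriv_boundary (a := 0) (b := 1)
    (B := fun s => B * ‖v‖ ^ 2 * s ^ 2) (B' := fun s => 2 * (B * ‖v‖ ^ 2) * s)
    (fun s hs => (hder s hs).continuousAt.continuousWithinAt)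
    (fun s hs => (hder s ⟨hs.1, hs.2.le⟩).hasDerivWithinAt) (by
      simp
      ring_nf)
    (fun s => by
      have := (hasDerivAt_pow 2 s).const_mul (B * ‖v‖ ^ 2)
      exact this.congr_deriv (by norm_num; ring)) (fun s hs => hbd s ⟨hs.1, hs.2.le⟩) (Set.right_mem_Icc.2 zero_le_one)
  simpa using key

/-- the third difference -/
theorem CritNB_td {S : Set ℂ} (hS : Convex ℝ S) {f f' f'' f3 : ℂ → ℂ}
    (hf : ∀ z ∈ S, HasDerivAt f (f' z) z) (hf' : ∀ z ∈ S, HasDerivAt f' (f'' z) z)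
    (hf'' : ∀ z ∈ S, HasDerivAt f'' (f3 z) z) {B : ℝ}
    (hB : ∀ z ∈ S, ‖f3 z‖ ≤ B) {y v : ℂ} (h1 : y - v ∈ S) (h2 : y + v ∈ S) :
    ‖f (y - v) - f (y + v) + 2 * v * f' y‖ ≤ B / 3 * ‖v‖ ^ 3 := by
  have hmem : ∀ s : ℝ, s ∈ Set.Icc (0 : ℝ) 1 → y - s * v ∈ S ∧ y + s * v ∈ S := by
    intro s hs
    constructor
    · have := hS h1 h2 (a := (1 + s) / 2) (b := (1 - s) / 2) (by linarith [hs.1]) (by
        linarith [hs.2]) (by ring)
      convert this using 1
      simp only [real_smul]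
      push_cast
      ring
    · have := hS h1 h2 (a := (1 - s) / 2) (b := (1 + s) / 2) (by linarith [hs.2]) (by
        linarith [hs.1]) (by ring)
      convert this using 1
      simp only [real_smul]
      push_cast
      ring
  have hder : ∀ s : ℝ, s ∈ Set.Icc (0 : ℝ) 1 →
      HasDerivAt (fun s : ℝ => f (y - s * v) - f (y + s * v) + 2 * (s * v) * f' y)
        (-v * (f' (y - s * v) + f' (y + s * v) - 2 * f' y)) s := by
    intro s hs
    obtain ⟨m1, m2⟩ := hmem s hs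
    have a1 : HasDerivAt (fun s : ℝ => (y - s * v : ℂ)) (-v) s := by
      have := ((hasDerivAt_id s).ofReal_comp.mul_const v).const_sub y
      simpa using this
    have a2 : HasDerivAt (fun s : ℝ => (y + s * v : ℂ)) v s := by
      have := ((hasDerivAt_id s).ofReal_comp.mul_const v).const_add y
      simpa using this
    have a3 : HasDerivAt (fun s : ℝ => (2 * (s * v) * f' y : ℂ)) (2 * v * f' y) s := by
      have := (((hasDerivAt_id s).ofReal_comp.mul_const v).const_mul 2).mul_const (f' y)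
      simpa using this
    have b1 := (hf _ m1).comp s a1
    have b2 := (hf _ m2).comp s a2
    have b3 := (b1.sub b2).add a3
    exact b3.congr_deriv (by ring)
  have hbd : ∀ s : ℝ, s ∈ Set.Icc (0 : ℝ) 1 →
      ‖-v * (f' (y - s * v) + f' (y + s * v) - 2 * f' y)‖ ≤ B * ‖v‖ ^ 3 * s ^ 2 := by
    intro s hs
    obtain ⟨m1, m2⟩ := hmem s hs
    have h3 := CritNB_sd hS hf' hf'' hB m1 m2
    rw [norm_mul, norm_real, Real.norm_eq_abs, abs_of_nonneg hs.1] at h3
    rw [norm_mul, norm_neg]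
    calc ‖v‖ * ‖f' (y - s * v) + f' (y + s * v) - 2 * f' y‖ ≤ ‖v‖ * (B * (s * ‖v‖) ^ 2) :=
          mul_le_mul_of_nonneg_left h3 (norm_nonneg _)
      _ = B * ‖v‖ ^ 3 * s ^ 2 := by ring
  have key := image_norm_le_of_norm_deriv_right_le_deriv_boundary (a := 0) (b := 1)
    (B := fun s => B / 3 * ‖v‖ ^ 3 * s ^ 3) (B' := fun s => B * ‖v‖ ^ 3 * s ^ 2)
    (fun s hs => (hder s hs).continuousAt.continuousWithinAt)
    (fun s hs => (hder s ⟨hs.1, hs.2.le⟩).hasDerivWithinAt) (by simp)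
    (fun s => by
      have := (hasDerivAt_pow 3 s).const_mul (B / 3 * ‖v‖ ^ 3)
      exact this.congr_deriv (by norm_num; ring)) (fun s hs => hbd s ⟨hs.1, hs.2.le⟩) (Set.right_mem_Icc.2 zero_le_one)
  simpa using key

/-- the derivative of `hh` and its derivatives -/
noncomputable def CritNB_F (z : ℂ) : ℂ := Real.pi * Complex.cot (Real.pi * z)

noncomputable def CritNB_F1 (z : ℂ) : ℂ := -(Real.pi : ℂ) ^ 2 / Complex.sin (Real.pi * z) ^ 2

noncomputable def CritNB_F2 (z : ℂ) : ℂ :=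
  2 * (Real.pi : ℂ) ^ 3 * Complex.cos (Real.pi * z) / Complex.sin (Real.pi * z) ^ 3

theorem CritNB_F_deriv {z : ℂ} (h : Complex.sin (Real.pi * z) ≠ 0) :
    HasDerivAt CritNB_F (CritNB_F1 z) z := by
  have h0 : HasDerivAt (fun z : ℂ => (Real.pi : ℂ) * z) (Real.pi : ℂ) z := by
    simpa using (hasDerivAt_id z).const_mul (Real.pi : ℂ)
  have h1 := h0.ccos
  have h2 := h0.csin
  have h3 := (h1.div h2 h).const_mul (Real.pi : ℂ)
  have h4 : CritNB_F = fun z : ℂ => (Real.pi : ℂ) * (Complex.cos (Real.pi * z) /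
      Complex.sin (Real.pi * z)) := by
    funext z
    rw [CritNB_F, Complex.cot]
  rw [h4]
  refine h3.congr_deriv ?_
  rw [CritNB_F1]
  have h5 := Complex.sin_sq_add_cos_sq (Real.pi * z)
  generalize Complex.sin (Real.pi * z) = s at h h5 ⊢
  generalize Complex.cos (Real.pi * z) = c at h5 ⊢
  field_simp
  linear_combination (-1 : ℂ) * h5

theorem CritNB_F1_deriv {z : ℂ} (h : Complex.sin (Real.pi * z) ≠ 0) :
    HasDerivAt CritNB_F1 (CritNB_F2 z) z := by
  have h0 : HasDerivAt (fun z : ℂ => (Real.pi : ℂ) * z) (Real.pi : ℂ) z := by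
    simpa using (hasDerivAt_id z).const_mul (Real.pi : ℂ)
  have h2 := h0.csin.pow 2
  have h3 := (hasDerivAt_const z (-(Real.pi : ℂ) ^ 2)).div h2 (pow_ne_zero 2 h)
  refine h3.congr_deriv ?_
  rw [CritNB_F2]
  simp only [Pi.pow_apply]
  generalize Complex.sin (Real.pi * z) = s at h ⊢
  generalize Complex.cos (Real.pi * z) = c
  field_simp
  push_cast
  ring

theorem CritNB_sin_lower {c : ℝ} (hc : c = 1 / 4 ∨ c = 3 / 4) {z : ℂ} {R : ℝ}
    (h : |z.re - c| ≤ R) :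
    (1 - 2 * Real.pi * R) / 2 ≤ ‖Complex.sin (Real.pi * z)‖ ^ 2 := by
  rw [CritNB_norm_sin]
  have h1 : ((Real.pi : ℂ) * z).re = Real.pi * z.re := by simp
  rw [h1, Real.sin_sq_eq_half_sub]
  have h2 : Real.cos (2 * (Real.pi * z.re)) ≤ 2 * Real.pi * R := by
    have h3 : |Real.sin (2 * Real.pi * (z.re - c))| ≤ 2 * Real.pi * R := by
      refine Real.abs_sin_le_abs.trans ?_
      rw [abs_mul, abs_of_pos (by positivity)]
      exact mul_le_mul_of_nonneg_left h (by positivity)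
    rcases hc with rfl | rfl
    · have e : 2 * (Real.pi * z.re) = 2 * Real.pi * (z.re - 1 / 4) + Real.pi / 2 := by ring
      rw [e, Real.cos_add_pi_div_two]
      linarith only [h3, neg_abs_le (Real.sin (2 * Real.pi * (z.re - 1 / 4)))]
    · have e : 2 * (Real.pi * z.re) = 2 * Real.pi * (z.re - 3 / 4) + Real.pi / 2 + Real.pi := by
        ring
      rw [e, Real.cos_add_pi, Real.cos_add_pi_div_two, neg_neg]
      exact (le_abs_self _).trans h3
  nlinarith only [h2, sq_nonneg (Real.sinh ((Real.pi : ℂ) * z).im)]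

theorem CritNB_F1_le {c : ℝ} (hc : c = 1 / 4 ∨ c = 3 / 4) {z : ℂ} {R : ℝ}
    (hR : 2 * Real.pi * R < 1) (h : |z.re - c| ≤ R) :
    Complex.sin (Real.pi * z) ≠ 0 ∧ ‖CritNB_F1 z‖ ≤ 2 * Real.pi ^ 2 / (1 - 2 * Real.pi * R) := by
  have h1 := CritNB_sin_lower hc h
  have h2 : 0 < ‖Complex.sin (Real.pi * z)‖ ^ 2 := by linarith
  refine ⟨fun h3 => by rw [h3] at h2; simp at h2, ?_⟩
  rw [CritNB_F1, norm_div, norm_neg, norm_pow, norm_pow, norm_real, Real.norm_eq_abs, sq_abs]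
  rw [div_le_div_iff₀ h2 (by linarith)]
  nlinarith only [h1, sq_nonneg Real.pi]

/-- bound for the second derivative -/
theorem CritNB_F2_le {z : ℂ} (h : |z.re - 1 / 4| ≤ 65 / 1000) (h' : |z.im| ≤ 65 / 1000) :
    ‖CritNB_F2 z‖ ≤ 340 := by
  have hp1 := Real.pi_gt_d4
  have hp2 := Real.pi_lt_d4
  have h1 := CritNB_sin_lower (Or.inl rfl) h
  have h1' : (2957 / 10000 : ℝ) ≤ ‖Complex.sin (Real.pi * z)‖ ^ 2 := by linarith only [hp1, hp2, h1]
  have h2 : ‖Complex.cos (Real.pi * z)‖ ^ 2 ≤ 7479 / 10000 := by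
    rw [CritNB_norm_cos]
    have e1 : ((Real.pi : ℂ) * z).re = Real.pi * z.re := by simp
    have e2 : ((Real.pi : ℂ) * z).im = Real.pi * z.im := by simp
    rw [e1, e2, Real.cos_sq]
    have h3 : |Real.sin (2 * Real.pi * (z.re - 1 / 4))| ≤ 2 * Real.pi * (65 / 1000) := by
      refine Real.abs_sin_le_abs.trans ?_
      rw [abs_mul, abs_of_pos (by positivity)]
      exact mul_le_mul_of_nonneg_left h (by positivity)
    have e : 2 * (Real.pi * z.re) = 2 * Real.pi * (z.re - 1 / 4) + Real.pi / 2 := by ring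
    rw [e, Real.cos_add_pi_div_two]
    have h4 := neg_abs_le (Real.sin (2 * Real.pi * (z.re - 1 / 4)))
    have h5 : Real.sinh (Real.pi * z.im) ^ 2 ≤ 436 / 10000 := by
      have h6 := Real.cosh_sq (Real.pi * z.im)
      have h7 := Real.cosh_le_exp_half_sq (Real.pi * z.im)
      have h8 : (Real.pi * z.im) ^ 2 ≤ 4171 / 100000 := by
        have h9 : |Real.pi * z.im| ≤ 2042041 / 10000000 := by
          rw [abs_mul, abs_of_pos Real.pi_pos]
          nlinarith only [h', hp1, hp2]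
        rw [← sq_abs]
        nlinarith only [h9, abs_nonneg (Real.pi * z.im)]
      have h10 : Real.cosh (Real.pi * z.im) ^ 2 ≤ Real.exp ((Real.pi * z.im) ^ 2) := by
        have h11 : Real.exp ((Real.pi * z.im) ^ 2) = Real.exp ((Real.pi * z.im) ^ 2 / 2) ^ 2 := by
          rw [← Real.exp_nat_mul]
          congr 1
          push_cast
          ring
        rw [h11]
        exact pow_le_pow_left₀ (Real.cosh_pos _).le h7 2
      have h12 := Real.add_one_le_exp (-(Real.pi * z.im) ^ 2)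
      have h13 : Real.exp ((Real.pi * z.im) ^ 2) * Real.exp (-(Real.pi * z.im) ^ 2) = 1 := by
        rw [← Real.exp_add]
        simp
      have h14 := Real.exp_pos ((Real.pi * z.im) ^ 2)
      have h15 : Real.exp ((Real.pi * z.im) ^ 2) ≤ 10436 / 10000 := by
        by_contra hcon
        rw [not_le] at hcon
        have h16 : (95829 / 100000 : ℝ) ≤ Real.exp (-(Real.pi * z.im) ^ 2) := by linarith only [h8, h12]
        nlinarith only [h8, h12, h13, hcon]
      linarith only [h6, h10, h15]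
    nlinarith only [hp1, hp2, h3, h4, h5]
  have h3 : ‖CritNB_F2 z‖ ^ 2 ≤ 340 ^ 2 := by
    rw [CritNB_F2, norm_div, norm_mul, norm_mul, norm_pow, norm_pow, norm_real, Real.norm_eq_abs,
      abs_of_pos Real.pi_pos, div_pow, mul_pow, mul_pow, ← pow_mul, ← pow_mul]
    simp only [Complex.norm_ofNat]
    have h4 : ‖Complex.sin (Real.pi * z)‖ ^ (3 * 2) = (‖Complex.sin (Real.pi * z)‖ ^ 2) ^ 3 := by
      ring
    have h5 : (2957 / 10000 : ℝ) ^ 3 ≤ (‖Complex.sin (Real.pi * z)‖ ^ 2) ^ 3 :=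
      pow_le_pow_left₀ (by norm_num) h1' 3
    have h6 : Real.pi ^ (3 * 2) ≤ (31416 / 10000 : ℝ) ^ 6 :=
      pow_le_pow_left₀ Real.pi_pos.le (by linarith only [hp2]) 6
    rw [h4, div_le_iff₀ (by positivity)]
    have h7 : (2 : ℝ) ^ 2 * Real.pi ^ (3 * 2) * ‖Complex.cos (Real.pi * z)‖ ^ 2 ≤
        (2 : ℝ) ^ 2 * (31416 / 10000 : ℝ) ^ 6 * (7479 / 10000) := by
      apply mul_le_mul _ h2 (by positivity) (by positivity)
      exact mul_le_mul_of_nonneg_left h6 (by norm_num)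
    refine h7.trans (le_trans ?_ (mul_le_mul_of_nonneg_left h5 (by norm_num)))
    norm_num
  exact le_of_sq_le_sq h3 (by norm_num)

theorem CritNB_convex (c R : ℝ) : Convex ℝ {z : ℂ | |z.re - c| ≤ R} := by
  have h : {z : ℂ | |z.re - c| ≤ R} = Complex.reLm ⁻¹' Set.Icc (c - R) (c + R) := by
    ext z
    simp only [Set.mem_ofPred_eq, Set.mem_preimage, Complex.reLm_coe, Set.mem_Icc, abs_le]
    constructor
    · rintro ⟨h1, h2⟩
      constructor <;> linarith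
    · rintro ⟨h1, h2⟩
      constructor <;> linarith
  rw [h]
  exact (convex_Icc _ _).linear_preimage _

theorem CritNB_convex' (R : ℝ) : Convex ℝ {z : ℂ | |z.im| ≤ R} := by
  have h : {z : ℂ | |z.im| ≤ R} = Complex.imLm ⁻¹' Set.Icc (-R) R := by
    ext z
    simp only [Set.mem_ofPred_eq, Set.mem_preimage, Complex.imLm_coe, Set.mem_Icc, abs_le]
  rw [h]
  exact (convex_Icc _ _).linear_preimage _

theorem CritNB_re_le {z : ℂ} {c d : ℝ} (h : ‖z - c‖ ≤ d) : |z.re - c| ≤ d := by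
  have := abs_re_le_norm (z - c)
  simp only [sub_re, ofReal_re] at this
  exact this.trans h

theorem CritNB_F_quarter : CritNB_F ((1 / 4 : ℝ) : ℂ) = Real.pi := by
  rw [CritNB_F, Complex.cot]
  have e : (Real.pi : ℂ) * ((1 / 4 : ℝ) : ℂ) = ((Real.pi / 4 : ℝ) : ℂ) := by push_cast; ring
  rw [e, ← Complex.ofReal_cos, ← Complex.ofReal_sin, Real.cos_pi_div_four, Real.sin_pi_div_four,
    div_self, mul_one]
  have : (0 : ℝ) < √2 / 2 := by positivity
  exact_mod_cast this.ne'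

theorem CritNB_num16 : 2 * Real.pi ^ 2 / (1 - 2 * Real.pi * (16 / 1000)) ≤ 2195 / 100 := by
  have hp1 := Real.pi_gt_d4
  have hp2 := Real.pi_lt_d4
  rw [div_le_iff₀ (by linarith only [hp1, hp2])]
  nlinarith only [hp1, hp2]

theorem CritNB_F_near {c : ℝ} (hc : c = 1 / 4 ∨ c = 3 / 4) {z : ℂ}
    (h : ‖z - c‖ ≤ 16 / 1000) : ‖CritNB_F z - CritNB_F c‖ ≤ 2195 / 100 * ‖z - c‖ := by
  have hp2 := Real.pi_lt_d4
  refine (CritNB_convex c (16 / 1000)).norm_image_sub_le_of_norm_hasDerivWithin_le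
    (f' := CritNB_F1) (fun w hw => ?_) (fun w hw => ?_) (x := (c : ℂ)) (by simp; norm_num)
    (CritNB_re_le h)
  · exact (CritNB_F_deriv (CritNB_F1_le hc (by linarith) hw).1).hasDerivWithinAt
  · exact (CritNB_F1_le hc (by linarith only [hp2]) hw).2.trans CritNB_num16
lemma CritNB_exp_hh {z : ℂ} (hz : ‖z - 1 / 4‖ ≤ 71 / 1000) :
    exp (hh z) = 2 * sin (Real.pi * z) ∧ sin (Real.pi * z) ≠ 0 := by
  have h1 := CritA_sin_lower hz
  have h2 : sin (Real.pi * z) ≠ 0 := by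
    intro h; rw [h, norm_zero] at h1; norm_num at h1
  refine ⟨?_, h2⟩
  unfold hh
  rw [Complex.exp_log]
  exact mul_ne_zero two_ne_zero h2

lemma CritNB_G_exp {y v : ℂ} (hy : ‖y - 1 / 4‖ ≤ 16 / 1000) (hv : ‖v‖ ≤ 55 / 1000) :
    exp (-CritA_G y v) = 1 + -(sin (Real.pi * v) ^ 2 / sin (Real.pi * y) ^ 2) := by
  obtain ⟨e1, n1⟩ := CritNB_exp_hh (hy.trans (by norm_num : (16 / 1000 : ℝ) ≤ 71 / 1000))
  obtain ⟨e2, -⟩ := CritNB_exp_hh (CritA_sub hy hv)
  obtain ⟨e3, -⟩ := CritNB_exp_hh (CritA_add hy hv)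
  have e : -CritA_G y v = hh (y - v) + hh (y + v) - (hh y + hh y) := by
    unfold CritA_G; ring
  rw [e, Complex.exp_sub, Complex.exp_add, Complex.exp_add, e1, e2, e3]
  have e4 : (Real.pi : ℂ) * (y - v) = Real.pi * y - Real.pi * v := by ring
  have e5 : (Real.pi : ℂ) * (y + v) = Real.pi * y + Real.pi * v := by ring
  rw [e4, e5, Complex.sin_sub, Complex.sin_add]
  have h1 := Complex.sin_sq_add_cos_sq (Real.pi * y)
  have h2 := Complex.sin_sq_add_cos_sq (Real.pi * v)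
  generalize sin (Real.pi * y) = s at *
  generalize cos (Real.pi * y) = c at *
  generalize sin (Real.pi * v) = s' at *
  generalize cos (Real.pi * v) = c' at *
  field_simp
  linear_combination (s ^ 2) * h2 - (s' ^ 2) * h1

lemma CritNB_G_bound {y v : ℂ} (hy : ‖y - 1 / 4‖ ≤ 16 / 1000) (hv : ‖v‖ ≤ 55 / 1000) :
    ‖CritA_G y v‖ ≤ 238 / 10 * ‖v‖ ^ 2 := by
  have hp1 := Real.pi_gt_d4
  have hp2 := Real.pi_lt_d4
  have h0 := norm_nonneg v
  have hG := CritA_G_bound hy hv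
  have hv2 : ‖v‖ ^ 2 ≤ (55 / 1000) ^ 2 := by gcongr
  have hG1 : ‖CritA_G y v‖ ≤ 1 := by
    norm_num at hv2 ⊢
    linarith only [hp1, hp2, hG, hv2]
  set q : ℂ := -(sin (Real.pi * v) ^ 2 / sin (Real.pi * y) ^ 2) with hq
  have hexp : exp (-CritA_G y v) = 1 + q := CritNB_G_exp hy hv
  have hG1' : ‖-CritA_G y v‖ ≤ 1 := by rw [norm_neg]; exact hG1
  have him1 := abs_le.1 ((abs_im_le_norm (-CritA_G y v)).trans hG1')
  have hlog : -CritA_G y v = log (1 + q) := by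
    rw [← hexp, Complex.log_exp]
    · linarith only [hp1, hp2, him1, him1.1]
    · linarith only [hp1, hp2, him1, him1.2]
  have e14 : ((1 / 4 : ℝ) : ℂ) = 1 / 4 := by push_cast; ring
  have hre := CritNB_re_le (z := y) (c := 1 / 4) (d := 16 / 1000) (by rw [e14]; exact hy)
  have hlow := CritNB_sin_lower (Or.inl rfl) hre
  have hlow' : (4497 / 10000 : ℝ) ≤ ‖sin (Real.pi * y)‖ ^ 2 := by linarith only [hp2, hlow]
  have hsin := CritA_sin_small (θ := Real.pi * v) (by rw [CritA_norm_pi]; nlinarith only [hv, hp1, hp2])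
  rw [CritA_norm_pi] at hsin
  have hsin2 : ‖sin (Real.pi * v)‖ ≤ 32076 / 10000 * ‖v‖ := by
    refine hsin.trans ?_
    nlinarith only [hp2, h0]
  have hqn : ‖q‖ ≤ 229 / 10 * ‖v‖ ^ 2 := by
    rw [hq, norm_neg, norm_div, norm_pow, norm_pow, div_le_iff₀ (by linarith only [hp1, hp2, hlow])]
    have h1 : ‖sin (Real.pi * v)‖ ^ 2 ≤ (32076 / 10000 * ‖v‖) ^ 2 := by gcongr
    have h2 : 229 / 10 * ‖v‖ ^ 2 * (4497 / 10000) ≤
        229 / 10 * ‖v‖ ^ 2 * ‖sin (Real.pi * y)‖ ^ 2 := by gcongr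
    have h3 := sq_nonneg ‖v‖
    nlinarith only [h1, h2]
  have hq0 := norm_nonneg q
  have hq1 : ‖q‖ ≤ 693 / 10000 := by
    norm_num at hv2
    linarith only [hqn, hv2]
  have hl := Complex.norm_log_one_add_le (z := q) (by linarith only [hv2, hqn])
  rw [← hlog, norm_neg] at hl
  have h1 : (1 - ‖q‖)⁻¹ ≤ 10745 / 10000 := by
    rw [inv_le_comm₀ (by linarith only [hv2, hqn]) (by norm_num)]
    norm_num
    linarith only [hv2, hqn]
  have h2 : ‖q‖ ^ 2 * (1 - ‖q‖)⁻¹ / 2 ≤ 373 / 10000 * ‖q‖ := by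
    have h3 : 0 ≤ (1 - ‖q‖)⁻¹ := inv_nonneg.2 (by linarith only [hp1, hp2, hv2, hqn])
    have h4 : ‖q‖ ^ 2 * (1 - ‖q‖)⁻¹ ≤ ‖q‖ ^ 2 * (10745 / 10000) := by gcongr
    nlinarith only [hv2, hqn, hq0, h4]
  have h3 := sq_nonneg ‖v‖
  linarith only [hG, hqn, hl, h2]

lemma CritNB_y {y v w : ℂ} {s s' : ℝ}
    (ey : 4 * hh (y + 1 / 2) = hh (y - v) + hh (y + v) + hh (y - w) + hh (y + w))
    (hy : ‖y - 1 / 4‖ ≤ 16 / 1000) (hv : ‖v‖ ≤ 55 / 1000) (hw : ‖w‖ ≤ 55 / 1000)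
    (hs : ‖v‖ ^ 2 ≤ 3025 / 10000 * s) (hs' : ‖w‖ ^ 2 ≤ 3025 / 10000 * s') :
    ‖y - 1 / 4‖ ≤ 3 / 10 * (s + s') := by
  have hp1 := Real.pi_gt_d4
  have a1 := CritNB_G_bound hy hv
  have a2 := CritNB_G_bound hy hw
  have a3 := CritA_A_lip (y := 1 / 4) (y' := y) (by norm_num) hy
  rw [CritA_A_quarter] at a3
  have n8 : ‖(8 * Real.pi : ℂ)‖ = 8 * Real.pi := by
    rw [norm_mul, Complex.norm_real, Real.norm_of_nonneg Real.pi_pos.le]; norm_num
  have hpi : (Real.pi : ℂ) ≠ 0 := by exact_mod_cast Real.pi_ne_zero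
  have e1 : (hh (y + 1 / 2) - hh y) / (2 * Real.pi) =
      -((CritA_G y v + CritA_G y w) / (8 * Real.pi)) := by
    have e0 : CritA_G y v + CritA_G y w = -(4 * hh (y + 1 / 2) - 4 * hh y) := by
      unfold CritA_G
      rw [ey]
      ring
    rw [e0]
    generalize hh (y + 1 / 2) = A
    field_simp
    ring
  have e2 : y - 1 / 4 = (CritA_A y - 1 / 4) + (CritA_G y v + CritA_G y w) / (8 * Real.pi) := by
    unfold CritA_A
    rw [e1]
    ring
  have h1 : ‖y - 1 / 4‖ ≤ 6 / 1000 * ‖y - 1 / 4‖ +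
      ‖CritA_G y v + CritA_G y w‖ / (8 * Real.pi) := by
    conv_lhs => rw [e2]
    refine (norm_add_le _ _).trans (add_le_add a3 (le_of_eq ?_))
    rw [norm_div, n8]
  have h2 : ‖CritA_G y v + CritA_G y w‖ ≤ 71995 / 10000 * (s + s') := by
    refine (norm_add_le _ _).trans ?_
    linarith only [hs, hs', a1, a2]
  have h3 : ‖CritA_G y v + CritA_G y w‖ / (8 * Real.pi) ≤ 287 / 1000 * (s + s') := by
    rw [div_le_iff₀ (by positivity)]
    have h4 : 0 ≤ s + s' := by nlinarith only [hs, hs', sq_nonneg ‖v‖]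
    have h5 : 287 / 1000 * (s + s') * (8 * 3.1415) ≤ 287 / 1000 * (s + s') * (8 * Real.pi) := by
      gcongr
    linarith only [h2, h4, h5]
  have h4 : 0 ≤ s + s' := by nlinarith only [hs, hs']
  linarith only [h1, h3, h4]

/-- the contribution of one slot -/
lemma CritNB_slot (u : Option ℂ) (hu : ∀ y, u = some y → ‖y - 1 / 4‖ ≤ 1 / 100) {v : ℂ}
    (hv55 : ‖v‖ ≤ 55 / 1000) : ∃ F : ℂ, ‖F - ns u * Real.pi‖ ≤ 2195 / 10000 * ns u ∧
      ‖dpo u v + 2 * v * F‖ ≤ 3429 / 10000 * ns u * ‖v‖ := by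
  have hp1 := Real.pi_gt_d4
  have hp2 := Real.pi_lt_d4
  rcases u with _ | y
  · refine ⟨0, ?_, ?_⟩
    · rw [ns_none]; simp
    · rw [ns_none]; simp [dpo]
  have hy := hu y rfl
  rw [ns_some]
  have e14 : ((1 / 4 : ℝ) : ℂ) = 1 / 4 := by push_cast; ring
  have hy' : ‖y - ((1 / 4 : ℝ) : ℂ)‖ ≤ 1 / 100 := by rw [e14]; exact hy
  have hre := abs_le.1 (CritNB_re_le hy')
  have him : |y.im| ≤ 1 / 100 := by
    have := abs_im_le_norm (y - ((1 / 4 : ℝ) : ℂ))
    simp only [sub_im, ofReal_im, sub_zero] at this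
    exact this.trans hy'
  have him' := abs_le.1 him
  have hvre := abs_le.1 ((abs_re_le_norm v).trans hv55)
  have hvim := abs_le.1 ((abs_im_le_norm v).trans hv55)
  have htd := CritNB_td (f := hh) (f' := CritNB_F) (f'' := CritNB_F1) (f3 := CritNB_F2)
      ((CritNB_convex (1 / 4) (65 / 1000)).inter (CritNB_convex' (65 / 1000)))
      (fun z hz => by
        have h1 := abs_le.1 (show |z.re - 1 / 4| ≤ 65 / 1000 from hz.1)
        exact hh_hasDerivAt z (by linarith only [hp1, hp2, h1, h1.1]) (by linarith only [hp1, hp2, h1, h1.2]))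
      (fun z hz => CritNB_F_deriv (CritNB_F1_le (Or.inl rfl) (by linarith only [hp1, hp2]) hz.1).1)
      (fun z hz => CritNB_F1_deriv (CritNB_F1_le (Or.inl rfl) (by linarith only [hp1, hp2]) hz.1).1)
      (B := 340) (fun z hz => CritNB_F2_le hz.1 hz.2)
      (y := y) (v := v) (by
        constructor
        · show |(y - v).re - 1 / 4| ≤ 65 / 1000
          rw [sub_re, abs_le]
          constructor <;> linarith only [hre, hvre, hvre.1, hvre.2, hre.1, hre.2]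
        · show |(y - v).im| ≤ 65 / 1000
          rw [sub_im, abs_le]
          constructor <;> linarith only [him', hvim, hvim.1, hvim.2, him'.1, him'.2]) (by
        constructor
        · show |(y + v).re - 1 / 4| ≤ 65 / 1000
          rw [add_re, abs_le]
          constructor <;> linarith only [hvre.1, hre.1, hvre.2, hre.2]
        · show |(y + v).im| ≤ 65 / 1000
          rw [add_im, abs_le]
          constructor <;> linarith only [hvim.1, him'.1, hvim.2, him'.2])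
  have hF := CritNB_F_near (Or.inl rfl) (hy'.trans (by norm_num))
  rw [CritNB_F_quarter] at hF
  refine ⟨CritNB_F y, ?_, ?_⟩
  · rw [ofReal_one, one_mul]
    linarith only [hy', hF]
  · show ‖hh (y - v) - hh (y + v) + 2 * v * CritNB_F y‖ ≤ _
    refine htd.trans ?_
    have h0 := norm_nonneg v
    have h1 : ‖v‖ ^ 2 ≤ (55 / 1000) ^ 2 := pow_le_pow_left₀ h0 hv55 2
    nlinarith

end Pool.Agent.H63.VC4

end
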