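import Pool.Agent.H94.PA.H63.VC3.LLfun

/-! The parts of this file: H63.VC3.KAn, H63.VC4.KAnN. -/

section

/-! # Analytic properties of the kernels -/

namespace Pool.Agent.H63.VC3

open Pool.Agent.H63.VC Complex

theorem KAn_arg {M : ℕ} (hM : 0 < M) {z : ℂ} (h1 : 0 < z.re) (h2 : z.re < 1) :
    -1 < ((M : ℂ) * z - 1 / 2).re ∧ ((M : ℂ) * z - 1 / 2).re < M := by
  have h3 : ((M : ℂ) * z - 1 / 2).re = M * z.re - 1 / 2 := by
    simp [Complex.sub_re, Complex.mul_re]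
  rw [h3]
  have hM' : (0 : ℝ) < M := by exact_mod_cast hM
  constructor
  · nlinarith
  · nlinarith

theorem Cc_differentiableAt (n g M : ℕ) (hg : 1 ≤ g) (hgn : g ≤ n - 1) (hM : 1000 * (n + 1) ≤ M)
    (y : ℂ) (h1 : 1 / 10 ≤ y.re) (h2 : y.re ≤ 4 / 10) :
    DifferentiableAt ℂ (Cc n g M) y := by
  have hM0 : 0 < M := by omega
  have hMr : 1000 * ((n : ℝ) + 1) ≤ M := by exact_mod_cast hM
  have hn2 : 2 ≤ n := by omega
  have hnr : (2 : ℝ) ≤ n := by exact_mod_cast hn2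
  have hgr : (1 : ℝ) ≤ g := by exact_mod_cast hg
  have hgn' : (g : ℝ) + 1 ≤ n := by
    have : g + 1 ≤ n := by omega
    exact_mod_cast this
  have key : ∀ δ : ℝ, 0 ≤ δ → δ ≤ n → DifferentiableAt ℂ
      (fun y : ℂ => LL M (M * (y + 1 / 2) - bt n - 1 / 2 + (δ : ℂ))) y := by
    intro δ hδ hδn
    have hre : ((M : ℂ) * (y + 1 / 2) - bt n - 1 / 2 + (δ : ℂ)).re =
        M * (y.re + 1 / 2) - ((n : ℝ) - 1) / 2 - 1 / 2 + δ := by
      simp [Complex.mul_re, bt]
    have hMp : (0 : ℝ) ≤ M := by positivity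
    have hlow : (M : ℝ) * (6 / 10) ≤ M * (y.re + 1 / 2) :=
      mul_le_mul_of_nonneg_left (by linarith) hMp
    have hupp : (M : ℝ) * (y.re + 1 / 2) ≤ M * (9 / 10) :=
      mul_le_mul_of_nonneg_left (by linarith) hMp
    have ha : -1 < ((M : ℂ) * (y + 1 / 2) - bt n - 1 / 2 + (δ : ℂ)).re := by
      rw [hre]; linarith
    have hb : ((M : ℂ) * (y + 1 / 2) - bt n - 1 / 2 + (δ : ℂ)).re < M := by
      rw [hre]; linarith
    exact DifferentiableAt.comp (f := fun y : ℂ => (M : ℂ) * (y + 1 / 2) - bt n - 1 / 2 + (δ : ℂ))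
      (g := LL M) y (LL_differentiableAt M hM0 _ ha hb) (by fun_prop)
  have k0 := key 0 le_rfl (by linarith)
  have k1 := key (g - 1) (by linarith) (by linarith)
  have k2 := key (n - g - 1) (by linarith) (by linarith)
  have k3 := key (n - 2) (by linarith) (by linarith)
  push_cast at k0 k1 k2 k3
  simp only [add_zero] at k0
  exact (((k0.add k1).add k2).add k3).cexp

theorem KAn_yk_arg {n M k : ℕ} (hM : 0 < M) :
    (M : ℂ) * ((yk n M k : ℂ) + 1 / 2) - bt n - 1 / 2 = k := by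
  have hM' : (M : ℂ) ≠ 0 := by exact_mod_cast hM.ne'
  unfold yk
  push_cast
  field_simp
  ring

/-- At the lattice points. -/
theorem Cc_yk (n g M k : ℕ) (hg : 1 ≤ g) (hgn : g ≤ n - 1) (hk : k + n ≤ M + 1) (hn : 2 ≤ n) :
    Cc n g M (yk n M k) = S M k * S M (k + (g - 1)) * S M (k + (n - g - 1)) * S M (k + (n - 2)) := by
  have hM : 0 < M := by omega
  unfold Cc
  rw [KAn_yk_arg hM]
  have e1 : (k : ℂ) + (g - 1) = ((k + (g - 1) : ℕ) : ℂ) := by
    rw [Nat.cast_add, Nat.cast_sub hg]; push_cast; ring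
  have e2 : (k : ℂ) + (n - g - 1) = ((k + (n - g - 1) : ℕ) : ℂ) := by
    have : n - g - 1 = n - (g + 1) := by omega
    rw [Nat.cast_add, this, Nat.cast_sub (by omega)]; push_cast; ring
  have e3 : (k : ℂ) + (n - 2) = ((k + (n - 2) : ℕ) : ℂ) := by
    rw [Nat.cast_add, Nat.cast_sub hn]; push_cast; ring
  rw [e1, e2, e3, Complex.exp_add, Complex.exp_add, Complex.exp_add, LL_nat M k (by omega),
    LL_nat M _ (by omega), LL_nat M _ (by omega), LL_nat M _ (by omega)]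

end Pool.Agent.H63.VC3

end

section

/-! # Analyticity of the kernels -/

namespace Pool.Agent.H63.VC4

open Pool.Agent.H63.VC Pool.Agent.H63.VC3 Complex
open scoped BigOperators

/-- The kernel is analytic. -/
def okS (v : ℂ) (u : Option ℂ) : Prop :=
  ∀ y ∈ u, 0 < (y - v).re ∧ (y - v).re < 1 ∧ 0 < (y + v).re ∧ (y + v).re < 1

theorem KAnN_Qo_differentiable_y (n M : ℕ) (hM : 0 < M) (y v : ℂ) (h : okS v (some y)) :
    DifferentiableAt ℂ (fun y => Qo n M (some y) v) y := by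
  obtain ⟨h1, h2, h3, h4⟩ := h y rfl
  have ha := KAn_arg hM h1 h2
  have hb := KAn_arg hM h3 h4
  have hA : DifferentiableAt ℂ (fun y : ℂ => LL M (M * (y - v) - 1 / 2)) y :=
    DifferentiableAt.comp (f := fun y : ℂ => (M : ℂ) * (y - v) - 1 / 2) (g := LL M) y
      (LL_differentiableAt M hM _ ha.1 ha.2) (by fun_prop)
  have hB : DifferentiableAt ℂ (fun y : ℂ => LL M (M * (y + v) - 1 / 2)) y :=
    DifferentiableAt.comp (f := fun y : ℂ => (M : ℂ) * (y + v) - 1 / 2) (g := LL M) y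
      (LL_differentiableAt M hM _ hb.1 hb.2) (by fun_prop)
  simp only [Qo]
  fun_prop

theorem KAnN_Qo_continuousAt (n M : ℕ) (hM : 0 < M) (y v : ℂ) (h : okS v (some y)) :
    ContinuousAt (fun z : ℂ × ℂ => Qo n M (some z.1) z.2) (y, v) := by
  obtain ⟨h1, h2, h3, h4⟩ := h y rfl
  have ha := KAn_arg hM h1 h2
  have hb := KAn_arg hM h3 h4
  have hA : ContinuousAt (fun z : ℂ × ℂ => LL M (M * (z.1 - z.2) - 1 / 2)) (y, v) := by
    have h := (LL_differentiableAt M hM _ ha.1 ha.2).continuousAt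
    have h' : ContinuousAt (fun z : ℂ × ℂ => (M : ℂ) * (z.1 - z.2) - 1 / 2) (y, v) := by fun_prop
    exact ContinuousAt.comp (f := fun z : ℂ × ℂ => (M : ℂ) * (z.1 - z.2) - 1 / 2)
      (g := LL M) (x := (y, v)) h h'
  have hB : ContinuousAt (fun z : ℂ × ℂ => LL M (M * (z.1 + z.2) - 1 / 2)) (y, v) := by
    have h := (LL_differentiableAt M hM _ hb.1 hb.2).continuousAt
    have h' : ContinuousAt (fun z : ℂ × ℂ => (M : ℂ) * (z.1 + z.2) - 1 / 2) (y, v) := by fun_prop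
    exact ContinuousAt.comp (f := fun z : ℂ × ℂ => (M : ℂ) * (z.1 + z.2) - 1 / 2)
      (g := LL M) (x := (y, v)) h h'
  simp only [Qo]
  fun_prop

end Pool.Agent.H63.VC4

end
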