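import Pool.Agent.H94.PA.M05
import Pool.Agent.H94.PA.M08
import Pool.Agent.H94.PA.M10
import Pool.Agent.H94.PA.M11

/-! The parts of this file: H63.VC7.CritGA, H63.VC4.ReduceN, H63.VC7.NodeLim, H63.VC7.RootLim, H63.VC7.WuC, H63.VC3.BWff, H63.VC7.VolBlock. -/

section

/-! # Existence of the critical point -/

namespace Pool.Agent.H63.VC7

open Pool.Agent.H63.VC
open Pool.Agent.H63.VC3 Pool.Agent.H63.VC4 Complex

variable {m p : ℕ}

theorem CritGA_dg (s t : Fin m → Fin p) (hne : ∀ i, (inc s t i).Nonempty) (i : Fin p) :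
    1 ≤ dg s t i := by
  unfold dg
  exact_mod_cast (hne i).card_pos

theorem CritGA_den (r : ℝ) : ‖4 * Real.pi * I * (r : ℂ)‖ = 4 * Real.pi * |r| := by
  rw [norm_mul, norm_mul, norm_mul, Complex.norm_real, Complex.norm_real, Complex.norm_I,
    Real.norm_of_nonneg Real.pi_pos.le, Real.norm_eq_abs]
  norm_num

theorem CritGA_v_small {r : ℝ} {n : ℝ} (hn : 1 ≤ n) (hr : 10 * n ≤ |r|) {v : ℂ}
    (hv : ‖v + 1 / (2 * r)‖ ≤ n / (2 * r ^ 2)) :
    ‖v‖ ≤ 55 / 1000 ∧ ‖v‖ ≤ 55 / 100 / |r| := by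
  have hr' : (10 : ℝ) ≤ |r| := by linarith
  have hpos : 0 < |r| := by linarith
  have e : v = (v + 1 / (2 * r)) - 1 / (2 * r) := by ring
  have n1 : ‖(1 : ℂ) / (2 * r)‖ = 1 / (2 * |r|) := by
    rw [norm_div, norm_one, norm_mul, Complex.norm_real, Real.norm_eq_abs]
    norm_num
  have h1 : ‖v‖ ≤ n / (2 * r ^ 2) + 1 / (2 * |r|) := by
    conv_lhs => rw [e]
    refine (norm_sub_le _ _).trans ?_
    rw [n1]; linarith
  have h2 : n / (2 * r ^ 2) + 1 / (2 * |r|) ≤ 55 / 100 / |r| := by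
    rw [← sq_abs r]
    have : n / (2 * |r| ^ 2) ≤ 5 / 100 / |r| := by
      rw [div_le_div_iff₀ (by positivity) hpos]
      nlinarith
    have e3 : 1 / (2 * |r|) = 50 / 100 / |r| := by field_simp; norm_num
    have e4 : 55 / 100 / |r| = 5 / 100 / |r| + 50 / 100 / |r| := by ring
    rw [e4, e3]
    linarith
  have h3 : 55 / 100 / |r| ≤ 55 / 1000 := by
    rw [div_le_iff₀ hpos]; linarith
  exact ⟨h1.trans (h2.trans h3), h1.trans h2⟩

/-- The new value of `y j`. -/
noncomputable def CritGA_Y (s t : Fin m → Fin p) (y : Fin m → ℂ) (v : Fin p → ℂ) (j : Fin m) :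
    ℂ :=
  CritA_A (y j) + (CritA_G (y j) (v (s j)) + CritA_G (y j) (v (t j))) / (8 * Real.pi)

/-- The new value of `v i`. -/
noncomputable def CritGA_V (s t : Fin m → Fin p) (r : Fin p → ℝ) (y : Fin m → ℂ)
    (v : Fin p → ℂ) (i : Fin p) : ℂ :=
  -(1 / (2 * (r i : ℂ))) - (∑ j ∈ inc s t i, CritA_D (y j) (v i)) / (4 * Real.pi * I * r i)

/-- The contraction. -/
noncomputable def CritGA_Phi (s t : Fin m → Fin p) (r : Fin p → ℝ)
    (q : (Fin m → ℂ) × (Fin p → ℂ)) : (Fin m → ℂ) × (Fin p → ℂ) :=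
  (CritGA_Y s t q.1 q.2, CritGA_V s t r q.1 q.2)

/-- The domain. -/
def CritGA_dom (s t : Fin m → Fin p) (r : Fin p → ℝ) : Set ((Fin m → ℂ) × (Fin p → ℂ)) :=
  {q | (∀ j, ‖q.1 j - 1 / 4‖ ≤ 16 / 1000) ∧
    ∀ i, ‖q.2 i + 1 / (2 * r i)‖ ≤ dg s t i / (2 * (r i) ^ 2)}

theorem CritGA_sum_bound (s t : Fin m → Fin p) (i : Fin p) (f : Fin m → ℂ) {C : ℝ}
    (h : ∀ j ∈ inc s t i, ‖f j‖ ≤ C) : ‖∑ j ∈ inc s t i, f j‖ ≤ dg s t i * C := by
  refine (norm_sum_le _ _).trans ?_
  refine (Finset.sum_le_card_nsmul _ _ _ h).trans ?_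
  rw [nsmul_eq_mul, dg]

theorem CritGA_maps_v (s t : Fin m → Fin p) (r : Fin p → ℝ) (i : Fin p)
    (hn : 1 ≤ dg s t i) (hr : 10 * dg s t i ≤ |r i|) {y : Fin m → ℂ} {v : Fin p → ℂ}
    (hy : ∀ j, ‖y j - 1 / 4‖ ≤ 16 / 1000)
    (hv : ‖v i + 1 / (2 * r i)‖ ≤ dg s t i / (2 * (r i) ^ 2)) :
    ‖CritGA_V s t r y v i + 1 / (2 * r i)‖ ≤ dg s t i / (2 * (r i) ^ 2) := by
  have hpos : 0 < |r i| := by linarith
  obtain ⟨h1, h2⟩ := CritGA_v_small hn hr hv
  have e : CritGA_V s t r y v i + 1 / (2 * r i) =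
      -((∑ j ∈ inc s t i, CritA_D (y j) (v i)) / (4 * Real.pi * I * r i)) := by
    unfold CritGA_V
    ring
  rw [e, norm_neg, norm_div, CritGA_den, ← sq_abs (r i)]
  have h3 : ‖∑ j ∈ inc s t i, CritA_D (y j) (v i)‖ ≤ dg s t i * (114 / 10 * ‖v i‖) :=
    CritGA_sum_bound s t i _ fun j _ => CritA_D_bound (hy j) h1
  have hp := Real.pi_gt_d2
  have hdg : 0 ≤ dg s t i := by linarith
  rw [div_le_div_iff₀ (by positivity) (by positivity)]
  have h4 : ‖v i‖ * |r i| ≤ 55 / 100 := by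
    rwa [le_div_iff₀ hpos] at h2
  have h5 : ‖∑ j ∈ inc s t i, CritA_D (y j) (v i)‖ * |r i| ≤ dg s t i * (627 / 100) := by
    calc ‖∑ j ∈ inc s t i, CritA_D (y j) (v i)‖ * |r i|
        ≤ dg s t i * (114 / 10 * ‖v i‖) * |r i| := by gcongr
      _ = dg s t i * (114 / 10 * (‖v i‖ * |r i|)) := by ring
      _ ≤ dg s t i * (114 / 10 * (55 / 100)) := by gcongr
      _ = dg s t i * (627 / 100) := by norm_num
  calc ‖∑ j ∈ inc s t i, CritA_D (y j) (v i)‖ * (2 * |r i| ^ 2)
      = 2 * |r i| * (‖∑ j ∈ inc s t i, CritA_D (y j) (v i)‖ * |r i|) := by ring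
    _ ≤ 2 * |r i| * (dg s t i * (627 / 100)) := by gcongr
    _ = dg s t i * (4 * (627 / 200) * |r i|) := by ring
    _ ≤ dg s t i * (4 * Real.pi * |r i|) := by gcongr; linarith

theorem CritGA_maps (s t : Fin m → Fin p) (hne : ∀ i, (inc s t i).Nonempty) (r : Fin p → ℝ)
    (hr : ∀ i, 10 * dg s t i ≤ |r i|) :
    Set.MapsTo (CritGA_Phi s t r) (CritGA_dom s t r) (CritGA_dom s t r) := by
  rintro ⟨y, v⟩ ⟨hy, hv⟩
  simp only at hy hv
  refine ⟨fun j => ?_, fun i => CritGA_maps_v s t r i (CritGA_dg s t hne i) (hr i) hy (hv i)⟩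
  have hv' := (CritGA_v_small (CritGA_dg s t hne (s j)) (hr _) (hv (s j))).1
  have hw' := (CritGA_v_small (CritGA_dg s t hne (t j)) (hr _) (hv (t j))).1
  have a1 := CritA_G_bound (hy j) hv'
  have a2 := CritA_G_bound (hy j) hw'
  have a3 := CritA_A_lip (y := 1 / 4) (y' := y j) (by norm_num) (hy j)
  rw [CritA_A_quarter] at a3
  have b1 : ‖v (s j)‖ ^ 2 ≤ (55 / 1000) ^ 2 := by gcongr
  have b2 : ‖v (t j)‖ ^ 2 ≤ (55 / 1000) ^ 2 := by gcongr
  have hp := Real.pi_gt_d2
  have n8 : ‖(8 * Real.pi : ℂ)‖ = 8 * Real.pi := by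
    rw [norm_mul, Complex.norm_real, Real.norm_of_nonneg Real.pi_pos.le]; norm_num
  show ‖CritA_A (y j) + (CritA_G (y j) (v (s j)) + CritA_G (y j) (v (t j))) /
    (8 * Real.pi) - 1 / 4‖ ≤ 16 / 1000
  have e : CritA_A (y j) + (CritA_G (y j) (v (s j)) + CritA_G (y j) (v (t j))) /
      (8 * Real.pi) - 1 / 4 = (CritA_A (y j) - 1 / 4) +
      (CritA_G (y j) (v (s j)) + CritA_G (y j) (v (t j))) / (8 * Real.pi) := by ring
  rw [e]
  refine (norm_add_le _ _).trans ?_
  rw [norm_div, n8]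
  have c1 : ‖CritA_G (y j) (v (s j)) + CritA_G (y j) (v (t j))‖ ≤ 3267 / 10000 := by
    refine (norm_add_le _ _).trans ?_
    norm_num at b1 b2 ⊢
    linarith
  have c2 : ‖CritA_G (y j) (v (s j)) + CritA_G (y j) (v (t j))‖ / (8 * Real.pi) ≤
      14 / 1000 := by
    rw [div_le_iff₀ (by positivity)]
    linarith
  have hyj := hy j
  linarith

theorem CritGA_lip_comp (s t : Fin m → Fin p) (r : Fin p → ℝ) (i : Fin p)
    (hn : 1 ≤ dg s t i) (hr : 10 * dg s t i ≤ |r i|) {y y' : Fin m → ℂ} {v v' : Fin p → ℂ}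
    {d : ℝ}
    (hd : 0 ≤ d) (hy : ∀ j, ‖y j - 1 / 4‖ ≤ 16 / 1000) (hy' : ∀ j, ‖y' j - 1 / 4‖ ≤ 16 / 1000)
    (hv : ‖v i‖ ≤ 55 / 1000) (hv' : ‖v' i‖ ≤ 55 / 1000)
    (h1 : ∀ j, ‖y' j - y j‖ ≤ d) (h2 : ‖v' i - v i‖ ≤ d) :
    ‖CritGA_V s t r y' v' i - CritGA_V s t r y v i‖ ≤ 7 / 10 * d := by
  have hpos : 0 < |r i| := by linarith
  have e : CritGA_V s t r y' v' i - CritGA_V s t r y v i =
      -((∑ j ∈ inc s t i, (CritA_D (y' j) (v' i) - CritA_D (y j) (v i))) /
        (4 * Real.pi * I * r i)) := by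
    unfold CritGA_V
    rw [Finset.sum_sub_distrib]
    ring
  rw [e, norm_neg, norm_div, CritGA_den]
  have hp := Real.pi_gt_d2
  have h3 : ‖∑ j ∈ inc s t i, (CritA_D (y' j) (v' i) - CritA_D (y j) (v i))‖ ≤
      dg s t i * (16 * d) :=
    CritGA_sum_bound s t i _ fun j _ => CritA_lip_D (hy j) (hy' j) hv hv' (h1 j) h2
  rw [div_le_iff₀ (by positivity)]
  refine h3.trans ?_
  have h4 : dg s t i * 120 ≤ 4 * Real.pi * |r i| := by nlinarith
  have hdg : 0 ≤ dg s t i * d := mul_nonneg (by linarith) hd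
  calc dg s t i * (16 * d) ≤ 7 / 10 * d * (dg s t i * 120) := by nlinarith
    _ ≤ 7 / 10 * d * (4 * Real.pi * |r i|) := by gcongr

theorem CritGA_lip (s t : Fin m → Fin p) (hne : ∀ i, (inc s t i).Nonempty) (r : Fin p → ℝ)
    (hr : ∀ i, 10 * dg s t i ≤ |r i|) :
    LipschitzOnWith (7 / 10) (CritGA_Phi s t r) (CritGA_dom s t r) := by
  apply LipschitzOnWith.of_dist_le_mul
  rintro ⟨y', v'⟩ ⟨hy', hv'⟩ ⟨y, v⟩ ⟨hy, hv⟩
  simp only at hy hv hy' hv'
  have hv0 := fun i => (CritGA_v_small (CritGA_dg s t hne i) (hr i) (hv i)).1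
  have hv0' := fun i => (CritGA_v_small (CritGA_dg s t hne i) (hr i) (hv' i)).1
  set d := dist (y', v') (y, v) with hd
  have hd0 : 0 ≤ d := dist_nonneg
  have d1 : ∀ j, ‖y' j - y j‖ ≤ d := by
    intro j
    rw [← dist_eq_norm, hd, Prod.dist_eq]
    exact (dist_le_pi_dist y' y j).trans (le_max_left _ _)
  have d2 : ∀ i, ‖v' i - v i‖ ≤ d := by
    intro i
    rw [← dist_eq_norm, hd, Prod.dist_eq]
    exact (dist_le_pi_dist v' v i).trans (le_max_right _ _)
  have hK : ((7 / 10 : NNReal) : ℝ) = 7 / 10 := by norm_num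
  rw [hK, Prod.dist_eq]
  refine max_le ?_ ?_
  · rw [dist_pi_le_iff (by positivity)]
    intro j
    rw [dist_eq_norm]
    show ‖CritA_A (y' j) + (CritA_G (y' j) (v' (s j)) + CritA_G (y' j) (v' (t j))) /
        (8 * Real.pi) - (CritA_A (y j) + (CritA_G (y j) (v (s j)) +
        CritA_G (y j) (v (t j))) / (8 * Real.pi))‖ ≤ 7 / 10 * d
    have a1 := CritA_lip_G (hy j) (hy' j) (hv0 (s j)) (hv0' (s j)) (d1 j) (d2 (s j))
    have a2 := CritA_lip_G (hy j) (hy' j) (hv0 (t j)) (hv0' (t j)) (d1 j) (d2 (t j))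
    have a3 := CritA_A_lip (hy j) (hy' j)
    have n8 : ‖(8 * Real.pi : ℂ)‖ = 8 * Real.pi := by
      rw [norm_mul, Complex.norm_real, Real.norm_of_nonneg Real.pi_pos.le]; norm_num
    have hp := Real.pi_gt_d2
    have e : CritA_A (y' j) + (CritA_G (y' j) (v' (s j)) + CritA_G (y' j) (v' (t j))) /
        (8 * Real.pi) - (CritA_A (y j) + (CritA_G (y j) (v (s j)) +
        CritA_G (y j) (v (t j))) / (8 * Real.pi)) = (CritA_A (y' j) - CritA_A (y j)) +
        ((CritA_G (y' j) (v' (s j)) - CritA_G (y j) (v (s j))) +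
        (CritA_G (y' j) (v' (t j)) - CritA_G (y j) (v (t j)))) / (8 * Real.pi) := by ring
    rw [e]
    refine (norm_add_le _ _).trans ?_
    rw [norm_div, n8]
    have c1 : ‖(CritA_G (y' j) (v' (s j)) - CritA_G (y j) (v (s j))) +
        (CritA_G (y' j) (v' (t j)) - CritA_G (y j) (v (t j)))‖ ≤ 1584 / 100 * d := by
      refine (norm_add_le _ _).trans ?_
      linarith
    have c2 : ‖(CritA_G (y' j) (v' (s j)) - CritA_G (y j) (v (s j))) +
        (CritA_G (y' j) (v' (t j)) - CritA_G (y j) (v (t j)))‖ / (8 * Real.pi) ≤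
        64 / 100 * d := by
      rw [div_le_iff₀ (by positivity)]
      calc _ ≤ 1584 / 100 * d := c1
        _ ≤ 64 / 100 * d * 25 := by linarith
        _ ≤ 64 / 100 * d * (8 * Real.pi) := by gcongr; linarith
    have d1j := d1 j
    linarith
  · rw [dist_pi_le_iff (by positivity)]
    intro i
    rw [dist_eq_norm]
    exact CritGA_lip_comp s t r i (CritGA_dg s t hne i) (hr i) hd0 hy hy' (hv0 i) (hv0' i) d1
      (d2 i)

theorem CritGA_closed (s t : Fin m → Fin p) (r : Fin p → ℝ) : IsClosed (CritGA_dom s t r) := by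
  unfold CritGA_dom
  rw [Set.ofPred_and]
  refine IsClosed.inter ?_ ?_
  · simp only [Set.ofPred_forall]
    refine isClosed_iInter fun j => isClosed_le ?_ continuous_const
    fun_prop
  · simp only [Set.ofPred_forall]
    refine isClosed_iInter fun i => isClosed_le ?_ continuous_const
    fun_prop

theorem critG_contraction (s t : Fin m → Fin p) (hst : ∀ j, s j ≠ t j)
    (hne : ∀ i, (inc s t i).Nonempty) (r : Fin p → ℝ) (hr : ∀ i, 10 * dg s t i ≤ |r i|) :
    ∃ (y : Fin m → ℂ) (v : Fin p → ℂ),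
    (∀ j, 4 * hh (y j + 1 / 2) =
      hh (y j - v (s j)) + hh (y j + v (s j)) + hh (y j - v (t j)) + hh (y j + v (t j))) ∧
    (∀ i, 2 * Real.pi * I * (2 * r i * v i + 1) +
      ∑ j ∈ inc s t i, (hh (y j - v i) - hh (y j + v i)) = 0) ∧
    (∀ j, ‖y j - 1 / 4‖ ≤ 16 / 1000) ∧
    (∀ i, ‖v i + 1 / (2 * r i)‖ ≤ dg s t i / (2 * (r i) ^ 2)) := by
  have hmaps := CritGA_maps s t hne r hr
  have hlip := CritGA_lip s t hne r hr
  have hcontr : ContractingWith (7 / 10) (hmaps.restrict (CritGA_Phi s t r) _ _) := by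
    refine ⟨?_, hlip.mapsToRestrict hmaps⟩
    rw [div_lt_one (by norm_num)]; norm_num
  have hmem : ((fun _ => (1 / 4 : ℂ)), fun i => -(1 / (2 * (r i : ℂ)))) ∈
      CritGA_dom s t r := by
    refine ⟨fun j => ?_, fun i => ?_⟩
    · norm_num
    · show ‖-(1 / (2 * (r i : ℂ))) + 1 / (2 * r i)‖ ≤ _
      rw [neg_add_cancel, norm_zero]
      have := CritGA_dg s t hne i
      positivity
  obtain ⟨q, hq, hfix, -⟩ := hcontr.exists_fixedPoint' (CritGA_closed s t r).isComplete hmaps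
    hmem (edist_ne_top _ _)
  obtain ⟨y, v⟩ := q
  obtain ⟨hy, hv⟩ := hq
  have hr1 : ∀ i, (r i : ℂ) ≠ 0 := by
    intro i h
    have h0 : r i = 0 := by exact_mod_cast h
    have h1 := hr i
    have h2 := CritGA_dg s t hne i
    rw [h0] at h1
    norm_num at h1
    linarith
  have hpi : (Real.pi : ℂ) ≠ 0 := by exact_mod_cast Real.pi_ne_zero
  have hI := Complex.I_ne_zero
  have e1 : ∀ j, CritA_A (y j) + (CritA_G (y j) (v (s j)) + CritA_G (y j) (v (t j))) /
      (8 * Real.pi) = y j := fun j => congrFun (congrArg Prod.fst hfix) j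
  have e2 : ∀ i, -(1 / (2 * (r i : ℂ))) - (∑ j ∈ inc s t i, CritA_D (y j) (v i)) /
      (4 * Real.pi * I * r i) = v i :=
    fun i => congrFun (congrArg Prod.snd hfix) i
  refine ⟨y, v, fun j => ?_, fun i => ?_, hy, hv⟩
  · have e := e1 j
    unfold CritA_A CritA_G at e
    generalize hh (y j + 1 / 2) = H at e ⊢
    field_simp at e
    linear_combination (1 / 2 : ℂ) * e
  · have e := e2 i
    have hri := hr1 i
    have e3 : ∑ j ∈ inc s t i, (hh (y j - v i) - hh (y j + v i)) =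
      ∑ j ∈ inc s t i, CritA_D (y j) (v i) := rfl
    rw [e3]
    generalize ∑ j ∈ inc s t i, CritA_D (y j) (v i) = A at e ⊢
    field_simp at e
    linear_combination (-1 / 2 : ℂ) * e

end Pool.Agent.H63.VC7

end

section

/-! # Reduction to the main integral -/

namespace Pool.Agent.H63.VC4

open Pool.Agent.H63.VC Pool.Agent.H63.VC3 Complex
open scoped BigOperators

theorem ReduceN_Cc (n g M k : ℕ) (hn : 2 ≤ n) (hg : 1 ≤ g) (hgn : g ≤ n - 1)
    (hk : k + n ≤ M + 1) : ‖Cc n g M (yk n M k)‖ ≤ 2 ^ (2 * n - 4) * (S M k ^ 2) ^ 2 := by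
  rw [Cc_yk n g M k hg hgn hk hn]
  have p0 : 0 < S M k := S_pos (by omega)
  have p1 : 0 < S M (k + (g - 1)) := S_pos (by omega)
  have p2 : 0 < S M (k + (n - g - 1)) := S_pos (by omega)
  have p3 : 0 < S M (k + (n - 2)) := S_pos (by omega)
  have q1 : S M (k + (g - 1)) ≤ S M k * 2 ^ (g - 1) := by
    rw [add_comm]; exact S_shift_le M k (g - 1) (by omega)
  have q2 : S M (k + (n - g - 1)) ≤ S M k * 2 ^ (n - g - 1) := by
    rw [add_comm]; exact S_shift_le M k (n - g - 1) (by omega)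
  have q3 : S M (k + (n - 2)) ≤ S M k * 2 ^ (n - 2) := by
    rw [add_comm]; exact S_shift_le M k (n - 2) (by omega)
  rw [norm_mul, norm_mul, norm_mul, Complex.norm_real, Complex.norm_real, Complex.norm_real,
    Complex.norm_real, Real.norm_of_nonneg p0.le, Real.norm_of_nonneg p1.le,
    Real.norm_of_nonneg p2.le, Real.norm_of_nonneg p3.le]
  have e : (2 : ℝ) ^ (2 * n - 4) = 2 ^ (g - 1) * 2 ^ (n - g - 1) * 2 ^ (n - 2) := by
    rw [← pow_add, ← pow_add]
    congr 1
    omega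
  rw [e]
  calc S M k * S M (k + (g - 1)) * S M (k + (n - g - 1)) * S M (k + (n - 2))
      ≤ S M k * (S M k * 2 ^ (g - 1)) * (S M k * 2 ^ (n - g - 1)) * (S M k * 2 ^ (n - 2)) := by
        gcongr
    _ = _ := by ring

end Pool.Agent.H63.VC4

end

section

/-! # The limit of the factor of a node at the root of unity -/

namespace Pool.Agent.H63.VC7

open Pool.Agent.H63.VC
open Pool.Agent.H63.VC3 Pool.Agent.H63.VC4 Complex Filter Topology

variable {m p : ℕ}

/-- A parametrization near the root of unity. -/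
noncomputable def NodeLim_Q (N : ℕ) (e : ℂ) : ℂ :=
  exp (Real.pi * I * (1 + e) / ((N + 1 : ℕ) : ℂ))

/-- The phase of a term. -/
noncomputable def NodeLim_W (a : ℤ) (N X : ℕ) (e : ℂ) : ℂ :=
  exp (a * (Real.pi * I * X + Real.pi * I * (X * (X + 1)) * (1 + e) / ((N + 1 : ℕ) : ℂ)))

/-- The amplitude of a term, as a function of two variables. -/
noncomputable def NodeLim_T (N : ℕ) (A : Finset (Fin m)) (t : Fin m → ℕ) (w : ℂ × ℂ) : ℂ :=
  sin (2 * Real.pi * w.2) * ∏ j ∈ A, ∏ i ∈ Finset.range (t j),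
    (-4 * (sin (Real.pi * (w.2 + (i + 1 / 2) * (1 + w.1) / ((N + 1 : ℕ) : ℂ))) *
      sin (Real.pi * (w.2 - (i + 1 / 2) * (1 + w.1) / ((N + 1 : ℕ) : ℂ)))))

/-- The position of a term. -/
noncomputable def NodeLim_z (N X : ℕ) (e : ℂ) : ℂ := (1 + e) * (X + 1 / 2) / ((N + 1 : ℕ) : ℂ)

/-- A term of the sum. -/
noncomputable def NodeLim_f (a : ℤ) (N : ℕ) (A : Finset (Fin m)) (t : Fin m → ℕ) (X : ℕ)
    (e : ℂ) : ℂ :=
  tw (NodeLim_Q N e) X ^ a * br (NodeLim_Q N e) (2 * (X : ℤ) + 1) *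
    ∏ j ∈ A, pw (NodeLim_Q N e) (t j) X

theorem NodeLim_M (N : ℕ) : (((N + 1 : ℕ) : ℂ)) ≠ 0 := by
  exact_mod_cast Nat.succ_ne_zero N

theorem NodeLim_zpow (N : ℕ) (e : ℂ) (n : ℤ) :
    NodeLim_Q N e ^ n = exp (n * (Real.pi * I * (1 + e) / ((N + 1 : ℕ) : ℂ))) := by
  rw [NodeLim_Q, ← Complex.exp_int_mul]

theorem NodeLim_br (N : ℕ) (e : ℂ) (n : ℤ) :
    br (NodeLim_Q N e) n = 2 * I * sin (Real.pi * (n * (1 + e) / ((N + 1 : ℕ) : ℂ))) := by
  rw [br, NodeLim_zpow, NodeLim_zpow, Complex.sin]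
  have h1 : (n : ℂ) * (Real.pi * I * (1 + e) / ((N + 1 : ℕ) : ℂ)) =
      (Real.pi * (n * (1 + e) / ((N + 1 : ℕ) : ℂ))) * I := by ring
  have h2 : ((-n : ℤ) : ℂ) * (Real.pi * I * (1 + e) / ((N + 1 : ℕ) : ℂ)) =
      -(Real.pi * (n * (1 + e) / ((N + 1 : ℕ) : ℂ))) * I := by push_cast; ring
  rw [h1, h2]
  linear_combination (exp (Real.pi * (n * (1 + e) / ((N + 1 : ℕ) : ℂ)) * I) -
    exp (-(Real.pi * (n * (1 + e) / ((N + 1 : ℕ) : ℂ))) * I)) * Complex.I_mul_I

theorem NodeLim_tw (a : ℤ) (N X : ℕ) (e : ℂ) :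
    tw (NodeLim_Q N e) X ^ a = NodeLim_W a N X e := by
  have h1 : ((-1 : ℂ)) ^ X = exp (X * (Real.pi * I)) := by
    rw [Complex.exp_nat_mul, Complex.exp_pi_mul_I]
  have h2 : NodeLim_Q N e ^ (X * (X + 1)) =
      exp (((X * (X + 1) : ℕ) : ℂ) * (Real.pi * I * (1 + e) / ((N + 1 : ℕ) : ℂ))) := by
    rw [NodeLim_Q, ← Complex.exp_nat_mul]
  rw [tw, h1, h2, ← Complex.exp_add, ← Complex.exp_int_mul, NodeLim_W]
  congr 2
  push_cast
  ring

theorem NodeLim_pw (N t X : ℕ) (e : ℂ) :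
    pw (NodeLim_Q N e) t X = ∏ i ∈ Finset.range t,
    (-4 * (sin (Real.pi * (NodeLim_z N X e + (i + 1 / 2) * (1 + e) / ((N + 1 : ℕ) : ℂ))) *
      sin (Real.pi * (NodeLim_z N X e - (i + 1 / 2) * (1 + e) / ((N + 1 : ℕ) : ℂ))))) := by
  rw [pw]
  refine Finset.prod_congr rfl fun i _ => ?_
  rw [NodeLim_br, NodeLim_br]
  have h1 : (((X : ℤ) + i + 1 : ℤ) : ℂ) * (1 + e) / ((N + 1 : ℕ) : ℂ) =
      NodeLim_z N X e + (i + 1 / 2) * (1 + e) / ((N + 1 : ℕ) : ℂ) := by
    rw [NodeLim_z]; push_cast; ring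
  have h2 : (((X : ℤ) - i : ℤ) : ℂ) * (1 + e) / ((N + 1 : ℕ) : ℂ) =
      NodeLim_z N X e - (i + 1 / 2) * (1 + e) / ((N + 1 : ℕ) : ℂ) := by
    rw [NodeLim_z]; push_cast; ring
  rw [h1, h2]
  linear_combination (4 *
    sin (Real.pi * (NodeLim_z N X e + (i + 1 / 2) * (1 + e) / ((N + 1 : ℕ) : ℂ))) *
    sin (Real.pi * (NodeLim_z N X e - (i + 1 / 2) * (1 + e) / ((N + 1 : ℕ) : ℂ)))) *
    Complex.I_mul_I

theorem NodeLim_f_eq (a : ℤ) (N : ℕ) (A : Finset (Fin m)) (t : Fin m → ℕ) (X : ℕ) (e : ℂ) :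
    NodeLim_f a N A t X e = NodeLim_W a N X e * (2 * I * NodeLim_T N A t (e, NodeLim_z N X e)) := by
  rw [NodeLim_f, NodeLim_tw, NodeLim_br, NodeLim_T]
  have h1 : ((2 * (X : ℤ) + 1 : ℤ) : ℂ) * (1 + e) / ((N + 1 : ℕ) : ℂ) =
      2 * NodeLim_z N X e := by
    rw [NodeLim_z]; push_cast; ring
  rw [h1, Finset.prod_congr rfl (fun j _ => NodeLim_pw N (t j) X e)]
  have h2 : (Real.pi : ℂ) * (2 * NodeLim_z N X e) = 2 * Real.pi * NodeLim_z N X e := by ring
  rw [h2]
  ring

theorem NodeLim_T_reflect (N : ℕ) (A : Finset (Fin m)) (t : Fin m → ℕ) (e z : ℂ) :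
    NodeLim_T N A t (e, 1 + e - z) = -NodeLim_T N A t (e, z - e) := by
  simp only [NodeLim_T]
  have h1 : sin (2 * Real.pi * (1 + e - z)) = -sin (2 * Real.pi * (z - e)) := by
    rw [show 2 * (Real.pi : ℂ) * (1 + e - z) = 2 * Real.pi - 2 * Real.pi * (z - e) by ring,
      Complex.sin_two_pi_sub]
  have h2 : ∀ b : ℂ, sin (Real.pi * (1 + e - z + b)) = sin (Real.pi * (z - e - b)) := by
    intro b
    rw [show (Real.pi : ℂ) * (1 + e - z + b) = Real.pi - Real.pi * (z - e - b) by ring,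
      Complex.sin_pi_sub]
  have h3 : ∀ b : ℂ, sin (Real.pi * (1 + e - z - b)) = sin (Real.pi * (z - e + b)) := by
    intro b
    rw [show (Real.pi : ℂ) * (1 + e - z - b) = Real.pi - Real.pi * (z - e + b) by ring,
      Complex.sin_pi_sub]
  rw [h1, neg_mul]
  congr 2
  refine Finset.prod_congr rfl fun j _ => Finset.prod_congr rfl fun i _ => ?_
  rw [h2, h3]
  ring

theorem NodeLim_W_reflect (a : ℤ) (N X : ℕ) (hX : X ≤ N) (e : ℂ) :
    NodeLim_W a N (N - X) e = NodeLim_W a N X e *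
      exp (-(2 * Real.pi * I * a * e * (((N + 1 : ℕ) : ℂ) * (vl 2 (N + 1) X : ℝ)))) := by
  rw [NodeLim_W, NodeLim_W, ← Complex.exp_add]
  have hv : ((N + 1 : ℕ) : ℂ) * ((vl 2 (N + 1) X : ℝ) : ℂ) = X + 1 / 2 - ((N + 1 : ℕ) : ℂ) / 2 := by
    have hM := NodeLim_M N
    rw [vl, bt]
    push_cast
    push_cast at hM
    field_simp
    ring
  rw [hv, Complex.exp_eq_exp_iff_exists_int]
  refine ⟨a * ((N : ℤ) - 2 * X), ?_⟩
  have hM := NodeLim_M N
  push_cast [Nat.cast_sub hX]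
  push_cast at hM
  field_simp
  ring

theorem NodeLim_z_reflect (N X : ℕ) (hX : X ≤ N) (e : ℂ) :
    NodeLim_z N (N - X) e = 1 + e - NodeLim_z N X e := by
  have hM := NodeLim_M N
  rw [NodeLim_z, NodeLim_z]
  push_cast [Nat.cast_sub hX]
  push_cast at hM
  field_simp
  ring

theorem NodeLim_f_reflect (a : ℤ) (N : ℕ) (A : Finset (Fin m)) (t : Fin m → ℕ) (X : ℕ)
    (hX : X ≤ N) (e : ℂ) :
    NodeLim_f a N A t (N - X) e = -(NodeLim_W a N X e *
      (2 * I * (exp (-(2 * Real.pi * I * a * e * (((N + 1 : ℕ) : ℂ) * (vl 2 (N + 1) X : ℝ)))) *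
        NodeLim_T N A t (e, NodeLim_z N X e - e)))) := by
  rw [NodeLim_f_eq, NodeLim_W_reflect a N X hX, NodeLim_z_reflect N X hX, NodeLim_T_reflect]
  ring

theorem NodeLim_T_diff (N : ℕ) (A : Finset (Fin m)) (t : Fin m → ℕ) :
    Differentiable ℂ (NodeLim_T N A t) := by
  unfold NodeLim_T
  fun_prop

/-- The derivative of a pair of terms. -/
theorem NodeLim_pair (N : ℕ) (A : Finset (Fin m)) (t : Fin m → ℕ) (z z' c : ℂ) (Z : ℂ → ℂ)
    (hZ : HasDerivAt Z z' 0) (hz : Z 0 = z) :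
    HasDerivAt (fun e => NodeLim_T N A t (e, Z e) - exp (c * e) * NodeLim_T N A t (e, Z e - e))
      (fderiv ℂ (NodeLim_T N A t) (0, z) (0, 1) - c * NodeLim_T N A t (0, z)) 0 := by
  have hT : HasFDerivAt (NodeLim_T N A t) (fderiv ℂ (NodeLim_T N A t) (0, z)) (0, z) :=
    (NodeLim_T_diff N A t (0, z)).hasFDerivAt
  have h1 : HasDerivAt (fun e : ℂ => (e, Z e)) (1, z') 0 := (hasDerivAt_id 0).prodMk hZ
  have h2 : HasDerivAt (fun e : ℂ => (e, Z e - e)) (1, z' - 1) 0 :=
    (hasDerivAt_id 0).prodMk (hZ.sub (hasDerivAt_id 0))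
  have g1 : HasDerivAt (fun e : ℂ => NodeLim_T N A t (e, Z e))
      (fderiv ℂ (NodeLim_T N A t) (0, z) (1, z')) 0 := by
    have := HasFDerivAt.comp_hasDerivAt (x := (0 : ℂ)) (f := fun e : ℂ => (e, Z e))
      (l := NodeLim_T N A t) (by simpa [hz] using hT) h1
    exact this
  have g2 : HasDerivAt (fun e : ℂ => NodeLim_T N A t (e, Z e - e))
      (fderiv ℂ (NodeLim_T N A t) (0, z) (1, z' - 1)) 0 := by
    have := HasFDerivAt.comp_hasDerivAt (x := (0 : ℂ)) (f := fun e : ℂ => (e, Z e - e))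
      (l := NodeLim_T N A t) (by simpa [hz] using hT) h2
    exact this
  have g3 : HasDerivAt (fun e : ℂ => exp (c * e)) (exp (c * 0) * (c * 1)) 0 :=
    ((hasDerivAt_id (0 : ℂ)).const_mul c).cexp
  have h4 := g1.sub (g3.mul g2)
  refine h4.congr_deriv ?_
  have h5 : fderiv ℂ (NodeLim_T N A t) (0, z) (1, z') =
      fderiv ℂ (NodeLim_T N A t) (0, z) (1, z' - 1) + fderiv ℂ (NodeLim_T N A t) (0, z) (0, 1) := by
    rw [← map_add]
    simp
  rw [h5]
  simp only [mul_zero, Complex.exp_zero, hz, sub_zero]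
  ring

/-- The derivative in the second variable, in terms of `NT`. -/
theorem NodeLim_NT (a : ℤ) (N : ℕ) (A : Finset (Fin m)) (t : Fin m → ℕ)
    (ht : ∀ j ∈ A, t j ≤ N) (v : ℂ) :
    (∏ j ∈ A, (-1) ^ (t j) * ((N + 1 : ℕ) : ℂ)) *
      NT ((a : ℝ) / 2) (N + 1) A (fun j => N - t j) v =
    -2 * (exp (Real.pi * I * a * ((N + 1 : ℕ) : ℂ) * v ^ 2) * NodeLim_T N A t (0, v + 1 / 2)) := by
  have hM := NodeLim_M N
  have h1 : sin (2 * (Real.pi : ℂ) * (v + 1 / 2)) = -sin (2 * Real.pi * v) := by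
    rw [show 2 * (Real.pi : ℂ) * (v + 1 / 2) = 2 * Real.pi * v + Real.pi by ring,
      Complex.sin_add_pi]
  have h2 : ∀ j ∈ A, ∏ i ∈ Finset.range (t j),
      (-4 * (sin (Real.pi * ((v + 1 / 2) + (i + 1 / 2) * (1 + 0) / ((N + 1 : ℕ) : ℂ))) *
        sin (Real.pi * ((v + 1 / 2) - (i + 1 / 2) * (1 + 0) / ((N + 1 : ℕ) : ℂ))))) =
      ((-1) ^ (t j) * ((N + 1 : ℕ) : ℂ)) * qc (N + 1) (N - t j) v := by
    intro j hj
    have h3 : N + 1 - 1 - (N - t j) = t j := by
      have := ht j hj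
      omega
    rw [qc, h3]
    have h4 : ∀ i ∈ Finset.range (t j),
        (-4 * (sin (Real.pi * ((v + 1 / 2) + (i + 1 / 2) * (1 + 0) / ((N + 1 : ℕ) : ℂ))) *
          sin (Real.pi * ((v + 1 / 2) - (i + 1 / 2) * (1 + 0) / ((N + 1 : ℕ) : ℂ))))) =
        (-1) * (4 * (cos (Real.pi * (v + (i + 1 / 2) / ((N + 1 : ℕ) : ℂ))) *
          cos (Real.pi * (v - (i + 1 / 2) / ((N + 1 : ℕ) : ℂ))))) := by
      intro i _
      have e1 : (Real.pi : ℂ) * ((v + 1 / 2) + (i + 1 / 2) * (1 + 0) / ((N + 1 : ℕ) : ℂ)) =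
          Real.pi * (v + (i + 1 / 2) / ((N + 1 : ℕ) : ℂ)) + Real.pi / 2 := by ring
      have e2 : (Real.pi : ℂ) * ((v + 1 / 2) - (i + 1 / 2) * (1 + 0) / ((N + 1 : ℕ) : ℂ)) =
          Real.pi * (v - (i + 1 / 2) / ((N + 1 : ℕ) : ℂ)) + Real.pi / 2 := by ring
      rw [e1, e2, Complex.sin_add_pi_div_two, Complex.sin_add_pi_div_two]
      ring
    rw [Finset.prod_congr rfl h4, Finset.prod_mul_distrib, Finset.prod_const,
      Finset.card_range, mul_assoc ((-1 : ℂ) ^ (t j)), ← mul_assoc ((N + 1 : ℕ) : ℂ),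
      mul_one_div_cancel hM, one_mul]
  rw [NodeLim_T, NT]
  simp only
  have h6 : ∏ j ∈ A, ((-1) ^ (t j) * ((N + 1 : ℕ) : ℂ)) * qc (N + 1) (N - t j) v =
      (∏ j ∈ A, (-1) ^ (t j) * ((N + 1 : ℕ) : ℂ)) * ∏ j ∈ A, qc (N + 1) (N - t j) v :=
    Finset.prod_mul_distrib
  rw [h1, Finset.prod_congr rfl h2, h6]
  have h5 : exp (2 * (Real.pi : ℂ) * I * (((a : ℝ) / 2 : ℝ) : ℂ) * ((N + 1 : ℕ) : ℂ) * v ^ 2) =
      exp (Real.pi * I * a * ((N + 1 : ℕ) : ℂ) * v ^ 2) := by
    congr 1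
    push_cast
    ring
  rw [h5]
  ring

theorem NodeLim_NT_deriv (a : ℤ) (N : ℕ) (A : Finset (Fin m)) (t : Fin m → ℕ)
    (ht : ∀ j ∈ A, t j ≤ N) (v : ℂ) :
    (∏ j ∈ A, (-1) ^ (t j) * ((N + 1 : ℕ) : ℂ)) *
      deriv (NT ((a : ℝ) / 2) (N + 1) A (fun j => N - t j)) v =
    -2 * (exp (Real.pi * I * a * ((N + 1 : ℕ) : ℂ) * v ^ 2) *
      (fderiv ℂ (NodeLim_T N A t) (0, v + 1 / 2) (0, 1) +
        2 * Real.pi * I * a * (((N + 1 : ℕ) : ℂ) * v) * NodeLim_T N A t (0, v + 1 / 2))) := by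
  rw [← deriv_const_mul_field, show (fun x => (∏ j ∈ A, (-1) ^ (t j) * ((N + 1 : ℕ) : ℂ)) *
      NT ((a : ℝ) / 2) (N + 1) A (fun j => N - t j) x) = fun v =>
      -2 * (exp (Real.pi * I * a * ((N + 1 : ℕ) : ℂ) * v ^ 2) * NodeLim_T N A t (0, v + 1 / 2))
      from funext fun x => NodeLim_NT a N A t ht x]
  have hT : HasFDerivAt (NodeLim_T N A t) (fderiv ℂ (NodeLim_T N A t) (0, v + 1 / 2))
    (0, v + 1 / 2) := (NodeLim_T_diff N A t _).hasFDerivAt
  have h1 : HasDerivAt (fun w : ℂ => ((0 : ℂ), w + 1 / 2)) (0, 1) v :=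
    (hasDerivAt_const v (0 : ℂ)).prodMk ((hasDerivAt_id v).add_const (1 / 2))
  have g1 : HasDerivAt (fun w : ℂ => NodeLim_T N A t (0, w + 1 / 2))
      (fderiv ℂ (NodeLim_T N A t) (0, v + 1 / 2) (0, 1)) v :=
    HasFDerivAt.comp_hasDerivAt (x := v) (f := fun w : ℂ => ((0 : ℂ), w + 1 / 2))
      (l := NodeLim_T N A t) hT h1
  have g2 : HasDerivAt (fun w : ℂ => exp (Real.pi * I * a * ((N + 1 : ℕ) : ℂ) * w ^ 2))
      (exp (Real.pi * I * a * ((N + 1 : ℕ) : ℂ) * v ^ 2) *
        (Real.pi * I * a * ((N + 1 : ℕ) : ℂ) * (2 * v ^ (2 - 1)))) v := by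
    have := ((hasDerivAt_pow 2 v).const_mul (Real.pi * I * a * ((N + 1 : ℕ) : ℂ))).cexp
    simpa using this
  have g3 := ((g2.mul g1).const_mul (-2)).deriv
  refine g3.trans ?_
  ring

theorem NodeLim_W_zero (a : ℤ) (N X : ℕ) :
    NodeLim_W a N X 0 = cG a (N + 1) *
      exp (Real.pi * I * a * ((N + 1 : ℕ) : ℂ) * ((vl 2 (N + 1) X : ℝ) : ℂ) ^ 2) := by
  have hM := NodeLim_M N
  have hv : ((vl 2 (N + 1) X : ℝ) : ℂ) = (X + 1 / 2) / ((N + 1 : ℕ) : ℂ) - 1 / 2 := by
    rw [vl, bt]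
    push_cast
    ring
  rw [NodeLim_W, cG, hv, ← Complex.exp_add, Complex.exp_eq_exp_iff_exists_int]
  refine ⟨a * X, ?_⟩
  push_cast
  push_cast at hM
  field_simp
  ring

theorem NodeLim_z_zero (N X : ℕ) :
    NodeLim_z N X 0 = ((vl 2 (N + 1) X : ℝ) : ℂ) + 1 / 2 := by
  rw [NodeLim_z, vl, bt]
  push_cast
  ring

/-- The numerator. -/
noncomputable def NodeLim_H (a : ℤ) (N : ℕ) (A : Finset (Fin m)) (t : Fin m → ℕ) (e : ℂ) : ℂ :=
  ∑ X ∈ Finset.range (N + 1), NodeLim_f a N A t X e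

theorem NodeLim_H_eq (a : ℤ) (N : ℕ) (A : Finset (Fin m)) (t : Fin m → ℕ) (e : ℂ) :
    NodeLim_H a N A t e = ∑ X ∈ Finset.range (N + 1), I * (NodeLim_W a N X e *
      (NodeLim_T N A t (e, NodeLim_z N X e) -
        exp (-(2 * Real.pi * I * a * (((N + 1 : ℕ) : ℂ) * (vl 2 (N + 1) X : ℝ))) * e) *
          NodeLim_T N A t (e, NodeLim_z N X e - e))) := by
  have h1 : NodeLim_H a N A t e = ∑ X ∈ Finset.range (N + 1), NodeLim_f a N A t (N - X) e := by
    rw [NodeLim_H, ← Finset.sum_range_reflect]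
    refine Finset.sum_congr rfl fun X _ => ?_
    rw [Nat.add_sub_cancel]
  have h2 : 2 * NodeLim_H a N A t e = ∑ X ∈ Finset.range (N + 1),
      (NodeLim_f a N A t X e + NodeLim_f a N A t (N - X) e) := by
    rw [Finset.sum_add_distrib, ← h1, NodeLim_H]
    ring
  have h3 : ∀ X ∈ Finset.range (N + 1), NodeLim_f a N A t X e + NodeLim_f a N A t (N - X) e =
      2 * (I * (NodeLim_W a N X e *
      (NodeLim_T N A t (e, NodeLim_z N X e) -
        exp (-(2 * Real.pi * I * a * (((N + 1 : ℕ) : ℂ) * (vl 2 (N + 1) X : ℝ))) * e) *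
          NodeLim_T N A t (e, NodeLim_z N X e - e)))) := by
    intro X hX
    have hX' : X ≤ N := by
      have := Finset.mem_range.1 hX
      omega
    rw [NodeLim_f_eq, NodeLim_f_reflect a N A t X hX' e]
    have h4 : -(2 * Real.pi * I * a * (((N + 1 : ℕ) : ℂ) * (vl 2 (N + 1) X : ℝ))) * e =
        -(2 * Real.pi * I * a * e * (((N + 1 : ℕ) : ℂ) * (vl 2 (N + 1) X : ℝ))) := by ring
    rw [h4]
    ring
  rw [Finset.sum_congr rfl h3, ← Finset.mul_sum] at h2
  exact mul_left_cancel₀ two_ne_zero h2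

theorem NodeLim_H_zero (a : ℤ) (N : ℕ) (A : Finset (Fin m)) (t : Fin m → ℕ) :
    NodeLim_H a N A t 0 = 0 := by
  rw [NodeLim_H_eq]
  refine Finset.sum_eq_zero fun X _ => ?_
  simp

theorem NodeLim_H_deriv (a : ℤ) (N : ℕ) (A : Finset (Fin m)) (t : Fin m → ℕ)
    (ht : ∀ j ∈ A, t j ≤ N) :
    HasDerivAt (NodeLim_H a N A t) (-(I / 2) * cG a (N + 1) *
      (∏ j ∈ A, (-1) ^ (t j) * ((N + 1 : ℕ) : ℂ)) *
        DG ((a : ℝ) / 2) (N + 1) A (fun j => N - t j)) 0 := by
  have h1 : ∀ X ∈ Finset.range (N + 1), HasDerivAt (fun e => I * (NodeLim_W a N X e *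
      (NodeLim_T N A t (e, NodeLim_z N X e) -
        exp (-(2 * Real.pi * I * a * (((N + 1 : ℕ) : ℂ) * (vl 2 (N + 1) X : ℝ))) * e) *
          NodeLim_T N A t (e, NodeLim_z N X e - e))))
      (-(I / 2) * cG a (N + 1) * (∏ j ∈ A, (-1) ^ (t j) * ((N + 1 : ℕ) : ℂ)) *
        deriv (NT ((a : ℝ) / 2) (N + 1) A (fun j => N - t j)) ((vl 2 (N + 1) X : ℝ) : ℂ)) 0 := by
    intro X _
    have hW : HasDerivAt (NodeLim_W a N X) (deriv (NodeLim_W a N X) 0) 0 := by
      have : Differentiable ℂ (NodeLim_W a N X) := by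
        unfold NodeLim_W
        fun_prop
      exact (this 0).hasDerivAt
    have hZ : HasDerivAt (NodeLim_z N X) (deriv (NodeLim_z N X) 0) 0 := by
      have : Differentiable ℂ (NodeLim_z N X) := by
        unfold NodeLim_z
        fun_prop
      exact (this 0).hasDerivAt
    have hD := NodeLim_pair N A t (((vl 2 (N + 1) X : ℝ) : ℂ) + 1 / 2) _
      (-(2 * Real.pi * I * a * (((N + 1 : ℕ) : ℂ) * (vl 2 (N + 1) X : ℝ)))) _ hZ
      (NodeLim_z_zero N X)
    have h2 := (hW.mul hD).const_mul I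
    refine h2.congr_deriv ?_
    have h3 := NodeLim_NT_deriv a N A t ht ((vl 2 (N + 1) X : ℝ) : ℂ)
    rw [NodeLim_W_zero]
    simp only [mul_zero, Complex.exp_zero, sub_zero, one_mul, sub_self, zero_add]
    linear_combination (-(I / 2) * cG a (N + 1)) * (-1) * h3
  have h4 := HasDerivAt.fun_sum h1
  have h5 : NodeLim_H a N A t = fun e => ∑ X ∈ Finset.range (N + 1), I * (NodeLim_W a N X e *
      (NodeLim_T N A t (e, NodeLim_z N X e) -
        exp (-(2 * Real.pi * I * a * (((N + 1 : ℕ) : ℂ) * (vl 2 (N + 1) X : ℝ))) * e) *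
          NodeLim_T N A t (e, NodeLim_z N X e - e))) := funext fun e => NodeLim_H_eq a N A t e
  rw [h5, DG, Finset.mul_sum]
  exact h4

theorem NodeLim_B (N : ℕ) (e : ℂ) :
    br (NodeLim_Q N e) ((N : ℤ) + 1) = -(2 * I * sin (Real.pi * e)) := by
  have hM := NodeLim_M N
  rw [NodeLim_br]
  have h1 : (Real.pi : ℂ) * ((((N : ℤ) + 1 : ℤ) : ℂ) * (1 + e) / ((N + 1 : ℕ) : ℂ)) =
      Real.pi * e + Real.pi := by
    push_cast
    push_cast at hM
    field_simp
    ring
  rw [h1, Complex.sin_add_pi]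
  ring

theorem NodeLim_NF (a : ℤ) (N : ℕ) (A : Finset (Fin m)) (t : Fin m → ℕ) (e : ℂ) :
    NF a N (NodeLim_Q N e) A t = NodeLim_H a N A t e / -(2 * I * sin (Real.pi * e)) := by
  rw [NF, NodeLim_H, Finset.sum_div]
  refine Finset.sum_congr rfl fun X _ => ?_
  rw [NodeLim_f, ← NodeLim_B N e]
  ring

theorem NodeLim_lim (a : ℤ) (N : ℕ) (A : Finset (Fin m)) (t : Fin m → ℕ)
    (ht : ∀ j ∈ A, t j ≤ N) :
    Tendsto (fun e => NF a N (NodeLim_Q N e) A t) (𝓝[≠] 0)
      (𝓝 (cG a (N + 1) / (4 * Real.pi) * (∏ j ∈ A, (-1) ^ (t j) * ((N + 1 : ℕ) : ℂ)) *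
        DG ((a : ℝ) / 2) (N + 1) A (fun j => N - t j))) := by
  have h1 := hasDerivAt_iff_tendsto_slope.1 (NodeLim_H_deriv a N A t ht)
  have h2 : HasDerivAt (fun e : ℂ => -(2 * I * sin (Real.pi * e))) (-(2 * I * Real.pi)) 0 := by
    have := (((hasDerivAt_id (0 : ℂ)).const_mul (Real.pi : ℂ)).csin.const_mul (2 * I)).neg
    refine this.congr_deriv ?_
    simp
  have h3 := hasDerivAt_iff_tendsto_slope.1 h2
  have hpi : (Real.pi : ℂ) ≠ 0 := by exact_mod_cast Real.pi_ne_zero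
  have h4 := h1.div h3 (by simp [hpi, Complex.I_ne_zero])
  have h5 : -(I / 2) * cG a (N + 1) *
      (∏ j ∈ A, (-1) ^ (t j) * ((N + 1 : ℕ) : ℂ)) *
        DG ((a : ℝ) / 2) (N + 1) A (fun j => N - t j) / -(2 * I * Real.pi) =
      cG a (N + 1) / (4 * Real.pi) * (∏ j ∈ A, (-1) ^ (t j) * ((N + 1 : ℕ) : ℂ)) *
        DG ((a : ℝ) / 2) (N + 1) A (fun j => N - t j) := by
    have hI := Complex.I_ne_zero
    rw [div_eq_iff (neg_ne_zero.2 (mul_ne_zero (mul_ne_zero two_ne_zero hI) hpi))]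
    field_simp
    ring_nf
  rw [h5] at h4
  refine h4.congr' ?_
  filter_upwards [self_mem_nhdsWithin] with e he
  have he' : e ≠ 0 := he
  rw [NodeLim_NF]
  simp only [Pi.div_apply, slope, vsub_eq_sub, smul_eq_mul, sub_zero, NodeLim_H_zero, mul_zero,
    Complex.sin_zero, neg_zero]
  rw [mul_div_mul_left _ _ (inv_ne_zero he')]

theorem node_lim (a : ℤ) (N : ℕ) (A : Finset (Fin m)) (t : Fin m → ℕ) (ht : ∀ j ∈ A, t j ≤ N) :
    Tendsto (fun q => NF a N q A t) (𝓝[≠] exp (Real.pi * I / ((N + 1 : ℕ) : ℂ)))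
      (𝓝 (cG a (N + 1) / (4 * Real.pi) * (∏ j ∈ A, (-1) ^ (t j) * ((N + 1 : ℕ) : ℂ)) *
        DG ((a : ℝ) / 2) (N + 1) A (fun j => N - t j))) := by
  have hM := NodeLim_M N
  have hI := Complex.I_ne_zero
  have hpi : (Real.pi : ℂ) ≠ 0 := by exact_mod_cast Real.pi_ne_zero
  set ξ : ℂ := exp (Real.pi * I / ((N + 1 : ℕ) : ℂ)) with hξ
  have hξ0 : ξ ≠ 0 := Complex.exp_ne_zero _
  set E : ℂ → ℂ := fun q => Complex.log (q / ξ) * (((N + 1 : ℕ) : ℂ) / (Real.pi * I)) with hE
  have hQ : ∀ q : ℂ, q ≠ 0 → NodeLim_Q N (E q) = q := by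
    intro q hq
    rw [NodeLim_Q, hE]
    have h1 : Real.pi * I * (1 + Complex.log (q / ξ) * (((N + 1 : ℕ) : ℂ) / (Real.pi * I))) /
        ((N + 1 : ℕ) : ℂ) = Real.pi * I / ((N + 1 : ℕ) : ℂ) + Complex.log (q / ξ) := by
      field_simp
    rw [h1, Complex.exp_add, Complex.exp_log (div_ne_zero hq hξ0), ← hξ]
    field_simp
  have hQ0 : NodeLim_Q N 0 = ξ := by
    rw [NodeLim_Q, hξ]
    congr 1
    ring
  have hEt : Tendsto E (𝓝 ξ) (𝓝 0) := by
    have h1 : ContinuousAt E ξ := by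
      refine ContinuousAt.mul (ContinuousAt.clog (by fun_prop) ?_) continuousAt_const
      rw [div_self hξ0]
      exact Complex.one_mem_slitPlane
    have h2 : E ξ = 0 := by
      simp only [hE]
      rw [div_self hξ0, Complex.log_one, zero_mul]
    have := h1.tendsto
    rwa [h2] at this
  have hq0 : ∀ᶠ q in 𝓝[≠] ξ, q ≠ 0 :=
    (eventually_ne_nhds hξ0).filter_mono nhdsWithin_le_nhds
  have hEt' : Tendsto E (𝓝[≠] ξ) (𝓝[≠] 0) := by
    rw [tendsto_nhdsWithin_iff]
    refine ⟨hEt.mono_left nhdsWithin_le_nhds, ?_⟩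
    filter_upwards [self_mem_nhdsWithin, hq0] with q hq hq'
    intro h
    apply hq
    have h1 := hQ q hq'
    rw [Set.mem_singleton_iff] at h
    rw [h, hQ0] at h1
    exact h1.symm
  refine ((NodeLim_lim a N A t ht).comp hEt').congr' ?_
  filter_upwards [hq0] with q hq
  simp only [Function.comp]
  rw [hQ q hq]

end Pool.Agent.H63.VC7

end

section

/-! # The limit of the state sum at the root of unity -/

namespace Pool.Agent.H63.VC7

open Pool.Agent.H63.VC
open Pool.Agent.H63.VC3 Pool.Agent.H63.VC4 Complex Filter Topology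

variable {m p : ℕ}

theorem RootLim_br (M : ℕ) (a : ℤ) :
    br (exp (Real.pi * I / (M : ℂ))) a = 2 * I * sin (Real.pi * a / M) := by
  have e1 : (a : ℂ) * (Real.pi * I / (M : ℂ)) = (Real.pi * a / M) * I := by ring
  have e2 : ((-a : ℤ) : ℂ) * (Real.pi * I / (M : ℂ)) = -(Real.pi * a / M) * I := by
    push_cast
    ring
  unfold br
  rw [← exp_int_mul, ← exp_int_mul, e1, e2, Complex.sin]
  linear_combination (exp (-(Real.pi * a / M) * I) - exp (Real.pi * a / M * I)) *
    (-Complex.I_mul_I)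

theorem RootLim_br1 (N i : ℕ) : br (exp (Real.pi * I / ((N + 1 : ℕ) : ℂ))) ((i : ℤ) + 1) =
    I * (sg (N + 1) (i + 1) : ℝ) := by
  rw [RootLim_br, sg]
  push_cast
  ring

theorem RootLim_br2 (N i : ℕ) : br (exp (Real.pi * I / ((N + 1 : ℕ) : ℂ))) ((N : ℤ) + i + 2) =
    -(I * (sg (N + 1) (i + 1) : ℝ)) := by
  have hN : ((N : ℂ) + 1) ≠ 0 := by exact_mod_cast Nat.succ_ne_zero N
  rw [RootLim_br, sg]
  have e : (Real.pi * (((N : ℤ) + i + 2 : ℤ) : ℂ) / ((N + 1 : ℕ) : ℂ) : ℂ) =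
      Real.pi * ((i : ℂ) + 1) / ((N : ℂ) + 1) + Real.pi := by
    push_cast
    field_simp
    ring
  rw [e, Complex.sin_add_pi]
  push_cast
  ring

theorem RootLim_br3 (N i : ℕ) : br (exp (Real.pi * I / ((N + 1 : ℕ) : ℂ))) ((N : ℤ) - i) =
    I * (sg (N + 1) (i + 1) : ℝ) := by
  have hN : ((N : ℂ) + 1) ≠ 0 := by exact_mod_cast Nat.succ_ne_zero N
  rw [RootLim_br, sg]
  have e : (Real.pi * (((N : ℤ) - i : ℤ) : ℂ) / ((N + 1 : ℕ) : ℂ) : ℂ) =
      Real.pi - Real.pi * ((i : ℂ) + 1) / ((N : ℂ) + 1) := by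
    push_cast
    field_simp
    ring
  rw [e, Complex.sin_pi_sub]
  push_cast
  ring

theorem RootLim_wd (N t : ℕ) : wd (exp (Real.pi * I / ((N + 1 : ℕ) : ℂ))) N t =
    (-1) ^ t * ((S (N + 1) t : ℝ) : ℂ) ^ 4 := by
  induction t with
  | zero => simp [wd, S]
  | succ t ih =>
    unfold wd at ih ⊢
    rw [Finset.prod_range_succ, ih, RootLim_br1, RootLim_br2, RootLim_br3, S_succ]
    push_cast
    have hI : I ^ 4 = 1 := by
      rw [show (4 : ℕ) = 2 * 2 from rfl, pow_mul, I_sq]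
      norm_num
    rw [pow_succ (-1 : ℂ) t]
    linear_combination (-1 : ℂ) ^ t * ((S (N + 1) t : ℝ) : ℂ) ^ 4 *
      (sg (N + 1) (t + 1) : ℂ) ^ 4 * (-hI)

theorem RootLim_br_cont (x : ℂ) (hx : x ≠ 0) (a : ℤ) : ContinuousAt (fun q => br q a) x := by
  unfold br
  exact (continuousAt_zpow₀ x a (Or.inl hx)).sub (continuousAt_zpow₀ x (-a) (Or.inl hx))

theorem RootLim_wd_cont (x : ℂ) (hx : x ≠ 0) (N t : ℕ) : ContinuousAt (fun q => wd q N t) x := by
  unfold wd
  refine tendsto_finsetProd _ fun i _ => ?_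
  exact ((RootLim_br_cont x hx _).pow 2).mul
    ((RootLim_br_cont x hx _).mul (RootLim_br_cont x hx _))

theorem RootLim_factor (N t : ℕ) (ht : t ≤ N) :
    Tendsto (fun q => (-1) ^ t / wd q N t) (𝓝[≠] exp (Real.pi * I / ((N + 1 : ℕ) : ℂ)))
      (𝓝 (1 / ((S (N + 1) t : ℝ) : ℂ) ^ 4)) := by
  have hS : ((S (N + 1) t : ℝ) : ℂ) ≠ 0 := by
    exact_mod_cast (S_pos (M := N + 1) (k := t) (by omega)).ne'
  have h1 : ((-1 : ℂ)) ^ t ≠ 0 := pow_ne_zero _ (by norm_num)
  have h2 : wd (exp (Real.pi * I / ((N + 1 : ℕ) : ℂ))) N t ≠ 0 := by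
    rw [RootLim_wd]
    exact mul_ne_zero h1 (pow_ne_zero _ hS)
  have h3 : Tendsto (fun q => (-1) ^ t / wd q N t) (𝓝 (exp (Real.pi * I / ((N + 1 : ℕ) : ℂ))))
      (𝓝 ((-1) ^ t / wd (exp (Real.pi * I / ((N + 1 : ℕ) : ℂ))) N t)) :=
    tendsto_const_nhds.div (RootLim_wd_cont _ (exp_ne_zero _) N t) h2
  have h4 : (-1) ^ t / wd (exp (Real.pi * I / ((N + 1 : ℕ) : ℂ))) N t =
      1 / ((S (N + 1) t : ℝ) : ℂ) ^ 4 := by
    rw [RootLim_wd]
    field_simp
  rw [h4] at h3
  exact h3.mono_left nhdsWithin_le_nhds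

theorem RootLim_Cc (N k : ℕ) (hk : k ≤ N) :
    Cc 2 1 (N + 1) (yk 2 (N + 1) k) = ((S (N + 1) k : ℝ) : ℂ) ^ 4 := by
  rw [Cc_yk 2 1 (N + 1) k le_rfl le_rfl (by omega) le_rfl]
  simp only [Nat.sub_self, add_zero, Nat.reduceSub]
  ring

theorem RootLim_S (N k : ℕ) (hk : k ≤ N) :
    ((N + 1 : ℕ) : ℂ) ^ 2 * (1 / ((S (N + 1) (N - k) : ℝ) : ℂ) ^ 4) =
      ((S (N + 1) k : ℝ) : ℂ) ^ 4 / ((N + 1 : ℕ) : ℂ) ^ 2 := by
  have h := S_mul (M := N + 1) (k := k) (by omega)
  have e : N + 1 - 1 - k = N - k := by omega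
  rw [e] at h
  have h' : ((S (N + 1) k : ℝ) : ℂ) * ((S (N + 1) (N - k) : ℝ) : ℂ) = ((N + 1 : ℕ) : ℂ) := by
    exact_mod_cast h
  have hS : ((S (N + 1) (N - k) : ℝ) : ℂ) ≠ 0 := by
    exact_mod_cast (S_pos (M := N + 1) (k := N - k) (by omega)).ne'
  have hM : ((N + 1 : ℕ) : ℂ) ≠ 0 := by exact_mod_cast Nat.succ_ne_zero N
  rw [mul_one_div, div_eq_div_iff (pow_ne_zero _ hS) (pow_ne_zero _ hM), ← h']
  ring

theorem RootLim_sum (s t : Fin m → Fin p) (hst : ∀ j, s j ≠ t j) (a : Fin p → ℤ) (N : ℕ) :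
    ∑ k ∈ Fintype.piFinset (fun _ : Fin m => Finset.range (N + 1)),
      (∏ j, 1 / ((S (N + 1) (k j) : ℝ) : ℂ) ^ 4) *
        ∏ i, (cG (a i) (N + 1) / (4 * Real.pi) *
          (∏ j ∈ inc s t i, (-1) ^ (k j) * ((N + 1 : ℕ) : ℂ)) *
          DG ((a i : ℝ) / 2) (N + 1) (inc s t i) (fun j => N - k j)) =
    ((∏ i, cG (a i) (N + 1) / (4 * Real.pi)) / ((N + 1 : ℕ) : ℂ) ^ (2 * m) *
        JG s t (fun i => (a i : ℝ) / 2) (N + 1)) := by
  unfold JG
  rw [Finset.mul_sum]
  refine Finset.sum_bij' (fun k _ => fun j => N - k j) (fun k _ => fun j => N - k j)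
    ?_ ?_ ?_ ?_ ?_
  · intro k _
    rw [Fintype.mem_piFinset]
    intro j
    rw [Finset.mem_range]
    omega
  · intro k _
    rw [Fintype.mem_piFinset]
    intro j
    rw [Finset.mem_range]
    omega
  · intro k hk
    rw [Fintype.mem_piFinset] at hk
    funext j
    have := Finset.mem_range.1 (hk j)
    show N - (N - k j) = k j
    omega
  · intro k hk
    rw [Fintype.mem_piFinset] at hk
    funext j
    have := Finset.mem_range.1 (hk j)
    show N - (N - k j) = k j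
    omega
  · intro k hk
    rw [Fintype.mem_piFinset] at hk
    have hk' : ∀ j, k j ≤ N := fun j => by
      have := Finset.mem_range.1 (hk j)
      omega
    rw [Finset.prod_mul_distrib, Finset.prod_mul_distrib,
      prod_inc s t hst (fun _ j => (-1) ^ (k j) * ((N + 1 : ℕ) : ℂ))]
    have e1 : ∀ j : Fin m, ((-1) ^ (k j) * ((N + 1 : ℕ) : ℂ)) * ((-1) ^ (k j) * ((N + 1 : ℕ) : ℂ)) =
        ((N + 1 : ℕ) : ℂ) ^ 2 := by
      intro j
      have h : ((-1 : ℂ) ^ (k j)) * (-1) ^ (k j) = 1 := by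
        rw [← mul_pow]
        norm_num
      linear_combination ((N + 1 : ℕ) : ℂ) ^ 2 * h
    rw [Finset.prod_congr rfl fun j _ => e1 j]
    have e2 : (∏ j, 1 / ((S (N + 1) (k j) : ℝ) : ℂ) ^ 4) * (∏ _j : Fin m, ((N + 1 : ℕ) : ℂ) ^ 2) =
        (∏ j, Cc 2 1 (N + 1) (yk 2 (N + 1) (N - k j))) / ((N + 1 : ℕ) : ℂ) ^ (2 * m) := by
      have e3 : ((N + 1 : ℕ) : ℂ) ^ (2 * m) = ∏ _j : Fin m, ((N + 1 : ℕ) : ℂ) ^ 2 := by
        rw [Finset.prod_const, Finset.card_univ, Fintype.card_fin, pow_mul]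
      rw [e3, ← Finset.prod_mul_distrib, ← Finset.prod_div_distrib]
      refine Finset.prod_congr rfl fun j _ => ?_
      rw [RootLim_Cc N (N - k j) (Nat.sub_le _ _)]
      have h := RootLim_S N (N - k j) (Nat.sub_le _ _)
      rw [show N - (N - k j) = k j from by have := hk' j; omega] at h
      rw [← h]
      ring
    calc _ = ((∏ j, 1 / ((S (N + 1) (k j) : ℝ) : ℂ) ^ 4) *
          (∏ _j : Fin m, ((N + 1 : ℕ) : ℂ) ^ 2)) *
          ((∏ i, cG (a i) (N + 1) / (4 * Real.pi)) *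
            ∏ i, DG ((a i : ℝ) / 2) (N + 1) (inc s t i) (fun j => N - k j)) := by ring
      _ = _ := by
        rw [e2]
        ring

theorem root_lim (s t : Fin m → Fin p) (hst : ∀ j, s j ≠ t j) (a : Fin p → ℤ) (N : ℕ) :
    Tendsto (fun q => jones s t a N q) (𝓝[≠] exp (Real.pi * I / ((N + 1 : ℕ) : ℂ)))
      (𝓝 ((∏ i, cG (a i) (N + 1) / (4 * Real.pi)) / ((N + 1 : ℕ) : ℂ) ^ (2 * m) *
        JG s t (fun i => (a i : ℝ) / 2) (N + 1))) := by
  rw [← RootLim_sum s t hst a N]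
  have e : (fun q => jones s t a N q) = fun q =>
      ∑ k ∈ Fintype.piFinset (fun _ : Fin m => Finset.range (N + 1)),
        (∏ j, (-1) ^ (k j) / wd q N (k j)) * ∏ i, NF (a i) N q (inc s t i) k := by
    funext q
    exact jones_swap s t hst a N q
  rw [e]
  refine tendsto_finsetSum _ fun k hk => ?_
  rw [Fintype.mem_piFinset] at hk
  have hk' : ∀ j, k j ≤ N := fun j => by
    have := Finset.mem_range.1 (hk j)
    omega
  refine Tendsto.mul ?_ ?_
  · exact tendsto_finsetProd _ fun j _ => RootLim_factor N (k j) (hk' j)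
  · exact tendsto_finsetProd _ fun i _ => node_lim (a i) N (inc s t i) k fun j _ => hk' j

end Pool.Agent.H63.VC7

end

section

/-! # Existence of the integers of the flattening -/

namespace Pool.Agent.H63.VC7

variable {m p : ℕ}

lemma WuC_quad (B : Matrix (Fin p) (Fin p) (ZMod 2)) (hB : B.IsSymm) (z : Fin p → ZMod 2) :
    ∑ i, ∑ j, z i * (B i j * z j) = ∑ i, z i * B i i := by
  classical
  have h1 : ∀ i, ∑ j, z i * (B i j * z j) =
      z i * B i i + ∑ j ∈ Finset.univ.erase i, z i * (B i j * z j) := by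
    intro i
    rw [← Finset.add_sum_erase _ _ (Finset.mem_univ i)]
    congr 1
    have h2 : ∀ x y : ZMod 2, x * (y * x) = x * y := by decide
    exact h2 _ _
  simp only [h1]
  rw [Finset.sum_add_distrib]
  have h3 : ∑ i, ∑ j ∈ Finset.univ.erase i, z i * (B i j * z j) = 0 := by
    rw [Finset.sum_sigma']
    refine Finset.sum_involution (fun q _ => ⟨q.2, q.1⟩) ?_ ?_ ?_ ?_
    · rintro ⟨i, j⟩ -
      have h4 : B j i = B i j := hB.apply i j
      simp only [h4]
      have h5 : ∀ x y w : ZMod 2, x * (y * w) + w * (y * x) = 0 := by decide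
      exact h5 _ _ _
    · rintro ⟨i, j⟩ hq - h
      simp only [Finset.mem_sigma, Finset.mem_erase] at hq
      have := congrArg Sigma.fst h
      exact hq.2.1 this
    · rintro ⟨i, j⟩ hq
      simp only [Finset.mem_sigma, Finset.mem_erase, Finset.mem_univ, true_and, and_true] at hq ⊢
      exact fun h => hq h.symm
    · rintro ⟨i, j⟩ -
      rfl
  rw [h3, add_zero]

/-- The diagonal of a symmetric matrix over the field with two elements is in its range. -/
theorem wu_matrix (B : Matrix (Fin p) (Fin p) (ZMod 2)) (hB : B.IsSymm) :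
    ∃ x : Fin p → ZMod 2, B.mulVec x = fun i => B i i := by
  classical
  by_contra hcon
  have hnot : (fun i => B i i) ∉ LinearMap.range B.mulVecLin := by
    rintro ⟨x, hx⟩
    exact hcon ⟨x, hx⟩
  obtain ⟨φ, h1, h2⟩ := Submodule.exists_le_ker_of_notMem hnot
  set z : Fin p → ZMod 2 := fun i => φ (Pi.single i 1) with hz
  have hφ : ∀ v : Fin p → ZMod 2, φ v = ∑ i, v i * z i := by
    intro v
    conv_lhs => rw [pi_eq_sum_univ v, map_sum]
    refine Finset.sum_congr rfl fun i _ => ?_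
    rw [map_smul, smul_eq_mul]
    congr 2
    funext j
    by_cases h : i = j
    · subst h; simp
    · simp [h, Ne.symm h]
  have h3 : φ (B.mulVec z) = 0 := by
    have : B.mulVec z ∈ LinearMap.range B.mulVecLin := ⟨z, rfl⟩
    exact h2 this
  apply h1
  rw [hφ, ← h3, hφ]
  have h4 := WuC_quad B hB z
  calc ∑ i, B i i * z i = ∑ i, z i * B i i := Finset.sum_congr rfl fun i _ => mul_comm _ _
    _ = ∑ i, ∑ j, z i * (B i j * z j) := h4.symm
    _ = _ := by
      refine Finset.sum_congr rfl fun i _ => ?_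
      rw [Matrix.mulVec, dotProduct, mul_comm, Finset.mul_sum]

lemma WuC_choice (s t : Fin m → Fin p) (hst : ∀ j, s j ≠ t j)
    (hne : ∀ i, (inc s t i).Nonempty) :
    ∃ e : Fin p → Fin m, ∀ (i : Fin p) (c : ℤ),
      ∑ j, ((if s j = i ∧ e (s j) = j then c else 0) +
        (if t j = i ∧ e (t j) = j then c else 0)) = c := by
  choose e he using hne
  refine ⟨e, fun i c => ?_⟩
  rw [Finset.sum_eq_single (e i)]
  · have h1 := (mem_inc s t i (e i)).1 (he i)
    rcases h1 with h1 | h1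
    · have h2 : ¬ t (e i) = i := fun h => hst (e i) (h1.trans h.symm)
      simp [h1, h2]
    · have h2 : ¬ s (e i) = i := fun h => hst (e i) (h.trans h1.symm)
      simp [h1, h2]
  · intro j _ hj
    have h1 : ¬ (s j = i ∧ e (s j) = j) := by
      rintro ⟨rfl, h⟩
      exact hj h.symm
    have h2 : ¬ (t j = i ∧ e (t j) = j) := by
      rintro ⟨rfl, h⟩
      exact hj h.symm
    simp [h1, h2]
  · simp

theorem wu_exists (s t : Fin m → Fin p) (hst : ∀ j, s j ≠ t j)
    (hne : ∀ i, (inc s t i).Nonempty) (a : Fin p → ℤ) :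
    ∃ (n : Fin p → ℤ) (al be : Fin m → ℤ), ∀ i,
      (∑ j, ((if s j = i then 2 * al j + n (t j) + 1 else 0) +
        (if t j = i then -(2 * be j + n (s j) + 1) else 0))) + a i * n i = 2 := by
  classical
  set B : Matrix (Fin p) (Fin p) (ZMod 2) := fun i k =>
    (∑ j, ((if s j = i ∧ t j = k then 1 else 0) + (if t j = i ∧ s j = k then 1 else 0))) +
      (if i = k then (a i : ZMod 2) else 0) with hBdef
  have hB : B.IsSymm := by
    ext i k
    rw [Matrix.transpose_apply]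
    simp only [hBdef]
    congr 1
    · refine Finset.sum_congr rfl fun j _ => ?_
      rw [add_comm]
      congr 1
      · simp only [and_comm]
      · simp only [and_comm]
    · by_cases h : i = k
      · subst h; rfl
      · simp [h, Ne.symm h]
  obtain ⟨x, hx⟩ := wu_matrix B hB
  have hx' : ∀ i, (∑ j, ((if s j = i then x (t j) else 0) + (if t j = i then x (s j) else 0))) +
      a i * x i = a i := by
    intro i
    have h1 := congrFun hx i
    have h2 : B i i = a i := by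
      simp only [hBdef]
      have h3 : ∀ j, ((if s j = i ∧ t j = i then (1 : ZMod 2) else 0) +
          (if t j = i ∧ s j = i then 1 else 0)) = 0 := by
        intro j
        have h4 : ¬ (s j = i ∧ t j = i) := fun h => hst j (h.1.trans h.2.symm)
        have h5 : ¬ (t j = i ∧ s j = i) := fun h => hst j (h.2.trans h.1.symm)
        simp [h4, h5]
      simp [h3]
    rw [h2] at h1
    conv_rhs => rw [← h1, Matrix.mulVec, dotProduct]
    simp only [hBdef, add_mul, Finset.sum_add_distrib, Finset.sum_mul]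
    congr 1
    · congr 1
      · rw [Finset.sum_comm]
        refine Finset.sum_congr rfl fun j _ => ?_
        by_cases h : s j = i
        · simp [h]
        · simp [h]
      · rw [Finset.sum_comm]
        refine Finset.sum_congr rfl fun j _ => ?_
        by_cases h : t j = i
        · simp [h]
        · simp [h]
    · simp
  set n : Fin p → ℤ := fun i => ((1 + x i).val : ℤ) with hn
  have hncast : ∀ i, ((n i : ℤ) : ZMod 2) = 1 + x i := by
    intro i
    simp [hn]
  set S : Fin p → ℤ := fun i => (∑ j, ((if s j = i then n (t j) + 1 else 0) +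
        (if t j = i then -(n (s j) + 1) else 0))) + a i * n i with hS
  have hSe : ∀ i, (2 : ℤ) ∣ 2 - S i := by
    intro i
    have h2 : (2 : ℤ) ∣ S i := by
      have h3 : ((S i : ℤ) : ZMod 2) = 0 := by
        simp only [hS]
        push_cast
        have h4 : ∀ j, ((if s j = i then ((n (t j) : ℤ) : ZMod 2) + 1 else 0) +
            (if t j = i then -(((n (s j) : ℤ) : ZMod 2) + 1) else 0)) =
            ((if s j = i then x (t j) else 0) + (if t j = i then x (s j) else 0)) := by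
          intro j
          rw [hncast, hncast]
          have h5 : ∀ y : ZMod 2, 1 + y + 1 = y := by decide
          have h6 : ∀ y : ZMod 2, -(1 + y + 1) = y := by decide
          rw [h5, h6]
        rw [Finset.sum_congr rfl fun j _ => h4 j, hncast]
        have h7 := hx' i
        have h8 : ∀ u v w : ZMod 2, u + v * w = v → u + v * (1 + w) = 0 := by decide
        exact h8 _ _ _ h7
      exact (ZMod.intCast_zmod_eq_zero_iff_dvd (S i) 2).1 h3
    exact dvd_sub (dvd_refl _) h2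
  choose c hc using hSe
  obtain ⟨e, he⟩ := WuC_choice s t hst hne
  refine ⟨n, fun j => if e (s j) = j then c (s j) else 0,
    fun j => -(if e (t j) = j then c (t j) else 0), fun i => ?_⟩
  have h1 := he i (2 * c i)
  have h2 : (∑ j, ((if s j = i then 2 * (if e (s j) = j then c (s j) else 0) + n (t j) + 1
      else 0) + (if t j = i then
        -(2 * -(if e (t j) = j then c (t j) else 0) + n (s j) + 1) else 0))) =
      (∑ j, ((if s j = i ∧ e (s j) = j then 2 * c i else 0) +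
        (if t j = i ∧ e (t j) = j then 2 * c i else 0))) +
      ∑ j, ((if s j = i then n (t j) + 1 else 0) +
        (if t j = i then -(n (s j) + 1) else 0)) := by
    rw [← Finset.sum_add_distrib]
    refine Finset.sum_congr rfl fun j _ => ?_
    have h3 : (if s j = i then 2 * (if e (s j) = j then c (s j) else 0) + n (t j) + 1
        else 0) = (if s j = i ∧ e (s j) = j then 2 * c i else 0) +
        (if s j = i then n (t j) + 1 else 0) := by
      by_cases h : s j = i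
      · subst h
        by_cases h' : e (s j) = j
        · simp [h']; ring
        · simp [h']
      · simp [h]
    have h4 : (if t j = i then -(2 * -(if e (t j) = j then c (t j) else 0) + n (s j) + 1)
        else 0) = (if t j = i ∧ e (t j) = j then 2 * c i else 0) +
        (if t j = i then -(n (s j) + 1) else 0) := by
      by_cases h : t j = i
      · subst h
        by_cases h' : e (t j) = j
        · simp [h']; ring
        · simp [h']
      · simp [h]
    rw [h3, h4]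
    ring
  rw [h2, h1]
  have h5 := hc i
  simp only [hS] at h5
  linarith

/-- Half twists at the nodes of odd weight. -/
theorem flip_exists (s t : Fin m → Fin p) (hst : ∀ j, s j ≠ t j)
    (hne : ∀ i, (inc s t i).Nonempty) (a : Fin p → ℤ) :
    ∃ f f' : Fin m → Bool, ∀ i,
      2 ∣ (∑ j, ((if s j = i ∧ f j = true then (1 : ℤ) else 0) +
        (if t j = i ∧ f' j = true then 1 else 0))) - a i := by
  classical
  obtain ⟨e, he⟩ := WuC_choice s t hst hne
  refine ⟨fun j => decide (e (s j) = j ∧ a (s j) % 2 = 1),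
    fun j => decide (e (t j) = j ∧ a (t j) % 2 = 1), fun i => ?_⟩
  have h1 : (∑ j, ((if s j = i ∧ decide (e (s j) = j ∧ a (s j) % 2 = 1) = true
      then (1 : ℤ) else 0) +
        (if t j = i ∧ decide (e (t j) = j ∧ a (t j) % 2 = 1) = true then 1 else 0))) =
      a i % 2 := by
    rw [← he i (a i % 2)]
    refine Finset.sum_congr rfl fun j _ => ?_
    have h2 : a i % 2 = 0 ∨ a i % 2 = 1 := by omega
    congr 1
    · by_cases h : s j = i
      · subst h
        by_cases h' : e (s j) = j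
        · rcases h2 with h2 | h2 <;> simp [h', h2]
        · simp [h']
      · simp [h]
    · by_cases h : t j = i
      · subst h
        by_cases h' : e (t j) = j
        · rcases h2 with h2 | h2 <;> simp [h', h2]
        · simp [h']
      · simp [h]
  rw [h1]
  omega

end Pool.Agent.H63.VC7

end

section

/-! # The real part of `ff` and the Bloch-Wigner dilogarithm -/

namespace Pool.Agent.H63.VC3

open Pool.Agent.H63.VC Complex

theorem BWff_circle_aux (t : ℝ) (ht : t ∈ Set.Icc 0 Real.pi) :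
    blochWigner (exp (t * I)) = 2 * lob (t / 2) := by
  set H : ℝ → ℝ := fun s => blochWigner (exp (s * I)) - 2 * lob (s / 2) with hH
  have hcont : ContinuousOn H (Set.Icc 0 Real.pi) := by
    apply Continuous.continuousOn
    apply Continuous.sub
    · exact SWpath_continuous.comp (by fun_prop)
    · exact continuous_const.mul (volA_lob_continuous.comp (by fun_prop))
  have hder : ∀ s ∈ Set.Ico (0 : ℝ) Real.pi, 0 < s → HasDerivAt H 0 s := by
    intro s hs hs0
    have h1 := SWpath_circle_deriv s ⟨hs0, hs.2⟩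
    have hsin : 0 < Real.sin (s / 2) :=
      Real.sin_pos_of_pos_of_lt_pi (by linarith only [hs0]) (by have := hs.2; linarith only [hs0, this])
    have h2 := volA_lob_hasDerivAt (s / 2) hsin.ne'
    have h3 : HasDerivAt (fun s : ℝ => s / 2) (1 / 2) s := (hasDerivAt_id s).div_const 2
    have h4 := (HasDerivAt.comp s h2 h3).const_mul 2
    have h5 := h1.sub h4
    refine HasDerivAt.congr_deriv (f := H) h5 ?_
    rw [abs_of_pos (by positivity)]
    ring
  have hH0 : H 0 = 0 := by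
    have b1 := blochWigner_real 1
    rw [Complex.ofReal_one] at b1
    simp [hH, b1, volA_lob_zero]
  have key : H t = H 0 := by
    have h1 := MeasureTheory.integral_eq_of_hasDerivAt_off_countable_of_le H (fun _ => (0 : ℝ))
      (s := ∅) ht.1 Set.countable_empty (hcont.mono (Set.Icc_subset_Icc_right ht.2))
      (fun s hs => hder s ⟨hs.1.1.le, lt_of_lt_of_le hs.1.2 ht.2⟩ hs.1.1) (by simp)
    rw [intervalIntegral.integral_zero] at h1
    linarith only [h1]
  rw [hH0] at key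
  simp only [hH] at key
  linarith only [key]

theorem BWff_circle (a : ℝ) (h0 : 0 < a) (h1 : a < 1) :
    blochWigner (exp (2 * Real.pi * I * a)) = 2 * lob (Real.pi * a) := by
  have hpi := Real.pi_pos
  rcases le_or_gt a (1 / 2) with h | h
  · have e : (2 * Real.pi * I * a : ℂ) = ((2 * Real.pi * a : ℝ) : ℂ) * I := by
      push_cast; ring
    rw [e, BWff_circle_aux _ ⟨by positivity, by nlinarith only [h0, h1, hpi, h]⟩]
    congr 2
    ring
  · have e : exp (2 * Real.pi * I * a : ℂ) =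
        (starRingEnd ℂ) (exp (((2 * Real.pi * (1 - a) : ℝ) : ℂ) * I)) := by
      rw [← Complex.exp_conj, map_mul, Complex.conj_ofReal, Complex.conj_I, Complex.exp_eq_exp_iff_exists_int]
      refine ⟨1, ?_⟩
      push_cast
      ring
    rw [e, bw_conj, BWff_circle_aux _ ⟨by nlinarith only [h1, hpi], by nlinarith only [h0, h1, hpi, h]⟩]
    have e2 : 2 * Real.pi * (1 - a) / 2 = -(Real.pi * a) + Real.pi := by ring
    rw [e2, volA_lob_add_pi, volA_lob_neg]
    ring

/-- The derivative of `D (exp (2 π i (a + i b)))` in `b`. -/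
theorem BWff_deriv (a b : ℝ) (h0 : 0 < a) (h1 : a < 1) :
    HasDerivAt (fun s : ℝ => blochWigner (exp (2 * Real.pi * I * (a + s * I))))
      (-(2 * Real.pi * b) * (Real.pi * Complex.cot (Real.pi * (a + b * I))).re) b := by
  have hpi := Real.pi_pos
  set z : ℂ := a + b * I with hz
  have hsin : Complex.sin (Real.pi * z) ≠ 0 := by
    intro h
    rw [Complex.sin_eq_zero_iff] at h
    obtain ⟨k, hk⟩ := h
    have h2 := congrArg Complex.re hk
    have h3 : (Real.pi * z : ℂ).re = Real.pi * a := by simp [hz]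
    have h4 : ((k : ℂ) * Real.pi).re = k * Real.pi := by simp
    rw [h3, h4] at h2
    have h5 : a = k := by
      have : Real.pi * (a - k) = 0 := by linarith only [h2]
      rcases mul_eq_zero.1 this with h6 | h6
      · exact absurd h6 hpi.ne'
      · linarith only [h6]
    rw [h5] at h0 h1
    have h6 : (0 : ℤ) < k := by exact_mod_cast h0
    have h7 : k < 1 := by exact_mod_cast h1
    omega
  set ζ : ℂ := exp (2 * Real.pi * I * z) with hζ
  have hζ0 : ζ ≠ 0 := Complex.exp_ne_zero _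
  -- `1 - ζ = -2 i sin (π z) e^{π i z}`
  have h1ζ : 1 - ζ = -2 * I * Complex.sin (Real.pi * z) * exp (Real.pi * z * I) := by
    have e1 : ζ = exp (Real.pi * z * I) * exp (Real.pi * z * I) := by
      rw [hζ, ← Complex.exp_add]
      congr 1
      ring
    have e2 : exp (-(Real.pi * z) * I) * exp (Real.pi * z * I) = 1 := by
      rw [← Complex.exp_add]
      simp
    rw [Complex.sin, e1]
    linear_combination (-1 : ℂ) * e2 +
      (exp (-(Real.pi * z) * I) * exp (Real.pi * z * I) - exp (Real.pi * z * I) * exp (Real.pi * z * I)) * I_sq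
  have h1ζ0 : 1 - ζ ≠ 0 := by
    rw [h1ζ]
    exact mul_ne_zero (mul_ne_zero (mul_ne_zero (by norm_num) I_ne_zero) hsin)
      (Complex.exp_ne_zero _)
  -- the cotangent
  have hcot : Complex.cot (Real.pi * z) = -I * (1 + 2 * (ζ / (1 - ζ))) := by
    have e1 : ζ = exp (Real.pi * z * I) * exp (Real.pi * z * I) := by
      rw [hζ, ← Complex.exp_add]
      congr 1
      ring
    have e2 : exp (-(Real.pi * z) * I) * exp (Real.pi * z * I) = 1 := by
      rw [← Complex.exp_add]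
      simp
    have e3 : 1 + ζ = 2 * Complex.cos (Real.pi * z) * exp (Real.pi * z * I) := by
      rw [Complex.cos, e1]
      linear_combination (-1 : ℂ) * e2
    have e4 : 1 + 2 * (ζ / (1 - ζ)) = (1 + ζ) / (1 - ζ) := by
      field_simp
      ring
    rw [e4, e3, h1ζ, Complex.cot_eq_cos_div_sin]
    have e5 := Complex.exp_ne_zero (Real.pi * z * I)
    have e6 := I_ne_zero
    field_simp
  have hd : HasDerivAt (fun s : ℝ => exp (2 * Real.pi * I * (a + s * I))) (-(2 * Real.pi) * ζ) b := by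
    have h2 : HasDerivAt (fun s : ℝ => (s : ℂ)) 1 b := (hasDerivAt_id b).ofReal_comp
    have h3 : HasDerivAt (fun s : ℝ => 2 * Real.pi * I * (a + s * I)) (-(2 * Real.pi)) b := by
      have h4 := ((h2.mul_const I).const_add (a : ℂ)).const_mul (2 * Real.pi * I)
      refine h4.congr_deriv ?_
      linear_combination (2 * Real.pi : ℂ) * I_sq
    have h4 := h3.cexp
    refine h4.congr_deriv ?_
    rw [mul_comm]
  have hre : (Real.pi * Complex.cot (Real.pi * z)).re = 2 * Real.pi * (ζ / (1 - ζ)).im := by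
    rw [hcot]
    have e : (-I * (1 + 2 * (ζ / (1 - ζ)))).re = 2 * (ζ / (1 - ζ)).im := by
      simp [Complex.mul_re]
    rw [Complex.re_ofReal_mul, e]
    ring
  by_cases him : ζ.im = 0
  · -- `ζ` is real: then `sin (2 π a) = 0` and everything vanishes
    have hs : Real.sin (2 * Real.pi * a) = 0 := by
      have e : ζ.im = Real.exp (-(2 * Real.pi * b)) * Real.sin (2 * Real.pi * a) := by
        rw [hζ, Complex.exp_im]
        congr 2
        · simp [hz]
        · simp [hz]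
      rw [e] at him
      rcases mul_eq_zero.1 him with h2 | h2
      · exact absurd h2 (Real.exp_ne_zero _)
      · exact h2
    have hall : ∀ s : ℝ, blochWigner (exp (2 * Real.pi * I * (a + s * I))) = 0 := by
      intro s
      have e : exp (2 * Real.pi * I * (a + s * I)) =
          ((exp (2 * Real.pi * I * (a + s * I))).re : ℂ) := by
        apply Complex.ext
        · simp
        · rw [Complex.ofReal_im, Complex.exp_im]
          have e2 : (2 * Real.pi * I * (a + s * I) : ℂ).im = 2 * Real.pi * a := by simp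
          rw [e2, hs, mul_zero]
      rw [e]
      exact blochWigner_real _
    have h2 : (ζ / (1 - ζ)).im = 0 := by
      have e : ζ / (1 - ζ) = ((ζ.re / (1 - ζ.re) : ℝ) : ℂ) := by
        have e2 : ζ = (ζ.re : ℂ) := by
          apply Complex.ext
          · simp
          · simp [him]
        push_cast
        rw [← e2]
      rw [e, Complex.ofReal_im]
    rw [hre, h2, mul_zero, mul_zero]
    refine (hasDerivAt_const b (0 : ℝ)).congr_of_eventuallyEq ?_
    exact Filter.Eventually.of_forall fun s => hall s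
  · have h2 := blochWigner_hasDerivAt _ _ b hd him
    refine h2.congr_deriv ?_
    rw [← hz, ← hζ, hre]
    have e1 : (-(2 * Real.pi) * ζ / ζ : ℂ) = ((-(2 * Real.pi) : ℝ) : ℂ) := by
      field_simp
      push_cast
      ring
    have e2 : (-(-(2 * Real.pi) * ζ) / (1 - ζ)).im = 2 * Real.pi * (ζ / (1 - ζ)).im := by
      have e3 : (-(-(2 * Real.pi) * ζ) / (1 - ζ) : ℂ) = ((2 * Real.pi : ℝ) : ℂ) * (ζ / (1 - ζ)) := by
        push_cast
        ring
      rw [e3, Complex.im_ofReal_mul]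
    have e3 : Real.log ‖ζ‖ = -(2 * Real.pi * b) := by
      rw [hζ, Complex.norm_exp, Real.log_exp]
      simp [hz]
    rw [e1, Complex.ofReal_im, e2, e3]
    ring

theorem ff_re_bw (z : ℂ) (h0 : 0 < z.re) (h1 : z.re < 1) :
    2 * Real.pi * (ff z).re = -blochWigner (exp (2 * Real.pi * I * z)) -
      2 * Real.pi * z.im * (hh z).im := by
  have hpi := Real.pi_pos
  set a : ℝ := z.re with ha
  set G : ℝ → ℝ := fun b => 2 * Real.pi * (ff (a + b * I)).re +
    blochWigner (exp (2 * Real.pi * I * (a + b * I))) + 2 * Real.pi * b * (hh (a + b * I)).im with hG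
  have hre : ∀ b : ℝ, ((a : ℂ) + b * I).re = a := by intro b; simp
  have hpath : ∀ b : ℝ, HasDerivAt (fun s : ℝ => (a : ℂ) + s * I) I b := by
    intro b
    have h2 : HasDerivAt (fun s : ℝ => (s : ℂ)) 1 b := (hasDerivAt_id b).ofReal_comp
    have h3 := (h2.mul_const I).const_add (a : ℂ)
    simpa using h3
  have hder : ∀ b : ℝ, HasDerivAt G 0 b := by
    intro b
    have hf := (ff_hasDerivAt (a + b * I) (by rw [hre]; exact h0) (by rw [hre]; exact h1))
    have hf' : HasDerivAt (fun s : ℝ => ff (a + s * I)) (hh (a + b * I) * I) b :=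
      HasDerivAt.comp (𝕜 := ℝ) (𝕜' := ℂ) (h₂ := ff) (h := fun s : ℝ => (a : ℂ) + s * I) b hf
        (hpath b)
    have hh1 := (hh_hasDerivAt (a + b * I) (by rw [hre]; exact h0) (by rw [hre]; exact h1))
    have hh' : HasDerivAt (fun s : ℝ => hh (a + s * I))
        (Real.pi * Complex.cot (Real.pi * (a + b * I)) * I) b :=
      HasDerivAt.comp (𝕜 := ℝ) (𝕜' := ℂ) (h₂ := hh) (h := fun s : ℝ => (a : ℂ) + s * I) b hh1
        (hpath b)
    have d1 : HasDerivAt (fun s : ℝ => (ff (a + s * I)).re) ((hh (a + b * I) * I).re) b := by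
      have := Complex.reCLM.hasFDerivAt.comp_hasDerivAt b hf'
      simpa [Function.comp_def] using this
    have d2 : HasDerivAt (fun s : ℝ => (hh (a + s * I)).im)
        ((Real.pi * Complex.cot (Real.pi * (a + b * I)) * I).im) b := by
      have := Complex.imCLM.hasFDerivAt.comp_hasDerivAt b hh'
      simpa [Function.comp_def] using this
    have d3 := BWff_deriv a b h0 h1
    have d4 := ((hasDerivAt_id b).const_mul (2 * Real.pi)).mul d2
    have d5 := ((d1.const_mul (2 * Real.pi)).add d3).add d4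
    refine HasDerivAt.congr_deriv (f := G) d5 ?_
    simp only [Complex.mul_I_re, Complex.mul_I_im, id, mul_one]
    ring
  have hconst : ∀ b, G b = G 0 := by
    intro b
    exact is_const_of_deriv_eq_zero (fun s => (hder s).differentiableAt)
      (fun s => (hder s).deriv) b 0
  have hG0 : G 0 = 0 := by
    simp only [hG, Complex.ofReal_zero, zero_mul, add_zero, mul_zero]
    rw [ff_real a h0 h1, BWff_circle a h0 h1, Complex.ofReal_re, Fr]
    field_simp
    ring
  have h2 := hconst z.im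
  rw [hG0] at h2
  simp only [hG] at h2
  have e : (a : ℂ) + z.im * I = z := Complex.re_add_im z
  rw [e] at h2
  linarith only [h2]

end Pool.Agent.H63.VC3

end

section

/-! # The volume of a block -/

namespace Pool.Agent.H63.VC7

open Pool.Agent.H63.VC
open Pool.Agent.H63.VC3 Complex

private theorem VolBlock_id1 (a b : ℂ) :
    cos a + I * sin (a + b) * exp (I * b) = exp (I * (a + b)) * cos b := by
  have h1 : exp (-(I * a)) * exp (I * a) = 1 := by rw [← exp_add]; simp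
  have h2 : exp (-(I * b)) * exp (I * b) = 1 := by rw [← exp_add]; simp
  have ea : cos a = (exp (I * a) + exp (-(I * a))) / 2 := by
    rw [Complex.cos]; congr 3 <;> ring
  have eb : cos b = (exp (I * b) + exp (-(I * b))) / 2 := by
    rw [Complex.cos]; congr 3 <;> ring
  have eab : sin (a + b) = (exp (-(I * a)) * exp (-(I * b)) - exp (I * a) * exp (I * b)) * I / 2 := by
    rw [Complex.sin, ← exp_add, ← exp_add]; congr 4 <;> ring
  have e3 : exp (I * (a + b)) = exp (I * a) * exp (I * b) := by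
    rw [← exp_add]; congr 1; ring
  rw [ea, eb, eab, e3]
  have hI : I * I = -1 := Complex.I_mul_I
  linear_combination (exp (-(I * a)) * exp (-(I * b)) - exp (I * a) * exp (I * b)) *
    exp (I * b) / 2 * hI - (exp (-(I * a)) + exp (I * a)) / 2 * h2

private theorem VolBlock_id2 (a b : ℂ) :
    cos a - I * exp (-(I * b)) * sin (a + b) = exp (-(I * (a + b))) * cos b := by
  have h1 : exp (-(I * a)) * exp (I * a) = 1 := by rw [← exp_add]; simp
  have h2 : exp (-(I * b)) * exp (I * b) = 1 := by rw [← exp_add]; simp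
  have ea : cos a = (exp (I * a) + exp (-(I * a))) / 2 := by
    rw [Complex.cos]; congr 3 <;> ring
  have eb : cos b = (exp (I * b) + exp (-(I * b))) / 2 := by
    rw [Complex.cos]; congr 3 <;> ring
  have eab : sin (a + b) = (exp (-(I * a)) * exp (-(I * b)) - exp (I * a) * exp (I * b)) * I / 2 := by
    rw [Complex.sin, ← exp_add, ← exp_add]; congr 4 <;> ring
  have e3 : exp (-(I * (a + b))) = exp (-(I * a)) * exp (-(I * b)) := by
    rw [← exp_add]; congr 1; ring
  rw [ea, eb, eab, e3]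
  have hI : I * I = -1 := Complex.I_mul_I
  linear_combination -(exp (-(I * a)) * exp (-(I * b)) - exp (I * a) * exp (I * b)) *
    exp (-(I * b)) / 2 * hI - (exp (-(I * a)) + exp (I * a)) / 2 * h2

private theorem VolBlock_neg_inv (z : ℂ) :
    blochWigner (1 / (1 + z)) = blochWigner (-z) := by
  rw [one_div, SWpath_inv, show (1 : ℂ) + z = 1 - -z by ring, SWpath_one_sub, neg_neg]

/-- Two tetrahedra glued along a face. -/
theorem vol_pair (y v : ℂ) (hy : cos (Real.pi * y) ≠ 0) (hv : cos (Real.pi * v) ≠ 0)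
    (h : sin (Real.pi * (y + v)) ≠ 0) :
    blochWigner (sX y v) + blochWigner (sY y v) =
    blochWigner (exp (2 * Real.pi * I * (y + v))) - blochWigner (-exp (2 * Real.pi * I * y)) -
      blochWigner (-exp (2 * Real.pi * I * v)) := by
  have hI : I * I = -1 := Complex.I_mul_I
  have hI0 : I ≠ 0 := Complex.I_ne_zero
  set a : ℂ := Real.pi * y with ha
  set b : ℂ := Real.pi * v with hb
  have hab : (Real.pi : ℂ) * (y + v) = a + b := by rw [ha, hb]; ring
  rw [hab] at h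
  set c := cos a with hc
  set d := cos b with hd
  set s := sin (a + b) with hs
  have eE : exp (I * (a + b)) = exp (I * a) * exp (I * b) := by
    rw [← exp_add]; congr 1; ring
  have i1 := VolBlock_id1 a b
  have i1' : d + I * s * exp (I * a) = exp (I * (a + b)) * c := by
    have := VolBlock_id1 b a
    rw [add_comm b a] at this
    exact this
  have i2 := VolBlock_id2 a b
  rw [← hc, ← hs, ← hd] at i1 i2
  rw [eE] at i1 i1'
  have eneg : exp (-(I * (a + b))) = (exp (I * a) * exp (I * b))⁻¹ := by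
    rw [← eE, exp_neg]
  have enegb : exp (-(I * b)) = (exp (I * b))⁻¹ := exp_neg _
  rw [eneg] at i2
  have sXe : sX y v = I * (exp (I * b))⁻¹ * c / s := by
    rw [sX, hab, ← enegb, hb]
    congr 4
    ring
  have sYe : sY y v = I * (exp (I * b))⁻¹ * s / c := by
    rw [sY, hab, ← enegb, hb]
    congr 4
    ring
  rw [enegb] at i2
  have e1 : exp (2 * Real.pi * I * (y + v)) = (exp (I * a) * exp (I * b)) ^ 2 := by
    rw [← eE, ← exp_nat_mul, ha, hb]; congr 1; push_cast; ring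
  have e2 : exp (2 * Real.pi * I * y) = exp (I * a) ^ 2 := by
    rw [← exp_nat_mul, ha]; congr 1; push_cast; ring
  have e3 : exp (2 * Real.pi * I * v) = exp (I * b) ^ 2 := by
    rw [← exp_nat_mul, hb]; congr 1; push_cast; ring
  have ec : 2 * c * exp (I * a) = 1 + exp (I * a) ^ 2 := by
    have h1 : exp (-(I * a)) * exp (I * a) = 1 := by rw [← exp_add]; simp
    have ea : c = (exp (I * a) + exp (-(I * a))) / 2 := by
      rw [hc, Complex.cos]; congr 3 <;> ring
    rw [ea]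
    linear_combination h1
  have ed : 2 * d * exp (I * b) = 1 + exp (I * b) ^ 2 := by
    have h1 : exp (-(I * b)) * exp (I * b) = 1 := by rw [← exp_add]; simp
    have eb : d = (exp (I * b) + exp (-(I * b))) / 2 := by
      rw [hd, Complex.cos]; congr 3 <;> ring
    rw [eb]
    linear_combination h1
  rw [sXe, sYe, e1, e2, e3]
  have hA0 : exp (I * a) ≠ 0 := exp_ne_zero _
  have hB0 : exp (I * b) ≠ 0 := exp_ne_zero _
  generalize exp (I * a) = A at *
  generalize exp (I * b) = B at *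
  clear_value a b c d s
  have es : 1 - (A * B) ^ 2 = -2 * I * s * (A * B) := by
    have hc' : c = (1 + A ^ 2) / (2 * A) := by
      rw [eq_div_iff (by simpa using hA0)]; linear_combination ec
    have hd' : d = (1 + B ^ 2) / (2 * B) := by
      rw [eq_div_iff (by simpa using hB0)]; linear_combination ed
    rw [hc', hd'] at i1
    field_simp at i1
    linear_combination i1
  have hne : (A * B) ^ 2 ≠ 1 := by
    intro h1
    rw [h1, sub_self] at es
    have : -2 * I * s * (A * B) ≠ 0 :=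
      mul_ne_zero (mul_ne_zero (mul_ne_zero (by norm_num) hI0) h) (mul_ne_zero hA0 hB0)
    exact this es.symm
  have hD : -2 * I * s * (A * B) ≠ 0 :=
    mul_ne_zero (mul_ne_zero (mul_ne_zero (by norm_num) hI0) h) (mul_ne_zero hA0 hB0)
  have hXY : (A * B * d / c) * (A * B * c / d) = (A * B) ^ 2 := by
    field_simp
  have five := five_term (A * B * d / c) (A * B * c / d) (by rw [hXY]; exact hne)
  rw [hXY] at five
  have X1 : (A * B * d / c) = 1 - (I * B⁻¹ * c / s)⁻¹ := by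
    have : (I * B⁻¹ * c / s)⁻¹ = -(I * s * B / c) := by
      rw [inv_eq_iff_eq_inv, eq_comm, inv_eq_iff_eq_inv]
      field_simp
      linear_combination (-1 : ℂ) * hI
    rw [this, sub_neg_eq_add, div_eq_iff hy, add_mul, one_mul, div_mul_cancel₀ _ hy]
    linear_combination -i1
  have Y1 : (A * B * c / d) = (1 - (I * B⁻¹ * s / c))⁻¹ := by
    have : 1 - (I * B⁻¹ * s / c) = (A * B)⁻¹ * d / c := by
      rw [eq_div_iff hy, sub_mul, div_mul_cancel₀ _ hy, one_mul]
      linear_combination i2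
    rw [this]
    field_simp
  have X2 : (1 - A * B * d / c) / (1 - (A * B) ^ 2) = 1 / (1 + A ^ 2) := by
    have : 1 - A * B * d / c = -(I * s * B) / c := by
      rw [eq_div_iff hy, sub_mul, div_mul_cancel₀ _ hy, one_mul]
      linear_combination i1
    rw [this, es, ← ec]
    field_simp
  have Y2 : (1 - A * B * c / d) / (1 - (A * B) ^ 2) = 1 / (1 + B ^ 2) := by
    have : 1 - A * B * c / d = -(I * s * A) / d := by
      rw [eq_div_iff hv, sub_mul, div_mul_cancel₀ _ hv, one_mul]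
      linear_combination i1'
    rw [this, es, ← ed]
    field_simp
  rw [X2, Y2, VolBlock_neg_inv, VolBlock_neg_inv, X1, Y1, SWpath_one_sub, SWpath_one_sub,
    SWpath_inv, SWpath_inv, SWpath_one_sub] at five
  linarith only [five]

private theorem VolBlock_cos_ne {z : ℂ} (h : |z.re| < 1 / 2) : cos (Real.pi * z) ≠ 0 := by
  intro h0
  rw [Complex.cos_eq_zero_iff] at h0
  obtain ⟨k, hk⟩ := h0
  have hpi : (Real.pi : ℂ) ≠ 0 := by exact_mod_cast Real.pi_ne_zero
  have e : z = (2 * k + 1) / 2 := by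
    apply mul_left_cancel₀ hpi
    rw [hk]; ring
  have er : z.re = (2 * (k : ℝ) + 1) / 2 := by
    rw [e]
    have : ((2 * (k : ℂ) + 1) / 2) = (((2 * (k : ℝ) + 1) / 2 : ℝ) : ℂ) := by push_cast; ring
    rw [this, Complex.ofReal_re]
  rw [er, abs_lt] at h
  have h1 : (-1 : ℝ) < (k : ℝ) := by linarith only [h, h.1]
  have h2 : (k : ℝ) < 0 := by linarith only [h, h.2]
  have h3 : (-1 : ℤ) < k := by exact_mod_cast h1
  have h4 : k < 0 := by exact_mod_cast h2
  omega

private theorem VolBlock_sin_ne {z : ℂ} (h0 : 0 < z.re) (h1 : z.re < 1) :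
    sin (Real.pi * z) ≠ 0 := by
  have e : sin (Real.pi * z) = cos (Real.pi * (1 / 2 - z)) := by
    rw [show (Real.pi : ℂ) * (1 / 2 - z) = Real.pi / 2 - Real.pi * z by ring,
      Complex.cos_pi_div_two_sub]
  rw [e]
  apply VolBlock_cos_ne
  rw [Complex.sub_re, abs_lt]
  have : (1 / 2 : ℂ).re = 1 / 2 := by
    rw [show (1 / 2 : ℂ) = ((1 / 2 : ℝ) : ℂ) by push_cast; ring, Complex.ofReal_re]
  rw [this]
  constructor <;> linarith only [h1, h0]

private theorem VolBlock_pair' {y v : ℂ} (hy : ‖y - 1 / 4‖ ≤ 6 / 1000)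
    (hv : |v.re| ≤ 53 / 1000) :
    blochWigner (sX y v) + blochWigner (sY y v) =
    blochWigner (exp (2 * Real.pi * I * (y + v))) - blochWigner (-exp (2 * Real.pi * I * y)) -
      blochWigner (-exp (2 * Real.pi * I * v)) := by
  have h1 : |(y - 1 / 4).re| ≤ 6 / 1000 := (Complex.abs_re_le_norm _).trans hy
  have h2 : (y - 1 / 4).re = y.re - 1 / 4 := by
    rw [Complex.sub_re, show (1 / 4 : ℂ) = ((1 / 4 : ℝ) : ℂ) by push_cast; ring,
      Complex.ofReal_re]
  rw [h2, abs_le] at h1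
  rw [abs_le] at hv
  apply vol_pair
  · apply VolBlock_cos_ne
    rw [abs_lt]; constructor <;> linarith only [h1, h1.1, h1.2]
  · apply VolBlock_cos_ne
    rw [abs_lt]; constructor <;> linarith only [hv, hv.1, hv.2]
  · apply VolBlock_sin_ne
    · rw [Complex.add_re]; linarith only [hv, h1, h1.1, hv.1]
    · rw [Complex.add_re]; linarith only [hv, h1, h1.2, hv.2]

private theorem VolBlock_neg_exp (v : ℂ) :
    blochWigner (-exp (2 * Real.pi * I * (-v))) = -blochWigner (-exp (2 * Real.pi * I * v)) := by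
  rw [← SWpath_inv]
  congr 1
  rw [inv_neg, ← exp_neg]
  congr 2
  ring

theorem vol_block {y v w : ℂ} (h : Loc7 y v w) :
    ∑ k, (blochWigner (shx y v w k) + blochWigner (shy y v w k)) =
      blochWigner (exp (2 * Real.pi * I * (y - v))) +
      blochWigner (exp (2 * Real.pi * I * (y + v))) +
      blochWigner (exp (2 * Real.pi * I * (y - w))) +
      blochWigner (exp (2 * Real.pi * I * (y + w))) -
      4 * blochWigner (-exp (2 * Real.pi * I * y)) := by
  have hnv : |(-v).re| ≤ 53 / 1000 := by rw [Complex.neg_re, abs_neg]; exact h.hv.1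
  have hnw : |(-w).re| ≤ 53 / 1000 := by rw [Complex.neg_re, abs_neg]; exact h.hw.1
  have p1 := VolBlock_pair' h.hy h.hv.1
  have p2 := VolBlock_pair' h.hy hnw
  have p3 := VolBlock_pair' h.hy h.hw.1
  have p4 := VolBlock_pair' h.hy hnv
  rw [VolBlock_neg_exp, ← sub_eq_add_neg] at p2 p4
  rw [Fin.sum_univ_four]
  have e0 : shx y v w 0 = sX y v := rfl
  have e1 : shx y v w 1 = sX y (-w) := rfl
  have e2 : shx y v w 2 = sX y w := rfl
  have e3 : shx y v w 3 = sX y (-v) := rfl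
  have f0 : shy y v w 0 = sY y v := rfl
  have f1 : shy y v w 1 = sY y (-w) := rfl
  have f2 : shy y v w 2 = sY y w := rfl
  have f3 : shy y v w 3 = sY y (-v) := rfl
  rw [e0, e1, e2, e3, f0, f1, f2, f3]
  linarith only [p1, p2, p3, p4]

end Pool.Agent.H63.VC7

end
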