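import Pool.Agent.H94.PA.M04
import Pool.Agent.H94.PA.M09

/-! The parts of this file: H63.VC3.Tube, H63.VC4.ConcN, H63.VC6.Horiz. -/

section

/-! # Convexity of `ff` in the strip -/

namespace Pool.Agent.H63.VC3

open Pool.Agent.H63.VC Complex

theorem Tube_taylor_pos (f f' f'' : ℝ → ℝ) (t L : ℝ) (ht : 0 ≤ t)
    (hf : ∀ s ∈ Set.Icc 0 t, HasDerivAt f (f' s) s)
    (hf' : ∀ s ∈ Set.Icc 0 t, HasDerivAt f' (f'' s) s) (hL : ∀ s ∈ Set.Icc 0 t, L ≤ f'' s) :
    f 0 + f' 0 * t + L / 2 * t ^ 2 ≤ f t := by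
  have mono : ∀ g g' : ℝ → ℝ, (∀ s ∈ Set.Icc 0 t, HasDerivAt g (g' s) s) →
      (∀ s ∈ Set.Icc 0 t, 0 ≤ g' s) → MonotoneOn g (Set.Icc 0 t) := by
    intro g g' h1 h2
    refine monotoneOn_of_deriv_nonneg (convex_Icc 0 t)
      (fun s hs => (h1 s hs).continuousAt.continuousWithinAt)
      (fun s hs => (h1 s (interior_subset hs)).differentiableAt.differentiableWithinAt)
      (fun s hs => ?_)
    rw [(h1 s (interior_subset hs)).deriv]
    exact h2 s (interior_subset hs)
  have m1 := mono (fun s => f' s - L * s) (fun s => f'' s - L) (fun s hs => by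
      have h := (hf' s hs).sub ((hasDerivAt_id s).const_mul L)
      exact h.congr_deriv (by simp)) (fun s hs => by linarith [hL s hs])
  have m2 := mono (fun s => f s - f' 0 * s - L / 2 * s ^ 2) (fun s => f' s - f' 0 - L * s)
    (fun s hs => by
      have h := ((hf s hs).sub ((hasDerivAt_id s).const_mul (f' 0))).sub
        (((hasDerivAt_id s).pow 2).const_mul (L / 2))
      exact h.congr_deriv (by simp; ring)) (fun s hs => by
      have h := m1 (Set.left_mem_Icc.2 ht) hs hs.1
      simp only [mul_zero, sub_zero] at h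
      linarith)
  have h := m2 (Set.left_mem_Icc.2 ht) (Set.right_mem_Icc.2 ht) ht
  simp only [mul_zero, sub_zero, ne_eq, OfNat.ofNat_ne_zero, not_false_eq_true, zero_pow] at h
  linarith only [h]

theorem Tube_taylor (f f' f'' : ℝ → ℝ) (t L : ℝ)
    (hf : ∀ s ∈ Set.uIcc 0 t, HasDerivAt f (f' s) s)
    (hf' : ∀ s ∈ Set.uIcc 0 t, HasDerivAt f' (f'' s) s) (hL : ∀ s ∈ Set.uIcc 0 t, L ≤ f'' s) :
    f 0 + f' 0 * t + L / 2 * t ^ 2 ≤ f t := by
  rcases le_total 0 t with ht | ht
  · rw [Set.uIcc_of_le ht] at hf hf' hL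
    exact Tube_taylor_pos f f' f'' t L ht hf hf' hL
  · rw [Set.uIcc_of_ge ht] at hf hf' hL
    have hm : ∀ s ∈ Set.Icc 0 (-t), -s ∈ Set.Icc t 0 := fun s hs =>
      ⟨by linarith [hs.2], by linarith [hs.1]⟩
    have h := Tube_taylor_pos (fun s => f (-s)) (fun s => -f' (-s)) (fun s => f'' (-s)) (-t) L
      (by linarith) (fun s hs => by
        have h := HasDerivAt.scomp s (hf (-s) (hm s hs)) (hasDerivAt_neg s)
        exact h.congr_deriv (by simp)) (fun s hs => by
        have h := (HasDerivAt.scomp s (hf' (-s) (hm s hs)) (hasDerivAt_neg s)).neg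
        exact h.congr_deriv (by simp)) (fun s hs => hL (-s) (hm s hs))
    simp only [neg_zero, neg_neg] at h
    linarith only [h, neg_mul_neg (f' 0) t, neg_sq t]

theorem Tube_taylor' (f f' f'' : ℝ → ℝ) (t U : ℝ)
    (hf : ∀ s ∈ Set.uIcc 0 t, HasDerivAt f (f' s) s)
    (hf' : ∀ s ∈ Set.uIcc 0 t, HasDerivAt f' (f'' s) s) (hU : ∀ s ∈ Set.uIcc 0 t, f'' s ≤ U) :
    f t ≤ f 0 + f' 0 * t + U / 2 * t ^ 2 := by
  have h := Tube_taylor (fun s => -f s) (fun s => -f' s) (fun s => -f'' s) t (-U)
    (fun s hs => (hf s hs).neg) (fun s hs => (hf' s hs).neg) (fun s hs => by linarith [hU s hs])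
  linarith only [h]

theorem Tube_der (z d : ℂ) (t : ℝ) (h0 : 0 < (z + t * d).re) (h1 : (z + t * d).re < 1) :
    HasDerivAt (fun t : ℝ => (ff (z + t * d)).re) ((hh (z + t * d) * d).re) t ∧
    HasDerivAt (fun t : ℝ => (hh (z + t * d) * d).re)
      ((Real.pi * Complex.cot (Real.pi * (z + t * d)) * d * d).re) t := by
  have hl : HasDerivAt (fun w : ℂ => z + w * d) d (t : ℂ) := by
    have h := ((hasDerivAt_id (t : ℂ)).mul_const d).const_add z
    simpa using h
  constructor
  · have h := HasDerivAt.comp (t : ℂ) (ff_hasDerivAt (z + t * d) h0 h1) hl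
    exact h.real_of_complex
  · have h := (HasDerivAt.comp (t : ℂ) (hh_hasDerivAt (z + t * d) h0 h1) hl).mul_const d
    exact h.real_of_complex

/-- the real part of the cotangent -/
theorem Tube_cot_re (a b : ℝ) :
    (Complex.cot (a + b * I)).re = Real.sin a * Real.cos a /
      (Real.sin a ^ 2 + Real.sinh b ^ 2) := by
  have hs : Complex.sin (a + b * I) =
      (Real.sin a * Real.cosh b : ℝ) + (Real.cos a * Real.sinh b : ℝ) * I := by
    rw [Complex.sin_add_mul_I]
    push_cast
    ring
  have hc : Complex.cos (a + b * I) =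
      (Real.cos a * Real.cosh b : ℝ) + (-(Real.sin a * Real.sinh b) : ℝ) * I := by
    rw [Complex.cos_add_mul_I]
    push_cast
    ring
  have hns : Complex.normSq (Complex.sin (a + b * I)) = Real.sin a ^ 2 + Real.sinh b ^ 2 := by
    rw [hs, Complex.normSq_add_mul_I]
    have h1 := Real.sin_sq_add_cos_sq a
    have h2 := Real.cosh_sq b
    linear_combination (Real.sin a ^ 2) * h2 + Real.sinh b ^ 2 * h1
  rw [Complex.cot, Complex.div_re, hns, hs, hc]
  simp only [add_re, ofReal_re, mul_re, I_re, mul_zero, ofReal_im, I_im, mul_one, sub_self,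
    add_zero, add_im, mul_im, zero_add]
  rw [← add_div]
  congr 1
  have h2 := Real.cosh_sq b
  linear_combination (Real.sin a * Real.cos a) * h2

theorem Tube_cot_re' (z : ℂ) : (Real.pi * Complex.cot (Real.pi * z)).re =
    Real.pi * (Real.sin (Real.pi * z.re) * Real.cos (Real.pi * z.re) /
      (Real.sin (Real.pi * z.re) ^ 2 + Real.sinh (Real.pi * z.im) ^ 2)) := by
  rw [Complex.re_ofReal_mul, ← Tube_cot_re]
  congr 3
  conv_lhs => rw [← Complex.re_add_im z]
  push_cast
  ring

/-- Vertical direction, left half of the strip. -/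
theorem ff_vert_left (x t : ℝ) (h0 : 0 < x) (h1 : x < 1 / 2) :
    Fr x - Real.pi / 2 * (Real.cos (Real.pi * x) / Real.sin (Real.pi * x)) * t ^ 2 ≤
      (ff (x + t * I)).re ∧ (ff (x + t * I)).re ≤ Fr x := by
  have hre : ∀ s : ℝ, ((x : ℂ) + s * I).re = x := fun s => by simp
  have him : ∀ s : ℝ, ((x : ℂ) + s * I).im = s := fun s => by simp
  have hd := fun s : ℝ => Tube_der (x : ℂ) I s (by rw [hre]; exact h0) (by rw [hre]; linarith only [h0, h1])
  have hsin : 0 < Real.sin (Real.pi * x) := Real.sin_pos_of_pos_of_lt_pi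
    (by positivity) (by nlinarith only [h1, Real.pi_pos])
  have hcos : 0 < Real.cos (Real.pi * x) := Real.cos_pos_of_mem_Ioo
    ⟨by nlinarith only [h0, Real.pi_pos], by nlinarith [Real.pi_pos]⟩
  have hsec : ∀ s : ℝ, (Real.pi * Complex.cot (Real.pi * ((x : ℂ) + s * I)) * I * I).re =
      -(Real.pi * (Real.sin (Real.pi * x) * Real.cos (Real.pi * x) /
        (Real.sin (Real.pi * x) ^ 2 + Real.sinh (Real.pi * s) ^ 2))) := by
    intro s
    rw [mul_assoc _ I I, I_mul_I, mul_neg_one, neg_re, Tube_cot_re', hre, him]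
  have e0 : ff ((x : ℂ) + (0 : ℝ) * I) = (Fr x : ℂ) := by
    rw [ofReal_zero, zero_mul, add_zero, ff_real x h0 (by linarith)]
  have e1 : (hh ((x : ℂ) + (0 : ℝ) * I) * I).re = 0 := by
    rw [ofReal_zero, zero_mul, add_zero, hh_real x h0 (by linarith)]
    simp
  constructor
  · have h := Tube_taylor (fun s : ℝ => (ff ((x : ℂ) + s * I)).re)
      (fun s : ℝ => (hh ((x : ℂ) + s * I) * I).re) _ t
      (-(Real.pi * (Real.cos (Real.pi * x) / Real.sin (Real.pi * x))))
      (fun s _ => (hd s).1) (fun s _ => (hd s).2) (fun s _ => by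
        rw [hsec]
        have : Real.sin (Real.pi * x) * Real.cos (Real.pi * x) /
            (Real.sin (Real.pi * x) ^ 2 + Real.sinh (Real.pi * s) ^ 2) ≤
            Real.cos (Real.pi * x) / Real.sin (Real.pi * x) := by
          rw [div_le_div_iff₀ (by positivity) hsin]
          nlinarith only [hcos, mul_nonneg hcos.le (sq_nonneg (Real.sinh (Real.pi * s)))]
        nlinarith only [h0, h1, this, Real.pi_pos])
    simp only [e0, e1, ofReal_re] at h
    linarith only [h]
  · have h := Tube_taylor' (fun s : ℝ => (ff ((x : ℂ) + s * I)).re)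
      (fun s : ℝ => (hh ((x : ℂ) + s * I) * I).re) _ t 0
      (fun s _ => (hd s).1) (fun s _ => (hd s).2) (fun s _ => by
        rw [hsec]
        have : 0 ≤ Real.pi * (Real.sin (Real.pi * x) * Real.cos (Real.pi * x) /
            (Real.sin (Real.pi * x) ^ 2 + Real.sinh (Real.pi * s) ^ 2)) := by positivity
        linarith)
    simp only [e0, e1, ofReal_re] at h
    linarith

/-- Vertical direction, right half of the strip. -/
theorem ff_vert_right (x t : ℝ) (h0 : 1 / 2 < x) (h1 : x < 1) :
    Fr x ≤ (ff (x + t * I)).re ∧ (ff (x + t * I)).re ≤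
      Fr x - Real.pi / 2 * (Real.cos (Real.pi * x) / Real.sin (Real.pi * x)) * t ^ 2 := by
  have hre : ∀ s : ℝ, ((x : ℂ) + s * I).re = x := fun s => by simp
  have him : ∀ s : ℝ, ((x : ℂ) + s * I).im = s := fun s => by simp
  have hd := fun s : ℝ => Tube_der (x : ℂ) I s (by rw [hre]; linarith) (by rw [hre]; linarith)
  have hsin : 0 < Real.sin (Real.pi * x) := Real.sin_pos_of_pos_of_lt_pi
    (by nlinarith only [h0, Real.pi_pos]) (by nlinarith [Real.pi_pos])
  have hcos : Real.cos (Real.pi * x) < 0 := Real.cos_neg_of_pi_div_two_lt_of_lt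
    (by nlinarith only [h0, Real.pi_pos]) (by nlinarith [Real.pi_pos])
  have hsec : ∀ s : ℝ, (Real.pi * Complex.cot (Real.pi * ((x : ℂ) + s * I)) * I * I).re =
      -(Real.pi * (Real.sin (Real.pi * x) * Real.cos (Real.pi * x) /
        (Real.sin (Real.pi * x) ^ 2 + Real.sinh (Real.pi * s) ^ 2))) := by
    intro s
    rw [mul_assoc _ I I, I_mul_I, mul_neg_one, neg_re, Tube_cot_re', hre, him]
  have e0 : ff ((x : ℂ) + (0 : ℝ) * I) = (Fr x : ℂ) := by
    rw [ofReal_zero, zero_mul, add_zero, ff_real x (by linarith) h1]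
  have e1 : (hh ((x : ℂ) + (0 : ℝ) * I) * I).re = 0 := by
    rw [ofReal_zero, zero_mul, add_zero, hh_real x (by linarith) h1]
    simp
  constructor
  · have h := Tube_taylor (fun s : ℝ => (ff ((x : ℂ) + s * I)).re)
      (fun s : ℝ => (hh ((x : ℂ) + s * I) * I).re) _ t 0
      (fun s _ => (hd s).1) (fun s _ => (hd s).2) (fun s _ => by
        rw [hsec]
        have : Real.sin (Real.pi * x) * Real.cos (Real.pi * x) /
            (Real.sin (Real.pi * x) ^ 2 + Real.sinh (Real.pi * s) ^ 2) ≤ 0 := by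
          apply div_nonpos_of_nonpos_of_nonneg
          · nlinarith only [h0, h1, hsin, hcos]
          · positivity
        nlinarith only [h0, h1, this, Real.pi_pos])
    simp only [e0, e1, ofReal_re] at h
    linarith
  · have h := Tube_taylor' (fun s : ℝ => (ff ((x : ℂ) + s * I)).re)
      (fun s : ℝ => (hh ((x : ℂ) + s * I) * I).re) _ t
      (-(Real.pi * (Real.cos (Real.pi * x) / Real.sin (Real.pi * x))))
      (fun s _ => (hd s).1) (fun s _ => (hd s).2) (fun s _ => by
        rw [hsec]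
        have : Real.cos (Real.pi * x) / Real.sin (Real.pi * x) ≤
            Real.sin (Real.pi * x) * Real.cos (Real.pi * x) /
            (Real.sin (Real.pi * x) ^ 2 + Real.sinh (Real.pi * s) ^ 2) := by
          rw [div_le_div_iff₀ hsin (by positivity)]
          nlinarith only [hcos, mul_nonneg (neg_nonneg.2 hcos.le) (sq_nonneg (Real.sinh (Real.pi * s)))]
        nlinarith only [h0, h1, this, Real.pi_pos])
    simp only [e0, e1, ofReal_re] at h
    linarith only [h]

theorem Tube_sinh_sq (b : ℝ) (hb : |b| ≤ 1 / 50) : Real.sinh (Real.pi * b) ^ 2 ≤ 4 / 100 := by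
  have h1 := ClausenA_sinh_le ((Real.pi * b : ℝ) : ℂ)
  rw [← Complex.ofReal_sinh, Complex.norm_real, Complex.norm_real, Real.norm_eq_abs,
    Real.norm_eq_abs] at h1
  have hpi := Real.pi_pos
  have hpi4 := Real.pi_le_four
  have h2 : |Real.pi * b| ≤ 7 / 100 := by
    rw [abs_mul, abs_of_pos hpi]
    have hpi3 : Real.pi < 3.15 := Real.pi_lt_d2
    nlinarith only [hpi3, hb, hpi, abs_nonneg b]
  have h3 : Real.exp |Real.pi * b| ≤ 2.7182818286 := by
    refine le_trans (Real.exp_le_exp.2 ?_) Real.exp_one_lt_d9.le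
    linarith
  have h4 : |Real.sinh (Real.pi * b)| ≤ 2 / 10 := by
    refine h1.trans ?_
    have := Real.exp_pos |Real.pi * b|
    nlinarith only [h3, h2, this, abs_nonneg (Real.pi * b)]
  have h5 := abs_nonneg (Real.sinh (Real.pi * b))
  rw [← sq_abs]
  nlinarith only [h4, h5]

/-- Horizontal direction, left half: strong convexity. -/
theorem ff_horiz_left (z : ℂ) (t : ℝ) (h0 : 4 / 100 ≤ z.re) (h1 : z.re ≤ 46 / 100)
    (h2 : 4 / 100 ≤ z.re + t) (h3 : z.re + t ≤ 46 / 100) (h4 : |z.im| ≤ 1 / 50) :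
    (ff z).re + t * (hh z).re + 1 / 10 * t ^ 2 ≤ (ff (z + t)).re := by
  have hre : ∀ s : ℝ, (z + s * (1 : ℂ)).re = z.re + s := fun s => by simp
  have him : ∀ s : ℝ, (z + s * (1 : ℂ)).im = z.im := fun s => by simp
  have hs : ∀ s ∈ Set.uIcc 0 t, 4 / 100 ≤ z.re + s ∧ z.re + s ≤ 46 / 100 := by
    intro s hs
    rw [Set.mem_uIcc] at hs
    rcases hs with hs | hs <;> constructor <;> linarith only [h0, hs, h3, h2, h1, hs.1, hs.2]
  have hd := fun s : ℝ => fun hs' : s ∈ Set.uIcc 0 t => Tube_der z 1 s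
    (by rw [hre]; linarith only [hs, hs', (hs s hs').1]) (by rw [hre]; linarith only [hs, hs', (hs s hs').2])
  have h := Tube_taylor (fun s : ℝ => (ff (z + s * 1)).re)
    (fun s : ℝ => (hh (z + s * 1) * 1).re) _ t (1 / 5)
    (fun s hs => (hd s hs).1) (fun s hs => (hd s hs).2) (fun s hs' => by
      rw [mul_one, mul_one, Tube_cot_re', hre, him]
      obtain ⟨k1, k2⟩ := hs s hs'
      have hpi := Real.pi_pos
      have hpi3 : 3 < Real.pi := Real.pi_gt_three
      set y := Real.pi * (z.re + s) with hy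
      have k3 : 8 / 100 ≤ Real.sin y * Real.cos y := by
        have e : Real.sin y * Real.cos y = Real.sin (2 * y) / 2 := by rw [Real.sin_two_mul]; ring
        rw [e]
        rcases le_total (z.re + s) (1 / 4) with k4 | k4
        · have := Real.mul_le_sin (x := 2 * y) (by positivity) (by rw [hy]; nlinarith only [hpi, k4])
          have e2 : 2 / Real.pi * (2 * y) = 4 * (z.re + s) := by
            rw [hy]
            field_simp
            ring
          rw [e2] at this
          linarith only [k1, this]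
        · have := Real.mul_le_sin (x := Real.pi - 2 * y) (by rw [hy]; nlinarith only [hpi3, k2, hpi])
            (by rw [hy]; nlinarith only [hpi, k4])
          rw [Real.sin_pi_sub] at this
          have e2 : 2 / Real.pi * (Real.pi - 2 * y) = 2 - 4 * (z.re + s) := by
            rw [hy]
            field_simp
            ring
          rw [e2] at this
          linarith only [k2, this]
      have k5 := Tube_sinh_sq z.im h4
      have k6 := Real.sin_sq_le_one y
      have k7 : 0 < Real.sin y ^ 2 + Real.sinh (Real.pi * z.im) ^ 2 := by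
        have : Real.sin y ≠ 0 := by
          intro h
          rw [h, zero_mul] at k3
          norm_num at k3
        positivity
      have k8 : 7 / 100 ≤ Real.sin y * Real.cos y /
          (Real.sin y ^ 2 + Real.sinh (Real.pi * z.im) ^ 2) := by
        rw [le_div_iff₀ k7]
        nlinarith only [k3, k5, k6]
      nlinarith only [hpi3, hpi, k8])
  simp only [mul_one, ofReal_zero, add_zero] at h
  linarith only [h]

/-- Horizontal direction, right half: strong concavity. -/
theorem ff_horiz_right (z : ℂ) (t : ℝ) (h0 : 60 / 100 ≤ z.re) (h1 : z.re ≤ 90 / 100)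
    (h2 : 60 / 100 ≤ z.re + t) (h3 : z.re + t ≤ 90 / 100) (h4 : |z.im| ≤ 1 / 50) :
    (ff (z + t)).re ≤ (ff z).re + t * (hh z).re - 1 / 10 * t ^ 2 := by
  have hre : ∀ s : ℝ, (z + s * (1 : ℂ)).re = z.re + s := fun s => by simp
  have him : ∀ s : ℝ, (z + s * (1 : ℂ)).im = z.im := fun s => by simp
  have hs : ∀ s ∈ Set.uIcc 0 t, 60 / 100 ≤ z.re + s ∧ z.re + s ≤ 90 / 100 := by
    intro s hs
    rw [Set.mem_uIcc] at hs
    rcases hs with hs | hs <;> constructor <;> linarith only [h0, hs, h3, h2, h1, hs.1, hs.2]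
  have hd := fun s : ℝ => fun hs' : s ∈ Set.uIcc 0 t => Tube_der z 1 s
    (by rw [hre]; linarith only [hs, hs', (hs s hs').1]) (by rw [hre]; linarith only [hs, hs', (hs s hs').2])
  have h := Tube_taylor' (fun s : ℝ => (ff (z + s * 1)).re)
    (fun s : ℝ => (hh (z + s * 1) * 1).re) _ t (-(1 / 5))
    (fun s hs => (hd s hs).1) (fun s hs => (hd s hs).2) (fun s hs' => by
      rw [mul_one, mul_one, Tube_cot_re', hre, him]
      obtain ⟨k1, k2⟩ := hs s hs'
      have hpi := Real.pi_pos
      have hpi3 : 3 < Real.pi := Real.pi_gt_three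
      set y := Real.pi * (z.re + s) with hy
      have k3 : Real.sin y * Real.cos y ≤ -(8 / 100) := by
        have e : Real.sin y * Real.cos y = -(Real.sin (2 * y - Real.pi) / 2) := by
          rw [Real.sin_sub_pi, Real.sin_two_mul]
          ring
        rw [e]
        rcases le_total (z.re + s) (3 / 4) with k4 | k4
        · have := Real.mul_le_sin (x := 2 * y - Real.pi) (by rw [hy]; nlinarith only [hpi3, k1, hpi])
            (by rw [hy]; nlinarith only [hpi, k4])
          have e2 : 2 / Real.pi * (2 * y - Real.pi) = 4 * (z.re + s) - 2 := by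
            rw [hy]
            field_simp
            ring
          rw [e2] at this
          linarith only [k1, this]
        · have := Real.mul_le_sin (x := Real.pi - (2 * y - Real.pi)) (by rw [hy]; nlinarith only [hpi3, k2, hpi])
            (by rw [hy]; nlinarith only [hpi, k4])
          rw [Real.sin_pi_sub] at this
          have e2 : 2 / Real.pi * (Real.pi - (2 * y - Real.pi)) = 4 - 4 * (z.re + s) := by
            rw [hy]
            field_simp
            ring
          rw [e2] at this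
          linarith only [k2, this]
      have k5 := Tube_sinh_sq z.im h4
      have k6 := Real.sin_sq_le_one y
      have k7 : 0 < Real.sin y ^ 2 + Real.sinh (Real.pi * z.im) ^ 2 := by
        have : Real.sin y ≠ 0 := by
          intro h
          rw [h, zero_mul] at k3
          norm_num at k3
        positivity
      have k8 : Real.sin y * Real.cos y /
          (Real.sin y ^ 2 + Real.sinh (Real.pi * z.im) ^ 2) ≤ -(7 / 100) := by
        rw [div_le_iff₀ k7]
        nlinarith only [k3, k5, k6]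
      nlinarith only [hpi3, hpi, k8])
  simp only [mul_one, ofReal_zero, add_zero] at h
  linarith only [h]

end Pool.Agent.H63.VC3

end

section

/-! # Concavity -/

namespace Pool.Agent.H63.VC4

open Pool.Agent.H63.VC Pool.Agent.H63.VC3 Complex
open scoped BigOperators

theorem ConcN_slot (y v : ℂ) (x a : ℝ) (h1 : |y.re - 1 / 4| ≤ 6 / 1000)
    (h2 : |y.im| ≤ 6 / 1000) (h3 : |v.re| ≤ 53 / 1000) (h4 : v.im ≤ 3 / 1000) (h5 : 0 < v.im)
    (hx : |x - 1 / 4| ≤ 55 / 1000) (ha : |a| ≤ 15 / 100) :
    (po (some ((x : ℂ) + y.im * I)) (a + v.im * I)).re ≤ (po (some y) v).re +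
      (a - v.re) * (dpo (some y) v).re - (x - y.re) * (hh (y - v) + hh (y + v)).re -
      1 / 5 * (a - v.re) ^ 2 := by
  obtain ⟨l1a, l1b⟩ := abs_le.1 h1
  obtain ⟨l2a, l2b⟩ := abs_le.1 h2
  obtain ⟨l3a, l3b⟩ := abs_le.1 h3
  obtain ⟨hxa, hxb⟩ := abs_le.1 hx
  obtain ⟨haa, hab⟩ := abs_le.1 ha
  have c1 := ff_horiz_left (y - v) ((x - y.re) - (a - v.re)) (by rw [sub_re]; linarith)
    (by rw [sub_re]; linarith) (by rw [sub_re]; linarith) (by rw [sub_re]; linarith)
    (by rw [sub_im, abs_le]; constructor <;> linarith)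
  have c2 := ff_horiz_left (y + v) ((x - y.re) + (a - v.re)) (by rw [add_re]; linarith)
    (by rw [add_re]; linarith) (by rw [add_re]; linarith) (by rw [add_re]; linarith)
    (by rw [add_im, abs_le]; constructor <;> linarith)
  have ey : y = (y.re : ℂ) + y.im * I := (re_add_im y).symm
  have ev : v = (v.re : ℂ) + v.im * I := (re_add_im v).symm
  have e1 : y - v + ((x - y.re - (a - v.re) : ℝ) : ℂ) = x + y.im * I - (a + v.im * I) := by
    push_cast
    linear_combination ey - ev
  have e2 : y + v + ((x - y.re + (a - v.re) : ℝ) : ℂ) = x + y.im * I + (a + v.im * I) := by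
    push_cast
    linear_combination ey + ev
  rw [e1] at c1
  rw [e2] at c2
  simp only [po, dpo, sub_re, add_re, neg_re]
  have hsq : 0 ≤ (x - y.re) ^ 2 := sq_nonneg _
  linarith

end Pool.Agent.H63.VC4

end

section

/-! # Strong concavity near the vertices -/

namespace Pool.Agent.H63.VC6

open Pool.Agent.H63.VC
open Pool.Agent.H63.VC3 Complex
open scoped BigOperators

theorem Horiz_second (x e : ℝ) (h1 : 69 / 100 ≤ x) (h2 : x ≤ 81 / 100) (h4 : |e| ≤ 1 / 50) :
    Real.pi * (Real.sin (Real.pi * x) * Real.cos (Real.pi * x) /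
      (Real.sin (Real.pi * x) ^ 2 + Real.sinh (Real.pi * e) ^ 2)) ≤ -2 := by
  have hpi := Real.pi_pos
  have hpi1 : 3.1415 < Real.pi := Real.pi_gt_d4
  have hpi2 : Real.pi < 3.1416 := Real.pi_lt_d4
  set y := Real.pi * x with hy
  set u := 2 * Real.pi * (x - 3 / 4) with hu
  have k5 := Tube_sinh_sq e h4
  have hu1 : u ≤ 0.377 := by rw [hu]; nlinarith only [h2, hpi1, h1, hpi2, hpi]
  have hu2 : -0.377 ≤ u := by rw [hu]; nlinarith only [hpi1, hpi2, h1, hpi]
  have e1 : 2 * y = u + 3 * Real.pi / 2 := by rw [hy, hu]; ring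
  have e2 : Real.sin (2 * y) = - Real.cos u := by
    rw [e1, show u + 3 * Real.pi / 2 = (u + Real.pi) + Real.pi / 2 by ring,
      Real.sin_add_pi_div_two, Real.cos_add_pi]
  have e3 : Real.cos (2 * y) = Real.sin u := by
    rw [e1, show u + 3 * Real.pi / 2 = (u + Real.pi) + Real.pi / 2 by ring,
      Real.cos_add_pi_div_two, Real.sin_add_pi, neg_neg]
  have e4 : Real.sin y * Real.cos y = -(Real.cos u / 2) := by
    have := Real.sin_two_mul y
    rw [e2] at this
    linarith only [this]
  have e5 : Real.sin y ^ 2 = (1 - Real.sin u) / 2 := by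
    have h := Real.cos_two_mul y
    have h' := Real.sin_sq_add_cos_sq y
    rw [e3] at h
    linarith only [h, h']
  have hc : 1 - u ^ 2 / 2 ≤ Real.cos u := Real.one_sub_sq_div_two_le_cos
  have hu3 : u ^ 2 ≤ 0.377 ^ 2 := by nlinarith only [hpi1, hpi2, hu1, hu2]
  have hsin : -0.377 ≤ Real.sin u := by
    rcases le_total u 0 with h | h
    · exact hu2.trans (Real.le_sin h)
    · have := Real.sin_nonneg_of_nonneg_of_le_pi h (by linarith only [hpi1, hpi2, hu1])
      linarith only [hpi1, hpi2, this]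
  have hsin1 : Real.sin u ≤ 0.377 := by
    rcases le_total 0 u with h | h
    · exact (Real.sin_le h).trans hu1
    · have := Real.sin_nonpos_of_nonpos_of_neg_pi_le h (by linarith only [hpi1, hpi2, hu2])
      linarith only [hpi1, hpi2, this]
  have hs2 := sq_nonneg (Real.sinh (Real.pi * e))
  rw [e4, e5, mul_div_assoc', div_le_iff₀ (by linarith only [hpi1, hpi2, hsin1, hs2])]
  nlinarith only [hpi1, hpi2, k5, hu3, hsin, hpi, hc]

theorem ff_horiz_vertex (z : ℂ) (t : ℝ) (h0 : 69 / 100 ≤ z.re) (h1 : z.re ≤ 81 / 100)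
    (h2 : 69 / 100 ≤ z.re + t) (h3 : z.re + t ≤ 81 / 100) (h4 : |z.im| ≤ 1 / 50) :
    (ff (z + t)).re ≤ (ff z).re + t * (hh z).re - t ^ 2 := by
  have hre : ∀ s : ℝ, (z + s * (1 : ℂ)).re = z.re + s := fun s => by simp
  have him : ∀ s : ℝ, (z + s * (1 : ℂ)).im = z.im := fun s => by simp
  have hs : ∀ s ∈ Set.uIcc 0 t, 69 / 100 ≤ z.re + s ∧ z.re + s ≤ 81 / 100 := by
    intro s hs
    rw [Set.mem_uIcc] at hs
    rcases hs with hs | hs <;> constructor <;> linarith [hs.1, hs.2]
  have hd := fun s : ℝ => fun hs' : s ∈ Set.uIcc 0 t => Tube_der z 1 s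
    (by rw [hre]; linarith [(hs s hs').1]) (by rw [hre]; linarith [(hs s hs').2])
  have h := Tube_taylor' (fun s : ℝ => (ff (z + s * 1)).re)
    (fun s : ℝ => (hh (z + s * 1) * 1).re) _ t (-2)
    (fun s hs => (hd s hs).1) (fun s hs => (hd s hs).2) (fun s hs' => by
      rw [mul_one, mul_one, Tube_cot_re', hre, him]
      obtain ⟨k1, k2⟩ := hs s hs'
      exact Horiz_second (z.re + s) z.im k1 k2 h4)
  simp only [mul_one, ofReal_zero, add_zero] at h
  linarith

end Pool.Agent.H63.VC6

end
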