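import Pool.Agent.H94.PA.M09

/-! The parts of this file: H63.VC3.GBound, H63.VC3.GG. -/

section

/-! # Second order bounds for `Fr` -/

namespace Pool.Agent.H63.VC3

open Pool.Agent.H63.VC Real

theorem GBound_mono {f f' : ℝ → ℝ} {a b : ℝ} (hab : a ≤ b) (hc : ContinuousOn f (Set.Icc a b))
    (hd : ∀ x ∈ Set.Ioo a b, HasDerivAt f (f' x) x) (hn : ∀ x ∈ Set.Ioo a b, 0 ≤ f' x) :
    f a ≤ f b := by
  have h : MonotoneOn f (Set.Icc a b) := by
    apply monotoneOn_of_deriv_nonneg (convex_Icc a b) hc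
    · rw [interior_Icc]
      intro x hx
      exact (hd x hx).differentiableAt.differentiableWithinAt
    · rw [interior_Icc]
      intro x hx
      rw [(hd x hx).deriv]
      exact hn x hx
  exact h (Set.left_mem_Icc.2 hab) (Set.right_mem_Icc.2 hab) hab

theorem GBound_log_ge {t : ℝ} (h0 : 0 ≤ t) (h1 : t < 1) :
    2 * t ≤ Real.log (1 + t) - Real.log (1 - t) := by
  have h := Real.hasSum_log_sub_log_of_abs_lt_one (x := t) (by rw [abs_of_nonneg h0]; exact h1)
  have := le_hasSum h 0 (fun j _ => by positivity)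
  simpa using this

theorem GBound_log_le {t : ℝ} (h0 : 0 ≤ t) (h1 : t < 1) :
    Real.log (1 + t) - Real.log (1 - t) ≤ 2 * t / (1 - t ^ 2) := by
  have h := Real.hasSum_log_sub_log_of_abs_lt_one (x := t) (by rw [abs_of_nonneg h0]; exact h1)
  have h2 : t ^ 2 < 1 := by nlinarith only [h1, h0]
  have hg := (hasSum_geometric_of_lt_one (sq_nonneg t) h2).mul_left (2 * t)
  refine (hasSum_le (fun k => ?_) h hg).trans (le_of_eq (by ring))
  have e : 2 * t * (t ^ 2) ^ k = 2 * 1 * t ^ (2 * k + 1) := by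
    rw [← pow_mul, pow_succ t (2 * k)]; ring
  rw [e]
  gcongr
  rw [div_le_one (by positivity)]
  have : (0 : ℝ) ≤ k := by positivity
  linarith only

/-- The basic identity for the difference of the logarithms. -/
theorem GBound_diff {A B : ℝ} (hA0 : 0 < A) (hA1 : A < π / 2) (hB0 : 0 ≤ B) (hB : B < A) :
    0 ≤ Real.cos A * Real.sin B / (Real.sin A * Real.cos B) ∧
    Real.cos A * Real.sin B / (Real.sin A * Real.cos B) < 1 ∧
    Real.log (2 * Real.sin (A + B)) - Real.log (2 * Real.sin (A - B)) =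
      Real.log (1 + Real.cos A * Real.sin B / (Real.sin A * Real.cos B)) -
      Real.log (1 - Real.cos A * Real.sin B / (Real.sin A * Real.cos B)) := by
  have hπ := Real.pi_pos
  have hsA : 0 < Real.sin A := Real.sin_pos_of_pos_of_lt_pi hA0 (by linarith only [hA0, hA1])
  have hcA : 0 < Real.cos A := Real.cos_pos_of_mem_Ioo ⟨by linarith only [hA0, hA1], hA1⟩
  have hcB : 0 < Real.cos B := Real.cos_pos_of_mem_Ioo ⟨by linarith only [hA0, hA1, hB0], by linarith only [hA1, hB]⟩
  have hsB : 0 ≤ Real.sin B := Real.sin_nonneg_of_nonneg_of_le_pi hB0 (by linarith only [hA0, hA1, hB])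
  have hs : 0 < Real.sin (A - B) := Real.sin_pos_of_pos_of_lt_pi (by linarith) (by linarith only [hA0, hA1, hB0])
  have hp : 0 < Real.sin A * Real.cos B := mul_pos hsA hcB
  have h0 : 0 ≤ Real.cos A * Real.sin B / (Real.sin A * Real.cos B) := by positivity
  have h1 : Real.cos A * Real.sin B / (Real.sin A * Real.cos B) < 1 := by
    rw [div_lt_one hp]
    rw [Real.sin_sub] at hs
    linarith only [hs]
  refine ⟨h0, h1, ?_⟩
  set t := Real.cos A * Real.sin B / (Real.sin A * Real.cos B) with ht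
  have e : Real.cos A * Real.sin B = Real.sin A * Real.cos B * t := by
    rw [ht]; field_simp
  have e1 : 2 * Real.sin (A + B) = 2 * (Real.sin A * Real.cos B) * (1 + t) := by
    rw [Real.sin_add, e]; ring
  have e2 : 2 * Real.sin (A - B) = 2 * (Real.sin A * Real.cos B) * (1 - t) := by
    rw [Real.sin_sub, e]; ring
  have hP : 2 * (Real.sin A * Real.cos B) ≠ 0 := by positivity
  have ht1 : 1 + t ≠ 0 := by linarith only [h0]
  have ht2 : 1 - t ≠ 0 := by linarith only [h1]
  rw [e1, e2, Real.log_mul hP ht1, Real.log_mul hP ht2]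
  ring

theorem GBound_diff_ge {A B : ℝ} (hA0 : 0 < A) (hA1 : A < π / 2) (hB0 : 0 ≤ B) (hB : B < A) :
    2 * (Real.cos A / Real.sin A) * B ≤
      Real.log (2 * Real.sin (A + B)) - Real.log (2 * Real.sin (A - B)) := by
  obtain ⟨h0, h1, h2⟩ := GBound_diff hA0 hA1 hB0 hB
  have hπ := Real.pi_pos
  have hsA : 0 < Real.sin A := Real.sin_pos_of_pos_of_lt_pi hA0 (by linarith only [hA0, hA1])
  have hcA : 0 < Real.cos A := Real.cos_pos_of_mem_Ioo ⟨by linarith only [hA0, hA1], hA1⟩
  have hcB : 0 < Real.cos B := Real.cos_pos_of_mem_Ioo ⟨by linarith only [hA0, hA1, hB0], by linarith only [hA1, hB]⟩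
  have htan : B ≤ Real.tan B := Real.le_tan hB0 (by linarith only [hA1, hB])
  rw [h2]
  refine le_trans ?_ (GBound_log_ge h0 h1)
  have e : 2 * (Real.cos A * Real.sin B / (Real.sin A * Real.cos B)) =
      2 * (Real.cos A / Real.sin A) * Real.tan B := by
    rw [Real.tan_eq_sin_div_cos]; field_simp
  rw [e]
  exact mul_le_mul_of_nonneg_left htan (by positivity)

theorem GBound_cot_quarter : Real.cos (π / 4) / Real.sin (π / 4) = 1 := by
  rw [Real.cos_pi_div_four, Real.sin_pi_div_four]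
  exact div_self (by positivity)

theorem GBound_Fr_quarter : Fr (1 / 4) = -Fr (3 / 4) := by
  have h1 := Fr_add_one (-(3 / 4))
  rw [Fr_neg] at h1
  rw [← h1]
  norm_num

/-- Convexity in `v`. -/
theorem Fr_sym_ge (y v : ℝ) (h0 : 0 < y) (h1 : y < 1 / 2) (h2 : |v| ≤ y) (h3 : y + |v| ≤ 1 / 2) :
    2 * Fr y + π * (Real.cos (π * y) / Real.sin (π * y)) * v ^ 2 ≤ Fr (y - v) + Fr (y + v) := by
  have hπ := Real.pi_pos
  -- reduce to `0 ≤ v`
  wlog hv : 0 ≤ v generalizing v with H
  · have := H (-v) (by rwa [abs_neg]) (by rwa [abs_neg]) (by linarith only [hv])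
    rw [neg_sq, sub_neg_eq_add, ← sub_eq_add_neg] at this
    linarith only [this]
  rw [abs_of_nonneg hv] at h2 h3
  have key := GBound_mono (f := fun w => Fr (y - w) + Fr (y + w) -
      π * (Real.cos (π * y) / Real.sin (π * y)) * w ^ 2)
    (f' := fun w => -Real.log (2 * Real.sin (π * (y - w))) +
      Real.log (2 * Real.sin (π * (y + w))) -
      π * (Real.cos (π * y) / Real.sin (π * y)) * (2 * w)) hv ?_ ?_ ?_
  · simp only [sub_zero, add_zero] at key
    have e : (0 : ℝ) ^ 2 = 0 := by norm_num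
    rw [e, mul_zero, sub_zero] at key
    linarith only [key]
  · apply Continuous.continuousOn
    have := Fr_continuous
    fun_prop
  · intro w hw
    have d1 : HasDerivAt (fun w => Fr (y - w)) (-Real.log (2 * Real.sin (π * (y - w)))) w :=
      HasDerivAt.comp_const_sub y w
        (Fr_hasDerivAt (y - w) (by linarith only [h2, hw, hw.2]) (by linarith only [h1, hw, hw.1]))
    have d2 : HasDerivAt (fun w => Fr (y + w)) (Real.log (2 * Real.sin (π * (y + w)))) w :=
      HasDerivAt.comp_const_add y w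
        (Fr_hasDerivAt (y + w) (by linarith only [h0, hw, hw.1]) (by linarith only [h3, hw, hw.2]))
    have d3 : HasDerivAt (fun w : ℝ => π * (Real.cos (π * y) / Real.sin (π * y)) * w ^ 2)
        (π * (Real.cos (π * y) / Real.sin (π * y)) * (2 * w)) w := by
      have := (hasDerivAt_pow 2 w).const_mul (π * (Real.cos (π * y) / Real.sin (π * y)))
      simpa using this
    exact (d1.add d2).sub d3
  · intro w hw
    have := GBound_diff_ge (A := π * y) (B := π * w) (by positivity) (by nlinarith only [h1, hπ])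
      (by have := hw.1; positivity) (mul_lt_mul_of_pos_left (by linarith [hw.2]) hπ)
    rw [← mul_add, ← mul_sub] at this
    show 0 ≤ _
    nlinarith only [this]

/-- Concavity in `y`. -/
theorem Fr_y_le (y : ℝ) (h0 : 0 ≤ y) (h1 : y ≤ 1 / 2) :
    Fr (y + 1 / 2) - Fr y ≤ 2 * Fr (3 / 4) - π * (y - 1 / 4) ^ 2 := by
  have hπ := Real.pi_pos
  wlog hy : 1 / 4 ≤ y generalizing y with H
  · have := H (1 / 2 - y) (by linarith only [h1]) (by linarith only [h0]) (by linarith only [hy])
    have e1 : Fr (1 / 2 - y + 1 / 2) = -Fr y := by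
      have : 1 / 2 - y + 1 / 2 = -y + 1 := by ring
      rw [this, Fr_add_one, Fr_neg]
    have e2 : Fr (1 / 2 - y) = -Fr (y + 1 / 2) := by
      have : Fr (1 / 2 - y) = Fr (-(y + 1 / 2) + 1) := by congr 1; ring
      rw [this, Fr_add_one, Fr_neg]
    rw [e1, e2] at this
    have e3 : (1 / 2 - y - 1 / 4) ^ 2 = (y - 1 / 4) ^ 2 := by ring
    rw [e3] at this
    linarith only [this]
  have key := GBound_mono (f := fun w => -(Fr (w + 1 / 2) - Fr w + π * (w - 1 / 4) ^ 2))
    (f' := fun w => -(Real.log (2 * Real.sin (π * (w + 1 / 2))) -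
      Real.log (2 * Real.sin (π * w)) + π * (2 * (w - 1 / 4)))) hy ?_ ?_ ?_
  · have e1 : (1 : ℝ) / 4 + 1 / 2 = 3 / 4 := by norm_num
    simp only [e1, sub_self, GBound_Fr_quarter] at key
    have e : (0 : ℝ) ^ 2 = 0 := by norm_num
    rw [e, mul_zero] at key
    linarith only [key]
  · apply Continuous.continuousOn
    have := Fr_continuous
    fun_prop
  · intro w hw
    have d1 : HasDerivAt (fun w => Fr (w + 1 / 2)) (Real.log (2 * Real.sin (π * (w + 1 / 2))))
        w := HasDerivAt.comp_add_const w (1 / 2)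
          (Fr_hasDerivAt (w + 1 / 2) (by linarith only [hw, hw.1]) (by linarith only [h1, hw, hw.2]))
    have d2 := Fr_hasDerivAt w (by linarith only [hw, hw.1]) (by linarith only [h1, hw, hw.2])
    have d3 : HasDerivAt (fun w : ℝ => π * (w - 1 / 4) ^ 2) (π * (2 * (w - 1 / 4))) w := by
      have := (((hasDerivAt_id w).sub (hasDerivAt_const w (1 / 4))).pow 2).const_mul π
      simpa using this
    exact ((d1.sub d2).add d3).neg
  · intro w hw
    have h4 := GBound_diff_ge (A := π / 4) (B := π * (w - 1 / 4)) (by positivity) (by linarith only [hπ])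
      (by have := hw.1; nlinarith only [hπ, this]) (by nlinarith only [hπ, h1, hw, hw.2])
    rw [GBound_cot_quarter] at h4
    have e1 : π / 4 + π * (w - 1 / 4) = π * w := by ring
    have e2 : Real.sin (π * (w + 1 / 2)) = Real.sin (π / 4 - π * (w - 1 / 4)) := by
      have : π * (w + 1 / 2) = π - (π / 4 - π * (w - 1 / 4)) := by ring
      rw [this, Real.sin_pi_sub]
    rw [e1] at h4
    show 0 ≤ _
    rw [e2]
    linarith only [h4]

theorem cot_ge (d : ℝ) (h : |d| < 1 / 4) :
    1 - 2 * π * d ≤ Real.cos (π * (1 / 4 + d)) / Real.sin (π * (1 / 4 + d)) := by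
  have hπ := Real.pi_pos
  obtain ⟨ha, hb⟩ := abs_lt.1 h
  have e : π * (1 / 4 + d) = π / 4 + π * d := by ring
  have hs : 0 < Real.sin (π * (1 / 4 + d)) :=
    Real.sin_pos_of_pos_of_lt_pi (by nlinarith only [hπ, ha]) (by nlinarith only [hπ, hb])
  rw [le_div_iff₀ hs, e, Real.cos_add, Real.sin_add, Real.cos_pi_div_four, Real.sin_pi_div_four]
  rw [e, Real.sin_add, Real.cos_pi_div_four, Real.sin_pi_div_four] at hs
  set x := π * d with hx
  have hx1 : -(π / 4) < x := by nlinarith only [hπ, ha]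
  have hx2 : x < π / 4 := by nlinarith only [hπ, hb]
  have key : Real.sin x ≤ x * (Real.sin x + Real.cos x) := by
    rcases le_total 0 x with h' | h'
    · have s1 := Real.sin_le h'
      have s2 : 1 ≤ Real.sin x + Real.cos x := by
        have p1 : 0 ≤ Real.sin x := Real.sin_nonneg_of_nonneg_of_le_pi h' (by linarith only [hπ, hx2])
        have p2 : 0 ≤ Real.cos x := Real.cos_nonneg_of_mem_Icc ⟨by linarith only [hπ, hx1], by linarith only [hπ, hx2]⟩
        have p3 := Real.sin_sq_add_cos_sq x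
        nlinarith only [p1, p2, p3]
      nlinarith only [s1, h', s2]
    · have hz : 0 ≤ -x := by linarith only [h']
      have t1 := Real.le_tan hz (by linarith only [hπ, hx1])
      have c1 : 0 < Real.cos (-x) := Real.cos_pos_of_mem_Ioo ⟨by linarith only [hπ, hx2], by linarith only [hπ, hx1]⟩
      rw [Real.tan_eq_sin_div_cos, le_div_iff₀ c1, Real.cos_neg, Real.sin_neg] at t1
      have p1 : Real.sin x ≤ 0 := Real.sin_nonpos_of_nonpos_of_neg_pi_le h' (by linarith only [hπ, hx1])
      nlinarith only [t1, mul_nonneg_of_nonpos_of_nonpos h' p1]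
  have h2 : 0 < √2 := by positivity
  have : 0 ≤ √2 / 2 * (2 * (x * (Real.sin x + Real.cos x) - Real.sin x)) := by
    apply mul_nonneg (by positivity)
    linarith only [key]
  have e3 : 2 * π * d = 2 * x := by rw [hx]; ring
  rw [e3]
  nlinarith only [this]

/-- A sharp upper bound near `y = 1/4`. -/
theorem Fr_quarter (t : ℝ) (h : |t| ≤ 1 / 20) :
    Fr (1 / 4 - t) + Fr (1 / 4 + t) ≤ -2 * Fr (3 / 4) + 53 / 50 * π * t ^ 2 := by
  have hπ := Real.pi_pos
  have hπ2 : π < 3.15 := Real.pi_lt_d2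
  wlog ht : 0 ≤ t generalizing t with H
  · have := H (-t) (by rwa [abs_neg]) (by linarith only [ht])
    rw [neg_sq, sub_neg_eq_add, ← sub_eq_add_neg] at this
    linarith only [this]
  rw [abs_of_nonneg ht] at h
  have key := GBound_mono (f := fun w => -(Fr (1 / 4 - w) + Fr (1 / 4 + w) -
      53 / 50 * π * w ^ 2))
    (f' := fun w => -(-Real.log (2 * Real.sin (π * (1 / 4 - w))) +
      Real.log (2 * Real.sin (π * (1 / 4 + w))) -
      53 / 50 * π * (2 * w))) ht ?_ ?_ ?_
  · simp only [sub_zero, add_zero, GBound_Fr_quarter] at key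
    have e : (0 : ℝ) ^ 2 = 0 := by norm_num
    rw [e, mul_zero, sub_zero] at key
    linarith only [key]
  · apply Continuous.continuousOn
    have := Fr_continuous
    fun_prop
  · intro w hw
    have d1 : HasDerivAt (fun w => Fr (1 / 4 - w))
        (-Real.log (2 * Real.sin (π * (1 / 4 - w)))) w :=
      HasDerivAt.comp_const_sub (1 / 4) w
        (Fr_hasDerivAt (1 / 4 - w) (by linarith only [h, hw, hw.2]) (by linarith only [hw, hw.1]))
    have d2 : HasDerivAt (fun w => Fr (1 / 4 + w))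
        (Real.log (2 * Real.sin (π * (1 / 4 + w)))) w :=
      HasDerivAt.comp_const_add (1 / 4) w
        (Fr_hasDerivAt (1 / 4 + w) (by linarith only [hw, hw.1]) (by linarith only [h, hw, hw.2]))
    have d3 : HasDerivAt (fun w : ℝ => 53 / 50 * π * w ^ 2) (53 / 50 * π * (2 * w)) w := by
      have := (hasDerivAt_pow 2 w).const_mul (53 / 50 * π)
      simpa using this
    exact ((d1.add d2).sub d3).neg
  · intro w hw
    have hw0 : 0 < w := hw.1
    have hw1 : w < 1 / 20 := by linarith only [h, hw, hw.2]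
    obtain ⟨g0, g1, g2⟩ := GBound_diff (A := π / 4) (B := π * w) (by positivity) (by linarith)
      (by positivity) (by nlinarith only [hπ, hw0, hw1])
    have g3 := GBound_log_le g0 g1
    rw [← g2] at g3
    have e1 : π / 4 + π * w = π * (1 / 4 + w) := by ring
    have e2 : π / 4 - π * w = π * (1 / 4 - w) := by ring
    rw [e1, e2] at g3
    set x := π * w with hx
    have hx0 : 0 < x := by positivity
    have hx1 : x < 0.1575 := by nlinarith only [hπ, hπ2, hw1]
    have hcx : 0 < Real.cos x := Real.cos_pos_of_mem_Ioo ⟨by linarith only [hπ, hx0], by linarith only [hw0, hw1, hx1, Real.pi_gt_three]⟩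
    have hsx : 0 < Real.sin x := Real.sin_pos_of_pos_of_lt_pi hx0 (by linarith only [hw0, hw1, hx1, Real.pi_gt_three])
    have e3 : Real.cos (π / 4) * Real.sin x / (Real.sin (π / 4) * Real.cos x) =
        Real.sin x / Real.cos x := by
      rw [Real.cos_pi_div_four, Real.sin_pi_div_four]
      field_simp
    rw [e3] at g1 g3
    have hc2 : 1 - 2 * x ^ 2 ≤ Real.cos (2 * x) := by
      have := Real.one_sub_sq_div_two_le_cos (x := 2 * x)
      nlinarith only [this]
    have hs2 : Real.sin (2 * x) ≤ 2 * x := Real.sin_le (by linarith only [hx0])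
    have hc3 : 0.95 < Real.cos (2 * x) := by nlinarith only [hx0, hx1, hc2]
    have e4 : 2 * (Real.sin x / Real.cos x) / (1 - (Real.sin x / Real.cos x) ^ 2) =
        Real.sin (2 * x) / Real.cos (2 * x) := by
      rw [Real.sin_two_mul, Real.cos_two_mul'] at *
      have : Real.cos x ^ 2 - Real.sin x ^ 2 ≠ 0 := by linarith only [hw0, hw1, hc3]
      have h5 : 1 - (Real.sin x / Real.cos x) ^ 2 = (Real.cos x ^ 2 - Real.sin x ^ 2) /
          Real.cos x ^ 2 := by
        field_simp
      rw [h5]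
      field_simp
    rw [e4] at g3
    have g4 : Real.sin (2 * x) / Real.cos (2 * x) ≤ 53 / 25 * x := by
      rw [div_le_iff₀ (by linarith only [hw0, hw1, hc3])]
      have : 53 / 25 * x * (1 - 2 * x ^ 2) ≤ 53 / 25 * x * Real.cos (2 * x) :=
        mul_le_mul_of_nonneg_left hc2 (by positivity)
      refine hs2.trans (le_trans ?_ this)
      have : x ^ 2 ≤ 0.0249 := by nlinarith only [hx0, hx1]
      nlinarith only [hx0, hx1]
    show 0 ≤ _
    have e5 : 53 / 50 * π * (2 * w) = 53 / 25 * x := by rw [hx]; ring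
    rw [e5]
    linarith only [g3, g4]

end Pool.Agent.H63.VC3

end

section

/-! # Bounds of the growth rate `gg` -/

namespace Pool.Agent.H63.VC3

open Pool.Agent.H63.VC Real

/-- The dichotomy behind all three bounds. -/
private theorem GG_key (x l : ℝ) (hl : 0 ≤ l) (hlx : l ≤ x) (hx : x ≤ 1) :
    gg x l ≤ 3 * Fr (5 / 6) ∨
      (0 < x - 1 / 2 ∧ x - 1 / 2 < 1 / 2 ∧
        gg x l ≤ 4 * Fr (3 / 4) - 2 * π * (x - 3 / 4) ^ 2 -
          π * (Real.cos (π * (x - 1 / 2)) / Real.sin (π * (x - 1 / 2))) * (l - 1 / 2) ^ 2) := by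
  have h56 : 0 ≤ Fr (5 / 6) := Fr_nonneg _ (by norm_num) (by norm_num)
  have hx1 := Fr_le x
  have hm1 := Fr_ge (x - l)
  have hp1 := Fr_ge (x + l)
  by_cases hA : x ≤ 1 / 2
  · left
    have h0 := Fr_nonpos x (hl.trans hlx) hA
    unfold gg
    linarith only [hx1, hm1, hp1, h0]
  push Not at hA
  by_cases hB : x + l ≤ 1
  · left
    have h0 := Fr_nonneg (x + l) (by linarith only [hl, hA]) hB
    unfold gg
    linarith only [hx1, hm1, h0]
  push Not at hB
  have hper : Fr (x + l) = Fr ((x - 1 / 2) + (l - 1 / 2)) := by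
    rw [← Fr_add_one ((x - 1 / 2) + (l - 1 / 2))]
    congr 1
    ring
  have hmin : Fr (x - l) = Fr ((x - 1 / 2) - (l - 1 / 2)) := by
    congr 1
    ring
  by_cases hC : 1 / 2 ≤ (x - 1 / 2) - (l - 1 / 2)
  · left
    have h0 := Fr_nonneg ((x - 1 / 2) - (l - 1 / 2)) hC (by linarith only [hx, hB])
    rw [← hmin] at h0
    unfold gg
    linarith only [hx1, hp1, h0]
  push Not at hC
  by_cases hD : 1 / 2 ≤ (x - 1 / 2) + (l - 1 / 2)
  · left
    have h0 := Fr_nonneg ((x - 1 / 2) + (l - 1 / 2)) hD (by linarith only [hlx, hx])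
    rw [← hper] at h0
    unfold gg
    linarith only [hx1, hm1, h0]
  push Not at hD
  right
  have hv : |l - 1 / 2| ≤ x - 1 / 2 := abs_le.2 ⟨by linarith only [hB], by linarith only [hlx]⟩
  have hv' : |l - 1 / 2| < 1 / 2 - (x - 1 / 2) := abs_lt.2 ⟨by linarith only [hC], by linarith only [hD]⟩
  have hy0 : 0 < x - 1 / 2 := by linarith only [hA]
  have hy1 : x - 1 / 2 < 1 / 2 := by
    have := abs_nonneg (l - 1 / 2)
    linarith only [hC, hD]
  refine ⟨hy0, hy1, ?_⟩
  have h1 := Fr_sym_ge (x - 1 / 2) (l - 1 / 2) hy0 hy1 hv (by linarith only [hv'])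
  have h2 := Fr_y_le (x - 1 / 2) hy0.le hy1.le
  have h3 : x - 1 / 2 + 1 / 2 = x := by ring
  have h4 : x - 1 / 2 - 1 / 4 = x - 3 / 4 := by ring
  rw [h3, h4] at h2
  rw [← hmin, ← hper] at h1
  unfold gg
  linarith only [h1, h2]

private theorem GG_cot_nonneg (y : ℝ) (h0 : 0 < y) (h1 : y < 1 / 2) :
    0 ≤ Real.cos (π * y) / Real.sin (π * y) := by
  have hπ := Real.pi_pos
  apply div_nonneg
  · apply Real.cos_nonneg_of_neg_pi_div_two_le_of_le <;> nlinarith only [hπ, h0, h1]
  · apply Real.sin_nonneg_of_nonneg_of_le_pi <;> nlinarith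

theorem gg_le (x l : ℝ) (hl : 0 ≤ l) (hlx : l ≤ x) (hx : x ≤ 1) : gg x l ≤ 4 * Fr (3 / 4) := by
  have hlog : 0 < Real.log 2 := Real.log_pos one_lt_two
  rcases GG_key x l hl hlx hx with h | ⟨h0, h1, h⟩
  · have := Fr_num
    linarith only [hlog, h, this]
  · have h2 : 0 ≤ 2 * π * (x - 3 / 4) ^ 2 := by
      have := Real.pi_pos
      positivity
    have h3 : 0 ≤ π * (Real.cos (π * (x - 1 / 2)) / Real.sin (π * (x - 1 / 2))) *
        (l - 1 / 2) ^ 2 :=
      mul_nonneg (mul_nonneg Real.pi_pos.le (GG_cot_nonneg _ h0 h1)) (sq_nonneg _)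
    linarith only [h, h2, h3]

theorem gg_le_x (x l : ℝ) (hl : 0 ≤ l) (hlx : l ≤ x) (hx : x ≤ 1)
    (h : 53 / 1000 ≤ |x - 3 / 4|) : gg x l ≤ 4 * Fr (3 / 4) - 17 / 1000 := by
  have hlog := Real.log_two_gt_d9
  rcases GG_key x l hl hlx hx with h' | ⟨h0, h1, h'⟩
  · have := Fr_num
    linarith only [hlog, h', this]
  · have h3 : 0 ≤ π * (Real.cos (π * (x - 1 / 2)) / Real.sin (π * (x - 1 / 2))) *
        (l - 1 / 2) ^ 2 :=
      mul_nonneg (mul_nonneg Real.pi_pos.le (GG_cot_nonneg _ h0 h1)) (sq_nonneg _)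
    have h4 : (53 / 1000 : ℝ) ^ 2 ≤ (x - 3 / 4) ^ 2 := by
      rw [← sq_abs (x - 3 / 4)]
      exact pow_le_pow_left₀ (by norm_num) h 2
    have h5 := Real.pi_gt_d2
    have h6 : 2 * (3.14 : ℝ) * (53 / 1000) ^ 2 ≤ 2 * π * (x - 3 / 4) ^ 2 := by
      apply mul_le_mul _ h4 (by norm_num) (by positivity)
      linarith only [h5]
    norm_num at h6
    linarith only [h0, h1, h', h3, h6]

theorem gg_le_l (x l : ℝ) (hl : 0 ≤ l) (hlx : l ≤ x) (hx : x ≤ 1)
    (h : |x - 3 / 4| ≤ 56 / 1000) (h' : 148 / 1000 ≤ |l - 1 / 2|) :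
    gg x l ≤ 4 * Fr (3 / 4) - 40 / 1000 := by
  have hlog := Real.log_two_gt_d9
  rcases GG_key x l hl hlx hx with h'' | ⟨h0, h1, h''⟩
  · have := Fr_num
    linarith only [hlog, h'', this]
  · have h2 : 0 ≤ 2 * π * (x - 3 / 4) ^ 2 := by
      have := Real.pi_pos
      positivity
    have h3 := cot_ge (x - 3 / 4) (lt_of_le_of_lt h (by norm_num))
    have h4 : 1 / 4 + (x - 3 / 4) = x - 1 / 2 := by ring
    rw [h4] at h3
    have h5 := Real.pi_gt_d2
    have h6 := Real.pi_lt_d2
    have h7 := (abs_le.1 h).2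
    have h8 : (648 / 1000 - 1 / 1000 : ℝ) ≤ 1 - 2 * π * (x - 3 / 4) := by
      have : 2 * π * (x - 3 / 4) ≤ 2 * 3.15 * (56 / 1000) := by
        by_cases hs : 0 ≤ x - 3 / 4
        · apply mul_le_mul _ h7 hs (by norm_num)
          linarith only [h6]
        · push Not at hs
          have : 2 * π * (x - 3 / 4) ≤ 0 := mul_nonpos_of_nonneg_of_nonpos (by positivity) hs.le
          norm_num
          linarith only [h5, h6, this]
      norm_num at this ⊢
      linarith only [h5, h6, this]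
    have h9 : (647 / 1000 : ℝ) ≤ Real.cos (π * (x - 1 / 2)) / Real.sin (π * (x - 1 / 2)) := by
      linarith only [h3, h8]
    have h10 : (148 / 1000 : ℝ) ^ 2 ≤ (l - 1 / 2) ^ 2 := by
      rw [← sq_abs (l - 1 / 2)]
      exact pow_le_pow_left₀ (by norm_num) h' 2
    have h11 : (3.14 : ℝ) * (647 / 1000) * (148 / 1000) ^ 2 ≤
        π * (Real.cos (π * (x - 1 / 2)) / Real.sin (π * (x - 1 / 2))) * (l - 1 / 2) ^ 2 := by
      apply mul_le_mul _ h10 (by norm_num)
        (mul_nonneg Real.pi_pos.le (GG_cot_nonneg _ h0 h1))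
      apply mul_le_mul h5.le h9 (by norm_num) Real.pi_pos.le
    norm_num at h11
    linarith only [h'', h2, h5, h6, h11]

end Pool.Agent.H63.VC3

end
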