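import Pool.Agent.H94.PA.M08
import Pool.Agent.H94.PA.M13
import Pool.Agent.H94.PA.M14

/-! The parts of this file: H63.VC6.SlotU, H63.VC6.SegCore. -/

section

/-! # The potential function of one slot -/

namespace Pool.Agent.H63.VC6

open Pool.Agent.H63.VC
open Pool.Agent.H63.VC3 Pool.Agent.H63.VC4 Complex
open scoped BigOperators

theorem SlotU_cot_le (u : ℝ) (h0 : 45 / 1000 ≤ u) (h1 : u ≤ 455 / 1000) :
    Real.cos (Real.pi * u) / Real.sin (Real.pi * u) ≤ 71 / 10 := by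
  have hpi := Real.pi_gt_d2
  have hpi' := Real.pi_lt_d2
  have hz0 : 0 < Real.pi * u := by positivity
  have hz1 : Real.pi * u < Real.pi / 2 := by nlinarith only [h1, hpi, hpi', h0]
  have hc : 0 < Real.cos (Real.pi * u) :=
    Real.cos_pos_of_mem_Ioo ⟨by linarith only [hpi, hpi', hz0], hz1⟩
  have hs : 0 < Real.sin (Real.pi * u) :=
    Real.sin_pos_of_pos_of_lt_pi hz0 (by linarith only [hpi, hpi', hz1])
  have ht := Real.lt_tan hz0 hz1
  rw [Real.tan_eq_sin_div_cos, lt_div_iff₀ hc] at ht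
  rw [div_le_iff₀ hs]
  have h2 : 1413 / 10000 ≤ Real.pi * u := by nlinarith only [h0, hpi]
  nlinarith only [hs, ht, h2]

/-- Horizontal displacement. -/
theorem slot_horiz (y v : ℂ) (x a : ℝ) (hy : yloc y) (hv : vloc v)
    (hx : |x - 1 / 4| ≤ 55 / 1000) (ha : |a| ≤ 15 / 100) :
    (2 * ff ((x : ℂ) + y.im * I + 1 / 2)).re + (po (some ((x : ℂ) + y.im * I)) (a + v.im * I)).re ≤
      (2 * ff (y + 1 / 2)).re + (po (some y) v).re + (a - v.re) * (dpo (some y) v).re +
        kap y v * (x - y.re) - 2 * (x - y.re) ^ 2 := by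
  obtain ⟨hy1, hy2⟩ := hy
  obtain ⟨hv1, hv2, hv3⟩ := hv
  have c1 := ConcN_slot y v x a hy1 hy2 hv1 hv3 hv2 hx ha
  obtain ⟨l1a, l1b⟩ := abs_le.1 hy1
  obtain ⟨l2a, l2b⟩ := abs_le.1 hy2
  obtain ⟨hxa, hxb⟩ := abs_le.1 hx
  have er : (y + 1 / 2).re = y.re + 1 / 2 := by
    rw [add_re]; norm_num
  have ei : (y + 1 / 2).im = y.im := by
    rw [add_im]; norm_num
  have c2 := ff_horiz_vertex (y + 1 / 2) (x - y.re) (by rw [er]; linarith only [l1a]) (by rw [er]; linarith only [hv2, hv3, l1b])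
    (by rw [er]; linarith only [hxa]) (by rw [er]; linarith only [hv2, hv3, hxb])
    (by rw [ei, abs_le]; constructor <;> linarith only [hv2, l2a, l2b])
  have ey : y = (y.re : ℂ) + y.im * I := (re_add_im y).symm
  have e1 : y + 1 / 2 + ((x - y.re : ℝ) : ℂ) = (x : ℂ) + y.im * I + 1 / 2 := by
    push_cast
    linear_combination ey
  rw [e1] at c2
  have e2 : ∀ w : ℂ, (2 * w).re = 2 * w.re := fun w => by simp
  have hk : kap y v = 2 * (hh (y + 1 / 2)).re - (hh (y - v) + hh (y + v)).re := by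
    unfold kap
    rw [sub_re, sub_re, e2, add_re]
    ring
  rw [hk, e2, e2]
  have hsq : 0 ≤ (a - v.re) ^ 2 := sq_nonneg _
  linarith only [c1, c2, hsq]

/-- Vertical displacement. -/
theorem slot_vert (x a Y η η' : ℝ) (hx : |x - 1 / 4| ≤ 55 / 1000) (ha : |a| ≤ 15 / 100) :
    (2 * ff ((x : ℂ) + η' * I + 1 / 2)).re + (po (some ((x : ℂ) + η' * I)) (a + Y * I)).re ≤
      (2 * ff ((x : ℂ) + η * I + 1 / 2)).re + (po (some ((x : ℂ) + η * I)) (a + Y * I)).re +
        277 / 10 * η' ^ 2 + 224 / 10 * Y ^ 2 := by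
  obtain ⟨hx1, hx2⟩ := abs_le.mp hx
  obtain ⟨ha1, ha2⟩ := abs_le.mp ha
  have hpi := Real.pi_gt_d2
  have hpi' := Real.pi_lt_d2
  have e1 : ∀ η : ℝ, ((x : ℂ) + η * I) - (a + Y * I) =
      ((x - a : ℝ) : ℂ) + ((η - Y : ℝ) : ℂ) * I := by
    intro η; push_cast; ring
  have e2 : ∀ η : ℝ, ((x : ℂ) + η * I) + (a + Y * I) =
      ((x + a : ℝ) : ℂ) + ((η + Y : ℝ) : ℂ) * I := by
    intro η; push_cast; ring
  have hpo : ∀ η : ℝ, (po (some ((x : ℂ) + η * I)) (a + Y * I)).re =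
      -(ff (((x - a : ℝ) : ℂ) + ((η - Y : ℝ) : ℂ) * I)).re -
        (ff (((x + a : ℝ) : ℂ) + ((η + Y : ℝ) : ℂ) * I)).re := by
    intro η
    have h : po (some ((x : ℂ) + η * I)) (a + Y * I) =
      -ff (((x : ℂ) + η * I) - (a + Y * I)) - ff (((x : ℂ) + η * I) + (a + Y * I)) := rfl
    rw [h, e1, e2, sub_re, neg_re]
  have e3 : ∀ η : ℝ, (2 * ff ((x : ℂ) + η * I + 1 / 2)).re =
      2 * (ff (((x + 1 / 2 : ℝ) : ℂ) + (η : ℂ) * I)).re := by
    intro η
    have h : ((x + 1 / 2 : ℝ) : ℂ) + (η : ℂ) * I = (x + η * I) + 1 / 2 := by push_cast; ring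
    rw [h]
    simp
  rw [hpo, hpo, e3, e3]
  have f1 := (ff_vert_left (x - a) (η' - Y) (by linarith only [hx1, ha2, hpi, hpi']) (by linarith only [hx2, ha1, hpi, hpi'])).1
  have f2 := (ff_vert_left (x + a) (η' + Y) (by linarith only [hx1, ha1, hpi, hpi']) (by linarith only [hx2, ha2, hpi, hpi'])).1
  have f1' := (ff_vert_left (x - a) (η - Y) (by linarith only [hx1, ha2, hpi, hpi']) (by linarith only [hx2, ha1, hpi, hpi'])).2
  have f2' := (ff_vert_left (x + a) (η + Y) (by linarith only [hx1, ha1, hpi, hpi']) (by linarith only [hx2, ha2, hpi, hpi'])).2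
  have c1 := SlotU_cot_le (x - a) (by linarith only [hx1, ha2]) (by linarith only [hx2, ha1])
  have c2 := SlotU_cot_le (x + a) (by linarith only [hx1, ha1]) (by linarith only [hx2, ha2])
  have f := (ff_vert_right (x + 1 / 2) η' (by linarith only [hx1]) (by linarith only [hx2, hpi, hpi'])).2
  have f' := (ff_vert_right (x + 1 / 2) η (by linarith only [hx1, hpi, hpi']) (by linarith only [hx2, hpi, hpi'])).1
  have cg := cot_ge (x - 1 / 4) (by rw [abs_lt]; constructor <;> linarith only [hx1, hx2])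
  rw [show (1 : ℝ) / 4 + (x - 1 / 4) = x by ring] at cg
  have hs : 0 < Real.sin (Real.pi * x) :=
    Real.sin_pos_of_pos_of_lt_pi (by nlinarith only [hx1, hpi]) (by nlinarith only [hx2, hpi])
  have hcs : 0 < Real.cos (Real.pi * x) :=
    Real.cos_pos_of_mem_Ioo ⟨by nlinarith only [hx1, hpi], by nlinarith only [hx2, hpi]⟩
  have hc6 : 6 / 10 ≤ Real.cos (Real.pi * x) / Real.sin (Real.pi * x) := by nlinarith only [hx2, hpi, hpi', cg]
  have ht : -(Real.cos (Real.pi * (x + 1 / 2)) / Real.sin (Real.pi * (x + 1 / 2))) ≤ 5 / 3 := by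
    rw [show Real.pi * (x + 1 / 2) = Real.pi * x + Real.pi / 2 by ring, Real.cos_add_pi_div_two,
      Real.sin_add_pi_div_two, neg_div, neg_neg, div_le_iff₀ hcs]
    rw [le_div_iff₀ hs] at hc6
    linarith only [hc6]
  set d1 := Real.cos (Real.pi * (x - a)) / Real.sin (Real.pi * (x - a))
  set d2 := Real.cos (Real.pi * (x + a)) / Real.sin (Real.pi * (x + a))
  set d3 := Real.cos (Real.pi * (x + 1 / 2)) / Real.sin (Real.pi * (x + 1 / 2))
  have g1 : Real.pi / 2 * d1 * (η' - Y) ^ 2 ≤ 315 / 200 * (71 / 10) * (η' - Y) ^ 2 := by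
    have : Real.pi / 2 * d1 ≤ 315 / 200 * (71 / 10) := by nlinarith only [hpi, hpi', c1]
    exact mul_le_mul_of_nonneg_right this (sq_nonneg _)
  have g2 : Real.pi / 2 * d2 * (η' + Y) ^ 2 ≤ 315 / 200 * (71 / 10) * (η' + Y) ^ 2 := by
    have : Real.pi / 2 * d2 ≤ 315 / 200 * (71 / 10) := by nlinarith only [hpi, hpi', c2]
    exact mul_le_mul_of_nonneg_right this (sq_nonneg _)
  have g : -(Real.pi / 2 * d3 * η' ^ 2) ≤ 315 / 200 * (5 / 3) * η' ^ 2 := by
    have : -(Real.pi / 2 * d3) ≤ 315 / 200 * (5 / 3) := by nlinarith only [hpi, hpi', ht]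
    have := mul_le_mul_of_nonneg_right this (sq_nonneg η')
    linarith only [this]
  nlinarith only [f1', f2', f', f1, f2, f, g1, g2, g, sq_nonneg η', sq_nonneg Y]

/-- The excess of a slot, for each kind of points. -/
noncomputable def exc (σ : Fin 3) : ℝ := if σ = 0 then 0 else if σ = 1 then -(15 / 10000) else 3 / 1000

/-- A slot of an interior vertex. -/
theorem slot_int (y v z : ℂ) (a y1 y2 : ℝ) (σ : Fin 3) (hy : yloc y) (hv : vloc v)
    (h1 : 1 / 4 - 55 / 1000 ≤ y1) (h1' : y1 ≤ 1 / 4 - 54 / 1000) (h2 : 1 / 4 + 54 / 1000 ≤ y2)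
    (h2' : y2 ≤ 1 / 4 + 55 / 1000) (ha : |a| ≤ 15 / 100) (hz : Stt y1 y2 (1 / 100) y.im σ z) :
    (2 * ff (z + 1 / 2)).re + (po (some z) (a + v.im * I)).re ≤
      (2 * ff (y + 1 / 2)).re + (po (some y) v).re + (a - v.re) * (dpo (some y) v).re +
        kap y v * (z.re - y.re) + exc σ := by
  obtain ⟨hz1, hz2, hz3, s0, s1, s2⟩ := hz
  have hx : |z.re - 1 / 4| ≤ 55 / 1000 := by rw [abs_le]; constructor <;> linarith only [h1, hz1, h2', hz2]
  have hh1 := slot_horiz y v z.re a hy hv hx ha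
  have hv1 := slot_vert z.re a v.im y.im z.im hx ha
  rw [re_add_im] at hv1
  obtain ⟨hy1, hy2⟩ := hy
  obtain ⟨hvv1, hvv2, hvv3⟩ := hv
  obtain ⟨l1a, l1b⟩ := abs_le.1 hy1
  have hsq : 0 ≤ (z.re - y.re) ^ 2 := sq_nonneg _
  have hzi : z.im ^ 2 ≤ 1 / 10000 := by
    have h := abs_le.1 hz3
    nlinarith only [h.1, h.2]
  have hvi : v.im ^ 2 ≤ 9 / 1000000 := by nlinarith only [hvv2, hvv3]
  have hcase : σ = 0 ∨ σ = 1 ∨ σ = 2 := by fin_cases σ <;> simp
  rcases hcase with h | h | h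
  · have e0 : exc σ = 0 := by rw [h]; simp [exc]
    have e1 : (z.re : ℂ) + y.im * I = z := by
      rw [← s0 h]; exact re_add_im z
    rw [e1] at hh1
    rw [e0]
    linarith only [hh1, hsq]
  · have e0 : exc σ = -(15 / 10000) := by rw [h]; simp [exc]
    have hd : (48 / 1000) ^ 2 ≤ (z.re - y.re) ^ 2 := by
      rcases s1 h with h' | h'
      · rw [h']; nlinarith only [h1', l1a]
      · rw [h']; nlinarith only [h2, l1b]
    rw [e0]
    linarith only [hh1, hv1, hzi, hvi, hd]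
  · have e0 : exc σ = 3 / 1000 := by rw [h]; simp [exc]
    rw [e0]
    linarith only [hh1, hv1, hsq, hzi, hvi]

end Pool.Agent.H63.VC6

end

section

/-! # The sum over the vertices for fixed values of the regions -/

namespace Pool.Agent.H63.VC6

open Pool.Agent.H63.VC
open Pool.Agent.H63.VC3 Pool.Agent.H63.VC4 Complex
open scoped BigOperators

/-! ### Slots -/

/-! ### The excess and the damping factor -/

lemma SegCore_exc (M : ℕ) (σ : Fin 3) :
    Real.exp (M * (2 * exc σ)) ≤ dmp (1 / 100) M σ ∧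
      (σ ≠ 0 → Real.exp (M * (2 * exc σ)) ≤ Real.exp (-(M / 500)) * dmp (1 / 100) M σ) := by
  have hM : (0 : ℝ) ≤ M := Nat.cast_nonneg M
  have hπ := Real.pi_gt_three
  unfold exc dmp
  fin_cases σ
  · simp
  · refine ⟨?_, fun _ => ?_⟩
    · simp only [Fin.mk_one, Fin.isValue, one_ne_zero, if_false, if_true]
      rw [if_neg (by decide)]
      rw [Real.exp_le_one_iff]
      nlinarith
    · simp only [Fin.mk_one, Fin.isValue, one_ne_zero, if_false, if_true]
      rw [if_neg (by decide), mul_one]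
      apply Real.exp_le_exp.mpr
      nlinarith
  · refine ⟨?_, fun _ => ?_⟩
    · rw [if_neg (by decide), if_neg (by decide), if_pos (by rfl)]
      apply Real.exp_le_exp.mpr
      nlinarith
    · rw [if_neg (by decide), if_neg (by decide), if_pos (by rfl), ← Real.exp_add]
      apply Real.exp_le_exp.mpr
      nlinarith

lemma SegCore_prod {p : ℕ} (M : ℕ) (σ : Fin p → Fin 3) :
    Real.exp (M * (2 * ∑ j, exc (σ j))) ≤ ∏ j, dmp (1 / 100) M (σ j) := by
  rw [Finset.mul_sum, Finset.mul_sum, Real.exp_sum]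
  exact Finset.prod_le_prod (fun j _ => (Real.exp_pos _).le) fun j _ => (SegCore_exc M (σ j)).1

lemma SegCore_prod' {p : ℕ} (M : ℕ) (σ : Fin p → Fin 3) (h : ∃ j, σ j ≠ 0) :
    Real.exp (M * (2 * ∑ j, exc (σ j))) ≤
      Real.exp (-(M / 500)) * ∏ j, dmp (1 / 100) M (σ j) := by
  obtain ⟨j0, hj0⟩ := h
  have e1 : Real.exp (M * (2 * ∑ j, exc (σ j))) = Real.exp (M * (2 * exc (σ j0))) *
      ∏ j ∈ Finset.univ.erase j0, Real.exp (M * (2 * exc (σ j))) := by
    rw [Finset.mul_sum, Finset.mul_sum, Real.exp_sum]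
    exact (Finset.mul_prod_erase Finset.univ (fun j => Real.exp (M * (2 * exc (σ j))))
      (Finset.mem_univ j0)).symm
  have e2 : Real.exp (-(M / 500)) * ∏ j, dmp (1 / 100) M (σ j) =
      (Real.exp (-(M / 500)) * dmp (1 / 100) M (σ j0)) *
        ∏ j ∈ Finset.univ.erase j0, dmp (1 / 100) M (σ j) := by
    rw [mul_assoc]
    congr 1
    exact (Finset.mul_prod_erase Finset.univ (fun j => dmp (1 / 100) M (σ j))
      (Finset.mem_univ j0)).symm
  rw [e1, e2]
  refine mul_le_mul ((SegCore_exc M (σ j0)).2 hj0) ?_ ?_ ?_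
  · exact Finset.prod_le_prod (fun j _ => (Real.exp_pos _).le) fun j _ => (SegCore_exc M (σ j)).1
  · exact Finset.prod_nonneg fun j _ => (Real.exp_pos _).le
  · exact (Real.exp_pos _).le.trans ((SegCore_exc M (σ j0)).2 hj0)

end Pool.Agent.H63.VC6

end
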