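import Pool.Agent.H94.PA.H63.VC.Defs

/-! The parts of this file: H63.VC7.Link, H63.VC10.Morse, H63.VC5.CVDefs, H63.VC7.Hyp. -/

section

/-!
# Arborescent links: colored Jones polynomials

A tree with `p` nodes and `m` edges, the edge `j` joining the nodes `s j` and `t j`, and integer
weights `a i` of the nodes describe arborescent links: the node `i` is a band with `a i` half twists
(a twist region with `a i` crossings), the bands of adjacent nodes are plumbed together, and the link
is the boundary of the resulting surface. The cyclic order of the plumbings along a band is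
arbitrary; changing it is a mutation, which does not change the colored Jones polynomials.
-/

namespace Pool.Agent.H63.VC7

open Complex

variable {m p : ℕ}

/-! ### The colored Jones polynomials -/

/-- `{a} = q^a - q^{-a}`. -/
noncomputable def br (q : ℂ) (a : ℤ) : ℂ := q ^ a - q ^ (-a)

/-- The eigenvalue of a half twist of two strands of color `N` on the component of color `2 X`. -/
noncomputable def tw (q : ℂ) (X : ℕ) : ℂ := (-1) ^ X * q ^ (X * (X + 1))

/-- The normalized quantum 6j-symbol `{N/2 N/2 k; N/2 N/2 l}` (equal to `1` for `k = 0`). -/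
noncomputable def sixj (q : ℂ) (N k l : ℕ) : ℂ :=
  ∑ t ∈ Finset.range (N + 1), (-1) ^ t * ∏ i ∈ Finset.range t,
    (br q ((k : ℤ) + i + 1) * br q ((k : ℤ) - i) *
      (br q ((l : ℤ) + i + 1) * br q ((l : ℤ) - i))) /
    (br q ((i : ℤ) + 1) ^ 2 * (br q ((N : ℤ) + i + 2) * br q ((N : ℤ) - i)))

/-- The state sum for the colored Jones polynomial (color `N`, dimension `N + 1`, equal to `1` for the
unknot, up to a sign and a power of `q`, which depend on the framing): fusion in the twist regions. -/
noncomputable def jones (s t : Fin m → Fin p) (a : Fin p → ℤ) (N : ℕ) (q : ℂ) : ℂ :=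
  ∑ X ∈ Fintype.piFinset (fun _ : Fin p => Finset.range (N + 1)),
    (∏ i, tw q (X i) ^ (a i) * (br q (2 * (X i : ℤ) + 1) / br q ((N : ℤ) + 1))) *
      ∏ j, sixj q N (X (s j)) (X (t j))

end Pool.Agent.H63.VC7

end

section

/-!
# Colored Jones polynomials of link diagrams

The colored Jones polynomial is defined here for every link diagram by the usual state sum
(Kirillov-Reshetikhin, Reshetikhin-Turaev): the diagram is cut by horizontal lines into elementary
pieces (minima, maxima and crossings), and the pieces are sent to operators between tensor powers of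
the irreducible representation `V` of `U_q(sl_2)` of dimension `N + 1`.

`V` has the basis `e_0, …, e_N` with `H e_a = (N - 2 a) e_a`, `E e_a = [a] e_{a-1}`,
`F e_a = [N - a] e_{a+1}`, `[k] = {k} / {1}`, `{k} = q^k - q^{-k}`.
-/

namespace Pool.Agent.H63.VC10

open Pool.Agent.H63.VC7

/-- `{n}! = {1} {2} ⋯ {n}`. -/
noncomputable def brf (q : ℂ) (n : ℕ) : ℂ := ∏ i ∈ Finset.range n, br q ((i : ℤ) + 1)

/-- The coefficient of `e_s ⊗ e_{N-s}` in the invariant vector of `V ⊗ V`, the value of a minimum. The
maximum sends `e_{N-s} ⊗ e_s` to the inverse of this number. -/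
noncomputable def cupc (q : ℂ) (N s : ℕ) : ℂ :=
  (-1) ^ s * q ^ ((s : ℤ) * ((N : ℤ) - s - 1)) * (brf q N / (brf q s * brf q (N - s)))

/-- The coefficient of `e_c ⊗ e_d` in `R (e_a ⊗ e_b)`, where `R` is the composition of
`(-1) ^ N q ^ (N (N + 2) / 2) q ^ (H ⊗ H / 2) ∑ q ^ (k (k - 1) / 2) {1} ^ k / [k]! E ^ k ⊗ F ^ k`, that
is, of the universal `R`-matrix times the framing factor, and the exchange of the two factors. -/
noncomputable def Rc (q : ℂ) (N a b c d : ℕ) : ℂ :=
  if a + b = c + d ∧ b ≤ c ∧ c ≤ N then
    (-1) ^ N * q ^ ((N : ℤ) * (N + 1) - N * (c + d) + 2 * c * d + (c - b).choose 2) *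
      (brf q a * brf q (N - b) / (brf q d * brf q (c - b) * brf q (N - c)))
  else 0

/-- The coefficient of `e_c ⊗ e_d` in `R⁻¹ (e_a ⊗ e_b)`. -/
noncomputable def Ric (q : ℂ) (N a b c d : ℕ) : ℂ :=
  if a + b = c + d ∧ c ≤ b ∧ d ≤ N then
    (-1) ^ N * (-1) ^ (b - c) *
      q ^ (-((N : ℤ) * (N + 1) - N * (a + b) + 2 * a * b + (b - c).choose 2)) *
      (brf q b * brf q (N - a) / (brf q c * brf q (b - c) * brf q (N - d)))
  else 0

/-- The elementary pieces of a link diagram, read from bottom to top: a minimum, a maximum, and
crossings of two neighbouring strands (`pos` is the crossing with the overcrossing strand going from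
the left to the right, `neg` is the other one, up to a convention); `i` is the number of strands to
the left. -/
inductive Piece
  | cup (i : ℕ)
  | cap (i : ℕ)
  | pos (i : ℕ)
  | neg (i : ℕ)

/-- The operator of a piece. A vector of `V ⊗ ⋯ ⊗ V` is given by its coordinates, a function of the
list of the indices of the basis vectors. -/
noncomputable def act (q : ℂ) (N : ℕ) : Piece → (List ℕ → ℂ) → List ℕ → ℂ
  | .cup i, ψ, l => match l.drop i with
    | a :: b :: r => if a + b = N then cupc q N a * ψ (l.take i ++ r) else 0
    | _ => 0
  | .cap i, ψ, l => ∑ a ∈ Finset.range (N + 1),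
      (cupc q N (N - a))⁻¹ * ψ (l.take i ++ a :: (N - a) :: l.drop i)
  | .pos i, ψ, l => match l.drop i with
    | c :: d :: r => ∑ a ∈ Finset.range (N + 1), ∑ b ∈ Finset.range (N + 1),
        Rc q N a b c d * ψ (l.take i ++ a :: b :: r)
    | _ => 0
  | .neg i, ψ, l => match l.drop i with
    | c :: d :: r => ∑ a ∈ Finset.range (N + 1), ∑ b ∈ Finset.range (N + 1),
        Ric q N a b c d * ψ (l.take i ++ a :: b :: r)
    | _ => 0

/-- The operator of a diagram (a list of pieces, beginning with the lowest one). -/
noncomputable def eval (q : ℂ) (N : ℕ) : List Piece → (List ℕ → ℂ) → List ℕ → ℂ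
  | [], ψ => ψ
  | x :: w, ψ => eval q N w (act q N x ψ)

/-- The value of a diagram of a link (without boundary points). -/
noncomputable def bracket (q : ℂ) (N : ℕ) (w : List Piece) : ℂ :=
  eval q N w (fun l => if l = [] then 1 else 0) []

/-- The colored Jones polynomial of a diagram `w`, equal to `1` for the unknot. The factor
`q ^ (N (N + 2) e)` removes the dependence on the framing: if `w` is a diagram of an oriented knot, then
the colored Jones polynomial of the knot is obtained for the integer `e = n - p`, where `p` and `n` are
the numbers of pieces `pos` and `neg` at which both strands are oriented upwards or both downwards. -/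
noncomputable def coloredJones (w : List Piece) (e : ℤ) (N : ℕ) (q : ℂ) : ℂ :=
  q ^ ((N : ℤ) * (N + 2) * e) * bracket q N w / ((-1) ^ N * (br q ((N : ℤ) + 1) / br q 1))

/-! ### Diagrams of arborescent links -/

/-- `a` half twists of the strands `i` and `i + 1`. -/
def twist (a : ℤ) (i : ℕ) : List Piece :=
  List.replicate a.natAbs (if 0 < a then Piece.pos i else Piece.neg i)

variable {m : ℕ}

/-- The tangle with four ends of the subtree at the node `v`, at the strands `i` and `i + 1`: the `a v`
half twists of the band `v`, and the tangles of the subtrees at the children of `v`, rotated by a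
quarter turn. The first argument is a bound for the height of the subtree. -/
def tangle (par : Fin m → Fin (m + 1)) (a : Fin (m + 1) → ℤ) : ℕ → Fin (m + 1) → ℕ → List Piece
  | 0, _, _ => []
  | k + 1, v, i => twist (a v) i ++ ((List.finRange m).filter (fun j => par j = v)).flatMap
      (fun j => Piece.cup i :: (tangle par a k j.succ (i + 1) ++ [Piece.cap (i + 2)]))

/-- The diagram of the arborescent link of a tree with nodes `0, …, m`, edges between `par j` and
`j + 1`, and weights `a i`: the closure of the tangle of the root `0`. -/
def diagram (par : Fin m → Fin (m + 1)) (a : Fin (m + 1) → ℤ) : List Piece :=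
  [Piece.cup 0, Piece.cup 1] ++ tangle par a (m + 1) 0 0 ++ [Piece.cap 1, Piece.cap 0]

end Pool.Agent.H63.VC10

end

section

/-!
# The complex volume of a two-bridge knot

Let `C(a_1, ..., a_k)` be a two-bridge knot in Conway notation and `c = a_1 + ... + a_k`. The
Farey path from the slope `1/0` to the slope of the knot crosses the edges `0, 1, ..., c - 2` of the
Farey diagram, beginning with the edge between `0/1` and `1/1`. Each slope is a pair of parallel
edges of the four-punctured sphere, joining its punctures in pairs; the three ways to do this are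
the classes `0`, `1`, `2` (the reductions modulo 2 of the slopes `1/0`, `0/1`, `1/1`). The edge `i`,
`1 ≤ i ≤ c - 3`, is a layer of two ideal tetrahedra of the Sakuma-Weeks triangulation: their lower
diagonals have the slope behind the edge, their upper diagonals have the slope in front of it, and
the other four edges have the slopes at the two ends. The triangulation is folded at both ends: the
edges of slopes `0/1` and `1/1` are identified, and so are the edges at the two ends of the edge
`c - 2`.

`IsComplexVolume` is the formula of Neumann and Zickert for the complex volume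
`i (Vol + i CS)` modulo `π²`: a Ptolemy assignment with logarithms `l` on the slopes whose shapes
`z i` are positively oriented (so it describes the complete hyperbolic structure), an ordering of the
vertices of the tetrahedra compatible with the face pairings, and the sum of the signed values of the
Rogers dilogarithm on the flattenings given by `l`.
-/

namespace Pool.Agent.H63.VC5

open Complex

/-- The dilogarithm (principal branch). -/
noncomputable def dilog (z : ℂ) : ℂ := -∫ t in (0 : ℝ)..1, Complex.log (1 - t * z) / t

end Pool.Agent.H63.VC5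

end

section

/-!
# Hyperbolic structures, volumes and complex volumes of arborescent links

A tree with `p` nodes and `m` edges, the edge `j` joining the nodes `s j` and `t j`, and integer
weights `a i` of the nodes describe arborescent links: the node `i` is a band with `a i` half twists
(a twist region with `a i` crossings), the bands of adjacent nodes are plumbed together, and the link
is the boundary of the resulting surface. The cyclic order of the plumbings along a band is
arbitrary; changing it is a mutation, which does not change the equations below.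

Let `C_i` be a circle around the twist region `i`. The complement of the link and all `C_i` (with
`a i` replaced by a number of the same parity) is the union of one block for each edge `j` of the
tree. A block consists of two ideal octahedra `P`, `P'` with opposite vertices `c`, `c'` and vertices
`a_1, a_2, a_3, a_4` around the axis `c c'`, glued along the faces `c a_1 a_2`, `c a_3 a_4`,
`c' a_2 a_3`, `c' a_4 a_1` by the identity. The other faces form four thrice punctured spheres:
`S⁺ = (c a_4 a_1)` and `S⁻ = (c a_2 a_3)` at the node `s j`, and `S⁺ = (c' a_1 a_2)` and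
`S⁻ = (c' a_3 a_4)` at the node `t j`. At each node `i` the blocks of its edges are arranged
cyclically around the cusp `C_i`, and `S⁺` of each block is glued to `S⁻` of the next one, with
`a_1 ↦ a_2`, `a_4 ↦ a_3` for `c` and `a_1 ↦ a_4`, `a_2 ↦ a_3` for `c'`, or with a half twist, which
exchanges `P` and `P'` and the two vertices other than the cusp `C_i`; the number of half twists at
the node `i` has the parity of `a i`. The octahedra are divided into four ideal tetrahedra around the
edge `a_1 a_3`, namely `0 = (a_1 a_3 a_2 c)`, `1 = (a_1 a_3 c' a_2)`, `2 = (a_1 a_3 a_4 c')`,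
`3 = (a_1 a_3 c a_4)` for `P`, and likewise for `P'` with the opposite orientation. The three pairs of
opposite edges of a tetrahedron are numbered `0, 1, 2`, beginning with `a_1 a_3` and following the
orientation, so that the shape parameters are `z`, `1 / (1 - z)`, `1 - 1 / z`.
-/

namespace Pool.Agent.H63.VC7.Hyp

open Pool.Agent.H63.VC Pool.Agent.H63.VC5 Complex

variable {m p : ℕ}

/-- The shape parameters at the three pairs of opposite edges. -/
noncomputable def shp (z : ℂ) : Fin 3 → ℂ := ![z, 1 / (1 - z), 1 - 1 / z]

/-- Their logarithms. -/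
noncomputable def lgs (z : ℂ) : Fin 3 → ℂ := fun c => Complex.log (shp z c)

/-- The equations of a block at the cusp `c`, for the logarithmic parameters `x`, `y` of the
tetrahedra of `P`, `P'`. Here `κ = π i` for the logarithms of the shape parameters, and `κ = 0` for
flattenings. The sums at the edges `c a_1`, `c a_4`, `a_4 a_1` of `S⁺` and `c a_2`, `c a_3`,
`a_2 a_3` of `S⁻` are `κ ± U`; since `U` depends only on the node, the sums around the edges of the
complement are `2 κ`. The last two equations say that half of the longitude of `C_i` has logarithmic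
holonomy `U`, in `P` and in `P'`. -/
structure Side (κ : ℂ) (x y : Fin 4 → Fin 3 → ℂ) (U : ℂ) : Prop where
  ca1 : x 0 2 + x 3 1 + y 0 1 + y 3 2 = κ + U
  ca4 : x 3 0 + y 3 0 = κ + U
  ca2 : x 0 0 + y 0 0 = κ - U
  ca3 : x 0 1 + x 3 2 + y 0 2 + y 3 1 = κ - U
  a4a1 : x 3 2 + x 2 1 + y 3 1 + y 2 2 = κ - U
  a2a3 : x 0 2 + x 1 1 + y 0 1 + y 1 2 = κ + U
  lon : x 0 2 - x 3 2 = U
  lon' : y 0 1 - y 3 1 = U

/-- The logarithmic holonomy of the part of the meridian of `C_i` in a block, from `S⁻` to `S⁺`
through `P`. -/
def mer (x : Fin 4 → Fin 3 → ℂ) : ℂ := x 3 1 - x 0 1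

/-- The same through `P'`. -/
def mer' (y : Fin 4 → Fin 3 → ℂ) : ℂ := y 0 2 - y 3 2

/-- The symmetry of a block exchanging `c` and `c'`. -/
def opp (x : Fin 4 → Fin 3 → ℂ) : Fin 4 → Fin 3 → ℂ := fun k => x (k + 2)

/-- The equations of a block: the edges `a_1 a_3`, the cusps `c` and `c'`, and the logarithmic
holonomies of the four strands `a_1, a_2, a_3, a_4` from `S⁺` or `S⁻` at `s j` to `S⁺` or `S⁻` at
`t j`, in `P` and in `P'`. Here `q` is the difference of two numbers depending only on the nodes, so
the logarithmic holonomy of every closed curve along a link component is `0`. -/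
structure Block (κ : ℂ) (x y : Fin 4 → Fin 3 → ℂ) (U W q : ℂ) : Prop where
  ax : x 0 0 + x 1 0 + x 2 0 + x 3 0 = 2 * κ
  ay : y 0 0 + y 1 0 + y 2 0 + y 3 0 = 2 * κ
  c : Side κ x y U
  c' : Side κ (opp x) (opp y) W
  m : mer' y = mer x
  m' : mer' (opp y) = mer (opp x)
  a1 : x 2 0 - x 3 2 - x 1 1 = (U - W) / 2 + q
  a2 : x 0 2 - x 1 2 = (U + W) / 2 + q
  a3 : x 1 0 - x 0 2 - x 2 1 = -(U - W) / 2 + q
  a4 : x 3 2 - x 2 2 = -(U + W) / 2 + q
  b1 : y 3 1 + y 1 2 - y 2 0 = -(U - W) / 2 + q
  b2 : y 1 1 - y 0 1 = -(U + W) / 2 + q
  b3 : y 0 1 + y 2 2 - y 1 0 = (U - W) / 2 + q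
  b4 : y 2 1 - y 3 1 = (U + W) / 2 + q

/-- The gluing equations: the equations of the blocks, and the equations of the Dehn fillings of the
cusps `C_i` which give the twist regions `a i` crossings, along a curve going once along the meridian
and `a i / 2` times along the longitude of `C_i`. -/
structure Glue (κ : ℂ) (s t : Fin m → Fin p) (a : Fin p → ℤ) (x y : Fin m → Fin 4 → Fin 3 → ℂ)
    (U lam : Fin p → ℂ) : Prop where
  block : ∀ j, Block κ (x j) (y j) (U (s j)) (U (t j)) (lam (s j) - lam (t j))
  fill : ∀ i, (∑ j, ((if s j = i then mer (x j) else 0) +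
    (if t j = i then mer (opp (x j)) else 0))) + a i * U i = -(2 * κ)

/-- The shape parameters `X`, `Y` describe the hyperbolic structure of the link complement: positively
oriented ideal tetrahedra satisfying Thurston's gluing, completeness and Dehn filling equations. -/
def IsGeom (s t : Fin m → Fin p) (a : Fin p → ℤ) (X Y : Fin m → Fin 4 → ℂ) : Prop :=
  (∀ j k, 0 < (X j k).im ∧ 0 < (Y j k).im) ∧ ∃ U lam : Fin p → ℂ,
    Glue (Real.pi * I) s t a (fun j k => lgs (X j k)) (fun j k => lgs (Y j k)) U lam

/-- `V` is the hyperbolic volume of the link complement. -/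
def IsVolume (s t : Fin m → Fin p) (a : Fin p → ℤ) (V : ℝ) : Prop :=
  ∃ X Y : Fin m → Fin 4 → ℂ, IsGeom s t a X Y ∧
    V = ∑ j, ∑ k, (blochWigner (X j k) + blochWigner (Y j k))

/-! ### The complex volume -/

/-- Logarithmic parameters of a flattened tetrahedron. -/
def IsFlat (z : ℂ) (F : Fin 3 → ℂ) : Prop :=
  (∀ c, ∃ n : ℤ, F c = lgs z c + n * (Real.pi * I)) ∧ F 0 + F 1 + F 2 = 0

/-- Neumann's Rogers dilogarithm `R(z; p, q) = L(z) + π i / 2 (p log (1 - z) + q log z) - π² / 6`, as
a function of the logarithmic parameters `w₀ = log z + p π i` and `w₁ = -log (1 - z) + q π i`. -/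
noncomputable def RR (z w0 w1 : ℂ) : ℂ := dilog z +
  (w0 * Complex.log (1 - z) + w1 * Complex.log z + Complex.log z * Complex.log (1 - z)) / 2 -
    (Real.pi : ℂ) ^ 2 / 6

/-- The value of a flattened tetrahedron with ordered vertices `0, 1, 2, 3`, where `a`, `b` are the
numbers of the pairs of edges `01 | 23` and `12 | 03`; the ordering is compatible with the orientation
if `b = a + 1` and incompatible if `b = a + 2`. -/
noncomputable def tetR (z : ℂ) (F : Fin 3 → ℂ) (a b : Fin 3) : ℂ :=
  if b = a + 1 then RR (shp z a) (F a) (F b) else -RR (1 / shp z a) (-F a) (-F b)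

/-- The number of the edge `a_1 a_2` (or `a_1 a_4`) in the tetrahedron `k` of `P`. -/
def eo4 : Fin 4 → Fin 3 := ![1, 2, 1, 2]

/-- The value of a block. The vertices are ordered such that `c` and `c'` are the smallest ones and
`a_3` is the largest one; `a_4 < a_1` if `f` is true and `a_1 < a_4` otherwise, `a_2 < a_1` if `f'` is
true and `a_1 < a_2` otherwise. -/
noncomputable def blockR (X Y : Fin 4 → ℂ) (F G : Fin 4 → Fin 3 → ℂ) (f f' : Bool) : ℂ :=
  ∑ k : Fin 4, (tetR (X k) (F k) (if (if k < 2 then f' else f) then 0 else -eo4 k) (eo4 k) +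
    tetR (Y k) (G k) (if (if k < 2 then f' else f) then 0 else eo4 k) (-eo4 k))

/-- `Z` is the complex volume `i (Vol + i CS)`, well-defined modulo `π²`, of the link complement
(theorem of Neumann): the sum of the values of the Rogers dilogarithm for a flattening satisfying the
equations of the edges and of the cusps, and an ordering of the vertices compatible with the face
pairings; `f i` says at which blocks the gluings of `S⁺` at the node are half twisted. -/
def IsComplexVolume (s t : Fin m → Fin p) (a : Fin p → ℤ) (Z : ℂ) : Prop :=
  ∃ (X Y : Fin m → Fin 4 → ℂ) (F G : Fin m → Fin 4 → Fin 3 → ℂ) (U lam : Fin p → ℂ)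
    (f f' : Fin m → Bool), IsGeom s t a X Y ∧
    (∀ j k, IsFlat (X j k) (F j k) ∧ IsFlat (Y j k) (G j k)) ∧ Glue 0 s t a F G U lam ∧
    (∀ i, 2 ∣ (∑ j, ((if s j = i ∧ f j = true then (1 : ℤ) else 0) +
      (if t j = i ∧ f' j = true then 1 else 0))) - a i) ∧
    Z = ∑ j, blockR (X j) (Y j) (F j) (G j) (f j) (f' j)

end Pool.Agent.H63.VC7.Hyp

end
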