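import Pool.Agent.H94.PA.H63.VC.VolA
import Pool.Agent.H94.PA.M01
import Pool.Agent.H94.PA.M04

/-! The parts of this file: H63.VC10.TreeSum, H63.VC3.Final, H63.VC6.LogL, H63.VC3.Taylor2, H63.VC6.TaylorN, H63.VC4.LaplaceN, H63.VC4.GaussN, H63.VC.SWpath, H63.VC3.Five, H63.VC5.Defs, H63.VC5.Rog, H63.VC7.Checks7. -/

section

/-! # Sums over the colorings of a tree -/

namespace Pool.Agent.H63.VC10

/-- The sum over the colorings of the subtree at a node, given the color of the node; the first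
argument is a bound for the height. -/
noncomputable def trs {m : ℕ} (N : ℕ) (K : ℕ → ℕ → ℂ) (par : Fin m → Fin (m + 1))
    (g : Fin (m + 1) → ℕ → ℂ) : ℕ → Fin (m + 1) → ℕ → ℂ
  | 0, _, _ => 1
  | k + 1, v, x => g v x * ∏ j ∈ Finset.univ.filter (fun j => par j = v),
      ∑ y ∈ Finset.range (N + 1), K x y * trs N K par g k j.succ y

/-- independence of the height bound -/
theorem TreeSum_stable {m : ℕ} (N : ℕ) (K : ℕ → ℕ → ℂ) (par : Fin m → Fin (m + 1))
    (hpar : ∀ j, par j ≤ j.castSucc) (g : Fin (m + 1) → ℕ → ℂ) (k : ℕ) :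
    ∀ (v : Fin (m + 1)) (x : ℕ), m + 1 ≤ (v : ℕ) + k →
      trs N K par g (k + 1) v x = trs N K par g k v x := by
  induction k with
  | zero =>
    intro v x h
    have := v.isLt
    omega
  | succ k ih =>
    intro v x h
    rw [trs, trs]
    congr 1
    refine Finset.prod_congr rfl fun j hj => ?_
    refine Finset.sum_congr rfl fun y _ => ?_
    rw [ih j.succ y]
    have h1 : par j = v := (Finset.mem_filter.1 hj).2
    have h2 := hpar j
    rw [h1, Fin.le_def] at h2
    simp only [Fin.val_castSucc] at h2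
    rw [Fin.val_succ]
    omega

/-- the last node is a leaf -/
theorem TreeSum_last {m : ℕ} (N : ℕ) (K : ℕ → ℕ → ℂ) (par : Fin m → Fin (m + 1))
    (hpar : ∀ j, par j ≤ j.castSucc) (g : Fin (m + 1) → ℕ → ℂ) (k : ℕ) (hk : 1 ≤ k) (y : ℕ) :
    trs N K par g k (Fin.last m) y = g (Fin.last m) y := by
  obtain ⟨k, rfl⟩ : ∃ k', k = k' + 1 := ⟨k - 1, by omega⟩
  rw [trs]
  have : Finset.univ.filter (fun j : Fin m => par j = Fin.last m) = ∅ := by
    rw [Finset.filter_eq_empty_iff]
    intro j _ h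
    have h2 := hpar j
    rw [h, Fin.le_def] at h2
    simp only [Fin.val_castSucc, Fin.val_last] at h2
    have := j.isLt
    omega
  rw [this]
  simp

/-- removing the last node -/
theorem TreeSum_remove {m : ℕ} (N : ℕ) (K : ℕ → ℕ → ℂ) (par : Fin (m + 1) → Fin (m + 2))
    (hpar : ∀ j, par j ≤ j.castSucc) (g : Fin (m + 2) → ℕ → ℂ) (par' : Fin m → Fin (m + 1))
    (hpar' : ∀ j, par j.castSucc = (par' j).castSucc) (k : ℕ) :
    ∀ (v : Fin (m + 1)) (x : ℕ), m + 2 ≤ (v : ℕ) + k →
      trs N K par g k v.castSucc x = trs N K par' (fun i x => g i.castSucc x *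
        (if par (Fin.last m) = i.castSucc then
          ∑ y ∈ Finset.range (N + 1), K x y * g (Fin.last (m + 1)) y else 1)) k v x := by
  induction k with
  | zero =>
    intro v x h
    have := v.isLt
    omega
  | succ k ih =>
    intro v x h
    rw [trs, trs, Finset.prod_filter, Finset.prod_filter, Fin.prod_univ_castSucc]
    have h1 : ∀ j : Fin m, (if par j.castSucc = v.castSucc then
        ∑ y ∈ Finset.range (N + 1), K x y * trs N K par g k j.castSucc.succ y else 1) =
        if par' j = v then ∑ y ∈ Finset.range (N + 1), K x y * trs N K par' (fun i x => g i.castSucc x *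
        (if par (Fin.last m) = i.castSucc then
          ∑ y ∈ Finset.range (N + 1), K x y * g (Fin.last (m + 1)) y else 1)) k j.succ y else 1 := by
      intro j
      rw [hpar' j]
      by_cases hj : par' j = v
      · rw [if_pos (by rw [hj]), if_pos hj]
        refine Finset.sum_congr rfl fun y _ => ?_
        rw [Fin.succ_castSucc, ih j.succ y]
        have h2 := hpar j.castSucc
        rw [hpar' j, hj, Fin.le_def] at h2
        simp only [Fin.val_castSucc] at h2
        rw [Fin.val_succ]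
        omega
      · rw [if_neg (fun h3 => hj (Fin.castSucc_injective _ h3)), if_neg hj]
    have h2 : (if par (Fin.last m) = v.castSucc then
        ∑ y ∈ Finset.range (N + 1), K x y * trs N K par g k (Fin.last m).succ y else 1) =
        if par (Fin.last m) = v.castSucc then
          ∑ y ∈ Finset.range (N + 1), K x y * g (Fin.last (m + 1)) y else 1 := by
      by_cases hj : par (Fin.last m) = v.castSucc
      · rw [if_pos hj, if_pos hj]
        refine Finset.sum_congr rfl fun y _ => ?_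
        rw [Fin.succ_last, TreeSum_last N K par hpar g k]
        have := v.isLt
        omega
      · rw [if_neg hj, if_neg hj]
    rw [Finset.prod_congr rfl fun j _ => h1 j, h2]
    ring

/-- splitting off the last coordinate -/
theorem TreeSum_snoc (m N : ℕ) (Φ : (Fin (m + 1) → ℕ) → ℂ) :
    ∑ X ∈ Fintype.piFinset (fun _ : Fin (m + 1) => Finset.range (N + 1)), Φ X =
      ∑ X ∈ Fintype.piFinset (fun _ : Fin m => Finset.range (N + 1)),
        ∑ y ∈ Finset.range (N + 1), Φ (Fin.snoc X y) := by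
  rw [← Finset.sum_product']
  symm
  refine Finset.sum_nbij' (fun Z : (Fin m → ℕ) × ℕ => (Fin.snoc Z.1 Z.2 : Fin (m + 1) → ℕ))
    (fun X : Fin (m + 1) → ℕ => (fun i => X i.castSucc, X (Fin.last m))) ?_ ?_ ?_ ?_ ?_
  · rintro ⟨X, y⟩ h
    rw [Finset.mem_product, Fintype.mem_piFinset] at h
    rw [Fintype.mem_piFinset]
    intro i
    refine Fin.lastCases ?_ (fun i => ?_) i
    · simpa using h.2
    · simpa using h.1 i
  · intro X h
    rw [Fintype.mem_piFinset] at h
    rw [Finset.mem_product, Fintype.mem_piFinset]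
    exact ⟨fun i => h _, h _⟩
  · rintro ⟨X, y⟩ _
    simp
  · intro X _
    funext i
    refine Fin.lastCases ?_ (fun i => ?_) i
    · simp
    · simp
  · intro Z _
    rfl

theorem trs_eq (N : ℕ) (K : ℕ → ℕ → ℂ) (m : ℕ) (par : Fin m → Fin (m + 1))
    (hpar : ∀ j, par j ≤ j.castSucc) (g : Fin (m + 1) → ℕ → ℂ) :
    ∑ x ∈ Finset.range (N + 1), trs N K par g (m + 1) 0 x =
      ∑ X ∈ Fintype.piFinset (fun _ : Fin (m + 1) => Finset.range (N + 1)),
        (∏ i, g i (X i)) * ∏ j, K (X (par j)) (X j.succ) := by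
  induction m with
  | zero =>
    rw [TreeSum_snoc]
    have h0 : Fintype.piFinset (fun _ : Fin 0 => Finset.range (N + 1)) =
        {(Fin.elim0 : Fin 0 → ℕ)} := by
      ext X
      rw [Fintype.mem_piFinset, Finset.mem_singleton]
      constructor
      · intro _
        funext i
        exact i.elim0
      · intro _ i
        exact i.elim0
    rw [h0, Finset.sum_singleton]
    refine Finset.sum_congr rfl fun y _ => ?_
    rw [trs]
    have hs : (Fin.snoc Fin.elim0 y : Fin 1 → ℕ) 0 = y :=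
      Fin.snoc_last (α := fun _ : Fin 1 => ℕ) y Fin.elim0
    simp [hs]
  | succ m ih =>
    have hlt : ∀ j : Fin m, (par j.castSucc : ℕ) < m + 1 := by
      intro j
      have h2 := hpar j.castSucc
      rw [Fin.le_def] at h2
      simp only [Fin.val_castSucc] at h2
      have := j.isLt
      omega
    set par' : Fin m → Fin (m + 1) := fun j => ⟨(par j.castSucc : ℕ), hlt j⟩ with hp'
    have hpar' : ∀ j, par j.castSucc = (par' j).castSucc := by
      intro j
      apply Fin.ext
      simp [hp']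
    have hle' : ∀ j, par' j ≤ j.castSucc := by
      intro j
      have h2 := hpar j.castSucc
      rw [Fin.le_def] at h2 ⊢
      simp only [Fin.val_castSucc] at h2 ⊢
      exact h2
    obtain ⟨p, hp⟩ : ∃ p : Fin (m + 1), par (Fin.last m) = p.castSucc := by
      have h2 := hpar (Fin.last m)
      rw [Fin.le_def] at h2
      simp only [Fin.val_castSucc, Fin.val_last] at h2
      exact ⟨⟨(par (Fin.last m) : ℕ), by omega⟩, by apply Fin.ext; simp⟩
    set g' : Fin (m + 1) → ℕ → ℂ := fun i x => g i.castSucc x *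
        (if par (Fin.last m) = i.castSucc then
          ∑ y ∈ Finset.range (N + 1), K x y * g (Fin.last (m + 1)) y else 1) with hg'
    have h1 : ∀ x, trs N K par g (m + 1 + 1) 0 x = trs N K par' g' (m + 1) 0 x := by
      intro x
      have h2 := TreeSum_remove N K par hpar g par' hpar' (m + 1 + 1) 0 x (by simp)
      rw [Fin.castSucc_zero] at h2
      rw [h2]
      exact TreeSum_stable N K par' hle' g' (m + 1) 0 x (by simp)
    rw [Finset.sum_congr rfl fun x _ => h1 x, ih par' hle' g', TreeSum_snoc (m + 1)]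
    refine Finset.sum_congr rfl fun X _ => ?_
    have h3 : ∏ i, g' i (X i) = (∏ i : Fin (m + 1), g i.castSucc (X i)) *
        ∑ y ∈ Finset.range (N + 1), K (X p) y * g (Fin.last (m + 1)) y := by
      simp only [hg']
      rw [Finset.prod_mul_distrib]
      congr 1
      rw [Finset.prod_eq_single p]
      · rw [if_pos hp]
      · intro i _ hi
        rw [if_neg]
        intro h4
        rw [hp] at h4
        exact hi (Fin.castSucc_injective _ h4).symm
      · intro h4
        exact absurd (Finset.mem_univ _) h4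
    rw [h3, mul_assoc, Finset.sum_mul, Finset.mul_sum]
    refine Finset.sum_congr rfl fun y _ => ?_
    have h4 : ∀ j : Fin m, K ((Fin.snoc X y : Fin (m + 2) → ℕ) (par j.castSucc))
        ((Fin.snoc X y : Fin (m + 2) → ℕ) j.castSucc.succ) = K (X (par' j)) (X j.succ) := by
      intro j
      rw [hpar' j, Fin.succ_castSucc, Fin.snoc_castSucc, Fin.snoc_castSucc]
    have h5 : ∏ i : Fin (m + 2), g i ((Fin.snoc X y : Fin (m + 2) → ℕ) i) =
        (∏ i : Fin (m + 1), g i.castSucc (X i)) * g (Fin.last (m + 1)) y := by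
      rw [Fin.prod_univ_castSucc]
      simp only [Fin.snoc_castSucc, Fin.snoc_last]
    have h6 : ∏ j : Fin (m + 1), K ((Fin.snoc X y : Fin (m + 2) → ℕ) (par j))
        ((Fin.snoc X y : Fin (m + 2) → ℕ) j.succ) =
        (∏ j : Fin m, K (X (par' j)) (X j.succ)) * K (X p) y := by
      rw [Fin.prod_univ_castSucc, Finset.prod_congr rfl fun j _ => h4 j, hp, Fin.succ_last]
      simp only [Fin.snoc_castSucc, Fin.snoc_last]
    rw [h5, h6]
    ring

end Pool.Agent.H63.VC10

end

section

/-! # The volume conjecture for double twist knots with many twists -/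

namespace Pool.Agent.H63.VC3

open Pool.Agent.H63.VC Complex Filter Topology

/-- From the asymptotics of the absolute value to the limit of the logarithm. -/
theorem final_log (J : ℕ → ℂ) (a : ℕ) (ha : 1 ≤ a) (e H κ : ℝ) (hκ : 0 < κ)
    (h : Tendsto (fun N : ℕ => ‖J N‖ / (((N + a : ℕ) : ℝ) ^ e * Real.exp ((N + a : ℕ) * H)))
      atTop (𝓝 κ)) :
    Tendsto (fun N : ℕ => 2 * (Real.pi : ℂ) * Complex.log (J N) / (N + 1)) atTop
      (𝓝 ((2 * Real.pi * H : ℝ) : ℂ)) := by
  have hN1 : ∀ N : ℕ, (0 : ℝ) < (N : ℝ) + 1 := fun N => by positivity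
  -- real part
  have hlogk : Tendsto (fun N : ℕ => Real.log (‖J N‖ / (((N + a : ℕ) : ℝ) ^ e *
      Real.exp ((N + a : ℕ) * H)))) atTop (𝓝 (Real.log κ)) :=
    (Real.continuousAt_log hκ.ne').tendsto.comp h
  have hinv : Tendsto (fun N : ℕ => (1 : ℝ) / ((N : ℝ) + 1)) atTop (𝓝 0) :=
    tendsto_one_div_add_atTop_nhds_zero_nat
  have h1 : Tendsto (fun N : ℕ => Real.log (‖J N‖ / (((N + a : ℕ) : ℝ) ^ e *
      Real.exp ((N + a : ℕ) * H))) * (1 / ((N : ℝ) + 1))) atTop (𝓝 0) := by
    simpa using hlogk.mul hinv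
  have h2 : Tendsto (fun N : ℕ => ((N + a : ℕ) : ℝ) * (1 / ((N : ℝ) + 1))) atTop (𝓝 1) := by
    have := tendsto_ratio a
    refine this.congr fun N => ?_
    rw [mul_one_div]
  have h3 : Tendsto (fun N : ℕ => Real.log ((N + a : ℕ) : ℝ) * (1 / ((N : ℝ) + 1))) atTop (𝓝 0) := by
    have hl := tendsto_log_ratio a
    refine hl.congr fun N => ?_
    rw [mul_one_div]
  have hpos : ∀ᶠ N : ℕ in atTop, 0 < ‖J N‖ / (((N + a : ℕ) : ℝ) ^ e *
      Real.exp ((N + a : ℕ) * H)) := h.eventually (lt_mem_nhds hκ)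
  have hre : Tendsto (fun N : ℕ => Real.log ‖J N‖ * (1 / ((N : ℝ) + 1))) atTop (𝓝 H) := by
    have h4 := (h1.add (h3.const_mul e)).add (h2.mul_const H)
    simp only [zero_add, mul_zero, one_mul] at h4
    refine h4.congr' ?_
    filter_upwards [hpos] with N hN
    have hM : (0 : ℝ) < ((N + a : ℕ) : ℝ) := by exact_mod_cast (by omega : 0 < N + a)
    have hp : 0 < ((N + a : ℕ) : ℝ) ^ e := Real.rpow_pos_of_pos hM e
    have hJ : 0 < ‖J N‖ := by
      rcases (norm_nonneg (J N)).eq_or_lt with h0 | h0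
      · rw [← h0, zero_div] at hN; exact absurd hN (lt_irrefl _)
      · exact h0
    rw [Real.log_div hJ.ne' (mul_pos hp (Real.exp_pos _)).ne', Real.log_mul hp.ne'
      (Real.exp_pos _).ne', Real.log_exp, Real.log_rpow hM]
    ring
  have him : Tendsto (fun N : ℕ => (Complex.log (J N)).im * (1 / ((N : ℝ) + 1))) atTop (𝓝 0) := by
    have hb : Tendsto (fun N : ℕ => Real.pi * (1 / ((N : ℝ) + 1))) atTop (𝓝 0) := by
      simpa using hinv.const_mul Real.pi
    refine squeeze_zero_norm (fun N => ?_) hb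
    rw [norm_mul, Real.norm_eq_abs, Real.norm_eq_abs, abs_of_pos (by have := hN1 N; positivity :
      (0 : ℝ) < 1 / ((N : ℝ) + 1))]
    apply mul_le_mul_of_nonneg_right _ (by have := hN1 N; positivity)
    rw [Complex.log_im]
    exact Complex.abs_arg_le_pi _
  have hc : Tendsto (fun N : ℕ => ((Real.log ‖J N‖ * (1 / ((N : ℝ) + 1)) : ℝ) : ℂ) +
      (((Complex.log (J N)).im * (1 / ((N : ℝ) + 1)) : ℝ) : ℂ) * I) atTop (𝓝 ((H : ℂ) + ((0 : ℝ) : ℂ) * I)) :=
    ((Complex.continuous_ofReal.tendsto H).comp hre).add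
      (((Complex.continuous_ofReal.tendsto 0).comp him).mul_const I)
  have hc2 := hc.const_mul (2 * (Real.pi : ℂ))
  have e1 : 2 * (Real.pi : ℂ) * ((H : ℂ) + ((0 : ℝ) : ℂ) * I) = ((2 * Real.pi * H : ℝ) : ℂ) := by
    push_cast; ring
  rw [e1] at hc2
  refine hc2.congr fun N => ?_
  have h5 : Complex.log (J N) = ((Real.log ‖J N‖ : ℝ) : ℂ) + (((Complex.log (J N)).im : ℝ) : ℂ) * I := by
    apply Complex.ext
    · simp [Complex.log_re]
    · simp
  conv_rhs => rw [h5]
  push_cast
  ring

end Pool.Agent.H63.VC3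

end

section

/-! # Logarithms of a sequence with an exponential asymptotics -/

namespace Pool.Agent.H63.VC6

open Complex Filter Topology

/-- If `J N ~ κ (N + a) ^ e exp ((N + a) W / 2 π)`, then there are logarithms `L N` of `J N` with
`2 π L N / (N + 1) → W`. -/
theorem log_lift (J : ℕ → ℂ) (a : ℕ) (ha : 1 ≤ a) (e : ℝ) (W κ : ℂ) (hκ : κ ≠ 0)
    (h : Tendsto (fun N : ℕ => J N / ((((N : ℝ) + a) ^ e : ℝ) *
      exp ((N + a) * W / (2 * Real.pi)))) atTop (𝓝 κ)) :
    ∃ L : ℕ → ℂ, (∀ᶠ N in atTop, exp (L N) = J N) ∧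
      Tendsto (fun N : ℕ => 2 * (Real.pi : ℂ) * L N / (N + 1)) atTop (𝓝 W) := by
  set q : ℕ → ℂ := fun N => J N / ((((N : ℝ) + a) ^ e : ℝ) * exp ((N + a) * W / (2 * Real.pi)))
    with hq
  have hπ : (Real.pi : ℂ) ≠ 0 := by exact_mod_cast Real.pi_ne_zero
  have hpos : ∀ N : ℕ, (0 : ℝ) < (N : ℝ) + a := fun N => by
    have : (1 : ℝ) ≤ a := by exact_mod_cast ha
    positivity
  have hpow : ∀ N : ℕ, (0 : ℝ) < ((N : ℝ) + a) ^ e := fun N => Real.rpow_pos_of_pos (hpos N) _
  have h1 : Tendsto (fun N => q N / κ) atTop (𝓝 1) := by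
    have := h.div_const κ
    rwa [div_self hκ] at this
  refine ⟨fun N => log (q N / κ) + log κ + e * Real.log ((N : ℝ) + a) +
    (N + a) * W / (2 * Real.pi), ?_, ?_⟩
  · have hne : ∀ᶠ N in atTop, q N / κ ≠ 0 := h1.eventually_ne one_ne_zero
    filter_upwards [hne] with N hN
    rw [exp_add, exp_add, exp_add, exp_log hN, exp_log hκ, div_mul_cancel₀ _ hκ]
    have h2 : exp ((e : ℂ) * (Real.log ((N : ℝ) + a) : ℝ)) = ((((N : ℝ) + a) ^ e : ℝ) : ℂ) := by
      rw [← ofReal_mul, ← ofReal_exp, Real.rpow_def_of_pos (hpos N)]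
      congr 2
      ring
    rw [h2]
    show J N / _ * _ * _ = J N
    have h3 : ((((N : ℝ) + a) ^ e : ℝ) : ℂ) ≠ 0 := by exact_mod_cast (hpow N).ne'
    have h4 := exp_ne_zero ((N + a) * W / (2 * Real.pi))
    field_simp
  · have hN1 : Tendsto (fun N : ℕ => 1 / ((N : ℝ) + 1)) atTop (𝓝 0) :=
      tendsto_one_div_add_atTop_nhds_zero_nat
    have hN1c : Tendsto (fun N : ℕ => 1 / ((N : ℂ) + 1)) atTop (𝓝 0) := by
      have := (continuous_ofReal.tendsto (0 : ℝ)).comp hN1
      simp only [ofReal_zero] at this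
      refine this.congr fun N => ?_
      simp
    have t1 : Tendsto (fun N : ℕ => 2 * (Real.pi : ℂ) * (log (q N / κ) + log κ) *
        (1 / ((N : ℂ) + 1))) atTop (𝓝 (2 * (Real.pi : ℂ) * (log 1 + log κ) * 0)) := by
      refine Tendsto.mul (Tendsto.const_mul _ (Tendsto.add_const _ ?_)) hN1c
      exact (continuousAt_clog (by simp)).tendsto.comp h1
    have t2 : Tendsto (fun N : ℕ => Real.log ((N : ℝ) + a) / ((N : ℝ) + 1)) atTop (𝓝 0) := by
      have u1 : Tendsto (fun x : ℝ => Real.log x / (1 * x + (1 - a))) atTop (𝓝 0) := by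
        simpa using Real.tendsto_pow_log_div_mul_add_atTop 1 (1 - (a : ℝ)) 1 one_ne_zero
      have u2 : Tendsto (fun N : ℕ => (N : ℝ) + a) atTop atTop :=
        tendsto_atTop_add_const_right _ _ tendsto_natCast_atTop_atTop
      refine (u1.comp u2).congr fun N => ?_
      simp only [Function.comp]
      congr 1
      ring
    have t2c : Tendsto (fun N : ℕ => 2 * (Real.pi : ℂ) * e *
        ((Real.log ((N : ℝ) + a) / ((N : ℝ) + 1) : ℝ) : ℂ)) atTop
        (𝓝 (2 * (Real.pi : ℂ) * e * ((0 : ℝ) : ℂ))) :=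
      Tendsto.const_mul _ ((continuous_ofReal.tendsto (0 : ℝ)).comp t2)
    have t3 : Tendsto (fun N : ℕ => W + W * (a - 1) * (1 / ((N : ℂ) + 1))) atTop
        (𝓝 (W + W * (a - 1) * 0)) := Tendsto.const_add _ (Tendsto.const_mul _ hN1c)
    have t := (t1.add t2c).add t3
    simp only [mul_zero, ofReal_zero, add_zero, zero_add] at t
    refine t.congr fun N => ?_
    have hN : ((N : ℂ) + 1) ≠ 0 := by exact_mod_cast Nat.succ_ne_zero N
    push_cast
    field_simp
    ring

end Pool.Agent.H63.VC6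

end

section

/-! # Second order expansion of the potential function at the critical point -/

namespace Pool.Agent.H63.VC3

open Complex Filter Topology

/-- Second order Taylor expansion with Peano remainder. -/
theorem Taylor2_peano {Φ G : ℝ → ℂ} {c : ℂ} (h : ∀ᶠ s in 𝓝 (0 : ℝ), HasDerivAt Φ (G s) s)
    (h0 : G 0 = 0) (hG : HasDerivAt G c 0) :
    Tendsto (fun s : ℝ => (Φ s - Φ 0) / (s : ℂ) ^ 2) (𝓝[≠] 0) (𝓝 (c / 2)) := by
  rw [Metric.tendsto_nhdsWithin_nhds]
  intro ε hε
  have hG' := hG.isLittleO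
  rw [Asymptotics.isLittleO_iff] at hG'
  have hev := hG' (show (0 : ℝ) < ε / 2 by positivity)
  have hboth := hev.and h
  rw [Metric.eventually_nhds_iff] at hboth
  obtain ⟨δ, hδ, hb⟩ := hboth
  refine ⟨δ, hδ, ?_⟩
  intro s hs0 hsd
  have hs0' : s ≠ 0 := hs0
  have hsabs : |s| < δ := by simpa [Real.dist_eq] using hsd
  -- the remainder
  set ψ : ℝ → ℂ := fun t => Φ t - Φ 0 - c * (t : ℂ) ^ 2 / 2 with hψ
  have hder : ∀ t ∈ Metric.closedBall (0 : ℝ) |s|, HasDerivWithinAt ψ (G t - c * t)
      (Metric.closedBall (0 : ℝ) |s|) t := by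
    intro t ht
    have ht' : dist t 0 < δ := lt_of_le_of_lt (by simpa [Real.dist_eq] using ht) hsabs
    have h1 := (hb ht').2
    have h2 : HasDerivAt (fun t : ℝ => (t : ℂ)) 1 t := Complex.ofRealCLM.hasDerivAt (x := t)
    have h3 : HasDerivAt (fun t : ℝ => c * (t : ℂ) ^ 2 / 2) (c * t) t := by
      have h4 := ((h2.pow 2).const_mul c).div_const 2
      refine h4.congr_deriv ?_
      simp
      ring
    exact ((h1.sub_const (Φ 0)).sub h3).hasDerivWithinAt
  have hbound : ∀ t ∈ Metric.closedBall (0 : ℝ) |s|, ‖G t - c * t‖ ≤ ε / 2 * |s| := by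
    intro t ht
    have ht1 : |t| ≤ |s| := by simpa [Real.dist_eq] using ht
    have ht' : dist t 0 < δ := lt_of_le_of_lt (by simpa [Real.dist_eq] using ht1) hsabs
    have h1 := (hb ht').1
    rw [h0] at h1
    simp only [sub_zero, Complex.real_smul] at h1
    rw [mul_comm c]
    refine h1.trans ?_
    rw [Real.norm_eq_abs]
    gcongr
  have hmv := (convex_closedBall (0 : ℝ) |s|).norm_image_sub_le_of_norm_hasDerivWithin_le
    hder hbound (x := 0) (y := s) (by simp) (by simp)
  have hψ0 : ψ 0 = 0 := by simp [hψ]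
  rw [hψ0, sub_zero, sub_zero, Real.norm_eq_abs] at hmv
  have hsc : (s : ℂ) ≠ 0 := by exact_mod_cast hs0'
  have key : (Φ s - Φ 0) / (s : ℂ) ^ 2 - c / 2 = ψ s / (s : ℂ) ^ 2 := by
    simp only [hψ]
    field_simp
  rw [dist_eq_norm, key, norm_div, norm_pow, Complex.norm_real, Real.norm_eq_abs]
  have hspos : 0 < |s| := abs_pos.mpr hs0'
  rw [div_lt_iff₀ (by positivity)]
  calc ‖ψ s‖ ≤ ε / 2 * |s| * |s| := hmv
    _ < ε * |s| ^ 2 := by nlinarith only [mul_pos hε (pow_pos hspos 2)]

/-- The derivative of `hh`. -/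
noncomputable def Taylor2_F (z : ℂ) : ℂ := Real.pi * Complex.cot (Real.pi * z)

/-- derivative of `f (z + s t)` at real `s`. -/
theorem Taylor2_comp {f : ℂ → ℂ} {f' z t : ℂ} {s : ℝ} (h : HasDerivAt f f' (z + s * t)) :
    HasDerivAt (fun s : ℝ => f (z + s * t)) (f' * t) s := by
  have h1 : HasDerivAt (fun s : ℂ => z + s * t) t (s : ℂ) := by
    simpa using ((hasDerivAt_id (s : ℂ)).mul_const t).const_add z
  have h2 : HasDerivAt (fun s : ℂ => f (z + s * t)) (f' * t) (s : ℂ) :=
    HasDerivAt.comp (s : ℂ) h h1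
  exact h2.comp_ofReal

end Pool.Agent.H63.VC3

end

section

/-! # The second order expansion at the critical point -/

namespace Pool.Agent.H63.VC6

open Pool.Agent.H63.VC3 Complex Filter Topology
open scoped BigOperators

/-- Linear forms. -/
def TaylorN_IsL {ι : Type*} [Fintype ι] (l : (ι → ℝ) → ℂ) : Prop :=
  ∃ L : ι → ℂ, ∀ ξ, l ξ = ∑ a, L a * ξ a

/-- Quadratic forms. -/
def TaylorN_IsQ {ι : Type*} [Fintype ι] (Q : (ι → ℝ) → ℂ) : Prop :=
  ∃ q : ι → ι → ℂ, (∀ a b, q a b = q b a) ∧ ∀ ξ, Q ξ = ∑ a, ∑ b, q a b * ξ a * ξ b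

theorem TaylorN_eval {ι : Type*} [Fintype ι] [DecidableEq ι] (i : ι) :
    TaylorN_IsL (fun ξ : ι → ℝ => (ξ i : ℂ)) := by
  refine ⟨Pi.single i 1, fun ξ => ?_⟩
  rw [Finset.sum_eq_single i]
  · simp
  · intro b _ hb
    simp [Pi.single_eq_of_ne hb]
  · intro h
    exact absurd (Finset.mem_univ i) h

theorem TaylorN_addL {ι : Type*} [Fintype ι] {l l' : (ι → ℝ) → ℂ} (h : TaylorN_IsL l)
    (h' : TaylorN_IsL l') : TaylorN_IsL (fun ξ => l ξ + l' ξ) := by
  obtain ⟨L, hL⟩ := h
  obtain ⟨L', hL'⟩ := h'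
  refine ⟨fun a => L a + L' a, fun ξ => ?_⟩
  beta_reduce
  rw [hL, hL', ← Finset.sum_add_distrib]
  exact Finset.sum_congr rfl fun a _ => by ring

theorem TaylorN_subL {ι : Type*} [Fintype ι] {l l' : (ι → ℝ) → ℂ} (h : TaylorN_IsL l)
    (h' : TaylorN_IsL l') : TaylorN_IsL (fun ξ => l ξ - l' ξ) := by
  obtain ⟨L, hL⟩ := h
  obtain ⟨L', hL'⟩ := h'
  refine ⟨fun a => L a - L' a, fun ξ => ?_⟩
  beta_reduce
  rw [hL, hL', ← Finset.sum_sub_distrib]
  exact Finset.sum_congr rfl fun a _ => by ring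

theorem TaylorN_sq {ι : Type*} [Fintype ι] (c : ℂ) {l : (ι → ℝ) → ℂ} (h : TaylorN_IsL l) :
    TaylorN_IsQ (fun ξ => c * l ξ ^ 2) := by
  obtain ⟨L, hL⟩ := h
  refine ⟨fun a b => c * (L a * L b), fun a b => by ring, fun ξ => ?_⟩
  beta_reduce
  rw [hL, sq, Finset.sum_mul_sum, Finset.mul_sum]
  refine Finset.sum_congr rfl fun a _ => ?_
  rw [Finset.mul_sum]
  exact Finset.sum_congr rfl fun b _ => by ring

theorem TaylorN_addQ {ι : Type*} [Fintype ι] {Q Q' : (ι → ℝ) → ℂ} (h : TaylorN_IsQ Q)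
    (h' : TaylorN_IsQ Q') : TaylorN_IsQ (fun ξ => Q ξ + Q' ξ) := by
  obtain ⟨q, hs, hq⟩ := h
  obtain ⟨q', hs', hq'⟩ := h'
  refine ⟨fun a b => q a b + q' a b, fun a b => by beta_reduce; rw [hs, hs'], fun ξ => ?_⟩
  beta_reduce
  rw [hq, hq', ← Finset.sum_add_distrib]
  refine Finset.sum_congr rfl fun a _ => ?_
  rw [← Finset.sum_add_distrib]
  exact Finset.sum_congr rfl fun b _ => by ring

theorem TaylorN_sumQ {ι κ : Type*} [Fintype ι] (s : Finset κ) {Q : κ → (ι → ℝ) → ℂ}
    (h : ∀ k, TaylorN_IsQ (Q k)) : TaylorN_IsQ (fun ξ => ∑ k ∈ s, Q k ξ) := by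
  classical
  induction s using Finset.induction_on with
  | empty => exact ⟨fun _ _ => 0, fun _ _ => rfl, fun ξ => by simp⟩
  | insert k s hk ih =>
    have := TaylorN_addQ (h k) ih
    simpa [Finset.sum_insert hk] using this

theorem TaylorN_lin (z t : ℂ) (s : ℝ) : HasDerivAt (fun s : ℝ => z + s * t) t s := by
  have := Taylor2_comp (f := fun z => z) (f' := 1) (z := z) (t := t) (s := s)
    (hasDerivAt_id _)
  simpa using this

end Pool.Agent.H63.VC6

end

section

/-! # The Laplace method -/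

namespace Pool.Agent.H63.VC4

open Complex Filter Topology
open scoped BigOperators

/-- Change of variables. -/
private theorem LaplaceN_subst {ι : Type*} [Fintype ι] (f : (ι → ℝ) → ℂ) (p : ι → ℝ) {M : ℕ}
    (hM : 0 < M) :
    (((M : ℝ) ^ ((Fintype.card ι : ℝ) / 2) : ℝ) : ℂ) * ∫ z, f z =
      ∫ ξ, f (p + (1 / Real.sqrt M) • ξ) := by
  have hM0 : (0 : ℝ) < M := by exact_mod_cast hM
  have hs : 0 < Real.sqrt M := Real.sqrt_pos.2 hM0
  have h1 : ∫ ξ, f (p + (1 / Real.sqrt M) • ξ) =
      |(((1 / Real.sqrt M) : ℝ) ^ (Module.finrank ℝ (ι → ℝ)))⁻¹| • ∫ z, f (p + z) :=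
    MeasureTheory.Measure.integral_comp_smul MeasureTheory.volume (fun z => f (p + z))
      (1 / Real.sqrt M)
  have h2 : ∫ z, f (p + z) = ∫ z, f z :=
    MeasureTheory.integral_add_left_eq_self f p
  have h3 : Module.finrank ℝ (ι → ℝ) = Fintype.card ι := Module.finrank_fintype_fun_eq_card ℝ
  have h4 : |(((1 / Real.sqrt M) : ℝ) ^ (Fintype.card ι))⁻¹| =
      (M : ℝ) ^ ((Fintype.card ι : ℝ) / 2) := by
    rw [abs_of_pos (by positivity)]
    rw [one_div, inv_pow, inv_inv, Real.sqrt_eq_rpow, ← Real.rpow_natCast, ← Real.rpow_mul hM0.le]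
    congr 1
    ring
  rw [h1, h2, h3, h4]
  simp

private theorem LaplaceN_bound_int {ι : Type*} [Fintype ι] (K : ℝ) {c : ℝ} (hc : 0 < c) :
    MeasureTheory.Integrable (fun ξ : ι → ℝ => K * Real.exp (-c * ∑ i, ξ i ^ 2)) := by
  have h1 : MeasureTheory.Integrable (fun x : ℝ => Real.exp (-c * x ^ 2)) :=
    integrable_exp_neg_mul_sq hc
  have h2 := (MeasureTheory.Integrable.fintype_prod (ι := ι) (𝕜 := ℝ)
    (f := fun _ x => Real.exp (-c * x ^ 2)) (fun _ => h1)).const_mul K
  refine h2.congr (Filter.Eventually.of_forall fun ξ => ?_)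
  simp only
  rw [← Real.exp_sum, Finset.mul_sum]

private theorem LaplaceN_qmp {ι : Type*} [Fintype ι] (p : ι → ℝ) {s : ℝ} (hs : s ≠ 0) :
    MeasureTheory.Measure.QuasiMeasurePreserving (fun ξ : ι → ℝ => p + s • ξ)
      MeasureTheory.volume MeasureTheory.volume := by
  have h1 : MeasureTheory.Measure.QuasiMeasurePreserving (fun ξ : ι → ℝ => s • ξ)
      MeasureTheory.volume MeasureTheory.volume := by
    refine ⟨measurable_const_smul s, ?_⟩
    rw [MeasureTheory.Measure.map_addHaar_smul MeasureTheory.volume hs]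
    exact MeasureTheory.Measure.smul_absolutelyContinuous
  exact (MeasureTheory.measurePreserving_add_left MeasureTheory.volume p).quasiMeasurePreserving.comp
    h1

theorem laplaceN {ι : Type*} [Fintype ι] (φ : (ι → ℝ) → ℂ) (p : ι → ℝ) (A : ℕ → (ι → ℝ) → ℂ)
    (K c : ℝ) (hc : 0 < c) (Q : (ι → ℝ) → ℂ) (a : ℂ)
    (hmeas : ∀ᶠ M in atTop, MeasureTheory.AEStronglyMeasurable
      (fun z => A M z * exp (M * (φ z - φ p))) MeasureTheory.volume)
    (hA : ∀ᶠ M in atTop, ∀ z, ‖A M z‖ ≤ K)
    (hdec : ∀ᶠ M in atTop, ∀ z, A M z ≠ 0 → (φ z - φ p).re ≤ -c * ∑ i, (z i - p i) ^ 2)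
    (hAlim : ∀ ξ : ι → ℝ, Tendsto (fun M : ℕ => A M (p + (1 / Real.sqrt M) • ξ)) atTop (𝓝 a))
    (hφlim : ∀ ξ : ι → ℝ, Tendsto (fun M : ℕ =>
      (M : ℂ) * (φ (p + (1 / Real.sqrt M) • ξ) - φ p)) atTop (𝓝 (-Q ξ))) :
    Tendsto (fun M : ℕ => (((M : ℝ) ^ ((Fintype.card ι : ℝ) / 2) : ℝ) : ℂ) *
      ∫ z, A M z * exp (M * (φ z - φ p))) atTop (𝓝 (a * ∫ ξ, exp (-Q ξ))) := by
  rw [← MeasureTheory.integral_const_mul]
  have hev : (fun M : ℕ => ∫ ξ, A M (p + (1 / Real.sqrt M) • ξ) *
      exp (M * (φ (p + (1 / Real.sqrt M) • ξ) - φ p))) =ᶠ[atTop]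
      (fun M : ℕ => (((M : ℝ) ^ ((Fintype.card ι : ℝ) / 2) : ℝ) : ℂ) *
        ∫ z, A M z * exp (M * (φ z - φ p))) := by
    filter_upwards [eventually_gt_atTop 0] with M hM
    exact (LaplaceN_subst (fun z => A M z * exp (M * (φ z - φ p))) p hM).symm
  refine Tendsto.congr' hev ?_
  refine MeasureTheory.tendsto_integral_filter_of_dominated_convergence
    (fun ξ : ι → ℝ => K * Real.exp (-c * ∑ i, ξ i ^ 2)) ?_ ?_
    (LaplaceN_bound_int K hc) ?_
  · filter_upwards [hmeas, eventually_gt_atTop 0] with M h1 hM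
    have hM0 : (0 : ℝ) < M := by exact_mod_cast hM
    have hs : 0 < Real.sqrt M := Real.sqrt_pos.2 hM0
    exact h1.comp_quasiMeasurePreserving (LaplaceN_qmp p (one_div_pos.2 hs).ne')
  · filter_upwards [hA, hdec, eventually_gt_atTop 0] with M h1 h2 hM
    refine Filter.Eventually.of_forall fun ξ => ?_
    have hM0 : (0 : ℝ) < M := by exact_mod_cast hM
    have hs : 0 < Real.sqrt M := Real.sqrt_pos.2 hM0
    have hss : Real.sqrt M ^ 2 = M := Real.sq_sqrt hM0.le
    set z : ι → ℝ := p + (1 / Real.sqrt M) • ξ with hz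
    have hK : 0 ≤ K := (norm_nonneg _).trans (h1 z)
    by_cases h0 : A M z = 0
    · rw [h0, zero_mul, norm_zero]
      positivity
    · have h3 := h2 z h0
      have e1 : ∑ i, (z i - p i) ^ 2 = (∑ i, ξ i ^ 2) / M := by
        rw [Finset.sum_div]
        refine Finset.sum_congr rfl fun i _ => ?_
        have : z i - p i = ξ i / Real.sqrt M := by
          rw [hz]; simp; ring
        rw [this, div_pow, hss]
      rw [e1] at h3
      rw [norm_mul, Complex.norm_exp]
      refine mul_le_mul (h1 z) ?_ (Real.exp_pos _).le hK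
      apply Real.exp_le_exp.2
      have h4 : ((M : ℂ) * (φ z - φ p)).re = M * (φ z - φ p).re := by
        simp
      rw [h4]
      calc (M : ℝ) * (φ z - φ p).re
          ≤ M * (-c * ((∑ i, ξ i ^ 2) / M)) :=
            mul_le_mul_of_nonneg_left h3 hM0.le
        _ = -c * ∑ i, ξ i ^ 2 := by
            field_simp
  · refine Filter.Eventually.of_forall fun ξ => ?_
    refine (hAlim ξ).mul ?_
    exact (Complex.continuous_exp.tendsto _).comp (hφlim ξ)

end Pool.Agent.H63.VC4

end

section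

/-! # Complex Gaussian integrals -/

namespace Pool.Agent.H63.VC4

open Complex MeasureTheory
open scoped BigOperators

theorem GaussN_inner {q s r : ℂ} (hq : 0 < q.re) :
    ∫ y : ℝ, exp (-(q * y ^ 2 + 2 * s * y + r)) = (Real.pi / q) ^ (1 / 2 : ℂ) * exp (-(r - s ^ 2 / q)) := by
  have hq0 : q ≠ 0 := by
    rintro rfl
    simp at hq
  have h1 := integral_cexp_quadratic (b := -q) (by simpa using hq) (-(2 * s)) (-r)
  have h2 : (fun a : ℝ => exp (-(q * a ^ 2 + 2 * s * a + r))) =
      fun a : ℝ => exp (-q * a ^ 2 + -(2 * s) * a + -r) := by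
    funext a
    congr 1
    ring
  rw [h2, h1]
  congr 1
  · rw [neg_neg]
  · congr 1
    field_simp
    ring

theorem GaussN_expand {n : ℕ} (q : Fin (n + 1) → Fin (n + 1) → ℂ) (hq0 : ∀ a b, q a b = q b a)
    (y : ℂ) (x : Fin n → ℂ) :
    ∑ a, ∑ b, q a b * (Fin.cons y x : Fin (n + 1) → ℂ) a * (Fin.cons y x : Fin (n + 1) → ℂ) b =
      q 0 0 * y ^ 2 + 2 * (∑ b : Fin n, q 0 b.succ * x b) * y + ∑ a : Fin n, ∑ b : Fin n, q a.succ b.succ * x a * x b := by
  rw [Fin.sum_univ_succ]
  simp only [Fin.sum_univ_succ (n := n), Fin.cons_zero, Fin.cons_succ]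
  rw [Finset.sum_add_distrib]
  have h1 : ∑ a : Fin n, q a.succ 0 * x a * y = (∑ b : Fin n, q 0 b.succ * x b) * y := by
    rw [Finset.sum_mul]
    apply Finset.sum_congr rfl
    intro a _
    rw [hq0 a.succ 0]
  have h2 : ∑ a : Fin n, q 0 a.succ * y * x a = (∑ b : Fin n, q 0 b.succ * x b) * y := by
    rw [Finset.sum_mul]
    apply Finset.sum_congr rfl
    intro a _
    ring
  rw [h1, h2]
  ring

theorem GaussN_int {ι : Type*} [Fintype ι] (q : ι → ι → ℂ) (c : ℝ)
    (hc : 0 < c) (hq : ∀ ξ : ι → ℝ, c * ∑ a, ξ a ^ 2 ≤ (∑ a, ∑ b, q a b * ξ a * ξ b).re) :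
    Integrable (fun ξ : ι → ℝ => exp (-∑ a, ∑ b, q a b * ξ a * ξ b)) := by
  have h1 : Integrable (fun ξ : ι → ℝ => ∏ a, Real.exp (-c * ξ a ^ 2)) :=
    Integrable.fintype_prod (f := fun _ x => Real.exp (-c * x ^ 2)) (fun _ => integrable_exp_neg_mul_sq hc)
  refine h1.mono' ?_ (Filter.Eventually.of_forall fun ξ => ?_)
  · apply Continuous.aestronglyMeasurable
    fun_prop
  · rw [Complex.norm_exp, ← Real.exp_sum]
    apply Real.exp_le_exp.2
    rw [Complex.neg_re]
    have := hq ξ
    have e : ∑ a, -c * ξ a ^ 2 = -(c * ∑ a, ξ a ^ 2) := by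
      rw [Finset.mul_sum, ← Finset.sum_neg_distrib]
      apply Finset.sum_congr rfl
      intro a _
      ring
    rw [e]
    linarith

theorem GaussN_fin (n : ℕ) : ∀ (q : Fin n → Fin n → ℂ) (_ : ∀ a b, q a b = q b a) (c : ℝ) (_ : 0 < c)
    (_ : ∀ ξ : Fin n → ℝ, c * ∑ a, ξ a ^ 2 ≤ (∑ a, ∑ b, q a b * ξ a * ξ b).re),
    ∫ ξ : Fin n → ℝ, exp (-∑ a, ∑ b, q a b * ξ a * ξ b) ≠ 0 := by
  induction n with
  | zero =>
    intro q _ c _ _
    simp [MeasureTheory.integral_const, MeasureTheory.Measure.real, MeasureTheory.volume_pi]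
  | succ n ih =>
    intro q hq0 c hc hq
    have hre : 0 < (q 0 0).re := by
      have h := hq (Fin.cons 1 0)
      have e := GaussN_expand q hq0 1 (fun _ => 0)
      have e2 : ∀ a : Fin (n + 1), (((Fin.cons 1 0 : Fin (n + 1) → ℝ) a : ℝ) : ℂ) =
          (Fin.cons 1 (fun _ => 0) : Fin (n + 1) → ℂ) a := by
        intro a
        refine Fin.cases ?_ (fun i => ?_) a
        · simp
        · simp
      simp only [e2] at h
      rw [e] at h
      rw [Fin.sum_univ_succ] at h
      simp at h
      linarith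
    have hq00 : q 0 0 ≠ 0 := by
      intro h0
      rw [h0] at hre
      simp at hre
    have hcast : ∀ (y : ℝ) (x : Fin n → ℝ) (a : Fin (n + 1)), (((Fin.cons y x : Fin (n + 1) → ℝ) a : ℝ) : ℂ) =
          (Fin.cons (y : ℂ) (fun i => (x i : ℂ)) : Fin (n + 1) → ℂ) a := by
      intro y x a
      refine Fin.cases ?_ (fun i => ?_) a
      · simp
      · simp
    have hint := GaussN_int q c hc hq
    have hmp := (MeasureTheory.volume_preserving_piFinSuccAbove (fun _ : Fin (n + 1) => ℝ) 0).symm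
    rw [← hmp.integral_comp (MeasurableEquiv.measurableEmbedding _)]
    have hint2 := (hmp.integrable_comp_emb (MeasurableEquiv.measurableEmbedding _)).mpr hint
    have hfun : ∀ z : ℝ × (Fin n → ℝ), (MeasurableEquiv.piFinSuccAbove (fun _ : Fin (n + 1) => ℝ) 0).symm z =
        Fin.cons z.1 z.2 := by
      intro z
      exact Fin.insertNth_zero' z.1 z.2
    have hval : ∀ z : ℝ × (Fin n → ℝ), exp (-∑ a, ∑ b, q a b *
        (((MeasurableEquiv.piFinSuccAbove (fun _ : Fin (n + 1) => ℝ) 0).symm z a : ℝ) : ℂ) *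
        (((MeasurableEquiv.piFinSuccAbove (fun _ : Fin (n + 1) => ℝ) 0).symm z b : ℝ) : ℂ)) =
        exp (-(q 0 0 * (z.1 : ℂ) ^ 2 + 2 * (∑ b : Fin n, q 0 b.succ * (z.2 b : ℂ)) * (z.1 : ℂ) +
          ∑ a : Fin n, ∑ b : Fin n, q a.succ b.succ * (z.2 a : ℂ) * (z.2 b : ℂ))) := by
      intro z
      rw [hfun z]
      simp only [hcast]
      rw [GaussN_expand q hq0]
    have hint3 : Integrable (fun z : ℝ × (Fin n → ℝ) =>
        exp (-(q 0 0 * (z.1 : ℂ) ^ 2 + 2 * (∑ b : Fin n, q 0 b.succ * (z.2 b : ℂ)) * (z.1 : ℂ) +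
          ∑ a : Fin n, ∑ b : Fin n, q a.succ b.succ * (z.2 a : ℂ) * (z.2 b : ℂ)))) := by
      refine hint2.congr (Filter.Eventually.of_forall fun z => ?_)
      exact hval z
    simp only [hval]
    rw [Measure.volume_eq_prod, integral_prod_symm _ (by rw [← Measure.volume_eq_prod]; exact hint3)]
    simp only [GaussN_inner hre]
    rw [integral_const_mul]
    apply mul_ne_zero
    · rw [Ne, cpow_eq_zero_iff]
      intro h
      have h2 := h.1
      rw [div_eq_zero_iff] at h2
      rcases h2 with h2 | h2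
      · exact Real.pi_ne_zero (by exact_mod_cast h2)
      · exact hq00 h2
    · have hq' := ih (fun a b => q a.succ b.succ - q 0 a.succ * q 0 b.succ / q 0 0)
        (fun a b => by rw [hq0 a.succ b.succ]; ring) c hc ?_
      · have hQ : ∀ x : Fin n → ℝ, ∑ a : Fin n, ∑ b : Fin n,
            (q a.succ b.succ - q 0 a.succ * q 0 b.succ / q 0 0) * (x a : ℂ) * (x b : ℂ) =
            ∑ a : Fin n, ∑ b : Fin n, q a.succ b.succ * (x a : ℂ) * (x b : ℂ) -
              (∑ b : Fin n, q 0 b.succ * (x b : ℂ)) ^ 2 / q 0 0 := by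
          intro x
          rw [sq, Finset.sum_mul_sum, Finset.sum_div, ← Finset.sum_sub_distrib]
          apply Finset.sum_congr rfl
          intro a _
          rw [Finset.sum_div, ← Finset.sum_sub_distrib]
          apply Finset.sum_congr rfl
          intro b _
          ring
        simp only [hQ] at hq'
        exact hq'
      · intro x
        set s : ℂ := ∑ b : Fin n, q 0 b.succ * (x b : ℂ) with hs
        set r : ℂ := ∑ a : Fin n, ∑ b : Fin n, q a.succ b.succ * (x a : ℂ) * (x b : ℂ) with hr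
        set z : ℂ := -s / q 0 0 with hz
        have hsz : s = -(q 0 0 * z) := by rw [hz]; field_simp
        have e1 := hq (Fin.cons z.re x)
        have e2 := hq (Fin.cons z.im 0)
        simp only [hcast] at e1 e2
        rw [GaussN_expand q hq0, ← hs, ← hr] at e1
        rw [GaussN_expand q hq0] at e2
        rw [Fin.sum_univ_succ] at e1 e2
        simp only [Fin.cons_zero, Fin.cons_succ, Pi.zero_apply, Complex.ofReal_zero, mul_zero,
          Finset.sum_const_zero, zero_mul, add_zero, zero_pow (two_ne_zero)] at e1 e2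
        have hQ : ∑ a : Fin n, ∑ b : Fin n,
            (q a.succ b.succ - q 0 a.succ * q 0 b.succ / q 0 0) * (x a : ℂ) * (x b : ℂ) =
            r - s ^ 2 / q 0 0 := by
          rw [hs, hr, sq, Finset.sum_mul_sum, Finset.sum_div, ← Finset.sum_sub_distrib]
          apply Finset.sum_congr rfl
          intro a _
          rw [Finset.sum_div, ← Finset.sum_sub_distrib]
          apply Finset.sum_congr rfl
          intro b _
          ring
        rw [hQ]
        have key : r - s ^ 2 / q 0 0 = (q 0 0 * (z.re : ℂ) ^ 2 + 2 * s * (z.re : ℂ) + r) + q 0 0 * (z.im : ℂ) ^ 2 := by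
          have c1 : (z.re : ℂ) ^ 2 + (z.im : ℂ) ^ 2 = z * (starRingEnd ℂ) z := by
            rw [Complex.mul_conj, Complex.normSq_apply]
            push_cast
            ring
          have r1 : (2 : ℂ) * (z.re : ℂ) = z + (starRingEnd ℂ) z := by
            rw [Complex.add_conj]; push_cast; ring
          have d1 : s ^ 2 / q 0 0 = q 0 0 * z ^ 2 := by rw [hsz]; field_simp
          rw [d1]
          linear_combination (-(q 0 0)) * c1 - s * r1 - (z + (starRingEnd ℂ) z) * hsz
        rw [key, Complex.add_re]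
        have : 0 ≤ c * ∑ a : Fin n, (0 : ℝ) ^ 2 := by simp
        nlinarith [e1, e2, sq_nonneg z.re, sq_nonneg z.im]

theorem gaussN_ne {ι : Type*} [Fintype ι] (q : ι → ι → ℂ) (hq0 : ∀ a b, q a b = q b a) (c : ℝ)
    (hc : 0 < c) (hq : ∀ ξ : ι → ℝ, c * ∑ a, ξ a ^ 2 ≤ (∑ a, ∑ b, q a b * ξ a * ξ b).re) :
    ∫ ξ : ι → ℝ, exp (-∑ a, ∑ b, q a b * ξ a * ξ b) ≠ 0 := by
  classical
  set e := (Fintype.equivFin ι).symm with he
  have hmp := MeasureTheory.volume_measurePreserving_piCongrLeft (fun _ : ι => ℝ) e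
  rw [← hmp.integral_comp (MeasurableEquiv.measurableEmbedding _)]
  have hval : ∀ ξ : Fin (Fintype.card ι) → ℝ, ∀ a : Fin (Fintype.card ι),
      (MeasurableEquiv.piCongrLeft (fun _ : ι => ℝ) e) ξ (e a) = ξ a := by
    intro ξ a
    exact Equiv.piCongrLeft_apply_apply (fun _ : ι => ℝ) e ξ a
  have hsum : ∀ ξ : Fin (Fintype.card ι) → ℝ, ∑ a, ∑ b, q a b *
      (((MeasurableEquiv.piCongrLeft (fun _ : ι => ℝ) e) ξ a : ℝ) : ℂ) *
      (((MeasurableEquiv.piCongrLeft (fun _ : ι => ℝ) e) ξ b : ℝ) : ℂ) =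
      ∑ a, ∑ b, q (e a) (e b) * (ξ a : ℂ) * (ξ b : ℂ) := by
    intro ξ
    rw [← Equiv.sum_comp e]
    apply Finset.sum_congr rfl
    intro a _
    rw [← Equiv.sum_comp e]
    apply Finset.sum_congr rfl
    intro b _
    rw [hval, hval]
  simp only [hsum]
  refine GaussN_fin _ (fun a b => q (e a) (e b)) (fun a b => hq0 _ _) c hc ?_
  intro ξ
  have h := hq ((MeasurableEquiv.piCongrLeft (fun _ : ι => ℝ) e) ξ)
  rw [hsum ξ, ← Equiv.sum_comp e] at h
  simp only [hval] at h
  exact h

end Pool.Agent.H63.VC4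

end

section

/-! # The volume of the Sakuma-Weeks solution as an integral -/

namespace Pool.Agent.H63.VC

open Real Set

section continuity

open Filter Topology

theorem SWpath_lob_angle (a b : ℝ) (h : (a : Real.Angle) = b) : lob a = lob b := by
  rw [← volA_lobA_coe, ← volA_lobA_coe, h]

theorem SWpath_lob_arg_inv (w : ℂ) : lob (Complex.arg w⁻¹) = -lob (Complex.arg w) := by
  rw [← volA_lob_neg]
  apply SWpath_lob_angle
  rw [Complex.arg_inv_coe_angle, Real.Angle.coe_neg]

theorem SWpath_inv (v : ℂ) : blochWigner v⁻¹ = -blochWigner v := by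
  unfold blochWigner
  rw [inv_inv, SWpath_lob_arg_inv, SWpath_lob_arg_inv, SWpath_lob_arg_inv]
  ring

theorem SWpath_one_sub (z : ℂ) : blochWigner (1 - z) = -blochWigner z := by
  rcases eq_or_ne z 0 with h0 | h0
  · have h1 := blochWigner_real 0
    have h2 := blochWigner_real 1
    push_cast at h1 h2
    rw [h0, sub_zero, h1, h2, neg_zero]
  rcases eq_or_ne z 1 with h1 | h1
  · have h3 := blochWigner_real 0
    have h2 := blochWigner_real 1
    push_cast at h3 h2
    rw [h1, sub_self, h3, h2, neg_zero]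
  have h1' : 1 - z ≠ 0 := sub_ne_zero.2 (Ne.symm h1)
  have h2' : z - 1 ≠ 0 := sub_ne_zero.2 h1
  have e : 1 - (1 - z)⁻¹ = (1 - z⁻¹)⁻¹ := by
    have h3 : 1 - z⁻¹ = (z - 1) / z := by field_simp
    rw [h3, inv_div]
    have h4 : (1 - z)⁻¹ = -(z - 1)⁻¹ := by rw [← neg_sub, inv_neg]
    rw [h4]
    field_simp
    ring
  unfold blochWigner
  rw [e, sub_sub_cancel, SWpath_lob_arg_inv, SWpath_lob_arg_inv, SWpath_lob_arg_inv]
  ring

theorem SWpath_lob_uniform (ε : ℝ) (hε : 0 < ε) :
    ∃ δ > 0, ∀ a e : ℝ, |e| < δ → |lob a - lob (a - e)| < ε := by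
  have : Fact (0 < 2 * π) := ⟨Real.two_pi_pos⟩
  have : CompactSpace Real.Angle := inferInstanceAs (CompactSpace (AddCircle (2 * π)))
  have hu : UniformContinuous volA_lobA :=
    CompactSpace.uniformContinuous_of_continuous volA_lobA_continuous
  obtain ⟨δ, hδ, h⟩ := Metric.uniformContinuous_iff.1 hu ε hε
  refine ⟨δ, hδ, fun a e he => ?_⟩
  have h1 : dist (a : Real.Angle) ((a - e : ℝ) : Real.Angle) < δ := by
    rw [dist_eq_norm, ← Real.Angle.coe_sub, sub_sub_cancel]
    refine lt_of_le_of_lt ?_ he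
    exact QuotientAddGroup.norm_mk_le_norm (S := AddSubgroup.zmultiples (2 * π)) (m := e)
  have h2 := h h1
  rwa [volA_lobA_coe, volA_lobA_coe, Real.dist_eq] at h2

theorem SWpath_near_zero (z : ℂ) (h1 : z ≠ 1) :
    blochWigner z = (lob (Complex.arg z) - lob (Complex.arg z - Complex.arg (1 - z))) -
      lob (Complex.arg (1 - z)) := by
  rcases eq_or_ne z 0 with h0 | h0
  · have h2 := blochWigner_real 0
    push_cast at h2
    rw [h0, h2]
    simp [volA_lob_zero]
  have h1' : 1 - z ≠ 0 := sub_ne_zero.2 (Ne.symm h1)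
  unfold blochWigner
  rw [SWpath_lob_arg_inv]
  have h3 : lob (Complex.arg (1 - z⁻¹)) = -lob (Complex.arg z - Complex.arg (1 - z)) := by
    have e : 1 - z⁻¹ = (-(1 - z)) * z⁻¹ := by field_simp; ring
    rw [← volA_lob_neg, ← volA_lob_add_pi (-(Complex.arg z - Complex.arg (1 - z)))]
    apply SWpath_lob_angle
    rw [e, Complex.arg_mul_coe_angle (neg_ne_zero.2 h1') (inv_ne_zero h0),
      Complex.arg_neg_coe_angle h1', Complex.arg_inv_coe_angle]
    rw [Real.Angle.coe_add, Real.Angle.coe_neg, Real.Angle.coe_sub]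
    abel
  rw [h3]
  ring

theorem SWpath_continuousAt_zero : ContinuousAt blochWigner 0 := by
  have harg : Tendsto (fun z : ℂ => Complex.arg (1 - z)) (𝓝 0) (𝓝 0) := by
    have h1 : ContinuousAt Complex.arg (1 - 0) := by
      apply Complex.continuousAt_arg
      simp
    have h2 : ContinuousAt (fun z : ℂ => Complex.arg (1 - z)) 0 :=
      ContinuousAt.comp (g := Complex.arg) (f := fun z : ℂ => 1 - z) h1 (by fun_prop)
    have h3 := h2.tendsto
    simpa using h3
  have ht : Tendsto (fun z : ℂ => (lob (Complex.arg z) - lob (Complex.arg z - Complex.arg (1 - z))) -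
      lob (Complex.arg (1 - z))) (𝓝 0) (𝓝 0) := by
    have hA : Tendsto (fun z : ℂ => lob (Complex.arg z) -
        lob (Complex.arg z - Complex.arg (1 - z))) (𝓝 0) (𝓝 0) := by
      rw [Metric.tendsto_nhds]
      intro ε hε
      obtain ⟨δ, hδ, h⟩ := SWpath_lob_uniform ε hε
      have h1 : ∀ᶠ z : ℂ in 𝓝 0, |Complex.arg (1 - z)| < δ := by
        have := Metric.tendsto_nhds.1 harg δ hδ
        filter_upwards [this] with z hz
        rwa [Real.dist_eq, sub_zero] at hz
      filter_upwards [h1] with z hz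
      rw [Real.dist_eq, sub_zero]
      exact h _ _ hz
    have hB : Tendsto (fun z : ℂ => lob (Complex.arg (1 - z))) (𝓝 0) (𝓝 0) := by
      have := (volA_lob_continuous.tendsto 0).comp harg
      rwa [volA_lob_zero] at this
    simpa using hA.sub hB
  have h0 : blochWigner 0 = 0 := by
    have := blochWigner_real 0
    rwa [Complex.ofReal_zero] at this
  unfold ContinuousAt
  rw [h0]
  refine ht.congr' ?_
  have h1 : ∀ᶠ z : ℂ in 𝓝 0, z ≠ 1 := isOpen_ne.mem_nhds (by norm_num)
  filter_upwards [h1] with z hz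
  exact (SWpath_near_zero z hz).symm

theorem SWpath_continuous : Continuous blochWigner := by
  rw [continuous_iff_continuousAt]
  intro z
  rcases eq_or_ne z 0 with h0 | h0
  · rw [h0]; exact SWpath_continuousAt_zero
  rcases eq_or_ne z 1 with h1 | h1
  · have h2 : ContinuousAt (fun z => -blochWigner (1 - z)) z := by
      have h3 : ContinuousAt blochWigner (1 - z) := by
        rw [h1, sub_self]; exact SWpath_continuousAt_zero
      exact (ContinuousAt.comp (g := blochWigner) (f := fun z : ℂ => 1 - z) h3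
        (by fun_prop)).neg
    refine h2.congr (Filter.Eventually.of_forall fun w => ?_)
    change -blochWigner (1 - w) = _
    rw [SWpath_one_sub, neg_neg]
  · exact blochWigner_continuousAt z h0 h1

end continuity

theorem SWpath_circle_deriv (t : ℝ) (ht : t ∈ Ioo 0 π) :
    HasDerivAt (fun t : ℝ => blochWigner (Complex.exp (t * Complex.I)))
      (-Real.log (2 * Real.sin (t / 2))) t := by
  have hsin : 0 < Real.sin (t / 2) :=
    Real.sin_pos_of_pos_of_lt_pi (by have := ht.1; linarith)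
      (by have := ht.2; have := Real.pi_pos; linarith)
  have hnorm : ‖1 - Complex.exp (t * Complex.I)‖ = 2 * Real.sin (t / 2) := by
    rw [← norm_neg, neg_sub, mul_comm, Complex.norm_exp_I_mul_ofReal_sub_one, Real.norm_eq_abs,
      abs_of_pos (by positivity)]
  have hexp : HasDerivAt (fun s : ℝ => Complex.exp (s * Complex.I))
      (Complex.exp (t * Complex.I) * Complex.I) t := by
    have h1 : HasDerivAt (fun s : ℝ => (s : ℂ) * Complex.I) (1 * Complex.I) t :=
      (HasDerivAt.ofReal_comp (hasDerivAt_id t)).mul_const Complex.I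
    rw [one_mul] at h1
    exact h1.cexp
  have him : (Complex.exp (t * Complex.I)).im ≠ 0 := by
    rw [Complex.exp_ofReal_mul_I_im]
    exact (Real.sin_pos_of_pos_of_lt_pi ht.1 ht.2).ne'
  have h := blochWigner_hasDerivAt _ _ t hexp him
  refine HasDerivAt.congr_deriv h ?_
  rw [Complex.norm_exp_ofReal_mul_I, Real.log_one, zero_mul, hnorm,
    mul_div_cancel_left₀ _ (Complex.exp_ne_zero _), Complex.I_im]
  ring

end Pool.Agent.H63.VC

end

section

/-! # The five-term relation for the Bloch-Wigner dilogarithm -/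

namespace Pool.Agent.H63.VC3

open Pool.Agent.H63.VC Complex

theorem Five_lob_conj (w : ℂ) :
    lob (Complex.arg ((starRingEnd ℂ) w)) = -lob (Complex.arg w) := by
  rw [← volA_lob_neg]
  apply SWpath_lob_angle
  rw [Complex.arg_conj_coe_angle, Real.Angle.coe_neg]

theorem bw_conj (z : ℂ) : blochWigner ((starRingEnd ℂ) z) = -blochWigner z := by
  unfold blochWigner
  have e1 : (1 - (starRingEnd ℂ) z)⁻¹ = (starRingEnd ℂ) (1 - z)⁻¹ := by
    rw [map_inv₀, map_sub, map_one]
  have e2 : 1 - ((starRingEnd ℂ) z)⁻¹ = (starRingEnd ℂ) (1 - z⁻¹) := by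
    rw [map_sub, map_inv₀, map_one]
  rw [e1, e2, Five_lob_conj, Five_lob_conj, Five_lob_conj]
  ring

/-- The sum of the five terms. -/
noncomputable def FiveF (x y : ℂ) : ℝ :=
  blochWigner x + blochWigner y + blochWigner ((1 - x) / (1 - x * y)) +
      blochWigner (1 - x * y) + blochWigner ((1 - y) / (1 - x * y))

theorem Five_quot_im (a b : ℂ) (hb : b ≠ 0) (h : (a * (starRingEnd ℂ) b).im ≠ 0) :
    (a / b).im ≠ 0 := by
  intro h0
  apply h
  have h1 : a * (starRingEnd ℂ) b = (a / b) * ((Complex.normSq b : ℝ) : ℂ) := by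
    rw [Complex.normSq_eq_conj_mul_self]
    field_simp
  rw [h1, Complex.mul_im, h0]
  simp

theorem Five_generic (x y : ℂ) (hx : x.im ≠ 0) (hy : y.im ≠ 0) (hxy : (x * y).im ≠ 0) :
    FiveF x y = 0 := by
  have hy1 : (1 : ℂ) - y ≠ 0 := by
    intro h
    apply hy
    have := congrArg Complex.im h
    simpa using this
  have hy0 : y ≠ 0 := by
    intro h
    rw [h] at hy
    simp at hy
  have hx0 : x ≠ 0 := by
    intro h
    rw [h] at hx
    simp at hx
  have hden : ∀ t : ℝ, (1 : ℂ) - t * x * y ≠ 0 := by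
    intro t h
    have h1 := congrArg Complex.im h
    have h2 : ((1 : ℂ) - t * x * y).im = -(t * (x * y).im) := by
      rw [mul_assoc]
      simp [Complex.mul_im]
    rw [h2, Complex.zero_im] at h1
    have h3 : t * (x * y).im = 0 := by linarith
    rcases mul_eq_zero.1 h3 with h4 | h4
    · rw [h4] at h
      simp at h
    · exact hxy h4
  set F : ℝ → ℝ := fun t => FiveF (t * x) y with hF
  set bad : Set ℝ := {0, ((x * y).im - x.im) / (Complex.normSq x * y.im),
    y.im / ((x * y).im - Complex.normSq y * x.im)} with hbad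
  have hcount : bad.Countable := by
    rw [hbad]
    exact (Set.toFinite _).countable
  have hcont : ContinuousOn F (Set.uIcc 0 1) := by
    have hc0 : Continuous fun t : ℝ => (t : ℂ) * x := by fun_prop
    have hc1 : Continuous fun t : ℝ => (1 : ℂ) - t * x * y := by fun_prop
    have hc2 : Continuous fun t : ℝ => (1 - (t : ℂ) * x) / (1 - t * x * y) :=
      Continuous.div (by fun_prop) hc1 hden
    have hc3 : Continuous fun t : ℝ => (1 - y) / (1 - (t : ℂ) * x * y) :=
      Continuous.div (by fun_prop) hc1 hden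
    apply Continuous.continuousOn
    simp only [hF, FiveF]
    exact ((((SWpath_continuous.comp hc0).add continuous_const).add
      (SWpath_continuous.comp hc2)).add (SWpath_continuous.comp hc1)).add
      (SWpath_continuous.comp hc3)
  have hderiv : ∀ t ∈ Set.Ioo (min (0 : ℝ) 1) (max 0 1) \ bad, HasDerivAt F 0 t := by
    rintro t ⟨ht, htb⟩
    rw [min_eq_left zero_le_one, max_eq_right zero_le_one] at ht
    have ht0 : t ≠ 0 := ht.1.ne'
    have htb1 : t ≠ ((x * y).im - x.im) / (Complex.normSq x * y.im) := by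
      intro h
      apply htb
      rw [hbad, ← h]
      simp
    have htb2 : t ≠ y.im / ((x * y).im - Complex.normSq y * x.im) := by
      intro h
      apply htb
      rw [hbad, ← h]
      simp
    set X : ℂ := t * x with hX
    have hXd : HasDerivAt (fun s : ℝ => (s : ℂ) * x) x t := by
      have h1 : HasDerivAt (fun s : ℝ => (s : ℂ)) 1 t := by
        exact (hasDerivAt_id t).ofReal_comp
      simpa using h1.mul_const x
    have hXim : X.im = t * x.im := by simp [hX]
    have hXyim : (X * y).im = t * (x * y).im := by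
      rw [hX, mul_assoc]; simp
    have him1 : X.im ≠ 0 := by rw [hXim]; exact mul_ne_zero ht0 hx
    have hX0 : X ≠ 0 := mul_ne_zero (by exact_mod_cast ht0) hx0
    have hX1 : (1 : ℂ) - X ≠ 0 := by
      intro h
      apply him1
      have := congrArg Complex.im h
      simpa using this
    have hE : (1 : ℂ) - X * y ≠ 0 := hden t
    have hdE : HasDerivAt (fun s : ℝ => (1 : ℂ) - s * x * y) (-(x * y)) t := by
      simpa using (hXd.mul_const y).const_sub 1
    have hd3 : HasDerivAt (fun s : ℝ => (1 - (s : ℂ) * x) / (1 - s * x * y))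
        ((-x * (1 - X * y) - (1 - X) * (-(x * y))) / (1 - X * y) ^ 2) t := by
      exact (hXd.const_sub 1).div hdE hE
    have hd5 : HasDerivAt (fun s : ℝ => (1 - y) / (1 - (s : ℂ) * x * y))
        ((0 * (1 - X * y) - (1 - y) * (-(x * y))) / (1 - X * y) ^ 2) t := by
      exact (hasDerivAt_const t (1 - y)).div hdE hE
    have him4 : ((1 : ℂ) - X * y).im ≠ 0 := by
      rw [Complex.sub_im, Complex.one_im, hXyim, zero_sub]
      exact neg_ne_zero.2 (mul_ne_zero ht0 hxy)
    have him3 : ((1 - X) / (1 - X * y)).im ≠ 0 := by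
      apply Five_quot_im _ _ hE
      have e : ((1 - X) * (starRingEnd ℂ) (1 - X * y)).im =
          t * ((x * y).im - x.im - t * (Complex.normSq x * y.im)) := by
        rw [hX]
        simp only [map_sub, map_one, map_mul, Complex.conj_ofReal, Complex.mul_im, Complex.mul_re,
          Complex.sub_re, Complex.sub_im, Complex.one_re, Complex.one_im, Complex.conj_re,
          Complex.conj_im, Complex.ofReal_re, Complex.ofReal_im, Complex.normSq_apply]
        ring
      rw [e]
      apply mul_ne_zero ht0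
      intro h
      apply htb1
      have hn : Complex.normSq x * y.im ≠ 0 :=
        mul_ne_zero (by rw [ne_eq, Complex.normSq_eq_zero]; exact hx0) hy
      rw [eq_div_iff hn]
      linarith
    have him5 : ((1 - y) / (1 - X * y)).im ≠ 0 := by
      apply Five_quot_im _ _ hE
      have e : ((1 - y) * (starRingEnd ℂ) (1 - X * y)).im =
          t * ((x * y).im - Complex.normSq y * x.im) - y.im := by
        rw [hX]
        simp only [map_sub, map_one, map_mul, Complex.conj_ofReal, Complex.mul_im, Complex.mul_re,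
          Complex.sub_re, Complex.sub_im, Complex.one_re, Complex.one_im, Complex.conj_re,
          Complex.conj_im, Complex.ofReal_re, Complex.ofReal_im, Complex.normSq_apply]
        ring
      rw [e]
      intro h
      apply htb2
      have hn : (x * y).im - Complex.normSq y * x.im ≠ 0 := by
        intro h0
        rw [h0, mul_zero, zero_sub, neg_eq_zero] at h
        exact hy h
      rw [eq_div_iff hn]
      linarith
    have D1 := blochWigner_hasDerivAt _ _ t hXd him1
    have D2 : HasDerivAt (fun _ : ℝ => blochWigner y) 0 t := hasDerivAt_const t _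
    have D3 := blochWigner_hasDerivAt _ _ t hd3 him3
    have D4 := blochWigner_hasDerivAt _ _ t hdE him4
    have D5 := blochWigner_hasDerivAt _ _ t hd5 him5
    have D := (((D1.add D2).add D3).add D4).add D5
    refine HasDerivAt.congr_deriv (f := F) D ?_
    rw [← hX]
    -- algebra
    set E : ℂ := 1 - X * y with hEdef
    have u3 : 1 - (1 - X) / E = X * (1 - y) / E := by
      rw [eq_div_iff hE, sub_mul, div_mul_cancel₀ _ hE, hEdef]
      ring
    have u4 : 1 - E = X * y := by rw [hEdef]; ring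
    have u5 : 1 - (1 - y) / E = y * (1 - X) / E := by
      rw [eq_div_iff hE, sub_mul, div_mul_cancel₀ _ hE, hEdef]
      ring
    have n0 : ‖X‖ ≠ 0 := norm_ne_zero_iff.2 hX0
    have n1 : ‖1 - X‖ ≠ 0 := norm_ne_zero_iff.2 hX1
    have n2 : ‖y‖ ≠ 0 := norm_ne_zero_iff.2 hy0
    have n3 : ‖1 - y‖ ≠ 0 := norm_ne_zero_iff.2 hy1
    have n4 : ‖E‖ ≠ 0 := norm_ne_zero_iff.2 hE
    have l3 : Real.log ‖(1 - X) / E‖ = Real.log ‖1 - X‖ - Real.log ‖E‖ := by
      rw [norm_div, Real.log_div n1 n4]
    have l3' : Real.log ‖X * (1 - y) / E‖ =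
        Real.log ‖X‖ + Real.log ‖1 - y‖ - Real.log ‖E‖ := by
      rw [norm_div, norm_mul, Real.log_div (mul_ne_zero n0 n3) n4, Real.log_mul n0 n3]
    have l4 : Real.log ‖X * y‖ = Real.log ‖X‖ + Real.log ‖y‖ := by
      rw [norm_mul, Real.log_mul n0 n2]
    have l5 : Real.log ‖(1 - y) / E‖ = Real.log ‖1 - y‖ - Real.log ‖E‖ := by
      rw [norm_div, Real.log_div n3 n4]
    have l5' : Real.log ‖y * (1 - X) / E‖ =
        Real.log ‖y‖ + Real.log ‖1 - X‖ - Real.log ‖E‖ := by
      rw [norm_div, norm_mul, Real.log_div (mul_ne_zero n2 n1) n4, Real.log_mul n2 n1]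
    -- logarithmic derivatives
    have d3 : (-x * E - (1 - X) * (-(x * y))) / E ^ 2 / ((1 - X) / E) =
        -x / (1 - X) - -(x * y) / E := by
      field_simp
    have d3' : -((-x * E - (1 - X) * (-(x * y))) / E ^ 2) / (X * (1 - y) / E) =
        x / X - -(x * y) / E := by
      have e : -((-x * E - (1 - X) * (-(x * y)))) = x * (1 - y) := by
        rw [hEdef]; ring
      have e2 : x / X - -(x * y) / E = x / (X * E) := by
        field_simp
        rw [hEdef]; ring
      rw [e2, ← neg_div, e]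
      field_simp
    have d4' : -(-(x * y)) / (X * y) = x / X := by
      field_simp
    have d5 : (0 * E - (1 - y) * (-(x * y))) / E ^ 2 / ((1 - y) / E) = -(-(x * y) / E) := by
      field_simp
      ring
    have d5' : -((0 * E - (1 - y) * (-(x * y))) / E ^ 2) / (y * (1 - X) / E) =
        -x / (1 - X) - -(x * y) / E := by
      have e2 : -x / (1 - X) - -(x * y) / E = -(x * (1 - y)) / ((1 - X) * E) := by
        field_simp
        rw [hEdef]; ring
      rw [e2]
      field_simp
      ring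
    rw [u3, u4, u5, l3, l3', l4, l5, l5', d3, d3', d4', d5, d5']
    simp only [Complex.sub_im, Complex.neg_im]
    ring
  have h1 := MeasureTheory.integral_eq_of_hasDerivAt_off_countable F (fun _ => (0 : ℝ)) hcount
    hcont hderiv (by simp)
  rw [intervalIntegral.integral_zero] at h1
  have h2 : F 0 = 0 := by
    have b0 := blochWigner_real 0
    have b1 := blochWigner_real 1
    rw [Complex.ofReal_zero] at b0
    rw [Complex.ofReal_one] at b1
    simp only [hF, FiveF, Complex.ofReal_zero, zero_mul, sub_zero, div_one, b0, b1,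
      SWpath_one_sub]
    ring
  have h3 : F 1 = FiveF x y := by
    simp only [hF, Complex.ofReal_one, one_mul]
  rw [← h3]
  linarith

theorem five_term (x y : ℂ) (h : x * y ≠ 1) :
    blochWigner x + blochWigner y + blochWigner ((1 - x) / (1 - x * y)) +
      blochWigner (1 - x * y) + blochWigner ((1 - y) / (1 - x * y)) = 0 := by
  change FiveF x y = 0
  have hE : (1 : ℂ) - x * y ≠ 0 := sub_ne_zero.2 (Ne.symm h)
  set X : ℝ → ℂ := fun s => x + s * I with hX
  set Y : ℝ → ℂ := fun s => y + s * (1 + I) with hY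
  have hX0 : X 0 = x := by simp [hX]
  have hY0 : Y 0 = y := by simp [hY]
  have hXc : Continuous X := by rw [hX]; fun_prop
  have hYc : Continuous Y := by rw [hY]; fun_prop
  have hc1 : ContinuousAt (fun s => 1 - X s * Y s) 0 := by
    exact (continuous_const.sub (hXc.mul hYc)).continuousAt
  have hE' : (1 : ℂ) - X 0 * Y 0 ≠ 0 := by rw [hX0, hY0]; exact hE
  have hcont : ContinuousAt (fun s => FiveF (X s) (Y s)) 0 := by
    unfold FiveF
    have c1 : ContinuousAt (fun s => blochWigner (X s)) 0 :=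
      (SWpath_continuous.comp hXc).continuousAt
    have c2 : ContinuousAt (fun s => blochWigner (Y s)) 0 :=
      (SWpath_continuous.comp hYc).continuousAt
    have c3 : ContinuousAt (fun s => blochWigner ((1 - X s) / (1 - X s * Y s))) 0 := by
      apply ContinuousAt.comp (g := blochWigner) SWpath_continuous.continuousAt
      exact ((continuous_const.sub hXc).continuousAt).div hc1 hE'
    have c4 : ContinuousAt (fun s => blochWigner (1 - X s * Y s)) 0 :=
      ContinuousAt.comp (g := blochWigner) SWpath_continuous.continuousAt hc1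
    have c5 : ContinuousAt (fun s => blochWigner ((1 - Y s) / (1 - X s * Y s))) 0 := by
      apply ContinuousAt.comp (g := blochWigner) SWpath_continuous.continuousAt
      exact ((continuous_const.sub hYc).continuousAt).div hc1 hE'
    exact (((c1.add c2).add c3).add c4).add c5
  have hev : ∀ᶠ s in nhdsWithin (0 : ℝ) {0}ᶜ, FiveF (X s) (Y s) = 0 := by
    set A : ℝ := (I * y + (1 + I) * x).im with hA
    set B : ℝ := (x * y).im with hB
    have hfin : {s : ℝ | s ^ 2 + A * s + B = 0}.Finite := by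
      set P : Polynomial ℝ := Polynomial.X ^ 2 + Polynomial.C A * Polynomial.X +
        Polynomial.C B with hP
      have hmon : P.Monic := by
        rw [hP]
        monicity!
      have hP0 : P ≠ 0 := hmon.ne_zero
      refine (Polynomial.finite_setOfPred_isRoot hP0).subset ?_
      intro s hs
      simp only [Set.mem_ofPred_eq] at hs ⊢
      simp only [Polynomial.IsRoot.def, hP, Polynomial.eval_add, Polynomial.eval_pow,
        Polynomial.eval_X, Polynomial.eval_mul, Polynomial.eval_C]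
      exact hs
    have hfin2 : ({s : ℝ | s ^ 2 + A * s + B = 0} ∪ {-x.im, -y.im}).Finite :=
      hfin.union (Set.toFinite _)
    have hev2 : ∀ᶠ s in nhdsWithin (0 : ℝ) {0}ᶜ,
        s ∉ ({s : ℝ | s ^ 2 + A * s + B = 0} ∪ {-x.im, -y.im}) \ {0} := by
      have hcl : IsClosed (({s : ℝ | s ^ 2 + A * s + B = 0} ∪ {-x.im, -y.im}) \ {0}) :=
        (hfin2.subset Set.sdiff_subset).isClosed
      apply mem_nhdsWithin_of_mem_nhds
      apply hcl.isOpen_compl.mem_nhds
      simp
    filter_upwards [hev2, self_mem_nhdsWithin] with s hs hs0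
    have hs' : s ∉ ({s : ℝ | s ^ 2 + A * s + B = 0} ∪ {-x.im, -y.im}) := fun h => hs ⟨h, hs0⟩
    rw [Set.mem_union, not_or, Set.mem_insert_iff, not_or, Set.mem_singleton_iff,
      Set.mem_ofPred_eq] at hs'
    obtain ⟨h1, h2, h3⟩ := hs'
    apply Five_generic
    · have e : (X s).im = x.im + s := by simp [hX]
      rw [e]
      intro h
      apply h2
      linarith
    · have e : (Y s).im = y.im + s := by simp [hY]
      rw [e]
      intro h
      apply h3
      linarith
    · have e : (X s * Y s).im = s ^ 2 + A * s + B := by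
        simp only [hX, hY, hA, hB, Complex.mul_im, Complex.mul_re, Complex.add_re, Complex.add_im,
          Complex.ofReal_re, Complex.ofReal_im, Complex.I_re, Complex.I_im, Complex.one_re,
          Complex.one_im]
        ring
      rw [e]
      exact h1
  have ht : Filter.Tendsto (fun s => FiveF (X s) (Y s)) (nhdsWithin (0 : ℝ) {0}ᶜ)
      (nhds (FiveF (X 0) (Y 0))) := hcont.tendsto.mono_left nhdsWithin_le_nhds
  have h0 : Filter.Tendsto (fun s => FiveF (X s) (Y s)) (nhdsWithin (0 : ℝ) {0}ᶜ) (nhds 0) := by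
    refine (tendsto_const_nhds (x := (0 : ℝ))).congr' ?_
    filter_upwards [hev] with s hs
    exact hs.symm
  have := tendsto_nhds_unique ht h0
  rwa [hX0, hY0] at this

end Pool.Agent.H63.VC3

end

section

/-! # The complex volume: auxiliary definitions -/

namespace Pool.Agent.H63.VC5

open Complex
open scoped BigOperators

/-- Congruence modulo `π²`. -/
def Cg (x y : ℂ) : Prop := ∃ n : ℤ, x = y + n * (Real.pi : ℂ) ^ 2

theorem Cg.refl (x : ℂ) : Cg x x := ⟨0, by simp⟩

theorem Cg.of_eq {x y : ℂ} (h : x = y) : Cg x y := h ▸ Cg.refl x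

theorem Cg.trans {x y z : ℂ} (h : Cg x y) (h' : Cg y z) : Cg x z := by
  obtain ⟨n, hn⟩ := h
  obtain ⟨m, hm⟩ := h'
  exact ⟨n + m, by rw [hn, hm]; push_cast; ring⟩

theorem Cg.add {x y z w : ℂ} (h : Cg x y) (h' : Cg z w) : Cg (x + z) (y + w) := by
  obtain ⟨n, hn⟩ := h
  obtain ⟨m, hm⟩ := h'
  exact ⟨n + m, by rw [hn, hm]; push_cast; ring⟩

theorem Cg.sum {ι : Type*} (s : Finset ι) {f g : ι → ℂ} (h : ∀ i ∈ s, Cg (f i) (g i)) :
    Cg (∑ i ∈ s, f i) (∑ i ∈ s, g i) := by
  classical
  induction s using Finset.induction_on with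
  | empty => simpa using Cg.refl 0
  | insert a s ha ih =>
    rw [Finset.sum_insert ha, Finset.sum_insert ha]
    exact (h a (Finset.mem_insert_self a s)).add
      (ih fun i hi => h i (Finset.mem_insert_of_mem hi))

/-! ### The functions -/

/-! ### The critical point, indexed by natural numbers -/

end Pool.Agent.H63.VC5

end

section

/-! # Symmetries of the Rogers dilogarithm -/

namespace Pool.Agent.H63.VC5

open Complex Filter Topology
open scoped BigOperators

theorem Rog_slit (z : ℂ) (hz : z.im ≠ 0) : z ∈ slitPlane :=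
  Complex.mem_slitPlane_iff.2 (Or.inr hz)

theorem Rog_slit' (z : ℂ) (hz : z.im ≠ 0) : 1 - z ∈ slitPlane :=
  Rog_slit _ (by simpa using hz)

theorem Rog_log_neg_pos (z : ℂ) (hz : 0 < z.im) :
    Complex.log (-z) = Complex.log z - Real.pi * I := by
  rw [Complex.log, Complex.log, norm_neg, Complex.arg_neg_eq_arg_sub_pi_of_im_pos hz]
  push_cast
  ring

theorem Rog_log_neg_neg (z : ℂ) (hz : z.im < 0) :
    Complex.log (-z) = Complex.log z + Real.pi * I := by
  rw [Complex.log, Complex.log, norm_neg, Complex.arg_neg_eq_arg_add_pi_of_im_neg hz]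
  push_cast
  ring

theorem Rog_arg_pos (z : ℂ) (hz : 0 < z.im) : 0 < z.arg ∧ z.arg < Real.pi := by
  constructor
  · rcases lt_or_eq_of_le (Complex.arg_nonneg_iff.2 hz.le) with h | h
    · exact h
    · exact absurd (Complex.arg_eq_zero_iff.1 h.symm).2 hz.ne'
  · exact Complex.arg_lt_pi_iff.2 (Or.inr hz.ne')

theorem Rog_arg_neg (z : ℂ) (hz : z.im < 0) : -Real.pi < z.arg ∧ z.arg < 0 :=
  ⟨Complex.neg_pi_lt_arg z, Complex.arg_neg_iff.2 hz⟩

theorem Rog_arg_ne (z : ℂ) (hz : z.im ≠ 0) : z.arg ≠ Real.pi := fun h =>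
  hz (Complex.arg_eq_pi_iff.1 h).2

theorem Rog_log_inv (z : ℂ) (hz : z.im ≠ 0) : Complex.log z⁻¹ = -Complex.log z :=
  Complex.log_inv z (Rog_arg_ne z hz)

theorem Rog_log_sub (z : ℂ) (hz : z.im ≠ 0) :
    Complex.log (1 - z⁻¹) = Complex.log (-(1 - z)) - Complex.log z := by
  have hz0 : z ≠ 0 := fun h => hz (by simp [h])
  have h1 : -(1 - z) ≠ 0 := fun h => hz (by
    have : z = 1 := by linear_combination h
    simp [this])
  have e : 1 - z⁻¹ = -(1 - z) * z⁻¹ := by field_simp; ring
  rw [e, Complex.log_mul_eq_add_log_iff h1 (inv_ne_zero hz0) |>.2, Rog_log_inv z hz]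
  · ring
  · rw [Complex.arg_inv, if_neg (Rog_arg_ne z hz)]
    rcases lt_or_gt_of_ne hz with h | h
    · have a1 := Rog_arg_neg z h
      have a2 := Rog_arg_neg (-(1 - z)) (by simpa using h)
      constructor <;> linarith [a1.1, a1.2, a2.1, a2.2]
    · have a1 := Rog_arg_pos z h
      have a2 := Rog_arg_pos (-(1 - z)) (by simpa using h)
      constructor <;> linarith [a1.1, a1.2, a2.1, a2.2]

end Pool.Agent.H63.VC5

end

section

/-!
# Checks: Jones polynomials of some arborescent knots

For `N = 1` the state sum is the Jones polynomial with `t = q ^ 2` (or `t = q ^ (-2)`), up to a sign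
and a power of `q`, which depend on the framing. We check the figure-eight knot `4_1` and the pretzel
knots `P(3, 3, -2) = 8_19`, with the Jones polynomial `t ^ 3 + t ^ 5 - t ^ 8`, and
`P(-2, 3, 7) = 12n_242`, with `t ^ 5 + t ^ 7 - t ^ 11 + t ^ 12 - t ^ 13`, which are not two-bridge
knots; the tree of a pretzel knot is a star whose center is an untwisted band.
-/

namespace Pool.Agent.H63.VC7

open Complex

theorem piFinset_two : Fintype.piFinset (fun _ : Fin 2 => Finset.range 2) =
    {![0,0],![0,1],![1,0],![1,1]} := by decide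

end Pool.Agent.H63.VC7

end
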