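import Pool.Agent.H94.PA.H63.VC3.Defs
import Pool.Agent.H94.PA.M01

/-! The parts of this file: H63.VC3.AbelPlana, H63.VC4.Hybrid, H63.VC3.SumL, H63.VC5.DilogA, H63.VC5.DilogB, H63.VC3.Rel. -/

section

/-! # Sums as contour integrals -/

namespace Pool.Agent.H63.VC3

open Complex

private theorem AbelPlana_log (s : ℤ) (hs : s ≠ 0) (d : ℂ) (hd : d.re < 0) (u : ℝ) :
    ∫ x in u..(u + 1), exp (2 * Real.pi * I * s * x + d) / (1 - exp (2 * Real.pi * I * s * x + d))
      = 0 := by
  have hs' : (2 * Real.pi * I * s : ℂ) ≠ 0 := by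
    have : (s : ℂ) ≠ 0 := by exact_mod_cast hs
    have hpi : (Real.pi : ℂ) ≠ 0 := by exact_mod_cast Real.pi_ne_zero
    simp [this, hpi, I_ne_zero]
  have hnorm : ∀ x : ℝ, ‖exp (2 * Real.pi * I * s * x + d)‖ < 1 := by
    intro x
    rw [norm_exp]
    have : (2 * Real.pi * I * s * x + d).re = d.re := by
      simp [mul_re, mul_im]
    rw [this]
    exact Real.exp_lt_one_iff.2 hd
  have hslit : ∀ x : ℝ, 1 - exp (2 * Real.pi * I * s * x + d) ∈ slitPlane := by
    intro x
    left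
    have h1 := abs_re_le_norm (exp (2 * Real.pi * I * s * x + d))
    have h2 := hnorm x
    have h3 := le_abs_self (exp (2 * Real.pi * I * s * x + d)).re
    simp only [sub_re, one_re]
    linarith only [h1, h2, h3]
  have hne : ∀ x : ℝ, 1 - exp (2 * Real.pi * I * s * x + d) ≠ 0 := fun x =>
    slitPlane_ne_zero (hslit x)
  have hw : ∀ x : ℝ, HasDerivAt (fun x : ℝ => exp (2 * Real.pi * I * s * x + d))
      (exp (2 * Real.pi * I * s * x + d) * (2 * Real.pi * I * s)) x := by
    intro x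
    have h1 : HasDerivAt (fun x : ℝ => (2 * Real.pi * I * s * x + d : ℂ))
        (2 * Real.pi * I * s) x := by
      have h2 := ((hasDerivAt_id x).ofReal_comp.const_mul (2 * Real.pi * I * s : ℂ)).add_const d
      simpa using h2
    exact h1.cexp
  have hF : ∀ x : ℝ, HasDerivAt
      (fun x : ℝ => -log (1 - exp (2 * Real.pi * I * s * x + d)) / (2 * Real.pi * I * s))
      (exp (2 * Real.pi * I * s * x + d) / (1 - exp (2 * Real.pi * I * s * x + d))) x := by
    intro x
    have h1 := ((hw x).const_sub 1).clog_real (hslit x)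
    have h2 := h1.neg.div_const (2 * Real.pi * I * s : ℂ)
    have h3 : exp (2 * Real.pi * I * s * x + d) / (1 - exp (2 * Real.pi * I * s * x + d)) =
        -(-(exp (2 * Real.pi * I * s * x + d) * (2 * Real.pi * I * s)) /
          (1 - exp (2 * Real.pi * I * s * x + d))) / (2 * Real.pi * I * s) := by
      have h4 := hne x
      generalize exp (2 * Real.pi * I * s * x + d) = W at h4 ⊢
      generalize (2 * Real.pi * I * s : ℂ) = c at hs' ⊢
      field_simp
    rw [h3]
    exact h2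
  rw [intervalIntegral.integral_eq_sub_of_hasDerivAt (fun x _ => hF x)]
  · have : exp (2 * Real.pi * I * s * ((u + 1 : ℝ) : ℂ) + d) =
        exp (2 * Real.pi * I * s * (u : ℂ) + d) := by
      rw [exp_eq_exp_iff_exists_int]
      exact ⟨s, by push_cast; ring⟩
    rw [this, sub_self]
  · apply Continuous.intervalIntegrable
    have hc : Continuous fun x : ℝ => exp (2 * Real.pi * I * s * x + d) := by fun_prop
    exact hc.div (continuous_const.sub hc) hne

/-- The kernel `1 / (exp (2 π i (z - b)) - 1)`. -/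
private noncomputable def AbelPlana_K (b : ℝ) (z : ℂ) : ℂ :=
  1 / (exp (2 * Real.pi * I * (z - b)) - 1)

private theorem AbelPlana_exp_eq_one {b : ℝ} {z : ℂ}
    (h : exp (2 * Real.pi * I * (z - b)) - 1 = 0) : ∃ n : ℤ, z = b + n := by
  rw [sub_eq_zero, exp_eq_one_iff] at h
  obtain ⟨n, hn⟩ := h
  refine ⟨n, ?_⟩
  have hpi : (2 * Real.pi * I : ℂ) ≠ 0 := two_pi_I_ne_zero
  have : (2 * Real.pi * I : ℂ) * (z - b) = (2 * Real.pi * I) * n := by rw [hn]; ring
  have h2 := mul_left_cancel₀ hpi this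
  rw [← h2]
  ring

private theorem AbelPlana_ne {b : ℝ} {z : ℂ} (h1 : |z.re - b| ≤ 1 / 2) (h2 : z ≠ b) :
    exp (2 * Real.pi * I * (z - b)) - 1 ≠ 0 := by
  intro h
  obtain ⟨n, rfl⟩ := AbelPlana_exp_eq_one h
  simp only [add_re, ofReal_re, intCast_re, add_sub_cancel_left] at h1
  have h3 : |n| < 1 := by
    have : |(n : ℝ)| < 1 := by linarith only [h1]
    exact_mod_cast this
  have h4 : n = 0 := Int.abs_lt_one_iff.1 h3
  exact h2 (by simp [h4])

private theorem AbelPlana_ne_im {b : ℝ} {z : ℂ} (h1 : z.im ≠ 0) :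
    exp (2 * Real.pi * I * (z - b)) - 1 ≠ 0 := by
  intro h
  obtain ⟨n, rfl⟩ := AbelPlana_exp_eq_one h
  simp at h1

/-- The integral over the top side. -/
private theorem AbelPlana_top (b η : ℝ) (hη : 0 < η) :
    ∫ x in (b - 1 / 2)..(b + 1 / 2), AbelPlana_K b (x + η * I) = -1 := by
  have h1 := AbelPlana_log 1 one_ne_zero (2 * Real.pi * I * (η * I - b)) (by
    have : (2 * Real.pi * I * (η * I - b) : ℂ).re = -(2 * Real.pi * η) := by
      simp [mul_re, mul_im]
    rw [this]
    have := Real.pi_pos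
    have h3 : 0 < 2 * Real.pi * η := by positivity
    linarith only [h3]) (b - 1 / 2)
  rw [show b - 1 / 2 + 1 = b + 1 / 2 by ring] at h1
  have h2 : ∀ x : ℝ, AbelPlana_K b (x + η * I) =
      -1 - exp (2 * Real.pi * I * (1 : ℤ) * x + 2 * Real.pi * I * (η * I - b)) /
        (1 - exp (2 * Real.pi * I * (1 : ℤ) * x + 2 * Real.pi * I * (η * I - b))) := by
    intro x
    have h3 : exp (2 * Real.pi * I * ((x + η * I : ℂ) - b)) - 1 ≠ 0 :=
      AbelPlana_ne_im (by simp [hη.ne'])
    have e : (2 * Real.pi * I * (1 : ℤ) * x + 2 * Real.pi * I * (η * I - b) : ℂ) =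
        2 * Real.pi * I * ((x + η * I : ℂ) - b) := by push_cast; ring
    rw [e, AbelPlana_K]
    have h4 : 1 - exp (2 * Real.pi * I * ((x + η * I : ℂ) - b)) ≠ 0 := by
      intro h
      apply h3
      rw [← neg_eq_zero, neg_sub]
      exact h
    generalize exp (2 * Real.pi * I * ((x + η * I : ℂ) - b)) = W at h3 h4 ⊢
    field_simp
    ring
  simp_rw [h2]
  rw [intervalIntegral.integral_sub, h1, intervalIntegral.integral_const]
  · simp
    ring
  · exact intervalIntegrable_const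
  · apply Continuous.intervalIntegrable
    have hc : Continuous fun x : ℝ =>
      exp (2 * Real.pi * I * (1 : ℤ) * x + 2 * Real.pi * I * (η * I - b)) := by fun_prop
    refine hc.div (continuous_const.sub hc) fun x h => ?_
    have h3 : exp (2 * Real.pi * I * ((x + η * I : ℂ) - b)) - 1 ≠ 0 :=
      AbelPlana_ne_im (by simp [hη.ne'])
    apply h3
    rw [← neg_eq_zero, neg_sub, ← h]
    congr 2
    push_cast
    ring

/-- The integral over the bottom side. -/
private theorem AbelPlana_bot (b η : ℝ) (hη : 0 < η) :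
    ∫ x in (b - 1 / 2)..(b + 1 / 2), AbelPlana_K b (x - η * I) = 0 := by
  have h1 := AbelPlana_log (-1) (by norm_num) (2 * Real.pi * I * (η * I + b)) (by
    have : (2 * Real.pi * I * (η * I + b) : ℂ).re = -(2 * Real.pi * η) := by
      simp [mul_re, mul_im]
    rw [this]
    have := Real.pi_pos
    have h3 : 0 < 2 * Real.pi * η := by positivity
    linarith only [h3]) (b - 1 / 2)
  rw [show b - 1 / 2 + 1 = b + 1 / 2 by ring] at h1
  rw [← h1]
  apply intervalIntegral.integral_congr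
  intro x _
  simp only
  have h3 : exp (2 * Real.pi * I * ((x - η * I : ℂ) - b)) - 1 ≠ 0 :=
    AbelPlana_ne_im (by simp [hη.ne'])
  have e : (2 * Real.pi * I * (-1 : ℤ) * x + 2 * Real.pi * I * (η * I + b) : ℂ) =
      -(2 * Real.pi * I * ((x - η * I : ℂ) - b)) := by push_cast; ring
  rw [e, AbelPlana_K, exp_neg]
  have h5 := exp_ne_zero (2 * Real.pi * I * ((x - η * I : ℂ) - b))
  generalize exp (2 * Real.pi * I * ((x - η * I : ℂ) - b)) = W at h3 h5 ⊢
  have h4 : 1 - W⁻¹ ≠ 0 := by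
    intro h
    apply h3
    have h6 : W * (1 - W⁻¹) = 0 := by rw [h, mul_zero]
    rw [mul_sub, mul_one, mul_inv_cancel₀ h5] at h6
    exact h6
  field_simp

/-- The integral of the kernel over the two vertical sides. -/
private theorem AbelPlana_vert (b t : ℝ) :
    AbelPlana_K b ((b + 1 / 2 : ℝ) + t * I) = AbelPlana_K b ((b - 1 / 2 : ℝ) + t * I) := by
  unfold AbelPlana_K
  congr 2
  rw [exp_eq_exp_iff_exists_int]
  exact ⟨1, by push_cast; ring⟩

private theorem AbelPlana_K_diff {b : ℝ} {z : ℂ} (h : exp (2 * Real.pi * I * (z - b)) - 1 ≠ 0) :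
    DifferentiableAt ℂ (AbelPlana_K b) z := by
  have h1 : DifferentiableAt ℂ (fun z : ℂ => exp (2 * Real.pi * I * (z - b)) - 1) z := by fun_prop
  exact (differentiableAt_const (1 : ℂ)).div h1 h

private theorem AbelPlana_lim (G : ℂ → ℂ) (b : ℝ) (hG : DifferentiableAt ℂ G b) :
    Filter.Tendsto (fun z => (G z - G b) * AbelPlana_K b z) (nhdsWithin (b : ℂ) {(b : ℂ)}ᶜ)
      (nhds (deriv G b / (2 * Real.pi * I))) := by
  have h1 := hasDerivAt_iff_tendsto_slope.1 hG.hasDerivAt
  have h2 : HasDerivAt (fun z : ℂ => exp (2 * Real.pi * I * (z - b))) (2 * Real.pi * I) b := by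
    have h3 : HasDerivAt (fun z : ℂ => 2 * Real.pi * I * (z - b)) (2 * Real.pi * I) b := by
      have := ((hasDerivAt_id (b : ℂ)).sub_const (b : ℂ)).const_mul (2 * Real.pi * I : ℂ)
      simpa using this
    have h4 := h3.cexp
    simpa using h4
  have h3 := h1.div (hasDerivAt_iff_tendsto_slope.1 h2) two_pi_I_ne_zero
  refine h3.congr' ?_
  filter_upwards [self_mem_nhdsWithin] with z hz
  have hz' : z - b ≠ 0 := sub_ne_zero.2 hz
  simp only [Pi.div_apply, slope_def_field, AbelPlana_K]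
  simp only [sub_self, mul_zero, exp_zero]
  rw [div_div_div_cancel_right₀ hz', one_div, div_eq_mul_inv]

private theorem AbelPlana_cell (G : ℂ → ℂ) (b η : ℝ) (hη : 0 < η)
    (hG : ∀ z : ℂ, |z.re - b| ≤ 1 / 2 → |z.im| ≤ η → DifferentiableAt ℂ G z) :
    (∫ x in (b - 1 / 2)..(b + 1 / 2), G (x - η * I) * AbelPlana_K b (x - η * I))
      - (∫ x in (b - 1 / 2)..(b + 1 / 2), G (x + η * I) * AbelPlana_K b (x + η * I))
      + I * (∫ t in (-η)..η, G ((b + 1 / 2 : ℝ) + t * I) *
          AbelPlana_K b ((b + 1 / 2 : ℝ) + t * I))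
      - I * (∫ t in (-η)..η, G ((b - 1 / 2 : ℝ) + t * I) *
          AbelPlana_K b ((b - 1 / 2 : ℝ) + t * I))
      = G b := by
  classical
  set g := G b with hg
  set H0 : ℂ → ℂ := fun z => (G z - g) * AbelPlana_K b z with hH0
  set H : ℂ → ℂ := Function.update H0 b (deriv G b / (2 * Real.pi * I)) with hH
  have hbd : DifferentiableAt ℂ G b := hG b (by simp) (by simpa using hη.le)
  have hd : ∀ z : ℂ, |z.re - b| ≤ 1 / 2 → |z.im| ≤ η → z ≠ b → DifferentiableAt ℂ H0 z :=
    fun z h1 h2 h3 => ((hG z h1 h2).sub_const g).mul (AbelPlana_K_diff (AbelPlana_ne h1 h3))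
  have hev : ∀ z : ℂ, z ≠ b → H =ᶠ[nhds z] H0 := by
    intro z hz
    filter_upwards [isOpen_ne.mem_nhds hz] with y hy
    exact Function.update_of_ne hy _ _
  have hdH : ∀ z : ℂ, |z.re - b| ≤ 1 / 2 → |z.im| ≤ η → z ≠ b → DifferentiableAt ℂ H z :=
    fun z h1 h2 h3 => (hd z h1 h2 h3).congr_of_eventuallyEq (hev z h3)
  have hre : ∀ x : ℝ, x ∈ Set.uIcc (b - 1 / 2) (b + 1 / 2) → |x - b| ≤ 1 / 2 := by
    intro x hx
    rw [Set.uIcc_of_le (by linarith only), Set.mem_Icc] at hx
    rw [abs_le]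
    constructor <;> linarith only [hx, hx.1, hx.2]
  have him : ∀ x : ℝ, x ∈ Set.uIcc (-η) η → |x| ≤ η := by
    intro x hx
    rw [Set.uIcc_of_le (by linarith only [hη]), Set.mem_Icc] at hx
    exact abs_le.2 hx
  have key := integral_boundary_rect_eq_zero_of_differentiable_on_off_countable H
    (⟨b - 1 / 2, -η⟩ : ℂ) (⟨b + 1 / 2, η⟩ : ℂ) {(b : ℂ)} (Set.countable_singleton _)
    (by
      intro z hz
      rw [mem_reProdIm] at hz
      have h1 := hre _ hz.1
      have h2 := him _ hz.2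
      by_cases h3 : z = b
      · subst h3
        exact (continuousAt_update_same.2 (AbelPlana_lim G b hbd)).continuousWithinAt
      · exact (hdH z h1 h2 h3).continuousAt.continuousWithinAt)
    (by
      rintro z ⟨hz, hz'⟩
      rw [mem_reProdIm] at hz
      have h1 : |z.re - b| ≤ 1 / 2 := by
        have := hz.1
        simp only at this
        rw [min_eq_left (by linarith only), max_eq_right (by linarith only), Set.mem_Ioo] at this
        rw [abs_le]
        constructor <;> linarith only [this, this.1, this.2]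
      have h2 : |z.im| ≤ η := by
        have := hz.2
        simp only at this
        rw [min_eq_left (by linarith only [hη]), max_eq_right (by linarith only [hη]), Set.mem_Ioo] at this
        rw [abs_le]
        constructor <;> linarith only [this, this.1, this.2]
      exact hdH z h1 h2 hz')
  simp only [smul_eq_mul] at key
  -- the integrand on a side
  have hside : ∀ (γ : ℝ → ℂ) (u v : ℝ), Continuous γ →
      (∀ t ∈ Set.uIcc u v, |(γ t).re - b| ≤ 1 / 2 ∧ |(γ t).im| ≤ η ∧ γ t ≠ b) →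
      ∫ t in u..v, H (γ t) = (∫ t in u..v, G (γ t) * AbelPlana_K b (γ t)) -
        g * ∫ t in u..v, AbelPlana_K b (γ t) := by
    intro γ u v hγ h
    have h1 : ∀ t ∈ Set.uIcc u v, H (γ t) =
        G (γ t) * AbelPlana_K b (γ t) - g * AbelPlana_K b (γ t) := by
      intro t ht
      rw [hH, Function.update_of_ne (h t ht).2.2, hH0]
      ring
    have h2 : ∀ t ∈ Set.uIcc u v, ContinuousAt (fun t => AbelPlana_K b (γ t)) t := fun t ht =>
      ContinuousAt.comp (g := AbelPlana_K b) (AbelPlana_K_diff (AbelPlana_ne (h t ht).1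
        (h t ht).2.2)).continuousAt hγ.continuousAt
    have h3 : ∀ t ∈ Set.uIcc u v, ContinuousAt (fun t => G (γ t)) t := fun t ht =>
      ContinuousAt.comp (g := G) (hG _ (h t ht).1 (h t ht).2.1).continuousAt hγ.continuousAt
    rw [intervalIntegral.integral_congr h1, intervalIntegral.integral_sub,
      intervalIntegral.integral_const_mul]
    · exact ContinuousOn.intervalIntegrable fun t ht =>
        ((h3 t ht).mul (h2 t ht)).continuousWithinAt
    · exact ContinuousOn.intervalIntegrable fun t ht =>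
        (continuousAt_const.mul (h2 t ht)).continuousWithinAt
  have e1 := hside (fun x : ℝ => (x : ℂ) - η * I) (b - 1 / 2) (b + 1 / 2) (by fun_prop)
    (fun t ht => ⟨by simpa using hre t ht, by simp [abs_of_pos hη], fun h => by
      have := congrArg Complex.im h
      simp [hη.ne'] at this⟩)
  have e2 := hside (fun x : ℝ => (x : ℂ) + η * I) (b - 1 / 2) (b + 1 / 2) (by fun_prop)
    (fun t ht => ⟨by simpa using hre t ht, by simp [abs_of_pos hη], fun h => by
      have := congrArg Complex.im h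
      simp [hη.ne'] at this⟩)
  have e3 := hside (fun t : ℝ => ((b + 1 / 2 : ℝ) : ℂ) + t * I) (-η) η (by fun_prop)
    (fun t ht => ⟨by simp [abs_of_pos], by simpa using him t ht, fun h => by
      have := congrArg Complex.re h
      simp at this⟩)
  have e4 := hside (fun t : ℝ => ((b - 1 / 2 : ℝ) : ℂ) + t * I) (-η) η (by fun_prop)
    (fun t ht => ⟨by simp [abs_of_pos], by simpa using him t ht, fun h => by
      have := congrArg Complex.re h
      simp at this⟩)
  have k1 : ∀ x : ℝ, (x : ℂ) + ((-η : ℝ) : ℂ) * I = x - η * I := fun x => by push_cast; ring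
  simp only [k1] at key
  rw [e1, e2, e3, e4, AbelPlana_top b η hη, AbelPlana_bot b η hη] at key
  have hv : ∫ t in (-η)..η, AbelPlana_K b (((b + 1 / 2 : ℝ) : ℂ) + t * I) =
      ∫ t in (-η)..η, AbelPlana_K b (((b - 1 / 2 : ℝ) : ℂ) + t * I) :=
    intervalIntegral.integral_congr fun t _ => AbelPlana_vert b t
  rw [hv] at key
  linear_combination key

private theorem AbelPlana_K_period (a : ℝ) (k : ℤ) (z : ℂ) :
    AbelPlana_K (a + k) z = AbelPlana_K a z := by
  unfold AbelPlana_K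
  congr 2
  rw [exp_eq_exp_iff_exists_int]
  exact ⟨-k, by push_cast; ring⟩

private theorem AbelPlana_sum (G : ℂ → ℂ) (a : ℝ) (η : ℝ) (hη : 0 < η) (m : ℕ)
    (hG : ∀ z : ℂ, a - 1 / 2 ≤ z.re → z.re ≤ a + m + 1 / 2 → |z.im| ≤ η →
      DifferentiableAt ℂ G z) :
    (∫ x in (a - 1 / 2)..(a + m + 1 / 2), G (x - η * I) * AbelPlana_K a (x - η * I))
      - (∫ x in (a - 1 / 2)..(a + m + 1 / 2), G (x + η * I) * AbelPlana_K a (x + η * I))
      + I * (∫ t in (-η)..η, G ((a + m + 1 / 2 : ℝ) + t * I) *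
          AbelPlana_K a ((a + m + 1 / 2 : ℝ) + t * I))
      - I * (∫ t in (-η)..η, G ((a - 1 / 2 : ℝ) + t * I) *
          AbelPlana_K a ((a - 1 / 2 : ℝ) + t * I))
      = ∑ k ∈ Finset.range (m + 1), G (a + k) := by
  induction m with
  | zero =>
    have h := AbelPlana_cell G a η hη (fun z h1 h2 => hG z (by linarith only [h1, (abs_le.1 h1).1])
      (by push_cast; linarith only [h1, (abs_le.1 h1).2]) h2)
    simpa using h
  | succ m ih =>
    have h1 := ih (fun z h1 h2 h3 => hG z h1 (by push_cast; linarith only [h2]) h3)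
    have h2 := AbelPlana_cell G (a + ((m + 1 : ℕ) : ℤ)) η hη (fun z h1 h2 => hG z (by
      have := (abs_le.1 h1).1
      push_cast at this
      have h4 : (0 : ℝ) ≤ m := Nat.cast_nonneg m
      linarith only [this]) (by
      have := (abs_le.1 h1).2
      push_cast at this ⊢
      linarith only [this]) h2)
    rw [Finset.sum_range_succ, ← h1]
    simp only [AbelPlana_K_period] at h2
    have e1 : a + (((m + 1 : ℕ) : ℤ) : ℝ) - 1 / 2 = a + m + 1 / 2 := by push_cast; ring
    have e2 : a + (((m + 1 : ℕ) : ℤ) : ℝ) + 1 / 2 = a + ((m + 1 : ℕ) : ℝ) + 1 / 2 := by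
      push_cast; ring
    rw [e1, e2] at h2
    have hint : ∀ (c : ℝ), |c| = η → ∀ u v : ℝ, a - 1 / 2 ≤ u → u ≤ v →
        v ≤ a + ((m + 1 : ℕ) : ℝ) + 1 / 2 →
        IntervalIntegrable (fun x : ℝ => G (x + c * I) * AbelPlana_K a (x + c * I))
          MeasureTheory.volume u v := by
      intro c hc u v hu huv hv
      apply ContinuousOn.intervalIntegrable
      intro x hx
      rw [Set.uIcc_of_le huv, Set.mem_Icc] at hx
      have h5 : DifferentiableAt ℂ G (x + c * I) := hG _ (by simp; linarith only [hu, hx, hx.1])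
        (by simp; push_cast at hv; linarith only [hx, hv, hx.2]) (by simp [hc])
      have h6 : DifferentiableAt ℂ (AbelPlana_K a) (x + c * I) := AbelPlana_K_diff
        (AbelPlana_ne_im (by
          simp
          rintro rfl
          simp at hc
          exact hη.ne hc))
      have h7 : ContinuousAt (fun x : ℝ => ((x : ℂ) + c * I)) x := by fun_prop
      have h8 : ContinuousAt (fun x : ℝ => G ((x : ℂ) + c * I)) x :=
        ContinuousAt.comp (f := fun x : ℝ => ((x : ℂ) + c * I)) (g := G) h5.continuousAt h7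
      have h9 : ContinuousAt (fun x : ℝ => AbelPlana_K a ((x : ℂ) + c * I)) x :=
        ContinuousAt.comp (f := fun x : ℝ => ((x : ℂ) + c * I)) (g := AbelPlana_K a)
          h6.continuousAt h7
      exact (h8.mul h9).continuousWithinAt
    have hm0 : (0 : ℝ) ≤ m := Nat.cast_nonneg m
    have i1 := intervalIntegral.integral_add_adjacent_intervals
      (hint η (abs_of_pos hη) (a - 1 / 2) (a + m + 1 / 2) le_rfl (by linarith only)
        (by push_cast; linarith only))
      (hint η (abs_of_pos hη) (a + m + 1 / 2) (a + ((m + 1 : ℕ) : ℝ) + 1 / 2) (by linarith only)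
        (by push_cast; linarith only) le_rfl)
    have i2 := intervalIntegral.integral_add_adjacent_intervals
      (hint (-η) (by rw [abs_neg, abs_of_pos hη]) (a - 1 / 2) (a + m + 1 / 2) le_rfl
        (by linarith only) (by push_cast; linarith only))
      (hint (-η) (by rw [abs_neg, abs_of_pos hη]) (a + m + 1 / 2)
        (a + ((m + 1 : ℕ) : ℝ) + 1 / 2) (by linarith only) (by push_cast; linarith only) le_rfl)
    have k1 : ∀ x : ℝ, (x : ℂ) + ((-η : ℝ) : ℂ) * I = x - η * I := fun x => by push_cast; ring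
    simp only [k1] at i2
    rw [← i1, ← i2]
    have e3 : G (((a + (((m + 1 : ℕ) : ℤ) : ℝ) : ℝ)) : ℂ) = G (a + ((m + 1 : ℕ) : ℂ)) := by
      congr 1
      push_cast
      ring
    rw [e3] at h2
    linear_combination h2

/-- Finite Abel-Plana formula: `∑_{k=0}^{m} G(a + k)` for `G` holomorphic near the rectangle
`[a - 1/2, a + m + 1/2] × [-η, η]`. -/
theorem abel_plana (G : ℂ → ℂ) (a : ℝ) (m : ℕ) (η : ℝ) (hη : 0 < η)
    (hG : ∀ z : ℂ, a - 1 / 2 ≤ z.re → z.re ≤ a + m + 1 / 2 → |z.im| ≤ η → DifferentiableAt ℂ G z) :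
    ∑ k ∈ Finset.range (m + 1), G (a + k) =
      (∫ t in (0 : ℝ)..η, G ((a - 1 / 2 : ℝ) + t * I) /
          (1 - exp (2 * Real.pi * I * ((a - 1 / 2 : ℝ) + t * I - a))) * I)
      + (∫ x in (a - 1 / 2)..(a + m + 1 / 2), G (x + η * I) /
          (1 - exp (2 * Real.pi * I * (x + η * I - a))))
      - (∫ t in (0 : ℝ)..η, G ((a + m + 1 / 2 : ℝ) + t * I) /
          (1 - exp (2 * Real.pi * I * ((a + m + 1 / 2 : ℝ) + t * I - a))) * I)
      - (∫ t in (0 : ℝ)..η, G ((a - 1 / 2 : ℝ) - t * I) /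
          (exp (2 * Real.pi * I * ((a - 1 / 2 : ℝ) - t * I - a)) - 1) * I)
      + (∫ x in (a - 1 / 2)..(a + m + 1 / 2), G (x - η * I) /
          (exp (2 * Real.pi * I * (x - η * I - a)) - 1))
      + (∫ t in (0 : ℝ)..η, G ((a + m + 1 / 2 : ℝ) - t * I) /
          (exp (2 * Real.pi * I * ((a + m + 1 / 2 : ℝ) - t * I - a)) - 1) * I) := by
  rw [← AbelPlana_sum G a η hη m hG]
  have hup : ∀ z : ℂ, G z / (1 - exp (2 * Real.pi * I * (z - a))) =
      -(G z * AbelPlana_K a z) := by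
    intro z
    rw [AbelPlana_K, ← neg_sub (exp (2 * Real.pi * I * (z - a))) 1]
    generalize exp (2 * Real.pi * I * (z - a)) - 1 = W
    rw [div_neg, mul_one_div]
  have hlow : ∀ z : ℂ, G z / (exp (2 * Real.pi * I * (z - a)) - 1) =
      G z * AbelPlana_K a z := by
    intro z
    rw [AbelPlana_K, mul_one_div]
  simp only [hup, hlow]
  -- the vertical sides
  have hvert : ∀ x : ℝ, a - 1 / 2 ≤ x → x ≤ a + m + 1 / 2 → (∀ n : ℤ, x ≠ a + n) →
      ∫ t in (-η)..η, G ((x : ℂ) + t * I) * AbelPlana_K a (x + t * I) =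
        (∫ t in (0 : ℝ)..η, G ((x : ℂ) - t * I) * AbelPlana_K a (x - t * I)) +
        ∫ t in (0 : ℝ)..η, G ((x : ℂ) + t * I) * AbelPlana_K a (x + t * I) := by
    intro x hx1 hx2 hx3
    have hcont : ∀ u v : ℝ, u ≤ v → -η ≤ u → v ≤ η → IntervalIntegrable
        (fun t : ℝ => G ((x : ℂ) + t * I) * AbelPlana_K a (x + t * I))
        MeasureTheory.volume u v := by
      intro u v huv hu hv
      apply ContinuousOn.intervalIntegrable
      intro t ht
      rw [Set.uIcc_of_le huv, Set.mem_Icc] at ht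
      have h5 : DifferentiableAt ℂ G (x + t * I) := hG _ (by simpa using hx1)
        (by simpa using hx2) (by
          simp only [add_im, ofReal_im, mul_im, ofReal_re, I_im, mul_one, I_re, mul_zero,
            add_zero, zero_add]
          exact abs_le.2 ⟨by linarith only [hu, ht, ht.1], by linarith only [hv, ht, ht.2]⟩)
      have h6 : DifferentiableAt ℂ (AbelPlana_K a) (x + t * I) := AbelPlana_K_diff (by
        intro h
        obtain ⟨n, hn⟩ := AbelPlana_exp_eq_one h
        have := congrArg Complex.re hn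
        simp at this
        exact hx3 n this)
      have h7 : ContinuousAt (fun t : ℝ => ((x : ℂ) + t * I)) t := by fun_prop
      have h8 : ContinuousAt (fun t : ℝ => G ((x : ℂ) + t * I)) t :=
        ContinuousAt.comp (f := fun t : ℝ => ((x : ℂ) + t * I)) (g := G) h5.continuousAt h7
      have h9 : ContinuousAt (fun t : ℝ => AbelPlana_K a ((x : ℂ) + t * I)) t :=
        ContinuousAt.comp (f := fun t : ℝ => ((x : ℂ) + t * I)) (g := AbelPlana_K a)
          h6.continuousAt h7
      exact (h8.mul h9).continuousWithinAt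
    rw [← intervalIntegral.integral_add_adjacent_intervals (hcont (-η) 0 (by linarith only [hη]) le_rfl
      hη.le) (hcont 0 η hη.le (by linarith only [hη]) le_rfl)]
    congr 1
    have h8 := intervalIntegral.integral_comp_neg (a := 0) (b := η)
      (fun t : ℝ => G ((x : ℂ) + t * I) * AbelPlana_K a (x + t * I))
    rw [neg_zero] at h8
    rw [← h8]
    apply intervalIntegral.integral_congr
    intro t _
    simp only [ofReal_neg, neg_mul, ← sub_eq_add_neg]
  have hl := hvert (a - 1 / 2) le_rfl (by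
    have : (0 : ℝ) ≤ m := Nat.cast_nonneg m
    linarith only) (by
    intro n hn
    have h1 : (n : ℝ) * 2 = -1 := by linarith only [hn]
    have h2 : n * 2 = -1 := by exact_mod_cast h1
    omega)
  have hr := hvert (a + m + 1 / 2) (by
    have : (0 : ℝ) ≤ m := Nat.cast_nonneg m
    linarith only) le_rfl (by
    intro n hn
    have h1 : (n : ℝ) * 2 = 2 * m + 1 := by linarith only [hn]
    have h2 : n * 2 = 2 * m + 1 := by exact_mod_cast h1
    omega)
  rw [hl, hr]
  simp only [intervalIntegral.integral_mul_const, intervalIntegral.integral_neg, neg_mul]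
  ring

end Pool.Agent.H63.VC3

end

section

/-! # Multiple sums as multiple integrals -/

namespace Pool.Agent.H63.VC4

open Complex
open scoped BigOperators

theorem Hybrid_sum {m : ℕ} (s : Finset ℕ) (f : (Fin (m + 1) → ℕ) → ℂ) :
    ∑ t ∈ Fintype.piFinset (fun _ : Fin (m + 1) => s), f t =
      ∑ t0 ∈ s, ∑ t ∈ Fintype.piFinset (fun _ : Fin m => s), f (Fin.cons t0 t) := by
  rw [← Finset.sum_product']
  symm
  refine Finset.sum_bij' (fun p _ => Fin.cons (α := fun _ => ℕ) p.1 p.2)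
    (fun t _ => (t 0, Fin.tail t)) ?_ ?_ ?_ ?_ ?_
  · rintro ⟨a, t⟩ hp
    rw [Finset.mem_product, Fintype.mem_piFinset] at hp
    rw [Fintype.mem_piFinset]
    intro i
    refine Fin.cases ?_ (fun j => ?_) i
    · exact hp.1
    · exact hp.2 j
  · intro t ht
    rw [Fintype.mem_piFinset] at ht
    rw [Finset.mem_product, Fintype.mem_piFinset]
    exact ⟨ht 0, fun j => ht j.succ⟩
  · rintro ⟨a, t⟩ _
    simp
  · intro t _
    simp
  · rintro ⟨a, t⟩ _
    rfl

theorem Hybrid_int {m : ℕ} (f : (Fin (m + 1) → ℝ) → ℂ) (a b : ℝ)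
    (hf : MeasureTheory.IntegrableOn f (Set.pi Set.univ (fun _ => Set.Ioc a b))) :
    MeasureTheory.IntegrableOn (fun x' : Fin m → ℝ => ∫ x0 in Set.Ioc a b, f (Fin.cons x0 x'))
      (Set.pi Set.univ (fun _ => Set.Ioc a b)) ∧
    ∫ x in Set.pi Set.univ (fun _ : Fin (m + 1) => Set.Ioc a b), f x =
      ∫ x' in Set.pi Set.univ (fun _ : Fin m => Set.Ioc a b), ∫ x0 in Set.Ioc a b,
        f (Fin.cons x0 x') := by
  set e : ℝ × (Fin m → ℝ) ≃ᵐ (Fin (m + 1) → ℝ) :=
    (MeasurableEquiv.piFinSuccAbove (fun _ : Fin (m + 1) => ℝ) 0).symm with he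
  have hmp : MeasureTheory.MeasurePreserving e :=
    (MeasureTheory.volume_preserving_piFinSuccAbove (fun _ : Fin (m + 1) => ℝ) 0).symm _
  have hev : ∀ p : ℝ × (Fin m → ℝ), e p = Fin.cons p.1 p.2 := by
    intro p
    rw [he]
    ext i
    refine Fin.cases ?_ (fun j => ?_) i
    · simp [MeasurableEquiv.piFinSuccAbove]
    · simp [MeasurableEquiv.piFinSuccAbove]
  have hpre : e ⁻¹' (Set.pi Set.univ (fun _ : Fin (m + 1) => Set.Ioc a b)) =
      Set.Ioc a b ×ˢ Set.pi Set.univ (fun _ : Fin m => Set.Ioc a b) := by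
    ext p
    rw [Set.mem_preimage, hev, Set.mem_prod, Set.mem_univ_pi, Set.mem_univ_pi]
    constructor
    · intro h
      exact ⟨by simpa using h 0, fun j => by simpa using h j.succ⟩
    · rintro ⟨h1, h2⟩ i
      refine Fin.cases ?_ (fun j => ?_) i
      · simpa using h1
      · simpa using h2 j
  have hint : MeasureTheory.IntegrableOn (fun p : ℝ × (Fin m → ℝ) => f (Fin.cons p.1 p.2))
      (Set.Ioc a b ×ˢ Set.pi Set.univ (fun _ : Fin m => Set.Ioc a b)) := by
    have h1 := (hmp.integrableOn_comp_preimage e.measurableEmbedding (f := f)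
      (s := Set.pi Set.univ (fun _ : Fin (m + 1) => Set.Ioc a b))).2 hf
    rw [hpre] at h1
    refine h1.congr ?_
    exact Filter.Eventually.of_forall fun p => by simp [Function.comp, hev]
  have hint' : MeasureTheory.Integrable (fun p : ℝ × (Fin m → ℝ) => f (Fin.cons p.1 p.2))
      ((MeasureTheory.volume.restrict (Set.Ioc a b)).prod
        (MeasureTheory.volume.restrict (Set.pi Set.univ (fun _ : Fin m => Set.Ioc a b)))) := by
    rw [MeasureTheory.Measure.prod_restrict]
    exact hint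
  refine ⟨hint'.integral_prod_right, ?_⟩
  rw [← hmp.setIntegral_preimage_emb e.measurableEmbedding, hpre]
  have h2 := MeasureTheory.integral_prod_symm _ hint'
  rw [← h2, MeasureTheory.Measure.prod_restrict]
  simp only [hev]
  rfl

theorem Hybrid_integrable {m : ℕ} (F : (Fin m → ℂ) → ℂ) (y1 y2 : ℝ) (Y : Fin m → ℝ)
    (h : ∀ x : Fin m → ℝ, (∀ i, x i ∈ Set.Icc y1 y2) → ContinuousAt F (fun j => x j + Y j * I)) :
    MeasureTheory.IntegrableOn (fun x : Fin m → ℝ => F (fun j => x j + Y j * I))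
      (Set.pi Set.univ (fun _ => Set.Ioc y1 y2)) := by
  have hc : ContinuousOn (fun x : Fin m → ℝ => F (fun j => x j + Y j * I))
      (Set.pi Set.univ (fun _ => Set.Icc y1 y2)) := by
    intro x hx
    rw [Set.mem_univ_pi] at hx
    have hg : Continuous (fun x : Fin m → ℝ => (fun j => (x j : ℂ) + Y j * I)) := by
      refine continuous_pi fun j => ?_
      exact (Complex.continuous_ofReal.comp (continuous_apply j)).add continuous_const
    exact ((h x hx).comp (f := fun x : Fin m → ℝ => (fun j => (x j : ℂ) + Y j * I))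
      hg.continuousAt).continuousWithinAt
  have hK : IsCompact (Set.pi Set.univ (fun _ : Fin m => Set.Icc y1 y2)) :=
    isCompact_univ_pi fun _ => isCompact_Icc
  exact (hc.integrableOn_compact hK).mono_set
    (Set.pi_mono fun _ _ => Set.Ioc_subset_Icc_self)

theorem Hybrid_update {m : ℕ} (a : ℂ) (z : Fin m → ℂ) (j : Fin m) (w : ℂ) :
    Function.update (Fin.cons a z : Fin (m + 1) → ℂ) j.succ w =
      Fin.cons a (Function.update z j w) := by
  rw [Fin.cons_update]

theorem Hybrid_continuousAt {m : ℕ} (F : (Fin (m + 1) → ℂ) → ℂ) (a : ℂ) (z : Fin m → ℂ)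
    (h : ContinuousAt F (Fin.cons a z)) : ContinuousAt (fun z' : Fin m → ℂ => F (Fin.cons a z')) z := by
  have hg : Continuous (fun z' : Fin m → ℂ => (Fin.cons a z' : Fin (m + 1) → ℂ)) := by
    refine continuous_pi fun i => ?_
    refine Fin.cases ?_ (fun j => ?_) i
    · simpa using continuous_const
    · simp only [Fin.cons_succ]
      exact continuous_apply j
  exact ContinuousAt.comp (f := fun z' : Fin m → ℂ => (Fin.cons a z' : Fin (m + 1) → ℂ)) h
    hg.continuousAt

end Pool.Agent.H63.VC4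

end

section

/-! # The sum over `l` as an integral -/

namespace Pool.Agent.H63.VC3

open Complex

/-- The path of integration. -/
private def SumL_leg (ρ Y : ℝ) : Set ℂ :=
  {z | (|z.re| = ρ ∧ 0 ≤ z.im ∧ z.im ≤ Y) ∨ (|z.re| ≤ ρ ∧ z.im = Y)}

private theorem SumL_leg_left {ρ Y : ℝ} (hρ : 0 ≤ ρ) {t : ℝ} (h : 0 ≤ t) (h' : t ≤ Y) :
    (-ρ + t * I : ℂ) ∈ SumL_leg ρ Y := by
  left
  simp [h, h', abs_of_nonneg hρ]

private theorem SumL_leg_right {ρ Y : ℝ} (hρ : 0 ≤ ρ) {t : ℝ} (h : 0 ≤ t) (h' : t ≤ Y) :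
    (ρ + t * I : ℂ) ∈ SumL_leg ρ Y := by
  left
  simp [h, h', abs_of_nonneg hρ]

private theorem SumL_leg_top {ρ Y : ℝ} {x : ℝ} (h : -ρ ≤ x) (h' : x ≤ ρ) :
    (x + Y * I : ℂ) ∈ SumL_leg ρ Y := by
  right
  simp [abs_le, h, h']

private theorem SumL_cont_left {F : ℂ → ℂ} {ρ Y : ℝ} (hρ : 0 ≤ ρ) (hY : 0 ≤ Y)
    (hF : ∀ z ∈ SumL_leg ρ Y, ContinuousAt F z) :
    ContinuousOn (fun t : ℝ => F (-ρ + t * I) * I) (Set.uIcc 0 Y) := by
  intro t ht
  rw [Set.uIcc_of_le hY] at ht
  refine ContinuousAt.continuousWithinAt ?_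
  refine ContinuousAt.mul ?_ continuousAt_const
  exact ContinuousAt.comp (f := fun t : ℝ => (-ρ + t * I : ℂ))
    (hF _ (SumL_leg_left hρ ht.1 ht.2)) (by fun_prop)

private theorem SumL_cont_right {F : ℂ → ℂ} {ρ Y : ℝ} (hρ : 0 ≤ ρ) (hY : 0 ≤ Y)
    (hF : ∀ z ∈ SumL_leg ρ Y, ContinuousAt F z) :
    ContinuousOn (fun t : ℝ => F (ρ + t * I) * I) (Set.uIcc 0 Y) := by
  intro t ht
  rw [Set.uIcc_of_le hY] at ht
  refine ContinuousAt.continuousWithinAt ?_
  refine ContinuousAt.mul ?_ continuousAt_const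
  exact ContinuousAt.comp (f := fun t : ℝ => (ρ + t * I : ℂ))
    (hF _ (SumL_leg_right hρ ht.1 ht.2)) (by fun_prop)

private theorem SumL_cont_top {F : ℂ → ℂ} {ρ Y : ℝ} (hρ : 0 ≤ ρ)
    (hF : ∀ z ∈ SumL_leg ρ Y, ContinuousAt F z) :
    ContinuousOn (fun x : ℝ => F (x + Y * I)) (Set.uIcc (-ρ) ρ) := by
  intro t ht
  rw [Set.uIcc_of_le (by linarith only [hρ])] at ht
  refine ContinuousAt.continuousWithinAt ?_
  exact ContinuousAt.comp (f := fun t : ℝ => (t + Y * I : ℂ))
    (hF _ (SumL_leg_top ht.1 ht.2)) (by fun_prop)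

private theorem SumL_path_add {F G : ℂ → ℂ} {ρ Y : ℝ} (hρ : 0 ≤ ρ) (hY : 0 ≤ Y)
    (hF : ∀ z ∈ SumL_leg ρ Y, ContinuousAt F z) (hG : ∀ z ∈ SumL_leg ρ Y, ContinuousAt G z) :
    Path (fun z => F z + G z) ρ Y = Path F ρ Y + Path G ρ Y := by
  unfold Path
  simp only [add_mul]
  rw [intervalIntegral.integral_add (SumL_cont_left hρ hY hF).intervalIntegrable
      (SumL_cont_left hρ hY hG).intervalIntegrable,
    intervalIntegral.integral_add (SumL_cont_top hρ hF).intervalIntegrable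
      (SumL_cont_top hρ hG).intervalIntegrable,
    intervalIntegral.integral_add (SumL_cont_right hρ hY hF).intervalIntegrable
      (SumL_cont_right hρ hY hG).intervalIntegrable]
  ring

private theorem SumL_path_const_mul (c : ℂ) (F : ℂ → ℂ) (ρ Y : ℝ) :
    Path (fun z => c * F z) ρ Y = c * Path F ρ Y := by
  unfold Path
  simp only [mul_assoc]
  rw [intervalIntegral.integral_const_mul, intervalIntegral.integral_const_mul,
    intervalIntegral.integral_const_mul]
  ring

private theorem SumL_path_deriv {F F' : ℂ → ℂ} {ρ Y : ℝ} (hρ : 0 ≤ ρ) (hY : 0 ≤ Y)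
    (hF : ∀ z ∈ SumL_leg ρ Y, HasDerivAt F (F' z) z)
    (hF' : ∀ z ∈ SumL_leg ρ Y, ContinuousAt F' z) :
    Path F' ρ Y = F ρ - F (-ρ) := by
  unfold Path
  have h1 : ∫ t in (0 : ℝ)..Y, F' (-ρ + t * I) * I = F (-ρ + Y * I) - F (-ρ + (0 : ℝ) * I) := by
    refine intervalIntegral.integral_eq_sub_of_hasDerivAt (f := fun t : ℝ => F (-ρ + t * I)) ?_
      (SumL_cont_left hρ hY hF').intervalIntegrable
    intro t ht
    rw [Set.uIcc_of_le hY] at ht
    have g1 := hF _ (SumL_leg_left hρ ht.1 ht.2)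
    have g2 : HasDerivAt (fun t : ℝ => (-ρ + t * I : ℂ)) I t := by
      have := ((Complex.ofRealCLM.hasDerivAt (x := t)).mul_const I).const_add (-ρ : ℂ)
      simpa using this
    exact HasDerivAt.comp t g1 g2
  have h2 : ∫ t in (0 : ℝ)..Y, F' (ρ + t * I) * I = F (ρ + Y * I) - F (ρ + (0 : ℝ) * I) := by
    refine intervalIntegral.integral_eq_sub_of_hasDerivAt (f := fun t : ℝ => F (ρ + t * I)) ?_
      (SumL_cont_right hρ hY hF').intervalIntegrable
    intro t ht
    rw [Set.uIcc_of_le hY] at ht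
    have g1 := hF _ (SumL_leg_right hρ ht.1 ht.2)
    have g2 : HasDerivAt (fun t : ℝ => (ρ + t * I : ℂ)) I t := by
      have := ((Complex.ofRealCLM.hasDerivAt (x := t)).mul_const I).const_add (ρ : ℂ)
      simpa using this
    exact HasDerivAt.comp t g1 g2
  have h3 : ∫ x in (-ρ)..ρ, F' (x + Y * I) = F (ρ + Y * I) - F (((-ρ : ℝ) : ℂ) + Y * I) := by
    refine intervalIntegral.integral_eq_sub_of_hasDerivAt (f := fun x : ℝ => F (x + Y * I)) ?_
      (SumL_cont_top hρ hF').intervalIntegrable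
    intro t ht
    rw [Set.uIcc_of_le (by linarith only [hρ])] at ht
    have g1 := hF _ (SumL_leg_top ht.1 ht.2)
    have g2 : HasDerivAt (fun t : ℝ => (t + Y * I : ℂ)) 1 t := by
      have := (Complex.ofRealCLM.hasDerivAt (x := t)).add_const (Y * I : ℂ)
      simpa using this
    have g3 := HasDerivAt.comp t g1 g2
    rwa [mul_one] at g3
  rw [h1, h2, h3]
  push_cast
  simp only [zero_mul, add_zero]
  ring

private theorem SumL_norm_ww (n M : ℕ) (v : ℂ) :
    ‖ww n M v‖ = Real.exp (-(2 * Real.pi * M * v.im)) := by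
  rw [ww, Complex.norm_exp]
  congr 1
  simp
  ring

private theorem SumL_ww_neg (n M : ℕ) (v : ℂ) : ww n M (-v) = (ww n M v)⁻¹ := by
  unfold ww
  rw [← Complex.exp_neg]
  rw [Complex.exp_eq_exp_iff_exists_int]
  refine ⟨(M : ℤ) - n + 1, ?_⟩
  rw [bt]
  push_cast
  ring

/-- `w = -1` at the end points of the path, `w` is negative on the vertical sides. -/
private theorem SumL_ww_rho (n M l2 : ℕ) (hM : 0 < M) (ρ : ℝ)
    (hρ : ρ = (l2 + 1 / 2 + bt n) / M - 1 / 2) (t : ℝ) :
    ww n M (ρ + t * I) = -((Real.exp (-(2 * Real.pi * M * t)) : ℝ) : ℂ) := by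
  have hMc : (M : ℂ) ≠ 0 := by exact_mod_cast hM.ne'
  have h1 : 2 * Real.pi * I * (M * ((ρ + t * I : ℂ) + 1 / 2) - bt n) =
      Real.pi * I + l2 * (2 * Real.pi * I) + ((-(2 * Real.pi * M * t) : ℝ) : ℂ) := by
    rw [hρ]
    push_cast
    field_simp
    linear_combination (2 * (M : ℂ) * t) * Complex.I_sq
  rw [ww, h1, Complex.exp_add, Complex.exp_add, Complex.exp_pi_mul_I, Complex.exp_nat_mul,
    Complex.exp_two_pi_mul_I, one_pow, Complex.ofReal_exp]
  ring

private theorem SumL_ww_neg_rho (n M l2 : ℕ) (hM : 0 < M) (ρ : ℝ)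
    (hρ : ρ = (l2 + 1 / 2 + bt n) / M - 1 / 2) (t : ℝ) :
    ww n M (-ρ + t * I) = -((Real.exp (-(2 * Real.pi * M * t)) : ℝ) : ℂ) := by
  have h1 : (-ρ + t * I : ℂ) = -(ρ + ((-t : ℝ) : ℂ) * I) := by push_cast; ring
  rw [h1, SumL_ww_neg, SumL_ww_rho n M l2 hM ρ hρ]
  rw [inv_neg, ← Complex.ofReal_inv, ← Real.exp_neg]
  congr 3
  ring

private theorem SumL_ww_ne (n M l2 : ℕ) (hM : 0 < M) (ρ Y : ℝ) (hY : 0 < Y)
    (hρ : ρ = (l2 + 1 / 2 + bt n) / M - 1 / 2) {z : ℂ} (hz : z ∈ SumL_leg ρ Y) :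
    1 - ww n M z ≠ 0 := by
  intro h0
  have h1 : ww n M z = 1 := (sub_eq_zero.1 h0).symm
  have hM0 : (0 : ℝ) < M := by exact_mod_cast hM
  rcases hz with ⟨h2, h3, h4⟩ | ⟨h2, h3⟩
  · have key : ww n M z = -((Real.exp (-(2 * Real.pi * M * z.im)) : ℝ) : ℂ) := by
      rcases abs_choice z.re with h5 | h5
      · have : z = (ρ + z.im * I : ℂ) := by
          rw [← h2, h5]
          exact (Complex.re_add_im z).symm
        conv_lhs => rw [this]
        exact SumL_ww_rho n M l2 hM ρ hρ z.im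
      · have : z = (-ρ + z.im * I : ℂ) := by
          rw [← h2, h5]
          push_cast
          rw [neg_neg]
          exact (Complex.re_add_im z).symm
        conv_lhs => rw [this]
        exact SumL_ww_neg_rho n M l2 hM ρ hρ z.im
    rw [h1] at key
    have h6 := congrArg Complex.re key
    rw [Complex.neg_re, Complex.ofReal_re, Complex.one_re] at h6
    have := Real.exp_pos (-(2 * Real.pi * M * z.im))
    linarith only [h6, this]
  · have h4 := SumL_norm_ww n M z
    rw [h1, norm_one, h3] at h4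
    have h5 : Real.exp (-(2 * Real.pi * M * Y)) < 1 := by
      rw [Real.exp_lt_one_iff]
      have : 0 < 2 * Real.pi * M * Y := by positivity
      linarith only [this]
    linarith only [h4, h5]

private theorem SumL_ww_hasDeriv (n M : ℕ) (z : ℂ) :
    HasDerivAt (ww n M) (2 * Real.pi * I * M * ww n M z) z := by
  have h1 : HasDerivAt (fun v : ℂ => 2 * Real.pi * I * (M * (v + 1 / 2) - bt n))
      (2 * Real.pi * I * M) z := by
    have := ((((hasDerivAt_id z).add_const (1 / 2 : ℂ)).const_mul (M : ℂ)).sub_const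
      (bt n : ℂ)).const_mul (2 * Real.pi * I : ℂ)
    simpa using this
  have h2 := h1.cexp
  have h3 : (fun v : ℂ => exp (2 * Real.pi * I * (M * (v + 1 / 2) - bt n))) = ww n M := by
    funext v; rfl
  rw [h3] at h2
  have h4 : exp (2 * Real.pi * I * (M * (z + 1 / 2) - bt n)) * (2 * Real.pi * I * M) =
      2 * Real.pi * I * M * ww n M z := by
    rw [ww]; ring
  rwa [h4] at h2

private theorem SumL_om_cont (n M : ℕ) {z : ℂ} (h : 1 - ww n M z ≠ 0) :
    ContinuousAt (om n M) z := by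
  have h1 := (SumL_ww_hasDeriv n M z).continuousAt
  have h2 : ContinuousAt (fun v => ww n M v / (1 - ww n M v) ^ 2) z :=
    h1.div ((continuousAt_const.sub h1).pow 2) (pow_ne_zero 2 h)
  exact h2

/-- Version for functions with a differentiable derivative. -/
private theorem SumL_strong (G : ℂ → ℂ) (n M l1 l2 : ℕ) (Y : ℝ) (hM : 0 < M)
    (hl : l1 + l2 + n = M + 1) (hl' : l1 ≤ l2) (hY : 0 < Y) (ρ : ℝ)
    (hρ : ρ = (l2 + 1 / 2 + bt n) / M - 1 / 2)
    (hG : ∀ z : ℂ, |z.re| ≤ ρ → |z.im| ≤ Y → DifferentiableAt ℂ G z)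
    (hG' : ∀ z : ℂ, |z.re| ≤ ρ → |z.im| ≤ Y → DifferentiableAt ℂ (deriv G) z)
    (hodd : ∀ z : ℂ, G (-z) = -G z) :
    ∑ l ∈ Finset.Icc l1 l2, deriv G (vl n M l) =
      -(4 * Real.pi * I) * M ^ 2 * Path (fun v => G v * om n M v) ρ Y := by
  obtain ⟨m, rfl⟩ : ∃ m, l2 = l1 + m := ⟨l2 - l1, by omega⟩
  have hM0 : (0 : ℝ) < M := by exact_mod_cast hM
  have hMc : (M : ℂ) ≠ 0 := by exact_mod_cast hM.ne'
  -- the left end point
  have hlR : (l1 : ℝ) + (l1 + m) + n = M + 1 := by exact_mod_cast hl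
  have hρ' : -ρ = (l1 - 1 / 2 + bt n) / M - 1 / 2 := by
    rw [hρ, bt]
    push_cast
    field_simp
    linarith only [hlR]
  have h2ρ : 2 * ρ = (m + 1) / M := by
    have : 2 * ρ = ρ - -ρ := by ring
    rw [this, hρ', hρ]
    push_cast
    ring
  have hρ0 : 0 < ρ := by
    have : 0 < ((m : ℝ) + 1) / M := by positivity
    linarith only [h2ρ, this]
  -- evenness of the derivative
  have heven : ∀ z : ℂ, deriv G (-z) = deriv G z := by
    intro z
    have h1 : (fun z => G (-z)) = fun z => -G z := funext hodd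
    have h2 : deriv (fun z => G (-z)) z = -deriv G (-z) := deriv_comp_neg G z
    rw [h1] at h2
    have h3 : deriv (fun z => -G z) z = -deriv G z := deriv.fun_neg
    rw [h3] at h2
    exact (neg_injective h2).symm
  set sc : ℂ → ℂ := fun s => (s + bt n) / M - 1 / 2 with hsc
  have hre : ∀ s : ℂ, (sc s).re = (s.re + bt n) / M - 1 / 2 := by
    intro s
    simp [hsc]
  have him : ∀ s : ℂ, (sc s).im = s.im / M := by
    intro s
    simp [hsc]
  have hscd : ∀ s : ℂ, DifferentiableAt ℂ sc s := by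
    intro s
    rw [hsc]
    fun_prop
  set a : ℝ := (l1 : ℝ) with ha
  have hac : (a : ℂ) = (l1 : ℂ) := by rw [ha]; simp
  set H : ℝ := Y * M with hH
  have hH0 : 0 < H := by positivity
  have hHM : H / M = Y := by rw [hH]; field_simp
  have hww : ∀ s : ℂ, exp (2 * Real.pi * I * (s - a)) = ww n M (sc s) := by
    intro s
    rw [ww, Complex.exp_eq_exp_iff_exists_int]
    refine ⟨-(l1 : ℤ), ?_⟩
    rw [hsc, hac]
    push_cast
    field_simp
    ring
  have hdiff : ∀ z : ℂ, a - 1 / 2 ≤ z.re → z.re ≤ a + m + 1 / 2 → |z.im| ≤ H →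
      DifferentiableAt ℂ (fun s => deriv G (sc s)) z := by
    intro z h1 h2 h3
    refine DifferentiableAt.comp z (hG' (sc z) ?_ ?_) (hscd z)
    · rw [abs_le, hre]
      constructor
      · rw [hρ']
        have : (a - 1 / 2 + bt n) / M ≤ (z.re + bt n) / M := by
          apply div_le_div_of_nonneg_right _ hM0.le
          linarith only [h1]
        linarith only [this]
      · rw [hρ]
        have : (z.re + bt n) / M ≤ (((l1 + m : ℕ) : ℝ) + 1 / 2 + bt n) / M := by
          apply div_le_div_of_nonneg_right _ hM0.le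
          push_cast
          linarith only [h2]
        linarith only [this]
    · rw [him, abs_div, abs_of_pos hM0, div_le_iff₀ hM0]
      exact h3
  have key := abel_plana (fun s => deriv G (sc s)) a m H hH0 hdiff
  -- the left hand side
  have hsum : ∑ l ∈ Finset.Icc l1 (l1 + m), deriv G (vl n M l) =
      ∑ k ∈ Finset.range (m + 1), deriv G (sc (a + k)) := by
    rw [← Finset.Ico_succ_right_eq_Icc, Finset.sum_Ico_eq_sum_range]
    have h1 : Order.succ (l1 + m) - l1 = m + 1 := by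
      rw [Nat.succ_eq_succ]
      omega
    rw [h1]
    refine Finset.sum_congr rfl fun j _ => ?_
    congr 1
    rw [hsc, vl, hac]
    push_cast
    ring
  -- scaling of the points
  have sl : ∀ t : ℝ, sc ((a - 1 / 2 : ℝ) + t * I) = -ρ + ((t / M : ℝ) : ℂ) * I := by
    intro t
    have : (-ρ : ℂ) = (((l1 - 1 / 2 + bt n) / M - 1 / 2 : ℝ) : ℂ) := by
      rw [← hρ']; push_cast; ring
    rw [this, hsc]
    push_cast
    rw [hac]
    ring
  have sr : ∀ t : ℝ, sc ((a + m + 1 / 2 : ℝ) + t * I) = ρ + ((t / M : ℝ) : ℂ) * I := by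
    intro t
    rw [hρ, hsc]
    push_cast
    rw [hac]
    ring
  have sl' : ∀ t : ℝ, sc ((a - 1 / 2 : ℝ) - t * I) = -(ρ + ((t / M : ℝ) : ℂ) * I) := by
    intro t
    have h1 : ((a - 1 / 2 : ℝ) - t * I : ℂ) = ((a - 1 / 2 : ℝ) + ((-t : ℝ) : ℂ) * I : ℂ) := by
      push_cast; ring
    rw [h1, sl]
    push_cast
    ring
  have sr' : ∀ t : ℝ, sc ((a + m + 1 / 2 : ℝ) - t * I) = -(-ρ + ((t / M : ℝ) : ℂ) * I) := by
    intro t
    have h1 : ((a + m + 1 / 2 : ℝ) - t * I : ℂ) =
        ((a + m + 1 / 2 : ℝ) + ((-t : ℝ) : ℂ) * I : ℂ) := by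
      push_cast; ring
    rw [h1, sr]
    push_cast
    ring
  have st : ∀ x : ℝ, sc (x + H * I) = ((x / M + (bt n / M - 1 / 2) : ℝ) : ℂ) + Y * I := by
    intro x
    rw [hsc, hH]
    push_cast
    field_simp
    ring
  have st' : ∀ x : ℝ, sc (x - H * I) =
      -(((-(x / M + (bt n / M - 1 / 2)) : ℝ) : ℂ) + Y * I) := by
    intro x
    rw [hsc, hH]
    push_cast
    field_simp
    ring
  have e3 : a / M + (bt n / M - 1 / 2) - 1 / 2 / M = -ρ := by
    rw [hρ']; ring
  -- the six integrals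
  set C1 : ℂ → ℂ := fun v => deriv G v / (1 - ww n M v) with hC1
  set C2 : ℂ → ℂ := fun v => deriv G v / ((ww n M v)⁻¹ - 1) with hC2
  have t1 : ∫ t in (0 : ℝ)..H, deriv G (sc ((a - 1 / 2 : ℝ) + t * I)) /
      (1 - exp (2 * Real.pi * I * ((a - 1 / 2 : ℝ) + t * I - a))) * I =
      M * ∫ t in (0 : ℝ)..Y, C1 (-ρ + t * I) * I := by
    have h1 := intervalIntegral.integral_comp_div (a := 0) (b := H)
      (fun τ : ℝ => C1 (-ρ + τ * I) * I) hM0.ne'
    rw [zero_div, hHM] at h1
    rw [Complex.real_smul, Complex.ofReal_natCast] at h1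
    rw [← h1]
    refine intervalIntegral.integral_congr fun t _ => ?_
    simp only [hC1]
    rw [hww, sl]
  have t3 : ∫ t in (0 : ℝ)..H, deriv G (sc ((a + m + 1 / 2 : ℝ) + t * I)) /
      (1 - exp (2 * Real.pi * I * ((a + m + 1 / 2 : ℝ) + t * I - a))) * I =
      M * ∫ t in (0 : ℝ)..Y, C1 (ρ + t * I) * I := by
    have h1 := intervalIntegral.integral_comp_div (a := 0) (b := H)
      (fun τ : ℝ => C1 (ρ + τ * I) * I) hM0.ne'
    rw [zero_div, hHM] at h1
    rw [Complex.real_smul, Complex.ofReal_natCast] at h1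
    rw [← h1]
    refine intervalIntegral.integral_congr fun t _ => ?_
    simp only [hC1]
    rw [hww, sr]
  have t4 : ∫ t in (0 : ℝ)..H, deriv G (sc ((a - 1 / 2 : ℝ) - t * I)) /
      (exp (2 * Real.pi * I * ((a - 1 / 2 : ℝ) - t * I - a)) - 1) * I =
      M * ∫ t in (0 : ℝ)..Y, C2 (ρ + t * I) * I := by
    have h1 := intervalIntegral.integral_comp_div (a := 0) (b := H)
      (fun τ : ℝ => C2 (ρ + τ * I) * I) hM0.ne'
    rw [zero_div, hHM] at h1
    rw [Complex.real_smul, Complex.ofReal_natCast] at h1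
    rw [← h1]
    refine intervalIntegral.integral_congr fun t _ => ?_
    simp only [hC2]
    rw [hww, sl', SumL_ww_neg, heven]
  have t6 : ∫ t in (0 : ℝ)..H, deriv G (sc ((a + m + 1 / 2 : ℝ) - t * I)) /
      (exp (2 * Real.pi * I * ((a + m + 1 / 2 : ℝ) - t * I - a)) - 1) * I =
      M * ∫ t in (0 : ℝ)..Y, C2 (-ρ + t * I) * I := by
    have h1 := intervalIntegral.integral_comp_div (a := 0) (b := H)
      (fun τ : ℝ => C2 (-ρ + τ * I) * I) hM0.ne'
    rw [zero_div, hHM] at h1
    rw [Complex.real_smul, Complex.ofReal_natCast] at h1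
    rw [← h1]
    refine intervalIntegral.integral_congr fun t _ => ?_
    simp only [hC2]
    rw [hww, sr', SumL_ww_neg, heven]
  have b1 : (a - 1 / 2) / M + (bt n / M - 1 / 2) = -ρ := by
    rw [hρ']; ring
  have b2 : (a + m + 1 / 2) / M + (bt n / M - 1 / 2) = ρ := by
    rw [hρ, ha]; push_cast; ring
  have t2 : ∫ x in (a - 1 / 2)..(a + m + 1 / 2), deriv G (sc (x + H * I)) /
      (1 - exp (2 * Real.pi * I * (x + H * I - a))) =
      M * ∫ x in (-ρ)..ρ, C1 (x + Y * I) := by
    have h1 := intervalIntegral.integral_comp_div_add (a := a - 1 / 2) (b := a + m + 1 / 2)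
      (fun u : ℝ => C1 (u + Y * I)) hM0.ne' (bt n / M - 1 / 2)
    rw [b1, b2, Complex.real_smul, Complex.ofReal_natCast] at h1
    rw [← h1]
    refine intervalIntegral.integral_congr fun x _ => ?_
    simp only [hC1]
    rw [hww, st]
  have t5 : ∫ x in (a - 1 / 2)..(a + m + 1 / 2), deriv G (sc (x - H * I)) /
      (exp (2 * Real.pi * I * (x - H * I - a)) - 1) =
      M * ∫ x in (-ρ)..ρ, C2 (x + Y * I) := by
    have h1 := intervalIntegral.integral_comp_div_add (a := a - 1 / 2) (b := a + m + 1 / 2)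
      (fun u : ℝ => C2 (((-u : ℝ) : ℂ) + Y * I)) hM0.ne' (bt n / M - 1 / 2)
    have h2 := intervalIntegral.integral_comp_neg (a := -ρ) (b := ρ)
      (fun u : ℝ => C2 ((u : ℂ) + Y * I))
    rw [neg_neg] at h2
    rw [b1, b2, Complex.real_smul, Complex.ofReal_natCast, h2] at h1
    rw [← h1]
    refine intervalIntegral.integral_congr fun x _ => ?_
    simp only [hC2]
    rw [hww, st', SumL_ww_neg, heven]
  have hstep1 : ∑ l ∈ Finset.Icc l1 (l1 + m), deriv G (vl n M l) =
      M * (Path C1 ρ Y + Path C2 ρ Y) := by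
    rw [hsum, key, t1, t2, t3, t4, t5, t6]
    unfold Path
    ring
  -- properties on the path
  have hne : ∀ z ∈ SumL_leg ρ Y, 1 - ww n M z ≠ 0 := fun z hz =>
    SumL_ww_ne n M (l1 + m) hM ρ Y hY hρ hz
  have hw0 : ∀ z, ww n M z ≠ 0 := fun z => Complex.exp_ne_zero _
  have hne2 : ∀ z ∈ SumL_leg ρ Y, (ww n M z)⁻¹ - 1 ≠ 0 := by
    intro z hz h0
    have h1 : ww n M z * ((ww n M z)⁻¹ - 1) = 1 - ww n M z := by
      rw [mul_sub, mul_inv_cancel₀ (hw0 z), mul_one]
    rw [h0, mul_zero] at h1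
    exact hne z hz h1.symm
  have hleg : ∀ z ∈ SumL_leg ρ Y, |z.re| ≤ ρ ∧ |z.im| ≤ Y := by
    intro z hz
    rcases hz with ⟨h1, h2, h3⟩ | ⟨h1, h2⟩
    · exact ⟨h1.le, by rw [abs_of_nonneg h2]; exact h3⟩
    · exact ⟨h1, by rw [h2, abs_of_pos hY]⟩
  have cw : ∀ z, ContinuousAt (ww n M) z := fun z => (SumL_ww_hasDeriv n M z).continuousAt
  have cφ : ∀ z ∈ SumL_leg ρ Y, ContinuousAt (deriv G) z := fun z hz =>
    (hG' z (hleg z hz).1 (hleg z hz).2).continuousAt
  have cG : ∀ z ∈ SumL_leg ρ Y, ContinuousAt G z := fun z hz =>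
    (hG z (hleg z hz).1 (hleg z hz).2).continuousAt
  have cC1 : ∀ z ∈ SumL_leg ρ Y, ContinuousAt C1 z := fun z hz =>
    (cφ z hz).div (continuousAt_const.sub (cw z)) (hne z hz)
  have cC2 : ∀ z ∈ SumL_leg ρ Y, ContinuousAt C2 z := fun z hz =>
    (cφ z hz).div (((cw z).inv₀ (hw0 z)).sub continuousAt_const) (hne2 z hz)
  have cGom : ∀ z ∈ SumL_leg ρ Y, ContinuousAt (fun v => G v * om n M v) z := fun z hz =>
    (cG z hz).mul (SumL_om_cont n M (hne z hz))
  -- integration by parts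
  set F : ℂ → ℂ := fun v => G v * ((1 + ww n M v) / (1 - ww n M v)) with hF
  have hFd : ∀ z ∈ SumL_leg ρ Y, HasDerivAt F
      ((C1 z + C2 z) + 4 * Real.pi * I * M * (G z * om n M z)) z := by
    intro z hz
    have g1 : HasDerivAt G (deriv G z) z := (hG z (hleg z hz).1 (hleg z hz).2).hasDerivAt
    have g2 := SumL_ww_hasDeriv n M z
    have g3 := (g2.const_add (1 : ℂ)).div (g2.const_sub (1 : ℂ)) (hne z hz)
    have g4 := g1.mul g3
    refine g4.congr_deriv ?_
    simp only [hC1, hC2, om, Pi.div_apply]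
    have n1 := hne z hz
    have n2 := hne2 z hz
    have n3 := hw0 z
    have e1 : deriv G z / ((ww n M z)⁻¹ - 1) = deriv G z * ww n M z / (1 - ww n M z) := by
      rw [div_eq_div_iff n2 n1]
      field_simp
    rw [e1]
    field_simp
    ring
  have hpath := SumL_path_deriv hρ0.le hY.le hFd (fun z hz =>
    ((cC1 z hz).add (cC2 z hz)).add (continuousAt_const.mul (cGom z hz)))
  have hFρ : F ρ = 0 := by
    have h1 := SumL_ww_rho n M (l1 + m) hM ρ hρ 0
    simp only [Complex.ofReal_zero, zero_mul, add_zero, mul_zero, neg_zero, Real.exp_zero,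
      Complex.ofReal_one] at h1
    simp only [hF]
    rw [h1]
    simp
  have hFρ' : F (-ρ) = 0 := by
    have h1 := SumL_ww_neg_rho n M (l1 + m) hM ρ hρ 0
    simp only [Complex.ofReal_zero, zero_mul, add_zero, mul_zero, neg_zero, Real.exp_zero,
      Complex.ofReal_one] at h1
    simp only [hF]
    rw [h1]
    simp
  rw [hFρ, hFρ', sub_zero] at hpath
  have hp1 := SumL_path_add (F := fun z => C1 z + C2 z)
    (G := fun z => 4 * Real.pi * I * M * (G z * om n M z)) hρ0.le hY.le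
    (fun z hz => (cC1 z hz).add (cC2 z hz)) (fun z hz => continuousAt_const.mul (cGom z hz))
  have hp2 := SumL_path_add hρ0.le hY.le cC1 cC2
  have hp3 := SumL_path_const_mul (4 * Real.pi * I * M) (fun z => G z * om n M z) ρ Y
  rw [hp1, hp2, hp3] at hpath
  rw [hstep1]
  linear_combination (M : ℂ) * hpath

private theorem SumL_lim (G : ℂ → ℂ) (n M : ℕ) {ρ Y : ℝ} (hY : 0 < Y)
    (hG : ∀ z : ℂ, |z.re| ≤ ρ → |z.im| ≤ Y → ContinuousAt G z)
    (hom : ∀ z ∈ SumL_leg ρ Y, ContinuousAt (om n M) z)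
    (c : ℕ → ℝ) (hc0 : ∀ j, 0 ≤ c j) (hc1 : ∀ j, c j ≤ 1)
    (hc : Filter.Tendsto c Filter.atTop (nhds 1)) (γ : ℝ → ℂ) (hγ : Continuous γ) (a b : ℝ)
    (hleg : ∀ t ∈ Set.uIcc a b, γ t ∈ SumL_leg ρ Y) :
    Filter.Tendsto (fun j => ∫ t in a..b, G (c j * γ t) * om n M (γ t)) Filter.atTop
      (nhds (∫ t in a..b, G (γ t) * om n M (γ t))) := by
  have hR : ∀ z ∈ SumL_leg ρ Y, |z.re| ≤ ρ ∧ |z.im| ≤ Y := by
    intro z hz
    rcases hz with ⟨h1, h2, h3⟩ | ⟨h1, h2⟩
    · exact ⟨h1.le, by rw [abs_of_nonneg h2]; exact h3⟩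
    · exact ⟨h1, by rw [h2, abs_of_pos hY]⟩
  have hcR : ∀ j, ∀ z ∈ SumL_leg ρ Y, |((c j : ℂ) * z).re| ≤ ρ ∧ |((c j : ℂ) * z).im| ≤ Y := by
    intro j z hz
    obtain ⟨h1, h2⟩ := hR z hz
    have e1 : ((c j : ℂ) * z).re = c j * z.re := by simp
    have e2 : ((c j : ℂ) * z).im = c j * z.im := by simp
    rw [e1, e2, abs_mul, abs_mul, abs_of_nonneg (hc0 j)]
    constructor
    · calc c j * |z.re| ≤ 1 * |z.re| := mul_le_mul_of_nonneg_right (hc1 j) (abs_nonneg _)
        _ ≤ ρ := by rw [one_mul]; exact h1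
    · calc c j * |z.im| ≤ 1 * |z.im| := mul_le_mul_of_nonneg_right (hc1 j) (abs_nonneg _)
        _ ≤ Y := by rw [one_mul]; exact h2
  -- a bound for `G`
  have hcomp : IsCompact (Set.Icc (-ρ) ρ ×ℂ Set.Icc (-Y) Y) :=
    IsCompact.reProdIm isCompact_Icc isCompact_Icc
  have hmemR : ∀ z : ℂ, |z.re| ≤ ρ → |z.im| ≤ Y → z ∈ (Set.Icc (-ρ) ρ ×ℂ Set.Icc (-Y) Y) := by
    intro z h1 h2
    rw [Complex.mem_reProdIm]
    exact ⟨abs_le.1 h1, abs_le.1 h2⟩
  obtain ⟨K, hK⟩ := hcomp.exists_bound_of_continuousOn (f := G) (by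
    intro z hz
    rw [Complex.mem_reProdIm] at hz
    exact (hG z (abs_le.2 hz.1) (abs_le.2 hz.2)).continuousWithinAt)
  have homγ : ContinuousOn (fun t => om n M (γ t)) (Set.uIcc a b) := fun t ht =>
    (ContinuousAt.comp (f := γ) (hom _ (hleg t ht)) hγ.continuousAt).continuousWithinAt
  refine intervalIntegral.tendsto_integral_filter_of_dominated_convergence
    (fun t => K * ‖om n M (γ t)‖) ?_ ?_ ?_ ?_
  · refine Filter.Eventually.of_forall fun j => ?_
    have h1 : ContinuousOn (fun t => G (c j * γ t) * om n M (γ t)) (Set.uIcc a b) := by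
      refine ContinuousOn.mul (fun t ht => ?_) homγ
      obtain ⟨h2, h3⟩ := hcR j _ (hleg t ht)
      exact (ContinuousAt.comp (f := fun t => (c j : ℂ) * γ t) (hG _ h2 h3)
        (continuous_const.mul hγ).continuousAt).continuousWithinAt
    exact (h1.mono Set.uIoc_subset_uIcc).aestronglyMeasurable measurableSet_uIoc
  · refine Filter.Eventually.of_forall fun j => Filter.Eventually.of_forall fun t ht => ?_
    obtain ⟨h2, h3⟩ := hcR j _ (hleg t (Set.uIoc_subset_uIcc ht))
    rw [norm_mul]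
    exact mul_le_mul_of_nonneg_right (hK _ (hmemR _ h2 h3)) (norm_nonneg _)
  · exact (continuousOn_const.mul homγ.norm).intervalIntegrable
  · refine Filter.Eventually.of_forall fun t ht => ?_
    obtain ⟨h2, h3⟩ := hR _ (hleg t (Set.uIoc_subset_uIcc ht))
    refine Filter.Tendsto.mul ?_ tendsto_const_nhds
    have h4 : Filter.Tendsto (fun j => (c j : ℂ) * γ t) Filter.atTop (nhds (γ t)) := by
      have h5 : Filter.Tendsto (fun j => (c j : ℂ)) Filter.atTop (nhds ((1 : ℝ) : ℂ)) :=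
        (Complex.continuous_ofReal.tendsto _).comp hc
      have h6 := h5.mul_const (γ t)
      simpa using h6
    exact (hG _ h2 h3).tendsto.comp h4

/-- The derivative of an odd function summed over a symmetric set of lattice points. -/
theorem sum_l (G : ℂ → ℂ) (n M l1 l2 : ℕ) (Y : ℝ) (hM : 0 < M) (hl : l1 + l2 + n = M + 1)
    (hn : 1 ≤ n) (hl' : l1 ≤ l2) (hY : 0 < Y) (ρ : ℝ) (hρ : ρ = (l2 + 1 / 2 + bt n) / M - 1 / 2)
    (hG : ∀ z : ℂ, |z.re| ≤ ρ → |z.im| ≤ Y → DifferentiableAt ℂ G z)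
    (hodd : ∀ z : ℂ, G (-z) = -G z) :
    ∑ l ∈ Finset.Icc l1 l2, deriv G (vl n M l) =
      -(4 * Real.pi * I) * M ^ 2 * Path (fun v => G v * om n M v) ρ Y := by
  have hM0 : (0 : ℝ) < M := by exact_mod_cast hM
  have hlR : (l1 : ℝ) + l2 + n = M + 1 := by exact_mod_cast hl
  have hllR : (l1 : ℝ) ≤ l2 := by exact_mod_cast hl'
  have hρ' : -ρ = (l1 - 1 / 2 + bt n) / M - 1 / 2 := by
    rw [hρ, bt]
    field_simp
    linarith only [hlR]
  have hρ0 : 0 < ρ := by
    have h1 : 2 * ρ = (l2 - l1 + 1) / M := by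
      have : 2 * ρ = ρ - -ρ := by ring
      rw [this, hρ', hρ]
      ring
    have : 0 < ((l2 : ℝ) - l1 + 1) / M := by
      apply div_pos _ hM0
      linarith only [hllR]
    linarith only [h1, this]
  set c : ℕ → ℝ := fun j => 1 - 1 / ((j : ℝ) + 2) with hc
  have hc0 : ∀ j, 0 < c j := by
    intro j
    have h1 : 1 / ((j : ℝ) + 2) < 1 := by
      rw [div_lt_one (by positivity)]
      have : (0 : ℝ) ≤ j := Nat.cast_nonneg j
      linarith only
    simp only [hc]
    linarith only [h1]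
  have hc1 : ∀ j, c j < 1 := by
    intro j
    have h1 : 0 < 1 / ((j : ℝ) + 2) := by positivity
    simp only [hc]
    linarith only [h1]
  have hclim : Filter.Tendsto c Filter.atTop (nhds 1) := by
    have h1 : Filter.Tendsto (fun j : ℕ => 1 / ((j : ℝ) + 2)) Filter.atTop (nhds 0) := by
      have h2 := (tendsto_one_div_add_atTop_nhds_zero_nat (𝕜 := ℝ)).comp
        (Filter.tendsto_add_atTop_nat 1)
      refine h2.congr fun j => ?_
      simp only [Function.comp]
      push_cast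
      congr 1
      ring
    have h3 := h1.const_sub 1
    rwa [sub_zero] at h3
  set U : Set ℂ := {z | |z.re| < ρ ∧ |z.im| < Y} with hUdef
  have hU : IsOpen U := by
    have h1 : IsOpen {z : ℂ | |z.re| < ρ} := isOpen_lt (Complex.continuous_re.abs) continuous_const
    have h2 : IsOpen {z : ℂ | |z.im| < Y} := isOpen_lt (Complex.continuous_im.abs) continuous_const
    exact h1.inter h2
  have hGU : DifferentiableOn ℂ G U := fun z hz =>
    (hG z hz.1.le hz.2.le).differentiableWithinAt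
  have hdU : DifferentiableOn ℂ (deriv G) U := hGU.deriv hU
  have hmem : ∀ j, ∀ z : ℂ, |z.re| ≤ ρ → |z.im| ≤ Y → (c j : ℂ) * z ∈ U := by
    intro j z h1 h2
    have e1 : ((c j : ℂ) * z).re = c j * z.re := by simp
    have e2 : ((c j : ℂ) * z).im = c j * z.im := by simp
    refine ⟨?_, ?_⟩
    · rw [e1, abs_mul, abs_of_pos (hc0 j)]
      calc c j * |z.re| ≤ c j * ρ := mul_le_mul_of_nonneg_left h1 (hc0 j).le
        _ < 1 * ρ := mul_lt_mul_of_pos_right (hc1 j) hρ0
        _ = ρ := one_mul _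
    · rw [e2, abs_mul, abs_of_pos (hc0 j)]
      calc c j * |z.im| ≤ c j * Y := mul_le_mul_of_nonneg_left h2 (hc0 j).le
        _ < 1 * Y := mul_lt_mul_of_pos_right (hc1 j) hY
        _ = Y := one_mul _
  have hderiv : ∀ j, deriv (fun v : ℂ => G (c j * v)) =
      fun z => (c j : ℂ) * deriv G (c j * z) := by
    intro j
    funext z
    rw [deriv_comp_mul_left, smul_eq_mul]
  have hj : ∀ j, ∑ l ∈ Finset.Icc l1 l2, (c j : ℂ) * deriv G (c j * vl n M l) =
      -(4 * Real.pi * I) * M ^ 2 * Path (fun v => G (c j * v) * om n M v) ρ Y := by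
    intro j
    have h1 := SumL_strong (fun v : ℂ => G (c j * v)) n M l1 l2 Y hM hl hl' hY ρ hρ ?_ ?_ ?_
    · rw [← h1, hderiv]
    · intro z h2 h3
      have h4 := hmem j z h2 h3
      exact DifferentiableAt.comp z (hG _ h4.1.le h4.2.le) (by fun_prop)
    · intro z h2 h3
      rw [hderiv]
      have h4 := (hdU.differentiableAt (hU.mem_nhds (hmem j z h2 h3)))
      exact (DifferentiableAt.comp z h4 (by fun_prop)).const_mul _
    · intro z
      rw [mul_neg, hodd]
  have hcc : Filter.Tendsto (fun j => (c j : ℂ)) Filter.atTop (nhds 1) := by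
    have h5 : Filter.Tendsto (fun j => (c j : ℂ)) Filter.atTop (nhds ((1 : ℝ) : ℂ)) :=
      (Complex.continuous_ofReal.tendsto _).comp hclim
    simpa using h5
  -- limit of the sums
  have hL : Filter.Tendsto (fun j => ∑ l ∈ Finset.Icc l1 l2, (c j : ℂ) *
      deriv G (c j * vl n M l)) Filter.atTop
      (nhds (∑ l ∈ Finset.Icc l1 l2, deriv G (vl n M l))) := by
    refine tendsto_finsetSum _ fun l hl0 => ?_
    rw [Finset.mem_Icc] at hl0
    have h1 : (vl n M l : ℂ) ∈ U := by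
      have hl1 : (l1 : ℝ) ≤ l := by exact_mod_cast hl0.1
      have hl2 : (l : ℝ) ≤ l2 := by exact_mod_cast hl0.2
      refine ⟨?_, ?_⟩
      · rw [Complex.ofReal_re, abs_lt]
        constructor
        · rw [hρ', vl]
          have : ((l1 : ℝ) - 1 / 2 + bt n) / M < (l + bt n) / M := by
            apply div_lt_div_of_pos_right _ hM0
            linarith only [hl1]
          linarith only [this]
        · rw [hρ, vl]
          have : (l + bt n) / M < ((l2 : ℝ) + 1 / 2 + bt n) / M := by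
            apply div_lt_div_of_pos_right _ hM0
            linarith only [hl2]
          linarith only [this]
      · rw [Complex.ofReal_im, abs_zero]
        exact hY
    have h2 := (hdU.differentiableAt (hU.mem_nhds h1)).continuousAt
    have h3 : Filter.Tendsto (fun j => (c j : ℂ) * (vl n M l : ℂ)) Filter.atTop
        (nhds (vl n M l : ℂ)) := by
      have := hcc.mul_const (vl n M l : ℂ)
      simpa using this
    have h4 := hcc.mul (h2.tendsto.comp h3)
    simpa using h4
  -- limit of the path integrals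
  have hne : ∀ z ∈ SumL_leg ρ Y, 1 - ww n M z ≠ 0 := fun z hz =>
    SumL_ww_ne n M l2 hM ρ Y hY hρ hz
  have hom : ∀ z ∈ SumL_leg ρ Y, ContinuousAt (om n M) z := fun z hz =>
    SumL_om_cont n M (hne z hz)
  have hGc : ∀ z : ℂ, |z.re| ≤ ρ → |z.im| ≤ Y → ContinuousAt G z := fun z h1 h2 =>
    (hG z h1 h2).continuousAt
  have hP : Filter.Tendsto (fun j => Path (fun v => G (c j * v) * om n M v) ρ Y) Filter.atTop
      (nhds (Path (fun v => G v * om n M v) ρ Y)) := by
    unfold Path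
    simp only [intervalIntegral.integral_mul_const]
    refine ((Filter.Tendsto.mul_const I ?_).add ?_).sub (Filter.Tendsto.mul_const I ?_)
    · refine SumL_lim G n M hY hGc hom c (fun j => (hc0 j).le) (fun j => (hc1 j).le) hclim
        (fun t : ℝ => (-ρ + t * I : ℂ)) (by fun_prop) 0 Y fun t ht => ?_
      rw [Set.uIcc_of_le hY.le] at ht
      exact SumL_leg_left hρ0.le ht.1 ht.2
    · refine SumL_lim G n M hY hGc hom c (fun j => (hc0 j).le) (fun j => (hc1 j).le) hclim
        (fun t : ℝ => (t + Y * I : ℂ)) (by fun_prop) (-ρ) ρ fun t ht => ?_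
      rw [Set.uIcc_of_le (by linarith only [hρ0])] at ht
      exact SumL_leg_top ht.1 ht.2
    · refine SumL_lim G n M hY hGc hom c (fun j => (hc0 j).le) (fun j => (hc1 j).le) hclim
        (fun t : ℝ => (ρ + t * I : ℂ)) (by fun_prop) 0 Y fun t ht => ?_
      rw [Set.uIcc_of_le hY.le] at ht
      exact SumL_leg_right hρ0.le ht.1 ht.2
  refine tendsto_nhds_unique hL ?_
  simp only [hj]
  exact hP.const_mul _

end Pool.Agent.H63.VC3

end

section

/-! # The dilogarithm -/

namespace Pool.Agent.H63.VC5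

open Complex Filter Topology
open scoped BigOperators

theorem DilogA_slit {z : ℂ} (h : 1 - z ∈ slitPlane) {t : ℝ} (ht0 : 0 ≤ t) (ht1 : t ≤ 1) :
    1 - t * z ∈ slitPlane := by
  have h1 : (1 : ℂ) - t * z = (1 - t : ℝ) • (1 : ℂ) + t • (1 - z) := by
    simp only [real_smul]
    push_cast
    ring
  rw [h1]
  exact starConvex_one_slitPlane h (by linarith) ht0 (by ring)

/-- uniform lower bound -/
theorem DilogA_bound {z : ℂ} (h : 1 - z ∈ slitPlane) : ∃ s ∈ 𝓝 z, ∃ c > 0,
    (∀ w ∈ s, 1 - w ∈ slitPlane) ∧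
      ∀ w ∈ s, ∀ t : ℝ, 0 ≤ t → t ≤ 1 → c ≤ ‖(1 : ℂ) - t * w‖ := by
  have hopen : IsOpen {w : ℂ | 1 - w ∈ slitPlane} :=
    isOpen_slitPlane.preimage (by fun_prop : Continuous fun w : ℂ => 1 - w)
  obtain ⟨ε, hε, hsub⟩ := Metric.nhds_basis_closedBall.mem_iff.1 (hopen.mem_nhds h)
  have hK : IsCompact ((Set.Icc (0 : ℝ) 1) ×ˢ Metric.closedBall z ε) :=
    isCompact_Icc.prod (isCompact_closedBall z ε)
  have hne : ((Set.Icc (0 : ℝ) 1) ×ˢ Metric.closedBall z ε).Nonempty :=
    ⟨(0, z), ⟨by simp, Metric.mem_closedBall_self hε.le⟩⟩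
  have hcont : ContinuousOn (fun p : ℝ × ℂ => ‖(1 : ℂ) - p.1 * p.2‖)
      ((Set.Icc (0 : ℝ) 1) ×ˢ Metric.closedBall z ε) := by
    apply Continuous.continuousOn
    fun_prop
  obtain ⟨p, hp, hmin⟩ := hK.exists_isMinOn hne hcont
  have hmin' := isMinOn_iff.1 hmin
  refine ⟨Metric.closedBall z ε, Metric.closedBall_mem_nhds z hε, ‖(1 : ℂ) - p.1 * p.2‖, ?_,
    fun w hw => hsub hw, fun w hw t ht0 ht1 => hmin' (t, w) ⟨⟨ht0, ht1⟩, hw⟩⟩
  rw [gt_iff_lt, norm_pos_iff]
  exact slitPlane_ne_zero (DilogA_slit (hsub hp.2) hp.1.1 hp.1.2)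

theorem DilogA_log_hasDerivAt {z : ℂ} (h : 1 - z ∈ slitPlane) {t : ℝ} (ht0 : 0 ≤ t)
    (ht1 : t ≤ 1) : HasDerivAt (fun t : ℝ => Complex.log (1 - t * z)) (-z / (1 - t * z)) t := by
  have h1 : HasDerivAt (fun t : ℝ => (1 : ℂ) - t * z) (-z) t := by
    have h2 := ((hasDerivAt_id t).ofReal_comp).mul_const z
    have h3 := h2.const_sub 1
    simpa using h3
  exact h1.clog_real (DilogA_slit h ht0 ht1)

theorem DilogA_log_le {z : ℂ} (h : 1 - z ∈ slitPlane) {c : ℝ} (hc : 0 < c)
    (hb : ∀ t : ℝ, 0 ≤ t → t ≤ 1 → c ≤ ‖(1 : ℂ) - t * z‖) {t : ℝ} (ht0 : 0 ≤ t) (ht1 : t ≤ 1) :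
    ‖Complex.log (1 - t * z)‖ ≤ ‖z‖ / c * t := by
  have h1 := (convex_Icc (0 : ℝ) t).norm_image_sub_le_of_norm_hasDerivWithin_le
    (f := fun t : ℝ => Complex.log (1 - t * z)) (f' := fun t : ℝ => -z / (1 - t * z))
    (C := ‖z‖ / c) (x := 0) (y := t)
    (fun s hs => (DilogA_log_hasDerivAt h hs.1 (hs.2.trans ht1)).hasDerivWithinAt)
    (fun s hs => by
      rw [norm_div, norm_neg]
      exact div_le_div_of_nonneg_left (norm_nonneg _) hc (hb s hs.1 (hs.2.trans ht1)))
    (by simp [ht0]) (by simp [ht0])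
  simpa [abs_of_nonneg ht0] using h1

theorem DilogA_meas (z : ℂ) : Measurable (fun t : ℝ => Complex.log (1 - t * z) / t) := by
  fun_prop

theorem DilogA_intervalIntegrable {z : ℂ} (h : 1 - z ∈ slitPlane) :
    IntervalIntegrable (fun t : ℝ => Complex.log (1 - t * z) / t) MeasureTheory.volume 0 1 := by
  obtain ⟨s, hs, c, hc, hs1, hs2⟩ := DilogA_bound h
  have hz := mem_of_mem_nhds hs
  have h1 : IntervalIntegrable (fun _ : ℝ => ‖z‖ / c) MeasureTheory.volume 0 1 :=
    intervalIntegrable_const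
  refine h1.mono_fun' (DilogA_meas z).aestronglyMeasurable ?_
  rw [Set.uIoc_of_le zero_le_one]
  refine (MeasureTheory.ae_restrict_mem measurableSet_Ioc).mono fun t ht => ?_
  have h2 := DilogA_log_le (hs1 z hz) hc (hs2 z hz) ht.1.le ht.2
  have h3 : ‖(t : ℂ)‖ = t := by rw [norm_real, Real.norm_of_nonneg ht.1.le]
  change ‖Complex.log (1 - t * z) / t‖ ≤ ‖z‖ / c
  rw [norm_div, h3, div_le_iff₀ ht.1]
  exact h2

theorem DilogA_hasDerivAt (z : ℂ) (h : 1 - z ∈ slitPlane) :
    HasDerivAt dilog (∫ t in (0 : ℝ)..1, 1 / (1 - t * z)) z := by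
  obtain ⟨s, hs, c, hc, hs1, hs2⟩ := DilogA_bound h
  have hz := mem_of_mem_nhds hs
  have h1 := intervalIntegral.hasDerivAt_integral_of_dominated_loc_of_deriv_le
    (μ := MeasureTheory.volume) (a := 0) (b := 1) (x₀ := z) (s := s)
    (F := fun (w : ℂ) (t : ℝ) => Complex.log (1 - t * w) / t)
    (F' := fun (w : ℂ) (t : ℝ) => -(1 / (1 - t * w))) (bound := fun _ => 1 / c) hs
    (Eventually.of_forall fun w => (DilogA_meas w).aestronglyMeasurable)
    (DilogA_intervalIntegrable h)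
    (by
      apply Measurable.aestronglyMeasurable
      fun_prop)
    (by
      refine Eventually.of_forall fun t ht w hw => ?_
      rw [Set.uIoc_of_le zero_le_one] at ht
      rw [norm_neg, norm_div, norm_one]
      exact div_le_div_of_nonneg_left zero_le_one hc (hs2 w hw t ht.1.le ht.2))
    intervalIntegrable_const
    (by
      refine Eventually.of_forall fun t ht w hw => ?_
      rw [Set.uIoc_of_le zero_le_one] at ht
      have ht0 : (t : ℂ) ≠ 0 := by exact_mod_cast ht.1.ne'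
      have h2 : HasDerivAt (fun w : ℂ => 1 - t * w) (-(t : ℂ)) w := by
        have h3 := ((hasDerivAt_id w).const_mul (t : ℂ)).const_sub 1
        simpa using h3
      have hsl := DilogA_slit (hs1 w hw) ht.1.le ht.2
      have h3 := (h2.clog hsl).div_const (t : ℂ)
      have h4 := slitPlane_ne_zero hsl
      have h5 : -(t : ℂ) / (1 - t * w) / t = -(1 / (1 - t * w)) := by
        rw [div_div, mul_comm, ← div_div, neg_div, div_self ht0, neg_div]
      rw [h5] at h3
      exact h3)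
  have h2 := h1.2.neg
  have h3 : -∫ t in (0 : ℝ)..1, -(1 / (1 - t * z)) = ∫ t in (0 : ℝ)..1, 1 / (1 - t * z) := by
    rw [intervalIntegral.integral_neg, neg_neg]
  rw [h3] at h2
  exact h2

theorem dilog_hasDerivAt (z : ℂ) (hz : z ≠ 0) (h : 1 - z ∈ slitPlane) :
    HasDerivAt dilog (-(Complex.log (1 - z) / z)) z := by
  have h1 := DilogA_hasDerivAt z h
  have h2 : ∫ t in (0 : ℝ)..1, -z / (1 - t * z) = Complex.log (1 - z) := by
    have h3 := intervalIntegral.integral_eq_sub_of_hasDerivAt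
      (f := fun t : ℝ => Complex.log (1 - t * z)) (f' := fun t : ℝ => -z / (1 - t * z))
      (a := 0) (b := 1)
      (fun t ht => by
        rw [Set.uIcc_of_le zero_le_one] at ht
        exact DilogA_log_hasDerivAt h ht.1 ht.2)
      (by
        apply ContinuousOn.intervalIntegrable
        intro t ht
        rw [Set.uIcc_of_le zero_le_one] at ht
        apply ContinuousAt.continuousWithinAt
        have hne := slitPlane_ne_zero (DilogA_slit h ht.1 ht.2)
        have hc : ContinuousAt (fun t : ℝ => (1 : ℂ) - t * z) t := by fun_prop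
        exact continuousAt_const.div hc hne)
    rw [h3]
    simp
  have h3 : ∫ t in (0 : ℝ)..1, 1 / (1 - t * z) = -(Complex.log (1 - z) / z) := by
    rw [← h2]
    have h4 : ∀ t : ℝ, -z / (1 - t * z) = -z * (1 / (1 - t * z)) := by
      intro t
      ring
    simp_rw [h4]
    rw [intervalIntegral.integral_const_mul, neg_mul, neg_div, neg_neg, mul_div_assoc,
      mul_div_left_comm, div_self hz, mul_one]
  rw [← h3]
  exact h1

theorem dilog_zero : dilog 0 = 0 := by
  unfold dilog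
  simp

theorem dilog_continuous_zero : ContinuousAt dilog 0 :=
  (DilogA_hasDerivAt 0 (by simp)).continuousAt

theorem DilogA_hasSum {x : ℝ} (hx0 : 0 ≤ x) (hx1 : x ≤ 1) :
    HasSum (fun n : ℕ => ((x ^ (n + 1) / ((n : ℝ) + 1) ^ 2 : ℝ) : ℂ)) (dilog x) := by
  set μ := MeasureTheory.volume.restrict (Set.Ioc (0 : ℝ) 1) with hμ
  set F : ℕ → ℝ → ℂ := fun n t => ((t ^ n * (x ^ (n + 1) / ((n : ℝ) + 1)) : ℝ) : ℂ) with hF
  have hFi : ∀ n, MeasureTheory.Integrable (F n) μ := by
    intro n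
    have hc : Continuous (F n) := by
      rw [hF]
      fun_prop
    exact hc.integrableOn_Ioc
  have hint : ∀ n, ∫ t, F n t ∂μ = ((x ^ (n + 1) / ((n : ℝ) + 1) ^ 2 : ℝ) : ℂ) := by
    intro n
    rw [hμ, ← intervalIntegral.integral_of_le zero_le_one]
    have h1 : ∫ t in (0 : ℝ)..1, F n t =
        ((∫ t in (0 : ℝ)..1, t ^ n * (x ^ (n + 1) / ((n : ℝ) + 1)) : ℝ) : ℂ) :=
      intervalIntegral.integral_ofReal
    rw [h1, intervalIntegral.integral_mul_const, integral_pow]
    congr 1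
    have : ((n : ℝ) + 1) ≠ 0 := by positivity
    field_simp
    simp
  have hnorm : ∀ n, ∫ t, ‖F n t‖ ∂μ = x ^ (n + 1) / ((n : ℝ) + 1) ^ 2 := by
    intro n
    have h1 : ∫ t, ‖F n t‖ ∂μ = ∫ t, t ^ n * (x ^ (n + 1) / ((n : ℝ) + 1)) ∂μ := by
      refine MeasureTheory.integral_congr_ae ?_
      refine (MeasureTheory.ae_restrict_mem measurableSet_Ioc).mono fun t ht => ?_
      change ‖F n t‖ = _
      rw [hF]
      simp only
      rw [norm_real, Real.norm_of_nonneg]
      have := ht.1.le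
      positivity
    rw [h1, hμ, ← intervalIntegral.integral_of_le zero_le_one,
      intervalIntegral.integral_mul_const, integral_pow]
    have : ((n : ℝ) + 1) ≠ 0 := by positivity
    field_simp
    simp
  have hsum : Summable fun n => ∫ t, ‖F n t‖ ∂μ := by
    simp_rw [hnorm]
    have h1 : Summable fun n : ℕ => 1 / ((n : ℝ) + 1) ^ 2 := by
      have h2 := (summable_nat_add_iff 1).2 (Real.summable_one_div_nat_pow.2 one_lt_two)
      simpa using h2
    refine Summable.of_nonneg_of_le (fun n => by positivity) (fun n => ?_) h1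
    have h3 : x ^ (n + 1) ≤ 1 := pow_le_one₀ hx0 hx1
    gcongr
  have h1 := MeasureTheory.hasSum_integral_of_summable_integral_norm hFi hsum
  simp_rw [hint] at h1
  have h2 : ∫ t, ∑' n, F n t ∂μ = dilog x := by
    unfold dilog
    rw [intervalIntegral.integral_of_le zero_le_one, ← MeasureTheory.integral_neg]
    refine MeasureTheory.integral_congr_ae ?_
    have hae : ∀ᵐ t ∂μ, t ≠ 1 := by
      refine MeasureTheory.ae_restrict_of_ae ?_
      exact MeasureTheory.Measure.ae_ne MeasureTheory.volume 1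
    filter_upwards [MeasureTheory.ae_restrict_mem measurableSet_Ioc, hae] with t ht ht1
    have htlt : t < 1 := lt_of_le_of_ne ht.2 ht1
    have htx : t * x < 1 := by nlinarith [ht.1]
    have htx0 : 0 ≤ t * x := mul_nonneg ht.1.le hx0
    have h3 := Real.hasSum_pow_div_log_of_abs_lt_one (x := t * x) (by
      rw [abs_of_nonneg htx0]
      exact htx)
    have h4 : HasSum (fun n : ℕ => t ^ n * (x ^ (n + 1) / ((n : ℝ) + 1)))
        (-Real.log (1 - t * x) / t) := by
      have h5 := h3.div_const t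
      refine h5.congr_fun ?_
      intro n
      rw [mul_pow, pow_succ t n]
      have := ht.1.ne'
      have : ((n : ℝ) + 1) ≠ 0 := by positivity
      field_simp
    have h6 : HasSum (fun n : ℕ => F n t) ((-Real.log (1 - t * x) / t : ℝ) : ℂ) := by
      have h7 := (Complex.hasSum_ofReal).2 h4
      exact h7
    rw [h6.tsum_eq]
    push_cast
    rw [Complex.ofReal_log (by linarith)]
    push_cast
    ring
  rw [h2] at h1
  exact h1

theorem dilog_one : dilog 1 = (Real.pi : ℂ) ^ 2 / 6 := by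
  have h1 := DilogA_hasSum (x := 1) zero_le_one le_rfl
  have h2 : HasSum (fun n : ℕ => 1 / ((n : ℝ) + 1) ^ 2) (Real.pi ^ 2 / 6) := by
    have h3 := hasSum_zeta_two
    have h4 := (hasSum_nat_add_iff' (f := fun n : ℕ => 1 / (n : ℝ) ^ 2) 1).2 h3
    simpa using h4
  have h3 : HasSum (fun n : ℕ => (((1 : ℝ) ^ (n + 1) / ((n : ℝ) + 1) ^ 2 : ℝ) : ℂ))
      ((Real.pi ^ 2 / 6 : ℝ) : ℂ) := by
    refine (Complex.hasSum_ofReal).2 ?_
    simpa using h2
  have h4 := h1.unique h3
  rw [ofReal_one] at h4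
  rw [h4]
  push_cast
  ring

theorem dilog_one_lim :
    Tendsto (fun x : ℝ => dilog (x : ℂ)) (𝓝[<] 1) (𝓝 ((Real.pi : ℂ) ^ 2 / 6)) := by
  have h1 : Summable fun n : ℕ => 1 / ((n : ℝ) + 1) ^ 2 := by
    have h2 := (summable_nat_add_iff 1).2 (Real.summable_one_div_nat_pow.2 one_lt_two)
    simpa using h2
  have h2 : Tendsto (fun x : ℝ => ∑' n : ℕ, ((x ^ (n + 1) / ((n : ℝ) + 1) ^ 2 : ℝ) : ℂ)) (𝓝[<] 1)
      (𝓝 (∑' n : ℕ, (((1 : ℝ) ^ (n + 1) / ((n : ℝ) + 1) ^ 2 : ℝ) : ℂ))) := by
    refine tendsto_tsum_of_dominated_convergence h1 ?_ ?_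
    · intro n
      refine Tendsto.mono_left ?_ nhdsWithin_le_nhds
      have hc : Continuous fun x : ℝ => ((x ^ (n + 1) / ((n : ℝ) + 1) ^ 2 : ℝ) : ℂ) := by
        fun_prop
      exact hc.tendsto 1
    · have h3 : ∀ᶠ x : ℝ in 𝓝[<] 1, 0 ≤ x ∧ x ≤ 1 := by
        have h4 : ∀ᶠ x : ℝ in 𝓝[<] 1, x ∈ Set.Ioo (0 : ℝ) 1 := Ioo_mem_nhdsLT one_pos
        exact h4.mono fun x hx => ⟨hx.1.le, hx.2.le⟩
      filter_upwards [h3] with x hx n
      rw [norm_real, Real.norm_of_nonneg (by have := hx.1; positivity)]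
      have h5 : x ^ (n + 1) ≤ 1 := pow_le_one₀ hx.1 hx.2
      gcongr
  have h3 : (∑' n : ℕ, (((1 : ℝ) ^ (n + 1) / ((n : ℝ) + 1) ^ 2 : ℝ) : ℂ)) =
      (Real.pi : ℂ) ^ 2 / 6 := by
    rw [(DilogA_hasSum (x := 1) zero_le_one le_rfl).tsum_eq, ofReal_one, dilog_one]
  rw [h3] at h2
  refine h2.congr' ?_
  have h3 : ∀ᶠ x : ℝ in 𝓝[<] 1, x ∈ Set.Ioo (0 : ℝ) 1 := Ioo_mem_nhdsLT one_pos
  filter_upwards [h3] with x hx
  exact (DilogA_hasSum hx.1.le hx.2.le).tsum_eq

end Pool.Agent.H63.VC5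

end

section

/-! # Functional equations of the dilogarithm -/

namespace Pool.Agent.H63.VC5

open Complex Filter Topology
open scoped BigOperators

theorem DilogB_const {s : Set ℂ} (ho : IsOpen s) {a : ℂ} (ha : a ∈ s) (hs : StarConvex ℝ a s)
    {f : ℂ → ℂ} (hf : ∀ z ∈ s, HasDerivAt f 0 z) {x y : ℂ} (hx : x ∈ s) (hy : y ∈ s) :
    f x = f y := by
  refine ho.is_const_of_deriv_eq_zero (hs.isPathConnected ha).isConnected.isPreconnected
    (fun z hz => (hf z hz).differentiableAt.differentiableWithinAt)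
    (fun z hz => (hf z hz).deriv) hx hy

theorem DilogB_d1 (z : ℂ) (h0 : z ∈ slitPlane) (h1 : 1 - z ∈ slitPlane) :
    HasDerivAt (fun z => dilog z + dilog (1 - z) + Complex.log z * Complex.log (1 - z)) 0 z := by
  have hz : z ≠ 0 := slitPlane_ne_zero h0
  have hz1 : 1 - z ≠ 0 := slitPlane_ne_zero h1
  have hs : HasDerivAt (fun z : ℂ => 1 - z) (-1) z := by
    simpa using (hasDerivAt_id z).const_sub 1
  have e1 := dilog_hasDerivAt z hz h1
  have e2 := (dilog_hasDerivAt (1 - z) hz1 (by simpa using h0)).comp z hs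
  have e3 := hasDerivAt_log h0
  have e4 := (hasDerivAt_log h1).comp z hs
  have e5 := (e1.add e2).add (e3.mul e4)
  refine e5.congr_deriv ?_
  simp only [Function.comp, sub_sub_cancel]
  field_simp
  ring

theorem DilogB_star1 : StarConvex ℝ (1 / 2 : ℂ) {z : ℂ | z ∈ slitPlane ∧ 1 - z ∈ slitPlane} := by
  rw [starConvex_iff_forall_pos (by constructor <;> (rw [mem_slitPlane_iff]; left; norm_num))]
  rintro z ⟨h0, h1⟩ a b ha hb hab
  rw [mem_slitPlane_iff] at h0 h1
  simp only [sub_re, one_re, sub_im, one_im, zero_sub, neg_ne_zero] at h1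
  by_cases hi : z.im = 0
  · have h0' : 0 < z.re := h0.resolve_right (by simp [hi])
    have h1' : 0 < 1 - z.re := h1.resolve_right (by simp [hi])
    refine ⟨mem_slitPlane_iff.2 (Or.inl ?_), mem_slitPlane_iff.2 (Or.inl ?_)⟩
    · simp
      positivity
    · have : a = 1 - b := by linarith only [hab]
      simp
      rw [this]
      nlinarith only [hab, ha, hb, h1']
  · refine ⟨mem_slitPlane_iff.2 (Or.inr ?_), mem_slitPlane_iff.2 (Or.inr ?_)⟩
    · simp [hi, hb.ne']
    · simp [hi, hb.ne']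

theorem DilogB_lim : Tendsto (fun x : ℝ => Real.log x * Real.log (1 - x)) (𝓝[<] 1) (𝓝 0) := by
  have h1 : Tendsto (fun x : ℝ => 2 * |(1 - x) * Real.log (1 - x)|) (𝓝[<] 1) (𝓝 0) := by
    have h2 : Continuous fun x : ℝ => 2 * |(1 - x) * Real.log (1 - x)| :=
      continuous_const.mul ((Real.continuous_mul_log.comp (continuous_const.sub continuous_id)).abs)
    have h3 := h2.tendsto 1
    simp only [sub_self, Real.log_zero, mul_zero, abs_zero] at h3
    exact h3.mono_left nhdsWithin_le_nhds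
  refine squeeze_zero_norm' ?_ h1
  have h4 : Set.Ioo (1 / 2 : ℝ) 1 ∈ 𝓝[<] (1 : ℝ) := Ioo_mem_nhdsLT (by norm_num)
  filter_upwards [h4] with x hx
  rw [norm_mul, Real.norm_eq_abs, Real.norm_eq_abs, abs_mul]
  have h5 : |Real.log x| ≤ 2 * |1 - x| := by
    have h6 : 0 < x := by linarith only [hx, hx.1]
    have h7 := Real.one_sub_inv_le_log_of_pos h6
    have h8 : Real.log x ≤ 0 := Real.log_nonpos h6.le hx.2.le
    rw [abs_of_nonpos h8, abs_of_pos (by linarith only [hx, hx.2])]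
    have h9 : x⁻¹ - 1 ≤ 2 * (1 - x) := by
      have : x⁻¹ - 1 = (1 - x) / x := by field_simp
      rw [this, div_le_iff₀ h6]
      nlinarith only [hx, hx.1, hx.2]
    linarith only [h7, h9]
  calc |Real.log x| * |Real.log (1 - x)| ≤ (2 * |1 - x|) * |Real.log (1 - x)| := by gcongr
    _ = _ := by ring

theorem DilogB_tend0 {l : Filter ℝ} {f : ℝ → ℂ} (h : Tendsto f l (𝓝 0)) :
    Tendsto (fun x => dilog (f x)) l (𝓝 0) := by
  have h1 := dilog_continuous_zero.tendsto
  rw [dilog_zero] at h1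
  exact h1.comp h

theorem dilog_compl (z : ℂ) (h0 : z ∈ slitPlane) (h1 : 1 - z ∈ slitPlane) :
    dilog z + dilog (1 - z) =
      (Real.pi : ℂ) ^ 2 / 6 - Complex.log z * Complex.log (1 - z) := by
  have ho : IsOpen {z : ℂ | z ∈ slitPlane ∧ 1 - z ∈ slitPlane} :=
    isOpen_slitPlane.inter (isOpen_slitPlane.preimage (continuous_const.sub continuous_id))
  have hc : ∀ x ∈ Set.Ioo (1 / 2 : ℝ) 1,
      dilog (x : ℂ) + dilog (1 - x) + (Real.log x * Real.log (1 - x) : ℝ) =
        dilog z + dilog (1 - z) + Complex.log z * Complex.log (1 - z) := by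
    intro x hx
    have h2 := DilogB_const ho (a := 1 / 2) (by constructor <;> (rw [mem_slitPlane_iff]; left; norm_num)) DilogB_star1 (fun z hz => DilogB_d1 z hz.1 hz.2)
      (x := (x : ℂ)) (y := z) ⟨?_, ?_⟩ ⟨h0, h1⟩
    · rw [← h2]
      have e1 : Complex.log x = (Real.log x : ℂ) := (ofReal_log (by linarith only [hx, hx.1])).symm
      have e2 : Complex.log (1 - x) = (Real.log (1 - x) : ℂ) := by
        rw [ofReal_log (by linarith [hx.2])]; push_cast; rfl
      simp only [e1, e2]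
      push_cast; ring
    · rw [mem_slitPlane_iff]; left; rw [ofReal_re]; linarith only [hx, hx.1]
    · rw [mem_slitPlane_iff]; left; simp; exact hx.2
  have t1 := dilog_one_lim
  have t2 : Tendsto (fun x : ℝ => dilog (1 - (x : ℂ))) (𝓝[<] 1) (𝓝 0) := by
    apply DilogB_tend0
    have : Continuous fun x : ℝ => (1 : ℂ) - x := continuous_const.sub continuous_ofReal
    have h3 := this.tendsto 1
    simp only [ofReal_one, sub_self] at h3
    exact h3.mono_left nhdsWithin_le_nhds
  have t3 : Tendsto (fun x : ℝ => ((Real.log x * Real.log (1 - x) : ℝ) : ℂ)) (𝓝[<] 1) (𝓝 0) := by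
    have := (continuous_ofReal.tendsto 0).comp DilogB_lim
    rw [ofReal_zero] at this
    exact this
  have t4 := (t1.add t2).add t3
  have h4 : Set.Ioo (1 / 2 : ℝ) 1 ∈ 𝓝[<] (1 : ℝ) := Ioo_mem_nhdsLT (by norm_num)
  have t5 : Tendsto (fun x : ℝ => dilog (x : ℂ) + dilog (1 - x) + (Real.log x * Real.log (1 - x) : ℝ))
      (𝓝[<] 1) (𝓝 (dilog z + dilog (1 - z) + Complex.log z * Complex.log (1 - z))) := by
    refine tendsto_const_nhds.congr' ?_
    filter_upwards [h4] with x hx
    exact (hc x hx).symm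
  have h5 := tendsto_nhds_unique t4 t5
  rw [add_zero, add_zero] at h5
  rw [h5]; ring

theorem DilogB_d2 (x : ℝ) (hx : x ∈ Set.Ioo (0 : ℝ) 1) :
    HasDerivAt (fun x : ℝ => dilog (x : ℂ) + dilog (-(x : ℂ)) - dilog ((x : ℂ) ^ 2) / 2) 0 x := by
  obtain ⟨hx0, hx1⟩ := hx
  have hxc : (x : ℂ) ≠ 0 := by exact_mod_cast hx0.ne'
  have hs : HasDerivAt (fun x : ℝ => (x : ℂ)) 1 x := HasDerivAt.ofReal_comp (hasDerivAt_id x)
  have m1 : 1 - (x : ℂ) ∈ slitPlane := by rw [mem_slitPlane_iff]; left; simp; exact hx1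
  have m2 : 1 - (-(x : ℂ)) ∈ slitPlane := by rw [mem_slitPlane_iff]; left; simp; linarith only [hx0, hx1]
  have hx2 : x ^ 2 < 1 := by nlinarith only [hx1, hx0]
  have m3 : 1 - (x : ℂ) ^ 2 ∈ slitPlane := by
    rw [mem_slitPlane_iff]; left
    have : (1 - (x : ℂ) ^ 2).re = 1 - x ^ 2 := by
      rw [show (1 - (x : ℂ) ^ 2) = ((1 - x ^ 2 : ℝ) : ℂ) by push_cast; ring, ofReal_re]
    rw [this]; linarith
  have e1 := (dilog_hasDerivAt x hxc m1).comp x hs
  have e2 := (dilog_hasDerivAt (-(x : ℂ)) (neg_ne_zero.2 hxc) m2).comp x hs.neg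
  have e3 := (dilog_hasDerivAt ((x : ℂ) ^ 2) (pow_ne_zero 2 hxc) m3).comp x (hs.pow 2)
  have e4 := (e1.add e2).sub (e3.div_const 2)
  have hlog : Complex.log (1 - (x : ℂ) ^ 2) = Complex.log (1 - x) + Complex.log (1 - -(x : ℂ)) := by
    have e5 : Complex.log (1 - (x : ℂ) ^ 2) = (Real.log (1 - x ^ 2) : ℂ) := by
      rw [ofReal_log (by linarith)]; push_cast; rfl
    have e6 : Complex.log (1 - (x : ℂ)) = (Real.log (1 - x) : ℂ) := by
      rw [ofReal_log (by linarith)]; push_cast; rfl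
    have e7 : Complex.log (1 - -(x : ℂ)) = (Real.log (1 + x) : ℂ) := by
      rw [ofReal_log (by linarith)]; push_cast; ring_nf
    rw [e5, e6, e7, ← ofReal_add, ← Real.log_mul (by linarith) (by linarith)]
    congr 2; ring
  refine e4.congr_deriv ?_
  rw [hlog]
  field_simp
  ring

theorem dilog_neg_one : dilog (-1) = -((Real.pi : ℂ) ^ 2 / 12) := by
  have hconst : ∀ x ∈ Set.Ioo (0 : ℝ) 1, ∀ y ∈ Set.Ioo (0 : ℝ) 1,
      dilog (x : ℂ) + dilog (-(x : ℂ)) - dilog ((x : ℂ) ^ 2) / 2 =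
      dilog (y : ℂ) + dilog (-(y : ℂ)) - dilog ((y : ℂ) ^ 2) / 2 := by
    intro x hx y hy
    exact isOpen_Ioo.is_const_of_deriv_eq_zero isPreconnected_Ioo
      (fun z hz => (DilogB_d2 z hz).differentiableAt.differentiableWithinAt)
      (fun z hz => (DilogB_d2 z hz).deriv) hx hy
  -- the constant is zero
  have t0 : Tendsto (fun x : ℝ => dilog (x : ℂ) + dilog (-(x : ℂ)) - dilog ((x : ℂ) ^ 2) / 2)
      (𝓝[>] 0) (𝓝 0) := by
    have c1 : Tendsto (fun x : ℝ => (x : ℂ)) (𝓝[>] 0) (𝓝 0) := by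
      have := continuous_ofReal.tendsto (0 : ℝ)
      rw [ofReal_zero] at this
      exact this.mono_left nhdsWithin_le_nhds
    have c2 : Tendsto (fun x : ℝ => -(x : ℂ)) (𝓝[>] 0) (𝓝 0) := by simpa using c1.neg
    have c3 : Tendsto (fun x : ℝ => (x : ℂ) ^ 2) (𝓝[>] 0) (𝓝 0) := by simpa using c1.pow 2
    have := ((DilogB_tend0 c1).add (DilogB_tend0 c2)).sub ((DilogB_tend0 c3).div_const 2)
    simpa using this
  have hz : ∀ x ∈ Set.Ioo (0 : ℝ) 1, dilog (x : ℂ) + dilog (-(x : ℂ)) - dilog ((x : ℂ) ^ 2) / 2 = 0 := by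
    intro x hx
    refine tendsto_nhds_unique (tendsto_const_nhds (f := 𝓝[>] (0 : ℝ))) (t0.congr' ?_)
    have h4 : Set.Ioo (0 : ℝ) 1 ∈ 𝓝[>] (0 : ℝ) := Ioo_mem_nhdsGT (by norm_num)
    filter_upwards [h4] with y hy
    exact hconst y hy x hx
  have t1 := dilog_one_lim
  have t2 : Tendsto (fun x : ℝ => dilog (-(x : ℂ))) (𝓝[<] 1) (𝓝 (dilog (-1))) := by
    have hcont : ContinuousAt dilog (-1) :=
      (dilog_hasDerivAt (-1) (by norm_num) (by rw [mem_slitPlane_iff]; left; norm_num)).continuousAt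
    have c1 : Tendsto (fun x : ℝ => -(x : ℂ)) (𝓝[<] 1) (𝓝 (-1)) := by
      have := (continuous_ofReal.tendsto (1 : ℝ)).neg
      rw [ofReal_one] at this
      exact this.mono_left nhdsWithin_le_nhds
    exact hcont.tendsto.comp c1
  have t3 : Tendsto (fun x : ℝ => dilog ((x : ℂ) ^ 2)) (𝓝[<] 1) (𝓝 ((Real.pi : ℂ) ^ 2 / 6)) := by
    have c1 : Tendsto (fun x : ℝ => x ^ 2) (𝓝[<] 1) (𝓝[<] 1) := by
      refine tendsto_nhdsWithin_iff.2 ⟨?_, ?_⟩
      · have := (continuous_pow 2 (M := ℝ)).tendsto 1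
        rw [one_pow] at this
        exact this.mono_left nhdsWithin_le_nhds
      · have h4 : Set.Ioo (0 : ℝ) 1 ∈ 𝓝[<] (1 : ℝ) := Ioo_mem_nhdsLT (by norm_num)
        filter_upwards [h4] with x hx
        show x ^ 2 < 1
        nlinarith only [hx, hx.1, hx.2]
    have := t1.comp c1
    refine this.congr fun x => ?_
    simp
  have t4 := (t1.add t2).sub (t3.div_const 2)
  have t5 : Tendsto (fun x : ℝ => dilog (x : ℂ) + dilog (-(x : ℂ)) - dilog ((x : ℂ) ^ 2) / 2)
      (𝓝[<] 1) (𝓝 0) := by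
    refine tendsto_const_nhds.congr' ?_
    have h4 : Set.Ioo (0 : ℝ) 1 ∈ 𝓝[<] (1 : ℝ) := Ioo_mem_nhdsLT (by norm_num)
    filter_upwards [h4] with x hx
    exact (hz x hx).symm
  have h5 := tendsto_nhds_unique t4 t5
  linear_combination h5

theorem DilogB_mem {z : ℂ} (h : -z ∈ slitPlane) : 1 - z ∈ slitPlane ∧ z ≠ 0 ∧ -z⁻¹ ∈ slitPlane ∧
    1 - z⁻¹ ∈ slitPlane := by
  have hz : z ≠ 0 := fun h0 => slitPlane_ne_zero h (by rw [h0, neg_zero])
  have aux : ∀ w : ℂ, -w ∈ slitPlane → 1 - w ∈ slitPlane := by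
    intro w hw
    rw [mem_slitPlane_iff] at hw ⊢
    simp only [neg_re, neg_im, neg_ne_zero, sub_re, one_re, sub_im, one_im, zero_sub] at hw ⊢
    rcases hw with hw | hw
    · left; linarith only [hw]
    · right; exact hw
  have hi : -z⁻¹ ∈ slitPlane := by
    rw [← inv_neg]
    have hn : 0 < normSq (-z) := normSq_pos.2 (slitPlane_ne_zero h)
    rw [mem_slitPlane_iff] at h ⊢
    rw [inv_re, inv_im]
    rcases h with h | h
    · left; positivity
    · right; exact div_ne_zero (neg_ne_zero.2 h) hn.ne'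
  exact ⟨aux z h, hz, hi, aux _ hi⟩

theorem DilogB_log {z : ℂ} (h : -z ∈ slitPlane) :
    Complex.log (1 - z⁻¹) = Complex.log (1 - z) - Complex.log (-z) := by
  obtain ⟨m1, hz, m3, m4⟩ := DilogB_mem h
  have hexp : exp (Complex.log (1 - z) - Complex.log (-z)) = 1 - z⁻¹ := by
    rw [exp_sub, exp_log (slitPlane_ne_zero m1), exp_log (slitPlane_ne_zero h)]
    field_simp
    ring
  rw [← hexp, Complex.log_exp]
  · rw [sub_im, log_im, log_im]
    rcases lt_trichotomy z.im 0 with hi | hi | hi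
    · have a1 : 0 ≤ arg (1 - z) := arg_nonneg_iff.2 (by simp; exact hi.le)
      have a2 : arg (-z) < Real.pi := by
        rcases (arg_le_pi (-z)).lt_or_eq with h3 | h3
        · exact h3
        · exact absurd h3 (mem_slitPlane_iff_arg.1 h).1
      linarith
    · have a1 : 0 ≤ arg (1 - z) := arg_nonneg_iff.2 (by simp [hi])
      have a2 : arg (-z) < Real.pi := by
        rcases (arg_le_pi (-z)).lt_or_eq with h3 | h3
        · exact h3
        · exact absurd h3 (mem_slitPlane_iff_arg.1 h).1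
      linarith only [a1, a2]
    · have a1 : -Real.pi < arg (1 - z) := neg_pi_lt_arg _
      have a2 : arg (-z) < 0 := arg_neg_iff.2 (by simp; exact hi)
      linarith
  · rw [sub_im, log_im, log_im]
    rcases lt_or_ge z.im 0 with hi | hi
    · have a1 : arg (1 - z) ≤ Real.pi := arg_le_pi _
      have a2 : 0 ≤ arg (-z) := arg_nonneg_iff.2 (by simp; exact hi.le)
      linarith
    · rcases hi.lt_or_eq with hi | hi
      · have a1 : arg (1 - z) < 0 := arg_neg_iff.2 (by simp; exact hi)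
        have a2 : -Real.pi < arg (-z) := neg_pi_lt_arg _
        linarith only [a1, a2]
      · have a1 : arg (1 - z) ≤ Real.pi := arg_le_pi _
        have a2 : 0 ≤ arg (-z) := arg_nonneg_iff.2 (by simp [← hi])
        linarith

theorem dilog_inv (z : ℂ) (h : -z ∈ slitPlane) : dilog z + dilog z⁻¹ =
    -((Real.pi : ℂ) ^ 2 / 6) - Complex.log (-z) ^ 2 / 2 := by
  have ho : IsOpen {z : ℂ | -z ∈ slitPlane} := isOpen_slitPlane.preimage continuous_neg
  have hs : StarConvex ℝ (-1 : ℂ) {z : ℂ | -z ∈ slitPlane} := by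
    rintro w hw a b ha hb hab
    have := starConvex_one_slitPlane hw ha hb hab
    show -(a • (-1 : ℂ) + b • w) ∈ slitPlane
    convert this using 1
    simp
    ring
  have hd : ∀ z ∈ {z : ℂ | -z ∈ slitPlane},
      HasDerivAt (fun z => dilog z + dilog z⁻¹ + Complex.log (-z) ^ 2 / 2) 0 z := by
    intro z hz
    obtain ⟨m1, hz0, m3, m4⟩ := DilogB_mem hz
    have e1 := dilog_hasDerivAt z hz0 m1
    have e2 := (dilog_hasDerivAt z⁻¹ (inv_ne_zero hz0) m4).comp z (hasDerivAt_inv hz0)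
    have e3 := (hasDerivAt_log hz).comp z (hasDerivAt_neg z)
    have e4 := (e1.add e2).add ((e3.pow 2).div_const 2)
    refine e4.congr_deriv ?_
    simp only [Function.comp]
    rw [DilogB_log hz]
    have hz' : -z ≠ 0 := slitPlane_ne_zero hz
    field_simp
    ring
  have h1 := DilogB_const ho (a := -1) (by show -(-1 : ℂ) ∈ slitPlane; simp) hs hd (x := z) (y := -1) h (by show -(-1 : ℂ) ∈ slitPlane; simp)
  have h2 : (-1 : ℂ)⁻¹ = -1 := by norm_num
  simp only [h2, neg_neg, Complex.log_one, dilog_neg_one] at h1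
  linear_combination h1

end Pool.Agent.H63.VC5

end

section

/-! # Algebraic relations at the critical point -/

namespace Pool.Agent.H63.VC3

open Complex

theorem Rel_cos_ne {z : ℂ} (hz : z.im ≠ 0) : cos z ≠ 0 := by
  intro h
  rw [Complex.cos_eq_zero_iff] at h
  obtain ⟨k, hk⟩ := h
  apply hz
  have : z = (((2 * k + 1) * Real.pi / 2 : ℝ) : ℂ) := by rw [hk]; push_cast; ring
  rw [this, Complex.ofReal_im]

theorem Rel_one_add_cos (v : ℂ) : 1 + cos (2 * Real.pi * v) = 2 * cos (Real.pi * v) ^ 2 := by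
  rw [mul_assoc, Complex.cos_two_mul]
  ring

theorem Rel_prod (y v : ℂ) : 2 * sin (Real.pi * (y - v)) * (2 * sin (Real.pi * (y + v))) =
    2 * (cos (2 * Real.pi * v) - cos (2 * Real.pi * y)) := by
  rw [mul_assoc 2 (Real.pi : ℂ) v, mul_assoc 2 (Real.pi : ℂ) y, Complex.cos_two_mul,
    Complex.cos_two_mul, mul_sub, mul_add, Complex.sin_sub, Complex.sin_add]
  have h1 := Complex.sin_sq_add_cos_sq (Real.pi * v)
  have h2 := Complex.sin_sq_add_cos_sq (Real.pi * y)
  generalize sin (Real.pi * v) = sv at *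
  generalize cos (Real.pi * v) = cv at *
  generalize sin (Real.pi * y) = sy at *
  generalize cos (Real.pi * y) = cy at *
  linear_combination (4 * cv ^ 2 ) * h2 - (4 * cy ^ 2) * h1

theorem Rel_cos_half (y : ℂ) : 2 * sin (Real.pi * (y + 1 / 2)) = 2 * cos (Real.pi * y) := by
  have : Real.pi * (y + 1 / 2) = Real.pi * y + Real.pi / 2 := by ring
  rw [this, Complex.sin_add_pi_div_two]

end Pool.Agent.H63.VC3

end
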