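import Pool.Agent.H94.PA.H63.VC3.LLfun
import Pool.Agent.H94.PA.M05
import Pool.Agent.H94.PA.M08
import Pool.Agent.H94.PA.M17

/-! The parts of this file: H63.VC4.FLmainN, H63.VC4.RTerms, H63.VC7.QcLL, H63.VC7.TetRC, H63.VC5.FFdilog, H63.VC7.RhoPair. -/

section

/-! # The sums over the vertices -/

namespace Pool.Agent.H63.VC4

open Pool.Agent.H63.VC Pool.Agent.H63.VC3 Complex
open scoped BigOperators

/-! ### Integrals over boxes -/

open MeasureTheory in
/-- Fubini for the box. -/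
lemma FLmainN_fubini {m p : ℕ} (y1 y2 ρ : ℝ) (G : (Fin m → ℝ) × (Fin p → ℝ) → ℂ)
    (hG : IntegrableOn G ((Set.pi Set.univ (fun _ : Fin m => Set.Ioc y1 y2)) ×ˢ
      (Set.pi Set.univ (fun _ : Fin p => Set.Ioc (-ρ) ρ)))) :
    ∫ z in (Set.pi Set.univ (Sum.elim (fun _ => Set.Ioc y1 y2) (fun _ => Set.Ioc (-ρ) ρ)) :
      Set (Fin m ⊕ Fin p → ℝ)), G (fun j => z (Sum.inl j), fun i => z (Sum.inr i)) =
    ∫ a in Set.pi Set.univ (fun _ : Fin p => Set.Ioc (-ρ) ρ),
      ∫ x in Set.pi Set.univ (fun _ : Fin m => Set.Ioc y1 y2), G (x, a) := by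
  have h1 := volume_measurePreserving_sumPiEquivProdPi (fun _ : Fin m ⊕ Fin p => ℝ)
  have h2 := h1.setIntegral_preimage_emb (MeasurableEquiv.measurableEmbedding _) G
    ((Set.pi Set.univ (fun _ : Fin m => Set.Ioc y1 y2)) ×ˢ
      (Set.pi Set.univ (fun _ : Fin p => Set.Ioc (-ρ) ρ)))
  have h3 : (MeasurableEquiv.sumPiEquivProdPi (fun _ : Fin m ⊕ Fin p => ℝ)) ⁻¹'
      ((Set.pi Set.univ (fun _ : Fin m => Set.Ioc y1 y2)) ×ˢ
      (Set.pi Set.univ (fun _ : Fin p => Set.Ioc (-ρ) ρ))) =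
      Set.pi Set.univ (Sum.elim (fun _ => Set.Ioc y1 y2) (fun _ => Set.Ioc (-ρ) ρ)) := by
    ext z
    simp only [Set.mem_preimage, Set.mem_prod, Set.mem_univ_pi, Sum.forall, Sum.elim_inl,
      Sum.elim_inr]
    rfl
  rw [h3] at h2
  refine Eq.trans ?_ (h2.trans ?_)
  · rfl
  · rw [IntegrableOn, Measure.volume_eq_prod, ← Measure.prod_restrict] at hG
    rw [Measure.volume_eq_prod, ← Measure.prod_restrict]
    exact integral_prod_symm _ hG

open MeasureTheory in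
lemma FLmainN_fubini_int {m p : ℕ} (y1 y2 ρ : ℝ) (G : (Fin m → ℝ) × (Fin p → ℝ) → ℂ)
    (hG : IntegrableOn G ((Set.pi Set.univ (fun _ : Fin m => Set.Ioc y1 y2)) ×ˢ
      (Set.pi Set.univ (fun _ : Fin p => Set.Ioc (-ρ) ρ)))) :
    IntegrableOn (fun a => ∫ x in Set.pi Set.univ (fun _ : Fin m => Set.Ioc y1 y2), G (x, a))
      (Set.pi Set.univ (fun _ : Fin p => Set.Ioc (-ρ) ρ)) := by
  rw [IntegrableOn, Measure.volume_eq_prod, ← Measure.prod_restrict] at hG
  exact hG.integral_prod_right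

open MeasureTheory in
/-- A product of integrals. -/
lemma FLmainN_prod {p : ℕ} (ρ : ℝ) (hρ : 0 ≤ ρ) (f : Fin p → ℝ → ℂ) :
    ∏ i, ∫ a in (-ρ)..ρ, f i a =
      ∫ a in Set.pi Set.univ (fun _ : Fin p => Set.Ioc (-ρ) ρ), ∏ i, f i (a i) := by
  have h1 := integral_fintype_prod_eq_prod (ι := Fin p) (𝕜 := ℂ) f
    (μ := fun _ => (volume : Measure ℝ).restrict (Set.Ioc (-ρ) ρ))
  rw [volume_pi, Measure.restrict_pi_pi, h1]
  refine Finset.prod_congr rfl fun i _ => ?_
  rw [intervalIntegral.integral_of_le (by linarith)]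

open MeasureTheory in
lemma FLmainN_prod_int {p : ℕ} (ρ : ℝ) (f : Fin p → ℝ → ℂ)
    (hf : ∀ i, ContinuousOn (f i) (Set.Icc (-ρ) ρ)) :
    IntegrableOn (fun a : Fin p → ℝ => ∏ i, f i (a i))
      (Set.pi Set.univ (fun _ : Fin p => Set.Ioc (-ρ) ρ)) := by
  rw [IntegrableOn, volume_pi, Measure.restrict_pi_pi]
  exact Integrable.fintype_prod fun i => ((hf i).integrableOn_Icc).mono_set Set.Ioc_subset_Icc_self

open MeasureTheory in
/-- The difference of a sum and of an integral. -/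
lemma FLmainN_diff {m p : ℕ} (y1 y2 ρ : ℝ) (hρ : 0 ≤ ρ) (hρ1 : 2 * ρ ≤ 1)
    (T : Finset (Fin m → ℕ)) (c : (Fin m → ℕ) → ℂ) (f : (Fin m → ℕ) → Fin p → ℝ → ℂ)
    (hf : ∀ t ∈ T, ∀ i, ContinuousOn (f t i) (Set.Icc (-ρ) ρ))
    (G : (Fin m → ℝ) × (Fin p → ℝ) → ℂ)
    (hG : ContinuousOn G ((Set.pi Set.univ (fun _ : Fin m => Set.Icc y1 y2)) ×ˢ
      (Set.pi Set.univ (fun _ : Fin p => Set.Icc (-ρ) ρ)))) (q : ℂ) (E : ℝ) (hE0 : 0 ≤ E)
    (hE : ∀ a : Fin p → ℝ, (∀ i, -ρ ≤ a i ∧ a i ≤ ρ) → ‖∑ t ∈ T, c t * ∏ i, f t i (a i) -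
      q * ∫ x in Set.pi Set.univ (fun _ : Fin m => Set.Ioc y1 y2), G (x, a)‖ ≤ E) :
    ‖∑ t ∈ T, c t * ∏ i, (∫ a in (-ρ)..ρ, f t i a) -
      q * ∫ z in (Set.pi Set.univ (Sum.elim (fun _ => Set.Ioc y1 y2) (fun _ => Set.Ioc (-ρ) ρ)) :
      Set (Fin m ⊕ Fin p → ℝ)), G (fun j => z (Sum.inl j), fun i => z (Sum.inr i))‖ ≤ E := by
  have hGi : IntegrableOn G ((Set.pi Set.univ (fun _ : Fin m => Set.Ioc y1 y2)) ×ˢ
      (Set.pi Set.univ (fun _ : Fin p => Set.Ioc (-ρ) ρ))) := by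
    refine (hG.integrableOn_compact ?_).mono_set ?_
    · exact (isCompact_univ_pi fun _ => isCompact_Icc).prod
        (isCompact_univ_pi fun _ => isCompact_Icc)
    · exact Set.prod_mono (Set.pi_mono fun _ _ => Set.Ioc_subset_Icc_self)
        (Set.pi_mono fun _ _ => Set.Ioc_subset_Icc_self)
  rw [FLmainN_fubini y1 y2 ρ G hGi]
  simp only [FLmainN_prod ρ hρ]
  have h1 : ∀ t ∈ T, IntegrableOn (fun a : Fin p → ℝ => c t * ∏ i, f t i (a i))
      (Set.pi Set.univ (fun _ : Fin p => Set.Ioc (-ρ) ρ)) := fun t ht =>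
    (FLmainN_prod_int ρ (f t) (hf t ht)).const_mul (c t)
  have h2 : IntegrableOn (fun a => q * ∫ x in Set.pi Set.univ (fun _ : Fin m => Set.Ioc y1 y2),
      G (x, a)) (Set.pi Set.univ (fun _ : Fin p => Set.Ioc (-ρ) ρ)) :=
    (FLmainN_fubini_int y1 y2 ρ G hGi).const_mul q
  have h3 : ∑ t ∈ T, c t * (∫ a in Set.pi Set.univ (fun _ : Fin p => Set.Ioc (-ρ) ρ),
      ∏ i, f t i (a i)) - q * (∫ a in Set.pi Set.univ (fun _ : Fin p => Set.Ioc (-ρ) ρ),
      ∫ x in Set.pi Set.univ (fun _ : Fin m => Set.Ioc y1 y2), G (x, a)) =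
      ∫ a in Set.pi Set.univ (fun _ : Fin p => Set.Ioc (-ρ) ρ),
        (∑ t ∈ T, c t * ∏ i, f t i (a i) -
        q * ∫ x in Set.pi Set.univ (fun _ : Fin m => Set.Ioc y1 y2), G (x, a)) := by
    rw [integral_sub (integrable_finsetSum T h1) h2, integral_finsetSum T h1]
    simp only [integral_const_mul]
  rw [h3]
  have hvol : volume (Set.pi Set.univ (fun _ : Fin p => Set.Ioc (-ρ) ρ)) < ⊤ := by
    rw [Real.volume_pi_Ioc]
    exact ENNReal.prod_lt_top fun _ _ => ENNReal.ofReal_lt_top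
  refine (norm_setIntegral_le_of_norm_le_const hvol fun a ha => hE a fun i => ?_).trans ?_
  · have := (Set.mem_univ_pi.1 ha) i
    exact ⟨this.1.le, this.2⟩
  · rw [Measure.real, Real.volume_pi_Ioc_toReal (fun _ => by simp only; linarith)]
    have h4 : ∏ i : Fin p, (ρ - -ρ) ≤ 1 :=
      Finset.prod_le_one (fun _ _ => by linarith) fun _ _ => by linarith
    calc E * ∏ i : Fin p, (ρ - -ρ) ≤ E * 1 := mul_le_mul_of_nonneg_left h4 hE0
      _ = E := mul_one E

/-! ### Slots -/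

lemma FLmainN_okS1 (y v : ℂ) (hy : 195 / 1000 ≤ y.re ∧ y.re ≤ 305 / 1000)
    (hv : |v.re| ≤ 15 / 100) : 0 < (y - v).re ∧ (y - v).re < 1 ∧ 0 < (y + v).re ∧
      (y + v).re < 1 := by
  rw [abs_le] at hv
  rw [sub_re, add_re]
  refine ⟨by linarith, by linarith, by linarith, by linarith⟩

lemma FLmainN_ww_ne (n M : ℕ) (hM : 0 < M) (v : ℂ) (hv : 0 < v.im) : ww n M v ≠ 1 := by
  intro h
  have h1 := norm_ww n M v
  rw [h, norm_one] at h1
  have h2 : Real.exp (-(2 * Real.pi * M * v.im)) < 1 := by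
    rw [Real.exp_lt_one_iff]
    have : (0 : ℝ) < M := by exact_mod_cast hM
    have := Real.pi_pos
    have : 0 < 2 * Real.pi * M * v.im := by positivity
    linarith
  linarith

lemma FLmainN_re (a b : ℝ) : ((a : ℂ) + b * I).re = a := by simp

lemma FLmainN_im (a b : ℝ) : ((a : ℂ) + b * I).im = b := by simp

end Pool.Agent.H63.VC4

end

section

/-! # The terms of the entries of the twist matrices -/

namespace Pool.Agent.H63.VC4

open Pool.Agent.H63.VC Pool.Agent.H63.VC3 Complex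
open scoped BigOperators

theorem RTerms_bt (n j : ℕ) : bt (n + 2 * j) = bt n + j := by
  unfold bt
  push_cast
  ring

/-- telescoping of `LL_step` -/
theorem RTerms_tele (M : ℕ) (hM : 0 < M) (s : ℂ) (m : ℕ) (h0 : -1 < s.re) (h1 : s.re + m < M) :
    exp (LL M (s + m) - LL M s) =
      ∏ j ∈ Finset.range m, 2 * Complex.sin (Real.pi * ((s + (j + 1 : ℕ)) / M)) := by
  induction m with
  | zero => simp
  | succ m ih =>
    have h1' : s.re + m < M := by
      push_cast at h1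
      linarith
    rw [Finset.prod_range_succ, ← ih h1']
    have hre : (s + ((m + 1 : ℕ) : ℂ)).re = s.re + ((m + 1 : ℕ) : ℝ) := by
      rw [Complex.add_re, Complex.natCast_re]
    have hm0 : (0 : ℝ) ≤ (m : ℝ) := Nat.cast_nonneg m
    have hpos : 0 < (s + ((m + 1 : ℕ) : ℂ)).re := by
      rw [hre]
      push_cast
      linarith
    have hlt : (s + ((m + 1 : ℕ) : ℂ)).re < M := by
      rw [hre]
      exact h1
    have hstep := LL_step M hM (s + ((m + 1 : ℕ) : ℂ)) hpos hlt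
    have e1 : s + ((m + 1 : ℕ) : ℂ) - 1 = s + m := by
      push_cast
      ring
    rw [e1] at hstep
    have hMr : (0 : ℝ) < M := by exact_mod_cast hM
    have hz : ((s + ((m + 1 : ℕ) : ℂ)) / M).re = (s + ((m + 1 : ℕ) : ℂ)).re / M := by
      rw [Complex.div_natCast_re]
    have hexp := hh_exp ((s + ((m + 1 : ℕ) : ℂ)) / M) (by rw [hz]; positivity)
      (by rw [hz, div_lt_one hMr]; exact hlt)
    rw [← hexp, ← hstep, ← Complex.exp_add]
    congr 1
    ring

theorem RTerms_Bn (n M t' : ℕ) (hn : 2 ≤ n) (hM : 2 ≤ M)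
    (ht' : t' + n ≤ M + 1) (v : ℂ)
    (h1 : -((t' : ℝ) + bt n + 1 - M / 2) < M * v.re) (h2 : M * v.re < (t' : ℝ) + bt n + 1 - M / 2) :
    Bn (n + 2 * (M + 1 - n - t')) M v = M * exp (-LL M (M * ((yk n M t' : ℂ) - v) - 1 / 2) -
      LL M (M * ((yk n M t' : ℂ) + v) - 1 / 2)) := by
  have hM0 : 0 < M := by omega
  have hMc : (M : ℂ) ≠ 0 := by exact_mod_cast hM0.ne'
  have hMr : (0 : ℝ) < M := by exact_mod_cast hM0
  set a : ℝ := t' + bt n - M / 2 with ha
  set s : ℂ := (a : ℂ) + M * v with hs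
  have hy : (M : ℂ) * (yk n M t' : ℂ) = (a : ℂ) + 1 / 2 := by
    unfold yk
    rw [ha]
    push_cast
    field_simp
    ring
  have e1 : (M : ℂ) * ((yk n M t' : ℂ) - v) - 1 / 2 = (a : ℂ) - M * v := by
    rw [mul_sub, hy]
    ring
  have e2 : (M : ℂ) * ((yk n M t' : ℂ) + v) - 1 / 2 = s := by
    rw [mul_add, hy, hs]
    ring
  rw [e1, e2]
  -- the number of factors
  obtain ⟨j0, hj0⟩ : ∃ j0, M + 1 - n - t' = j0 := ⟨_, rfl⟩
  have hj0' : j0 + n + t' = M + 1 := by omega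
  rw [hj0]
  have hj0r : (j0 : ℝ) = M + 1 - n - t' := by
    have : ((j0 + n + t' : ℕ) : ℝ) = ((M + 1 : ℕ) : ℝ) := by rw [hj0']
    push_cast at this
    linarith
  have hmr : ((n + 2 * j0 - 2 : ℕ) : ℝ) = M - 1 - 2 * a := by
    rw [Nat.cast_sub (by omega)]
    push_cast
    rw [hj0r, ha]
    unfold bt
    ring
  have hmc : ((n + 2 * j0 - 2 : ℕ) : ℂ) = M - 1 - 2 * (a : ℂ) := by
    have := congrArg (fun x : ℝ => (x : ℂ)) hmr
    push_cast at this
    exact this
  have hrefl := LL_reflect M hM0 ((a : ℂ) - M * v)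
  have e3 : (M : ℂ) - 1 - ((a : ℂ) - M * v) = s + ((n + 2 * j0 - 2 : ℕ) : ℂ) := by
    rw [hmc, hs]
    ring
  rw [e3] at hrefl
  have hsre : s.re = a + M * v.re := by
    rw [hs, Complex.add_re, Complex.ofReal_re, ← Complex.ofReal_natCast, Complex.re_ofReal_mul]
  have htele := RTerms_tele M hM0 s (n + 2 * j0 - 2) (by rw [hsre, ha]; linarith) (by
    rw [hsre, hmr, ha]
    rw [ha] at *
    linarith)
  have e4 : -LL M ((a : ℂ) - M * v) - LL M s =
      (LL M (s + ((n + 2 * j0 - 2 : ℕ) : ℂ)) - LL M s) - Real.log M := by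
    linear_combination -hrefl
  rw [e4, Complex.exp_sub, htele]
  have e5 : exp ((Real.log M : ℝ) : ℂ) = M := by
    rw [← Complex.ofReal_exp, Real.exp_log hMr]
    simp
  rw [e5, mul_div_cancel₀ _ hMc]
  unfold Bn
  refine Finset.prod_congr rfl fun j _ => ?_
  rw [RTerms_bt]
  congr 1
  rw [← Complex.sin_add_pi_div_two]
  congr 1
  have hbt : (a : ℂ) = M / 2 - ((bt n + j0 : ℝ) : ℂ) := by
    have : a = M / 2 - (bt n + j0) := by
      rw [ha, hj0r]
      unfold bt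
      ring
    rw [this]
    push_cast
    ring
  rw [hs, hbt]
  push_cast
  field_simp
  ring

end Pool.Agent.H63.VC4

end

section

/-! # The slot factor as an exponential of `LL` -/

namespace Pool.Agent.H63.VC7

open Pool.Agent.H63.VC
open Pool.Agent.H63.VC3 Pool.Agent.H63.VC4 Complex

variable {m p : ℕ}

/-- The pairing of the factors. -/
theorem QcLL_pair (f : ℕ → ℂ) (t : ℕ) :
    ∏ j ∈ Finset.range (2 * t), f j = ∏ i ∈ Finset.range t, (f (t + i) * f (t - 1 - i)) := by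
  rw [two_mul, Finset.prod_range_add, Finset.prod_mul_distrib,
    Finset.prod_range_reflect f t, mul_comm]

theorem qc_eq (M k : ℕ) (hk : k < M) (v : ℂ) (hv : |v.re| < yk 2 M k + 1 / (2 * M)) :
    qc M k v = Qo 2 M (some ((yk 2 M k : ℝ) : ℂ)) v := by
  have hM0 : 0 < M := by omega
  have hMc : (M : ℂ) ≠ 0 := by exact_mod_cast hM0.ne'
  have hMr : (0 : ℝ) < M := by exact_mod_cast hM0
  obtain ⟨t, ht⟩ : ∃ t, M - 1 - k = t := ⟨_, rfl⟩
  have htk : t + k + 1 = M := by omega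
  have htr : (t : ℝ) + k + 1 = M := by exact_mod_cast htk
  set b : ℝ := k + 1 / 2 - M / 2 with hb
  set s : ℂ := (b : ℂ) + M * v with hs
  have hyr : (M : ℝ) * yk 2 M k = b + 1 / 2 := by
    unfold yk bt
    rw [hb]
    push_cast
    field_simp
    ring
  have hy : (M : ℂ) * ((yk 2 M k : ℝ) : ℂ) = (b : ℂ) + 1 / 2 := by
    have := congrArg (fun x : ℝ => (x : ℂ)) hyr
    push_cast at this
    simpa using this
  have e1 : (M : ℂ) * (((yk 2 M k : ℝ) : ℂ) - v) - 1 / 2 = (b : ℂ) - M * v := by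
    rw [mul_sub, hy]
    ring
  have e2 : (M : ℂ) * (((yk 2 M k : ℝ) : ℂ) + v) - 1 / 2 = s := by
    rw [mul_add, hy, hs]
    ring
  have hvb : (M : ℝ) * |v.re| < b + 1 := by
    have h1 := mul_lt_mul_of_pos_left hv hMr
    rw [mul_add, hyr] at h1
    have h2 : (M : ℝ) * (1 / (2 * M)) = 1 / 2 := by field_simp
    rw [h2] at h1
    linarith only [h1]
  have hab1 : -((M : ℝ) * |v.re|) ≤ M * v.re := by
    have := neg_abs_le v.re
    nlinarith only [this]
  have hab2 : (M : ℝ) * v.re ≤ M * |v.re| := by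
    have := le_abs_self v.re
    nlinarith only [this]
  have hsre : s.re = b + M * v.re := by
    rw [hs, Complex.add_re, Complex.ofReal_re, ← Complex.ofReal_natCast, Complex.re_ofReal_mul]
  have hmr : ((2 * t : ℕ) : ℝ) = M - 1 - 2 * b := by
    push_cast
    rw [hb]
    linarith only [htr]
  have hmc : ((2 * t : ℕ) : ℂ) = M - 1 - 2 * (b : ℂ) := by
    have := congrArg (fun x : ℝ => (x : ℂ)) hmr
    push_cast at this
    simpa using this
  have hrefl := LL_reflect M hM0 ((b : ℂ) - M * v)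
  have e3 : (M : ℂ) - 1 - ((b : ℂ) - M * v) = s + ((2 * t : ℕ) : ℂ) := by
    rw [hmc, hs]
    ring
  rw [e3] at hrefl
  have htele := RTerms_tele M hM0 s (2 * t) (by rw [hsre]; linarith only [hvb, hab1]) (by
    rw [hsre, hmr]
    linarith only [hvb, hab2])
  have e4 : -LL M ((b : ℂ) - M * v) - LL M s =
      (LL M (s + ((2 * t : ℕ) : ℂ)) - LL M s) - Real.log M := by
    linear_combination -hrefl
  have e5 : exp ((Real.log M : ℝ) : ℂ) = M := by
    rw [← Complex.ofReal_exp, Real.exp_log hMr]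
    simp
  show qc M k v = exp (-LL M (M * (((yk 2 M k : ℝ) : ℂ) - v) - 1 / 2) -
    LL M (M * (((yk 2 M k : ℝ) : ℂ) + v) - 1 / 2))
  rw [e1, e2, e4, Complex.exp_sub, htele, e5, QcLL_pair, qc, ht, div_mul_eq_mul_div, one_mul]
  congr 1
  refine Finset.prod_congr rfl fun i hi => ?_
  rw [Finset.mem_range] at hi
  have hbc : (b : ℂ) = M / 2 - t - 1 / 2 := by
    have : b = M / 2 - t - 1 / 2 := by
      rw [hb]
      linarith only [htr]
    rw [this]
    push_cast
    ring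
  have c1 : Complex.sin (Real.pi * ((s + ((t + i + 1 : ℕ) : ℂ)) / M)) =
      Complex.cos (Real.pi * (v + (i + 1 / 2) / M)) := by
    rw [← Complex.sin_add_pi_div_two]
    congr 1
    rw [hs, hbc]
    push_cast
    field_simp
    ring
  have c2 : Complex.sin (Real.pi * ((s + ((t - 1 - i + 1 : ℕ) : ℂ)) / M)) =
      Complex.cos (Real.pi * (v - (i + 1 / 2) / M)) := by
    rw [← Complex.sin_add_pi_div_two]
    congr 1
    have h1 : ((t - 1 - i + 1 : ℕ) : ℂ) = t - i := by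
      rw [show t - 1 - i + 1 = t - i by omega, Nat.cast_sub hi.le]
    rw [hs, hbc, h1]
    field_simp
    ring
  rw [c1, c2]
  ring

/-- In the window the node function is the kernel. -/
theorem NT_eq_KG (r : ℝ) (M : ℕ) (A : Finset (Fin m)) (k : Fin m → ℕ) (v : ℂ)
    (hk : ∀ j ∈ A, k j < M) (hv : ∀ j ∈ A, |v.re| < yk 2 M (k j) + 1 / (2 * M)) :
    NT r M A k v = KG r M A (fun j => ((yk 2 M (k j) : ℝ) : ℂ)) v := by
  unfold NT KG
  congr 1
  exact Finset.prod_congr rfl fun j hj => qc_eq M (k j) (hk j hj) v (hv j hj)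

end Pool.Agent.H63.VC7

end

section

/-! # The values of an ordered flattened tetrahedron -/

namespace Pool.Agent.H63.VC7

open Pool.Agent.H63.VC
open Pool.Agent.H63.VC3 Pool.Agent.H63.VC5 Complex

/-- The value without ordering. -/
noncomputable def rh1 (z : ℂ) (n : Fin 3 → ℤ) : ℂ :=
  rh0 z + Real.pi * I / 2 * (n 1 * Hyp.lgs z 0 - n 0 * Hyp.lgs z 1)

theorem TetRC_ne (z : ℂ) (hz : 0 < z.im) : z ≠ 0 ∧ 1 - z ≠ 0 := by
  constructor
  · intro h
    rw [h] at hz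
    simp at hz
  · intro h
    have : z = 1 := by linear_combination -h
    rw [this] at hz
    simp at hz

theorem TetRC_l1 (z : ℂ) (hz : 0 < z.im) : l1 z = -Complex.log (1 - z) := by
  unfold l1
  rw [one_div]
  exact Rog_log_inv _ (by simpa using hz.ne')

theorem TetRC_l2 (z : ℂ) (hz : 0 < z.im) :
    l2 z = Complex.log (1 - z) + Real.pi * I - Complex.log z := by
  unfold l2
  rw [one_div, Rog_log_sub z hz.ne', Rog_log_neg_neg (1 - z) (by simpa using hz)]

theorem TetRC_dz' (z : ℂ) (hz : 0 < z.im) :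
    dilog (1 / (1 - z)) = dilog z + (Real.pi : ℂ) ^ 2 / 6 - l1 z ^ 2 / 2 + Real.pi * I * l1 z -
      l0 z * l1 z := by
  have h1 := dilog_compl z (Rog_slit z hz.ne') (Rog_slit' z hz.ne')
  have h2 := dilog_inv (1 - z) (Rog_slit _ (by simpa using hz.ne'))
  rw [Rog_log_neg_neg (1 - z) (by simpa using hz)] at h2
  rw [one_div, TetRC_l1 z hz]
  unfold l0
  linear_combination h2 - h1 - ((Real.pi : ℂ) ^ 2 / 2) * I_sq

theorem TetRC_dinv (z : ℂ) (hz : 0 < z.im) :
    dilog (1 / z) = (Real.pi : ℂ) ^ 2 / 3 - l0 z ^ 2 / 2 + Real.pi * I * l0 z - dilog z := by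
  have h2 := dilog_inv z (Rog_slit _ (by simpa using hz.ne'))
  rw [Rog_log_neg_pos z hz] at h2
  rw [one_div]
  unfold l0
  linear_combination h2 - ((Real.pi : ℂ) ^ 2 / 2) * I_sq

theorem TetRC_z'im (z : ℂ) (hz : 0 < z.im) : 0 < (1 / (1 - z)).im := by
  rw [one_div, Complex.inv_im]
  have h : (1 - z) ≠ 0 := (TetRC_ne z hz).2
  apply div_pos
  · simpa using hz
  · exact Complex.normSq_pos.2 h

theorem TetRC_z''im (z : ℂ) (hz : 0 < z.im) : 0 < (1 - 1 / z).im := by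
  rw [one_div, Complex.sub_im, Complex.inv_im]
  have h : z ≠ 0 := (TetRC_ne z hz).1
  have : 0 < z.im / Complex.normSq z := div_pos hz (Complex.normSq_pos.2 h)
  rw [neg_div]
  simpa using this

theorem TetRC_sub' (z : ℂ) (hz : 0 < z.im) : 1 - 1 / (1 - z) = 1 / (1 - 1 / z) := by
  obtain ⟨h0, h1⟩ := TetRC_ne z hz
  have h2 : z - 1 ≠ 0 := fun h => h1 (by linear_combination -h)
  have h3 : 1 - 1 / z = (z - 1) / z := by field_simp
  rw [h3]
  field_simp
  ring

theorem TetRC_logsub' (z : ℂ) (hz : 0 < z.im) : Complex.log (1 - 1 / (1 - z)) = -l2 z := by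
  rw [TetRC_sub' z hz, one_div (1 - 1 / z)]
  unfold l2
  exact Rog_log_inv _ (TetRC_z''im z hz).ne'

theorem TetRC_A (z : ℂ) (hz : 0 < z.im) (n : Fin 3 → ℤ) (hn : n 0 + n 1 + n 2 = -1)
    (F : Fin 3 → ℂ) (hF : ∀ c, F c = Hyp.lgs z c + n c * (Real.pi * I)) :
    Hyp.RR (1 / (1 - z)) (F 1) (F 2) =
      rh1 z n + (Real.pi : ℂ) ^ 2 / 6 + n 1 * (Real.pi : ℂ) ^ 2 / 2 := by
  unfold Hyp.RR rh1 rh0
  rw [hF 1, hF 2, TetRC_dz' z hz, TetRC_logsub' z hz]
  simp only [lgs_0, lgs_1, lgs_2]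
  have e1 : Complex.log (1 / (1 - z)) = l1 z := rfl
  have e0 : Complex.log z = l0 z := rfl
  have e1' : Complex.log (1 - z) = -l1 z := by rw [TetRC_l1 z hz, neg_neg]
  have e2 : l2 z = Real.pi * I - l0 z - l1 z := by
    rw [TetRC_l2 z hz, e1', e0]; ring
  rw [e1, e1', e0, e2]
  have hn2 : (n 2 : ℂ) = -1 - n 0 - n 1 := by
    have : n 2 = -1 - n 0 - n 1 := by linarith
    rw [this]; push_cast; ring
  rw [hn2]
  linear_combination (-(n 1 : ℂ) * (Real.pi : ℂ) ^ 2 / 2) * I_sq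

theorem tetR_cases (z : ℂ) (hz : 0 < z.im) (n : Fin 3 → ℤ) (hn : n 0 + n 1 + n 2 = -1)
    (F : Fin 3 → ℂ) (hF : ∀ c, F c = Hyp.lgs z c + n c * (Real.pi * I)) :
    Cg (Hyp.tetR z F 0 1) (rh1 z n) ∧
    Cg (Hyp.tetR z F 1 2) (rh1 z n + (Real.pi : ℂ) ^ 2 / 6 + n 1 * (Real.pi : ℂ) ^ 2 / 2) ∧
    Cg (Hyp.tetR z F 0 2) (rh1 z n + n 0 * (Real.pi : ℂ) ^ 2 / 2) ∧
    Cg (Hyp.tetR z F 2 1) (rh1 z n + (Real.pi : ℂ) ^ 2 / 3 + n 1 * (Real.pi : ℂ) ^ 2 / 2) := by
  have hn2 : (n 2 : ℂ) = -1 - n 0 - n 1 := by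
    have : n 2 = -1 - n 0 - n 1 := by linarith
    rw [this]; push_cast; ring
  have e1 : Complex.log (1 / (1 - z)) = l1 z := rfl
  have e0 : Complex.log z = l0 z := rfl
  have e1' : Complex.log (1 - z) = -l1 z := by rw [TetRC_l1 z hz, neg_neg]
  have e2 : l2 z = Real.pi * I - l0 z - l1 z := by
    rw [TetRC_l2 z hz, e1', e0]; ring
  refine ⟨?_, ?_, ?_, ?_⟩
  · apply Cg.of_eq
    have h : Hyp.tetR z F 0 1 = Hyp.RR z (F 0) (F 1) := rfl
    rw [h]
    unfold Hyp.RR rh1 rh0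
    rw [hF 0, hF 1]
    simp only [lgs_0, lgs_1]
    rw [e1', e0]
    ring
  · apply Cg.of_eq
    have h : Hyp.tetR z F 1 2 = Hyp.RR (1 / (1 - z)) (F 1) (F 2) := rfl
    rw [h]
    exact TetRC_A z hz n hn F hF
  · have h : Hyp.tetR z F 0 2 = -Hyp.RR (1 / z) (-F 0) (-F 2) := rfl
    rw [h]
    refine ⟨-n 0, ?_⟩
    unfold Hyp.RR rh1 rh0
    rw [hF 0, hF 2, TetRC_dinv z hz]
    simp only [lgs_0, lgs_1, lgs_2]
    have e3 : Complex.log (1 / z) = -l0 z := by
      rw [one_div]; exact Rog_log_inv z hz.ne'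
    have e4 : Complex.log (1 - 1 / z) = l2 z := rfl
    rw [e3, e4, e1', e0, e2, hn2]
    push_cast
    linear_combination ((n 0 : ℂ) * (Real.pi : ℂ) ^ 2 / 2) * I_sq
  · apply Cg.of_eq
    have h : Hyp.tetR z F 2 1 = -Hyp.RR (1 / (1 - 1 / z)) (-F 2) (-F 1) := rfl
    rw [h, ← TetRC_sub' z hz]
    have hA := TetRC_A z hz n hn F hF
    have hd := dilog_compl (1 / (1 - z)) (Rog_slit _ (TetRC_z'im z hz).ne')
      (Rog_slit' _ (TetRC_z'im z hz).ne')
    unfold Hyp.RR at hA ⊢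
    rw [sub_sub_cancel]
    rw [TetRC_logsub' z hz] at hA hd ⊢
    rw [e1] at hA hd ⊢
    linear_combination hA - hd

end Pool.Agent.H63.VC7

end

section

/-! # ff and the dilogarithm -/

namespace Pool.Agent.H63.VC5

open Pool.Agent.H63.VC Pool.Agent.H63.VC3 Complex Filter Topology
open scoped BigOperators

theorem FFdilog_im (z : ℂ) (h0 : 0 < z.re) (h1 : z.re < 1) :
    -Real.pi < (hh z + Real.pi * I * (z - 1 / 2)).im ∧ (hh z + Real.pi * I * (z - 1 / 2)).im < Real.pi := by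
  have hs := Clausen_sin_re z h0 h1
  have h2 : |Complex.arg (2 * Complex.sin (Real.pi * z))| < Real.pi / 2 :=
    Complex.abs_arg_lt_pi_div_two_iff.mpr (Or.inl hs)
  have h3 : (hh z).im = Complex.arg (2 * Complex.sin (Real.pi * z)) := by
    unfold hh
    exact Complex.log_im _
  have h4 : (Real.pi * I * (z - 1 / 2) : ℂ).im = Real.pi * (z.re - 1 / 2) := by
    have e : (Real.pi * I * (z - 1 / 2) : ℂ) = ((Real.pi : ℝ) : ℂ) * (I * (z - 1 / 2)) := by ring
    rw [e, Complex.im_ofReal_mul, Complex.I_mul_im, Complex.sub_re]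
    norm_num
  rw [Complex.add_im, h3, h4]
  have h5 := abs_lt.mp h2
  have hpi := Real.pi_pos
  constructor
  · nlinarith [h5.1]
  · nlinarith [h5.2]

theorem FFdilog_exp (z : ℂ) (h0 : 0 < z.re) (h1 : z.re < 1) :
    1 - exp (2 * Real.pi * I * z) = exp (hh z + Real.pi * I * (z - 1 / 2)) := by
  rw [Complex.exp_add, hh_exp z h0 h1, Complex.sin]
  have e1 : (Real.pi * I * (z - 1 / 2) : ℂ) = Real.pi * z * I + -(Real.pi / 2 * I) := by ring
  have e2 : (2 * Real.pi * I * z : ℂ) = Real.pi * z * I + Real.pi * z * I := by ring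
  have e3 : exp (-((Real.pi : ℂ) / 2 * I)) = -I := by
    rw [Complex.exp_neg, Complex.exp_pi_div_two_mul_I]
    exact Complex.inv_I
  have e4 : exp (-((Real.pi : ℂ) * z) * I) * exp ((Real.pi : ℂ) * z * I) = 1 := by
    rw [← Complex.exp_add]
    have : -((Real.pi : ℂ) * z) * I + (Real.pi : ℂ) * z * I = 0 := by ring
    rw [this, Complex.exp_zero]
  rw [e1, e2, Complex.exp_add, Complex.exp_add, e3]
  set E := exp ((Real.pi : ℂ) * z * I)
  set E' := exp (-((Real.pi : ℂ) * z) * I)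
  have hI : I * I = -1 := Complex.I_mul_I
  linear_combination (E' * E - E * E) * hI + (-1) * e4

theorem hh_log (z : ℂ) (h0 : 0 < z.re) (h1 : z.re < 1) :
    Complex.log (1 - exp (2 * Real.pi * I * z)) = hh z + Real.pi * I * (z - 1 / 2) := by
  rw [FFdilog_exp z h0 h1]
  have h := FFdilog_im z h0 h1
  exact Complex.log_exp h.1 h.2.le

theorem FFdilog_slit (z : ℂ) (h0 : 0 < z.re) (h1 : z.re < 1) :
    1 - exp (2 * Real.pi * I * z) ∈ slitPlane := by
  rw [Complex.mem_slitPlane_iff_arg]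
  constructor
  · have h := FFdilog_im z h0 h1
    have h2 := hh_log z h0 h1
    have h3 := congrArg Complex.im h2
    rw [Complex.log_im] at h3
    rw [h3]
    exact h.2.ne
  · rw [FFdilog_exp z h0 h1]
    exact Complex.exp_ne_zero _

theorem ff_dilog (z : ℂ) (h0 : 0 < z.re) (h1 : z.re < 1) :
    2 * Real.pi * I * ff z =
      -dilog (exp (2 * Real.pi * I * z)) + (Real.pi : ℂ) ^ 2 * (z ^ 2 - z + 1 / 6) := by
  set S : Set ℂ := {z : ℂ | 0 < z.re} ∩ {z : ℂ | z.re < 1} with hS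
  have hSo : IsOpen S := (isOpen_lt continuous_const Complex.continuous_re).inter
    (isOpen_lt Complex.continuous_re continuous_const)
  have hSc : Convex ℝ S := (convex_halfSpace_re_gt 0).inter (convex_halfSpace_re_lt 1)
  set F : ℂ → ℂ := fun z => 2 * Real.pi * I * ff z + dilog (exp (2 * Real.pi * I * z)) -
    (Real.pi : ℂ) ^ 2 * (z ^ 2 - z + 1 / 6) with hF
  have hder : ∀ z ∈ S, HasDerivAt F 0 z := by
    intro z hz
    have k1 := (ff_hasDerivAt z hz.1 hz.2).const_mul (2 * Real.pi * I : ℂ)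
    have k2 : HasDerivAt (fun z : ℂ => exp (2 * Real.pi * I * z))
        (exp (2 * Real.pi * I * z) * (2 * Real.pi * I)) z := by
      have : HasDerivAt (fun z : ℂ => 2 * Real.pi * I * z) (2 * Real.pi * I) z := by
        simpa using (hasDerivAt_id z).const_mul (2 * Real.pi * I : ℂ)
      exact this.cexp
    have k3 := (dilog_hasDerivAt _ (Complex.exp_ne_zero (2 * Real.pi * I * z))
      (FFdilog_slit z hz.1 hz.2)).comp z k2
    have k4 : HasDerivAt (fun z : ℂ => (Real.pi : ℂ) ^ 2 * (z ^ 2 - z + 1 / 6))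
        ((Real.pi : ℂ) ^ 2 * (2 * z - 1)) z := by
      have := ((((hasDerivAt_id z).pow 2).sub (hasDerivAt_id z)).add_const (1 / 6 : ℂ)).const_mul
        ((Real.pi : ℂ) ^ 2)
      simpa using this
    have k5 := (k1.add k3).sub k4
    refine k5.congr_deriv ?_
    rw [hh_log z hz.1 hz.2]
    have hne := Complex.exp_ne_zero (2 * Real.pi * I * z)
    field_simp
    have hI : I ^ 2 = -1 := Complex.I_sq
    ring_nf
    rw [hI]
    ring
  have hconst : F z = F (1 / 2) := by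
    have hhalf : (1 / 2 : ℂ) ∈ S := by
      constructor
      · show 0 < (1 / 2 : ℂ).re
        norm_num
      · show (1 / 2 : ℂ).re < 1
        norm_num
    apply hSc.is_const_of_fderivWithin_eq_zero (𝕜 := ℂ) (f := F) (s := S)
    · intro x hx
      exact (hder x hx).differentiableAt.differentiableWithinAt
    · intro x hx
      rw [fderivWithin_of_isOpen hSo hx]
      ext
      simpa using (hder x hx).deriv
    · exact ⟨h0, h1⟩
    · exact hhalf
  have hhalf : F (1 / 2) = 0 := by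
    have k1 : ff (1 / 2) = 0 := by
      have := ff_reflect (1 / 2)
      have e : (1 - 1 / 2 : ℂ) = 1 / 2 := by norm_num
      rw [e] at this
      have h2 : 2 * ff (1 / 2) = 0 := by linear_combination this
      simpa using h2
    have k2 : (2 * Real.pi * I * (1 / 2) : ℂ) = Real.pi * I := by ring
    rw [hF]
    simp only
    rw [k1, k2, Complex.exp_pi_mul_I, dilog_neg_one]
    ring
  rw [hhalf] at hconst
  rw [hF] at hconst
  simp only at hconst
  linear_combination hconst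

end Pool.Agent.H63.VC5

end

section

/-! # The Rogers dilogarithm of two tetrahedra glued along a face -/

namespace Pool.Agent.H63.VC7

open Pool.Agent.H63.VC
open Pool.Agent.H63.VC3 Pool.Agent.H63.VC5 Complex

theorem RhoPair_l1 {z : ℂ} (hz : 0 < z.im) : Complex.log (1 - z) = -l1 z := by
  unfold l1
  rw [one_div, Complex.log_inv, neg_neg]
  intro h
  have h1 := Complex.arg_eq_pi_iff.1 h
  have h2 : (1 - z).im = -z.im := by simp
  rw [h2] at h1
  linarith [h1.2]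

theorem RhoPair_slit {z : ℂ} (hz : 0 < z.im) : 1 - z ∈ slitPlane := by
  rw [mem_slitPlane_iff]
  right
  have h2 : (1 - z).im = -z.im := by simp
  rw [h2]
  linarith

/-- `rh0` of one tetrahedron through its logarithms. -/
theorem RhoPair_rh0 {z a b : ℂ} (hz : 0 < z.im) (h0 : l0 z = a) (h1 : l1 z = b) :
    rh0 z = dilog (exp a) - a * b / 2 - (Real.pi : ℂ) ^ 2 / 6 := by
  have hz0 : z ≠ 0 := by
    rintro rfl
    simp at hz
  have e : exp a = z := by
    rw [← h0]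
    exact Complex.exp_log hz0
  have e0 : Complex.log z = a := h0
  unfold rh0
  rw [e, RhoPair_l1 hz, h1, e0]
  ring

/-- The derivative of `dilog (exp a)`. -/
theorem RhoPair_deriv {f : ℝ → ℂ} {f' b z : ℂ} {t : ℝ} (hf : HasDerivAt f f' t) (hz : 0 < z.im)
    (h0 : l0 z = f t) (h1 : l1 z = b) :
    HasDerivAt (fun t => dilog (exp (f t))) (b * f') t := by
  have hz0 : z ≠ 0 := by
    rintro rfl
    simp at hz
  have e : exp (f t) = z := by
    rw [← h0]
    exact Complex.exp_log hz0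
  have k1 := dilog_hasDerivAt (exp (f t)) (Complex.exp_ne_zero _) (by rw [e]; exact RhoPair_slit hz)
  have k2 := k1.comp_of_eq t hf.cexp rfl
  refine k2.congr_deriv ?_
  rw [e, RhoPair_l1 hz, h1]
  field_simp

theorem RhoPair_hh_quarter : hh (1 / 4) = (Real.log 2 / 2 : ℝ) := by
  unfold hh
  have e : (Real.pi : ℂ) * (1 / 4) = ((Real.pi / 4 : ℝ) : ℂ) := by push_cast; ring
  rw [e, ← Complex.ofReal_sin, Real.sin_pi_div_four]
  have e2 : (2 : ℂ) * ((√2 / 2 : ℝ) : ℂ) = ((√2 : ℝ) : ℂ) := by push_cast; ring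
  rw [e2, ← Complex.ofReal_log (Real.sqrt_nonneg 2), Real.log_sqrt (by norm_num)]

theorem RhoPair_hh_half : hh (1 / 2) = (Real.log 2 : ℝ) := by
  unfold hh
  have e : (Real.pi : ℂ) * (1 / 2) = (Real.pi : ℂ) / 2 := by ring
  rw [e, Complex.sin_pi_div_two, mul_one]
  have e2 : (2 : ℂ) = ((2 : ℝ) : ℂ) := by norm_num
  rw [e2, ← Complex.ofReal_log (by norm_num)]

theorem RhoPair_hh_refl : hh (1 / 4 + 1 / 2) = hh (1 / 4) := by
  unfold hh
  have e : (Real.pi : ℂ) * (1 / 4 + 1 / 2) = Real.pi - Real.pi * (1 / 4) := by ring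
  rw [e, Complex.sin_pi_sub]

theorem RhoPair_ff_half : ff (0 + 1 / 2) = 0 := by
  have := ff_reflect (1 / 2)
  have e : (1 - 1 / 2 : ℂ) = 1 / 2 := by norm_num
  rw [e] at this
  have h2 : 2 * ff (1 / 2) = 0 := by linear_combination this
  rw [zero_add]
  simpa using h2

theorem RhoPair_ff_refl : ff (1 / 4 + 1 / 2) = -ff (1 / 4) := by
  have := ff_reflect (1 / 4)
  have e : (1 - 1 / 4 : ℂ) = 1 / 4 + 1 / 2 := by norm_num
  rwa [e] at this

theorem RhoPair_dilog_I : dilog (exp (Real.pi * I / 2)) =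
    -(2 * Real.pi * I * ff (1 / 4)) - (Real.pi : ℂ) ^ 2 / 48 := by
  have h := ff_dilog (1 / 4) (by norm_num) (by norm_num)
  have e : (2 * Real.pi * I * (1 / 4) : ℂ) = Real.pi * I / 2 := by ring
  rw [e] at h
  linear_combination h

theorem rho_pair (y v : ℂ) (hy : ‖y - 1 / 4‖ ≤ 6 / 1000) (hv : |v.re| ≤ 53 / 1000)
    (hv' : |v.im| ≤ 3 / 1000) : rh0 (sX y v) + rh0 (sY y v) =
    2 * Real.pi * I * (ff (y + 1 / 2) - ff (y + v) + ff (v + 1 / 2)) +
      Real.pi * I / 2 * (Real.pi * I / 2 - Real.pi * I * v) +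
      (Real.pi * I / 2 - Real.pi * I * v) * (hh (v + 1 / 2) - hh (y + v)) -
      Real.pi * I * y * (hh (y + 1 / 2) - hh (y + v)) := by
  -- the segment
  let Y : ℝ → ℂ := fun t => 1 / 4 + t * (y - 1 / 4)
  let V : ℝ → ℂ := fun t => t * v
  have hY : ∀ t, HasDerivAt Y (y - 1 / 4) t := by
    intro t
    have h : HasDerivAt Y (((1 : ℝ) : ℂ) * (y - 1 / 4)) t :=
      (((hasDerivAt_id t).ofReal_comp).mul_const (y - 1 / 4)).const_add (1 / 4)
    rwa [ofReal_one, one_mul] at h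
  have hV : ∀ t, HasDerivAt V v t := by
    intro t
    have h : HasDerivAt V (((1 : ℝ) : ℂ) * v) t := ((hasDerivAt_id t).ofReal_comp).mul_const v
    rwa [ofReal_one, one_mul] at h
  have cY : ∀ t ∈ Set.Icc (0 : ℝ) 1, ‖Y t - 1 / 4‖ ≤ 6 / 1000 := by
    intro t ht
    have e : Y t - 1 / 4 = t * (y - 1 / 4) := by simp [Y]
    rw [e, norm_mul, Complex.norm_real, Real.norm_eq_abs, abs_of_nonneg ht.1]
    nlinarith only [ht, hy, ht.1, ht.2, norm_nonneg (y - 1 / 4)]
  have cV : ∀ t ∈ Set.Icc (0 : ℝ) 1, |(V t).re| ≤ 53 / 1000 := by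
    intro t ht
    have e : (V t).re = t * v.re := by simp [V]
    rw [e, abs_mul, abs_of_nonneg ht.1]
    nlinarith only [ht, hv, ht.1, ht.2, abs_nonneg v.re]
  have cV' : ∀ t ∈ Set.Icc (0 : ℝ) 1, |(V t).im| ≤ 3 / 1000 := by
    intro t ht
    have e : (V t).im = t * v.im := by simp [V]
    rw [e, abs_mul, abs_of_nonneg ht.1]
    nlinarith [ht.1, ht.2, abs_nonneg v.im]
  have cR : ∀ t ∈ Set.Icc (0 : ℝ) 1, |(Y t).re - 1 / 4| ≤ 6 / 1000 := by
    intro t ht
    have h := Complex.abs_re_le_norm (Y t - 1 / 4)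
    have e : (Y t - 1 / 4).re = (Y t).re - 1 / 4 := by
      rw [sub_re]; norm_num
    rw [e] at h
    exact h.trans (cY t ht)
  -- the functions
  let A : ℝ → ℂ := fun t => Real.pi * I / 2 - Real.pi * I * V t
  let LX : ℝ → ℂ := fun t => A t + hh (Y t + 1 / 2) - hh (Y t + V t)
  let MX : ℝ → ℂ := fun t => Real.pi * I / 2 - Real.pi * I * Y t + hh (Y t + V t) - hh (V t + 1 / 2)
  let LY : ℝ → ℂ := fun t => A t + hh (Y t + V t) - hh (Y t + 1 / 2)
  let MY : ℝ → ℂ := fun t => Real.pi * I * (Y t + V t) + hh (Y t + 1 / 2) - hh (V t + 1 / 2)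
  let R : ℝ → ℂ := fun t =>
    2 * Real.pi * I * (ff (Y t + 1 / 2) - ff (Y t + V t) + ff (V t + 1 / 2)) +
      Real.pi * I / 2 * (Real.pi * I / 2 - Real.pi * I * V t) +
      (Real.pi * I / 2 - Real.pi * I * V t) * (hh (V t + 1 / 2) - hh (Y t + V t)) -
      Real.pi * I * Y t * (hh (Y t + 1 / 2) - hh (Y t + V t))
  let F : ℝ → ℂ := fun t => (dilog (exp (LX t)) - LX t * MX t / 2) +
    (dilog (exp (LY t)) - LY t * MY t / 2) - R t
  have hF : ∀ t ∈ Set.Icc (0 : ℝ) 1, HasDerivAt F 0 t := by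
    intro t ht
    obtain ⟨a1, a2⟩ := abs_le.1 (cR t ht)
    obtain ⟨b1, b2⟩ := abs_le.1 (cV t ht)
    have r1 : (Y t + 1 / 2).re = (Y t).re + 1 / 2 := by rw [add_re]; norm_num
    have r2 : (V t + 1 / 2).re = (V t).re + 1 / 2 := by rw [add_re]; norm_num
    have r3 : (Y t + V t).re = (Y t).re + (V t).re := add_re _ _
    have dH := (hh_hasDerivAt (Y t + 1 / 2) (by rw [r1]; linarith only [a1]) (by rw [r1]; linarith only [a2])).comp_of_eq t
      ((hY t).add_const (1 / 2)) rfl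
    have dK := (hh_hasDerivAt (V t + 1 / 2) (by rw [r2]; linarith only [b1]) (by rw [r2]; linarith only [b2])).comp_of_eq t
      ((hV t).add_const (1 / 2)) rfl
    have dh := (hh_hasDerivAt (Y t + V t) (by rw [r3]; linarith only [a1, b1]) (by rw [r3]; linarith only [a2, b2])).comp_of_eq t
      ((hY t).add (hV t)) rfl
    have fH := (ff_hasDerivAt (Y t + 1 / 2) (by rw [r1]; linarith only [a1]) (by rw [r1]; linarith only [a2])).comp_of_eq t
      ((hY t).add_const (1 / 2)) rfl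
    have fK := (ff_hasDerivAt (V t + 1 / 2) (by rw [r2]; linarith only [b1]) (by rw [r2]; linarith only [b2])).comp_of_eq t
      ((hV t).add_const (1 / 2)) rfl
    have fh := (ff_hasDerivAt (Y t + V t) (by rw [r3]; linarith only [a1, b1]) (by rw [r3]; linarith only [a2, b2])).comp_of_eq t
      ((hY t).add (hV t)) rfl
    set H' := Real.pi * Complex.cot (Real.pi * (Y t + 1 / 2)) * (y - 1 / 4)
    set K' := Real.pi * Complex.cot (Real.pi * (V t + 1 / 2)) * v
    set h' := Real.pi * Complex.cot (Real.pi * (Y t + V t)) * (y - 1 / 4 + v)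
    have dA : HasDerivAt A (-(Real.pi * I * v)) t := by
      have := ((hV t).const_mul (Real.pi * I : ℂ)).const_sub (Real.pi * I / 2 : ℂ)
      exact this
    have dLX : HasDerivAt LX (-(Real.pi * I * v) + H' - h') t := (dA.add dH).sub dh
    have dLY : HasDerivAt LY (-(Real.pi * I * v) + h' - H') t := (dA.add dh).sub dH
    have dMX : HasDerivAt MX (-(Real.pi * I * (y - 1 / 4)) + h' - K') t :=
      ((((hY t).const_mul (Real.pi * I : ℂ)).const_sub (Real.pi * I / 2 : ℂ)).add dh).sub dK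
    have dMY : HasDerivAt MY (Real.pi * I * (y - 1 / 4 + v) + H' - K') t :=
      ((((hY t).add (hV t)).const_mul (Real.pi * I : ℂ)).add dH).sub dK
    obtain ⟨x0, x1, -, xi⟩ := sX_log (Y t) (V t) (cY t ht) (cV t ht) (cV' t ht)
    obtain ⟨y0, y1, -, yi⟩ := sY_log (Y t) (V t) (cY t ht) (cV t ht) (cV' t ht)
    have gX := RhoPair_deriv dLX xi x0 x1
    have gY := RhoPair_deriv dLY yi y0 y1
    have dR := ((((fH.sub fh).add fK).const_mul (2 * Real.pi * I : ℂ)).add
      ((((hV t).const_mul (Real.pi * I : ℂ)).const_sub (Real.pi * I / 2 : ℂ)).const_mul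
        (Real.pi * I / 2 : ℂ))).add
      ((((hV t).const_mul (Real.pi * I : ℂ)).const_sub (Real.pi * I / 2 : ℂ)).mul (dK.sub dh))
    have dR' := dR.sub (((hY t).const_mul (Real.pi * I : ℂ)).mul (dH.sub dh))
    have dF := ((gX.sub ((dLX.mul dMX).div_const 2)).add
      (gY.sub ((dLY.mul dMY).div_const 2))).sub dR'
    refine dF.congr_deriv ?_
    simp only [LX, LY, MX, MY, A, Function.comp_apply, Pi.sub_apply, Pi.add_apply]
    ring
  have hc : ContinuousOn F (Set.Icc 0 1) := fun t ht => (hF t ht).continuousAt.continuousWithinAt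
  have hconst := constant_of_has_deriv_right_zero hc
    (fun t ht => (hF t ⟨ht.1, ht.2.le⟩).hasDerivWithinAt) 1 ⟨zero_le_one, le_rfl⟩
  obtain ⟨x0, x1, -, xi⟩ := sX_log y v hy hv hv'
  obtain ⟨y0, y1, -, yi⟩ := sY_log y v hy hv hv'
  have eY1 : Y 1 = y := by simp [Y]
  have eV1 : V 1 = v := by simp [V]
  have eY0 : Y 0 = 1 / 4 := by simp [Y]
  have eV0 : V 0 = 0 := by simp [V]
  have e1 : F 1 = rh0 (sX y v) + rh0 (sY y v) + (Real.pi : ℂ) ^ 2 / 3 - R 1 := by
    rw [RhoPair_rh0 xi x0 x1, RhoPair_rh0 yi y0 y1]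
    simp only [F, LX, LY, MX, MY, A, eY1, eV1]
    ring
  have e0 : F 0 = (Real.pi : ℂ) ^ 2 / 3 := by
    simp only [F, R, LX, LY, MX, MY, A, eY0, eV0]
    simp only [mul_zero, sub_zero, add_zero, RhoPair_hh_refl, RhoPair_ff_refl, RhoPair_ff_half]
    have k : (Real.pi * I / 2 + hh (1 / 4) - hh (1 / 4) : ℂ) = Real.pi * I / 2 := by ring
    rw [k, RhoPair_dilog_I, RhoPair_hh_quarter]
    have k2 : hh (0 + 1 / 2) = (Real.log 2 : ℝ) := by rw [zero_add]; exact RhoPair_hh_half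
    rw [k2]
    push_cast
    have hI : I ^ 2 = -1 := Complex.I_sq
    ring_nf
    rw [hI]
    ring
  rw [e1, e0] at hconst
  simp only [R, eY1, eV1] at hconst
  linear_combination hconst

end Pool.Agent.H63.VC7

end
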