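import Pool.Agent.H94.PA.M04
import Pool.Agent.H94.PA.M09

/-! The parts of this file: H63.VC3.WinFacts, H63.VC3.LogS, H63.VC3.StepPP. -/

section

/-! # Consequences of the window conditions -/

namespace Pool.Agent.H63.VC3

open Pool.Agent.H63.VC Complex Filter

theorem win_facts (n M k1 k2 l1 l2 : ℕ) (hn : 2 ≤ n) (hw : Win n M k1 k2 l1 l2) :
    k2 + n ≤ M ∧ l2 ≤ k1 ∧ (∀ k : ℕ, k1 ≤ k → k ≤ k2 → |yk n M k - 1 / 4| ≤ 55 / 1000 ∧
      |(k : ℝ) / M - 3 / 4| ≤ 56 / 1000) ∧
    (∀ k : ℕ, (k < k1 ∨ k2 < k) → 53 / 1000 ≤ |(k : ℝ) / M - 3 / 4|) ∧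
    (∀ l : ℕ, (l < l1 ∨ l2 < l) → 148 / 1000 ≤ |(l : ℝ) / M - 1 / 2|) ∧
    149 / 1000 ≤ rho n M l2 ∧ rho n M l2 ≤ 150 / 1000 := by
  have hbig : (1000 : ℝ) * (n + 1) ≤ M := by exact_mod_cast hw.big
  have hn' : (2 : ℝ) ≤ n := by exact_mod_cast hn
  have hM : (0 : ℝ) < M := by linarith
  have hb : bt n = ((n : ℝ) - 1) / 2 := rfl
  have a1 : (1 / 4 - 55 / 1000 + 1 / 2) * M ≤ k1 + bt n := by
    have := hw.a1
    rw [le_sub_iff_add_le, le_div_iff₀ hM] at this
    exact this
  have a2 : k1 + bt n ≤ (1 / 4 - 54 / 1000 + 1 / 2) * M := by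
    have := hw.a2
    rw [sub_le_iff_le_add, div_le_iff₀ hM] at this
    exact this
  have a3 : (1 / 4 + 54 / 1000 + 1 / 2) * M ≤ k2 + 1 + bt n := by
    have := hw.a3
    rw [le_sub_iff_add_le, le_div_iff₀ hM] at this
    exact this
  have a4 : k2 + 1 + bt n ≤ (1 / 4 + 55 / 1000 + 1 / 2) * M := by
    have := hw.a4
    rw [sub_le_iff_le_add, div_le_iff₀ hM] at this
    exact this
  have b1 : (149 / 1000 + 1 / 2) * M ≤ l2 + 1 / 2 + bt n := by
    have := hw.b1
    rw [le_sub_iff_add_le, le_div_iff₀ hM] at this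
    exact this
  have b2 : l2 + 1 / 2 + bt n ≤ (150 / 1000 + 1 / 2) * M := by
    have := hw.b2
    rw [sub_le_iff_le_add, div_le_iff₀ hM] at this
    exact this
  have hl : (l1 : ℝ) + l2 + n = M + 1 := by exact_mod_cast hw.hl
  rw [hb] at a1 a2 a3 a4 b1 b2
  refine ⟨?_, ?_, ?_, ?_, ?_, hw.b1, hw.b2⟩
  · have : (k2 : ℝ) + n ≤ M := by linarith only [hbig, hn', a4]
    exact_mod_cast this
  · have : (l2 : ℝ) ≤ k1 := by linarith only [hbig, hn', a1, b2]
    exact_mod_cast this
  · intro k h1 h2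
    have h1' : (k1 : ℝ) ≤ k := by exact_mod_cast h1
    have h2' : (k : ℝ) ≤ k2 := by exact_mod_cast h2
    constructor
    · unfold yk
      rw [hb, abs_le]
      constructor
      · have : (1 / 4 - 55 / 1000 + 1 / 2) ≤ (k + ((n : ℝ) - 1) / 2 + 1 / 2) / M := by
          rw [le_div_iff₀ hM]; linarith only [a1, h1']
        linarith only [this]
      · have : (k + ((n : ℝ) - 1) / 2 + 1 / 2) / M ≤ (1 / 4 + 55 / 1000 + 1 / 2) := by
          rw [div_le_iff₀ hM]; linarith only [a4, h2']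
        linarith only [this]
    · rw [abs_le]
      constructor
      · have : (3 / 4 - 56 / 1000) ≤ (k : ℝ) / M := by
          rw [le_div_iff₀ hM]; linarith only [hbig, hn', a1, h1']
        linarith only [this]
      · have : (k : ℝ) / M ≤ (3 / 4 + 56 / 1000) := by
          rw [div_le_iff₀ hM]; linarith only [hbig, hn', a4, h2']
        linarith only [this]
  · intro k h
    rcases h with h | h
    · have h' : (k : ℝ) + 1 ≤ k1 := by exact_mod_cast h
      have : (k : ℝ) / M ≤ (3 / 4 - 53 / 1000) := by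
        rw [div_le_iff₀ hM]; linarith only [hbig, hn', a2, h']
      rw [abs_of_nonpos (by linarith only [this])]
      linarith only [this]
    · have h' : (k2 : ℝ) + 1 ≤ k := by exact_mod_cast h
      have : (3 / 4 + 53 / 1000) ≤ (k : ℝ) / M := by
        rw [le_div_iff₀ hM]; linarith only [hbig, hn', a3, h']
      rw [abs_of_nonneg (by linarith only [this])]
      linarith only [this]
  · intro l h
    rcases h with h | h
    · have h' : (l : ℝ) + 1 ≤ l1 := by exact_mod_cast h
      have : (l : ℝ) / M ≤ (1 / 2 - 148 / 1000) := by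
        rw [div_le_iff₀ hM]; linarith only [hbig, hn', b1, hl, h']
      rw [abs_of_nonpos (by linarith only [this])]
      linarith only [this]
    · have h' : (l2 : ℝ) + 1 ≤ l := by exact_mod_cast h
      have : (1 / 2 + 148 / 1000) ≤ (l : ℝ) / M := by
        rw [le_div_iff₀ hM]; linarith only [hbig, hn', b1, h']
      rw [abs_of_nonneg (by linarith only [this])]
      linarith only [this]

/-- Windows exist for all large `M`. -/
theorem win_exists (n : ℕ) (hn : 2 ≤ n) : ∃ k1 k2 l1 l2 : ℕ → ℕ,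
    ∀ᶠ M in atTop, Win n M (k1 M) (k2 M) (l1 M) (l2 M) := by
  refine ⟨fun M => ⌈((3 / 4 - 55 / 1000) * M - bt n : ℝ)⌉₊,
    fun M => ⌊((3 / 4 + 55 / 1000) * M - bt n - 1 : ℝ)⌋₊,
    fun M => M + 1 - n - ⌊((1 / 2 + 150 / 1000) * M - bt n - 1 / 2 : ℝ)⌋₊,
    fun M => ⌊((1 / 2 + 150 / 1000) * M - bt n - 1 / 2 : ℝ)⌋₊, ?_⟩
  filter_upwards [eventually_ge_atTop (1000 * (n + 1))] with M hM1
  have hbig : (1000 : ℝ) * (n + 1) ≤ M := by exact_mod_cast hM1
  have hn' : (2 : ℝ) ≤ n := by exact_mod_cast hn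
  have hM : (0 : ℝ) < M := by linarith
  have hb : bt n = ((n : ℝ) - 1) / 2 := rfl
  rw [hb]
  set x1 : ℝ := (3 / 4 - 55 / 1000) * M - ((n : ℝ) - 1) / 2 with hx1
  set x2 : ℝ := (3 / 4 + 55 / 1000) * M - ((n : ℝ) - 1) / 2 - 1 with hx2
  set x3 : ℝ := (1 / 2 + 150 / 1000) * M - ((n : ℝ) - 1) / 2 - 1 / 2 with hx3
  have p1 : 0 ≤ x1 := by rw [hx1]; linarith only [hbig, hn']
  have p2 : 0 ≤ x2 := by rw [hx2]; linarith only [hbig, hn']
  have p3 : 0 ≤ x3 := by rw [hx3]; linarith only [hbig, hn']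
  have c1 : x1 ≤ (⌈x1⌉₊ : ℝ) := Nat.le_ceil x1
  have c2 : (⌈x1⌉₊ : ℝ) < x1 + 1 := Nat.ceil_lt_add_one p1
  have c3 : (⌊x2⌋₊ : ℝ) ≤ x2 := Nat.floor_le p2
  have c4 : x2 < (⌊x2⌋₊ : ℝ) + 1 := Nat.lt_floor_add_one x2
  have c5 : (⌊x3⌋₊ : ℝ) ≤ x3 := Nat.floor_le p3
  have c6 : x3 < (⌊x3⌋₊ : ℝ) + 1 := Nat.lt_floor_add_one x3
  have hle : ⌊x3⌋₊ + n ≤ M + 1 := by
    have : (⌊x3⌋₊ : ℝ) + n ≤ M + 1 := by linarith only [hbig, hn', hx3, c5]
    exact_mod_cast this
  have hbt : bt n = ((n : ℝ) - 1) / 2 := rfl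
  constructor
  · omega
  · have h2 : ((M + 1 : ℕ) : ℝ) ≤ ((⌊x3⌋₊ + ⌊x3⌋₊ + n : ℕ) : ℝ) := by
      push_cast
      linarith only [hbig, hn', hx3, c6]
    have h3 : M + 1 ≤ ⌊x3⌋₊ + ⌊x3⌋₊ + n := by exact_mod_cast h2
    omega
  · have h2 : (⌈x1⌉₊ : ℝ) ≤ (⌊x2⌋₊ : ℝ) := by
      linarith only [hbig, hn', hx1, hx2, c2, c4]
    exact_mod_cast h2
  · rw [hbt, le_sub_iff_add_le, le_div_iff₀ hM]
    linarith only [hx1, c1]
  · rw [hbt, sub_le_iff_le_add, div_le_iff₀ hM]
    linarith only [hbig, hn', hx1, c2]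
  · rw [hbt, le_sub_iff_add_le, le_div_iff₀ hM]
    linarith only [hbig, hn', hx2, c4]
  · rw [hbt, sub_le_iff_le_add, div_le_iff₀ hM]
    linarith only [hx2, c3]
  · rw [hbt, le_sub_iff_add_le, le_div_iff₀ hM]
    linarith only [hbig, hn', hx3, c6]
  · rw [hbt, sub_le_iff_le_add, div_le_iff₀ hM]
    linarith only [hx3, c5]
  · exact hM1

end Pool.Agent.H63.VC3

end

section

/-! # Comparison of `log S` with `Fr` -/

namespace Pool.Agent.H63.VC3

open Pool.Agent.H63.VC Real

private lemma LogS_log2 : 1 / 2 ≤ Real.log 2 := by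
  have := Real.log_two_gt_d9
  linarith only [this]

private lemma LogS_logM {M : ℕ} (hM : 2 ≤ M) : Real.log 2 ≤ Real.log M :=
  Real.log_le_log (by norm_num) (by exact_mod_cast hM)

private lemma LogS_sin_pos {x : ℝ} (h0 : 0 < x) (h1 : x < 1) : 0 < Real.sin (π * x) :=
  Real.sin_pos_of_pos_of_lt_pi (by positivity) (by
    calc π * x < π * 1 := mul_lt_mul_of_pos_left h1 Real.pi_pos
      _ = π := mul_one π)

private lemma LogS_refl (x : ℝ) : Fr (1 - x) = -Fr x := by
  rw [← Fr_neg, ← Fr_add_one (-x)]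
  congr 1
  ring

private lemma LogS_low (x : ℝ) (h0 : 0 ≤ x) (h1 : x ≤ 1 / 2) :
    x * Real.log 4 + x * Real.log x - x ≤ Fr x := by
  have hd : ∀ y : ℝ, 0 < y → y < 1 →
      HasDerivAt (fun y : ℝ => Fr y - (y * Real.log 4 + y * Real.log y - y))
        (Real.log (2 * Real.sin (π * y)) - (Real.log 4 + Real.log y)) y := by
    intro y hy0 hy1
    have h2 : HasDerivAt (fun y : ℝ => y * Real.log 4 + y * Real.log y - y)
        (Real.log 4 + Real.log y) y := by
      have h3 := (((hasDerivAt_id y).mul_const (Real.log 4)).add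
        (Real.hasDerivAt_mul_log hy0.ne')).sub (hasDerivAt_id y)
      refine (h3.congr_deriv (by ring)).congr_of_eventuallyEq ?_
      filter_upwards with z
      rfl
    exact (Fr_hasDerivAt y hy0 hy1).sub h2
  have hm : MonotoneOn (fun y : ℝ => Fr y - (y * Real.log 4 + y * Real.log y - y))
      (Set.Icc 0 (1 / 2)) := by
    apply monotoneOn_of_deriv_nonneg (convex_Icc _ _)
    · apply Continuous.continuousOn
      exact Fr_continuous.sub (((continuous_id.mul continuous_const).add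
        Real.continuous_mul_log).sub continuous_id)
    · intro y hy
      rw [interior_Icc] at hy
      exact (hd y hy.1 (by linarith only [hy, hy.2])).differentiableAt.differentiableWithinAt
    · intro y hy
      rw [interior_Icc] at hy
      rw [(hd y hy.1 (by linarith [hy.2])).deriv, ← Real.log_mul (by norm_num) hy.1.ne']
      have h3 := Real.mul_le_sin (x := π * y) (by have := Real.pi_pos; nlinarith only [this, hy, hy.1])
        (by have := Real.pi_pos; nlinarith only [this, hy, hy.2])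
      have h4 : 2 / π * (π * y) = 2 * y := by
        have := Real.pi_ne_zero
        field_simp
      rw [h4] at h3
      have h5 : Real.log (4 * y) ≤ Real.log (2 * Real.sin (π * y)) :=
        Real.log_le_log (by linarith [hy.1]) (by linarith only [h3])
      linarith only [h5]
  have h2 := hm (a := 0) ⟨le_rfl, by norm_num⟩ (b := x) ⟨h0, h1⟩ h0
  simp only [zero_mul, Fr_zero] at h2
  linarith only [h2]

private lemma LogS_small {M : ℕ} (hM : 2 ≤ M) {l : ℝ} (h0 : 0 ≤ l) (h1 : l ≤ 1 / M) :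
    -(3 * Real.log M) / M ≤ Fr l := by
  have hM0 : (0 : ℝ) < M := by exact_mod_cast (by omega : 0 < M)
  have hM2 : (2 : ℝ) ≤ M := by exact_mod_cast hM
  have hL := LogS_logM hM
  have hL2 := LogS_log2
  rcases h0.eq_or_lt with h | h
  · rw [← h, Fr_zero]
    exact div_nonpos_of_nonpos_of_nonneg (by linarith only [hL, hL2]) hM0.le
  have hl12 : l ≤ 1 / 2 := h1.trans (one_div_le_one_div_of_le (by norm_num) hM2)
  have h2 := LogS_low l h0 hl12
  have h4 : 1 ≤ Real.log 4 := by
    have : Real.log 4 = 2 * Real.log 2 := by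
      rw [show (4 : ℝ) = 2 ^ 2 by norm_num, Real.log_pow]
      norm_num
    linarith only [hL2, this]
  have h5 : 1 - (l * M)⁻¹ ≤ Real.log (l * M) := Real.one_sub_inv_le_log_of_pos (by positivity)
  have h6 : Real.log (l * M) = Real.log l + Real.log M := Real.log_mul h.ne' hM0.ne'
  have h7 : l - 1 / M ≤ l * (Real.log l + Real.log M) := by
    rw [h6] at h5
    have := mul_le_mul_of_nonneg_left h5 h0
    refine le_trans (le_of_eq ?_) this
    field_simp
  have h8 : l * Real.log M ≤ 1 / M * Real.log M :=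
    mul_le_mul_of_nonneg_right h1 (by linarith only [hL, hL2, h, hl12])
  have h9 : l ≤ l * Real.log 4 := by nlinarith only [h0, h4]
  have h10 : 1 / (M : ℝ) ≤ 1 / M * (2 * Real.log M) := by
    apply le_mul_of_one_le_right (by positivity)
    linarith only [hL, hL2]
  have h11 : -(3 * Real.log M) / M = -(1 / M * (2 * Real.log M)) - 1 / M * Real.log M := by
    ring
  rw [h11]
  linarith only [h, h2, h7, h8, h9, h10]

private lemma LogS_conv {a b : ℝ} (h0 : 0 ≤ a) (hab : a ≤ b) (hb : b ≤ 1 / 2) :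
    Fr (b - a) ≤ Fr b - Fr a := by
  have hd : ∀ s : ℝ, 0 < s → s < a →
      HasDerivAt (fun s : ℝ => Fr (s + (b - a)) - Fr s)
        (Real.log (2 * Real.sin (π * (s + (b - a)))) - Real.log (2 * Real.sin (π * s))) s := by
    intro s hs0 hs1
    have h2 := Fr_hasDerivAt (s + (b - a)) (by linarith only [hab, hs0]) (by linarith only [hab, hb, hs0, hs1])
    have h3 : HasDerivAt (fun s : ℝ => Fr (s + (b - a)))
        (Real.log (2 * Real.sin (π * (s + (b - a))))) s := by
      have h4 : HasDerivAt (fun s : ℝ => s + (b - a)) 1 s := (hasDerivAt_id s).add_const _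
      have := h2.comp s h4
      rwa [mul_one] at this
    exact h3.sub (Fr_hasDerivAt s hs0 (by linarith only [hab, hb, hs0, hs1]))
  have hm : MonotoneOn (fun s : ℝ => Fr (s + (b - a)) - Fr s) (Set.Icc 0 a) := by
    apply monotoneOn_of_deriv_nonneg (convex_Icc _ _)
    · apply Continuous.continuousOn
      exact (Fr_continuous.comp (continuous_id.add continuous_const)).sub Fr_continuous
    · intro s hs
      rw [interior_Icc] at hs
      exact (hd s hs.1 hs.2).differentiableAt.differentiableWithinAt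
    · intro s hs
      rw [interior_Icc] at hs
      rw [(hd s hs.1 hs.2).deriv]
      have hp := Real.pi_pos
      have h3 : Real.sin (π * s) ≤ Real.sin (π * (s + (b - a))) := by
        apply Real.sin_le_sin_of_le_of_le_pi_div_two
        · nlinarith only [hp, hs, hs.1]
        · nlinarith only [hb, hp, hs, hs.2]
        · nlinarith only [hab, hp, hs.2]
      have h4 := LogS_sin_pos hs.1 (by linarith [hs.2] : s < 1)
      have := Real.log_le_log (by positivity) (mul_le_mul_of_nonneg_left h3 two_pos.le)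
      linarith only [this]
  have h2 := hm (a := 0) ⟨le_rfl, h0⟩ (b := a) ⟨h0, le_rfl⟩ h0
  simp only [zero_add, Fr_zero, sub_zero] at h2
  have e : a + (b - a) = b := by ring
  rw [e] at h2
  exact h2

private lemma LogS_piece {M : ℕ} (hM : 2 ≤ M) {a b : ℝ} (h0 : 0 ≤ a) (hab : a ≤ b)
    (hb : b ≤ 1 / 2) (hl : b - a ≤ 1 / M) :
    -(3 * Real.log M) / M ≤ Fr b - Fr a ∧ Fr b - Fr a ≤ Real.log M / M := by
  have hM0 : (0 : ℝ) < M := by exact_mod_cast (by omega : 0 < M)
  refine ⟨(LogS_small hM (by linarith only [hab]) hl).trans (LogS_conv h0 hab hb), ?_⟩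
  have h2 := Convex.image_sub_le_mul_sub_of_deriv_le (D := Set.Icc a b)
    (convex_Icc _ _) (f := Fr) Fr_continuous.continuousOn
    (fun x hx => by
      rw [interior_Icc] at hx
      exact (Fr_hasDerivAt x (by linarith only [h0, hx, hx.1])
        (by linarith only [hb, hx, hx.2])).differentiableAt.differentiableWithinAt)
    (C := Real.log M)
    (fun x hx => by
      rw [interior_Icc] at hx
      rw [(Fr_hasDerivAt x (by linarith only [h0, hx, hx.1]) (by linarith only [hb, hx, hx.2])).deriv]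
      have h3 := LogS_sin_pos (x := x) (by linarith only [h0, hx, hx.1]) (by linarith only [hb, hx, hx.2])
      have h4 := Real.sin_le_one (π * x)
      have hM2 : (2 : ℝ) ≤ M := by exact_mod_cast hM
      apply Real.log_le_log (by positivity)
      linarith only [h4, hM2])
    a ⟨le_rfl, hab⟩ b ⟨hab, le_rfl⟩ hab
  have h3 : Real.log M * (b - a) ≤ Real.log M * (1 / M) :=
    mul_le_mul_of_nonneg_left hl (by linarith only [hM, LogS_logM hM, LogS_log2])
  have h4 : Real.log M * (1 / M) = Real.log M / M := by ring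
  linarith only [h2, h3, h4]

private lemma LogS_piece' {M : ℕ} (hM : 2 ≤ M) {a b : ℝ} (h0 : 1 / 2 ≤ a) (hab : a ≤ b)
    (hb : b ≤ 1) (hl : b - a ≤ 1 / M) :
    -(3 * Real.log M) / M ≤ Fr b - Fr a ∧ Fr b - Fr a ≤ Real.log M / M := by
  have h := LogS_piece hM (a := 1 - b) (b := 1 - a) (by linarith only [hb]) (by linarith only [hab]) (by linarith only [h0])
    (by linarith only [hl])
  rw [LogS_refl, LogS_refl] at h
  constructor
  · linarith only [h, h.1]
  · linarith only [h, h.2]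

private lemma LogS_step {M : ℕ} (hM : 2 ≤ M) (x : ℝ) :
    |M * Fr (x + 1 / M) - M * Fr x| ≤ 6 * Real.log M := by
  have hM0 : (0 : ℝ) < M := by exact_mod_cast (by omega : 0 < M)
  have hM2 : (2 : ℝ) ≤ M := by exact_mod_cast hM
  have hL := LogS_logM hM
  have hL2 := LogS_log2
  have hh : 1 / (M : ℝ) ≤ 1 / 2 := one_div_le_one_div_of_le (by norm_num) hM2
  have hh0 : 0 < 1 / (M : ℝ) := by positivity
  have hper : Function.Periodic (fun x : ℝ => M * Fr (x + 1 / M) - M * Fr x) 1 := by
    intro x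
    have e : x + 1 + 1 / (M : ℝ) = x + 1 / M + 1 := by ring
    simp only
    rw [e, Fr_add_one, Fr_add_one]
  obtain ⟨y, hy, hxy⟩ := hper.exists_mem_Ico₀ one_pos x
  rw [show M * Fr (x + 1 / M) - M * Fr x = M * Fr (y + 1 / M) - M * Fr y from hxy]
  have key : ∀ d : ℝ, -(3 * Real.log M) / M ≤ d ∧ d ≤ Real.log M / M →
      -(3 * Real.log M) ≤ M * d ∧ M * d ≤ Real.log M := by
    rintro d ⟨h1, h2⟩
    rw [div_le_iff₀ hM0] at h1
    rw [le_div_iff₀ hM0] at h2
    constructor <;> linarith only [h1, h2]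
  rw [← mul_sub, abs_le]
  rcases le_or_gt (1 / 2) y with h | h
  · rcases le_or_gt (y + 1 / M) 1 with h' | h'
    · have h1 := key _ (LogS_piece' hM h (by linarith only [hh0]) h' (by linarith only))
      constructor <;> linarith only [hL, hL2, hh, hh0, h1, h1.1, h1.2]
    · have h1 := key _ (LogS_piece' hM h hy.2.le le_rfl (by linarith only [h']))
      have h2 := key _ (LogS_piece hM (a := 0) (b := y + 1 / M - 1) le_rfl (by linarith only [h'])
        (by linarith only [hh, hy, hy.2]) (by linarith only [hy, hy.2]))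
      have e1 : Fr (y + 1 / M - 1) = Fr (y + 1 / M) := by
        rw [← Fr_add_one (y + 1 / M - 1)]
        congr 1
        ring
      have e2 : Fr 1 = 0 := by
        have := Fr_add_one 0
        rw [zero_add, Fr_zero] at this
        exact this
      rw [e1, Fr_zero, sub_zero] at h2
      rw [e2, zero_sub] at h1
      constructor <;> nlinarith only [h1, h2, hL, hL2, hh, hh0, h1.1, h1.2, h2.1, h2.2]
  · rcases le_or_gt (y + 1 / M) (1 / 2) with h' | h'
    · have h1 := key _ (LogS_piece hM hy.1 (by linarith only [hh0]) h' (by linarith only))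
      constructor <;> linarith only [hL, hL2, hh, hh0, h1, h1.1, h1.2]
    · have h1 := key _ (LogS_piece hM hy.1 h.le le_rfl (by linarith only [h']))
      have h2 := key _ (LogS_piece' hM (a := 1 / 2) (b := y + 1 / M) le_rfl h'.le
        (by linarith only [hh, h]) (by linarith only [h]))
      rw [Fr_half] at h1 h2
      constructor <;> nlinarith only [h1, h2, hL, hL2, hh, hh0, h1.1, h1.2, h2.1, h2.2]

/-- `Fr` has modulus of continuity `h log (1/h)`. -/
private lemma LogS_shift (n : ℕ) {M : ℕ} (hM : 2 ≤ M) (x : ℝ) : ∀ j : ℕ, j ≤ n →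
    |M * Fr (x + j / M) - M * Fr x| ≤ (6 * j) * Real.log M := by
  intro j
  induction j with
  | zero =>
    intro _
    simp
  | succ j ih =>
    intro hj
    have h1 := ih (by omega)
    have h2 := LogS_step hM (x + j / M)
    have e : x + ((j + 1 : ℕ) : ℝ) / M = x + j / M + 1 / M := by
      push_cast
      ring
    rw [e]
    have h3 : M * Fr (x + j / M + 1 / M) - M * Fr x =
        (M * Fr (x + j / M + 1 / M) - M * Fr (x + j / M)) + (M * Fr (x + j / M) - M * Fr x) := by
      ring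
    rw [h3]
    refine (abs_add_le _ _).trans ?_
    push_cast
    linarith only [h1, h2]

private lemma LogS_sg (M m : ℕ) : sg M m = 2 * Real.sin (π * ((m : ℝ) / M)) := by
  unfold sg
  rw [mul_div_assoc]

private lemma LogS_g_abs {M m : ℕ} (h1 : 1 ≤ m) (h2 : m < M) :
    |Real.log (sg M m)| ≤ Real.log M := by
  have hM0 : (0 : ℝ) < M := by exact_mod_cast (by omega : 0 < M)
  have hM2 : (2 : ℝ) ≤ M := by exact_mod_cast (by omega : 2 ≤ M)
  rw [abs_le]
  constructor
  · rw [← Real.log_inv, ← one_div]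
    exact Real.log_le_log (by positivity) (sg_ge h1 h2)
  · exact Real.log_le_log (sg_pos h1 h2) ((sg_le_two M m).trans hM2)

private lemma LogS_cell {M m : ℕ} (h1 : 1 ≤ m) (h2 : 2 * (m + 1) ≤ M) :
    Real.log (sg M m) ≤ M * (Fr (((m + 1 : ℕ) : ℝ) / M) - Fr ((m : ℝ) / M)) ∧
      M * (Fr (((m + 1 : ℕ) : ℝ) / M) - Fr ((m : ℝ) / M)) ≤ Real.log (sg M (m + 1)) := by
  have hM0 : (0 : ℝ) < M := by exact_mod_cast (by omega : 0 < M)
  have hm0 : (0 : ℝ) < (m : ℝ) / M := div_pos (by exact_mod_cast h1) hM0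
  have hm1 : ((m + 1 : ℕ) : ℝ) / M ≤ 1 / 2 := by
    rw [div_le_iff₀ hM0]
    have : ((2 * (m + 1) : ℕ) : ℝ) ≤ M := by exact_mod_cast h2
    push_cast at this ⊢
    linarith only [this]
  have hlt : (m : ℝ) / M < ((m + 1 : ℕ) : ℝ) / M := by
    apply div_lt_div_of_pos_right _ hM0
    push_cast
    linarith only
  obtain ⟨ξ, hξ, hs⟩ := exists_hasDerivAt_eq_slope Fr
    (fun x => Real.log (2 * Real.sin (π * x))) hlt Fr_continuous.continuousOn
    (fun x hx => Fr_hasDerivAt x (by linarith only [hm0, hx, hx.1]) (by linarith only [hm0, hm1, hlt, hx, hx.2]))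
  have e : ((m + 1 : ℕ) : ℝ) / M - (m : ℝ) / M = 1 / M := by
    push_cast
    ring
  rw [e] at hs
  have hs' : M * (Fr (((m + 1 : ℕ) : ℝ) / M) - Fr ((m : ℝ) / M)) =
      Real.log (2 * Real.sin (π * ξ)) := by
    rw [hs]
    field_simp
  rw [hs', LogS_sg, LogS_sg]
  have hp := Real.pi_pos
  constructor
  · apply Real.log_le_log
    · have := LogS_sin_pos hm0 (by linarith only [hm0, hm1, hlt])
      positivity
    · apply mul_le_mul_of_nonneg_left _ two_pos.le
      apply Real.sin_le_sin_of_le_of_le_pi_div_two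
      · nlinarith only [hp, hm0]
      · nlinarith only [hm0, hm1, hp, hlt, hξ, hξ.2]
      · nlinarith only [hm0, hm1, hlt, hp, hξ, hξ.1]
  · apply Real.log_le_log
    · have := LogS_sin_pos (x := ξ) (by linarith only [hm0, hξ, hξ.1]) (by linarith only [hm0, hm1, hlt, hξ, hξ.2])
      positivity
    · apply mul_le_mul_of_nonneg_left _ two_pos.le
      apply Real.sin_le_sin_of_le_of_le_pi_div_two
      · nlinarith only [hm0, hp, hm1, hlt, hξ, hξ.1]
      · nlinarith only [hm1, hp]
      · nlinarith only [hm0, hm1, hlt, hp, hξ, hξ.2]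

private lemma LogS_first {M : ℕ} (hM : 2 ≤ M) :
    |Real.log (S M 1) - M * Fr ((1 : ℕ) / M)| ≤ 4 * Real.log M := by
  have hM0 : (0 : ℝ) < M := by exact_mod_cast (by omega : 0 < M)
  have hM2 : (2 : ℝ) ≤ M := by exact_mod_cast hM
  have h1 : S M 1 = sg M 1 := by
    unfold S
    simp
  have h2 := abs_le.1 (LogS_g_abs (M := M) (m := 1) le_rfl (by omega))
  have h3 := LogS_small hM (l := ((1 : ℕ) : ℝ) / M) (by positivity) (by simp)
  have h4 := Fr_nonpos (((1 : ℕ) : ℝ) / M) (by positivity) (by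
    rw [Nat.cast_one]
    exact one_div_le_one_div_of_le (by norm_num) hM2)
  have h5 : -(3 * Real.log M) ≤ M * Fr (((1 : ℕ) : ℝ) / M) := by
    rw [div_le_iff₀ hM0] at h3
    linarith only [h3]
  have h6 : M * Fr (((1 : ℕ) : ℝ) / M) ≤ 0 := mul_nonpos_of_nonneg_of_nonpos hM0.le h4
  rw [h1, abs_le]
  constructor <;> linarith only [h2, h6, h5, h2.1, h2.2]

private lemma LogS_half {M : ℕ} (hM : 2 ≤ M) (k : ℕ) (hk : 1 ≤ k) (hk2 : 2 * k ≤ M) :
    |Real.log (S M k) - M * Fr (k / M)| ≤ 6 * Real.log M := by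
  have h1 := abs_le.1 (LogS_first hM)
  have key : ∀ k : ℕ, 1 ≤ k → 2 * k ≤ M →
      Real.log (S M 1) - M * Fr ((1 : ℕ) / M) ≤ Real.log (S M k) - M * Fr (k / M) ∧
      Real.log (S M k) - M * Fr (k / M) ≤ Real.log (S M 1) - M * Fr ((1 : ℕ) / M) +
        (Real.log (sg M k) - Real.log (sg M 1)) := by
    intro k hk
    induction k, hk using Nat.le_induction with
    | base => intro _; simp
    | succ k hk ih =>
      intro hk2
      obtain ⟨i1, i2⟩ := ih (by omega)
      obtain ⟨c1, c2⟩ := LogS_cell hk hk2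
      have hS : Real.log (S M (k + 1)) = Real.log (S M k) + Real.log (sg M (k + 1)) := by
        rw [S_succ, Real.log_mul (S_pos (by omega)).ne' (sg_pos (by omega) (by omega)).ne']
      rw [mul_sub] at c1 c2
      rw [hS]
      constructor <;> linarith only [i1, c2, i2, c1]
  obtain ⟨k1, k2⟩ := key k hk hk2
  have h2 := abs_le.1 (LogS_g_abs (M := M) (m := 1) le_rfl (by omega))
  have h3 : Real.log (sg M k) ≤ Real.log M :=
    (le_abs_self _).trans (LogS_g_abs (M := M) (m := k) hk (by omega))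
  rw [abs_le]
  constructor <;> linarith only [h1, k1, k2, h2, h3, h1.1, h1.2, h2.1, h2.2]

/-- Uniform comparison of `log S` with `Fr`. -/
theorem log_S_bound : ∃ C : ℝ, 0 < C ∧ ∀ M k : ℕ, 2 ≤ M → k < M →
    |Real.log (S M k) - M * Fr (k / M)| ≤ C * Real.log M := by
  refine ⟨8, by norm_num, fun M k hM hk => ?_⟩
  have hM0 : (0 : ℝ) < M := by exact_mod_cast (by omega : 0 < M)
  have hL : 0 ≤ Real.log M := by linarith only [hM, LogS_logM hM, LogS_log2]
  rcases Nat.eq_zero_or_pos k with rfl | hk0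
  · have : S M 0 = 1 := by
      unfold S
      simp
    rw [this]
    simp [Fr_zero, hL]
  rcases le_or_gt (2 * k) M with h | h
  · exact (LogS_half hM k hk0 h).trans (by linarith only [hL])
  · have h1 := abs_le.1 (LogS_half hM (M - k) (by omega) (by omega))
    have h2 := S_mul (M := M) (k := k) hk
    have h3 : S M (M - k) = S M (M - 1 - k) * sg M (M - k) := by
      have e : M - k = (M - 1 - k) + 1 := by omega
      rw [e, S_succ]
    have hp1 : 0 < S M (M - 1 - k) := S_pos (by omega)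
    have hp2 : 0 < sg M (M - k) := sg_pos (by omega) (by omega)
    have h4 : Real.log (S M k) = Real.log M - Real.log (S M (M - 1 - k)) := by
      rw [← h2, Real.log_mul (S_pos hk).ne' hp1.ne']
      ring
    have h5 : Real.log (S M (M - k)) = Real.log (S M (M - 1 - k)) + Real.log (sg M (M - k)) := by
      rw [h3, Real.log_mul hp1.ne' hp2.ne']
    have h6 : Fr (((M - k : ℕ) : ℝ) / M) = -Fr ((k : ℝ) / M) := by
      rw [← LogS_refl]
      congr 1
      rw [Nat.cast_sub hk.le]
      field_simp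
    have h7 := abs_le.1 (LogS_g_abs (M := M) (m := M - k) (by omega) (by omega))
    rw [h6, h5] at h1
    rw [h4, abs_le]
    constructor <;> linarith only [hL, h1, h7, h1.1, h1.2, h7.1, h7.2]

/-- `Fr` has modulus of continuity `h log (1/h)`. -/
theorem Fr_shift : ∀ n : ℕ, ∃ C : ℝ, 0 < C ∧ ∀ M : ℕ, 2 ≤ M → ∀ x : ℝ, ∀ j : ℕ, j ≤ n →
    |M * Fr (x + j / M) - M * Fr x| ≤ C * Real.log M := by
  intro n
  refine ⟨6 * n + 1, by positivity, fun M hM x j hj => ?_⟩
  refine (LogS_shift n hM x j hj).trans ?_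
  have hL : 0 ≤ Real.log M := by linarith only [hM, LogS_logM hM, LogS_log2]
  apply mul_le_mul_of_nonneg_right _ hL
  have : (j : ℝ) ≤ n := by exact_mod_cast hj
  linarith only [this]

end Pool.Agent.H63.VC3

end

section

/-! # From the `l`-sum to the flat contour -/

namespace Pool.Agent.H63.VC3

open Pool.Agent.H63.VC Complex

/-- Comparison of `Fr` at the two points. -/
theorem StepPP_Fr (a b : ℝ) (ha : 69 / 100 ≤ a) (ha' : a ≤ 82 / 100) (hb : 69 / 100 ≤ b)
    (hb' : b ≤ 82 / 100) : |Fr a - Fr b| ≤ |a - b| := by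
  have hd : ∀ x ∈ Set.Icc (69 / 100 : ℝ) (82 / 100), HasDerivWithinAt Fr
      (Real.log (2 * Real.sin (Real.pi * x))) (Set.Icc (69 / 100 : ℝ) (82 / 100)) x := by
    intro x hx
    exact (Fr_hasDerivAt x (by linarith [hx.1]) (by linarith [hx.2])).hasDerivWithinAt
  have hbd : ∀ x ∈ Set.Icc (69 / 100 : ℝ) (82 / 100),
      ‖Real.log (2 * Real.sin (Real.pi * x))‖ ≤ 1 := by
    intro x hx
    have hpi := Real.pi_pos
    have h1 : 2 / Real.pi * (Real.pi * (1 - x)) ≤ Real.sin (Real.pi * (1 - x)) := by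
      apply Real.mul_le_sin
      · have : 0 ≤ 1 - x := by linarith [hx.2]
        positivity
      · nlinarith [hx.1]
    have h2 : Real.sin (Real.pi * (1 - x)) = Real.sin (Real.pi * x) := by
      rw [show Real.pi * (1 - x) = Real.pi - Real.pi * x by ring, Real.sin_pi_sub]
    have h3 : 2 / Real.pi * (Real.pi * (1 - x)) = 2 * (1 - x) := by field_simp
    rw [h2, h3] at h1
    have h4 : (72 / 100 : ℝ) ≤ 2 * Real.sin (Real.pi * x) := by linarith [hx.2]
    have h5 : 2 * Real.sin (Real.pi * x) ≤ 2 := by linarith [Real.sin_le_one (Real.pi * x)]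
    rw [Real.norm_eq_abs, abs_le]
    constructor
    · rw [Real.le_log_iff_exp_le (by linarith)]
      have h6 : Real.exp (-1) < 0.3678794412 := Real.exp_neg_one_lt_d9
      linarith
    · rw [Real.log_le_iff_le_exp (by linarith)]
      have h6 : 2.7182818283 < Real.exp 1 := Real.exp_one_gt_d9
      linarith
  have h := Convex.norm_image_sub_le_of_norm_hasDerivWithin_le (x := b) (y := a) hd hbd
    (convex_Icc _ _) ⟨hb, hb'⟩ ⟨ha, ha'⟩
  simpa [Real.norm_eq_abs] using h

end Pool.Agent.H63.VC3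

end
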