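import Pool.Agent.H94.PA.M08
import Pool.Agent.H94.PA.M11
import Pool.Agent.H94.PA.M13
import Pool.Agent.H94.PA.M21

/-! The parts of this file: H63.VC6.ConcN, H63.VC7.GNan, H63.VC6.EsB. -/

section

/-! # Concavity -/

namespace Pool.Agent.H63.VC6

open Pool.Agent.H63.VC
open Pool.Agent.H63.VC4 Pool.Agent.H63.VC3 Complex
open scoped BigOperators

theorem ConcN_re (s t : ℝ) : ((s : ℂ) + t * I).re = s := by simp

theorem ConcN_im (s t : ℝ) : ((s : ℂ) + t * I).im = t := by simp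

theorem ConcN_slot (y v : ℂ) (x a : ℝ) (h1 : |y.re - 1 / 4| ≤ 6 / 1000)
    (h2 : |y.im| ≤ 6 / 1000) (h3 : |v.re| ≤ 53 / 1000) (h4 : v.im ≤ 3 / 1000) (h5 : 0 < v.im)
    (hx : |x - 1 / 4| ≤ 55 / 1000) (ha : |a| ≤ 15 / 100) :
    (po (some ((x : ℂ) + y.im * I)) (a + v.im * I)).re ≤ (po (some y) v).re +
      (a - v.re) * (dpo (some y) v).re - (x - y.re) * (hh (y - v) + hh (y + v)).re -
      1 / 5 * (a - v.re) ^ 2 := by
  obtain ⟨l1a, l1b⟩ := abs_le.1 h1
  obtain ⟨l2a, l2b⟩ := abs_le.1 h2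
  obtain ⟨l3a, l3b⟩ := abs_le.1 h3
  obtain ⟨hxa, hxb⟩ := abs_le.1 hx
  obtain ⟨haa, hab⟩ := abs_le.1 ha
  have c1 := ff_horiz_left (y - v) ((x - y.re) - (a - v.re)) (by rw [sub_re]; linarith)
    (by rw [sub_re]; linarith) (by rw [sub_re]; linarith) (by rw [sub_re]; linarith)
    (by rw [sub_im, abs_le]; constructor <;> linarith)
  have c2 := ff_horiz_left (y + v) ((x - y.re) + (a - v.re)) (by rw [add_re]; linarith)
    (by rw [add_re]; linarith) (by rw [add_re]; linarith) (by rw [add_re]; linarith)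
    (by rw [add_im, abs_le]; constructor <;> linarith)
  have ey : y = (y.re : ℂ) + y.im * I := (re_add_im y).symm
  have ev : v = (v.re : ℂ) + v.im * I := (re_add_im v).symm
  have e1 : y - v + ((x - y.re - (a - v.re) : ℝ) : ℂ) = x + y.im * I - (a + v.im * I) := by
    push_cast
    linear_combination ey - ev
  have e2 : y + v + ((x - y.re + (a - v.re) : ℝ) : ℂ) = x + y.im * I + (a + v.im * I) := by
    push_cast
    linear_combination ey + ev
  rw [e1] at c1
  rw [e2] at c2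
  simp only [po, dpo, sub_re, add_re, neg_re]
  have hsq : 0 ≤ (x - y.re) ^ 2 := sq_nonneg _
  linarith

theorem ConcN_vertex (y : ℂ) (x : ℝ) (h1 : |y.re - 1 / 4| ≤ 6 / 1000)
    (h2 : |y.im| ≤ 6 / 1000) (hx : |x - 1 / 4| ≤ 55 / 1000) :
    (4 * ff ((x : ℂ) + y.im * I + 1 / 2)).re ≤ (4 * ff (y + 1 / 2)).re +
      (x - y.re) * (4 * hh (y + 1 / 2)).re - 1 / 10 * (x - y.re) ^ 2 := by
  obtain ⟨l1a, l1b⟩ := abs_le.1 h1
  obtain ⟨l2a, l2b⟩ := abs_le.1 h2
  obtain ⟨hxa, hxb⟩ := abs_le.1 hx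
  have eh : (1 / 2 : ℂ) = ((1 / 2 : ℝ) : ℂ) := by push_cast; rfl
  have rh : (y + 1 / 2).re = y.re + 1 / 2 := by rw [eh, add_re, ofReal_re]
  have ih : (y + 1 / 2).im = y.im := by rw [eh, add_im, ofReal_im, add_zero]
  have c0 := ff_horiz_right (y + 1 / 2) (x - y.re) (by rw [rh]; linarith) (by rw [rh]; linarith)
    (by rw [rh]; linarith) (by rw [rh]; linarith) (by rw [ih, abs_le]; constructor <;> linarith)
  have ey : y = (y.re : ℂ) + y.im * I := (re_add_im y).symm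
  have e0 : y + 1 / 2 + ((x - y.re : ℝ) : ℂ) = x + y.im * I + 1 / 2 := by
    push_cast
    linear_combination ey
  rw [e0] at c0
  have r4 : ∀ z : ℂ, (4 * z).re = 4 * z.re := fun z => by
    simp only [mul_re, re_ofNat, im_ofNat, zero_mul, sub_zero]
  rw [r4, r4, r4]
  have hsq : 0 ≤ (x - y.re) ^ 2 := sq_nonneg _
  linarith

end Pool.Agent.H63.VC6

end

section

/-! # Regularity and bounds of the integrand -/

namespace Pool.Agent.H63.VC7

open Pool.Agent.H63.VC
open Pool.Agent.H63.VC3 Pool.Agent.H63.VC4 Complex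

variable {m p : ℕ}

theorem GNan_okS {y v : ℂ} (hy : |y.re - 1 / 4| ≤ 55 / 1000) (hv : |v.re| ≤ 15 / 100) :
    okS v (some y) := by
  intro y' hy'
  obtain rfl : y = y' := Option.some.inj hy'
  have h1 := abs_le.1 hy
  have h2 := abs_le.1 hv
  rw [Complex.sub_re, Complex.add_re]
  refine ⟨?_, ?_, ?_, ?_⟩ <;> linarith [h1.1, h1.2, h2.1, h2.2]

theorem GNan_re {y : ℂ} (hy : |y.re - 1 / 4| ≤ 55 / 1000) : 1 / 10 ≤ y.re ∧ y.re ≤ 4 / 10 := by
  have h1 := abs_le.1 hy
  constructor <;> linarith [h1.1, h1.2]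

theorem KG_continuousAt (r : ℝ) (M : ℕ) (hM : 0 < M) (A : Finset (Fin m)) (y : Fin m → ℂ) (v : ℂ)
    (hok : ∀ j ∈ A, okS v (some (y j))) :
    ContinuousAt (fun z : (Fin m → ℂ) × ℂ => KG r M A z.1 z.2) (y, v) := by
  unfold KG
  refine ContinuousAt.mul (by fun_prop) ?_
  refine tendsto_finsetProd _ fun j hj => ?_
  have h1 := KAnN_Qo_continuousAt 2 M hM (y j) v (hok j hj)
  have h2 : ContinuousAt (fun z : (Fin m → ℂ) × ℂ => (z.1 j, z.2)) (y, v) := by fun_prop
  exact ContinuousAt.comp (f := fun z : (Fin m → ℂ) × ℂ => (z.1 j, z.2))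
    (g := fun z : ℂ × ℂ => Qo 2 M (some z.1) z.2) (x := (y, v)) h1 h2

theorem GN_continuousAt (s t : Fin m → Fin p) (r : Fin p → ℝ) (M : ℕ) (hM : 3000 ≤ M)
    (B : Finset (Fin p)) (E : Finset (Fin m)) (y : Fin m → ℂ) (v : Fin p → ℂ)
    (hy : ∀ j, |(y j).re - 1 / 4| ≤ 55 / 1000) (hv : ∀ i, |(v i).re| ≤ 15 / 100)
    (hw : ∀ i, ww 2 M (v i) ≠ 1) :
    ContinuousAt (fun z : (Fin m → ℂ) × (Fin p → ℂ) => GN s t r M B E z.1 z.2) (y, v) := by
  have hM0 : 0 < M := by omega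
  unfold GN
  refine ContinuousAt.mul ?_ ?_
  · refine tendsto_finsetProd _ fun j _ => ?_
    have h1 := (Cc_differentiableAt 2 1 M le_rfl le_rfl (by omega) (y j) (GNan_re (hy j)).1
      (GNan_re (hy j)).2).continuousAt
    have h2 : ContinuousAt (fun z : (Fin m → ℂ) × (Fin p → ℂ) => z.1 j) (y, v) := by
      fun_prop
    exact ContinuousAt.comp (f := fun z : (Fin m → ℂ) × (Fin p → ℂ) => z.1 j)
      (g := Cc 2 1 M) (x := (y, v)) h1 h2
  · refine tendsto_finsetProd _ fun i _ => ?_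
    have h1 := KG_continuousAt (r i) M hM0 (inc s t i) y (v i)
      (fun j _ => GNan_okS (hy j) (hv i))
    have h2 : ContinuousAt (fun z : (Fin m → ℂ) × (Fin p → ℂ) => (z.1, z.2 i)) (y, v) := by
      fun_prop
    have h3 : ContinuousAt (fun z : (Fin m → ℂ) × (Fin p → ℂ) => om 2 M (z.2 i)) (y, v) :=
      ContinuousAt.comp (f := fun z : (Fin m → ℂ) × (Fin p → ℂ) => z.2 i)
        (g := om 2 M) (x := (y, v)) (om_continuousAt 2 M (v i) (hw i)) (by fun_prop)
    have h4 : ContinuousAt (fun z : (Fin m → ℂ) × (Fin p → ℂ) =>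
        KG (r i) M (inc s t i) z.1 (z.2 i)) (y, v) :=
      ContinuousAt.comp (f := fun z : (Fin m → ℂ) × (Fin p → ℂ) => (z.1, z.2 i))
        (g := fun z : (Fin m → ℂ) × ℂ => KG (r i) M (inc s t i) z.1 z.2) (x := (y, v)) h1 h2
    exact h4.mul h3

theorem GN_update_differentiable (s t : Fin m → Fin p) (r : Fin p → ℝ) (M : ℕ) (hM : 3000 ≤ M)
    (B : Finset (Fin p)) (E : Finset (Fin m)) (y : Fin m → ℂ) (v : Fin p → ℂ) (j : Fin m)
    (hy : ∀ j, |(y j).re - 1 / 4| ≤ 55 / 1000) (hv : ∀ i, |(v i).re| ≤ 15 / 100) :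
    DifferentiableAt ℂ (fun w => GN s t r M B E (Function.update y j w) v) (y j) := by
  have hM0 : 0 < M := by omega
  unfold GN
  refine DifferentiableAt.mul ?_ ?_
  · refine DifferentiableAt.fun_finsetProd fun i _ => ?_
    by_cases hij : i = j
    · subst hij
      simp only [Function.update_self]
      exact Cc_differentiableAt 2 1 M le_rfl le_rfl (by omega) _ (GNan_re (hy i)).1
        (GNan_re (hy i)).2
    · simp only [Function.update_of_ne hij]
      exact differentiableAt_const _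
  · refine DifferentiableAt.fun_finsetProd fun i _ => ?_
    refine DifferentiableAt.mul ?_ (differentiableAt_const _)
    unfold KG
    refine DifferentiableAt.mul (differentiableAt_const _) ?_
    refine DifferentiableAt.fun_finsetProd fun l _ => ?_
    by_cases hlj : l = j
    · subst hlj
      simp only [Function.update_self]
      exact KAnN_Qo_differentiable_y 2 M hM0 (y l) (v i) (GNan_okS (hy l) (hv i))
    · simp only [Function.update_of_ne hlj]
      exact differentiableAt_const _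

end Pool.Agent.H63.VC7

end

section

/-! # The weight of a real vertex -/

namespace Pool.Agent.H63.VC6

open Pool.Agent.H63.VC
open Pool.Agent.H63.VC3 Pool.Agent.H63.VC4 Complex
open scoped BigOperators

theorem es_bound (n : ℕ) (hn : 2 ≤ n) : ∃ C : ℝ, 0 < C ∧ ∃ D : ℕ, ∀ M k : ℕ,
    1000 * (n + 1) ≤ M → |yk n M k - 1 / 4| ≤ 55 / 1000 →
    es M (some k) ≤ C * (M : ℝ) ^ D * Real.exp (M * vs (some ((yk n M k : ℝ) : ℂ))) := by
  obtain ⟨C2, hC2, hS⟩ := log_S_bound
  refine ⟨Real.exp n, Real.exp_pos _, ⌈2 * C2⌉₊, fun M k hMbig f8 => ?_⟩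
  rw [abs_le] at f8
  have hMpos : 0 < M := by omega
  have hM0 : (0 : ℝ) < M := by exact_mod_cast hMpos
  have hM1 : (1 : ℝ) ≤ M := by exact_mod_cast hMpos
  have hMr : (1000 * (n + 1) : ℝ) ≤ M := by exact_mod_cast hMbig
  have hnr : (2 : ℝ) ≤ n := by exact_mod_cast hn
  set y : ℝ := yk n M k with hy
  have hyk : y + 1 / 2 = (k : ℝ) / M + (n / 2) / M := by
    rw [hy]; unfold yk bt; field_simp; ring
  have hnM : (n : ℝ) / 2 / M ≤ 1 / 1000 := by
    rw [div_div, div_le_div_iff₀ (by positivity) (by norm_num)]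
    linarith only [hMr, hnr]
  have hnM0 : 0 ≤ (n : ℝ) / 2 / M := by positivity
  have hk1 : (k : ℝ) / M ≤ 82 / 100 := by linarith only [f8, hyk, hnM0, f8.2]
  have hk0 : 69 / 100 ≤ (k : ℝ) / M := by linarith only [f8, hyk, hnM, f8.1]
  have hkM : k < M := by
    have h1 : (k : ℝ) < M := by
      rw [div_le_iff₀ hM0] at hk1
      linarith only [hMr, hnr, hk1]
    exact_mod_cast h1
  have hSpos := S_pos hkM
  have hlog := hS M k (by omega) hkM
  rw [abs_le] at hlog
  have hlogM : 0 ≤ Real.log M := Real.log_nonneg hM1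
  have hFr : M * Fr (k / M) ≤ M * Fr (y + 1 / 2) + n / 2 := by
    have h1 := StepPP_Fr ((k : ℝ) / M) (y + 1 / 2) hk0 hk1 (by linarith only [f8, f8.1])
      (by linarith only [f8, f8.2])
    have h2 : |(k : ℝ) / M - (y + 1 / 2)| = (n / 2) / M := by
      rw [hyk, show (k : ℝ) / M - ((k : ℝ) / M + (n / 2) / M) = -((n / 2) / M) by ring, abs_neg,
        abs_of_nonneg hnM0]
    rw [h2] at h1
    have h3 : Fr ((k : ℝ) / M) ≤ Fr (y + 1 / 2) + (n / 2) / M := by
      have := (abs_le.mp h1).2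
      linarith only [this]
    calc (M : ℝ) * Fr (k / M) ≤ M * (Fr (y + 1 / 2) + (n / 2) / M) := by gcongr
      _ = M * Fr (y + 1 / 2) + n / 2 := by field_simp
  have h1 : Real.log (S M k) ≤ M * Fr (y + 1 / 2) + n / 2 + C2 * Real.log M := by linarith only [hlog, hFr]
  have h2 : S M k ^ 2 = Real.exp (2 * Real.log (S M k)) := by
    rw [two_mul, Real.exp_add, Real.exp_log hSpos]; ring
  have hvs : vs (some ((y : ℝ) : ℂ)) = 2 * Fr (y + 1 / 2) := by
    show (2 * ff ((y : ℂ) + 1 / 2)).re = _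
    have e : ((y : ℂ) + 1 / 2) = ((y + 1 / 2 : ℝ) : ℂ) := by push_cast; rfl
    rw [e, ff_real (y + 1 / 2) (by linarith only [f8, f8.1]) (by linarith only [f8, f8.2])]
    simp
  rw [hvs]
  show S M k ^ 2 ≤ _
  rw [h2]
  calc Real.exp (2 * Real.log (S M k))
      ≤ Real.exp (Real.log M * ⌈2 * C2⌉₊ + (n + M * (2 * Fr (y + 1 / 2)))) := by
        apply Real.exp_le_exp.mpr
        have h3 : 2 * C2 ≤ ⌈2 * C2⌉₊ := Nat.le_ceil _
        have h4 : Real.log M * (2 * C2) ≤ Real.log M * ⌈2 * C2⌉₊ :=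
          mul_le_mul_of_nonneg_left h3 hlogM
        linarith only [hlog, hFr, h4]
    _ = _ := by
        rw [Real.exp_add, Real.exp_add, Real.exp_mul, Real.exp_log hM0, Real.rpow_natCast]
        ring

end Pool.Agent.H63.VC6

end
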