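import Pool.Agent.H94.PA.M08
import Pool.Agent.H94.PA.M17

/-! The parts of this file: H63.VC6.Piece1D, H63.VC6.ItP, H63.VC6.Multi, H63.VC7.MixG. -/

section

/-! # A sum as a sum of integrals -/

namespace Pool.Agent.H63.VC6

open Pool.Agent.H63.VC
open Pool.Agent.H63.VC3 Complex
open scoped BigOperators

theorem Piece1D_exp (x t : ℝ) :
    exp (2 * Real.pi * I * ((x : ℂ) + t * I)) =
      exp (2 * Real.pi * I * x) * ((Real.exp (-(2 * Real.pi * t)) : ℝ) : ℂ) := by
  rw [Complex.ofReal_exp, ← Complex.exp_add]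
  congr 1
  push_cast
  linear_combination (2 * Real.pi * t) * Complex.I_sq

theorem Piece1D_norm_exp (z : ℂ) :
    ‖exp (2 * Real.pi * I * z)‖ = Real.exp (-(2 * Real.pi * z.im)) := by
  rw [Complex.norm_exp]
  congr 1
  simp

theorem Piece1D_neg_half : exp (2 * Real.pi * I * ((-(1 / 2) : ℝ) : ℂ)) = -1 := by
  have : (2 * Real.pi * I * ((-(1 / 2) : ℝ) : ℂ)) = -(Real.pi * I) := by
    push_cast; ring
  rw [this, Complex.exp_neg, Complex.exp_pi_mul_I]
  norm_num

theorem Piece1D_pos_half (m : ℕ) :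
    exp (2 * Real.pi * I * ((m + 1 / 2 : ℝ) : ℂ)) = -1 := by
  have : (2 * Real.pi * I * ((m + 1 / 2 : ℝ) : ℂ)) = Real.pi * I + m * (2 * Real.pi * I) := by
    push_cast; ring
  rw [this, Complex.exp_add, Complex.exp_pi_mul_I, Complex.exp_nat_mul,
    Complex.exp_two_pi_mul_I, one_pow, mul_one]

theorem Piece1D_alg {g e : ℂ} (h : 1 - e ≠ 0) : g / (1 - e) - g = e / (1 - e) * g := by
  field_simp
  ring

/-- The kernel on the sides. -/
noncomputable def Piece1D_ker (c t : ℝ) : ℂ := I / (1 + (Real.exp (c * t) : ℝ))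

theorem Piece1D_ker_ne (c t : ℝ) : (1 + (Real.exp (c * t) : ℝ) : ℂ) ≠ 0 := by
  have : (1 + (Real.exp (c * t) : ℝ) : ℂ) = ((1 + Real.exp (c * t) : ℝ) : ℂ) := by
    push_cast; rfl
  rw [this]
  exact_mod_cast (by positivity : (1 + Real.exp (c * t)) ≠ 0)

theorem Piece1D_ker_cont (c : ℝ) : Continuous (Piece1D_ker c) := by
  unfold Piece1D_ker
  exact Continuous.div (by fun_prop) (by fun_prop) (Piece1D_ker_ne c)

theorem Piece1D_ker_norm (c t : ℝ) : ‖Piece1D_ker c t‖ ≤ 1 := by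
  unfold Piece1D_ker
  have h1 : (1 + (Real.exp (c * t) : ℝ) : ℂ) = ((1 + Real.exp (c * t) : ℝ) : ℂ) := by
    push_cast; rfl
  have h2 := Real.exp_pos (c * t)
  rw [h1, norm_div, Complex.norm_I, Complex.norm_real, Real.norm_eq_abs,
    abs_of_pos (by linarith), div_le_one (by linarith only [h2])]
  linarith

/-- The kernels on the lines. -/
noncomputable def Piece1D_kp (a H x : ℝ) : ℂ :=
  exp (2 * Real.pi * I * (x + H * I - a)) / (1 - exp (2 * Real.pi * I * (x + H * I - a)))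

noncomputable def Piece1D_km (a H x : ℝ) : ℂ :=
  1 / (exp (2 * Real.pi * I * (x - H * I - a)) - 1)

theorem Piece1D_eps {H : ℝ} (hH : 1 ≤ 2 * Real.pi * H) : Real.exp (-(2 * Real.pi * H)) ≤ 1 / 2 := by
  have h1 : Real.exp (-(2 * Real.pi * H)) ≤ Real.exp (-1) := Real.exp_le_exp.2 (by linarith only [hH])
  have h2 : Real.exp (-1) * Real.exp 1 = 1 := by rw [← Real.exp_add]; simp
  have h3 : (2 : ℝ) ≤ Real.exp 1 := by
    have := Real.add_one_le_exp (1 : ℝ)
    linarith
  have h4 : 0 < Real.exp (-1) := Real.exp_pos _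
  nlinarith only [h1, h2, h3, h4]

theorem Piece1D_np (a H x : ℝ) : ‖exp (2 * Real.pi * I * (x + H * I - a))‖ =
    Real.exp (-(2 * Real.pi * H)) := by
  rw [Piece1D_norm_exp]
  have : (x + H * I - a : ℂ).im = H := by simp
  rw [this]

theorem Piece1D_nm (a H x : ℝ) : ‖exp (2 * Real.pi * I * (x - H * I - a))‖ =
    1 / Real.exp (-(2 * Real.pi * H)) := by
  rw [Piece1D_norm_exp]
  have : (x - H * I - a : ℂ).im = -H := by simp
  rw [this, one_div, ← Real.exp_neg]
  congr 1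
  ring

theorem Piece1D_dp {a H : ℝ} (hH : 1 ≤ 2 * Real.pi * H) (x : ℝ) :
    1 / 2 ≤ ‖1 - exp (2 * Real.pi * I * (x + H * I - a))‖ := by
  have h3 := norm_sub_norm_le 1 (exp (2 * Real.pi * I * (x + H * I - a)))
  rw [Piece1D_np, norm_one] at h3
  have := Piece1D_eps hH
  linarith only [h3, this]

theorem Piece1D_dp_ne {a H : ℝ} (hH : 1 ≤ 2 * Real.pi * H) (x : ℝ) :
    1 - exp (2 * Real.pi * I * (x + H * I - a)) ≠ 0 := by
  intro h0
  have := Piece1D_dp (a := a) hH x
  rw [h0, norm_zero] at this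
  norm_num at this

theorem Piece1D_dm {a H : ℝ} (hH : 1 ≤ 2 * Real.pi * H) (x : ℝ) :
    1 / (2 * Real.exp (-(2 * Real.pi * H))) ≤
      ‖exp (2 * Real.pi * I * (x - H * I - a)) - 1‖ := by
  have h3 := norm_sub_norm_le (exp (2 * Real.pi * I * (x - H * I - a))) 1
  rw [Piece1D_nm, norm_one] at h3
  refine le_trans ?_ h3
  have hε := Piece1D_eps hH
  have hε0 := Real.exp_pos (-(2 * Real.pi * H))
  generalize Real.exp (-(2 * Real.pi * H)) = ε at hε hε0 ⊢
  have h4 : 1 / ε = 1 / (2 * ε) + 1 / (2 * ε) := by field_simp; norm_num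
  have h5 : 1 ≤ 1 / (2 * ε) := by
    rw [le_div_iff₀ (by positivity)]
    linarith only [hε]
  linarith only [h4, h5]

theorem Piece1D_dm_ne {a H : ℝ} (hH : 1 ≤ 2 * Real.pi * H) (x : ℝ) :
    exp (2 * Real.pi * I * (x - H * I - a)) - 1 ≠ 0 := by
  intro h0
  have := Piece1D_dm (a := a) hH x
  rw [h0, norm_zero] at this
  have h1 : 0 < 1 / (2 * Real.exp (-(2 * Real.pi * H))) := by positivity
  linarith only [this, h1]

theorem Piece1D_kp_cont {a H : ℝ} (hH : 1 ≤ 2 * Real.pi * H) : Continuous (Piece1D_kp a H) := by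
  unfold Piece1D_kp
  exact Continuous.div (by fun_prop) (by fun_prop) (Piece1D_dp_ne hH)

theorem Piece1D_km_cont {a H : ℝ} (hH : 1 ≤ 2 * Real.pi * H) : Continuous (Piece1D_km a H) := by
  unfold Piece1D_km
  exact Continuous.div (by fun_prop) (by fun_prop) (Piece1D_dm_ne hH)

theorem Piece1D_kp_norm {a H : ℝ} (hH : 1 ≤ 2 * Real.pi * H) (x : ℝ) :
    ‖Piece1D_kp a H x‖ ≤ 2 * Real.exp (-(2 * Real.pi * H)) := by
  unfold Piece1D_kp
  have h1 := Piece1D_dp (a := a) hH x
  rw [norm_div, Piece1D_np, div_le_iff₀ (by linarith only [h1])]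
  have := Real.exp_pos (-(2 * Real.pi * H))
  nlinarith only [h1, this]

theorem Piece1D_km_norm {a H : ℝ} (hH : 1 ≤ 2 * Real.pi * H) (x : ℝ) :
    ‖Piece1D_km a H x‖ ≤ 2 * Real.exp (-(2 * Real.pi * H)) := by
  unfold Piece1D_km
  have h1 := Piece1D_dm (a := a) hH x
  have hε0 := Real.exp_pos (-(2 * Real.pi * H))
  have h2 : 0 < 1 / (2 * Real.exp (-(2 * Real.pi * H))) := by positivity
  rw [norm_div, norm_one]
  calc 1 / ‖exp (2 * Real.pi * I * (x - H * I - a)) - 1‖
      ≤ 1 / (1 / (2 * Real.exp (-(2 * Real.pi * H)))) := one_div_le_one_div_of_le h2 h1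
    _ = 2 * Real.exp (-(2 * Real.pi * H)) := by rw [one_div_one_div]

/-- The nine pieces. -/
noncomputable def Piece1D_P (n M : ℕ) (a b η Y y1 y2 : ℝ) : Fin 9 → Piece :=
  ![flatP M y1 y2 Y,
    ⟨0, η * M, Piece1D_ker (-(2 * Real.pi)), fun t => y1 + ((t / M : ℝ) : ℂ) * I⟩,
    ⟨0, η * M, fun t => -Piece1D_ker (-(2 * Real.pi)) t, fun t => y2 + ((t / M : ℝ) : ℂ) * I⟩,
    ⟨0, η * M, Piece1D_ker (2 * Real.pi), fun t => y1 + ((-(t / M) : ℝ) : ℂ) * I⟩,
    ⟨0, η * M, fun t => -Piece1D_ker (2 * Real.pi) t, fun t => y2 + ((-(t / M) : ℝ) : ℂ) * I⟩,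
    ⟨Y, η, fun _ => M * I, fun t => y2 + t * I⟩,
    ⟨Y, η, fun _ => -(M * I), fun t => y1 + t * I⟩,
    ⟨a, b, Piece1D_kp (a + 1 / 2) (η * M), fun x =>
      (((x + bt n + 1 / 2) / M - 1 / 2 : ℝ) : ℂ) + η * I⟩,
    ⟨a, b, Piece1D_km (a + 1 / 2) (η * M), fun x =>
      (((x + bt n + 1 / 2) / M - 1 / 2 : ℝ) : ℂ) + ((-η : ℝ) : ℂ) * I⟩]

theorem Piece1D_side {α β y1 y2 η Y c : ℝ} {M : ℕ} {w z : ℝ → ℂ} (hle : α ≤ β)
    (cw : Continuous w) (cz : Continuous z) (hy : y1 ≤ y2)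
    (hm : ∀ s, α ≤ s → s ≤ β → ((z s).re = y1 ∨ (z s).re = y2) ∧ |(z s).im| ≤ η)
    (hw : ∀ s, ‖w s‖ ≤ c) (hb : c * (β - α) ≤ 2 * M) :
    (Piece.mk α β w z).ok (Stt y1 y2 η Y 1) (2 * M / dmp η M 1) := by
  refine ⟨hle, cw, cz, ?_, ?_⟩
  · intro s hs
    obtain ⟨h1, h2⟩ := hm s hs.1 hs.2
    refine ⟨?_, ?_, h2, ?_, fun _ => h1, ?_⟩
    · rcases h1 with h1 | h1 <;> rw [h1]
      exact hy
    · rcases h1 with h1 | h1 <;> rw [h1]
      exact hy
    · intro h; exact absurd h (by decide)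
    · intro h; exact absurd h (by decide)
  · intro s _
    have h1 : dmp η M 1 = 1 := if_neg (by decide)
    rw [h1, div_one]
    exact (mul_le_mul_of_nonneg_right (hw s) (by simpa using hle)).trans hb

theorem Piece1D_line {α β y1 y2 η Y : ℝ} {M : ℕ} {w z : ℝ → ℂ} (hle : α ≤ β)
    (cw : Continuous w) (cz : Continuous z) (hη : 0 < η)
    (hm : ∀ s, α ≤ s → s ≤ β → y1 ≤ (z s).re ∧ (z s).re ≤ y2 ∧ |(z s).im| = η)
    (hw : ∀ s, ‖w s‖ ≤ 2 * Real.exp (-(2 * Real.pi * (η * M)))) (hb : β - α ≤ M) :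
    (Piece.mk α β w z).ok (Stt y1 y2 η Y 2) (2 * M / dmp η M 2) := by
  refine ⟨hle, cw, cz, ?_, ?_⟩
  · intro s hs
    obtain ⟨h1, h2, h3⟩ := hm s hs.1 hs.2
    refine ⟨h1, h2, h3.le, ?_, ?_, fun _ => h3⟩
    · intro h; exact absurd h (by decide)
    · intro h; exact absurd h (by decide)
  · intro s _
    have h1 : dmp η M 2 = Real.exp (2 * Real.pi * η * M) := if_pos rfl
    rw [h1, div_eq_mul_inv, ← Real.exp_neg]
    have h2 : -(2 * Real.pi * η * M) = -(2 * Real.pi * (η * M)) := by ring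
    rw [h2]
    calc ‖w s‖ * (β - α) ≤ 2 * Real.exp (-(2 * Real.pi * (η * M))) * (β - α) :=
          mul_le_mul_of_nonneg_right (hw s) (by linarith only [hle])
      _ ≤ 2 * Real.exp (-(2 * Real.pi * (η * M))) * M :=
          mul_le_mul_of_nonneg_left hb (by positivity)
      _ = 2 * M * Real.exp (-(2 * Real.pi * (η * M))) := by ring

theorem Piece1D_ok (n M : ℕ) (a b η Y y1 y2 : ℝ) (hM : 0 < M) (hη : 0 < η)
    (hη' : η ≤ 1) (hY : |Y| ≤ η) (hM' : 1 ≤ 2 * Real.pi * η * M)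
    (hy1 : y1 = (a + 1 / 2 + bt n) / M - 1 / 2) (hy2 : y2 = (b + 1 / 2 + bt n) / M - 1 / 2)
    (hab : a ≤ b) (hy : y2 - y1 ≤ 1) :
    ∀ q, (Piece1D_P n M a b η Y y1 y2 q).ok (Stt y1 y2 η Y (knd q)) (2 * M / dmp η M (knd q)) := by
  have hM0 : (0 : ℝ) < M := by exact_mod_cast hM
  have hH0 : 0 < η * M := by positivity
  have hHM : η * M / M = η := by field_simp
  have hH1 : 1 ≤ 2 * Real.pi * (η * M) := by rw [← mul_assoc]; exact hM'
  have hd12 : y2 - y1 = (b - a) / M := by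
    rw [hy1, hy2]; ring
  have hy12 : y1 ≤ y2 := by
    have : 0 ≤ (b - a) / M := div_nonneg (by linarith only [hab]) hM0.le
    linarith only [hd12, this]
  have hba : b - a ≤ M := by
    rw [hd12, div_le_one hM0] at hy
    exact hy
  obtain ⟨hY1, hY2⟩ := abs_le.1 hY
  have hside : (1 : ℝ) * (η * M - 0) ≤ 2 * M := by nlinarith only [hM0, hη']
  have him : ∀ s : ℝ, 0 ≤ s → s ≤ η * M → |s / M| ≤ η := by
    intro s h1 h2
    rw [abs_of_nonneg (div_nonneg h1 hM0.le), div_le_iff₀ hM0]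
    exact h2
  have hx : ∀ x : ℝ, a ≤ x → x ≤ b → y1 ≤ (x + bt n + 1 / 2) / M - 1 / 2 ∧
      (x + bt n + 1 / 2) / M - 1 / 2 ≤ y2 := by
    intro x h1 h2
    constructor
    · rw [hy1]
      have : (a + 1 / 2 + bt n) / M ≤ (x + bt n + 1 / 2) / M :=
        div_le_div_of_nonneg_right (by linarith only [h1]) hM0.le
      linarith only [this]
    · rw [hy2]
      have : (x + bt n + 1 / 2) / M ≤ (b + 1 / 2 + bt n) / M :=
        div_le_div_of_nonneg_right (by linarith only [h2]) hM0.le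
      linarith only [this]
  intro q
  fin_cases q
  · -- the flat piece
    refine ⟨hy12, ?_, ?_, ?_, ?_⟩
    · exact continuous_const
    · show Continuous fun x : ℝ => (x : ℂ) + Y * I
      fun_prop
    · intro s hs
      have h1 : ((s : ℂ) + Y * I).re = s := by simp
      have h2 : ((s : ℂ) + Y * I).im = Y := by simp
      show Stt y1 y2 η Y 0 ((s : ℂ) + Y * I)
      refine ⟨?_, ?_, ?_, fun _ => h2, ?_, ?_⟩
      · rw [h1]; exact hs.1
      · rw [h1]; exact hs.2
      · rw [h2]; exact hY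
      · intro h; exact absurd h (by decide)
      · intro h; exact absurd h (by decide)
    · intro s _
      have h1 : dmp η M 0 = 1 := if_neg (by decide)
      show ‖(M : ℂ)‖ * (y2 - y1) ≤ 2 * M / dmp η M 0
      rw [h1, div_one, Complex.norm_natCast]
      nlinarith only [hM0, hy]
  · refine Piece1D_side (c := 1) hH0.le (Piece1D_ker_cont _) (by fun_prop) hy12 ?_
      (Piece1D_ker_norm _) hside
    intro s h1 h2
    refine ⟨Or.inl (by simp), ?_⟩
    simpa using him s h1 h2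
  · refine Piece1D_side (c := 1) hH0.le (Piece1D_ker_cont _).neg (by fun_prop) hy12 ?_
      (fun s => by rw [norm_neg]; exact Piece1D_ker_norm _ s) hside
    intro s h1 h2
    refine ⟨Or.inr (by simp), ?_⟩
    simpa using him s h1 h2
  · refine Piece1D_side (c := 1) hH0.le (Piece1D_ker_cont _) (by fun_prop) hy12 ?_
      (Piece1D_ker_norm _) hside
    intro s h1 h2
    refine ⟨Or.inl (by simp), ?_⟩
    simpa using him s h1 h2
  · refine Piece1D_side (c := 1) hH0.le (Piece1D_ker_cont _).neg (by fun_prop) hy12 ?_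
      (fun s => by rw [norm_neg]; exact Piece1D_ker_norm _ s) hside
    intro s h1 h2
    refine ⟨Or.inr (by simp), ?_⟩
    simpa using him s h1 h2
  · refine Piece1D_side (c := M) hY2 continuous_const (by fun_prop) hy12 ?_
      (fun s => by simp) (by nlinarith only [hη', hY1])
    intro s h1 h2
    refine ⟨Or.inr (by simp), ?_⟩
    simp only [add_im, ofReal_im, mul_im, ofReal_re, I_im, mul_one, I_re, mul_zero, add_zero,
      zero_add]
    exact abs_le.2 ⟨by linarith only [hY1, h1], h2⟩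
  · refine Piece1D_side (c := M) hY2 continuous_const (by fun_prop) hy12 ?_
      (fun s => by simp) (by nlinarith only [hη', hY1])
    intro s h1 h2
    refine ⟨Or.inl (by simp), ?_⟩
    simp only [add_im, ofReal_im, mul_im, ofReal_re, I_im, mul_one, I_re, mul_zero, add_zero,
      zero_add]
    exact abs_le.2 ⟨by linarith only [hY1, h1], h2⟩
  · refine Piece1D_line hab (Piece1D_kp_cont hH1) (by fun_prop) hη ?_ (Piece1D_kp_norm hH1) hba
    intro s h1 h2
    obtain ⟨g1, g2⟩ := hx s h1 h2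
    have e1 : ((((s + bt n + 1 / 2) / M - 1 / 2 : ℝ) : ℂ) + η * I).re =
        (s + bt n + 1 / 2) / M - 1 / 2 := by
      rw [add_re, ofReal_re]; simp
    have e2 : ((((s + bt n + 1 / 2) / M - 1 / 2 : ℝ) : ℂ) + η * I).im = η := by
      rw [add_im, ofReal_im]; simp
    rw [e1, e2, abs_of_pos hη]
    exact ⟨g1, g2, rfl⟩
  · refine Piece1D_line hab (Piece1D_km_cont hH1) (by fun_prop) hη ?_ (Piece1D_km_norm hH1) hba
    intro s h1 h2
    obtain ⟨g1, g2⟩ := hx s h1 h2
    have e1 : ((((s + bt n + 1 / 2) / M - 1 / 2 : ℝ) : ℂ) + ((-η : ℝ) : ℂ) * I).re =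
        (s + bt n + 1 / 2) / M - 1 / 2 := by
      rw [add_re, ofReal_re]; simp
    have e2 : ((((s + bt n + 1 / 2) / M - 1 / 2 : ℝ) : ℂ) + ((-η : ℝ) : ℂ) * I).im = -η := by
      rw [add_im, ofReal_im]; simp
    rw [e1, e2, abs_neg, abs_of_pos hη]
    exact ⟨g1, g2, rfl⟩

theorem Piece1D_sum (g : Fin 9 → ℂ) : ∑ q, g q =
    g 0 + g 1 + g 2 + g 3 + g 4 + g 5 + g 6 + g 7 + g 8 := by
  rw [Fin.sum_univ_castSucc, Fin.sum_univ_eight]
  rfl

/-- The sum as an exact sum of nine integrals. -/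
theorem sum_pieces (n M k1 k2 : ℕ) (η Y : ℝ) (hM : 0 < M) (hk : k1 ≤ k2) (hη : 0 < η)
    (hη' : η ≤ 1) (hY : |Y| ≤ η) (hM' : 1 ≤ 2 * Real.pi * η * M) (y1 y2 : ℝ)
    (hy1 : y1 = (k1 + bt n) / M - 1 / 2) (hy2 : y2 = (k2 + 1 + bt n) / M - 1 / 2)
    (hy : y2 - y1 ≤ 1) :
    ∃ P : Fin 9 → Piece, P 0 = flatP M y1 y2 Y ∧
      (∀ q, (P q).ok (Stt y1 y2 η Y (knd q)) (2 * M / dmp η M (knd q))) ∧
      ∀ f : ℂ → ℂ, (∀ z : ℂ, y1 ≤ z.re → z.re ≤ y2 → |z.im| ≤ η → DifferentiableAt ℂ f z) →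
        ∑ k ∈ Finset.Icc k1 k2, f (yk n M k) = ∑ q, (P q).int f := by
  obtain ⟨m, rfl⟩ : ∃ m, k2 = k1 + m := ⟨k2 - k1, by omega⟩
  have hM0 : (0 : ℝ) < M := by exact_mod_cast hM
  have hMc : (M : ℂ) ≠ 0 := by exact_mod_cast hM.ne'
  set a : ℝ := (k1 : ℝ) with ha
  refine ⟨Piece1D_P n M (a - 1 / 2) (a + m + 1 / 2) η Y y1 y2, rfl, ?_, ?_⟩
  · refine Piece1D_ok n M (a - 1 / 2) (a + m + 1 / 2) η Y y1 y2 hM hη hη' hY hM' ?_ ?_ ?_ hy
    · rw [hy1]; ring
    · rw [hy2]; push_cast; ring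
    · have : (0 : ℝ) ≤ m := Nat.cast_nonneg m
      linarith only
  intro G hG
  have hd12 : y2 - y1 = (m + 1) / M := by
    rw [hy1, hy2]; push_cast; ring
  have hy12 : y1 ≤ y2 := by
    have : 0 ≤ ((m : ℝ) + 1) / M := by positivity
    linarith only [hd12, this]
  -- the scaled function
  set sc : ℂ → ℂ := fun s => (s + bt n + 1 / 2) / M - 1 / 2 with hsc
  have hre : ∀ s : ℂ, (sc s).re = (s.re + bt n + 1 / 2) / M - 1 / 2 := by
    intro s
    simp [hsc]
  have him : ∀ s : ℂ, (sc s).im = s.im / M := by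
    intro s
    simp [hsc]
  have hscd : ∀ s : ℂ, DifferentiableAt ℂ sc s := by
    intro s
    rw [hsc]
    fun_prop
  set H : ℝ := η * M with hH
  have hH0 : 0 < H := by positivity
  have hH1 : 1 ≤ 2 * Real.pi * H := by rw [hH, ← mul_assoc]; exact hM'
  have hHM : H / M = η := by rw [hH]; field_simp
  have hdiff : ∀ z : ℂ, a - 1 / 2 ≤ z.re → z.re ≤ a + m + 1 / 2 → |z.im| ≤ H →
      DifferentiableAt ℂ (fun s => G (sc s)) z := by
    intro z h1 h2 h3
    refine DifferentiableAt.comp z (hG (sc z) ?_ ?_ ?_) (hscd z)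
    · rw [hre, hy1]
      have : (k1 + bt n) / M ≤ (z.re + bt n + 1 / 2) / M := by
        apply div_le_div_of_nonneg_right _ hM0.le
        linarith only [h1]
      linarith only [this]
    · rw [hre, hy2]
      have : (z.re + bt n + 1 / 2) / M ≤ (((k1 + m : ℕ) : ℝ) + 1 + bt n) / M := by
        apply div_le_div_of_nonneg_right _ hM0.le
        push_cast
        linarith only [h2]
      linarith only [this]
    · rw [him, abs_div, abs_of_pos hM0, div_le_iff₀ hM0]
      exact h3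
  have key := abel_plana (fun s => G (sc s)) a m H hH0 hdiff
  have hsum : ∑ k ∈ Finset.Icc k1 (k1 + m), G (yk n M k) =
      ∑ k ∈ Finset.range (m + 1), G (sc (a + k)) := by
    rw [← Finset.Ico_succ_right_eq_Icc, Finset.sum_Ico_eq_sum_range]
    have h1 : Order.succ (k1 + m) - k1 = m + 1 := by
      rw [Nat.succ_eq_succ]
      omega
    rw [h1]
    refine Finset.sum_congr rfl fun j _ => ?_
    congr 1
    have hac : (a : ℂ) = (k1 : ℂ) := by rw [ha]; simp
    rw [hsc, yk, hac]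
    push_cast
    ring
  have hscl : ∀ t : ℝ, sc ((a - 1 / 2 : ℝ) + t * I) = y1 + ((t / M : ℝ) : ℂ) * I := by
    intro t
    rw [hsc, hy1, ha]
    push_cast
    field_simp
    ring
  have hscr : ∀ t : ℝ, sc ((a + m + 1 / 2 : ℝ) + t * I) = y2 + ((t / M : ℝ) : ℂ) * I := by
    intro t
    rw [hsc, hy2, ha]
    push_cast
    field_simp
    ring
  have hsch : ∀ x h : ℝ, sc (x + h * I) =
      (((x + bt n + 1 / 2) / M - 1 / 2 : ℝ) : ℂ) + ((h / M : ℝ) : ℂ) * I := by
    intro x h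
    rw [hsc]
    push_cast
    field_simp
    ring
  have c1 : (∫ t in (0 : ℝ)..H, G (sc ((a - 1 / 2 : ℝ) + t * I)) /
      (1 - exp (2 * Real.pi * I * ((a - 1 / 2 : ℝ) + t * I - a))) * I) =
      ∫ t in (0 : ℝ)..H, Piece1D_ker (-(2 * Real.pi)) t * G (y1 + ((t / M : ℝ) : ℂ) * I) := by
    refine intervalIntegral.integral_congr fun t _ => ?_
    have e1 : ((a - 1 / 2 : ℝ) + t * I - a : ℂ) = ((-(1 / 2) : ℝ) : ℂ) + t * I := by
      push_cast; ring
    show G (sc ((a - 1 / 2 : ℝ) + t * I)) /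
      (1 - exp (2 * Real.pi * I * ((a - 1 / 2 : ℝ) + t * I - a))) * I = _
    rw [e1, Piece1D_exp, Piece1D_neg_half, hscl, Piece1D_ker]
    have e2 : -(2 * Real.pi * t) = -(2 * Real.pi) * t := by ring
    rw [e2]
    have := Piece1D_ker_ne (-(2 * Real.pi)) t
    have e3 : (1 - -1 * ((Real.exp (-(2 * Real.pi) * t) : ℝ) : ℂ)) =
      1 + ((Real.exp (-(2 * Real.pi) * t) : ℝ) : ℂ) := by ring
    rw [e3]
    field_simp
  have c3 : (∫ t in (0 : ℝ)..H, G (sc ((a + m + 1 / 2 : ℝ) + t * I)) /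
      (1 - exp (2 * Real.pi * I * ((a + m + 1 / 2 : ℝ) + t * I - a))) * I) =
      -∫ t in (0 : ℝ)..H, -Piece1D_ker (-(2 * Real.pi)) t *
        G (y2 + ((t / M : ℝ) : ℂ) * I) := by
    rw [← intervalIntegral.integral_neg]
    refine intervalIntegral.integral_congr fun t _ => ?_
    have e1 : ((a + m + 1 / 2 : ℝ) + t * I - a : ℂ) = ((m + 1 / 2 : ℝ) : ℂ) + t * I := by
      push_cast; ring
    show G (sc ((a + m + 1 / 2 : ℝ) + t * I)) /
      (1 - exp (2 * Real.pi * I * ((a + m + 1 / 2 : ℝ) + t * I - a))) * I = _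
    rw [e1, Piece1D_exp, Piece1D_pos_half, hscr, Piece1D_ker]
    have e2 : -(2 * Real.pi * t) = -(2 * Real.pi) * t := by ring
    rw [e2]
    have := Piece1D_ker_ne (-(2 * Real.pi)) t
    have e3 : (1 - -1 * ((Real.exp (-(2 * Real.pi) * t) : ℝ) : ℂ)) =
      1 + ((Real.exp (-(2 * Real.pi) * t) : ℝ) : ℂ) := by ring
    rw [e3]
    field_simp
  have c4 : (∫ t in (0 : ℝ)..H, G (sc ((a - 1 / 2 : ℝ) - t * I)) /
      (exp (2 * Real.pi * I * ((a - 1 / 2 : ℝ) - t * I - a)) - 1) * I) =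
      -∫ t in (0 : ℝ)..H, Piece1D_ker (2 * Real.pi) t *
        G (y1 + ((-(t / M) : ℝ) : ℂ) * I) := by
    rw [← intervalIntegral.integral_neg]
    refine intervalIntegral.integral_congr fun t _ => ?_
    have e1 : ((a - 1 / 2 : ℝ) - t * I - a : ℂ) = ((-(1 / 2) : ℝ) : ℂ) + ((-t : ℝ) : ℂ) * I := by
      push_cast; ring
    have e2 : ((a - 1 / 2 : ℝ) - t * I : ℂ) = ((a - 1 / 2 : ℝ) + ((-t : ℝ) : ℂ) * I : ℂ) := by
      push_cast; ring
    show G (sc ((a - 1 / 2 : ℝ) - t * I)) /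
      (exp (2 * Real.pi * I * ((a - 1 / 2 : ℝ) - t * I - a)) - 1) * I = _
    rw [e1, Piece1D_exp, Piece1D_neg_half, e2, hscl, Piece1D_ker, neg_div]
    have e2 : -(2 * Real.pi * -t) = (2 * Real.pi) * t := by ring
    rw [e2]
    have := Piece1D_ker_ne (2 * Real.pi) t
    have e3 : (-1 * ((Real.exp (2 * Real.pi * t) : ℝ) : ℂ) - 1) =
      -(1 + ((Real.exp (2 * Real.pi * t) : ℝ) : ℂ)) := by ring
    rw [e3]
    field_simp
  have c6 : (∫ t in (0 : ℝ)..H, G (sc ((a + m + 1 / 2 : ℝ) - t * I)) /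
      (exp (2 * Real.pi * I * ((a + m + 1 / 2 : ℝ) - t * I - a)) - 1) * I) =
      ∫ t in (0 : ℝ)..H, -Piece1D_ker (2 * Real.pi) t *
        G (y2 + ((-(t / M) : ℝ) : ℂ) * I) := by
    refine intervalIntegral.integral_congr fun t _ => ?_
    have e1 : ((a + m + 1 / 2 : ℝ) - t * I - a : ℂ) =
        ((m + 1 / 2 : ℝ) : ℂ) + ((-t : ℝ) : ℂ) * I := by
      push_cast; ring
    have e2 : ((a + m + 1 / 2 : ℝ) - t * I : ℂ) =
        ((a + m + 1 / 2 : ℝ) + ((-t : ℝ) : ℂ) * I : ℂ) := by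
      push_cast; ring
    show G (sc ((a + m + 1 / 2 : ℝ) - t * I)) /
      (exp (2 * Real.pi * I * ((a + m + 1 / 2 : ℝ) - t * I - a)) - 1) * I = _
    rw [e1, Piece1D_exp, Piece1D_pos_half, e2, hscr, Piece1D_ker, neg_div]
    have e2 : -(2 * Real.pi * -t) = (2 * Real.pi) * t := by ring
    rw [e2]
    have := Piece1D_ker_ne (2 * Real.pi) t
    have e3 : (-1 * ((Real.exp (2 * Real.pi * t) : ℝ) : ℂ) - 1) =
      -(1 + ((Real.exp (2 * Real.pi * t) : ℝ) : ℂ)) := by ring
    rw [e3]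
    field_simp
  have c5 : (∫ x in (a - 1 / 2)..(a + m + 1 / 2), G (sc (x - H * I)) /
      (exp (2 * Real.pi * I * (x - H * I - a)) - 1)) =
      ∫ x in (a - 1 / 2)..(a + m + 1 / 2), Piece1D_km (a - 1 / 2 + 1 / 2) H x *
        G ((((x + bt n + 1 / 2) / M - 1 / 2 : ℝ) : ℂ) + ((-η : ℝ) : ℂ) * I) := by
    refine intervalIntegral.integral_congr fun x _ => ?_
    have e2 : (x - H * I : ℂ) = (x + ((-H : ℝ) : ℂ) * I : ℂ) := by push_cast; ring
    have e3 : a - 1 / 2 + 1 / 2 = a := by ring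
    show G (sc (x - H * I)) / (exp (2 * Real.pi * I * (x - H * I - a)) - 1) = _
    rw [Piece1D_km, e3]
    have e4 : sc (x - H * I) =
        (((x + bt n + 1 / 2) / M - 1 / 2 : ℝ) : ℂ) + ((-η : ℝ) : ℂ) * I := by
      rw [e2, hsch, neg_div, hHM]
    rw [e4]
    ring
  -- continuity of the integrands
  have hle : a - 1 / 2 ≤ a + m + 1 / 2 := by
    have : (0 : ℝ) ≤ m := Nat.cast_nonneg m
    linarith only
  have hcont : ContinuousOn (fun x : ℝ => G (sc (x + H * I)))
      (Set.uIcc (a - 1 / 2) (a + m + 1 / 2)) := by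
    intro x hx
    rw [Set.uIcc_of_le hle] at hx
    apply ContinuousAt.continuousWithinAt
    have hd := hdiff (x + H * I) (by simpa using hx.1) (by simpa using hx.2)
      (by simp [abs_of_pos hH0])
    have hc := hd.continuousAt
    exact ContinuousAt.comp (g := fun s : ℂ => G (sc s)) (f := fun x : ℝ => (x : ℂ) + H * I)
      hc (by fun_prop)
  have hcont2 : ContinuousOn (fun x : ℝ => G (sc (x + H * I)) /
      (1 - exp (2 * Real.pi * I * (x + H * I - a)))) (Set.uIcc (a - 1 / 2) (a + m + 1 / 2)) := by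
    refine hcont.div (by fun_prop) ?_
    intro x _
    exact Piece1D_dp_ne hH1 x
  have c2 : (∫ x in (a - 1 / 2)..(a + m + 1 / 2), G (sc (x + H * I)) /
      (1 - exp (2 * Real.pi * I * (x + H * I - a)))) -
      (∫ x in (a - 1 / 2)..(a + m + 1 / 2), G (sc (x + H * I))) =
      ∫ x in (a - 1 / 2)..(a + m + 1 / 2), Piece1D_kp (a - 1 / 2 + 1 / 2) H x *
        G ((((x + bt n + 1 / 2) / M - 1 / 2 : ℝ) : ℂ) + η * I) := by
    rw [← intervalIntegral.integral_sub hcont2.intervalIntegrable hcont.intervalIntegrable]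
    refine intervalIntegral.integral_congr fun x _ => ?_
    have e3 : a - 1 / 2 + 1 / 2 = a := by ring
    show G (sc (x + H * I)) / (1 - exp (2 * Real.pi * I * (x + H * I - a))) -
      G (sc (x + H * I)) = _
    rw [Piece1D_alg (Piece1D_dp_ne hH1 x), Piece1D_kp, e3, hsch, hHM]
  -- the change of variables
  have hcv : ∫ x in (a - 1 / 2)..(a + m + 1 / 2), G (sc (x + H * I)) =
      M * ∫ u in y1..y2, G (u + η * I) := by
    have h1 := intervalIntegral.integral_comp_div_add (a := a - 1 / 2) (b := a + m + 1 / 2)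
      (fun u : ℝ => G (u + η * I)) hM0.ne' ((bt n + 1 / 2) / M - 1 / 2)
    have h2 : (fun x : ℝ => G (((x / M + ((bt n + 1 / 2) / M - 1 / 2) : ℝ) : ℂ) + η * I)) =
        fun x : ℝ => G (sc (x + H * I)) := by
      funext x
      congr 1
      rw [hsc, hH]
      push_cast
      field_simp
      ring
    rw [h2] at h1
    rw [h1]
    have h3 : (a - 1 / 2) / M + ((bt n + 1 / 2) / M - 1 / 2) = y1 := by
      rw [hy1, ha]; ring
    have h4 : (a + m + 1 / 2) / M + ((bt n + 1 / 2) / M - 1 / 2) = y2 := by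
      rw [hy2, ha]; push_cast; ring
    rw [h3, h4]
    simp
  -- Cauchy
  have hcau := Complex.integral_boundary_rect_eq_zero_of_differentiableOn G
    (y1 + Y * I) (y2 + η * I) (by
      intro z hz
      rw [Complex.mem_reProdIm] at hz
      obtain ⟨h1, h2⟩ := hz
      have r1 : (y1 + Y * I : ℂ).re = y1 := by simp
      have r2 : (y2 + η * I : ℂ).re = y2 := by simp
      have i1 : (y1 + Y * I : ℂ).im = Y := by simp
      have i2 : (y2 + η * I : ℂ).im = η := by simp
      rw [r1, r2, Set.uIcc_of_le hy12] at h1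
      have hYη : Y ≤ η := (le_abs_self Y).trans hY
      rw [i1, i2, Set.uIcc_of_le hYη] at h2
      refine (hG z h1.1 h1.2 ?_).differentiableWithinAt
      rw [abs_le]
      have := neg_le_of_abs_le hY
      exact ⟨this.trans h2.1, h2.2⟩)
  have r1 : (y1 + Y * I : ℂ).re = y1 := by simp
  have r2 : (y2 + η * I : ℂ).re = y2 := by simp
  have i1 : (y1 + Y * I : ℂ).im = Y := by simp
  have i2 : (y2 + η * I : ℂ).im = η := by simp
  rw [r1, r2, i1, i2] at hcau
  -- assembly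
  rw [hsum, key, Piece1D_sum]
  rw [c1, c3, c4, c5, c6]
  have g0 : (Piece1D_P n M (a - 1 / 2) (a + m + 1 / 2) η Y y1 y2 0).int G =
      M * ∫ x in y1..y2, G (x + Y * I) := by
    rw [← intervalIntegral.integral_const_mul]
    rfl
  have g5 : (Piece1D_P n M (a - 1 / 2) (a + m + 1 / 2) η Y y1 y2 5).int G =
      M * I * ∫ t in Y..η, G (y2 + t * I) := by
    rw [← intervalIntegral.integral_const_mul]
    rfl
  have g6 : (Piece1D_P n M (a - 1 / 2) (a + m + 1 / 2) η Y y1 y2 6).int G =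
      -(M * I) * ∫ t in Y..η, G (y1 + t * I) := by
    rw [← intervalIntegral.integral_const_mul]
    rfl
  have g1 : (Piece1D_P n M (a - 1 / 2) (a + m + 1 / 2) η Y y1 y2 1).int G =
    ∫ t in (0 : ℝ)..H, Piece1D_ker (-(2 * Real.pi)) t * G (y1 + ((t / M : ℝ) : ℂ) * I) := rfl
  have g2 : (Piece1D_P n M (a - 1 / 2) (a + m + 1 / 2) η Y y1 y2 2).int G =
    ∫ t in (0 : ℝ)..H, -Piece1D_ker (-(2 * Real.pi)) t * G (y2 + ((t / M : ℝ) : ℂ) * I) := rfl
  have g3 : (Piece1D_P n M (a - 1 / 2) (a + m + 1 / 2) η Y y1 y2 3).int G =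
    ∫ t in (0 : ℝ)..H, Piece1D_ker (2 * Real.pi) t * G (y1 + ((-(t / M) : ℝ) : ℂ) * I) := rfl
  have g4 : (Piece1D_P n M (a - 1 / 2) (a + m + 1 / 2) η Y y1 y2 4).int G =
    ∫ t in (0 : ℝ)..H, -Piece1D_ker (2 * Real.pi) t * G (y2 + ((-(t / M) : ℝ) : ℂ) * I) := rfl
  have g7 : (Piece1D_P n M (a - 1 / 2) (a + m + 1 / 2) η Y y1 y2 7).int G =
    ∫ x in (a - 1 / 2)..(a + m + 1 / 2), Piece1D_kp (a - 1 / 2 + 1 / 2) H x *
        G ((((x + bt n + 1 / 2) / M - 1 / 2 : ℝ) : ℂ) + η * I) := rfl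
  have g8 : (Piece1D_P n M (a - 1 / 2) (a + m + 1 / 2) η Y y1 y2 8).int G =
    ∫ x in (a - 1 / 2)..(a + m + 1 / 2), Piece1D_km (a - 1 / 2 + 1 / 2) H x *
        G ((((x + bt n + 1 / 2) / M - 1 / 2 : ℝ) : ℂ) + ((-η : ℝ) : ℂ) * I) := rfl
  rw [g0, g1, g2, g3, g4, g5, g6, g7, g8]
  rw [hcv] at c2
  simp only [smul_eq_mul] at hcau
  linear_combination c2 - (M : ℂ) * hcau

end Pool.Agent.H63.VC6

end

section

/-! # Iterated integrals over products of pieces -/

namespace Pool.Agent.H63.VC6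

open Pool.Agent.H63.VC
open Pool.Agent.H63.VC3 Pool.Agent.H63.VC4 Complex
open scoped BigOperators

theorem ItP_cons_continuous' {m : ℕ} :
    Continuous (fun q : (Fin m → ℂ) × ℂ => (Fin.cons q.2 q.1 : Fin (m + 1) → ℂ)) := by
  refine continuous_pi fun i => ?_
  refine Fin.cases ?_ (fun j => ?_) i
  · simpa using continuous_snd
  · simp only [Fin.cons_succ]
    exact (continuous_apply j).comp continuous_fst

theorem Piece_int_continuous {X : Type*} [TopologicalSpace X] (P : Piece) (hw : Continuous P.w)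
    (hz : Continuous P.z) (F : X → ℂ → ℂ) (hF : Continuous (fun q : X × ℂ => F q.1 q.2)) :
    Continuous (fun x => P.int (F x)) := by
  unfold Piece.int
  refine intervalIntegral.continuous_parametric_intervalIntegral_of_continuous' ?_ _ _
  show Continuous (fun q : X × ℝ => P.w q.2 * F q.1 (P.z q.2))
  exact (hw.comp continuous_snd).mul
    (hF.comp (continuous_fst.prodMk (hz.comp continuous_snd)))

theorem ItP_inner_continuous {m : ℕ} (P : Piece) (hw : Continuous P.w) (hz : Continuous P.z)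
    (F : (Fin (m + 1) → ℂ) → ℂ) (hF : Continuous F) :
    Continuous (fun z : Fin m → ℂ => P.int (fun w => F (Fin.cons w z))) :=
  Piece_int_continuous P hw hz (fun z w => F (Fin.cons w z)) (hF.comp ItP_cons_continuous')

theorem itP_sum {m : ℕ} {ι : Type*} (s : Finset ι) (P : Fin m → Piece)
    (hP : ∀ j, Continuous (P j).w ∧ Continuous (P j).z) (F : ι → (Fin m → ℂ) → ℂ)
    (hF : ∀ i ∈ s, Continuous (F i)) :
    itP P (fun z => ∑ i ∈ s, F i z) = ∑ i ∈ s, itP P (F i) := by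
  induction m with
  | zero => rfl
  | succ m ih =>
    show itP (fun j => P j.succ)
      (fun z => (P 0).int (fun w => ∑ i ∈ s, F i (Fin.cons w z))) =
      ∑ i ∈ s, itP (fun j => P j.succ) (fun z => (P 0).int (fun w => F i (Fin.cons w z)))
    rw [← ih (fun j => P j.succ) (fun j => hP j.succ)
      (fun i z => (P 0).int (fun w => F i (Fin.cons w z)))
      (fun i hi => ItP_inner_continuous (P 0) (hP 0).1 (hP 0).2 (F i) (hF i hi))]
    congr 1
    funext z
    unfold Piece.int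
    simp only [Finset.mul_sum]
    refine intervalIntegral.integral_finsetSum fun i hi => ?_
    refine Continuous.intervalIntegrable ?_ _ _
    exact (hP 0).1.mul ((hF i hi).comp (ItP_cons_continuous'.comp
      (continuous_const.prodMk (hP 0).2)))

theorem itP_congr {m : ℕ} (P : Fin m → Piece) (S : Fin m → ℂ → Prop) (c : Fin m → ℝ)
    (hP : ∀ j, (P j).ok (S j) (c j)) (F G : (Fin m → ℂ) → ℂ)
    (h : ∀ z : Fin m → ℂ, (∀ j, S j (z j)) → F z = G z) : itP P F = itP P G := by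
  induction m with
  | zero => exact h _ fun j => j.elim0
  | succ m ih =>
    refine ih (fun j => P j.succ) (fun j => S j.succ) (fun j => c j.succ) (fun j => hP j.succ)
      _ _ fun z hz => ?_
    unfold Piece.int
    refine intervalIntegral.integral_congr fun s hs => ?_
    rw [Set.uIcc_of_le (hP 0).le] at hs
    simp only
    rw [h (Fin.cons ((P 0).z s) z) fun j => ?_]
    refine Fin.cases ?_ (fun j => ?_) j
    · rw [Fin.cons_zero]
      exact (hP 0).mem s hs
    · rw [Fin.cons_succ]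
      exact hz j

theorem ItP_int_bound (P : Piece) (S : ℂ → Prop) (c : ℝ) (hP : P.ok S c) (f : ℂ → ℂ) (A : ℝ)
    (hA0 : 0 ≤ A) (h : ∀ z, S z → ‖f z‖ ≤ A) : ‖P.int f‖ ≤ c * A := by
  unfold Piece.int
  rcases hP.le.eq_or_lt with he | hlt
  · rw [he, intervalIntegral.integral_same, norm_zero]
    have h1 := hP.bd P.β ⟨hP.le, le_rfl⟩
    rw [he, sub_self, mul_zero] at h1
    exact mul_nonneg h1 hA0
  · have hd : 0 < P.β - P.α := by linarith
    have h1 : ∀ s ∈ Set.uIoc P.α P.β, ‖P.w s * f (P.z s)‖ ≤ c / (P.β - P.α) * A := by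
      intro s hs
      rw [Set.uIoc_of_le hP.le] at hs
      have hs' : s ∈ Set.Icc P.α P.β := Set.Ioc_subset_Icc_self hs
      rw [norm_mul]
      have h2 : ‖P.w s‖ ≤ c / (P.β - P.α) := by
        rw [le_div_iff₀ hd]
        exact hP.bd s hs'
      exact mul_le_mul h2 (h _ (hP.mem s hs')) (norm_nonneg _)
        ((norm_nonneg _).trans h2)
    have h3 := intervalIntegral.norm_integral_le_of_norm_le_const h1
    rw [abs_of_pos hd] at h3
    refine h3.trans (le_of_eq ?_)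
    field_simp

theorem itP_bound {m : ℕ} (P : Fin m → Piece) (S : Fin m → ℂ → Prop) (c : Fin m → ℝ)
    (hP : ∀ j, (P j).ok (S j) (c j)) (F : (Fin m → ℂ) → ℂ) (A : ℝ) (hA0 : 0 ≤ A)
    (h : ∀ z : Fin m → ℂ, (∀ j, S j (z j)) → ‖F z‖ ≤ A) : ‖itP P F‖ ≤ (∏ j, c j) * A := by
  induction m generalizing A with
  | zero =>
    rw [Finset.univ_eq_empty, Finset.prod_empty, one_mul]
    exact h _ fun j => j.elim0
  | succ m ih =>
    have hc0 : 0 ≤ c 0 := by
      have h1 := (hP 0).bd (P 0).α ⟨le_rfl, (hP 0).le⟩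
      exact (mul_nonneg (norm_nonneg _) (by linarith [(hP 0).le])).trans h1
    have h1 := ih (fun j => P j.succ) (fun j => S j.succ) (fun j => c j.succ)
      (fun j => hP j.succ) (fun z => (P 0).int (fun w => F (Fin.cons w z))) (c 0 * A)
      (mul_nonneg hc0 hA0) (fun z hz => by
        refine ItP_int_bound (P 0) (S 0) (c 0) (hP 0) _ A hA0 fun w hw => ?_
        refine h _ fun j => ?_
        refine Fin.cases ?_ (fun j => ?_) j
        · rw [Fin.cons_zero]
          exact hw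
        · rw [Fin.cons_succ]
          exact hz j)
    refine h1.trans (le_of_eq ?_)
    rw [Fin.prod_univ_succ]
    ring

theorem itP_flat {m : ℕ} (M : ℕ) (y1 y2 : ℝ) (h12 : y1 ≤ y2) (Y : Fin m → ℝ)
    (F : (Fin m → ℂ) → ℂ) (hF : Continuous F) :
    itP (fun j => flatP M y1 y2 (Y j)) F =
      (M : ℂ) ^ m * ∫ x in Set.pi Set.univ (fun _ : Fin m => Set.Ioc y1 y2),
        F (fun j => x j + Y j * I) := by
  induction m with
  | zero =>
    have h2 : Set.pi Set.univ (fun _ : Fin 0 => Set.Ioc y1 y2) = Set.univ := by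
      ext t
      simp
    rw [h2]
    have h3 : ∀ z : Fin 0 → ℂ, F z = F Fin.elim0 := fun z => congrArg F (Subsingleton.elim _ _)
    simp only [h3]
    have h4 : MeasureTheory.volume.real (Set.univ : Set (Fin 0 → ℝ)) = 1 := by
      simp [MeasureTheory.Measure.real, MeasureTheory.volume_pi]
    simp [h4, itP]
  | succ m ih =>
    have hcw : Continuous (flatP M y1 y2 (Y 0)).w := continuous_const
    have hcz : Continuous (flatP M y1 y2 (Y 0)).z :=
      Complex.continuous_ofReal.add continuous_const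
    have h1 := ih (fun j => Y j.succ)
      (fun z => (flatP M y1 y2 (Y 0)).int (fun w => F (Fin.cons w z)))
      (ItP_inner_continuous _ hcw hcz F hF)
    have h2 := (Hybrid_int (fun x : Fin (m + 1) → ℝ => F (fun j => x j + Y j * I)) y1 y2
      (Hybrid_integrable F y1 y2 Y fun x _ => hF.continuousAt)).2
    show itP (fun j : Fin m => flatP M y1 y2 (Y j.succ))
      (fun z => (flatP M y1 y2 (Y 0)).int (fun w => F (Fin.cons w z))) = _
    rw [h1, h2, pow_succ, mul_assoc]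
    congr 1
    rw [← MeasureTheory.integral_const_mul]
    congr 1
    funext x'
    unfold Piece.int flatP
    rw [intervalIntegral.integral_of_le h12, ← MeasureTheory.integral_const_mul]
    congr 1
    funext x0
    have e : (Fin.cons ((x0 : ℂ) + Y 0 * I) (fun j => (x' j : ℂ) + Y j.succ * I) :
        Fin (m + 1) → ℂ) =
        fun j => (((Fin.cons x0 x' : Fin (m + 1) → ℝ) j : ℝ) : ℂ) + Y j * I := by
      funext j
      refine Fin.cases ?_ (fun j => ?_) j
      · rw [Fin.cons_zero, Fin.cons_zero]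
      · rw [Fin.cons_succ, Fin.cons_succ]
    rw [← e]

end Pool.Agent.H63.VC6

end

section

/-! # Multiple sums as multiple integrals over product paths -/

namespace Pool.Agent.H63.VC6

open Pool.Agent.H63.VC
open Pool.Agent.H63.VC3 Pool.Agent.H63.VC4 Complex
open scoped BigOperators

/-- Retraction onto a rectangle. -/
noncomputable def clp (y1 y2 η : ℝ) (z : ℂ) : ℂ :=
  ((max y1 (min y2 z.re) : ℝ) : ℂ) + ((max (-η) (min η z.im) : ℝ) : ℂ) * I

theorem clp_continuous (y1 y2 η : ℝ) : Continuous (clp y1 y2 η) := by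
  unfold clp
  refine Continuous.add ?_ (Continuous.mul ?_ continuous_const)
  · exact Complex.continuous_ofReal.comp
      (continuous_const.max (continuous_const.min Complex.continuous_re))
  · exact Complex.continuous_ofReal.comp
      (continuous_const.max (continuous_const.min Complex.continuous_im))

theorem Multi_clp_re (y1 y2 η : ℝ) (z : ℂ) : (clp y1 y2 η z).re = max y1 (min y2 z.re) := by
  unfold clp
  simp

theorem Multi_clp_im (y1 y2 η : ℝ) (z : ℂ) : (clp y1 y2 η z).im = max (-η) (min η z.im) := by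
  unfold clp
  simp

theorem clp_mem (y1 y2 η : ℝ) (h12 : y1 ≤ y2) (hη : 0 ≤ η) (z : ℂ) :
    y1 ≤ (clp y1 y2 η z).re ∧ (clp y1 y2 η z).re ≤ y2 ∧ |(clp y1 y2 η z).im| ≤ η := by
  rw [Multi_clp_re, Multi_clp_im]
  refine ⟨le_max_left _ _, max_le h12 (min_le_left _ _), ?_⟩
  rw [abs_le]
  exact ⟨le_max_left _ _, max_le (by linarith only [hη]) (min_le_left _ _)⟩

theorem clp_eq (y1 y2 η : ℝ) (z : ℂ) (h1 : y1 ≤ z.re) (h2 : z.re ≤ y2) (h3 : |z.im| ≤ η) :
    clp y1 y2 η z = z := by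
  rw [abs_le] at h3
  apply Complex.ext
  · rw [Multi_clp_re, min_eq_right h2, max_eq_right h1]
  · rw [Multi_clp_im, min_eq_right h3.2, max_eq_right h3.1]

/-- Being in the rectangle. -/
def Multi_R (y1 y2 η : ℝ) (z : ℂ) : Prop := y1 ≤ z.re ∧ z.re ≤ y2 ∧ |z.im| ≤ η

theorem Multi_R_clp (y1 y2 η : ℝ) (h12 : y1 ≤ y2) (hη : 0 ≤ η) (z : ℂ) :
    Multi_R y1 y2 η (clp y1 y2 η z) := clp_mem y1 y2 η h12 hη z

theorem Multi_R_real (y1 y2 η : ℝ) (hη : 0 ≤ η) (x : ℝ) (h1 : y1 ≤ x) (h2 : x ≤ y2) :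
    Multi_R y1 y2 η (x : ℂ) := by
  refine ⟨by simpa using h1, by simpa using h2, by simpa using hη⟩

theorem Multi_R_cons {m : ℕ} (y1 y2 η : ℝ) (a : ℂ) (z : Fin m → ℂ) (ha : Multi_R y1 y2 η a)
    (hz : ∀ i, Multi_R y1 y2 η (z i)) (i : Fin (m + 1)) :
    Multi_R y1 y2 η ((Fin.cons a z : Fin (m + 1) → ℂ) i) := by
  refine Fin.cases ?_ (fun j => ?_) i
  · simpa using ha
  · simpa using hz j

theorem Multi_cont {m : ℕ} (F : (Fin m → ℂ) → ℂ) (y1 y2 η : ℝ) (h12 : y1 ≤ y2) (hη : 0 ≤ η)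
    (hF : ∀ z : Fin m → ℂ, (∀ i, Multi_R y1 y2 η (z i)) → ContinuousAt F z) :
    Continuous (fun z : Fin m → ℂ => F (fun j => clp y1 y2 η (z j))) := by
  rw [continuous_iff_continuousAt]
  intro z
  have hg : Continuous (fun z : Fin m → ℂ => (fun j => clp y1 y2 η (z j))) :=
    continuous_pi fun j => (clp_continuous y1 y2 η).comp (continuous_apply j)
  exact ContinuousAt.comp (f := fun z : Fin m → ℂ => (fun j => clp y1 y2 η (z j)))
    (hF _ (fun i => Multi_R_clp y1 y2 η h12 hη (z i))) hg.continuousAt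

theorem Multi_int_congr (P : Piece) (S : ℂ → Prop) (c : ℝ) (hP : P.ok S c) (f g : ℂ → ℂ)
    (h : ∀ z, S z → f z = g z) : P.int f = P.int g := by
  unfold Piece.int
  apply intervalIntegral.integral_congr
  intro s hs
  rw [Set.uIcc_of_le hP.le] at hs
  show P.w s * f (P.z s) = P.w s * g (P.z s)
  rw [h _ (hP.mem s hs)]

theorem Multi_cons_clp {m : ℕ} (y1 y2 η : ℝ) (a : ℂ) (z : Fin m → ℂ)
    (ha : Multi_R y1 y2 η a) :
    (Fin.cons a (fun j => clp y1 y2 η (z j)) : Fin (m + 1) → ℂ) =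
      fun j => clp y1 y2 η ((Fin.cons a z : Fin (m + 1) → ℂ) j) := by
  funext i
  refine Fin.cases ?_ (fun j => ?_) i
  · simp only [Fin.cons_zero]
    exact (clp_eq y1 y2 η a ha.1 ha.2.1 ha.2.2).symm
  · simp only [Fin.cons_succ]

theorem Multi_cons_cont {m : ℕ} :
    Continuous (fun p : (Fin m → ℂ) × ℂ => (Fin.cons p.2 p.1 : Fin (m + 1) → ℂ)) := by
  refine continuous_pi fun i => ?_
  refine Fin.cases ?_ (fun j => ?_) i
  · simpa using continuous_snd
  · simp only [Fin.cons_succ]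
    exact (continuous_apply j).comp continuous_fst

theorem Multi_sum_cons {m : ℕ} (G : (Fin (m + 1) → Fin 9) → ℂ) :
    ∑ q : Fin (m + 1) → Fin 9, G q =
      ∑ q' : Fin m → Fin 9, ∑ q0 : Fin 9, G (Fin.cons q0 q') := by
  rw [← (Fin.consEquiv (fun _ : Fin (m + 1) => Fin 9)).sum_comp, Fintype.sum_prod_type,
    Finset.sum_comm]
  rfl

/-- The multiple sum as a sum of iterated integrals. -/
theorem sum_multi {m : ℕ} (F : (Fin m → ℂ) → ℂ) (n M k1 k2 : ℕ) (η : ℝ) (y1 y2 : ℝ)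
    (h12 : y1 ≤ y2) (hη : 0 ≤ η) (P : Fin m → Fin 9 → Piece) (S : Fin m → Fin 9 → ℂ → Prop)
    (c : Fin m → Fin 9 → ℝ) (hP : ∀ j q, (P j q).ok (S j q) (c j q))
    (hS : ∀ j q z, S j q z → y1 ≤ z.re ∧ z.re ≤ y2 ∧ |z.im| ≤ η)
    (hk : ∀ k ∈ Finset.Icc k1 k2, y1 ≤ yk n M k ∧ yk n M k ≤ y2)
    (hsum : ∀ j, ∀ f : ℂ → ℂ, (∀ z : ℂ, y1 ≤ z.re → z.re ≤ y2 → |z.im| ≤ η →
      DifferentiableAt ℂ f z) → ∑ k ∈ Finset.Icc k1 k2, f (yk n M k) = ∑ q, (P j q).int f)
    (hF : ∀ z : Fin m → ℂ, (∀ i, y1 ≤ (z i).re ∧ (z i).re ≤ y2 ∧ |(z i).im| ≤ η) →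
      ContinuousAt F z ∧ ∀ j, DifferentiableAt ℂ (fun w => F (Function.update z j w)) (z j)) :
    ∑ t ∈ Fintype.piFinset (fun _ : Fin m => Finset.Icc k1 k2), F (fun j => yk n M (t j)) =
      ∑ q : Fin m → Fin 9, itP (fun j => P j (q j)) (fun z => F (fun j => clp y1 y2 η (z j))) := by
  induction m with
  | zero =>
    rw [Fintype.sum_unique]
    have h0 : Fintype.piFinset (fun _ : Fin 0 => Finset.Icc k1 k2) = {Fin.elim0} := by
      ext t
      rw [Fintype.mem_piFinset, Finset.mem_singleton]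
      exact ⟨fun _ => Subsingleton.elim _ _, fun _ a => a.elim0⟩
    rw [h0, Finset.sum_singleton]
    show _ = F (fun j => clp y1 y2 η ((Fin.elim0 : Fin 0 → ℂ) j))
    congr 1
    exact Subsingleton.elim _ _
  | succ m ih =>
    have hdiff : ∀ (a : ℂ) (z : Fin m → ℂ), Multi_R y1 y2 η a → (∀ i, Multi_R y1 y2 η (z i)) →
        ContinuousAt F (Fin.cons a z) ∧ ∀ j, DifferentiableAt ℂ
          (fun w => F (Function.update (Fin.cons a z : Fin (m + 1) → ℂ) j w))
          ((Fin.cons a z : Fin (m + 1) → ℂ) j) :=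
      fun a z ha hz => hF _ (Multi_R_cons y1 y2 η a z ha hz)
    have hyk : ∀ k ∈ Finset.Icc k1 k2, Multi_R y1 y2 η ((yk n M k : ℝ) : ℂ) :=
      fun k hk' => Multi_R_real y1 y2 η hη _ (hk k hk').1 (hk k hk').2
    rw [Hybrid_sum, Finset.sum_comm]
    have e1 : ∀ (t0 : ℕ) (t' : Fin m → ℕ),
        (fun j => ((yk n M ((Fin.cons t0 t' : Fin (m + 1) → ℕ) j) : ℝ) : ℂ)) =
          (Fin.cons ((yk n M t0 : ℝ) : ℂ) (fun j => ((yk n M (t' j) : ℝ) : ℂ)) :
            Fin (m + 1) → ℂ) := by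
      intro t0 t'
      funext i
      refine Fin.cases ?_ (fun j => ?_) i <;> rfl
    simp only [e1]
    have ih' := ih (fun z' => ∑ t0 ∈ Finset.Icc k1 k2, F (Fin.cons ((yk n M t0 : ℝ) : ℂ) z'))
      (fun j => P j.succ) (fun j => S j.succ) (fun j => c j.succ) (fun j => hP j.succ)
      (fun j => hS j.succ) (fun j => hsum j.succ) (by
        intro z hz
        refine ⟨?_, fun j => ?_⟩
        · refine tendsto_finsetSum _ fun t0 ht0 => ?_
          exact Hybrid_continuousAt F _ z (hdiff _ z (hyk t0 ht0) hz).1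
        · refine DifferentiableAt.fun_sum fun t0 ht0 => ?_
          have h1 := (hdiff _ z (hyk t0 ht0) hz).2 j.succ
          simp only [Hybrid_update, Fin.cons_succ] at h1
          exact h1)
    rw [ih', Multi_sum_cons]
    apply Finset.sum_congr rfl
    intro q' _
    have hcont : ∀ q0 : Fin 9, Continuous (fun z : Fin m → ℂ => (P 0 q0).int (fun w =>
        F (fun j => clp y1 y2 η ((Fin.cons w z : Fin (m + 1) → ℂ) j)))) := by
      intro q0
      apply Piece_int_continuous (P 0 q0) (hP 0 q0).cw (hP 0 q0).cz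
        (fun z w => F (fun j => clp y1 y2 η ((Fin.cons w z : Fin (m + 1) → ℂ) j)))
      exact (Multi_cont F y1 y2 η h12 hη (fun z hz => (hF z hz).1)).comp Multi_cons_cont
    have e2 : ∀ q0 : Fin 9, itP (fun j => P j ((Fin.cons q0 q' : Fin (m + 1) → Fin 9) j))
        (fun z => F (fun j => clp y1 y2 η (z j))) =
        itP (fun j => P j.succ (q' j)) (fun z => (P 0 q0).int (fun w =>
          F (fun j => clp y1 y2 η ((Fin.cons w z : Fin (m + 1) → ℂ) j)))) := fun q0 => rfl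
    simp only [e2]
    rw [← itP_sum Finset.univ (fun j => P j.succ (q' j))
      (fun j => ⟨(hP j.succ (q' j)).cw, (hP j.succ (q' j)).cz⟩) _ (fun q0 _ => hcont q0)]
    apply itP_congr (fun j => P j.succ (q' j)) (fun j => S j.succ (q' j)) (fun j => c j.succ (q' j))
      (fun j => hP j.succ (q' j))
    intro z _
    have hz' : ∀ i, Multi_R y1 y2 η (clp y1 y2 η (z i)) := fun i => Multi_R_clp y1 y2 η h12 hη (z i)
    have h2 := hsum 0 (fun w => F (Fin.cons w (fun j => clp y1 y2 η (z j)))) (by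
      intro w hw1 hw2 hw3
      have h3 := (hdiff w _ ⟨hw1, hw2, hw3⟩ hz').2 0
      simp only [Fin.update_cons_zero, Fin.cons_zero] at h3
      exact h3)
    show ∑ t0 ∈ Finset.Icc k1 k2, F (Fin.cons ((yk n M t0 : ℝ) : ℂ)
      (fun j => clp y1 y2 η (z j))) = _
    rw [h2]
    apply Finset.sum_congr rfl
    intro q0 _
    apply Multi_int_congr (P 0 q0) (S 0 q0) (c 0 q0) (hP 0 q0)
    intro w hw
    rw [Multi_cons_clp y1 y2 η w z (hS 0 q0 w hw)]

/-- The estimates of a multiple sum. -/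
theorem prodpath {m : ℕ} (F : (Fin m → ℂ) → ℂ) (n M k1 k2 : ℕ) (η : ℝ) (Y : Fin m → ℝ)
    (hM : 0 < M) (hk : k1 ≤ k2) (hη : 0 < η) (hη' : η ≤ 1) (hY : ∀ j, |Y j| ≤ η)
    (hM' : 1 ≤ 2 * Real.pi * η * M) (y1 y2 : ℝ) (hy1 : y1 = (k1 + bt n) / M - 1 / 2)
    (hy2 : y2 = (k2 + 1 + bt n) / M - 1 / 2) (hy : y2 - y1 ≤ 1) (A B : ℝ) (hA0 : 0 ≤ A)
    (hB0 : 0 ≤ B)
    (hF : ∀ z : Fin m → ℂ, (∀ i, y1 ≤ (z i).re ∧ (z i).re ≤ y2 ∧ |(z i).im| ≤ η) →
      ContinuousAt F z ∧ ∀ j, DifferentiableAt ℂ (fun w => F (Function.update z j w)) (z j))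
    (hA : ∀ (σ : Fin m → Fin 3) (z : Fin m → ℂ), (∀ j, Stt y1 y2 η (Y j) (σ j) (z j)) →
      ‖F z‖ ≤ A * ∏ j, dmp η M (σ j))
    (hB : ∀ (σ : Fin m → Fin 3) (z : Fin m → ℂ), (∃ j, σ j ≠ 0) →
      (∀ j, Stt y1 y2 η (Y j) (σ j) (z j)) → ‖F z‖ ≤ B * ∏ j, dmp η M (σ j)) :
    ‖∑ t ∈ Fintype.piFinset (fun _ : Fin m => Finset.Icc k1 k2), F (fun j => yk n M (t j))‖ ≤
      (18 * (M : ℝ)) ^ m * A ∧
    ‖∑ t ∈ Fintype.piFinset (fun _ : Fin m => Finset.Icc k1 k2), F (fun j => yk n M (t j)) -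
      (M : ℂ) ^ m * ∫ x in Set.pi Set.univ (fun _ : Fin m => Set.Ioc y1 y2),
        F (fun j => x j + Y j * I)‖ ≤ (18 * (M : ℝ)) ^ m * B := by
  have hM0 : (0 : ℝ) < M := by exact_mod_cast hM
  have hkk : (k1 : ℝ) ≤ k2 := by exact_mod_cast hk
  have h12 : y1 ≤ y2 := by
    rw [hy1, hy2]
    have : (k1 + bt n) / M ≤ (k2 + 1 + bt n) / M :=
      div_le_div_of_nonneg_right (by linarith only [hkk]) hM0.le
    linarith only [this]
  have hyk : ∀ k ∈ Finset.Icc k1 k2, y1 ≤ yk n M k ∧ yk n M k ≤ y2 := by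
    intro k hk'
    rw [Finset.mem_Icc] at hk'
    have h1 : (k1 : ℝ) ≤ k := by exact_mod_cast hk'.1
    have h2 : (k : ℝ) ≤ k2 := by exact_mod_cast hk'.2
    rw [hy1, hy2]
    unfold yk
    have h3 : (k1 + bt n) / M ≤ (k + bt n + 1 / 2) / M :=
      div_le_div_of_nonneg_right (by linarith only [h1]) hM0.le
    have h4 : (k + bt n + 1 / 2) / M ≤ (k2 + 1 + bt n) / M :=
      div_le_div_of_nonneg_right (by linarith only [h2]) hM0.le
    exact ⟨by linarith only [h3], by linarith only [h4]⟩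
  have hex := fun j => sum_pieces n M k1 k2 η (Y j) hM hk hη hη' (hY j) hM' y1 y2 hy1 hy2 hy
  choose P hP0 hPok hPsum using hex
  have key := sum_multi F n M k1 k2 η y1 y2 h12 hη.le P
    (fun j q => Stt y1 y2 η (Y j) (knd q)) (fun _ q => 2 * M / dmp η M (knd q)) hPok
    (fun j q z hz => ⟨hz.1, hz.2.1, hz.2.2.1⟩) hyk hPsum hF
  have hdmp : ∀ σ : Fin 3, 0 < dmp η M σ := by
    intro σ
    unfold dmp
    split_ifs
    · exact Real.exp_pos _
    · exact one_pos
  have hclp : ∀ (q : Fin m → Fin 9) (z : Fin m → ℂ),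
      (∀ j, Stt y1 y2 η (Y j) (knd (q j)) (z j)) → (fun j => clp y1 y2 η (z j)) = z := by
    intro q z hz
    funext j
    exact clp_eq y1 y2 η (z j) (hz j).1 (hz j).2.1 (hz j).2.2.1
  have hprod : ∀ (q : Fin m → Fin 9) (A : ℝ),
      (∏ j, 2 * (M : ℝ) / dmp η M (knd (q j))) * (A * ∏ j, dmp η M (knd (q j))) =
        (2 * (M : ℝ)) ^ m * A := by
    intro q A
    rw [Finset.prod_div_distrib, Finset.prod_const, Finset.card_univ, Fintype.card_fin]
    have : ∏ j, dmp η M (knd (q j)) ≠ 0 := Finset.prod_ne_zero_iff.2 fun j _ => (hdmp _).ne'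
    field_simp
  have hbd : ∀ (q : Fin m → Fin 9) (A : ℝ), 0 ≤ A →
      (∀ z : Fin m → ℂ, (∀ j, Stt y1 y2 η (Y j) (knd (q j)) (z j)) →
        ‖F z‖ ≤ A * ∏ j, dmp η M (knd (q j))) →
      ‖itP (fun j => P j (q j)) (fun z => F (fun j => clp y1 y2 η (z j)))‖ ≤
        (2 * (M : ℝ)) ^ m * A := by
    intro q A hA h
    have h1 := itP_bound (fun j => P j (q j)) (fun j => Stt y1 y2 η (Y j) (knd (q j)))
      (fun j => 2 * (M : ℝ) / dmp η M (knd (q j))) (fun j => hPok j (q j))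
      (fun z => F (fun j => clp y1 y2 η (z j))) (A * ∏ j, dmp η M (knd (q j)))
      (mul_nonneg hA (Finset.prod_nonneg fun j _ => (hdmp _).le)) (by
        intro z hz
        show ‖F (fun j => clp y1 y2 η (z j))‖ ≤ _
        rw [hclp q z hz]
        exact h z hz)
    rw [hprod] at h1
    exact h1
  have hcard : ∀ A : ℝ, ∑ _q : Fin m → Fin 9, (2 * (M : ℝ)) ^ m * A = (18 * (M : ℝ)) ^ m * A := by
    intro A
    rw [Finset.sum_const, Finset.card_univ, Fintype.card_fun, Fintype.card_fin, Fintype.card_fin,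
      nsmul_eq_mul]
    push_cast
    rw [← mul_assoc, ← mul_pow]
    norm_num [← mul_assoc]
  refine ⟨?_, ?_⟩
  · rw [key]
    refine (norm_sum_le _ _).trans ?_
    rw [← hcard A]
    apply Finset.sum_le_sum
    intro q _
    exact hbd q A hA0 (fun z hz => hA (fun j => knd (q j)) z hz)
  · have hflat : itP (fun j => P j ((0 : Fin m → Fin 9) j))
        (fun z => F (fun j => clp y1 y2 η (z j))) =
        (M : ℂ) ^ m * ∫ x in Set.pi Set.univ (fun _ : Fin m => Set.Ioc y1 y2),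
          F (fun j => x j + Y j * I) := by
      have e1 : (fun j => P j ((0 : Fin m → Fin 9) j)) = fun j => flatP M y1 y2 (Y j) := by
        funext j
        exact hP0 j
      rw [e1, itP_flat M y1 y2 h12 Y _ (Multi_cont F y1 y2 η h12 hη.le (fun z hz => (hF z hz).1))]
      congr 1
      apply MeasureTheory.setIntegral_congr_fun
        (MeasurableSet.univ_pi fun _ => measurableSet_Ioc)
      intro x hx
      rw [Set.mem_univ_pi] at hx
      show F (fun j => clp y1 y2 η (x j + Y j * I)) = F (fun j => x j + Y j * I)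
      congr 1
      funext j
      apply clp_eq
      · simpa using (hx j).1.le
      · simpa using (hx j).2
      · simpa using hY j
    rw [key, ← Finset.add_sum_erase Finset.univ _ (Finset.mem_univ (0 : Fin m → Fin 9)), hflat,
      add_sub_cancel_left]
    refine (norm_sum_le _ _).trans ?_
    rw [← hcard B]
    have h1 : ∑ q ∈ Finset.univ.erase (0 : Fin m → Fin 9), (2 * (M : ℝ)) ^ m * B ≤
        ∑ _q : Fin m → Fin 9, (2 * (M : ℝ)) ^ m * B :=
      Finset.sum_le_sum_of_subset_of_nonneg (Finset.erase_subset _ _)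
        (fun _ _ _ => by positivity)
    refine le_trans (Finset.sum_le_sum fun q hq => ?_) h1
    have hq0 : q ≠ 0 := Finset.ne_of_mem_erase hq
    obtain ⟨j, hj⟩ : ∃ j, q j ≠ 0 := by
      by_contra hcon
      push Not at hcon
      exact hq0 (funext hcon)
    have hkj : knd (q j) ≠ 0 := by
      unfold knd
      rw [if_neg hj]
      split_ifs <;> decide
    exact hbd q B hB0 (fun z hz => hB (fun j => knd (q j)) z ⟨j, hkj⟩ hz)

end Pool.Agent.H63.VC6

end

section

/-! # Sums over the free variables -/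

namespace Pool.Agent.H63.VC7

open Pool.Agent.H63.VC
open Pool.Agent.H63.VC3 Pool.Agent.H63.VC4 Pool.Agent.H63.VC6 Complex

variable {m p : ℕ}

open Classical in
/-- The values of the variables: fixed ones in `E`. -/
noncomputable def mixv (E : Finset (Fin m)) (x z : Fin m → ℂ) : Fin m → ℂ :=
  fun j => if j ∈ E then x j else z j

/-- the indices outside `E` -/
abbrev MixG_Q (E : Finset (Fin m)) : Type := {j : Fin m // j ∉ E}

/-- extension of a point of the free variables -/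
noncomputable def MixG_ext (E : Finset (Fin m)) (x : Fin m → ℂ)
    (z' : Fin (Fintype.card (MixG_Q E)) → ℂ) : Fin m → ℂ :=
  fun j => if h : j ∈ E then x j else z' (Fintype.equivFin (MixG_Q E) ⟨j, h⟩)

theorem MixG_ext_mem (E : Finset (Fin m)) (x : Fin m → ℂ)
    (z' : Fin (Fintype.card (MixG_Q E)) → ℂ) (j : Fin m) (h : j ∈ E) :
    MixG_ext E x z' j = x j := dif_pos h

theorem MixG_ext_notMem (E : Finset (Fin m)) (x : Fin m → ℂ)
    (z' : Fin (Fintype.card (MixG_Q E)) → ℂ) (j : Fin m) (h : j ∉ E) :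
    MixG_ext E x z' j = z' (Fintype.equivFin (MixG_Q E) ⟨j, h⟩) := dif_neg h

theorem MixG_ext_symm (E : Finset (Fin m)) (x : Fin m → ℂ)
    (z' : Fin (Fintype.card (MixG_Q E)) → ℂ) (i : Fin (Fintype.card (MixG_Q E))) :
    MixG_ext E x z' ((Fintype.equivFin (MixG_Q E)).symm i).1 = z' i := by
  rw [MixG_ext_notMem _ _ _ _ ((Fintype.equivFin (MixG_Q E)).symm i).2]
  simp

theorem MixG_ext_update (E : Finset (Fin m)) (x : Fin m → ℂ)
    (z' : Fin (Fintype.card (MixG_Q E)) → ℂ) (i : Fin (Fintype.card (MixG_Q E))) (w : ℂ) :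
    MixG_ext E x (Function.update z' i w) =
      Function.update (MixG_ext E x z') ((Fintype.equivFin (MixG_Q E)).symm i).1 w := by
  funext j
  by_cases hj : j = ((Fintype.equivFin (MixG_Q E)).symm i).1
  · subst hj
    rw [MixG_ext_symm, Function.update_self, Function.update_self]
  · rw [Function.update_of_ne hj]
    by_cases h : j ∈ E
    · rw [MixG_ext_mem _ _ _ _ h, MixG_ext_mem _ _ _ _ h]
    · rw [MixG_ext_notMem _ _ _ _ h, MixG_ext_notMem _ _ _ _ h, Function.update_of_ne]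
      intro hEq
      apply hj
      rw [← hEq]
      simp

theorem MixG_ext_continuous (E : Finset (Fin m)) (x : Fin m → ℂ) :
    Continuous (MixG_ext E x) := by
  refine continuous_pi ?_
  intro j
  by_cases h : j ∈ E
  · have : (fun z' => MixG_ext E x z' j) = fun _ => x j := by
      funext z'
      exact MixG_ext_mem _ _ _ _ h
    rw [this]
    exact continuous_const
  · have : (fun z' => MixG_ext E x z' j) =
        fun z' => z' (Fintype.equivFin (MixG_Q E) ⟨j, h⟩) := by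
      funext z'
      exact MixG_ext_notMem _ _ _ _ h
    rw [this]
    exact continuous_apply _

open Classical in
theorem MixG_prod (E : Finset (Fin m)) (f : Fin m → ℝ) :
    ∏ j ∈ Eᶜ, f j =
      ∏ i : Fin (Fintype.card (MixG_Q E)), f ((Fintype.equivFin (MixG_Q E)).symm i).1 := by
  have h1 : ∏ j ∈ Eᶜ, f j = ∏ q : MixG_Q E, f q.1 := by
    refine Finset.prod_subtype (Eᶜ) (p := fun j => j ∉ E) ?_ f
    intro j
    rw [Finset.mem_compl]
  rw [h1]
  exact (Equiv.prod_comp (Fintype.equivFin (MixG_Q E)).symm (fun q : MixG_Q E => f q.1)).symm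

open Classical in
theorem mix_bound (F : (Fin m → ℂ) → ℂ) (E : Finset (Fin m)) (κ : Fin m → ℕ) (x : Fin m → ℂ)
    (n M k1 k2 : ℕ) (η : ℝ) (Y : Fin m → ℝ)
    (hM : 0 < M) (hk : k1 ≤ k2) (hη : 0 < η) (hη' : η ≤ 1) (hY : ∀ j, |Y j| ≤ η)
    (hM' : 1 ≤ 2 * Real.pi * η * M) (y1 y2 : ℝ) (hy1 : y1 = (k1 + bt n) / M - 1 / 2)
    (hy2 : y2 = (k2 + 1 + bt n) / M - 1 / 2) (hy : y2 - y1 ≤ 1) (A : ℝ) (hA0 : 0 ≤ A)
    (hF : ∀ z : Fin m → ℂ, (∀ j, j ∉ E → y1 ≤ (z j).re ∧ (z j).re ≤ y2 ∧ |(z j).im| ≤ η) →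
      (∀ j ∈ E, z j = x j) →
      ContinuousAt F z ∧ ∀ j, j ∉ E → DifferentiableAt ℂ (fun w => F (Function.update z j w)) (z j))
    (hA : ∀ (σ : Fin m → Fin 3) (z : Fin m → ℂ), (∀ j, j ∉ E → Stt y1 y2 η (Y j) (σ j) (z j)) →
      (∀ j ∈ E, z j = x j) → ‖F z‖ ≤ A * ∏ j ∈ Eᶜ, dmp η M (σ j)) :
    ‖∑ k ∈ Fintype.piFinset (fun j : Fin m => if j ∈ E then {κ j} else Finset.Icc k1 k2),
      F (mixv E x (fun j => ((yk n M (k j) : ℝ) : ℂ)))‖ ≤ (18 * (M : ℝ)) ^ m * A := by
  have hA' : ∀ (σ' : Fin (Fintype.card (MixG_Q E)) → Fin 3)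
      (z' : Fin (Fintype.card (MixG_Q E)) → ℂ),
      (∀ i, Stt y1 y2 η (Y ((Fintype.equivFin (MixG_Q E)).symm i).1) (σ' i) (z' i)) →
      ‖F (MixG_ext E x z')‖ ≤ A * ∏ i, dmp η M (σ' i) := by
    intro σ' z' hz
    have h := hA (fun j => if h : j ∈ E then 0 else σ' (Fintype.equivFin (MixG_Q E) ⟨j, h⟩))
      (MixG_ext E x z') ?_ (fun j hj => MixG_ext_mem _ _ _ _ hj)
    · rw [MixG_prod] at h
      refine h.trans (le_of_eq ?_)
      congr 1
      refine Finset.prod_congr rfl ?_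
      intro i _
      rw [dif_neg ((Fintype.equivFin (MixG_Q E)).symm i).2]
      simp
    · intro j hj
      rw [dif_neg hj, MixG_ext_notMem _ _ _ _ hj]
      have := hz (Fintype.equivFin (MixG_Q E) ⟨j, hj⟩)
      simpa using this
  have key := (prodpath (fun z' => F (MixG_ext E x z')) n M k1 k2 η
    (fun i => Y ((Fintype.equivFin (MixG_Q E)).symm i).1) hM hk hη hη' (fun i => hY _) hM'
    y1 y2 hy1 hy2 hy A A hA0 hA0 ?_ hA' (fun σ' z' _ hz => hA' σ' z' hz)).1
  · have hsum : ∑ k ∈ Fintype.piFinset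
        (fun j : Fin m => if j ∈ E then {κ j} else Finset.Icc k1 k2),
        F (mixv E x (fun j => ((yk n M (k j) : ℝ) : ℂ))) =
        ∑ t ∈ Fintype.piFinset (fun _ : Fin (Fintype.card (MixG_Q E)) => Finset.Icc k1 k2),
          F (MixG_ext E x (fun i => ((yk n M (t i) : ℝ) : ℂ))) := by
      refine Finset.sum_bij'
        (fun k _ => fun i => k ((Fintype.equivFin (MixG_Q E)).symm i).1)
        (fun t _ => fun j => if h : j ∈ E then κ j
          else t (Fintype.equivFin (MixG_Q E) ⟨j, h⟩)) ?_ ?_ ?_ ?_ ?_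
      · intro k hk
        rw [Fintype.mem_piFinset] at hk ⊢
        intro i
        have := hk ((Fintype.equivFin (MixG_Q E)).symm i).1
        rwa [if_neg ((Fintype.equivFin (MixG_Q E)).symm i).2] at this
      · intro t ht
        rw [Fintype.mem_piFinset] at ht ⊢
        intro j
        by_cases h : j ∈ E
        · rw [if_pos h, dif_pos h]
          exact Finset.mem_singleton_self _
        · rw [if_neg h, dif_neg h]
          exact ht _
      · intro k hk
        rw [Fintype.mem_piFinset] at hk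
        funext j
        by_cases h : j ∈ E
        · have := hk j
          rw [if_pos h, Finset.mem_singleton] at this
          simp only [dif_pos h, this]
        · simp only [dif_neg h, Equiv.symm_apply_apply]
      · intro t _
        funext i
        have h := ((Fintype.equivFin (MixG_Q E)).symm i).2
        simp only [dif_neg h]
        simp
      · intro k _
        congr 1
        funext j
        unfold mixv
        by_cases h : j ∈ E
        · rw [if_pos h, MixG_ext_mem _ _ _ _ h]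
        · rw [if_neg h, MixG_ext_notMem _ _ _ _ h]
          simp only [Equiv.symm_apply_apply]
    rw [hsum]
    refine key.trans ?_
    refine mul_le_mul_of_nonneg_right ?_ hA0
    have hM1 : (1 : ℝ) ≤ (M : ℝ) := by exact_mod_cast hM
    refine pow_le_pow_right₀ (by linarith) ?_
    calc Fintype.card (MixG_Q E) ≤ Fintype.card (Fin m) := Fintype.card_subtype_le _
      _ = m := Fintype.card_fin m
  · intro z' hz
    have h := hF (MixG_ext E x z') ?_ (fun j hj => MixG_ext_mem _ _ _ _ hj)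
    · refine ⟨ContinuousAt.comp (g := F) (f := MixG_ext E x) h.1
        (MixG_ext_continuous E x).continuousAt, ?_⟩
      intro i
      have h2 := h.2 ((Fintype.equivFin (MixG_Q E)).symm i).1
        ((Fintype.equivFin (MixG_Q E)).symm i).2
      rw [MixG_ext_symm] at h2
      have h3 : (fun w => F (MixG_ext E x (Function.update z' i w))) = fun w =>
          F (Function.update (MixG_ext E x z') ((Fintype.equivFin (MixG_Q E)).symm i).1 w) := by
        funext w
        rw [MixG_ext_update]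
      show DifferentiableAt ℂ (fun w => F (MixG_ext E x (Function.update z' i w))) (z' i)
      rw [h3]
      exact h2
    · intro j hj
      rw [MixG_ext_notMem _ _ _ _ hj]
      exact hz _

end Pool.Agent.H63.VC7

end
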