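import Pool.Agent.H94.PA.M16
import Pool.Agent.H94.PA.M18
import Pool.Agent.H94.PA.M21

/-! The parts of this file: H63.VC7.LowG, H63.VC7.SlotX, H63.VC7.DGb. -/

section

/-! # A lower bound of the contribution of a node -/

namespace Pool.Agent.H63.VC7

open Pool.Agent.H63.VC
open Pool.Agent.H63.VC3 Pool.Agent.H63.VC4 Pool.Agent.H63.VC6 Complex

variable {m p : ℕ} {s t : Fin m → Fin p} {r : Fin p → ℝ} {y : Fin m → ℂ} {v : Fin p → ℂ}

/-- The lower bound of a slot. -/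
theorem LowG_slot (r : ℝ) (y v : ℂ) (E : ℝ) (hr : 10 ≤ |r|) (hv : vloc v) (hy : yloc y)
    (hE : 0 ≤ E) (hyE : |y.re - 1 / 4| ≤ 3 / 10 * E) (hk : |kap y v| ≤ 36 / 10 * E) :
    4 * Fr (3 / 4) - 53 / 200 * Real.pi * (1 / r ^ 2) - 108 / 100 * E ^ 2 ≤
      (po (some y) v).re + (2 * ff (y + 1 / 2)).re +
        (-(1 / (2 * r)) - v.re) * (dpo (some y) v).re := by
  obtain ⟨b, hb⟩ : ∃ b, b = -(1 / (2 * r)) := ⟨_, rfl⟩
  have hne : r ≠ 0 := by
    intro h0
    rw [h0, abs_zero] at hr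
    norm_num at hr
  have s1 : |b| ≤ 1 / 20 := by
    rw [hb, abs_neg, abs_div, abs_one, abs_mul, abs_two]
    apply one_div_le_one_div_of_le (by norm_num)
    linarith
  have hb2 : b ^ 2 = 1 / 4 * (1 / r ^ 2) := by rw [hb]; field_simp; norm_num
  rw [← hb]
  obtain ⟨a1, a2⟩ := abs_le.1 s1
  have h0 := slot_horiz y v (1 / 4) b hy hv (by norm_num) (s1.trans (by norm_num))
  have g0 := (ff_vert_right (3 / 4) y.im (by norm_num) (by norm_num)).1
  have e0 : (((3 / 4 : ℝ)) : ℂ) + y.im * I = ((1 / 4 : ℝ) : ℂ) + y.im * I + 1 / 2 := by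
    push_cast; ring
  rw [e0] at g0
  have g1 := (ff_vert_left (1 / 4 - b) (y.im - v.im) (by linarith) (by linarith)).2
  have g2 := (ff_vert_left (1 / 4 + b) (y.im + v.im) (by linarith) (by linarith)).2
  have f1 := Fr_quarter b s1
  have e1 : ((1 / 4 - b : ℝ) : ℂ) + (y.im - v.im : ℝ) * I =
      ((1 / 4 : ℝ) : ℂ) + y.im * I - (b + v.im * I) := by
    push_cast; ring
  have e2 : ((1 / 4 + b : ℝ) : ℂ) + (y.im + v.im : ℝ) * I =
      ((1 / 4 : ℝ) : ℂ) + y.im * I + (b + v.im * I) := by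
    push_cast; ring
  rw [e1] at g1
  rw [e2] at g2
  rw [hb2] at f1
  have r2 : ∀ z : ℂ, (2 * z).re = 2 * z.re := fun z => by
    simp only [mul_re, re_ofNat, im_ofNat, zero_mul, sub_zero]
  have hkx : kap y v * (1 / 4 - y.re) ≤ 108 / 100 * E ^ 2 := by
    have h1 : |kap y v * (1 / 4 - y.re)| ≤ 36 / 10 * E * (3 / 10 * E) := by
      rw [abs_mul]
      apply mul_le_mul hk _ (abs_nonneg _) (by positivity)
      rw [abs_sub_comm]
      exact hyE
    have h2 := le_abs_self (kap y v * (1 / 4 - y.re))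
    have h3 : 36 / 10 * E * (3 / 10 * E) = 108 / 100 * E ^ 2 := by ring
    linarith
  have hsq : 0 ≤ (1 / 4 - y.re) ^ 2 := sq_nonneg _
  simp only [po, dpo, sub_re, neg_re, r2] at h0 ⊢
  linarith

theorem LowG_phase (r : ℝ) (V : ℂ) :
    (2 * Real.pi * I * (r * V ^ 2 + V)).re = -(2 * Real.pi * (2 * r * V.re * V.im + V.im)) := by
  simp [mul_re, mul_im, pow_two, add_re, add_im]
  ring

theorem LowG_dgcases (hc : CritG s t r y v) (i : Fin p) :
    (inc s t i).card = 1 ∧ dg s t i = 1 ∨ 2 ≤ dg s t i := by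
  have h := Finset.card_pos.2 (hc.ne i)
  by_cases h1 : (inc s t i).card = 1
  · left
    exact ⟨h1, by rw [dg, h1]; norm_num⟩
  · right
    have h2 : 2 ≤ (inc s t i).card := by omega
    rw [dg]
    exact_mod_cast h2

theorem LowG_esq (hc : CritG s t r y v) (i : Fin p) :
    53 / 200 * Real.pi * (dg s t i * (1 / (r i) ^ 2)) +
      108 / 100 * ∑ j ∈ inc s t i, (1 / (r (s j)) ^ 2 + 1 / (r (t j)) ^ 2) ^ 2 ≤ 88 / 10000 := by
  have hE0 : ∀ j, 0 ≤ 1 / (r (s j)) ^ 2 + 1 / (r (t j)) ^ 2 := fun j => by positivity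
  have hsq : ∀ j, (1 / (r (s j)) ^ 2 + 1 / (r (t j)) ^ 2) ^ 2 ≤
      1 / 50 * (1 / (r (s j)) ^ 2 + 1 / (r (t j)) ^ 2) := fun j => by
    rw [pow_two]
    exact mul_le_mul_of_nonneg_right (locG_edge hc j) (hE0 j)
  have hS : ∑ j ∈ inc s t i, (1 / (r (s j)) ^ 2 + 1 / (r (t j)) ^ 2) ^ 2 ≤
      1 / 50 * ∑ j ∈ inc s t i, (1 / (r (s j)) ^ 2 + 1 / (r (t j)) ^ 2) := by
    rw [Finset.mul_sum]
    exact Finset.sum_le_sum fun j _ => hsq j
  have hd1 := locG_dg hc i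
  have hr := hc.hr i
  have hr2 : 100 * dg s t i ^ 2 ≤ (r i) ^ 2 := by
    rw [← sq_abs (r i)]
    have := pow_le_pow_left₀ (by linarith) hr 2
    linarith [this]
  have hdr : dg s t i * (1 / (r i) ^ 2) ≤ 1 / (100 * dg s t i) := by
    rw [mul_one_div, div_le_div_iff₀ (by nlinarith) (by linarith)]
    nlinarith
  have hdr0 : 0 ≤ dg s t i * (1 / (r i) ^ 2) := by positivity
  have hpi := Real.pi_lt_d4
  have hpi0 := Real.pi_pos
  rcases LowG_dgcases hc i with ⟨h1, h2⟩ | h2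
  · have h3 : ∑ j ∈ inc s t i, (1 / (r (s j)) ^ 2 + 1 / (r (t j)) ^ 2) ≤ 1 / 50 := by
      obtain ⟨j, hj⟩ := Finset.card_eq_one.1 h1
      rw [hj, Finset.sum_singleton]
      exact locG_edge hc j
    rw [h2] at hdr hdr0 ⊢
    have h4 : Real.pi * (1 * (1 / (r i) ^ 2)) ≤ 3.1416 * (1 / (100 * 1)) :=
      mul_le_mul (by linarith) hdr hdr0 (by norm_num)
    linarith
  · have h3 := locG_sum hc i
    have h5 : 1 / (100 * dg s t i) ≤ 1 / 200 :=
      one_div_le_one_div_of_le (by norm_num) (by linarith)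
    have h4 : Real.pi * (dg s t i * (1 / (r i) ^ 2)) ≤ 3.1416 * (1 / 200) :=
      mul_le_mul (by linarith) (hdr.trans h5) hdr0 (by norm_num)
    linarith

theorem lowG (hc : CritG s t r y v) (i : Fin p) :
    4 * dg s t i * Fr (3 / 4) - 88 / 10000 ≤ Lg (r i) (inc s t i) y (v i) := by
  have hr10 := locG_abs hc i
  have hv := (locG_v hc i).1
  have hne : r i ≠ 0 := by
    intro h0
    rw [h0, abs_zero] at hr10
    norm_num at hr10
  have hslot : ∀ j ∈ inc s t i,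
      4 * Fr (3 / 4) - 53 / 200 * Real.pi * (1 / (r i) ^ 2) -
        108 / 100 * (1 / (r (s j)) ^ 2 + 1 / (r (t j)) ^ 2) ^ 2 ≤
      (po (some (y j)) (v i)).re + (2 * ff (y j + 1 / 2)).re +
        (-(1 / (2 * r i)) - (v i).re) * (dpo (some (y j)) (v i)).re := by
    intro j hj
    have hk : |kap (y j) (v i)| ≤ 36 / 10 * (1 / (r (s j)) ^ 2 + 1 / (r (t j)) ^ 2) := by
      rcases (mem_inc s t i j).1 hj with h | h
      · have := (locG_kap hc j).1
        rw [h] at this ⊢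
        exact this
      · have := (locG_kap hc j).2
        rw [h] at this ⊢
        exact this
    have hyE : |(y j).re - 1 / 4| ≤ 3 / 10 * (1 / (r (s j)) ^ 2 + 1 / (r (t j)) ^ 2) := by
      have e : (1 / 4 : ℂ) = ((1 / 4 : ℝ) : ℂ) := by push_cast; rfl
      have h1 := abs_re_le_norm (y j - 1 / 4)
      have h2 := hc.bdy j
      rw [e] at h1 h2
      rw [sub_re, ofReal_re] at h1
      exact h1.trans h2
    exact LowG_slot (r i) (y j) (v i) _ hr10 hv (locG_y hc j).1 (by positivity) hyE hk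
  have hsum := Finset.sum_le_sum hslot
  rw [Finset.sum_sub_distrib, Finset.sum_const, nsmul_eq_mul, ← Finset.mul_sum,
    Finset.sum_add_distrib, Finset.sum_add_distrib, ← Finset.mul_sum, locG_dpo hc i] at hsum
  have hesq := LowG_esq hc i
  have hdg : ((inc s t i).card : ℝ) = dg s t i := rfl
  rw [hdg] at hsum
  have hph : (-(1 / (2 * r i)) - (v i).re) * (4 * Real.pi * r i * (v i).im) =
      -(2 * Real.pi * (2 * r i * (v i).re * (v i).im + (v i).im)) := by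
    field_simp
    ring
  rw [hph] at hsum
  unfold Lg WG
  rw [add_re, LowG_phase, re_sum]
  linarith

/-- The critical value is the sum of the contributions of the nodes. -/
theorem VG_re (hst : ∀ j, s j ≠ t j) (r : Fin p → ℝ) (y : Fin m → ℂ) (v : Fin p → ℂ) :
    (VG s t r y v).re = ∑ i, Lg (r i) (inc s t i) y (v i) := by
  unfold VG Lg
  rw [Finset.sum_add_distrib, sum_inc s t hst (fun _ j => (2 * ff (y j + 1 / 2)).re), add_re,
    re_sum, re_sum, add_comm]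
  congr 1
  refine Finset.sum_congr rfl fun j _ => ?_
  rw [← add_re]
  congr 1
  ring

end Pool.Agent.H63.VC7

end

section

/-! # Bounds of the slot factors at the summation points -/

namespace Pool.Agent.H63.VC7

open Pool.Agent.H63.VC
open Pool.Agent.H63.VC3 Pool.Agent.H63.VC4 Complex

variable {m p : ℕ}

/-- The two logarithmic bounds. -/
theorem SlotX_log : ∃ K : ℝ, 0 < K ∧ ∀ M k X : ℕ, 2 ≤ M → k < M → X ≤ k →
    (M - 1 - k ≤ X →
      Real.log (S M k ^ 2 * (S M (X + (M - 1 - k)) / S M (X - (M - 1 - k)))) ≤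
        M * VC3.gg ((k : ℝ) / M) ((X : ℝ) / M) + K * Real.log M) ∧
    (X < M - 1 - k →
      Real.log (S M k ^ 2 * (S M (M - 1 - k + X) * S M (M - 2 - k - X))) ≤
        M * VC3.gg ((k : ℝ) / M) ((X : ℝ) / M) + K * Real.log M) := by
  obtain ⟨C1, hC1, h1⟩ := log_S_bound
  obtain ⟨C2, hC2, h2⟩ := Fr_shift 2
  refine ⟨4 * C1 + 2 * C2, by positivity, fun M k X hM hk hX => ?_⟩
  have hM0 : (0 : ℝ) < M := by exact_mod_cast (by omega : 0 < M)
  have hMne : (M : ℝ) ≠ 0 := hM0.ne'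
  have hSk : 0 < S M k := S_pos hk
  have a1 := abs_le.1 (h1 M k hM hk)
  -- the first factor
  have hXt : X + (M - 1 - k) < M := by omega
  have hS1 : 0 < S M (X + (M - 1 - k)) := S_pos hXt
  have a2 := abs_le.1 (h1 M (X + (M - 1 - k)) hM hXt)
  have c2 : ((X + (M - 1 - k) : ℕ) : ℝ) = (X : ℝ) + M - 1 - k := by
    have : (X + (M - 1 - k)) + 1 + k = X + M := by omega
    have h3 : (((X + (M - 1 - k)) + 1 + k : ℕ) : ℝ) = ((X + M : ℕ) : ℝ) := by rw [this]
    push_cast at h3 ⊢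
    linarith only [h3]
  have f2 : Fr (((X + (M - 1 - k) : ℕ) : ℝ) / M) = Fr (((X : ℝ) - k - 1) / M) := by
    rw [← Fr_add_one (((X : ℝ) - k - 1) / M), c2]
    congr 1
    field_simp
    ring
  have s2 := abs_le.1 (h2 M hM (((X : ℝ) - k - 1) / M) 1 (by norm_num))
  have g2 : ((X : ℝ) - k - 1) / M + ((1 : ℕ) : ℝ) / M = -((k : ℝ) / M - (X : ℝ) / M) := by
    push_cast
    field_simp
    ring
  rw [g2, Fr_neg] at s2
  rw [f2] at a2
  constructor
  · intro htX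
    have hXm : X - (M - 1 - k) < M := by omega
    have hS2 : 0 < S M (X - (M - 1 - k)) := S_pos hXm
    have a3 := abs_le.1 (h1 M (X - (M - 1 - k)) hM hXm)
    have c3 : ((X - (M - 1 - k) : ℕ) : ℝ) = (X : ℝ) + k + 1 - M := by
      have : (X - (M - 1 - k)) + M = X + k + 1 := by omega
      have h3 : (((X - (M - 1 - k)) + M : ℕ) : ℝ) = ((X + k + 1 : ℕ) : ℝ) := by rw [this]
      push_cast at h3 ⊢
      linarith only [h3]
    have f3 : Fr (((X - (M - 1 - k) : ℕ) : ℝ) / M) =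
        Fr ((k : ℝ) / M + (X : ℝ) / M + ((1 : ℕ) : ℝ) / M) := by
      rw [← Fr_add_one (((X - (M - 1 - k) : ℕ) : ℝ) / M), c3]
      congr 1
      push_cast
      field_simp
      ring
    have s3 := abs_le.1 (h2 M hM ((k : ℝ) / M + (X : ℝ) / M) 1 (by norm_num))
    rw [f3] at a3
    rw [Real.log_mul (by positivity) (by positivity), Real.log_pow,
      Real.log_div hS1.ne' hS2.ne']
    unfold VC3.gg
    push_cast at *
    nlinarith only [a1, a2, s2, a3, s3, a1.2, a2.2, a3.1, s2.1, s2.2, s3.1, s3.2]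
  · intro hXt'
    have hXm : M - 2 - k - X < M := by omega
    have hS2 : 0 < S M (M - 2 - k - X) := S_pos hXm
    have a3 := abs_le.1 (h1 M (M - 2 - k - X) hM hXm)
    have c3 : ((M - 2 - k - X : ℕ) : ℝ) = (M : ℝ) - 2 - k - X := by
      have : (M - 2 - k - X) + X + k + 2 = M := by omega
      have h3 : (((M - 2 - k - X) + X + k + 2 : ℕ) : ℝ) = ((M : ℕ) : ℝ) := by rw [this]
      push_cast at h3 ⊢
      linarith only [h3]
    have f3 : Fr (((M - 2 - k - X : ℕ) : ℝ) / M) =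
        -Fr ((k : ℝ) / M + (X : ℝ) / M + ((2 : ℕ) : ℝ) / M) := by
      rw [← Fr_neg, ← Fr_add_one (-((k : ℝ) / M + (X : ℝ) / M + ((2 : ℕ) : ℝ) / M)), c3]
      congr 1
      push_cast
      field_simp
      ring
    have s3 := abs_le.1 (h2 M hM ((k : ℝ) / M + (X : ℝ) / M) 2 (by norm_num))
    have e1 : M - 1 - k + X = X + (M - 1 - k) := by omega
    rw [e1]
    rw [f3] at a3
    rw [Real.log_mul (by positivity) (by positivity), Real.log_pow,
      Real.log_mul hS1.ne' hS2.ne']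
    unfold VC3.gg
    push_cast at *
    nlinarith only [a1, a2, s2, a3, s3, a1.2, a2.2, a3.1, a3.2, s2.1, s2.2, s3.1, s3.2]

/-- Bounds in the left half. -/
theorem SlotX_core : ∃ C : ℝ, 0 < C ∧ ∃ D : ℕ, ∀ M k X : ℕ, 2 ≤ M → k < M → 2 * X + 1 ≤ M →
    ∀ E : ℝ, (X ≤ k → VC3.gg ((k : ℝ) / M) ((X : ℝ) / M) ≤ E) →
    S M k ^ 2 * ‖qc M k ((vl 2 M X : ℝ) : ℂ)‖ ≤ C * (M : ℝ) ^ D * Real.exp (M * E) ∧
    S M k ^ 2 * ‖deriv (qc M k) ((vl 2 M X : ℝ) : ℂ)‖ ≤ C * (M : ℝ) ^ D * Real.exp (M * E) := by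
  obtain ⟨K, hK, h⟩ := SlotX_log
  refine ⟨2 * Real.pi, by positivity, ⌈K⌉₊ + 2, fun M k X hM hk hX E hE => ?_⟩
  have hM0 : (0 : ℝ) < M := by exact_mod_cast (by omega : 0 < M)
  have hM1 : (1 : ℝ) ≤ M := by exact_mod_cast (by omega : 1 ≤ M)
  have hMne : (M : ℝ) ≠ 0 := hM0.ne'
  have hSk : 0 < S M k := S_pos hk
  have hpi : 1 ≤ 2 * Real.pi := by
    have := Real.pi_gt_three
    linarith only [this]
  -- conversion
  have key : ∀ a : ℝ, 0 < a → X ≤ k →
      Real.log a ≤ M * VC3.gg ((k : ℝ) / M) ((X : ℝ) / M) + K * Real.log M →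
      a ≤ (M : ℝ) ^ ⌈K⌉₊ * Real.exp (M * E) := by
    intro a ha hXk hlog
    have e1 : a = Real.exp (Real.log a) := (Real.exp_log ha).symm
    rw [e1]
    have e2 : Real.exp (K * Real.log M) ≤ (M : ℝ) ^ ⌈K⌉₊ := by
      rw [← Real.rpow_natCast, Real.rpow_def_of_pos hM0, mul_comm (Real.log M)]
      apply Real.exp_le_exp.2
      apply mul_le_mul_of_nonneg_right (Nat.le_ceil K) (Real.log_nonneg hM1)
    calc Real.exp (Real.log a)
        ≤ Real.exp (M * E + K * Real.log M) := by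
          apply Real.exp_le_exp.2
          refine hlog.trans ?_
          gcongr
          exact hE hXk
      _ = Real.exp (K * Real.log M) * Real.exp (M * E) := by rw [Real.exp_add]; ring
      _ ≤ _ := by gcongr
  have hq := qc_norm M k X hM hk hX
  have hR : 0 ≤ 2 * Real.pi * (M : ℝ) ^ (⌈K⌉₊ + 2) * Real.exp (M * E) := by positivity
  rcases Nat.lt_or_ge k X with hkX | hXk
  · obtain ⟨z1, z2⟩ := hq.2.2 hkX
    rw [z1, z2]
    simp only [norm_zero, mul_zero]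
    exact ⟨hR, hR⟩
  · rcases Nat.lt_or_ge X (M - 1 - k) with hB | hA
    · -- case B
      obtain ⟨z1, z2⟩ := hq.2.1 hB hXk
      have hS1 : 0 < S M (M - 1 - k + X) := S_pos (by omega)
      have hS2 : 0 < S M (M - 2 - k - X) := S_pos (by omega)
      have hb := key _ (by positivity) hXk ((h M k X hM hk hXk).2 hB)
      rw [z1, z2]
      refine ⟨by simpa using hR, ?_⟩
      calc S M k ^ 2 * (2 * Real.pi / M * (S M (M - 1 - k + X) * S M (M - 2 - k - X)))
          = 2 * Real.pi / M * (S M k ^ 2 * (S M (M - 1 - k + X) * S M (M - 2 - k - X))) := by ring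
        _ ≤ 2 * Real.pi * ((M : ℝ) ^ ⌈K⌉₊ * Real.exp (M * E)) := by
          apply mul_le_mul _ hb (by positivity) (by positivity)
          exact div_le_self (by positivity) hM1
        _ ≤ 2 * Real.pi * ((M : ℝ) ^ (⌈K⌉₊ + 2) * Real.exp (M * E)) := by
          have h4 : (M : ℝ) ^ ⌈K⌉₊ ≤ (M : ℝ) ^ (⌈K⌉₊ + 2) :=
            pow_le_pow_right₀ hM1 (by omega)
          gcongr
        _ = _ := by ring
    · -- case A
      obtain ⟨z1, z2⟩ := hq.1 hA
      have hS1 : 0 < S M (X + (M - 1 - k)) := S_pos (by omega)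
      have hS2 : 0 < S M (X - (M - 1 - k)) := S_pos (by omega)
      have hb := key _ (by positivity) hXk ((h M k X hM hk hXk).1 hA)
      have hb2 : S M k ^ 2 * (S M (X + (M - 1 - k)) / (M * S M (X - (M - 1 - k)))) ≤
          (M : ℝ) ^ ⌈K⌉₊ * Real.exp (M * E) := by
        refine le_trans ?_ hb
        gcongr
        exact le_mul_of_one_le_left hS2.le hM1
      have hpow : (M : ℝ) ^ (⌈K⌉₊ + 2) = (M : ℝ) ^ 2 * (M : ℝ) ^ ⌈K⌉₊ := by ring
      have hM2 : (1 : ℝ) ≤ (M : ℝ) ^ 2 := one_le_pow₀ hM1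
      constructor
      · rw [z1]
        refine hb2.trans ?_
        rw [hpow]
        have : (M : ℝ) ^ ⌈K⌉₊ * Real.exp (M * E) ≤
            (2 * Real.pi * (M : ℝ) ^ 2) * ((M : ℝ) ^ ⌈K⌉₊ * Real.exp (M * E)) :=
          le_mul_of_one_le_left (by positivity) (by nlinarith only [hpi, hM2])
        calc _ ≤ _ := this
          _ = _ := by ring
      · calc S M k ^ 2 * ‖deriv (qc M k) ((vl 2 M X : ℝ) : ℂ)‖
            ≤ S M k ^ 2 * (2 * Real.pi * (M : ℝ) ^ 2 *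
              (S M (X + (M - 1 - k)) / (M * S M (X - (M - 1 - k))))) := by gcongr
          _ = 2 * Real.pi * (M : ℝ) ^ 2 *
              (S M k ^ 2 * (S M (X + (M - 1 - k)) / (M * S M (X - (M - 1 - k))))) := by ring
          _ ≤ 2 * Real.pi * (M : ℝ) ^ 2 * ((M : ℝ) ^ ⌈K⌉₊ * Real.exp (M * E)) := by gcongr
          _ = _ := by rw [hpow]; ring

theorem slotX : ∃ C : ℝ, 0 < C ∧ ∃ D : ℕ, ∀ M k X : ℕ, 2 ≤ M → k < M → X < M →
    S M k ^ 2 * ‖qc M k ((vl 2 M X : ℝ) : ℂ)‖ ≤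
      C * (M : ℝ) ^ D * Real.exp (M * eo M (some k)) ∧
    S M k ^ 2 * ‖deriv (qc M k) ((vl 2 M X : ℝ) : ℂ)‖ ≤
      C * (M : ℝ) ^ D * Real.exp (M * eo M (some k)) := by
  obtain ⟨C, hC, D, h⟩ := SlotX_core
  refine ⟨C, hC, D, fun M k X hM hk hX => ?_⟩
  have hM0 : (0 : ℝ) < M := by exact_mod_cast (by omega : 0 < M)
  -- the left half
  have main : ∀ X : ℕ, 2 * X + 1 ≤ M →
      S M k ^ 2 * ‖qc M k ((vl 2 M X : ℝ) : ℂ)‖ ≤
        C * (M : ℝ) ^ D * Real.exp (M * eo M (some k)) ∧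
      S M k ^ 2 * ‖deriv (qc M k) ((vl 2 M X : ℝ) : ℂ)‖ ≤
        C * (M : ℝ) ^ D * Real.exp (M * eo M (some k)) := by
    intro X hX
    refine h M k X hM hk hX _ fun hXk => ?_
    have l0 : (0 : ℝ) ≤ (X : ℝ) / M := by positivity
    have l1 : (X : ℝ) / M ≤ (k : ℝ) / M := by
      have : (X : ℝ) ≤ k := by exact_mod_cast hXk
      gcongr
    have l2 : (k : ℝ) / M ≤ 1 := by
      rw [div_le_one hM0]
      exact_mod_cast hk.le
    show VC3.gg ((k : ℝ) / M) ((X : ℝ) / M) ≤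
      4 * Fr (3 / 4) - (if 53 / 1000 ≤ |(k : ℝ) / M - 3 / 4| then 17 / 1000 else 0)
    split_ifs with hc
    · exact gg_le_x _ _ l0 l1 l2 hc
    · rw [sub_zero]
      exact gg_le _ _ l0 l1 l2
  rcases Nat.lt_or_ge M (2 * X + 1) with hX' | hX'
  · have e := qc_reflect M k (M - 1 - X) (by omega)
    have e2 : M - 1 - (M - 1 - X) = X := by omega
    rw [e2] at e
    rw [e.1, e.2, norm_neg]
    exact main _ (by omega)
  · exact main _ hX'

theorem slotX_out : ∃ C : ℝ, 0 < C ∧ ∃ D : ℕ, ∀ M k1 k2 l1 l2 k X : ℕ, Win 2 M k1 k2 l1 l2 →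
    k1 ≤ k → k ≤ k2 → X < M → X ∉ Finset.Icc l1 l2 →
    S M k ^ 2 * ‖qc M k ((vl 2 M X : ℝ) : ℂ)‖ ≤
      C * (M : ℝ) ^ D * Real.exp (M * (4 * Fr (3 / 4) - 40 / 1000)) ∧
    S M k ^ 2 * ‖deriv (qc M k) ((vl 2 M X : ℝ) : ℂ)‖ ≤
      C * (M : ℝ) ^ D * Real.exp (M * (4 * Fr (3 / 4) - 40 / 1000)) := by
  obtain ⟨C, hC, D, h⟩ := SlotX_core
  refine ⟨C, hC, D, fun M k1 k2 l1 l2 k X hw hk1 hk2 hX hXn => ?_⟩
  obtain ⟨w1, w2, w3, w4, w5, w6, w7⟩ := win_facts 2 M k1 k2 l1 l2 le_rfl hw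
  have hbig := hw.big
  have hM : 2 ≤ M := by omega
  have hk : k < M := by omega
  have hl := hw.hl
  have hM0 : (0 : ℝ) < M := by exact_mod_cast (by omega : 0 < M)
  have main : ∀ X : ℕ, 2 * X + 1 ≤ M → (X < l1 ∨ l2 < X) →
      S M k ^ 2 * ‖qc M k ((vl 2 M X : ℝ) : ℂ)‖ ≤
        C * (M : ℝ) ^ D * Real.exp (M * (4 * Fr (3 / 4) - 40 / 1000)) ∧
      S M k ^ 2 * ‖deriv (qc M k) ((vl 2 M X : ℝ) : ℂ)‖ ≤
        C * (M : ℝ) ^ D * Real.exp (M * (4 * Fr (3 / 4) - 40 / 1000)) := by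
    intro X hX hXl
    refine h M k X hM hk hX _ fun hXk => ?_
    have l0 : (0 : ℝ) ≤ (X : ℝ) / M := by positivity
    have l1 : (X : ℝ) / M ≤ (k : ℝ) / M := by
      have : (X : ℝ) ≤ k := by exact_mod_cast hXk
      gcongr
    have l2 : (k : ℝ) / M ≤ 1 := by
      rw [div_le_one hM0]
      exact_mod_cast hk.le
    exact gg_le_l _ _ l0 l1 l2 (w3 k hk1 hk2).2 (w5 X hXl)
  have hXn' : X < l1 ∨ l2 < X := by
    rw [Finset.mem_Icc] at hXn
    omega
  rcases Nat.lt_or_ge M (2 * X + 1) with hX' | hX'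
  · have e := qc_reflect M k (M - 1 - X) (by omega)
    have e2 : M - 1 - (M - 1 - X) = X := by omega
    rw [e2] at e
    rw [e.1, e.2, norm_neg]
    exact main _ (by omega) (by omega)
  · exact main _ hX' hXn'

end Pool.Agent.H63.VC7

end

section

/-! # The factor of a node: bounds and the contour integral -/

namespace Pool.Agent.H63.VC7

open Pool.Agent.H63.VC
open Pool.Agent.H63.VC3 Pool.Agent.H63.VC4 Complex

variable {m p : ℕ}

theorem DGb_qc_diff (M k : ℕ) : Differentiable ℂ (qc M k) := by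
  unfold qc
  apply Differentiable.const_mul
  apply Differentiable.fun_finsetProd
  intro i _
  fun_prop

theorem DGb_qc_even (M k : ℕ) (v : ℂ) : qc M k (-v) = qc M k v := by
  unfold qc
  congr 1
  refine Finset.prod_congr rfl fun i _ => ?_
  have e1 : (Real.pi : ℂ) * (-v + (i + 1 / 2) / M) = -(Real.pi * (v - (i + 1 / 2) / M)) := by ring
  have e2 : (Real.pi : ℂ) * (-v - (i + 1 / 2) / M) = -(Real.pi * (v + (i + 1 / 2) / M)) := by ring
  rw [e1, e2, cos_neg, cos_neg]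
  ring

theorem DGb_NT_odd (r : ℝ) (M : ℕ) (A : Finset (Fin m)) (k : Fin m → ℕ) (v : ℂ) :
    NT r M A k (-v) = -NT r M A k v := by
  unfold NT
  have e1 : 2 * (Real.pi : ℂ) * -v = -(2 * Real.pi * v) := by ring
  rw [e1, sin_neg]
  simp only [DGb_qc_even]
  have e2 : (-v) ^ 2 = v ^ 2 := by ring
  rw [e2]
  ring

theorem DGb_NT_hasDeriv (r : ℝ) (M : ℕ) (A : Finset (Fin m)) (k : Fin m → ℕ) (v : ℂ) :
    HasDerivAt (NT r M A k)
      ((exp (2 * Real.pi * I * r * M * v ^ 2) * (2 * Real.pi * I * r * M * (2 * v)) *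
          (2 * sin (2 * Real.pi * v)) +
        exp (2 * Real.pi * I * r * M * v ^ 2) * (2 * (cos (2 * Real.pi * v) * (2 * Real.pi)))) *
          (∏ j ∈ A, qc M (k j) v) +
        exp (2 * Real.pi * I * r * M * v ^ 2) * (2 * sin (2 * Real.pi * v)) *
          (∑ j ∈ A, (∏ i ∈ A.erase j, qc M (k i) v) • deriv (qc M (k j)) v)) v := by
  unfold NT
  have h1 : HasDerivAt (fun v : ℂ => exp (2 * Real.pi * I * r * M * v ^ 2))
      (exp (2 * Real.pi * I * r * M * v ^ 2) * (2 * Real.pi * I * r * M * (2 * v))) v := by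
    have h := ((hasDerivAt_id v).pow 2).const_mul (2 * Real.pi * I * r * M)
    have h' := h.cexp
    have e : 2 * (Real.pi : ℂ) * I * r * M * (2 * v) =
        2 * Real.pi * I * r * M * (((2 : ℕ) : ℂ) * id v ^ (2 - 1) * 1) := by
      simp
    rw [e]
    exact h'
  have h2 : HasDerivAt (fun v : ℂ => 2 * sin (2 * Real.pi * v))
      (2 * (cos (2 * Real.pi * v) * (2 * Real.pi))) v := by
    have h := ((hasDerivAt_id v).const_mul (2 * Real.pi : ℂ)).csin.const_mul (2 : ℂ)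
    have e : (2 : ℂ) * (cos (2 * Real.pi * v) * (2 * Real.pi)) =
        2 * (cos (2 * Real.pi * id v) * (2 * Real.pi * 1)) := by
      simp
    rw [e]
    exact h
  have h3 : HasDerivAt (fun v : ℂ => ∏ j ∈ A, qc M (k j) v)
      (∑ j ∈ A, (∏ i ∈ A.erase j, qc M (k i) v) • deriv (qc M (k j)) v) v :=
    HasDerivAt.fun_finsetProd fun j _ => (DGb_qc_diff M (k j) v).hasDerivAt
  exact (h1.mul h2).mul h3

/-- The derivative at a summation point, from bounds for the slots. -/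
theorem DGb_deriv (r : ℝ) (M : ℕ) (A : Finset (Fin m)) (k : Fin m → ℕ) (X : ℕ) (hM : 2 ≤ M)
    (hX : X < M) (B : Fin m → ℝ)
    (h1 : ∀ j ∈ A, S M (k j) ^ 2 * ‖qc M (k j) ((vl 2 M X : ℝ) : ℂ)‖ ≤ B j)
    (h2 : ∀ j ∈ A, S M (k j) ^ 2 * ‖deriv (qc M (k j)) ((vl 2 M X : ℝ) : ℂ)‖ ≤ B j) :
    (∏ j ∈ A, S M (k j) ^ 2) * ‖deriv (NT r M A k) ((vl 2 M X : ℝ) : ℂ)‖ ≤
      (4 * Real.pi * |r| * M + 4 * Real.pi + 2 * A.card) * ∏ j ∈ A, B j := by
  have hM0 : (0 : ℝ) < M := by exact_mod_cast (by omega : 0 < M)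
  set x : ℝ := vl 2 M X with hx
  have hx1 : |x| ≤ 1 / 2 := by
    rw [hx, vl, bt, abs_le]
    have h3 : (X : ℝ) + 1 ≤ M := by exact_mod_cast hX
    have h4 : ((X : ℝ) + ((2 : ℕ) - 1) / 2) / M ≤ 1 := by
      rw [div_le_one hM0]
      push_cast
      linarith only [h3]
    have h5 : 0 ≤ ((X : ℝ) + ((2 : ℕ) - 1) / 2) / M := by
      push_cast
      positivity
    constructor <;> linarith only [h5, h4]
  have hS : ∀ j ∈ A, 0 ≤ S M (k j) ^ 2 := fun j _ => sq_nonneg _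
  have hB : ∀ j ∈ A, 0 ≤ B j := fun j hj =>
    (mul_nonneg (hS j hj) (norm_nonneg _)).trans (h1 j hj)
  have hP : (∏ j ∈ A, S M (k j) ^ 2) * ‖∏ j ∈ A, qc M (k j) (x : ℂ)‖ ≤ ∏ j ∈ A, B j := by
    rw [_root_.norm_prod, ← Finset.prod_mul_distrib]
    exact Finset.prod_le_prod (fun j hj => mul_nonneg (hS j hj) (norm_nonneg _)) h1
  have hP' : (∏ j ∈ A, S M (k j) ^ 2) *
      ‖∑ j ∈ A, (∏ i ∈ A.erase j, qc M (k i) (x : ℂ)) • deriv (qc M (k j)) (x : ℂ)‖ ≤
      A.card * ∏ j ∈ A, B j := by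
    calc (∏ j ∈ A, S M (k j) ^ 2) *
          ‖∑ j ∈ A, (∏ i ∈ A.erase j, qc M (k i) (x : ℂ)) • deriv (qc M (k j)) (x : ℂ)‖
        ≤ (∏ j ∈ A, S M (k j) ^ 2) *
          ∑ j ∈ A, ‖(∏ i ∈ A.erase j, qc M (k i) (x : ℂ)) • deriv (qc M (k j)) (x : ℂ)‖ :=
          mul_le_mul_of_nonneg_left (norm_sum_le _ _) (Finset.prod_nonneg hS)
      _ = ∑ j ∈ A, (∏ j ∈ A, S M (k j) ^ 2) *
          ‖(∏ i ∈ A.erase j, qc M (k i) (x : ℂ)) • deriv (qc M (k j)) (x : ℂ)‖ := by
          rw [Finset.mul_sum]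
      _ ≤ ∑ _j ∈ A, ∏ j ∈ A, B j := by
          refine Finset.sum_le_sum fun j hj => ?_
          rw [norm_smul, _root_.norm_prod, ← Finset.mul_prod_erase A (fun j => S M (k j) ^ 2) hj,
            ← Finset.mul_prod_erase A B hj]
          calc S M (k j) ^ 2 * (∏ i ∈ A.erase j, S M (k i) ^ 2) *
                ((∏ i ∈ A.erase j, ‖qc M (k i) (x : ℂ)‖) * ‖deriv (qc M (k j)) (x : ℂ)‖)
              = (S M (k j) ^ 2 * ‖deriv (qc M (k j)) (x : ℂ)‖) *
                ∏ i ∈ A.erase j, (S M (k i) ^ 2 * ‖qc M (k i) (x : ℂ)‖) := by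
                rw [Finset.prod_mul_distrib]; ring
            _ ≤ B j * ∏ i ∈ A.erase j, B i := by
                apply mul_le_mul (h2 j hj)
                · exact Finset.prod_le_prod
                    (fun i hi => mul_nonneg (hS i (Finset.mem_of_mem_erase hi)) (norm_nonneg _))
                    (fun i hi => h1 i (Finset.mem_of_mem_erase hi))
                · exact Finset.prod_nonneg fun i hi =>
                    mul_nonneg (hS i (Finset.mem_of_mem_erase hi)) (norm_nonneg _)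
                · exact hB j hj
      _ = A.card * ∏ j ∈ A, B j := by
          rw [Finset.sum_const, nsmul_eq_mul]
  rw [(DGb_NT_hasDeriv r M A k (x : ℂ)).deriv]
  have hE : ‖exp (2 * Real.pi * I * r * M * (x : ℂ) ^ 2)‖ = 1 := by
    have : 2 * (Real.pi : ℂ) * I * r * M * (x : ℂ) ^ 2 =
        ((2 * Real.pi * r * M * x ^ 2 : ℝ) : ℂ) * I := by
      push_cast; ring
    rw [this, norm_exp_ofReal_mul_I]
  have hs : ‖sin (2 * Real.pi * (x : ℂ))‖ ≤ 1 := by
    have : sin (2 * Real.pi * (x : ℂ)) = ((Real.sin (2 * Real.pi * x) : ℝ) : ℂ) := by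
      push_cast; rfl
    rw [this, norm_real, Real.norm_eq_abs]
    exact Real.abs_sin_le_one _
  have hc : ‖cos (2 * Real.pi * (x : ℂ))‖ ≤ 1 := by
    have : cos (2 * Real.pi * (x : ℂ)) = ((Real.cos (2 * Real.pi * x) : ℝ) : ℂ) := by
      push_cast; rfl
    rw [this, norm_real, Real.norm_eq_abs]
    exact Real.abs_cos_le_one _
  have hpi := Real.pi_pos
  have n1 : ‖exp (2 * Real.pi * I * r * M * (x : ℂ) ^ 2) *
        (2 * Real.pi * I * r * M * (2 * (x : ℂ))) * (2 * sin (2 * Real.pi * (x : ℂ))) +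
      exp (2 * Real.pi * I * r * M * (x : ℂ) ^ 2) *
        (2 * (cos (2 * Real.pi * (x : ℂ)) * (2 * Real.pi)))‖ ≤
      4 * Real.pi * |r| * M + 4 * Real.pi := by
    refine (norm_add_le _ _).trans ?_
    rw [norm_mul, norm_mul, norm_mul (exp _) (2 * (cos _ * _)), hE]
    have e1 : ‖(2 * Real.pi * I * r * M * (2 * (x : ℂ)))‖ = 4 * Real.pi * |r| * M * |x| := by
      simp only [norm_mul, norm_real, Real.norm_eq_abs, norm_I, Complex.norm_natCast, Complex.norm_ofNat]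
      rw [abs_of_pos hpi]
      ring
    have e2 : ‖2 * sin (2 * Real.pi * (x : ℂ))‖ ≤ 2 := by
      rw [norm_mul, Complex.norm_ofNat]
      linarith
    have e3 : ‖(2 * (cos (2 * Real.pi * (x : ℂ)) * (2 * Real.pi)))‖ ≤ 4 * Real.pi := by
      simp only [norm_mul, norm_real, Real.norm_eq_abs, Complex.norm_ofNat]
      rw [abs_of_pos hpi]
      nlinarith only [hc, hpi]
    rw [e1, one_mul, one_mul]
    have e4 : 4 * Real.pi * |r| * M * |x| * ‖2 * sin (2 * Real.pi * (x : ℂ))‖ ≤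
        4 * Real.pi * |r| * M * (1 / 2) * 2 := by
      gcongr
    linarith only [e3, e4]
  have n2 : ‖exp (2 * Real.pi * I * r * M * (x : ℂ) ^ 2) * (2 * sin (2 * Real.pi * (x : ℂ)))‖ ≤
      2 := by
    rw [norm_mul, hE, one_mul, norm_mul, Complex.norm_ofNat]
    linarith
  have hQ : 0 ≤ ∏ j ∈ A, S M (k j) ^ 2 := Finset.prod_nonneg hS
  have hBp : 0 ≤ ∏ j ∈ A, B j := Finset.prod_nonneg hB
  calc (∏ j ∈ A, S M (k j) ^ 2) * ‖_ * (∏ j ∈ A, qc M (k j) (x : ℂ)) + _ *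
        (∑ j ∈ A, (∏ i ∈ A.erase j, qc M (k i) (x : ℂ)) • deriv (qc M (k j)) (x : ℂ))‖
      ≤ (∏ j ∈ A, S M (k j) ^ 2) * ((4 * Real.pi * |r| * M + 4 * Real.pi) *
          ‖∏ j ∈ A, qc M (k j) (x : ℂ)‖ + 2 *
          ‖∑ j ∈ A, (∏ i ∈ A.erase j, qc M (k i) (x : ℂ)) • deriv (qc M (k j)) (x : ℂ)‖) := by
        apply mul_le_mul_of_nonneg_left _ hQ
        refine (norm_add_le _ _).trans ?_
        rw [norm_mul, norm_mul]
        gcongr
    _ = (4 * Real.pi * |r| * M + 4 * Real.pi) *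
          ((∏ j ∈ A, S M (k j) ^ 2) * ‖∏ j ∈ A, qc M (k j) (x : ℂ)‖) + 2 *
          ((∏ j ∈ A, S M (k j) ^ 2) *
          ‖∑ j ∈ A, (∏ i ∈ A.erase j, qc M (k i) (x : ℂ)) • deriv (qc M (k j)) (x : ℂ)‖) := by
        ring
    _ ≤ (4 * Real.pi * |r| * M + 4 * Real.pi) * (∏ j ∈ A, B j) +
          2 * (A.card * ∏ j ∈ A, B j) := by
        gcongr
    _ = _ := by ring

theorem DG_bound (r : ℝ) (A : Finset (Fin m)) : ∃ C : ℝ, 0 < C ∧ ∃ D : ℕ, ∀ (M : ℕ)
    (k : Fin m → ℕ), 2 ≤ M → (∀ j ∈ A, k j < M) →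
    (∏ j ∈ A, S M (k j) ^ 2) * ‖DG r M A k‖ ≤
      C * (M : ℝ) ^ D * Real.exp (M * ∑ j ∈ A, eo M (some (k j))) := by
  obtain ⟨C, hC, D, h⟩ := slotX
  have hpi := Real.pi_pos
  refine ⟨(4 * Real.pi * |r| + 4 * Real.pi + 2 * A.card) * C ^ A.card, by positivity,
    D * A.card + 2, fun M k hM hk => ?_⟩
  have hM0 : (0 : ℝ) < M := by exact_mod_cast (by omega : 0 < M)
  have hM1 : (1 : ℝ) ≤ M := by exact_mod_cast (by omega : 1 ≤ M)
  have hQ : 0 ≤ ∏ j ∈ A, S M (k j) ^ 2 := Finset.prod_nonneg fun j _ => sq_nonneg _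
  have hprod : ∏ j ∈ A, (C * (M : ℝ) ^ D * Real.exp (M * eo M (some (k j)))) =
      C ^ A.card * (M : ℝ) ^ (D * A.card) * Real.exp (M * ∑ j ∈ A, eo M (some (k j))) := by
    rw [Finset.prod_mul_distrib, Finset.prod_const, mul_pow, ← pow_mul, ← Real.exp_sum,
      Finset.mul_sum]
  have hd : ∀ X ∈ Finset.range M, (∏ j ∈ A, S M (k j) ^ 2) *
      ‖deriv (NT r M A k) ((vl 2 M X : ℝ) : ℂ)‖ ≤
      (4 * Real.pi * |r| * M + 4 * Real.pi + 2 * A.card) *
      (C ^ A.card * (M : ℝ) ^ (D * A.card) * Real.exp (M * ∑ j ∈ A, eo M (some (k j)))) := by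
    intro X hX
    rw [Finset.mem_range] at hX
    rw [← hprod]
    exact DGb_deriv r M A k X hM hX _ (fun j hj => (h M (k j) X hM (hk j hj) hX).1)
      (fun j hj => (h M (k j) X hM (hk j hj) hX).2)
  unfold DG
  calc (∏ j ∈ A, S M (k j) ^ 2) * ‖∑ X ∈ Finset.range M, deriv (NT r M A k) ((vl 2 M X : ℝ) : ℂ)‖
      ≤ (∏ j ∈ A, S M (k j) ^ 2) *
        ∑ X ∈ Finset.range M, ‖deriv (NT r M A k) ((vl 2 M X : ℝ) : ℂ)‖ :=
        mul_le_mul_of_nonneg_left (norm_sum_le _ _) hQ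
    _ = ∑ X ∈ Finset.range M, (∏ j ∈ A, S M (k j) ^ 2) *
        ‖deriv (NT r M A k) ((vl 2 M X : ℝ) : ℂ)‖ := by rw [Finset.mul_sum]
    _ ≤ ∑ _X ∈ Finset.range M, (4 * Real.pi * |r| * M + 4 * Real.pi + 2 * A.card) *
        (C ^ A.card * (M : ℝ) ^ (D * A.card) * Real.exp (M * ∑ j ∈ A, eo M (some (k j)))) :=
        Finset.sum_le_sum hd
    _ = M * (4 * Real.pi * |r| * M + 4 * Real.pi + 2 * A.card) *
        (C ^ A.card * (M : ℝ) ^ (D * A.card) * Real.exp (M * ∑ j ∈ A, eo M (some (k j)))) := by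
        rw [Finset.sum_const, Finset.card_range, nsmul_eq_mul]
        ring
    _ ≤ ((4 * Real.pi * |r| + 4 * Real.pi + 2 * A.card) * (M : ℝ) ^ 2) *
        (C ^ A.card * (M : ℝ) ^ (D * A.card) * Real.exp (M * ∑ j ∈ A, eo M (some (k j)))) := by
        apply mul_le_mul_of_nonneg_right _ (by positivity)
        have h1 : 0 ≤ 4 * Real.pi + 2 * (A.card : ℝ) := by positivity
        have h2 : (4 * Real.pi + 2 * (A.card : ℝ)) * M ≤
            (4 * Real.pi + 2 * (A.card : ℝ)) * (M : ℝ) ^ 2 := by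
          apply mul_le_mul_of_nonneg_left _ h1
          nlinarith only [hM1]
        nlinarith only [h2]
    _ = _ := by ring

theorem DG_PG (r : ℝ) (A : Finset (Fin m)) (hA : A.Nonempty) (Y : ℝ) (hY : 0 < Y) :
    ∃ C : ℝ, 0 < C ∧ ∃ D : ℕ, ∀ (M k1 k2 l1 l2 : ℕ) (k : Fin m → ℕ), Win 2 M k1 k2 l1 l2 →
    (∀ j ∈ A, k1 ≤ k j ∧ k j ≤ k2) →
    (∏ j ∈ A, S M (k j) ^ 2) * ‖DG r M A k + 4 * Real.pi * I * M ^ 2 *
      PG r M A (fun j => ((yk 2 M (k j) : ℝ) : ℂ)) (rho 2 M l2) Y‖ ≤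
      C * (M : ℝ) ^ D * Real.exp (M * (4 * A.card * Fr (3 / 4) - 40 / 1000)) := by
  obtain ⟨C, hC, D, h⟩ := slotX_out
  have hpi := Real.pi_pos
  have hcard : (1 : ℝ) ≤ A.card := by exact_mod_cast hA.card_pos
  refine ⟨(4 * Real.pi * |r| + 4 * Real.pi + 2 * A.card) * C ^ A.card, by positivity,
    D * A.card + 2, fun M k1 k2 l1 l2 k hw hk => ?_⟩
  obtain ⟨w1, w2, w3, w4, w5, w6, w7⟩ := win_facts 2 M k1 k2 l1 l2 le_rfl hw
  have hbig := hw.big
  have hM : 2 ≤ M := by omega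
  have hl := hw.hl
  have hl' := hw.hl'
  have hM0 : (0 : ℝ) < M := by exact_mod_cast (by omega : 0 < M)
  have hM1 : (1 : ℝ) ≤ M := by exact_mod_cast (by omega : 1 ≤ M)
  have hQ : 0 ≤ ∏ j ∈ A, S M (k j) ^ 2 := Finset.prod_nonneg fun j _ => sq_nonneg _
  have hkM : ∀ j ∈ A, k j < M := fun j hj => by have := (hk j hj).2; omega
  -- the inner part
  have hyk : ∀ j ∈ A, (195 / 1000 : ℝ) ≤ yk 2 M (k j) := by
    intro j hj
    have := (abs_le.1 (w3 (k j) (hk j hj).1 (hk j hj).2).1).1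
    linarith only [this]
  have hNK : ∀ z : ℂ, |z.re| ≤ rho 2 M l2 →
      NT r M A k z = KG r M A (fun j => ((yk 2 M (k j) : ℝ) : ℂ)) z := by
    intro z hz
    refine NT_eq_KG r M A k z hkM fun j hj => ?_
    have h1 := hyk j hj
    have h2 : 0 < 1 / (2 * (M : ℝ)) := by positivity
    linarith only [w7, hz, h1, h2]
  have hrho : 0 ≤ rho 2 M l2 := by linarith only [w6]
  have hsum : ∑ l ∈ Finset.Icc l1 l2, deriv (NT r M A k) ((vl 2 M l : ℝ) : ℂ) =
      -(4 * Real.pi * I) * M ^ 2 *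
        PG r M A (fun j => ((yk 2 M (k j) : ℝ) : ℂ)) (rho 2 M l2) Y := by
    rw [sum_l (NT r M A k) 2 M l1 l2 Y (by omega) hl (by norm_num) hl' hY (rho 2 M l2) rfl
      (fun z _ _ => (DGb_NT_hasDeriv r M A k z).differentiableAt) (DGb_NT_odd r M A k)]
    congr 1
    unfold PG VC3.Path
    congr 1
    · congr 1
      · refine intervalIntegral.integral_congr fun t _ => ?_
        simp only
        rw [hNK]
        simp only [add_re, neg_re, ofReal_re, mul_re, I_re, mul_zero, ofReal_im, I_im, mul_one,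
          sub_self, add_zero, abs_neg]
        exact (abs_of_nonneg hrho).le
      · refine intervalIntegral.integral_congr fun t ht => ?_
        simp only
        rw [hNK]
        simp only [add_re, ofReal_re, mul_re, I_re, mul_zero, ofReal_im, I_im, mul_one,
          sub_self, add_zero]
        rw [Set.uIcc_of_le (by linarith only [w6])] at ht
        exact abs_le.2 ht
    · refine intervalIntegral.integral_congr fun t _ => ?_
      simp only
      rw [hNK]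
      simp only [add_re, ofReal_re, mul_re, I_re, mul_zero, ofReal_im, I_im, mul_one,
        sub_self, add_zero]
      exact (abs_of_nonneg hrho).le
  have hsplit : DG r M A k + 4 * Real.pi * I * M ^ 2 *
      PG r M A (fun j => ((yk 2 M (k j) : ℝ) : ℂ)) (rho 2 M l2) Y =
      ∑ X ∈ Finset.range M \ Finset.Icc l1 l2, deriv (NT r M A k) ((vl 2 M X : ℝ) : ℂ) := by
    unfold DG
    have hsub : Finset.Icc l1 l2 ⊆ Finset.range M := by
      intro X hX
      rw [Finset.mem_Icc] at hX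
      rw [Finset.mem_range]
      omega
    rw [← Finset.sum_sdiff hsub, hsum]
    ring
  rw [hsplit]
  have hprod : ∏ _j ∈ A, (C * (M : ℝ) ^ D * Real.exp (M * (4 * Fr (3 / 4) - 40 / 1000))) ≤
      C ^ A.card * (M : ℝ) ^ (D * A.card) *
        Real.exp (M * (4 * A.card * Fr (3 / 4) - 40 / 1000)) := by
    rw [Finset.prod_const, mul_pow, mul_pow, ← pow_mul, ← Real.exp_nat_mul]
    apply mul_le_mul_of_nonneg_left _ (by positivity)
    apply Real.exp_le_exp.2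
    nlinarith only [hcard]
  have hd : ∀ X ∈ Finset.range M \ Finset.Icc l1 l2, (∏ j ∈ A, S M (k j) ^ 2) *
      ‖deriv (NT r M A k) ((vl 2 M X : ℝ) : ℂ)‖ ≤
      (4 * Real.pi * |r| * M + 4 * Real.pi + 2 * A.card) *
      (C ^ A.card * (M : ℝ) ^ (D * A.card) *
        Real.exp (M * (4 * A.card * Fr (3 / 4) - 40 / 1000))) := by
    intro X hX
    rw [Finset.mem_sdiff, Finset.mem_range] at hX
    refine (DGb_deriv r M A k X hM hX.1
      (fun _ => C * (M : ℝ) ^ D * Real.exp (M * (4 * Fr (3 / 4) - 40 / 1000)))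
      (fun j hj => (h M k1 k2 l1 l2 (k j) X hw (hk j hj).1 (hk j hj).2 hX.1 hX.2).1)
      (fun j hj => (h M k1 k2 l1 l2 (k j) X hw (hk j hj).1 (hk j hj).2 hX.1 hX.2).2)).trans ?_
    apply mul_le_mul_of_nonneg_left hprod (by positivity)
  calc (∏ j ∈ A, S M (k j) ^ 2) *
        ‖∑ X ∈ Finset.range M \ Finset.Icc l1 l2, deriv (NT r M A k) ((vl 2 M X : ℝ) : ℂ)‖
      ≤ (∏ j ∈ A, S M (k j) ^ 2) *
        ∑ X ∈ Finset.range M \ Finset.Icc l1 l2, ‖deriv (NT r M A k) ((vl 2 M X : ℝ) : ℂ)‖ :=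
        mul_le_mul_of_nonneg_left (norm_sum_le _ _) hQ
    _ = ∑ X ∈ Finset.range M \ Finset.Icc l1 l2, (∏ j ∈ A, S M (k j) ^ 2) *
        ‖deriv (NT r M A k) ((vl 2 M X : ℝ) : ℂ)‖ := by rw [Finset.mul_sum]
    _ ≤ ∑ _X ∈ Finset.range M \ Finset.Icc l1 l2,
        (4 * Real.pi * |r| * M + 4 * Real.pi + 2 * A.card) *
        (C ^ A.card * (M : ℝ) ^ (D * A.card) *
          Real.exp (M * (4 * A.card * Fr (3 / 4) - 40 / 1000))) :=
        Finset.sum_le_sum hd
    _ ≤ M * ((4 * Real.pi * |r| * M + 4 * Real.pi + 2 * A.card) *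
        (C ^ A.card * (M : ℝ) ^ (D * A.card) *
          Real.exp (M * (4 * A.card * Fr (3 / 4) - 40 / 1000)))) := by
        rw [Finset.sum_const, nsmul_eq_mul]
        apply mul_le_mul_of_nonneg_right _ (by positivity)
        have : (Finset.range M \ Finset.Icc l1 l2).card ≤ M := by
          calc _ ≤ (Finset.range M).card := Finset.card_le_card Finset.sdiff_subset
            _ = M := Finset.card_range M
        exact_mod_cast this
    _ ≤ ((4 * Real.pi * |r| + 4 * Real.pi + 2 * A.card) * (M : ℝ) ^ 2) *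
        (C ^ A.card * (M : ℝ) ^ (D * A.card) *
          Real.exp (M * (4 * A.card * Fr (3 / 4) - 40 / 1000))) := by
        rw [← mul_assoc]
        apply mul_le_mul_of_nonneg_right _ (by positivity)
        have h1 : 0 ≤ 4 * Real.pi + 2 * (A.card : ℝ) := by positivity
        have h2 : (4 * Real.pi + 2 * (A.card : ℝ)) * M ≤
            (4 * Real.pi + 2 * (A.card : ℝ)) * (M : ℝ) ^ 2 := by
          apply mul_le_mul_of_nonneg_left _ h1
          nlinarith only [hM1]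
        nlinarith only [h2]
    _ = _ := by ring

end Pool.Agent.H63.VC7

end
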