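import Pool.Agent.H94.PA.M04
import Pool.Agent.H94.PA.M31

/-! The parts of this file: H63.VC8.BnB8, H63.VC8.Defs8, H63.VC8.SlotXa8, H63.VC3.JNlim, H63.VC3.Reduce. -/

section

/-! # The even factor -/

namespace Pool.Agent.H63.VC8

open Pool.Agent.H63.VC
open Pool.Agent.H63.VC3 Complex

variable {m p : ℕ}

/-- One factor of the even factor. -/
noncomputable def BnB8_f (n M j : ℕ) (v : ℂ) : ℂ :=
  2 * Complex.cos (Real.pi * (v + ((j : ℂ) + 1 - bt n) / M))

theorem BnB8_eq (n M : ℕ) (v : ℂ) : Bn n M v = ∏ j ∈ Finset.range (n - 2), BnB8_f n M j v := rfl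

theorem BnB8_shift {n M j : ℕ} (hM : 1000 * (n + 1) ≤ M) (hj : j ∈ Finset.range (n - 2)) :
    |((j : ℝ) + 1 - bt n) / M| ≤ 1 / 1000 := by
  rw [Finset.mem_range] at hj
  have hn : (3 : ℝ) ≤ n := by exact_mod_cast (show 3 ≤ n by omega)
  have hj' : (j : ℝ) + 1 ≤ n := by exact_mod_cast (show j + 1 ≤ n by omega)
  have hj0 : (0 : ℝ) ≤ j := Nat.cast_nonneg j
  have hM' : 1000 * ((n : ℝ) + 1) ≤ M := by exact_mod_cast hM
  have hM0 : (0 : ℝ) < M := by linarith
  rw [abs_div, abs_of_pos hM0, div_le_iff₀ hM0]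
  have h1 : |(j : ℝ) + 1 - bt n| ≤ n := by
    unfold bt
    rw [abs_le]
    constructor <;> linarith
  linarith

theorem BnB8_arg_re (n M j : ℕ) (v : ℂ) :
    (((Real.pi : ℝ) : ℂ) * (v + ((j : ℂ) + 1 - bt n) / M)).re
      = Real.pi * (v.re + ((j : ℝ) + 1 - bt n) / M) := by
  have e : ((j : ℂ) + 1 - bt n) / M = ((((j : ℝ) + 1 - bt n) / M : ℝ) : ℂ) := by push_cast; rfl
  rw [e, Complex.re_ofReal_mul, Complex.add_re, Complex.ofReal_re]

theorem BnB8_arg_im (n M j : ℕ) (v : ℂ) :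
    (((Real.pi : ℝ) : ℂ) * (v + ((j : ℂ) + 1 - bt n) / M)).im = Real.pi * v.im := by
  have e : ((j : ℂ) + 1 - bt n) / M = ((((j : ℝ) + 1 - bt n) / M : ℝ) : ℂ) := by push_cast; rfl
  rw [e, Complex.im_ofReal_mul, Complex.add_im, Complex.ofReal_im, add_zero]

theorem BnB8_cos_ge (z : ℂ) : |Real.cos z.re| ≤ ‖Complex.cos z‖ := by
  have h1 : (Complex.cos z).re = Real.cos z.re * Real.cosh z.im := by
    have h2 := Complex.cos_eq z
    rw [h2, ← Complex.ofReal_cos, ← Complex.ofReal_cosh, ← Complex.ofReal_sin,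
      ← Complex.ofReal_sinh, ← Complex.ofReal_mul, ← Complex.ofReal_mul, Complex.sub_re,
      Complex.ofReal_re, Complex.re_ofReal_mul, Complex.I_re, mul_zero, sub_zero]
  refine le_trans ?_ (Complex.abs_re_le_norm _)
  rw [h1, abs_mul, abs_of_pos (Real.cosh_pos _)]
  exact le_mul_of_one_le_right (abs_nonneg _) (Real.one_le_cosh _)

theorem BnB8_cos_le (z : ℂ) : ‖Complex.cos z‖ ≤ Real.exp |z.im| := by
  have h1 : Complex.cos z = (Complex.exp (z * I) + Complex.exp (-z * I)) / 2 := rfl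
  rw [h1, norm_div]
  have h2 : ‖(2 : ℂ)‖ = 2 := by norm_num
  rw [h2, div_le_iff₀ (by norm_num)]
  refine (norm_add_le _ _).trans ?_
  rw [Complex.norm_exp, Complex.norm_exp]
  have e1 : (z * I).re = -z.im := by simp
  have e2 : (-z * I).re = z.im := by simp
  rw [e1, e2]
  have h3 : Real.exp (-z.im) ≤ Real.exp |z.im| := Real.exp_le_exp.2 (neg_le_abs _)
  have h4 : Real.exp z.im ≤ Real.exp |z.im| := Real.exp_le_exp.2 (le_abs_self _)
  linarith

theorem BnB8_f_ge {n M j : ℕ} (hM : 1000 * (n + 1) ≤ M) (hj : j ∈ Finset.range (n - 2)) {v : ℂ}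
    (hv : |v.re| ≤ 16 / 100) : 1 ≤ ‖BnB8_f n M j v‖ := by
  have h1 := BnB8_shift hM hj
  unfold BnB8_f
  rw [norm_mul]
  have h2 : ‖(2 : ℂ)‖ = 2 := by norm_num
  rw [h2]
  have h3 := BnB8_cos_ge (((Real.pi : ℝ) : ℂ) * (v + ((j : ℂ) + 1 - bt n) / M))
  rw [BnB8_arg_re] at h3
  set x : ℝ := v.re + ((j : ℝ) + 1 - bt n) / M with hx
  have h4 : |x| ≤ 1 / 3 := by
    refine (abs_add_le _ _).trans ?_
    linarith
  have h5 : 1 / 2 ≤ Real.cos (Real.pi * x) := by
    rw [← Real.cos_pi_div_three, ← Real.cos_abs (Real.pi * x)]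
    refine Real.cos_le_cos_of_nonneg_of_le_pi (abs_nonneg _) ?_ ?_
    · have := Real.pi_pos
      linarith
    · rw [abs_mul, abs_of_pos Real.pi_pos]
      have := Real.pi_pos
      nlinarith
  have h6 := le_abs_self (Real.cos (Real.pi * x))
  linarith

theorem BnB8_f_le (n M j : ℕ) {v : ℂ} (hv : |v.im| ≤ 1 / 10) : ‖BnB8_f n M j v‖ ≤ 6 := by
  unfold BnB8_f
  rw [norm_mul]
  have h2 : ‖(2 : ℂ)‖ = 2 := by norm_num
  rw [h2]
  have h3 := BnB8_cos_le (((Real.pi : ℝ) : ℂ) * (v + ((j : ℂ) + 1 - bt n) / M))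
  rw [BnB8_arg_im] at h3
  have h4 : |Real.pi * v.im| ≤ 1 := by
    rw [abs_mul, abs_of_pos Real.pi_pos]
    have := Real.pi_lt_four
    have := Real.pi_pos
    nlinarith [abs_nonneg v.im]
  have h5 : Real.exp |Real.pi * v.im| ≤ 3 := by
    refine (Real.exp_le_exp.2 h4).trans ?_
    have := Real.exp_one_lt_d9
    linarith
  linarith

theorem BnB8_one_le_prod (s : Finset ℕ) (f : ℕ → ℝ) (h : ∀ j ∈ s, 1 ≤ f j) :
    1 ≤ ∏ j ∈ s, f j := by
  induction s using Finset.induction_on with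
  | empty => simp
  | insert a s ha ih =>
    rw [Finset.prod_insert ha]
    have h1 := h a (Finset.mem_insert_self _ _)
    have h2 := ih (fun j hj => h j (Finset.mem_insert_of_mem hj))
    nlinarith

/-- Lower and upper bounds of the even factor near the imaginary axis. -/
theorem BnB8_bound (n : ℕ) : ∃ c C : ℝ, 0 < c ∧ 0 < C ∧ ∀ (M : ℕ) (v : ℂ), 1000 * (n + 1) ≤ M →
    |v.re| ≤ 16 / 100 → |v.im| ≤ 1 / 10 → c ≤ ‖Bn n M v‖ ∧ ‖Bn n M v‖ ≤ C := by
  refine ⟨1, 6 ^ (n - 2), one_pos, by positivity, fun M v hM hre him => ?_⟩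
  rw [BnB8_eq, _root_.norm_prod]
  constructor
  · exact BnB8_one_le_prod _ _ (fun j hj => BnB8_f_ge hM hj hre)
  · calc ∏ j ∈ Finset.range (n - 2), ‖BnB8_f n M j v‖
        ≤ ∏ _j ∈ Finset.range (n - 2), (6 : ℝ) :=
          Finset.prod_le_prod (fun j _ => norm_nonneg _) (fun j _ => BnB8_f_le n M j him)
      _ = 6 ^ (n - 2) := by rw [Finset.prod_const, Finset.card_range]

theorem BnB8_ne (n M : ℕ) (hM : 1000 * (n + 1) ≤ M) (v : ℂ) (hv : |v.re| ≤ 16 / 100) :
    Bn n M v ≠ 0 := by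
  rw [BnB8_eq, Finset.prod_ne_zero_iff]
  intro j hj h0
  have h1 := BnB8_f_ge hM hj hv
  rw [h0, norm_zero] at h1
  linarith

/-- The limit of the even factor. -/
theorem BnB8_lim (n : ℕ) (v : ℂ) (V : ℕ → ℂ) (hV : Filter.Tendsto V Filter.atTop (nhds v)) :
    Filter.Tendsto (fun M : ℕ => Bn n M (V M)) Filter.atTop
      (nhds ((2 * cos (Real.pi * v)) ^ (n - 2))) := by
  have h0 : (2 * cos (Real.pi * v)) ^ (n - 2)
      = ∏ _j ∈ Finset.range (n - 2), (2 * cos (Real.pi * v)) := by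
    rw [Finset.prod_const, Finset.card_range]
  rw [h0]
  simp only [BnB8_eq]
  refine tendsto_finsetProd _ (fun j _ => ?_)
  unfold BnB8_f
  have h1 : Filter.Tendsto (fun M : ℕ => ((j : ℂ) + 1 - bt n) / (M : ℂ)) Filter.atTop (nhds 0) :=
    tendsto_const_div_atTop_nhds_zero_nat _
  have h2 : Filter.Tendsto (fun M : ℕ => ((Real.pi : ℝ) : ℂ) * (V M + ((j : ℂ) + 1 - bt n) / M))
      Filter.atTop (nhds (((Real.pi : ℝ) : ℂ) * (v + 0))) :=
    (hV.add h1).const_mul _
  rw [add_zero] at h2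
  exact ((Complex.continuous_cos.tendsto _).comp h2).const_mul 2

theorem BnB8_hasDeriv (n M j : ℕ) (v : ℂ) : HasDerivAt (BnB8_f n M j)
    (-(2 * Real.pi) * Complex.sin (Real.pi * (v + ((j : ℂ) + 1 - bt n) / M))) v := by
  unfold BnB8_f
  have h1 : HasDerivAt (fun v : ℂ => ((Real.pi : ℝ) : ℂ) * (v + ((j : ℂ) + 1 - bt n) / M))
      (((Real.pi : ℝ) : ℂ) * 1) v :=
    ((hasDerivAt_id v).add_const _).const_mul _
  have h2 := (h1.ccos).const_mul 2
  have e : 2 * (-Complex.sin (((Real.pi : ℝ) : ℂ) * (v + ((j : ℂ) + 1 - bt n) / M)) *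
      (((Real.pi : ℝ) : ℂ) * 1))
      = -(2 * Real.pi) * Complex.sin (Real.pi * (v + ((j : ℂ) + 1 - bt n) / M)) := by ring
  rw [← e]
  exact h2

theorem BnB8_real_f (n M j : ℕ) (x : ℝ) : ‖BnB8_f n M j (x : ℂ)‖ ≤ 2 ∧
    ‖deriv (BnB8_f n M j) (x : ℂ)‖ ≤ 2 * Real.pi := by
  have e : ((Real.pi : ℝ) : ℂ) * ((x : ℂ) + ((j : ℂ) + 1 - bt n) / M)
      = ((Real.pi * (x + ((j : ℝ) + 1 - bt n) / M) : ℝ) : ℂ) := by push_cast; rfl
  constructor
  · unfold BnB8_f
    rw [e, ← Complex.ofReal_cos, norm_mul, Complex.norm_real, Real.norm_eq_abs]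
    have h2 : ‖(2 : ℂ)‖ = 2 := by norm_num
    rw [h2]
    have := Real.abs_cos_le_one (Real.pi * (x + ((j : ℝ) + 1 - bt n) / M))
    linarith
  · rw [(BnB8_hasDeriv n M j x).deriv, e, ← Complex.ofReal_sin, norm_mul, Complex.norm_real,
      Real.norm_eq_abs, norm_neg, norm_mul, Complex.norm_real, Real.norm_eq_abs,
      abs_of_pos Real.pi_pos]
    have h2 : ‖(2 : ℂ)‖ = 2 := by norm_num
    rw [h2]
    have := Real.abs_sin_le_one (Real.pi * (x + ((j : ℝ) + 1 - bt n) / M))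
    have := Real.pi_pos
    nlinarith

theorem BnB8_diff_prod (n M k : ℕ) :
    Differentiable ℂ (fun v => ∏ j ∈ Finset.range k, BnB8_f n M j v) := by
  induction k with
  | zero => simp
  | succ k ih =>
    simp only [Finset.prod_range_succ]
    exact ih.mul (fun v => (BnB8_hasDeriv n M k v).differentiableAt)

theorem BnB8_real_aux (n M k : ℕ) (x : ℝ) :
    ‖∏ j ∈ Finset.range k, BnB8_f n M j (x : ℂ)‖ ≤ 2 ^ k ∧
    ‖deriv (fun v => ∏ j ∈ Finset.range k, BnB8_f n M j v) (x : ℂ)‖ ≤ 2 * Real.pi * k * 2 ^ k := by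
  induction k with
  | zero => simp
  | succ k ih =>
    obtain ⟨h1, h2⟩ := ih
    obtain ⟨h3, h4⟩ := BnB8_real_f n M k x
    constructor
    · rw [Finset.prod_range_succ, norm_mul, pow_succ]
      exact mul_le_mul h1 h3 (norm_nonneg _) (by positivity)
    · simp only [Finset.prod_range_succ]
      have h5 : deriv (fun v => (∏ j ∈ Finset.range k, BnB8_f n M j v) * BnB8_f n M k v) (x : ℂ)
          = deriv (fun v => ∏ j ∈ Finset.range k, BnB8_f n M j v) (x : ℂ) * BnB8_f n M k x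
            + (∏ j ∈ Finset.range k, BnB8_f n M j (x : ℂ)) * deriv (BnB8_f n M k) x :=
        deriv_fun_mul (BnB8_diff_prod n M k _) (BnB8_hasDeriv n M k _).differentiableAt
      rw [h5]
      refine (norm_add_le _ _).trans ?_
      rw [norm_mul, norm_mul]
      have h6 := mul_le_mul h2 h3 (norm_nonneg _) (by positivity)
      have h7 := mul_le_mul h1 h4 (norm_nonneg _) (by positivity)
      refine (add_le_add h6 h7).trans ?_
      rw [pow_succ]
      push_cast
      have h8 : (0 : ℝ) < 2 ^ k := by positivity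
      have h9 := Real.pi_pos
      nlinarith [mul_pos h9 h8]

/-- Upper bounds of the even factor and of its derivative on the real axis. -/
theorem BnB8_real (n M : ℕ) (x : ℝ) : ‖Bn n M (x : ℂ)‖ ≤ 2 ^ (n - 2) ∧
    ‖deriv (Bn n M) (x : ℂ)‖ ≤ 2 * Real.pi * n * 2 ^ (n - 2) := by
  obtain ⟨h1, h2⟩ := BnB8_real_aux n M (n - 2) x
  refine ⟨h1, ?_⟩
  have e : Bn n M = fun v => ∏ j ∈ Finset.range (n - 2), BnB8_f n M j v := by
    funext v
    exact BnB8_eq n M v
  rw [e]
  refine h2.trans ?_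
  have h3 : ((n - 2 : ℕ) : ℝ) ≤ n := by exact_mod_cast Nat.sub_le n 2
  have h4 := Real.pi_pos
  gcongr

end Pool.Agent.H63.VC8

end

section

/-!
# Plumbings of annuli: definitions for the asymptotics
-/

namespace Pool.Agent.H63.VC8

open Pool.Agent.H63.VC
open Pool.Agent.H63.VC3 Pool.Agent.H63.VC4 Pool.Agent.H63.VC7 Complex

variable {m p : ℕ}

/-! ### The invariant at the root of unity -/

/-- The factor of a slot, a trigonometric polynomial. -/
noncomputable def qcn (n M k : ℕ) (v : ℂ) : ℂ := 1 / M * ∏ i ∈ Finset.range (M + 1 - n - k),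
  (4 * (cos (Real.pi * (v + (i + bt n) / M)) * cos (Real.pi * (v - (i + bt n) / M))))

/-- The function whose derivatives are summed at a node. -/
noncomputable def NT8 (r : ℝ) (n M : ℕ) (A : Finset (Fin m)) (k : Fin m → ℕ) (v : ℂ) : ℂ :=
  exp (2 * Real.pi * I * r * M * v ^ 2) * (2 * sin (2 * Real.pi * v)) * Bn n M v ^ 2 *
    ∏ j ∈ A, qcn n M (k j) v

/-- The factor of a node. -/
noncomputable def DG8 (r : ℝ) (n M : ℕ) (A : Finset (Fin m)) (k : Fin m → ℕ) : ℂ :=
  ∑ X ∈ Finset.range (M + 2 - n), deriv (NT8 r n M A k) ((vl n M X : ℝ) : ℂ)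

/-- The invariant at the root of unity, up to simple factors. -/
noncomputable def JG8 (s t : Fin m → Fin p) (r : Fin p → ℝ) (n g M : ℕ) : ℂ :=
  ∑ k ∈ Fintype.piFinset (fun _ : Fin m => Finset.range (M + 2 - n)),
    (∏ j, Cc n g M (yk n M (k j))) * ∏ i, DG8 (r i) n M (inc s t i) k

/-- The phase of a node with `r` full twists. -/
noncomputable def cG8 (r : ℤ) (n M : ℕ) : ℂ :=
  exp (2 * r * (Real.pi * I * bt n - Real.pi * I * M / 4 - Real.pi * I * (bt n : ℂ) ^ 2 / M))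

/-! ### Kernels -/

/-- The kernel at a node. -/
noncomputable def KG8 (r : ℝ) (n M : ℕ) (A : Finset (Fin m)) (y : Fin m → ℂ) (v : ℂ) : ℂ :=
  exp (2 * Real.pi * I * r * M * v ^ 2) * (2 * sin (2 * Real.pi * v)) *
    Bn n M v ^ (2 - (A.card : ℤ)) * ∏ j ∈ A, Qo n M (some (y j)) v

/-- The contour integral at a node. -/
noncomputable def PG8 (r : ℝ) (n M : ℕ) (A : Finset (Fin m)) (y : Fin m → ℂ) (ρ Y : ℝ) : ℂ :=
  Path (fun v => KG8 r n M A y v * om n M v) ρ Y

/-- Its flat part. -/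
noncomputable def FG8 (r : ℝ) (n M : ℕ) (A : Finset (Fin m)) (y : Fin m → ℂ) (ρ Y : ℝ) : ℂ :=
  ∫ x in (-ρ)..ρ, KG8 r n M A y (x + Y * I) * om n M (x + Y * I)

open Classical in
/-- The approximation of the factor of a node. -/
noncomputable def GD8 (r Y : ℝ) (n M k1 k2 l2 : ℕ) (A : Finset (Fin m)) (k : Fin m → ℕ) : ℂ :=
  if ∀ j ∈ A, k1 ≤ k j ∧ k j ≤ k2 then
    -(4 * Real.pi * I * M ^ 2) *
      FG8 r n M A (fun j => ((yk n M (k j) : ℝ) : ℂ)) (rho n M l2) Y
  else 0

/-- The integrand for the nodes outside of `B` and the edges outside of `E`. -/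
noncomputable def GN8 (s t : Fin m → Fin p) (r : Fin p → ℝ) (n g M : ℕ) (B : Finset (Fin p))
    (E : Finset (Fin m)) (y : Fin m → ℂ) (v : Fin p → ℂ) : ℂ :=
  (∏ j ∈ Eᶜ, Cc n g M (y j)) * ∏ i ∈ Bᶜ, (KG8 (r i) n M (inc s t i) y (v i) * om n M (v i))

/-- The main integral over the flat contours. -/
noncomputable def MG8 (s t : Fin m → Fin p) (r : Fin p → ℝ) (n g M : ℕ) (Y0 : Fin m → ℝ)
    (Y1 : Fin p → ℝ) (y1 y2 ρ : ℝ) : ℂ :=
  ∫ z in Bx7 m p y1 y2 ρ, GN8 s t r n g M ∅ ∅ (zy7 Y0 z) (zv7 Y1 z)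

/-! ### The state sum as a sum over the edges -/

/-- The slot factor for a generic `q`. -/
noncomputable def pw8 (n : ℕ) (q : ℂ) (t X : ℕ) : ℂ :=
  ∏ i ∈ Finset.range t, (br q ((n : ℤ) + X + i - 1) * br q ((X : ℤ) - i))

/-- The weight of an edge for a generic `q`. -/
noncomputable def E8 (n N : ℕ) (q : ℂ) (t : ℕ) : ℂ :=
  (-1) ^ t / ∏ i ∈ Finset.range t, (br q ((i : ℤ) + 1) * br q ((n : ℤ) + i - 1) *
    (br q ((n : ℤ) + N + i) * br q ((N : ℤ) - i)))

/-- The factor of a node for a generic `q`. -/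
noncomputable def NF8 (r : ℤ) (n N : ℕ) (q : ℂ) (A : Finset (Fin m)) (t : Fin m → ℕ) : ℂ :=
  ∑ X ∈ Finset.range (N + 1), q ^ (2 * r * (X * (X + n - 1))) *
    (dimA n q X / dimS n N q) * ∏ j ∈ A, pw8 n q (t j) X

/-- The order of the pole of the weight of an edge at the root of unity `exp (π i / (N + g))`. -/
def lev (n g N t : ℕ) : ℕ :=
  (if N + g + 1 < n + t then 1 else 0) + (if N + 2 * g < n + t then 1 else 0)

end Pool.Agent.H63.VC8

end

section

/-! # The slot factor at the lattice points -/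

namespace Pool.Agent.H63.VC8

open Pool.Agent.H63.VC
open Pool.Agent.H63.VC3 Pool.Agent.H63.VC4 Pool.Agent.H63.VC7 Complex

variable {m p : ℕ}

private noncomputable def SlotXa8_f (n M i : ℕ) (v : ℂ) : ℂ :=
  2 * cos (Real.pi * (v + (i + bt n) / M))

private noncomputable def SlotXa8_g (n M i : ℕ) (v : ℂ) : ℂ :=
  2 * cos (Real.pi * (v - (i + bt n) / M))

private lemma SlotXa8_qc (n M k : ℕ) : qcn n M k = fun v => (1 / (M : ℂ)) *
    ((∏ i ∈ Finset.range (M + 1 - n - k), SlotXa8_f n M i v) *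
      ∏ i ∈ Finset.range (M + 1 - n - k), SlotXa8_g n M i v) := by
  funext v
  unfold qcn
  rw [← Finset.prod_mul_distrib]
  congr 1
  refine Finset.prod_congr rfl fun i _ => ?_
  unfold SlotXa8_f SlotXa8_g
  ring

private lemma SlotXa8_fd (n M i : ℕ) (v : ℂ) :
    HasDerivAt (SlotXa8_f n M i) (-(2 * Real.pi) * sin (Real.pi * (v + (i + bt n) / M))) v := by
  unfold SlotXa8_f
  have h1 : HasDerivAt (fun v : ℂ => (Real.pi : ℂ) * (v + (i + bt n) / M)) ((Real.pi : ℂ) * 1) v :=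
    ((hasDerivAt_id v).add_const _).const_mul _
  have h2 := (h1.ccos).const_mul (2 : ℂ)
  convert! h2 using 1
  ring

private lemma SlotXa8_gd (n M i : ℕ) (v : ℂ) :
    HasDerivAt (SlotXa8_g n M i) (-(2 * Real.pi) * sin (Real.pi * (v - (i + bt n) / M))) v := by
  unfold SlotXa8_g
  have h1 : HasDerivAt (fun v : ℂ => (Real.pi : ℂ) * (v - (i + bt n) / M)) ((Real.pi : ℂ) * 1) v :=
    ((hasDerivAt_id v).sub_const _).const_mul _
  have h2 := (h1.ccos).const_mul (2 : ℂ)
  convert! h2 using 1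
  ring

private lemma SlotXa8_sin_le (x : ℝ) : ‖-(2 * (Real.pi : ℂ)) * sin (x : ℂ)‖ ≤ 2 * Real.pi := by
  rw [norm_mul, norm_neg, ← ofReal_sin, norm_real]
  have h1 : ‖(2 * (Real.pi : ℂ))‖ = 2 * Real.pi := by
    rw [norm_mul, norm_real, Real.norm_eq_abs, abs_of_pos Real.pi_pos]
    norm_num
  rw [h1, Real.norm_eq_abs]
  have := Real.abs_sin_le_one x
  nlinarith only [this, Real.pi_pos]

private lemma SlotXa8_fb (n M i : ℕ) (x : ℝ) :
    ‖-(2 * (Real.pi : ℂ)) * sin (Real.pi * ((x : ℂ) + (i + bt n) / M))‖ ≤ 2 * Real.pi := by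
  have := SlotXa8_sin_le (Real.pi * (x + (i + bt n) / M))
  push_cast at this
  exact this

private lemma SlotXa8_gb (n M i : ℕ) (x : ℝ) :
    ‖-(2 * (Real.pi : ℂ)) * sin (Real.pi * ((x : ℂ) - (i + bt n) / M))‖ ≤ 2 * Real.pi := by
  have := SlotXa8_sin_le (Real.pi * (x - (i + bt n) / M))
  push_cast at this
  exact this

private lemma SlotXa8_vl (n M X : ℕ) : vl n M X = (X + bt n) / M - 1 / 2 := rfl

private lemma SlotXa8_fv (n M X i : ℕ) (hn : 2 ≤ n) :
    SlotXa8_f n M i ((vl n M X : ℝ) : ℂ) = ((sg M (X + n - 1 + i) : ℝ) : ℂ) := by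
  unfold SlotXa8_f sg
  rw [SlotXa8_vl]
  have e0 : ((X + n - 1 + i : ℕ) : ℝ) = X + 2 * bt n + i := by
    unfold bt
    rw [Nat.cast_add, Nat.cast_sub (by omega)]
    push_cast
    ring
  have e : (Real.pi : ℂ) * ((((X + bt n) / M - 1 / 2 : ℝ) : ℂ) + (i + bt n) / M) =
      ((Real.pi * ((X + n - 1 + i : ℕ) : ℝ) / M : ℝ) : ℂ) - Real.pi / 2 := by
    rw [e0]
    push_cast
    ring
  rw [e, cos_sub_pi_div_two, ← ofReal_sin]
  push_cast
  ring

private lemma SlotXa8_gv (n M X i : ℕ) :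
    SlotXa8_g n M i ((vl n M X : ℝ) : ℂ) = ((2 * Real.sin (Real.pi * ((X : ℝ) - i) / M) : ℝ) : ℂ) := by
  unfold SlotXa8_g
  rw [SlotXa8_vl]
  have e : (Real.pi : ℂ) * ((((X + bt n) / M - 1 / 2 : ℝ) : ℂ) - (i + bt n) / M) =
      ((Real.pi * ((X : ℝ) - i) / M : ℝ) : ℂ) - Real.pi / 2 := by
    push_cast
    ring
  rw [e, cos_sub_pi_div_two, ← ofReal_sin]
  push_cast
  ring

private lemma SlotXa8_gv1 (n M X i : ℕ) (h : i ≤ X) :
    SlotXa8_g n M i ((vl n M X : ℝ) : ℂ) = ((sg M (X - i) : ℝ) : ℂ) := by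
  rw [SlotXa8_gv]
  unfold sg
  rw [Nat.cast_sub h]

private lemma SlotXa8_gv2 (n M X i : ℕ) (h : X ≤ i) :
    SlotXa8_g n M i ((vl n M X : ℝ) : ℂ) = -((sg M (i - X) : ℝ) : ℂ) := by
  rw [SlotXa8_gv]
  unfold sg
  rw [Nat.cast_sub h, ← ofReal_neg]
  congr 1
  have : Real.pi * ((X : ℝ) - i) / M = -(Real.pi * ((i : ℝ) - X) / M) := by ring
  rw [this, Real.sin_neg]
  ring

private lemma SlotXa8_g0 (n M X : ℕ) : SlotXa8_g n M X ((vl n M X : ℝ) : ℂ) = 0 := by
  rw [SlotXa8_gv]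
  simp

private lemma SlotXa8_prodF (n M X t : ℕ) (hn : 2 ≤ n) (hX : X + n - 2 < M) :
    ∏ i ∈ Finset.range t, sg M (X + n - 1 + i) = S M (X + n - 2 + t) / S M (X + n - 2) := by
  have h1 := S_split (M := M) (k := X + n - 2) (l := X + n - 2 + t) (by omega)
  rw [Finset.prod_Ico_eq_prod_range] at h1
  have h2 : X + n - 2 + t + 1 - (X + n - 2 + 1) = t := by omega
  rw [h2] at h1
  rw [h1, mul_div_cancel_left₀ _ (S_pos hX).ne']
  refine Finset.prod_congr rfl fun i _ => ?_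
  congr 1
  omega

private lemma SlotXa8_prodG (M X : ℕ) : ∀ t : ℕ, t ≤ X →
    S M X = S M (X - t) * ∏ i ∈ Finset.range t, sg M (X - i) := by
  intro t
  induction t with
  | zero => intro _; simp
  | succ t ih =>
    intro ht
    rw [Finset.prod_range_succ, ih (by omega)]
    have h1 : X - t = (X - (t + 1)) + 1 := by omega
    rw [h1, S_succ, ← h1]
    ring

/-- The norm of the derivative of a product. -/
private lemma SlotXa8_prod_bound (t : ℕ) (h h' : ℕ → ℂ) (c D : ℝ) (hc : 0 < c) (hD : 0 ≤ D)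
    (h1 : ∀ i < t, c ≤ ‖h i‖) (h2 : ∀ i < t, ‖h' i‖ ≤ D) :
    ‖∑ i ∈ Finset.range t, (∏ j ∈ (Finset.range t).erase i, h j) • h' i‖ ≤
      t * (D / c) * ‖∏ i ∈ Finset.range t, h i‖ := by
  refine (norm_sum_le _ _).trans ?_
  have h3 : ∀ i ∈ Finset.range t, ‖(∏ j ∈ (Finset.range t).erase i, h j) • h' i‖ ≤
      (D / c) * ‖∏ i ∈ Finset.range t, h i‖ := by
    intro i hi
    rw [← Finset.mul_prod_erase _ _ hi, norm_smul, norm_mul]
    have hi' := Finset.mem_range.1 hi
    have e1 := h1 i hi'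
    have e2 := h2 i hi'
    have e3 : (1 : ℝ) ≤ ‖h i‖ / c := by rw [le_div_iff₀ hc]; linarith
    calc ‖∏ j ∈ (Finset.range t).erase i, h j‖ * ‖h' i‖
        ≤ ‖∏ j ∈ (Finset.range t).erase i, h j‖ * D := by gcongr
      _ ≤ ‖∏ j ∈ (Finset.range t).erase i, h j‖ * D * (‖h i‖ / c) :=
          le_mul_of_one_le_right (by positivity) e3
      _ = D / c * (‖h i‖ * ‖∏ j ∈ (Finset.range t).erase i, h j‖) := by ring
  refine (Finset.sum_le_sum h3).trans ?_
  rw [Finset.sum_const, Finset.card_range, nsmul_eq_mul, mul_assoc]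

private lemma SlotXa8_Fd (n M t : ℕ) (v : ℂ) :
    HasDerivAt (fun v => ∏ i ∈ Finset.range t, SlotXa8_f n M i v)
      (∑ i ∈ Finset.range t, (∏ j ∈ (Finset.range t).erase i, SlotXa8_f n M j v) •
        (-(2 * Real.pi) * sin (Real.pi * (v + (i + bt n) / M)))) v :=
  HasDerivAt.fun_finsetProd fun i _ => SlotXa8_fd n M i v

private lemma SlotXa8_Gd (n M t : ℕ) (v : ℂ) :
    HasDerivAt (fun v => ∏ i ∈ Finset.range t, SlotXa8_g n M i v)
      (∑ i ∈ Finset.range t, (∏ j ∈ (Finset.range t).erase i, SlotXa8_g n M j v) •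
        (-(2 * Real.pi) * sin (Real.pi * (v - (i + bt n) / M)))) v :=
  HasDerivAt.fun_finsetProd fun i _ => SlotXa8_gd n M i v

private lemma SlotXa8_qcd (n M k : ℕ) (v : ℂ) :
    deriv (qcn n M k) v = (1 / (M : ℂ)) *
      ((∑ i ∈ Finset.range (M + 1 - n - k),
          (∏ j ∈ (Finset.range (M + 1 - n - k)).erase i, SlotXa8_f n M j v) •
          (-(2 * Real.pi) * sin (Real.pi * (v + (i + bt n) / M)))) *
        (∏ i ∈ Finset.range (M + 1 - n - k), SlotXa8_g n M i v) +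
      (∏ i ∈ Finset.range (M + 1 - n - k), SlotXa8_f n M i v) *
        (∑ i ∈ Finset.range (M + 1 - n - k),
          (∏ j ∈ (Finset.range (M + 1 - n - k)).erase i, SlotXa8_g n M j v) •
          (-(2 * Real.pi) * sin (Real.pi * (v - (i + bt n) / M))))) := by
  rw [SlotXa8_qc]
  exact (((SlotXa8_Fd n M (M + 1 - n - k) v).fun_mul (SlotXa8_Gd n M (M + 1 - n - k) v)).const_mul _).deriv

private lemma SlotXa8_normF (n M X t : ℕ) (hn : 2 ≤ n) (ht : X + n - 2 + t < M) :
    ‖∏ i ∈ Finset.range t, SlotXa8_f n M i ((vl n M X : ℝ) : ℂ)‖ =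
      S M (X + n - 2 + t) / S M (X + n - 2) := by
  rw [← SlotXa8_prodF n M X t hn (by omega), _root_.norm_prod]
  refine Finset.prod_congr rfl fun i hi => ?_
  have hi' := Finset.mem_range.1 hi
  rw [SlotXa8_fv n M X i hn, norm_real, Real.norm_eq_abs, abs_of_pos (sg_pos (by omega) (by omega))]

theorem qcn_norm (n M k X : ℕ) (hn : 2 ≤ n) (hM : 2 ≤ M) (hk : k + n ≤ M + 1)
    (hX : 2 * X + n ≤ M + 1) :
    (M + 1 - n - k ≤ X →
      ‖qcn n M k ((vl n M X : ℝ) : ℂ)‖ = S M X / S M (X + n - 2) *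
        (S M (X + (M - 1 - k)) / (M * S M (X - (M + 1 - n - k)))) ∧
      ‖deriv (qcn n M k) ((vl n M X : ℝ) : ℂ)‖ ≤ 2 * Real.pi * (M : ℝ) ^ 2 *
        (S M X / S M (X + n - 2) *
          (S M (X + (M - 1 - k)) / (M * S M (X - (M + 1 - n - k)))))) ∧
    (X < M + 1 - n - k → X ≤ k → qcn n M k ((vl n M X : ℝ) : ℂ) = 0 ∧
      ‖deriv (qcn n M k) ((vl n M X : ℝ) : ℂ)‖ =
        2 * Real.pi / M * (S M X / S M (X + n - 2) *
          (S M (X + (M - 1 - k)) * S M (M - n - k - X)))) ∧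
    (k < X → qcn n M k ((vl n M X : ℝ) : ℂ) = 0 ∧
      deriv (qcn n M k) ((vl n M X : ℝ) : ℂ) = 0) := by
  have hM0 : (0 : ℝ) < M := by exact_mod_cast (by omega : 0 < M)
  have hXM : X < M := by omega
  have hSX := S_pos hXM
  have hXn : X + n - 2 < M := by omega
  have hSXn := S_pos hXn
  refine ⟨fun ht => ?_, fun ht hXk => ?_, fun hkX => ?_⟩
  · set t := M + 1 - n - k with htdef
    have hidx : X + n - 2 + t = X + (M - 1 - k) := by omega
    have hlt : X + n - 2 + t < M := by omega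
    have hF := SlotXa8_normF n M X t hn hlt
    rw [hidx] at hF
    have hGe := SlotXa8_prodG M X t ht
    have hG : ‖∏ i ∈ Finset.range t, SlotXa8_g n M i ((vl n M X : ℝ) : ℂ)‖ =
        S M X / S M (X - t) := by
      have hp := S_pos (M := M) (k := X - t) (by omega)
      rw [hGe, mul_div_cancel_left₀ _ hp.ne', _root_.norm_prod]
      refine Finset.prod_congr rfl fun i hi => ?_
      have hi' := Finset.mem_range.1 hi
      rw [SlotXa8_gv1 n M X i (by omega), norm_real, Real.norm_eq_abs,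
        abs_of_pos (sg_pos (by omega) (by omega))]
    have hp := S_pos (M := M) (k := X - t) (by omega)
    have hFG : ‖∏ i ∈ Finset.range t, SlotXa8_f n M i ((vl n M X : ℝ) : ℂ)‖ *
        ‖∏ i ∈ Finset.range t, SlotXa8_g n M i ((vl n M X : ℝ) : ℂ)‖ =
        S M X / S M (X + n - 2) * (S M (X + (M - 1 - k)) / S M (X - t)) := by
      rw [hF, hG]
      field_simp
    refine ⟨?_, ?_⟩
    · rw [SlotXa8_qc]
      simp only
      rw [← htdef, norm_mul, norm_mul, hFG, norm_div, norm_one, _root_.norm_natCast]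
      field_simp
    · rw [SlotXa8_qcd, ← htdef, norm_mul, norm_div, norm_one, _root_.norm_natCast]
      have b1 := SlotXa8_prod_bound t (fun i => SlotXa8_f n M i ((vl n M X : ℝ) : ℂ))
        (fun i => -(2 * (Real.pi : ℂ)) * sin (Real.pi * (((vl n M X : ℝ) : ℂ) + (i + bt n) / M)))
        (1 / M) (2 * Real.pi) (by positivity) (by positivity)
        (fun i hi => by
          rw [SlotXa8_fv n M X i hn, norm_real, Real.norm_eq_abs,
            abs_of_pos (sg_pos (by omega) (by omega))]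
          exact sg_ge (by omega) (by omega))
        (fun i _ => SlotXa8_fb n M i _)
      have b2 := SlotXa8_prod_bound t (fun i => SlotXa8_g n M i ((vl n M X : ℝ) : ℂ))
        (fun i => -(2 * (Real.pi : ℂ)) * sin (Real.pi * (((vl n M X : ℝ) : ℂ) - (i + bt n) / M)))
        (1 / M) (2 * Real.pi) (by positivity) (by positivity)
        (fun i hi => by
          rw [SlotXa8_gv1 n M X i (by omega), norm_real, Real.norm_eq_abs,
            abs_of_pos (sg_pos (by omega) (by omega))]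
          exact sg_ge (by omega) (by omega))
        (fun i _ => SlotXa8_gb n M i _)
      have htM : 2 * (t : ℝ) ≤ M := by exact_mod_cast (by omega : 2 * t ≤ M)
      set F := ∏ i ∈ Finset.range t, SlotXa8_f n M i ((vl n M X : ℝ) : ℂ) with hFd
      set G := ∏ i ∈ Finset.range t, SlotXa8_g n M i ((vl n M X : ℝ) : ℂ) with hGd
      refine (mul_le_mul_of_nonneg_left (norm_add_le _ _) (by positivity)).trans ?_
      rw [norm_mul, norm_mul]
      have c1 := mul_le_mul_of_nonneg_right b1 (norm_nonneg G)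
      have c2 := mul_le_mul_of_nonneg_left b2 (norm_nonneg F)
      have c3 : (1 / (M : ℝ)) * (t * (2 * Real.pi / (1 / M)) * ‖F‖ * ‖G‖ +
          ‖F‖ * (t * (2 * Real.pi / (1 / M)) * ‖G‖)) = 4 * Real.pi * t * (‖F‖ * ‖G‖) := by
        field_simp
        ring
      refine (mul_le_mul_of_nonneg_left (add_le_add c1 c2) (by positivity)).trans ?_
      rw [c3, hFG]
      have c4 : 2 * Real.pi * (M : ℝ) ^ 2 * (S M X / S M (X + n - 2) *
          (S M (X + (M - 1 - k)) / (M * S M (X - t)))) =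
          2 * Real.pi * M * (S M X / S M (X + n - 2) * (S M (X + (M - 1 - k)) / S M (X - t))) := by
        field_simp
      rw [c4]
      have hq : 0 ≤ S M X / S M (X + n - 2) * (S M (X + (M - 1 - k)) / S M (X - t)) := by
        rw [← hFG]; positivity
      refine mul_le_mul_of_nonneg_right ?_ hq
      nlinarith only [htM, Real.pi_pos]
  · set t := M + 1 - n - k with htdef
    have hidx : X + n - 2 + t = X + (M - 1 - k) := by omega
    have hlt : X + n - 2 + t < M := by omega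
    have hF := SlotXa8_normF n M X t hn hlt
    rw [hidx] at hF
    have hG0 : ∏ i ∈ Finset.range t, SlotXa8_g n M i ((vl n M X : ℝ) : ℂ) = 0 :=
      Finset.prod_eq_zero (Finset.mem_range.2 ht) (SlotXa8_g0 n M X)
    refine ⟨?_, ?_⟩
    · rw [SlotXa8_qc]
      simp only
      rw [← htdef, hG0]
      simp
    · rw [SlotXa8_qcd, ← htdef, hG0, mul_zero, zero_add]
      have hs : ∑ i ∈ Finset.range t,
          (∏ j ∈ (Finset.range t).erase i, SlotXa8_g n M j ((vl n M X : ℝ) : ℂ)) •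
          (-(2 * (Real.pi : ℂ)) * sin (Real.pi * (((vl n M X : ℝ) : ℂ) - (i + bt n) / M))) =
          (∏ j ∈ (Finset.range t).erase X, SlotXa8_g n M j ((vl n M X : ℝ) : ℂ)) •
          (-(2 * (Real.pi : ℂ)) * sin (Real.pi * (((vl n M X : ℝ) : ℂ) - (X + bt n) / M))) := by
        refine Finset.sum_eq_single X ?_ ?_
        · intro i hi hiX
          rw [Finset.prod_eq_zero (Finset.mem_erase.2 ⟨fun h => hiX h.symm,
            Finset.mem_range.2 ht⟩) (SlotXa8_g0 n M X), zero_smul]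
        · intro h
          exact absurd (Finset.mem_range.2 ht) h
      rw [hs]
      have hsin : -(2 * (Real.pi : ℂ)) * sin (Real.pi * (((vl n M X : ℝ) : ℂ) - (X + bt n) / M)) =
          2 * Real.pi := by
        rw [SlotXa8_vl]
        have e : (Real.pi : ℂ) * ((((X + bt n) / M - 1 / 2 : ℝ) : ℂ) - (X + bt n) / M) =
            -(Real.pi / 2) := by
          push_cast
          ring
        rw [e, sin_neg, sin_pi_div_two]
        ring
      rw [hsin]
      have hsplit : (Finset.range t).erase X = Finset.range X ∪ Finset.Ico (X + 1) t := by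
        ext i
        simp only [Finset.mem_erase, Finset.mem_range, Finset.mem_union, Finset.mem_Ico]
        omega
      have hdisj : Disjoint (Finset.range X) (Finset.Ico (X + 1) t) := by
        rw [Finset.disjoint_left]
        intro i hi hi2
        rw [Finset.mem_range] at hi
        rw [Finset.mem_Ico] at hi2
        omega
      have hP1 : ‖∏ j ∈ Finset.range X, SlotXa8_g n M j ((vl n M X : ℝ) : ℂ)‖ = S M X := by
        have h1 := SlotXa8_prodG M X X le_rfl
        rw [Nat.sub_self, S_zero, one_mul] at h1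
        rw [h1, _root_.norm_prod]
        refine Finset.prod_congr rfl fun i hi => ?_
        have hi' := Finset.mem_range.1 hi
        rw [SlotXa8_gv1 n M X i (by omega), norm_real, Real.norm_eq_abs,
          abs_of_pos (sg_pos (by omega) (by omega))]
      have hP2 : ‖∏ j ∈ Finset.Ico (X + 1) t, SlotXa8_g n M j ((vl n M X : ℝ) : ℂ)‖ =
          S M (M - n - k - X) := by
        rw [Finset.prod_Ico_eq_prod_range, _root_.norm_prod]
        unfold S
        rw [Finset.prod_Ico_eq_prod_range]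
        have e1 : t - (X + 1) = M - n - k - X + 1 - 1 := by omega
        rw [e1]
        refine Finset.prod_congr rfl fun i hi => ?_
        have hi' := Finset.mem_range.1 hi
        rw [SlotXa8_gv2 n M X _ (by omega), norm_neg, norm_real, Real.norm_eq_abs]
        have e2 : X + 1 + i - X = 1 + i := by omega
        rw [e2, abs_of_pos (sg_pos (by omega) (by omega))]
      rw [norm_mul, norm_mul, norm_smul, hF, hsplit, Finset.prod_union hdisj, norm_mul, hP1, hP2,
        norm_div, norm_one, _root_.norm_natCast]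
      have hpi : ‖(2 * (Real.pi : ℂ))‖ = 2 * Real.pi := by
        rw [norm_mul, norm_real, Real.norm_eq_abs, abs_of_pos Real.pi_pos]
        norm_num
      rw [hpi]
      field_simp
  · set t := M + 1 - n - k with htdef
    have hG0 : ∏ i ∈ Finset.range t, SlotXa8_g n M i ((vl n M X : ℝ) : ℂ) = 0 :=
      Finset.prod_eq_zero (Finset.mem_range.2 (by omega : X < t)) (SlotXa8_g0 n M X)
    have hf0 : SlotXa8_f n M (M + 1 - n - X) ((vl n M X : ℝ) : ℂ) = 0 := by
      rw [SlotXa8_fv n M X _ hn]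
      have e : X + n - 1 + (M + 1 - n - X) = M := by omega
      rw [e]
      unfold sg
      rw [mul_div_assoc, div_self hM0.ne', mul_one, Real.sin_pi]
      simp
    have hF0 : ∏ i ∈ Finset.range t, SlotXa8_f n M i ((vl n M X : ℝ) : ℂ) = 0 :=
      Finset.prod_eq_zero (Finset.mem_range.2 (by omega : M + 1 - n - X < t)) hf0
    refine ⟨?_, ?_⟩
    · rw [SlotXa8_qc]
      simp only
      rw [← htdef, hG0]
      simp
    · rw [SlotXa8_qcd, ← htdef, hG0, hF0]
      simp

private lemma SlotXa8_even (n M k : ℕ) (v : ℂ) : qcn n M k (-v) = qcn n M k v := by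
  unfold qcn
  congr 1
  refine Finset.prod_congr rfl fun i _ => ?_
  have e1 : (Real.pi : ℂ) * (-v + (i + bt n) / M) = -(Real.pi * (v - (i + bt n) / M)) := by ring
  have e2 : (Real.pi : ℂ) * (-v - (i + bt n) / M) = -(Real.pi * (v + (i + bt n) / M)) := by ring
  rw [e1, e2, cos_neg, cos_neg]
  ring

theorem qcn_reflect (n M k X : ℕ) (hn : 2 ≤ n) (hX : X + n ≤ M + 1) :
    qcn n M k ((vl n M (M + 1 - n - X) : ℝ) : ℂ) = qcn n M k ((vl n M X : ℝ) : ℂ) ∧
      deriv (qcn n M k) ((vl n M (M + 1 - n - X) : ℝ) : ℂ) =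
        -deriv (qcn n M k) ((vl n M X : ℝ) : ℂ) := by
  have hM0 : (M : ℝ) ≠ 0 := by exact_mod_cast (by omega : M ≠ 0)
  have e : ((vl n M (M + 1 - n - X) : ℝ) : ℂ) = -((vl n M X : ℝ) : ℂ) := by
    rw [← ofReal_neg]
    congr 1
    rw [SlotXa8_vl, SlotXa8_vl, Nat.sub_sub, Nat.cast_sub (by omega)]
    unfold bt
    push_cast
    field_simp
    ring
  rw [e]
  refine ⟨SlotXa8_even n M k _, ?_⟩
  have h1 : (fun v => qcn n M k (-v)) = qcn n M k := funext fun v => SlotXa8_even n M k v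
  have h2 := deriv_comp_neg (f := qcn n M k) (x := ((vl n M X : ℝ) : ℂ))
  rw [h1] at h2
  rw [h2, neg_neg]

end Pool.Agent.H63.VC8

end

section

/-! # Asymptotics of the invariant -/

namespace Pool.Agent.H63.VC3

open Pool.Agent.H63.VC Complex Filter Topology

theorem JNlim_sin (c : ℝ) (hc : 0 < c) :
    Tendsto (fun M : ℕ => 2 * Real.sin (c / M) * (M : ℝ)) atTop (𝓝 (2 * c)) := by
  have h0 : Tendsto (fun M : ℕ => c / (M : ℝ)) atTop (𝓝[≠] 0) := by
    rw [tendsto_nhdsWithin_iff]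
    refine ⟨tendsto_const_div_atTop_nhds_zero_nat c, ?_⟩
    filter_upwards [eventually_gt_atTop 0] with M hM
    have : (0 : ℝ) < M := by exact_mod_cast hM
    exact (div_pos hc this).ne'
  have h1 := (Real.hasDerivAt_sin 0).tendsto_slope_zero.comp h0
  have h2 := h1.const_mul (2 * c)
  rw [Real.cos_zero, mul_one] at h2
  refine h2.congr' ?_
  filter_upwards [eventually_gt_atTop 0] with M hM
  have hM' : (0 : ℝ) < M := by exact_mod_cast hM
  simp only [Function.comp_apply, zero_add, Real.sin_zero, sub_zero, smul_eq_mul]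
  field_simp

/-- `S(M, j) M^j → (2π)^j j!`. -/
theorem S_lim (j : ℕ) : Tendsto (fun M : ℕ => S M j * (M : ℝ) ^ j) atTop
    (𝓝 ((2 * Real.pi) ^ j * (Nat.factorial j : ℝ))) := by
  induction j with
  | zero =>
    simp only [S_zero, pow_zero, Nat.factorial_zero, Nat.cast_one, mul_one]
    exact tendsto_const_nhds
  | succ j ih =>
    have h1 := JNlim_sin (Real.pi * (j + 1)) (by positivity)
    have h2 := ih.mul h1
    have e : (2 * Real.pi) ^ j * (Nat.factorial j : ℝ) * (2 * (Real.pi * (j + 1))) =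
        (2 * Real.pi) ^ (j + 1) * (Nat.factorial (j + 1) : ℝ) := by
      rw [Nat.factorial_succ]
      push_cast
      ring
    rw [e] at h2
    refine h2.congr fun M => ?_
    rw [S_succ]
    unfold sg
    push_cast
    ring

end Pool.Agent.H63.VC3

end

section

/-! # Reduction of the sum to the main integral -/

namespace Pool.Agent.H63.VC3

open Pool.Agent.H63.VC Complex

theorem Reduce_Dg (n g M : ℕ) (hn : 2 ≤ n) (hg : 1 ≤ g) (hgn : g ≤ n - 1) (hM : n ≤ M) :
    0 < Dg n g M ∧ 1 / Dg n g M ≤ (M : ℝ) ^ (2 * n - 4) := by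
  have hM0 : (0 : ℝ) < M := by exact_mod_cast (by omega : 0 < M)
  have p1 : 0 < S M (g - 1) := S_pos (by omega)
  have p2 : 0 < S M (n - g - 1) := S_pos (by omega)
  have p3 : 0 < S M (n - 2) := S_pos (by omega)
  have q1 := S_ge M (g - 1) (by omega)
  have q2 := S_ge M (n - g - 1) (by omega)
  have q3 := S_ge M (n - 2) (by omega)
  have hD : 0 < Dg n g M := by
    unfold Dg
    positivity
  refine ⟨hD, ?_⟩
  have h1 : (1 / (M : ℝ)) ^ (2 * n - 4) ≤ Dg n g M := by
    unfold Dg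
    calc (1 / (M : ℝ)) ^ (2 * n - 4)
        = (1 / (M : ℝ)) ^ (g - 1) * (1 / (M : ℝ)) ^ (n - g - 1) * (1 / (M : ℝ)) ^ (n - 2) := by
          rw [← pow_add, ← pow_add]
          congr 1
          omega
      _ ≤ S M (g - 1) * S M (n - g - 1) * S M (n - 2) := by
          gcongr
  rw [div_le_iff₀ hD]
  calc (1 : ℝ) = (M : ℝ) ^ (2 * n - 4) * (1 / (M : ℝ)) ^ (2 * n - 4) := by
        rw [← mul_pow, mul_one_div_cancel hM0.ne', one_pow]
    _ ≤ _ := mul_le_mul_of_nonneg_left h1 (by positivity)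

end Pool.Agent.H63.VC3

end
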