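import Pool.Agent.H94.PA.H63.VC8.SlotX8
import Pool.Agent.H94.PA.M18
import Pool.Agent.H94.PA.M23

/-! The parts of this file: H63.VC8.QcLL8, H63.VC8.GNan8, H63.VC8.DGb8. -/

section

/-! # The slot factor as an exponential -/

namespace Pool.Agent.H63.VC8

open Pool.Agent.H63.VC
open Pool.Agent.H63.VC3 Pool.Agent.H63.VC4 Pool.Agent.H63.VC7 Complex

variable {m p : ℕ}

/-- Splitting the product of `t + u + t` factors. -/
theorem QcLL8_split (f : ℕ → ℂ) (t u : ℕ) :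
    ∏ j ∈ Finset.range (u + 2 * t), f j = (∏ j ∈ Finset.range u, f (t + j)) *
      ∏ i ∈ Finset.range t, (f (t + u + i) * f (t - 1 - i)) := by
  have e : u + 2 * t = t + u + t := by ring
  rw [e, Finset.prod_range_add, Finset.prod_range_add, Finset.prod_mul_distrib,
    Finset.prod_range_reflect f t]
  ring

/-- The factor `Bn` with more factors. -/
theorem QcLL8_Bn (n M t : ℕ) (hn : 2 ≤ n) (v : ℂ) :
    Bn (n + 2 * t) M v = Bn n M v * ∏ i ∈ Finset.range t,
      (4 * (cos (Real.pi * (v + (i + bt n) / M)) * cos (Real.pi * (v - (i + bt n) / M)))) := by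
  unfold Bn
  have e : n + 2 * t - 2 = (n - 2) + 2 * t := by omega
  rw [e, QcLL8_split, RTerms_bt]
  congr 1
  · refine Finset.prod_congr rfl fun j _ => ?_
    congr 3
    congr 1
    push_cast
    ring
  · refine Finset.prod_congr rfl fun i hi => ?_
    rw [Finset.mem_range] at hi
    have hb : (bt n : ℂ) = ((n : ℂ) - 1) / 2 := by
      unfold bt
      push_cast
      ring
    have c1 : Complex.cos (Real.pi * (v + (((t + (n - 2) + i : ℕ) : ℂ) + 1 -
        ((bt n + t : ℝ) : ℂ)) / M)) = cos (Real.pi * (v + (i + bt n) / M)) := by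
      congr 3
      rw [Nat.cast_add, Nat.cast_add, Nat.cast_sub hn]
      push_cast
      rw [hb]
      ring
    have c2 : Complex.cos (Real.pi * (v + (((t - 1 - i : ℕ) : ℂ) + 1 -
        ((bt n + t : ℝ) : ℂ)) / M)) = cos (Real.pi * (v - (i + bt n) / M)) := by
      have h1 : ((t - 1 - i : ℕ) : ℂ) = t - 1 - i := by
        rw [Nat.cast_sub (by omega), Nat.cast_sub (by omega)]
        push_cast
        ring
      rw [h1]
      congr 2
      push_cast
      ring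
    rw [c1, c2]
    ring

/-- The case of a single strand colour. -/
theorem QcLL8_two (M k : ℕ) (hk : k < M) (v : ℂ)
    (hv : |v.re| < yk 2 M k + 1 / (2 * M)) :
    Bn 2 M v * qcn 2 M k v = Qo 2 M (some ((yk 2 M k : ℝ) : ℂ)) v := by
  rw [← qc_eq M k hk v hv]
  have h1 : Bn 2 M v = 1 := by
    unfold Bn
    simp
  rw [h1, one_mul]
  unfold qcn qc
  have e : M + 1 - 2 - k = M - 1 - k := by omega
  rw [e]
  congr 1
  refine Finset.prod_congr rfl fun i _ => ?_
  have hb : (bt 2 : ℂ) = 1 / 2 := by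
    unfold bt
    push_cast
    norm_num
  rw [hb]

theorem qcn_eq (n M k : ℕ) (hn : 2 ≤ n) (hk : k + n ≤ M + 1) (v : ℂ)
    (hv : |v.re| < yk n M k + 1 / (2 * M)) :
    Bn n M v * qcn n M k v = Qo n M (some ((yk n M k : ℝ) : ℂ)) v := by
  rcases Nat.lt_or_ge M 2 with hM | hM
  · have h1 : n = 2 := by omega
    subst h1
    exact QcLL8_two M k (by omega) v hv
  have hM0 : 0 < M := by omega
  have hMc : (M : ℂ) ≠ 0 := by exact_mod_cast hM0.ne'
  have hMr : (0 : ℝ) < M := by exact_mod_cast hM0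
  have hvb : (M : ℝ) * |v.re| < k + bt n + 1 - M / 2 := by
    have h1 := mul_lt_mul_of_pos_left hv hMr
    have h2 : (M : ℝ) * (yk n M k + 1 / (2 * M)) = k + bt n + 1 - M / 2 := by
      unfold yk
      field_simp
      ring
    rwa [h2] at h1
  have hab1 : -((M : ℝ) * |v.re|) ≤ M * v.re := by
    have := neg_abs_le v.re
    nlinarith
  have hab2 : (M : ℝ) * v.re ≤ M * |v.re| := by
    have := le_abs_self v.re
    nlinarith
  have h := RTerms_Bn n M k hn hM hk v (by linarith) (by linarith)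
  rw [QcLL8_Bn n M _ hn v] at h
  show Bn n M v * qcn n M k v = exp (-LL M (M * (((yk n M k : ℝ) : ℂ) - v) - 1 / 2) -
    LL M (M * (((yk n M k : ℝ) : ℂ) + v) - 1 / 2))
  unfold qcn
  have e : Bn n M v * (1 / (M : ℂ) * ∏ i ∈ Finset.range (M + 1 - n - k),
      (4 * (cos (Real.pi * (v + (i + bt n) / M)) * cos (Real.pi * (v - (i + bt n) / M))))) =
      (Bn n M v * ∏ i ∈ Finset.range (M + 1 - n - k),
      (4 * (cos (Real.pi * (v + (i + bt n) / M)) * cos (Real.pi * (v - (i + bt n) / M))))) / M := by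
    ring
  rw [e, h, mul_div_cancel_left₀ _ hMc]

theorem qcn_even (n M k : ℕ) (v : ℂ) : qcn n M k (-v) = qcn n M k v := by
  unfold qcn
  congr 1
  refine Finset.prod_congr rfl fun i _ => ?_
  have c1 : Complex.cos (Real.pi * (-v + ((i : ℂ) + bt n) / M)) =
      Complex.cos (Real.pi * (v - ((i : ℂ) + bt n) / M)) := by
    rw [← Complex.cos_neg]
    congr 1
    ring
  have c2 : Complex.cos (Real.pi * (-v - ((i : ℂ) + bt n) / M)) =
      Complex.cos (Real.pi * (v + ((i : ℂ) + bt n) / M)) := by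
    rw [← Complex.cos_neg]
    congr 1
    ring
  rw [c1, c2]
  ring

theorem Bn_even8 (n M : ℕ) (v : ℂ) : Bn n M (-v) = Bn n M v := by
  unfold Bn
  rw [← Finset.prod_range_reflect]
  refine Finset.prod_congr rfl fun j hj => ?_
  rw [Finset.mem_range] at hj
  congr 1
  rw [← Complex.cos_neg]
  congr 1
  have h1 : ((n - 2 - 1 - j : ℕ) : ℂ) = n - 3 - j := by
    rw [Nat.cast_sub (by omega), Nat.cast_sub (by omega), Nat.cast_sub (by omega)]
    push_cast
    ring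
  have hb : (bt n : ℂ) = ((n : ℂ) - 1) / 2 := by
    unfold bt
    push_cast
    ring
  rw [h1, hb]
  ring

theorem qcn_differentiable (n M k : ℕ) : Differentiable ℂ (qcn n M k) := by
  unfold qcn
  refine Differentiable.const_mul ?_ _
  refine Differentiable.fun_finsetProd fun i _ => ?_
  fun_prop

theorem Bn_differentiable8 (n M : ℕ) : Differentiable ℂ (Bn n M) := by
  unfold Bn
  refine Differentiable.fun_finsetProd fun i _ => ?_
  fun_prop

theorem NT8_odd (r : ℝ) (n M : ℕ) (A : Finset (Fin m)) (k : Fin m → ℕ) (v : ℂ) :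
    NT8 r n M A k (-v) = -NT8 r n M A k v := by
  unfold NT8
  have h1 : ∏ j ∈ A, qcn n M (k j) (-v) = ∏ j ∈ A, qcn n M (k j) v :=
    Finset.prod_congr rfl fun j _ => qcn_even n M (k j) v
  rw [h1, Bn_even8, neg_sq, mul_neg, Complex.sin_neg]
  ring

theorem NT8_eq_KG8 (r : ℝ) (n M : ℕ) (hn : 2 ≤ n) (A : Finset (Fin m)) (k : Fin m → ℕ) (v : ℂ)
    (hk : ∀ j ∈ A, k j + n ≤ M + 1) (hv : ∀ j ∈ A, |v.re| < yk n M (k j) + 1 / (2 * M))
    (hB : Bn n M v ≠ 0) :
    NT8 r n M A k v = KG8 r n M A (fun j => ((yk n M (k j) : ℝ) : ℂ)) v := by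
  unfold NT8 KG8
  have h1 : ∏ j ∈ A, Qo n M (some ((yk n M (k j) : ℝ) : ℂ)) v =
      Bn n M v ^ A.card * ∏ j ∈ A, qcn n M (k j) v := by
    rw [← Finset.prod_const, ← Finset.prod_mul_distrib]
    exact Finset.prod_congr rfl fun j hj => (qcn_eq n M (k j) hn (hk j hj) v (hv j hj)).symm
  rw [h1, zpow_sub₀ hB, zpow_natCast]
  have hp : Bn n M v ^ A.card ≠ 0 := pow_ne_zero _ hB
  have h2 : Bn n M v ^ (2 : ℤ) = Bn n M v ^ 2 := by norm_cast
  rw [h2]
  field_simp

end Pool.Agent.H63.VC8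

end

section

/-! # The integrand: continuity and differentiability -/

namespace Pool.Agent.H63.VC8

open Pool.Agent.H63.VC
open Pool.Agent.H63.VC3 Pool.Agent.H63.VC4 Pool.Agent.H63.VC7 Complex

variable {m p : ℕ}

theorem KG8_continuousAt (r : ℝ) (n M : ℕ) (hM : 1000 * (n + 1) ≤ M) (A : Finset (Fin m))
    (y : Fin m → ℂ) (v : ℂ) (hv : |v.re| ≤ 15 / 100) (hok : ∀ j ∈ A, okS v (some (y j))) :
    ContinuousAt (fun z : (Fin m → ℂ) × ℂ => KG8 r n M A z.1 z.2) (y, v) := by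
  have hM0 : 0 < M := by omega
  have hB : Bn n M v ≠ 0 := BnB8_ne n M hM v (by linarith)
  have hBc : ContinuousAt (fun z : (Fin m → ℂ) × ℂ => Bn n M z.2) (y, v) :=
    ContinuousAt.comp (f := fun z : (Fin m → ℂ) × ℂ => z.2) (g := Bn n M) (x := (y, v))
      (Bn_differentiable8 n M).continuous.continuousAt (by fun_prop)
  unfold KG8
  refine ContinuousAt.mul (ContinuousAt.mul (by fun_prop) (hBc.zpow₀ _ (Or.inl hB))) ?_
  refine tendsto_finsetProd _ fun j hj => ?_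
  have h1 := KAnN_Qo_continuousAt n M hM0 (y j) v (hok j hj)
  have h2 : ContinuousAt (fun z : (Fin m → ℂ) × ℂ => (z.1 j, z.2)) (y, v) := by fun_prop
  exact ContinuousAt.comp (f := fun z : (Fin m → ℂ) × ℂ => (z.1 j, z.2))
    (g := fun z : ℂ × ℂ => Qo n M (some z.1) z.2) (x := (y, v)) h1 h2

theorem GN8_continuousAt (s t : Fin m → Fin p) (r : Fin p → ℝ) (n g M : ℕ) (hn : 2 ≤ n)
    (hg : 1 ≤ g) (hgn : g < n) (hM : 1000 * (n + 1) ≤ M)
    (B : Finset (Fin p)) (E : Finset (Fin m)) (y : Fin m → ℂ) (v : Fin p → ℂ)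
    (hy : ∀ j, |(y j).re - 1 / 4| ≤ 55 / 1000) (hv : ∀ i, |(v i).re| ≤ 15 / 100)
    (hw : ∀ i, ww n M (v i) ≠ 1) :
    ContinuousAt (fun z : (Fin m → ℂ) × (Fin p → ℂ) => GN8 s t r n g M B E z.1 z.2) (y, v) := by
  unfold GN8
  refine ContinuousAt.mul ?_ ?_
  · refine tendsto_finsetProd _ fun j _ => ?_
    have h1 := (Cc_differentiableAt n g M hg (by omega) hM (y j) (GNan_re (hy j)).1
      (GNan_re (hy j)).2).continuousAt
    have h2 : ContinuousAt (fun z : (Fin m → ℂ) × (Fin p → ℂ) => z.1 j) (y, v) := by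
      fun_prop
    exact ContinuousAt.comp (f := fun z : (Fin m → ℂ) × (Fin p → ℂ) => z.1 j)
      (g := Cc n g M) (x := (y, v)) h1 h2
  · refine tendsto_finsetProd _ fun i _ => ?_
    have h1 := KG8_continuousAt (r i) n M hM (inc s t i) y (v i) (hv i)
      (fun j _ => GNan_okS (hy j) (hv i))
    have h2 : ContinuousAt (fun z : (Fin m → ℂ) × (Fin p → ℂ) => (z.1, z.2 i)) (y, v) := by
      fun_prop
    have h3 : ContinuousAt (fun z : (Fin m → ℂ) × (Fin p → ℂ) => om n M (z.2 i)) (y, v) :=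
      ContinuousAt.comp (f := fun z : (Fin m → ℂ) × (Fin p → ℂ) => z.2 i)
        (g := om n M) (x := (y, v)) (om_continuousAt n M (v i) (hw i)) (by fun_prop)
    have h4 : ContinuousAt (fun z : (Fin m → ℂ) × (Fin p → ℂ) =>
        KG8 (r i) n M (inc s t i) z.1 (z.2 i)) (y, v) :=
      ContinuousAt.comp (f := fun z : (Fin m → ℂ) × (Fin p → ℂ) => (z.1, z.2 i))
        (g := fun z : (Fin m → ℂ) × ℂ => KG8 (r i) n M (inc s t i) z.1 z.2) (x := (y, v)) h1 h2
    exact h4.mul h3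

theorem GN8_update_differentiable (s t : Fin m → Fin p) (r : Fin p → ℝ) (n g M : ℕ) (hn : 2 ≤ n)
    (hg : 1 ≤ g) (hgn : g < n) (hM : 1000 * (n + 1) ≤ M)
    (B : Finset (Fin p)) (E : Finset (Fin m)) (y : Fin m → ℂ) (v : Fin p → ℂ) (j : Fin m)
    (hy : ∀ j, |(y j).re - 1 / 4| ≤ 55 / 1000) (hv : ∀ i, |(v i).re| ≤ 15 / 100) :
    DifferentiableAt ℂ (fun w => GN8 s t r n g M B E (Function.update y j w) v) (y j) := by
  have hM0 : 0 < M := by omega
  unfold GN8
  refine DifferentiableAt.mul ?_ ?_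
  · refine DifferentiableAt.fun_finsetProd fun i _ => ?_
    by_cases hij : i = j
    · subst hij
      simp only [Function.update_self]
      exact Cc_differentiableAt n g M hg (by omega) hM _ (GNan_re (hy i)).1
        (GNan_re (hy i)).2
    · simp only [Function.update_of_ne hij]
      exact differentiableAt_const _
  · refine DifferentiableAt.fun_finsetProd fun i _ => ?_
    refine DifferentiableAt.mul ?_ (differentiableAt_const _)
    unfold KG8
    refine DifferentiableAt.mul (differentiableAt_const _) ?_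
    refine DifferentiableAt.fun_finsetProd fun l _ => ?_
    by_cases hlj : l = j
    · subst hlj
      simp only [Function.update_self]
      exact KAnN_Qo_differentiable_y n M hM0 (y l) (v i) (GNan_okS (hy l) (hv i))
    · simp only [Function.update_of_ne hlj]
      exact differentiableAt_const _

end Pool.Agent.H63.VC8

end

section

/-! # The factor of a node: bound and contour integral -/

namespace Pool.Agent.H63.VC8

open Pool.Agent.H63.VC
open Pool.Agent.H63.VC3 Pool.Agent.H63.VC4 Pool.Agent.H63.VC7 Complex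

variable {m p : ℕ}

theorem DGb8_hasDeriv (r : ℝ) (n M : ℕ) (A : Finset (Fin m)) (k : Fin m → ℕ) (v : ℂ) :
    HasDerivAt (NT8 r n M A k)
      (((exp (2 * Real.pi * I * r * M * v ^ 2) * (2 * Real.pi * I * r * M * (2 * v)) *
          (2 * sin (2 * Real.pi * v)) +
        exp (2 * Real.pi * I * r * M * v ^ 2) * (2 * (cos (2 * Real.pi * v) * (2 * Real.pi)))) *
          Bn n M v ^ 2 + exp (2 * Real.pi * I * r * M * v ^ 2) * (2 * sin (2 * Real.pi * v)) *
          (2 * Bn n M v * deriv (Bn n M) v)) *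
          (∏ j ∈ A, qcn n M (k j) v) +
        exp (2 * Real.pi * I * r * M * v ^ 2) * (2 * sin (2 * Real.pi * v)) * Bn n M v ^ 2 *
          (∑ j ∈ A, (∏ i ∈ A.erase j, qcn n M (k i) v) • deriv (qcn n M (k j)) v)) v := by
  unfold NT8
  have h1 : HasDerivAt (fun v : ℂ => exp (2 * Real.pi * I * r * M * v ^ 2))
      (exp (2 * Real.pi * I * r * M * v ^ 2) * (2 * Real.pi * I * r * M * (2 * v))) v := by
    have h := ((hasDerivAt_id v).pow 2).const_mul (2 * Real.pi * I * r * M)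
    have h' := h.cexp
    have e : 2 * (Real.pi : ℂ) * I * r * M * (2 * v) =
        2 * Real.pi * I * r * M * (((2 : ℕ) : ℂ) * id v ^ (2 - 1) * 1) := by
      simp
    rw [e]
    exact h'
  have h2 : HasDerivAt (fun v : ℂ => 2 * sin (2 * Real.pi * v))
      (2 * (cos (2 * Real.pi * v) * (2 * Real.pi))) v := by
    have h := ((hasDerivAt_id v).const_mul (2 * Real.pi : ℂ)).csin.const_mul (2 : ℂ)
    have e : (2 : ℂ) * (cos (2 * Real.pi * v) * (2 * Real.pi)) =
        2 * (cos (2 * Real.pi * id v) * (2 * Real.pi * 1)) := by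
      simp
    rw [e]
    exact h
  have h4 : HasDerivAt (fun v : ℂ => Bn n M v ^ 2) (2 * Bn n M v * deriv (Bn n M) v) v := by
    have h := (Bn_differentiable8 n M v).hasDerivAt.pow 2
    have e : 2 * Bn n M v * deriv (Bn n M) v =
        ((2 : ℕ) : ℂ) * Bn n M v ^ (2 - 1) * deriv (Bn n M) v := by
      simp
    rw [e]
    exact h
  have h3 : HasDerivAt (fun v : ℂ => ∏ j ∈ A, qcn n M (k j) v)
      (∑ j ∈ A, (∏ i ∈ A.erase j, qcn n M (k i) v) • deriv (qcn n M (k j)) v) v :=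
    HasDerivAt.fun_finsetProd fun j _ => (qcn_differentiable n M (k j) v).hasDerivAt
  exact ((h1.mul h2).mul h4).mul h3

/-- The points of summation lie in `[-1/2, 1/2]`. -/
theorem DGb8_vl (n M X : ℕ) (hM : 0 < M) (hn : 1 ≤ n) (hX : X + n ≤ M + 1) :
    |vl n M X| ≤ 1 / 2 := by
  have hM0 : (0 : ℝ) < M := by exact_mod_cast hM
  have hn0 : (1 : ℝ) ≤ n := by exact_mod_cast hn
  have h3 : (X : ℝ) + n ≤ M + 1 := by exact_mod_cast hX
  have hX0 : (0 : ℝ) ≤ X := Nat.cast_nonneg X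
  rw [vl, bt, abs_le]
  have h4 : ((X : ℝ) + ((n : ℝ) - 1) / 2) / M ≤ 1 := by
    rw [div_le_one hM0]
    linarith only [hn0, h3]
  have h5 : 0 ≤ ((X : ℝ) + ((n : ℝ) - 1) / 2) / M := by
    apply div_nonneg _ hM0.le
    linarith only [hn0]
  constructor <;> linarith only [h5, h4]

/-- The constant. -/
noncomputable def DGb8_c (r : ℝ) (n a : ℕ) (M : ℝ) : ℝ :=
  (2 ^ (n - 2)) ^ 2 * (4 * Real.pi * |r| * M + 4 * Real.pi + 8 * Real.pi * n + 2 * a)

theorem DGb8_c_nonneg (r : ℝ) (n a : ℕ) (M : ℝ) (hM : 0 ≤ M) : 0 ≤ DGb8_c r n a M := by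
  unfold DGb8_c
  have := Real.pi_pos
  positivity

theorem DGb8_c_le (r : ℝ) (n a : ℕ) (M : ℝ) (hM : 1 ≤ M) :
    M * DGb8_c r n a M ≤ DGb8_c r n a 1 * M ^ 2 := by
  unfold DGb8_c
  have hpi := Real.pi_pos
  have h0 : 0 ≤ 4 * Real.pi + 8 * Real.pi * (n : ℝ) + 2 * (a : ℝ) := by positivity
  have h1 : (4 * Real.pi + 8 * Real.pi * (n : ℝ) + 2 * (a : ℝ)) * M ≤
      (4 * Real.pi + 8 * Real.pi * (n : ℝ) + 2 * (a : ℝ)) * M ^ 2 := by
    apply mul_le_mul_of_nonneg_left _ h0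
    nlinarith only [hM]
  have h2 : M * (4 * Real.pi * |r| * M + 4 * Real.pi + 8 * Real.pi * n + 2 * a) ≤
      (4 * Real.pi * |r| * 1 + 4 * Real.pi + 8 * Real.pi * n + 2 * a) * M ^ 2 := by
    nlinarith only [h1]
  have h3 : (0 : ℝ) ≤ (2 ^ (n - 2)) ^ 2 := by positivity
  calc M * ((2 ^ (n - 2)) ^ 2 * (4 * Real.pi * |r| * M + 4 * Real.pi + 8 * Real.pi * n + 2 * a))
      = (2 ^ (n - 2)) ^ 2 *
        (M * (4 * Real.pi * |r| * M + 4 * Real.pi + 8 * Real.pi * n + 2 * a)) := by ring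
    _ ≤ (2 ^ (n - 2)) ^ 2 *
        ((4 * Real.pi * |r| * 1 + 4 * Real.pi + 8 * Real.pi * n + 2 * a) * M ^ 2) :=
        mul_le_mul_of_nonneg_left h2 h3
    _ = _ := by ring

/-- The derivative at a summation point, from bounds for the slots. -/
theorem DGb8_deriv (r : ℝ) (n M : ℕ) (A : Finset (Fin m)) (k : Fin m → ℕ) (X : ℕ) (hM : 2 ≤ M)
    (hn : 2 ≤ n) (hX : X + n ≤ M + 1) (B : Fin m → ℝ)
    (h1 : ∀ j ∈ A, S M (k j) ^ 2 * ‖qcn n M (k j) ((vl n M X : ℝ) : ℂ)‖ ≤ B j)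
    (h2 : ∀ j ∈ A, S M (k j) ^ 2 * ‖deriv (qcn n M (k j)) ((vl n M X : ℝ) : ℂ)‖ ≤ B j) :
    (∏ j ∈ A, S M (k j) ^ 2) * ‖deriv (NT8 r n M A k) ((vl n M X : ℝ) : ℂ)‖ ≤
      DGb8_c r n A.card M * ∏ j ∈ A, B j := by
  have hM0 : (0 : ℝ) < M := by exact_mod_cast (by omega : 0 < M)
  have hx1 : |vl n M X| ≤ 1 / 2 := DGb8_vl n M X (by omega) (by omega) hX
  set x : ℝ := vl n M X with hx
  have hS : ∀ j ∈ A, 0 ≤ S M (k j) ^ 2 := fun j _ => sq_nonneg _
  have hB : ∀ j ∈ A, 0 ≤ B j := fun j hj =>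
    (mul_nonneg (hS j hj) (norm_nonneg _)).trans (h1 j hj)
  have hP : (∏ j ∈ A, S M (k j) ^ 2) * ‖∏ j ∈ A, qcn n M (k j) (x : ℂ)‖ ≤ ∏ j ∈ A, B j := by
    rw [_root_.norm_prod, ← Finset.prod_mul_distrib]
    exact Finset.prod_le_prod (fun j hj => mul_nonneg (hS j hj) (norm_nonneg _)) h1
  have hP' : (∏ j ∈ A, S M (k j) ^ 2) *
      ‖∑ j ∈ A, (∏ i ∈ A.erase j, qcn n M (k i) (x : ℂ)) • deriv (qcn n M (k j)) (x : ℂ)‖ ≤
      A.card * ∏ j ∈ A, B j := by
    calc (∏ j ∈ A, S M (k j) ^ 2) *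
          ‖∑ j ∈ A, (∏ i ∈ A.erase j, qcn n M (k i) (x : ℂ)) • deriv (qcn n M (k j)) (x : ℂ)‖
        ≤ (∏ j ∈ A, S M (k j) ^ 2) *
          ∑ j ∈ A, ‖(∏ i ∈ A.erase j, qcn n M (k i) (x : ℂ)) •
            deriv (qcn n M (k j)) (x : ℂ)‖ :=
          mul_le_mul_of_nonneg_left (norm_sum_le _ _) (Finset.prod_nonneg hS)
      _ = ∑ j ∈ A, (∏ j ∈ A, S M (k j) ^ 2) *
          ‖(∏ i ∈ A.erase j, qcn n M (k i) (x : ℂ)) • deriv (qcn n M (k j)) (x : ℂ)‖ := by
          rw [Finset.mul_sum]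
      _ ≤ ∑ _j ∈ A, ∏ j ∈ A, B j := by
          refine Finset.sum_le_sum fun j hj => ?_
          rw [norm_smul, _root_.norm_prod, ← Finset.mul_prod_erase A (fun j => S M (k j) ^ 2) hj,
            ← Finset.mul_prod_erase A B hj]
          calc S M (k j) ^ 2 * (∏ i ∈ A.erase j, S M (k i) ^ 2) *
                ((∏ i ∈ A.erase j, ‖qcn n M (k i) (x : ℂ)‖) * ‖deriv (qcn n M (k j)) (x : ℂ)‖)
              = (S M (k j) ^ 2 * ‖deriv (qcn n M (k j)) (x : ℂ)‖) *
                ∏ i ∈ A.erase j, (S M (k i) ^ 2 * ‖qcn n M (k i) (x : ℂ)‖) := by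
                rw [Finset.prod_mul_distrib]; ring
            _ ≤ B j * ∏ i ∈ A.erase j, B i := by
                apply mul_le_mul (h2 j hj)
                · exact Finset.prod_le_prod
                    (fun i hi => mul_nonneg (hS i (Finset.mem_of_mem_erase hi)) (norm_nonneg _))
                    (fun i hi => h1 i (Finset.mem_of_mem_erase hi))
                · exact Finset.prod_nonneg fun i hi =>
                    mul_nonneg (hS i (Finset.mem_of_mem_erase hi)) (norm_nonneg _)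
                · exact hB j hj
      _ = A.card * ∏ j ∈ A, B j := by
          rw [Finset.sum_const, nsmul_eq_mul]
  rw [(DGb8_hasDeriv r n M A k (x : ℂ)).deriv]
  have hE : ‖exp (2 * Real.pi * I * r * M * (x : ℂ) ^ 2)‖ = 1 := by
    have : 2 * (Real.pi : ℂ) * I * r * M * (x : ℂ) ^ 2 =
        ((2 * Real.pi * r * M * x ^ 2 : ℝ) : ℂ) * I := by
      push_cast; ring
    rw [this, norm_exp_ofReal_mul_I]
  have hs : ‖sin (2 * Real.pi * (x : ℂ))‖ ≤ 1 := by
    have : sin (2 * Real.pi * (x : ℂ)) = ((Real.sin (2 * Real.pi * x) : ℝ) : ℂ) := by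
      push_cast; rfl
    rw [this, norm_real, Real.norm_eq_abs]
    exact Real.abs_sin_le_one _
  have hc : ‖cos (2 * Real.pi * (x : ℂ))‖ ≤ 1 := by
    have : cos (2 * Real.pi * (x : ℂ)) = ((Real.cos (2 * Real.pi * x) : ℝ) : ℂ) := by
      push_cast; rfl
    rw [this, norm_real, Real.norm_eq_abs]
    exact Real.abs_cos_le_one _
  have hpi := Real.pi_pos
  obtain ⟨hb1, hb2⟩ := BnB8_real n M x
  set K : ℝ := 2 ^ (n - 2) with hK
  have hK0 : 0 ≤ K := by positivity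
  have e2 : ‖2 * sin (2 * Real.pi * (x : ℂ))‖ ≤ 2 := by
    rw [norm_mul, Complex.norm_ofNat]
    linarith only [hs]
  have n1 : ‖exp (2 * Real.pi * I * r * M * (x : ℂ) ^ 2) *
        (2 * Real.pi * I * r * M * (2 * (x : ℂ))) * (2 * sin (2 * Real.pi * (x : ℂ))) +
      exp (2 * Real.pi * I * r * M * (x : ℂ) ^ 2) *
        (2 * (cos (2 * Real.pi * (x : ℂ)) * (2 * Real.pi)))‖ ≤
      4 * Real.pi * |r| * M + 4 * Real.pi := by
    refine (norm_add_le _ _).trans ?_
    rw [norm_mul, norm_mul, norm_mul (exp _) (2 * (cos _ * _)), hE]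
    have e1 : ‖(2 * Real.pi * I * r * M * (2 * (x : ℂ)))‖ = 4 * Real.pi * |r| * M * |x| := by
      simp only [norm_mul, norm_real, Real.norm_eq_abs, norm_I, Complex.norm_natCast,
        Complex.norm_ofNat]
      rw [abs_of_pos hpi]
      ring
    have e3 : ‖(2 * (cos (2 * Real.pi * (x : ℂ)) * (2 * Real.pi)))‖ ≤ 4 * Real.pi := by
      simp only [norm_mul, norm_real, Real.norm_eq_abs, Complex.norm_ofNat]
      rw [abs_of_pos hpi]
      nlinarith only [hc, hpi]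
    rw [e1, one_mul, one_mul]
    have e4 : 4 * Real.pi * |r| * M * |x| * ‖2 * sin (2 * Real.pi * (x : ℂ))‖ ≤
        4 * Real.pi * |r| * M * (1 / 2) * 2 := by
      gcongr
    linarith only [e3, e4]
  have n2 : ‖exp (2 * Real.pi * I * r * M * (x : ℂ) ^ 2) * (2 * sin (2 * Real.pi * (x : ℂ)))‖ ≤
      2 := by
    rw [norm_mul, hE, one_mul]
    exact e2
  have n3 : ‖Bn n M (x : ℂ) ^ 2‖ ≤ K ^ 2 := by
    rw [norm_pow]
    exact pow_le_pow_left₀ (norm_nonneg _) hb1 2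
  have n4 : ‖2 * Bn n M (x : ℂ) * deriv (Bn n M) (x : ℂ)‖ ≤ 4 * Real.pi * n * K ^ 2 := by
    rw [norm_mul, norm_mul, Complex.norm_ofNat]
    calc 2 * ‖Bn n M (x : ℂ)‖ * ‖deriv (Bn n M) (x : ℂ)‖ ≤ 2 * K * (2 * Real.pi * n * K) := by
          gcongr
      _ = 4 * Real.pi * n * K ^ 2 := by ring
  have n5 : ‖(exp (2 * Real.pi * I * r * M * (x : ℂ) ^ 2) *
        (2 * Real.pi * I * r * M * (2 * (x : ℂ))) * (2 * sin (2 * Real.pi * (x : ℂ))) +
      exp (2 * Real.pi * I * r * M * (x : ℂ) ^ 2) *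
        (2 * (cos (2 * Real.pi * (x : ℂ)) * (2 * Real.pi)))) * Bn n M (x : ℂ) ^ 2 +
      exp (2 * Real.pi * I * r * M * (x : ℂ) ^ 2) * (2 * sin (2 * Real.pi * (x : ℂ))) *
        (2 * Bn n M (x : ℂ) * deriv (Bn n M) (x : ℂ))‖ ≤
      K ^ 2 * (4 * Real.pi * |r| * M + 4 * Real.pi + 8 * Real.pi * n) := by
    refine (norm_add_le _ _).trans ?_
    rw [norm_mul, norm_mul (_ * _) (2 * Bn n M (x : ℂ) * deriv (Bn n M) (x : ℂ))]
    have f1 := mul_le_mul n1 n3 (norm_nonneg _) (by positivity)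
    have f2 := mul_le_mul n2 n4 (norm_nonneg _) (by positivity)
    linarith only [f1, f2]
  have n6 : ‖exp (2 * Real.pi * I * r * M * (x : ℂ) ^ 2) * (2 * sin (2 * Real.pi * (x : ℂ))) *
      Bn n M (x : ℂ) ^ 2‖ ≤ 2 * K ^ 2 := by
    rw [norm_mul]
    exact mul_le_mul n2 n3 (norm_nonneg _) (by positivity)
  have hQ : 0 ≤ ∏ j ∈ A, S M (k j) ^ 2 := Finset.prod_nonneg hS
  have hBp : 0 ≤ ∏ j ∈ A, B j := Finset.prod_nonneg hB
  unfold DGb8_c
  rw [← hK]
  calc (∏ j ∈ A, S M (k j) ^ 2) * ‖_ * (∏ j ∈ A, qcn n M (k j) (x : ℂ)) + _ *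
        (∑ j ∈ A, (∏ i ∈ A.erase j, qcn n M (k i) (x : ℂ)) • deriv (qcn n M (k j)) (x : ℂ))‖
      ≤ (∏ j ∈ A, S M (k j) ^ 2) * ((K ^ 2 * (4 * Real.pi * |r| * M + 4 * Real.pi +
          8 * Real.pi * n)) * ‖∏ j ∈ A, qcn n M (k j) (x : ℂ)‖ + 2 * K ^ 2 *
          ‖∑ j ∈ A, (∏ i ∈ A.erase j, qcn n M (k i) (x : ℂ)) •
            deriv (qcn n M (k j)) (x : ℂ)‖) := by
        apply mul_le_mul_of_nonneg_left _ hQ
        refine (norm_add_le _ _).trans ?_
        rw [norm_mul, norm_mul]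
        exact add_le_add (mul_le_mul_of_nonneg_right n5 (norm_nonneg _))
          (mul_le_mul_of_nonneg_right n6 (norm_nonneg _))
    _ = (K ^ 2 * (4 * Real.pi * |r| * M + 4 * Real.pi + 8 * Real.pi * n)) *
          ((∏ j ∈ A, S M (k j) ^ 2) * ‖∏ j ∈ A, qcn n M (k j) (x : ℂ)‖) + 2 * K ^ 2 *
          ((∏ j ∈ A, S M (k j) ^ 2) *
          ‖∑ j ∈ A, (∏ i ∈ A.erase j, qcn n M (k i) (x : ℂ)) •
            deriv (qcn n M (k j)) (x : ℂ)‖) := by
        ring
    _ ≤ (K ^ 2 * (4 * Real.pi * |r| * M + 4 * Real.pi + 8 * Real.pi * n)) * (∏ j ∈ A, B j) +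
          2 * K ^ 2 * (A.card * ∏ j ∈ A, B j) := by
        gcongr
    _ = _ := by ring

theorem DG8_bound (r : ℝ) (n : ℕ) (hn : 2 ≤ n) (A : Finset (Fin m)) :
    ∃ C : ℝ, 0 < C ∧ ∃ D : ℕ, ∀ (M : ℕ)
    (k : Fin m → ℕ), 2 ≤ M → (∀ j ∈ A, k j + n ≤ M + 1) →
    (∏ j ∈ A, S M (k j) ^ 2) * ‖DG8 r n M A k‖ ≤
      C * (M : ℝ) ^ D * Real.exp (M * ∑ j ∈ A, eo M (some (k j))) := by
  obtain ⟨C, hC, D, h⟩ := slotX8 n hn
  have hpi := Real.pi_pos
  have hn0 : (0 : ℝ) < n := by exact_mod_cast (by omega : 0 < n)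
  refine ⟨DGb8_c r n A.card 1 * C ^ A.card, ?_, D * A.card + 2, fun M k hM hk => ?_⟩
  · unfold DGb8_c
    positivity
  have hM0 : (0 : ℝ) < M := by exact_mod_cast (by omega : 0 < M)
  have hM1 : (1 : ℝ) ≤ M := by exact_mod_cast (by omega : 1 ≤ M)
  have hQ : 0 ≤ ∏ j ∈ A, S M (k j) ^ 2 := Finset.prod_nonneg fun j _ => sq_nonneg _
  have hprod : ∏ j ∈ A, (C * (M : ℝ) ^ D * Real.exp (M * eo M (some (k j)))) =
      C ^ A.card * (M : ℝ) ^ (D * A.card) * Real.exp (M * ∑ j ∈ A, eo M (some (k j))) := by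
    rw [Finset.prod_mul_distrib, Finset.prod_const, mul_pow, ← pow_mul, ← Real.exp_sum,
      Finset.mul_sum]
  have hc0 := DGb8_c_nonneg r n A.card M hM0.le
  have hd : ∀ X ∈ Finset.range (M + 2 - n), (∏ j ∈ A, S M (k j) ^ 2) *
      ‖deriv (NT8 r n M A k) ((vl n M X : ℝ) : ℂ)‖ ≤
      DGb8_c r n A.card M *
      (C ^ A.card * (M : ℝ) ^ (D * A.card) * Real.exp (M * ∑ j ∈ A, eo M (some (k j)))) := by
    intro X hX
    rw [Finset.mem_range] at hX
    have hX' : X + n ≤ M + 1 := by omega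
    rw [← hprod]
    exact DGb8_deriv r n M A k X hM hn hX' _ (fun j hj => (h M (k j) X hM (hk j hj) hX').1)
      (fun j hj => (h M (k j) X hM (hk j hj) hX').2)
  unfold DG8
  calc (∏ j ∈ A, S M (k j) ^ 2) *
        ‖∑ X ∈ Finset.range (M + 2 - n), deriv (NT8 r n M A k) ((vl n M X : ℝ) : ℂ)‖
      ≤ (∏ j ∈ A, S M (k j) ^ 2) *
        ∑ X ∈ Finset.range (M + 2 - n), ‖deriv (NT8 r n M A k) ((vl n M X : ℝ) : ℂ)‖ :=
        mul_le_mul_of_nonneg_left (norm_sum_le _ _) hQ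
    _ = ∑ X ∈ Finset.range (M + 2 - n), (∏ j ∈ A, S M (k j) ^ 2) *
        ‖deriv (NT8 r n M A k) ((vl n M X : ℝ) : ℂ)‖ := by rw [Finset.mul_sum]
    _ ≤ ∑ _X ∈ Finset.range (M + 2 - n), DGb8_c r n A.card M *
        (C ^ A.card * (M : ℝ) ^ (D * A.card) * Real.exp (M * ∑ j ∈ A, eo M (some (k j)))) :=
        Finset.sum_le_sum hd
    _ = ((M + 2 - n : ℕ) : ℝ) * (DGb8_c r n A.card M *
        (C ^ A.card * (M : ℝ) ^ (D * A.card) *
          Real.exp (M * ∑ j ∈ A, eo M (some (k j))))) := by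
        rw [Finset.sum_const, Finset.card_range, nsmul_eq_mul]
    _ ≤ (M : ℝ) * (DGb8_c r n A.card M *
        (C ^ A.card * (M : ℝ) ^ (D * A.card) *
          Real.exp (M * ∑ j ∈ A, eo M (some (k j))))) := by
        apply mul_le_mul_of_nonneg_right
        · exact_mod_cast (by omega : M + 2 - n ≤ M)
        · exact mul_nonneg hc0 (by positivity)
    _ = (M * DGb8_c r n A.card M) *
        (C ^ A.card * (M : ℝ) ^ (D * A.card) *
          Real.exp (M * ∑ j ∈ A, eo M (some (k j)))) := by ring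
    _ ≤ (DGb8_c r n A.card 1 * (M : ℝ) ^ 2) *
        (C ^ A.card * (M : ℝ) ^ (D * A.card) *
          Real.exp (M * ∑ j ∈ A, eo M (some (k j)))) := by
        apply mul_le_mul_of_nonneg_right _ (by positivity)
        exact DGb8_c_le r n A.card M hM1
    _ = _ := by ring

theorem DG8_PG8 (r : ℝ) (n : ℕ) (hn : 2 ≤ n) (A : Finset (Fin m)) (hA : A.Nonempty) (Y : ℝ)
    (hY : 0 < Y) (hY1 : Y ≤ 1 / 10) :
    ∃ C : ℝ, 0 < C ∧ ∃ D : ℕ, ∀ (M k1 k2 l1 l2 : ℕ) (k : Fin m → ℕ), Win n M k1 k2 l1 l2 →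
    (∀ j ∈ A, k1 ≤ k j ∧ k j ≤ k2) →
    (∏ j ∈ A, S M (k j) ^ 2) * ‖DG8 r n M A k + 4 * Real.pi * I * M ^ 2 *
      PG8 r n M A (fun j => ((yk n M (k j) : ℝ) : ℂ)) (rho n M l2) Y‖ ≤
      C * (M : ℝ) ^ D * Real.exp (M * (4 * A.card * Fr (3 / 4) - 40 / 1000)) := by
  obtain ⟨C, hC, D, h⟩ := slotX8_out n hn
  have hpi := Real.pi_pos
  have hn0 : (0 : ℝ) < n := by exact_mod_cast (by omega : 0 < n)
  have hcard : (1 : ℝ) ≤ A.card := by exact_mod_cast hA.card_pos
  refine ⟨DGb8_c r n A.card 1 * C ^ A.card, ?_, D * A.card + 2,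
    fun M k1 k2 l1 l2 k hw hk => ?_⟩
  · unfold DGb8_c
    positivity
  obtain ⟨w1, w2, w3, w4, w5, w6, w7⟩ := win_facts n M k1 k2 l1 l2 hn hw
  have hbig := hw.big
  have hM : 2 ≤ M := by omega
  have hl := hw.hl
  have hl' := hw.hl'
  have hM0 : (0 : ℝ) < M := by exact_mod_cast (by omega : 0 < M)
  have hM1 : (1 : ℝ) ≤ M := by exact_mod_cast (by omega : 1 ≤ M)
  have hQ : 0 ≤ ∏ j ∈ A, S M (k j) ^ 2 := Finset.prod_nonneg fun j _ => sq_nonneg _
  have hkM : ∀ j ∈ A, k j + n ≤ M + 1 := fun j hj => by have := (hk j hj).2; omega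
  -- the inner part
  have hyk : ∀ j ∈ A, (195 / 1000 : ℝ) ≤ yk n M (k j) := by
    intro j hj
    have := (abs_le.1 (w3 (k j) (hk j hj).1 (hk j hj).2).1).1
    linarith only [this]
  have hNK : ∀ z : ℂ, |z.re| ≤ rho n M l2 →
      NT8 r n M A k z = KG8 r n M A (fun j => ((yk n M (k j) : ℝ) : ℂ)) z := by
    intro z hz
    refine NT8_eq_KG8 r n M hn A k z hkM (fun j hj => ?_) (BnB8_ne n M hbig z (by linarith only [hY, hY1, w7, hz]))
    have h1 := hyk j hj
    have h2 : 0 < 1 / (2 * (M : ℝ)) := by positivity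
    linarith only [hY, hY1, w7, hz, h1, h2]
  have hrho : 0 ≤ rho n M l2 := by linarith
  have hsum : ∑ l ∈ Finset.Icc l1 l2, deriv (NT8 r n M A k) ((vl n M l : ℝ) : ℂ) =
      -(4 * Real.pi * I) * M ^ 2 *
        PG8 r n M A (fun j => ((yk n M (k j) : ℝ) : ℂ)) (rho n M l2) Y := by
    rw [sum_l (NT8 r n M A k) n M l1 l2 Y (by omega) hl (by omega) hl' hY (rho n M l2) rfl
      (fun z _ _ => (DGb8_hasDeriv r n M A k z).differentiableAt) (NT8_odd r n M A k)]
    congr 1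
    unfold PG8 VC3.Path
    congr 1
    · congr 1
      · refine intervalIntegral.integral_congr fun t _ => ?_
        simp only
        rw [hNK]
        simp only [add_re, neg_re, ofReal_re, mul_re, I_re, mul_zero, ofReal_im, I_im, mul_one,
          sub_self, add_zero, abs_neg]
        exact (abs_of_nonneg hrho).le
      · refine intervalIntegral.integral_congr fun t ht => ?_
        simp only
        rw [hNK]
        simp only [add_re, ofReal_re, mul_re, I_re, mul_zero, ofReal_im, I_im, mul_one,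
          sub_self, add_zero]
        rw [Set.uIcc_of_le (by linarith only [hY, hY1, w6])] at ht
        exact abs_le.2 ht
    · refine intervalIntegral.integral_congr fun t _ => ?_
      simp only
      rw [hNK]
      simp only [add_re, ofReal_re, mul_re, I_re, mul_zero, ofReal_im, I_im, mul_one,
        sub_self, add_zero]
      exact (abs_of_nonneg hrho).le
  have hsplit : DG8 r n M A k + 4 * Real.pi * I * M ^ 2 *
      PG8 r n M A (fun j => ((yk n M (k j) : ℝ) : ℂ)) (rho n M l2) Y =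
      ∑ X ∈ Finset.range (M + 2 - n) \ Finset.Icc l1 l2,
        deriv (NT8 r n M A k) ((vl n M X : ℝ) : ℂ) := by
    unfold DG8
    have hsub : Finset.Icc l1 l2 ⊆ Finset.range (M + 2 - n) := by
      intro X hX
      rw [Finset.mem_Icc] at hX
      rw [Finset.mem_range]
      omega
    rw [← Finset.sum_sdiff hsub, hsum]
    ring
  rw [hsplit]
  have hprod : ∏ _j ∈ A, (C * (M : ℝ) ^ D * Real.exp (M * (4 * Fr (3 / 4) - 40 / 1000))) ≤
      C ^ A.card * (M : ℝ) ^ (D * A.card) *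
        Real.exp (M * (4 * A.card * Fr (3 / 4) - 40 / 1000)) := by
    rw [Finset.prod_const, mul_pow, mul_pow, ← pow_mul, ← Real.exp_nat_mul]
    apply mul_le_mul_of_nonneg_left _ (by positivity)
    apply Real.exp_le_exp.2
    nlinarith only [hcard]
  have hc0 := DGb8_c_nonneg r n A.card M hM0.le
  have hd : ∀ X ∈ Finset.range (M + 2 - n) \ Finset.Icc l1 l2, (∏ j ∈ A, S M (k j) ^ 2) *
      ‖deriv (NT8 r n M A k) ((vl n M X : ℝ) : ℂ)‖ ≤
      DGb8_c r n A.card M *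
      (C ^ A.card * (M : ℝ) ^ (D * A.card) *
        Real.exp (M * (4 * A.card * Fr (3 / 4) - 40 / 1000))) := by
    intro X hX
    rw [Finset.mem_sdiff, Finset.mem_range] at hX
    have hX' : X + n ≤ M + 1 := by omega
    refine (DGb8_deriv r n M A k X hM hn hX'
      (fun _ => C * (M : ℝ) ^ D * Real.exp (M * (4 * Fr (3 / 4) - 40 / 1000)))
      (fun j hj => (h M k1 k2 l1 l2 (k j) X hw (hk j hj).1 (hk j hj).2 hX' hX.2).1)
      (fun j hj => (h M k1 k2 l1 l2 (k j) X hw (hk j hj).1 (hk j hj).2 hX' hX.2).2)).trans ?_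
    apply mul_le_mul_of_nonneg_left hprod hc0
  calc (∏ j ∈ A, S M (k j) ^ 2) *
        ‖∑ X ∈ Finset.range (M + 2 - n) \ Finset.Icc l1 l2,
          deriv (NT8 r n M A k) ((vl n M X : ℝ) : ℂ)‖
      ≤ (∏ j ∈ A, S M (k j) ^ 2) *
        ∑ X ∈ Finset.range (M + 2 - n) \ Finset.Icc l1 l2,
          ‖deriv (NT8 r n M A k) ((vl n M X : ℝ) : ℂ)‖ :=
        mul_le_mul_of_nonneg_left (norm_sum_le _ _) hQ
    _ = ∑ X ∈ Finset.range (M + 2 - n) \ Finset.Icc l1 l2, (∏ j ∈ A, S M (k j) ^ 2) *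
        ‖deriv (NT8 r n M A k) ((vl n M X : ℝ) : ℂ)‖ := by rw [Finset.mul_sum]
    _ ≤ ∑ _X ∈ Finset.range (M + 2 - n) \ Finset.Icc l1 l2,
        DGb8_c r n A.card M *
        (C ^ A.card * (M : ℝ) ^ (D * A.card) *
          Real.exp (M * (4 * A.card * Fr (3 / 4) - 40 / 1000))) :=
        Finset.sum_le_sum hd
    _ ≤ M * (DGb8_c r n A.card M *
        (C ^ A.card * (M : ℝ) ^ (D * A.card) *
          Real.exp (M * (4 * A.card * Fr (3 / 4) - 40 / 1000)))) := by
        rw [Finset.sum_const, nsmul_eq_mul]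
        apply mul_le_mul_of_nonneg_right
        · have : (Finset.range (M + 2 - n) \ Finset.Icc l1 l2).card ≤ M := by
            calc _ ≤ (Finset.range (M + 2 - n)).card := Finset.card_le_card Finset.sdiff_subset
              _ = M + 2 - n := Finset.card_range _
              _ ≤ M := by omega
          exact_mod_cast this
        · exact mul_nonneg hc0 (by positivity)
    _ = (M * DGb8_c r n A.card M) *
        (C ^ A.card * (M : ℝ) ^ (D * A.card) *
          Real.exp (M * (4 * A.card * Fr (3 / 4) - 40 / 1000))) := by ring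
    _ ≤ (DGb8_c r n A.card 1 * (M : ℝ) ^ 2) *
        (C ^ A.card * (M : ℝ) ^ (D * A.card) *
          Real.exp (M * (4 * A.card * Fr (3 / 4) - 40 / 1000))) := by
        apply mul_le_mul_of_nonneg_right _ (by positivity)
        exact DGb8_c_le r n A.card M hM1
    _ = _ := by ring

end Pool.Agent.H63.VC8

end
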