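import Pool.Agent.H94.PA.H63.VC7.HybM
import Pool.Agent.H94.PA.H63.VC7.SideG
import Pool.Agent.H94.PA.H63.VC8.GNb8
import Pool.Agent.H94.PA.M33

/-! The parts of this file: H63.VC8.HybM8, H63.VC8.SideG8. -/

section

/-! # The sum over the variables: main term -/

namespace Pool.Agent.H63.VC8

open Pool.Agent.H63.VC
open Pool.Agent.H63.VC3 Pool.Agent.H63.VC4 Pool.Agent.H63.VC6 Pool.Agent.H63.VC7 Complex

variable {m p : ℕ}
  {s t : Fin m → Fin p} {r : Fin p → ℝ} {y : Fin m → ℂ} {v : Fin p → ℂ}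

theorem core_main8 (n g : ℕ) (hn : 2 ≤ n) (hg : 1 ≤ g) (hgn : g < n) (hc : CritG s t r y v) :
    ∃ C : ℝ, 0 < C ∧ ∃ M0 : ℕ, ∀ M k1 k2 l1 l2 : ℕ, M0 ≤ M → Win n M k1 k2 l1 l2 →
    ∀ a : Fin p → ℝ, (∀ i, |a i| ≤ 15 / 100) →
    ‖∑ k ∈ Fintype.piFinset (fun _ : Fin m => Finset.Icc k1 k2),
        GN8 s t r n g M ∅ ∅ (fun j => ((yk n M (k j) : ℝ) : ℂ)) (fun i => a i + (v i).im * I) -
      (M : ℂ) ^ m * ∫ x in Set.pi Set.univ (fun _ : Fin m =>
          Set.Ioc ((k1 + bt n) / M - 1 / 2) ((k2 + 1 + bt n) / M - 1 / 2)),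
        GN8 s t r n g M ∅ ∅ (fun j => x j + (y j).im * I) (fun i => a i + (v i).im * I)‖ ≤
      C * (M : ℝ) ^ m * Real.exp (M * (∑ i, Lg (r i) (inc s t i) y (v i) - 1 / 500)) := by
  obtain ⟨C0, hC0, M0, hB⟩ := GN8_bound s t hc.st r n g hn hg hgn ∅ (fun i => (v i).im) (fun i => by
    have := (locG_v hc i).1
    exact ⟨this.2.1, this.2.2.trans (by norm_num)⟩)
  refine ⟨18 ^ m * C0, by positivity, M0 + 3000, ?_⟩
  intro M k1 k2 l1 l2 hM0 hw a ha
  have hM3000 : 3000 ≤ M := by omega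
  have hMpos : 0 < M := by omega
  have hMr : (3000 : ℝ) ≤ M := by exact_mod_cast hM3000
  have hMr0 : (0 : ℝ) < M := by linarith
  have hπ3 : 3.14 < Real.pi := Real.pi_gt_d2
  obtain ⟨y1, hy1⟩ : ∃ y1 : ℝ, y1 = (k1 + bt n) / M - 1 / 2 := ⟨_, rfl⟩
  obtain ⟨y2, hy2⟩ : ∃ y2 : ℝ, y2 = (k2 + 1 + bt n) / M - 1 / 2 := ⟨_, rfl⟩
  have a1 : 1 / 4 - 55 / 1000 ≤ y1 := by rw [hy1]; exact hw.a1
  have a2 : y1 ≤ 1 / 4 - 54 / 1000 := by rw [hy1]; exact hw.a2
  have a3 : 1 / 4 + 54 / 1000 ≤ y2 := by rw [hy2]; exact hw.a3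
  have a4 : y2 ≤ 1 / 4 + 55 / 1000 := by rw [hy2]; exact hw.a4
  rw [← hy1, ← hy2]
  obtain ⟨T, hT⟩ : ∃ T : ℝ, T = ∑ i, Lg (r i) (inc s t i) y (v i) := ⟨_, rfl⟩
  rw [← hT]
  obtain ⟨A, hA⟩ : ∃ A : ℝ, A = C0 * Real.exp (M * T) := ⟨_, rfl⟩
  have hA0 : 0 ≤ A := by rw [hA]; positivity
  -- the bound on the paths
  have hbd : ∀ (σ : Fin m → Fin 3) (z : Fin m → ℂ),
      (∀ j, Stt y1 y2 (1 / 100) (y j).im (σ j) (z j)) →
      ‖GN8 s t r n g M ∅ ∅ z (fun i => a i + (v i).im * I)‖ ≤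
        A * Real.exp (M * (2 * ∑ j, exc (σ j))) := by
    intro σ z hz
    have h1 := hB M (by omega) z a (fun j => by
      obtain ⟨h1, h2, h3, -⟩ := hz j
      refine ⟨?_, by linarith⟩
      rw [abs_le]
      constructor <;> linarith) ha
    have h2 := seg_potG hc ∅ y1 y2 a1 a2 a3 a4 a ha σ z (fun j _ => hz j) (fun j hj => by
      rw [HybM_EB] at hj
      exact absurd hj (Finset.notMem_empty j))
    rw [HybM_EB] at h1 h2
    simp only [Finset.inter_empty, Finset.sum_empty, Finset.sum_const_zero, mul_zero, Real.exp_zero,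
      one_mul, Finset.compl_empty, add_zero] at h1 h2
    refine h1.trans ?_
    rw [hA, mul_assoc, ← Real.exp_add, ← mul_add]
    gcongr
    rw [hT]
    exact h2
  have hre : ∀ z : Fin m → ℂ, (∀ i, y1 ≤ (z i).re ∧ (z i).re ≤ y2 ∧ |(z i).im| ≤ 1 / 100) →
      ∀ i, |(z i).re - 1 / 4| ≤ 55 / 1000 := by
    intro z hz i
    have := hz i
    rw [abs_le]
    constructor <;> linarith [this.1, this.2.1]
  have hv : ∀ i, |((a i : ℂ) + (v i).im * I).re| ≤ 15 / 100 := by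
    intro i
    have e : ((a i : ℂ) + (v i).im * I).re = a i := by simp
    rw [e]
    exact ha i
  have hvw : ∀ i, ww n M ((a i : ℂ) + (v i).im * I) ≠ 1 := by
    intro i
    apply HybM_ww_ne n M hMpos
    have e : ((a i : ℂ) + (v i).im * I).im = (v i).im := by simp
    rw [e]
    exact (locG_v hc i).1.2.1
  have hpp := prodpath (fun z => GN8 s t r n g M ∅ ∅ z (fun i => a i + (v i).im * I)) n M k1 k2
    (1 / 100) (fun j => (y j).im) hMpos hw.hk (by norm_num) (by norm_num)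
    (fun j => (locG_y hc j).1.2.trans (by norm_num)) (by
      have : 2 * 3.14 * (1 / 100) * 3000 ≤ 2 * Real.pi * (1 / 100) * M := by gcongr
      linarith) y1 y2 hy1 hy2 (by linarith) A (A * Real.exp (-(M / 500))) hA0 (by positivity)
    (by
      intro z hz
      refine ⟨?_, fun j => ?_⟩
      · have h1 := GN8_continuousAt s t r n g M hn hg hgn hw.big ∅ ∅ z (fun i => a i + (v i).im * I) (hre z hz)
          hv hvw
        exact h1.comp (f := fun z : Fin m → ℂ =>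
          ((z, fun i => (a i : ℂ) + (v i).im * I) : (Fin m → ℂ) × (Fin p → ℂ)))
          (by fun_prop)
      · exact GN8_update_differentiable s t r n g M hn hg hgn hw.big ∅ ∅ z (fun i => a i + (v i).im * I) j
          (hre z hz) hv)
    (fun σ z hz => (hbd σ z hz).trans (mul_le_mul_of_nonneg_left (SegCore_prod M σ) hA0))
    (fun σ z hσ hz => by
      refine (hbd σ z hz).trans ?_
      rw [mul_assoc]
      exact mul_le_mul_of_nonneg_left (SegCore_prod' M σ hσ) hA0)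
  refine hpp.2.trans (le_of_eq ?_)
  calc (18 * (M : ℝ)) ^ m * (A * Real.exp (-(M / 500)))
      = 18 ^ m * C0 * (M : ℝ) ^ m * (Real.exp (M * T) * Real.exp (-(M / 500))) := by
        rw [hA, mul_pow]
        ring
    _ = _ := by
        rw [← Real.exp_add]
        congr 2
        ring

end Pool.Agent.H63.VC8

end

section

/-! # The vertical sides of the contour -/

namespace Pool.Agent.H63.VC8

open Pool.Agent.H63.VC
open Pool.Agent.H63.VC3 Pool.Agent.H63.VC4 Pool.Agent.H63.VC7 Complex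

variable {m p : ℕ}

/-- Integer powers of a number in a compact interval. -/
theorem SideG8_zpow (c C : ℝ) (hc : 0 < c) (e : ℤ) : ∃ K : ℝ, 0 < K ∧ ∀ x : ℝ, c ≤ x → x ≤ C →
    x ^ e ≤ K := by
  refine ⟨(max c C) ^ e + c ^ e, by positivity, fun x h1 h2 => ?_⟩
  have hx : 0 < x := hc.trans_le h1
  rcases le_total 0 e with h | h
  · have : x ^ e ≤ (max c C) ^ e := zpow_le_zpow_left₀ h hx.le (h2.trans (le_max_right _ _))
    have h0 : 0 < c ^ e := by positivity
    linarith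
  · have : x ^ e ≤ c ^ e := by
      have h3 : c ^ (-e) ≤ x ^ (-e) := zpow_le_zpow_left₀ (by omega) hc.le h1
      rw [zpow_neg, zpow_neg] at h3
      exact (inv_le_inv₀ (by positivity) (by positivity)).1 h3
    have h0 : 0 < (max c C) ^ e := by positivity
    linarith

theorem PG8_FG8 (r : ℝ) (n : ℕ) (hn : 2 ≤ n) (A : Finset (Fin m)) (hA : A.Nonempty)
    (hr : 10 * (A.card : ℝ) ≤ |r|) (Y : ℝ) (hY : 0 < Y) (hY' : Y ≤ 3 / 10 * A.card / r ^ 2) :
    ∃ C : ℝ, 0 < C ∧ ∃ D : ℕ, ∀ (M k1 k2 l1 l2 : ℕ) (k : Fin m → ℕ), Win n M k1 k2 l1 l2 →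
    (∀ j ∈ A, k1 ≤ k j ∧ k j ≤ k2) →
    (∏ j ∈ A, S M (k j) ^ 2) *
      ‖PG8 r n M A (fun j => ((yk n M (k j) : ℝ) : ℂ)) (rho n M l2) Y -
        FG8 r n M A (fun j => ((yk n M (k j) : ℝ) : ℂ)) (rho n M l2) Y‖ ≤
      C * (M : ℝ) ^ D * Real.exp (M * (4 * A.card * Fr (3 / 4) - 20 / 1000)) := by
  obtain ⟨C1, hC1, hQ⟩ := KBN_Qo_bound n
  obtain ⟨C2, hC2, hS⟩ := SideG_S n hn
  obtain ⟨c0, C0, hc0, hC0, hBn⟩ := BnB8_bound n
  obtain ⟨K, hK, hKz⟩ := SideG8_zpow c0 C0 hc0 (2 - (A.card : ℤ))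
  have hc : 1 ≤ A.card := hA.card_pos
  have hc1 : (1 : ℝ) ≤ A.card := by exact_mod_cast hc
  have hR : (10 : ℝ) ≤ |r| := by linarith only [hr, hc1]
  have hR2 : (100 : ℝ) ≤ r ^ 2 := by
    rw [← sq_abs]
    nlinarith only [hc1, hr]
  have hY3 : Y ≤ 3 / 1000 := by
    refine hY'.trans ?_
    rw [div_le_iff₀ (by positivity)]
    have h1 : r ^ 2 = |r| * |r| := by rw [← sq_abs, sq]
    rw [h1]
    nlinarith only [hr, hc1]
  refine ⟨2 * Y * (2 * Real.exp (2 * Real.pi * (1 / 10))) * K * C1 ^ A.card * Real.exp n ^ A.card,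
    by positivity, ⌈2 * C2⌉₊ * A.card, fun M k1 k2 l1 l2 k hw hk => ?_⟩
  obtain ⟨f1, f2, f3, f4, f5, f6, f7⟩ := win_facts n M k1 k2 l1 l2 hn hw
  have hMbig : 1000 * (n + 1) ≤ M := hw.big
  have hMpos : 0 < M := by omega
  have hM0 : (0 : ℝ) < M := by exact_mod_cast hMpos
  have hM1 : (1 : ℝ) ≤ M := by exact_mod_cast hMpos
  set y : Fin m → ℂ := fun j => ((yk n M (k j) : ℝ) : ℂ) with hy
  set ρ : ℝ := rho n M l2 with hρ
  have f8 : ∀ j ∈ A, |yk n M (k j) - 1 / 4| ≤ 55 / 1000 := fun j hj =>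
    (f3 (k j) (hk j hj).1 (hk j hj).2).1
  set E : ℝ := 4 * A.card * Fr (3 / 4) - 20 / 1000 - ∑ j ∈ A, 2 * Fr (yk n M (k j) + 1 / 2) with hE
  -- the bound on a vertical side
  have side : ∀ σ : ℝ, (σ = ρ ∨ σ = -ρ) → ∀ t : ℝ, 0 ≤ t → t ≤ Y →
      ‖KG8 r n M A y ((σ : ℂ) + t * I) * om n M ((σ : ℂ) + t * I) * I‖ ≤
        2 * Real.exp (2 * Real.pi * (1 / 10)) * K * C1 ^ A.card * Real.exp (M * E) := by
    intro σ hσ t ht0 ht1
    have hom : ‖om n M ((σ : ℂ) + t * I)‖ ≤ Real.exp (-(2 * Real.pi * M * t)) := by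
      obtain ⟨o1, o2, -, -⟩ := om_side n M l1 l2 hMpos hw.hl t ρ rfl
      rcases hσ with h | h
      · rw [h]; exact o1
      · rw [h, Complex.ofReal_neg]; exact o2
    have hσabs : |σ| = ρ := by
      have : 0 ≤ ρ := by linarith only [hY, hY3, f6]
      rcases hσ with h | h
      · rw [h, abs_of_nonneg this]
      · rw [h, abs_neg, abs_of_nonneg this]
    have hσ1 : -ρ ≤ σ := by rw [← hσabs]; exact neg_abs_le σ
    have hσ2 : σ ≤ ρ := by rw [← hσabs]; exact le_abs_self σ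
    have hre : ((σ : ℂ) + t * I).re = σ := by simp
    have him : ((σ : ℂ) + t * I).im = t := by simp
    have hQj : ∀ j ∈ A, ‖Qo n M (some (y j)) ((σ : ℂ) + t * I)‖ ≤
        C1 * Real.exp (M * (4 * Fr (3 / 4) - 60 / 1000 - 2 * Fr (yk n M (k j) + 1 / 2))) := by
      intro j hj
      have g8 := f8 j hj
      rw [abs_le] at g8
      have h1 := hQ M (by omega) (some (y j)) ((σ : ℂ) + t * I) (by
        intro z hz
        have hz' : z = y j := (Option.mem_some_iff.mp hz).symm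
        have hz1 : z.re = yk n M (k j) := by rw [hz', hy, Complex.ofReal_re]
        have hz3 : z.im = 0 := by rw [hz', hy, Complex.ofReal_im]
        have w1 : (z - ((σ : ℂ) + t * I)).re = z.re - σ := by
          rw [Complex.sub_re, hre]
        have w2 : (z + ((σ : ℂ) + t * I)).re = z.re + σ := by
          rw [Complex.add_re, hre]
        rw [w1, w2, hz3, abs_zero, hz1]
        refine ⟨by linarith only [hY, hY3, f7, hσ2, g8], by linarith only [hY, hY3, f7, hσ1, g8], by linarith only [hY, hY3, f7, hσ1, g8], by linarith only [hY, hY3, f7, hσ2, g8], by norm_num⟩)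
        (by rw [him, abs_of_nonneg ht0]; linarith only [hY, hY3, ht1])
      have h2 := SideG_slot (yk n M (k j)) t σ (f8 j hj) (by rw [hσabs]; exact f6)
        (by rw [hσabs]; linarith only [f7]) ht0 (ht1.trans hY3)
      refine h1.trans ?_
      have h3 : C1 / M ≤ C1 := div_le_self hC1.le hM1
      have h4 : (po (some (y j)) ((σ : ℂ) + t * I)).re ≤
          4 * Fr (3 / 4) - 60 / 1000 - 2 * Fr (yk n M (k j) + 1 / 2) := by
        rw [hy]
        linarith only [h2]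
      gcongr
    have hprod : ‖∏ j ∈ A, Qo n M (some (y j)) ((σ : ℂ) + t * I)‖ ≤ C1 ^ A.card *
        Real.exp (M * (∑ j ∈ A, (4 * Fr (3 / 4) - 60 / 1000 - 2 * Fr (yk n M (k j) + 1 / 2)))) := by
      rw [_root_.norm_prod]
      refine (Finset.prod_le_prod (fun j _ => norm_nonneg _) hQj).trans (le_of_eq ?_)
      rw [Finset.prod_mul_distrib, Finset.prod_const, ← Real.exp_sum, Finset.mul_sum]
    have hs : ‖2 * Complex.sin (2 * Real.pi * ((σ : ℂ) + t * I))‖ ≤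
        2 * Real.exp (2 * Real.pi * (1 / 10)) := by
      rw [norm_mul]
      have h2 : ‖(2 : ℂ)‖ = 2 := by simp
      rw [h2]
      refine mul_le_mul_of_nonneg_left ((KB_norm_sin_le _).trans (Real.exp_le_exp.2 ?_))
        (by norm_num)
      have h7 : (2 * (Real.pi : ℂ) * ((σ : ℂ) + t * I)).im = 2 * Real.pi * t := by
        have : (2 * (Real.pi : ℂ)) = ((2 * Real.pi : ℝ) : ℂ) := by push_cast; ring
        rw [this, Complex.im_ofReal_mul, him]
      rw [h7, abs_of_nonneg (by positivity)]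
      exact mul_le_mul_of_nonneg_left (by linarith only [hY, hY3, ht1]) (by positivity)
    have hex : ‖exp (2 * Real.pi * I * r * M * ((σ : ℂ) + t * I) ^ 2)‖ =
        Real.exp (M * (-4 * Real.pi * r * σ * t)) := by
      rw [Complex.norm_exp]
      congr 1
      have h9 : (2 * Real.pi * I * r * M * ((σ : ℂ) + t * I) ^ 2 : ℂ) =
          ((M * (-4 * Real.pi * r * σ * t) : ℝ) : ℂ) +
            ((M * (2 * Real.pi * r * (σ ^ 2 - t ^ 2)) : ℝ) : ℂ) * I := by
        push_cast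
        linear_combination (4 * (Real.pi : ℂ) * r * M * σ * t +
          2 * Real.pi * r * M * t ^ 2 * I) * I_sq
      rw [h9, Complex.add_re, Complex.ofReal_re, Complex.re_ofReal_mul, Complex.I_re, mul_zero,
        add_zero]
    have hph := SideG_phase r σ ρ t Y A.card hc hr hσabs (by linarith only [f7]) ht0 ht1 hY'
    have hBz : ‖Bn n M ((σ : ℂ) + t * I) ^ (2 - (A.card : ℤ))‖ ≤ K := by
      obtain ⟨b1, b2⟩ := hBn M ((σ : ℂ) + t * I) hMbig
        (by rw [hre, hσabs]; linarith only [hY, hY3, f7]) (by rw [him, abs_of_nonneg ht0]; linarith only [hY, hY3, ht1])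
      rw [norm_zpow]
      exact hKz _ b1 b2
    rw [norm_mul, norm_mul, Complex.norm_I, mul_one]
    unfold KG8
    rw [norm_mul, norm_mul, norm_mul, hex]
    calc Real.exp (M * (-4 * Real.pi * r * σ * t)) *
          ‖2 * Complex.sin (2 * Real.pi * ((σ : ℂ) + t * I))‖ *
          ‖Bn n M ((σ : ℂ) + t * I) ^ (2 - (A.card : ℤ))‖ *
          ‖∏ j ∈ A, Qo n M (some (y j)) ((σ : ℂ) + t * I)‖ * ‖om n M ((σ : ℂ) + t * I)‖
        ≤ Real.exp (M * (-4 * Real.pi * r * σ * t)) * (2 * Real.exp (2 * Real.pi * (1 / 10))) * K *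
          (C1 ^ A.card * Real.exp (M * (∑ j ∈ A, (4 * Fr (3 / 4) - 60 / 1000 -
            2 * Fr (yk n M (k j) + 1 / 2))))) * Real.exp (-(2 * Real.pi * M * t)) := by
          gcongr
      _ = 2 * Real.exp (2 * Real.pi * (1 / 10)) * K * C1 ^ A.card *
          (Real.exp (M * (-4 * Real.pi * r * σ * t)) *
            Real.exp (M * (∑ j ∈ A, (4 * Fr (3 / 4) - 60 / 1000 -
              2 * Fr (yk n M (k j) + 1 / 2)))) * Real.exp (-(2 * Real.pi * M * t))) := by ring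
      _ ≤ _ := by
          rw [← Real.exp_add, ← Real.exp_add]
          refine mul_le_mul_of_nonneg_left (Real.exp_le_exp.2 ?_) (by positivity)
          rw [hE, Finset.sum_sub_distrib, Finset.sum_const, nsmul_eq_mul]
          have h0 : (M : ℝ) * (-4 * Real.pi * r * σ * t - 2 * Real.pi * t - 60 / 1000 * A.card) ≤
              M * (-(20 / 1000)) := mul_le_mul_of_nonneg_left hph hM0.le
          nlinarith only [h0]
  set B : ℝ := 2 * Real.exp (2 * Real.pi * (1 / 10)) * K * C1 ^ A.card * Real.exp (M * E) with hB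
  have hB0 : 0 ≤ B := by positivity
  have i1 : ‖∫ t in (0 : ℝ)..Y, KG8 r n M A y (-(ρ : ℂ) + t * I) *
      om n M (-(ρ : ℂ) + t * I) * I‖ ≤ B * |Y - 0| := by
    apply intervalIntegral.norm_integral_le_of_norm_le_const
    intro t ht
    rw [Set.uIoc_of_le hY.le] at ht
    have := side (-ρ) (Or.inr rfl) t ht.1.le ht.2
    rwa [Complex.ofReal_neg] at this
  have i2 : ‖∫ t in (0 : ℝ)..Y, KG8 r n M A y ((ρ : ℂ) + t * I) *
      om n M ((ρ : ℂ) + t * I) * I‖ ≤ B * |Y - 0| := by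
    apply intervalIntegral.norm_integral_le_of_norm_le_const
    intro t ht
    rw [Set.uIoc_of_le hY.le] at ht
    exact side ρ (Or.inl rfl) t ht.1.le ht.2
  rw [sub_zero, abs_of_pos hY] at i1 i2
  have hdiff : PG8 r n M A y ρ Y - FG8 r n M A y ρ Y =
      (∫ t in (0 : ℝ)..Y, KG8 r n M A y (-(ρ : ℂ) + t * I) * om n M (-(ρ : ℂ) + t * I) * I) -
      ∫ t in (0 : ℝ)..Y, KG8 r n M A y ((ρ : ℂ) + t * I) * om n M ((ρ : ℂ) + t * I) * I := by
    unfold PG8 FG8 VC3.Path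
    ring
  have hPF : ‖PG8 r n M A y ρ Y - FG8 r n M A y ρ Y‖ ≤ 2 * Y * B := by
    rw [hdiff]
    refine (norm_sub_le _ _).trans ?_
    linarith only [i1, i2]
  -- the size of `S`
  have hSp : ∏ j ∈ A, S M (k j) ^ 2 ≤ ((M : ℝ) ^ (⌈2 * C2⌉₊ * A.card) * (Real.exp n ^ A.card *
      Real.exp (M * ∑ j ∈ A, 2 * Fr (yk n M (k j) + 1 / 2)))) := by
    refine (Finset.prod_le_prod (fun j _ => by positivity) fun j hj =>
      hS M k1 k2 l1 l2 (k j) hw (hk j hj).1 (hk j hj).2).trans (le_of_eq ?_)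
    rw [Finset.prod_mul_distrib, Finset.prod_mul_distrib, Finset.prod_const, Finset.prod_const,
      ← Real.exp_sum, Finset.mul_sum, ← pow_mul]
  calc (∏ j ∈ A, S M (k j) ^ 2) * ‖PG8 r n M A y ρ Y - FG8 r n M A y ρ Y‖
      ≤ ((M : ℝ) ^ (⌈2 * C2⌉₊ * A.card) * (Real.exp n ^ A.card *
          Real.exp (M * ∑ j ∈ A, 2 * Fr (yk n M (k j) + 1 / 2)))) * (2 * Y * B) :=
        mul_le_mul hSp hPF (norm_nonneg _) (by positivity)
    _ = 2 * Y * (2 * Real.exp (2 * Real.pi * (1 / 10))) * K * C1 ^ A.card * Real.exp n ^ A.card *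
        (M : ℝ) ^ (⌈2 * C2⌉₊ * A.card) *
        (Real.exp (M * ∑ j ∈ A, 2 * Fr (yk n M (k j) + 1 / 2)) * Real.exp (M * E)) := by
        rw [hB]; ring
    _ = _ := by
        rw [← Real.exp_add, ← mul_add, hE]
        congr 3
        ring

end Pool.Agent.H63.VC8

end
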