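import Pool.Agent.H94.PA.M01

/-! The parts of this file: H63.VC10.Alg, H63.VC10.Brk. -/

section

/-!
# Operators on `V ⊗ V`

`V_n` is the irreducible representation of dimension `n + 1`. `DD n : V_n ⊗ V_n → V_{n+1} ⊗ V_{n+1}`
inserts a minimum between the two factors, `CC n` is the opposite operator, `Oh n f` is the operator
which is `f k` on the component `V_{2 k}` of `V_n ⊗ V_n`.
-/

namespace Pool.Agent.H63.VC10

open Pool.Agent.H63.VC7 Matrix

/-- The indices of the basis of `V_n ⊗ V_n`. -/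
abbrev I2 (n : ℕ) : Type := Fin (n + 1) × Fin (n + 1)

/-- `q` is generic for the colors up to `N`. -/
def Gen (q : ℂ) (N : ℕ) : Prop := q ≠ 0 ∧ ∀ k : ℕ, 1 ≤ k → k ≤ 2 * N + 2 → br q (k : ℤ) ≠ 0

/-- Insertion of a minimum: `e_a ⊗ e_b ↦ q^(a+n-b) e_a ⊗ e_{b+1} - q⁻¹ e_{a+1} ⊗ e_b`. -/
noncomputable def DD (q : ℂ) (n : ℕ) : Matrix (I2 (n + 1)) (I2 n) ℂ := fun x y =>
  (if (x.1 : ℕ) = y.1 ∧ (x.2 : ℕ) = y.2 + 1 then q ^ (((y.1 : ℕ) : ℤ) + n - (y.2 : ℕ)) else 0) +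
    (if (x.1 : ℕ) = y.1 + 1 ∧ (x.2 : ℕ) = y.2 then -q⁻¹ else 0)

/-- Insertion of a maximum. -/
noncomputable def CC (q : ℂ) (n : ℕ) : Matrix (I2 n) (I2 (n + 1)) ℂ := fun x y =>
  (if (x.1 : ℕ) = y.1 ∧ (x.2 : ℕ) + 1 = y.2 then
      -q * (br q ((n : ℤ) + 1 - (y.1 : ℕ)) * br q ((y.2 : ℕ) : ℤ) / br q ((n : ℤ) + 1) ^ 2) else 0) +
    (if (x.1 : ℕ) + 1 = y.1 ∧ (x.2 : ℕ) = y.2 then
      q ^ (-((n : ℤ) + 1 - (y.1 : ℕ)) - (y.2 : ℕ)) *
        (br q ((y.1 : ℕ) : ℤ) * br q ((n : ℤ) + 1 - (y.2 : ℕ)) / br q ((n : ℤ) + 1) ^ 2) else 0)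

/-- The eigenvalue of `DD (n - 1) * CC (n - 1)` on the component of color `2 k` of `V_n ⊗ V_n`. -/
noncomputable def E1 (q : ℂ) (n k : ℕ) : ℂ :=
  -(br q ((n : ℤ) - k) * br q ((n : ℤ) + k + 1) / br q (n : ℤ) ^ 2)

/-- The function from which the coefficient of `DD` is computed. -/
noncomputable def dv (q : ℂ) (n : ℕ) (f : ℕ → ℂ) (k : ℕ) : ℂ := (f k - f (n + 1)) / E1 q (n + 1) k

/-- The operator on `V_n ⊗ V_n` with the eigenvalues `f 0, …, f n`. -/
noncomputable def Oh (q : ℂ) : (n : ℕ) → (ℕ → ℂ) → Matrix (I2 n) (I2 n) ℂ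
  | 0, f => f 0 • 1
  | n + 1, f => f (n + 1) • 1 + DD q n * Oh q n (dv q n f) * CC q n

/-- The operator given by `n - j` parallel strands, `j` minima and `j` maxima. -/
noncomputable def em (q : ℂ) : (n : ℕ) → ℕ → Matrix (I2 n) (I2 n) ℂ
  | _, 0 => 1
  | 0, _ + 1 => 0
  | n + 1, j + 1 => DD q n * em q n j * CC q n

/-- The eigenvalues of `em`. -/
noncomputable def EE (q : ℂ) (n j k : ℕ) : ℂ := ∏ i ∈ Finset.range j, E1 q (n - i) k

/-- The coefficients of `Oh n f` in the basis `em n j`. -/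
noncomputable def nt (q : ℂ) : (n : ℕ) → (ℕ → ℂ) → ℕ → ℂ
  | n, f, 0 => f n
  | 0, _, _ + 1 => 0
  | n + 1, f, j + 1 => nt q n (dv q n f) j

/-- The action of the rotation by a quarter turn on the eigenvalues. -/
noncomputable def Ph (q : ℂ) (n : ℕ) (f : ℕ → ℂ) (k : ℕ) : ℂ :=
  ∑ j ∈ Finset.range (n + 1), nt q n f j * EE q n (n - j) k

/-- The rotation by a quarter turn of a tangle with four ends. -/
noncomputable def rotM (q : ℂ) (n : ℕ) (X : Matrix (I2 n) (I2 n) ℂ) : Matrix (I2 n) (I2 n) ℂ :=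
  fun x y => cupc q n x.1 * X (x.2, y.2.rev) (x.1.rev, y.1) * (cupc q n y.2)⁻¹

/-- The value of the closure of a tangle with four ends. -/
noncomputable def trq (q : ℂ) (n : ℕ) (X : Matrix (I2 n) (I2 n) ℂ) : ℂ :=
  ∑ x : I2 n, cupc q n x.1 * cupc q n x.2 * X x x *
    ((cupc q n (n - x.2))⁻¹ * (cupc q n (n - x.1))⁻¹)

/-- The matrix of the positive crossing. -/
noncomputable def RM (q : ℂ) (n : ℕ) : Matrix (I2 n) (I2 n) ℂ := fun x y => Rc q n y.1 y.2 x.1 x.2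

/-- The matrix of the negative crossing. -/
noncomputable def RiM (q : ℂ) (n : ℕ) : Matrix (I2 n) (I2 n) ℂ := fun x y => Ric q n y.1 y.2 x.1 x.2

/-- The eigenvalues of the tangle of a subtree. -/
noncomputable def fv {m : ℕ} (q : ℂ) (n : ℕ) (par : Fin m → Fin (m + 1)) (a : Fin (m + 1) → ℤ) :
    ℕ → Fin (m + 1) → ℕ → ℂ
  | 0, _, _ => 1
  | k + 1, v, x => tw q x ^ (a v) *
      ∏ j ∈ Finset.univ.filter (fun j => par j = v), Ph q n (fv q n par a k j.succ) x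

theorem Gen.mono {q : ℂ} {N n : ℕ} (h : Gen q N) (hn : n ≤ N) : Gen q n :=
  ⟨h.1, fun k h1 h2 => h.2 k h1 (by omega)⟩

end Pool.Agent.H63.VC10

end

section

/-! # Elementary facts on `{k}` -/

namespace Pool.Agent.H63.VC10

open Pool.Agent.H63.VC7

theorem br_neg (q : ℂ) (a : ℤ) : br q (-a) = -br q a := by
  unfold br; rw [neg_neg]; ring

theorem br_zero (q : ℂ) : br q 0 = 0 := by
  unfold br; simp

theorem brf_zero (q : ℂ) : brf q 0 = 1 := by simp [brf]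

theorem brf_succ (q : ℂ) (n : ℕ) : brf q (n + 1) = brf q n * br q ((n : ℤ) + 1) := by
  simp [brf, Finset.prod_range_succ]

theorem Gen.ne {q : ℂ} {N : ℕ} (h : Gen q N) {a : ℤ} (h1 : 1 ≤ a) (h2 : a ≤ 2 * N + 2) :
    br q a ≠ 0 := by
  have := h.2 a.toNat (by omega) (by omega)
  rwa [show ((a.toNat : ℕ) : ℤ) = a by omega] at this

theorem Gen.brf_ne {q : ℂ} {N : ℕ} (h : Gen q N) {k : ℕ} (hk : k ≤ 2 * N + 2) : brf q k ≠ 0 := by
  unfold brf
  rw [Finset.prod_ne_zero_iff]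
  intro i hi
  have := Finset.mem_range.1 hi
  exact h.ne (by omega) (by omega)

/-- `{x} {y} - {x - 1} {y - 1} = {1} {x + y - 1}`. -/
theorem br_id (q : ℂ) (hq : q ≠ 0) (x y : ℤ) :
    br q x * br q y - br q (x - 1) * br q (y - 1) = br q 1 * br q (x + y - 1) := by
  unfold br
  have e : ∀ a b : ℤ, q ^ (a + b) = q ^ a * q ^ b := fun a b => zpow_add₀ hq a b
  rw [show -(x - 1) = -x + 1 by ring, show -(y - 1) = -y + 1 by ring,
    show -(x + y - 1) = -x + (-y + 1) by ring, show x + y - 1 = x + (y + (-1)) by ring,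
    show x - 1 = x + (-1) by ring, show y - 1 = y + (-1) by ring]
  simp only [e, zpow_one, zpow_neg_one]
  have h1 : q ^ x * q ^ (-x) = 1 := by rw [← zpow_add₀ hq]; simp
  have h2 : q ^ y * q ^ (-y) = 1 := by rw [← zpow_add₀ hq]; simp
  have h3 : q * q⁻¹ = 1 := mul_inv_cancel₀ hq
  ring_nf
  field_simp
  ring

/-- `{x} {y + z} = {x + z} {y} + {z} {x - y}`, the basic identity. -/
theorem br_three_term (q : ℂ) (hq : q ≠ 0) (x y z : ℤ) :
    br q x * br q (y + z) = br q (x + z) * br q y + br q z * br q (x - y) := by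
  unfold br
  have e : ∀ a b : ℤ, q ^ (a + b) = q ^ a * q ^ b := fun a b => zpow_add₀ hq a b
  rw [show -(y + z) = -y + -z by ring, show -(x + z) = -x + -z by ring,
    show -(x - y) = -x + y by ring, show x - y = x + -y by ring]
  simp only [e]
  have h1 : q ^ x * q ^ (-x) = 1 := by rw [← zpow_add₀ hq]; simp
  have h2 : q ^ y * q ^ (-y) = 1 := by rw [← zpow_add₀ hq]; simp
  have h3 : q ^ z * q ^ (-z) = 1 := by rw [← zpow_add₀ hq]; simp
  ring

end Pool.Agent.H63.VC10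

end
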