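import Pool.Agent.H94.PA.M02

/-! The parts of this file: H63.VC10.RiC, H63.VC10.RiD, H63.VC10.RC. -/

section

/-! # The negative crossing commutes with the insertion of a maximum -/

namespace Pool.Agent.H63.VC10

open Pool.Agent.H63.VC7 Matrix

/-- Collapse of a double sum with an indicator function. -/
theorem RiC_sum (n p r : ℕ) (F : ℕ → ℕ → ℂ) :
    ∑ w : I2 n, (if (w.1 : ℕ) = p ∧ (w.2 : ℕ) = r then F w.1 w.2 else 0)
      = if p ≤ n ∧ r ≤ n then F p r else 0 := by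
  by_cases h : p ≤ n ∧ r ≤ n
  · rw [if_pos h, Finset.sum_eq_single (⟨⟨p, by omega⟩, ⟨r, by omega⟩⟩ : I2 n)]
    · simp
    · intro w _ hw
      rw [if_neg]
      rintro ⟨h1, h2⟩
      apply hw
      exact Prod.ext (Fin.ext h1) (Fin.ext h2)
    · intro h'
      exact absurd (Finset.mem_univ _) h'
  · rw [if_neg h]
    refine Finset.sum_eq_zero fun w _ => ?_
    rw [if_neg]
    rintro ⟨h1, h2⟩
    exact h ⟨by omega, by omega⟩

/-- The power identity. -/
theorem RiC_pow (q : ℂ) (hq : q ≠ 0) (n c d m : ℤ) :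
    q ^ (1 - m) * (br q (n + 1 - c) * br q (d + 1)) + q ^ (-(n - c) - d) * br q (m + 1)
      = q ^ (n + 2 - (c + d) + 2 * (d - m)) * br q (m + 1) +
        q ^ (1 - m) * (br q (d - m) * br q (n - c - m)) := by
  unfold br
  simp only [mul_sub, sub_mul, ← zpow_add₀ hq]
  ring_nf

theorem RiC_case0 (q : ℂ) (n c d : ℕ) (h : Gen q (n + 1)) (hc : c ≤ n) (hd : d ≤ n) :
    -q * (br q ((n : ℤ) + 1 - c) * br q ((d : ℤ) + 1) / br q ((n : ℤ) + 1) ^ 2) *
        Ric q (n + 1) (d + 1) c c (d + 1)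
      = Ric q n d c c d * (q ^ (-((n : ℤ) + 1 - (d + 1)) - c) *
          (br q ((d : ℤ) + 1) * br q ((n : ℤ) + 1 - c) / br q ((n : ℤ) + 1) ^ 2)) := by
  have hq := h.1
  have h1 : brf q c ≠ 0 := h.brf_ne (by omega)
  have h2 : brf q (n - d) ≠ 0 := h.brf_ne (by omega)
  unfold Ric
  rw [if_pos ⟨by omega, le_refl _, by omega⟩, if_pos ⟨by omega, le_refl _, by omega⟩]
  rw [show n + 1 - (d + 1) = n - d by omega]
  simp only [Nat.sub_self, brf_zero, pow_zero, mul_one, Nat.choose_zero_succ, Nat.cast_zero,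
    add_zero]
  have e1 : brf q c * brf q (n - d) / (brf q c * brf q (n - d)) = 1 := div_self (mul_ne_zero h1 h2)
  have e3 : ((-1 : ℂ)) ^ (n + 1) = -(-1) ^ n := by rw [pow_succ]; ring
  rw [e1, e3]
  have e2 : q ^ (-(((n + 1 : ℕ) : ℤ) * (((n + 1 : ℕ) : ℤ) + 1) - ((n + 1 : ℕ) : ℤ) *
      (((d + 1 : ℕ) : ℤ) + c) + 2 * ((d + 1 : ℕ) : ℤ) * c))
      = q⁻¹ * (q ^ (-((n : ℤ) * (n + 1) - n * (d + c) + 2 * d * c)) *
        q ^ (-((n : ℤ) + 1 - (d + 1)) - c)) := by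
    rw [← _root_.zpow_neg_one, ← zpow_add₀ hq, ← zpow_add₀ hq]
    congr 1
    push_cast
    ring
  rw [e2]
  field_simp

theorem RiC_case1 (q : ℂ) (n a c m : ℕ) (h : Gen q (n + 1)) (hc : c + m ≤ n) (hd : a + m ≤ n) :
    -q * (br q ((n : ℤ) + 1 - c) * br q (((a + m : ℕ) : ℤ) + 1) / br q ((n : ℤ) + 1) ^ 2) *
        Ric q (n + 1) a (c + m + 1) c (a + m + 1) +
      q ^ (-((n : ℤ) + 1 - (c + 1)) - ((a + m : ℕ) : ℤ)) *
        (br q ((c : ℤ) + 1) * br q ((n : ℤ) + 1 - ((a + m : ℕ) : ℤ)) / br q ((n : ℤ) + 1) ^ 2) *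
        Ric q (n + 1) a (c + m + 1) (c + 1) (a + m)
      = Ric q n a (c + m) c (a + m) * (-q * (br q ((n : ℤ) + 1 - a) *
          br q ((c + m + 1 : ℕ) : ℤ) / br q ((n : ℤ) + 1) ^ 2)) +
        Ric q n (a - 1) (c + m + 1) c (a + m) *
          (q ^ (-((n : ℤ) + 1 - a) - ((c + m + 1 : ℕ) : ℤ)) *
          (br q (a : ℤ) * br q ((n : ℤ) + 1 - ((c + m + 1 : ℕ) : ℤ)) / br q ((n : ℤ) + 1) ^ 2)) := by
  have hq := h.1
  obtain ⟨k, rfl⟩ := Nat.exists_eq_add_of_le hd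
  have hN : br q (((a + m + k : ℕ) : ℤ) + 1) ≠ 0 := h.ne (by omega) (by push_cast; omega)
  have g1 : brf q c ≠ 0 := h.brf_ne (by omega)
  have g2 : brf q m ≠ 0 := h.brf_ne (by omega)
  have g3 : brf q k ≠ 0 := h.brf_ne (by omega)
  have g4 : br q ((c : ℤ) + 1) ≠ 0 := h.ne (by omega) (by push_cast; omega)
  have g5 : br q ((m : ℤ) + 1) ≠ 0 := h.ne (by omega) (by push_cast; omega)
  have g6 : br q ((k : ℤ) + 1) ≠ 0 := h.ne (by omega) (by push_cast; omega)
  -- the common factor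
  set E : ℤ := -(((a + m + k : ℕ) : ℤ) + 1) * (((a + m + k : ℕ) : ℤ) + 1 - (c + a + m))
    - 2 * a * (c + m + 1) - (m.choose 2 : ℕ) with hE
  have hch : (((m + 1).choose 2 : ℕ) : ℤ) = (m : ℤ) + (m.choose 2 : ℕ) := by
    rw [Nat.choose_succ_succ' m 1, Nat.choose_one_right]
    push_cast
    ring
  -- the four entries
  have T1 : Ric q (a + m + k + 1) a (c + m + 1) c (a + m + 1)
      = (-1) ^ (a + m + k) * (-1) ^ m * (q ^ E * q ^ (-(m : ℤ))) *
        (brf q (c + m) * br q ((c : ℤ) + m + 1) * (brf q (m + k) * br q ((m : ℤ) + k + 1)) /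
          (brf q c * (brf q m * br q ((m : ℤ) + 1)) * brf q k)) := by
    unfold Ric
    rw [if_pos ⟨by omega, by omega, by omega⟩, show c + m + 1 - c = m + 1 by omega,
      show a + m + k + 1 - a = (m + k) + 1 by omega,
      show a + m + k + 1 - (a + m + 1) = k by omega, brf_succ q (c + m), brf_succ q (m + k),
      brf_succ q m, hch, pow_succ, pow_succ, ← zpow_add₀ hq]
    push_cast
    rw [show -(((a : ℤ) + m + k + 1) * ((a : ℤ) + m + k + 1 + 1) - ((a : ℤ) + m + k + 1) *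
      (a + (c + m + 1)) + 2 * a * (c + m + 1) + (m + (m.choose 2 : ℕ))) = E + -m by
        rw [hE]; push_cast; ring]
    ring
  have T2 : Ric q (a + m + k + 1) a (c + m + 1) (c + 1) (a + m)
      = -((-1) ^ (a + m + k) * (-1) ^ m) * q ^ E *
        (brf q (c + m) * br q ((c : ℤ) + m + 1) * (brf q (m + k) * br q ((m : ℤ) + k + 1)) /
          (brf q c * br q ((c : ℤ) + 1) * brf q m * (brf q k * br q ((k : ℤ) + 1)))) := by
    unfold Ric
    rw [if_pos ⟨by omega, by omega, by omega⟩, show c + m + 1 - (c + 1) = m by omega,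
      show a + m + k + 1 - a = (m + k) + 1 by omega,
      show a + m + k + 1 - (a + m) = k + 1 by omega, brf_succ q (c + m), brf_succ q (m + k),
      brf_succ q c, brf_succ q k, pow_succ]
    push_cast
    rw [show -(((a : ℤ) + m + k + 1) * ((a : ℤ) + m + k + 1 + 1) - ((a : ℤ) + m + k + 1) *
      (a + (c + m + 1)) + 2 * a * (c + m + 1) + (m.choose 2 : ℕ)) = E by
        rw [hE]; push_cast; ring]
    ring
  have T3 : Ric q (a + m + k) a (c + m) c (a + m)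
      = ((-1) ^ (a + m + k) * (-1) ^ m) *
        (q ^ E * q ^ (((a + m + k : ℕ) : ℤ) + 1 - (c + a + m) + 2 * a)) *
        (brf q (c + m) * brf q (m + k) / (brf q c * brf q m * brf q k)) := by
    unfold Ric
    rw [if_pos ⟨by omega, by omega, by omega⟩, show c + m - c = m by omega,
      show a + m + k - a = m + k by omega,
      show a + m + k - (a + m) = k by omega, ← zpow_add₀ hq]
    push_cast
    rw [show -(((a : ℤ) + m + k) * ((a : ℤ) + m + k + 1) - ((a : ℤ) + m + k) *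
      (a + (c + m)) + 2 * a * (c + m) + (m.choose 2 : ℕ))
      = E + ((a : ℤ) + m + k + 1 - (c + a + m) + 2 * a) by
        rw [hE]; push_cast; ring]
  have T4 : Ric q (a + m + k) (a - 1) (c + m + 1) c (a + m) *
          (q ^ (-(((a + m + k : ℕ) : ℤ) + 1 - a) - ((c + m + 1 : ℕ) : ℤ)) *
          (br q (a : ℤ) * br q (((a + m + k : ℕ) : ℤ) + 1 - ((c + m + 1 : ℕ) : ℤ)) /
            br q (((a + m + k : ℕ) : ℤ) + 1) ^ 2))
      = (-((-1) ^ (a + m + k) * (-1) ^ m) *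
        (q ^ E * q ^ (1 - (m : ℤ))) *
        (brf q (c + m) * br q ((c : ℤ) + m + 1) * (brf q (m + k) * br q ((m : ℤ) + k + 1)) /
          (brf q c * (brf q m * br q ((m : ℤ) + 1)) * brf q k))) *
          (br q (a : ℤ) * br q (((a + m + k : ℕ) : ℤ) + 1 - ((c + m + 1 : ℕ) : ℤ)) /
            br q (((a + m + k : ℕ) : ℤ) + 1) ^ 2) := by
    rcases Nat.eq_zero_or_pos a with ha | ha
    · subst ha
      simp [br_zero]
    · obtain ⟨a', rfl⟩ := Nat.exists_eq_succ_of_ne_zero ha.ne'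
      unfold Ric
      rw [if_pos ⟨by omega, by omega, by omega⟩, show c + m + 1 - c = m + 1 by omega,
        show a'.succ + m + k - (a'.succ - 1) = (m + k) + 1 by omega,
        show a'.succ + m + k - (a'.succ + m) = k by omega, show a'.succ - 1 = a' by omega,
        brf_succ q (c + m), brf_succ q (m + k),
        brf_succ q m, hch, pow_succ, ← zpow_add₀ hq]
      have e5 : q ^ (-((((a'.succ + m + k : ℕ) : ℤ)) * (((a'.succ + m + k : ℕ) : ℤ) + 1) -
          (((a'.succ + m + k : ℕ) : ℤ)) * ((a' : ℤ) + ((c + m + 1 : ℕ) : ℤ)) +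
            2 * a' * ((c + m + 1 : ℕ) : ℤ) + (m + (m.choose 2 : ℕ)))) *
          q ^ (-(((a'.succ + m + k : ℕ) : ℤ) + 1 - (a'.succ : ℕ)) - ((c + m + 1 : ℕ) : ℤ))
          = q ^ (E + (1 - (m : ℤ))) := by
        rw [← zpow_add₀ hq]
        congr 1
        rw [hE]
        push_cast
        ring
      rw [← e5]
      push_cast
      ring
  rw [T1, T2, T3, T4]
  have key := RiC_pow q hq ((a + m + k : ℕ) : ℤ) c ((a + m : ℕ) : ℤ) m
  have k1 : (((a + m : ℕ) : ℤ) - m) = a := by push_cast; ring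
  have k2 : (((a + m + k : ℕ) : ℤ) - c - m) = ((a + m + k : ℕ) : ℤ) + 1 - ((c + m + 1 : ℕ) : ℤ) := by
    push_cast; ring
  have k3 : ((a + m + k : ℕ) : ℤ) + 2 - (c + ((a + m : ℕ) : ℤ)) + 2 * (a : ℤ)
      = 1 + (((a + m + k : ℕ) : ℤ) + 1 - (c + a + m) + 2 * a) := by
    push_cast; ring
  have k4 : (1 - (m : ℤ)) = 1 + -(m : ℤ) := by ring
  rw [k1, k2, k3, k4] at key
  rw [k4]
  have k5 : -(((a + m + k : ℕ) : ℤ) + 1 - (c + 1)) - ((a + m : ℕ) : ℤ)
      = -(((a + m + k : ℕ) : ℤ) - c) - ((a + m : ℕ) : ℤ) := by ring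
  rw [k5]
  have k6 : ((a + m + k : ℕ) : ℤ) + 1 - ((a + m : ℕ) : ℤ) = (k : ℤ) + 1 := by push_cast; ring
  have k7 : ((a + m + k : ℕ) : ℤ) + 1 - (a : ℤ) = (m : ℤ) + k + 1 := by push_cast; ring
  have k8 : ((c + m + 1 : ℕ) : ℤ) = (c : ℤ) + m + 1 := by push_cast; ring
  rw [k6, k7, k8] 
  rw [k8] at key
  simp only [zpow_add₀ hq 1, zpow_one] at key ⊢
  set S : ℂ := (-1) ^ (a + m + k) * (-1) ^ m
  set N := br q (((a + m + k : ℕ) : ℤ) + 1)
  set u1 := br q (((a + m + k : ℕ) : ℤ) + 1 - c)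
  set u2 := br q (((a + m : ℕ) : ℤ) + 1)
  set u3 := br q (((a + m + k : ℕ) : ℤ) + 1 - ((c : ℤ) + m + 1))
  set u4 := br q (a : ℤ)
  set p1 := q ^ (-(m : ℤ))
  set p2 := q ^ (-(((a + m + k : ℕ) : ℤ) - c) - ((a + m : ℕ) : ℤ))
  set p3 := q ^ (((a + m + k : ℕ) : ℤ) + 1 - (c + a + m) + 2 * a)
  set pE := q ^ E
  set w1 := br q ((c : ℤ) + m + 1)
  set w2 := br q ((m : ℤ) + k + 1)
  set f1 := brf q (c + m)
  set f2 := brf q (m + k)
  set M := br q ((m : ℤ) + 1)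
  set K := br q ((k : ℤ) + 1)
  set G := br q ((c : ℤ) + 1)
  have fin : -(S * pE * (f1 * w1 * (f2 * w2)) / (N ^ 2 * (brf q c * brf q m * M * brf q k))) *
      (q * p1 * (u1 * u2) + p2 * M) =
      -(S * pE * (f1 * w1 * (f2 * w2)) / (N ^ 2 * (brf q c * brf q m * M * brf q k))) *
      (q * p3 * M + q * p1 * (u4 * u3)) := by
    rw [key]
  calc _ = -(S * pE * (f1 * w1 * (f2 * w2)) / (N ^ 2 * (brf q c * brf q m * M * brf q k))) *
      (q * p1 * (u1 * u2) + p2 * M) := by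
        field_simp
        ring
    _ = _ := fin
    _ = _ := by
        field_simp
        ring

theorem RiC_main (q : ℂ) (n a b c d : ℕ) (h : Gen q (n + 1)) (ha : a ≤ n + 1) (hb : b ≤ n + 1)
    (hc : c ≤ n) (hd : d ≤ n) :
    -q * (br q ((n : ℤ) + 1 - c) * br q ((d : ℤ) + 1) / br q ((n : ℤ) + 1) ^ 2) *
        Ric q (n + 1) a b c (d + 1) +
      q ^ (-((n : ℤ) + 1 - (c + 1)) - (d : ℤ)) *
        (br q ((c : ℤ) + 1) * br q ((n : ℤ) + 1 - (d : ℤ)) / br q ((n : ℤ) + 1) ^ 2) *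
        Ric q (n + 1) a b (c + 1) d
      = Ric q n a (b - 1) c d * (-q * (br q ((n : ℤ) + 1 - a) *
          br q (b : ℤ) / br q ((n : ℤ) + 1) ^ 2)) +
        Ric q n (a - 1) b c d * (q ^ (-((n : ℤ) + 1 - a) - (b : ℤ)) *
          (br q (a : ℤ) * br q ((n : ℤ) + 1 - (b : ℤ)) / br q ((n : ℤ) + 1) ^ 2)) := by
  by_cases hs : a + b = c + d + 1 ∧ c ≤ b
  · obtain ⟨hs, hcb⟩ := hs
    rcases Nat.eq_or_lt_of_le hcb with hcb | hcb
    · subst hcb
      obtain rfl : a = d + 1 := by omega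
      have z2 : Ric q (n + 1) (d + 1) c (c + 1) d = 0 := by
        unfold Ric
        rw [if_neg (by omega)]
      have z3 : Ric q n (d + 1) (c - 1) c d * (-q * (br q ((n : ℤ) + 1 - ((d + 1 : ℕ) : ℤ)) *
          br q (c : ℤ) / br q ((n : ℤ) + 1) ^ 2)) = 0 := by
        rcases Nat.eq_zero_or_pos c with h0 | h0
        · subst h0
          simp [br_zero]
        · unfold Ric
          rw [if_neg (by omega), zero_mul]
      rw [z2, z3, mul_zero, add_zero, zero_add]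
      have := RiC_case0 q n c d h hc hd
      push_cast
      exact this
    · obtain ⟨m, rfl⟩ : ∃ m, b = c + m + 1 := ⟨b - c - 1, by omega⟩
      obtain rfl : d = a + m := by omega
      have := RiC_case1 q n a c m h (by omega) hd
      rw [show c + m + 1 - 1 = c + m by omega]
      exact this
  · have z1 : Ric q (n + 1) a b c (d + 1) = 0 := by
      unfold Ric
      rw [if_neg (by omega)]
    have z2 : Ric q (n + 1) a b (c + 1) d = 0 := by
      unfold Ric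
      rw [if_neg (by omega)]
    have z3 : Ric q n a (b - 1) c d * (-q * (br q ((n : ℤ) + 1 - a) *
          br q (b : ℤ) / br q ((n : ℤ) + 1) ^ 2)) = 0 := by
      rcases Nat.eq_zero_or_pos b with h0 | h0
      · subst h0
        simp [br_zero]
      · unfold Ric
        rw [if_neg (by omega), zero_mul]
    have z4 : Ric q n (a - 1) b c d * (q ^ (-((n : ℤ) + 1 - a) - (b : ℤ)) *
          (br q (a : ℤ) * br q ((n : ℤ) + 1 - (b : ℤ)) / br q ((n : ℤ) + 1) ^ 2)) = 0 := by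
      rcases Nat.eq_zero_or_pos a with h0 | h0
      · subst h0
        simp [br_zero]
      · unfold Ric
        rw [if_neg (by omega), zero_mul]
    rw [z1, z2, z3, z4]
    simp

theorem CC_RiM (q : ℂ) (n : ℕ) (h : Gen q (n + 1)) :
    CC q n * RiM q (n + 1) = RiM q n * CC q n := by
  ext x y
  obtain ⟨⟨c, hc⟩, ⟨d, hd⟩⟩ := x
  obtain ⟨⟨a, ha⟩, ⟨b, hb⟩⟩ := y
  rw [Matrix.mul_apply, Matrix.mul_apply]
  have L : ∑ z : I2 (n + 1), CC q n (⟨c, hc⟩, ⟨d, hd⟩) z * RiM q (n + 1) z (⟨a, ha⟩, ⟨b, hb⟩)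
      = ∑ z : I2 (n + 1), (if (z.1 : ℕ) = c ∧ (z.2 : ℕ) = d + 1 then
          -q * (br q ((n : ℤ) + 1 - (z.1 : ℕ)) * br q ((z.2 : ℕ) : ℤ) / br q ((n : ℤ) + 1) ^ 2) *
            Ric q (n + 1) a b z.1 z.2 else 0) +
        ∑ z : I2 (n + 1), (if (z.1 : ℕ) = c + 1 ∧ (z.2 : ℕ) = d then
          q ^ (-((n : ℤ) + 1 - (z.1 : ℕ)) - ((z.2 : ℕ) : ℤ)) *
            (br q ((z.1 : ℕ) : ℤ) * br q ((n : ℤ) + 1 - ((z.2 : ℕ) : ℤ)) / br q ((n : ℤ) + 1) ^ 2) *
            Ric q (n + 1) a b z.1 z.2 else 0) := by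
    rw [← Finset.sum_add_distrib]
    refine Finset.sum_congr rfl fun z _ => ?_
    unfold CC RiM
    rw [add_mul, ite_mul, ite_mul, zero_mul]
    have e1 : ((c : ℕ) = (z.1 : ℕ) ∧ d + 1 = (z.2 : ℕ)) ↔ ((z.1 : ℕ) = c ∧ (z.2 : ℕ) = d + 1) := by
      constructor <;> rintro ⟨h1, h2⟩ <;> exact ⟨h1.symm, h2.symm⟩
    have e2 : ((c : ℕ) + 1 = (z.1 : ℕ) ∧ d = (z.2 : ℕ)) ↔ ((z.1 : ℕ) = c + 1 ∧ (z.2 : ℕ) = d) := by
      constructor <;> rintro ⟨h1, h2⟩ <;> exact ⟨h1.symm, h2.symm⟩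
    simp only [e1, e2]
  have R : ∑ w : I2 n, RiM q n (⟨c, hc⟩, ⟨d, hd⟩) w * CC q n w (⟨a, ha⟩, ⟨b, hb⟩)
      = Ric q n a (b - 1) c d * (-q * (br q ((n : ℤ) + 1 - a) *
          br q (b : ℤ) / br q ((n : ℤ) + 1) ^ 2)) +
        Ric q n (a - 1) b c d * (q ^ (-((n : ℤ) + 1 - a) - (b : ℤ)) *
          (br q (a : ℤ) * br q ((n : ℤ) + 1 - (b : ℤ)) / br q ((n : ℤ) + 1) ^ 2)) := by
    have R1 : ∑ w : I2 n, RiM q n (⟨c, hc⟩, ⟨d, hd⟩) w * CC q n w (⟨a, ha⟩, ⟨b, hb⟩)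
        = ∑ w : I2 n, (if (w.1 : ℕ) = a ∧ (w.2 : ℕ) + 1 = b then
          Ric q n w.1 w.2 c d * (-q * (br q ((n : ℤ) + 1 - a) *
          br q (b : ℤ) / br q ((n : ℤ) + 1) ^ 2)) else 0) +
          ∑ w : I2 n, (if (w.1 : ℕ) + 1 = a ∧ (w.2 : ℕ) = b then
          Ric q n w.1 w.2 c d * (q ^ (-((n : ℤ) + 1 - a) - (b : ℤ)) *
          (br q (a : ℤ) * br q ((n : ℤ) + 1 - (b : ℤ)) / br q ((n : ℤ) + 1) ^ 2)) else 0) := by
      rw [← Finset.sum_add_distrib]
      refine Finset.sum_congr rfl fun w _ => ?_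
      unfold CC RiM
      rw [mul_add, mul_ite, mul_ite, mul_zero]
    rw [R1]
    congr 1
    · rcases Nat.eq_zero_or_pos b with h0 | h0
      · subst h0
        simp [br_zero]
      · obtain ⟨b', rfl⟩ := Nat.exists_eq_succ_of_ne_zero h0.ne'
        have := RiC_sum n a b' (fun s t => Ric q n s t c d * (-q * (br q ((n : ℤ) + 1 - a) *
          br q ((b'.succ : ℕ) : ℤ) / br q ((n : ℤ) + 1) ^ 2)))
        simp only [Nat.succ_eq_add_one, Nat.add_right_cancel_iff] at this ⊢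
        rw [this]
        by_cases hab : a ≤ n
        · rw [if_pos ⟨hab, by omega⟩, Nat.add_sub_cancel]
        · obtain rfl : a = n + 1 := by omega
          rw [if_neg (by omega)]
          simp [br_zero]
    · rcases Nat.eq_zero_or_pos a with h0 | h0
      · subst h0
        simp [br_zero]
      · obtain ⟨a', rfl⟩ := Nat.exists_eq_succ_of_ne_zero h0.ne'
        have := RiC_sum n a' b (fun s t => Ric q n s t c d * (q ^ (-((n : ℤ) + 1 - (a'.succ : ℕ)) - (b : ℤ)) *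
          (br q ((a'.succ : ℕ) : ℤ) * br q ((n : ℤ) + 1 - (b : ℤ)) / br q ((n : ℤ) + 1) ^ 2)))
        simp only [Nat.succ_eq_add_one, Nat.add_right_cancel_iff] at this ⊢
        rw [this]
        by_cases hab : b ≤ n
        · rw [if_pos ⟨by omega, hab⟩, Nat.add_sub_cancel]
        · obtain rfl : b = n + 1 := by omega
          rw [if_neg (by omega)]
          simp [br_zero]
  have L1 := RiC_sum (n + 1) c (d + 1) (fun s t : ℕ => -q * (br q ((n : ℤ) + 1 - s) *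
    br q (t : ℤ) / br q ((n : ℤ) + 1) ^ 2) * Ric q (n + 1) a b s t)
  have L2 := RiC_sum (n + 1) (c + 1) d (fun s t : ℕ => q ^ (-((n : ℤ) + 1 - s) - (t : ℤ)) *
    (br q (s : ℤ) * br q ((n : ℤ) + 1 - (t : ℤ)) / br q ((n : ℤ) + 1) ^ 2) *
    Ric q (n + 1) a b s t)
  rw [if_pos ⟨by omega, by omega⟩] at L1 L2
  rw [L, R]
  refine (congrArg₂ (· + ·) L1 L2).trans ?_
  rw [← RiC_main q n a b c d h (by omega) (by omega) (by omega) (by omega)]
  push_cast
  rfl

end Pool.Agent.H63.VC10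

end

section

/-! # The negative crossing commutes with the insertion of a minimum -/

namespace Pool.Agent.H63.VC10

open Pool.Agent.H63.VC7 Matrix

private theorem RiD_left (q : ℂ) (n : ℕ) (x : I2 (n + 1)) (y : I2 n) :
    (RiM q (n + 1) * DD q n) x y =
      q ^ (((y.1 : ℕ) : ℤ) + n - (y.2 : ℕ)) * Ric q (n + 1) y.1 (y.2 + 1) x.1 x.2 +
        -q⁻¹ * Ric q (n + 1) (y.1 + 1) y.2 x.1 x.2 := by
  have h1 := y.1.2
  have h2 := y.2.2
  rw [Matrix.mul_apply]
  simp only [DD, RiM, mul_add, mul_ite, mul_zero, Finset.sum_add_distrib]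
  congr 1
  · rw [Finset.sum_eq_single (⟨y.1, by omega⟩, ⟨y.2 + 1, by omega⟩)]
    · rw [if_pos ⟨rfl, rfl⟩]
      ring
    · intro z _ hz
      rw [if_neg]
      rintro ⟨e1, e2⟩
      apply hz
      ext
      · exact e1
      · exact e2
    · intro h
      exact absurd (Finset.mem_univ _) h
  · rw [Finset.sum_eq_single (⟨y.1 + 1, by omega⟩, ⟨y.2, by omega⟩)]
    · rw [if_pos ⟨rfl, rfl⟩]
      ring
    · intro z _ hz
      rw [if_neg]
      rintro ⟨e1, e2⟩
      apply hz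
      ext
      · exact e1
      · exact e2
    · intro h
      exact absurd (Finset.mem_univ _) h

private theorem RiD_right (q : ℂ) (n : ℕ) (x : I2 (n + 1)) (y : I2 n) :
    (DD q n * RiM q n) x y =
      (if (x.1 : ℕ) ≤ n ∧ 1 ≤ (x.2 : ℕ) then
        q ^ (((x.1 : ℕ) : ℤ) + n - ((x.2 : ℕ) - 1 : ℕ)) * Ric q n y.1 y.2 x.1 (x.2 - 1) else 0) +
      (if 1 ≤ (x.1 : ℕ) ∧ (x.2 : ℕ) ≤ n then -q⁻¹ * Ric q n y.1 y.2 (x.1 - 1) x.2 else 0) := by
  have h1 := x.1.2
  have h2 := x.2.2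
  rw [Matrix.mul_apply]
  simp only [DD, RiM, add_mul, ite_mul, zero_mul, Finset.sum_add_distrib]
  congr 1
  · split_ifs with h
    · rw [Finset.sum_eq_single (⟨x.1, by omega⟩, ⟨x.2 - 1, by omega⟩)]
      · rw [if_pos]
        exact ⟨rfl, by simp only; omega⟩
      · intro z _ hz
        rw [if_neg]
        rintro ⟨e1, e2⟩
        apply hz
        ext
        · exact e1.symm
        · simp only
          omega
      · intro h
        exact absurd (Finset.mem_univ _) h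
    · apply Finset.sum_eq_zero
      intro z _
      rw [if_neg]
      rintro ⟨e1, e2⟩
      have := z.1.2
      omega
  · split_ifs with h
    · rw [Finset.sum_eq_single (⟨x.1 - 1, by omega⟩, ⟨x.2, by omega⟩)]
      · rw [if_pos]
        exact ⟨by simp only; omega, rfl⟩
      · intro z _ hz
        rw [if_neg]
        rintro ⟨e1, e2⟩
        apply hz
        ext
        · simp only
          omega
        · exact e2.symm
      · intro h
        exact absurd (Finset.mem_univ _) h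
    · apply Finset.sum_eq_zero
      intro z _
      rw [if_neg]
      rintro ⟨e1, e2⟩
      have := z.2.2
      omega

/-- the case `c = b + 1` -/
private theorem RiD_case0 (q : ℂ) (hq : q ≠ 0) (n a b : ℕ) (ha : a ≤ n) (hb : b ≤ n)
    (hB : ∀ k ≤ n + 1, brf q k ≠ 0) :
    q ^ ((a : ℤ) + n - b) * Ric q (n + 1) a (b + 1) (b + 1) a = -q⁻¹ * Ric q n a b b a := by
  have e1 : Ric q (n + 1) a (b + 1) (b + 1) a = (-1) ^ (n + 1) *
      q ^ (-(((n : ℤ) + 1) * (n + 2) - (n + 1) * (a + b + 1) + 2 * a * (b + 1))) := by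
    rw [Ric, if_pos ⟨by omega, le_refl _, by omega⟩]
    have h1 := hB (b + 1) (by omega)
    have h2 := hB (n + 1 - a) (by omega)
    rw [Nat.sub_self, brf_zero, mul_one]
    have h3 : brf q (b + 1) * brf q (n + 1 - a) / (brf q (b + 1) * brf q (n + 1 - a)) = 1 :=
      div_self (mul_ne_zero h1 h2)
    rw [h3, pow_zero, mul_one, mul_one]
    congr 2
    simp only [Nat.choose_zero_succ]
    push_cast
    ring
  have e2 : Ric q n a b b a = (-1) ^ n * q ^ (-((n : ℤ) * (n + 1) - n * (a + b) + 2 * a * b)) := by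
    rw [Ric, if_pos ⟨by omega, le_refl _, by omega⟩]
    have h1 := hB b (by omega)
    have h2 := hB (n - a) (by omega)
    rw [Nat.sub_self, brf_zero, mul_one]
    have h3 : brf q b * brf q (n - a) / (brf q b * brf q (n - a)) = 1 :=
      div_self (mul_ne_zero h1 h2)
    rw [h3, pow_zero, mul_one, mul_one]
    congr 2
    simp only [Nat.choose_zero_succ]
    push_cast
    ring
  rw [e1, e2, pow_succ]
  have h4 : q ^ ((a : ℤ) + n - b) *
      q ^ (-(((n : ℤ) + 1) * (n + 2) - (n + 1) * (a + b + 1) + 2 * a * (b + 1))) =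
      q⁻¹ * q ^ (-((n : ℤ) * (n + 1) - n * (a + b) + 2 * a * b)) := by
    rw [← _root_.zpow_neg_one, ← zpow_add₀ hq, ← zpow_add₀ hq]
    congr 1
    ring
  calc q ^ ((a : ℤ) + n - b) * ((-1) ^ n * -1 *
        q ^ (-(((n : ℤ) + 1) * (n + 2) - (n + 1) * (a + b + 1) + 2 * a * (b + 1))))
      = -((-1) ^ n) * (q ^ ((a : ℤ) + n - b) *
        q ^ (-(((n : ℤ) + 1) * (n + 2) - (n + 1) * (a + b + 1) + 2 * a * (b + 1)))) := by ring
    _ = _ := by rw [h4]; ring

/-- the general case, `b = c + k`, `d = a + k + 1`, `n = a + k + j` -/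
private theorem RiD_case1 (q : ℂ) (hq : q ≠ 0) (a c k j : ℕ) (hc : c ≤ a + j)
    (hB : ∀ i ≤ a + k + j + 1, brf q i ≠ 0) :
    q ^ ((a : ℤ) + (a + k + j : ℕ) - (c + k : ℕ)) *
        Ric q (a + k + j + 1) a (c + k + 1) c (a + k + 1) +
      -q⁻¹ * Ric q (a + k + j + 1) (a + 1) (c + k) c (a + k + 1) =
    q ^ ((c : ℤ) + (a + k + j : ℕ) - (a + k : ℕ)) * Ric q (a + k + j) a (c + k) c (a + k) +
      (if 1 ≤ c ∧ a + k + 1 ≤ a + k + j then
        -q⁻¹ * Ric q (a + k + j) a (c + k) (c - 1) (a + k + 1) else 0) := by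
  set G : ℂ := brf q (c + k) * brf q (k + j) / (brf q c * brf q (k + 1) * brf q j) with hG
  set E : ℤ := -(((a : ℤ) + k + j) * (a + k + j + 1) - (a + k + j) * (a + (c + k)) +
    2 * a * (c + k)) - 1 - ((k + 1).choose 2 : ℕ) with hE
  have hch : ((k + 1).choose 2 : ℕ) = k + k.choose 2 := by
    rw [Nat.choose_succ_succ', Nat.choose_one_right]
  have hBc := hB c (by omega)
  have hBk := hB k (by omega)
  have hBk1 := hB (k + 1) (by omega)
  have hBj := hB j (by omega)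
  have hbk : br q ((k : ℤ) + 1) ≠ 0 := by
    intro h
    apply hBk1
    rw [brf_succ, h, mul_zero]
  have e1 : q ^ ((a : ℤ) + (a + k + j : ℕ) - (c + k : ℕ)) *
      Ric q (a + k + j + 1) a (c + k + 1) c (a + k + 1) =
      (-1) ^ (a + k + j) * (-1) ^ k * q ^ E *
        (br q ((c : ℤ) + k + 1) * br q ((k : ℤ) + j + 1)) * G := by
    rw [Ric, if_pos ⟨by omega, by omega, by omega⟩]
    have t1 : c + k + 1 - c = k + 1 := by omega
    have t2 : a + k + j + 1 - a = (k + j) + 1 := by omega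
    have t3 : a + k + j + 1 - (a + k + 1) = j := by omega
    rw [t1, t2, t3, brf_succ q (c + k), brf_succ q (k + j), pow_succ, pow_succ _ k]
    have hz : q ^ ((a : ℤ) + (a + k + j : ℕ) - (c + k : ℕ)) *
        q ^ (-(((a + k + j + 1 : ℕ) : ℤ) * ((a + k + j + 1 : ℕ) + 1) -
          ((a + k + j + 1 : ℕ) : ℤ) * ((a : ℤ) + (c + k + 1 : ℕ)) +
          2 * a * (c + k + 1 : ℕ) + ((k + 1).choose 2 : ℕ))) = q ^ E := by
      rw [← zpow_add₀ hq]
      congr 1
      rw [hE]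
      push_cast
      ring
    rw [← hz, hG]
    push_cast
    ring
  have e2 : -q⁻¹ * Ric q (a + k + j + 1) (a + 1) (c + k) c (a + k + 1) =
      (-1) ^ (a + k + j) * (-1) ^ k * (q ^ E * q ^ (-((c : ℤ) + k + j + 1))) *
        br q ((k : ℤ) + 1) * G := by
    rw [Ric, if_pos ⟨by omega, by omega, by omega⟩]
    have t1 : c + k - c = k := by omega
    have t2 : a + k + j + 1 - (a + 1) = k + j := by omega
    have t3 : a + k + j + 1 - (a + k + 1) = j := by omega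
    rw [t1, t2, t3, pow_succ]
    have hz : q ^ E * q ^ (-((c : ℤ) + k + j + 1)) = q⁻¹ *
        q ^ (-(((a + k + j + 1 : ℕ) : ℤ) * ((a + k + j + 1 : ℕ) + 1) -
          ((a + k + j + 1 : ℕ) : ℤ) * (((a + 1 : ℕ) : ℤ) + (c + k : ℕ)) +
          2 * ((a + 1 : ℕ) : ℤ) * (c + k : ℕ) + (k.choose 2 : ℕ))) := by
      rw [← _root_.zpow_neg_one, ← zpow_add₀ hq, ← zpow_add₀ hq]
      congr 1
      rw [hE, hch]
      push_cast
      ring
    rw [hz, hG, brf_succ q k]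
    field_simp
  have e3 : q ^ ((c : ℤ) + (a + k + j : ℕ) - (a + k : ℕ)) *
      Ric q (a + k + j) a (c + k) c (a + k) =
      (-1) ^ (a + k + j) * (-1) ^ k * (q ^ E * q ^ ((c : ℤ) + k + j + 1)) *
        br q ((k : ℤ) + 1) * G := by
    rw [Ric, if_pos ⟨by omega, by omega, by omega⟩]
    have t1 : c + k - c = k := by omega
    have t2 : a + k + j - a = k + j := by omega
    have t3 : a + k + j - (a + k) = j := by omega
    rw [t1, t2, t3]
    have hz : q ^ E * q ^ ((c : ℤ) + k + j + 1) =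
        q ^ ((c : ℤ) + (a + k + j : ℕ) - (a + k : ℕ)) *
        q ^ (-(((a + k + j : ℕ) : ℤ) * ((a + k + j : ℕ) + 1) -
          ((a + k + j : ℕ) : ℤ) * ((a : ℤ) + (c + k : ℕ)) +
          2 * (a : ℤ) * (c + k : ℕ) + (k.choose 2 : ℕ))) := by
      rw [← zpow_add₀ hq, ← zpow_add₀ hq]
      congr 1
      rw [hE, hch]
      push_cast
      ring
    rw [hz, hG, brf_succ q k]
    field_simp
  have e4 : (if 1 ≤ c ∧ a + k + 1 ≤ a + k + j then
        -q⁻¹ * Ric q (a + k + j) a (c + k) (c - 1) (a + k + 1) else 0) =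
      (-1) ^ (a + k + j) * (-1) ^ k * q ^ E * (br q (c : ℤ) * br q (j : ℤ)) * G := by
    rcases Nat.eq_zero_or_pos c with h0 | h0
    · subst h0
      rw [if_neg (by omega)]
      simp [br_zero]
    rcases Nat.eq_zero_or_pos j with h1 | h1
    · subst h1
      rw [if_neg (by omega)]
      simp [br_zero]
    obtain ⟨c', rfl⟩ : ∃ c', c = c' + 1 := ⟨c - 1, by omega⟩
    obtain ⟨j', rfl⟩ : ∃ j', j = j' + 1 := ⟨j - 1, by omega⟩
    rw [if_pos ⟨by omega, by omega⟩, Ric, if_pos ⟨by omega, by omega, by omega⟩]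
    have t1 : c' + 1 + k - (c' + 1 - 1) = k + 1 := by omega
    have t2 : a + k + (j' + 1) - a = k + (j' + 1) := by omega
    have t3 : a + k + (j' + 1) - (a + k + 1) = j' := by omega
    rw [t1, t2, t3, Nat.add_sub_cancel, pow_succ _ k]
    have hc' : brf q c' ≠ 0 := hB c' (by omega)
    have hj' : brf q j' ≠ 0 := hB j' (by omega)
    have hbc : br q ((c' : ℤ) + 1) ≠ 0 := by
      intro h
      apply hBc
      rw [brf_succ, h, mul_zero]
    have hbj : br q ((j' : ℤ) + 1) ≠ 0 := by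
      intro h
      apply hBj
      rw [brf_succ, h, mul_zero]
    have hz : q ^ E = q⁻¹ *
        q ^ (-(((a + k + (j' + 1) : ℕ) : ℤ) * ((a + k + (j' + 1) : ℕ) + 1) -
          ((a + k + (j' + 1) : ℕ) : ℤ) * ((a : ℤ) + (c' + 1 + k : ℕ)) +
          2 * (a : ℤ) * (c' + 1 + k : ℕ) + ((k + 1).choose 2 : ℕ))) := by
      rw [← _root_.zpow_neg_one, ← zpow_add₀ hq]
      congr 1
      rw [hE]
      push_cast
      ring
    rw [hz, hG, brf_succ q c', brf_succ q j']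
    push_cast
    field_simp
  rw [e1, e2, e3, e4]
  have key : br q ((c : ℤ) + k + 1) * br q ((k : ℤ) + j + 1) +
      q ^ (-((c : ℤ) + k + j + 1)) * br q ((k : ℤ) + 1) =
      q ^ ((c : ℤ) + k + j + 1) * br q ((k : ℤ) + 1) + br q (c : ℤ) * br q (j : ℤ) := by
    have h6 : br q ((c : ℤ) + k + 1) * br q ((k : ℤ) + j + 1) - br q (c : ℤ) * br q (j : ℤ) =
        br q ((k : ℤ) + 1) * br q ((c : ℤ) + k + j + 1) := by
      have h7 := br_three_term q hq (-((c : ℤ) + k + 1)) (j : ℤ) ((k : ℤ) + 1)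
      rw [show -((c : ℤ) + k + 1) + ((k : ℤ) + 1) = -(c : ℤ) by ring,
        show -((c : ℤ) + k + 1) - (j : ℤ) = -((c : ℤ) + k + j + 1) by ring,
        show (j : ℤ) + ((k : ℤ) + 1) = (k : ℤ) + j + 1 by ring, br_neg, br_neg, br_neg] at h7
      linear_combination -h7
    have h9 : q ^ ((c : ℤ) + k + j + 1) - q ^ (-((c : ℤ) + k + j + 1)) =
        br q ((c : ℤ) + k + j + 1) := rfl
    linear_combination h6 - br q ((k : ℤ) + 1) * h9
  linear_combination ((-1) ^ (a + k + j) * (-1) ^ k * q ^ E * G) * key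

theorem RiM_DD (q : ℂ) (n : ℕ) (h : Gen q (n + 1)) :
    RiM q (n + 1) * DD q n = DD q n * RiM q n := by
  have hq := h.1
  have hB : ∀ k ≤ n + 1, brf q k ≠ 0 := fun k hk => h.brf_ne (by omega)
  ext x y
  rw [RiD_left, RiD_right]
  obtain ⟨⟨c, hc⟩, ⟨d, hd⟩⟩ := x
  obtain ⟨⟨a, ha⟩, ⟨b, hb⟩⟩ := y
  simp only
  by_cases hs : a + b + 1 = c + d
  · by_cases hcb : c ≤ b + 1
    · rcases Nat.lt_or_ge b c with hlt | hge
      · -- c = b + 1
        obtain rfl : c = b + 1 := by omega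
        obtain rfl : d = a := by omega
        have z1 : Ric q (n + 1) (d + 1) b (b + 1) d = 0 := by
          rw [Ric, if_neg (by omega)]
        have z2 : Ric q n d b (b + 1) (d - 1) = 0 := by
          rw [Ric, if_neg (by omega)]
        rw [z1, z2, mul_zero, add_zero, mul_zero, ite_self, zero_add,
          if_pos ⟨by omega, by omega⟩, Nat.add_sub_cancel]
        exact RiD_case0 q hq n d b (by omega) (by omega) hB
      · obtain ⟨k, rfl⟩ : ∃ k, b = c + k := ⟨b - c, by omega⟩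
        obtain rfl : d = a + k + 1 := by omega
        obtain ⟨j, rfl⟩ : ∃ j, n = a + k + j := ⟨n - a - k, by omega⟩
        rw [if_pos ⟨by omega, by omega⟩, Nat.add_sub_cancel]
        exact RiD_case1 q hq a c k j (by omega) hB
    · have z1 : Ric q (n + 1) a (b + 1) c d = 0 := by rw [Ric, if_neg (by omega)]
      have z2 : Ric q (n + 1) (a + 1) b c d = 0 := by rw [Ric, if_neg (by omega)]
      have z3 : Ric q n a b c (d - 1) = 0 := by rw [Ric, if_neg (by omega)]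
      have z4 : Ric q n a b (c - 1) d = 0 := by rw [Ric, if_neg (by omega)]
      rw [z1, z2, z3, z4]
      simp
  · have z1 : Ric q (n + 1) a (b + 1) c d = 0 := by rw [Ric, if_neg (by omega)]
    have z2 : Ric q (n + 1) (a + 1) b c d = 0 := by rw [Ric, if_neg (by omega)]
    rw [z1, z2, mul_zero, mul_zero, add_zero]
    symm
    have z3 : (if c ≤ n ∧ 1 ≤ d then
        q ^ ((c : ℤ) + n - (d - 1 : ℕ)) * Ric q n a b c (d - 1) else 0) = 0 := by
      split_ifs with h3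
      · rw [Ric, if_neg (by omega), mul_zero]
      · rfl
    have z4 : (if 1 ≤ c ∧ d ≤ n then -q⁻¹ * Ric q n a b (c - 1) d else 0) = 0 := by
      split_ifs with h4
      · rw [Ric, if_neg (by omega), mul_zero]
      · rfl
    rw [z3, z4, add_zero]

end Pool.Agent.H63.VC10

end

section

/-! # The positive crossing commutes with the insertion of a maximum -/

namespace Pool.Agent.H63.VC10

open Pool.Agent.H63.VC7 Matrix

private theorem RC_br (q : ℂ) (hq : q ≠ 0) (x y m : ℤ) :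
    br q x * br q y - br q (x - m) * br q (y - m) = br q m * br q (x + y - m) := by
  unfold br
  have e : ∀ a b : ℤ, q ^ (a + b) = q ^ a * q ^ b := fun a b => zpow_add₀ hq a b
  rw [show -(x - m) = -x + m by ring, show -(y - m) = -y + m by ring,
    show -(x + y - m) = -x + (-y + m) by ring, show x + y - m = x + (y + (-m)) by ring,
    show x - m = x + (-m) by ring, show y - m = y + (-m) by ring]
  simp only [e]
  have h3 : q ^ m * q ^ (-m) = 1 := by rw [← zpow_add₀ hq]; simp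
  linear_combination (q ^ x * q ^ (-y) + q ^ y * q ^ (-x) - q ^ x * q ^ y - q ^ (-x) * q ^ (-y)) * h3

/-- the two sums which occur in the matrix products -/
private theorem RC_sum1 (n : ℕ) (f : ℕ → ℕ → ℂ) (a b : ℕ) (K : ℂ) (hb : b ≤ n + 1)
    (hK : ¬ (a ≤ n ∧ 1 ≤ b) → K = 0) :
    ∑ z : I2 n, f z.1 z.2 * (if (z.1 : ℕ) = a ∧ (z.2 : ℕ) + 1 = b then K else 0) = f a (b - 1) * K := by
  by_cases h : a ≤ n ∧ 1 ≤ b
  · obtain ⟨h1, h2⟩ := h
    rw [Finset.sum_eq_single ((⟨a, by omega⟩, ⟨b - 1, by omega⟩) : I2 n)]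
    · rw [if_pos ⟨rfl, by simp; omega⟩]
    · rintro ⟨z1, z2⟩ _ hz
      rw [if_neg, mul_zero]
      rintro ⟨h3, h4⟩
      apply hz
      ext
      · exact h3
      · simp only at h4 ⊢
        omega
    · intro h'
      exact absurd (Finset.mem_univ _) h'
  · rw [hK h, mul_zero]
    refine Finset.sum_eq_zero fun z _ => ?_
    rw [ite_self, mul_zero]

private theorem RC_sum2 (n : ℕ) (f : ℕ → ℕ → ℂ) (a b : ℕ) (K : ℂ) (ha : a ≤ n + 1)
    (hK : ¬ (1 ≤ a ∧ b ≤ n) → K = 0) :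
    ∑ z : I2 n, f z.1 z.2 * (if (z.1 : ℕ) + 1 = a ∧ (z.2 : ℕ) = b then K else 0) = f (a - 1) b * K := by
  by_cases h : 1 ≤ a ∧ b ≤ n
  · obtain ⟨h1, h2⟩ := h
    rw [Finset.sum_eq_single ((⟨a - 1, by omega⟩, ⟨b, by omega⟩) : I2 n)]
    · rw [if_pos ⟨by simp; omega, rfl⟩]
    · rintro ⟨z1, z2⟩ _ hz
      rw [if_neg, mul_zero]
      rintro ⟨h3, h4⟩
      apply hz
      ext
      · simp only at h3 ⊢
        omega
      · exact h4
    · intro h'
      exact absurd (Finset.mem_univ _) h'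
  · rw [hK h, mul_zero]
    refine Finset.sum_eq_zero fun z _ => ?_
    rw [ite_self, mul_zero]

private theorem RC_right (q : ℂ) (n : ℕ) (x : I2 n) (y : I2 (n + 1)) :
    (RM q n * CC q n) x y =
      Rc q n y.1 (y.2 - 1) x.1 x.2 *
        (-q * (br q ((n : ℤ) + 1 - (y.1 : ℕ)) * br q ((y.2 : ℕ) : ℤ) / br q ((n : ℤ) + 1) ^ 2)) +
      Rc q n (y.1 - 1) y.2 x.1 x.2 * (q ^ (-((n : ℤ) + 1 - (y.1 : ℕ)) - (y.2 : ℕ)) *
        (br q ((y.1 : ℕ) : ℤ) * br q ((n : ℤ) + 1 - (y.2 : ℕ)) / br q ((n : ℤ) + 1) ^ 2)) := by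
  have h1 := y.1.2
  have h2 := y.2.2
  rw [Matrix.mul_apply]
  have h3 : ∀ z : I2 n, RM q n x z * CC q n z y =
      (fun i j => Rc q n i j x.1 x.2) z.1 z.2 * (if (z.1 : ℕ) = y.1 ∧ (z.2 : ℕ) + 1 = y.2 then
        -q * (br q ((n : ℤ) + 1 - (y.1 : ℕ)) * br q ((y.2 : ℕ) : ℤ) / br q ((n : ℤ) + 1) ^ 2) else 0) +
      (fun i j => Rc q n i j x.1 x.2) z.1 z.2 * (if (z.1 : ℕ) + 1 = y.1 ∧ (z.2 : ℕ) = y.2 then
        q ^ (-((n : ℤ) + 1 - (y.1 : ℕ)) - (y.2 : ℕ)) *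
          (br q ((y.1 : ℕ) : ℤ) * br q ((n : ℤ) + 1 - (y.2 : ℕ)) / br q ((n : ℤ) + 1) ^ 2) else 0) := by
    intro z
    rw [← mul_add]
    rfl
  have e1 := RC_sum1 n (fun i j => Rc q n i j x.1 x.2) y.1 y.2
    (-q * (br q ((n : ℤ) + 1 - (y.1 : ℕ)) * br q ((y.2 : ℕ) : ℤ) / br q ((n : ℤ) + 1) ^ 2)) (by omega) (by
      intro h
      rcases not_and_or.1 h with h | h
      · have h4 : (y.1 : ℕ) = n + 1 := by omega
        rw [h4]
        push_cast
        rw [sub_self, br_zero]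
        ring
      · have h4 : (y.2 : ℕ) = 0 := by omega
        rw [h4, Nat.cast_zero, br_zero]
        ring)
  have e2 := RC_sum2 n (fun i j => Rc q n i j x.1 x.2) y.1 y.2
    (q ^ (-((n : ℤ) + 1 - (y.1 : ℕ)) - (y.2 : ℕ)) *
      (br q ((y.1 : ℕ) : ℤ) * br q ((n : ℤ) + 1 - (y.2 : ℕ)) / br q ((n : ℤ) + 1) ^ 2)) (by omega) (by
      intro h
      rcases not_and_or.1 h with h | h
      · have h4 : (y.1 : ℕ) = 0 := by omega
        rw [h4, Nat.cast_zero, br_zero]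
        ring
      · have h4 : (y.2 : ℕ) = n + 1 := by omega
        rw [h4]
        push_cast
        rw [sub_self, br_zero]
        ring)
  rw [Finset.sum_congr rfl fun z _ => h3 z, Finset.sum_add_distrib, e1, e2]

private theorem RC_left (q : ℂ) (n : ℕ) (x : I2 n) (y : I2 (n + 1)) :
    (CC q n * RM q (n + 1)) x y =
      (-q * (br q ((n : ℤ) + 1 - (x.1 : ℕ)) * br q (((x.2 : ℕ) : ℤ) + 1) / br q ((n : ℤ) + 1) ^ 2)) *
        Rc q (n + 1) y.1 y.2 x.1 (x.2 + 1) +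
      (q ^ (-((n : ℤ) - (x.1 : ℕ)) - (x.2 : ℕ)) *
        (br q (((x.1 : ℕ) : ℤ) + 1) * br q ((n : ℤ) + 1 - (x.2 : ℕ)) / br q ((n : ℤ) + 1) ^ 2)) *
        Rc q (n + 1) y.1 y.2 (x.1 + 1) x.2 := by
  have h1 := x.1.2
  have h2 := x.2.2
  rw [Matrix.mul_apply]
  unfold CC RM
  simp only [add_mul, Finset.sum_add_distrib]
  congr 1
  · rw [Finset.sum_eq_single ((⟨x.1, by omega⟩, ⟨x.2 + 1, by omega⟩) : I2 (n + 1))]
    · rw [if_pos ⟨rfl, rfl⟩]
      push_cast
      rfl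
    · rintro ⟨z1, z2⟩ _ hz
      rw [if_neg, zero_mul]
      rintro ⟨h3, h4⟩
      apply hz
      ext
      · exact h3.symm
      · exact h4.symm
    · intro h'
      exact absurd (Finset.mem_univ _) h'
  · rw [Finset.sum_eq_single ((⟨x.1 + 1, by omega⟩, ⟨x.2, by omega⟩) : I2 (n + 1))]
    · rw [if_pos ⟨rfl, rfl⟩]
      push_cast
      rw [show -((n : ℤ) + 1 - ((x.1 : ℕ) + 1)) = -((n : ℤ) - (x.1 : ℕ)) by ring]
    · rintro ⟨z1, z2⟩ _ hz
      rw [if_neg, zero_mul]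
      rintro ⟨h3, h4⟩
      apply hz
      ext
      · exact h3.symm
      · exact h4.symm
    · intro h'
      exact absurd (Finset.mem_univ _) h'

/-- the case of equal indices -/
private theorem RC_zero (q : ℂ) (n c d : ℕ) (h : Gen q (n + 1)) (hc : c ≤ n) (hd : d ≤ n) :
    (-q * (br q ((n : ℤ) + 1 - (c : ℕ)) * br q ((d : ℤ) + 1) / br q ((n : ℤ) + 1) ^ 2)) *
        Rc q (n + 1) d (c + 1) c (d + 1) +
      (q ^ (-((n : ℤ) - (c : ℕ)) - (d : ℕ)) *
        (br q ((c : ℤ) + 1) * br q ((n : ℤ) + 1 - (d : ℕ)) / br q ((n : ℤ) + 1) ^ 2)) *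
        Rc q (n + 1) d (c + 1) (c + 1) d =
      Rc q n d (c + 1 - 1) c d *
        (-q * (br q ((n : ℤ) + 1 - (d : ℕ)) * br q ((c + 1 : ℕ) : ℤ) / br q ((n : ℤ) + 1) ^ 2)) +
      Rc q n (d - 1) (c + 1) c d * (q ^ (-((n : ℤ) + 1 - (d : ℕ)) - (c + 1 : ℕ)) *
        (br q ((d : ℕ) : ℤ) * br q ((n : ℤ) + 1 - (c + 1 : ℕ)) / br q ((n : ℤ) + 1) ^ 2)) := by
  obtain ⟨e, rfl⟩ : ∃ e, n = c + e := ⟨n - c, by omega⟩
  have hq := h.1
  have hd0 : brf q d ≠ 0 := h.brf_ne (by omega)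
  have he0 : brf q e ≠ 0 := h.brf_ne (by omega)
  have h00 : brf q 0 = 1 := brf_zero q
  have T1 : Rc q (c + e + 1) d (c + 1) c (d + 1) = 0 := by
    unfold Rc
    rw [if_neg]
    omega
  have T4 : Rc q (c + e) (d - 1) (c + 1) c d = 0 := by
    unfold Rc
    rw [if_neg]
    omega
  have T2 : Rc q (c + e + 1) d (c + 1) (c + 1) d = -((-1) ^ (c + e) *
      q ^ (((c + e : ℕ) : ℤ) * ((c + e : ℕ) + 1) - (c + e : ℕ) * (c + d) + 2 * c * d) * q ^ ((e : ℤ) + d + 1)) := by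
    unfold Rc
    rw [if_pos (by omega), show c + 1 - (c + 1) = 0 by omega, show c + e + 1 - (c + 1) = e by omega, h00]
    rw [pow_succ, mul_assoc ((-1 : ℂ) ^ (c + e)) (q ^ _) (q ^ _), ← zpow_add₀ hq]
    have h1 : brf q d * brf q e / (brf q d * 1 * brf q e) = 1 := by
      field_simp
    rw [h1]
    have h2 : (((c + e + 1 : ℕ) : ℤ) * ((c + e + 1 : ℕ) + 1) - (c + e + 1 : ℕ) * ((c + 1 : ℕ) + (d : ℕ)) +
        2 * (c + 1 : ℕ) * (d : ℕ) + ((0 : ℕ).choose 2 : ℕ)) =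
        ((c + e : ℕ) : ℤ) * ((c + e : ℕ) + 1) - (c + e : ℕ) * (c + d) + 2 * c * d + ((e : ℤ) + d + 1) := by
      simp only [Nat.choose_zero_succ]
      push_cast
      ring
    rw [h2]
    ring
  have T3 : Rc q (c + e) d (c + 1 - 1) c d = (-1) ^ (c + e) *
      q ^ (((c + e : ℕ) : ℤ) * ((c + e : ℕ) + 1) - (c + e : ℕ) * (c + d) + 2 * c * d) := by
    unfold Rc
    rw [if_pos (by omega), show c - (c + 1 - 1) = 0 by omega, show c + e - (c + 1 - 1) = e by omega,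
      show c + e - c = e by omega, h00]
    have h1 : brf q d * brf q e / (brf q d * 1 * brf q e) = 1 := by
      field_simp
    rw [h1, mul_one]
    congr 2
    simp
  rw [T1, T2, T3, T4]
  have h5 : q ^ (-(((c + e : ℕ) : ℤ) - (c : ℕ)) - (d : ℕ)) * q ^ ((e : ℤ) + d + 1) = q := by
    rw [← zpow_add₀ hq]
    have : -(((c + e : ℕ) : ℤ) - (c : ℕ)) - (d : ℕ) + ((e : ℤ) + d + 1) = 1 := by
      push_cast
      ring
    rw [this, zpow_one]
  push_cast at h5 ⊢
  linear_combination (-(br q ((c : ℤ) + 1) * br q ((c : ℤ) + e + 1 - d) / br q ((c : ℤ) + e + 1) ^ 2) *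
    ((-1) ^ (c + e) * q ^ (((c : ℤ) + e) * (c + e + 1) - (c + e) * (c + d) + 2 * c * d))) * h5

/-- the general case -/
private theorem RC_succ (q : ℂ) (b m e d : ℕ) (h : Gen q (b + m + e + 1)) (hd : d + m ≤ b + m + e) :
    (-q * (br q (((b + m + e : ℕ) : ℤ) + 1 - (b + m : ℕ)) * br q ((d : ℤ) + 1) /
          br q (((b + m + e : ℕ) : ℤ) + 1) ^ 2)) *
        Rc q (b + m + e + 1) (d + m + 1) b (b + m) (d + 1) +
      (q ^ (-(((b + m + e : ℕ) : ℤ) - (b + m : ℕ)) - (d : ℕ)) *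
        (br q (((b + m : ℕ) : ℤ) + 1) * br q (((b + m + e : ℕ) : ℤ) + 1 - (d : ℕ)) /
          br q (((b + m + e : ℕ) : ℤ) + 1) ^ 2)) *
        Rc q (b + m + e + 1) (d + m + 1) b (b + m + 1) d =
      Rc q (b + m + e) (d + m + 1) (b - 1) (b + m) d *
        (-q * (br q (((b + m + e : ℕ) : ℤ) + 1 - (d + m + 1 : ℕ)) * br q ((b : ℕ) : ℤ) /
          br q (((b + m + e : ℕ) : ℤ) + 1) ^ 2)) +
      Rc q (b + m + e) (d + m + 1 - 1) b (b + m) d *
        (q ^ (-(((b + m + e : ℕ) : ℤ) + 1 - (d + m + 1 : ℕ)) - (b : ℕ)) *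
        (br q ((d + m + 1 : ℕ) : ℤ) * br q (((b + m + e : ℕ) : ℤ) + 1 - (b : ℕ)) /
          br q (((b + m + e : ℕ) : ℤ) + 1) ^ 2)) := by
  have hq := h.1
  have hd0 : brf q d ≠ 0 := h.brf_ne (by omega)
  have he0 : brf q e ≠ 0 := h.brf_ne (by omega)
  have hm0 : brf q m ≠ 0 := h.brf_ne (by omega)
  have hm1 : br q ((m : ℤ) + 1) ≠ 0 := h.ne (by omega) (by push_cast; omega)
  have hd1 : br q ((d : ℤ) + 1) ≠ 0 := h.ne (by omega) (by push_cast; omega)
  have he1 : br q ((e : ℤ) + 1) ≠ 0 := h.ne (by omega) (by push_cast; omega)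
  -- the common factor
  set Z : ℤ := ((b + m + e : ℕ) : ℤ) * ((b + m + e : ℕ) + 1) - (b + m + e : ℕ) * ((b + m : ℕ) + d) +
    2 * (b + m : ℕ) * d with hZ
  set κ : ℤ := ((m.choose 2 : ℕ) : ℤ) with hκ
  have hκ1 : (((m + 1).choose 2 : ℕ) : ℤ) = κ + m := by
    rw [Nat.choose_succ_succ' m 1, Nat.choose_one_right]
    push_cast
    ring
  set G : ℂ := (-1) ^ (b + m + e) * q ^ Z *
    (brf q (d + m + 1) * brf q (m + e + 1) / (brf q d * brf q (m + 1) * brf q e)) with hG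
  have T1 : br q ((e : ℤ) + 1) * br q ((d : ℤ) + 1) * Rc q (b + m + e + 1) (d + m + 1) b (b + m) (d + 1) =
      -(G * (q ^ ((b : ℤ) + m + e + 1 + (b + m) - d + κ) * br q ((m : ℤ) + 1))) := by
    unfold Rc
    rw [if_pos (by omega), show b + m - b = m by omega, show b + m + e + 1 - b = m + e + 1 by omega,
      show b + m + e + 1 - (b + m) = e + 1 by omega, hG, pow_succ]
    have h1 : ((b + m + e + 1 : ℕ) : ℤ) * ((b + m + e + 1 : ℕ) + 1) -
        (b + m + e + 1 : ℕ) * ((b + m : ℕ) + (d + 1 : ℕ)) + 2 * (b + m : ℕ) * (d + 1 : ℕ) +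
        ((m.choose 2 : ℕ) : ℤ) = Z + ((b : ℤ) + m + e + 1 + (b + m) - d + κ) := by
      rw [hZ, hκ]
      push_cast
      ring
    rw [h1, zpow_add₀ hq, brf_succ q d, brf_succ q e, brf_succ q m]
    field_simp
  have T2 : Rc q (b + m + e + 1) (d + m + 1) b (b + m + 1) d =
      -(G * q ^ ((b : ℤ) + m + e + 1 - (b + m) + d + (κ + m))) := by
    unfold Rc
    rw [if_pos (by omega), show b + m + 1 - b = m + 1 by omega, show b + m + e + 1 - b = m + e + 1 by omega,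
      show b + m + e + 1 - (b + m + 1) = e by omega, hG, pow_succ, hκ1]
    have h1 : ((b + m + e + 1 : ℕ) : ℤ) * ((b + m + e + 1 : ℕ) + 1) -
        (b + m + e + 1 : ℕ) * ((b + m + 1 : ℕ) + (d : ℕ)) + 2 * (b + m + 1 : ℕ) * (d : ℕ) +
        (κ + m) = Z + ((b : ℤ) + m + e + 1 - (b + m) + d + (κ + m)) := by
      rw [hZ]
      push_cast
      ring
    rw [h1, zpow_add₀ hq]
    ring
  have T3 : Rc q (b + m + e) (d + m + 1) (b - 1) (b + m) d * br q ((b : ℕ) : ℤ) =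
      G * q ^ (κ + m) * br q ((b : ℕ) : ℤ) := by
    rcases Nat.eq_zero_or_pos b with hb | hb
    · rw [hb, Nat.cast_zero, br_zero, mul_zero, mul_zero]
    · congr 1
      unfold Rc
      rw [if_pos (by omega), show b + m - (b - 1) = m + 1 by omega,
        show b + m + e - (b - 1) = m + e + 1 by omega, show b + m + e - (b + m) = e by omega, hG, hκ1]
      have h1 : ((b + m + e : ℕ) : ℤ) * ((b + m + e : ℕ) + 1) -
          (b + m + e : ℕ) * ((b + m : ℕ) + (d : ℕ)) + 2 * (b + m : ℕ) * (d : ℕ) +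
          (κ + m) = Z + (κ + m) := by
        rw [hZ]
      rw [h1, zpow_add₀ hq]
      ring
  have T4 : Rc q (b + m + e) (d + m + 1 - 1) b (b + m) d * (br q ((d + m + 1 : ℕ) : ℤ) *
      br q ((m : ℤ) + e + 1)) = G * (q ^ κ * br q ((m : ℤ) + 1)) := by
    unfold Rc
    rw [if_pos (by omega), show b + m - b = m by omega, show b + m + e - b = m + e by omega,
      show b + m + e - (b + m) = e by omega, show d + m + 1 - 1 = d + m by omega, hG]
    have h1 : ((b + m + e : ℕ) : ℤ) * ((b + m + e : ℕ) + 1) -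
          (b + m + e : ℕ) * ((b + m : ℕ) + (d : ℕ)) + 2 * (b + m : ℕ) * (d : ℕ) +
          ((m.choose 2 : ℕ) : ℤ) = Z + κ := by
      rw [hZ, hκ]
    rw [h1, zpow_add₀ hq, brf_succ q (d + m), brf_succ q (m + e), brf_succ q m]
    push_cast
    field_simp
  have e1 : ((b + m + e : ℕ) : ℤ) + 1 - (b + m : ℕ) = (e : ℤ) + 1 := by push_cast; ring
  have e2 : ((b + m + e : ℕ) : ℤ) + 1 - (b : ℕ) = (m : ℤ) + e + 1 := by push_cast; ring
  rw [e1, e2]
  have hid : br q (((b + m + e : ℕ) : ℤ) + 1 - (d : ℕ)) * br q (((b + m : ℕ) : ℤ) + 1) -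
      br q (((b + m + e : ℕ) : ℤ) + 1 - (d + m + 1 : ℕ)) * br q ((b : ℕ) : ℤ) =
      br q ((m : ℤ) + 1) * (q ^ (2 * (b : ℤ) + m + e + 1 - d) - q ^ (-(2 * (b : ℤ) + m + e + 1 - d))) := by
    have h1 := RC_br q hq (((b + m + e : ℕ) : ℤ) + 1 - (d : ℕ)) (((b + m : ℕ) : ℤ) + 1) ((m : ℤ) + 1)
    have h2 : ((b + m + e : ℕ) : ℤ) + 1 - (d : ℕ) - ((m : ℤ) + 1) =
        ((b + m + e : ℕ) : ℤ) + 1 - (d + m + 1 : ℕ) := by push_cast; ring
    have h3 : ((b + m : ℕ) : ℤ) + 1 - ((m : ℤ) + 1) = ((b : ℕ) : ℤ) := by push_cast; ring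
    have h4 : ((b + m + e : ℕ) : ℤ) + 1 - (d : ℕ) + (((b + m : ℕ) : ℤ) + 1) - ((m : ℤ) + 1) =
        2 * (b : ℤ) + m + e + 1 - d := by push_cast; ring
    rw [h2, h3, h4] at h1
    exact h1
  have w1 : q * q ^ ((b : ℤ) + m + e + 1 + (b + m) - d + κ) =
      q ^ (κ + m + 1) * q ^ (2 * (b : ℤ) + m + e + 1 - d) := by
    rw [← zpow_one_add₀ hq, ← zpow_add₀ hq]
    congr 1
    ring
  have w2 : q ^ (-(((b + m + e : ℕ) : ℤ) - (b + m : ℕ)) - (d : ℕ)) *
      q ^ ((b : ℤ) + m + e + 1 - (b + m) + d + (κ + m)) = q ^ (κ + m + 1) := by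
    rw [← zpow_add₀ hq]
    congr 1
    push_cast
    ring
  have w3 : q * q ^ (κ + m) = q ^ (κ + m + 1) := by
    rw [← zpow_one_add₀ hq]
    congr 1
    ring
  have w4 : q ^ (-(((b + m + e : ℕ) : ℤ) + 1 - (d + m + 1 : ℕ)) - (b : ℕ)) * q ^ κ =
      q ^ (κ + m + 1) * q ^ (-(2 * (b : ℤ) + m + e + 1 - d)) := by
    rw [← zpow_add₀ hq, ← zpow_add₀ hq]
    congr 1
    push_cast
    ring
  generalize br q (((b + m + e : ℕ) : ℤ) + 1) ^ 2 = D
  generalize br q (((b + m + e : ℕ) : ℤ) + 1 - (d + m + 1 : ℕ)) = B3 at *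
  generalize br q (((b + m + e : ℕ) : ℤ) + 1 - (d : ℕ)) = B2 at *
  generalize br q (((b + m : ℕ) : ℤ) + 1) = B1 at *
  generalize q ^ (-(((b + m + e : ℕ) : ℤ) - (b + m : ℕ)) - (d : ℕ)) = Q1 at *
  generalize q ^ (-(((b + m + e : ℕ) : ℤ) + 1 - (d + m + 1 : ℕ)) - (b : ℕ)) = Q2 at *
  generalize q ^ (κ + m + 1) = R at *
  generalize q ^ (2 * (b : ℤ) + m + e + 1 - d) = S1 at *
  generalize q ^ (-(2 * (b : ℤ) + m + e + 1 - d)) = S2 at *
  linear_combination (-q / D) * T1 + (Q1 * (B1 * B2 / D)) * T2 + (q * B3 / D) * T3 - (Q2 / D) * T4 +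
    (G / D * br q ((m : ℤ) + 1)) * w1 - (G / D * (B1 * B2)) * w2 +
    (G / D * (B3 * br q ((b : ℕ) : ℤ))) * w3 - (G / D * br q ((m : ℤ) + 1)) * w4 - (G / D * R) * hid

theorem CC_RM (q : ℂ) (n : ℕ) (h : Gen q (n + 1)) :
    CC q n * RM q (n + 1) = RM q n * CC q n := by
  ext x y
  rw [RC_left, RC_right]
  have hx1 := x.1.2
  have hx2 := x.2.2
  have hy1 := y.1.2
  have hy2 := y.2.2
  generalize (x.1 : ℕ) = c at *
  generalize (x.2 : ℕ) = d at *
  generalize (y.1 : ℕ) = a at *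
  generalize (y.2 : ℕ) = b at *
  by_cases hab : a + b = c + d + 1 ∧ b ≤ c + 1
  · obtain ⟨h1, h2⟩ := hab
    rcases Nat.lt_or_ge c b with h3 | h3
    · obtain rfl : b = c + 1 := by omega
      obtain rfl : a = d := by omega
      exact RC_zero q n c a h (by omega) (by omega)
    · obtain ⟨m, rfl⟩ : ∃ m, c = b + m := ⟨c - b, by omega⟩
      obtain ⟨e, rfl⟩ : ∃ e, n = b + m + e := ⟨n - (b + m), by omega⟩
      obtain rfl : a = d + m + 1 := by omega
      exact RC_succ q b m e d h (by omega)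
  · have z1 : Rc q (n + 1) a b c (d + 1) = 0 := by
      unfold Rc
      rw [if_neg]
      omega
    have z2 : Rc q (n + 1) a b (c + 1) d = 0 := by
      unfold Rc
      rw [if_neg]
      omega
    rw [z1, z2, mul_zero, mul_zero, add_zero]
    have z3 : Rc q n a (b - 1) c d * br q ((b : ℕ) : ℤ) = 0 := by
      rcases Nat.eq_zero_or_pos b with hb | hb
      · rw [hb, Nat.cast_zero, br_zero, mul_zero]
      · unfold Rc
        rw [if_neg, zero_mul]
        omega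
    have z4 : Rc q n (a - 1) b c d * br q ((a : ℕ) : ℤ) = 0 := by
      rcases Nat.eq_zero_or_pos a with ha | ha
      · rw [ha, Nat.cast_zero, br_zero, mul_zero]
      · unfold Rc
        rw [if_neg, zero_mul]
        omega
    linear_combination (q * (br q ((n : ℤ) + 1 - (a : ℕ)) / br q ((n : ℤ) + 1) ^ 2)) * z3 -
      (q ^ (-((n : ℤ) + 1 - (a : ℕ)) - (b : ℕ)) * (br q ((n : ℤ) + 1 - (b : ℕ)) /
        br q ((n : ℤ) + 1) ^ 2)) * z4

end Pool.Agent.H63.VC10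

end
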