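import Pool.Agent.H94.PA.M02

/-! The parts of this file: H63.VC10.CDrel, H63.VC10.OhMul, H63.VC10.Exact, H63.VC10.Tr, H63.VC10.Acts, H63.VC10.Ker. -/

section

/-! # The relation between `CC` and `DD` -/

namespace Pool.Agent.H63.VC10

open Pool.Agent.H63.VC7 Matrix

theorem CDrel_sum (n p r : ℕ) (g : I2 n → ℂ) :
    ∑ y : I2 n, (if p = (y.1 : ℕ) ∧ r = (y.2 : ℕ) then g y else 0) =
      if h : p < n + 1 ∧ r < n + 1 then g (⟨p, h.1⟩, ⟨r, h.2⟩) else 0 := by
  split_ifs with h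
  · rw [Finset.sum_eq_single (⟨p, h.1⟩, ⟨r, h.2⟩)]
    · simp
    · rintro ⟨y1, y2⟩ _ hy
      rw [if_neg]
      rintro ⟨h1, h2⟩
      apply hy
      simp only at h1 h2
      subst h1 h2
      rfl
    · intro h'
      exact absurd (Finset.mem_univ _) h'
  · refine Finset.sum_eq_zero fun y _ => ?_
    rw [if_neg]
    rintro ⟨h1, h2⟩
    apply h
    rw [h1, h2]
    exact ⟨y.1.2, y.2.2⟩

theorem CDrel_z (q : ℂ) (hq : q ≠ 0) (a b c : ℤ) (h : a + b = c) : q ^ a * q ^ b = q ^ c := by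
  rw [← zpow_add₀ hq, h]

theorem CDrel_z1 (q : ℂ) (hq : q ≠ 0) (a c : ℤ) (h : a + 1 = c) : q * q ^ a = q ^ c := by
  rw [← h, zpow_add₀ hq, zpow_one, mul_comm]

theorem CDrel_zi (q : ℂ) (hq : q ≠ 0) (a c : ℤ) (h : a - 1 = c) : q⁻¹ * q ^ a = q ^ c := by
  rw [← h, zpow_sub₀ hq, zpow_one]; ring

/-- the entries of `CC m * DD m` -/
theorem CDrel_CD (q : ℂ) (hq : q ≠ 0) (m a b c d : ℕ) (ha : a < m + 1) (hb : b < m + 1) (hc : c < m + 1)
    (hd : d < m + 1) :
    (CC q m * DD q m) (⟨a, ha⟩, ⟨b, hb⟩) (⟨c, hc⟩, ⟨d, hd⟩) =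
      ((if a = c ∧ b = d then -(q ^ ((a : ℤ) - b + m + 1) * (br q ((m : ℤ) + 1 - a) * br q ((b : ℤ) + 1)) +
          q ^ ((a : ℤ) - b - m - 1) * (br q ((a : ℤ) + 1) * br q ((m : ℤ) + 1 - b))) else 0) +
        (if a = c + 1 ∧ b + 1 = d then br q ((m : ℤ) + 1 - a) * br q ((b : ℤ) + 1) else 0) +
        (if a + 1 = c ∧ b = d + 1 then q ^ (2 * (a : ℤ) - 2 * b + 2) *
          (br q ((a : ℤ) + 1) * br q ((m : ℤ) + 1 - b)) else 0)) / br q ((m : ℤ) + 1) ^ 2 := by
  rw [Matrix.mul_apply]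
  simp only [CC, add_mul, ite_mul, zero_mul, Finset.sum_add_distrib]
  rw [CDrel_sum (m + 1) a (b + 1), CDrel_sum (m + 1) (a + 1) b, dif_pos ⟨by omega, by omega⟩,
    dif_pos ⟨by omega, by omega⟩]
  simp only [DD]
  have e1 : ((a + 1 : ℕ) : ℤ) = (a : ℤ) + 1 := by push_cast; rfl
  have e2 : ((b + 1 : ℕ) : ℤ) = (b : ℤ) + 1 := by push_cast; rfl
  simp only [e1, e2]
  rcases eq_or_ne a c with h1 | h1
  · subst h1
    rcases eq_or_ne b d with h2 | h2
    · subst h2
      rw [if_pos ⟨rfl, rfl⟩, if_neg (by omega), if_neg (by omega), if_pos ⟨rfl, rfl⟩, if_pos ⟨rfl, rfl⟩,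
        if_neg (by omega), if_neg (by omega)]
      have z1 := CDrel_z1 q hq ((a : ℤ) + m - b) ((a : ℤ) - b + m + 1) (by ring)
      have z2 := CDrel_zi q hq (-((m : ℤ) + 1 - (a + 1)) - b) ((a : ℤ) - b - m - 1) (by ring)
      rw [← z1, ← z2]
      ring
    · rw [if_neg (by omega), if_neg (by omega), if_neg (by omega), if_neg (by omega), if_neg (by omega),
        if_neg (by omega), if_neg (by omega)]
      ring
  · rcases eq_or_ne a (c + 1) with h2 | h2
    · rcases eq_or_ne (b + 1) d with h3 | h3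
      · rw [if_neg (by omega), if_pos ⟨h2, h3⟩, if_neg (by omega), if_neg (by omega), if_neg (by omega),
          if_pos ⟨h2, h3⟩, if_neg (by omega)]
        have : q * q⁻¹ = 1 := mul_inv_cancel₀ hq
        linear_combination (br q ((m : ℤ) + 1 - a) * br q ((b : ℤ) + 1) / br q ((m : ℤ) + 1) ^ 2) * this
      · rw [if_neg (by omega), if_neg (by omega), if_neg (by omega), if_neg (by omega), if_neg (by omega),
          if_neg (by omega), if_neg (by omega)]
        ring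
    · by_cases h3 : a + 1 = c ∧ b = d + 1
      · rw [if_neg (by omega), if_neg (by omega), if_pos h3, if_neg (by omega), if_neg (by omega),
          if_neg (by omega), if_pos h3]
        obtain ⟨h3, h4⟩ := h3
        subst h3 h4
        have z1 := CDrel_z q hq (-((m : ℤ) + 1 - (a + 1)) - ((d + 1 : ℕ) : ℤ)) (((a + 1 : ℕ) : ℤ) + m - d)
          (2 * (a : ℤ) - 2 * ((d + 1 : ℕ) : ℤ) + 2) (by push_cast; ring)
        rw [← z1]
        ring
      · rw [if_neg (by omega), if_neg (by omega), if_neg h3, if_neg (by omega), if_neg (by omega),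
          if_neg (by omega), if_neg h3]
        ring

theorem CDrel_S1 (q : ℂ) (hq : q ≠ 0) (m a b c d : ℕ) (ha : a < m + 2) (hb : b < m + 2) (hc : c < m + 2)
    (hd : d < m + 2) :
    ∑ y : I2 m, (if a = (y.1 : ℕ) ∧ b = (y.2 : ℕ) + 1 then
        q ^ (((y.1 : ℕ) : ℤ) + m - (y.2 : ℕ)) * CC q m y (⟨c, hc⟩, ⟨d, hd⟩) else 0) =
      ((if a = c ∧ b = d then -(q ^ ((a : ℤ) - b + m + 2) * (br q ((m : ℤ) + 1 - a) * br q (b : ℤ))) else 0) +
        (if a + 1 = c ∧ b = d + 1 then q ^ (2 * (a : ℤ) - 2 * b + 2) *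
          (br q ((a : ℤ) + 1) * br q ((m : ℤ) + 2 - b)) else 0)) / br q ((m : ℤ) + 1) ^ 2 := by
  rcases b with _ | b
  · rw [Finset.sum_eq_zero fun y _ => if_neg (by omega), if_neg (by omega : ¬ (a + 1 = c ∧ 0 = d + 1))]
    have : br q ((0 : ℕ) : ℤ) = 0 := by rw [Nat.cast_zero]; exact br_zero q
    rw [this]
    simp
  · simp only [Nat.add_right_cancel_iff]
    rw [CDrel_sum m a b]
    by_cases h : a < m + 1
    · rw [dif_pos ⟨h, by omega⟩]
      simp only [CC]
      by_cases h1 : a = c ∧ b + 1 = d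
      · rw [if_pos h1, if_neg (by omega), if_pos h1, if_neg (by omega)]
        obtain ⟨h1, h2⟩ := h1
        subst h1 h2
        have z1 := CDrel_z1 q hq ((a : ℤ) + m - b) ((a : ℤ) - ((b + 1 : ℕ) : ℤ) + m + 2) (by push_cast; ring)
        rw [← z1]
        ring
      · rw [if_neg h1, if_neg h1]
        by_cases h2 : a + 1 = c ∧ b = d
        · rw [if_pos h2, if_pos (by omega)]
          obtain ⟨h1, h2⟩ := h2
          subst h1 h2
          have z1 := CDrel_z q hq ((a : ℤ) + m - b) (-((m : ℤ) + 1 - ((a + 1 : ℕ) : ℤ)) - (b : ℤ))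
            (2 * (a : ℤ) - 2 * ((b + 1 : ℕ) : ℤ) + 2) (by push_cast; ring)
          have z2 : (m : ℤ) + 2 - ((b + 1 : ℕ) : ℤ) = (m : ℤ) + 1 - b := by push_cast; ring
          have z3 : ((a + 1 : ℕ) : ℤ) = (a : ℤ) + 1 := by push_cast; rfl
          rw [← z1, z2, z3]
          ring
        · rw [if_neg h2, if_neg (by omega)]
          ring
    · rw [dif_neg (by omega), if_neg (by omega : ¬ (a + 1 = c ∧ b = d))]
      have : (m : ℤ) + 1 - a = 0 := by omega
      rw [this, br_zero]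
      simp

theorem CDrel_S2 (q : ℂ) (hq : q ≠ 0) (m a b c d : ℕ) (ha : a < m + 2) (hb : b < m + 2) (hc : c < m + 2)
    (hd : d < m + 2) :
    ∑ y : I2 m, (if a = (y.1 : ℕ) + 1 ∧ b = (y.2 : ℕ) then
        -q⁻¹ * CC q m y (⟨c, hc⟩, ⟨d, hd⟩) else 0) =
      ((if a = c ∧ b = d then -(q ^ ((a : ℤ) - b - m - 2) * (br q (a : ℤ) * br q ((m : ℤ) + 1 - b))) else 0) +
        (if a = c + 1 ∧ b + 1 = d then br q ((m : ℤ) + 2 - a) * br q ((b : ℤ) + 1) else 0)) /
          br q ((m : ℤ) + 1) ^ 2 := by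
  rcases a with _ | a
  · rw [Finset.sum_eq_zero fun y _ => if_neg (by omega), if_neg (by omega : ¬ (0 = c + 1 ∧ b + 1 = d))]
    have : br q ((0 : ℕ) : ℤ) = 0 := by rw [Nat.cast_zero]; exact br_zero q
    rw [this]
    simp
  · simp only [Nat.add_right_cancel_iff]
    rw [CDrel_sum m a b]
    by_cases h : b < m + 1
    · rw [dif_pos ⟨by omega, h⟩]
      simp only [CC]
      by_cases h1 : a = c ∧ b + 1 = d
      · rw [if_pos h1, if_neg (by omega), if_neg (by omega), if_pos h1]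
        obtain ⟨h1, h2⟩ := h1
        subst h1 h2
        have z2 : (m : ℤ) + 2 - ((a + 1 : ℕ) : ℤ) = (m : ℤ) + 1 - a := by push_cast; ring
        have z3 : ((b + 1 : ℕ) : ℤ) = (b : ℤ) + 1 := by push_cast; rfl
        rw [z2, z3]
        have : q * q⁻¹ = 1 := mul_inv_cancel₀ hq
        linear_combination (br q ((m : ℤ) + 1 - a) * br q ((b : ℤ) + 1) / br q ((m : ℤ) + 1) ^ 2) * this
      · rw [if_neg h1, if_neg h1]
        by_cases h2 : a + 1 = c ∧ b = d
        · rw [if_pos h2, if_pos h2]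
          obtain ⟨h1, h2⟩ := h2
          subst h1 h2
          have z1 := CDrel_zi q hq (-((m : ℤ) + 1 - ((a + 1 : ℕ) : ℤ)) - (b : ℤ))
            (((a + 1 : ℕ) : ℤ) - b - m - 2) (by push_cast; ring)
          rw [← z1]
          ring
        · rw [if_neg h2, if_neg h2]
          ring
    · rw [dif_neg (by omega), if_neg (by omega : ¬ (a = c ∧ b + 1 = d))]
      have : (m : ℤ) + 1 - b = 0 := by omega
      rw [this, br_zero]
      simp

/-- the entries of `DD m * CC m` -/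
theorem CDrel_DC (q : ℂ) (hq : q ≠ 0) (m a b c d : ℕ) (ha : a < m + 2) (hb : b < m + 2) (hc : c < m + 2)
    (hd : d < m + 2) :
    (DD q m * CC q m) (⟨a, ha⟩, ⟨b, hb⟩) (⟨c, hc⟩, ⟨d, hd⟩) =
      ((if a = c ∧ b = d then -(q ^ ((a : ℤ) - b + m + 2) * (br q ((m : ℤ) + 1 - a) * br q (b : ℤ)) +
          q ^ ((a : ℤ) - b - m - 2) * (br q (a : ℤ) * br q ((m : ℤ) + 1 - b))) else 0) +
        (if a = c + 1 ∧ b + 1 = d then br q ((m : ℤ) + 2 - a) * br q ((b : ℤ) + 1) else 0) +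
        (if a + 1 = c ∧ b = d + 1 then q ^ (2 * (a : ℤ) - 2 * b + 2) *
          (br q ((a : ℤ) + 1) * br q ((m : ℤ) + 2 - b)) else 0)) / br q ((m : ℤ) + 1) ^ 2 := by
  rw [Matrix.mul_apply]
  simp only [DD, add_mul, ite_mul, zero_mul, Finset.sum_add_distrib]
  rw [CDrel_S1 q hq m a b c d ha hb hc hd, CDrel_S2 q hq m a b c d ha hb hc hd]
  by_cases h1 : a = c ∧ b = d
  · rw [if_pos h1, if_pos h1, if_pos h1]
    ring
  · rw [if_neg h1, if_neg h1, if_neg h1]
    ring

theorem CDrel_diag (q : ℂ) (hq : q ≠ 0) (k m : ℤ) :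
    q ^ (k + m) * br q (m - k) + q ^ (k - m) * br q (m + k) = br q (2 * m) := by
  unfold br
  rw [mul_sub, mul_sub, ← zpow_add₀ hq, ← zpow_add₀ hq, ← zpow_add₀ hq, ← zpow_add₀ hq]
  rw [show k + m + (m - k) = 2 * m by ring, show k + m + -(m - k) = 2 * k by ring,
    show k - m + (m + k) = 2 * k by ring, show k - m + -(m + k) = -(2 * m) by ring]
  ring

theorem CD_zero (q : ℂ) (h : Gen q 0) : CC q 0 * DD q 0 = (-(br q 2 / br q 1)) • 1 := by
  have hq : q ≠ 0 := h.1
  have h1 : br q 1 ≠ 0 := h.ne (by norm_num) (by norm_num)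
  ext ⟨⟨a, ha⟩, ⟨b, hb⟩⟩ ⟨⟨c, hc⟩, ⟨d, hd⟩⟩
  rw [CDrel_CD q hq 0 a b c d ha hb hc hd]
  obtain rfl : a = 0 := by omega
  obtain rfl : b = 0 := by omega
  obtain rfl : c = 0 := by omega
  obtain rfl : d = 0 := by omega
  have h2 := CDrel_diag q hq 0 1
  rw [if_pos ⟨rfl, rfl⟩, if_neg (by omega), if_neg (by omega)]
  simp only [Matrix.smul_apply, Matrix.one_apply_eq, smul_eq_mul]
  norm_num at h2 ⊢
  rw [← h2]
  field_simp
  ring

theorem CD_succ (q : ℂ) (n : ℕ) (h : Gen q (n + 2)) :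
    CC q (n + 1) * DD q (n + 1) =
      (br q ((n : ℤ) + 1) ^ 2 / br q ((n : ℤ) + 2) ^ 2) • (DD q n * CC q n) -
        (br q (2 * (n : ℤ) + 4) * br q 1 / br q ((n : ℤ) + 2) ^ 2) • 1 := by
  have hq : q ≠ 0 := h.1
  have h1 : br q ((n : ℤ) + 1) ≠ 0 := h.ne (by omega) (by push_cast; omega)
  have h2 : br q ((n : ℤ) + 2) ≠ 0 := h.ne (by omega) (by push_cast; omega)
  ext ⟨⟨a, ha⟩, ⟨b, hb⟩⟩ ⟨⟨c, hc⟩, ⟨d, hd⟩⟩
  simp only [Matrix.sub_apply, Matrix.smul_apply, smul_eq_mul]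
  rw [CDrel_CD q hq (n + 1) a b c d ha hb hc hd, CDrel_DC q hq n a b c d ha hb hc hd]
  have e1 : ((n + 1 : ℕ) : ℤ) = (n : ℤ) + 1 := by push_cast; rfl
  rw [e1, show (n : ℤ) + 1 + 1 = (n : ℤ) + 2 by ring, show (a : ℤ) - b + (n + 1) + 1 = (a : ℤ) - b + n + 2 by ring,
    show (a : ℤ) - b - (n + 1) - 1 = (a : ℤ) - b - n - 2 by ring]
  rw [Matrix.one_apply]
  by_cases h3 : a = c ∧ b = d
  · have h5 : ¬ (a = c + 1 ∧ b + 1 = d) := by omega
    have h6 : ¬ (a + 1 = c ∧ b = d + 1) := by omega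
    have h7 : ((⟨a, ha⟩, ⟨b, hb⟩) : I2 (n + 1)) = (⟨c, hc⟩, ⟨d, hd⟩) := by
      obtain ⟨h3, h4⟩ := h3
      subst h3 h4
      rfl
    simp only [if_pos h3, if_neg h5, if_neg h6, if_pos h7]
    have z1 := br_id q hq ((n : ℤ) + 2 - a) ((b : ℤ) + 1)
    have z2 := br_id q hq ((a : ℤ) + 1) ((n : ℤ) + 2 - b)
    have z3 := CDrel_diag q hq ((a : ℤ) - b) ((n : ℤ) + 2)
    rw [show (n : ℤ) + 2 - a - 1 = (n : ℤ) + 1 - a by ring, show (b : ℤ) + 1 - 1 = (b : ℤ) by ring,
      show (n : ℤ) + 2 - a + (b + 1) - 1 = (n : ℤ) + 2 - (a - b) by ring] at z1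
    rw [show (n : ℤ) + 2 - b - 1 = (n : ℤ) + 1 - b by ring, show (a : ℤ) + 1 - 1 = (a : ℤ) by ring,
      show (a : ℤ) + 1 + (n + 2 - b) - 1 = (n : ℤ) + 2 + (a - b) by ring] at z2
    rw [show (a : ℤ) - b + (n + 2) = (a : ℤ) - b + n + 2 by ring,
      show (a : ℤ) - b - (n + 2) = (a : ℤ) - b - n - 2 by ring,
      show 2 * ((n : ℤ) + 2) = 2 * (n : ℤ) + 4 by ring] at z3
    rw [← z3]
    field_simp
    linear_combination (-q ^ ((a : ℤ) - b + n + 2)) * z1 + (-q ^ ((a : ℤ) - b - n - 2)) * z2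
  · have h7 : ¬ ((⟨a, ha⟩, ⟨b, hb⟩) : I2 (n + 1)) = (⟨c, hc⟩, ⟨d, hd⟩) := by
      intro h4
      apply h3
      simp only [Prod.mk.injEq, Fin.mk.injEq] at h4
      exact h4
    simp only [if_neg h3, if_neg h7]
    field_simp
    ring

end Pool.Agent.H63.VC10

end

section

/-! # The algebra of the operators `Oh n f` -/

namespace Pool.Agent.H63.VC10

open Pool.Agent.H63.VC7 Matrix

theorem E1_self (q : ℂ) (n : ℕ) : E1 q n n = 0 := by
  unfold E1
  rw [sub_self, br_zero]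
  simp

theorem E1_ne {q : ℂ} {n k : ℕ} (h : Gen q n) (hk : k < n) : E1 q n k ≠ 0 := by
  unfold E1
  have h1 : br q ((n : ℤ) - k) ≠ 0 := h.ne (by omega) (by omega)
  have h2 : br q ((n : ℤ) + k + 1) ≠ 0 := h.ne (by omega) (by omega)
  have h3 : br q (n : ℤ) ≠ 0 := h.ne (by omega) (by omega)
  exact neg_ne_zero.2 (div_ne_zero (mul_ne_zero h1 h2) (pow_ne_zero 2 h3))

theorem Oh_congr (q : ℂ) (n : ℕ) (f g : ℕ → ℂ) (h : ∀ k ≤ n, f k = g k) :
    Oh q n f = Oh q n g := by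
  induction n generalizing f g with
  | zero => simp only [Oh]; rw [h 0 le_rfl]
  | succ n ih =>
    simp only [Oh]
    rw [h (n + 1) le_rfl, ih (dv q n f) (dv q n g)]
    intro k hk
    unfold dv
    rw [h k (by omega), h (n + 1) le_rfl]

theorem Oh_add (q : ℂ) (n : ℕ) (f g : ℕ → ℂ) :
    Oh q n (fun k => f k + g k) = Oh q n f + Oh q n g := by
  induction n generalizing f g with
  | zero => simp only [Oh]; rw [add_smul]
  | succ n ih =>
    have e : dv q n (fun k => f k + g k) = fun k => dv q n f k + dv q n g k := by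
      funext k
      unfold dv
      ring
    simp only [Oh]
    rw [e, ih, add_smul, Matrix.mul_add, Matrix.add_mul]
    abel

theorem Oh_smul (q : ℂ) (n : ℕ) (c : ℂ) (f : ℕ → ℂ) :
    Oh q n (fun k => c * f k) = c • Oh q n f := by
  induction n generalizing f with
  | zero => simp only [Oh]; rw [mul_smul]
  | succ n ih =>
    have e : dv q n (fun k => c * f k) = fun k => c * dv q n f k := by
      funext k
      unfold dv
      ring
    simp only [Oh]
    rw [e, ih, smul_add, mul_smul, Matrix.mul_smul, Matrix.smul_mul]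

theorem Oh_const (q : ℂ) (n : ℕ) (c : ℂ) : Oh q n (fun _ => c) = c • 1 := by
  induction n generalizing c with
  | zero => simp only [Oh]
  | succ n ih =>
    have e : dv q n (fun _ => c) = fun _ => 0 := by
      funext k
      unfold dv
      rw [sub_self, zero_div]
    simp only [Oh]
    rw [e, ih, zero_smul, Matrix.mul_zero, Matrix.zero_mul, add_zero]

theorem Oh_sum (q : ℂ) (n : ℕ) {ι : Type*} (s : Finset ι) (F : ι → ℕ → ℂ) :
    Oh q n (fun k => ∑ i ∈ s, F i k) = ∑ i ∈ s, Oh q n (F i) := by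
  classical
  induction s using Finset.induction_on with
  | empty =>
    simp only [Finset.sum_empty]
    rw [Oh_const, zero_smul]
  | insert a s ha ih =>
    simp only [Finset.sum_insert ha]
    rw [Oh_add, ih]

theorem OhMul_DC (q : ℂ) (n : ℕ) (h : Gen q (n + 1)) :
    DD q n * CC q n = Oh q (n + 1) (E1 q (n + 1)) := by
  have e : Oh q n (dv q n (E1 q (n + 1))) = Oh q n (fun _ => 1) := by
    apply Oh_congr
    intro k hk
    unfold dv
    rw [E1_self, sub_zero, div_self (E1_ne h (by omega))]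
  simp only [Oh]
  rw [E1_self, zero_smul, zero_add, e, Oh_const, one_smul, Matrix.mul_one]

/-- `CC n * DD n` is the operator with the eigenvalues `E1 (n + 1) k`. -/
theorem CD_Oh (q : ℂ) (n : ℕ) (h : Gen q (n + 1)) : CC q n * DD q n = Oh q n (E1 q (n + 1)) := by
  cases n with
  | zero =>
    rw [CD_zero q (h.mono (by omega))]
    simp only [Oh]
    congr 1
    unfold E1
    have h1 : br q 1 ≠ 0 := h.ne (by omega) (by omega)
    push_cast
    norm_num
    field_simp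
  | succ n =>
    rw [CD_succ q n h, OhMul_DC q n (h.mono (by omega)), ← Oh_smul, sub_eq_add_neg, ← neg_smul,
      ← Oh_const, ← Oh_add]
    apply Oh_congr
    intro k _
    have h1 : br q ((n : ℤ) + 1) ≠ 0 := h.ne (by omega) (by omega)
    have h2 : br q ((n : ℤ) + 2) ≠ 0 := h.ne (by omega) (by omega)
    have key := br_id q h.1 ((n : ℤ) + 2 - k) ((n : ℤ) + k + 3)
    rw [show (n : ℤ) + 2 - k - 1 = (n : ℤ) + 1 - k by ring,
      show (n : ℤ) + k + 3 - 1 = (n : ℤ) + k + 2 by ring,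
      show (n : ℤ) + 2 - k + ((n : ℤ) + k + 3) - 1 = 2 * (n : ℤ) + 4 by ring] at key
    unfold E1
    push_cast
    rw [show (n : ℤ) + 1 + k + 1 = (n : ℤ) + k + 2 by ring,
      show (n : ℤ) + 1 + 1 - k = (n : ℤ) + 2 - k by ring,
      show (n : ℤ) + 1 + 1 + k + 1 = (n : ℤ) + k + 3 by ring,
      show (n : ℤ) + 1 + 1 = (n : ℤ) + 2 by ring]
    field_simp
    linear_combination key

theorem Oh_mul (q : ℂ) (n : ℕ) (h : Gen q n) (f g : ℕ → ℂ) :
    Oh q n f * Oh q n g = Oh q n (fun k => f k * g k) := by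
  induction n generalizing f g with
  | zero =>
    simp only [Oh]
    rw [Matrix.smul_mul, Matrix.one_mul, smul_smul]
  | succ n ih =>
    have hn : Gen q n := h.mono (by omega)
    have e : Oh q n (dv q n (fun k => f k * g k)) =
        f (n + 1) • Oh q n (dv q n g) + g (n + 1) • Oh q n (dv q n f) +
          Oh q n (dv q n f) * (CC q n * DD q n) * Oh q n (dv q n g) := by
      rw [CD_Oh q n h, ih hn, ih hn, ← Oh_smul, ← Oh_smul, ← Oh_add, ← Oh_add]
      apply Oh_congr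
      intro k hk
      have hE := E1_ne (k := k) h (by omega)
      unfold dv
      field_simp
      ring
    simp only [Oh]
    rw [e]
    simp only [Matrix.add_mul, Matrix.mul_add, Matrix.smul_mul, Matrix.mul_smul, Matrix.one_mul,
      Matrix.mul_one, Matrix.mul_assoc]
    rw [smul_add, smul_smul, mul_comm (g (n + 1)) (f (n + 1))]
    abel

theorem Oh_pow (q : ℂ) (n : ℕ) (h : Gen q n) (f : ℕ → ℂ) (r : ℕ) :
    Oh q n f ^ r = Oh q n (fun k => f k ^ r) := by
  induction r with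
  | zero =>
    simp only [pow_zero]
    rw [Oh_const, one_smul]
  | succ r ih =>
    rw [pow_succ, ih, Oh_mul q n h]
    simp only [pow_succ]

end Pool.Agent.H63.VC10

end

section

/-! # Operators are determined by `CC` and the multiplication `V_n ⊗ V_n → V_{2 n}` -/

namespace Pool.Agent.H63.VC10

open Pool.Agent.H63.VC7 Matrix

/-- The multiplication `V_n ⊗ V_n → V_{2 n}`, `e_a ⊗ e_b ↦ q^(a (n - b)) e_{a + b}`. -/
noncomputable def Mm (q : ℂ) (n : ℕ) : Matrix (Fin (2 * n + 1)) (I2 n) ℂ := fun s y =>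
  if (s : ℕ) = y.1 + y.2 then q ^ (((y.1 : ℕ) : ℤ) * ((n : ℤ) - (y.2 : ℕ))) else 0

theorem Exact_mul_DD (q : ℂ) (n : ℕ) {α : Type*} (A : Matrix α (I2 (n + 1)) ℂ) (s : α) (y : I2 n) :
    (A * DD q n) s y =
      A s (y.1.castSucc, y.2.succ) * q ^ (((y.1 : ℕ) : ℤ) + n - (y.2 : ℕ)) +
        A s (y.1.succ, y.2.castSucc) * (-q⁻¹) := by
  rw [Matrix.mul_apply]
  unfold DD
  simp only [mul_add, Finset.sum_add_distrib]
  congr 1
  · rw [Finset.sum_eq_single (y.1.castSucc, y.2.succ)]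
    · rw [if_pos]
      exact ⟨rfl, rfl⟩
    · rintro ⟨a, b⟩ _ hne
      rw [if_neg, mul_zero]
      rintro ⟨h1, h2⟩
      apply hne
      ext
      · exact h1
      · exact h2
    · intro h
      exact absurd (Finset.mem_univ _) h
  · rw [Finset.sum_eq_single (y.1.succ, y.2.castSucc)]
    · rw [if_pos]
      exact ⟨rfl, rfl⟩
    · rintro ⟨a, b⟩ _ hne
      rw [if_neg, mul_zero]
      rintro ⟨h1, h2⟩
      apply hne
      ext
      · exact h1
      · exact h2
    · intro h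
      exact absurd (Finset.mem_univ _) h

theorem Mm_DD (q : ℂ) (n : ℕ) (hq : q ≠ 0) : Mm q (n + 1) * DD q n = 0 := by
  ext s y
  rw [Exact_mul_DD]
  unfold Mm
  rw [Matrix.zero_apply]
  by_cases h : (s : ℕ) = y.1 + y.2 + 1
  · rw [if_pos (by simp only [Fin.val_castSucc, Fin.val_succ]; omega),
      if_pos (by simp only [Fin.val_castSucc, Fin.val_succ]; omega)]
    rw [← zpow_add₀ hq, mul_neg, ← zpow_neg_one q, ← zpow_add₀ hq, ← sub_eq_add_neg, sub_eq_zero]
    congr 1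
    simp only [Fin.val_castSucc, Fin.val_succ]
    push_cast
    ring
  · rw [if_neg (by simp only [Fin.val_castSucc, Fin.val_succ]; omega),
      if_neg (by simp only [Fin.val_castSucc, Fin.val_succ]; omega)]
    ring

theorem Exact_DD_mul (q : ℂ) (n : ℕ) {β : Type*} (Y : Matrix (I2 n) β ℂ) (x : I2 (n + 1)) (c : β) :
    (DD q n * Y) x c =
      (if h : (x.1 : ℕ) < n + 1 ∧ 0 < (x.2 : ℕ) then
        q ^ (((x.1 : ℕ) : ℤ) + n - (((x.2 : ℕ) - 1 : ℕ) : ℤ)) *
          Y (⟨x.1, h.1⟩, ⟨(x.2 : ℕ) - 1, by have := x.2.2; omega⟩) c else 0) +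
      (if h : 0 < (x.1 : ℕ) ∧ (x.2 : ℕ) < n + 1 then
        -q⁻¹ * Y (⟨(x.1 : ℕ) - 1, by have := x.1.2; omega⟩, ⟨x.2, h.2⟩) c else 0) := by
  rw [Matrix.mul_apply]
  unfold DD
  simp only [add_mul, Finset.sum_add_distrib]
  congr 1
  · split_ifs with h
    · rw [Finset.sum_eq_single (⟨x.1, h.1⟩, ⟨(x.2 : ℕ) - 1, by have := x.2.2; omega⟩)]
      · rw [if_pos]
        refine ⟨rfl, ?_⟩
        show (x.2 : ℕ) = (x.2 : ℕ) - 1 + 1
        omega
      · rintro ⟨a, b⟩ _ hne
        rw [if_neg, zero_mul]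
        rintro ⟨h1, h2⟩
        apply hne
        ext
        · exact h1.symm
        · show (b : ℕ) = (x.2 : ℕ) - 1
          have h3 : (x.2 : ℕ) = (b : ℕ) + 1 := h2
          omega
      · intro h
        exact absurd (Finset.mem_univ _) h
    · apply Finset.sum_eq_zero
      rintro ⟨a, b⟩ _
      rw [if_neg, zero_mul]
      rintro ⟨h1, h2⟩
      apply h
      have h3 : (x.2 : ℕ) = (b : ℕ) + 1 := h2
      have h4 : (x.1 : ℕ) = (a : ℕ) := h1
      have := a.2
      omega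
  · split_ifs with h
    · rw [Finset.sum_eq_single (⟨(x.1 : ℕ) - 1, by have := x.1.2; omega⟩, ⟨x.2, h.2⟩)]
      · rw [if_pos]
        refine ⟨?_, rfl⟩
        show (x.1 : ℕ) = (x.1 : ℕ) - 1 + 1
        omega
      · rintro ⟨a, b⟩ _ hne
        rw [if_neg, zero_mul]
        rintro ⟨h1, h2⟩
        apply hne
        ext
        · show (a : ℕ) = (x.1 : ℕ) - 1
          have h3 : (x.1 : ℕ) = (a : ℕ) + 1 := h1
          omega
        · exact h2.symm
      · intro h
        exact absurd (Finset.mem_univ _) h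
    · apply Finset.sum_eq_zero
      rintro ⟨a, b⟩ _
      rw [if_neg, zero_mul]
      rintro ⟨h1, h2⟩
      apply h
      have h3 : (x.1 : ℕ) = (a : ℕ) + 1 := h1
      have h4 : (x.2 : ℕ) = (b : ℕ) := h2
      have := b.2
      omega

/-- extension by zero -/
noncomputable def Exact_w (n : ℕ) {β : Type*} (W : Matrix (I2 (n + 1)) β ℂ) (i j : ℕ) (c : β) : ℂ :=
  if h : i < n + 1 + 1 ∧ j < n + 1 + 1 then W (⟨i, h.1⟩, ⟨j, h.2⟩) c else 0

noncomputable def Exact_U (q : ℂ) (n : ℕ) {β : Type*} (W : Matrix (I2 (n + 1)) β ℂ) (s i : ℕ)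
    (c : β) : ℂ :=
  if i ≤ s then q ^ ((i : ℤ) * ((n : ℤ) + 1 - ((s : ℤ) - i))) * Exact_w n W i (s - i) c else 0

noncomputable def Exact_P (q : ℂ) (n : ℕ) {β : Type*} (W : Matrix (I2 (n + 1)) β ℂ) (s m : ℕ)
    (c : β) : ℂ := ∑ i ∈ Finset.range m, Exact_U q n W s i c

theorem Exact_U_eq (q : ℂ) (n : ℕ) {β : Type*} (W : Matrix (I2 (n + 1)) β ℂ) (x : I2 (n + 1))
    (c : β) : Exact_U q n W ((x.1 : ℕ) + x.2) x.1 c =
      q ^ (((x.1 : ℕ) : ℤ) * ((n : ℤ) + 1 - (x.2 : ℕ))) * W x c := by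
  unfold Exact_U
  rw [if_pos (by omega)]
  have h1 : (x.1 : ℕ) + (x.2 : ℕ) - (x.1 : ℕ) = (x.2 : ℕ) := by omega
  rw [h1]
  unfold Exact_w
  rw [dif_pos ⟨x.1.2, x.2.2⟩]
  congr 2
  push_cast
  ring

theorem Exact_U_big (q : ℂ) (n : ℕ) {β : Type*} (W : Matrix (I2 (n + 1)) β ℂ) (s i : ℕ) (c : β)
    (h : n + 1 < s - i) : Exact_U q n W s i c = 0 := by
  unfold Exact_U
  split_ifs
  · unfold Exact_w
    rw [dif_neg (by omega), mul_zero]
  · rfl

theorem Exact_U_gt (q : ℂ) (n : ℕ) {β : Type*} (W : Matrix (I2 (n + 1)) β ℂ) (s i : ℕ) (c : β)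
    (h : s < i) : Exact_U q n W s i c = 0 := by
  unfold Exact_U
  rw [if_neg (by omega)]

theorem Exact_tot (q : ℂ) (n : ℕ) {β : Type*} (W : Matrix (I2 (n + 1)) β ℂ)
    (hW : Mm q (n + 1) * W = 0) (s : ℕ) (hs : s < 2 * (n + 1) + 1) (c : β) :
    Exact_P q n W s (n + 1 + 1) c = 0 := by
  have h1 : (Mm q (n + 1) * W) ⟨s, hs⟩ c = 0 := by rw [hW]; rfl
  rw [Matrix.mul_apply, Fintype.sum_prod_type] at h1
  unfold Exact_P
  rw [Finset.sum_range, ← h1]
  refine Finset.sum_congr rfl fun i _ => ?_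
  unfold Mm
  by_cases hi : (i : ℕ) ≤ s ∧ s - i < n + 1 + 1
  · rw [Finset.sum_eq_single ⟨s - i, hi.2⟩]
    · have h2 : s = (i : ℕ) + (s - i) := by omega
      rw [if_pos h2]
      have h3 := Exact_U_eq q n W (i, ⟨s - i, hi.2⟩) c
      have h4 : (i : ℕ) + (s - i) = s := by omega
      simp only [h4] at h3
      rw [h3]
      congr 2
    · intro j _ hne
      rw [if_neg, zero_mul]
      intro h
      apply hne
      ext
      show (j : ℕ) = s - i
      have h5 : s = (i : ℕ) + j := h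
      omega
    · intro h
      exact absurd (Finset.mem_univ _) h
  · rw [Finset.sum_eq_zero]
    · by_cases h2 : (i : ℕ) ≤ s
      · exact Exact_U_big q n W s i c (by omega)
      · exact Exact_U_gt q n W s i c (by omega)
    · intro j _
      rw [if_neg, zero_mul]
      intro h
      have h5 : s = (i : ℕ) + j := h
      have := j.2
      omega

/-- Exactness: what is killed by the multiplication comes from `DD`. -/
theorem exact_DD (q : ℂ) (n : ℕ) (hq : q ≠ 0) {β : Type*} (W : Matrix (I2 (n + 1)) β ℂ)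
    (hW : Mm q (n + 1) * W = 0) : ∃ Y : Matrix (I2 n) β ℂ, W = DD q n * Y := by
  refine ⟨Matrix.of fun y c => q ^ (-((((y.1 : ℕ) : ℤ) + 1) * ((n : ℤ) + 1 - (y.2 : ℕ)) - 1)) *
    Exact_P q n W ((y.1 : ℕ) + y.2 + 1) (y.1 + 1) c, ?_⟩
  ext x c
  refine Eq.trans ?_ (Exact_DD_mul q n _ x c).symm
  have hx1 := x.1.2
  have hx2 := x.2.2
  have hqe : q ^ (-(((x.1 : ℕ) : ℤ) * ((n : ℤ) + 1 - (x.2 : ℕ)))) *
      q ^ (((x.1 : ℕ) : ℤ) * ((n : ℤ) + 1 - (x.2 : ℕ))) = 1 := by
    rw [← zpow_add₀ hq]; simp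
  have hP : Exact_P q n W ((x.1 : ℕ) + x.2) (x.1 + 1) c =
      Exact_P q n W ((x.1 : ℕ) + x.2) x.1 c +
        q ^ (((x.1 : ℕ) : ℤ) * ((n : ℤ) + 1 - (x.2 : ℕ))) * W x c := by
    unfold Exact_P
    rw [Finset.sum_range_succ, Exact_U_eq]
  have T1 : (if h : (x.1 : ℕ) < n + 1 ∧ 0 < (x.2 : ℕ) then
        q ^ (((x.1 : ℕ) : ℤ) + n - (((x.2 : ℕ) - 1 : ℕ) : ℤ)) *
          (q ^ (-((((x.1 : ℕ) : ℤ) + 1) * ((n : ℤ) + 1 - (((x.2 : ℕ) - 1 : ℕ) : ℤ)) - 1)) *
    Exact_P q n W ((x.1 : ℕ) + ((x.2 : ℕ) - 1) + 1) (x.1 + 1) c) else 0) =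
      q ^ (-(((x.1 : ℕ) : ℤ) * ((n : ℤ) + 1 - (x.2 : ℕ)))) *
        Exact_P q n W ((x.1 : ℕ) + x.2) (x.1 + 1) c := by
    split_ifs with h
    · have h1 : (x.1 : ℕ) + ((x.2 : ℕ) - 1) + 1 = (x.1 : ℕ) + x.2 := by omega
      have h2 : (((x.2 : ℕ) - 1 : ℕ) : ℤ) = ((x.2 : ℕ) : ℤ) - 1 := by
        have := h.2
        omega
      rw [h1, h2, ← mul_assoc, ← zpow_add₀ hq]
      congr 2
      ring
    · have h0 : Exact_P q n W ((x.1 : ℕ) + x.2) (x.1 + 1) c = 0 := by
        by_cases h1 : (x.1 : ℕ) < n + 1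
        · have h2 : (x.2 : ℕ) = 0 := by omega
          have h3 := Exact_tot q n W hW ((x.1 : ℕ) + x.2) (by omega) c
          rw [← h3]
          unfold Exact_P
          refine Finset.sum_subset (fun i hi => ?_) (fun i _ hi => ?_)
          · rw [Finset.mem_range] at hi ⊢
            omega
          · rw [Finset.mem_range] at hi
            exact Exact_U_gt q n W _ _ c (by omega)
        · have h2 : (x.1 : ℕ) + 1 = n + 1 + 1 := by omega
          rw [h2]
          exact Exact_tot q n W hW _ (by omega) c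
      rw [h0, mul_zero]
  have T2 : (if h : 0 < (x.1 : ℕ) ∧ (x.2 : ℕ) < n + 1 then
        -q⁻¹ * (q ^ (-(((((x.1 : ℕ) - 1 : ℕ) : ℤ) + 1) * ((n : ℤ) + 1 - (x.2 : ℕ)) - 1)) *
    Exact_P q n W (((x.1 : ℕ) - 1) + x.2 + 1) ((x.1 : ℕ) - 1 + 1) c) else 0) =
      -(q ^ (-(((x.1 : ℕ) : ℤ) * ((n : ℤ) + 1 - (x.2 : ℕ)))) *
        Exact_P q n W ((x.1 : ℕ) + x.2) x.1 c) := by
    split_ifs with h
    · have h1 : (x.1 : ℕ) - 1 + (x.2 : ℕ) + 1 = (x.1 : ℕ) + x.2 := by omega
      have h2 : (((x.1 : ℕ) - 1 : ℕ) : ℤ) = ((x.1 : ℕ) : ℤ) - 1 := by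
        have := h.1
        omega
      have h3 : (x.1 : ℕ) - 1 + 1 = (x.1 : ℕ) := by omega
      rw [h1, h2, h3, ← mul_assoc, neg_mul, neg_mul, ← zpow_neg_one q, ← zpow_add₀ hq]
      congr 3
      ring
    · have h0 : Exact_P q n W ((x.1 : ℕ) + x.2) x.1 c = 0 := by
        unfold Exact_P
        refine Finset.sum_eq_zero fun i hi => ?_
        rw [Finset.mem_range] at hi
        exact Exact_U_big q n W _ _ c (by omega)
      rw [h0, mul_zero, neg_zero]
  refine Eq.trans ?_ (congrArg₂ (· + ·) T1 T2).symm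
  show W x c = q ^ (-(((x.1 : ℕ) : ℤ) * ((n : ℤ) + 1 - (x.2 : ℕ)))) *
        Exact_P q n W ((x.1 : ℕ) + x.2) (x.1 + 1) c +
      -(q ^ (-(((x.1 : ℕ) : ℤ) * ((n : ℤ) + 1 - (x.2 : ℕ)))) *
        Exact_P q n W ((x.1 : ℕ) + x.2) x.1 c)
  rw [hP, mul_add, ← mul_assoc, hqe, one_mul]
  ring

theorem eq_zero_of (q : ℂ) (n : ℕ) (h : Gen q (n + 1)) {β : Type*}
    (W : Matrix (I2 (n + 1)) β ℂ) (hC : CC q n * W = 0) (hM : Mm q (n + 1) * W = 0) : W = 0 := by
  obtain ⟨Y, rfl⟩ := exact_DD q n h.1 W hM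
  rw [← Matrix.mul_assoc, CD_Oh q n h] at hC
  have hn : Gen q n := h.mono (Nat.le_succ n)
  have h1 : Oh q n (fun k => (E1 q (n + 1) k)⁻¹) * Oh q n (E1 q (n + 1)) = 1 := by
    rw [Oh_mul q n hn]
    have h2 : Oh q n (fun k => (E1 q (n + 1) k)⁻¹ * E1 q (n + 1) k) = Oh q n (fun _ => 1) :=
      Oh_congr q n _ _ fun k hk => inv_mul_cancel₀ (E1_ne h (by omega))
    rw [h2, Oh_const, one_smul]
  have h3 : Y = 0 := by
    calc Y = (Oh q n (fun k => (E1 q (n + 1) k)⁻¹) * Oh q n (E1 q (n + 1))) * Y := by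
          rw [h1, Matrix.one_mul]
      _ = 0 := by rw [Matrix.mul_assoc, hC, Matrix.mul_zero]
  rw [h3, Matrix.mul_zero]

/-- The characterization of `Oh n f`. -/
theorem Oh_unique (q : ℂ) (n : ℕ) (h : Gen q n) (f : ℕ → ℂ) (Z : (k : ℕ) → Matrix (I2 k) (I2 k) ℂ)
    (h0 : Z 0 = f 0 • 1) (hC : ∀ k < n, CC q k * Z (k + 1) = Z k * CC q k)
    (hM : ∀ k ≤ n, Mm q k * Z k = f k • Mm q k) : Z n = Oh q n f := by
  induction n with
  | zero => exact h0
  | succ n ih =>
    have hn : Gen q n := h.mono (Nat.le_succ n)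
    have hZ : Z n = Oh q n f := ih hn (fun k hk => hC k (by omega)) (fun k hk => hM k (by omega))
    rw [← sub_eq_zero]
    apply eq_zero_of q n h
    · rw [Matrix.mul_sub, hC n (by omega), hZ]
      have h1 : Oh q n f = f (n + 1) • 1 + Oh q n (E1 q (n + 1)) * Oh q n (dv q n f) := by
        rw [Oh_mul q n hn, ← Oh_const, ← Oh_add]
        refine Oh_congr q n _ _ fun k hk => ?_
        unfold dv
        have h2 : E1 q (n + 1) k ≠ 0 := E1_ne h (by omega)
        field_simp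
        ring
      show Oh q n f * CC q n - CC q n * (f (n + 1) • 1 + DD q n * Oh q n (dv q n f) * CC q n) = 0
      rw [Matrix.mul_add, ← Matrix.mul_assoc, ← Matrix.mul_assoc, CD_Oh q n h, h1, Matrix.add_mul,
        Matrix.smul_mul, Matrix.one_mul, Matrix.mul_smul, Matrix.mul_one, sub_self]
    · rw [Matrix.mul_sub, hM (n + 1) le_rfl]
      show f (n + 1) • Mm q (n + 1) -
        Mm q (n + 1) * (f (n + 1) • 1 + DD q n * Oh q n (dv q n f) * CC q n) = 0
      rw [Matrix.mul_add, ← Matrix.mul_assoc, ← Matrix.mul_assoc, Mm_DD q n h.1, Matrix.zero_mul,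
        Matrix.zero_mul, add_zero, Matrix.mul_smul, Matrix.mul_one, sub_self]

/-- If `Z (n + 1) * DD n = DD n * Z n`, then the property `hM` of `Oh_unique` has to be checked only
for the vectors `e_0 ⊗ e_b` and `e_a ⊗ e_{n+1}`. -/
theorem Mm_of_ext (q : ℂ) (n : ℕ) (hq : q ≠ 0) (c : ℂ) (Z : Matrix (I2 (n + 1)) (I2 (n + 1)) ℂ)
    (Z' : Matrix (I2 n) (I2 n) ℂ) (hD : Z * DD q n = DD q n * Z')
    (h1 : ∀ (s : Fin (2 * (n + 1) + 1)) (y : I2 (n + 1)), (y.1 : ℕ) = 0 ∨ (y.2 : ℕ) = n + 1 →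
      (Mm q (n + 1) * Z) s y = c * Mm q (n + 1) s y) :
    Mm q (n + 1) * Z = c • Mm q (n + 1) := by
  rw [← sub_eq_zero]
  have hG : (Mm q (n + 1) * Z - c • Mm q (n + 1)) * DD q n = 0 := by
    rw [Matrix.sub_mul, Matrix.mul_assoc, hD, ← Matrix.mul_assoc, Matrix.smul_mul, Mm_DD q n hq,
      Matrix.zero_mul, smul_zero, sub_self]
  have hG1 : ∀ (s : Fin (2 * (n + 1) + 1)) (y : I2 (n + 1)), (y.1 : ℕ) = 0 ∨ (y.2 : ℕ) = n + 1 →
      (Mm q (n + 1) * Z - c • Mm q (n + 1)) s y = 0 := by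
    intro s y hy
    rw [Matrix.sub_apply, h1 s y hy, Matrix.smul_apply, smul_eq_mul, sub_self]
  generalize Mm q (n + 1) * Z - c • Mm q (n + 1) = G at hG hG1
  have key : ∀ (k : ℕ) (s : Fin (2 * (n + 1) + 1)) (y : I2 (n + 1)), (y.1 : ℕ) = k → G s y = 0 := by
    intro k
    induction k with
    | zero => intro s y hy; exact hG1 s y (Or.inl hy)
    | succ k ih =>
      intro s y hy
      by_cases hb : (y.2 : ℕ) = n + 1
      · exact hG1 s y (Or.inr hb)
      · have hy1 := y.1.2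
        have hy2 := y.2.2
        have h2 := congrFun (congrFun hG s) (⟨k, by omega⟩, ⟨y.2, by omega⟩)
        rw [Exact_mul_DD, Matrix.zero_apply] at h2
        rw [ih s _ (by simp), zero_mul, zero_add] at h2
        have h3 : (((⟨k, by omega⟩ : Fin (n + 1)).succ,
            (⟨y.2, by omega⟩ : Fin (n + 1)).castSucc) : I2 (n + 1)) = y := by
          ext
          · show k + 1 = (y.1 : ℕ)
            omega
          · rfl
        have h4 := (mul_eq_zero.1 h2).resolve_right (neg_ne_zero.2 (inv_ne_zero hq))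
        rw [← h3]
        exact h4
  ext s y
  exact key _ s y rfl

end Pool.Agent.H63.VC10

end

section

/-! # The closure of the operators `Oh n f` -/

namespace Pool.Agent.H63.VC10

open Pool.Agent.H63.VC7 Matrix

theorem Tr_cupc (q : ℂ) (n : ℕ) (h : Gen q n) (a : ℕ) (ha : a ≤ n) :
    cupc q n a * (cupc q n (n - a))⁻¹ = (-1) ^ n * q ^ ((n : ℤ) - 2 * a) := by
  have hq := h.1
  have h1 : brf q n ≠ 0 := h.brf_ne (by omega)
  have h2 : brf q a ≠ 0 := h.brf_ne (by omega)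
  have h3 : brf q (n - a) ≠ 0 := h.brf_ne (by omega)
  obtain ⟨b, rfl⟩ := Nat.exists_eq_add_of_le ha
  have e1 : a + b - a = b := by omega
  have e2 : a + b - b = a := by omega
  rw [e1] at h3 ⊢
  unfold cupc
  rw [e1, e2]
  have hz1 : q ^ ((b : ℤ) * (((a + b : ℕ) : ℤ) - b - 1)) ≠ 0 := zpow_ne_zero _ hq
  have hz : q ^ ((a : ℤ) * (((a + b : ℕ) : ℤ) - a - 1))
      = q ^ (((a + b : ℕ) : ℤ) - 2 * a) * q ^ ((b : ℤ) * (((a + b : ℕ) : ℤ) - b - 1)) := by
    rw [← zpow_add₀ hq]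
    congr 1
    push_cast
    ring
  have hs : ((-1 : ℂ)) ^ b ≠ 0 := pow_ne_zero _ (by norm_num)
  have hsq : ((-1 : ℂ)) ^ b * (-1) ^ b = 1 := by
    rw [← mul_pow]
    norm_num
  rw [mul_inv_eq_iff_eq_mul₀ (mul_ne_zero (mul_ne_zero hs hz1)
    (div_ne_zero h1 (mul_ne_zero h3 h2)))]
  rw [hz, pow_add]
  have hcomm : brf q b * brf q a = brf q a * brf q b := mul_comm _ _
  rw [hcomm]
  linear_combination (-(-1 : ℂ) ^ a * q ^ (((a + b : ℕ) : ℤ) - 2 * a) *
    q ^ ((b : ℤ) * (((a + b : ℕ) : ℤ) - b - 1)) *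
    (brf q (a + b) / (brf q a * brf q b))) * hsq

/-- the diagonal weight -/
noncomputable def Tr_w (q : ℂ) (n : ℕ) (x : I2 n) : ℂ :=
  q ^ (2 * (n : ℤ) - 2 * ((x.1 : ℕ) : ℤ) - 2 * ((x.2 : ℕ) : ℤ))

theorem Tr_trq (q : ℂ) (n : ℕ) (h : Gen q n) (X : Matrix (I2 n) (I2 n) ℂ) :
    trq q n X = ∑ x : I2 n, Tr_w q n x * X x x := by
  unfold trq
  refine Finset.sum_congr rfl fun x _ => ?_
  have h1 := Tr_cupc q n h x.1 (by omega)
  have h2 := Tr_cupc q n h x.2 (by omega)
  have h3 : Tr_w q n x = ((-1) ^ n * q ^ ((n : ℤ) - 2 * (x.1 : ℕ))) *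
      ((-1) ^ n * q ^ ((n : ℤ) - 2 * (x.2 : ℕ))) := by
    have hs : ((-1 : ℂ)) ^ n * (-1) ^ n = 1 := by
      rw [← mul_pow]
      norm_num
    unfold Tr_w
    have hz : q ^ (2 * (n : ℤ) - 2 * ((x.1 : ℕ) : ℤ) - 2 * ((x.2 : ℕ) : ℤ))
        = q ^ ((n : ℤ) - 2 * (x.1 : ℕ)) * q ^ ((n : ℤ) - 2 * (x.2 : ℕ)) := by
      rw [← zpow_add₀ h.1]
      congr 1
      ring
    rw [hz]
    linear_combination (-(q ^ ((n : ℤ) - 2 * (x.1 : ℕ)) * q ^ ((n : ℤ) - 2 * (x.2 : ℕ)))) * hs
  rw [h3, ← h1, ← h2]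
  ring

theorem Tr_DD (q : ℂ) (n : ℕ) (x : I2 (n + 1)) (y : I2 n) :
    Tr_w q (n + 1) x * DD q n x y = Tr_w q n y * DD q n x y := by
  unfold DD
  by_cases h1 : (x.1 : ℕ) = y.1 ∧ (x.2 : ℕ) = y.2 + 1
  · have hw : Tr_w q (n + 1) x = Tr_w q n y := by
      unfold Tr_w
      rw [h1.1, h1.2]
      congr 1
      push_cast
      ring
    rw [hw]
  · by_cases h2 : (x.1 : ℕ) = y.1 + 1 ∧ (x.2 : ℕ) = y.2
    · have hw : Tr_w q (n + 1) x = Tr_w q n y := by
        unfold Tr_w
        rw [h2.1, h2.2]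
        congr 1
        push_cast
        ring
      rw [hw]
    · rw [if_neg h1, if_neg h2, add_zero, mul_zero, mul_zero]

theorem Tr_step (q : ℂ) (n : ℕ) (M : Matrix (I2 n) (I2 n) ℂ) :
    ∑ x : I2 (n + 1), Tr_w q (n + 1) x * (DD q n * M * CC q n) x x
      = ∑ y : I2 n, Tr_w q n y * (M * (CC q n * DD q n)) y y := by
  have h1 : ∀ x : I2 (n + 1), Tr_w q (n + 1) x * (DD q n * M * CC q n) x x
      = ∑ y : I2 n, Tr_w q n y * (DD q n x y * (M * CC q n) y x) := by
    intro x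
    rw [Matrix.mul_assoc, Matrix.mul_apply, Finset.mul_sum]
    refine Finset.sum_congr rfl fun y _ => ?_
    rw [← mul_assoc, Tr_DD, mul_assoc]
  rw [Finset.sum_congr rfl fun x _ => h1 x, Finset.sum_comm]
  refine Finset.sum_congr rfl fun y _ => ?_
  rw [← Finset.mul_sum, ← Matrix.mul_assoc, Matrix.mul_apply (M := M * CC q n)]
  congr 1
  exact Finset.sum_congr rfl fun x _ => mul_comm _ _

theorem Tr_geom (q : ℂ) (hq : q ≠ 0) (n m : ℕ) :
    br q 1 * ∑ a ∈ Finset.range m, q ^ ((n : ℤ) - 2 * a)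
      = q ^ ((n : ℤ) + 1) - q ^ ((n : ℤ) + 1 - 2 * m) := by
  induction m with
  | zero => simp
  | succ m ih =>
    rw [Finset.sum_range_succ, mul_add, ih]
    have h1 : br q 1 * q ^ ((n : ℤ) - 2 * m)
        = q ^ ((n : ℤ) + 1 - 2 * m) - q ^ ((n : ℤ) + 1 - 2 * ((m + 1 : ℕ) : ℤ)) := by
      unfold br
      rw [sub_mul, ← zpow_add₀ hq, ← zpow_add₀ hq]
      congr 2
      · ring
      · push_cast
        ring
    rw [h1]
    ring

theorem Tr_sum (q : ℂ) (n : ℕ) (h : Gen q n) :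
    ∑ a : Fin (n + 1), q ^ ((n : ℤ) - 2 * ((a : ℕ) : ℤ)) = br q ((n : ℤ) + 1) / br q 1 := by
  have h1 : br q 1 ≠ 0 := h.ne (by norm_num) (by omega)
  rw [eq_div_iff h1, mul_comm,
    Fin.sum_univ_eq_sum_range (fun a : ℕ => q ^ ((n : ℤ) - 2 * (a : ℤ))) (n + 1),
    Tr_geom q h.1]
  unfold br
  congr 2
  push_cast
  ring

theorem Tr_one (q : ℂ) (n : ℕ) (h : Gen q n) :
    ∑ x : I2 n, Tr_w q n x * (1 : Matrix (I2 n) (I2 n) ℂ) x x
      = (br q ((n : ℤ) + 1) / br q 1) ^ 2 := by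
  rw [sq, ← Tr_sum q n h, Finset.sum_mul_sum, Fintype.sum_prod_type]
  refine Finset.sum_congr rfl fun a _ => Finset.sum_congr rfl fun b _ => ?_
  rw [Matrix.one_apply_eq, mul_one]
  unfold Tr_w
  rw [← zpow_add₀ h.1]
  congr 1
  ring

theorem Tr_sq (q : ℂ) (n : ℕ) (h : Gen q n) :
    ∑ k ∈ Finset.range (n + 1), br q (2 * (k : ℤ) + 1) / br q 1
      = (br q ((n : ℤ) + 1) / br q 1) ^ 2 := by
  have h1 : br q 1 ≠ 0 := h.ne (by norm_num) (by omega)
  have key : ∀ m : ℕ, ∑ k ∈ Finset.range m, br q (2 * (k : ℤ) + 1) / br q 1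
      = (br q (m : ℤ) / br q 1) ^ 2 := by
    intro m
    induction m with
    | zero => simp [br_zero]
    | succ m ih =>
      rw [Finset.sum_range_succ, ih]
      have h2 := br_id q h.1 ((m : ℤ) + 1) ((m : ℤ) + 1)
      have h3 : (m : ℤ) + 1 - 1 = m := by ring
      have h4 : (m : ℤ) + 1 + ((m : ℤ) + 1) - 1 = 2 * m + 1 := by ring
      rw [h3, h4] at h2
      have h5 : (((m + 1 : ℕ) : ℤ)) = (m : ℤ) + 1 := by push_cast; ring
      rw [h5]
      field_simp
      linear_combination -h2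
  have := key (n + 1)
  rw [this]
  push_cast
  rfl

theorem trq_Oh (q : ℂ) (n : ℕ) (h : Gen q n) (f : ℕ → ℂ) :
    trq q n (Oh q n f) = ∑ k ∈ Finset.range (n + 1), br q (2 * (k : ℤ) + 1) / br q 1 * f k := by
  rw [Tr_trq q n h]
  induction n generalizing f with
  | zero =>
    have h1 : br q 1 ≠ 0 := h.ne (by norm_num) (by norm_num)
    rw [Finset.sum_range_one]
    have h2 : ∀ x : I2 0, Tr_w q 0 x * (Oh q 0 f) x x
        = f 0 * (Tr_w q 0 x * (1 : Matrix (I2 0) (I2 0) ℂ) x x) := by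
      intro x
      show Tr_w q 0 x * (f 0 • (1 : Matrix (I2 0) (I2 0) ℂ)) x x = _
      rw [Matrix.smul_apply, smul_eq_mul]
      ring
    rw [Finset.sum_congr rfl fun x _ => h2 x, ← Finset.mul_sum, Tr_one q 0 h]
    have h3 : (((0 : ℕ) : ℤ)) + 1 = 1 := by norm_num
    have h4 : 2 * (((0 : ℕ) : ℤ)) + 1 = 1 := by norm_num
    rw [h3, h4, div_self h1]
    ring
  | succ n ih =>
    have hn : Gen q n := h.mono (Nat.le_succ n)
    have h1 : br q 1 ≠ 0 := h.ne (by norm_num) (by omega)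
    have h2 : ∀ x : I2 (n + 1), Tr_w q (n + 1) x * (Oh q (n + 1) f) x x
        = f (n + 1) * (Tr_w q (n + 1) x * (1 : Matrix (I2 (n + 1)) (I2 (n + 1)) ℂ) x x)
          + Tr_w q (n + 1) x * (DD q n * Oh q n (dv q n f) * CC q n) x x := by
      intro x
      show Tr_w q (n + 1) x * (f (n + 1) • (1 : Matrix (I2 (n + 1)) (I2 (n + 1)) ℂ)
        + DD q n * Oh q n (dv q n f) * CC q n) x x = _
      rw [Matrix.add_apply, Matrix.smul_apply, smul_eq_mul]
      ring
    rw [Finset.sum_congr rfl fun x _ => h2 x, Finset.sum_add_distrib, ← Finset.mul_sum,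
      Tr_one q (n + 1) h, Tr_step, CD_Oh q n h, Oh_mul q n hn, ih hn]
    have h3 : ∀ k ∈ Finset.range (n + 1),
        br q (2 * (k : ℤ) + 1) / br q 1 * (dv q n f k * E1 q (n + 1) k)
          = br q (2 * (k : ℤ) + 1) / br q 1 * f k
            - f (n + 1) * (br q (2 * (k : ℤ) + 1) / br q 1) := by
      intro k hk
      rw [Finset.mem_range] at hk
      have h4 : E1 q (n + 1) k ≠ 0 := E1_ne h hk
      unfold dv
      rw [div_mul_cancel₀ _ h4]
      ring
    rw [Finset.sum_congr rfl h3, Finset.sum_sub_distrib, ← Finset.mul_sum, Tr_sq q n hn,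
      Finset.sum_range_succ (fun k => br q (2 * (k : ℤ) + 1) / br q 1 * f k) (n + 1)]
    have h5 := br_id q h.1 ((n : ℤ) + 2) ((n : ℤ) + 2)
    have h6 : (n : ℤ) + 2 - 1 = n + 1 := by ring
    have h7 : (n : ℤ) + 2 + ((n : ℤ) + 2) - 1 = 2 * n + 3 := by ring
    rw [h6, h7] at h5
    have h8 : (((n + 1 : ℕ) : ℤ)) + 1 = (n : ℤ) + 2 := by push_cast; ring
    have h9 : 2 * (((n + 1 : ℕ) : ℤ)) + 1 = 2 * (n : ℤ) + 3 := by push_cast; ring
    rw [h8, h9]
    have h10 : (br q ((n : ℤ) + 2) / br q 1) ^ 2 - (br q ((n : ℤ) + 1) / br q 1) ^ 2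
        = br q (2 * (n : ℤ) + 3) / br q 1 := by
      field_simp
      linear_combination h5
    linear_combination (f (n + 1)) * h10

end Pool.Agent.H63.VC10

end

section

/-! # Diagrams as operators on `V ⊗ V` -/

namespace Pool.Agent.H63.VC10

open Pool.Agent.H63.VC7 Matrix

/-- The diagram `w` acts as `X` on the strands `i` and `i + 1`. -/
def Acts (q : ℂ) (N : ℕ) (w : List Piece) (i : ℕ) (X : Matrix (I2 N) (I2 N) ℂ) : Prop :=
  ∀ (ψ : List ℕ → ℂ) (p s : List ℕ) (x : I2 N), p.length = i →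
    eval q N w ψ (p ++ (x.1 : ℕ) :: (x.2 : ℕ) :: s) =
      ∑ y : I2 N, X x y * ψ (p ++ (y.1 : ℕ) :: (y.2 : ℕ) :: s)

theorem eval_append (q : ℂ) (N : ℕ) (w1 w2 : List Piece) (ψ : List ℕ → ℂ) :
    eval q N (w1 ++ w2) ψ = eval q N w2 (eval q N w1 ψ) := by
  induction w1 generalizing ψ with
  | nil => rfl
  | cons x w ih => exact ih (act q N x ψ)

theorem Acts_nil (q : ℂ) (N i : ℕ) : Acts q N [] i 1 := by
  intro ψ p s x _
  simp only [Matrix.one_apply, ite_mul, one_mul, zero_mul, Finset.sum_ite_eq, Finset.mem_univ,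
    if_true]
  rfl

theorem Acts_append {q : ℂ} {N i : ℕ} {w1 w2 : List Piece} {X1 X2 : Matrix (I2 N) (I2 N) ℂ}
    (h1 : Acts q N w1 i X1) (h2 : Acts q N w2 i X2) : Acts q N (w1 ++ w2) i (X2 * X1) := by
  intro ψ p s x hp
  rw [eval_append, h2 _ p s x hp]
  simp only [h1 ψ p s _ hp, Matrix.mul_apply, Finset.sum_mul, Finset.mul_sum]
  rw [Finset.sum_comm]
  refine Finset.sum_congr rfl fun y _ => Finset.sum_congr rfl fun z _ => ?_
  ring

theorem Acts_pos (q : ℂ) (N i : ℕ) : Acts q N [Piece.pos i] i (RM q N) := by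
  intro ψ p s x hp
  change act q N (Piece.pos i) ψ _ = _
  simp only [act, List.drop_left' hp, List.take_left' hp, RM, Fintype.sum_prod_type,
    Finset.sum_range]

theorem Acts_neg (q : ℂ) (N i : ℕ) : Acts q N [Piece.neg i] i (RiM q N) := by
  intro ψ p s x hp
  change act q N (Piece.neg i) ψ _ = _
  simp only [act, List.drop_left' hp, List.take_left' hp, RiM, Fintype.sum_prod_type,
    Finset.sum_range]

private theorem Acts_rev_val {N : ℕ} (a : Fin (N + 1)) : ((a.rev : Fin (N + 1)) : ℕ) = N - a := by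
  rw [Fin.val_rev]
  omega

theorem Acts_rot {q : ℂ} {N i : ℕ} {w : List Piece} {X : Matrix (I2 N) (I2 N) ℂ}
    (h : Acts q N w (i + 1) X) :
    Acts q N (Piece.cup i :: (w ++ [Piece.cap (i + 2)])) i (rotM q N X) := by
  intro ψ p s x hp
  have e1 : eval q N (Piece.cup i :: (w ++ [Piece.cap (i + 2)])) ψ =
      act q N (Piece.cap (i + 2)) (eval q N w (act q N (Piece.cup i) ψ)) := by
    change eval q N (w ++ [Piece.cap (i + 2)]) (act q N (Piece.cup i) ψ) = _
    rw [eval_append]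
    rfl
  rw [e1]
  have hl : p ++ (x.1 : ℕ) :: (x.2 : ℕ) :: s = (p ++ [(x.1 : ℕ), (x.2 : ℕ)]) ++ s := by simp
  have hlen : (p ++ [(x.1 : ℕ), (x.2 : ℕ)]).length = i + 2 := by simp [hp]
  rw [hl]
  simp only [act, List.drop_left' hlen, List.take_left' hlen]
  have key : ∀ a : Fin (N + 1), eval q N w (act q N (Piece.cup i) ψ)
      (p ++ [(x.1 : ℕ), (x.2 : ℕ)] ++ (a : ℕ) :: (N - a) :: s) =
      ∑ c : Fin (N + 1), X (x.2, a) (x.1.rev, c) *
        (cupc q N x.1 * ψ (p ++ (c : ℕ) :: (N - a) :: s)) := by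
    intro a
    have e2 : p ++ [(x.1 : ℕ), (x.2 : ℕ)] ++ (a : ℕ) :: (N - a) :: s =
        (p ++ [(x.1 : ℕ)]) ++ (((x.2, a) : I2 N).1 : ℕ) :: (((x.2, a) : I2 N).2 : ℕ) ::
          (N - a) :: s := by simp
    rw [e2, h (act q N (Piece.cup i) ψ) (p ++ [(x.1 : ℕ)]) ((N - a) :: s) (x.2, a)
      (by simp [hp]), Fintype.sum_prod_type, Finset.sum_eq_single x.1.rev]
    · refine Finset.sum_congr rfl fun c _ => ?_
      congr 1
      have e3 : (p ++ [(x.1 : ℕ)]) ++ (((x.1.rev, c) : I2 N).1 : ℕ) ::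
          (((x.1.rev, c) : I2 N).2 : ℕ) :: (N - a) :: s =
          p ++ (x.1 : ℕ) :: (x.1.rev : ℕ) :: (c : ℕ) :: (N - a) :: s := by simp
      rw [e3]
      simp only [act, List.drop_left' hp, List.take_left' hp]
      rw [if_pos (by rw [Acts_rev_val]; have := x.1.isLt; omega)]
    · intro b _ hb
      refine Finset.sum_eq_zero fun c _ => ?_
      have e3 : (p ++ [(x.1 : ℕ)]) ++ (((b, c) : I2 N).1 : ℕ) ::
          (((b, c) : I2 N).2 : ℕ) :: (N - a) :: s =
          p ++ (x.1 : ℕ) :: (b : ℕ) :: (c : ℕ) :: (N - a) :: s := by simp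
      rw [e3]
      simp only [act, List.drop_left' hp, List.take_left' hp]
      rw [if_neg, mul_zero]
      intro hc
      apply hb
      apply Fin.ext
      rw [Acts_rev_val]
      omega
    · intro hne
      exact absurd (Finset.mem_univ _) hne
  rw [Finset.sum_range]
  simp only [key, rotM, Fintype.sum_prod_type]
  rw [Finset.sum_comm]
  simp only [Finset.mul_sum]
  rw [← Equiv.sum_comp Fin.revPerm]
  refine Finset.sum_congr rfl fun y _ => Finset.sum_congr rfl fun c _ => ?_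
  have e4 : N - (N - (y : ℕ)) = (y : ℕ) := by have := y.isLt; omega
  simp only [Fin.revPerm_apply, Acts_rev_val, e4]
  ring

theorem bracket_closure {q : ℂ} {N : ℕ} {w : List Piece} {X : Matrix (I2 N) (I2 N) ℂ}
    (h : Acts q N w 0 X) :
    bracket q N ([Piece.cup 0, Piece.cup 1] ++ w ++ [Piece.cap 1, Piece.cap 0]) = trq q N X := by
  set δ : List ℕ → ℂ := fun l => if l = [] then 1 else 0 with hδ
  have e1 : bracket q N ([Piece.cup 0, Piece.cup 1] ++ w ++ [Piece.cap 1, Piece.cap 0]) =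
      act q N (Piece.cap 0) (act q N (Piece.cap 1)
        (eval q N w (act q N (Piece.cup 1) (act q N (Piece.cup 0) δ)))) [] := by
    unfold bracket
    rw [eval_append, eval_append]
    rfl
  have key : ∀ a b : Fin (N + 1),
      eval q N w (act q N (Piece.cup 1) (act q N (Piece.cup 0) δ))
        [(a : ℕ), (b : ℕ), N - b, N - a] = X (a, b) (a, b) * (cupc q N b * cupc q N a) := by
    intro a b
    have e2 := h (act q N (Piece.cup 1) (act q N (Piece.cup 0) δ)) [] [N - b, N - a] (a, b) rfl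
    simp only [List.nil_append] at e2
    rw [e2, Finset.sum_eq_single (a, b)]
    · simp only [act, List.drop_succ_cons, List.drop_zero, List.take_succ_cons, List.take_zero]
      rw [if_pos (by have := b.isLt; omega)]
      simp only [List.cons_append, List.nil_append]
      rw [if_pos (by have := a.isLt; omega)]
      simp [hδ]
    · intro y _ hy
      simp only [act, List.drop_succ_cons, List.drop_zero, List.take_succ_cons, List.take_zero,
        List.cons_append, List.nil_append]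
      by_cases h1 : (y.2 : ℕ) + (N - b) = N
      · rw [if_pos h1, if_neg, mul_zero, mul_zero]
        intro h2
        apply hy
        have := a.isLt
        have := b.isLt
        exact Prod.ext (Fin.ext (show (y.1 : ℕ) = (a : ℕ) by omega))
          (Fin.ext (show (y.2 : ℕ) = (b : ℕ) by omega))
      · rw [if_neg h1, mul_zero]
    · intro hne
      exact absurd (Finset.mem_univ _) hne
  rw [e1]
  simp only [act, List.drop_zero, List.take_zero, List.nil_append, List.drop_succ_cons,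
    List.take_succ_cons, List.cons_append, List.drop_nil, Finset.sum_range, key, trq,
    Fintype.sum_prod_type, Finset.mul_sum]
  refine Finset.sum_congr rfl fun a _ => Finset.sum_congr rfl fun b _ => ?_
  ring

end Pool.Agent.H63.VC10

end

section

/-! # The sum for the quantum `6j`-symbols -/

namespace Pool.Agent.H63.VC10

open Pool.Agent.H63.VC7 Matrix

/-- The basis functions in the formula for the `6j`-symbols. -/
noncomputable def om (q : ℂ) (t k : ℕ) : ℂ :=
  ∏ i ∈ Finset.range t, (br q ((k : ℤ) + i + 1) * br q ((k : ℤ) - i))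

theorem Ker_om_zero (q : ℂ) (k : ℕ) : om q 0 k = 1 := by simp [om]

theorem Ker_om_succ (q : ℂ) (t k : ℕ) :
    om q (t + 1) k = om q t k * (br q ((k : ℤ) + t + 1) * br q ((k : ℤ) - t)) := by
  unfold om; rw [Finset.prod_range_succ]

theorem Ker_om_lt (q : ℂ) (t k : ℕ) (h : k < t) : om q t k = 0 := by
  unfold om
  apply Finset.prod_eq_zero (Finset.mem_range.2 h)
  rw [sub_self, br_zero, mul_zero]

theorem Ker_om_brf (q : ℂ) (t d : ℕ) : om q t (t + d) * brf q d = brf q (2 * t + d) := by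
  induction t generalizing d with
  | zero => simp [Ker_om_zero]
  | succ t ih =>
    have h := ih (d + 1)
    rw [show t + 1 + d = t + (d + 1) by ring, Ker_om_succ,
      show 2 * (t + 1) + d = (2 * t + (d + 1)) + 1 by ring, brf_succ, ← h, brf_succ,
      show (((t + (d + 1) : ℕ)) : ℤ) + t + 1 = ((2 * t + (d + 1) : ℕ) : ℤ) + 1 by push_cast; ring,
      show (((t + (d + 1) : ℕ)) : ℤ) - t = (d : ℤ) + 1 by push_cast; ring]
    ring

theorem Ker_prod_up (q : ℂ) (a t : ℕ) :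
    brf q a * ∏ i ∈ Finset.range t, br q ((a : ℤ) + i + 1) = brf q (a + t) := by
  induction t with
  | zero => simp
  | succ t ih =>
    rw [Finset.prod_range_succ, ← mul_assoc, ih, show a + (t + 1) = (a + t) + 1 by ring, brf_succ,
      show ((a + t : ℕ) : ℤ) + 1 = (a : ℤ) + t + 1 by push_cast; ring]

theorem Ker_prod_down (q : ℂ) (a t : ℕ) :
    brf q a * ∏ i ∈ Finset.range t, br q (((a + t : ℕ) : ℤ) - i) = brf q (a + t) := by
  induction t generalizing a with
  | zero => simp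
  | succ t ih =>
    have h1 := ih (a + 1)
    rw [show a + 1 + t = a + (t + 1) by ring] at h1
    rw [Finset.prod_range_succ, ← h1, brf_succ,
      show ((a + (t + 1) : ℕ) : ℤ) - t = (a : ℤ) + 1 by push_cast; ring]
    ring

theorem sixj_om (q : ℂ) (n : ℕ) (h : Gen q n) (k l : ℕ) :
    sixj q n k l = ∑ t ∈ Finset.range (n + 1), (-1) ^ t *
      (brf q (n + 1) * brf q (n - t) / (brf q t ^ 2 * brf q n * brf q (n + t + 1))) *
        (om q t k * om q t l) := by
  unfold sixj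
  refine Finset.sum_congr rfl fun t ht => ?_
  obtain ⟨d, rfl⟩ : ∃ d, n = d + t := ⟨n - t, by have := Finset.mem_range.1 ht; omega⟩
  have h1 : ∏ i ∈ Finset.range t, br q ((((d + t : ℕ) : ℕ) : ℤ) + i + 2) ≠ 0 :=
    Finset.prod_ne_zero_iff.2 fun i hi => h.ne (by omega)
      (by have := Finset.mem_range.1 hi; push_cast; omega)
  have h2 : ∏ i ∈ Finset.range t, br q ((((d + t : ℕ) : ℕ) : ℤ) - i) ≠ 0 :=
    Finset.prod_ne_zero_iff.2 fun i hi => h.ne
      (by have := Finset.mem_range.1 hi; push_cast; omega)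
      (by have := Finset.mem_range.1 hi; push_cast; omega)
  have e1 := Ker_prod_up q (d + t + 1) t
  have e2 := Ker_prod_down q d t
  have e3 : ∏ i ∈ Finset.range t, br q (((d + t + 1 : ℕ) : ℤ) + i + 1) =
      ∏ i ∈ Finset.range t, br q (((d + t : ℕ) : ℤ) + i + 2) :=
    Finset.prod_congr rfl fun i _ => by
      rw [show ((d + t + 1 : ℕ) : ℤ) + i + 1 = ((d + t : ℕ) : ℤ) + i + 2 by push_cast; ring]
  rw [e3] at e1
  have e4 : ∏ i ∈ Finset.range t, (br q ((k : ℤ) + i + 1) * br q ((k : ℤ) - i) *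
      (br q ((l : ℤ) + i + 1) * br q ((l : ℤ) - i))) /
      (br q ((i : ℤ) + 1) ^ 2 * (br q (((d + t : ℕ) : ℤ) + i + 2) * br q (((d + t : ℕ) : ℤ) - i))) =
      om q t k * om q t l / (brf q t ^ 2 *
        ((∏ i ∈ Finset.range t, br q (((d + t : ℕ) : ℤ) + i + 2)) *
          ∏ i ∈ Finset.range t, br q (((d + t : ℕ) : ℤ) - i))) := by
    simp only [Finset.prod_div_distrib, Finset.prod_mul_distrib, Finset.prod_pow, om, brf]
  rw [e4, Nat.add_sub_cancel, show d + t + t + 1 = d + t + 1 + t by ring, ← e1, ← e2]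
  have g1 : brf q (d + t + 1) ≠ 0 := h.brf_ne (by omega)
  have g2 : brf q t ≠ 0 := h.brf_ne (by omega)
  have g3 : brf q d ≠ 0 := h.brf_ne (by omega)
  field_simp

theorem Ker_om_E1 (q : ℂ) (hq : q ≠ 0) (m k t : ℕ) (hm : br q (m : ℤ) ≠ 0) :
    br q (m : ℤ) ^ 2 * (E1 q m k * om q t k) =
      om q (t + 1) k - br q ((m : ℤ) - t) * br q ((m : ℤ) + t + 1) * om q t k := by
  have key := br_three_term q hq ((m : ℤ) - t) ((m : ℤ) - k) ((k : ℤ) + t + 1)
  rw [show (m : ℤ) - k + (k + t + 1) = (m : ℤ) + t + 1 by ring,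
    show (m : ℤ) - t + (k + t + 1) = (m : ℤ) + k + 1 by ring,
    show (m : ℤ) - t - (m - k) = (k : ℤ) - t by ring] at key
  rw [Ker_om_succ, key]
  unfold E1
  field_simp
  ring

theorem Ker_base (q : ℂ) (hq : q ≠ 0) (t d : ℕ) :
    brf q d * br q ((t : ℤ) + 1) *
      ∑ l ∈ Finset.range (t + d + 1), br q (2 * (l : ℤ) + 1) * om q t l =
      br q ((t : ℤ) + d + 1) * brf q (2 * t + d + 1) := by
  induction d with
  | zero =>
    rw [Finset.sum_range_succ, Finset.sum_eq_zero fun l hl => by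
      rw [Ker_om_lt q t l (by simpa using hl), mul_zero]]
    have h := Ker_om_brf q t 0
    simp only [brf_zero, mul_one, add_zero] at h
    rw [brf_succ, h, brf_zero]
    push_cast
    ring_nf
  | succ d ih =>
    have h := Ker_om_brf q t (d + 1)
    have key := br_three_term q hq ((t : ℤ) + d + 2) ((t : ℤ) + 1) ((t : ℤ) + d + 1)
    rw [show (t : ℤ) + 1 + (t + d + 1) = 2 * t + d + 2 by ring,
      show (t : ℤ) + d + 2 + (t + d + 1) = 2 * (t + d + 1) + 1 by ring,
      show (t : ℤ) + d + 2 - (t + 1) = (d : ℤ) + 1 by ring] at key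
    rw [show t + (d + 1) + 1 = (t + d + 1) + 1 by ring, Finset.sum_range_succ,
      show t + d + 1 = t + (d + 1) by ring,
      show 2 * t + (d + 1) + 1 = (2 * t + (d + 1)) + 1 by ring, brf_succ q (2 * t + (d + 1))]
    rw [show t + d + 1 = t + (d + 1) by ring, show 2 * t + d + 1 = 2 * t + (d + 1) by ring] at ih
    rw [show (t : ℤ) + ((d + 1 : ℕ) : ℤ) + 1 = (t : ℤ) + d + 2 by push_cast; ring,
      show ((2 * t + (d + 1) : ℕ) : ℤ) + 1 = 2 * t + d + 2 by push_cast; ring,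
      show 2 * ((t + (d + 1) : ℕ) : ℤ) + 1 = 2 * (t + d + 1) + 1 by push_cast; ring]
    rw [mul_add]
    have e1 : brf q (d + 1) * br q ((t : ℤ) + 1) *
        ∑ l ∈ Finset.range (t + (d + 1)), br q (2 * (l : ℤ) + 1) * om q t l =
        br q ((d : ℤ) + 1) * (br q ((t : ℤ) + d + 1) * brf q (2 * t + (d + 1))) := by
      rw [← ih, brf_succ]; ring
    have e2 : brf q (d + 1) * br q ((t : ℤ) + 1) *
        (br q (2 * ((t : ℤ) + d + 1) + 1) * om q t (t + (d + 1))) =
        br q ((t : ℤ) + 1) * br q (2 * ((t : ℤ) + d + 1) + 1) * brf q (2 * t + (d + 1)) := by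
      rw [← h]; ring
    rw [e1, e2]
    linear_combination (-brf q (2 * t + (d + 1))) * key

/-- The sum over `l`. By induction on `j`, using
`om (t + 1) l = br (n - j) ^ 2 * E1 (n - j) l * om t l + br (n - j - t) * br (n - j + t + 1) * om t l`. -/
theorem H_sum (q : ℂ) (n j t : ℕ) (h : Gen q n) (hj : j ≤ n) :
    ∑ l ∈ Finset.range (n + 1), br q (2 * (l : ℤ) + 1) / br q 1 * om q t l * EE q n j l =
      if t + j ≤ n then (-1) ^ j * (br q ((n : ℤ) + 1) / br q 1) *
        (brf q (n - j) * brf q (n + t + 1) * brf q j * brf q t /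
          (brf q n * brf q (n - t - j) * brf q (t + j + 1))) else 0 := by
  have hb1 : br q 1 ≠ 0 := h.ne (by omega) (by omega)
  induction j generalizing t with
  | zero =>
    have e : ∑ l ∈ Finset.range (n + 1), br q (2 * (l : ℤ) + 1) / br q 1 * om q t l * EE q n 0 l =
        (∑ l ∈ Finset.range (n + 1), br q (2 * (l : ℤ) + 1) * om q t l) / br q 1 := by
      rw [Finset.sum_div]
      refine Finset.sum_congr rfl fun l _ => ?_
      simp only [EE, Finset.range_zero, Finset.prod_empty]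
      ring
    rw [e]
    by_cases ht : t ≤ n
    · obtain ⟨d, rfl⟩ : ∃ d, n = t + d := ⟨n - t, by omega⟩
      have hB := Ker_base q h.1 t d
      have g1 : brf q d ≠ 0 := h.brf_ne (by omega)
      have g2 : br q ((t : ℤ) + 1) ≠ 0 := h.ne (by omega) (by push_cast; omega)
      have g3 : brf q (t + d) ≠ 0 := h.brf_ne (by omega)
      have g4 : brf q t ≠ 0 := h.brf_ne (by omega)
      rw [if_pos (by omega), Nat.sub_zero, Nat.sub_zero, Nat.add_sub_cancel_left, add_zero,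
        brf_succ q t, show t + d + t + 1 = 2 * t + d + 1 by ring, brf_zero, pow_zero,
        show ((t + d : ℕ) : ℤ) + 1 = (t : ℤ) + d + 1 by push_cast; ring]
      field_simp
      linear_combination hB
    · rw [if_neg (by omega), Finset.sum_eq_zero fun l hl => by
        rw [Ker_om_lt q t l (by have := Finset.mem_range.1 hl; omega), mul_zero], zero_div]
  | succ j ih =>
    obtain ⟨p, rfl⟩ : ∃ p, n = j + 1 + p := ⟨n - (j + 1), by omega⟩
    have hm : br q ((p + 1 : ℕ) : ℤ) ≠ 0 := h.ne (by push_cast; omega) (by push_cast; omega)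
    have ih1 := ih (t + 1) (by omega)
    have ih0 := ih t (by omega)
    have hrec : br q ((p + 1 : ℕ) : ℤ) ^ 2 * ∑ l ∈ Finset.range (j + 1 + p + 1),
          br q (2 * (l : ℤ) + 1) / br q 1 * om q t l * EE q (j + 1 + p) (j + 1) l =
        (∑ l ∈ Finset.range (j + 1 + p + 1),
          br q (2 * (l : ℤ) + 1) / br q 1 * om q (t + 1) l * EE q (j + 1 + p) j l) -
        br q (((p + 1 : ℕ) : ℤ) - t) * br q (((p + 1 : ℕ) : ℤ) + t + 1) *
          ∑ l ∈ Finset.range (j + 1 + p + 1),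
            br q (2 * (l : ℤ) + 1) / br q 1 * om q t l * EE q (j + 1 + p) j l := by
      rw [Finset.mul_sum, Finset.mul_sum, ← Finset.sum_sub_distrib]
      refine Finset.sum_congr rfl fun l _ => ?_
      have e1 : EE q (j + 1 + p) (j + 1) l = EE q (j + 1 + p) j l * E1 q (p + 1) l := by
        unfold EE
        rw [Finset.prod_range_succ, show j + 1 + p - j = p + 1 by omega]
      have e2 := Ker_om_E1 q h.1 (p + 1) l t hm
      rw [e1]
      linear_combination (br q (2 * (l : ℤ) + 1) / br q 1 * EE q (j + 1 + p) j l) * e2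
    rw [ih1, ih0] at hrec
    have hm2 : br q ((p + 1 : ℕ) : ℤ) ^ 2 ≠ 0 := pow_ne_zero _ hm
    apply mul_left_cancel₀ hm2
    rw [hrec]
    by_cases h1 : t ≤ p
    · obtain ⟨s, rfl⟩ : ∃ s, p = t + s := ⟨p - t, by omega⟩
      rw [if_pos (by omega), if_pos (by omega), if_pos (by omega)]
      have key := br_three_term q h.1 ((s : ℤ) + 2 * t + 2) ((t : ℤ) + 1) ((j : ℤ) + 1)
      rw [show (t : ℤ) + 1 + (j + 1) = ((t + j + 1 : ℕ) : ℤ) + 1 by push_cast; ring,
        show (s : ℤ) + 2 * t + 2 + (j + 1) = ((j + 1 + (t + s) + t + 1 : ℕ) : ℤ) + 1 by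
          push_cast; ring,
        show (s : ℤ) + 2 * t + 2 - (t + 1) = ((t + s + 1 : ℕ) : ℤ) by push_cast; ring,
        show (s : ℤ) + 2 * t + 2 = ((t + s + 1 : ℕ) : ℤ) + t + 1 by push_cast; ring] at key
      have f1 : brf q (j + 1 + (t + s) + (t + 1) + 1) = brf q (j + 1 + (t + s) + t + 1) *
          br q (((j + 1 + (t + s) + t + 1 : ℕ) : ℤ) + 1) := by
        rw [← brf_succ]; congr 1
      have f2 : brf q (t + 1) = brf q t * br q ((t : ℤ) + 1) := brf_succ q t
      have f3 : brf q (j + 1) = brf q j * br q ((j : ℤ) + 1) := brf_succ q j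
      have f4 : brf q (j + 1 + (t + s) - t - j) = brf q s * br q ((s : ℤ) + 1) := by
        rw [← brf_succ]; congr 1; omega
      have f5 : brf q (t + 1 + j + 1) = brf q (t + j + 1) * br q (((t + j + 1 : ℕ) : ℤ) + 1) := by
        rw [← brf_succ]; congr 1; ring
      have f6 : brf q (t + (j + 1) + 1) =
          brf q (t + j + 1) * br q (((t + j + 1 : ℕ) : ℤ) + 1) := by
        rw [← brf_succ]; congr 1
      have f7 : brf q (j + 1 + (t + s) - j) = brf q (t + s) * br q ((t + s + 1 : ℕ) : ℤ) := by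
        rw [show ((t + s + 1 : ℕ) : ℤ) = ((t + s : ℕ) : ℤ) + 1 by push_cast; ring, ← brf_succ]
        congr 1; omega
      have f8 : br q (((t + s + 1 : ℕ) : ℤ) - t) = br q ((s : ℤ) + 1) := by
        congr 1; push_cast; ring
      have s1 : j + 1 + (t + s) - (t + 1) - j = s := by omega
      have s2 : j + 1 + (t + s) - (j + 1) = t + s := by omega
      have s3 : j + 1 + (t + s) - t - (j + 1) = s := by omega
      rw [f1, f2, f3, f4, f5, f6, f7, f8, s1, s2, s3]
      have g1 : brf q (j + 1 + (t + s)) ≠ 0 := h.brf_ne (by omega)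
      have g2 : brf q s ≠ 0 := h.brf_ne (by omega)
      have g3 : brf q (t + j + 1) ≠ 0 := h.brf_ne (by omega)
      have g4 : br q (((t + j + 1 : ℕ) : ℤ) + 1) ≠ 0 := h.ne (by push_cast; omega)
        (by push_cast; omega)
      have g5 : br q ((s : ℤ) + 1) ≠ 0 := h.ne (by omega) (by push_cast; omega)
      generalize br q (((t + s + 1 : ℕ) : ℤ) + t + 1) = X1 at *
      generalize br q (((t + j + 1 : ℕ) : ℤ) + 1) = X2 at *
      generalize br q (((j + 1 + (t + s) + t + 1 : ℕ) : ℤ) + 1) = X3 at *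
      generalize br q ((t : ℤ) + 1) = X4 at *
      generalize br q ((j : ℤ) + 1) = X5 at *
      generalize br q ((t + s + 1 : ℕ) : ℤ) = X6 at *
      generalize br q ((s : ℤ) + 1) = X7 at *
      generalize brf q (j + 1 + (t + s)) = Y1 at *
      generalize brf q s = Y2 at *
      generalize brf q (t + j + 1) = Y3 at *
      generalize brf q (t + s) = Y4 at *
      generalize brf q (j + 1 + (t + s) + t + 1) = Y5 at *
      generalize brf q j = Y6 at *
      generalize brf q t = Y7 at *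
      generalize br q (((j + 1 + (t + s) : ℕ) : ℤ) + 1) = Y8 at *
      rw [pow_succ (-1 : ℂ) j]
      field_simp
      linear_combination (-(Y8 * Y4 * Y5 * Y6 * Y7)) * key
    · rw [if_neg (show ¬ (t + 1 + j ≤ j + 1 + p) by omega),
        if_neg (show ¬ (t + (j + 1) ≤ j + 1 + p) by omega), mul_zero, zero_sub]
      by_cases h2 : t = p + 1
      · subst h2
        rw [show ((p + 1 : ℕ) : ℤ) - ((p + 1 : ℕ) : ℤ) = 0 by ring, br_zero]
        ring
      · rw [if_neg (by omega), mul_zero, neg_zero]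

theorem Ker_shift (f g w v : ℕ → ℂ) (i : ℕ) (h0 : w 0 = g 0) (h1 : w (i + 1) = f i)
    (h2 : ∀ t < i, w (t + 1) = f t + g (t + 1)) :
    ∑ t ∈ Finset.range (i + 1 + 1), w t * v t =
      (∑ t ∈ Finset.range (i + 1), f t * v (t + 1)) + ∑ t ∈ Finset.range (i + 1), g t * v t := by
  rw [Finset.sum_range_succ', Finset.sum_range_succ, Finset.sum_range_succ (fun t => f t * v (t + 1)),
    Finset.sum_range_succ' (fun t => g t * v t), h0, h1,
    Finset.sum_congr rfl fun t ht => by rw [h2 t (Finset.mem_range.1 ht), add_mul],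
    Finset.sum_add_distrib]
  ring

/-- The expansion of `EE n i` in the functions `om t`, by induction on `i`. -/
theorem EE_om (q : ℂ) (n i k : ℕ) (h : Gen q n) (hi : i ≤ n) :
    EE q n i k = ∑ t ∈ Finset.range (i + 1), (-1) ^ (t + i) *
      (brf q (n + 1) * brf q (n - t) * brf q i * brf q (n - i) /
        (brf q t * brf q n ^ 2 * brf q (i - t) * brf q (n - i + t + 1))) * om q t k := by
  induction i with
  | zero =>
    have g1 : brf q n ≠ 0 := h.brf_ne (by omega)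
    have g2 : brf q (n + 1) ≠ 0 := h.brf_ne (by omega)
    simp only [EE, Finset.range_zero, Finset.prod_empty, zero_add, Finset.range_one,
      Finset.sum_singleton, Nat.sub_zero, brf_zero, Ker_om_zero, pow_zero, add_zero]
    field_simp
  | succ i ih =>
    obtain ⟨p, rfl⟩ : ∃ p, n = i + 1 + p := ⟨n - (i + 1), by omega⟩
    have hm : br q ((p + 1 : ℕ) : ℤ) ≠ 0 := h.ne (by push_cast; omega) (by push_cast; omega)
    have hm2 : br q ((p + 1 : ℕ) : ℤ) ^ 2 ≠ 0 := pow_ne_zero _ hm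
    have e1 : EE q (i + 1 + p) (i + 1) k = EE q (i + 1 + p) i k * E1 q (p + 1) k := by
      unfold EE
      rw [Finset.prod_range_succ, show i + 1 + p - i = p + 1 by omega]
    apply mul_left_cancel₀ hm2
    rw [e1, ih (by omega), Finset.mul_sum, Finset.sum_mul, Finset.mul_sum]
    have e2 : ∀ t ∈ Finset.range (i + 1), br q ((p + 1 : ℕ) : ℤ) ^ 2 * ((-1) ^ (t + i) *
        (brf q (i + 1 + p + 1) * brf q (i + 1 + p - t) * brf q i * brf q (i + 1 + p - i) /
        (brf q t * brf q (i + 1 + p) ^ 2 * brf q (i - t) * brf q (i + 1 + p - i + t + 1))) *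
          om q t k * E1 q (p + 1) k) =
        ((-1) ^ (t + i) *
        (brf q (i + 1 + p + 1) * brf q (i + 1 + p - t) * brf q i * brf q (i + 1 + p - i) /
        (brf q t * brf q (i + 1 + p) ^ 2 * brf q (i - t) * brf q (i + 1 + p - i + t + 1)))) *
          om q (t + 1) k +
        (-(-1) ^ (t + i) *
        (brf q (i + 1 + p + 1) * brf q (i + 1 + p - t) * brf q i * brf q (i + 1 + p - i) /
        (brf q t * brf q (i + 1 + p) ^ 2 * brf q (i - t) * brf q (i + 1 + p - i + t + 1))) *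
          (br q (((p + 1 : ℕ) : ℤ) - t) * br q (((p + 1 : ℕ) : ℤ) + t + 1))) * om q t k := by
      intro t _
      have e3 := Ker_om_E1 q h.1 (p + 1) k t hm
      linear_combination ((-1) ^ (t + i) *
        (brf q (i + 1 + p + 1) * brf q (i + 1 + p - t) * brf q i * brf q (i + 1 + p - i) /
        (brf q t * brf q (i + 1 + p) ^ 2 * brf q (i - t) * brf q (i + 1 + p - i + t + 1)))) * e3
    rw [Finset.sum_congr rfl e2, Finset.sum_add_distrib]
    symm
    have e4 : ∀ t ∈ Finset.range (i + 1 + 1), br q ((p + 1 : ℕ) : ℤ) ^ 2 * ((-1) ^ (t + (i + 1)) *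
        (brf q (i + 1 + p + 1) * brf q (i + 1 + p - t) * brf q (i + 1) *
          brf q (i + 1 + p - (i + 1)) /
        (brf q t * brf q (i + 1 + p) ^ 2 * brf q (i + 1 - t) *
          brf q (i + 1 + p - (i + 1) + t + 1))) * om q t k) =
        (br q ((p + 1 : ℕ) : ℤ) ^ 2 * ((-1) ^ (t + (i + 1)) *
        (brf q (i + 1 + p + 1) * brf q (i + 1 + p - t) * brf q (i + 1) *
          brf q (i + 1 + p - (i + 1)) /
        (brf q t * brf q (i + 1 + p) ^ 2 * brf q (i + 1 - t) *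
          brf q (i + 1 + p - (i + 1) + t + 1))))) * om q t k := fun t _ => by ring
    rw [Finset.sum_congr rfl e4]
    have a1 : brf q (i + 1) = brf q i * br q ((i : ℤ) + 1) := brf_succ q i
    have a2 : brf q (i + 1 + p - i) = brf q p * br q ((p + 1 : ℕ) : ℤ) := by
      rw [show i + 1 + p - i = p + 1 by omega, brf_succ]; push_cast; ring
    have a3 : i + 1 + p - (i + 1) = p := by omega
    have a4 : i + 1 + p - i = p + 1 := by omega
    have g1 : brf q (i + 1 + p) ≠ 0 := h.brf_ne (by omega)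
    have g3 : brf q p ≠ 0 := h.brf_ne (by omega)
    have g4 : brf q i ≠ 0 := h.brf_ne (by omega)
    refine Ker_shift _ _ _ _ i ?_ ?_ ?_
    · rw [a1, a2, a3, a4]
      have b1 : brf q (p + 1 + 0 + 1) = brf q (p + 0 + 1) * br q (((p + 1 : ℕ) : ℤ) + 1) := by
        rw [← brf_succ]
      have b2 : brf q (i + 1 - 0) = brf q i * br q ((i : ℤ) + 1) := brf_succ q i
      have g5 : br q (((p + 1 : ℕ) : ℤ) + 1) ≠ 0 := h.ne (by push_cast; omega) (by push_cast; omega)
      have g6 : br q ((i : ℤ) + 1) ≠ 0 := h.ne (by omega) (by push_cast; omega)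
      have g7 : brf q (p + 0 + 1) ≠ 0 := h.brf_ne (by omega)
      rw [b1, b2, Nat.sub_zero, Nat.sub_zero, Nat.cast_zero, sub_zero, zero_add, zero_add,
        add_zero (((p + 1 : ℕ) : ℤ)), pow_succ, brf_zero]
      field_simp
      ring
    · rw [a1, a2, a3, a4]
      have b1 : brf q (i + 1 + p - i) = brf q p * br q ((p + 1 : ℕ) : ℤ) := a2
      have b2 : i + 1 + p - (i + 1) = p := by omega
      have b3 : p + (i + 1) + 1 = p + 1 + i + 1 := by ring
      have g5 : br q ((i : ℤ) + 1) ≠ 0 := h.ne (by omega) (by push_cast; omega)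
      have g6 : brf q (p + 1 + i + 1) ≠ 0 := h.brf_ne (by omega)
      rw [b3, Nat.sub_self, Nat.sub_self, brf_zero,
        show i + 1 + (i + 1) = (i + i) + 1 + 1 by ring, pow_succ, pow_succ]
      field_simp
      try ring
    · intro t ht
      obtain ⟨s, rfl⟩ : ∃ s, i = t + 1 + s := ⟨i - (t + 1), by omega⟩
      have key := br_three_term q h.1 ((p : ℤ) + 1) ((t : ℤ) + 1) ((s : ℤ) + 1)
      rw [show (p : ℤ) + 1 = ((p + 1 : ℕ) : ℤ) by push_cast; ring,
        show (t : ℤ) + 1 + (s + 1) = ((t + 1 + s : ℕ) : ℤ) + 1 by push_cast; ring,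
        show ((p + 1 : ℕ) : ℤ) + (s + 1) = ((s + p + 1 : ℕ) : ℤ) + 1 by push_cast; ring] at key
      have c1 : brf q (t + 1 + s + 1) = brf q (t + 1 + s) * br q (((t + 1 + s : ℕ) : ℤ) + 1) :=
        brf_succ q _
      have c2 : brf q (t + 1 + s + 1 + p - (t + 1)) = brf q (s + p + 1) :=
        congrArg (brf q) (by omega)
      have c3 : brf q (t + 1 + s + 1 + p - (t + 1 + s + 1)) = brf q p :=
        congrArg (brf q) (by omega)
      have c4 : brf q (t + 1) = brf q t * br q ((t : ℤ) + 1) := brf_succ q t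
      have c5 : brf q (t + 1 + s + 1 - (t + 1)) = brf q s * br q ((s : ℤ) + 1) := by
        rw [← brf_succ]; congr 1; omega
      have c6 : brf q (t + 1 + s + 1 + p - (t + 1 + s + 1) + (t + 1) + 1) = brf q (p + t + 2) :=
        congrArg (brf q) (by omega)
      have c7 : brf q (t + 1 + s + 1 + p - t) =
          brf q (s + p + 1) * br q (((s + p + 1 : ℕ) : ℤ) + 1) := by
        rw [← brf_succ]; congr 1; omega
      have c8 : brf q (t + 1 + s + 1 + p - (t + 1 + s)) = brf q p * br q ((p + 1 : ℕ) : ℤ) := by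
        rw [show ((p + 1 : ℕ) : ℤ) = (p : ℤ) + 1 by push_cast; ring, ← brf_succ]
        exact congrArg (brf q) (by omega)
      have c9 : brf q (t + 1 + s - t) = brf q s * br q ((s : ℤ) + 1) := by
        rw [← brf_succ]; congr 1; omega
      have c10 : brf q (t + 1 + s + 1 + p - (t + 1 + s) + t + 1) = brf q (p + t + 2) :=
        congrArg (brf q) (by omega)
      have c11 : brf q (t + 1 + s - (t + 1)) = brf q s :=
        congrArg (brf q) (by omega)
      have c12 : brf q (t + 1 + s + 1 + p - (t + 1 + s) + (t + 1) + 1) =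
          brf q (p + t + 2) * br q (((p + 1 : ℕ) : ℤ) + ((t + 1 : ℕ) : ℤ) + 1) := by
        rw [show ((p + 1 : ℕ) : ℤ) + ((t + 1 : ℕ) : ℤ) + 1 = ((p + t + 2 : ℕ) : ℤ) + 1 by
          push_cast; ring, ← brf_succ]
        congr 1; omega
      have c13 : br q (((p + 1 : ℕ) : ℤ) - ((t + 1 : ℕ) : ℤ)) =
          br q (((p + 1 : ℕ) : ℤ) - ((t : ℤ) + 1)) := by push_cast; rfl
      rw [c12, c10, c6, c1, c2, c3, c4, c5, c7, c8, c9, c11, c13]
      have g5 : brf q (p + t + 2) ≠ 0 := h.brf_ne (by omega)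
      have g6 : br q ((s : ℤ) + 1) ≠ 0 := h.ne (by omega) (by push_cast; omega)
      have g7 : br q ((t : ℤ) + 1) ≠ 0 := h.ne (by omega) (by push_cast; omega)
      have g8 : br q (((p + 1 : ℕ) : ℤ) + ((t + 1 : ℕ) : ℤ) + 1) ≠ 0 :=
        h.ne (by push_cast; omega) (by push_cast; omega)
      have g9 : brf q t ≠ 0 := h.brf_ne (by omega)
      have g10 : brf q s ≠ 0 := h.brf_ne (by omega)
      clear e4 e2 e1 ih
      generalize br q (((p + 1 : ℕ) : ℤ) - ((t : ℤ) + 1)) = X1 at *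
      generalize br q (((p + 1 : ℕ) : ℤ) + ((t + 1 : ℕ) : ℤ) + 1) = X2 at *
      generalize br q ((t : ℤ) + 1) = X3 at *
      generalize br q ((s : ℤ) + 1) = X4 at *
      generalize br q (((s + p + 1 : ℕ) : ℤ) + 1) = X5 at *
      generalize br q (((t + 1 + s : ℕ) : ℤ) + 1) = X6 at *
      generalize br q ((p + 1 : ℕ) : ℤ) = X7 at *
      rw [show t + 1 + (t + 1 + s + 1) = (t + (t + 1 + s)) + 1 + 1 by ring,
        show t + 1 + (t + 1 + s) = (t + (t + 1 + s)) + 1 by ring, pow_succ, pow_succ]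
      field_simp
      linear_combination (-(brf q (t + 1 + s + 1 + p + 1) * brf q (s + p + 1) *
        ((-1) ^ (t * 2) * (-1) ^ s))) * key

theorem sixj_EE (q : ℂ) (n j k : ℕ) (h : Gen q n) (hj : j ≤ n) :
    ∑ l ∈ Finset.range (n + 1), br q (2 * (l : ℤ) + 1) / br q 1 * sixj q n k l * EE q n j l =
      (-1) ^ n * (br q ((n : ℤ) + 1) / br q 1) * EE q n (n - j) k := by
  have e1 : ∀ l ∈ Finset.range (n + 1),
      br q (2 * (l : ℤ) + 1) / br q 1 * sixj q n k l * EE q n j l =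
      ∑ t ∈ Finset.range (n + 1), ((-1) ^ t *
      (brf q (n + 1) * brf q (n - t) / (brf q t ^ 2 * brf q n * brf q (n + t + 1))) *
        om q t k) * (br q (2 * (l : ℤ) + 1) / br q 1 * om q t l * EE q n j l) := by
    intro l _
    rw [sixj_om q n h, Finset.mul_sum, Finset.sum_mul]
    exact Finset.sum_congr rfl fun t _ => by ring
  rw [Finset.sum_congr rfl e1, Finset.sum_comm]
  simp only [← Finset.mul_sum]
  rw [EE_om q n (n - j) k h (by omega), Finset.mul_sum,
    ← Finset.sum_subset (Finset.range_mono (show n - j + 1 ≤ n + 1 by omega)) (fun t ht ht' => by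
      rw [H_sum q n j t h hj, if_neg (by
        have := Finset.mem_range.1 ht
        have h5 : ¬ (t < n - j + 1) := fun h => ht' (Finset.mem_range.2 h)
        omega), mul_zero])]
  refine Finset.sum_congr rfl fun t ht => ?_
  obtain ⟨p, rfl⟩ : ∃ p, n = j + p := ⟨n - j, by omega⟩
  obtain ⟨s, rfl⟩ : ∃ s, p = t + s := ⟨p - t, by have := Finset.mem_range.1 ht; omega⟩
  rw [H_sum q _ j t h hj, if_pos (by omega)]
  have s1 : j + (t + s) - j = t + s := by omega
  have s2 : j + (t + s) - t - j = s := by omega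
  have s3 : j + (t + s) - (t + s) = j := by omega
  have s4 : t + s - t = s := by omega
  rw [s1, s2, s3, s4, show j + t + 1 = t + j + 1 by ring]
  have g1 : brf q (j + (t + s)) ≠ 0 := h.brf_ne (by omega)
  have g2 : brf q t ≠ 0 := h.brf_ne (by omega)
  have g3 : brf q s ≠ 0 := h.brf_ne (by omega)
  have g4 : brf q (t + j + 1) ≠ 0 := h.brf_ne (by omega)
  have g5 : brf q (j + (t + s) + t + 1) ≠ 0 := h.brf_ne (by omega)
  have g6 : br q 1 ≠ 0 := h.ne (by omega) (by omega)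
  have hs : ((-1 : ℂ)) ^ (j + (t + s)) * (-1) ^ (t + (t + s)) = (-1) ^ t * (-1) ^ j := by
    rw [← pow_add, ← pow_add, show j + (t + s) + (t + (t + s)) = (t + j) + 2 * (t + s) by ring,
      pow_add, pow_mul]
    norm_num
  have e2 : (-1) ^ (j + (t + s)) * (br q (((j + (t + s) : ℕ) : ℤ) + 1) / br q 1) *
      ((-1) ^ (t + (t + s)) * (brf q (j + (t + s) + 1) * brf q (j + (t + s) - t) *
        brf q (t + s) * brf q j /
        (brf q t * brf q (j + (t + s)) ^ 2 * brf q s * brf q (t + j + 1))) * om q t k) =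
      ((-1) ^ (j + (t + s)) * (-1) ^ (t + (t + s))) * ((br q (((j + (t + s) : ℕ) : ℤ) + 1) / br q 1) *
      ((brf q (j + (t + s) + 1) * brf q (j + (t + s) - t) *
        brf q (t + s) * brf q j /
        (brf q t * brf q (j + (t + s)) ^ 2 * brf q s * brf q (t + j + 1))) * om q t k)) := by ring
  rw [e2, hs]
  field_simp

end Pool.Agent.H63.VC10

end
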