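import Pool.Agent.H94.PA.H63.VC10.RD
import Pool.Agent.H94.PA.M03
import Pool.Agent.H94.PA.M05
import Pool.Agent.H94.PA.M06

/-! The parts of this file: H63.VC10.ROh, H63.VC10.DPf, H63.VC10.Rot, H63.VC10.Newton, H63.VC10.Bra, H63.VC10.PhEq, H63.VC10.Brac, H63.VC10.Chk10. -/

section

/-! # The eigenvalues of the crossings -/

namespace Pool.Agent.H63.VC10

open Pool.Agent.H63.VC7 Matrix

/-- A column of a matrix product, when the second factor has a single nonzero entry in it. -/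
theorem ROh_single {α : Type*} {n : ℕ} (A : Matrix α (I2 n) ℂ) (B : Matrix (I2 n) (I2 n) ℂ) (s : α)
    (y x : I2 n) (hx : ∀ z : I2 n, z ≠ x → B z y = 0) : (A * B) s y = A s x * B x y := by
  rw [Matrix.mul_apply]
  refine Finset.sum_eq_single x ?_ ?_
  · intro z _ hz
    rw [hx z hz, mul_zero]
  · intro hz
    exact absurd (Finset.mem_univ x) hz

theorem ROh_col (q : ℂ) (n : ℕ) {α : Type*} (G : Matrix α (I2 (n + 1)) ℂ) (s : α) (a b : ℕ)
    (ha : a < n + 1) (hb : b < n + 1) :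
    (G * DD q n) s (⟨a, ha⟩, ⟨b, hb⟩) =
      G s (⟨a, by omega⟩, ⟨b + 1, by omega⟩) * q ^ ((a : ℤ) + n - (b : ℤ)) +
        G s (⟨a + 1, by omega⟩, ⟨b, by omega⟩) * (-q⁻¹) := by
  rw [Matrix.mul_apply]
  simp only [DD, mul_add, Finset.sum_add_distrib]
  congr 1
  · rw [Finset.sum_eq_single ((⟨a, by omega⟩, ⟨b + 1, by omega⟩) : I2 (n + 1))]
    · simp
    · rintro ⟨⟨z1, h1⟩, ⟨z2, h2⟩⟩ _ hz
      rw [if_neg, mul_zero]
      rintro ⟨e1, e2⟩
      apply hz
      simp only at e1 e2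
      subst e1 e2
      rfl
    · intro hz
      exact absurd (Finset.mem_univ _) hz
  · rw [Finset.sum_eq_single ((⟨a + 1, by omega⟩, ⟨b, by omega⟩) : I2 (n + 1))]
    · simp
    · rintro ⟨⟨z1, h1⟩, ⟨z2, h2⟩⟩ _ hz
      rw [if_neg, mul_zero]
      rintro ⟨e1, e2⟩
      apply hz
      simp only at e1 e2
      subst e1 e2
      rfl
    · intro hz
      exact absurd (Finset.mem_univ _) hz

/-- The version of `Mm_of_ext` for the vectors `e_a ⊗ e_0` and `e_{n+1} ⊗ e_b`. -/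
theorem ROh_ext (q : ℂ) (n : ℕ) (hq : q ≠ 0) (c : ℂ) (Z : Matrix (I2 (n + 1)) (I2 (n + 1)) ℂ)
    (Z' : Matrix (I2 n) (I2 n) ℂ) (hD : Z * DD q n = DD q n * Z')
    (h1 : ∀ (s : Fin (2 * (n + 1) + 1)) (y : I2 (n + 1)), (y.2 : ℕ) = 0 ∨ (y.1 : ℕ) = n + 1 →
      (Mm q (n + 1) * Z) s y = c * Mm q (n + 1) s y) :
    Mm q (n + 1) * Z = c • Mm q (n + 1) := by
  have hG : (Mm q (n + 1) * Z - c • Mm q (n + 1)) * DD q n = 0 := by
    rw [Matrix.sub_mul, Matrix.mul_assoc, hD, ← Matrix.mul_assoc, Mm_DD q n hq, Matrix.zero_mul,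
      Matrix.smul_mul, Mm_DD q n hq, smul_zero, sub_zero]
  have key : ∀ (s : Fin (2 * (n + 1) + 1)) (b a : ℕ) (ha : a < n + 1 + 1) (hb : b < n + 1 + 1),
      (Mm q (n + 1) * Z - c • Mm q (n + 1)) s (⟨a, ha⟩, ⟨b, hb⟩) = 0 := by
    intro s b
    induction b with
    | zero =>
      intro a ha hb
      rw [Matrix.sub_apply, Matrix.smul_apply, h1 s _ (Or.inl rfl), smul_eq_mul, sub_self]
    | succ b ih =>
      intro a ha hb
      rcases Nat.lt_or_ge a (n + 1) with h2 | h2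
      · have e := ROh_col q n (Mm q (n + 1) * Z - c • Mm q (n + 1)) s a b h2 (by omega)
        rw [hG, Matrix.zero_apply, ih (a + 1) (by omega) (by omega), zero_mul, add_zero] at e
        rcases mul_eq_zero.1 e.symm with h3 | h3
        · exact h3
        · exact absurd h3 (zpow_ne_zero _ hq)
      · have h4 : a = n + 1 := by omega
        rw [Matrix.sub_apply, Matrix.smul_apply, h1 s _ (Or.inr h4), smul_eq_mul, sub_self]
  ext s y
  have := key s y.2 y.1 y.1.2 y.2.2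
  rw [Matrix.sub_apply, sub_eq_zero] at this
  exact this

theorem ROh_pow {q : ℂ} (hq : q ≠ 0) {a b c e : ℤ} {u : ℂ} (h : a + b = c + e) :
    q ^ a * (u * q ^ b) = u * q ^ c * q ^ e := by
  rw [mul_left_comm, ← zpow_add₀ hq, mul_assoc, ← zpow_add₀ hq, h]

theorem ROh_h0 (q : ℂ) : RM q 0 = tw q 0 • (1 : Matrix (I2 0) (I2 0) ℂ) := by
  ext x y
  have h1 : (x.1 : ℕ) = 0 := by omega
  have h2 : (x.2 : ℕ) = 0 := by omega
  have h : x = y := by ext <;> omega
  subst h
  simp [RM, Rc, tw, brf_zero]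

theorem ROh_h0' (q : ℂ) : RiM q 0 = (tw q 0)⁻¹ • (1 : Matrix (I2 0) (I2 0) ℂ) := by
  ext x y
  have h1 : (x.1 : ℕ) = 0 := by omega
  have h2 : (x.2 : ℕ) = 0 := by omega
  have h : x = y := by ext <;> omega
  subst h
  simp [RiM, Ric, tw, brf_zero]

theorem ROh_tw (q : ℂ) (n : ℕ) : tw q n = (-1) ^ n * q ^ ((n : ℤ) * (n + 1)) := by
  unfold tw
  rw [← zpow_natCast]
  norm_cast

theorem ROh_tw' (q : ℂ) (n : ℕ) : (tw q n)⁻¹ = (-1) ^ n * q ^ (-((n : ℤ) * (n + 1))) := by
  rw [ROh_tw, mul_inv, ← inv_pow, inv_neg, inv_one, ← _root_.zpow_neg]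

/-- The vectors `e_0 ⊗ e_b`. -/
theorem ROh_a (q : ℂ) (n : ℕ) (h : Gen q n) (s : Fin (2 * n + 1)) (y : I2 n) (hy : (y.1 : ℕ) = 0) :
    (Mm q n * RM q n) s y = tw q n * Mm q n s y := by
  have hb := y.2.2
  rw [ROh_single _ _ s y (y.2, y.1)]
  · have hf : brf q (n - (y.2 : ℕ)) ≠ 0 := h.brf_ne (by omega)
    simp only [Mm, RM, Rc, hy, brf_zero]
    by_cases hs : (s : ℕ) = 0 + (y.2 : ℕ)
    · rw [if_pos (by omega), if_pos (by omega), if_pos hs, ROh_tw]
      simp only [Nat.sub_self, Nat.choose_zero_succ, brf_zero, one_mul, mul_one, div_self hf]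
      exact ROh_pow h.1 (by push_cast; ring)
    · rw [if_neg (by omega), if_neg hs, zero_mul, mul_zero]
  · rintro ⟨z1, z2⟩ hz
    simp only [RM, Rc]
    rw [if_neg]
    rintro ⟨e1, e2, e3⟩
    apply hz
    ext <;> simp <;> omega

/-- The vectors `e_a ⊗ e_n`. -/
theorem ROh_b (q : ℂ) (n : ℕ) (h : Gen q n) (s : Fin (2 * n + 1)) (y : I2 n) (hy : (y.2 : ℕ) = n) :
    (Mm q n * RM q n) s y = tw q n * Mm q n s y := by
  have hb := y.1.2
  rw [ROh_single _ _ s y (y.2, y.1)]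
  · have hf : brf q (y.1 : ℕ) ≠ 0 := h.brf_ne (by omega)
    simp only [Mm, RM, Rc, hy]
    by_cases hs : (s : ℕ) = (y.1 : ℕ) + n
    · rw [if_pos (by omega), if_pos (by omega), if_pos hs, ROh_tw]
      simp only [Nat.sub_self, Nat.choose_zero_succ, brf_zero, mul_one, div_self hf]
      exact ROh_pow h.1 (by push_cast; ring)
    · rw [if_neg (by omega), if_neg hs, zero_mul, mul_zero]
  · rintro ⟨z1, z2⟩ hz
    simp only [RM, Rc]
    rw [if_neg]
    rintro ⟨e1, e2, e3⟩
    apply hz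
    ext <;> simp <;> omega

/-- The vectors `e_a ⊗ e_0`. -/
theorem ROh_c (q : ℂ) (n : ℕ) (h : Gen q n) (s : Fin (2 * n + 1)) (y : I2 n) (hy : (y.2 : ℕ) = 0) :
    (Mm q n * RiM q n) s y = (tw q n)⁻¹ * Mm q n s y := by
  have hb := y.1.2
  rw [ROh_single _ _ s y (y.2, y.1)]
  · have hf : brf q (n - (y.1 : ℕ)) ≠ 0 := h.brf_ne (by omega)
    simp only [Mm, RiM, Ric, hy, brf_zero]
    by_cases hs : (s : ℕ) = (y.1 : ℕ) + 0
    · rw [if_pos (by omega), if_pos (by omega), if_pos hs, ROh_tw']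
      simp only [Nat.sub_self, Nat.choose_zero_succ, brf_zero, pow_zero, one_mul, mul_one,
        div_self hf]
      exact ROh_pow h.1 (by push_cast; ring)
    · rw [if_neg (by omega), if_neg hs, zero_mul, mul_zero]
  · rintro ⟨z1, z2⟩ hz
    simp only [RiM, Ric]
    rw [if_neg]
    rintro ⟨e1, e2, e3⟩
    apply hz
    ext <;> simp <;> omega

/-- The vectors `e_n ⊗ e_b`. -/
theorem ROh_d (q : ℂ) (n : ℕ) (h : Gen q n) (s : Fin (2 * n + 1)) (y : I2 n) (hy : (y.1 : ℕ) = n) :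
    (Mm q n * RiM q n) s y = (tw q n)⁻¹ * Mm q n s y := by
  have hb := y.2.2
  rw [ROh_single _ _ s y (y.2, y.1)]
  · have hf : brf q (y.2 : ℕ) ≠ 0 := h.brf_ne (by omega)
    simp only [Mm, RiM, Ric, hy]
    by_cases hs : (s : ℕ) = n + (y.2 : ℕ)
    · rw [if_pos (by omega), if_pos (by omega), if_pos hs, ROh_tw']
      simp only [Nat.sub_self, Nat.choose_zero_succ, brf_zero, pow_zero, mul_one, div_self hf]
      exact ROh_pow h.1 (by push_cast; ring)
    · rw [if_neg (by omega), if_neg hs, zero_mul, mul_zero]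
  · rintro ⟨z1, z2⟩ hz
    simp only [RiM, Ric]
    rw [if_neg]
    rintro ⟨e1, e2, e3⟩
    apply hz
    ext <;> simp <;> omega

theorem RM_eq (q : ℂ) (n : ℕ) (h : Gen q n) : RM q n = Oh q n (tw q) := by
  refine Oh_unique q n h (tw q) (RM q) (ROh_h0 q) (fun k hk => CC_RM q k (h.mono (by omega))) ?_
  intro k hk
  cases k with
  | zero => rw [ROh_h0, Matrix.mul_smul, Matrix.mul_one]
  | succ k =>
    refine Mm_of_ext q k h.1 (tw q (k + 1)) (RM q (k + 1)) (RM q k)
      (RM_DD q k (h.mono (by omega))) ?_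
    rintro s y (hy | hy)
    · exact ROh_a q (k + 1) (h.mono hk) s y hy
    · exact ROh_b q (k + 1) (h.mono hk) s y hy

theorem RiM_eq (q : ℂ) (n : ℕ) (h : Gen q n) : RiM q n = Oh q n (fun k => (tw q k)⁻¹) := by
  refine Oh_unique q n h (fun k => (tw q k)⁻¹) (RiM q) (ROh_h0' q)
    (fun k hk => CC_RiM q k (h.mono (by omega))) ?_
  intro k hk
  cases k with
  | zero =>
    rw [ROh_h0', Matrix.mul_smul, Matrix.mul_one]
  | succ k =>
    refine ROh_ext q k h.1 ((tw q (k + 1))⁻¹) (RiM q (k + 1)) (RiM q k)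
      (RiM_DD q k (h.mono (by omega))) ?_
    rintro s y (hy | hy)
    · exact ROh_c q (k + 1) (h.mono hk) s y hy
    · exact ROh_d q (k + 1) (h.mono hk) s y hy

end Pool.Agent.H63.VC10

end

section

/-! # The insertion of several minima and maxima -/

namespace Pool.Agent.H63.VC10

open Pool.Agent.H63.VC7 Matrix

/-- The insertion of `j` minima. -/
noncomputable def DP (q : ℂ) (n : ℕ) : (j : ℕ) → Matrix (I2 (n + j)) (I2 n) ℂ
  | 0 => 1
  | j + 1 => DD q (n + j) * DP q n j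

/-- The insertion of `j` maxima. -/
noncomputable def CP (q : ℂ) (n : ℕ) : (j : ℕ) → Matrix (I2 n) (I2 (n + j)) ℂ
  | 0 => 1
  | j + 1 => CP q n j * CC q (n + j)

/-- The entries of `DP`: the coefficient of `e_p ⊗ e_s` in the image of `e_x ⊗ e_y`. -/
noncomputable def dpf (q : ℂ) (n j p s x y : ℕ) : ℂ :=
  if p + s = x + y + j ∧ x ≤ p ∧ y ≤ s then
    cupc q j (p - x) * q ^ (((s : ℤ) - y) * ((x : ℤ) + n - y)) else 0

/-- The factor relating `CP` to the transpose of `DP`. -/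
noncomputable def gg (q : ℂ) (n a b : ℕ) : ℂ :=
  (-1) ^ n * q ^ ((a : ℤ) * (a + 1) + b * (b + 1) - n * (a + b)) *
    (brf q a * brf q (n - a) * (brf q b * brf q (n - b)) / brf q n ^ 2)

theorem DPf_sum_DD (q : ℂ) (n : ℕ) (F : ℕ → ℕ → ℂ) (h1 : ∀ a b, n < a → F a b = 0)
    (h2 : ∀ a b, n < b → F a b = 0) (x : I2 (n + 1)) :
    ∑ z : I2 n, DD q n x z * F z.1 z.2 =
      (if 1 ≤ (x.2 : ℕ) then
        q ^ (((x.1 : ℕ) : ℤ) + n - ((x.2 : ℕ) - 1 : ℕ)) * F x.1 ((x.2 : ℕ) - 1) else 0) +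
      (if 1 ≤ (x.1 : ℕ) then -q⁻¹ * F ((x.1 : ℕ) - 1) x.2 else 0) := by
  obtain ⟨⟨p, hp⟩, ⟨s, hs⟩⟩ := x
  simp only [DD, add_mul, Finset.sum_add_distrib]
  congr 1
  · split_ifs with h
    · by_cases hpn : p < n + 1
      · rw [Finset.sum_eq_single (⟨p, hpn⟩, ⟨s - 1, by omega⟩)]
        · rw [if_pos ⟨rfl, by show s = s - 1 + 1; omega⟩]
        · rintro ⟨⟨a, ha⟩, ⟨b, hb⟩⟩ _ hne
          rw [if_neg, zero_mul]
          rintro ⟨e1, e2⟩
          apply hne
          have e1 : p = a := e1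
          have e2 : s = b + 1 := e2
          subst e1; subst e2
          simp
        · intro h; exact absurd (Finset.mem_univ _) h
      · rw [h1 p (s - 1) (by omega), mul_zero]
        apply Finset.sum_eq_zero
        rintro ⟨⟨a, ha⟩, ⟨b, hb⟩⟩ _
        rw [if_neg, zero_mul]
        rintro ⟨e1, e2⟩
        have e1 : p = a := e1
        omega
    · apply Finset.sum_eq_zero
      rintro ⟨⟨a, ha⟩, ⟨b, hb⟩⟩ _
      rw [if_neg, zero_mul]
      rintro ⟨e1, e2⟩
      have e2 : s = b + 1 := e2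
      have h : ¬ 1 ≤ s := h
      omega
  · split_ifs with h
    · by_cases hsn : s < n + 1
      · rw [Finset.sum_eq_single (⟨p - 1, by omega⟩, ⟨s, hsn⟩)]
        · rw [if_pos ⟨by show p = p - 1 + 1; have h : 1 ≤ p := h; omega, rfl⟩]
        · rintro ⟨⟨a, ha⟩, ⟨b, hb⟩⟩ _ hne
          rw [if_neg, zero_mul]
          rintro ⟨e1, e2⟩
          apply hne
          have e1 : p = a + 1 := e1
          have e2 : s = b := e2
          subst e1; subst e2
          simp
        · intro h; exact absurd (Finset.mem_univ _) h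
      · rw [h2 (p - 1) s (by omega), mul_zero]
        apply Finset.sum_eq_zero
        rintro ⟨⟨a, ha⟩, ⟨b, hb⟩⟩ _
        rw [if_neg, zero_mul]
        rintro ⟨e1, e2⟩
        have e2 : s = b := e2
        omega
    · apply Finset.sum_eq_zero
      rintro ⟨⟨a, ha⟩, ⟨b, hb⟩⟩ _
      rw [if_neg, zero_mul]
      rintro ⟨e1, e2⟩
      have e1 : p = a + 1 := e1
      have h : ¬ 1 ≤ p := h
      omega

theorem DPf_pascal (q : ℂ) (hq : q ≠ 0) (j i : ℤ) :
    br q j = q ^ i * br q (j - i) + q ^ (-(j - i)) * br q i := by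
  unfold br
  have e : ∀ a b : ℤ, q ^ a * q ^ b = q ^ (a + b) := fun a b => (zpow_add₀ hq a b).symm
  rw [mul_sub, mul_sub, e, e, e, e, show i + (j - i) = j by ring,
    show -(j - i) + -i = -j by ring, show i + -(j - i) = -(j - i) + i by ring]
  ring

/-- the recursion for the coefficients of the minimum, in the interior. -/
theorem DPf_cupc_mid (q : ℂ) (hq : q ≠ 0) (u v : ℕ) (hb : ∀ k, k ≤ u + v + 2 → brf q k ≠ 0) :
    cupc q (u + v + 2) (u + 1) =
      q ^ (2 * ((u : ℤ) + 1)) * cupc q (u + v + 1) (u + 1) - q⁻¹ * cupc q (u + v + 1) u := by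
  unfold cupc
  rw [show u + v + 2 - (u + 1) = v + 1 by omega, show u + v + 1 - (u + 1) = v by omega,
    show u + v + 1 - u = v + 1 by omega, show u + v + 2 = (u + v + 1) + 1 by ring,
    brf_succ q (u + v + 1), brf_succ q u, brf_succ q v]
  have hu := hb (u + 1) (by omega)
  have hv := hb (v + 1) (by omega)
  rw [brf_succ] at hu hv
  have hu1 := left_ne_zero_of_mul hu
  have hu2 := right_ne_zero_of_mul hu
  have hv1 := left_ne_zero_of_mul hv
  have hv2 := right_ne_zero_of_mul hv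
  have P := DPf_pascal q hq (((u + v + 1 : ℕ) : ℤ) + 1) ((u : ℤ) + 1)
  rw [show ((u + v + 1 : ℕ) : ℤ) + 1 - ((u : ℤ) + 1) = (v : ℤ) + 1 by push_cast; ring] at P
  rw [P]
  have E1 : q ^ (((u + 1 : ℕ) : ℤ) * (((u + v + 1 + 1 : ℕ) : ℤ) - ((u + 1 : ℕ) : ℤ) - 1)) =
      q ^ (((u : ℤ) + 1) * v) := by
    congr 1; push_cast; ring
  have E2 : q ^ (2 * ((u : ℤ) + 1)) *
      q ^ (((u + 1 : ℕ) : ℤ) * (((u + v + 1 : ℕ) : ℤ) - ((u + 1 : ℕ) : ℤ) - 1)) =
      q ^ (((u : ℤ) + 1) * v) * q ^ ((u : ℤ) + 1) := by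
    rw [← zpow_add₀ hq, ← zpow_add₀ hq]; congr 1; push_cast; ring
  have E3 : q⁻¹ * q ^ ((u : ℤ) * (((u + v + 1 : ℕ) : ℤ) - (u : ℤ) - 1)) =
      q ^ (((u : ℤ) + 1) * v) * q ^ (-((v : ℤ) + 1)) := by
    rw [← _root_.zpow_neg_one, ← zpow_add₀ hq, ← zpow_add₀ hq]; congr 1; push_cast; ring
  rw [E1]
  calc _ = (-1) ^ (u + 1) * (q ^ (((u : ℤ) + 1) * v) * q ^ ((u : ℤ) + 1)) *
        (brf q (u + v + 1) / (brf q u * br q ((u : ℤ) + 1) * brf q v)) +
        (-1) ^ (u + 1) * (q ^ (((u : ℤ) + 1) * v) * q ^ (-((v : ℤ) + 1))) *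
        (brf q (u + v + 1) / (brf q u * (brf q v * br q ((v : ℤ) + 1)))) := by
        field_simp
    _ = _ := by
        rw [← E2, ← E3]
        ring

theorem DPf_cupc_zero (q : ℂ) (j : ℕ) (hb : brf q j ≠ 0) : cupc q j 0 = 1 := by
  unfold cupc
  simp [brf_zero, div_self hb]

theorem DPf_cupc_self (q : ℂ) (j : ℕ) (hb : brf q j ≠ 0) :
    cupc q j j = (-1) ^ j * q ^ (-(j : ℤ)) := by
  unfold cupc
  simp only [Nat.sub_self, brf_zero, mul_one, div_self hb]
  congr 2
  ring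

theorem DPf_gg_ne (q : ℂ) (hq : q ≠ 0) (n a b : ℕ) (ha : a ≤ n) (hb' : b ≤ n)
    (hb : ∀ k, k ≤ n → brf q k ≠ 0) : gg q n a b ≠ 0 := by
  unfold gg
  have h1 := hb a (by omega)
  have h2 := hb (n - a) (by omega)
  have h3 := hb b (by omega)
  have h4 := hb (n - b) (by omega)
  have h5 := hb n (by omega)
  have hm : ((-1 : ℂ)) ^ n ≠ 0 := pow_ne_zero _ (by norm_num)
  exact mul_ne_zero (mul_ne_zero hm (zpow_ne_zero _ hq))
    (div_ne_zero (mul_ne_zero (mul_ne_zero h1 h2) (mul_ne_zero h3 h4)) (pow_ne_zero 2 h5))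

theorem DPf_ggstep1 (q : ℂ) (hq : q ≠ 0) (n a b : ℕ) (ha : a ≤ n) (hb' : b ≤ n)
    (hb : ∀ k, k ≤ n + 1 → brf q k ≠ 0) :
    -q * (br q ((n : ℤ) + 1 - a) * br q ((b : ℤ) + 1) / br q ((n : ℤ) + 1) ^ 2) =
      gg q (n + 1) a (b + 1) / gg q n a b * q ^ ((a : ℤ) + n - b) := by
  have hg := DPf_gg_ne q hq n a b ha hb' (fun k hk => hb k (by omega))
  rw [div_mul_eq_mul_div, eq_div_iff hg]
  unfold gg
  obtain ⟨c, rfl⟩ := Nat.exists_eq_add_of_le ha
  rw [show a + c + 1 - a = c + 1 by omega, show a + c + 1 - (b + 1) = a + c - b by omega,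
    show a + c - a = c by omega, brf_succ q c, brf_succ q b, brf_succ q (a + c)]
  have h5 := hb (a + c + 1) (by omega)
  rw [brf_succ] at h5
  have h6 := left_ne_zero_of_mul h5
  have h7 := right_ne_zero_of_mul h5
  rw [show ((a + c : ℕ) : ℤ) + 1 - a = (c : ℤ) + 1 by push_cast; ring]
  have E : q ^ ((a : ℤ) * (a + 1) + ((b + 1 : ℕ) : ℤ) * (((b + 1 : ℕ) : ℤ) + 1) -
      ((a + c + 1 : ℕ) : ℤ) * (a + ((b + 1 : ℕ) : ℤ))) * q ^ ((a : ℤ) + ((a + c : ℕ) : ℤ) - b) =
      q * q ^ ((a : ℤ) * (a + 1) + b * (b + 1) - ((a + c : ℕ) : ℤ) * (a + b)) := by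
    rw [← zpow_add₀ hq, ← zpow_one_add₀ hq]; congr 1; push_cast; ring
  set Z := q ^ ((a : ℤ) * (a + 1) + b * (b + 1) - ((a + c : ℕ) : ℤ) * (a + b)) with hZ
  set Y := q ^ ((a : ℤ) * (a + 1) + ((b + 1 : ℕ) : ℤ) * (((b + 1 : ℕ) : ℤ) + 1) -
      ((a + c + 1 : ℕ) : ℤ) * (a + ((b + 1 : ℕ) : ℤ))) with hY
  set X := q ^ ((a : ℤ) + ((a + c : ℕ) : ℤ) - b) with hX
  rw [pow_succ (-1 : ℂ) (a + c)]
  set M := (-1 : ℂ) ^ (a + c)
  calc _ = -(M * (q * Z)) * (brf q a * (brf q c * br q ((c : ℤ) + 1)) *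
        (brf q b * br q ((b : ℤ) + 1) * brf q (a + c - b)) /
        (brf q (a + c) * br q (((a + c : ℕ) : ℤ) + 1)) ^ 2) := by
        rw [mul_pow]; field_simp
    _ = _ := by rw [← E]; ring

theorem DPf_ggstep2 (q : ℂ) (hq : q ≠ 0) (n a b : ℕ) (ha : a ≤ n) (hb' : b ≤ n)
    (hb : ∀ k, k ≤ n + 1 → brf q k ≠ 0) :
    q ^ (-((n : ℤ) + 1 - ((a : ℤ) + 1)) - b) * (br q ((a : ℤ) + 1) * br q ((n : ℤ) + 1 - b) /
      br q ((n : ℤ) + 1) ^ 2) = gg q (n + 1) (a + 1) b / gg q n a b * -q⁻¹ := by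
  have hg := DPf_gg_ne q hq n a b ha hb' (fun k hk => hb k (by omega))
  rw [div_mul_eq_mul_div, eq_div_iff hg]
  unfold gg
  obtain ⟨c, rfl⟩ := Nat.exists_eq_add_of_le hb'
  rw [show b + c + 1 - b = c + 1 by omega, show b + c + 1 - (a + 1) = b + c - a by omega,
    show b + c - b = c by omega, brf_succ q c, brf_succ q a, brf_succ q (b + c)]
  have h5 := hb (b + c + 1) (by omega)
  rw [brf_succ] at h5
  have h6 := left_ne_zero_of_mul h5
  have h7 := right_ne_zero_of_mul h5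
  rw [show ((b + c : ℕ) : ℤ) + 1 - b = (c : ℤ) + 1 by push_cast; ring]
  have E : q ^ (((a + 1 : ℕ) : ℤ) * (((a + 1 : ℕ) : ℤ) + 1) + (b : ℤ) * (b + 1) -
      ((b + c + 1 : ℕ) : ℤ) * (((a + 1 : ℕ) : ℤ) + b)) * q⁻¹ =
      q ^ (-(((b + c : ℕ) : ℤ) + 1 - ((a : ℤ) + 1)) - b) *
      q ^ ((a : ℤ) * (a + 1) + b * (b + 1) - ((b + c : ℕ) : ℤ) * (a + b)) := by
    rw [← _root_.zpow_neg_one, ← zpow_add₀ hq, ← zpow_add₀ hq]; congr 1; push_cast; ring
  set Z := q ^ ((a : ℤ) * (a + 1) + b * (b + 1) - ((b + c : ℕ) : ℤ) * (a + b)) with hZ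
  set Y := q ^ (((a + 1 : ℕ) : ℤ) * (((a + 1 : ℕ) : ℤ) + 1) + (b : ℤ) * (b + 1) -
      ((b + c + 1 : ℕ) : ℤ) * (((a + 1 : ℕ) : ℤ) + b)) with hY
  set X := q ^ (-(((b + c : ℕ) : ℤ) + 1 - ((a : ℤ) + 1)) - b) with hX
  rw [pow_succ (-1 : ℂ) (b + c)]
  set M := (-1 : ℂ) ^ (b + c)
  calc _ = (M * (X * Z)) * (brf q a * br q ((a : ℤ) + 1) * brf q (b + c - a) *
        (brf q b * (brf q c * br q ((c : ℤ) + 1))) /
        (brf q (b + c) * br q (((b + c : ℕ) : ℤ) + 1)) ^ 2) := by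
        rw [mul_pow]; field_simp
    _ = _ := by rw [← E]; ring

theorem DPf_CC (q : ℂ) (hq : q ≠ 0) (n : ℕ) (hb : ∀ k, k ≤ n + 1 → brf q k ≠ 0) (x : I2 n)
    (y : I2 (n + 1)) :
    CC q n x y = gg q (n + 1) y.1 y.2 / gg q n x.1 x.2 * DD q n y x := by
  obtain ⟨⟨a, ha⟩, ⟨b, hb'⟩⟩ := x
  obtain ⟨⟨p, hp⟩, ⟨s, hs⟩⟩ := y
  simp only [CC, DD]
  by_cases c1 : p = a ∧ s = b + 1
  · obtain ⟨rfl, rfl⟩ := c1
    rw [if_pos ⟨rfl, rfl⟩, if_neg (by omega), if_pos ⟨rfl, rfl⟩, if_neg (by omega), add_zero,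
      add_zero]
    have := DPf_ggstep1 q hq n p b (by omega) (by omega) hb
    push_cast at this ⊢
    exact this
  · by_cases c2 : p = a + 1 ∧ s = b
    · obtain ⟨rfl, rfl⟩ := c2
      rw [if_neg (by omega), if_pos ⟨rfl, rfl⟩, if_neg (by omega), if_pos ⟨rfl, rfl⟩, zero_add,
        zero_add]
      have := DPf_ggstep2 q hq n a s (by omega) (by omega) hb
      push_cast at this ⊢
      exact this
    · rw [if_neg (by omega), if_neg (by omega), if_neg c1, if_neg c2]
      simp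

theorem DPf_CP (q : ℂ) (hq : q ≠ 0) (n j : ℕ) (hb : ∀ k, k ≤ n + j → brf q k ≠ 0) :
    ∀ (x : I2 n) (y : I2 (n + j)),
    CP q n j x y = gg q (n + j) y.1 y.2 / gg q n x.1 x.2 * DP q n j y x := by
  induction j with
  | zero =>
    intro x y
    have hg := DPf_gg_ne q hq n x.1 x.2 (by omega) (by omega) (fun k hk => hb k (by omega))
    show (1 : Matrix (I2 n) (I2 n) ℂ) x y = _ * (1 : Matrix (I2 n) (I2 n) ℂ) y x
    by_cases h : x = y
    · subst h
      rw [Matrix.one_apply_eq]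
      simp only [mul_one]
      exact (div_self hg).symm
    · rw [Matrix.one_apply_ne h, Matrix.one_apply_ne (fun e => h e.symm), mul_zero]
  | succ j ih =>
    intro x y
    have ih' := ih (fun k hk => hb k (by omega))
    show (CP q n j * CC q (n + j)) x y = _ * (DD q (n + j) * DP q n j) y x
    rw [Matrix.mul_apply, Matrix.mul_apply, Finset.mul_sum]
    apply Finset.sum_congr rfl
    intro z _
    have hg := DPf_gg_ne q hq (n + j) z.1 z.2 (by omega) (by omega)
      (fun k hk => hb k (by omega))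
    rw [ih', DPf_CC q hq (n + j) hb z y]
    show _ = gg q (n + j + 1) y.1 y.2 / gg q n x.1 x.2 * _
    field_simp

theorem DPf_dpf_succ (q : ℂ) (hq : q ≠ 0) (n j p s x y : ℕ) (hb : ∀ k, k ≤ j + 1 → brf q k ≠ 0) :
    (if 1 ≤ s then q ^ ((p : ℤ) + (n + j : ℕ) - ((s - 1 : ℕ) : ℤ)) * dpf q n j p (s - 1) x y
      else 0) + (if 1 ≤ p then -q⁻¹ * dpf q n j (p - 1) s x y else 0) =
      dpf q n (j + 1) p s x y := by
  unfold dpf
  by_cases h : p + s = x + y + (j + 1) ∧ x ≤ p ∧ y ≤ s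
  swap
  · rw [if_neg h]
    have a1 : ¬ (1 ≤ s ∧ p + (s - 1) = x + y + j ∧ x ≤ p ∧ y ≤ s - 1) := by omega
    have a2 : ¬ (1 ≤ p ∧ (p - 1) + s = x + y + j ∧ x ≤ p - 1 ∧ y ≤ s) := by omega
    split_ifs <;> simp_all
  rw [if_pos h]
  obtain ⟨h1, h2, h3⟩ := h
  obtain ⟨i, rfl⟩ := Nat.exists_eq_add_of_le h2
  obtain ⟨t, rfl⟩ := Nat.exists_eq_add_of_le h3
  have hit : i + t = j + 1 := by omega
  have e0 : ∀ k, k ≤ j → brf q k ≠ 0 := fun k hk => hb k (by omega)
  rcases Nat.eq_zero_or_pos i with rfl | hi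
  · -- only the first term
    have ht : t = j + 1 := by omega
    subst ht
    rw [if_pos (by omega), if_pos (by omega), show x + 0 - x = 0 by omega,
      DPf_cupc_zero q j (e0 j le_rfl), DPf_cupc_zero q (j + 1) (hb _ le_rfl)]
    have : (if 1 ≤ x + 0 then -q⁻¹ * (if x + 0 - 1 + (y + (j + 1)) = x + y + j ∧ x ≤ x + 0 - 1 ∧
        y ≤ y + (j + 1) then cupc q j (x + 0 - 1 - x) *
        q ^ ((((y + (j + 1) : ℕ) : ℤ) - y) * ((x : ℤ) + n - y)) else 0) else 0) = 0 := by
      split_ifs with u v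
      · omega
      · simp
      · rfl
    rw [this, add_zero, one_mul, one_mul, ← zpow_add₀ hq]
    congr 1
    rw [show y + (j + 1) - 1 = y + j by omega]
    push_cast
    ring
  · rcases Nat.eq_zero_or_pos t with rfl | ht
    · have hi' : i = j + 1 := by omega
      subst hi'
      have : (if 1 ≤ y + 0 then q ^ (((x + (j + 1) : ℕ) : ℤ) + (n + j : ℕ) -
          ((y + 0 - 1 : ℕ) : ℤ)) * (if x + (j + 1) + (y + 0 - 1) = x + y + j ∧ x ≤ x + (j + 1) ∧
          y ≤ y + 0 - 1 then cupc q j (x + (j + 1) - x) *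
          q ^ ((((y + 0 - 1 : ℕ) : ℤ) - y) * ((x : ℤ) + n - y)) else 0) else 0) = 0 := by
        split_ifs with u v
        · omega
        · simp
        · rfl
      rw [this, zero_add, if_pos (by omega), if_pos (by omega),
        show x + (j + 1) - 1 - x = j by omega, show x + (j + 1) - x = j + 1 by omega,
        DPf_cupc_self q j (e0 j le_rfl), DPf_cupc_self q (j + 1) (hb _ le_rfl)]
      have E : q ^ (-((j + 1 : ℕ) : ℤ)) = q⁻¹ * q ^ (-(j : ℤ)) := by
        rw [← _root_.zpow_neg_one, ← zpow_add₀ hq]; congr 1; push_cast; ring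
      rw [E, pow_succ]
      ring
    · obtain ⟨u, rfl⟩ : ∃ u, i = u + 1 := ⟨i - 1, by omega⟩
      obtain ⟨v, rfl⟩ : ∃ v, t = v + 1 := ⟨t - 1, by omega⟩
      have hj : j = u + v + 1 := by omega
      subst hj
      rw [if_pos (by omega), if_pos (by omega), if_pos (by omega), if_pos (by omega),
        show x + (u + 1) - x = u + 1 by omega, show x + (u + 1) - 1 - x = u by omega,
        show y + (v + 1) - 1 = y + v by omega, show u + v + 1 + 1 = u + v + 2 by omega,
        DPf_cupc_mid q hq u v hb]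
      have E : q ^ (((x + (u + 1) : ℕ) : ℤ) + (n + (u + v + 1) : ℕ) - ((y + v : ℕ) : ℤ)) *
          q ^ ((((y + v : ℕ) : ℤ) - y) * ((x : ℤ) + n - y)) =
          q ^ (2 * ((u : ℤ) + 1)) * q ^ ((((y + (v + 1) : ℕ) : ℤ) - y) * ((x : ℤ) + n - y)) := by
        rw [← zpow_add₀ hq, ← zpow_add₀ hq]; congr 1; push_cast; ring
      calc _ = (q ^ (((x + (u + 1) : ℕ) : ℤ) + (n + (u + v + 1) : ℕ) - ((y + v : ℕ) : ℤ)) *
          q ^ ((((y + v : ℕ) : ℤ) - y) * ((x : ℤ) + n - y))) * cupc q (u + v + 1) (u + 1) -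
          q⁻¹ * cupc q (u + v + 1) u *
          q ^ ((((y + (v + 1) : ℕ) : ℤ) - y) * ((x : ℤ) + n - y)) := by ring
        _ = _ := by rw [E]; ring

theorem DP_eq (q : ℂ) (n j : ℕ) (h : Gen q (n + j)) (x : I2 (n + j)) (y : I2 n) :
    DP q n j x y = dpf q n j x.1 x.2 y.1 y.2 := by
  induction j with
  | zero =>
    show (1 : Matrix (I2 n) (I2 n) ℂ) x y = _
    obtain ⟨⟨p, hp⟩, ⟨s, hs⟩⟩ := x
    obtain ⟨⟨a, ha⟩, ⟨b, hb⟩⟩ := y
    unfold dpf
    by_cases h : p = a ∧ s = b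
    · obtain ⟨rfl, rfl⟩ := h
      rw [if_pos ⟨by simp, le_rfl, le_rfl⟩]
      simp only [Nat.sub_self, DPf_cupc_zero q 0 (h.brf_ne (by omega))]
      simp
    · rw [if_neg (by show ¬ (p + s = a + b + 0 ∧ a ≤ p ∧ b ≤ s); omega), Matrix.one_apply_ne]
      intro e
      apply h
      simpa using e
  | succ j ih =>
    have h' : Gen q (n + j) := h.mono (by omega)
    show (DD q (n + j) * DP q n j) x y = _
    rw [Matrix.mul_apply]
    have : ∀ z : I2 (n + j), DD q (n + j) x z * DP q n j z y =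
        DD q (n + j) x z * (fun a b => dpf q n j a b y.1 y.2) z.1 z.2 := by
      intro z; rw [ih h' z]
    rw [Finset.sum_congr rfl (fun z _ => this z), DPf_sum_DD q (n + j)
      (fun a b => dpf q n j a b y.1 y.2)]
    · exact DPf_dpf_succ q h.1 n j x.1 x.2 y.1 y.2 (fun k hk => h.brf_ne (by omega))
    · intro a b hab
      have := y.1.2
      have := y.2.2
      show dpf q n j a b y.1 y.2 = 0
      unfold dpf
      rw [if_neg (by omega)]
    · intro a b hab
      have := y.1.2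
      have := y.2.2
      show dpf q n j a b y.1 y.2 = 0
      unfold dpf
      rw [if_neg (by omega)]

theorem CP_eq (q : ℂ) (n j : ℕ) (h : Gen q (n + j)) (x : I2 n) (y : I2 (n + j)) :
    CP q n j x y = gg q (n + j) y.1 y.2 / gg q n x.1 x.2 * dpf q n j y.1 y.2 x.1 x.2 := by
  rw [DPf_CP q h.1 n j (fun k hk => h.brf_ne (by omega)) x y, DP_eq q n j h y x]

end Pool.Agent.H63.VC10

end

section

/-! # The rotation of the operators `em` -/

namespace Pool.Agent.H63.VC10

open Pool.Agent.H63.VC7 Matrix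

/-- The entries of `em (i + j) j`. -/
noncomputable def emf (q : ℂ) (i j p s k l : ℕ) : ℂ :=
  ∑ x ∈ Finset.range (i + 1), ∑ y ∈ Finset.range (i + 1),
    dpf q i j p s x y * (gg q (i + j) k l / gg q i x y * dpf q i j k l x y)

theorem Rot_em_mul (q : ℂ) (i j : ℕ) : em q (i + j) j = DP q i j * CP q i j := by
  induction j with
  | zero =>
    rw [em, DP, CP, Matrix.mul_one]
  | succ j ih =>
    have h1 : em q (i + (j + 1)) (j + 1) = DD q (i + j) * em q (i + j) j * CC q (i + j) := rfl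
    rw [h1, ih, DP, CP]
    simp only [Matrix.mul_assoc]

theorem em_eq (q : ℂ) (n i j : ℕ) (hn : i + j = n) (h : Gen q n) (x y : I2 n) :
    em q n j x y = emf q i j x.1 x.2 y.1 y.2 := by
  subst hn
  rw [Rot_em_mul, Matrix.mul_apply, Fintype.sum_prod_type, emf]
  have h2 : ∀ (F : ℕ → ℕ → ℂ), ∑ a : Fin (i + 1), ∑ b : Fin (i + 1), F a b =
      ∑ a ∈ Finset.range (i + 1), ∑ b ∈ Finset.range (i + 1), F a b := by
    intro F
    rw [Finset.sum_range (fun a => ∑ b ∈ Finset.range (i + 1), F a b)]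
    apply Finset.sum_congr rfl
    intro a _
    rw [Finset.sum_range]
  rw [← h2]
  apply Finset.sum_congr rfl
  intro a _
  apply Finset.sum_congr rfl
  intro b _
  rw [DP_eq q i j h, CP_eq q i j h]

theorem Rot_sign {a b : ℕ} (h : a % 2 = b % 2) : (-1 : ℂ) ^ a = (-1) ^ b := by
  have h1 : ∀ c : ℕ, (-1 : ℂ) ^ c = if c % 2 = 0 then 1 else -1 := by
    intro c
    split_ifs with hc
    · exact Even.neg_one_pow (Nat.even_iff.mpr hc)
    · exact Odd.neg_one_pow (Nat.odd_iff.mpr (by omega))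
  rw [h1, h1, h]

theorem Rot_sign_inv (a : ℕ) : ((-1 : ℂ) ^ a)⁻¹ = (-1) ^ a := by
  rw [← inv_pow]
  norm_num

theorem Rot_term (q : ℂ) (i j : ℕ) (h : Gen q (i + j)) (x u y v x' u' y' v' : ℕ)
    (h1 : x + u = i) (h2 : y + v = i) (h3 : x' + u' = j) (h4 : y' + v' = j) :
    cupc q (i + j) (x' + u) * (cupc q j y' * q ^ ((((y + v' : ℕ) : ℤ) - y) * ((x : ℤ) + i - y)) *
      (gg q (i + j) (x + u') (x' + y) / gg q i x y *
        (cupc q j u' * q ^ ((((x' + y : ℕ) : ℤ) - y) * ((x : ℤ) + i - y))))) *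
      (cupc q (i + j) (y' + v))⁻¹ =
    cupc q i u * q ^ ((((x + y' : ℕ) : ℤ) - y') * ((x' : ℤ) + j - y')) *
      (gg q (j + i) (x' + y) (y' + v) / gg q j x' y' *
        (cupc q i y * q ^ ((((y' + v : ℕ) : ℤ) - y') * ((x' : ℤ) + j - y')))) := by
  have hq : q ≠ 0 := h.1
  have hb : ∀ k : ℕ, k ≤ 2 * (i + j) + 2 → brf q k ≠ 0 := fun k hk => h.brf_ne hk
  have e1 : i + j - (x' + u) = x + u' := by omega
  have e2 : j - y' = v' := by omega
  have e3 : i + j - (x + u') = x' + u := by omega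
  have e4 : i + j - (x' + y) = u' + v := by omega
  have e5 : i - x = u := by omega
  have e6 : i - y = v := by omega
  have e7 : j - u' = x' := by omega
  have e8 : i + j - (y' + v) = y + v' := by omega
  have e9 : i - u = x := by omega
  have e10 : j + i - (x' + y) = u' + v := by omega
  have e11 : j + i - (y' + v) = y + v' := by omega
  have e12 : j - x' = u' := by omega
  have e13 : j + i = i + j := by omega
  unfold cupc gg
  rw [e1, e2, e3, e4, e5, e6, e7, e8, e9, e10, e11, e12, e13]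
  have b1 := hb (x' + u) (by omega)
  have b2 := hb (x + u') (by omega)
  have b3 := hb (i + j) (by omega)
  have b4 := hb y' (by omega)
  have b5 := hb v' (by omega)
  have b6 := hb j (by omega)
  have b7 := hb (x' + y) (by omega)
  have b8 := hb (u' + v) (by omega)
  have b9 := hb x (by omega)
  have b10 := hb u (by omega)
  have b11 := hb y (by omega)
  have b12 := hb v (by omega)
  have b13 := hb i (by omega)
  have b14 := hb u' (by omega)
  have b15 := hb x' (by omega)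
  have b16 := hb (y' + v) (by omega)
  have b17 := hb (y + v') (by omega)
  -- exponents
  have hqE : ∀ e : ℤ, q ^ e ≠ 0 := fun e => zpow_ne_zero e hq
  have hcv : (v : ℤ) = x + u - y := by omega
  have hcv' : (v' : ℤ) = x' + u' - y' := by omega
  have hci : (i : ℤ) = x + u := by omega
  have hcj : (j : ℤ) = x' + u' := by omega
  have hqq : q ^ (((x' + u : ℕ) : ℤ) * (((i + j : ℕ) : ℤ) - ((x' + u : ℕ) : ℤ) - 1)) *
      q ^ ((y' : ℤ) * ((j : ℤ) - y' - 1)) *
      q ^ ((((y + v' : ℕ) : ℤ) - y) * ((x : ℤ) + i - y)) *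
      q ^ (((x + u' : ℕ) : ℤ) * (((x + u' : ℕ) : ℤ) + 1) + ((x' + y : ℕ) : ℤ) * (((x' + y : ℕ) : ℤ) + 1) -
        ((i + j : ℕ) : ℤ) * (((x + u' : ℕ) : ℤ) + ((x' + y : ℕ) : ℤ))) *
      (q ^ ((x : ℤ) * ((x : ℤ) + 1) + (y : ℤ) * ((y : ℤ) + 1) - (i : ℤ) * ((x : ℤ) + y)))⁻¹ *
      q ^ ((u' : ℤ) * ((j : ℤ) - u' - 1)) *
      q ^ ((((x' + y : ℕ) : ℤ) - y) * ((x : ℤ) + i - y)) *
      (q ^ (((y' + v : ℕ) : ℤ) * (((i + j : ℕ) : ℤ) - ((y' + v : ℕ) : ℤ) - 1)))⁻¹ =
      q ^ ((u : ℤ) * ((i : ℤ) - u - 1)) *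
      q ^ ((((x + y' : ℕ) : ℤ) - y') * ((x' : ℤ) + j - y')) *
      q ^ (((x' + y : ℕ) : ℤ) * (((x' + y : ℕ) : ℤ) + 1) + ((y' + v : ℕ) : ℤ) * (((y' + v : ℕ) : ℤ) + 1) -
        ((i + j : ℕ) : ℤ) * (((x' + y : ℕ) : ℤ) + ((y' + v : ℕ) : ℤ))) *
      (q ^ ((x' : ℤ) * ((x' : ℤ) + 1) + (y' : ℤ) * ((y' : ℤ) + 1) - (j : ℤ) * ((x' : ℤ) + y')))⁻¹ *
      q ^ ((y : ℤ) * ((i : ℤ) - y - 1)) *
      q ^ ((((y' + v : ℕ) : ℤ) - y') * ((x' : ℤ) + j - y')) := by
    simp only [← _root_.zpow_neg, ← zpow_add₀ hq]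
    congr 1
    push_cast
    rw [hcv, hcv', hci, hcj]
    ring
  have hss : (-1 : ℂ) ^ (x' + u) * (-1) ^ y' * (-1) ^ (i + j) * ((-1) ^ i)⁻¹ * (-1) ^ u' *
      ((-1) ^ (y' + v))⁻¹ = (-1) ^ u * (-1) ^ (i + j) * ((-1) ^ j)⁻¹ * (-1) ^ y := by
    simp only [Rot_sign_inv, ← pow_add]
    apply Rot_sign
    omega
  have hff : brf q (i + j) / (brf q (x' + u) * brf q (x + u')) * (brf q j / (brf q y' * brf q v')) *
      (brf q (x + u') * brf q (x' + u) * (brf q (x' + y) * brf q (u' + v)) / brf q (i + j) ^ 2) *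
      (brf q x * brf q u * (brf q y * brf q v) / brf q i ^ 2)⁻¹ *
      (brf q j / (brf q u' * brf q x')) *
      (brf q (i + j) / (brf q (y' + v) * brf q (y + v')))⁻¹ =
      brf q i / (brf q u * brf q x) *
      (brf q (x' + y) * brf q (u' + v) * (brf q (y' + v) * brf q (y + v')) / brf q (i + j) ^ 2) *
      (brf q x' * brf q u' * (brf q y' * brf q v') / brf q j ^ 2)⁻¹ *
      (brf q i / (brf q y * brf q v)) := by
    field_simp
  have key := congrArg₂ (· * ·) (congrArg₂ (· * ·) hss hqq) hff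
  refine Eq.trans ?_ (key.trans ?_)
  · simp only [div_eq_mul_inv, mul_inv, inv_inv]
    ring
  · simp only [div_eq_mul_inv, mul_inv, inv_inv]
    ring

theorem emf_rot (q : ℂ) (n i j : ℕ) (hn : i + j = n) (h : Gen q n) (p s k l : ℕ) (hp : p ≤ n)
    (hs : s ≤ n) (hk : k ≤ n) (hl : l ≤ n) :
    cupc q n p * emf q i j s (n - l) (n - p) k * (cupc q n l)⁻¹ = emf q j i p s k l := by
  subst hn
  unfold emf
  rw [← Finset.sum_product', ← Finset.sum_product', Finset.mul_sum, Finset.sum_mul]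
  -- both sides as sums over filters
  have hL : ∀ z ∈ Finset.range (i + 1) ×ˢ Finset.range (i + 1),
      cupc q (i + j) p * (dpf q i j s (i + j - l) z.1 z.2 *
        (gg q (i + j) (i + j - p) k / gg q i z.1 z.2 * dpf q i j (i + j - p) k z.1 z.2)) *
        (cupc q (i + j) l)⁻¹ =
      if (s + (i + j - l) = z.1 + z.2 + j ∧ z.1 ≤ s ∧ z.2 ≤ i + j - l) ∧
          (i + j - p + k = z.1 + z.2 + j ∧ z.1 ≤ i + j - p ∧ z.2 ≤ k) then
        cupc q (i + j) p * ((cupc q j (s - z.1) *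
            q ^ ((((i + j - l : ℕ) : ℤ) - z.2) * ((z.1 : ℤ) + i - z.2))) *
          (gg q (i + j) (i + j - p) k / gg q i z.1 z.2 *
            (cupc q j (i + j - p - z.1) * q ^ (((k : ℤ) - z.2) * ((z.1 : ℤ) + i - z.2))))) *
          (cupc q (i + j) l)⁻¹
      else 0 := by
    intro z _
    unfold dpf
    by_cases c1 : s + (i + j - l) = z.1 + z.2 + j ∧ z.1 ≤ s ∧ z.2 ≤ i + j - l
    · by_cases c2 : i + j - p + k = z.1 + z.2 + j ∧ z.1 ≤ i + j - p ∧ z.2 ≤ k
      · rw [if_pos c1, if_pos c2, if_pos ⟨c1, c2⟩]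
      · have c3 : ¬ ((s + (i + j - l) = z.1 + z.2 + j ∧ z.1 ≤ s ∧ z.2 ≤ i + j - l) ∧
            (i + j - p + k = z.1 + z.2 + j ∧ z.1 ≤ i + j - p ∧ z.2 ≤ k)) := fun hc => c2 hc.2
        rw [if_neg c2, if_neg c3]
        ring
    · have c3 : ¬ ((s + (i + j - l) = z.1 + z.2 + j ∧ z.1 ≤ s ∧ z.2 ≤ i + j - l) ∧
          (i + j - p + k = z.1 + z.2 + j ∧ z.1 ≤ i + j - p ∧ z.2 ≤ k)) := fun hc => c1 hc.1
      rw [if_neg c1, if_neg c3]
      ring
  have hR : ∀ z ∈ Finset.range (j + 1) ×ˢ Finset.range (j + 1),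
      dpf q j i p s z.1 z.2 * (gg q (j + i) k l / gg q j z.1 z.2 * dpf q j i k l z.1 z.2) =
      if (p + s = z.1 + z.2 + i ∧ z.1 ≤ p ∧ z.2 ≤ s) ∧
          (k + l = z.1 + z.2 + i ∧ z.1 ≤ k ∧ z.2 ≤ l) then
        (cupc q i (p - z.1) * q ^ (((s : ℤ) - z.2) * ((z.1 : ℤ) + j - z.2))) *
          (gg q (j + i) k l / gg q j z.1 z.2 *
            (cupc q i (k - z.1) * q ^ (((l : ℤ) - z.2) * ((z.1 : ℤ) + j - z.2))))
      else 0 := by
    intro z _
    unfold dpf
    by_cases c1 : p + s = z.1 + z.2 + i ∧ z.1 ≤ p ∧ z.2 ≤ s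
    · by_cases c2 : k + l = z.1 + z.2 + i ∧ z.1 ≤ k ∧ z.2 ≤ l
      · rw [if_pos c1, if_pos c2, if_pos ⟨c1, c2⟩]
      · have c3 : ¬ ((p + s = z.1 + z.2 + i ∧ z.1 ≤ p ∧ z.2 ≤ s) ∧
            (k + l = z.1 + z.2 + i ∧ z.1 ≤ k ∧ z.2 ≤ l)) := fun hc => c2 hc.2
        rw [if_neg c2, if_neg c3]
        ring
    · have c3 : ¬ ((p + s = z.1 + z.2 + i ∧ z.1 ≤ p ∧ z.2 ≤ s) ∧
          (k + l = z.1 + z.2 + i ∧ z.1 ≤ k ∧ z.2 ≤ l)) := fun hc => c1 hc.1
      rw [if_neg c1, if_neg c3]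
      ring
  rw [Finset.sum_congr rfl hL, Finset.sum_congr rfl hR, ← Finset.sum_filter, ← Finset.sum_filter]
  refine Finset.sum_nbij' (fun z => (k - z.2, s - z.1)) (fun z => (s - z.2, k - z.1)) ?_ ?_ ?_ ?_ ?_
  · intro z hz
    simp only [Finset.mem_filter, Finset.mem_product, Finset.mem_range] at hz ⊢
    omega
  · intro z hz
    simp only [Finset.mem_filter, Finset.mem_product, Finset.mem_range] at hz ⊢
    omega
  · intro z hz
    simp only [Finset.mem_filter, Finset.mem_product, Finset.mem_range] at hz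
    ext
    · show s - (s - z.1) = z.1
      omega
    · show k - (k - z.2) = z.2
      omega
  · intro z hz
    simp only [Finset.mem_filter, Finset.mem_product, Finset.mem_range] at hz
    ext
    · show k - (k - z.1) = z.1
      omega
    · show s - (s - z.2) = z.2
      omega
  · intro z hz
    simp only [Finset.mem_filter, Finset.mem_product, Finset.mem_range] at hz
    obtain ⟨x, y⟩ := z
    simp only at hz ⊢
    obtain ⟨⟨hxi, hyi⟩, ⟨c1, c2, c3⟩, c4, c5, c6⟩ := hz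
    obtain ⟨u, hu⟩ : ∃ u, x + u = i := ⟨i - x, by omega⟩
    obtain ⟨v, hv⟩ : ∃ v, y + v = i := ⟨i - y, by omega⟩
    obtain ⟨x', hx'⟩ : ∃ x', k = x' + y := ⟨k - y, by omega⟩
    obtain ⟨y', hy'⟩ : ∃ y', s = x + y' := ⟨s - x, by omega⟩
    obtain ⟨u', hu'⟩ : ∃ u', x' + u' = j := ⟨j - x', by omega⟩
    obtain ⟨v', hv'⟩ : ∃ v', y' + v' = j := ⟨j - y', by omega⟩
    have hT := Rot_term q i j h x u y v x' u' y' v' hu hv hu' hv'
    have f1 : p = x' + u := by omega
    have f2 : l = y' + v := by omega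
    have f3 : i + j - l = y + v' := by omega
    have f4 : i + j - p = x + u' := by omega
    have f5 : s - x = y' := by omega
    have f6 : i + j - p - x = u' := by omega
    have f7 : k - y = x' := by omega
    have f8 : p - (k - y) = u := by omega
    have f9 : k - (k - y) = y := by omega
    rw [f6, f3, f4, f8, f9, f5, f7, hx', hy', f1, f2]
    exact hT

theorem rot_em (q : ℂ) (n j : ℕ) (hj : j ≤ n) (h : Gen q n) :
    rotM q n (em q n j) = em q n (n - j) := by
  ext x y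
  rw [em_eq q n j (n - j) (by omega) h x y]
  show cupc q n x.1 * em q n j (x.2, y.2.rev) (x.1.rev, y.1) * (cupc q n y.2)⁻¹ = _
  rw [em_eq q n (n - j) j (by omega) h]
  have hr : ∀ a : Fin (n + 1), ((a.rev : Fin (n + 1)) : ℕ) = n - a := by
    intro a
    rw [Fin.val_rev]
    omega
  simp only [hr]
  exact emf_rot q n (n - j) j (by omega) h _ _ _ _ (by omega) (by omega) (by omega) (by omega)

end Pool.Agent.H63.VC10

end

section

/-! # The rotation of the operators `Oh n f` -/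

namespace Pool.Agent.H63.VC10

open Pool.Agent.H63.VC7 Matrix

theorem Newton_em_zero (q : ℂ) (n : ℕ) : em q n 0 = 1 := by
  cases n <;> simp [em]

theorem Newton_nt_zero (q : ℂ) (n : ℕ) (f : ℕ → ℂ) : nt q n f 0 = f n := by
  cases n <;> simp [nt]

theorem Newton_EE_succ (q : ℂ) (n j k : ℕ) : EE q (n + 1) (j + 1) k = E1 q (n + 1) k * EE q n j k := by
  unfold EE
  rw [Finset.prod_range_succ', mul_comm]
  congr 1
  refine Finset.prod_congr rfl fun i _ => ?_
  rw [Nat.add_sub_add_right]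

theorem Newton_EE_zero (q : ℂ) (n k : ℕ) : EE q n 0 k = 1 := by
  unfold EE
  simp

theorem Oh_nt (q : ℂ) (n : ℕ) (f : ℕ → ℂ) :
    Oh q n f = ∑ j ∈ Finset.range (n + 1), nt q n f j • em q n j := by
  induction n generalizing f with
  | zero => simp [Oh, nt, em]
  | succ n ih =>
    rw [Finset.sum_range_succ', Newton_em_zero, Newton_nt_zero]
    simp only [Oh, nt, em]
    rw [ih (dv q n f), Matrix.mul_sum, Matrix.sum_mul]
    refine Eq.trans (add_comm _ _) ?_
    congr 1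
    refine Finset.sum_congr rfl fun j _ => ?_
    rw [Matrix.mul_smul, Matrix.smul_mul]

theorem f_nt (q : ℂ) (n : ℕ) (h : Gen q n) (f : ℕ → ℂ) (k : ℕ) (hk : k ≤ n) :
    f k = ∑ j ∈ Finset.range (n + 1), nt q n f j * EE q n j k := by
  induction n generalizing f k with
  | zero =>
    obtain rfl : k = 0 := by omega
    simp [nt, EE]
  | succ n ih =>
    rw [Finset.sum_range_succ', Newton_nt_zero, Newton_EE_zero, mul_one]
    simp only [nt, Newton_EE_succ]
    have h1 : ∑ j ∈ Finset.range (n + 1), nt q n (dv q n f) j * (E1 q (n + 1) k * EE q n j k) =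
        E1 q (n + 1) k * ∑ j ∈ Finset.range (n + 1), nt q n (dv q n f) j * EE q n j k := by
      rw [Finset.mul_sum]
      refine Finset.sum_congr rfl fun j _ => ?_
      ring
    rw [h1]
    rcases Nat.eq_or_lt_of_le hk with rfl | hlt
    · rw [E1_self]
      simp
    · rw [← ih (h.mono (by omega)) (dv q n f) k (by omega)]
      unfold dv
      rw [mul_div_cancel₀ _ (E1_ne h hlt)]
      ring

theorem Oh_EE (q : ℂ) (n j : ℕ) (h : Gen q n) (hj : j ≤ n) : Oh q n (EE q n j) = em q n j := by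
  induction n generalizing j with
  | zero =>
    obtain rfl : j = 0 := by omega
    simp [Oh, em, EE]
  | succ n ih =>
    cases j with
    | zero =>
      rw [Newton_em_zero]
      have h1 : EE q (n + 1) 0 = fun _ => (1 : ℂ) := by
        funext k
        exact Newton_EE_zero q (n + 1) k
      rw [h1, Oh_const, one_smul]
    | succ j =>
      simp only [Oh, em]
      have h1 : EE q (n + 1) (j + 1) (n + 1) = 0 := by
        rw [Newton_EE_succ, E1_self, zero_mul]
      have h2 : Oh q n (dv q n (EE q (n + 1) (j + 1))) = Oh q n (EE q n j) := by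
        refine Oh_congr q n _ _ fun k hk => ?_
        unfold dv
        rw [h1, sub_zero, Newton_EE_succ, mul_div_cancel_left₀ _ (E1_ne h (by omega))]
      rw [h1, zero_smul, zero_add, h2, ih j (h.mono (by omega)) (by omega)]

theorem Newton_rotM_sum (q : ℂ) (n : ℕ) (s : Finset ℕ) (c : ℕ → ℂ)
    (X : ℕ → Matrix (I2 n) (I2 n) ℂ) :
    rotM q n (∑ j ∈ s, c j • X j) = ∑ j ∈ s, c j • rotM q n (X j) := by
  ext x y
  simp only [rotM, Matrix.sum_apply, Matrix.smul_apply, smul_eq_mul, Finset.mul_sum, Finset.sum_mul]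
  refine Finset.sum_congr rfl fun j _ => ?_
  ring

theorem rot_Oh (q : ℂ) (n : ℕ) (h : Gen q n) (f : ℕ → ℂ) :
    rotM q n (Oh q n f) = Oh q n (Ph q n f) := by
  have h1 : Ph q n f = fun k => ∑ j ∈ Finset.range (n + 1), nt q n f j * EE q n (n - j) k := rfl
  rw [Oh_nt, Newton_rotM_sum, h1, Oh_sum]
  refine Finset.sum_congr rfl fun j hj => ?_
  have hj' : j ≤ n := by
    have := Finset.mem_range.1 hj
    omega
  rw [Oh_smul, rot_em q n j hj' h, ← Oh_EE q n (n - j) h (by omega)]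

end Pool.Agent.H63.VC10

end

section

/-! # The value of the diagram of a tree -/

namespace Pool.Agent.H63.VC10

open Pool.Agent.H63.VC7 Matrix

variable {m : ℕ}

theorem Bra_replicate {q : ℂ} {N i : ℕ} {P : Piece} {X : Matrix (I2 N) (I2 N) ℂ}
    (h : Acts q N [P] i X) (r : ℕ) : Acts q N (List.replicate r P) i (X ^ r) := by
  induction r with
  | zero =>
    rw [List.replicate_zero, pow_zero]
    exact Acts_nil q N i
  | succ r ih =>
    rw [List.replicate_succ, pow_succ]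
    exact Acts_append (w1 := [P]) h ih

theorem Acts_twist (q : ℂ) (N : ℕ) (h : Gen q N) (a : ℤ) (i : ℕ) :
    Acts q N (twist a i) i (Oh q N (fun k => tw q k ^ a)) := by
  unfold twist
  by_cases ha : 0 < a
  · rw [if_pos ha]
    have h1 := Bra_replicate (Acts_pos q N i) a.natAbs
    rw [RM_eq q N h, Oh_pow q N h] at h1
    have h2 : (fun k => tw q k ^ a) = (fun k => tw q k ^ a.natAbs) := by
      funext k
      have h3 : (a.natAbs : ℤ) = a := Int.natAbs_of_nonneg ha.le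
      rw [← zpow_natCast, h3]
    rw [h2]
    exact h1
  · rw [if_neg ha]
    have h1 := Bra_replicate (Acts_neg q N i) a.natAbs
    rw [RiM_eq q N h, Oh_pow q N h] at h1
    have h2 : (fun k => tw q k ^ a) = (fun k => (tw q k)⁻¹ ^ a.natAbs) := by
      funext k
      have h3 : (a.natAbs : ℤ) = -a := Int.ofNat_natAbs_of_nonpos (by omega)
      rw [inv_pow, ← zpow_natCast, h3, _root_.zpow_neg, inv_inv]
    rw [h2]
    exact h1

theorem Bra_flatMap (q : ℂ) (N : ℕ) (h : Gen q N) (i : ℕ) (T : Fin m → List Piece)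
    (g : Fin m → ℕ → ℂ) (hT : ∀ j, Acts q N (T j) i (Oh q N (g j))) (l : List (Fin m)) :
    Acts q N (l.flatMap T) i (Oh q N (fun x => (l.map (fun j => g j x)).prod)) := by
  induction l with
  | nil =>
    have h1 : Oh q N (fun x => (([] : List (Fin m)).map (fun j => g j x)).prod)
        = (1 : Matrix (I2 N) (I2 N) ℂ) := by
      have := Oh_const q N 1
      simpa using this
    rw [h1, List.flatMap_nil]
    exact Acts_nil q N i
  | cons j l ih =>
    rw [List.flatMap_cons]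
    have h1 := Acts_append (hT j) ih
    rw [Oh_mul q N h] at h1
    have h2 : (fun x => ((j :: l).map (fun j => g j x)).prod)
        = (fun x => (l.map (fun j => g j x)).prod * g j x) := by
      funext x
      rw [List.map_cons, List.prod_cons, mul_comm]
    rw [h2]
    exact h1

theorem Acts_tangle (q : ℂ) (N : ℕ) (h : Gen q N) (par : Fin m → Fin (m + 1))
    (a : Fin (m + 1) → ℤ) (k : ℕ) (v : Fin (m + 1)) (i : ℕ) :
    Acts q N (tangle par a k v i) i (Oh q N (fv q N par a k v)) := by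
  induction k generalizing v i with
  | zero =>
    have h1 : fv q N par a 0 v = fun _ => (1 : ℂ) := by
      funext x
      rfl
    rw [h1, Oh_const, one_smul]
    exact Acts_nil q N i
  | succ k ih =>
    have h1 := Bra_flatMap q N h i
      (fun j => Piece.cup i :: (tangle par a k j.succ (i + 1) ++ [Piece.cap (i + 2)]))
      (fun j => Ph q N (fv q N par a k j.succ))
      (fun j => by
        rw [← rot_Oh q N h]
        exact Acts_rot (ih j.succ (i + 1)))
      ((List.finRange m).filter (fun j => par j = v))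
    have h2 := Acts_append (Acts_twist q N h (a v) i) h1
    rw [Oh_mul q N h] at h2
    have h3 : fv q N par a (k + 1) v = fun x =>
        (((List.finRange m).filter (fun j => par j = v)).map
          (fun j => Ph q N (fv q N par a k j.succ) x)).prod * tw q x ^ (a v) := by
      funext x
      show tw q x ^ (a v) *
        ∏ j ∈ Finset.univ.filter (fun j => par j = v), Ph q N (fv q N par a k j.succ) x = _
      rw [mul_comm]
      congr 1
    rw [h3]
    exact h2

theorem bracket_eq_fv (q : ℂ) (N : ℕ) (h : Gen q N) (par : Fin m → Fin (m + 1))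
    (a : Fin (m + 1) → ℤ) :
    bracket q N (diagram par a) =
      ∑ k ∈ Finset.range (N + 1), br q (2 * (k : ℤ) + 1) / br q 1 * fv q N par a (m + 1) 0 k := by
  unfold diagram
  rw [bracket_closure (Acts_tangle q N h par a (m + 1) 0 0), trq_Oh q N h]

end Pool.Agent.H63.VC10

end

section

/-! # The rotation in terms of the `6j`-symbols -/

namespace Pool.Agent.H63.VC10

open Pool.Agent.H63.VC7 Matrix

theorem Ph_eq (q : ℂ) (n : ℕ) (h : Gen q n) (f : ℕ → ℂ) (k : ℕ) :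
    Ph q n f k = (-1) ^ n * (br q 1 / br q ((n : ℤ) + 1)) *
      ∑ l ∈ Finset.range (n + 1), br q (2 * (l : ℤ) + 1) / br q 1 * sixj q n k l * f l := by
  have h1 : br q ((n : ℤ) + 1) ≠ 0 := h.ne (by omega) (by omega)
  have h2 : br q 1 ≠ 0 := h.ne (by omega) (by omega)
  have e1 : ∑ l ∈ Finset.range (n + 1), br q (2 * (l : ℤ) + 1) / br q 1 * sixj q n k l * f l =
      ∑ j ∈ Finset.range (n + 1), nt q n f j *
        ((-1) ^ n * (br q ((n : ℤ) + 1) / br q 1) * EE q n (n - j) k) := by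
    calc _ = ∑ l ∈ Finset.range (n + 1), ∑ j ∈ Finset.range (n + 1), nt q n f j *
          (br q (2 * (l : ℤ) + 1) / br q 1 * sixj q n k l * EE q n j l) := by
          refine Finset.sum_congr rfl fun l hl => ?_
          rw [f_nt q n h f l (by have := Finset.mem_range.1 hl; omega), Finset.mul_sum]
          exact Finset.sum_congr rfl fun j _ => by ring
      _ = _ := by
          rw [Finset.sum_comm]
          refine Finset.sum_congr rfl fun j hj => ?_
          rw [← Finset.mul_sum, sixj_EE q n j k h (by have := Finset.mem_range.1 hj; omega)]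
  rw [e1, Ph, Finset.mul_sum]
  refine Finset.sum_congr rfl fun j _ => ?_
  have h3 : ((-1 : ℂ) ^ n) * (-1) ^ n = 1 := by rw [← mul_pow]; norm_num
  calc nt q n f j * EE q n (n - j) k = ((-1) ^ n * (-1) ^ n) * ((br q 1 / br q ((n : ℤ) + 1)) *
        (br q ((n : ℤ) + 1) / br q 1)) * (nt q n f j * EE q n (n - j) k) := by
        rw [h3]; field_simp
    _ = _ := by ring

end Pool.Agent.H63.VC10

end

section

/-! # The colored Jones polynomial of an arborescent link as a state sum -/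

namespace Pool.Agent.H63.VC10

open Pool.Agent.H63.VC7 Matrix

variable {m : ℕ}

/-- The factor of the nodes different from the root. -/
noncomputable def Brac_c (q : ℂ) (N : ℕ) (x : ℕ) : ℂ :=
  (-1) ^ N * (br q 1 / br q ((N : ℤ) + 1)) * (br q (2 * (x : ℤ) + 1) / br q 1)

/-- The weights of the nodes. -/
noncomputable def Brac_g (q : ℂ) (N : ℕ) (a : Fin (m + 1) → ℤ) (v : Fin (m + 1)) (x : ℕ) : ℂ :=
  (if v = 0 then 1 else Brac_c q N x) * tw q x ^ (a v)

theorem Brac_fv (q : ℂ) (N : ℕ) (h : Gen q N) (par : Fin m → Fin (m + 1))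
    (hpar : ∀ j, par j ≤ j.castSucc) (a : Fin (m + 1) → ℤ) (k : ℕ) (v : Fin (m + 1))
    (hk : m < k + v) (x : ℕ) :
    (if v = 0 then 1 else Brac_c q N x) * fv q N par a k v x =
      trs N (sixj q N) par (Brac_g q N a) k v x := by
  induction k generalizing v x with
  | zero => have := v.2; omega
  | succ k ih =>
    simp only [fv, trs, Brac_g]
    rw [mul_assoc]
    congr 2
    refine Finset.prod_congr rfl fun j hj => ?_
    have hj' : par j = v := by simpa using hj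
    have h0 : (v : ℕ) ≤ j := by
      have := hpar j
      rw [hj'] at this
      exact this
    rw [Ph_eq q N h, Finset.mul_sum]
    refine Finset.sum_congr rfl fun y _ => ?_
    have h1 := ih j.succ (by simp only [Fin.val_succ]; omega) y
    simp only [Fin.succ_ne_zero, if_false] at h1
    rw [show (Brac_g q N a) = (Brac_g q N a) from rfl, ← h1, Brac_c]
    ring

theorem bracket_diagram (q : ℂ) (N : ℕ) (h : Gen q N) (par : Fin m → Fin (m + 1))
    (hpar : ∀ j, par j ≤ j.castSucc) (a : Fin (m + 1) → ℤ) :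
    bracket q N (diagram par a) =
      (-1) ^ (N * m) * (br q ((N : ℤ) + 1) / br q 1) * jones par Fin.succ a N q := by
  have h1 : br q ((N : ℤ) + 1) ≠ 0 := h.ne (by omega) (by omega)
  have h2 : br q 1 ≠ 0 := h.ne (by omega) (by omega)
  rw [bracket_eq_fv q N h par a]
  have e1 : ∀ k, fv q N par a (m + 1) 0 k =
      trs N (sixj q N) par (Brac_g q N a) (m + 1) 0 k := by
    intro k
    have := Brac_fv q N h par hpar a (m + 1) 0 (by simp) k
    simpa using this
  set g' : Fin (m + 1) → ℕ → ℂ := fun v x =>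
    (if v = 0 then br q (2 * (x : ℤ) + 1) / br q 1 else 1) * Brac_g q N a v x with hg'
  have e2 : ∀ k v x, trs N (sixj q N) par g' k (Fin.succ v) x =
      trs N (sixj q N) par (Brac_g q N a) k (Fin.succ v) x := by
    intro k
    induction k with
    | zero => intro v x; rfl
    | succ k ih =>
      intro v x
      simp only [trs]
      congr 1
      · simp [hg', Fin.succ_ne_zero]
      · exact Finset.prod_congr rfl fun j _ => Finset.sum_congr rfl fun y _ => by rw [ih]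
  have e3 : ∀ x, trs N (sixj q N) par g' (m + 1) 0 x = br q (2 * (x : ℤ) + 1) / br q 1 *
      trs N (sixj q N) par (Brac_g q N a) (m + 1) 0 x := by
    intro x
    have hx : g' 0 x = br q (2 * (x : ℤ) + 1) / br q 1 * Brac_g q N a 0 x := by simp [hg']
    simp only [trs, hx]
    rw [mul_assoc]
    congr 2
    exact Finset.prod_congr rfl fun j _ => Finset.sum_congr rfl fun y _ => by rw [e2]
  have e4 : ∑ k ∈ Finset.range (N + 1), br q (2 * (k : ℤ) + 1) / br q 1 *
      fv q N par a (m + 1) 0 k =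
      ∑ x ∈ Finset.range (N + 1), trs N (sixj q N) par g' (m + 1) 0 x :=
    Finset.sum_congr rfl fun x _ => by rw [e1, e3]
  rw [e4, trs_eq N (sixj q N) m par hpar g', jones, Finset.mul_sum]
  refine Finset.sum_congr rfl fun X _ => ?_
  rw [← mul_assoc]
  congr 1
  have e5 : ∏ i, g' i (X i) = (br q (2 * (X 0 : ℤ) + 1) / br q 1 * tw q (X 0) ^ (a 0)) *
      ∏ j : Fin m, (Brac_c q N (X j.succ) * tw q (X j.succ) ^ (a j.succ)) := by
    rw [Fin.prod_univ_succ]
    congr 1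
    · simp [hg', Brac_g]
    · exact Finset.prod_congr rfl fun j _ => by simp [hg', Brac_g, Fin.succ_ne_zero]
  rw [e5, Fin.prod_univ_succ]
  have e6 : ∏ j : Fin m, (Brac_c q N (X j.succ) * tw q (X j.succ) ^ (a j.succ)) =
      (-1) ^ (N * m) * ∏ j : Fin m, (tw q (X j.succ) ^ (a j.succ) *
        (br q (2 * (X j.succ : ℤ) + 1) / br q ((N : ℤ) + 1))) := by
    have : ((-1 : ℂ) ^ (N * m)) = ∏ _j : Fin m, (-1 : ℂ) ^ N := by
      rw [Finset.prod_const, Finset.card_univ, Fintype.card_fin, pow_mul]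
    rw [this, ← Finset.prod_mul_distrib]
    refine Finset.prod_congr rfl fun j _ => ?_
    rw [Brac_c]
    field_simp
  rw [e6]
  field_simp

theorem coloredJones_diagram (q : ℂ) (N : ℕ) (h : Gen q N) (par : Fin m → Fin (m + 1))
    (hpar : ∀ j, par j ≤ j.castSucc) (a : Fin (m + 1) → ℤ) (e : ℤ) :
    coloredJones (diagram par a) e N q =
      (-1) ^ (N * (m + 1)) * q ^ ((N : ℤ) * (N + 2) * e) * jones par Fin.succ a N q := by
  have h1 : br q ((N : ℤ) + 1) ≠ 0 := h.ne (by omega) (by omega)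
  have h2 : br q 1 ≠ 0 := h.ne (by omega) (by omega)
  rw [coloredJones, bracket_diagram q N h par hpar a]
  have h3 : ((-1 : ℂ) ^ N) * (-1) ^ N = 1 := by rw [← mul_pow]; norm_num
  have h4 : ((-1 : ℂ) ^ (N * (m + 1))) = (-1) ^ (N * m) * (-1) ^ N := by rw [← pow_add]; ring_nf
  have h5 : ((-1 : ℂ) ^ N) ≠ 0 := pow_ne_zero _ (by norm_num)
  rw [h4, div_eq_iff (mul_ne_zero h5 (div_ne_zero h1 h2))]
  linear_combination (-(q ^ ((N : ℤ) * (N + 2) * e) * ((-1) ^ (N * m) *
    (br q ((N : ℤ) + 1) / br q 1) * jones par Fin.succ a N q))) * h3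

end Pool.Agent.H63.VC10

end

section

/-!
# Checks of the definition of the colored Jones polynomials

The crossings are inverse to each other, a strand with a minimum and a maximum can be straightened,
the unknot has the value `1`, and for `N = 1` the crossing satisfies the relation of the Kauffman
bracket (normalized by the framing factor `-A³`, with `A² = q`).
-/

namespace Pool.Agent.H63.VC10

open Pool.Agent.H63.VC7 Matrix

/-- The second Reidemeister move. -/
theorem RM_mul_RiM (q : ℂ) (N : ℕ) (h : Gen q N) : RM q N * RiM q N = 1 := by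
  rw [RM_eq q N h, RiM_eq q N h, Oh_mul q N h]
  have : Oh q N (fun k => tw q k * (tw q k)⁻¹) = Oh q N (fun _ => 1) := by
    refine Oh_congr q N _ _ fun k _ => ?_
    have h0 : tw q k ≠ 0 := mul_ne_zero (pow_ne_zero _ (by norm_num)) (pow_ne_zero _ h.1)
    exact mul_inv_cancel₀ h0
  rw [this, Oh_const, one_smul]

/-- A strand with a minimum and a maximum can be straightened. -/
theorem zigzag (q : ℂ) (N : ℕ) (h : Gen q N) (a : ℕ) (ha : a ≤ N) (ψ : List ℕ → ℂ) :
    eval q N [Piece.cup 0, Piece.cap 1] ψ [a] = ψ [a] ∧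
      eval q N [Piece.cup 1, Piece.cap 0] ψ [a] = ψ [a] := by
  have hc : ∀ s ≤ N, cupc q N s ≠ 0 := fun s hs => by
    unfold cupc
    exact mul_ne_zero (mul_ne_zero (pow_ne_zero _ (by norm_num)) (zpow_ne_zero _ h.1))
      (div_ne_zero (h.brf_ne (by omega)) (mul_ne_zero (h.brf_ne (by omega)) (h.brf_ne (by omega))))
  constructor
  · simp only [eval, act, List.take_succ_cons, List.take_zero, List.drop_succ_cons, List.drop_zero,
      List.cons_append, List.nil_append]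
    rw [Finset.sum_eq_single (N - a)]
    · rw [if_pos (by omega), show N - (N - a) = a by omega, ← mul_assoc,
        inv_mul_cancel₀ (hc a ha), one_mul]
    · intro b hb hb'
      rw [if_neg (by have := Finset.mem_range.1 hb; omega), mul_zero]
    · intro hb
      exact absurd (Finset.mem_range.2 (by omega)) hb
  · simp only [eval, act, List.take_succ_cons, List.take_zero, List.drop_succ_cons, List.drop_zero,
      List.cons_append, List.nil_append]
    rw [Finset.sum_eq_single a]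
    · rw [if_pos (by omega), ← mul_assoc, inv_mul_cancel₀ (hc _ (by omega)), one_mul]
    · intro b hb hb'
      rw [if_neg (by have := Finset.mem_range.1 hb; omega), mul_zero]
    · intro hb
      exact absurd (Finset.mem_range.2 (by omega)) hb

/-- The relation of the Kauffman bracket: the crossing is `-q ^ 2` times two parallel strands minus `q`
times a maximum and a minimum. -/
theorem kauffman (q : ℂ) (h : Gen q 1) (x y : I2 1) :
    RM q 1 x y = -q ^ 2 * (if x = y then 1 else 0) -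
      q * ((if (x.1 : ℕ) + x.2 = 1 then cupc q 1 x.1 else 0) *
        (if (y.1 : ℕ) + y.2 = 1 then (cupc q 1 y.2)⁻¹ else 0)) := by
  have hq := h.1
  have h1 : br q 1 ≠ 0 := h.ne (by omega) (by omega)
  have hb1 : brf q 1 = br q 1 := by simp [brf]
  have hb0 : brf q 0 = 1 := by simp [brf]
  have hbq : br q 1 = q - q⁻¹ := by simp [br]
  obtain ⟨x1, x2⟩ := x
  obtain ⟨y1, y2⟩ := y
  fin_cases x1 <;> fin_cases x2 <;> fin_cases y1 <;> fin_cases y2 <;>
    simp [RM, Rc, cupc, hb1, hb0, h1]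
  · ring
  · field_simp
  · rw [hbq]
    field_simp
    ring

end Pool.Agent.H63.VC10

end
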