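import Pool.Agent.H94.PA.M18

/-! The parts of this file: H63.VC7.Vertex7, H63.VC7.BlockC, H63.VC7.BlockRC, H63.VC7.SumC. -/

section

/-! # The equation of an edge -/

namespace Pool.Agent.H63.VC7

open Pool.Agent.H63.VC
open Pool.Agent.H63.VC3 Complex

private lemma Vertex7_cos_im_ne {v : ℂ} (hv : 0 < v.im) : cos (Real.pi * v) ≠ 0 := by
  apply Rel_cos_ne
  have h1 : (Real.pi * v : ℂ).im = Real.pi * v.im := by simp
  rw [h1]
  have := Real.pi_pos
  positivity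

private lemma Vertex7_prod (y v : ℂ) :
    2 * sin (Real.pi * (y - v)) * (2 * sin (Real.pi * (y + v))) =
      4 * (cos (Real.pi * v) ^ 2 - cos (Real.pi * y) ^ 2) := by
  have h1 := Rel_one_add_cos v
  have h2 := Rel_one_add_cos y
  rw [Rel_prod]
  linear_combination 2 * h1 - 2 * h2

private lemma Vertex7_yre {y : ℂ} (h : ‖y - 1 / 4‖ ≤ 6 / 1000) :
    |y.re - 1 / 4| ≤ 6 / 1000 ∧ |y.im| ≤ 6 / 1000 := by
  have h1 := (Complex.abs_re_le_norm (y - 1 / 4)).trans h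
  have h2 := (Complex.abs_im_le_norm (y - 1 / 4)).trans h
  have e1 : (y - 1 / 4 : ℂ).re = y.re - 1 / 4 := by
    rw [Complex.sub_re]; norm_num
  have e2 : (y - 1 / 4 : ℂ).im = y.im := by
    rw [Complex.sub_im]; norm_num
  rw [e1] at h1
  rw [e2] at h2
  exact ⟨h1, h2⟩

private lemma Vertex7_half_exp (v : ℂ) (hv : |v.re| ≤ 3 / 8) : exp (hh (v + 1 / 2)) =
    2 * cos (Real.pi * v) := by
  have h5 : (v + 1 / 2 : ℂ).re = v.re + 1 / 2 := by
    rw [Complex.add_re]; norm_num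
  have h6 := abs_le.1 hv
  rw [hh_exp _ (by rw [h5]; linarith only [h6, h6.1]) (by rw [h5]; linarith only [h6, h6.2]), Rel_cos_half]

private lemma Vertex7_eq {y v w : ℂ} (h : Loc7 y v w) :
    cos (Real.pi * v) ^ 2 * cos (Real.pi * w) ^ 2 =
      cos (Real.pi * y) ^ 2 * (cos (Real.pi * v) ^ 2 + cos (Real.pi * w) ^ 2) := by
  obtain ⟨hy1, -⟩ := Vertex7_yre h.hy
  have hy := abs_le.1 hy1
  have hv := abs_le.1 h.hv.1
  have hw := abs_le.1 h.hw.1
  have he := congrArg Complex.exp h.ey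
  have s1 : (y - v).re = y.re - v.re := Complex.sub_re _ _
  have s2 : (y + v).re = y.re + v.re := Complex.add_re _ _
  have s3 : (y - w).re = y.re - w.re := Complex.sub_re _ _
  have s4 : (y + w).re = y.re + w.re := Complex.add_re _ _
  rw [Complex.exp_add, Complex.exp_add, Complex.exp_add,
    hh_exp (y - v) (by rw [s1]; linarith only [hy, hv, hy.1, hy.2, hv.1, hv.2])
      (by rw [s1]; linarith only [hy, hv, hy.1, hy.2, hv.1, hv.2]),
    hh_exp (y + v) (by rw [s2]; linarith only [hy, hv, hy.1, hy.2, hv.1, hv.2])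
      (by rw [s2]; linarith only [hy, hv, hy.1, hy.2, hv.1, hv.2]),
    hh_exp (y - w) (by rw [s3]; linarith only [hy, hw, hy.1, hy.2, hw.1, hw.2])
      (by rw [s3]; linarith only [hy, hw, hy.1, hy.2, hw.1, hw.2]),
    hh_exp (y + w) (by rw [s4]; linarith only [hy, hw, hy.1, hy.2, hw.1, hw.2])
      (by rw [s4]; linarith only [hy, hw, hy.1, hy.2, hw.1, hw.2])] at he
  have h4 : Complex.exp (4 * hh (y + 1 / 2)) = (2 * cos (Real.pi * y)) ^ 4 := by
    have : (4 : ℂ) * hh (y + 1 / 2) = (4 : ℕ) * hh (y + 1 / 2) := by norm_num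
    rw [this, Complex.exp_nat_mul, Vertex7_half_exp y (by
      rw [abs_le]; constructor <;> linarith only [hy, hy.1, hy.2])]
  rw [h4, Vertex7_prod y v] at he
  have h5 : 4 * (cos (Real.pi * v) ^ 2 - cos (Real.pi * y) ^ 2) *
      (2 * sin (Real.pi * (y - w))) * (2 * sin (Real.pi * (y + w))) =
      4 * (cos (Real.pi * v) ^ 2 - cos (Real.pi * y) ^ 2) *
      (4 * (cos (Real.pi * w) ^ 2 - cos (Real.pi * y) ^ 2)) := by
    rw [← Vertex7_prod y w]; ring
  rw [h5] at he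
  linear_combination (-1 / 16) * he

theorem hh_half_neg (v : ℂ) : hh (-v + 1 / 2) = hh (v + 1 / 2) := by
  unfold hh
  congr 1
  rw [Rel_cos_half, Rel_cos_half, mul_neg, Complex.cos_neg]

/-- a bound for the argument -/
private lemma Vertex7_arg {w : ℂ} (h1 : 0 < w.re) (h2 : |w.im| ≤ w.re / 5) :
    |w.arg| ≤ Real.pi / 10 := by
  have hp := Real.pi_pos
  have hn : w.re ≤ ‖w‖ := Complex.re_le_norm w
  have hn0 : 0 < ‖w‖ := h1.trans_le hn
  have h3 : |w.im / ‖w‖| ≤ 1 / 5 := by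
    rw [abs_div, abs_of_pos hn0, div_le_iff₀ hn0]
    linarith only [h2, hn]
  have h5 : (1 / 5 : ℝ) ≤ Real.sin (Real.pi / 10) := by
    have := Real.mul_le_sin (x := Real.pi / 10) (by positivity) (by linarith only [hp])
    have e : 2 / Real.pi * (Real.pi / 10) = 1 / 5 := by field_simp; norm_num
    linarith only [this, e]
  rw [Complex.arg_of_re_nonneg h1.le, abs_le]
  have h6 := abs_le.1 h3
  constructor
  · have := Real.le_arcsin_iff_sin_le (x := -(Real.pi / 10)) (y := w.im / ‖w‖)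
      ⟨by linarith only [hp], by linarith only [hp]⟩ ⟨by linarith only [h6, h6.1], by linarith only [h6, h6.2]⟩
    rw [this, Real.sin_neg]
    linarith only [h5, h6, h6.1]
  · have := Real.arcsin_le_iff_le_sin (x := w.im / ‖w‖) (y := Real.pi / 10)
      ⟨by linarith only [h6, h6.1], by linarith only [h6, h6.2]⟩ ⟨by linarith only [hp], by linarith only [hp]⟩
    rw [this]
    linarith only [h5, h6, h6.2]

private lemma Vertex7_cos_parts (v : ℂ) :
    (cos (Real.pi * v)).re = Real.cos (Real.pi * v.re) * Real.cosh (Real.pi * v.im) ∧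
    (cos (Real.pi * v)).im = -(Real.sin (Real.pi * v.re) * Real.sinh (Real.pi * v.im)) := by
  rw [Complex.cos_eq]
  have e1 : (Real.pi * v : ℂ).re = Real.pi * v.re := by simp
  have e2 : (Real.pi * v : ℂ).im = Real.pi * v.im := by simp
  rw [e1, e2, ← Complex.ofReal_cos, ← Complex.ofReal_cosh, ← Complex.ofReal_sin,
    ← Complex.ofReal_sinh]
  constructor
  · simp only [Complex.sub_re, Complex.mul_re, Complex.ofReal_re, Complex.ofReal_im,
      Complex.I_re, Complex.I_im, Complex.mul_im, mul_zero, zero_mul, sub_zero, add_zero]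
  · simp only [Complex.sub_im, Complex.mul_re, Complex.ofReal_re, Complex.ofReal_im,
      Complex.I_re, Complex.I_im, Complex.mul_im, mul_zero, zero_mul, sub_zero, add_zero,
      mul_one, zero_add, zero_sub]

private lemma Vertex7_sinh {x : ℝ} (hx : |x| ≤ 1 / 50) : |Real.sinh x| ≤ 1 / 20 := by
  have h1 := abs_le.1 hx
  have e1 : Real.exp x ≤ 1 + 1 / 20 := by
    have := Real.abs_exp_sub_one_le (x := x) (hx.trans (by norm_num))
    have h2 := (abs_le.1 this).2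
    linarith only [hx, h2]
  have e2 : Real.exp (-x) ≤ 1 + 1 / 20 := by
    have h3 : |(-x)| ≤ 1 := by rw [abs_neg]; exact hx.trans (by norm_num)
    have := Real.abs_exp_sub_one_le (x := -x) h3
    rw [abs_neg] at this
    have h2 := (abs_le.1 this).2
    linarith only [hx, h2]
  have e3 : 1 - 1 / 20 ≤ Real.exp x := by
    have := Real.add_one_le_exp x
    linarith only [h1, this, h1.1]
  have e4 : 1 - 1 / 20 ≤ Real.exp (-x) := by
    have := Real.add_one_le_exp (-x)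
    linarith only [h1, this, h1.2]
  rw [Real.sinh_eq, abs_le]
  constructor <;> linarith only [e2, e3, e1, e4]

/-- the imaginary part of `hh (v + 1 / 2)` is small -/
private lemma Vertex7_im {v : ℂ} (h1 : |v.re| ≤ 256 / 1000) (h2 : |v.im| ≤ 6 / 1000) :
    |(hh (v + 1 / 2)).im| ≤ Real.pi / 10 := by
  have hp := Real.pi_pos
  have hp4 : Real.pi < 3.15 := Real.pi_lt_d2
  unfold hh
  rw [Rel_cos_half, Complex.log_im]
  obtain ⟨r1, r2⟩ := Vertex7_cos_parts v
  have e1 : (2 * cos (Real.pi * v)).re = 2 * (cos (Real.pi * v)).re := by simp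
  have e2 : (2 * cos (Real.pi * v)).im = 2 * (cos (Real.pi * v)).im := by simp
  have c1 : (67 / 100 : ℝ) ≤ Real.cos (Real.pi * v.re) := by
    have h3 := Real.one_sub_sq_div_two_le_cos (x := Real.pi * v.re)
    have h4 : |Real.pi * v.re| ≤ 3.15 * (256 / 1000) := by
      rw [abs_mul, abs_of_pos hp]
      exact mul_le_mul hp4.le h1 (abs_nonneg _) (by norm_num)
    have h5 : (Real.pi * v.re) ^ 2 ≤ (3.15 * (256 / 1000)) ^ 2 := by
      rw [← sq_abs]
      exact pow_le_pow_left₀ (abs_nonneg _) h4 2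
    norm_num at h5 ⊢
    linarith only [h3, h5]
  have c2 : 1 ≤ Real.cosh (Real.pi * v.im) := Real.one_le_cosh _
  have c3 : (67 / 100 : ℝ) ≤ (cos (Real.pi * v)).re := by
    rw [r1]
    nlinarith only [c1, c2]
  have c4 : |(cos (Real.pi * v)).im| ≤ 1 / 20 := by
    rw [r2, abs_neg, abs_mul]
    have h4 : |Real.pi * v.im| ≤ 1 / 50 := by
      rw [abs_mul, abs_of_pos hp]
      calc Real.pi * |v.im| ≤ 3.15 * (6 / 1000) :=
            mul_le_mul hp4.le h2 (abs_nonneg _) (by norm_num)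
        _ ≤ 1 / 50 := by norm_num
    have h5 := Vertex7_sinh h4
    have h6 := Real.abs_sin_le_one (Real.pi * v.re)
    calc |Real.sin (Real.pi * v.re)| * |Real.sinh (Real.pi * v.im)| ≤ 1 * (1 / 20) :=
          mul_le_mul h6 h5 (abs_nonneg _) (by norm_num)
      _ = 1 / 20 := by norm_num
  apply Vertex7_arg
  · rw [e1]; linarith only [c3]
  · rw [e1, e2, abs_mul, abs_of_pos (by norm_num : (0 : ℝ) < 2)]
    linarith only [c3, c4]

private lemma Vertex7_im' {z : ℂ} (h0 : 0 < z.re) (h1 : z.re < 1) :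
    |(hh z).im| < Real.pi / 2 := by
  unfold hh
  rw [Complex.log_im]
  exact Complex.abs_arg_lt_pi_div_two_iff.2 (Or.inl (Clausen_sin_re z h0 h1))

theorem vertex_w {y v w : ℂ} (h : Loc7 y v w) : hh (y - w) + hh (y + w) =
    2 * hh (y + 1 / 2) + 2 * hh (w + 1 / 2) - 2 * hh (v + 1 / 2) := by
  have hp := Real.pi_pos
  obtain ⟨hy1, hy2⟩ := Vertex7_yre h.hy
  have hy := abs_le.1 hy1
  have hv := abs_le.1 h.hv.1
  have hw := abs_le.1 h.hw.1
  have s3 : (y - w).re = y.re - w.re := Complex.sub_re _ _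
  have s4 : (y + w).re = y.re + w.re := Complex.add_re _ _
  have a1 : 0 < (y - w).re := by rw [s3]; linarith only [hy, hw, hy.1, hy.2, hw.1, hw.2]
  have a2 : (y - w).re < 1 := by rw [s3]; linarith only [hy, hw, hy.1, hy.2, hw.1, hw.2]
  have a3 : 0 < (y + w).re := by rw [s4]; linarith only [hy, hw, hy.1, hy.2, hw.1, hw.2]
  have a4 : (y + w).re < 1 := by rw [s4]; linarith only [hy, hw, hy.1, hy.2, hw.1, hw.2]
  have cv := Vertex7_cos_im_ne h.hv.2.1
  have hexp : exp (hh (y - w) + hh (y + w)) =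
      exp (2 * hh (y + 1 / 2) + 2 * hh (w + 1 / 2) - 2 * hh (v + 1 / 2)) := by
    have d : ∀ x : ℂ, exp (2 * hh (x + 1 / 2)) = exp (hh (x + 1 / 2)) ^ 2 := by
      intro x
      rw [two_mul, Complex.exp_add, sq]
    rw [Complex.exp_add, hh_exp _ a1 a2, hh_exp _ a3 a4, Vertex7_prod, Complex.exp_sub,
      Complex.exp_add, d, d, d,
      Vertex7_half_exp y (by rw [abs_le]; constructor <;> linarith only [hy, hy.1, hy.2]),
      Vertex7_half_exp w (by rw [abs_le]; constructor <;> linarith only [hw, hw.1, hw.2]),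
      Vertex7_half_exp v (by rw [abs_le]; constructor <;> linarith only [hv, hv.1, hv.2])]
    have h1 := Vertex7_eq h
    rw [eq_div_iff (pow_ne_zero 2 (mul_ne_zero two_ne_zero cv))]
    linear_combination 16 * h1
  obtain ⟨n, hn⟩ := Complex.exp_eq_exp_iff_exists_int.1 hexp
  have b1 := abs_lt.1 (Vertex7_im' a1 a2)
  have b2 := abs_lt.1 (Vertex7_im' a3 a4)
  have b3 := abs_le.1 (Vertex7_im (v := y) (by
    rw [abs_le]; constructor <;> linarith only [hy, hy.1, hy.2]) hy2)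
  have b4 := abs_le.1 (Vertex7_im (v := w) (by
    rw [abs_le]; constructor <;> linarith only [hw, hw.1, hw.2]) (by
    rw [abs_le]; constructor <;> linarith only [h, h.hw.2.1, h.hw.2.2]))
  have b5 := abs_le.1 (Vertex7_im (v := v) (by
    rw [abs_le]; constructor <;> linarith only [hv, hv.1, hv.2]) (by
    rw [abs_le]; constructor <;> linarith only [h, h.hv.2.1, h.hv.2.2]))
  have him := congrArg Complex.im hn
  have e1 : (2 * hh (y + 1 / 2) + 2 * hh (w + 1 / 2) - 2 * hh (v + 1 / 2) +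
      (n : ℂ) * (2 * Real.pi * I)).im = 2 * (hh (y + 1 / 2)).im + 2 * (hh (w + 1 / 2)).im -
      2 * (hh (v + 1 / 2)).im + (n : ℝ) * (2 * Real.pi) := by
    simp [Complex.add_im, Complex.sub_im, Complex.mul_im]
  rw [e1, Complex.add_im] at him
  have hn0 : n = 0 := by
    by_contra hne
    have : (1 : ℝ) ≤ |(n : ℝ)| := by
      have h1 : 1 ≤ |n| := Int.one_le_abs hne
      exact_mod_cast h1
    rcases le_abs'.1 this with h2 | h2
    · nlinarith only [b1, b2, b3, b4, b5, him, hp, hy, s3, s4, a1, a3, h2, b1.1, b1.2, b2.1, b2.2, b3.1, b3.2, b4.1, b4.2, b5.1, b5.2]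
    · nlinarith only [b1, b2, b3, b4, b5, him, hp, hy, s3, s4, a1, a3, h2, b1.1, b1.2, b2.1, b2.2, b3.1, b3.2, b4.1, b4.2, b5.1, b5.2]
  rw [hn, hn0]
  simp

end Pool.Agent.H63.VC7

end

section

/-! # The equations of a block -/

namespace Pool.Agent.H63.VC7

open Pool.Agent.H63.VC
open Pool.Agent.H63.VC3 Pool.Agent.H63.VC5 Complex

/-- The logarithms of the shape parameters of the tetrahedra `0`, `3` of a block. -/
structure BlockC_logs (y v : ℂ) : Prop where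
  x0 : l0 (sX y v) = Real.pi * I / 2 - Real.pi * I * v + hh (y + 1 / 2) - hh (y + v)
  x1 : l1 (sX y v) = Real.pi * I / 2 - Real.pi * I * y + hh (y + v) - hh (v + 1 / 2)
  x2 : l2 (sX y v) = Real.pi * I * (y + v) + hh (v + 1 / 2) - hh (y + 1 / 2)
  xp : 0 < (sX y v).im
  y0 : l0 (sY y v) = Real.pi * I / 2 - Real.pi * I * v + hh (y + v) - hh (y + 1 / 2)
  y1 : l1 (sY y v) = Real.pi * I * (y + v) + hh (y + 1 / 2) - hh (v + 1 / 2)
  y2 : l2 (sY y v) = Real.pi * I / 2 - Real.pi * I * y + hh (v + 1 / 2) - hh (y + v)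
  yp : 0 < (sY y v).im
  x0' : l0 (sX y (-v)) = Real.pi * I / 2 + Real.pi * I * v + hh (y + 1 / 2) - hh (y - v)
  x1' : l1 (sX y (-v)) = Real.pi * I / 2 - Real.pi * I * y + hh (y - v) - hh (v + 1 / 2)
  x2' : l2 (sX y (-v)) = Real.pi * I * (y - v) + hh (v + 1 / 2) - hh (y + 1 / 2)
  xp' : 0 < (sX y (-v)).im
  y0' : l0 (sY y (-v)) = Real.pi * I / 2 + Real.pi * I * v + hh (y - v) - hh (y + 1 / 2)
  y1' : l1 (sY y (-v)) = Real.pi * I * (y - v) + hh (y + 1 / 2) - hh (v + 1 / 2)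
  y2' : l2 (sY y (-v)) = Real.pi * I / 2 - Real.pi * I * y + hh (v + 1 / 2) - hh (y - v)
  yp' : 0 < (sY y (-v)).im

theorem BlockC_mk {y v : ℂ} (hy : ‖y - 1 / 4‖ ≤ 6 / 1000)
    (hv : |v.re| ≤ 53 / 1000 ∧ 0 < v.im ∧ v.im ≤ 3 / 1000) : BlockC_logs y v := by
  obtain ⟨h1, h2, h3⟩ := hv
  have hi : |v.im| ≤ 3 / 1000 := by rw [abs_of_pos h2]; exact h3
  have h1' : |(-v).re| ≤ 53 / 1000 := by rw [neg_re, abs_neg]; exact h1
  have hi' : |(-v).im| ≤ 3 / 1000 := by rw [neg_im, abs_neg]; exact hi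
  obtain ⟨a0, a1, a2, ap⟩ := sX_log y v hy h1 hi
  obtain ⟨b0, b1, b2, bp⟩ := sY_log y v hy h1 hi
  obtain ⟨c0, c1, c2, cp⟩ := sX_log y (-v) hy h1' hi'
  obtain ⟨d0, d1, d2, dp⟩ := sY_log y (-v) hy h1' hi'
  rw [hh_half_neg] at c1 c2 d1 d2
  rw [← sub_eq_add_neg] at c0 c1 c2 d0 d1 d2
  exact {
    x0 := a0, x1 := a1, x2 := a2, xp := ap, y0 := b0, y1 := b1, y2 := b2, yp := bp
    x0' := by rw [c0]; ring
    x1' := c1, x2' := c2, xp' := cp
    y0' := by rw [d0]; ring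
    y1' := d1, y2' := d2, yp' := dp }

theorem block_pos {y v w : ℂ} (h : Loc7 y v w) (k : Fin 4) :
    0 < (shx y v w k).im ∧ 0 < (shy y v w k).im := by
  have hl := BlockC_mk h.hy h.hv
  have hm := BlockC_mk h.hy h.hw
  fin_cases k
  · exact ⟨hl.xp, hl.yp⟩
  · exact ⟨hm.xp', hm.yp'⟩
  · exact ⟨hm.xp, hm.yp⟩
  · exact ⟨hl.xp', hl.yp'⟩

theorem block_geom {y v w : ℂ} (h : Loc7 y v w) :
    Hyp.Block (Real.pi * I) (fun k => Hyp.lgs (shx y v w k)) (fun k => Hyp.lgs (shy y v w k))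
      (2 * Real.pi * I * v) (2 * Real.pi * I * w) (hh (v + 1 / 2) - hh (w + 1 / 2)) := by
  have hl := BlockC_mk h.hy h.hv
  have hm := BlockC_mk h.hy h.hw
  have he := h.ey
  have hw := vertex_w h
  constructor
  · change l0 (sX y v) + l0 (sX y (-w)) + l0 (sX y w) + l0 (sX y (-v)) = _
    rw [hl.x0, hm.x0', hm.x0, hl.x0']
    linear_combination he
  · change l0 (sY y v) + l0 (sY y (-w)) + l0 (sY y w) + l0 (sY y (-v)) = _
    rw [hl.y0, hm.y0', hm.y0, hl.y0']
    linear_combination -he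
  · constructor
    · change l2 (sX y v) + l1 (sX y (-v)) + l1 (sY y v) + l2 (sY y (-v)) = _
      rw [hl.x2, hl.x1', hl.y1, hl.y2']
      ring
    · change l0 (sX y (-v)) + l0 (sY y (-v)) = _
      rw [hl.x0', hl.y0']
      ring
    · change l0 (sX y v) + l0 (sY y v) = _
      rw [hl.x0, hl.y0]
      ring
    · change l1 (sX y v) + l2 (sX y (-v)) + l2 (sY y v) + l1 (sY y (-v)) = _
      rw [hl.x1, hl.x2', hl.y2, hl.y1']
      ring
    · change l2 (sX y (-v)) + l1 (sX y w) + l1 (sY y (-v)) + l2 (sY y w) = _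
      rw [hl.x2', hm.x1, hl.y1', hm.y2]
      ring
    · change l2 (sX y v) + l1 (sX y (-w)) + l1 (sY y v) + l2 (sY y (-w)) = _
      rw [hl.x2, hm.x1', hl.y1, hm.y2']
      ring
    · change l2 (sX y v) - l2 (sX y (-v)) = _
      rw [hl.x2, hl.x2']
      ring
    · change l1 (sY y v) - l1 (sY y (-v)) = _
      rw [hl.y1, hl.y1']
      ring
  · constructor
    · change l2 (sX y w) + l1 (sX y (-w)) + l1 (sY y w) + l2 (sY y (-w)) = _
      rw [hm.x2, hm.x1', hm.y1, hm.y2']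
      ring
    · change l0 (sX y (-w)) + l0 (sY y (-w)) = _
      rw [hm.x0', hm.y0']
      ring
    · change l0 (sX y w) + l0 (sY y w) = _
      rw [hm.x0, hm.y0]
      ring
    · change l1 (sX y w) + l2 (sX y (-w)) + l2 (sY y w) + l1 (sY y (-w)) = _
      rw [hm.x1, hm.x2', hm.y2, hm.y1']
      ring
    · change l2 (sX y (-w)) + l1 (sX y v) + l1 (sY y (-w)) + l2 (sY y v) = _
      rw [hm.x2', hl.x1, hm.y1', hl.y2]
      ring
    · change l2 (sX y w) + l1 (sX y (-v)) + l1 (sY y w) + l2 (sY y (-v)) = _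
      rw [hm.x2, hl.x1', hm.y1, hl.y2']
      ring
    · change l2 (sX y w) - l2 (sX y (-w)) = _
      rw [hm.x2, hm.x2']
      ring
    · change l1 (sY y w) - l1 (sY y (-w)) = _
      rw [hm.y1, hm.y1']
      ring
  · change l2 (sY y v) - l2 (sY y (-v)) = l1 (sX y (-v)) - l1 (sX y v)
    rw [hl.y2, hl.y2', hl.x1', hl.x1]
    ring
  · change l2 (sY y w) - l2 (sY y (-w)) = l1 (sX y (-w)) - l1 (sX y w)
    rw [hm.y2, hm.y2', hm.x1', hm.x1]
    ring
  · change l0 (sX y w) - l2 (sX y (-v)) - l1 (sX y (-w)) = _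
    rw [hm.x0, hl.x2', hm.x1']
    linear_combination -hw
  · change l2 (sX y v) - l2 (sX y (-w)) = _
    rw [hl.x2, hm.x2']
    ring
  · change l0 (sX y (-w)) - l2 (sX y v) - l1 (sX y w) = _
    rw [hm.x0', hl.x2, hm.x1]
    linear_combination -hw
  · change l2 (sX y (-v)) - l2 (sX y w) = _
    rw [hl.x2', hm.x2]
    ring
  · change l1 (sY y (-v)) + l2 (sY y (-w)) - l0 (sY y w) = _
    rw [hl.y1', hm.y2', hm.y0]
    linear_combination -hw
  · change l1 (sY y (-w)) - l1 (sY y v) = _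
    rw [hm.y1', hl.y1]
    ring
  · change l1 (sY y v) + l2 (sY y w) - l0 (sY y (-w)) = _
    rw [hl.y1, hm.y2, hm.y0']
    linear_combination -hw
  · change l1 (sY y w) - l1 (sY y (-v)) = _
    rw [hm.y1, hl.y1']
    ring

theorem block_flat {y v w : ℂ} (h : Loc7 y v w) (ms mt al be : ℤ) :
    Hyp.Block 0 (FX y v w ms mt al be) (FY y v w ms mt al be)
      (2 * Real.pi * I * v + ms * (Real.pi * I)) (2 * Real.pi * I * w + mt * (Real.pi * I))
      ((hh (v + 1 / 2) + ms / 2 * (Real.pi * I)) - (hh (w + 1 / 2) + mt / 2 * (Real.pi * I))) := by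
  have hl := BlockC_mk h.hy h.hv
  have hm := BlockC_mk h.hy h.hw
  have he := h.ey
  have hw := vertex_w h
  constructor
  · change (l0 (sX y v) + ((al - ms + mt : ℤ) : ℂ) * (Real.pi * I)) + (l0 (sX y (-w)) + ((be +
      ms : ℤ) : ℂ) * (Real.pi * I)) + (l0 (sX y w) + ((-be - mt - 1 : ℤ) : ℂ) * (Real.pi * I))
      + (l0 (sX y (-v)) + ((-al - 1 : ℤ) : ℂ) * (Real.pi * I)) = _
    rw [hl.x0, hm.x0', hm.x0, hl.x0']
    push_cast
    linear_combination he
  · change (l0 (sY y v) + ((-al - mt - 1 : ℤ) : ℂ) * (Real.pi * I)) + (l0 (sY y (-w)) + ((-be -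
      ms + mt - 1 : ℤ) : ℂ) * (Real.pi * I)) + (l0 (sY y w) + ((be : ℤ) : ℂ) * (Real.pi * I)) +
      (l0 (sY y (-v)) + ((al + ms : ℤ) : ℂ) * (Real.pi * I)) = _
    rw [hl.y0, hm.y0', hm.y0, hl.y0']
    push_cast
    linear_combination -he
  · constructor
    · change (l2 (sX y v) + ((0 : ℤ) : ℂ) * (Real.pi * I)) + (l1 (sX y (-v)) + ((al + ms : ℤ) :
        ℂ) * (Real.pi * I)) + (l1 (sY y v) + ((0 : ℤ) : ℂ) * (Real.pi * I)) + (l2 (sY y (-v)) +
        ((-1 - al : ℤ) : ℂ) * (Real.pi * I)) = _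
      rw [hl.x2, hl.x1', hl.y1, hl.y2']
      push_cast
      ring
    · change (l0 (sX y (-v)) + ((-al - 1 : ℤ) : ℂ) * (Real.pi * I)) + (l0 (sY y (-v)) + ((al +
        ms : ℤ) : ℂ) * (Real.pi * I)) = _
      rw [hl.x0', hl.y0']
      push_cast
      ring
    · change (l0 (sX y v) + ((al - ms + mt : ℤ) : ℂ) * (Real.pi * I)) + (l0 (sY y v) + ((-al -
        mt - 1 : ℤ) : ℂ) * (Real.pi * I)) = _
      rw [hl.x0, hl.y0]
      push_cast
      ring
    · change (l1 (sX y v) + ((-al + ms - mt - 1 : ℤ) : ℂ) * (Real.pi * I)) + (l2 (sX y (-v)) +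
        ((-ms : ℤ) : ℂ) * (Real.pi * I)) + (l2 (sY y v) + ((al + mt : ℤ) : ℂ) * (Real.pi * I))
        + (l1 (sY y (-v)) + ((-ms : ℤ) : ℂ) * (Real.pi * I)) = _
      rw [hl.x1, hl.x2', hl.y2, hl.y1']
      push_cast
      ring
    · change (l2 (sX y (-v)) + ((-ms : ℤ) : ℂ) * (Real.pi * I)) + (l1 (sX y w) + ((be + ms : ℤ)
        : ℂ) * (Real.pi * I)) + (l1 (sY y (-v)) + ((-ms : ℤ) : ℂ) * (Real.pi * I)) + (l2 (sY y
        w) + ((-1 - be : ℤ) : ℂ) * (Real.pi * I)) = _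
      rw [hl.x2', hm.x1, hl.y1', hm.y2]
      push_cast
      ring
    · change (l2 (sX y v) + ((0 : ℤ) : ℂ) * (Real.pi * I)) + (l1 (sX y (-w)) + ((-be - 1 : ℤ) :
        ℂ) * (Real.pi * I)) + (l1 (sY y v) + ((0 : ℤ) : ℂ) * (Real.pi * I)) + (l2 (sY y (-w)) +
        ((be + ms : ℤ) : ℂ) * (Real.pi * I)) = _
      rw [hl.x2, hm.x1', hl.y1, hm.y2']
      push_cast
      ring
    · change (l2 (sX y v) + ((0 : ℤ) : ℂ) * (Real.pi * I)) - (l2 (sX y (-v)) + ((-ms : ℤ) : ℂ)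
        * (Real.pi * I)) = _
      rw [hl.x2, hl.x2']
      push_cast
      ring
    · change (l1 (sY y v) + ((0 : ℤ) : ℂ) * (Real.pi * I)) - (l1 (sY y (-v)) + ((-ms : ℤ) : ℂ)
        * (Real.pi * I)) = _
      rw [hl.y1, hl.y1']
      push_cast
      ring
  · constructor
    · change (l2 (sX y w) + ((mt - ms : ℤ) : ℂ) * (Real.pi * I)) + (l1 (sX y (-w)) + ((-be - 1
        : ℤ) : ℂ) * (Real.pi * I)) + (l1 (sY y w) + ((0 : ℤ) : ℂ) * (Real.pi * I)) + (l2 (sY y
        (-w)) + ((be + ms : ℤ) : ℂ) * (Real.pi * I)) = _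
      rw [hm.x2, hm.x1', hm.y1, hm.y2']
      push_cast
      ring
    · change (l0 (sX y (-w)) + ((be + ms : ℤ) : ℂ) * (Real.pi * I)) + (l0 (sY y (-w)) + ((-be -
        ms + mt - 1 : ℤ) : ℂ) * (Real.pi * I)) = _
      rw [hm.x0', hm.y0']
      push_cast
      ring
    · change (l0 (sX y w) + ((-be - mt - 1 : ℤ) : ℂ) * (Real.pi * I)) + (l0 (sY y w) + ((be :
        ℤ) : ℂ) * (Real.pi * I)) = _
      rw [hm.x0, hm.y0]
      push_cast
      ring
    · change (l1 (sX y w) + ((be + ms : ℤ) : ℂ) * (Real.pi * I)) + (l2 (sX y (-w)) + ((-ms : ℤ)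
        : ℂ) * (Real.pi * I)) + (l2 (sY y w) + ((-1 - be : ℤ) : ℂ) * (Real.pi * I)) + (l1 (sY y
        (-w)) + ((-mt : ℤ) : ℂ) * (Real.pi * I)) = _
      rw [hm.x1, hm.x2', hm.y2, hm.y1']
      push_cast
      ring
    · change (l2 (sX y (-w)) + ((-ms : ℤ) : ℂ) * (Real.pi * I)) + (l1 (sX y v) + ((-al + ms -
        mt - 1 : ℤ) : ℂ) * (Real.pi * I)) + (l1 (sY y (-w)) + ((-mt : ℤ) : ℂ) * (Real.pi * I))
        + (l2 (sY y v) + ((al + mt : ℤ) : ℂ) * (Real.pi * I)) = _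
      rw [hm.x2', hl.x1, hm.y1', hl.y2]
      push_cast
      ring
    · change (l2 (sX y w) + ((mt - ms : ℤ) : ℂ) * (Real.pi * I)) + (l1 (sX y (-v)) + ((al + ms
        : ℤ) : ℂ) * (Real.pi * I)) + (l1 (sY y w) + ((0 : ℤ) : ℂ) * (Real.pi * I)) + (l2 (sY y
        (-v)) + ((-1 - al : ℤ) : ℂ) * (Real.pi * I)) = _
      rw [hm.x2, hl.x1', hm.y1, hl.y2']
      push_cast
      ring
    · change (l2 (sX y w) + ((mt - ms : ℤ) : ℂ) * (Real.pi * I)) - (l2 (sX y (-w)) + ((-ms : ℤ)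
        : ℂ) * (Real.pi * I)) = _
      rw [hm.x2, hm.x2']
      push_cast
      ring
    · change (l1 (sY y w) + ((0 : ℤ) : ℂ) * (Real.pi * I)) - (l1 (sY y (-w)) + ((-mt : ℤ) : ℂ)
        * (Real.pi * I)) = _
      rw [hm.y1, hm.y1']
      push_cast
      ring
  · change (l2 (sY y v) + ((al + mt : ℤ) : ℂ) * (Real.pi * I)) - (l2 (sY y (-v)) + ((-1 - al :
      ℤ) : ℂ) * (Real.pi * I)) = (l1 (sX y (-v)) + ((al + ms : ℤ) : ℂ) * (Real.pi * I)) - (l1
      (sX y v) + ((-al + ms - mt - 1 : ℤ) : ℂ) * (Real.pi * I))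
    rw [hl.y2, hl.y2', hl.x1', hl.x1]
    push_cast
    ring
  · change (l2 (sY y w) + ((-1 - be : ℤ) : ℂ) * (Real.pi * I)) - (l2 (sY y (-w)) + ((be + ms :
      ℤ) : ℂ) * (Real.pi * I)) = (l1 (sX y (-w)) + ((-be - 1 : ℤ) : ℂ) * (Real.pi * I)) - (l1
      (sX y w) + ((be + ms : ℤ) : ℂ) * (Real.pi * I))
    rw [hm.y2, hm.y2', hm.x1', hm.x1]
    push_cast
    ring
  · change (l0 (sX y w) + ((-be - mt - 1 : ℤ) : ℂ) * (Real.pi * I)) - (l2 (sX y (-v)) + ((-ms :
      ℤ) : ℂ) * (Real.pi * I)) - (l1 (sX y (-w)) + ((-be - 1 : ℤ) : ℂ) * (Real.pi * I)) = _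
    rw [hm.x0, hl.x2', hm.x1']
    push_cast
    linear_combination -hw
  · change (l2 (sX y v) + ((0 : ℤ) : ℂ) * (Real.pi * I)) - (l2 (sX y (-w)) + ((-ms : ℤ) : ℂ) *
      (Real.pi * I)) = _
    rw [hl.x2, hm.x2']
    push_cast
    ring
  · change (l0 (sX y (-w)) + ((be + ms : ℤ) : ℂ) * (Real.pi * I)) - (l2 (sX y v) + ((0 : ℤ) :
      ℂ) * (Real.pi * I)) - (l1 (sX y w) + ((be + ms : ℤ) : ℂ) * (Real.pi * I)) = _
    rw [hm.x0', hl.x2, hm.x1]
    push_cast
    linear_combination -hw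
  · change (l2 (sX y (-v)) + ((-ms : ℤ) : ℂ) * (Real.pi * I)) - (l2 (sX y w) + ((mt - ms : ℤ) :
      ℂ) * (Real.pi * I)) = _
    rw [hl.x2', hm.x2]
    push_cast
    ring
  · change (l1 (sY y (-v)) + ((-ms : ℤ) : ℂ) * (Real.pi * I)) + (l2 (sY y (-w)) + ((be + ms :
      ℤ) : ℂ) * (Real.pi * I)) - (l0 (sY y w) + ((be : ℤ) : ℂ) * (Real.pi * I)) = _
    rw [hl.y1', hm.y2', hm.y0]
    push_cast
    linear_combination -hw
  · change (l1 (sY y (-w)) + ((-mt : ℤ) : ℂ) * (Real.pi * I)) - (l1 (sY y v) + ((0 : ℤ) : ℂ) *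
      (Real.pi * I)) = _
    rw [hm.y1', hl.y1]
    push_cast
    ring
  · change (l1 (sY y v) + ((0 : ℤ) : ℂ) * (Real.pi * I)) + (l2 (sY y w) + ((-1 - be : ℤ) : ℂ) *
      (Real.pi * I)) - (l0 (sY y (-w)) + ((-be - ms + mt - 1 : ℤ) : ℂ) * (Real.pi * I)) = _
    rw [hl.y1, hm.y2, hm.y0']
    push_cast
    linear_combination -hw
  · change (l1 (sY y w) + ((0 : ℤ) : ℂ) * (Real.pi * I)) - (l1 (sY y (-v)) + ((-ms : ℤ) : ℂ) *
      (Real.pi * I)) = _
    rw [hm.y1, hl.y1']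
    push_cast
    ring

theorem block_mer {y v w : ℂ} (h : Loc7 y v w) (ms mt al be : ℤ) :
    Hyp.mer (fun k => Hyp.lgs (shx y v w k)) = hh (y - v) - hh (y + v) ∧
    Hyp.mer (Hyp.opp (fun k => Hyp.lgs (shx y v w k))) = hh (y - w) - hh (y + w) ∧
    Hyp.mer (FX y v w ms mt al be) =
      hh (y - v) - hh (y + v) + (2 * al + mt + 1) * (Real.pi * I) ∧
    Hyp.mer (Hyp.opp (FX y v w ms mt al be)) =
      hh (y - w) - hh (y + w) - (2 * be + ms + 1) * (Real.pi * I) := by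
  have hl := BlockC_mk h.hy h.hv
  have hm := BlockC_mk h.hy h.hw
  refine ⟨?_, ?_, ?_, ?_⟩
  · change l1 (sX y (-v)) - l1 (sX y v) = _
    rw [hl.x1', hl.x1]
    ring
  · change l1 (sX y (-w)) - l1 (sX y w) = _
    rw [hm.x1', hm.x1]
    ring
  · change (l1 (sX y (-v)) + ((al + ms : ℤ) : ℂ) * (Real.pi * I)) - (l1 (sX y v) + ((-al + ms -
      mt - 1 : ℤ) : ℂ) * (Real.pi * I)) = _
    rw [hl.x1', hl.x1]
    push_cast
    ring
  · change (l1 (sX y (-w)) + ((-be - 1 : ℤ) : ℂ) * (Real.pi * I)) - (l1 (sX y w) + ((be + ms :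
      ℤ) : ℂ) * (Real.pi * I)) = _
    rw [hm.x1', hm.x1]
    push_cast
    ring

theorem block_isFlat {y v w : ℂ} (h : Loc7 y v w) (ms mt al be : ℤ) (k : Fin 4) :
    Hyp.IsFlat (shx y v w k) (FX y v w ms mt al be k) ∧
      Hyp.IsFlat (shy y v w k) (FY y v w ms mt al be k) := by
  have hl := BlockC_mk h.hy h.hv
  have hm := BlockC_mk h.hy h.hw
  refine ⟨⟨fun c => ⟨nX ms mt al be k c, rfl⟩, ?_⟩, ⟨fun c => ⟨nY ms mt al be k c, rfl⟩, ?_⟩⟩
  · fin_cases k
    · change (l0 (sX y v) + ((al - ms + mt : ℤ) : ℂ) * (Real.pi * I)) + (l1 (sX y v) + ((-al +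
        ms - mt - 1 : ℤ) : ℂ) * (Real.pi * I)) + (l2 (sX y v) + ((0 : ℤ) : ℂ) * (Real.pi * I))
        = _
      rw [hl.x0, hl.x1, hl.x2]
      push_cast
      ring
    · change (l0 (sX y (-w)) + ((be + ms : ℤ) : ℂ) * (Real.pi * I)) + (l1 (sX y (-w)) + ((-be -
        1 : ℤ) : ℂ) * (Real.pi * I)) + (l2 (sX y (-w)) + ((-ms : ℤ) : ℂ) * (Real.pi * I)) = _
      rw [hm.x0', hm.x1', hm.x2']
      push_cast
      ring
    · change (l0 (sX y w) + ((-be - mt - 1 : ℤ) : ℂ) * (Real.pi * I)) + (l1 (sX y w) + ((be +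
        ms : ℤ) : ℂ) * (Real.pi * I)) + (l2 (sX y w) + ((mt - ms : ℤ) : ℂ) * (Real.pi * I)) = _
      rw [hm.x0, hm.x1, hm.x2]
      push_cast
      ring
    · change (l0 (sX y (-v)) + ((-al - 1 : ℤ) : ℂ) * (Real.pi * I)) + (l1 (sX y (-v)) + ((al +
        ms : ℤ) : ℂ) * (Real.pi * I)) + (l2 (sX y (-v)) + ((-ms : ℤ) : ℂ) * (Real.pi * I)) = _
      rw [hl.x0', hl.x1', hl.x2']
      push_cast
      ring
  · fin_cases k
    · change (l0 (sY y v) + ((-al - mt - 1 : ℤ) : ℂ) * (Real.pi * I)) + (l1 (sY y v) + ((0 : ℤ)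
        : ℂ) * (Real.pi * I)) + (l2 (sY y v) + ((al + mt : ℤ) : ℂ) * (Real.pi * I)) = _
      rw [hl.y0, hl.y1, hl.y2]
      push_cast
      ring
    · change (l0 (sY y (-w)) + ((-be - ms + mt - 1 : ℤ) : ℂ) * (Real.pi * I)) + (l1 (sY y (-w))
        + ((-mt : ℤ) : ℂ) * (Real.pi * I)) + (l2 (sY y (-w)) + ((be + ms : ℤ) : ℂ) * (Real.pi *
        I)) = _
      rw [hm.y0', hm.y1', hm.y2']
      push_cast
      ring
    · change (l0 (sY y w) + ((be : ℤ) : ℂ) * (Real.pi * I)) + (l1 (sY y w) + ((0 : ℤ) : ℂ) *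
        (Real.pi * I)) + (l2 (sY y w) + ((-1 - be : ℤ) : ℂ) * (Real.pi * I)) = _
      rw [hm.y0, hm.y1, hm.y2]
      push_cast
      ring
    · change (l0 (sY y (-v)) + ((al + ms : ℤ) : ℂ) * (Real.pi * I)) + (l1 (sY y (-v)) + ((-ms :
        ℤ) : ℂ) * (Real.pi * I)) + (l2 (sY y (-v)) + ((-1 - al : ℤ) : ℂ) * (Real.pi * I)) = _
      rw [hl.y0', hl.y1', hl.y2']
      push_cast
      ring

end Pool.Agent.H63.VC7

end

section

/-! # The complex volume of a block -/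

namespace Pool.Agent.H63.VC7

open Pool.Agent.H63.VC
open Pool.Agent.H63.VC3 Pool.Agent.H63.VC5 Complex

/-- The sum of the two unordered values of a pair of tetrahedra. -/
theorem BlockRC_pair (y u : ℂ) (hy : ‖y - 1 / 4‖ ≤ 6 / 1000) (hv : |u.re| ≤ 53 / 1000)
    (hv' : |u.im| ≤ 3 / 1000) (n n' : Fin 3 → ℤ) :
    rh1 (sX y u) n + rh1 (sY y u) n' =
      2 * Real.pi * I * (ff (y + 1 / 2) - ff (y + u) + ff (u + 1 / 2)) +
        Real.pi * I / 2 * (Real.pi * I / 2 - Real.pi * I * u) +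
        (Real.pi * I / 2 - Real.pi * I * u) * (hh (u + 1 / 2) - hh (y + u)) -
        Real.pi * I * y * (hh (y + 1 / 2) - hh (y + u)) +
      Real.pi * I / 2 * (n 1 * (Real.pi * I / 2 - Real.pi * I * u + hh (y + 1 / 2) - hh (y + u)) -
        n 0 * (Real.pi * I / 2 - Real.pi * I * y + hh (y + u) - hh (u + 1 / 2))) +
      Real.pi * I / 2 * (n' 1 * (Real.pi * I / 2 - Real.pi * I * u + hh (y + u) - hh (y + 1 / 2)) -
        n' 0 * (Real.pi * I * (y + u) + hh (y + 1 / 2) - hh (u + 1 / 2))) := by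
  obtain ⟨x0, x1, -, -⟩ := sX_log y u hy hv hv'
  obtain ⟨y0, y1, -, -⟩ := sY_log y u hy hv hv'
  have e := rho_pair y u hy hv hv'
  simp only [rh1, lgs_0, lgs_1, x0, x1, y0, y1]
  linear_combination e

theorem BlockRC_refl (v : ℂ) : ff (-v + 1 / 2) = -ff (v + 1 / 2) ∧
    hh (-v + 1 / 2) = hh (v + 1 / 2) := by
  have e : (-v + 1 / 2 : ℂ) = 1 - (v + 1 / 2) := by ring
  refine ⟨by rw [e, ff_reflect], ?_⟩
  have e2 : (Real.pi : ℂ) * (-v + 1 / 2) = Real.pi - Real.pi * (v + 1 / 2) := by ring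
  unfold hh
  rw [e2, Complex.sin_pi_sub]

theorem BlockRC_nX (ms mt al be : ℤ) (k : Fin 4) :
    nX ms mt al be k 0 + nX ms mt al be k 1 + nX ms mt al be k 2 = -1 := by
  fin_cases k <;> simp [nX] <;> ring

theorem BlockRC_nY (ms mt al be : ℤ) (k : Fin 4) :
    nY ms mt al be k 0 + nY ms mt al be k 1 + nY ms mt al be k 2 = -1 := by
  fin_cases k <;> simp [nY] <;> ring

/-- The two tetrahedra at an even place. -/
theorem BlockRC_even {y v w : ℂ} (h : Loc7 y v w) (ms mt al be : ℤ) (b : Bool) (k : Fin 4) :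
    Cg (Hyp.tetR (shx y v w k) (FX y v w ms mt al be k) (if b then 0 else 2) 1 +
        Hyp.tetR (shy y v w k) (FY y v w ms mt al be k) (if b then 0 else 1) 2)
      (rh1 (shx y v w k) (nX ms mt al be k) + rh1 (shy y v w k) (nY ms mt al be k) +
        (Real.pi : ℂ) ^ 2 / 2 * (if b then (nY ms mt al be k 0 : ℂ) else
          1 + nX ms mt al be k 1 + nY ms mt al be k 1)) := by
  obtain ⟨x1, x2, x3, x4⟩ := tetR_cases (shx y v w k) (block_pos h k).1 (nX ms mt al be k)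
    (BlockRC_nX ms mt al be k) (FX y v w ms mt al be k) (fun c => rfl)
  obtain ⟨y1, y2, y3, y4⟩ := tetR_cases (shy y v w k) (block_pos h k).2 (nY ms mt al be k)
    (BlockRC_nY ms mt al be k) (FY y v w ms mt al be k) (fun c => rfl)
  cases b
  · simp only [Bool.false_eq_true, if_false]
    refine (x4.add y2).trans (Cg.of_eq ?_)
    ring
  · simp only [if_true]
    refine (x1.add y3).trans (Cg.of_eq ?_)
    ring

/-- The two tetrahedra at an odd place. -/
theorem BlockRC_odd {y v w : ℂ} (h : Loc7 y v w) (ms mt al be : ℤ) (b : Bool) (k : Fin 4) :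
    Cg (Hyp.tetR (shx y v w k) (FX y v w ms mt al be k) (if b then 0 else 1) 2 +
        Hyp.tetR (shy y v w k) (FY y v w ms mt al be k) (if b then 0 else 2) 1)
      (rh1 (shx y v w k) (nX ms mt al be k) + rh1 (shy y v w k) (nY ms mt al be k) +
        (Real.pi : ℂ) ^ 2 / 2 * (if b then (nX ms mt al be k 0 : ℂ) else
          1 + nX ms mt al be k 1 + nY ms mt al be k 1)) := by
  obtain ⟨x1, x2, x3, x4⟩ := tetR_cases (shx y v w k) (block_pos h k).1 (nX ms mt al be k)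
    (BlockRC_nX ms mt al be k) (FX y v w ms mt al be k) (fun c => rfl)
  obtain ⟨y1, y2, y3, y4⟩ := tetR_cases (shy y v w k) (block_pos h k).2 (nY ms mt al be k)
    (BlockRC_nY ms mt al be k) (FY y v w ms mt al be k) (fun c => rfl)
  cases b
  · simp only [Bool.false_eq_true, if_false]
    refine (x2.add y4).trans (Cg.of_eq ?_)
    ring
  · simp only [if_true]
    refine (x3.add y1).trans (Cg.of_eq ?_)
    ring

/-- The eight values of a block. -/
theorem BlockRC_vals {y v w : ℂ} (h : Loc7 y v w) (ms mt al be : ℤ) (f f' : Bool) :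
    Cg (Hyp.blockR (shx y v w) (shy y v w) (FX y v w ms mt al be) (FY y v w ms mt al be) f f')
      ((rh1 (sX y v) (nX ms mt al be 0) + rh1 (sY y v) (nY ms mt al be 0)) +
       (rh1 (sX y (-w)) (nX ms mt al be 1) + rh1 (sY y (-w)) (nY ms mt al be 1)) +
       (rh1 (sX y w) (nX ms mt al be 2) + rh1 (sY y w) (nY ms mt al be 2)) +
       (rh1 (sX y (-v)) (nX ms mt al be 3) + rh1 (sY y (-v)) (nY ms mt al be 3)) +
       (Real.pi : ℂ) ^ 2 / 2 * (2 + 2 * ms - 2 * mt) +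
       bt1 f' * ((Real.pi : ℂ) ^ 2 / 2 * (2 * be + mt - 1)) +
       bt1 f * ((Real.pi : ℂ) ^ 2 / 2 * (-2 * al - ms - 3))) := by
  have n2 : (-1 : Fin 3) = 2 := rfl
  have n1 : (-2 : Fin 3) = 1 := rfl
  have c0 : ((0 : Fin 4) < 2) = True := by decide
  have c1 : ((1 : Fin 4) < 2) = True := by decide
  have c2 : ((2 : Fin 4) < 2) = False := by decide
  have c3 : ((3 : Fin 4) < 2) = False := by decide
  have e0 : Hyp.eo4 0 = 1 := rfl
  have e1 : Hyp.eo4 1 = 2 := rfl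
  have e2 : Hyp.eo4 2 = 1 := rfl
  have e3 : Hyp.eo4 3 = 2 := rfl
  unfold Hyp.blockR
  rw [Fin.sum_univ_four]
  simp only [e0, e1, e2, e3, n1, n2, c0, c1, c2, c3, if_true, if_false]
  refine ((((BlockRC_even h ms mt al be f' 0).add (BlockRC_odd h ms mt al be f' 1)).add
    (BlockRC_even h ms mt al be f 2)).add (BlockRC_odd h ms mt al be f 3)).trans (Cg.of_eq ?_)
  have s0 : shx y v w 0 = sX y v := rfl
  have s1 : shx y v w 1 = sX y (-w) := rfl
  have s2 : shx y v w 2 = sX y w := rfl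
  have s3 : shx y v w 3 = sX y (-v) := rfl
  have t0 : shy y v w 0 = sY y v := rfl
  have t1 : shy y v w 1 = sY y (-w) := rfl
  have t2 : shy y v w 2 = sY y w := rfl
  have t3 : shy y v w 3 = sY y (-v) := rfl
  rw [s0, s1, s2, s3, t0, t1, t2, t3]
  cases f <;> cases f' <;> simp [nX, nY, bt1] <;> ring

theorem block_R {y v w : ℂ} (h : Loc7 y v w) (ms mt al be : ℤ) (f f' : Bool) :
    Cg (Hyp.blockR (shx y v w) (shy y v w) (FX y v w ms mt al be) (FY y v w ms mt al be) f f')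
      (2 * Real.pi * I * (4 * ff (y + 1 / 2) - ff (y - v) - ff (y + v) - ff (y - w) - ff (y + w)) -
        (2 * Real.pi * I * v + ms * (Real.pi * I)) / 2 * (hh (y - v) - hh (y + v)) -
        (2 * Real.pi * I * w + mt * (Real.pi * I)) / 2 * (hh (y - w) - hh (y + w)) -
        (Real.pi : ℂ) ^ 2 * ((2 * al + mt + 1) * v - (2 * be + ms + 1) * w) +
        (Real.pi : ℂ) ^ 2 / 2 * (ms - mt + bt1 f * (1 + ms) + bt1 f' * (1 + mt))) := by
  refine (BlockRC_vals h ms mt al be f f').trans ?_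
  have hv1 : |v.im| ≤ 3 / 1000 := by rw [abs_of_pos h.hv.2.1]; exact h.hv.2.2
  have hw1 : |w.im| ≤ 3 / 1000 := by rw [abs_of_pos h.hw.2.1]; exact h.hw.2.2
  have hv2 : |(-v).re| ≤ 53 / 1000 := by rw [neg_re, abs_neg]; exact h.hv.1
  have hw2 : |(-w).re| ≤ 53 / 1000 := by rw [neg_re, abs_neg]; exact h.hw.1
  have hv3 : |(-v).im| ≤ 3 / 1000 := by rw [neg_im, abs_neg]; exact hv1
  have hw3 : |(-w).im| ≤ 3 / 1000 := by rw [neg_im, abs_neg]; exact hw1
  rw [BlockRC_pair y v h.hy h.hv.1 hv1, BlockRC_pair y (-w) h.hy hw2 hw3,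
    BlockRC_pair y w h.hy h.hw.1 hw1, BlockRC_pair y (-v) h.hy hv2 hv3,
    (BlockRC_refl v).1, (BlockRC_refl v).2, (BlockRC_refl w).1, (BlockRC_refl w).2]
  have ey := h.ey
  have I2 : (I : ℂ) ^ 2 = -1 := I_sq
  rw [← sub_eq_add_neg, ← sub_eq_add_neg]
  refine ⟨bt1 f' * (be - 1) - bt1 f * (al + ms + 2), ?_⟩
  have a0 : nX ms mt al be 0 0 = al - ms + mt := rfl
  have a1 : nX ms mt al be 0 1 = -al + ms - mt - 1 := rfl
  have a2 : nX ms mt al be 1 0 = be + ms := rfl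
  have a3 : nX ms mt al be 1 1 = -be - 1 := rfl
  have a4 : nX ms mt al be 2 0 = -be - mt - 1 := rfl
  have a5 : nX ms mt al be 2 1 = be + ms := rfl
  have a6 : nX ms mt al be 3 0 = -al - 1 := rfl
  have a7 : nX ms mt al be 3 1 = al + ms := rfl
  have b0 : nY ms mt al be 0 0 = -al - mt - 1 := rfl
  have b1 : nY ms mt al be 0 1 = 0 := rfl
  have b2 : nY ms mt al be 1 0 = -be - ms + mt - 1 := rfl
  have b3 : nY ms mt al be 1 1 = -mt := rfl
  have b4 : nY ms mt al be 2 0 = be := rfl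
  have b5 : nY ms mt al be 2 1 = 0 := rfl
  have b6 : nY ms mt al be 3 0 = al + ms := rfl
  have b7 : nY ms mt al be 3 1 = -ms := rfl
  rw [a0, a1, a2, a3, a4, a5, a6, a7, b0, b1, b2, b3, b4, b5, b6, b7]
  push_cast
  linear_combination (Real.pi * I * (ms / 2 - y)) * ey +
    ((Real.pi : ℂ) ^ 2 * (((1 / 4 - v / 2) + ((-al + ms - mt - 1 : ℂ) * (1 / 2 - v) - (al - ms + mt : ℂ) * (1 / 2 - y) + (0 : ℂ) * (1 / 2 - v) - (-al - mt - 1 : ℂ) * (y + v)) / 2) +
      ((1 / 4 - (-w) / 2) + ((-be - 1 : ℂ) * (1 / 2 - (-w)) - (be + ms : ℂ) * (1 / 2 - y) + (-mt : ℂ) * (1 / 2 - (-w)) - (-be - ms + mt - 1 : ℂ) * (y + (-w))) / 2) +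
      ((1 / 4 - w / 2) + ((be + ms : ℂ) * (1 / 2 - w) - (-be - mt - 1 : ℂ) * (1 / 2 - y) + (0 : ℂ) * (1 / 2 - w) - (be : ℂ) * (y + w)) / 2) +
      ((1 / 4 - (-v) / 2) + ((al + ms : ℂ) * (1 / 2 - (-v)) - (-al - 1 : ℂ) * (1 / 2 - y) + (-ms : ℂ) * (1 / 2 - (-v)) - (al + ms : ℂ) * (y + (-v))) / 2))) * I2

end Pool.Agent.H63.VC7

end

section

/-! # The complex volume of the link complement -/

namespace Pool.Agent.H63.VC7

open Pool.Agent.H63.VC
open Pool.Agent.H63.VC3 Pool.Agent.H63.VC4 Pool.Agent.H63.VC5 Complex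

variable {m p : ℕ}

/-- Exchange of a sum over the nodes and a sum over the edge ends. -/
theorem SumC_swap {R : Type*} [CommRing R] (s t : Fin m → Fin p) (g : Fin p → R)
    (A B : Fin m → R) :
    ∑ i, g i * ∑ j, ((if s j = i then A j else 0) + (if t j = i then B j else 0)) =
      ∑ j, (g (s j) * A j + g (t j) * B j) := by
  simp only [Finset.mul_sum]
  rw [Finset.sum_comm]
  refine Finset.sum_congr rfl fun j _ => ?_
  simp only [mul_add, Finset.sum_add_distrib, mul_ite, mul_zero]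
  simp

/-- The parity of the integer correction. -/
theorem SumC_parity (s t : Fin m → Fin p) (a n : Fin p → ℤ) (al be : Fin m → ℤ)
    (hn : ∀ i, (∑ j, ((if s j = i then 2 * al j + n (t j) + 1 else 0) +
        (if t j = i then -(2 * be j + n (s j) + 1) else 0))) + a i * n i = 2)
    (f f' : Fin m → Bool)
    (hf : ∀ i, 2 ∣ (∑ j, ((if s j = i ∧ f j = true then (1 : ℤ) else 0) +
        (if t j = i ∧ f' j = true then 1 else 0))) - a i) :
    2 ∣ (∑ j, (n (s j) - n (t j) + bt1 (f j) * (1 + n (s j)) + bt1 (f' j) * (1 + n (t j)))) -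
      ∑ i, a i := by
  have h2 : ∀ x : ZMod 2, x + x = 0 := by decide
  have hsq : ∀ x : ZMod 2, x * x = x := by decide
  have hneg : ∀ x : ZMod 2, -x = x := by decide
  have key : ∀ z : ℤ, (z : ZMod 2) = 0 ↔ (2 : ℤ) ∣ z := fun z =>
    ZMod.intCast_zmod_eq_zero_iff_dvd z 2
  rw [← key]
  have hn' : ∀ i, (∑ j, ((if s j = i then ((n (t j) : ℤ) : ZMod 2) + 1 else 0) +
        (if t j = i then ((n (s j) : ℤ) : ZMod 2) + 1 else 0))) +
        (a i : ZMod 2) * (n i : ZMod 2) = 0 := by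
    intro i
    have h := congrArg (fun z : ℤ => (z : ZMod 2)) (hn i)
    have e2 : ((2 : ℤ) : ZMod 2) = 0 := by decide
    replace h := h.trans e2
    refine Eq.trans ?_ h
    push_cast
    congr 1
    refine Finset.sum_congr rfl fun j _ => ?_
    have e2' : (2 : ZMod 2) = 0 := by decide
    congr 1
    · split_ifs
      · rw [e2']; ring
      · rfl
    · split_ifs
      · rw [e2', hneg]; ring
      · rfl
  have hf' : ∀ i, (∑ j, ((if s j = i then ((bt1 (f j) : ℤ) : ZMod 2) else 0) +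
        (if t j = i then ((bt1 (f' j) : ℤ) : ZMod 2) else 0))) = (a i : ZMod 2) := by
    intro i
    have h := (key _).2 (hf i)
    push_cast at h
    rw [sub_eq_zero] at h
    rw [← h]
    refine Finset.sum_congr rfl fun j _ => ?_
    congr 1
    · by_cases h1 : s j = i <;> by_cases h3 : f j = true <;> simp [h1, h3, bt1]
    · by_cases h1 : t j = i <;> by_cases h3 : f' j = true <;> simp [h1, h3, bt1]
  have A1 : ∑ j, ((n (s j) : ZMod 2) * ((n (t j) : ZMod 2) + 1) +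
      (n (t j) : ZMod 2) * ((n (s j) : ZMod 2) + 1)) +
      ∑ i, (n i : ZMod 2) * ((a i : ZMod 2) * (n i : ZMod 2)) = 0 := by
    rw [← SumC_swap s t (fun i => (n i : ZMod 2)), ← Finset.sum_add_distrib]
    refine Finset.sum_eq_zero fun i _ => ?_
    rw [← mul_add, hn' i, mul_zero]
  have A2 : ∑ j, ((1 + (n (s j) : ZMod 2)) * ((bt1 (f j) : ℤ) : ZMod 2) +
      (1 + (n (t j) : ZMod 2)) * ((bt1 (f' j) : ℤ) : ZMod 2)) =
      ∑ i, (1 + (n i : ZMod 2)) * (a i : ZMod 2) := by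
    rw [← SumC_swap s t (fun i => 1 + (n i : ZMod 2))]
    exact Finset.sum_congr rfl fun i _ => by rw [hf' i]
  have A3 : ∑ j, ((n (s j) : ZMod 2) * ((n (t j) : ZMod 2) + 1) +
      (n (t j) : ZMod 2) * ((n (s j) : ZMod 2) + 1)) =
      ∑ j, ((n (s j) : ZMod 2) + (n (t j) : ZMod 2)) := by
    refine Finset.sum_congr rfl fun j _ => ?_
    have := h2 ((n (s j) : ZMod 2) * (n (t j) : ZMod 2))
    linear_combination this
  have A4 : ∑ i, (n i : ZMod 2) * ((a i : ZMod 2) * (n i : ZMod 2)) =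
      ∑ i, (a i : ZMod 2) * (n i : ZMod 2) := by
    refine Finset.sum_congr rfl fun i _ => ?_
    have := hsq (n i : ZMod 2)
    linear_combination (a i : ZMod 2) * this
  rw [A3, A4] at A1
  have A5 : ∑ j, ((n (s j) : ZMod 2) - (n (t j) : ZMod 2)) =
      ∑ j, ((n (s j) : ZMod 2) + (n (t j) : ZMod 2)) := by
    refine Finset.sum_congr rfl fun j _ => ?_
    rw [sub_eq_add_neg, hneg]
  push_cast
  have e : ∑ j, ((n (s j) : ZMod 2) - (n (t j) : ZMod 2) +
      ((bt1 (f j) : ℤ) : ZMod 2) * (1 + (n (s j) : ZMod 2)) +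
      ((bt1 (f' j) : ℤ) : ZMod 2) * (1 + (n (t j) : ZMod 2))) =
      ∑ j, ((n (s j) : ZMod 2) - (n (t j) : ZMod 2)) +
      ∑ j, ((1 + (n (s j) : ZMod 2)) * ((bt1 (f j) : ℤ) : ZMod 2) +
      (1 + (n (t j) : ZMod 2)) * ((bt1 (f' j) : ℤ) : ZMod 2)) := by
    rw [← Finset.sum_add_distrib]
    exact Finset.sum_congr rfl fun j _ => by ring
  rw [e, A5, A2]
  have e3 : ∑ i, (1 + (n i : ZMod 2)) * (a i : ZMod 2) =
      ∑ i, (a i : ZMod 2) + ∑ i, (a i : ZMod 2) * (n i : ZMod 2) := by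
    rw [← Finset.sum_add_distrib]
    exact Finset.sum_congr rfl fun i _ => by ring
  rw [e3]
  linear_combination A1

theorem sum_R (s t : Fin m → Fin p) (a : Fin p → ℤ) (y : Fin m → ℂ) (v : Fin p → ℂ)
    (hc : CritG s t (fun i => (a i : ℝ) / 2) y v) (hl : ∀ j, Loc7 (y j) (v (s j)) (v (t j)))
    (n : Fin p → ℤ) (al be : Fin m → ℤ)
    (hn : ∀ i, (∑ j, ((if s j = i then 2 * al j + n (t j) + 1 else 0) +
        (if t j = i then -(2 * be j + n (s j) + 1) else 0))) + a i * n i = 2)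
    (f f' : Fin m → Bool)
    (hf : ∀ i, 2 ∣ (∑ j, ((if s j = i ∧ f j = true then (1 : ℤ) else 0) +
        (if t j = i ∧ f' j = true then 1 else 0))) - a i) :
    Cg (∑ j, Hyp.blockR (shx (y j) (v (s j)) (v (t j))) (shy (y j) (v (s j)) (v (t j)))
        (FX (y j) (v (s j)) (v (t j)) (n (s j)) (n (t j)) (al j) (be j))
        (FY (y j) (v (s j)) (v (t j)) (n (s j)) (n (t j)) (al j) (be j)) (f j) (f' j))
      (2 * Real.pi * I * VG s t (fun i => (a i : ℝ) / 2) y v +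
        (Real.pi : ℂ) ^ 2 / 2 * ∑ i, (a i : ℂ)) := by
  have h0 := Cg.sum Finset.univ (fun j _ =>
    block_R (hl j) (n (s j)) (n (t j)) (al j) (be j) (f j) (f' j))
  refine h0.trans ?_
  obtain ⟨k, hk⟩ := SumC_parity s t a n al be hn f f' hf
  have hkC := congrArg (fun z : ℤ => (z : ℂ)) hk
  push_cast at hkC
  -- the meridian terms
  have hev : ∀ i, ∑ j ∈ inc s t i, (hh (y j - v i) - hh (y j + v i)) =
      -(2 * Real.pi * I * (a i * v i + 1)) := by
    intro i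
    have h := hc.ev i
    push_cast at h
    linear_combination h
  have B1 : ∑ j, ((2 * Real.pi * I * v (s j) + n (s j) * (Real.pi * I)) / 2 *
        (hh (y j - v (s j)) - hh (y j + v (s j))) +
        (2 * Real.pi * I * v (t j) + n (t j) * (Real.pi * I)) / 2 *
        (hh (y j - v (t j)) - hh (y j + v (t j)))) =
      ∑ i, (Real.pi : ℂ) ^ 2 * ((2 * v i + n i) * (a i * v i + 1)) := by
    rw [← sum_inc s t hc.st (fun i j => (2 * Real.pi * I * v i + n i * (Real.pi * I)) / 2 *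
        (hh (y j - v i) - hh (y j + v i)))]
    refine Finset.sum_congr rfl fun i _ => ?_
    rw [← Finset.mul_sum, hev i]
    linear_combination (-(Real.pi : ℂ) ^ 2 * (2 * v i + n i) * (a i * v i + 1)) * I_sq
  have hnC : ∀ i, ∑ j, ((if s j = i then (2 * (al j : ℂ) + n (t j) + 1) else 0) +
        (if t j = i then (-(2 * (be j : ℂ) + n (s j) + 1)) else 0)) = 2 - a i * n i := by
    intro i
    have h := congrArg (fun z : ℤ => (z : ℂ)) (hn i)
    push_cast at h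
    linear_combination h
  have B2 : ∑ j, ((2 * (al j : ℂ) + n (t j) + 1) * v (s j) -
      (2 * (be j : ℂ) + n (s j) + 1) * v (t j)) = ∑ i, v i * (2 - a i * n i) := by
    have h := SumC_swap s t v (fun j => 2 * (al j : ℂ) + n (t j) + 1)
      (fun j => -(2 * (be j : ℂ) + n (s j) + 1))
    have e : ∑ j, ((2 * (al j : ℂ) + n (t j) + 1) * v (s j) -
      (2 * (be j : ℂ) + n (s j) + 1) * v (t j)) =
      ∑ j, (v (s j) * (2 * (al j : ℂ) + n (t j) + 1) +
        v (t j) * (-(2 * (be j : ℂ) + n (s j) + 1))) :=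
      Finset.sum_congr rfl fun j _ => by ring
    rw [e, ← h]
    exact Finset.sum_congr rfl fun i _ => by rw [hnC i]
  have B3 : VG s t (fun i => (a i : ℝ) / 2) y v =
      ∑ j, (4 * ff (y j + 1 / 2) - ff (y j - v (s j)) - ff (y j + v (s j)) -
        ff (y j - v (t j)) - ff (y j + v (t j))) +
      ∑ i, 2 * Real.pi * I * (a i / 2 * v i ^ 2 + v i) := by
    have h := sum_inc s t hc.st (fun i j => -ff (y j - v i) - ff (y j + v i))
    simp only [VG, WG, po, Finset.sum_add_distrib]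
    rw [h]
    push_cast
    rw [← add_assoc, add_right_comm, ← Finset.sum_add_distrib]
    congr 1
    exact Finset.sum_congr rfl fun j _ => by ring
  -- assembly
  refine ⟨k - ∑ i, n i, ?_⟩
  have C1 : ∑ j, (2 * Real.pi * I * (4 * ff (y j + 1 / 2) - ff (y j - v (s j)) -
        ff (y j + v (s j)) - ff (y j - v (t j)) - ff (y j + v (t j))) -
        (2 * Real.pi * I * v (s j) + n (s j) * (Real.pi * I)) / 2 *
          (hh (y j - v (s j)) - hh (y j + v (s j))) -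
        (2 * Real.pi * I * v (t j) + n (t j) * (Real.pi * I)) / 2 *
          (hh (y j - v (t j)) - hh (y j + v (t j))) -
        (Real.pi : ℂ) ^ 2 * ((2 * al j + n (t j) + 1) * v (s j) -
          (2 * be j + n (s j) + 1) * v (t j)) +
        (Real.pi : ℂ) ^ 2 / 2 * (n (s j) - n (t j) + bt1 (f j) * (1 + n (s j)) +
          bt1 (f' j) * (1 + n (t j)))) =
      2 * Real.pi * I * ∑ j, (4 * ff (y j + 1 / 2) - ff (y j - v (s j)) -
        ff (y j + v (s j)) - ff (y j - v (t j)) - ff (y j + v (t j))) -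
      ∑ j, ((2 * Real.pi * I * v (s j) + n (s j) * (Real.pi * I)) / 2 *
        (hh (y j - v (s j)) - hh (y j + v (s j))) +
        (2 * Real.pi * I * v (t j) + n (t j) * (Real.pi * I)) / 2 *
        (hh (y j - v (t j)) - hh (y j + v (t j)))) -
      (Real.pi : ℂ) ^ 2 * ∑ j, ((2 * (al j : ℂ) + n (t j) + 1) * v (s j) -
        (2 * (be j : ℂ) + n (s j) + 1) * v (t j)) +
      (Real.pi : ℂ) ^ 2 / 2 * ∑ j, ((n (s j) : ℂ) - n (t j) + bt1 (f j) * (1 + n (s j)) +
          bt1 (f' j) * (1 + n (t j))) := by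
    rw [Finset.mul_sum, Finset.mul_sum, Finset.mul_sum, ← Finset.sum_sub_distrib,
      ← Finset.sum_sub_distrib, ← Finset.sum_add_distrib]
    exact Finset.sum_congr rfl fun j _ => by ring
  rw [C1, B1, B2, B3]
  have C2 : ∑ i, (Real.pi : ℂ) ^ 2 * ((2 * v i + n i) * (a i * v i + 1)) +
      (Real.pi : ℂ) ^ 2 * ∑ i, v i * (2 - a i * n i) +
      2 * Real.pi * I * ∑ i, 2 * Real.pi * I * (a i / 2 * v i ^ 2 + v i) =
      (Real.pi : ℂ) ^ 2 * ∑ i, (n i : ℂ) := by
    rw [Finset.mul_sum, Finset.mul_sum, Finset.mul_sum, ← Finset.sum_add_distrib,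
      ← Finset.sum_add_distrib]
    refine Finset.sum_congr rfl fun i _ => ?_
    linear_combination (4 * (Real.pi : ℂ) ^ 2 * (a i / 2 * v i ^ 2 + v i)) * I_sq
  push_cast
  linear_combination (Real.pi : ℂ) ^ 2 / 2 * hkC - C2

end Pool.Agent.H63.VC7

end
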