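import Pool.Agent.H94.PA.M12
import Pool.Agent.H94.PA.M16
import Pool.Agent.H94.PA.M19

/-! The parts of this file: H63.VC7.CritGB, H63.VC7.VolG, H63.VC7.StructC. -/

section

/-! # Existence of the critical point, with its location -/

namespace Pool.Agent.H63.VC7

open Pool.Agent.H63.VC
open Pool.Agent.H63.VC3 Pool.Agent.H63.VC4 Complex

variable {m p : ℕ}

lemma CritGB_v_small {a : ℝ} (ha : 1 ≤ a) {r : ℝ} (hr : 10 * a ≤ |r|) {v : ℂ}
    (hv : ‖v + 1 / (2 * r)‖ ≤ a / (2 * r ^ 2)) :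
    ‖v‖ ≤ 55 / 1000 ∧ ‖v‖ ^ 2 ≤ 3025 / 10000 * (1 / r ^ 2) := by
  have hpos : 0 < |r| := by linarith only [ha, hr]
  have e : v = (v + 1 / (2 * r)) - 1 / (2 * r) := by ring
  have n1 : ‖(1 : ℂ) / (2 * r)‖ = 1 / (2 * |r|) := by
    rw [norm_div, norm_one, norm_mul, Complex.norm_real, Real.norm_eq_abs]
    norm_num
  have h1 : ‖v‖ ≤ a / (2 * r ^ 2) + 1 / (2 * |r|) := by
    conv_lhs => rw [e]
    refine (norm_sub_le _ _).trans ?_
    rw [n1]; linarith only [hv]
  have h2 : a / (2 * r ^ 2) + 1 / (2 * |r|) ≤ 55 / 100 / |r| := by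
    rw [← sq_abs r]
    have : a / (2 * |r| ^ 2) ≤ 5 / 100 / |r| := by
      rw [div_le_div_iff₀ (by positivity) hpos]
      nlinarith only [hr, ha]
    have e3 : 1 / (2 * |r|) = 50 / 100 / |r| := by field_simp; norm_num
    have e4 : 55 / 100 / |r| = 5 / 100 / |r| + 50 / 100 / |r| := by ring
    rw [e4, e3]
    linarith only [this]
  have h3 : 55 / 100 / |r| ≤ 55 / 1000 := by
    rw [div_le_iff₀ hpos]; linarith only [ha, hr]
  have h4 := h1.trans h2
  refine ⟨h4.trans h3, ?_⟩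
  have h5 : ‖v‖ ^ 2 ≤ (55 / 100 / |r|) ^ 2 := by gcongr
  refine h5.trans (le_of_eq ?_)
  rw [div_pow, sq_abs]
  ring

lemma CritGB_v (r : ℝ) {a : ℝ} (ha : 1 ≤ a) (hr : 10 * a ≤ |r|) {v D F : ℂ}
    (hF : ‖F - a * Real.pi‖ ≤ 2195 / 10000 * a)
    (herr : ‖D + 2 * v * F‖ ≤ 3429 / 10000 * a * ‖v‖)
    (hDev : 2 * Real.pi * I * (2 * r * v + 1) + D = 0) :
    ‖v + 1 / (2 * r)‖ ≤ 3 / 10 * a / r ^ 2 ∧ 0 < v.im := by
  have hp1 := Real.pi_gt_d4
  have hp2 := Real.pi_lt_d4
  set ρ : ℝ := |r| with hρ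
  have hρ10 : 10 ≤ ρ := by linarith only [ha, hr]
  have hρ2 : r ^ 2 = ρ ^ 2 := by rw [hρ, sq_abs]
  have hr0 : (r : ℂ) ≠ 0 := by
    intro h
    have : r = 0 := by exact_mod_cast h
    rw [hρ, this] at hρ10
    norm_num at hρ10
  have hnr : ‖(r : ℂ)‖ = ρ := by rw [hρ, Complex.norm_real, Real.norm_eq_abs]
  rw [hρ2]
  set δ : ℝ := ‖v + 1 / (2 * r)‖ with hδ
  have hδ0 : 0 ≤ δ := norm_nonneg _
  have hn1 : ‖(1 / (2 * r) : ℂ)‖ = 1 / (2 * ρ) := by
    rw [norm_div, norm_mul, hnr]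
    simp
  have hvn : ‖v‖ ≤ δ + 1 / (2 * ρ) := by
    have : v = (v + 1 / (2 * r)) - 1 / (2 * r) := by ring
    calc ‖v‖ = ‖(v + 1 / (2 * r)) - 1 / (2 * r)‖ := by rw [← this]
      _ ≤ _ := (norm_sub_le _ _).trans (by rw [hn1])
  have hv0 := norm_nonneg v
  have hFn : ‖F‖ ≤ 33611 / 10000 * a := by
    have : F = (F - a * Real.pi) + a * Real.pi := by ring
    rw [this]
    refine (norm_add_le _ _).trans ?_
    rw [norm_mul, norm_real, norm_real, Real.norm_eq_abs, Real.norm_eq_abs,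
      abs_of_pos Real.pi_pos, abs_of_pos (by linarith only [ha, hp1, hp2] : 0 < a)]
    nlinarith only [hF, hp2, ha]
  have hDn : ‖D‖ ≤ 70652 / 10000 * a * ‖v‖ := by
    have e : D = (D + 2 * v * F) - 2 * v * F := by ring
    rw [e]
    refine (norm_sub_le _ _).trans ?_
    have h1 : ‖2 * v * F‖ ≤ 2 * ‖v‖ * (33611 / 10000 * a) := by
      rw [norm_mul, norm_mul]
      simp only [Complex.norm_ofNat]
      exact mul_le_mul_of_nonneg_left hFn (by positivity)
    have h2 : 0 ≤ a * ‖v‖ := by positivity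
    linarith only [herr, h1, h2]
  have hrel : (v + 1 / (2 * r)) * (4 * Real.pi * I * r) = -D := by
    have h2 : (1 / (2 * r) : ℂ) * (4 * Real.pi * I * r) = 2 * Real.pi * I := by
      field_simp
      ring
    linear_combination hDev + h2
  have hδD : δ * (4 * Real.pi * ρ) ≤ 70652 / 10000 * a * ‖v‖ := by
    have h1 : ‖(v + 1 / (2 * r)) * (4 * Real.pi * I * r)‖ = δ * (4 * Real.pi * ρ) := by
      rw [norm_mul, norm_mul, norm_mul, norm_mul, hnr, norm_real, Real.norm_eq_abs,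
        abs_of_pos Real.pi_pos, ← hδ]
      simp only [Complex.norm_ofNat, Complex.norm_I, mul_one]
    rw [← h1, hrel, norm_neg]
    exact hDn
  have hδa : a * (δ * ρ) * 10 ≤ δ * ρ ^ 2 := by
    have : 0 ≤ δ * ρ := by positivity
    nlinarith only [hp1, hp2, hr, this]
  have hδ3 : δ * ρ ^ 2 ≤ 3 / 10 * a := by
    have h1 : δ * (4 * Real.pi * ρ) * ρ ≤ 70652 / 10000 * a * (δ + 1 / (2 * ρ)) * ρ := by
      apply mul_le_mul_of_nonneg_right (hδD.trans _) (by linarith only [ha, hp1, hp2, hr])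
      exact mul_le_mul_of_nonneg_left hvn (by positivity)
    have h2 : 70652 / 10000 * a * (δ + 1 / (2 * ρ)) * ρ =
        70652 / 10000 * (a * (δ * ρ)) + 35326 / 10000 * a := by
      field_simp
      ring
    rw [h2] at h1
    have h4 : 125660 / 10000 * (δ * ρ ^ 2) ≤ δ * (4 * Real.pi * ρ) * ρ := by
      have h5 : 0 ≤ δ * ρ ^ 2 := by positivity
      nlinarith only [hp1, h5]
    linarith only [ha, hp1, hp2, hδa, h1, h4]
  have hδ3' : δ ≤ 3 / 10 * a / ρ ^ 2 := by
    rw [le_div_iff₀ (by positivity)]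
    exact hδ3
  refine ⟨hδ3', ?_⟩
  -- the product r D
  have hδρ : δ * ρ ≤ 3 / 100 := by
    have h1 : a * (δ * ρ) * 10 ≤ 3 / 10 * a := hδa.trans hδ3
    have h2 : a * (δ * ρ * 10 - 3 / 10) ≤ 0 := by linarith only [hδa, hδ3]
    by_contra hcon
    rw [not_le] at hcon
    nlinarith only [hδa, hδ3, hcon, ha]
  have hvρ : ρ * ‖v‖ ≤ 53 / 100 := by
    have h1 : ρ * ‖v‖ ≤ ρ * (δ + 1 / (2 * ρ)) := mul_le_mul_of_nonneg_left hvn (by linarith only [ha, hp1, hp2, hr])
    have h2 : ρ * (δ + 1 / (2 * ρ)) = δ * ρ + 1 / 2 := by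
      field_simp
    linarith only [hδρ, h1, h2]
  have hT : ‖r * D - a * Real.pi‖ ≤ 61 / 100 * a := by
    have e : r * D - a * Real.pi = (F - a * Real.pi) - (2 * r) * (v + 1 / (2 * r)) * F +
        r * (D + 2 * v * F) := by
      field_simp
      ring
    rw [e]
    refine (norm_add_le _ _).trans ((add_le_add_left (norm_sub_le _ _) _).trans ?_)
    have h1 : ‖(2 * r) * (v + 1 / (2 * r)) * F‖ ≤ 2 * (δ * ρ) * (33611 / 10000 * a) := by
      rw [norm_mul, norm_mul, norm_mul, hnr]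
      simp only [Complex.norm_ofNat]
      calc 2 * ρ * ‖v + 1 / (2 * r)‖ * ‖F‖ ≤ 2 * ρ * δ * (33611 / 10000 * a) :=
            mul_le_mul_of_nonneg_left hFn (by positivity)
        _ = _ := by ring
    have h2 : ‖r * (D + 2 * v * F)‖ ≤ 3429 / 10000 * a * (ρ * ‖v‖) := by
      rw [norm_mul, hnr]
      calc ρ * ‖D + 2 * v * F‖ ≤ ρ * (3429 / 10000 * a * ‖v‖) :=
            mul_le_mul_of_nonneg_left herr (by linarith only [ha, hp1, hp2, hr])
        _ = _ := by ring
    have h3 : 2 * (δ * ρ) * (33611 / 10000 * a) ≤ 2 * (3 / 100) * (33611 / 10000 * a) := by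
      gcongr
    have h4 : 3429 / 10000 * a * (ρ * ‖v‖) ≤ 3429 / 10000 * a * (53 / 100) := by gcongr
    linarith only [ha, hF, hp1, hp2, hδa, hδ3, h1, h2, h4]
  have hvT : (v + 1 / (2 * r)) * (4 * Real.pi * ρ ^ 2 : ℝ) = I * (r * D) := by
    have h2 : D = -((v + 1 / (2 * r)) * (4 * Real.pi * I * r)) := by rw [hrel, neg_neg]
    have h3 : ((ρ ^ 2 : ℝ) : ℂ) = (r : ℂ) ^ 2 := by rw [← hρ2]; push_cast; ring
    have h4 : ((4 * Real.pi * ρ ^ 2 : ℝ) : ℂ) = 4 * Real.pi * (r : ℂ) ^ 2 := by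
      rw [← h3]; push_cast; ring
    rw [h4, h2]
    linear_combination ((v + 1 / (2 * r)) * (4 * Real.pi * (r : ℂ) ^ 2)) * I_sq
  have hTre := abs_le.1 ((abs_re_le_norm (r * D - a * Real.pi)).trans hT)
  rw [← ofReal_mul] at hTre
  simp only [sub_re, ofReal_re] at hTre
  have hreal : (1 / (2 * r) : ℂ) = ((1 / (2 * r) : ℝ) : ℂ) := by push_cast; ring
  have h1 := congrArg Complex.im hvT
  rw [hreal] at h1
  simp only [im_mul_ofReal, add_im, ofReal_im, add_zero, I_mul_im] at h1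
  have hK : 0 < 4 * Real.pi * ρ ^ 2 := by positivity
  by_contra hcon
  rw [not_lt] at hcon
  have : v.im * (4 * Real.pi * ρ ^ 2) ≤ 0 := mul_nonpos_of_nonpos_of_nonneg hcon hK.le
  nlinarith only [ha, hp1, hp2, hTre, h1, this, hTre.1]

theorem critG_exists (s t : Fin m → Fin p) (hst : ∀ j, s j ≠ t j)
    (hne : ∀ i, (inc s t i).Nonempty) (r : Fin p → ℝ) (hr : ∀ i, 10 * dg s t i ≤ |r i|)
    (hn : ∀ j, 10 * dg s t (s j) ≤ (r (t j)) ^ 2 ∧ 10 * dg s t (t j) ≤ (r (s j)) ^ 2) :
    ∃ (y : Fin m → ℂ) (v : Fin p → ℂ), CritG s t r y v := by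
  obtain ⟨y, v, ey, ev, hy, hv⟩ := critG_contraction s t hst hne r hr
  have hdg : ∀ i, 1 ≤ dg s t i := by
    intro i
    unfold dg
    exact_mod_cast Finset.card_pos.2 (hne i)
  have hsm := fun i => CritGB_v_small (hdg i) (hr i) (hv i)
  have hbd : ∀ j, ‖y j - 1 / 4‖ ≤ 3 / 10 * (1 / (r (s j)) ^ 2 + 1 / (r (t j)) ^ 2) := fun j =>
    CritNB_y (ey j) (hy j) (hsm _).1 (hsm _).1 (hsm _).2 (hsm _).2
  have hss : ∀ j, 1 / (r (s j)) ^ 2 + 1 / (r (t j)) ^ 2 ≤ 1 / 50 := by
    have h1 : ∀ i, 1 / (r i) ^ 2 ≤ 1 / 100 := by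
      intro i
      have h2 := hr i
      have h3 := hdg i
      have h4 : (10 : ℝ) ≤ |r i| := by linarith
      have h5 : (100 : ℝ) ≤ (r i) ^ 2 := by
        rw [← sq_abs]; nlinarith only [h2, h3]
      exact one_div_le_one_div_of_le (by norm_num) h5
    intro j
    have h6 := h1 (s j)
    have h7 := h1 (t j)
    linarith only [h6, h7]
  have hy1 : ∀ j, ‖y j - 1 / 4‖ ≤ 1 / 100 := fun j => (hbd j).trans (by linarith only [hss, hss j])
  have hvv : ∀ i, ‖v i + 1 / (2 * r i)‖ ≤ 3 / 10 * dg s t i / (r i) ^ 2 ∧ 0 < (v i).im := by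
    intro i
    have hslot : ∀ j, ∃ F : ℂ, ‖F - Real.pi‖ ≤ 2195 / 10000 ∧
        ‖(hh (y j - v i) - hh (y j + v i)) + 2 * v i * F‖ ≤ 3429 / 10000 * ‖v i‖ := by
      intro j
      obtain ⟨F, h1, h2⟩ := CritNB_slot (some (y j)) (v := v i) (fun z hz => by
        cases hz
        exact hy1 j) (hsm i).1
      rw [ns_some] at h1 h2
      refine ⟨F, ?_, ?_⟩
      · simpa using h1
      · simpa [dpo] using h2
    choose F hF1 hF2 using hslot
    refine CritGB_v (r i) (D := ∑ j ∈ inc s t i, (hh (y j - v i) - hh (y j + v i)))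
      (F := ∑ j ∈ inc s t i, F j) (hdg i) (hr i) ?_ ?_ (ev i)
    · have e : (∑ j ∈ inc s t i, F j) - (dg s t i : ℝ) * (Real.pi : ℂ) =
          ∑ j ∈ inc s t i, (F j - Real.pi) := by
        rw [Finset.sum_sub_distrib, Finset.sum_const, dg, nsmul_eq_mul]
        push_cast
        rfl
      rw [e]
      refine (norm_sum_le _ _).trans ((Finset.sum_le_sum fun j _ => hF1 j).trans ?_)
      rw [Finset.sum_const, nsmul_eq_mul, dg]
      linarith only
    · have e : (∑ j ∈ inc s t i, (hh (y j - v i) - hh (y j + v i))) +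
          2 * v i * ∑ j ∈ inc s t i, F j =
          ∑ j ∈ inc s t i, ((hh (y j - v i) - hh (y j + v i)) + 2 * v i * F j) := by
        rw [Finset.sum_add_distrib, Finset.mul_sum]
      rw [e]
      refine (norm_sum_le _ _).trans ((Finset.sum_le_sum fun j _ => hF2 j).trans ?_)
      rw [Finset.sum_const, nsmul_eq_mul, dg]
      linarith only
  exact ⟨y, v, ⟨hst, hne, hr, hn, ey, ev, hbd, fun i => (hvv i).1, fun i => (hvv i).2⟩⟩

end Pool.Agent.H63.VC7

end

section

/-! # The critical value as a sum of volumes -/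

namespace Pool.Agent.H63.VC7

open Pool.Agent.H63.VC
open Pool.Agent.H63.VC3 Pool.Agent.H63.VC4 Pool.Agent.H63.VC6 Complex

variable {m p : ℕ} {s t : Fin m → Fin p} {r : Fin p → ℝ} {y : Fin m → ℂ} {v : Fin p → ℂ}

private lemma VolG_v (hc : CritG s t r y v) (i : Fin p) : |(v i).re| ≤ 6 / 100 := by
  have h1 := (locG_v hc i).2.2.1
  exact (Complex.abs_re_le_norm (v i)).trans (h1.trans (by norm_num))

private lemma VolG_y (hc : CritG s t r y v) (j : Fin m) : |(y j).re - 1 / 4| ≤ 1 / 100 := by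
  have h1 := (locG_y hc j).2
  have h2 := (Complex.abs_re_le_norm (y j - 1 / 4)).trans h1
  have e : (y j - 1 / 4).re = (y j).re - 1 / 4 := by
    rw [Complex.sub_re]
    norm_num
  rw [e] at h2
  linarith

private lemma VolG_slot (hc : CritG s t r y v) (j : Fin m) (i : Fin p) :
    2 * Real.pi * (po (some (y j)) (v i)).re =
      blochWigner (exp (2 * Real.pi * I * (y j - v i))) +
        blochWigner (exp (2 * Real.pi * I * (y j + v i))) +
        2 * Real.pi * (y j).im * (hh (y j - v i) + hh (y j + v i)).im -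
        2 * Real.pi * (v i).im * (dpo (some (y j)) (v i)).im := by
  have h1 := VolG_y hc j
  have h2 := VolG_v hc i
  rw [abs_le] at h1 h2
  have f1 := ff_re_bw (y j - v i) (by rw [Complex.sub_re]; linarith [h1.1, h2.2])
    (by rw [Complex.sub_re]; linarith [h1.2, h2.1])
  have f2 := ff_re_bw (y j + v i) (by rw [Complex.add_re]; linarith [h1.1, h2.1])
    (by rw [Complex.add_re]; linarith [h1.2, h2.2])
  simp only [po, dpo, Complex.sub_re, Complex.neg_re, Complex.add_im, Complex.sub_im] at f1 f2 ⊢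
  linear_combination -f1 - f2

theorem crit_valueG (hc : CritG s t r y v) :
    2 * Real.pi * (VG s t r y v).re =
      ∑ j : Fin m, (blochWigner (exp (2 * Real.pi * I * (y j - v (s j)))) +
        blochWigner (exp (2 * Real.pi * I * (y j + v (s j)))) +
        blochWigner (exp (2 * Real.pi * I * (y j - v (t j)))) +
        blochWigner (exp (2 * Real.pi * I * (y j + v (t j)))) -
        4 * blochWigner (-exp (2 * Real.pi * I * y j))) := by
  -- the linear terms
  have hlin : ∀ i : Fin p, (2 * Real.pi * I * (r i * v i ^ 2 + v i) : ℂ).re =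
      ∑ j ∈ inc s t i, (v i).im * (dpo (some (y j)) (v i)).im := by
    intro i
    have ev := congrArg Complex.im (hc.ev i)
    have g1 : (2 * Real.pi * I * (2 * r i * v i + 1) : ℂ).im =
        2 * Real.pi * (2 * r i * (v i).re + 1) := by
      simp [Complex.mul_im, Complex.mul_re]
    have g3 : (2 * Real.pi * I * (r i * v i ^ 2 + v i) : ℂ).re =
        -(2 * Real.pi * (2 * r i * (v i).re * (v i).im + (v i).im)) := by
      simp only [pow_two, Complex.mul_re, Complex.mul_im, Complex.add_re, Complex.add_im,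
        Complex.I_re, Complex.I_im, Complex.ofReal_re, Complex.ofReal_im, Complex.re_ofNat,
        Complex.im_ofNat]
      ring
    rw [Complex.add_im, g1, Complex.zero_im, Complex.im_sum] at ev
    rw [g3, ← Finset.mul_sum]
    have g4 : ∑ j ∈ inc s t i, (dpo (some (y j)) (v i)).im =
        ∑ j ∈ inc s t i, (hh (y j - v i) - hh (y j + v i)).im :=
      Finset.sum_congr rfl fun j _ => by simp only [dpo]
    rw [g4]
    linear_combination (-(v i).im) * ev
  -- the sum over the slots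
  have hre : (VG s t r y v).re = (∑ j, 4 * (ff (y j + 1 / 2)).re) +
      ∑ i : Fin p, ∑ j ∈ inc s t i, ((v i).im * (dpo (some (y j)) (v i)).im +
        (po (some (y j)) (v i)).re) := by
    rw [VG, Complex.add_re, Complex.re_sum, Complex.re_sum]
    congr 1
    · refine Finset.sum_congr rfl (fun j _ => ?_)
      simp [Complex.mul_re]
    · refine Finset.sum_congr rfl (fun i _ => ?_)
      rw [WG, Complex.add_re, hlin i, Complex.re_sum, Finset.sum_add_distrib]
  rw [sum_inc s t hc.st (fun i j => (v i).im * (dpo (some (y j)) (v i)).im +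
    (po (some (y j)) (v i)).re)] at hre
  rw [hre, ← Finset.sum_add_distrib, Finset.mul_sum]
  refine Finset.sum_congr rfl (fun j _ => ?_)
  have h1 := VolG_y hc j
  rw [abs_le] at h1
  have c0 : (y j + 1 / 2).re = (y j).re + 1 / 2 := by
    rw [Complex.add_re]
    norm_num
  have c1 : 0 < (y j + 1 / 2).re := by rw [c0]; linarith [h1.1]
  have c2 : (y j + 1 / 2).re < 1 := by rw [c0]; linarith [h1.2]
  have c3 : (y j + 1 / 2).im = (y j).im := by
    rw [Complex.add_im]
    norm_num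
  have f0 := ff_re_bw _ c1 c2
  have e0 : exp (2 * Real.pi * I * (y j + 1 / 2)) = -exp (2 * Real.pi * I * y j) := by
    have e : (2 * Real.pi * I * (y j + 1 / 2) : ℂ) = 2 * Real.pi * I * y j + Real.pi * I := by ring
    rw [e, Complex.exp_add, Complex.exp_pi_mul_I]
    ring
  rw [e0, c3] at f0
  have f1 := VolG_slot hc j (s j)
  have f2 := VolG_slot hc j (t j)
  have ey := congrArg Complex.im (hc.ey j)
  have g5 : (4 * hh (y j + 1 / 2)).im = 4 * (hh (y j + 1 / 2)).im := by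
    simp [Complex.mul_im]
  simp only [Complex.add_im, g5] at ey
  simp only [Complex.add_im] at f1 f2
  linear_combination 4 * f0 + f1 + f2 - 2 * Real.pi * (y j).im * ey

end Pool.Agent.H63.VC7

end

section

/-! # The hyperbolic structure from the critical point -/

namespace Pool.Agent.H63.VC7

open Pool.Agent.H63.VC
open Pool.Agent.H63.VC3 Pool.Agent.H63.VC4 Pool.Agent.H63.VC5 Pool.Agent.H63.VC6 Complex

variable {m p : ℕ}

/-- The sum over the slots of a node. -/
theorem StructC_slots (s t : Fin m → Fin p) (hst : ∀ j, s j ≠ t j) (i : Fin p)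
    (h : Fin p → Fin m → ℂ) :
    ∑ j, ((if s j = i then h (s j) j else 0) + (if t j = i then h (t j) j else 0)) =
      ∑ j ∈ inc s t i, h i j := by
  rw [inc, Finset.sum_filter]
  refine Finset.sum_congr rfl fun j _ => ?_
  by_cases h1 : s j = i
  · have h2 : ¬ t j = i := fun h2 => hst j (h1.trans h2.symm)
    rw [if_pos h1, if_neg h2, if_pos (Or.inl h1), h1, add_zero]
  · by_cases h2 : t j = i
    · rw [if_neg h1, if_pos h2, if_pos (Or.inr h2), h2, zero_add]
    · rw [if_neg h1, if_neg h2, if_neg (fun h => h.elim h1 h2), add_zero]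

/-- The sum of the meridians at a node. -/
theorem StructC_mer (s t : Fin m → Fin p) (a : Fin p → ℤ) (y : Fin m → ℂ) (v : Fin p → ℂ)
    (hc : CritG s t (fun i => (a i : ℝ) / 2) y v) (i : Fin p) :
    ∑ j, ((if s j = i then hh (y j - v (s j)) - hh (y j + v (s j)) else 0) +
      (if t j = i then hh (y j - v (t j)) - hh (y j + v (t j)) else 0)) =
      -(2 * Real.pi * I * (a i * v i + 1)) := by
  rw [StructC_slots s t hc.st i fun i j => hh (y j - v i) - hh (y j + v i)]
  have h1 := hc.ev i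
  have h2 : (((a i : ℝ) / 2 : ℝ) : ℂ) = (a i : ℂ) / 2 := by push_cast; rfl
  rw [h2] at h1
  linear_combination h1

theorem loc7_of_crit (s t : Fin m → Fin p) (r : Fin p → ℝ) (y : Fin m → ℂ) (v : Fin p → ℂ)
    (hc : CritG s t r y v) (j : Fin m) : Loc7 (y j) (v (s j)) (v (t j)) :=
  ⟨(locG_y hc j).2, (locG_v hc (s j)).1, (locG_v hc (t j)).1, hc.ey j⟩

theorem isGeom_of_crit (s t : Fin m → Fin p) (a : Fin p → ℤ) (y : Fin m → ℂ) (v : Fin p → ℂ)
    (hc : CritG s t (fun i => (a i : ℝ) / 2) y v) :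
    Hyp.IsGeom s t a (fun j => shx (y j) (v (s j)) (v (t j)))
      (fun j => shy (y j) (v (s j)) (v (t j))) := by
  refine ⟨fun j k => block_pos (loc7_of_crit s t _ y v hc j) k,
    fun i => 2 * Real.pi * I * v i, fun i => hh (v i + 1 / 2),
    ⟨fun j => block_geom (loc7_of_crit s t _ y v hc j), fun i => ?_⟩⟩
  have h1 : ∀ j, ((if s j = i then
      Hyp.mer (fun k => Hyp.lgs (shx (y j) (v (s j)) (v (t j)) k)) else 0) +
      (if t j = i then
        Hyp.mer (Hyp.opp (fun k => Hyp.lgs (shx (y j) (v (s j)) (v (t j)) k))) else 0)) =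
      ((if s j = i then hh (y j - v (s j)) - hh (y j + v (s j)) else 0) +
      (if t j = i then hh (y j - v (t j)) - hh (y j + v (t j)) else 0)) := by
    intro j
    obtain ⟨e1, e2, -, -⟩ := block_mer (loc7_of_crit s t _ y v hc j) 0 0 0 0
    rw [e1, e2]
  rw [Finset.sum_congr rfl fun j _ => h1 j, StructC_mer s t a y v hc i]
  ring

theorem isVolume_of_crit (s t : Fin m → Fin p) (a : Fin p → ℤ) (y : Fin m → ℂ) (v : Fin p → ℂ)
    (hc : CritG s t (fun i => (a i : ℝ) / 2) y v) :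
    Hyp.IsVolume s t a (2 * Real.pi * (VG s t (fun i => (a i : ℝ) / 2) y v).re) := by
  refine ⟨_, _, isGeom_of_crit s t a y v hc, ?_⟩
  rw [crit_valueG hc]
  exact Finset.sum_congr rfl fun j _ => (vol_block (loc7_of_crit s t _ y v hc j)).symm

theorem isComplexVolume_of_crit (s t : Fin m → Fin p) (a : Fin p → ℤ) (y : Fin m → ℂ)
    (v : Fin p → ℂ) (hc : CritG s t (fun i => (a i : ℝ) / 2) y v) :
    ∃ Z : ℂ, Hyp.IsComplexVolume s t a Z ∧
      Cg Z (2 * Real.pi * I * VG s t (fun i => (a i : ℝ) / 2) y v +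
        (Real.pi : ℂ) ^ 2 / 2 * ∑ i, (a i : ℂ)) := by
  have hl := loc7_of_crit s t _ y v hc
  obtain ⟨n, al, be, hn⟩ := wu_exists s t hc.st hc.ne a
  obtain ⟨f, f', hf⟩ := flip_exists s t hc.st hc.ne a
  refine ⟨_, ⟨_, _, fun j => FX (y j) (v (s j)) (v (t j)) (n (s j)) (n (t j)) (al j) (be j),
    fun j => FY (y j) (v (s j)) (v (t j)) (n (s j)) (n (t j)) (al j) (be j),
    fun i => 2 * Real.pi * I * v i + n i * (Real.pi * I),
    fun i => hh (v i + 1 / 2) + n i / 2 * (Real.pi * I), f, f',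
    isGeom_of_crit s t a y v hc, fun j k => block_isFlat (hl j) _ _ _ _ k,
    ⟨fun j => block_flat (hl j) _ _ _ _, fun i => ?_⟩, hf, rfl⟩,
    sum_R s t a y v hc hl n al be hn f f' hf⟩
  have h1 : ∀ j, ((if s j = i then
      Hyp.mer (FX (y j) (v (s j)) (v (t j)) (n (s j)) (n (t j)) (al j) (be j)) else 0) +
      (if t j = i then
        Hyp.mer (Hyp.opp (FX (y j) (v (s j)) (v (t j)) (n (s j)) (n (t j)) (al j) (be j)))
          else 0)) =
      ((if s j = i then hh (y j - v (s j)) - hh (y j + v (s j)) else 0) +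
      (if t j = i then hh (y j - v (t j)) - hh (y j + v (t j)) else 0)) +
      (((if s j = i then 2 * al j + n (t j) + 1 else 0) +
        (if t j = i then -(2 * be j + n (s j) + 1) else 0) : ℤ) : ℂ) * (Real.pi * I) := by
    intro j
    obtain ⟨-, -, e1, e2⟩ := block_mer (hl j) (n (s j)) (n (t j)) (al j) (be j)
    rw [e1, e2]
    split_ifs
    all_goals
      push_cast
      ring
  rw [Finset.sum_congr rfl fun j _ => h1 j, Finset.sum_add_distrib, StructC_mer s t a y v hc i,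
    ← Finset.sum_mul, ← Int.cast_sum]
  have h2 : (((∑ j, ((if s j = i then 2 * al j + n (t j) + 1 else 0) +
        (if t j = i then -(2 * be j + n (s j) + 1) else 0)) : ℤ)) : ℂ) + a i * n i = 2 := by
    exact_mod_cast hn i
  linear_combination (Real.pi * I) * h2

end Pool.Agent.H63.VC7

end
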