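import Pool.Agent.H94.PA.M05
import Pool.Agent.H94.PA.M16
import Pool.Agent.H94.PA.M23

/-! The parts of this file: H63.VC7.ConcG, H63.VC7.TaylorG. -/

section

/-! # Concavity on the flat contours -/

namespace Pool.Agent.H63.VC7

open Pool.Agent.H63.VC
open Pool.Agent.H63.VC3 Pool.Agent.H63.VC4 Pool.Agent.H63.VC6 Complex

variable {m p : ℕ} {s t : Fin m → Fin p} {r : Fin p → ℝ} {y : Fin m → ℂ} {v : Fin p → ℂ}

theorem ConcG_phase (r : ℝ) (V : ℂ) :
    (2 * Real.pi * I * (r * V ^ 2 + V)).re =
      -(2 * Real.pi * (2 * r * V.re * V.im + V.im)) := by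
  simp [sq]
  ring

theorem ConcG_re (s : Fin m → Fin p) (t : Fin m → Fin p) (r : Fin p → ℝ) (y : Fin m → ℂ)
    (v : Fin p → ℂ) :
    (VG s t r y v).re = ∑ j, (4 * ff (y j + 1 / 2)).re +
      ∑ i, (-(2 * Real.pi * (2 * r i * (v i).re * (v i).im + (v i).im)) +
        ∑ j ∈ inc s t i, (po (some (y j)) (v i)).re) := by
  unfold VG WG
  rw [add_re, re_sum, re_sum]
  congr 1
  refine Finset.sum_congr rfl fun i _ => ?_
  rw [add_re, re_sum, ConcG_phase]

theorem concG (hc : CritG s t r y v) (x : Fin m → ℝ) (a : Fin p → ℝ)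
    (hx : ∀ j, |x j - 1 / 4| ≤ 55 / 1000) (ha : ∀ i, |a i| ≤ 15 / 100) :
    (VG s t r (fun j => x j + (y j).im * I) (fun i => a i + (v i).im * I)).re ≤
      (VG s t r y v).re -
        1 / 10 * (∑ j, (x j - (y j).re) ^ 2 + ∑ i, (a i - (v i).re) ^ 2) := by
  have hslot : ∀ (i : Fin p) (j : Fin m),
      (po (some ((x j : ℂ) + (y j).im * I)) (a i + (v i).im * I)).re ≤
        (po (some (y j)) (v i)).re + (a i - (v i).re) * (dpo (some (y j)) (v i)).re -
        (x j - (y j).re) * (hh (y j - v i) + hh (y j + v i)).re -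
        1 / 5 * (a i - (v i).re) ^ 2 := by
    intro i j
    obtain ⟨hy, -⟩ := locG_y hc j
    obtain ⟨hv, -⟩ := locG_v hc i
    exact VC6.ConcN_slot (y j) (v i) (x j) (a i) hy.1 hy.2 hv.1 hv.2.2
      (hc.imv i) (hx j) (ha i)
  have hreg : ∀ i : Fin p,
      (-(2 * Real.pi * (2 * r i * a i * (v i).im + (v i).im)) +
        ∑ j ∈ inc s t i, (po (some ((x j : ℂ) + (y j).im * I)) (a i + (v i).im * I)).re) ≤
      (-(2 * Real.pi * (2 * r i * (v i).re * (v i).im + (v i).im)) +
        ∑ j ∈ inc s t i, (po (some (y j)) (v i)).re) -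
      ∑ j ∈ inc s t i, (x j - (y j).re) * (hh (y j - v i) + hh (y j + v i)).re -
      1 / 10 * (a i - (v i).re) ^ 2 := by
    intro i
    have h1 := Finset.sum_le_sum fun j (_ : j ∈ inc s t i) => hslot i j
    rw [Finset.sum_sub_distrib, Finset.sum_sub_distrib, Finset.sum_add_distrib,
      ← Finset.mul_sum, locG_dpo hc i, Finset.sum_const, nsmul_eq_mul] at h1
    have h2 := locG_dg hc i
    unfold dg at h2
    have hsq : 0 ≤ (a i - (v i).re) ^ 2 := sq_nonneg _
    nlinarith
  have hsumD : ∑ i : Fin p, ∑ j ∈ inc s t i,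
      (x j - (y j).re) * (hh (y j - v i) + hh (y j + v i)).re =
      ∑ j, (x j - (y j).re) * (4 * hh (y j + 1 / 2)).re := by
    rw [sum_inc s t hc.st]
    refine Finset.sum_congr rfl fun j _ => ?_
    rw [hc.ey j]
    simp only [add_re]
    ring
  have hver : ∑ j, (4 * ff ((x j : ℂ) + (y j).im * I + 1 / 2)).re ≤
      ∑ j, (4 * ff (y j + 1 / 2)).re + ∑ j, (x j - (y j).re) * (4 * hh (y j + 1 / 2)).re -
      1 / 10 * ∑ j, (x j - (y j).re) ^ 2 := by
    rw [Finset.mul_sum, ← Finset.sum_add_distrib, ← Finset.sum_sub_distrib]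
    exact Finset.sum_le_sum fun j _ => by
      obtain ⟨hy, -⟩ := locG_y hc j
      exact VC6.ConcN_vertex (y j) (x j) hy.1 hy.2 (hx j)
  have hregs := Finset.sum_le_sum fun i (_ : i ∈ (Finset.univ : Finset (Fin p))) => hreg i
  rw [Finset.sum_sub_distrib, Finset.sum_sub_distrib, hsumD, ← Finset.mul_sum] at hregs
  rw [ConcG_re, ConcG_re]
  simp only [VC6.ConcN_re, VC6.ConcN_im]
  linarith

end Pool.Agent.H63.VC7

end

section

/-! # The second order expansion of the potential -/

namespace Pool.Agent.H63.VC7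

open Pool.Agent.H63.VC
open Pool.Agent.H63.VC3 Pool.Agent.H63.VC4 Pool.Agent.H63.VC6 Complex Filter Topology

variable {m p : ℕ}

/-- The potential on the flat contours. -/
noncomputable def phiG (s t : Fin m → Fin p) (r : Fin p → ℝ) (y : Fin m → ℂ) (v : Fin p → ℂ)
    (z : Fin m ⊕ Fin p → ℝ) : ℂ :=
  VG s t r (zy7 (fun j => (y j).im) z) (zv7 (fun i => (v i).im) z)

/-- The critical point. -/
noncomputable def pG (y : Fin m → ℂ) (v : Fin p → ℂ) : Fin m ⊕ Fin p → ℝ :=
  Sum.elim (fun j => (y j).re) (fun i => (v i).re)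

/-- The potential function as a sum over the edges. -/
theorem TaylorG_VG (s t : Fin m → Fin p) (hst : ∀ j, s j ≠ t j) (r : Fin p → ℝ)
    (y : Fin m → ℂ) (v : Fin p → ℂ) :
    VG s t r y v = ∑ j : Fin m, (4 * ff (y j + 1 / 2) - ff (y j - v (s j)) -
      ff (y j + v (s j)) - ff (y j - v (t j)) - ff (y j + v (t j))) +
      ∑ i, 2 * Real.pi * I * (r i * v i ^ 2 + v i) := by
  have h1 : ∑ i, WG (r i) (inc s t i) y (v i) =
      ∑ i, 2 * Real.pi * I * (r i * v i ^ 2 + v i) +
      ∑ i, ∑ j ∈ inc s t i, po (some (y j)) (v i) := by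
    rw [← Finset.sum_add_distrib]
    exact Finset.sum_congr rfl fun i _ => by unfold WG; ring
  rw [VG, h1, sum_inc s t hst (fun i j => po (some (y j)) (v i))]
  have h2 : ∑ j : Fin m, (po (some (y j)) (v (s j)) + po (some (y j)) (v (t j))) =
      ∑ j : Fin m, (- ff (y j - v (s j)) - ff (y j + v (s j)) - ff (y j - v (t j)) -
        ff (y j + v (t j))) :=
    Finset.sum_congr rfl fun j _ => by simp only [po]; ring
  rw [h2]
  have h3 : ∀ A B C : ℂ, A + (B + C) = (A + C) + B := fun A B C => by ring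
  rw [h3, ← Finset.sum_add_distrib]
  congr 1
  exact Finset.sum_congr rfl fun j _ => by ring

/-- The critical equations tested against a direction. -/
theorem TaylorG_crit (s t : Fin m → Fin p) (r : Fin p → ℝ) (y : Fin m → ℂ) (v : Fin p → ℂ)
    (hc : CritG s t r y v) (x : Fin m → ℂ) (a : Fin p → ℂ) :
    ∑ j : Fin m, (4 * (hh (y j + 1 / 2) * x j) -
      hh (y j - v (s j)) * (x j - a (s j)) -
      hh (y j + v (s j)) * (x j + a (s j)) -
      hh (y j - v (t j)) * (x j - a (t j)) - hh (y j + v (t j)) * (x j + a (t j))) +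
      ∑ i, 2 * Real.pi * I * (2 * r i * v i + 1) * a i = 0 := by
  have h1 : ∑ i, a i * (2 * Real.pi * I * (2 * r i * v i + 1) +
      ∑ j ∈ inc s t i, (hh (y j - v i) - hh (y j + v i))) = 0 :=
    Finset.sum_eq_zero fun i _ => by rw [hc.ev, mul_zero]
  have h2 : ∑ i, a i * (2 * Real.pi * I * (2 * r i * v i + 1) +
      ∑ j ∈ inc s t i, (hh (y j - v i) - hh (y j + v i))) =
      ∑ i, 2 * Real.pi * I * (2 * r i * v i + 1) * a i +
      ∑ i, ∑ j ∈ inc s t i, a i * (hh (y j - v i) - hh (y j + v i)) := by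
    rw [← Finset.sum_add_distrib]
    refine Finset.sum_congr rfl fun i _ => ?_
    rw [mul_add, Finset.mul_sum]
    ring
  rw [sum_inc s t hc.st (fun i j => a i * (hh (y j - v i) - hh (y j + v i)))] at h2
  rw [h2] at h1
  rw [add_comm, ← h1]
  congr 1
  refine Finset.sum_congr rfl fun j _ => ?_
  linear_combination x j * hc.ey j

theorem phiG_taylor (s t : Fin m → Fin p) (r : Fin p → ℝ) (y : Fin m → ℂ) (v : Fin p → ℂ)
    (hc : CritG s t r y v) : ∃ q : Fin m ⊕ Fin p → Fin m ⊕ Fin p → ℂ,
    (∀ a b, q a b = q b a) ∧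
    (∀ ξ : Fin m ⊕ Fin p → ℝ,
      1 / 10 * ∑ a, ξ a ^ 2 ≤ (∑ a, ∑ b, q a b * ξ a * ξ b).re) ∧
    ∀ ξ : Fin m ⊕ Fin p → ℝ, Tendsto (fun M : ℕ =>
      (M : ℂ) * (phiG s t r y v (pG y v + (1 / Real.sqrt M) • ξ) - phiG s t r y v (pG y v))) atTop
      (𝓝 (-∑ a, ∑ b, q a b * ξ a * ξ b)) := by
  have ly : ∀ j, -(6 / 1000) ≤ (y j).re - 1 / 4 ∧ (y j).re - 1 / 4 ≤ 6 / 1000 := by
    intro j
    have h := (Complex.abs_re_le_norm (y j - 1 / 4)).trans (locG_y hc j).2
    have e : (y j - 1 / 4).re = (y j).re - 1 / 4 := by simp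
    rw [e] at h
    exact abs_le.1 h
  have lv : ∀ i, -(55 / 1000) ≤ (v i).re ∧ (v i).re ≤ 55 / 1000 := fun i =>
    abs_le.1 ((Complex.abs_re_le_norm (v i)).trans (locG_v hc i).2.2.1)
  set F := Taylor2_F with hF
  -- the quadratic form
  let Q : (Fin m ⊕ Fin p → ℝ) → ℂ := fun ξ =>
    ∑ j : Fin m, (-2 * F (y j + 1 / 2) * (ξ (Sum.inl j) : ℂ) ^ 2 +
      (1 / 2 * F (y j - v (s j)) * ((ξ (Sum.inl j) : ℂ) - ξ (Sum.inr (s j))) ^ 2 +
      (1 / 2 * F (y j + v (s j)) * ((ξ (Sum.inl j) : ℂ) + ξ (Sum.inr (s j))) ^ 2 +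
      (1 / 2 * F (y j - v (t j)) * ((ξ (Sum.inl j) : ℂ) - ξ (Sum.inr (t j))) ^ 2 +
      1 / 2 * F (y j + v (t j)) * ((ξ (Sum.inl j) : ℂ) + ξ (Sum.inr (t j))) ^ 2)))) +
    ∑ i : Fin p, -(2 * Real.pi * I * r i) * (ξ (Sum.inr i) : ℂ) ^ 2
  have hQ : TaylorN_IsQ Q := by
    refine TaylorN_addQ (TaylorN_sumQ _ fun j => ?_) (TaylorN_sumQ _ fun i => ?_)
    · refine TaylorN_addQ (TaylorN_sq _ (TaylorN_eval _)) (TaylorN_addQ (TaylorN_sq _ ?_)
        (TaylorN_addQ (TaylorN_sq _ ?_) (TaylorN_addQ (TaylorN_sq _ ?_) (TaylorN_sq _ ?_))))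
      · exact TaylorN_subL (TaylorN_eval _) (TaylorN_eval _)
      · exact TaylorN_addL (TaylorN_eval _) (TaylorN_eval _)
      · exact TaylorN_subL (TaylorN_eval _) (TaylorN_eval _)
      · exact TaylorN_addL (TaylorN_eval _) (TaylorN_eval _)
    · exact TaylorN_sq _ (TaylorN_eval _)
  have hphi : ∀ (ξ : Fin m ⊕ Fin p → ℝ) (σ : ℝ), phiG s t r y v (pG y v + σ • ξ) =
      VG s t r (fun j => y j + σ * ξ (Sum.inl j)) (fun i => v i + σ * ξ (Sum.inr i)) := by
    intro ξ σ
    unfold phiG
    congr 1
    · funext j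
      apply Complex.ext <;> simp [zy7, pG]
    · funext i
      apply Complex.ext <;> simp [zv7, pG]
  have hsm : ∀ ξ : Fin m ⊕ Fin p → ℝ, ∀ᶠ σ in 𝓝 (0 : ℝ), ∀ a, |σ * ξ a| < 1 / 100 := by
    intro ξ
    rw [Filter.eventually_all]
    intro a
    have : Tendsto (fun σ : ℝ => |σ * ξ a|) (𝓝 0) (𝓝 (|0 * ξ a|)) := by
      apply Continuous.tendsto
      fun_prop
    rw [zero_mul, abs_zero] at this
    exact this.eventually (gt_mem_nhds (by norm_num))
  -- the limit along a direction
  have main : ∀ ξ : Fin m ⊕ Fin p → ℝ, Tendsto (fun σ : ℝ =>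
      (phiG s t r y v (pG y v + σ • ξ) - phiG s t r y v (pG y v)) / (σ : ℂ) ^ 2) (𝓝[≠] 0)
      (𝓝 (-Q ξ)) := by
    intro ξ
    set x : Fin m → ℂ := fun j => ξ (Sum.inl j) with hx
    set a : Fin p → ℂ := fun i => ξ (Sum.inr i) with ha
    set Φ : ℝ → ℂ := fun σ => VG s t r (fun j => y j + σ * x j) (fun i => v i + σ * a i) with hΦ
    set G : ℝ → ℂ := fun σ => ∑ j : Fin m, (4 * (hh (y j + 1 / 2 + σ * x j) * x j) -
      hh (y j - v (s j) + σ * (x j - a (s j))) * (x j - a (s j)) -
      hh (y j + v (s j) + σ * (x j + a (s j))) * (x j + a (s j)) -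
      hh (y j - v (t j) + σ * (x j - a (t j))) * (x j - a (t j)) -
      hh (y j + v (t j) + σ * (x j + a (t j))) * (x j + a (t j))) +
      ∑ i, 2 * Real.pi * I * (2 * r i * (v i + σ * a i) + 1) * a i with hG
    have hder : ∀ᶠ σ in 𝓝 (0 : ℝ), HasDerivAt Φ (G σ) σ := by
      filter_upwards [hsm ξ] with σ hs
      have e0 : Φ = fun σ : ℝ => ∑ j : Fin m, (4 * ff (y j + 1 / 2 + σ * x j) -
          ff (y j - v (s j) + σ * (x j - a (s j))) -
          ff (y j + v (s j) + σ * (x j + a (s j))) -
          ff (y j - v (t j) + σ * (x j - a (t j))) -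
          ff (y j + v (t j) + σ * (x j + a (t j)))) +
          ∑ i, 2 * Real.pi * I * (r i * (v i + σ * a i) ^ 2 + (v i + σ * a i)) := by
        funext τ
        simp only [hΦ]
        rw [TaylorG_VG s t hc.st]
        congr 1
        refine Finset.sum_congr rfl fun j _ => ?_
        have e1 : y j + τ * x j + 1 / 2 = y j + 1 / 2 + τ * x j := by ring
        have e2 : y j + τ * x j - (v (s j) + τ * a (s j)) =
          y j - v (s j) + τ * (x j - a (s j)) := by ring
        have e3 : y j + τ * x j + (v (s j) + τ * a (s j)) =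
          y j + v (s j) + τ * (x j + a (s j)) := by ring
        have e4 : y j + τ * x j - (v (t j) + τ * a (t j)) =
          y j - v (t j) + τ * (x j - a (t j)) := by ring
        have e5 : y j + τ * x j + (v (t j) + τ * a (t j)) =
          y j + v (t j) + τ * (x j + a (t j)) := by ring
        rw [e1, e2, e3, e4, e5]
      rw [e0]
      refine HasDerivAt.add (HasDerivAt.fun_sum fun j _ => ?_) (HasDerivAt.fun_sum fun i _ => ?_)
      · have hx1 := abs_lt.1 (hs (Sum.inl j))
        have ha1 := abs_lt.1 (hs (Sum.inr (s j)))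
        have ha2 := abs_lt.1 (hs (Sum.inr (t j)))
        have y1 := ly j
        have v1 := lv (s j)
        have v2 := lv (t j)
        have d1 := Taylor2_comp (s := σ) (t := x j) (ff_hasDerivAt (y j + 1 / 2 + σ * x j) (by
          simp [-one_div, hx]; linarith only [hx1, y1]) (by
          simp [-one_div, hx]; linarith only [hx1, y1]))
        have d2 := Taylor2_comp (s := σ) (t := x j - a (s j))
          (ff_hasDerivAt (y j - v (s j) + σ * (x j - a (s j))) (by
          simp [-one_div, hx, ha]; linarith only [hx1, ha1, y1, v1]) (by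
          simp [-one_div, hx, ha]; linarith only [hx1, ha1, y1, v1]))
        have d3 := Taylor2_comp (s := σ) (t := x j + a (s j))
          (ff_hasDerivAt (y j + v (s j) + σ * (x j + a (s j))) (by
          simp [-one_div, hx, ha]; linarith only [hx1, ha1, y1, v1]) (by
          simp [-one_div, hx, ha]; linarith only [hx1, ha1, y1, v1]))
        have d4 := Taylor2_comp (s := σ) (t := x j - a (t j))
          (ff_hasDerivAt (y j - v (t j) + σ * (x j - a (t j))) (by
          simp [-one_div, hx, ha]; linarith only [hx1, ha2, y1, v2]) (by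
          simp [-one_div, hx, ha]; linarith only [hx1, ha2, y1, v2]))
        have d5 := Taylor2_comp (s := σ) (t := x j + a (t j))
          (ff_hasDerivAt (y j + v (t j) + σ * (x j + a (t j))) (by
          simp [-one_div, hx, ha]; linarith only [hx1, ha2, y1, v2]) (by
          simp [-one_div, hx, ha]; linarith only [hx1, ha2, y1, v2]))
        exact ((((d1.const_mul 4).sub d2).sub d3).sub d4).sub d5
      · have p1 := ((((TaylorN_lin (v i) (a i) σ).pow 2).const_mul (r i : ℂ)).add
          (TaylorN_lin (v i) (a i) σ)).const_mul (2 * Real.pi * I)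
        refine p1.congr_deriv ?_
        push_cast
        ring
    have hG0 : G 0 = 0 := by
      simp only [hG, ofReal_zero, zero_mul, add_zero]
      exact TaylorG_crit s t r y v hc x a
    have hGd : HasDerivAt G (-2 * Q ξ) 0 := by
      have hQe : -2 * Q ξ = ∑ j : Fin m, (4 * (F (y j + 1 / 2) * x j * x j) -
          F (y j - v (s j)) * (x j - a (s j)) * (x j - a (s j)) -
          F (y j + v (s j)) * (x j + a (s j)) * (x j + a (s j)) -
          F (y j - v (t j)) * (x j - a (t j)) * (x j - a (t j)) -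
          F (y j + v (t j)) * (x j + a (t j)) * (x j + a (t j))) +
          ∑ i, 2 * Real.pi * I * (2 * r i * a i) * a i := by
        simp only [Q]
        rw [mul_add, Finset.mul_sum, Finset.mul_sum]
        congr 1
        · refine Finset.sum_congr rfl fun j _ => ?_
          simp only [hx, ha]
          ring
        · refine Finset.sum_congr rfl fun i _ => ?_
          simp only [ha]
          ring
      rw [hQe, hG]
      refine HasDerivAt.add (HasDerivAt.fun_sum fun j _ => ?_) (HasDerivAt.fun_sum fun i _ => ?_)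
      · have y1 := ly j
        have v1 := lv (s j)
        have v2 := lv (t j)
        have k1 : HasDerivAt hh (F (y j + 1 / 2)) (y j + 1 / 2 + (0 : ℝ) * x j) := by
          have := hh_hasDerivAt (y j + 1 / 2) (by simp [-one_div]; linarith only [y1])
            (by simp [-one_div]; linarith only [y1])
          simpa [hF, Taylor2_F] using this
        have k2 : HasDerivAt hh (F (y j - v (s j)))
            (y j - v (s j) + (0 : ℝ) * (x j - a (s j))) := by
          have := hh_hasDerivAt (y j - v (s j)) (by simp; linarith only [y1, v1])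
            (by simp; linarith only [y1, v1])
          simpa [hF, Taylor2_F] using this
        have k3 : HasDerivAt hh (F (y j + v (s j)))
            (y j + v (s j) + (0 : ℝ) * (x j + a (s j))) := by
          have := hh_hasDerivAt (y j + v (s j)) (by simp; linarith only [y1, v1])
            (by simp; linarith only [y1, v1])
          simpa [hF, Taylor2_F] using this
        have k4 : HasDerivAt hh (F (y j - v (t j)))
            (y j - v (t j) + (0 : ℝ) * (x j - a (t j))) := by
          have := hh_hasDerivAt (y j - v (t j)) (by simp; linarith only [y1, v2])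
            (by simp; linarith only [y1, v2])
          simpa [hF, Taylor2_F] using this
        have k5 : HasDerivAt hh (F (y j + v (t j)))
            (y j + v (t j) + (0 : ℝ) * (x j + a (t j))) := by
          have := hh_hasDerivAt (y j + v (t j)) (by simp; linarith only [y1, v2])
            (by simp; linarith only [y1, v2])
          simpa [hF, Taylor2_F] using this
        have d1 := ((Taylor2_comp k1).mul_const (x j)).const_mul 4
        have d2 := (Taylor2_comp k2).mul_const (x j - a (s j))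
        have d3 := (Taylor2_comp k3).mul_const (x j + a (s j))
        have d4 := (Taylor2_comp k4).mul_const (x j - a (t j))
        have d5 := (Taylor2_comp k5).mul_const (x j + a (t j))
        exact (((d1.sub d2).sub d3).sub d4).sub d5
      · exact ((((TaylorN_lin (v i) (a i) 0).const_mul (2 * r i : ℂ)).add_const 1).const_mul
          (2 * Real.pi * I)).mul_const (a i)
    have hpe := Taylor2_peano hder hG0 hGd
    have e : (-2 * Q ξ) / 2 = -Q ξ := by ring
    rw [e] at hpe
    refine hpe.congr ?_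
    intro σ
    rw [hphi]
    have h0 := hphi ξ 0
    rw [zero_smul, add_zero] at h0
    rw [h0]
  obtain ⟨q, hqs, hq⟩ := hQ
  refine ⟨q, hqs, ?_, ?_⟩
  · intro ξ
    rw [← hq]
    have hm := main ξ
    have hre := (Complex.continuous_re.tendsto _).comp hm
    have hle : ∀ᶠ σ in 𝓝[≠] (0 : ℝ), (Complex.re ∘ fun σ : ℝ =>
        (phiG s t r y v (pG y v + σ • ξ) - phiG s t r y v (pG y v)) / (σ : ℂ) ^ 2) σ ≤
        -(1 / 10 * ∑ a, ξ a ^ 2) := by
      have hsm' := nhdsWithin_le_nhds (s := {0}ᶜ) (hsm ξ)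
      filter_upwards [hsm', self_mem_nhdsWithin] with σ hs hs0
      have hs0' : σ ≠ 0 := hs0
      have hcon := concG hc (fun j => (y j).re + σ * ξ (Sum.inl j))
        (fun i => (v i).re + σ * ξ (Sum.inr i))
        (fun j => by
          have := ly j
          have h2 := abs_lt.1 (hs (Sum.inl j))
          rw [abs_le]; constructor <;> linarith only [this, h2])
        (fun i => by
          have := lv i
          have h2 := abs_lt.1 (hs (Sum.inr i))
          rw [abs_le]; constructor <;> linarith only [this, h2])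
      have hp0 : phiG s t r y v (pG y v) = VG s t r y v := by
        unfold phiG
        congr 1
        · funext j; apply Complex.ext <;> simp [zy7, pG]
        · funext i; apply Complex.ext <;> simp [zv7, pG]
      have hps : phiG s t r y v (pG y v + σ • ξ) =
          VG s t r (fun j => (((y j).re + σ * ξ (Sum.inl j) : ℝ) : ℂ) + (y j).im * I)
            (fun i => (((v i).re + σ * ξ (Sum.inr i) : ℝ) : ℂ) + (v i).im * I) := by
        unfold phiG
        congr 1
      simp only [Function.comp]
      rw [hp0, hps]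
      have hsq : ((σ : ℂ) ^ 2) = ((σ ^ 2 : ℝ) : ℂ) := by push_cast; rfl
      rw [hsq, Complex.div_ofReal_re, Complex.sub_re]
      have hs2 : 0 < σ ^ 2 := by positivity
      rw [div_le_iff₀ hs2]
      have hsum : ∑ j, ((y j).re + σ * ξ (Sum.inl j) - (y j).re) ^ 2 +
          ∑ i, ((v i).re + σ * ξ (Sum.inr i) - (v i).re) ^ 2 = σ ^ 2 * ∑ a, ξ a ^ 2 := by
        rw [Fintype.sum_sum_type, mul_add, Finset.mul_sum, Finset.mul_sum]
        congr 1
        · exact Finset.sum_congr rfl fun j _ => by ring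
        · exact Finset.sum_congr rfl fun j _ => by ring
      rw [hsum] at hcon
      linarith only [hcon]
    have hlim := le_of_tendsto hre hle
    simp only [Complex.neg_re] at hlim
    linarith only [hlim]
  · intro ξ
    rw [← hq]
    have hm := main ξ
    have hs : Tendsto (fun M : ℕ => 1 / Real.sqrt M) atTop (𝓝[≠] 0) := by
      rw [tendsto_nhdsWithin_iff]
      constructor
      · have h1 : Tendsto (fun M : ℕ => Real.sqrt (M : ℝ)) atTop atTop :=
          Real.tendsto_sqrt_atTop.comp tendsto_natCast_atTop_atTop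
        have h2 := h1.inv_tendsto_atTop
        refine h2.congr ?_
        intro M
        simp [one_div]
      · filter_upwards [eventually_gt_atTop 0] with M hM
        have : 0 < Real.sqrt (M : ℝ) := Real.sqrt_pos.mpr (by exact_mod_cast hM)
        simp only [Set.mem_compl_iff, Set.mem_singleton_iff]
        positivity
    refine (hm.comp hs).congr' ?_
    filter_upwards [eventually_gt_atTop 0] with M hM
    simp only [Function.comp]
    have hM' : (0 : ℝ) < M := by exact_mod_cast hM
    have e : (((1 / Real.sqrt M : ℝ) : ℂ)) ^ 2 = 1 / (M : ℂ) := by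
      rw [← Complex.ofReal_pow, div_pow, one_pow, Real.sq_sqrt hM'.le]
      push_cast
      rfl
    rw [e]
    have hMc : (M : ℂ) ≠ 0 := by exact_mod_cast hM.ne'
    field_simp

end Pool.Agent.H63.VC7

end
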