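import Pool.Agent.H94.PA.H63.VC7.GNb
import Pool.Agent.H94.PA.M22
import Pool.Agent.H94.PA.M26

/-! The parts of this file: H63.VC7.GNl, H63.VC7.MainG. -/

section

/-! # The pointwise limit of the integrand -/

namespace Pool.Agent.H63.VC7

open Pool.Agent.H63.VC
open Pool.Agent.H63.VC3 Pool.Agent.H63.VC4 Complex

variable {m p : ℕ}

theorem GNl_Qo (y : Fin m → ℂ) (v : ℂ) (j : Fin m) (Y : ℕ → Fin m → ℂ) (V : ℕ → ℂ)
    (hY : ∀ j, Filter.Tendsto (fun M => Y M j) Filter.atTop (nhds (y j)))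
    (hV : Filter.Tendsto V Filter.atTop (nhds v)) (hok : okS v (some (y j))) :
    Filter.Tendsto (fun M : ℕ => (M : ℂ) * Qo 2 M (some (Y M j)) (V M) *
      exp (-M * po (some (Y M j)) (V M))) Filter.atTop (nhds 1) := by
  have h := KBN_Qo_lim 2 j.castSucc.succ y v Y V hY hV (by rw [ext_mid]; exact hok)
  simp only [ext_mid] at h
  exact h

theorem GNl_fac (r : ℝ) (M : ℕ) (A : Finset (Fin m)) (y : Fin m → ℂ) (v : ℂ) :
    (-1 : ℂ) ^ (M + 1) * (KG r M A y v * om 2 M v) * (∏ _j ∈ A, (M : ℂ)) *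
      exp (-M * WG r A y v) =
    2 * sin (2 * Real.pi * v) * (∏ j ∈ A, ((M : ℂ) * Qo 2 M (some (y j)) v *
      exp (-M * po (some (y j)) v))) * (1 / (1 - ww 2 M v) ^ 2) := by
  have ho := KBN_om 2 M v
  have hW : exp (-M * WG r A y v) = exp (-(2 * Real.pi * I * r * M * v ^ 2)) *
      exp (-M * (2 * Real.pi * I * v)) * ∏ j ∈ A, exp (-M * po (some (y j)) v) := by
    rw [← Complex.exp_sum, ← Complex.exp_add, ← Complex.exp_add]
    congr 1
    unfold WG
    rw [← Finset.mul_sum]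
    ring
  have hsq : ((-1 : ℂ) ^ (M + 1)) * (-1) ^ (M + 2 + 1) = 1 := by
    rw [← pow_add, show M + 1 + (M + 2 + 1) = 2 * (M + 2) by ring, pow_mul]
    simp
  have hee : exp (2 * Real.pi * I * r * M * v ^ 2) *
      exp (-(2 * Real.pi * I * r * M * v ^ 2)) = 1 := by
    rw [← Complex.exp_add, add_neg_cancel, Complex.exp_zero]
  have hP : (∏ j ∈ A, ((M : ℂ) * Qo 2 M (some (y j)) v * exp (-M * po (some (y j)) v))) =
      (∏ _j ∈ A, (M : ℂ)) * (∏ j ∈ A, Qo 2 M (some (y j)) v) *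
        ∏ j ∈ A, exp (-M * po (some (y j)) v) := by
    rw [Finset.prod_mul_distrib, Finset.prod_mul_distrib]
  rw [hW, hP]
  unfold KG
  generalize (∏ j ∈ A, Qo 2 M (some (y j)) v) = q at *
  generalize (∏ _j ∈ A, (M : ℂ)) = mm at *
  generalize (∏ j ∈ A, exp (-M * po (some (y j)) v)) = pp at *
  generalize exp (2 * Real.pi * I * r * M * v ^ 2) = a1 at *
  generalize exp (-(2 * Real.pi * I * r * M * v ^ 2)) = a2 at *
  generalize exp (-M * (2 * Real.pi * I * v)) = b at *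
  generalize om 2 M v = o at *
  generalize 1 / (1 - ww 2 M v) ^ 2 = w at *
  generalize ((-1 : ℂ)) ^ (M + 1) = s at *
  generalize ((-1 : ℂ)) ^ (M + 2 + 1) = s' at *
  generalize sin (2 * Real.pi * v) = sn at *
  have e : s * (a1 * (2 * sn) * q * o) * mm * (a2 * b * pp) =
      (a1 * a2) * (s * (o * b)) * (2 * sn * (mm * q * pp)) := by ring
  rw [e, hee, ho]
  have e2 : s * (s' * w) = w := by rw [← mul_assoc, hsq, one_mul]
  rw [e2]
  ring

/-- The pointwise limit of the integrand. -/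
theorem GN_lim (s t : Fin m → Fin p) (hst : ∀ j, s j ≠ t j) (r : Fin p → ℝ)
    (y : Fin m → ℂ) (v : Fin p → ℂ) (hy : ∀ j, |(y j).re - 1 / 4| ≤ 55 / 1000)
    (hv : ∀ i, |(v i).re| ≤ 15 / 100) (him : ∀ i, 0 < (v i).im) :
    ∃ L : ℂ, L ≠ 0 ∧ ∀ (Y : ℕ → Fin m → ℂ) (V : ℕ → Fin p → ℂ),
      (∀ j, Filter.Tendsto (fun M => Y M j) Filter.atTop (nhds (y j))) →
      (∀ i, Filter.Tendsto (fun M => V M i) Filter.atTop (nhds (v i))) →
      (∀ M i, (V M i).im = (v i).im) →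
      Filter.Tendsto (fun M : ℕ => ((-1 : ℂ) ^ (M + 1)) ^ p * GN s t r M ∅ ∅ (Y M) (V M) *
        exp (-M * VG s t r (Y M) (V M))) Filter.atTop (nhds L) := by
  refine ⟨(∏ j, exp (-2 * hh (y j + 1 / 2))) * ∏ i : Fin p, (2 * sin (2 * Real.pi * v i)),
    ?_, ?_⟩
  · refine mul_ne_zero (Finset.prod_ne_zero_iff.2 fun j _ => Complex.exp_ne_zero _)
      (Finset.prod_ne_zero_iff.2 fun i _ => ?_)
    have hnr : ∀ x : ℝ, v i ≠ x := by
      intro x hx
      have := him i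
      rw [hx, Complex.ofReal_im] at this
      exact lt_irrefl _ this
    have hpi : (Real.pi : ℂ) ≠ 0 := by exact_mod_cast Real.pi_ne_zero
    refine mul_ne_zero two_ne_zero ?_
    intro h0
    rw [Complex.sin_eq_zero_iff] at h0
    obtain ⟨k, hk⟩ := h0
    refine hnr (k / 2) ?_
    have h1 : (Real.pi : ℂ) * (2 * v i) = Real.pi * k := by
      rw [mul_comm (Real.pi : ℂ) (k : ℂ), ← hk]; ring
    have h2 := mul_left_cancel₀ hpi h1
    have h3 : v i = k / 2 := by rw [← h2]; ring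
    rw [h3]
    push_cast
    ring
  · intro Y V hY hV hVim
    have hCc : Filter.Tendsto (fun M : ℕ => ∏ j : Fin m, (Cc 2 1 M (Y M j) / (M : ℂ) ^ 2 *
        exp (-M * (4 * ff (Y M j + 1 / 2))))) Filter.atTop
        (nhds (∏ j, exp (-2 * hh (y j + 1 / 2)))) := by
      refine tendsto_finsetProd _ fun j _ => ?_
      have h1 := abs_le.1 (hy j)
      exact Cc_lim 2 1 le_rfl le_rfl (y j) (fun M => Y M j) (hY j) (by linarith [h1.1])
        (by linarith [h1.2])
    have hK : Filter.Tendsto (fun M : ℕ => ∏ i : Fin p, (2 * sin (2 * Real.pi * V M i) *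
        (∏ j ∈ inc s t i, ((M : ℂ) * Qo 2 M (some (Y M j)) (V M i) *
          exp (-M * po (some (Y M j)) (V M i)))) * (1 / (1 - ww 2 M (V M i)) ^ 2)))
        Filter.atTop (nhds (∏ i : Fin p, (2 * sin (2 * Real.pi * v i)))) := by
      refine tendsto_finsetProd _ fun i _ => ?_
      have hs : Filter.Tendsto (fun M : ℕ => 2 * sin (2 * Real.pi * V M i)) Filter.atTop
          (nhds (2 * sin (2 * Real.pi * v i))) := by
        have hcont : Continuous (fun w : ℂ => 2 * Complex.sin (2 * Real.pi * w)) := by fun_prop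
        exact (hcont.tendsto (v i)).comp (hV i)
      have hq : Filter.Tendsto (fun M : ℕ => ∏ j ∈ inc s t i, ((M : ℂ) *
          Qo 2 M (some (Y M j)) (V M i) * exp (-M * po (some (Y M j)) (V M i)))) Filter.atTop
          (nhds (∏ _j ∈ inc s t i, (1 : ℂ))) := by
        refine tendsto_finsetProd _ fun j _ => ?_
        refine GNl_Qo y (v i) j Y (fun M => V M i) hY (hV i) ?_
        intro z hz
        have hz' : y j = z := Option.some.inj hz
        subst hz'
        have h1 := abs_le.1 (hy j)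
        have h2 := abs_le.1 (hv i)
        rw [Complex.sub_re, Complex.add_re]
        refine ⟨by linarith [h1.1, h2.2], by linarith [h1.2, h2.1], by linarith [h1.1, h2.1],
          by linarith [h1.2, h2.2]⟩
      rw [Finset.prod_const_one] at hq
      have hA := Om_tendsto 2 (fun M => V M i) (v i).im (him i) (fun M => hVim M i)
      have h1 : Filter.Tendsto (fun M : ℕ => (1 - ww 2 M (V M i)) ^ 2) Filter.atTop
          (nhds ((1 - 0) ^ 2)) := (tendsto_const_nhds.sub hA).pow 2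
      rw [sub_zero, one_pow] at h1
      have h2 := h1.inv₀ one_ne_zero
      rw [inv_one] at h2
      have h3 : Filter.Tendsto (fun M : ℕ => 1 / (1 - ww 2 M (V M i)) ^ 2) Filter.atTop
          (nhds 1) := h2.congr fun M => by rw [one_div]
      have h4 := (hs.mul hq).mul h3
      rw [mul_one, mul_one] at h4
      exact h4
    refine (hCc.mul hK).congr' ?_
    filter_upwards [Filter.eventually_ge_atTop 1] with M hM
    have hM0 : (M : ℂ) ≠ 0 := by
      have : M ≠ 0 := by omega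
      exact_mod_cast this
    have hVG : exp (-M * VG s t r (Y M) (V M)) =
        (∏ j, exp (-M * (4 * ff (Y M j + 1 / 2)))) *
        ∏ i : Fin p, exp (-M * WG (r i) (inc s t i) (Y M) (V M i)) := by
      rw [← Complex.exp_sum, ← Complex.exp_sum, ← Complex.exp_add]
      congr 1
      unfold VG
      rw [mul_add, Finset.mul_sum, Finset.mul_sum]
    have hP1 : (∏ j : Fin m, (Cc 2 1 M (Y M j) / (M : ℂ) ^ 2 *
        exp (-M * (4 * ff (Y M j + 1 / 2))))) = (∏ j, Cc 2 1 M (Y M j)) / (M : ℂ) ^ (2 * m) *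
        ∏ j, exp (-M * (4 * ff (Y M j + 1 / 2))) := by
      rw [Finset.prod_mul_distrib, Finset.prod_div_distrib, Finset.prod_const, Finset.card_univ,
        Fintype.card_fin, ← pow_mul]
    have hMM : ∏ i, ∏ _j ∈ inc s t i, (M : ℂ) = (M : ℂ) ^ (2 * m) := by
      rw [prod_inc s t hst (fun _ _ => (M : ℂ)), Finset.prod_const, Finset.card_univ,
        Fintype.card_fin, ← pow_two, ← pow_mul]
    have hP2 : (∏ i : Fin p, (2 * sin (2 * Real.pi * V M i) *
        (∏ j ∈ inc s t i, ((M : ℂ) * Qo 2 M (some (Y M j)) (V M i) *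
          exp (-M * po (some (Y M j)) (V M i)))) * (1 / (1 - ww 2 M (V M i)) ^ 2))) =
        ((-1 : ℂ) ^ (M + 1)) ^ p * (∏ i : Fin p, (KG (r i) M (inc s t i) (Y M) (V M i) *
          om 2 M (V M i))) * (M : ℂ) ^ (2 * m) *
        ∏ i : Fin p, exp (-M * WG (r i) (inc s t i) (Y M) (V M i)) := by
      rw [← hMM]
      have hc : ((-1 : ℂ) ^ (M + 1)) ^ p = ∏ _i : Fin p, (-1 : ℂ) ^ (M + 1) := by
        rw [Finset.prod_const, Finset.card_univ, Fintype.card_fin]
      rw [hc, ← Finset.prod_mul_distrib, ← Finset.prod_mul_distrib, ← Finset.prod_mul_distrib]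
      exact Finset.prod_congr rfl fun i _ => (GNl_fac (r i) M (inc s t i) (Y M) (V M i)).symm
    rw [hP1, hP2, hVG]
    unfold GN
    rw [Finset.compl_empty, Finset.compl_empty]
    have hMp : (M : ℂ) ^ (2 * m) ≠ 0 := pow_ne_zero _ hM0
    generalize (∏ j, Cc 2 1 M (Y M j)) = a1
    generalize (∏ j : Fin m, exp (-M * (4 * ff (Y M j + 1 / 2)))) = a2
    generalize (∏ i : Fin p, (KG (r i) M (inc s t i) (Y M) (V M i) * om 2 M (V M i))) = a3
    generalize (∏ i : Fin p, exp (-M * WG (r i) (inc s t i) (Y M) (V M i))) = a4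
    generalize ((-1 : ℂ) ^ (M + 1)) ^ p = a5
    generalize (M : ℂ) ^ (2 * m) = a6 at hMp ⊢
    field_simp

end Pool.Agent.H63.VC7

end

section

/-! # The asymptotics of the main integral -/

namespace Pool.Agent.H63.VC7

open Pool.Agent.H63.VC
open Pool.Agent.H63.VC3 Pool.Agent.H63.VC4 Pool.Agent.H63.VC6 Complex Filter Topology

variable {m p : ℕ}

theorem MainG_ww_ne (n M : ℕ) (hM : 0 < M) (v : ℂ) (hv : 0 < v.im) : ww n M v ≠ 1 := by
  intro h
  have h1 := norm_ww n M v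
  rw [h, norm_one] at h1
  have h2 : Real.exp (-(2 * Real.pi * M * v.im)) < 1 := by
    rw [Real.exp_lt_one_iff]
    have : (0 : ℝ) < M := by exact_mod_cast hM
    have := Real.pi_pos
    have : 0 < 2 * Real.pi * M * v.im := by positivity
    linarith only [this]
  linarith

theorem MainG_mem {y1 y2 ρ : ℝ} {z : Fin m ⊕ Fin p → ℝ} :
    z ∈ Bx7 m p y1 y2 ρ ↔ (∀ j, y1 < z (Sum.inl j) ∧ z (Sum.inl j) ≤ y2) ∧
      ∀ i, -ρ < z (Sum.inr i) ∧ z (Sum.inr i) ≤ ρ := by
  unfold Bx7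
  rw [Set.mem_univ_pi]
  constructor
  · intro h
    exact ⟨fun j => h (Sum.inl j), fun i => h (Sum.inr i)⟩
  · rintro ⟨h1, h2⟩ (j | i)
    · exact h1 j
    · exact h2 i

theorem MainG_meas (m p : ℕ) (y1 y2 ρ : ℝ) : MeasurableSet (Bx7 m p y1 y2 ρ) := by
  unfold Bx7
  refine MeasurableSet.univ_pi fun i => ?_
  rcases i with j | i
  · exact measurableSet_Ioc
  · exact measurableSet_Ioc

theorem MainG_zy_re (Y0 : Fin m → ℝ) (z : Fin m ⊕ Fin p → ℝ) (j : Fin m) :
    (zy7 Y0 z j).re = z (Sum.inl j) := by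
  simp [zy7]

theorem MainG_zy_im (Y0 : Fin m → ℝ) (z : Fin m ⊕ Fin p → ℝ) (j : Fin m) :
    (zy7 Y0 z j).im = Y0 j := by
  simp [zy7]

theorem MainG_zv_re (Y1 : Fin p → ℝ) (z : Fin m ⊕ Fin p → ℝ)
    (i : Fin p) : (zv7 Y1 z i).re = z (Sum.inr i) := by
  simp [zv7]

theorem MainG_zv_im (Y1 : Fin p → ℝ) (z : Fin m ⊕ Fin p → ℝ)
    (i : Fin p) : (zv7 Y1 z i).im = Y1 i := by
  simp [zv7]

theorem MainG_cont (s t : Fin m → Fin p) (r : Fin p → ℝ) (M : ℕ)
    (hM : 3000 ≤ M) (Y0 : Fin m → ℝ) (Y1 : Fin p → ℝ) (hY1 : ∀ i, 0 < Y1 i)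
    (y1 y2 ρ : ℝ) (a1 : 1 / 4 - 55 / 1000 ≤ y1) (a4 : y2 ≤ 1 / 4 + 55 / 1000)
    (hρ : ρ ≤ 150 / 1000) :
    ContinuousOn (fun z : Fin m ⊕ Fin p → ℝ => GN s t r M ∅ ∅ (zy7 Y0 z) (zv7 Y1 z))
      (Bx7 m p y1 y2 ρ) := by
  intro z hz
  apply ContinuousAt.continuousWithinAt
  obtain ⟨hz1, hz2⟩ := MainG_mem.1 hz
  have hMpos : 0 < M := by omega
  have hy : ∀ j, |(zy7 Y0 z j).re - 1 / 4| ≤ 55 / 1000 := by
    intro j
    rw [MainG_zy_re, abs_le]
    have := hz1 j
    constructor <;> linarith only [a1, this, a4]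
  have hv : ∀ i, |(zv7 Y1 z i).re| ≤ 15 / 100 := by
    intro i
    rw [MainG_zv_re, abs_le]
    have := hz2 i
    constructor <;> linarith only [hρ, this]
  have h1 := GN_continuousAt s t r M hM ∅ ∅ (zy7 Y0 z) (zv7 Y1 z) hy hv
    (fun i => MainG_ww_ne 2 M hMpos _ (by rw [MainG_zv_im]; exact hY1 i))
  have h2 : Continuous fun z : Fin m ⊕ Fin p → ℝ => (zy7 Y0 z, zv7 Y1 z) := by
    refine Continuous.prodMk (continuous_pi fun j => ?_) (continuous_pi fun i => ?_)
    · unfold zy7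
      fun_prop
    · unfold zv7
      fun_prop
  exact ContinuousAt.comp (f := fun z : Fin m ⊕ Fin p → ℝ => (zy7 Y0 z, zv7 Y1 z))
    (g := fun z : (Fin m → ℂ) × (Fin p → ℂ) => GN s t r M ∅ ∅ z.1 z.2) h1 h2.continuousAt

theorem MainG_EB (s t : Fin m → Fin p) : EB s t ∅ = ∅ := by
  simp [EB]

theorem MainG_bound (s t : Fin m → Fin p) (hst : ∀ j, s j ≠ t j) (r : Fin p → ℝ)
    (Y1 : Fin p → ℝ) (hY1 : ∀ i, 0 < Y1 i ∧ Y1 i ≤ 1 / 50) :
    ∃ C : ℝ, 0 < C ∧ ∃ M0 : ℕ, ∀ M : ℕ, M0 ≤ M → ∀ (y : Fin m → ℂ) (a : Fin p → ℝ),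
      (∀ j, |(y j).re - 1 / 4| ≤ 55 / 1000 ∧ |(y j).im| ≤ 1 / 50) → (∀ i, |a i| ≤ 15 / 100) →
        ‖GN s t r M ∅ ∅ y (fun i => a i + Y1 i * I)‖ ≤
      C * Real.exp (M * (VG s t r y (fun i => a i + Y1 i * I)).re) := by
  obtain ⟨C, hC, M0, h⟩ := GN_bound s t hst r ∅ Y1 hY1
  refine ⟨C, hC, M0, fun M hM y a h1 h2 => ?_⟩
  have h3 := h M hM y a h1 h2
  rw [MainG_EB] at h3
  rw [VG_re hst]
  simpa using h3

theorem main_limG (s t : Fin m → Fin p) (r : Fin p → ℝ) (y : Fin m → ℂ) (v : Fin p → ℂ)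
    (hc : CritG s t r y v) (k1 k2 l1 l2 : ℕ → ℕ)
    (hw : ∀ᶠ M in atTop, Win 2 M (k1 M) (k2 M) (l1 M) (l2 M)) :
    ∃ K : ℂ, K ≠ 0 ∧ Tendsto (fun M : ℕ => (((M : ℝ) ^ (((m : ℝ) + p) / 2) : ℝ) : ℂ) *
      ((-1 : ℂ) ^ (M + 1)) ^ p *
      exp (-M * VG s t r y v) * MG s t r M (fun j => (y j).im) (fun i => (v i).im)
      ((k1 M + bt 2) / M - 1 / 2) ((k2 M + 1 + bt 2) / M - 1 / 2) (rho 2 M (l2 M)))
      atTop (𝓝 K) := by
  have hst := hc.st
  have lY := fun j => (locG_y hc j).1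
  have lV := fun i => (locG_v hc i).1
  have hY1 : ∀ i, 0 < (v i).im ∧ (v i).im ≤ 1 / 50 := fun i =>
    ⟨hc.imv i, by linarith only [lV, (lV i).2.2]⟩
  obtain ⟨C, hC, M0, hGB⟩ := MainG_bound s t hst r (fun i => (v i).im) hY1
  obtain ⟨q, hqs, hq, hT⟩ := phiG_taylor s t r y v hc
  have hre : ∀ j, |(y j).re - 1 / 4| ≤ 55 / 1000 := fun j => (lY j).1.trans (by norm_num)
  have hvr : ∀ i, |(v i).re| ≤ 15 / 100 := fun i => (lV i).1.trans (by norm_num)
  obtain ⟨L, hL0, hL⟩ := GN_lim s t hst r y v hre hvr hc.imv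
  set y1 : ℕ → ℝ := fun M => (k1 M + bt 2) / M - 1 / 2 with hy1
  set y2 : ℕ → ℝ := fun M => (k2 M + 1 + bt 2) / M - 1 / 2 with hy2
  set ρ : ℕ → ℝ := fun M => rho 2 M (l2 M) with hρ
  have hzyp : zy7 (fun j => (y j).im) (pG y v) = y := by
    funext j
    simp [zy7, pG, re_add_im]
  have hzvp : zv7 (fun i => (v i).im) (pG y v) = v := by
    funext i
    simp [zv7, pG, re_add_im]
  have hphip : phiG s t r y v (pG y v) = VG s t r y v := by
    unfold phiG
    rw [hzyp, hzvp]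
  obtain ⟨A, hAdef⟩ : ∃ A : ℕ → (Fin m ⊕ Fin p → ℝ) → ℂ, A = fun M =>
      (Bx7 m p (y1 M) (y2 M) (ρ M)).indicator fun z =>
        GN s t r M ∅ ∅ (zy7 (fun j => (y j).im) z) (zv7 (fun i => (v i).im) z) *
          ((-1 : ℂ) ^ (M + 1)) ^ p * exp (-(M * phiG s t r y v z)) := ⟨_, rfl⟩
  have hfac : ∀ᶠ M : ℕ in atTop, 1 ≤ M ∧ M0 ≤ M ∧ 3000 ≤ M ∧
      1 / 4 - 55 / 1000 ≤ y1 M ∧ y1 M ≤ 1 / 4 - 54 / 1000 ∧ 1 / 4 + 54 / 1000 ≤ y2 M ∧
      y2 M ≤ 1 / 4 + 55 / 1000 ∧ 149 / 1000 ≤ ρ M ∧ ρ M ≤ 150 / 1000 := by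
    filter_upwards [hw, eventually_ge_atTop M0, eventually_ge_atTop 1] with M h1 h2 h3
    exact ⟨h3, h2, by have := h1.big; omega, h1.a1, h1.a2, h1.a3, h1.a4, h1.b1, h1.b2⟩
  have hAexp : ∀ M, (fun z => A M z * exp (M * (phiG s t r y v z - phiG s t r y v (pG y v)))) =
      (Bx7 m p (y1 M) (y2 M) (ρ M)).indicator (fun z =>
        ((-1 : ℂ) ^ (M + 1)) ^ p * exp (-M * VG s t r y v) *
        GN s t r M ∅ ∅ (zy7 (fun j => (y j).im) z) (zv7 (fun i => (v i).im) z)) := by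
    intro M
    funext z
    rw [hAdef]
    simp only
    by_cases hz : z ∈ Bx7 m p (y1 M) (y2 M) (ρ M)
    · rw [Set.indicator_of_mem hz, Set.indicator_of_mem hz, mul_assoc, ← exp_add, hphip]
      have e : -((M : ℂ) * phiG s t r y v z) + M * (phiG s t r y v z - VG s t r y v) =
          -M * VG s t r y v := by ring
      rw [e]
      ring
    · rw [Set.indicator_of_notMem hz, Set.indicator_of_notMem hz, zero_mul]
  have hcard : ((Fintype.card (Fin m ⊕ Fin p) : ℝ) / 2) = (((m : ℝ) + p) / 2 : ℝ) := by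
    rw [Fintype.card_sum, Fintype.card_fin, Fintype.card_fin]
    push_cast
    ring
  have hlap := laplaceN (phiG s t r y v) (pG y v) A C (1 / 10) (by norm_num)
    (fun ξ => ∑ a, ∑ b, q a b * ξ a * ξ b) L ?_ ?_ ?_ ?_ hT
  · refine ⟨L * ∫ ξ : Fin m ⊕ Fin p → ℝ, exp (-∑ a, ∑ b, q a b * ξ a * ξ b),
      mul_ne_zero hL0 (gaussN_ne q hqs (1 / 10) (by norm_num) hq), ?_⟩
    rw [hcard] at hlap
    refine hlap.congr fun M => ?_
    rw [hAexp M, MeasureTheory.integral_indicator (MainG_meas _ _ _ _ _),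
      MeasureTheory.integral_const_mul]
    unfold MG
    ring
  · filter_upwards [hfac] with M hM
    obtain ⟨-, -, b1, b2, b3, b4, b5, b6, b7⟩ := hM
    rw [hAexp M, aestronglyMeasurable_indicator_iff (MainG_meas _ _ _ _ _)]
    exact (continuousOn_const.mul (MainG_cont s t r M b1 _ _ (fun i => (hY1 i).1)
      (y1 M) (y2 M) (ρ M) b2 b5 b7)).aestronglyMeasurable (MainG_meas _ _ _ _ _)
  · filter_upwards [hfac] with M hM
    obtain ⟨b8, b9, b1, b2, b3, b4, b5, b6, b7⟩ := hM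
    intro z
    rw [hAdef]
    simp only
    by_cases hz : z ∈ Bx7 m p (y1 M) (y2 M) (ρ M)
    · rw [Set.indicator_of_mem hz, norm_mul, norm_mul, norm_exp]
      obtain ⟨c1, c2⟩ := MainG_mem.1 hz
      have e1 := hGB M b9 (zy7 (fun j => (y j).im) z) (fun i => z (Sum.inr i))
        (fun j => by
          rw [MainG_zy_re, MainG_zy_im, abs_le]
          have := c1 j
          exact ⟨⟨by linarith only [b2, this], by linarith only [b5, this]⟩, (lY j).2.trans (by norm_num)⟩)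
        (fun i => by
          rw [abs_le]
          have := c2 i
          constructor <;> linarith only [b7, this])
      have e2 : (-((M : ℂ) * phiG s t r y v z)).re = -(M * (phiG s t r y v z).re) := by
        rw [neg_re, ← ofReal_natCast, re_ofReal_mul]
      have e4 : (fun i => ((z (Sum.inr i) : ℝ) : ℂ) + ((v i).im : ℝ) * I) =
          zv7 (fun i => (v i).im) z := rfl
      rw [e4] at e1
      have e5 : ‖((-1 : ℂ) ^ (M + 1)) ^ p‖ = 1 := by simp
      rw [e5, mul_one, e2, Real.exp_neg]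
      have e3 : 0 < Real.exp (M * (phiG s t r y v z).re) := Real.exp_pos _
      rw [← div_eq_mul_inv, div_le_iff₀ e3]
      exact e1
    · rw [Set.indicator_of_notMem hz, norm_zero]
      exact hC.le
  · filter_upwards [hfac] with M hM
    obtain ⟨b8, b9, b1, b2, b3, b4, b5, b6, b7⟩ := hM
    intro z hz
    have hz' : z ∈ Bx7 m p (y1 M) (y2 M) (ρ M) := by
      by_contra h
      rw [hAdef] at hz
      exact hz (Set.indicator_of_notMem h _)
    obtain ⟨c1, c2⟩ := MainG_mem.1 hz'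
    have e1 := concG hc (fun j => z (Sum.inl j)) (fun i => z (Sum.inr i))
      (fun j => by
        have := c1 j
        rw [abs_le]
        constructor <;> linarith only [b2, this, b5])
      (fun i => by
        have := c2 i
        rw [abs_le]
        constructor <;> linarith only [b7, this])
    rw [sub_re, hphip, Fintype.sum_sum_type]
    have e2 : (phiG s t r y v z).re = (VG s t r (fun j => (z (Sum.inl j) : ℂ) + (y j).im * I)
      (fun i => (z (Sum.inr i) : ℂ) + (v i).im * I)).re := rfl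
    rw [e2]
    simp only [pG, Sum.elim_inl, Sum.elim_inr]
    linarith only [e1]
  · intro ξ
    have hsq : Tendsto (fun M : ℕ => 1 / Real.sqrt M) atTop (𝓝 0) := by
      have h1 : Tendsto (fun M : ℕ => Real.sqrt (M : ℝ)) atTop atTop :=
        Real.tendsto_sqrt_atTop.comp tendsto_natCast_atTop_atTop
      refine h1.inv_tendsto_atTop.congr fun M => ?_
      simp only [Pi.inv_apply, one_div]
    have hzt : Tendsto (fun M : ℕ => pG y v + (1 / Real.sqrt M) • ξ) atTop (𝓝 (pG y v)) := by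
      have := (hsq.smul_const ξ).const_add (pG y v)
      simpa using this
    obtain ⟨Z, hZ⟩ : ∃ Z : ℕ → Fin m ⊕ Fin p → ℝ,
        ∀ M, Z M = pG y v + (1 / Real.sqrt M) • ξ := ⟨_, fun _ => rfl⟩
    simp only [← hZ] at hzt ⊢
    have hz1 : ∀ j, Tendsto (fun M : ℕ => Z M (Sum.inl j)) atTop (𝓝 (y j).re) := by
      intro j
      have := (tendsto_pi_nhds.1 hzt) (Sum.inl j)
      simpa [pG] using this
    have hz2 : ∀ i, Tendsto (fun M : ℕ => Z M (Sum.inr i)) atTop (𝓝 (v i).re) := by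
      intro i
      have := (tendsto_pi_nhds.1 hzt) (Sum.inr i)
      simpa [pG] using this
    have hY : ∀ j, Tendsto (fun M : ℕ => zy7 (fun j => (y j).im) (Z M) j) atTop (𝓝 (y j)) := by
      intro j
      have := ((continuous_ofReal.tendsto _).comp (hz1 j)).add_const ((y j).im * I : ℂ)
      rw [re_add_im] at this
      exact this
    have hV : ∀ i, Tendsto (fun M : ℕ => zv7 (fun i => (v i).im) (Z M) i) atTop (𝓝 (v i)) := by
      intro i
      have := ((continuous_ofReal.tendsto _).comp (hz2 i)).add_const ((v i).im * I : ℂ)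
      rw [re_add_im] at this
      exact this
    have L5 := hL (fun M => zy7 (fun j => (y j).im) (Z M))
      (fun M => zv7 (fun i => (v i).im) (Z M)) hY hV (fun M i => MainG_zv_im _ _ _)
    refine L5.congr' ?_
    have ev1 : ∀ᶠ M in atTop, ∀ j,
        Z M (Sum.inl j) ∈ Set.Ioo (1 / 4 - 2 / 100 : ℝ) (1 / 4 + 2 / 100) := by
      rw [eventually_all]
      intro j
      have := abs_le.1 (lY j).1
      exact (hz1 j).eventually (Ioo_mem_nhds (by linarith only [this]) (by linarith only [this]))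
    have ev2 : ∀ᶠ M in atTop, ∀ i, Z M (Sum.inr i) ∈ Set.Ioo (-(1 / 10) : ℝ) (1 / 10) := by
      rw [eventually_all]
      intro i
      have := abs_le.1 (lV i).1
      exact (hz2 i).eventually (Ioo_mem_nhds (by linarith only [this]) (by linarith only [this]))
    filter_upwards [hfac, ev1, ev2] with M hM e1 e2
    obtain ⟨b8, b9, b1, b2, b3, b4, b5, b6, b7⟩ := hM
    have hmem : Z M ∈ Bx7 m p (y1 M) (y2 M) (ρ M) := by
      rw [MainG_mem]
      exact ⟨fun j => ⟨by linarith only [b3, e1, (e1 j).1], by linarith only [b4, e1, (e1 j).2]⟩,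
        fun i => ⟨by linarith only [b6, e2, (e2 i).1], by linarith only [b6, e2, (e2 i).2]⟩⟩
    rw [hAdef]
    simp only
    rw [Set.indicator_of_mem hmem]
    unfold phiG
    rw [neg_mul]
    ring

end Pool.Agent.H63.VC7

end
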