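import Pool.Agent.H94.PA.H63.VC7.ExpandG
import Pool.Agent.H94.PA.H63.VC7.MainPart
import Pool.Agent.H94.PA.M27

/-! The parts of this file: H63.VC7.JGmain, H63.VC7.JGlim. -/

section

/-! # The invariant and the main integral -/

namespace Pool.Agent.H63.VC7

open Pool.Agent.H63.VC
open Pool.Agent.H63.VC3 Pool.Agent.H63.VC4 Pool.Agent.H63.VC6 Complex

variable {m p : ℕ} {s t : Fin m → Fin p} {r : Fin p → ℝ} {y : Fin m → ℂ} {v : Fin p → ℂ}

/-- The expansion over the sets of bad nodes. -/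
theorem JGmain_expand (s t : Fin m → Fin p) (r : Fin p → ℝ) (M : ℕ)
    (G : Fin p → (Fin m → ℕ) → ℂ) :
    JG s t r M = ∑ B : Finset (Fin p),
      ∑ k ∈ Fintype.piFinset (fun _ : Fin m => Finset.range M),
        (∏ j, Cc 2 1 M (yk 2 M (k j))) *
          ((∏ i ∈ Bᶜ, G i k) * ∏ i ∈ B, (DG (r i) M (inc s t i) k - G i k)) := by
  rw [Finset.sum_comm]
  unfold JG
  refine Finset.sum_congr rfl fun k _ => ?_
  rw [← Finset.mul_sum]
  congr 1
  have e : ∏ i, DG (r i) M (inc s t i) k =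
      ∏ i, ((DG (r i) M (inc s t i) k - G i k) + G i k) :=
    Finset.prod_congr rfl fun i _ => by ring
  rw [e, Finset.prod_add, Finset.powerset_univ]
  refine Finset.sum_congr rfl fun B _ => ?_
  rw [← Finset.compl_eq_univ_sdiff, mul_comm]

theorem JG_main (hc : CritG s t r y v) :
    ∃ C : ℝ, 0 < C ∧ ∃ D M0 : ℕ, ∀ M k1 k2 l1 l2 : ℕ, M0 ≤ M → Win 2 M k1 k2 l1 l2 →
    ‖JG s t r M - (-(4 * Real.pi * I * M ^ 2)) ^ p * ((M : ℂ) ^ m * MG s t r M
        (fun j => (y j).im) (fun i => (v i).im) ((k1 + bt 2) / M - 1 / 2)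
        ((k2 + 1 + bt 2) / M - 1 / 2) (rho 2 M l2))‖ ≤
      C * (M : ℝ) ^ D * Real.exp (M * ((VG s t r y v).re - 1 / 500)) := by
  obtain ⟨C0, hC0, D0, M0, h0⟩ := main_part hc
  have hB : ∀ B : Finset (Fin p), ∃ C : ℝ, 0 < C ∧ ∃ D M1 : ℕ, B.Nonempty →
      ∀ M k1 k2 l1 l2 : ℕ, M1 ≤ M → Win 2 M k1 k2 l1 l2 →
      ‖∑ k ∈ Fintype.piFinset (fun _ : Fin m => Finset.range M),
        (∏ j, Cc 2 1 M (yk 2 M (k j))) *
          ((∏ i ∈ Bᶜ, GD (r i) (v i).im M k1 k2 l2 (inc s t i) k) *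
            ∏ i ∈ B, (DG (r i) M (inc s t i) k -
              GD (r i) (v i).im M k1 k2 l2 (inc s t i) k))‖ ≤
      C * (M : ℝ) ^ D * Real.exp (M * ((VG s t r y v).re - 1 / 500)) := by
    intro B
    by_cases h : B.Nonempty
    · obtain ⟨C, hC, D, M1, h1⟩ := expand_term hc B h
      exact ⟨C, hC, D, M1, fun _ => h1⟩
    · exact ⟨1, one_pos, 0, 0, fun h' => absurd h' h⟩
  choose CB hCB DB MB hB' using hB
  refine ⟨C0 + ∑ B, CB B, ?_, D0 + ∑ B, DB B, M0 + (∑ B, MB B) + 1,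
    fun M k1 k2 l1 l2 hM hwin => ?_⟩
  · have : 0 ≤ ∑ B, CB B := Finset.sum_nonneg fun B _ => (hCB B).le
    linarith
  have hM1 : (1 : ℝ) ≤ M := by exact_mod_cast (by omega : 1 ≤ M)
  have hM00 : (0 : ℝ) < M := by linarith
  set E : ℝ := Real.exp (M * ((VG s t r y v).re - 1 / 500)) with hE
  have hE0 : 0 < E := Real.exp_pos _
  have hDB : ∀ B, DB B ≤ ∑ B, DB B := fun B =>
    Finset.single_le_sum (f := DB) (fun _ _ => Nat.zero_le _) (Finset.mem_univ B)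
  have hMB : ∀ B, MB B ≤ ∑ B, MB B := fun B =>
    Finset.single_le_sum (f := MB) (fun _ _ => Nat.zero_le _) (Finset.mem_univ B)
  set T : Finset (Fin p) → ℂ := fun B =>
    ∑ k ∈ Fintype.piFinset (fun _ : Fin m => Finset.range M),
        (∏ j, Cc 2 1 M (yk 2 M (k j))) *
          ((∏ i ∈ Bᶜ, GD (r i) (v i).im M k1 k2 l2 (inc s t i) k) *
            ∏ i ∈ B, (DG (r i) M (inc s t i) k -
              GD (r i) (v i).im M k1 k2 l2 (inc s t i) k)) with hT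
  have hexp : JG s t r M = ∑ B, T B :=
    JGmain_expand s t r M (fun i k => GD (r i) (v i).im M k1 k2 l2 (inc s t i) k)
  have hT0 : T ∅ = ∑ k ∈ Fintype.piFinset (fun _ : Fin m => Finset.range M),
        (∏ j, Cc 2 1 M (yk 2 M (k j))) *
          ∏ i, GD (r i) (v i).im M k1 k2 l2 (inc s t i) k := by
    simp only [hT, Finset.prod_empty, mul_one, Finset.compl_empty]
  have h0' := h0 M k1 k2 l1 l2 (by omega) hwin
  rw [← hT0, ← hE] at h0'
  have hsplit : ∑ B, T B = T ∅ + ∑ B ∈ Finset.univ.erase ∅, T B :=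
    (Finset.add_sum_erase _ _ (Finset.mem_univ _)).symm
  rw [hexp, hsplit, add_sub_right_comm]
  have hrest : ‖∑ B ∈ Finset.univ.erase ∅, T B‖ ≤
      (∑ B, CB B) * (M : ℝ) ^ (D0 + ∑ B, DB B) * E := by
    refine (norm_sum_le _ _).trans ?_
    have e1 : ∀ B ∈ Finset.univ.erase (∅ : Finset (Fin p)),
        ‖T B‖ ≤ CB B * (M : ℝ) ^ (D0 + ∑ B, DB B) * E := by
      intro B hBe
      have hne : B.Nonempty := Finset.nonempty_iff_ne_empty.2 (Finset.ne_of_mem_erase hBe)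
      refine (hB' B hne M k1 k2 l1 l2 (by have := hMB B; omega) hwin).trans ?_
      refine mul_le_mul_of_nonneg_right ?_ hE0.le
      refine mul_le_mul_of_nonneg_left ?_ (hCB B).le
      exact pow_le_pow_right₀ hM1 (by have := hDB B; omega)
    refine (Finset.sum_le_sum e1).trans ?_
    rw [← Finset.sum_mul, ← Finset.sum_mul]
    refine mul_le_mul_of_nonneg_right (mul_le_mul_of_nonneg_right ?_ (by positivity)) hE0.le
    exact Finset.sum_le_sum_of_subset_of_nonneg (Finset.erase_subset _ _)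
      fun B _ _ => (hCB B).le
  have hmain : C0 * (M : ℝ) ^ D0 * E ≤ C0 * (M : ℝ) ^ (D0 + ∑ B, DB B) * E := by
    refine mul_le_mul_of_nonneg_right ?_ hE0.le
    refine mul_le_mul_of_nonneg_left ?_ hC0.le
    exact pow_le_pow_right₀ hM1 (by omega)
  calc _ ≤ C0 * (M : ℝ) ^ (D0 + ∑ B, DB B) * E +
        (∑ B, CB B) * (M : ℝ) ^ (D0 + ∑ B, DB B) * E :=
        (norm_add_le _ _).trans (add_le_add (h0'.trans hmain) hrest)
    _ = _ := by ring

end Pool.Agent.H63.VC7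

end

section

/-! # The asymptotics of the invariant -/

namespace Pool.Agent.H63.VC7

open Pool.Agent.H63.VC
open Pool.Agent.H63.VC3 Pool.Agent.H63.VC4 Pool.Agent.H63.VC6 Complex Filter Topology

variable {m p : ℕ}

/-- The product of the phases. -/
theorem JGlim_cG (a : Fin p → ℤ) (M : ℕ) :
    ∏ i, cG (a i) M / (4 * Real.pi) =
      exp ((∑ i, (a i : ℂ)) * (Real.pi * I / 2 - Real.pi * I * M / 4 - Real.pi * I / (4 * M))) /
        (4 * Real.pi) ^ p := by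
  rw [Finset.prod_div_distrib, Finset.prod_const, Finset.card_univ, Fintype.card_fin,
    Finset.sum_mul, Complex.exp_sum]
  rfl

/-- The phase at infinity. -/
theorem JGlim_c (A : ℂ) :
    Tendsto (fun M : ℕ => exp (-(A * (Real.pi * I / (4 * M))))) atTop (𝓝 1) := by
  have h1 : Tendsto (fun M : ℕ => ((M : ℂ))⁻¹) atTop (𝓝 0) :=
    tendsto_inv_atTop_nhds_zero_nat (𝕜 := ℂ)
  have h2 : Tendsto (fun M : ℕ => -(A * (Real.pi * I / 4)) * ((M : ℂ))⁻¹) atTop (𝓝 0) := by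
    simpa using h1.const_mul (-(A * (Real.pi * I / 4)))
  have h3 := (Complex.continuous_exp.tendsto 0).comp h2
  rw [exp_zero] at h3
  refine h3.congr fun M => ?_
  simp only [Function.comp_apply]
  congr 1
  rw [mul_comm (4 : ℂ) (M : ℂ), ← div_div, div_right_comm, div_eq_mul_inv _ (M : ℂ)]
  ring

theorem JGlim_exp (M p : ℕ) : exp (M * (Real.pi * I * p)) = ((-1 : ℂ) ^ M) ^ p := by
  rw [← pow_mul, ← Complex.exp_pi_mul_I, ← Complex.exp_nat_mul]
  congr 1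
  push_cast
  ring

theorem JGlim_sq (M p : ℕ) : (((-1 : ℂ) ^ M) ^ p) * (((-1 : ℂ) ^ M) ^ p) = 1 := by
  rw [← mul_pow, ← mul_pow]
  simp

theorem JGlim_pow (m p M : ℕ) (hM : 0 < M) :
    (M : ℂ) ^ (2 * p) * (M : ℂ) ^ m / (M : ℂ) ^ (2 * m) /
      ((((M : ℝ) ^ (3 / 2 * ((p : ℝ) - m)) : ℝ) : ℂ)) =
    (((M : ℝ) ^ (((m : ℝ) + p) / 2) : ℝ) : ℂ) := by
  have hMp : (0 : ℝ) < M := by exact_mod_cast hM
  have h : (M : ℝ) ^ (2 * p) * (M : ℝ) ^ m / (M : ℝ) ^ (2 * m) /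
      (M : ℝ) ^ (3 / 2 * ((p : ℝ) - m)) = (M : ℝ) ^ (((m : ℝ) + p) / 2) := by
    rw [← Real.rpow_natCast (M : ℝ) (2 * p), ← Real.rpow_natCast (M : ℝ) m,
      ← Real.rpow_natCast (M : ℝ) (2 * m), ← Real.rpow_add hMp, ← Real.rpow_sub hMp,
      ← Real.rpow_sub hMp]
    congr 1
    push_cast
    ring
  have h' := congrArg (fun x : ℝ => (x : ℂ)) h
  push_cast at h' ⊢
  exact h'

theorem JGlim_err (C : ℝ) (D : ℕ) :
    Tendsto (fun M : ℕ => C * (M : ℝ) ^ D * Real.exp (-(M / 500))) atTop (𝓝 0) := by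
  have h1 := Real.tendsto_pow_mul_exp_neg_atTop_nhds_zero D
  have h2 : Tendsto (fun M : ℕ => (M : ℝ) / 500) atTop atTop :=
    tendsto_natCast_atTop_atTop.atTop_div_const (by norm_num)
  have h3 := (h1.comp h2).const_mul (C * 500 ^ D)
  rw [mul_zero] at h3
  refine h3.congr fun M => ?_
  simp only [Function.comp_apply]
  rw [div_pow]
  field_simp

theorem JG_lim (s t : Fin m → Fin p) (a : Fin p → ℤ) (y : Fin m → ℂ) (v : Fin p → ℂ)
    (hc : CritG s t (fun i => (a i : ℝ) / 2) y v) :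
    ∃ κ : ℂ, κ ≠ 0 ∧ Tendsto (fun M : ℕ =>
      ((∏ i, cG (a i) M / (4 * Real.pi)) / (M : ℂ) ^ (2 * m) *
        JG s t (fun i => (a i : ℝ) / 2) M) /
      ((((M : ℝ) ^ (3 / 2 * ((p : ℝ) - m)) : ℝ) : ℂ) *
        exp (M * (VG s t (fun i => (a i : ℝ) / 2) y v - Real.pi * I / 4 * (∑ i, (a i : ℂ)) +
          Real.pi * I * p)))) atTop (𝓝 κ) := by
  obtain ⟨k1, k2, l1, l2, hwin⟩ := win_exists 2 le_rfl
  obtain ⟨K, hK, hKlim⟩ := main_limG s t (fun i => (a i : ℝ) / 2) y v hc k1 k2 l1 l2 hwin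
  obtain ⟨C, hC, D, M0, hmain⟩ := JG_main hc
  obtain ⟨mi, hmi⟩ : ∃ mi : ℕ → ℂ, ∀ M, mi M = MG s t (fun i => (a i : ℝ) / 2) M
      (fun j => (y j).im) (fun i => (v i).im) ((k1 M + bt 2) / M - 1 / 2)
      ((k2 M + 1 + bt 2) / M - 1 / 2) (rho 2 M (l2 M)) := ⟨_, fun _ => rfl⟩
  simp only [← hmi] at hKlim
  obtain ⟨J, hJ⟩ : ∃ J : ℕ → ℂ, ∀ M, J M = JG s t (fun i => (a i : ℝ) / 2) M :=
    ⟨_, fun _ => rfl⟩
  obtain ⟨V, hV⟩ : ∃ V, V = VG s t (fun i => (a i : ℝ) / 2) y v := ⟨_, rfl⟩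
  have herr : ∀ᶠ M : ℕ in atTop, ‖J M - (-(4 * Real.pi * I * M ^ 2)) ^ p *
      ((M : ℂ) ^ m * mi M)‖ ≤ C * (M : ℝ) ^ D * Real.exp (M * (V.re - 1 / 500)) := by
    filter_upwards [hwin, eventually_ge_atTop M0] with M hw hM0
    rw [hJ, hmi, hV]
    exact hmain M (k1 M) (k2 M) (l1 M) (l2 M) hM0 hw
  rw [← hV] at hKlim
  simp only [← hJ, ← hV, JGlim_cG]
  clear hmi hmain hJ hV
  obtain ⟨R, hR⟩ : ∃ R : ℝ, R = ∑ i, (a i : ℝ) := ⟨_, rfl⟩
  have hRC : ∑ i, (a i : ℂ) = (R : ℂ) := by rw [hR]; push_cast; rfl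
  rw [hRC]
  clear hR hRC
  -- the prefactor
  obtain ⟨P, hP⟩ : ∃ P : ℕ → ℂ, ∀ M, P M =
      exp ((R : ℂ) * (Real.pi * I / 2 - Real.pi * I * M / 4 - Real.pi * I / (4 * M))) /
        (4 * Real.pi) ^ p / (M : ℂ) ^ (2 * m) / ((((M : ℝ) ^ (3 / 2 * ((p : ℝ) - m)) : ℝ) : ℂ) *
        exp (M * (V - Real.pi * I / 4 * R + Real.pi * I * p))) := ⟨_, fun _ => rfl⟩
  have h4 : (4 * Real.pi : ℂ) ≠ 0 := by
    have : (Real.pi : ℂ) ≠ 0 := by exact_mod_cast Real.pi_ne_zero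
    exact mul_ne_zero (by norm_num) this
  refine ⟨exp (R * (Real.pi * I / 2)) * I ^ p * (1 * K), mul_ne_zero
    (mul_ne_zero (exp_ne_zero _) (pow_ne_zero _ I_ne_zero)) (by rwa [one_mul]), ?_⟩
  have hmainlim := ((JGlim_c R).mul hKlim).const_mul (exp (R * (Real.pi * I / 2)) * I ^ p)
  -- the main part
  have hmainP : ∀ M : ℕ, 0 < M → P M * ((-(4 * Real.pi * I * M ^ 2)) ^ p *
      ((M : ℂ) ^ m * mi M)) = exp (R * (Real.pi * I / 2)) * I ^ p *
      (exp (-(R * (Real.pi * I / (4 * M)))) * ((((M : ℝ) ^ (((m : ℝ) + p) / 2) : ℝ) : ℂ) *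
      ((-1 : ℂ) ^ (M + 1)) ^ p * exp (-M * V) * mi M)) := by
    intro M hM
    rw [hP, ← JGlim_pow m p M hM]
    have e1 : exp ((R : ℂ) * (Real.pi * I / 2 - Real.pi * I * M / 4 - Real.pi * I / (4 * M))) =
        exp (R * (Real.pi * I / 2)) * exp (-(R * (Real.pi * I / (4 * M)))) *
        exp (-(M * (Real.pi * I / 4 * R))) := by
      rw [← exp_add, ← exp_add]
      congr 1
      ring
    have e2 : (exp (M * (V - Real.pi * I / 4 * R + Real.pi * I * p)))⁻¹ =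
        exp (-M * V) * exp (M * (Real.pi * I / 4 * R)) * ((-1 : ℂ) ^ M) ^ p := by
      have h := JGlim_exp M p
      have h2 := JGlim_sq M p
      have h3 : exp (M * (V - Real.pi * I / 4 * R + Real.pi * I * p)) =
          exp (M * V - M * (Real.pi * I / 4 * R)) * ((-1 : ℂ) ^ M) ^ p := by
        rw [← h, ← exp_add]
        congr 1
        ring
      rw [h3, mul_inv, ← exp_neg]
      have h5 : (((-1 : ℂ) ^ M) ^ p)⁻¹ = ((-1 : ℂ) ^ M) ^ p := by
        rw [inv_eq_of_mul_eq_one_left h2]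
      rw [h5, ← exp_add]
      congr 2
      ring
    have e3 : (-(4 * Real.pi * I * M ^ 2) : ℂ) ^ p =
        (4 * Real.pi) ^ p * (-I) ^ p * (M : ℂ) ^ (2 * p) := by
      rw [pow_mul, ← mul_pow, ← mul_pow]
      congr 1
      ring
    have e4 : (-I : ℂ) ^ p * ((-1 : ℂ) ^ M) ^ p = I ^ p * ((-1 : ℂ) ^ (M + 1)) ^ p := by
      rw [← mul_pow, ← mul_pow]
      congr 1
      ring
    have e5 : exp (-(M * (Real.pi * I / 4 * R))) * exp (M * (Real.pi * I / 4 * R)) = 1 := by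
      rw [← exp_add, neg_add_cancel, exp_zero]
    have h6 : ((4 * Real.pi : ℂ) ^ p)⁻¹ * (4 * Real.pi : ℂ) ^ p = 1 :=
      inv_mul_cancel₀ (pow_ne_zero _ h4)
    have e6 : exp ((R : ℂ) * (Real.pi * I / 2 - Real.pi * I * M / 4 - Real.pi * I / (4 * M))) /
        (4 * Real.pi) ^ p / (M : ℂ) ^ (2 * m) / ((((M : ℝ) ^ (3 / 2 * ((p : ℝ) - m)) : ℝ) : ℂ) *
        exp (M * (V - Real.pi * I / 4 * R + Real.pi * I * p))) =
        (exp (R * (Real.pi * I / 2)) * exp (-(R * (Real.pi * I / (4 * M)))) *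
        exp (-(M * (Real.pi * I / 4 * R)))) * ((4 * Real.pi : ℂ) ^ p)⁻¹ * ((M : ℂ) ^ (2 * m))⁻¹ *
        (((((M : ℝ) ^ (3 / 2 * ((p : ℝ) - m)) : ℝ) : ℂ))⁻¹ *
        (exp (-M * V) * exp (M * (Real.pi * I / 4 * R)) * ((-1 : ℂ) ^ M) ^ p)) := by
      rw [← e1, ← e2, ← mul_inv]
      simp only [div_eq_mul_inv]
    have e7 : (M : ℂ) ^ (2 * p) * (M : ℂ) ^ m / (M : ℂ) ^ (2 * m) /
      ((((M : ℝ) ^ (3 / 2 * ((p : ℝ) - m)) : ℝ) : ℂ)) = (M : ℂ) ^ (2 * p) * (M : ℂ) ^ m *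
      ((M : ℂ) ^ (2 * m))⁻¹ * ((((M : ℝ) ^ (3 / 2 * ((p : ℝ) - m)) : ℝ) : ℂ))⁻¹ := by
      rw [div_eq_mul_inv, div_eq_mul_inv]
    rw [e6, e3, e7]
    clear e6 e7 e3 e2 e1
    revert e4 e5 h6
    generalize exp ((R : ℂ) * (Real.pi * I / 2)) = x1
    generalize exp (-((R : ℂ) * (Real.pi * I / (4 * M)))) = x2
    generalize exp (-((M : ℂ) * (Real.pi * I / 4 * R))) = x3
    generalize exp ((M : ℂ) * (Real.pi * I / 4 * R)) = x4
    generalize exp (-(M : ℂ) * V) = x5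
    generalize ((4 * Real.pi : ℂ) ^ p)⁻¹ = x6
    generalize (4 * Real.pi : ℂ) ^ p = x7
    generalize ((M : ℂ) ^ (2 * m))⁻¹ = x8
    generalize ((((M : ℝ) ^ (3 / 2 * ((p : ℝ) - m)) : ℝ) : ℂ))⁻¹ = x9
    generalize ((-1 : ℂ) ^ M) ^ p = x10
    generalize ((-1 : ℂ) ^ (M + 1)) ^ p = x11
    generalize (-I : ℂ) ^ p = x12
    generalize (I : ℂ) ^ p = x13
    generalize (M : ℂ) ^ (2 * p) = x14
    generalize (M : ℂ) ^ m = x15
    intro e4 e5 h6
    linear_combination (x1 * x2 * x5 * x8 * x9 * x14 * x15 * mi M) *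
      (x12 * x10 * x3 * x4 * h6 + x12 * x10 * e5 + e4)
  -- the error
  have hcomp : ∀ᶠ M : ℕ in atTop, ‖P M * J M - exp (R * (Real.pi * I / 2)) * I ^ p *
      (exp (-(R * (Real.pi * I / (4 * M)))) * ((((M : ℝ) ^ (((m : ℝ) + p) / 2) : ℝ) : ℂ) *
      ((-1 : ℂ) ^ (M + 1)) ^ p * exp (-M * V) * mi M))‖ ≤
      C * (M : ℝ) ^ (D + 2 * m) * Real.exp (-(M / 500)) := by
    filter_upwards [herr, eventually_gt_atTop 0] with M h1 hM
    have hMr : (1 : ℝ) ≤ M := by exact_mod_cast hM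
    have hMp : (0 : ℝ) < M := by linarith
    rw [← hmainP M hM, ← mul_sub, norm_mul]
    have hPn : ‖P M‖ ≤ (M : ℝ) ^ (2 * m) * Real.exp (-(M * V.re)) := by
      rw [hP, norm_div, norm_div, norm_div, norm_mul]
      have n1 : ‖exp ((R : ℂ) * (Real.pi * I / 2 - Real.pi * I * M / 4 -
          Real.pi * I / (4 * M)))‖ = 1 := by
        have : ((R : ℂ) * (Real.pi * I / 2 - Real.pi * I * M / 4 - Real.pi * I / (4 * M))) =
          ((R * (Real.pi / 2 - Real.pi * M / 4 - Real.pi / (4 * M)) : ℝ) : ℂ) * I := by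
          push_cast
          ring
        rw [this, Complex.norm_exp_ofReal_mul_I]
      have n2 : (1 : ℝ) ≤ ‖(4 * Real.pi : ℂ) ^ p‖ := by
        rw [norm_pow]
        apply one_le_pow₀
        have : (4 * Real.pi : ℂ) = ((4 * Real.pi : ℝ) : ℂ) := by push_cast; ring
        rw [this, Complex.norm_real, Real.norm_of_nonneg (by positivity)]
        have := Real.pi_gt_three
        linarith
      have n3 : ‖(M : ℂ) ^ (2 * m)‖ = (M : ℝ) ^ (2 * m) := by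
        rw [norm_pow, Complex.norm_natCast]
      have n4 : ‖(((M : ℝ) ^ (3 / 2 * ((p : ℝ) - m)) : ℝ) : ℂ)‖ =
          (M : ℝ) ^ (3 / 2 * ((p : ℝ) - m)) := by
        rw [Complex.norm_real, Real.norm_of_nonneg (by positivity)]
      have n5 : ‖exp (M * (V - Real.pi * I / 4 * R + Real.pi * I * p))‖ =
          Real.exp (M * V.re) := by
        rw [Complex.norm_exp]
        congr 1
        have : (M * (V - Real.pi * I / 4 * R + Real.pi * I * p) : ℂ) =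
          ((M : ℝ) : ℂ) * V + ((M * (Real.pi * p - Real.pi / 4 * R) : ℝ) : ℂ) * I := by
          push_cast
          ring
        rw [this, Complex.add_re, Complex.re_ofReal_mul, Complex.re_ofReal_mul, Complex.I_re]
        ring
      rw [n1, n3, n4, n5]
      have n6 : ((M : ℝ) ^ (3 / 2 * ((p : ℝ) - m)))⁻¹ ≤ (M : ℝ) ^ (2 * m) *
          (M : ℝ) ^ (2 * m) := by
        rw [← Real.rpow_neg hMp.le, ← pow_add, ← Real.rpow_natCast]
        apply Real.rpow_le_rpow_of_exponent_le hMr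
        have h1 : (0 : ℝ) ≤ p := Nat.cast_nonneg p
        have h2 : (0 : ℝ) ≤ m := Nat.cast_nonneg m
        push_cast
        linarith
      have n7 : (1 : ℝ) / ‖(4 * Real.pi : ℂ) ^ p‖ ≤ 1 := by
        rw [div_le_one (by linarith)]
        exact n2
      have hMm : (0 : ℝ) < (M : ℝ) ^ (2 * m) := by positivity
      calc 1 / ‖(4 * Real.pi : ℂ) ^ p‖ / (M : ℝ) ^ (2 * m) /
            ((M : ℝ) ^ (3 / 2 * ((p : ℝ) - m)) * Real.exp (M * V.re))
          = 1 / ‖(4 * Real.pi : ℂ) ^ p‖ * (((M : ℝ) ^ (2 * m))⁻¹ *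
            ((M : ℝ) ^ (3 / 2 * ((p : ℝ) - m)))⁻¹ * Real.exp (-(M * V.re))) := by
              rw [Real.exp_neg, div_div, div_eq_mul_inv, mul_inv, mul_inv]
              ring
        _ ≤ 1 * (((M : ℝ) ^ (2 * m))⁻¹ * ((M : ℝ) ^ (2 * m) * (M : ℝ) ^ (2 * m)) *
            Real.exp (-(M * V.re))) := by
              gcongr
        _ = (M : ℝ) ^ (2 * m) * Real.exp (-(M * V.re)) := by
              field_simp
    calc ‖P M‖ * ‖J M - (-(4 * Real.pi * I * M ^ 2)) ^ p * ((M : ℂ) ^ m * mi M)‖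
        ≤ ((M : ℝ) ^ (2 * m) * Real.exp (-(M * V.re))) *
          (C * (M : ℝ) ^ D * Real.exp (M * (V.re - 1 / 500))) :=
          mul_le_mul hPn h1 (norm_nonneg _) (by positivity)
      _ = C * (M : ℝ) ^ (D + 2 * m) * (Real.exp (-(M * V.re)) *
          Real.exp (M * (V.re - 1 / 500))) := by
          rw [pow_add]
          ring
      _ = C * (M : ℝ) ^ (D + 2 * m) * Real.exp (-(M / 500)) := by
          rw [← Real.exp_add]
          congr 2
          ring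
  have hdiff := squeeze_zero_norm' hcomp (JGlim_err C (D + 2 * m))
  have hsum := hdiff.add hmainlim
  rw [zero_add] at hsum
  refine hsum.congr fun M => ?_
  rw [sub_add_cancel, hP, mul_comm _ (J M), mul_div_assoc']
  congr 1
  ring

end Pool.Agent.H63.VC7

end
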