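import Pool.Agent.H94.PA.M07
import Pool.Agent.H94.PA.M20
import Pool.Agent.H94.PA.M29

/-! The parts of this file: H63.VC7.Final7, H63.VC10.Fin10. -/

section

/-! # The complexified volume conjecture for arborescent links with many crossings -/

namespace Pool.Agent.H63.VC7

open Pool.Agent.H63.VC
open Pool.Agent.H63.VC3 Pool.Agent.H63.VC4 Pool.Agent.H63.VC5 Pool.Agent.H63.VC6 Complex Filter
open Topology

variable {m p : ℕ}

/-- The result for a critical point. -/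
theorem final_crit (s t : Fin m → Fin p) (hst : ∀ j, s j ≠ t j) (a : Fin p → ℤ) (y : Fin m → ℂ)
    (v : Fin p → ℂ) (hc : CritG s t (fun i => (a i : ℝ) / 2) y v) :
    ∃ V C : ℝ, Hyp.IsVolume s t a V ∧
      (∃ Z : ℂ, Hyp.IsComplexVolume s t a Z ∧
        ∃ k : ℤ, Z = I * (V + C * I) + k * (Real.pi : ℂ) ^ 2) ∧
      ∃ J : ℕ → ℂ,
        (∀ N : ℕ, Tendsto (fun q => jones s t a N q)
          (𝓝[≠] exp (Real.pi * I / ((N + 1 : ℕ) : ℂ))) (𝓝 (J N))) ∧
        Tendsto (fun N : ℕ => 2 * (Real.pi : ℂ) * log (J N) / (N + 1)) atTop (𝓝 (V : ℂ)) ∧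
        ∃ κ : ℂ, κ ≠ 0 ∧ Tendsto (fun N : ℕ => J N /
          ((((N : ℝ) + (1 : ℕ)) ^ (3 / 2 * ((p : ℝ) - m)) : ℝ) *
            exp ((N + (1 : ℕ)) * (V + C * I) / (2 * Real.pi)))) atTop (𝓝 κ) := by
  obtain ⟨Z, hZ, nZ, hnZ⟩ := isComplexVolume_of_crit s t a y v hc
  have hV := isVolume_of_crit s t a y v hc
  obtain ⟨κ, hκ, hlim⟩ := JG_lim s t a y v hc
  set W : ℂ := VG s t (fun i => (a i : ℝ) / 2) y v with hW
  set σ : ℝ := ∑ i : Fin p, (a i : ℝ) with hσ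
  have e : W = (W.re : ℂ) + (W.im : ℂ) * I := (Complex.re_add_im _).symm
  have e2 : (∑ i : Fin p, (a i : ℂ)) = (σ : ℂ) := by rw [hσ]; push_cast; rfl
  have hpi : (Real.pi : ℂ) ≠ 0 := by exact_mod_cast Real.pi_ne_zero
  refine ⟨2 * Real.pi * W.re, 2 * Real.pi * W.im - Real.pi ^ 2 / 2 * σ + 2 * Real.pi ^ 2 * p, hV,
    ⟨Z, hZ, nZ + 2 * p, ?_⟩, fun N => (∏ i, cG (a i) (N + 1) / (4 * Real.pi)) /
      ((N + 1 : ℕ) : ℂ) ^ (2 * m) * JG s t (fun i => (a i : ℝ) / 2) (N + 1),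
    fun N => root_lim s t hst a N, ?_⟩
  · rw [hnZ, e2]
    conv_lhs => rw [e]
    push_cast
    linear_combination ((Real.pi : ℂ) ^ 2 / 2 * σ - 2 * (Real.pi : ℂ) ^ 2 * p) * Complex.I_sq
  have hasy : Tendsto (fun N : ℕ => ((∏ i, cG (a i) (N + 1) / (4 * Real.pi)) /
      ((N + 1 : ℕ) : ℂ) ^ (2 * m) * JG s t (fun i => (a i : ℝ) / 2) (N + 1)) /
        ((((N : ℝ) + (1 : ℕ)) ^ (3 / 2 * ((p : ℝ) - m)) : ℝ) *
          exp ((N + (1 : ℕ)) * ((2 * Real.pi * W.re : ℝ) +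
            (2 * Real.pi * W.im - Real.pi ^ 2 / 2 * σ + 2 * Real.pi ^ 2 * p : ℝ) * I) /
              (2 * Real.pi)))) atTop (𝓝 κ) := by
    have h2 := hlim.comp (tendsto_add_atTop_nat 1)
    refine h2.congr' ?_
    filter_upwards with N
    simp only [Function.comp]
    congr 2
    · push_cast
      rfl
    · congr 1
      rw [e2]
      push_cast
      conv_lhs => rw [e]
      field_simp
      ring
  refine ⟨?_, κ, hκ, hasy⟩
  have hnorm : Tendsto (fun N : ℕ => ‖((∏ i, cG (a i) (N + 1) / (4 * Real.pi)) /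
      ((N + 1 : ℕ) : ℂ) ^ (2 * m) * JG s t (fun i => (a i : ℝ) / 2) (N + 1))‖ /
        (((N + 1 : ℕ) : ℝ) ^ (3 / 2 * ((p : ℝ) - m)) *
        Real.exp ((N + 1 : ℕ) * W.re))) atTop (𝓝 ‖κ‖) := by
    refine (hasy.norm).congr fun N => ?_
    rw [norm_div]
    congr 1
    rw [norm_mul, Complex.norm_exp, Complex.norm_real, Real.norm_eq_abs,
      abs_of_nonneg (by positivity)]
    congr 1
    · push_cast
      rfl
    · congr 1
      have e : ((N : ℂ) + (1 : ℕ)) * ((2 * Real.pi * W.re : ℝ) +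
            (2 * Real.pi * W.im - Real.pi ^ 2 / 2 * σ + 2 * Real.pi ^ 2 * p : ℝ) * I) /
              (2 * Real.pi) =
          (((N : ℝ) + 1) * W.re : ℝ) + (((N : ℝ) + 1) *
            (W.im - Real.pi * σ / 4 + Real.pi * p) : ℝ) * I := by
        push_cast
        field_simp
        ring
      rw [e]
      simp
  have h := final_log (J := fun N => (∏ i, cG (a i) (N + 1) / (4 * Real.pi)) /
      ((N + 1 : ℕ) : ℂ) ^ (2 * m) * JG s t (fun i => (a i : ℝ) / 2) (N + 1)) (a := 1) le_rfl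
      (3 / 2 * ((p : ℝ) - m)) W.re ‖κ‖ (norm_pos_iff.2 hκ) hnorm
  exact h

/-- The result for trees. -/
theorem final7 (m : ℕ) (hm : 1 ≤ m) (par : Fin m → Fin (m + 1))
    (hpar : ∀ j, par j ≤ j.castSucc) (a : Fin (m + 1) → ℤ)
    (h1 : ∀ i, 20 * ((inc par Fin.succ i).card : ℤ) ≤ |a i|)
    (h2 : ∀ j, 40 * ((inc par Fin.succ (par j)).card : ℤ) ≤ a j.succ ^ 2 ∧
      40 * ((inc par Fin.succ j.succ).card : ℤ) ≤ a (par j) ^ 2) :
    ∃ V C : ℝ, Hyp.IsVolume par Fin.succ a V ∧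
      (∃ Z : ℂ, Hyp.IsComplexVolume par Fin.succ a Z ∧
        ∃ k : ℤ, Z = I * (V + C * I) + k * (Real.pi : ℂ) ^ 2) ∧
      ∃ J : ℕ → ℂ,
        (∀ N : ℕ, Tendsto (fun q => jones par Fin.succ a N q)
          (𝓝[≠] exp (Real.pi * I / ((N + 1 : ℕ) : ℂ))) (𝓝 (J N))) ∧
        (∃ L : ℕ → ℂ, (∀ᶠ N : ℕ in atTop, exp (L N) = J N) ∧
          Tendsto (fun N : ℕ => 2 * (Real.pi : ℂ) * L N / (N + 1)) atTop (𝓝 (V + C * I))) ∧
        Tendsto (fun N : ℕ => 2 * (Real.pi : ℂ) * log (J N) / (N + 1)) atTop (𝓝 (V : ℂ)) ∧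
        ∃ κ : ℂ, κ ≠ 0 ∧ Tendsto (fun N : ℕ => J N /
          ((((N : ℝ) + 1) ^ (3 / 2 : ℝ) : ℝ) *
            exp ((N + 1) * (V + C * I) / (2 * Real.pi)))) atTop (𝓝 κ) := by
  have hst : ∀ j, par j ≠ Fin.succ j := fun j => by
    have := hpar j
    exact ne_of_lt (lt_of_le_of_lt this (Fin.castSucc_lt_succ))
  have hne : ∀ i, (inc par Fin.succ i).Nonempty := by
    intro i
    induction i using Fin.cases with
    | zero =>
      refine ⟨⟨0, by omega⟩, ?_⟩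
      have h0 := hpar ⟨0, by omega⟩
      simp only [inc, Finset.mem_filter, Finset.mem_univ, true_and]
      left
      ext
      have : (par ⟨0, by omega⟩ : ℕ) ≤ 0 := h0
      simp only [Fin.val_zero]
      omega
    | succ i =>
      refine ⟨i, ?_⟩
      simp [inc]
  have hr : ∀ i, 10 * dg par Fin.succ i ≤ |(a i : ℝ) / 2| := by
    intro i
    have := h1 i
    have h' : (20 : ℝ) * ((inc par Fin.succ i).card : ℝ) ≤ |(a i : ℝ)| := by exact_mod_cast this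
    rw [abs_div, abs_two, dg]
    linarith
  have hn : ∀ j, 10 * dg par Fin.succ (par j) ≤ ((a (Fin.succ j) : ℝ) / 2) ^ 2 ∧
      10 * dg par Fin.succ (Fin.succ j) ≤ ((a (par j) : ℝ) / 2) ^ 2 := by
    intro j
    obtain ⟨h3, h4⟩ := h2 j
    have h3' : (40 : ℝ) * ((inc par Fin.succ (par j)).card : ℝ) ≤ (a j.succ : ℝ) ^ 2 := by
      exact_mod_cast h3
    have h4' : (40 : ℝ) * ((inc par Fin.succ j.succ).card : ℝ) ≤ (a (par j) : ℝ) ^ 2 := by
      exact_mod_cast h4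
    simp only [dg]
    constructor <;> nlinarith
  obtain ⟨y, v, hc⟩ := critG_exists par Fin.succ hst hne (fun i => (a i : ℝ) / 2) hr hn
  obtain ⟨V, C, hV, hZ, J, hJ, hlog, κ, hκ, hlim⟩ := final_crit par Fin.succ hst a y v hc
  have he : (3 / 2 * (((m + 1 : ℕ) : ℝ) - m)) = (3 / 2 : ℝ) := by push_cast; ring
  rw [he] at hlim
  refine ⟨V, C, hV, hZ, J, hJ, ?_, hlog, κ, hκ, ?_⟩
  · have h := log_lift J 1 le_rfl _ (V + C * I) κ hκ (by exact_mod_cast hlim)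
    exact h
  · have := hlim
    push_cast at this
    exact_mod_cast this

end Pool.Agent.H63.VC7

end

section

/-! # The complexified volume conjecture for the diagrams of arborescent links -/

namespace Pool.Agent.H63.VC10

open Pool.Agent.H63.VC7 Complex Filter Topology

theorem Fin10_br_ev (x : ℂ) (k : ℕ) (hk : 1 ≤ k) : ∀ᶠ q in 𝓝[≠] x, br q (k : ℤ) ≠ 0 := by
  have hfin : Set.Finite {q : ℂ | q = 0 ∨ q ^ (2 * k) = 1} := by
    have h1 : Set.Finite {q : ℂ | q ^ (2 * k) = 1} := by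
      have : {q : ℂ | q ^ (2 * k) = 1} ⊆ ((Polynomial.nthRoots (2 * k) (1 : ℂ)).toFinset : Set ℂ) := by
        intro q hq
        simp only [Finset.mem_coe, Multiset.mem_toFinset]
        exact (Polynomial.mem_nthRoots (by omega)).2 hq
      exact (Finset.finite_toSet _).subset this
    exact (Set.finite_singleton 0).union h1
  have h2 : ∀ᶠ q in 𝓝[≠] x, q ∉ {q : ℂ | q = 0 ∨ q ^ (2 * k) = 1} := by
    have h3 : (({q : ℂ | q = 0 ∨ q ^ (2 * k) = 1} \ {x})ᶜ) ∈ 𝓝 x :=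
      ((hfin.subset Set.sdiff_subset).isClosed.isOpen_compl).mem_nhds (by simp)
    filter_upwards [mem_nhdsWithin_of_mem_nhds h3, self_mem_nhdsWithin] with q h4 h5 h6
    exact h4 ⟨h6, h5⟩
  filter_upwards [h2] with q hq h0
  simp only [not_or] at hq
  apply hq.2
  unfold br at h0
  have h7 : q ^ (k : ℤ) = q ^ (-(k : ℤ)) := sub_eq_zero.1 h0
  have h8 : q ^ (k : ℤ) * q ^ (k : ℤ) = 1 := by
    nth_rw 2 [h7]
    rw [← zpow_add₀ hq.1]; simp
  rw [two_mul, pow_add]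
  exact_mod_cast h8

theorem Fin10_gen_ev (x : ℂ) (N : ℕ) : ∀ᶠ q in 𝓝[≠] x, Gen q N := by
  have h1 : ∀ᶠ q in 𝓝[≠] x, q ≠ 0 := by
    by_cases hx : x = 0
    · subst hx; exact self_mem_nhdsWithin
    · exact mem_nhdsWithin_of_mem_nhds (isOpen_ne.mem_nhds hx)
  have h2 : ∀ᶠ q in 𝓝[≠] x, ∀ k ∈ Finset.Icc 1 (2 * N + 2), br q ((k : ℕ) : ℤ) ≠ 0 := by
    rw [Filter.eventually_all_finset]
    intro k hk
    exact Fin10_br_ev x k (Finset.mem_Icc.1 hk).1
  filter_upwards [h1, h2] with q h3 h4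
  exact ⟨h3, fun k h5 h6 => h4 k (Finset.mem_Icc.2 ⟨h5, h6⟩)⟩

theorem final10 (m : ℕ) (hm : 1 ≤ m) (par : Fin m → Fin (m + 1))
    (hpar : ∀ j, par j ≤ j.castSucc) (a : Fin (m + 1) → ℤ)
    (h1 : ∀ i, 20 * ((inc par Fin.succ i).card : ℤ) ≤ |a i|)
    (h2 : ∀ j, 40 * ((inc par Fin.succ (par j)).card : ℤ) ≤ a j.succ ^ 2 ∧
      40 * ((inc par Fin.succ j.succ).card : ℤ) ≤ a (par j) ^ 2) (e : ℤ) :
    ∃ V C : ℝ, Hyp.IsVolume par Fin.succ a V ∧
      (∃ Z : ℂ, Hyp.IsComplexVolume par Fin.succ a Z ∧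
        ∃ k : ℤ, Z = I * (V + C * I) + k * (Real.pi : ℂ) ^ 2) ∧
      ∃ J : ℕ → ℂ,
        (∀ N : ℕ, Tendsto (fun q => coloredJones (diagram par a) e N q)
          (𝓝[≠] exp (Real.pi * I / ((N + 1 : ℕ) : ℂ))) (𝓝 (J N))) ∧
        (∃ L : ℕ → ℂ, (∀ᶠ N : ℕ in atTop, exp (L N) = J N) ∧
          Tendsto (fun N : ℕ => 2 * (Real.pi : ℂ) * L N / (N + 1)) atTop (𝓝 (V + C * I))) ∧
        Tendsto (fun N : ℕ => 2 * (Real.pi : ℂ) * log (J N) / (N + 1)) atTop (𝓝 (V : ℂ)) ∧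
        ∃ κ : ℂ, κ ≠ 0 ∧ Tendsto (fun N : ℕ => J N /
          ((((N : ℝ) + 1) ^ (3 / 2 : ℝ) : ℝ) *
            exp ((N + 1) * (V + C * I) / (2 * Real.pi)))) atTop (𝓝 κ) := by
  obtain ⟨V, C, hV, ⟨Z, hZ, k, hk⟩, J, hJ, -, -, κ, hκ, hasy⟩ := final7 m hm par hpar a h1 h2
  have hpi : (Real.pi : ℂ) ≠ 0 := by exact_mod_cast Real.pi_ne_zero
  -- the factor
  set s : ℤ := e + m + 1 with hs
  set c : ℕ → ℂ := fun N => (-1) ^ (N * (m + 1)) *
    exp (Real.pi * I / ((N + 1 : ℕ) : ℂ)) ^ ((N : ℤ) * (N + 2) * e) with hc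
  have hce : ∀ N : ℕ, c N = (-1) ^ (m + 1) * exp (-(Real.pi * I * e / (N + 1))) *
      exp ((N + 1) * (Real.pi * I * s)) := by
    intro N
    have hN : ((N : ℂ) + 1) ≠ 0 := by exact_mod_cast Nat.succ_ne_zero N
    have e1 : ((-1 : ℂ)) = exp (Real.pi * I) := by rw [exp_pi_mul_I]
    have e2 : ((-1 : ℂ)) ^ (m + 1) = exp (-((m + 1 : ℕ) * (Real.pi * I))) := by
      rw [exp_neg, exp_nat_mul, exp_pi_mul_I, ← inv_pow]; norm_num
    rw [hc]
    simp only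
    rw [e2, e1, ← exp_nat_mul, ← exp_int_mul, ← exp_add, ← exp_add, ← exp_add]
    congr 1
    rw [hs]
    push_cast
    field_simp
    ring
  have hasy' : Tendsto (fun N : ℕ => (c N * J N) / ((((N : ℝ) + (1 : ℕ)) ^ (3 / 2 : ℝ) : ℝ) *
      exp ((N + (1 : ℕ)) * (V + ((C + 2 * Real.pi ^ 2 * s : ℝ) : ℂ) * I) / (2 * Real.pi)))) atTop
      (𝓝 ((-1) ^ (m + 1) * κ)) := by
    have t1 : Tendsto (fun N : ℕ => exp (-(Real.pi * I * e / ((N : ℂ) + 1)))) atTop (𝓝 1) := by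
      have t2 : Tendsto (fun N : ℕ => 1 / ((N : ℂ) + 1)) atTop (𝓝 0) :=
        tendsto_one_div_add_atTop_nhds_zero_nat
      have t3 : Tendsto (fun N : ℕ => -(Real.pi * I * e * (1 / ((N : ℂ) + 1)))) atTop (𝓝 0) := by
        have := (t2.const_mul (Real.pi * I * e)).neg
        simpa using this
      have t4 := (continuous_exp.tendsto (0 : ℂ)).comp t3
      rw [exp_zero] at t4
      refine t4.congr fun N => ?_
      simp only [Function.comp]
      congr 2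
      ring
    have t5 := ((t1.const_mul ((-1) ^ (m + 1))).mul hasy)
    rw [mul_one] at t5
    refine t5.congr fun N => ?_
    rw [hce]
    have e3 : exp (((N : ℂ) + (1 : ℕ)) * (V + ((C + 2 * Real.pi ^ 2 * s : ℝ) : ℂ) * I) /
        (2 * Real.pi)) = exp ((N + 1) * (V + C * I) / (2 * Real.pi)) *
          exp ((N + 1) * (Real.pi * I * s)) := by
      rw [← exp_add]
      congr 1
      push_cast
      field_simp
      ring
    rw [e3]
    have e4 := exp_ne_zero (((N : ℂ) + 1) * (Real.pi * I * s))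
    have e5 := exp_ne_zero (((N : ℂ) + 1) * (V + C * I) / (2 * Real.pi))
    have e6 : (((((N : ℝ) + 1) ^ (3 / 2 : ℝ) : ℝ)) : ℂ) ≠ 0 := by
      have : (0 : ℝ) < ((N : ℝ) + 1) ^ (3 / 2 : ℝ) := by positivity
      exact_mod_cast this.ne'
    rw [Nat.cast_one]
    field_simp
  have hκ' : (-1 : ℂ) ^ (m + 1) * κ ≠ 0 := mul_ne_zero (pow_ne_zero _ (by norm_num)) hκ
  refine ⟨V, C + 2 * Real.pi ^ 2 * s, hV, ⟨Z, hZ, k + 2 * s, ?_⟩, fun N => c N * J N, ?_, ?_, ?_,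
    (-1) ^ (m + 1) * κ, hκ', ?_⟩
  · rw [hk]
    push_cast
    linear_combination (2 * (Real.pi : ℂ) ^ 2 * s) * (-Complex.I_sq)
  · intro N
    have hne : exp (Real.pi * I / ((N + 1 : ℕ) : ℂ)) ≠ 0 := exp_ne_zero _
    have u1 : Tendsto (fun q : ℂ => (-1) ^ (N * (m + 1)) * q ^ ((N : ℤ) * (N + 2) * e) *
        jones par Fin.succ a N q) (𝓝[≠] exp (Real.pi * I / ((N + 1 : ℕ) : ℂ)))
        (𝓝 (c N * J N)) := by
      refine Tendsto.mul (Tendsto.const_mul _ ?_) (hJ N)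
      exact (continuousAt_zpow₀ _ _ (Or.inl hne)).tendsto.mono_left nhdsWithin_le_nhds
    refine u1.congr' ?_
    filter_upwards [Fin10_gen_ev _ N] with q hq
    rw [coloredJones_diagram q N hq par hpar a e]
  · have := Pool.Agent.H63.VC6.log_lift (fun N => c N * J N) 1 le_rfl (3 / 2) _ _ hκ' hasy'
    exact this
  · have hn := hasy'.norm
    have hnorm : Tendsto (fun N : ℕ => ‖c N * J N‖ / (((N + 1 : ℕ) : ℝ) ^ (3 / 2 : ℝ) *
        Real.exp ((N + 1 : ℕ) * (V / (2 * Real.pi))))) atTop (𝓝 ‖(-1) ^ (m + 1) * κ‖) := by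
      refine hn.congr fun N => ?_
      rw [norm_div]
      congr 1
      rw [norm_mul, Complex.norm_exp, Complex.norm_real, Real.norm_eq_abs,
        abs_of_nonneg (by positivity)]
      congr 1
      · push_cast; rfl
      · congr 1
        have e7 : ((N : ℂ) + (1 : ℕ)) * (V + ((C + 2 * Real.pi ^ 2 * s : ℝ) : ℂ) * I) /
            (2 * Real.pi) = (((N : ℝ) + 1) * (V / (2 * Real.pi)) : ℝ) +
              (((N : ℝ) + 1) * ((C + 2 * Real.pi ^ 2 * s) / (2 * Real.pi)) : ℝ) * I := by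
          push_cast
          field_simp
        rw [e7, Complex.add_re, Complex.ofReal_re, Complex.re_ofReal_mul, Complex.I_re]
        push_cast
        ring
    have h := Pool.Agent.H63.VC3.final_log (fun N => c N * J N) 1 le_rfl (3 / 2)
      (V / (2 * Real.pi)) ‖(-1) ^ (m + 1) * κ‖ (norm_pos_iff.2 hκ') hnorm
    have e8 : (((2 * Real.pi * (V / (2 * Real.pi)) : ℝ)) : ℂ) = V := by
      push_cast
      field_simp
    rw [e8] at h
    exact h
  · refine hasy'.congr fun N => ?_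
    rw [Nat.cast_one, Nat.cast_one]

end Pool.Agent.H63.VC10

end
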