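import Pool.Agent.H94.PA.H63.VC7.ExpandG
import Pool.Agent.H94.PA.H63.VC8.MainPart8
import Pool.Agent.H94.PA.H63.VC8.RegG8
import Pool.Agent.H94.PA.M35

/-! The parts of this file: H63.VC8.ExpandG8, H63.VC8.JGmain8. -/

section

/-! # The error terms -/

namespace Pool.Agent.H63.VC8

open Pool.Agent.H63.VC
open Pool.Agent.H63.VC3 Pool.Agent.H63.VC4 Pool.Agent.H63.VC6 Pool.Agent.H63.VC7 Complex

variable {m p : ℕ}
  {s t : Fin m → Fin p} {r : Fin p → ℝ} {y : Fin m → ℂ} {v : Fin p → ℂ}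

theorem ExpandG8_NT (r : ℝ) (n M : ℕ) (A : Finset (Fin m)) (k k' : Fin m → ℕ)
    (h : ∀ j ∈ A, k j = k' j) : NT8 r n M A k = NT8 r n M A k' := by
  funext v
  unfold NT8
  congr 1
  exact Finset.prod_congr rfl fun j hj => by rw [h j hj]

theorem ExpandG8_DG (r : ℝ) (n M : ℕ) (A : Finset (Fin m)) (k k' : Fin m → ℕ)
    (h : ∀ j ∈ A, k j = k' j) : DG8 r n M A k = DG8 r n M A k' := by
  unfold DG8
  rw [ExpandG8_NT r n M A k k' h]

theorem ExpandG8_KG (r : ℝ) (n M : ℕ) (A : Finset (Fin m)) (y y' : Fin m → ℂ)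
    (h : ∀ j ∈ A, y j = y' j) : KG8 r n M A y = KG8 r n M A y' := by
  funext v
  unfold KG8
  congr 1
  exact Finset.prod_congr rfl fun j hj => by rw [h j hj]

theorem ExpandG8_GD (r Y : ℝ) (n M k1 k2 l2 : ℕ) (A : Finset (Fin m)) (k k' : Fin m → ℕ)
    (h : ∀ j ∈ A, k j = k' j) : GD8 r Y n M k1 k2 l2 A k = GD8 r Y n M k1 k2 l2 A k' := by
  unfold GD8
  have e : (∀ j ∈ A, k1 ≤ k j ∧ k j ≤ k2) ↔ (∀ j ∈ A, k1 ≤ k' j ∧ k' j ≤ k2) := by
    constructor
    · intro H j hj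
      rw [← h j hj]; exact H j hj
    · intro H j hj
      rw [h j hj]; exact H j hj
  have e2 : FG8 r n M A (fun j => ((yk n M (k j) : ℝ) : ℂ)) (rho n M l2) Y =
      FG8 r n M A (fun j => ((yk n M (k' j) : ℝ) : ℂ)) (rho n M l2) Y := by
    unfold FG8
    rw [ExpandG8_KG r n M A (fun j => ((yk n M (k j) : ℝ) : ℂ)) (fun j => ((yk n M (k' j) : ℝ) : ℂ))
      (fun j hj => by rw [h j hj])]
  rw [e2]
  by_cases hh : ∀ j ∈ A, k1 ≤ k j ∧ k j ≤ k2
  · rw [if_pos hh, if_pos (e.mp hh)]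
  · rw [if_neg hh, if_neg (fun H => hh (e.mpr H))]

/-- The bound of the bad factors, for one node. -/
theorem ExpandG8_node (n : ℕ) (hn : 2 ≤ n) (hc : CritG s t r y v) (i : Fin p) :
    ∃ C : ℝ, 0 < C ∧ ∃ D : ℕ, ∀ (M k1 k2 l1 l2 : ℕ) (k : Fin m → ℕ), Win n M k1 k2 l1 l2 →
    (∀ j ∈ inc s t i, k j + n ≤ M + 1) →
    (∏ j ∈ inc s t i, S M (k j) ^ 2) *
      ‖DG8 (r i) n M (inc s t i) k - GD8 (r i) (v i).im n M k1 k2 l2 (inc s t i) k‖ ≤
      C * (M : ℝ) ^ D * Real.exp (M * (Lg (r i) (inc s t i) y (v i) - 82 / 10000)) := by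
  have hloc := locG_v hc i
  obtain ⟨C, hC, D, H⟩ := DG8_GD8 (r i) n hn (inc s t i) (hc.ne i) (hc.hr i) (v i).im (hc.imv i)
    hloc.2.1
  refine ⟨C, hC, D, fun M k1 k2 l1 l2 k hw hk => (H M k1 k2 l1 l2 k hw hk).trans ?_⟩
  refine mul_le_mul_of_nonneg_left (Real.exp_le_exp.mpr ?_) (by positivity)
  refine mul_le_mul_of_nonneg_left ?_ (Nat.cast_nonneg _)
  have := lowG hc i
  unfold dg at this
  linarith

/-- The bound of the product of the bad factors. -/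
theorem ExpandG8_bad (n : ℕ) (hn : 2 ≤ n) (hc : CritG s t r y v) (B : Finset (Fin p)) :
    ∃ C : ℝ, 0 < C ∧ ∃ D : ℕ, ∀ (M k1 k2 l1 l2 : ℕ) (k : Fin m → ℕ), Win n M k1 k2 l1 l2 →
    (∀ j ∈ EB s t B, k j + n ≤ M + 1) →
    (∏ i ∈ B, ∏ j ∈ inc s t i, S M (k j) ^ 2) *
      ‖∏ i ∈ B, (DG8 (r i) n M (inc s t i) k -
        GD8 (r i) (v i).im n M k1 k2 l2 (inc s t i) k)‖ ≤
      C * (M : ℝ) ^ D *
        Real.exp (M * ∑ i ∈ B, (Lg (r i) (inc s t i) y (v i) - 82 / 10000)) := by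
  choose C hC D H using fun i => ExpandG8_node n hn hc i
  refine ⟨∏ i ∈ B, C i, Finset.prod_pos fun i _ => hC i, ∑ i ∈ B, D i,
    fun M k1 k2 l1 l2 k hw hk => ?_⟩
  rw [_root_.norm_prod, ← Finset.prod_mul_distrib, ← Finset.prod_pow_eq_pow_sum, Finset.mul_sum,
    Real.exp_sum, ← Finset.prod_mul_distrib, ← Finset.prod_mul_distrib]
  refine Finset.prod_le_prod (fun i _ => by positivity) fun i hi => ?_
  refine H i M k1 k2 l1 l2 k hw fun j hj => hk j ?_
  rw [mem_inc] at hj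
  rw [EB, Finset.mem_filter]
  refine ⟨Finset.mem_univ _, ?_⟩
  rcases hj with h | h
  · left; rw [h]; exact hi
  · right; rw [h]; exact hi

theorem expand_term8 (n g : ℕ) (hn : 2 ≤ n) (hg : 1 ≤ g) (hgn : g < n) (hc : CritG s t r y v)
    (B : Finset (Fin p)) (hB : B.Nonempty) :
    ∃ C : ℝ, 0 < C ∧ ∃ D M0 : ℕ, ∀ M k1 k2 l1 l2 : ℕ, M0 ≤ M → Win n M k1 k2 l1 l2 →
    ‖∑ k ∈ Fintype.piFinset (fun _ : Fin m => Finset.range (M + 2 - n)),
        (∏ j, Cc n g M (yk n M (k j))) *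
          ((∏ i ∈ Bᶜ, GD8 (r i) (v i).im n M k1 k2 l2 (inc s t i) k) *
            ∏ i ∈ B, (DG8 (r i) n M (inc s t i) k -
              GD8 (r i) (v i).im n M k1 k2 l2 (inc s t i) k))‖ ≤
      C * (M : ℝ) ^ D * Real.exp (M * ((VG s t r y v).re - 1 / 500)) := by
  classical
  obtain ⟨C1, hC1, D1, H1⟩ := ExpandG8_bad n hn hc B
  obtain ⟨C2, hC2, D2, M0, H2⟩ := bound_G8 n g hn hg hgn hc B
  set W : ℝ := (2 : ℝ) ^ (2 * n - 4) with hW
  have hW0 : 0 < W := by rw [hW]; positivity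
  set W' : ℝ := W ^ (EB s t B).card with hW'
  have hW'0 : 0 < W' := by rw [hW']; positivity
  refine ⟨W' * (C1 * C2), mul_pos hW'0 (mul_pos hC1 hC2), m + D1 + D2, M0,
    fun M k1 k2 l1 l2 hM hw => ?_⟩
  have hbig : 1000 * (n + 1) ≤ M := hw.big
  have hMpos : 0 < M := by omega
  have hMn : 0 < M + 2 - n := by omega
  rw [ExpandG_split (M + 2 - n) (EB s t B)]
  -- the bound for a single `κ`
  have hBE : ∀ i ∈ B, ∀ j ∈ inc s t i, j ∈ EB s t B := by
    intro i hi j hj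
    rw [mem_inc] at hj
    rw [EB, Finset.mem_filter]
    refine ⟨Finset.mem_univ _, ?_⟩
    rcases hj with h | h
    · left; rw [h]; exact hi
    · right; rw [h]; exact hi
  have key : ∀ κ ∈ Fintype.piFinset
      (fun j : Fin m => if j ∈ EB s t B then Finset.range (M + 2 - n) else {0}),
      ‖∑ k ∈ Fintype.piFinset
          (fun j : Fin m => if j ∈ EB s t B then {κ j} else Finset.range (M + 2 - n)),
        (∏ j, Cc n g M (yk n M (k j))) *
          ((∏ i ∈ Bᶜ, GD8 (r i) (v i).im n M k1 k2 l2 (inc s t i) k) *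
            ∏ i ∈ B, (DG8 (r i) n M (inc s t i) k -
              GD8 (r i) (v i).im n M k1 k2 l2 (inc s t i) k))‖ ≤
      W' * (C1 * C2) * (M : ℝ) ^ (D1 + D2) *
        Real.exp (M * ((VG s t r y v).re - 1 / 500)) := by
    intro κ hκ
    rw [Fintype.mem_piFinset] at hκ
    have hκE : ∀ j ∈ EB s t B, κ j + n ≤ M + 1 := by
      intro j hj
      have := hκ j
      rw [if_pos hj, Finset.mem_range] at this
      omega
    have e1 : ∀ k ∈ Fintype.piFinset
        (fun j : Fin m => if j ∈ EB s t B then {κ j} else Finset.range (M + 2 - n)),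
        (∏ j, Cc n g M (yk n M (k j))) *
          ((∏ i ∈ Bᶜ, GD8 (r i) (v i).im n M k1 k2 l2 (inc s t i) k) *
            ∏ i ∈ B, (DG8 (r i) n M (inc s t i) k -
              GD8 (r i) (v i).im n M k1 k2 l2 (inc s t i) k)) =
        ((∏ j ∈ EB s t B, Cc n g M (yk n M (κ j))) *
            ∏ i ∈ B, (DG8 (r i) n M (inc s t i) κ -
              GD8 (r i) (v i).im n M k1 k2 l2 (inc s t i) κ)) *
          ((∏ j ∈ (EB s t B)ᶜ, Cc n g M (yk n M (k j))) *
            ∏ i ∈ Bᶜ, GD8 (r i) (v i).im n M k1 k2 l2 (inc s t i) k) := by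
      intro k hk
      rw [Fintype.mem_piFinset] at hk
      have hkE : ∀ j ∈ EB s t B, k j = κ j := by
        intro j hj
        have := hk j
        rw [if_pos hj, Finset.mem_singleton] at this
        exact this
      rw [← Finset.prod_mul_prod_compl (EB s t B) (fun j => Cc n g M (yk n M (k j)))]
      have a1 : ∏ j ∈ EB s t B, Cc n g M (yk n M (k j)) =
          ∏ j ∈ EB s t B, Cc n g M (yk n M (κ j)) :=
        Finset.prod_congr rfl fun j hj => by rw [hkE j hj]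
      have a2 : ∏ i ∈ B, (DG8 (r i) n M (inc s t i) k -
              GD8 (r i) (v i).im n M k1 k2 l2 (inc s t i) k) =
          ∏ i ∈ B, (DG8 (r i) n M (inc s t i) κ -
              GD8 (r i) (v i).im n M k1 k2 l2 (inc s t i) κ) :=
        Finset.prod_congr rfl fun i hi => by
          rw [ExpandG8_DG _ _ _ _ k κ fun j hj => hkE j (hBE i hi j hj),
            ExpandG8_GD _ _ _ _ _ _ _ _ k κ fun j hj => hkE j (hBE i hi j hj)]
      rw [a1, a2]
      ring
    rw [Finset.sum_congr rfl e1, ← Finset.mul_sum, norm_mul, norm_mul, _root_.norm_prod]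
    set T : ℝ := ‖∑ k ∈ Fintype.piFinset
        (fun j : Fin m => if j ∈ EB s t B then {κ j} else Finset.range (M + 2 - n)),
        (∏ j ∈ (EB s t B)ᶜ, Cc n g M (yk n M (k j))) *
            ∏ i ∈ Bᶜ, GD8 (r i) (v i).im n M k1 k2 l2 (inc s t i) k‖ with hT
    set U : ℝ := ‖∏ i ∈ B, (DG8 (r i) n M (inc s t i) κ -
              GD8 (r i) (v i).im n M k1 k2 l2 (inc s t i) κ)‖ with hU
    have b1 : ∏ j ∈ EB s t B, ‖Cc n g M (yk n M (κ j))‖ ≤
        W' * ∏ j ∈ EB s t B, (S M (κ j) ^ 2) ^ 2 := by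
      have hWp : W' = ∏ _j ∈ EB s t B, W := by rw [Finset.prod_const]
      rw [hWp, ← Finset.prod_mul_distrib]
      refine Finset.prod_le_prod (fun j _ => norm_nonneg _) fun j hj => ?_
      exact ReduceN_Cc n g M (κ j) hn hg (by omega) (hκE j hj)
    rw [ExpandG_S hc.st B M κ] at b1
    have b2 := H1 M k1 k2 l1 l2 κ hw hκE
    have b3 := H2 M k1 k2 l1 l2 hM hw κ
    rw [← hU] at b2
    rw [← hT] at b3
    set P1 : ℝ := ∏ i ∈ B, ∏ j ∈ inc s t i, S M (κ j) ^ 2 with hP1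
    set P2 : ℝ := ∏ i ∈ Bᶜ, ∏ j ∈ inc s t i ∩ EB s t B, S M (κ j) ^ 2 with hP2
    have hP1' : 0 ≤ P1 := Finset.prod_nonneg fun i _ => Finset.prod_nonneg fun j _ => sq_nonneg _
    have hP2' : 0 ≤ P2 := Finset.prod_nonneg fun i _ => Finset.prod_nonneg fun j _ => sq_nonneg _
    have hU0 : 0 ≤ U := norm_nonneg _
    have hT0 : 0 ≤ T := norm_nonneg _
    have hexp : ∑ i ∈ B, (Lg (r i) (inc s t i) y (v i) - 82 / 10000) +
        (∑ i ∈ Bᶜ, Lg (r i) (inc s t i) y (v i) +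
          ∑ i ∈ Bᶜ, ∑ j ∈ inc s t i ∩ EB s t B, loss s t r i j) ≤
        (VG s t r y v).re - 1 / 500 := by
      have h1 := locG_loss hc B
      have h2 := VG_re hc.st r y v
      rw [← Finset.sum_add_sum_compl B] at h2
      rw [Finset.sum_sub_distrib, Finset.sum_const, nsmul_eq_mul, h2]
      have h3 : (1 : ℝ) ≤ B.card := by exact_mod_cast hB.card_pos
      linarith
    calc (∏ j ∈ EB s t B, ‖Cc n g M (yk n M (κ j))‖) * U * T
        ≤ (W' * (P1 * P2)) * U * T := by gcongr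
      _ = W' * ((P1 * U) * (P2 * T)) := by ring
      _ ≤ W' * ((C1 * (M : ℝ) ^ D1 *
            Real.exp (M * ∑ i ∈ B, (Lg (r i) (inc s t i) y (v i) - 82 / 10000))) *
          (C2 * (M : ℝ) ^ D2 * Real.exp (M * (∑ i ∈ Bᶜ, Lg (r i) (inc s t i) y (v i) +
            ∑ i ∈ Bᶜ, ∑ j ∈ inc s t i ∩ EB s t B, loss s t r i j)))) :=
          mul_le_mul_of_nonneg_left
            (mul_le_mul b2 b3 (mul_nonneg hP2' hT0) (by positivity)) hW'0.le
      _ = W' * (C1 * C2) * (M : ℝ) ^ (D1 + D2) *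
          Real.exp (M * (∑ i ∈ B, (Lg (r i) (inc s t i) y (v i) - 82 / 10000) +
            (∑ i ∈ Bᶜ, Lg (r i) (inc s t i) y (v i) +
            ∑ i ∈ Bᶜ, ∑ j ∈ inc s t i ∩ EB s t B, loss s t r i j))) := by
          generalize ∑ i ∈ B, (Lg (r i) (inc s t i) y (v i) - 82 / 10000) = e1
          generalize ∑ i ∈ Bᶜ, Lg (r i) (inc s t i) y (v i) +
            ∑ i ∈ Bᶜ, ∑ j ∈ inc s t i ∩ EB s t B, loss s t r i j = e2
          rw [mul_add (M : ℝ), Real.exp_add, pow_add]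
          ring
      _ ≤ _ := by
          refine mul_le_mul_of_nonneg_left (Real.exp_le_exp.mpr ?_) (by positivity)
          exact mul_le_mul_of_nonneg_left hexp (Nat.cast_nonneg _)
  refine (norm_sum_le _ _).trans ((Finset.sum_le_sum key).trans ?_)
  rw [Finset.sum_const, nsmul_eq_mul]
  have hcard : ((Fintype.piFinset (fun j : Fin m =>
      if j ∈ EB s t B then Finset.range (M + 2 - n) else {0})).card : ℝ) ≤ (M : ℝ) ^ m := by
    refine (ExpandG_card (M + 2 - n) hMn (EB s t B)).trans ?_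
    refine pow_le_pow_left₀ (Nat.cast_nonneg _) ?_ m
    have : M + 2 - n ≤ M := by omega
    exact_mod_cast this
  calc _ ≤ (M : ℝ) ^ m * (W' * (C1 * C2) * (M : ℝ) ^ (D1 + D2) *
        Real.exp (M * ((VG s t r y v).re - 1 / 500))) :=
        mul_le_mul_of_nonneg_right hcard (by positivity)
    _ = _ := by rw [add_assoc m D1 D2, pow_add (M : ℝ) m]; ring

end Pool.Agent.H63.VC8

end

section

/-! # The expansion of the invariant -/

namespace Pool.Agent.H63.VC8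

open Pool.Agent.H63.VC
open Pool.Agent.H63.VC3 Pool.Agent.H63.VC4 Pool.Agent.H63.VC6 Pool.Agent.H63.VC7 Complex

variable {m p : ℕ}
  {s t : Fin m → Fin p} {r : Fin p → ℝ} {y : Fin m → ℂ} {v : Fin p → ℂ}

/-- The expansion over the sets of bad nodes. -/
theorem JGmain8_expand (s t : Fin m → Fin p) (r : Fin p → ℝ) (n g M : ℕ)
    (G : Fin p → (Fin m → ℕ) → ℂ) :
    JG8 s t r n g M = ∑ B : Finset (Fin p),
      ∑ k ∈ Fintype.piFinset (fun _ : Fin m => Finset.range (M + 2 - n)),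
        (∏ j, Cc n g M (yk n M (k j))) *
          ((∏ i ∈ Bᶜ, G i k) * ∏ i ∈ B, (DG8 (r i) n M (inc s t i) k - G i k)) := by
  rw [Finset.sum_comm]
  unfold JG8
  refine Finset.sum_congr rfl fun k _ => ?_
  rw [← Finset.mul_sum]
  congr 1
  have e : ∏ i, DG8 (r i) n M (inc s t i) k =
      ∏ i, ((DG8 (r i) n M (inc s t i) k - G i k) + G i k) :=
    Finset.prod_congr rfl fun i _ => by ring
  rw [e, Finset.prod_add, Finset.powerset_univ]
  refine Finset.sum_congr rfl fun B _ => ?_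
  rw [← Finset.compl_eq_univ_sdiff, mul_comm]

theorem JG8_main (n g : ℕ) (hn : 2 ≤ n) (hg : 1 ≤ g) (hgn : g < n) (hc : CritG s t r y v) :
    ∃ C : ℝ, 0 < C ∧ ∃ D M0 : ℕ, ∀ M k1 k2 l1 l2 : ℕ, M0 ≤ M → Win n M k1 k2 l1 l2 →
    ‖JG8 s t r n g M - (-(4 * Real.pi * I * M ^ 2)) ^ p * ((M : ℂ) ^ m * MG8 s t r n g M
        (fun j => (y j).im) (fun i => (v i).im) ((k1 + bt n) / M - 1 / 2)
        ((k2 + 1 + bt n) / M - 1 / 2) (rho n M l2))‖ ≤
      C * (M : ℝ) ^ D * Real.exp (M * ((VG s t r y v).re - 1 / 500)) := by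
  obtain ⟨C0, hC0, D0, M0, h0⟩ := main_part8 n g hn hg hgn hc
  have hB : ∀ B : Finset (Fin p), ∃ C : ℝ, 0 < C ∧ ∃ D M1 : ℕ, B.Nonempty →
      ∀ M k1 k2 l1 l2 : ℕ, M1 ≤ M → Win n M k1 k2 l1 l2 →
      ‖∑ k ∈ Fintype.piFinset (fun _ : Fin m => Finset.range (M + 2 - n)),
        (∏ j, Cc n g M (yk n M (k j))) *
          ((∏ i ∈ Bᶜ, GD8 (r i) (v i).im n M k1 k2 l2 (inc s t i) k) *
            ∏ i ∈ B, (DG8 (r i) n M (inc s t i) k -
              GD8 (r i) (v i).im n M k1 k2 l2 (inc s t i) k))‖ ≤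
      C * (M : ℝ) ^ D * Real.exp (M * ((VG s t r y v).re - 1 / 500)) := by
    intro B
    by_cases h : B.Nonempty
    · obtain ⟨C, hC, D, M1, h1⟩ := expand_term8 n g hn hg hgn hc B h
      exact ⟨C, hC, D, M1, fun _ => h1⟩
    · exact ⟨1, one_pos, 0, 0, fun h' => absurd h' h⟩
  choose CB hCB DB MB hB' using hB
  refine ⟨C0 + ∑ B, CB B, ?_, D0 + ∑ B, DB B, M0 + (∑ B, MB B) + 1,
    fun M k1 k2 l1 l2 hM hwin => ?_⟩
  · have : 0 ≤ ∑ B, CB B := Finset.sum_nonneg fun B _ => (hCB B).le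
    linarith
  have hM1 : (1 : ℝ) ≤ M := by exact_mod_cast (by omega : 1 ≤ M)
  have hM00 : (0 : ℝ) < M := by linarith
  set E : ℝ := Real.exp (M * ((VG s t r y v).re - 1 / 500)) with hE
  have hE0 : 0 < E := Real.exp_pos _
  have hDB : ∀ B, DB B ≤ ∑ B, DB B := fun B =>
    Finset.single_le_sum (f := DB) (fun _ _ => Nat.zero_le _) (Finset.mem_univ B)
  have hMB : ∀ B, MB B ≤ ∑ B, MB B := fun B =>
    Finset.single_le_sum (f := MB) (fun _ _ => Nat.zero_le _) (Finset.mem_univ B)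
  set T : Finset (Fin p) → ℂ := fun B =>
    ∑ k ∈ Fintype.piFinset (fun _ : Fin m => Finset.range (M + 2 - n)),
        (∏ j, Cc n g M (yk n M (k j))) *
          ((∏ i ∈ Bᶜ, GD8 (r i) (v i).im n M k1 k2 l2 (inc s t i) k) *
            ∏ i ∈ B, (DG8 (r i) n M (inc s t i) k -
              GD8 (r i) (v i).im n M k1 k2 l2 (inc s t i) k)) with hT
  have hexp : JG8 s t r n g M = ∑ B, T B :=
    JGmain8_expand s t r n g M (fun i k => GD8 (r i) (v i).im n M k1 k2 l2 (inc s t i) k)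
  have hT0 : T ∅ = ∑ k ∈ Fintype.piFinset (fun _ : Fin m => Finset.range (M + 2 - n)),
        (∏ j, Cc n g M (yk n M (k j))) *
          ∏ i, GD8 (r i) (v i).im n M k1 k2 l2 (inc s t i) k := by
    simp only [hT, Finset.prod_empty, mul_one, Finset.compl_empty]
  have h0' := h0 M k1 k2 l1 l2 (by omega) hwin
  rw [← hT0, ← hE] at h0'
  have hsplit : ∑ B, T B = T ∅ + ∑ B ∈ Finset.univ.erase ∅, T B :=
    (Finset.add_sum_erase _ _ (Finset.mem_univ _)).symm
  rw [hexp, hsplit, add_sub_right_comm]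
  have hrest : ‖∑ B ∈ Finset.univ.erase ∅, T B‖ ≤
      (∑ B, CB B) * (M : ℝ) ^ (D0 + ∑ B, DB B) * E := by
    refine (norm_sum_le _ _).trans ?_
    have e1 : ∀ B ∈ Finset.univ.erase (∅ : Finset (Fin p)),
        ‖T B‖ ≤ CB B * (M : ℝ) ^ (D0 + ∑ B, DB B) * E := by
      intro B hBe
      have hne : B.Nonempty := Finset.nonempty_iff_ne_empty.2 (Finset.ne_of_mem_erase hBe)
      refine (hB' B hne M k1 k2 l1 l2 (by have := hMB B; omega) hwin).trans ?_
      refine mul_le_mul_of_nonneg_right ?_ hE0.le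
      refine mul_le_mul_of_nonneg_left ?_ (hCB B).le
      exact pow_le_pow_right₀ hM1 (by have := hDB B; omega)
    refine (Finset.sum_le_sum e1).trans ?_
    rw [← Finset.sum_mul, ← Finset.sum_mul]
    refine mul_le_mul_of_nonneg_right (mul_le_mul_of_nonneg_right ?_ (by positivity)) hE0.le
    exact Finset.sum_le_sum_of_subset_of_nonneg (Finset.erase_subset _ _)
      fun B _ _ => (hCB B).le
  have hmain : C0 * (M : ℝ) ^ D0 * E ≤ C0 * (M : ℝ) ^ (D0 + ∑ B, DB B) * E := by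
    refine mul_le_mul_of_nonneg_right ?_ hE0.le
    refine mul_le_mul_of_nonneg_left ?_ hC0.le
    exact pow_le_pow_right₀ hM1 (by omega)
  calc _ ≤ C0 * (M : ℝ) ^ (D0 + ∑ B, DB B) * E +
        (∑ B, CB B) * (M : ℝ) ^ (D0 + ∑ B, DB B) * E :=
        (norm_add_le _ _).trans (add_le_add (h0'.trans hmain) hrest)
    _ = _ := by ring

end Pool.Agent.H63.VC8

end
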