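import Pool.Agent.H94.PA.M02
import Pool.Agent.H94.PA.M31

/-! The parts of this file: H63.VC11.Alg11, H63.VC11.Idx11. -/

section

/-!
# Operators on `V ⊗ V*`

`V_N` is the `N`-th symmetric power. `DD N : V_N ⊗ V_N* → V_{N+1} ⊗ V_{N+1}*` inserts a minimum
between the two factors, `CC N` is the opposite operator, `Oh N f` is the operator which is `f X` on
the component of color `X` of `V_N ⊗ V_N*`.
-/

namespace Pool.Agent.H63.VC11

open Pool.Agent.H63.VC7 Pool.Agent.H63.VC8 Matrix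

variable {n N : ℕ}

/-- The indices of the basis of `V_N`. -/
@[ext] structure Vn (n N : ℕ) where
  val : Fin n → ℕ
  sum : ∑ i, val i = N

/-- `Vn n N` as a subtype. -/
def Vn.equiv (n N : ℕ) : ↥(Finset.piAntidiag (Finset.univ : Finset (Fin n)) N) ≃ Vn n N where
  toFun a := ⟨a.1, (Finset.mem_piAntidiag.1 a.2).1⟩
  invFun a := ⟨a.val, Finset.mem_piAntidiag.2 ⟨a.sum, fun _ _ => Finset.mem_univ _⟩⟩
  left_inv _ := rfl
  right_inv _ := rfl

noncomputable instance (n N : ℕ) : Fintype (Vn n N) := Fintype.ofEquiv _ (Vn.equiv n N)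

noncomputable instance (n N : ℕ) : DecidableEq (Vn n N) := Classical.decEq _

/-- The indices of the basis of `V_N ⊗ V_N`. -/
abbrev I2 (n N : ℕ) : Type := Vn n N × Vn n N

/-- `q` is generic for the colors up to `N`. -/
def Gen (q : ℂ) (n N : ℕ) : Prop := q ≠ 0 ∧ ∀ k : ℕ, 1 ≤ k → k ≤ 4 * N + 2 * n → br q (k : ℤ) ≠ 0

theorem sum_Vn (f : (Fin n → ℕ) → ℂ) :
    ∑ a ∈ Finset.piAntidiag (Finset.univ : Finset (Fin n)) N, f a = ∑ a : Vn n N, f a.val := by
  rw [← Finset.sum_coe_sort, ← Equiv.sum_comp (Vn.equiv n N)]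
  rfl

/-- Increase of one entry. -/
def Vn.add (a : Vn n N) (i : Fin n) : Vn n (N + 1) :=
  ⟨a.val + Pi.single i 1, by simp [Finset.sum_add_distrib, a.sum]⟩

/-- Reversal of the order of the entries. -/
def Vn.rev (a : Vn n N) : Vn n N :=
  ⟨fun i => a.val i.rev, (Equiv.sum_comp Fin.revPerm a.val).trans a.sum⟩

/-- Insertion of a minimum. -/
noncomputable def DD (q : ℂ) (n N : ℕ) : Matrix (I2 n (N + 1)) (I2 n N) ℂ := fun x y =>
  ∑ i, if x.1 = y.1.add i ∧ x.2 = y.2.add i then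
    qn q (x.1.val i) * q ^ (hi y.1.val i - lo y.2.val i) else 0

/-- Insertion of a maximum. -/
noncomputable def CC (q : ℂ) (n N : ℕ) : Matrix (I2 n N) (I2 n (N + 1)) ℂ := fun x y =>
  ∑ i : Fin n, if y.1 = x.1.add i ∧ y.2 = x.2.add i then
    q ^ ((n : ℤ) - 1 - 2 * (i : ℕ)) * (qn q (y.2.val i) * q ^ (hi x.2.val i - lo x.1.val i)) else 0

/-- The eigenvalue of `DD (N - 1) * CC (N - 1)` on the component of color `X`. -/
noncomputable def E1 (q : ℂ) (n N X : ℕ) : ℂ :=
  qn q ((N : ℤ) - X) * qn q ((N : ℤ) + X + n - 1)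

/-- The function from which the coefficient of `DD` is computed. -/
noncomputable def dv (q : ℂ) (n N : ℕ) (f : ℕ → ℂ) (X : ℕ) : ℂ :=
  (f X - f (N + 1)) / E1 q n (N + 1) X

/-- The operator on `V_N ⊗ V_N*` with the eigenvalues `f 0, …, f N`. -/
noncomputable def Oh (q : ℂ) (n : ℕ) : (N : ℕ) → (ℕ → ℂ) → Matrix (I2 n N) (I2 n N) ℂ
  | 0, f => f 0 • 1
  | N + 1, f => f (N + 1) • 1 + DD q n N * Oh q n N (dv q n N f) * CC q n N

/-- The operator given by `N - j` parallel strands, `j` minima and `j` maxima. -/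
noncomputable def em (q : ℂ) (n : ℕ) : (N : ℕ) → ℕ → Matrix (I2 n N) (I2 n N) ℂ
  | _, 0 => 1
  | 0, _ + 1 => 0
  | N + 1, j + 1 => (qn q ((j : ℤ) + 1) ^ 2)⁻¹ • (DD q n N * em q n N j * CC q n N)

/-- The eigenvalues of `em`. -/
noncomputable def EE (q : ℂ) (n N j X : ℕ) : ℂ :=
  ∏ i ∈ Finset.range j, E1 q n (N - i) X / qn q ((i : ℤ) + 1) ^ 2

/-- The coefficients of `Oh N f` in the basis `em N j`. -/
noncomputable def nt (q : ℂ) (n : ℕ) : (N : ℕ) → (ℕ → ℂ) → ℕ → ℂ
  | N, f, 0 => f N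
  | 0, _, _ + 1 => 0
  | N + 1, f, j + 1 => qn q ((j : ℤ) + 1) ^ 2 * nt q n N (dv q n N f) j

/-- The action of the rotation by a quarter turn on the eigenvalues. -/
noncomputable def Ph (q : ℂ) (n N : ℕ) (f : ℕ → ℂ) (X : ℕ) : ℂ :=
  ∑ j ∈ Finset.range (N + 1), nt q n N f j * EE q n N (N - j) X

/-- The rotation by a quarter turn of a tangle with four ends. -/
noncomputable def rotM (q : ℂ) (X : Matrix (I2 n N) (I2 n N) ℂ) : Matrix (I2 n N) (I2 n N) ℂ :=
  fun x y => wt q y.1.val * X (y.2.rev, x.2.rev) (y.1.rev, x.1.rev)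

/-- The tangle seen from behind, an operator on `V* ⊗ V`. -/
noncomputable def flipM (q : ℂ) (X : Matrix (I2 n N) (I2 n N) ℂ) : Matrix (I2 n N) (I2 n N) ℂ :=
  fun x y => wt q y.1.val * (wt q x.1.val)⁻¹ * X (x.2.rev, x.1.rev) (y.2.rev, y.1.rev)

/-- The value of the closure of a tangle with four ends. -/
noncomputable def trq (q : ℂ) (X : Matrix (I2 n N) (I2 n N) ℂ) : ℂ :=
  ∑ x : I2 n N, wt q x.1.val * (wt q x.2.val)⁻¹ * X x x

/-- The matrix of the crossing. -/
noncomputable def Rm (q : ℂ) (n N : ℕ) (e : ℤ) : Matrix (I2 n N) (I2 n N) ℂ := fun x y =>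
  opR q N e (fun p => if p = (y.1.val, y.2.val) then 1 else 0) (x.1.val, x.2.val)

/-- The crossing of antiparallel strands, followed by the flip. -/
noncomputable def Ym (q : ℂ) (n N : ℕ) (e : ℤ) : Matrix (I2 n N) (I2 n N) ℂ := fun x y =>
  wt q y.2.val * Rm q n N e (x.1.rev, y.2) (x.2.rev, y.1)

/-- The eigenvalues of `r` full twists. -/
noncomputable def tws (q : ℂ) (n N : ℕ) (r : ℤ) (X : ℕ) : ℂ :=
  q ^ (2 * r * ((X : ℤ) * ((X : ℤ) + n - 1) - (N : ℤ) * ((N : ℤ) + n - 1)))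

/-- The eigenvalues of the tangle of a subtree. -/
noncomputable def fv {m : ℕ} (q : ℂ) (n N : ℕ) (par : Fin m → Fin (m + 1))
    (r : Fin (m + 1) → ℤ) : ℕ → Fin (m + 1) → ℕ → ℂ
  | 0, _, _ => 1
  | k + 1, v, X => tws q n N (r v) X *
      ∏ j ∈ Finset.univ.filter (fun j => par j = v), Ph q n N (fv q n N par r k j.succ) X

end Pool.Agent.H63.VC11

end

section

/-! # Basic facts on indices, `q`-numbers and the matrices `DD`, `CC` -/

namespace Pool.Agent.H63.VC11

open Pool.Agent.H63.VC7 Pool.Agent.H63.VC8 Matrix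

variable {n N : ℕ}

/-! ### `q`-numbers -/

theorem Gen.mono {q : ℂ} {n N M : ℕ} (h : Gen q n N) (hM : M ≤ N) : Gen q n M :=
  ⟨h.1, fun k h1 h2 => h.2 k h1 (by omega)⟩

theorem Gen.br_ne {q : ℂ} {n N : ℕ} (h : Gen q n N) {a : ℤ} (h1 : 1 ≤ a)
    (h2 : a ≤ 4 * N + 2 * n) :
    br q a ≠ 0 := by
  have := h.2 a.toNat (by omega) (by omega)
  rwa [show ((a.toNat : ℕ) : ℤ) = a by omega] at this

theorem Gen.br_one {q : ℂ} {n N : ℕ} (h : Gen q n N) (hn : 1 ≤ n) : br q 1 ≠ 0 :=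
  h.br_ne le_rfl (by omega)

theorem Gen.qn_ne {q : ℂ} {n N : ℕ} (h : Gen q n N) (hn : 1 ≤ n) {a : ℤ} (h1 : 1 ≤ a)
    (h2 : a ≤ 4 * N + 2 * n) : qn q a ≠ 0 :=
  div_ne_zero (h.br_ne h1 h2) (h.br_one hn)

theorem qn_zero (q : ℂ) : qn q 0 = 0 := by
  unfold qn; rw [VC10.br_zero, zero_div]

theorem qn_one (q : ℂ) (h : br q 1 ≠ 0) : qn q 1 = 1 := div_self h

theorem qn_neg (q : ℂ) (a : ℤ) : qn q (-a) = -qn q a := by
  unfold qn; rw [VC10.br_neg, neg_div]

theorem qf_zero (q : ℂ) : qf q 0 = 1 := by simp [qf]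

theorem qf_succ (q : ℂ) (k : ℕ) : qf q (k + 1) = qf q k * qn q ((k : ℤ) + 1) := by
  simp [qf, Finset.prod_range_succ]

theorem Gen.qf_ne {q : ℂ} {n N : ℕ} (h : Gen q n N) (hn : 1 ≤ n) {k : ℕ}
    (hk : k ≤ 4 * N + 2 * n) : qf q k ≠ 0 := by
  unfold qf
  rw [Finset.prod_ne_zero_iff]
  intro i hi
  have := Finset.mem_range.1 hi
  exact h.qn_ne hn (by omega) (by omega)

/-- `[x] [y + z] = [x + z] [y] + [z] [x - y]`, the basic identity. -/
theorem qn_three_term (q : ℂ) (hq : q ≠ 0) (x y z : ℤ) :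
    qn q x * qn q (y + z) = qn q (x + z) * qn q y + qn q z * qn q (x - y) := by
  unfold qn
  have h := VC10.br_three_term q hq x y z
  rw [div_mul_div_comm, h, add_div, mul_div_mul_comm, mul_div_mul_comm]

/-- `q ^ y [x] + q ^ (-x) [y] = [x + y]`. -/
theorem qn_add (q : ℂ) (hq : q ≠ 0) (x y : ℤ) :
    q ^ y * qn q x + q ^ (-x) * qn q y = qn q (x + y) := by
  unfold qn br
  rw [← mul_div_assoc, ← mul_div_assoc, ← add_div]
  congr 1
  rw [mul_sub, mul_sub, ← zpow_add₀ hq, ← zpow_add₀ hq, ← zpow_add₀ hq, ← zpow_add₀ hq,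
    neg_add x y, add_comm y x, add_comm (-x) y]
  ring

/-! ### Indices -/

theorem lo_add (a : Fin n → ℕ) (i j : Fin n) :
    lo (a + Pi.single i 1) j = lo a j + if i < j then 1 else 0 := by
  unfold lo
  simp only [Pi.add_apply, Nat.cast_add, Finset.sum_add_distrib, Pi.single_apply]
  congr 1
  simp only [Nat.cast_ite, Nat.cast_one, Nat.cast_zero]
  rw [Finset.sum_ite_eq']
  simp

theorem hi_add (a : Fin n → ℕ) (i j : Fin n) :
    hi (a + Pi.single i 1) j = hi a j + if j < i then 1 else 0 := by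
  unfold hi
  simp only [Pi.add_apply, Nat.cast_add, Finset.sum_add_distrib, Pi.single_apply]
  congr 1
  simp only [Nat.cast_ite, Nat.cast_one, Nat.cast_zero]
  rw [Finset.sum_ite_eq']
  simp

theorem lo_add_self (a : Fin n → ℕ) (i : Fin n) : lo (a + Pi.single i 1) i = lo a i := by
  rw [lo_add]; simp

theorem hi_add_self (a : Fin n → ℕ) (i : Fin n) : hi (a + Pi.single i 1) i = hi a i := by
  rw [hi_add]; simp

theorem add_single_self (a : Fin n → ℕ) (i : Fin n) :
    (a + Pi.single i 1 : Fin n → ℕ) i = a i + 1 := by simp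

theorem add_single_ne (a : Fin n → ℕ) {i j : Fin n} (h : j ≠ i) :
    (a + Pi.single i 1 : Fin n → ℕ) j = a j := by simp [h]

theorem add_sub_single (a : Fin n → ℕ) (i : Fin n) :
    a + Pi.single i 1 - Pi.single i 1 = a := by
  funext j; simp

theorem exists_add {a : Fin n → ℕ} {i : Fin n} (h : a i ≠ 0) :
    ∃ b : Fin n → ℕ, a = b + Pi.single i 1 := by
  refine ⟨a - Pi.single i 1, ?_⟩
  funext j
  by_cases hj : j = i
  · subst hj
    simp only [Pi.add_apply, Pi.sub_apply, Pi.single_eq_same]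
    omega
  · simp [hj]

theorem sub_add_single {a : Fin n → ℕ} {i : Fin n} (h : a i ≠ 0) :
    a - Pi.single i 1 + Pi.single i 1 = a := by
  obtain ⟨b, rfl⟩ := exists_add h
  rw [add_sub_single]

theorem lo_rev (a : Fin n → ℕ) (i : Fin n) : lo (fun j => a j.rev) i = hi a i.rev := by
  unfold lo hi
  refine Finset.sum_nbij' (fun j => j.rev) (fun j => j.rev) ?_ ?_ ?_ ?_ ?_
  · intro j hj
    simp only [Finset.mem_Iio, Finset.mem_Ioi] at hj ⊢
    exact Fin.rev_lt_rev.2 hj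
  · intro j hj
    simp only [Finset.mem_Iio, Finset.mem_Ioi] at hj ⊢
    rw [← Fin.rev_lt_rev, Fin.rev_rev]
    exact hj
  · intro j _; simp
  · intro j _; simp
  · intro j _; rfl

theorem hi_rev (a : Fin n → ℕ) (i : Fin n) : hi (fun j => a j.rev) i = lo a i.rev := by
  have h := lo_rev (fun j => a j.rev) i.rev
  simp only [Fin.rev_rev] at h
  exact h.symm

theorem lo_self_hi (a : Fin n → ℕ) (i : Fin n) :
    lo a i + a i + hi a i = ((∑ j, a j : ℕ) : ℤ) := by
  unfold lo hi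
  push_cast
  have h : (Finset.univ : Finset (Fin n)) = Finset.Iio i ∪ ({i} ∪ Finset.Ioi i) := by
    ext j
    simp only [Finset.mem_univ, Finset.mem_union, Finset.mem_Iio, Finset.mem_singleton,
      Finset.mem_Ioi, true_iff]
    exact lt_trichotomy j i
  rw [h, Finset.sum_union, Finset.sum_union, Finset.sum_singleton]
  · ring
  · rw [Finset.disjoint_left]; intro j; simp only [Finset.mem_singleton, Finset.mem_Ioi]; rintro rfl; simp
  · rw [Finset.disjoint_left]; intro j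
    simp only [Finset.mem_Iio, Finset.mem_union, Finset.mem_singleton, Finset.mem_Ioi]
    intro h1 h2
    rcases h2 with rfl | h2
    · exact lt_irrefl _ h1
    · exact lt_irrefl _ (h1.trans h2)

theorem rev_single (i : Fin n) :
    (fun j : Fin n => (Pi.single i 1 : Fin n → ℕ) j.rev) = Pi.single i.rev 1 := by
  funext j
  simp only [Pi.single_apply, Fin.rev_eq_iff]

@[simp] theorem Vn.add_val (a : Vn n N) (i : Fin n) :
    (a.add i).val = a.val + Pi.single i 1 := rfl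

@[simp] theorem Vn.rev_val (a : Vn n N) : a.rev.val = fun i => a.val i.rev := rfl

@[simp] theorem Vn.rev_rev (a : Vn n N) : a.rev.rev = a := by
  apply Vn.ext; funext i; simp

theorem Vn.add_inj {a b : Vn n N} {i : Fin n} : a.add i = b.add i ↔ a = b := by
  constructor
  · intro h
    apply Vn.ext
    have := congrArg Vn.val h
    simpa using this
  · rintro rfl; rfl

theorem Vn.exists_add {a : Vn n (N + 1)} {i : Fin n} (h : a.val i ≠ 0) :
    ∃ b : Vn n N, a = b.add i := by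
  obtain ⟨b, hb⟩ := VC11.exists_add h
  refine ⟨⟨b, ?_⟩, Vn.ext hb⟩
  have := a.sum
  rw [hb] at this
  simp only [Pi.add_apply, Finset.sum_add_distrib] at this
  simpa using this

/-- The reversal as a permutation of the indices. -/
def Vn.revE (n N : ℕ) : Vn n N ≃ Vn n N := ⟨Vn.rev, Vn.rev, Vn.rev_rev, Vn.rev_rev⟩

/-! ### The weights -/

theorem wt_ne {q : ℂ} (hq : q ≠ 0) (a : Fin n → ℕ) : wt q a ≠ 0 := zpow_ne_zero _ hq

theorem wt_add {q : ℂ} (hq : q ≠ 0) (a : Fin n → ℕ) (i : Fin n) :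
    wt q (a + Pi.single i 1) = wt q a * q ^ ((n : ℤ) - 1 - 2 * (i : ℕ)) := by
  unfold wt
  rw [← zpow_add₀ hq]
  congr 1
  simp only [Pi.add_apply, Nat.cast_add, add_mul, Finset.sum_add_distrib, Pi.single_apply]
  congr 1
  simp

theorem wt_rev {q : ℂ} (a : Fin n → ℕ) : wt q (fun i => a i.rev) = (wt q a)⁻¹ := by
  unfold wt
  rw [← _root_.zpow_neg]
  congr 1
  rw [← Finset.sum_neg_distrib, ← Equiv.sum_comp Fin.revPerm]
  refine Finset.sum_congr rfl fun i _ => ?_
  simp only [Fin.revPerm_apply, Fin.rev_rev, Fin.val_rev]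
  have : (i : ℕ) + 1 ≤ n := i.2
  push_cast [Nat.cast_sub this]
  ring

theorem wt_zero {q : ℂ} : wt q (0 : Fin n → ℕ) = 1 := by simp [wt]

/-! ### Sums -/

/-- Sums over the indices with a positive entry. -/
theorem sum_Vn_succ (H : (Fin n → ℕ) → ℂ) (i : Fin n) (hH : ∀ a : Fin n → ℕ, a i = 0 → H a = 0) :
    ∑ a : Vn n (N + 1), H a.val = ∑ a : Vn n N, H (a.val + Pi.single i 1) := by
  classical
  have h1 : ∑ a : Vn n N, H (a.val + Pi.single i 1) =
      ∑ a ∈ (Finset.univ : Finset (Vn n N)).image (fun a => a.add i), H a.val := by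
    rw [Finset.sum_image]
    · rfl
    · intro a _ b _ h
      exact Vn.add_inj.1 h
  rw [h1]
  symm
  apply Finset.sum_subset (Finset.subset_univ _)
  intro a _ ha
  apply hH
  by_contra h
  obtain ⟨b, rfl⟩ := Vn.exists_add h
  exact ha (Finset.mem_image.2 ⟨b, Finset.mem_univ _, rfl⟩)

/-- Sums over the pairs of indices with a positive entry. -/
theorem sum_I2_succ (H : (Fin n → ℕ) → (Fin n → ℕ) → ℂ) (i : Fin n)
    (hH : ∀ a d : Fin n → ℕ, a i = 0 ∨ d i = 0 → H a d = 0) :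
    ∑ y : I2 n (N + 1), H y.1.val y.2.val =
      ∑ y : I2 n N, H (y.1.val + Pi.single i 1) (y.2.val + Pi.single i 1) := by
  rw [Fintype.sum_prod_type, Fintype.sum_prod_type]
  have h1 : ∀ a : Fin n → ℕ, ∑ d : Vn n (N + 1), H a d.val =
      ∑ d : Vn n N, H a (d.val + Pi.single i 1) := fun a =>
    sum_Vn_succ (fun d => H a d) i fun d hd => hH a d (Or.inr hd)
  have h2 : ∀ a : Fin n → ℕ, a i = 0 → ∑ d : Vn n N, H a (d.val + Pi.single i 1) = 0 := by
    intro a ha
    refine Finset.sum_eq_zero fun d _ => ?_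
    exact hH a (d.val + Pi.single i 1) (Or.inl ha)
  have h3 := sum_Vn_succ (N := N) (fun a => ∑ d : Vn n N, H a (d.val + Pi.single i 1)) i h2
  rw [← h3]
  refine Finset.sum_congr rfl fun a _ => ?_
  exact h1 a.val

/-! ### Products with `DD` and `CC` -/

theorem mul_DD {ι : Type*} (q : ℂ) (A : Matrix ι (I2 n (N + 1)) ℂ) (x : ι) (y : I2 n N) :
    (A * DD q n N) x y = ∑ i, A x (y.1.add i, y.2.add i) *
      (qn q ((y.1.val i : ℤ) + 1) * q ^ (hi y.1.val i - lo y.2.val i)) := by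
  rw [Matrix.mul_apply]
  simp only [DD, Finset.mul_sum]
  rw [Finset.sum_comm]
  refine Finset.sum_congr rfl fun i _ => ?_
  rw [Finset.sum_eq_single (y.1.add i, y.2.add i)]
  · rw [if_pos ⟨rfl, rfl⟩]
    simp
  · intro z _ hz
    rw [if_neg, mul_zero]
    rintro ⟨h1, h2⟩
    exact hz (Prod.ext h1 h2)
  · intro h
    exact absurd (Finset.mem_univ _) h

theorem CC_mul {ι : Type*} (q : ℂ) (A : Matrix (I2 n (N + 1)) ι ℂ) (x : I2 n N) (y : ι) :
    (CC q n N * A) x y = ∑ i : Fin n, q ^ ((n : ℤ) - 1 - 2 * (i : ℕ)) *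
      (qn q ((x.2.val i : ℤ) + 1) * q ^ (hi x.2.val i - lo x.1.val i)) *
      A (x.1.add i, x.2.add i) y := by
  rw [Matrix.mul_apply]
  simp only [CC, Finset.sum_mul]
  rw [Finset.sum_comm]
  refine Finset.sum_congr rfl fun i _ => ?_
  rw [Finset.sum_eq_single (x.1.add i, x.2.add i)]
  · rw [if_pos ⟨rfl, rfl⟩]
    simp
  · intro z _ hz
    rw [if_neg, zero_mul]
    rintro ⟨h1, h2⟩
    exact hz (Prod.ext h1 h2)
  · intro h
    exact absurd (Finset.mem_univ _) h

/-- The entries of `DD * B`, if the entries of `B` are given by a function of the indices. -/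
theorem DD_mul_fun (q : ℂ) (β : (Fin n → ℕ) → (Fin n → ℕ) → ℂ) (x : I2 n (N + 1)) :
    ∑ z : I2 n N, DD q n N x z * β z.1.val z.2.val =
      ∑ i, if x.1.val i ≠ 0 ∧ x.2.val i ≠ 0 then
        qn q (x.1.val i) * q ^ (hi x.1.val i - lo x.2.val i) *
          β (x.1.val - Pi.single i 1) (x.2.val - Pi.single i 1) else 0 := by
  simp only [DD, Finset.sum_mul]
  rw [Finset.sum_comm]
  refine Finset.sum_congr rfl fun i _ => ?_
  split_ifs with h
  · obtain ⟨a, ha⟩ := Vn.exists_add h.1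
    obtain ⟨d, hd⟩ := Vn.exists_add h.2
    rw [Finset.sum_eq_single (a, d)]
    · rw [if_pos ⟨ha, hd⟩, ha, hd]
      simp only [Vn.add_val, add_sub_single, hi_add_self, lo_add_self]
    · intro z _ hz
      rw [if_neg, zero_mul]
      rintro ⟨h1, h2⟩
      rw [ha] at h1
      rw [hd] at h2
      exact hz (Prod.ext (Vn.add_inj.1 h1).symm (Vn.add_inj.1 h2).symm)
    · intro h'
      exact absurd (Finset.mem_univ _) h'
  · refine Finset.sum_eq_zero fun z _ => ?_
    rw [if_neg, zero_mul]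
    rintro ⟨h1, h2⟩
    apply h
    rw [h1, h2]
    simp

/-- The entries of `B * CC`, if the entries of `B` are given by a function of the indices. -/
theorem mul_CC_fun (q : ℂ) (β : (Fin n → ℕ) → (Fin n → ℕ) → ℂ) (y : I2 n (N + 1)) :
    ∑ z : I2 n N, β z.1.val z.2.val * CC q n N z y =
      ∑ i : Fin n, if y.1.val i ≠ 0 ∧ y.2.val i ≠ 0 then
        β (y.1.val - Pi.single i 1) (y.2.val - Pi.single i 1) *
          (q ^ ((n : ℤ) - 1 - 2 * (i : ℕ)) *
            (qn q (y.2.val i) * q ^ (hi y.2.val i - lo y.1.val i))) else 0 := by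
  simp only [CC, Finset.mul_sum]
  rw [Finset.sum_comm]
  refine Finset.sum_congr rfl fun i _ => ?_
  split_ifs with h
  · obtain ⟨a, ha⟩ := Vn.exists_add h.1
    obtain ⟨d, hd⟩ := Vn.exists_add h.2
    rw [Finset.sum_eq_single (a, d)]
    · rw [if_pos ⟨ha, hd⟩, ha, hd]
      simp only [Vn.add_val, add_sub_single, hi_add_self, lo_add_self]
    · intro z _ hz
      rw [if_neg, mul_zero]
      rintro ⟨h1, h2⟩
      rw [ha] at h1
      rw [hd] at h2
      exact hz (Prod.ext (Vn.add_inj.1 h1).symm (Vn.add_inj.1 h2).symm)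
    · intro h'
      exact absurd (Finset.mem_univ _) h'
  · refine Finset.sum_eq_zero fun z _ => ?_
    rw [if_neg, mul_zero]
    rintro ⟨h1, h2⟩
    apply h
    rw [h1, h2]
    simp

end Pool.Agent.H63.VC11

end
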