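import Pool.Agent.H94.PA.M37

/-! The parts of this file: H63.VC11.Num11, H63.VC11.Ops11, H63.VC11.Sl11, H63.VC11.KH11, H63.VC11.Ent11, H63.VC11.DP11. -/

section

/-! # Sums of `q`-numbers -/

namespace Pool.Agent.H63.VC11

open Pool.Agent.H63.VC7 Pool.Agent.H63.VC8

variable {n : ℕ}

private theorem num11_split (a : Fin n → ℤ) (i : Fin n) :
    ∑ j ∈ Finset.Iio i, a j + a i + ∑ j ∈ Finset.Ioi i, a j = ∑ j, a j := by
  have h : (Finset.univ : Finset (Fin n)) = Finset.Iio i ∪ ({i} ∪ Finset.Ioi i) := by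
    ext j
    simp only [Finset.mem_univ, Finset.mem_union, Finset.mem_Iio, Finset.mem_singleton,
      Finset.mem_Ioi, true_iff]
    exact lt_trichotomy j i
  rw [h, Finset.sum_union, Finset.sum_union, Finset.sum_singleton]
  · ring
  · rw [Finset.disjoint_left]; intro j; simp only [Finset.mem_singleton, Finset.mem_Ioi]; rintro rfl; simp
  · rw [Finset.disjoint_left]; intro j
    simp only [Finset.mem_Iio, Finset.mem_union, Finset.mem_singleton, Finset.mem_Ioi]
    intro h1 h2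
    rcases h2 with rfl | h2
    · exact lt_irrefl _ h1
    · exact lt_irrefl _ (h1.trans h2)

private theorem num11_aux (q : ℂ) (hq : q ≠ 0) : ∀ (n : ℕ) (a : Fin n → ℤ),
    ∑ i, qn q (a i) * q ^ (2 * (∑ j ∈ Finset.Ioi i, a j) + a i - ∑ j, a j) = qn q (∑ i, a i) := by
  intro n
  induction n with
  | zero => intro a; simp [qn_zero]
  | succ n ih =>
    intro a
    rw [Fin.sum_univ_succ, Fin.sum_univ_succ (f := a)]
    have h := ih (fun i => a i.succ)
    obtain ⟨S, hS⟩ : ∃ S : ℤ, S = ∑ i : Fin n, a i.succ := ⟨_, rfl⟩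
    rw [← hS] at h ⊢
    rw [Fin.sum_Ioi_zero, ← hS, ← qn_add q hq (a 0) S, ← h, Finset.mul_sum]
    congr 1
    · rw [mul_comm]
      congr 2
      ring
    · refine Finset.sum_congr rfl fun i _ => ?_
      rw [Fin.sum_Ioi_succ, mul_left_comm, ← zpow_add₀ hq]
      congr 2
      ring

theorem sum_int (q : ℂ) (hq : q ≠ 0) (a : Fin n → ℤ) :
    ∑ i, qn q (a i) * q ^ (∑ j ∈ Finset.Ioi i, a j - ∑ j ∈ Finset.Iio i, a j) =
      qn q (∑ i, a i) := by
  rw [← num11_aux q hq n a]
  refine Finset.sum_congr rfl fun i _ => ?_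
  congr 2
  have := num11_split a i
  linarith

theorem sum_int' (q : ℂ) (hq : q ≠ 0) (a : Fin n → ℤ) :
    ∑ i, qn q (a i) * q ^ (∑ j ∈ Finset.Iio i, a j - ∑ j ∈ Finset.Ioi i, a j) =
      qn q (∑ i, a i) := by
  have h := sum_int q hq (fun i => -a i)
  simp only [Finset.sum_neg_distrib, qn_neg] at h
  have h2 : ∑ i, -qn q (a i) * q ^ (-∑ j ∈ Finset.Ioi i, a j - -∑ j ∈ Finset.Iio i, a j) =
      -∑ i, qn q (a i) * q ^ (∑ j ∈ Finset.Iio i, a j - ∑ j ∈ Finset.Ioi i, a j) := by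
    rw [← Finset.sum_neg_distrib]
    refine Finset.sum_congr rfl fun i _ => ?_
    rw [neg_mul]
    congr 3
    ring
  rw [h2] at h
  exact neg_injective h

theorem sum_hi_lo (q : ℂ) (hq : q ≠ 0) (a : Fin n → ℕ) :
    ∑ i, qn q (a i) * q ^ (hi a i - lo a i) = qn q ((∑ i, a i : ℕ) : ℤ) := by
  push_cast
  exact sum_int q hq (fun i => (a i : ℤ))

theorem sum_lo_hi (q : ℂ) (hq : q ≠ 0) (a : Fin n → ℕ) :
    ∑ i, qn q (a i) * q ^ (lo a i - hi a i) = qn q ((∑ i, a i : ℕ) : ℤ) := by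
  push_cast
  exact sum_int' q hq (fun i => (a i : ℤ))

private theorem num11_hi (a : Fin n → ℕ) (i : Fin n) :
    ∑ j ∈ Finset.Ioi i, ((a j : ℤ) + 1) = hi a i + ((n : ℤ) - 1 - (i : ℕ)) := by
  rw [Finset.sum_add_distrib, Finset.sum_const, Fin.card_Ioi]
  unfold hi
  have := i.2
  simp only [nsmul_eq_mul, mul_one]
  congr 1
  omega

private theorem num11_lo (a : Fin n → ℕ) (i : Fin n) :
    ∑ j ∈ Finset.Iio i, ((a j : ℤ) + 1) = lo a i + (i : ℕ) := by
  rw [Finset.sum_add_distrib, Finset.sum_const, Fin.card_Iio]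
  unfold lo
  simp only [nsmul_eq_mul, mul_one]

private theorem num11_tot (a : Fin n → ℕ) :
    ∑ i, ((a i : ℤ) + 1) = ((∑ i, a i : ℕ) : ℤ) + n := by
  rw [Finset.sum_add_distrib, Finset.sum_const, Finset.card_univ, Fintype.card_fin]
  push_cast
  simp only [nsmul_eq_mul, mul_one]

theorem sum_hi_lo_succ (q : ℂ) (hq : q ≠ 0) (a : Fin n → ℕ) :
    ∑ i : Fin n, q ^ ((n : ℤ) - 1 - 2 * (i : ℕ)) * (qn q ((a i : ℤ) + 1) * q ^ (hi a i - lo a i)) =
      qn q (((∑ i, a i : ℕ) : ℤ) + n) := by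
  rw [← num11_tot, ← sum_int q hq]
  refine Finset.sum_congr rfl fun i _ => ?_
  rw [num11_hi, num11_lo, mul_left_comm, ← zpow_add₀ hq]
  congr 2
  ring

theorem sum_lo_hi_succ (q : ℂ) (hq : q ≠ 0) (a : Fin n → ℕ) :
    ∑ i : Fin n, (q ^ ((n : ℤ) - 1 - 2 * (i : ℕ)))⁻¹ *
      (qn q ((a i : ℤ) + 1) * q ^ (lo a i - hi a i)) = qn q (((∑ i, a i : ℕ) : ℤ) + n) := by
  rw [← num11_tot, ← sum_int' q hq]
  refine Finset.sum_congr rfl fun i _ => ?_
  rw [num11_hi, num11_lo, ← zpow_neg, mul_left_comm, ← zpow_add₀ hq]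
  congr 2
  ring

end Pool.Agent.H63.VC11

end

section

/-! # Operators on functions of two indices -/

namespace Pool.Agent.H63.VC11

open Pool.Agent.H63.VC7 Pool.Agent.H63.VC8

variable {n : ℕ}

/-- Functions of two indices. -/
abbrev Fn2 (n : ℕ) : Type := (Fin n → ℕ) × (Fin n → ℕ) → ℂ

/-- `opE` as a linear map. -/
noncomputable def Eo (q : ℂ) (n : ℕ) : Module.End ℂ (Fn2 n) where
  toFun := opE q
  map_add' ψ φ := by
    funext x
    simp only [opE, Pi.add_apply, mul_add, Finset.sum_add_distrib]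
  map_smul' c ψ := by
    funext x
    simp only [opE, Pi.smul_apply, smul_eq_mul, RingHom.id_apply, Finset.mul_sum]
    exact Finset.sum_congr rfl fun i _ => by ring

/-- `opF` as a linear map. -/
noncomputable def Fo (q : ℂ) (n : ℕ) : Module.End ℂ (Fn2 n) where
  toFun := opF q
  map_add' ψ φ := by
    funext x
    simp only [opF, Pi.add_apply, mul_add, Finset.sum_add_distrib]
  map_smul' c ψ := by
    funext x
    simp only [opF, Pi.smul_apply, smul_eq_mul, RingHom.id_apply, Finset.mul_sum]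
    exact Finset.sum_congr rfl fun i _ => by ring

theorem Eo_apply (q : ℂ) (ψ : Fn2 n) : Eo q n ψ = opE q ψ := rfl

theorem Fo_apply (q : ℂ) (ψ : Fn2 n) : Fo q n ψ = opF q ψ := rfl

theorem Eo_pow (q : ℂ) (k : ℕ) (ψ : Fn2 n) : (Eo q n ^ k) ψ = (opE q)^[k] ψ := by
  rw [Module.End.pow_apply]; rfl

theorem Fo_pow (q : ℂ) (k : ℕ) (ψ : Fn2 n) : (Fo q n ^ k) ψ = (opF q)^[k] ψ := by
  rw [Module.End.pow_apply]; rfl

/-- Multiplication of the first factor from the left. -/
noncomputable def XL1 (q : ℂ) (i : Fin n) : Module.End ℂ (Fn2 n) where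
  toFun ψ x := qn q (x.1 i) * q ^ (lo x.1 i) * ψ (x.1 - Pi.single i 1, x.2)
  map_add' ψ φ := by funext x; simp only [Pi.add_apply]; ring
  map_smul' c ψ := by funext x; simp only [Pi.smul_apply, smul_eq_mul, RingHom.id_apply]; ring

/-- Splitting off a generator at the left of the first factor. -/
noncomputable def DL1 (q : ℂ) (i : Fin n) : Module.End ℂ (Fn2 n) where
  toFun ψ x := q ^ (-(hi x.1 i)) * ψ (x.1 + Pi.single i 1, x.2)
  map_add' ψ φ := by funext x; simp only [Pi.add_apply]; ring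
  map_smul' c ψ := by funext x; simp only [Pi.smul_apply, smul_eq_mul, RingHom.id_apply]; ring

/-- Multiplication of the second factor from the right. -/
noncomputable def XR2 (q : ℂ) (i : Fin n) : Module.End ℂ (Fn2 n) where
  toFun ψ x := qn q (x.2 i) * q ^ (hi x.2 i) * ψ (x.1, x.2 - Pi.single i 1)
  map_add' ψ φ := by funext x; simp only [Pi.add_apply]; ring
  map_smul' c ψ := by funext x; simp only [Pi.smul_apply, smul_eq_mul, RingHom.id_apply]; ring

/-- Splitting off a generator at the right of the second factor. -/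
noncomputable def DR2 (q : ℂ) (i : Fin n) : Module.End ℂ (Fn2 n) where
  toFun ψ x := q ^ (-(lo x.2 i)) * ψ (x.1, x.2 + Pi.single i 1)
  map_add' ψ φ := by funext x; simp only [Pi.add_apply]; ring
  map_smul' c ψ := by funext x; simp only [Pi.smul_apply, smul_eq_mul, RingHom.id_apply]; ring

private theorem Ops11_hi_sub (a : Fin n → ℕ) {i : Fin n} (h : a i ≠ 0) :
    hi (a - Pi.single i 1) i = hi a i := by
  obtain ⟨b, rfl⟩ := exists_add h
  rw [add_sub_single, hi_add_self]

private theorem Ops11_lo_sub (a : Fin n → ℕ) {i : Fin n} (h : a i ≠ 0) :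
    lo (a - Pi.single i 1) i = lo a i := by
  obtain ⟨b, rfl⟩ := exists_add h
  rw [add_sub_single, lo_add_self]

private theorem Ops11_swap (a : Fin n → ℕ) (i j : Fin n) :
    a + Pi.single i 1 + Pi.single j 1 = a + Pi.single j 1 + Pi.single i 1 := by
  rw [add_assoc, add_comm (Pi.single i 1), ← add_assoc]

private theorem Ops11_termR (q : ℂ) (hq : q ≠ 0) (X : (Fin n → ℕ) → ℂ) (L : ℤ) (d : Fin n → ℕ)
    (i j : Fin n) :
    qn q (d i) * q ^ (hi d i) * (q ^ (lo (d - Pi.single i 1) j - L) *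
      qn q ((d - Pi.single i 1 : Fin n → ℕ) j) * X (d - Pi.single i 1 - Pi.single j 1)) =
    q ^ (lo d j - L) * qn q (d j) * (qn q ((d - Pi.single j 1 : Fin n → ℕ) i) *
      q ^ (hi (d - Pi.single j 1) i) * X (d - Pi.single j 1 - Pi.single i 1)) := by
  by_cases hi0 : d i = 0
  · have h1 : (d - Pi.single j 1 : Fin n → ℕ) i = 0 := by
      rw [Pi.sub_apply, hi0, Nat.zero_sub]
    rw [hi0, h1, Nat.cast_zero, qn_zero, zero_mul, zero_mul, zero_mul, zero_mul, mul_zero]
  · obtain ⟨a, ha⟩ := exists_add hi0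
    rw [ha, add_sub_single, hi_add_self]
    by_cases hij : j = i
    · rw [hij, add_sub_single, lo_add_self]
      ring
    · rw [lo_add, add_single_ne a hij]
      by_cases hj0 : a j = 0
      · rw [hj0, Nat.cast_zero, qn_zero, mul_zero, zero_mul, mul_zero, mul_zero, zero_mul]
      · obtain ⟨b, hb⟩ := exists_add hj0
        rw [hb, add_sub_single, Ops11_swap b j i, add_sub_single, add_sub_single, hi_add_self,
          hi_add, add_single_ne (b + Pi.single i 1) (Ne.symm hij), lo_add_self]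
        have e1 : q ^ (hi b i + if i < j then 1 else 0) * q ^ (lo b j - L) =
            q ^ ((lo b j + if i < j then 1 else 0) - L) * q ^ (hi b i) := by
          rw [← zpow_add₀ hq, ← zpow_add₀ hq]
          congr 1
          ring
        generalize q ^ (hi b i + if i < j then 1 else 0) = A1 at e1 ⊢
        generalize q ^ (lo b j - L) = A2 at e1 ⊢
        generalize q ^ ((lo b j + if i < j then 1 else 0) - L) = A3 at e1 ⊢
        generalize q ^ (hi b i) = A4 at e1 ⊢
        generalize qn q ((b + Pi.single i 1 : Fin n → ℕ) i) = B1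
        generalize qn q ((b + Pi.single j 1 : Fin n → ℕ) j) = B2
        linear_combination (B1 * B2 * X b) * e1

private theorem Ops11_Fo (q : ℂ) (ψ : Fn2 n) (c d : Fin n → ℕ) : Fo q n ψ (c, d) =
    ∑ i, q ^ (lo d i - lo c i) * qn q (d i) * ψ (c + Pi.single i 1, d - Pi.single i 1) := rfl

private theorem Ops11_Eo (q : ℂ) (ψ : Fn2 n) (c d : Fin n → ℕ) : Eo q n ψ (c, d) =
    ∑ i, q ^ (hi c i - hi d i) * qn q (c i) * ψ (c - Pi.single i 1, d + Pi.single i 1) := rfl

private theorem Ops11_XR2 (q : ℂ) (i : Fin n) (ψ : Fn2 n) (c d : Fin n → ℕ) : XR2 q i ψ (c, d) =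
    qn q (d i) * q ^ (hi d i) * ψ (c, d - Pi.single i 1) := rfl

private theorem Ops11_XL1 (q : ℂ) (i : Fin n) (ψ : Fn2 n) (c d : Fin n → ℕ) : XL1 q i ψ (c, d) =
    qn q (c i) * q ^ (lo c i) * ψ (c - Pi.single i 1, d) := rfl

theorem XR2_F (q : ℂ) (hq : q ≠ 0) (i : Fin n) : XR2 q i * Fo q n = Fo q n * XR2 q i := by
  refine LinearMap.ext fun ψ => funext fun x => ?_
  obtain ⟨c, d⟩ := x
  rw [Module.End.mul_apply, Module.End.mul_apply, Ops11_XR2, Ops11_Fo, Ops11_Fo, Finset.mul_sum]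
  refine Finset.sum_congr rfl fun j _ => ?_
  rw [Ops11_XR2]
  exact Ops11_termR q hq (fun e => ψ (c + Pi.single j 1, e)) (lo c j) d i j

theorem DR2_E (q : ℂ) (hq : q ≠ 0) (i : Fin n) : DR2 q i * Eo q n = Eo q n * DR2 q i := by
  ext ψ x
  obtain ⟨c, d⟩ := x
  change q ^ (-(lo d i)) * (∑ j, q ^ (hi c j - hi (d + Pi.single i 1) j) *
      qn q (c j) * ψ (c - Pi.single j 1, d + Pi.single i 1 + Pi.single j 1)) =
    ∑ j, q ^ (hi c j - hi d j) * qn q (c j) *
      (q ^ (-(lo (d + Pi.single j 1) i)) * ψ (c - Pi.single j 1, d + Pi.single j 1 + Pi.single i 1))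
  rw [Finset.mul_sum]
  refine Finset.sum_congr rfl fun j _ => ?_
  rw [Ops11_swap d i j, hi_add, lo_add]
  have e1 : q ^ (-(lo d i)) * q ^ (hi c j - (hi d j + if j < i then 1 else 0)) =
      q ^ (hi c j - hi d j) * q ^ (-(lo d i + if j < i then 1 else 0)) := by
    rw [← zpow_add₀ hq, ← zpow_add₀ hq]
    congr 1
    ring
  linear_combination (qn q (c j) * ψ (c - Pi.single j 1, d + Pi.single j 1 + Pi.single i 1)) * e1

private theorem Ops11_termL (q : ℂ) (hq : q ≠ 0) (X : (Fin n → ℕ) → ℂ) (L : ℤ) (d : Fin n → ℕ)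
    (i j : Fin n) :
    qn q (d i) * q ^ (lo d i) * (q ^ (hi (d - Pi.single i 1) j - L) *
      qn q ((d - Pi.single i 1 : Fin n → ℕ) j) * X (d - Pi.single i 1 - Pi.single j 1)) =
    q ^ (hi d j - L) * qn q (d j) * (qn q ((d - Pi.single j 1 : Fin n → ℕ) i) *
      q ^ (lo (d - Pi.single j 1) i) * X (d - Pi.single j 1 - Pi.single i 1)) := by
  by_cases hi0 : d i = 0
  · have h1 : (d - Pi.single j 1 : Fin n → ℕ) i = 0 := by
      rw [Pi.sub_apply, hi0, Nat.zero_sub]
    rw [hi0, h1, Nat.cast_zero, qn_zero, zero_mul, zero_mul, zero_mul, zero_mul, mul_zero]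
  · obtain ⟨a, ha⟩ := exists_add hi0
    rw [ha, add_sub_single, lo_add_self]
    by_cases hij : j = i
    · rw [hij, add_sub_single, hi_add_self]
      ring
    · rw [hi_add, add_single_ne a hij]
      by_cases hj0 : a j = 0
      · rw [hj0, Nat.cast_zero, qn_zero, mul_zero, zero_mul, mul_zero, mul_zero, zero_mul]
      · obtain ⟨b, hb⟩ := exists_add hj0
        rw [hb, add_sub_single, Ops11_swap b j i, add_sub_single, add_sub_single, lo_add_self,
          lo_add, add_single_ne (b + Pi.single i 1) (Ne.symm hij), hi_add_self]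
        have e1 : q ^ (lo b i + if j < i then 1 else 0) * q ^ (hi b j - L) =
            q ^ ((hi b j + if j < i then 1 else 0) - L) * q ^ (lo b i) := by
          rw [← zpow_add₀ hq, ← zpow_add₀ hq]
          congr 1
          ring
        generalize q ^ (lo b i + if j < i then 1 else 0) = A1 at e1 ⊢
        generalize q ^ (hi b j - L) = A2 at e1 ⊢
        generalize q ^ ((hi b j + if j < i then 1 else 0) - L) = A3 at e1 ⊢
        generalize q ^ (lo b i) = A4 at e1 ⊢
        generalize qn q ((b + Pi.single i 1 : Fin n → ℕ) i) = B1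
        generalize qn q ((b + Pi.single j 1 : Fin n → ℕ) j) = B2
        linear_combination (B1 * B2 * X b) * e1

theorem XL1_E (q : ℂ) (hq : q ≠ 0) (i : Fin n) : XL1 q i * Eo q n = Eo q n * XL1 q i := by
  refine LinearMap.ext fun ψ => funext fun x => ?_
  obtain ⟨d, c⟩ := x
  rw [Module.End.mul_apply, Module.End.mul_apply, Ops11_XL1, Ops11_Eo, Ops11_Eo, Finset.mul_sum]
  refine Finset.sum_congr rfl fun j _ => ?_
  rw [Ops11_XL1]
  exact Ops11_termL q hq (fun e => ψ (e, c + Pi.single j 1)) (hi c j) d i j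

theorem DL1_F (q : ℂ) (hq : q ≠ 0) (i : Fin n) : DL1 q i * Fo q n = Fo q n * DL1 q i := by
  ext ψ x
  obtain ⟨d, c⟩ := x
  change q ^ (-(hi d i)) * (∑ j, q ^ (lo c j - lo (d + Pi.single i 1) j) *
      qn q (c j) * ψ (d + Pi.single i 1 + Pi.single j 1, c - Pi.single j 1)) =
    ∑ j, q ^ (lo c j - lo d j) * qn q (c j) *
      (q ^ (-(hi (d + Pi.single j 1) i)) * ψ (d + Pi.single j 1 + Pi.single i 1, c - Pi.single j 1))
  rw [Finset.mul_sum]
  refine Finset.sum_congr rfl fun j _ => ?_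
  rw [Ops11_swap d i j, lo_add, hi_add]
  have e1 : q ^ (-(hi d i)) * q ^ (lo c j - (lo d j + if i < j then 1 else 0)) =
      q ^ (lo c j - lo d j) * q ^ (-(hi d i + if i < j then 1 else 0)) := by
    rw [← zpow_add₀ hq, ← zpow_add₀ hq]
    congr 1
    ring
  linear_combination (qn q (c j) * ψ (d + Pi.single j 1 + Pi.single i 1, c - Pi.single j 1)) * e1

theorem sum_DR2_XR2 (q : ℂ) (hq : q ≠ 0) (ψ : Fn2 n) (x : (Fin n → ℕ) × (Fin n → ℕ)) :
    ∑ i : Fin n, q ^ ((n : ℤ) - 1 - 2 * (i : ℕ)) * DR2 q i (XR2 q i ψ) x =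
      qn q (((∑ i, x.2 i : ℕ) : ℤ) + n) * ψ x := by
  obtain ⟨c, d⟩ := x
  rw [← sum_hi_lo_succ q hq d, Finset.sum_mul]
  refine Finset.sum_congr rfl fun i _ => ?_
  change q ^ ((n : ℤ) - 1 - 2 * (i : ℕ)) * (q ^ (-(lo d i)) *
    (qn q ((d + Pi.single i 1 : Fin n → ℕ) i) * q ^ (hi (d + Pi.single i 1) i) *
      ψ (c, d + Pi.single i 1 - Pi.single i 1))) = _
  have e1 : q ^ (hi d i - lo d i) = q ^ (-(lo d i)) * q ^ (hi d i) := by
    rw [← zpow_add₀ hq]
    congr 1
    ring
  rw [add_sub_single, hi_add_self, add_single_self, e1]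
  push_cast
  ring

theorem sum_XL1_DL1 (q : ℂ) (hq : q ≠ 0) (ψ : Fn2 n) (x : (Fin n → ℕ) × (Fin n → ℕ)) :
    ∑ i : Fin n, XL1 q i (DL1 q i ψ) x = qn q ((∑ i, x.1 i : ℕ) : ℤ) * ψ x := by
  obtain ⟨c, d⟩ := x
  rw [← sum_lo_hi q hq c, Finset.sum_mul]
  refine Finset.sum_congr rfl fun i _ => ?_
  change qn q (c i) * q ^ (lo c i) * (q ^ (-(hi (c - Pi.single i 1) i)) *
    ψ (c - Pi.single i 1 + Pi.single i 1, d)) = _
  by_cases h : c i = 0
  · rw [h, Nat.cast_zero, qn_zero]; ring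
  · rw [Ops11_hi_sub c h, sub_add_single h, sub_eq_add_neg, zpow_add₀ hq]
    ring

theorem sum_XR2_DR2 (q : ℂ) (hq : q ≠ 0) (ψ : Fn2 n) (x : (Fin n → ℕ) × (Fin n → ℕ)) :
    ∑ i : Fin n, XR2 q i (DR2 q i ψ) x = qn q ((∑ i, x.2 i : ℕ) : ℤ) * ψ x := by
  obtain ⟨d, c⟩ := x
  rw [← sum_hi_lo q hq c, Finset.sum_mul]
  refine Finset.sum_congr rfl fun i _ => ?_
  change qn q (c i) * q ^ (hi c i) * (q ^ (-(lo (c - Pi.single i 1) i)) *
    ψ (d, c - Pi.single i 1 + Pi.single i 1)) = _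
  by_cases h : c i = 0
  · rw [h, Nat.cast_zero, qn_zero]; ring
  · rw [Ops11_lo_sub c h, sub_add_single h, sub_eq_add_neg, zpow_add₀ hq]
    ring

theorem sum_DL1_XL1 (q : ℂ) (hq : q ≠ 0) (ψ : Fn2 n) (x : (Fin n → ℕ) × (Fin n → ℕ)) :
    ∑ i : Fin n, (q ^ ((n : ℤ) - 1 - 2 * (i : ℕ)))⁻¹ * DL1 q i (XL1 q i ψ) x =
      qn q (((∑ i, x.1 i : ℕ) : ℤ) + n) * ψ x := by
  obtain ⟨d, c⟩ := x
  rw [← sum_lo_hi_succ q hq d, Finset.sum_mul]
  refine Finset.sum_congr rfl fun i _ => ?_
  change (q ^ ((n : ℤ) - 1 - 2 * (i : ℕ)))⁻¹ * (q ^ (-(hi d i)) *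
    (qn q ((d + Pi.single i 1 : Fin n → ℕ) i) * q ^ (lo (d + Pi.single i 1) i) *
      ψ (d + Pi.single i 1 - Pi.single i 1, c))) = _
  have e1 : q ^ (lo d i - hi d i) = q ^ (-(hi d i)) * q ^ (lo d i) := by
    rw [← zpow_add₀ hq]
    congr 1
    ring
  rw [add_sub_single, lo_add_self, add_single_self, e1]
  push_cast
  ring

private theorem Ops11_diff (q : ℂ) (hq : q ≠ 0) (x y : ℤ) :
    qn q x * qn q (y + 1) - qn q y * qn q (x + 1) = qn q (x - y) := by
  by_cases h : br q 1 = 0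
  · have h1 : ∀ a, qn q a = 0 := fun a => by unfold qn; rw [h, div_zero]
    rw [h1, h1 (x - y), h1 y]
    ring
  · have h1 := qn_three_term q hq x y 1
    rw [qn_one q h] at h1
    linear_combination h1

theorem EF_comm_apply (q : ℂ) (hq : q ≠ 0) (ψ : Fn2 n) (x : (Fin n → ℕ) × (Fin n → ℕ)) :
    Eo q n (Fo q n ψ) x = Fo q n (Eo q n ψ) x +
      qn q (((∑ i, x.1 i : ℕ) : ℤ) - ((∑ i, x.2 i : ℕ) : ℤ)) * ψ x := by
  obtain ⟨c, d⟩ := x
  have h0 : (((∑ i, c i : ℕ) : ℤ) - ((∑ i, d i : ℕ) : ℤ)) = ∑ i, ((c i : ℤ) - (d i : ℤ)) := by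
    push_cast
    rw [Finset.sum_sub_distrib]
  change (∑ i, q ^ (hi c i - hi d i) * qn q (c i) * (∑ j, q ^ (lo (d + Pi.single i 1) j -
      lo (c - Pi.single i 1) j) * qn q ((d + Pi.single i 1 : Fin n → ℕ) j) *
        ψ (c - Pi.single i 1 + Pi.single j 1, d + Pi.single i 1 - Pi.single j 1))) =
    (∑ j, q ^ (lo d j - lo c j) * qn q (d j) * (∑ i, q ^ (hi (c + Pi.single j 1) i -
      hi (d - Pi.single j 1) i) * qn q ((c + Pi.single j 1 : Fin n → ℕ) i) *
        ψ (c + Pi.single j 1 - Pi.single i 1, d - Pi.single j 1 + Pi.single i 1))) +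
      qn q (((∑ i, c i : ℕ) : ℤ) - ((∑ i, d i : ℕ) : ℤ)) * ψ (c, d)
  rw [h0, ← sum_int q hq (fun i => (c i : ℤ) - (d i : ℤ))]
  simp only [Finset.mul_sum, Finset.sum_mul]
  conv_rhs =>
    arg 1
    rw [Finset.sum_comm]
  rw [← Finset.sum_add_distrib]
  refine Finset.sum_congr rfl fun i _ => ?_
  rw [← sub_eq_iff_eq_add', ← Finset.sum_sub_distrib, Finset.sum_eq_single i]
  · -- the diagonal terms
    have e1 : q ^ (hi c i - hi d i) * qn q (c i) * (q ^ (lo (d + Pi.single i 1) i -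
        lo (c - Pi.single i 1) i) * qn q ((d + Pi.single i 1 : Fin n → ℕ) i) *
          ψ (c - Pi.single i 1 + Pi.single i 1, d + Pi.single i 1 - Pi.single i 1)) =
        q ^ (hi c i - hi d i + (lo d i - lo c i)) * (qn q (c i) * qn q ((d i : ℤ) + 1)) *
          ψ (c, d) := by
      rw [add_sub_single, lo_add_self, add_single_self, zpow_add₀ hq]
      by_cases h : c i = 0
      · rw [h, Nat.cast_zero, qn_zero]; ring
      · rw [Ops11_lo_sub c h, sub_add_single h]
        push_cast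
        ring
    have e2 : q ^ (lo d i - lo c i) * qn q (d i) * (q ^ (hi (c + Pi.single i 1) i -
        hi (d - Pi.single i 1) i) * qn q ((c + Pi.single i 1 : Fin n → ℕ) i) *
          ψ (c + Pi.single i 1 - Pi.single i 1, d - Pi.single i 1 + Pi.single i 1)) =
        q ^ (hi c i - hi d i + (lo d i - lo c i)) * (qn q (d i) * qn q ((c i : ℤ) + 1)) *
          ψ (c, d) := by
      rw [add_sub_single, hi_add_self, add_single_self, zpow_add₀ hq]
      by_cases h : d i = 0
      · rw [h, Nat.cast_zero, qn_zero]; ring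
      · rw [Ops11_hi_sub d h, sub_add_single h]
        push_cast
        ring
    rw [e1, e2, ← Ops11_diff q hq (c i) (d i)]
    have e3 : (∑ j ∈ Finset.Ioi i, ((c j : ℤ) - (d j : ℤ)) -
        ∑ j ∈ Finset.Iio i, ((c j : ℤ) - (d j : ℤ))) = hi c i - hi d i + (lo d i - lo c i) := by
      unfold hi lo
      rw [Finset.sum_sub_distrib, Finset.sum_sub_distrib]
      ring
    rw [e3]
    ring
  · intro j _ hji
    rw [sub_eq_zero]
    have hij : i ≠ j := Ne.symm hji
    by_cases hc0 : c i = 0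
    · rw [add_single_ne c hij, hc0, Nat.cast_zero, qn_zero]
      ring
    · by_cases hd0 : d j = 0
      · rw [add_single_ne d hji, hd0, Nat.cast_zero, qn_zero]
        ring
      · obtain ⟨c, rfl⟩ := exists_add hc0
        obtain ⟨d, rfl⟩ := exists_add hd0
        rw [add_sub_single, add_sub_single, Ops11_swap d j i, add_sub_single, Ops11_swap c i j,
          add_sub_single]
        have h2 : (d + Pi.single i 1 + Pi.single j 1 : Fin n → ℕ) j =
            (d + Pi.single j 1 : Fin n → ℕ) j := by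
          rw [add_single_self, add_single_self, add_single_ne d hji]
        have h3 : (c + Pi.single j 1 + Pi.single i 1 : Fin n → ℕ) i =
            (c + Pi.single i 1 : Fin n → ℕ) i := by
          rw [add_single_self, add_single_self, add_single_ne c hij]
        have e1 : q ^ (hi (c + Pi.single i 1) i - hi (d + Pi.single j 1) i) *
            q ^ (lo (d + Pi.single i 1 + Pi.single j 1) j - lo c j) =
            q ^ (lo (d + Pi.single j 1) j - lo (c + Pi.single i 1) j) *
            q ^ (hi (c + Pi.single j 1 + Pi.single i 1) i - hi d i) := by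
          rw [← zpow_add₀ hq, ← zpow_add₀ hq]
          congr 1
          simp only [hi_add_self, lo_add_self, hi_add, lo_add]
          ring
        rw [h2, h3]
        linear_combination (qn q ((c + Pi.single i 1 : Fin n → ℕ) i) *
          qn q ((d + Pi.single j 1 : Fin n → ℕ) j) * ψ (c + Pi.single j 1, d + Pi.single i 1)) * e1
  · intro h; exact absurd (Finset.mem_univ _) h

end Pool.Agent.H63.VC11

end

section

/-! # `U_q(sl_2)` identities for `E` and `F` -/

namespace Pool.Agent.H63.VC11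

open Pool.Agent.H63.VC7 Pool.Agent.H63.VC8

variable {n : ℕ}

/-- The function `ψ` is supported on the indices of degrees `N` and `M`. -/
def HomD (N M : ℤ) (ψ : Fn2 n) : Prop :=
  ∀ x, ψ x ≠ 0 → ((∑ i, x.1 i : ℕ) : ℤ) = N ∧ ((∑ i, x.2 i : ℕ) : ℤ) = M

private theorem Sl11_sum_add (a : Fin n → ℕ) (i : Fin n) :
    ((∑ j, (a + Pi.single i 1 : Fin n → ℕ) j : ℕ) : ℤ) = ((∑ j, a j : ℕ) : ℤ) + 1 := by
  simp [Finset.sum_add_distrib]

private theorem Sl11_sum_sub {a : Fin n → ℕ} {i : Fin n} (h : a i ≠ 0) :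
    ((∑ j, (a - Pi.single i 1 : Fin n → ℕ) j : ℕ) : ℤ) = ((∑ j, a j : ℕ) : ℤ) - 1 := by
  obtain ⟨b, rfl⟩ := exists_add h
  rw [add_sub_single, Sl11_sum_add]
  ring

private theorem Sl11_qn_ne {q : ℂ} {k : ℕ} (h : qn q (k : ℤ) ≠ 0) : k ≠ 0 := by
  rintro rfl
  exact h (by simpa using qn_zero q)

theorem HomD_E (q : ℂ) {N M : ℤ} {ψ : Fn2 n} (h : HomD N M ψ) : HomD (N + 1) (M - 1) (Eo q n ψ) := by
  intro x hx
  rw [Eo_apply] at hx
  unfold opE at hx
  obtain ⟨i, _, hi⟩ := Finset.exists_ne_zero_of_sum_ne_zero hx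
  have h1 := right_ne_zero_of_mul hi
  have h2 := Sl11_qn_ne (right_ne_zero_of_mul (left_ne_zero_of_mul hi))
  obtain ⟨h3, h4⟩ := h _ h1
  simp only [] at h3 h4
  rw [Sl11_sum_sub h2] at h3
  rw [Sl11_sum_add] at h4
  constructor <;> omega

theorem HomD_F (q : ℂ) {N M : ℤ} {ψ : Fn2 n} (h : HomD N M ψ) : HomD (N - 1) (M + 1) (Fo q n ψ) := by
  intro x hx
  rw [Fo_apply] at hx
  unfold opF at hx
  obtain ⟨i, _, hi⟩ := Finset.exists_ne_zero_of_sum_ne_zero hx
  have h1 := right_ne_zero_of_mul hi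
  have h2 := Sl11_qn_ne (right_ne_zero_of_mul (left_ne_zero_of_mul hi))
  obtain ⟨h3, h4⟩ := h _ h1
  simp only [] at h3 h4
  rw [Sl11_sum_sub h2] at h4
  rw [Sl11_sum_add] at h3
  constructor <;> omega

theorem HomD_Epow (q : ℂ) (k : ℕ) {N M : ℤ} {ψ : Fn2 n} (h : HomD N M ψ) :
    HomD (N + k) (M - k) ((Eo q n ^ k) ψ) := by
  induction k with
  | zero => simpa using h
  | succ k ih =>
    rw [pow_succ', Module.End.mul_apply]
    have := HomD_E q ih
    push_cast
    rwa [show N + (k : ℤ) + 1 = N + ((k : ℤ) + 1) by ring,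
      show M - (k : ℤ) - 1 = M - ((k : ℤ) + 1) by ring] at this

theorem HomD_Fpow (q : ℂ) (k : ℕ) {N M : ℤ} {ψ : Fn2 n} (h : HomD N M ψ) :
    HomD (N - k) (M + k) ((Fo q n ^ k) ψ) := by
  induction k with
  | zero => simpa using h
  | succ k ih =>
    rw [pow_succ', Module.End.mul_apply]
    have := HomD_F q ih
    push_cast
    rwa [show N - (k : ℤ) - 1 = N - ((k : ℤ) + 1) by ring,
      show M + (k : ℤ) + 1 = M + ((k : ℤ) + 1) by ring] at this

theorem HomD_neg_right {N M : ℤ} {ψ : Fn2 n} (h : HomD N M ψ) (hM : M < 0) : ψ = 0 := by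
  funext x
  by_contra hx
  have := (h x hx).2
  omega

theorem HomD_neg_left {N M : ℤ} {ψ : Fn2 n} (h : HomD N M ψ) (hN : N < 0) : ψ = 0 := by
  funext x
  by_contra hx
  have := (h x hx).1
  omega

theorem EF_comm (q : ℂ) (hq : q ≠ 0) {N M : ℤ} {ψ : Fn2 n} (h : HomD N M ψ) :
    Eo q n (Fo q n ψ) = Fo q n (Eo q n ψ) + qn q (N - M) • ψ := by
  funext x
  rw [EF_comm_apply q hq, Pi.add_apply, Pi.smul_apply, smul_eq_mul]
  by_cases hx : ψ x = 0
  · rw [hx, mul_zero, mul_zero]
  · obtain ⟨h1, h2⟩ := h x hx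
    rw [h1, h2]

/-- The functions of degrees `N`, `M` as a subspace. -/
private def Sl11_S (n : ℕ) (N M : ℤ) : Submodule ℂ (Fn2 n) where
  carrier := {ψ | HomD N M ψ}
  add_mem' := by
    intro a b ha hb x hx
    rw [Pi.add_apply] at hx
    by_cases h : a x = 0
    · rw [h, zero_add] at hx
      exact hb x hx
    · exact ha x h
  zero_mem' := fun x hx => absurd rfl hx
  smul_mem' := by
    intro c a ha x hx
    rw [Pi.smul_apply, smul_eq_mul] at hx
    exact ha x (right_ne_zero_of_mul hx)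

private theorem Sl11_mem {N M : ℤ} {ψ : Fn2 n} : ψ ∈ Sl11_S n N M ↔ HomD N M ψ := Iff.rfl

/-- `[k+1][x-k] + [x-2k-2] = [k+2][x-k-1]`. -/
private theorem Sl11_num (q : ℂ) (hq : q ≠ 0) (h1 : br q 1 ≠ 0) (x k : ℤ) :
    qn q (k + 1) * qn q (x - k) + qn q (x - 2 * k - 2) = qn q (k + 2) * qn q (x - k - 1) := by
  have h := qn_three_term q hq (k + 2) (x - k) (-1)
  have h2 := qn_neg q (2 * k + 2 - x)
  rw [qn_neg q 1, qn_one q h1] at h
  rw [show -(2 * k + 2 - x) = x - 2 * k - 2 by ring] at h2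
  rw [show x - k - 1 = x - k + -1 by ring, h, h2, show k + 2 + -1 = k + 1 by ring,
    show k + 2 - (x - k) = 2 * k + 2 - x by ring]
  ring

/-- `E F^(k+1) = F^(k+1) E + [k+1] [A-B-k] F^k`. -/
private theorem Sl11_EFk (q : ℂ) (hq : q ≠ 0) (h1 : br q 1 ≠ 0) {A B : ℤ} {φ : Fn2 n}
    (h : HomD A B φ) (k : ℕ) :
    Eo q n ((Fo q n ^ (k + 1)) φ) = (Fo q n ^ (k + 1)) (Eo q n φ) +
      (qn q ((k : ℤ) + 1) * qn q (A - B - k)) • (Fo q n ^ k) φ := by
  induction k with
  | zero =>
    simp only [zero_add, pow_one, pow_zero, Nat.cast_zero, sub_zero, qn_one q h1, one_mul]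
    exact EF_comm q hq h
  | succ k ih =>
    rw [pow_succ' (Fo q n) (k + 1), Module.End.mul_apply, EF_comm q hq (HomD_Fpow q (k + 1) h), ih,
      map_add, map_smul, Module.End.mul_apply, ← Module.End.mul_apply (Fo q n) (Fo q n ^ k),
      ← pow_succ', add_assoc, ← add_smul]
    congr 2
    have := Sl11_num q hq h1 (A - B) k
    push_cast
    rw [show A - ((k : ℤ) + 1) - (B + ((k : ℤ) + 1)) = A - B - 2 * k - 2 by ring, this,
      show (k : ℤ) + 1 + 1 = k + 2 by ring, show A - B - ((k : ℤ) + 1) = A - B - k - 1 by ring]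

/-- `F E^(k+1) = E^(k+1) F + [k+1] [B-A-k] E^k`. -/
private theorem Sl11_FEk (q : ℂ) (hq : q ≠ 0) (h1 : br q 1 ≠ 0) {A B : ℤ} {φ : Fn2 n}
    (h : HomD A B φ) (k : ℕ) :
    Fo q n ((Eo q n ^ (k + 1)) φ) = (Eo q n ^ (k + 1)) (Fo q n φ) +
      (qn q ((k : ℤ) + 1) * qn q (B - A - k)) • (Eo q n ^ k) φ := by
  have hc : ∀ {N M : ℤ} {ψ : Fn2 n}, HomD N M ψ →
      Fo q n (Eo q n ψ) = Eo q n (Fo q n ψ) + qn q (M - N) • ψ := by
    intro N M ψ hψ
    rw [EF_comm q hq hψ, show M - N = -(N - M) by ring, qn_neg, neg_smul, add_assoc, add_neg_cancel,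
      add_zero]
  induction k with
  | zero =>
    simp only [zero_add, pow_one, pow_zero, Nat.cast_zero, sub_zero, qn_one q h1, one_mul]
    exact hc h
  | succ k ih =>
    rw [pow_succ' (Eo q n) (k + 1), Module.End.mul_apply, hc (HomD_Epow q (k + 1) h), ih,
      map_add, map_smul, Module.End.mul_apply, ← Module.End.mul_apply (Eo q n) (Eo q n ^ k),
      ← pow_succ', add_assoc, ← add_smul]
    congr 2
    have := Sl11_num q hq h1 (B - A) k
    push_cast
    rw [show B - ((k : ℤ) + 1) - (A + ((k : ℤ) + 1)) = B - A - 2 * k - 2 by ring, this,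
      show (k : ℤ) + 1 + 1 = k + 2 by ring, show B - A - ((k : ℤ) + 1) = B - A - k - 1 by ring]

theorem EF_eq_FE (q : ℂ) (hq : q ≠ 0) (h1 : br q 1 ≠ 0) {N : ℤ} {ψ : Fn2 n} (h : HomD N N ψ)
    (k : ℕ) : (Eo q n ^ k) ((Fo q n ^ k) ψ) = (Fo q n ^ k) ((Eo q n ^ k) ψ) := by
  induction k generalizing ψ with
  | zero => rfl
  | succ k ih =>
    have hEF : Eo q n (Fo q n ψ) = Fo q n (Eo q n ψ) := by
      rw [EF_comm q hq h, sub_self, qn_zero, zero_smul, add_zero]
    have hm : HomD N N (Fo q n (Eo q n ψ)) := by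
      have := HomD_F q (HomD_E q h)
      rwa [add_sub_cancel_right, sub_add_cancel] at this
    set c : ℂ := qn q ((k : ℤ) + 1) * qn q (N - N - k) with hc
    have hm2 : HomD N N (Fo q n (Eo q n ψ) + c • ψ) :=
      (Sl11_S n N N).add_mem hm ((Sl11_S n N N).smul_mem c h)
    have e1 : (Eo q n ^ (k + 1)) ((Fo q n ^ (k + 1)) ψ) =
        (Eo q n ^ k) ((Fo q n ^ k) (Fo q n (Eo q n ψ) + c • ψ)) := by
      rw [pow_succ (Eo q n) k, Module.End.mul_apply, Sl11_EFk q hq h1 h k, pow_succ (Fo q n) k,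
        Module.End.mul_apply, map_add (Fo q n ^ k), map_smul (Fo q n ^ k)]
    have e2 : (Fo q n ^ (k + 1)) ((Eo q n ^ (k + 1)) ψ) =
        (Fo q n ^ k) ((Eo q n ^ k) (Fo q n (Eo q n ψ) + c • ψ)) := by
      rw [pow_succ (Fo q n) k, Module.End.mul_apply, Sl11_FEk q hq h1 h k, pow_succ (Eo q n) k,
        Module.End.mul_apply, map_add (Eo q n ^ k), map_smul (Eo q n ^ k), hEF]
    rw [e1, e2, ih hm2]

section Abstract

variable {V : Type*} [AddCommGroup V] [Module ℂ V]

/-- The data of the alternating sums. -/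
private theorem Sl11_star (E F : Module.End ℂ V) (S : Submodule ℂ V) (g : ℕ → ℂ)
    (hQ : ∀ ψ ∈ S, E (F ψ) ∈ S)
    (h1 : ∀ k : ℕ, ∀ ψ ∈ S, (E ^ (k + 1)) ((F ^ (k + 1)) ψ) =
      (E ^ k) ((F ^ k) (E (F ψ) - g k ^ 2 • ψ)))
    (h2 : ∀ k : ℕ, ∀ ψ ∈ S, (F ^ (k + 1)) ((E ^ (k + 1)) ψ) =
      (F ^ k) ((E ^ k) (E (F ψ) - g (k + 1) ^ 2 • ψ))) (K : ℕ) :
    ∀ ψ ∈ S, (E ^ (K + 1)) ((F ^ (K + 1)) ψ) = (F ^ K) ((E ^ K) (E (F ψ))) := by
  induction K with
  | zero => intro ψ _; simp
  | succ K ih =>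
    intro ψ hψ
    rw [h1 (K + 1) ψ hψ, ih _ (S.sub_mem (hQ ψ hψ) (S.smul_mem _ hψ)), h2 K _ (hQ ψ hψ)]
    simp only [map_sub, map_smul]

private theorem Sl11_abs_sum (E F : Module.End ℂ V) (S : Submodule ℂ V) (g : ℕ → ℂ)
    (hQ : ∀ ψ ∈ S, E (F ψ) ∈ S)
    (h1 : ∀ k : ℕ, ∀ ψ ∈ S, (E ^ (k + 1)) ((F ^ (k + 1)) ψ) =
      (E ^ k) ((F ^ k) (E (F ψ) - g k ^ 2 • ψ)))
    (h2 : ∀ k : ℕ, ∀ ψ ∈ S, (F ^ (k + 1)) ((E ^ (k + 1)) ψ) =
      (F ^ k) ((E ^ k) (E (F ψ) - g (k + 1) ^ 2 • ψ)))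
    (f : ℕ → ℂ) (hf : ∀ k, f (k + 1) = f k * g (k + 1)) {ψ : V} (hψ : ψ ∈ S)
    (K : ℕ) (hK : ∀ k ≤ K, f k ≠ 0) :
    ∑ k ∈ Finset.range (K + 1), ((-1) ^ k / f k ^ 2) • (E ^ k) ((F ^ k) ψ) =
      ((-1) ^ K / f K ^ 2) • (F ^ K) ((E ^ K) ψ) := by
  induction K with
  | zero => simp
  | succ K ih =>
    rw [Finset.sum_range_succ, ih fun k hk => hK k (by omega), Sl11_star E F S g hQ h1 h2 K ψ hψ,
      h2 K ψ hψ]
    simp only [map_sub, map_smul, smul_sub, smul_smul]
    have hne : f (K + 1) ≠ 0 := hK _ le_rfl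
    have hne0 : f K ≠ 0 := hK _ (by omega)
    have hg : g (K + 1) ≠ 0 := by
      intro h0
      rw [hf, h0, mul_zero] at hne
      exact hne rfl
    have e : ((-1 : ℂ) ^ (K + 1) / f (K + 1) ^ 2) * g (K + 1) ^ 2 = -((-1) ^ K / f K ^ 2) := by
      rw [hf]
      field_simp
      ring
    rw [e, neg_smul]
    abel

end Abstract

private theorem Sl11_sq (q : ℂ) (hq : q ≠ 0) (h1 : br q 1 ≠ 0) (k : ℤ) :
    qn q (k + 1) * qn q (1 - k) = 1 - qn q k ^ 2 := by
  have h := qn_three_term q hq 1 (1 - k) k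
  rw [sub_add_cancel, sub_sub_cancel, qn_one q h1, add_comm 1 k] at h
  linear_combination -h

private theorem Sl11_sq' (q : ℂ) (k : ℤ) :
    qn q (k + 1) * qn q (-1 - k) = -qn q (k + 1) ^ 2 := by
  rw [show -1 - k = -(k + 1) by ring, qn_neg]
  ring

private theorem Sl11_sum_main (q : ℂ) (hq : q ≠ 0) (h1 : br q 1 ≠ 0) {A B : ℤ} (hAB : A - B = 1)
    {ψ : Fn2 n} (h : HomD A B ψ) (K : ℕ) (hK : ∀ k ≤ K, qf q k ≠ 0) :
    ∑ k ∈ Finset.range (K + 1), ((-1) ^ k / qf q k ^ 2) • (Eo q n ^ k) ((Fo q n ^ k) ψ) =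
      ((-1) ^ K / qf q K ^ 2) • (Fo q n ^ K) ((Eo q n ^ K) ψ) := by
  refine Sl11_abs_sum (Eo q n) (Fo q n) (Sl11_S n A B) (fun k => qn q (k : ℤ)) ?_ ?_ ?_ (qf q)
    (fun k => by rw [qf_succ]; push_cast; rfl) h K hK
  · intro φ hφ
    have := HomD_E q (HomD_F q (Sl11_mem.1 hφ))
    rwa [sub_add_cancel, add_sub_cancel_right] at this
  · intro k φ hφ
    have hφ' := Sl11_mem.1 hφ
    rw [pow_succ (Eo q n) k, Module.End.mul_apply, Sl11_EFk q hq h1 hφ' k, EF_comm q hq hφ', hAB,
      Sl11_sq q hq h1, qn_one q h1, pow_succ (Fo q n) k, Module.End.mul_apply, one_smul, sub_smul,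
      one_smul]
    simp only [map_add, map_sub, map_smul]
    abel
  · intro k φ hφ
    have hφ' := Sl11_mem.1 hφ
    rw [pow_succ (Fo q n) k, Module.End.mul_apply, Sl11_FEk q hq h1 hφ' k,
      show B - A - (k : ℤ) = -1 - k by omega, Sl11_sq', pow_succ (Eo q n) k, Module.End.mul_apply]
    push_cast
    rw [neg_smul]
    simp only [map_add, map_sub, map_neg, map_smul]
    abel

private theorem Sl11_sum_main' (q : ℂ) (hq : q ≠ 0) (h1 : br q 1 ≠ 0) {A B : ℤ} (hAB : B - A = 1)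
    {ψ : Fn2 n} (h : HomD A B ψ) (K : ℕ) (hK : ∀ k ≤ K, qf q k ≠ 0) :
    ∑ k ∈ Finset.range (K + 1), ((-1) ^ k / qf q k ^ 2) • (Fo q n ^ k) ((Eo q n ^ k) ψ) =
      ((-1) ^ K / qf q K ^ 2) • (Eo q n ^ K) ((Fo q n ^ K) ψ) := by
  refine Sl11_abs_sum (Fo q n) (Eo q n) (Sl11_S n A B) (fun k => qn q (k : ℤ)) ?_ ?_ ?_ (qf q)
    (fun k => by rw [qf_succ]; push_cast; rfl) h K hK
  · intro φ hφ
    have := HomD_F q (HomD_E q (Sl11_mem.1 hφ))
    rwa [sub_add_cancel, add_sub_cancel_right] at this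
  · intro k φ hφ
    have hφ' := Sl11_mem.1 hφ
    have hc : Fo q n (Eo q n φ) = Eo q n (Fo q n φ) + φ := by
      rw [EF_comm q hq hφ', show A - B = -1 by omega, qn_neg, qn_one q h1, neg_smul, one_smul,
        neg_add_cancel_right]
    rw [pow_succ (Fo q n) k, Module.End.mul_apply, Sl11_FEk q hq h1 hφ' k, hc, hAB,
      Sl11_sq q hq h1, pow_succ (Eo q n) k, Module.End.mul_apply, sub_smul, one_smul]
    simp only [map_add, map_sub, map_smul]
    abel
  · intro k φ hφ
    have hφ' := Sl11_mem.1 hφ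
    rw [pow_succ (Eo q n) k, Module.End.mul_apply, Sl11_EFk q hq h1 hφ' k,
      show A - B - (k : ℤ) = -1 - k by omega, Sl11_sq', pow_succ (Fo q n) k, Module.End.mul_apply]
    push_cast
    rw [neg_smul]
    simp only [map_add, map_sub, map_neg, map_smul]
    abel

theorem sum_EF_zero (q : ℂ) (N : ℕ) (hg : Gen q n (N + 1)) (hn : 1 ≤ n) {ψ : Fn2 n}
    (h : HomD ((N : ℤ) + 1) N ψ) :
    ∑ k ∈ Finset.range (N + 2), ((-1) ^ k / qf q k ^ 2) • (Eo q n ^ k) ((Fo q n ^ k) ψ) = 0 := by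
  rw [Sl11_sum_main q hg.1 (hg.br_one hn) (by ring) h (N + 1) fun k hk => hg.qf_ne hn (by omega)]
  have h0 : (Eo q n ^ (N + 1)) ψ = 0 := HomD_neg_right (HomD_Epow q (N + 1) h) (by push_cast; omega)
  rw [h0, map_zero, smul_zero]

theorem sum_FE_zero (q : ℂ) (N : ℕ) (hg : Gen q n (N + 1)) (hn : 1 ≤ n) {ψ : Fn2 n}
    (h : HomD (N : ℤ) ((N : ℤ) + 1) ψ) :
    ∑ k ∈ Finset.range (N + 2), ((-1) ^ k / qf q k ^ 2) • (Fo q n ^ k) ((Eo q n ^ k) ψ) = 0 := by
  rw [Sl11_sum_main' q hg.1 (hg.br_one hn) (by ring) h (N + 1) fun k hk => hg.qf_ne hn (by omega)]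
  have h0 : (Fo q n ^ (N + 1)) ψ = 0 := HomD_neg_left (HomD_Fpow q (N + 1) h) (by push_cast; omega)
  rw [h0, map_zero, smul_zero]

end Pool.Agent.H63.VC11

end

section

/-! # Identities for the matrix elements of the crossing -/

namespace Pool.Agent.H63.VC11

open Pool.Agent.H63.VC7 Pool.Agent.H63.VC8

variable {n : ℕ}

/-- `∏ [a_i]!` -/
noncomputable def gf (q : ℂ) (a : Fin n → ℕ) : ℂ := ∏ i, qf q (a i)

/-- The product of the monomials `x ^ b` and `x ^ a`. -/
noncomputable def mon (q : ℂ) (b a : Fin n → ℕ) : Fn2 n := fun x =>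
  if x = (b, a) then gf q b * gf q a else 0

/-- The matrix elements of the crossing. -/
noncomputable def KR (q : ℂ) (N : ℕ) (e : ℤ) (c d b a : Fin n → ℕ) : ℂ :=
  opR q N e (mon q b a) (c, d)

/-- The matrix elements of `F ^ k E ^ k`. -/
noncomputable def KK (q : ℂ) (k : ℕ) (c d b a : Fin n → ℕ) : ℂ :=
  (Fo q n ^ k) ((Eo q n ^ k) (mon q b a)) (c, d)

theorem gf_add (q : ℂ) (a : Fin n → ℕ) (i : Fin n) :
    gf q (a + Pi.single i 1) = gf q a * qn q ((a i : ℤ) + 1) := by
  unfold gf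
  have h1 : ∀ j : Fin n, qf q ((a + Pi.single i 1 : Fin n → ℕ) j) =
      qf q (a j) * (if j = i then qn q ((a i : ℤ) + 1) else 1) := by
    intro j
    by_cases hj : j = i
    · subst hj
      rw [add_single_self, qf_succ, if_pos rfl]
    · rw [add_single_ne a hj, if_neg hj, mul_one]
  rw [Finset.prod_congr rfl fun j _ => h1 j, Finset.prod_mul_distrib, Finset.prod_ite_eq',
    if_pos (Finset.mem_univ i)]

theorem Gen.gf_ne {q : ℂ} {N M : ℕ} (h : Gen q n M) (hn : 1 ≤ n) (hN : N ≤ 4 * M + 2 * n)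
    (a : Vn n N) : gf q a.val ≠ 0 := by
  unfold gf
  rw [Finset.prod_ne_zero_iff]
  intro i _
  refine h.qf_ne hn (le_trans ?_ hN)
  have := Finset.single_le_sum (f := a.val) (fun j _ => Nat.zero_le _) (Finset.mem_univ i)
  rwa [a.sum] at this

theorem HomD_mon (q : ℂ) (b a : Fin n → ℕ) :
    HomD ((∑ i, b i : ℕ) : ℤ) ((∑ i, a i : ℕ) : ℤ) (mon q b a) := by
  intro x hx
  unfold mon at hx
  split_ifs at hx with h
  · subst h
    exact ⟨rfl, rfl⟩
  · exact absurd rfl hx

/-- the operator of the crossing in terms of `Eo`, `Fo` -/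
private theorem KH11_opR (q : ℂ) (N : ℕ) (e : ℤ) (ψ : Fn2 n) (x : (Fin n → ℕ) × (Fin n → ℕ)) :
    opR q N e ψ x = ∑ k ∈ Finset.range (N + 1), (-1) ^ (N - k) * q ^ (e * ((k : ℤ) - N)) /
      qf q k ^ 2 * (Eo q n ^ k) ((Fo q n ^ k) ψ) x := by
  unfold opR
  refine Finset.sum_congr rfl fun k _ => ?_
  rw [Eo_pow, Fo_pow]

theorem opR_smul (q : ℂ) (N : ℕ) (e : ℤ) (c : ℂ) (ψ : Fn2 n) (x : (Fin n → ℕ) × (Fin n → ℕ)) :
    opR q N e (fun p => c * ψ p) x = c * opR q N e ψ x := by
  have h : (fun p => c * ψ p) = c • ψ := rfl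
  rw [h, KH11_opR, KH11_opR, Finset.mul_sum]
  refine Finset.sum_congr rfl fun k _ => ?_
  rw [map_smul, map_smul, Pi.smul_apply, smul_eq_mul]
  ring

/-- The entries of `Rm` in terms of `KR`. -/
theorem Rm_eq (q : ℂ) (N : ℕ) (e : ℤ) (hg : Gen q n N) (hn : 1 ≤ n) (x y : I2 n N) :
    Rm q n N e x y = KR q N e x.1.val x.2.val y.1.val y.2.val / (gf q y.1.val * gf q y.2.val) := by
  have h1 := hg.gf_ne hn (by omega : N ≤ 4 * N + 2 * n) y.1
  have h2 := hg.gf_ne hn (by omega : N ≤ 4 * N + 2 * n) y.2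
  rw [eq_div_iff (mul_ne_zero h1 h2)]
  unfold KR Rm
  have h3 : mon q y.1.val y.2.val = fun p => gf q y.1.val * gf q y.2.val *
      (if p = (y.1.val, y.2.val) then (1 : ℂ) else 0) := by
    funext p
    unfold mon
    split_ifs <;> simp
  rw [h3, opR_smul, mul_comm]

/-- On `V_N ⊗ V_N` the operators `E ^ k F ^ k` and `F ^ k E ^ k` agree. -/
theorem KR_KK (q : ℂ) (N : ℕ) (e : ℤ) (hq : q ≠ 0) (h1 : br q 1 ≠ 0) (c d b a : Fin n → ℕ)
    (hb : ∑ i, b i = ∑ i, a i) :
    KR q N e c d b a = ∑ k ∈ Finset.range (N + 1), (-1) ^ (N - k) * q ^ (e * ((k : ℤ) - N)) /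
      qf q k ^ 2 * KK q k c d b a := by
  unfold KR KK
  rw [KH11_opR]
  refine Finset.sum_congr rfl fun k _ => ?_
  have h := HomD_mon q b a
  rw [hb] at h
  rw [EF_eq_FE q hq h1 h k]

/-- the reversal of functions of two indices -/
private def KH11_T (ψ : Fn2 n) : Fn2 n := fun x => ψ (fun i => x.2 i.rev, fun i => x.1 i.rev)

private theorem KH11_rev_sub (a : Fin n → ℕ) (i : Fin n) :
    (fun j : Fin n => (a - Pi.single i 1 : Fin n → ℕ) j.rev) =
      (fun j => a j.rev) - Pi.single i.rev 1 := by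
  funext j
  simp only [Pi.sub_apply, ← rev_single]

private theorem KH11_rev_add (a : Fin n → ℕ) (i : Fin n) :
    (fun j : Fin n => (a + Pi.single i 1 : Fin n → ℕ) j.rev) =
      (fun j => a j.rev) + Pi.single i.rev 1 := by
  funext j
  simp only [Pi.add_apply, ← rev_single]

private theorem KH11_TE (q : ℂ) (ψ : Fn2 n) : KH11_T (Eo q n ψ) = Fo q n (KH11_T ψ) := by
  funext x
  rw [Eo_apply, Fo_apply]
  unfold KH11_T opE opF
  rw [← Equiv.sum_comp Fin.revPerm]
  refine Finset.sum_congr rfl fun i _ => ?_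
  simp only [Fin.revPerm_apply, hi_rev, Fin.rev_rev, KH11_rev_sub, KH11_rev_add]

private theorem KH11_TF (q : ℂ) (ψ : Fn2 n) : KH11_T (Fo q n ψ) = Eo q n (KH11_T ψ) := by
  funext x
  rw [Eo_apply, Fo_apply]
  unfold KH11_T opE opF
  rw [← Equiv.sum_comp Fin.revPerm]
  refine Finset.sum_congr rfl fun i _ => ?_
  simp only [Fin.revPerm_apply, lo_rev, Fin.rev_rev, KH11_rev_sub, KH11_rev_add]

private theorem KH11_TEk (q : ℂ) (k : ℕ) (ψ : Fn2 n) :
    KH11_T ((Eo q n ^ k) ψ) = (Fo q n ^ k) (KH11_T ψ) := by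
  induction k with
  | zero => simp
  | succ k ih =>
    rw [pow_succ', pow_succ', Module.End.mul_apply, Module.End.mul_apply, KH11_TE, ih]

private theorem KH11_TFk (q : ℂ) (k : ℕ) (ψ : Fn2 n) :
    KH11_T ((Fo q n ^ k) ψ) = (Eo q n ^ k) (KH11_T ψ) := by
  induction k with
  | zero => simp
  | succ k ih =>
    rw [pow_succ', pow_succ', Module.End.mul_apply, Module.End.mul_apply, KH11_TF, ih]

private theorem KH11_gf_rev (q : ℂ) (a : Fin n → ℕ) : gf q (fun i => a i.rev) = gf q a := by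
  unfold gf
  exact Equiv.prod_comp Fin.revPerm (fun i => qf q (a i))

private theorem KH11_rev_inj (a b : Fin n → ℕ) :
    (fun i : Fin n => a i.rev) = (fun i => b i.rev) ↔ a = b := by
  constructor
  · intro h
    funext i
    have := congrFun h i.rev
    simpa using this
  · rintro rfl
    rfl

private theorem KH11_Tmon (q : ℂ) (b a : Fin n → ℕ) :
    KH11_T (mon q (fun i => a i.rev) (fun i => b i.rev)) = mon q b a := by
  funext x
  unfold KH11_T mon
  rw [KH11_gf_rev, KH11_gf_rev]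
  have h : ((fun i => x.2 i.rev, fun i => x.1 i.rev) : (Fin n → ℕ) × (Fin n → ℕ)) =
      (fun i => a i.rev, fun i => b i.rev) ↔ x = (b, a) := by
    rw [Prod.mk.injEq, KH11_rev_inj, KH11_rev_inj, Prod.ext_iff]
    exact and_comm
  by_cases h1 : x = (b, a)
  · rw [if_pos h1, if_pos (h.2 h1), mul_comm]
  · rw [if_neg h1, if_neg fun h2 => h1 (h.1 h2)]

/-- The symmetry of the crossing. -/
theorem KR_flip (q : ℂ) (N : ℕ) (e : ℤ) (hq : q ≠ 0) (h1 : br q 1 ≠ 0) (c d b a : Fin n → ℕ)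
    (hb : ∑ i, b i = ∑ i, a i) :
    KR q N e (fun i => d i.rev) (fun i => c i.rev) (fun i => a i.rev) (fun i => b i.rev) =
      KR q N e c d b a := by
  rw [KR_KK q N e hq h1 c d b a hb]
  unfold KR KK
  rw [KH11_opR]
  refine Finset.sum_congr rfl fun k _ => ?_
  congr 1
  have h2 : KH11_T ((Eo q n ^ k) ((Fo q n ^ k) (mon q (fun i => a i.rev) (fun i => b i.rev)))) =
      (Fo q n ^ k) ((Eo q n ^ k) (mon q b a)) := by
    rw [KH11_TEk, KH11_TFk, KH11_Tmon]
  exact congrFun h2 (c, d)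

private theorem KH11_wtE (q : ℂ) (s : Fin n → ℕ) (ψ : Fn2 n) (h : ∀ x, ψ x ≠ 0 → x.1 + x.2 = s) :
    ∀ x, Eo q n ψ x ≠ 0 → x.1 + x.2 = s := by
  intro x hx
  rw [Eo_apply] at hx
  unfold opE at hx
  obtain ⟨i, _, hi⟩ := Finset.exists_ne_zero_of_sum_ne_zero hx
  have h1 : ψ (x.1 - Pi.single i 1, x.2 + Pi.single i 1) ≠ 0 := right_ne_zero_of_mul hi
  have h2 : x.1 i ≠ 0 := by
    intro h0
    apply hi
    rw [h0, Nat.cast_zero, qn_zero, mul_zero, zero_mul]
  have h3 := h _ h1
  obtain ⟨b, hb⟩ := VC11.exists_add h2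
  rw [← h3, hb]
  simp only [add_sub_single]
  rw [add_assoc, add_comm (Pi.single i 1) x.2]

private theorem KH11_wtF (q : ℂ) (s : Fin n → ℕ) (ψ : Fn2 n) (h : ∀ x, ψ x ≠ 0 → x.1 + x.2 = s) :
    ∀ x, Fo q n ψ x ≠ 0 → x.1 + x.2 = s := by
  intro x hx
  rw [Fo_apply] at hx
  unfold opF at hx
  obtain ⟨i, _, hi⟩ := Finset.exists_ne_zero_of_sum_ne_zero hx
  have h1 : ψ (x.1 + Pi.single i 1, x.2 - Pi.single i 1) ≠ 0 := right_ne_zero_of_mul hi
  have h2 : x.2 i ≠ 0 := by
    intro h0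
    apply hi
    rw [h0, Nat.cast_zero, qn_zero, mul_zero, zero_mul]
  have h3 := h _ h1
  obtain ⟨b, hb⟩ := VC11.exists_add h2
  rw [← h3, hb]
  simp only [add_sub_single]
  rw [add_assoc, add_comm (Pi.single i 1) b]

private theorem KH11_wtEk (q : ℂ) (s : Fin n → ℕ) (k : ℕ) (ψ : Fn2 n)
    (h : ∀ x, ψ x ≠ 0 → x.1 + x.2 = s) :
    ∀ x, (Eo q n ^ k) ψ x ≠ 0 → x.1 + x.2 = s := by
  induction k with
  | zero => simpa using h
  | succ k ih =>
    rw [pow_succ', Module.End.mul_apply]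
    exact KH11_wtE q s _ ih

private theorem KH11_wtFk (q : ℂ) (s : Fin n → ℕ) (k : ℕ) (ψ : Fn2 n)
    (h : ∀ x, ψ x ≠ 0 → x.1 + x.2 = s) :
    ∀ x, (Fo q n ^ k) ψ x ≠ 0 → x.1 + x.2 = s := by
  induction k with
  | zero => simpa using h
  | succ k ih =>
    rw [pow_succ', Module.End.mul_apply]
    exact KH11_wtF q s _ ih

/-- The crossing preserves the weight. -/
theorem KR_wt (q : ℂ) (N : ℕ) (e : ℤ) (c d b a : Fin n → ℕ) (h : KR q N e c d b a ≠ 0) :
    c + d = b + a := by
  unfold KR at h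
  rw [KH11_opR] at h
  obtain ⟨k, _, hk⟩ := Finset.exists_ne_zero_of_sum_ne_zero h
  have h1 := right_ne_zero_of_mul hk
  refine KH11_wtEk q (b + a) k _ (KH11_wtFk q (b + a) k _ ?_) (c, d) h1
  intro x hx
  unfold mon at hx
  split_ifs at hx with h2
  · subst h2
    rfl
  · exact absurd rfl hx

end Pool.Agent.H63.VC11

end

section

/-! # The extreme term of the crossing -/

namespace Pool.Agent.H63.VC11

open Pool.Agent.H63.VC7 Pool.Agent.H63.VC8

variable {n : ℕ}

/-- `∑_{i < j} a_i b_j` -/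
def bil (a b : Fin n → ℕ) : ℤ := ∑ i, (a i : ℤ) * hi b i

private theorem bil_zero_left (b : Fin n → ℕ) : bil 0 b = 0 := by
  simp [bil]

private theorem bil_zero_right (a : Fin n → ℕ) : bil a 0 = 0 := by
  simp [bil, hi]

private theorem bil_add_left (a b : Fin n → ℕ) (i : Fin n) :
    bil (a + Pi.single i 1) b = bil a b + hi b i := by
  unfold bil
  have h : ∀ j : Fin n, (((a + Pi.single i 1 : Fin n → ℕ) j : ℕ) : ℤ) * hi b j =
      (a j : ℤ) * hi b j + if j = i then hi b j else 0 := by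
    intro j
    by_cases hj : j = i
    · subst hj
      simp only [Pi.add_apply, Pi.single_eq_same, Nat.cast_add, Nat.cast_one, if_true]
      ring
    · simp [hj]
  rw [Finset.sum_congr rfl fun j _ => h j, Finset.sum_add_distrib, Finset.sum_ite_eq']
  simp

private theorem bil_add_right (a b : Fin n → ℕ) (i : Fin n) :
    bil a (b + Pi.single i 1) = bil a b + lo a i := by
  unfold bil lo
  have h : ∀ j : Fin n, (a j : ℤ) * hi (b + Pi.single i 1) j =
      (a j : ℤ) * hi b j + if j < i then (a j : ℤ) else 0 := by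
    intro j
    rw [hi_add]
    split_ifs <;> ring
  rw [Finset.sum_congr rfl fun j _ => h j, Finset.sum_add_distrib, ← Finset.sum_filter]
  congr 1
  apply Finset.sum_congr _ fun _ _ => rfl
  ext j
  simp

private theorem gf_zero' (q : ℂ) : gf q (0 : Fin n → ℕ) = 1 := by
  simp [gf, qf_zero]

private theorem sum_sub (a : Fin n → ℕ) (i : Fin n) (N : ℕ) (h : a i ≠ 0)
    (ha : ∑ j, a j = N + 1) : ∑ j, (a - Pi.single i 1 : Fin n → ℕ) j = N := by
  have h1 := sub_add_single h
  have h2 : ∑ j, (a - Pi.single i 1 + Pi.single i 1 : Fin n → ℕ) j = N + 1 := by rw [h1, ha]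
  simp only [Pi.add_apply, Finset.sum_add_distrib] at h2
  simpa using h2

private theorem E_mon (q : ℂ) (b a : Fin n → ℕ) :
    Eo q n (mon q b a) = ∑ i, (qn q (a i) * q ^ (hi b i - hi a i)) •
      mon q (b + Pi.single i 1) (a - Pi.single i 1) := by
  funext x
  rw [Eo_apply, opE, Finset.sum_apply]
  refine Finset.sum_congr rfl fun i _ => ?_
  simp only [Pi.smul_apply, smul_eq_mul, mon]
  by_cases hx : x.1 i = 0
  · rw [hx, if_neg (c := x = _)]
    · simp [qn_zero]
    · intro h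
      rw [h] at hx
      simp at hx
  by_cases ha : a i = 0
  · rw [ha, if_neg (c := (x.1 - Pi.single i 1, x.2 + Pi.single i 1) = _)]
    · simp [qn_zero]
    · intro h
      have h2 := congrArg (fun p => p.2 i) h
      simp [ha] at h2
  obtain ⟨a', rfl⟩ := exists_add ha
  obtain ⟨x1, x2⟩ := x
  simp only at hx ⊢
  obtain ⟨x', rfl⟩ := exists_add hx
  rw [add_sub_single, add_sub_single]
  by_cases h : x' = b ∧ x2 = a'
  · obtain ⟨rfl, rfl⟩ := h
    rw [if_pos rfl, if_pos rfl, gf_add, gf_add]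
    simp only [hi_add_self, add_single_self]
    push_cast
    ring
  · rw [if_neg, if_neg]
    · ring
    · intro h2
      apply h
      have h3 := congrArg Prod.fst h2
      have h4 := congrArg Prod.snd h2
      exact ⟨add_right_cancel h3, h4⟩
    · intro h2
      apply h
      have h3 := congrArg Prod.fst h2
      have h4 := congrArg Prod.snd h2
      exact ⟨h3, add_right_cancel h4⟩

private theorem E_full' (q : ℂ) (hq : q ≠ 0) (N : ℕ) : ∀ (b a : Fin n → ℕ)
    (_ : ∑ i, a i = N),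
    (Eo q n ^ N) (mon q b a) = fun x =>
      if x = (a + b, 0) then qf q N * q ^ bil a b * gf q (a + b) else 0 := by
  induction N with
  | zero =>
    intro b a ha
    have ha0 : a = 0 := by
      funext i
      have := (Finset.sum_eq_zero_iff.1 ha) i (Finset.mem_univ i)
      simpa using this
    subst ha0
    funext x
    simp only [pow_zero, Module.End.one_apply, mon, zero_add, gf_zero', qf_zero, bil_zero_left,
      zpow_zero, mul_one, one_mul]
  | succ N ih =>
    intro b a ha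
    rw [pow_succ, Module.End.mul_apply, E_mon, map_sum]
    funext x
    rw [Finset.sum_apply]
    have h1 : ∀ i : Fin n, ((Eo q n ^ N) ((qn q (a i) * q ^ (hi b i - hi a i)) •
        mon q (b + Pi.single i 1) (a - Pi.single i 1))) x =
        (qn q (a i) * q ^ (lo a i - hi a i)) *
          (if x = (a + b, 0) then qf q N * q ^ bil a b * gf q (a + b) else 0) := by
      intro i
      by_cases hai : a i = 0
      · rw [hai]; simp [qn_zero]
      · rw [map_smul, Pi.smul_apply, smul_eq_mul, ih _ _ (sum_sub a i N hai ha)]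
        have h2 : a - Pi.single i 1 + (b + Pi.single i 1) = a + b := by
          rw [add_comm b, ← add_assoc, sub_add_single hai]
        rw [h2]
        have h3 : bil (a - Pi.single i 1) (b + Pi.single i 1) = bil a b - hi b i + lo a i := by
          obtain ⟨a', rfl⟩ := exists_add hai
          rw [add_sub_single, bil_add_right, bil_add_left, lo_add_self]
          ring
        rw [h3]
        beta_reduce
        split_ifs with hx
        · have h4 : q ^ (hi b i - hi a i) * q ^ (bil a b - hi b i + lo a i) =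
              q ^ (lo a i - hi a i) * q ^ bil a b := by
            rw [← zpow_add₀ hq, ← zpow_add₀ hq]
            congr 1
            ring
          linear_combination (qn q (a i) * qf q N * gf q (a + b)) * h4
        · simp
    rw [Finset.sum_congr rfl fun i _ => h1 i, ← Finset.sum_mul, sum_lo_hi q hq, ha]
    split_ifs with hx
    · rw [qf_succ]
      push_cast
      ring
    · simp

theorem E_full (q : ℂ) (N : ℕ) (hg : Gen q n N) (hn : 1 ≤ n) (b a : Fin n → ℕ)
    (ha : ∑ i, a i = N) :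
    (Eo q n ^ N) (mon q b a) = fun x =>
      if x = (a + b, 0) then qf q N * q ^ bil a b * gf q (a + b) else 0 :=
  E_full' q hg.1 N b a ha

private theorem F_full' (q : ℂ) (hq : q ≠ 0) (g : Fin n → ℕ) (N : ℕ) : ∀ (c d : Fin n → ℕ)
    (_ : ∑ i, d i = N),
    (Fo q n ^ N) (fun x => if x = (g, 0) then 1 else 0) (c, d) =
      if c + d = g then qf q N * q ^ (-bil c d) else 0 := by
  induction N with
  | zero =>
    intro c d hd
    have hd0 : d = 0 := by
      funext i
      have := (Finset.sum_eq_zero_iff.1 hd) i (Finset.mem_univ i)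
      simpa using this
    subst hd0
    simp only [pow_zero, Module.End.one_apply, add_zero, bil_zero_right, neg_zero, zpow_zero,
      qf_zero, mul_one, Prod.mk.injEq, and_true]
  | succ N ih =>
    intro c d hd
    rw [pow_succ', Module.End.mul_apply, Fo_apply, opF]
    have h1 : ∀ i : Fin n, q ^ (lo d i - lo c i) * qn q (d i) *
        ((Fo q n ^ N) (fun x => if x = (g, 0) then 1 else 0))
          (c + Pi.single i 1, d - Pi.single i 1) =
        (qn q (d i) * q ^ (lo d i - hi d i)) *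
          (if c + d = g then qf q N * q ^ (-bil c d) else 0) := by
      intro i
      by_cases hdi : d i = 0
      · rw [hdi]; simp [qn_zero]
      · rw [ih _ _ (sum_sub d i N hdi hd)]
        have h2 : c + Pi.single i 1 + (d - Pi.single i 1) = c + d := by
          rw [add_assoc, add_comm (Pi.single i 1), sub_add_single hdi]
        rw [h2]
        have h3 : bil (c + Pi.single i 1) (d - Pi.single i 1) = bil c d - lo c i + hi d i := by
          obtain ⟨d', rfl⟩ := exists_add hdi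
          rw [add_sub_single, bil_add_right, bil_add_left, hi_add_self]
          ring
        rw [h3]
        split_ifs with hx
        · have h4 : q ^ (lo d i - lo c i) * q ^ (-(bil c d - lo c i + hi d i)) =
              q ^ (lo d i - hi d i) * q ^ (-bil c d) := by
            rw [← zpow_add₀ hq, ← zpow_add₀ hq]
            congr 1
            ring
          linear_combination (qn q (d i) * qf q N) * h4
        · simp
    simp only
    rw [Finset.sum_congr rfl fun i _ => h1 i, ← Finset.sum_mul, sum_lo_hi q hq, hd]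
    split_ifs with hx
    · rw [qf_succ]
      push_cast
      ring
    · simp

theorem F_full (q : ℂ) (N : ℕ) (hg : Gen q n N) (hn : 1 ≤ n) (g c d : Fin n → ℕ)
    (hd : ∑ i, d i = N) :
    (Fo q n ^ N) (fun x => if x = (g, 0) then 1 else 0) (c, d) =
      if c + d = g then qf q N * q ^ (-bil c d) else 0 :=
  F_full' q hg.1 g N c d hd

/-- The matrix elements of the extreme term. -/
theorem KK_full (q : ℂ) (N : ℕ) (hg : Gen q n N) (hn : 1 ≤ n) (c d b a : Fin n → ℕ)
    (hd : ∑ i, d i = N) (ha : ∑ i, a i = N) :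
    KK q N c d b a = if c + d = a + b then
      qf q N ^ 2 * q ^ (bil a b - bil c d) * gf q (a + b) else 0 := by
  have h1 : (fun x : (Fin n → ℕ) × (Fin n → ℕ) =>
      if x = (a + b, 0) then qf q N * q ^ bil a b * gf q (a + b) else 0) =
      (qf q N * q ^ bil a b * gf q (a + b)) •
        (fun x : (Fin n → ℕ) × (Fin n → ℕ) => if x = (a + b, 0) then (1 : ℂ) else 0) := by
    funext x
    simp only [Pi.smul_apply, smul_eq_mul]
    split_ifs <;> simp
  rw [KK, E_full q N hg hn b a ha, h1, map_smul, Pi.smul_apply, smul_eq_mul,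
    F_full q N hg hn (a + b) c d hd]
  split_ifs with h
  · rw [sub_eq_add_neg, zpow_add₀ hg.1]
    ring
  · simp

end Pool.Agent.H63.VC11

end

section

/-! # Products of minima and maxima -/

namespace Pool.Agent.H63.VC11

open Pool.Agent.H63.VC7 Pool.Agent.H63.VC8 Matrix

variable {n : ℕ}

/-- The terms of the entries of `em`. -/
noncomputable def emt (q : ℂ) (α a' d' a d : Fin n → ℕ) : ℂ :=
  if (∀ i, α i ≤ a' i) ∧ (∀ i, α i ≤ a i) ∧ (∀ i, a i ≤ d i + α i) ∧
      (∀ i, a' i + d i = a i + d' i) then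
    q ^ (bil (a' - α) α - bil (d + α - a) (a' - α) + bil (a - α) (d + α - a) - bil α (a - α)) *
      wt q (a - α) * (gf q a' * gf q d /
        (gf q α * gf q (a' - α) * gf q (d + α - a) * gf q (a - α))) else 0

/-! ### Auxiliary facts -/

theorem DP11_hi_add (a t : Fin n → ℕ) (i : Fin n) : hi (a + t) i = hi a i + hi t i := by
  unfold hi
  simp only [Pi.add_apply, Nat.cast_add, Finset.sum_add_distrib]

theorem DP11_lo_add (a t : Fin n → ℕ) (i : Fin n) : lo (a + t) i = lo a i + lo t i := by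
  unfold lo
  simp only [Pi.add_apply, Nat.cast_add, Finset.sum_add_distrib]

theorem DP11_bil_add_left (t a : Fin n → ℕ) (i : Fin n) :
    bil (t + Pi.single i 1) a = bil t a + hi a i := by
  unfold bil
  simp only [Pi.add_apply, Nat.cast_add, add_mul, Finset.sum_add_distrib, Pi.single_apply]
  congr 1
  simp

theorem DP11_bil_add_right (b t : Fin n → ℕ) (i : Fin n) :
    bil b (t + Pi.single i 1) = bil b t + lo b i := by
  unfold bil
  simp only [hi_add, mul_add, Finset.sum_add_distrib]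
  congr 1
  simp only [mul_ite, mul_one, mul_zero]
  unfold lo
  rw [← Finset.sum_filter]
  apply Finset.sum_congr _ (fun _ _ => rfl)
  ext j
  simp

theorem DP11_bil_zero_left (a : Fin n → ℕ) : bil 0 a = 0 := by
  simp [bil]

theorem DP11_bil_zero_right (a : Fin n → ℕ) : bil a 0 = 0 := by
  simp [bil, hi]

theorem DP11_gf_zero (q : ℂ) : gf q (0 : Fin n → ℕ) = 1 := by
  simp [gf, qf_zero]

/-- The entries of a product of minima or of maxima. -/
noncomputable def DP11_G (q : ℂ) (w : (Fin n → ℕ) → ℂ) (α δ a d : Fin n → ℕ) : ℂ :=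
  if (∀ i, α i ≤ a i) ∧ (∀ i, a i + δ i = d i + α i) then
    w (a - α) * (q ^ (bil (a - α) α - bil δ (a - α)) *
      (gf q a / (gf q α * gf q (a - α)))) else 0

theorem DP11_G_add (q : ℂ) (w : (Fin n → ℕ) → ℂ) (α δ t : Fin n → ℕ) :
    DP11_G q w α δ (α + t) (δ + t) =
      w t * (q ^ (bil t α - bil δ t) * (gf q (α + t) / (gf q α * gf q t))) := by
  unfold DP11_G
  rw [if_pos]
  · rw [add_tsub_cancel_left]
  · constructor
    · intro i; simp
    · intro i; simp only [Pi.add_apply]; ring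

theorem DP11_exists {α δ a d : Fin n → ℕ}
    (h : (∀ i, α i ≤ a i) ∧ (∀ i, a i + δ i = d i + α i)) :
    ∃ t : Fin n → ℕ, a = α + t ∧ d = δ + t := by
  refine ⟨a - α, ?_, ?_⟩
  · funext i
    have := h.1 i
    simp only [Pi.add_apply, Pi.sub_apply]
    omega
  · funext i
    have h1 := h.1 i
    have h2 := h.2 i
    simp only [Pi.add_apply, Pi.sub_apply]
    omega

theorem DP11_step (q : ℂ) (hq : q ≠ 0) (w : (Fin n → ℕ) → ℂ) (v : Fin n → ℂ)
    (hw : ∀ t i, w (t + Pi.single i 1) = w t * v i) (α δ a d : Fin n → ℕ)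
    (hk : ∀ i, ∀ k : ℕ, k + 1 ≤ a i → qn q ((k : ℤ) + 1) ≠ 0) :
    ∑ i, (if a i ≠ 0 ∧ d i ≠ 0 then qn q (a i) * q ^ (hi a i - lo d i) *
      (v i * DP11_G q w α δ (a - Pi.single i 1) (d - Pi.single i 1)) else 0) =
      qn q (((∑ i, a i : ℕ) : ℤ) - (∑ i, α i : ℕ)) * DP11_G q w α δ a d := by
  classical
  by_cases h : (∀ i, α i ≤ a i) ∧ (∀ i, a i + δ i = d i + α i)
  · obtain ⟨t, rfl, rfl⟩ := DP11_exists h
    have hs : ((∑ i, (α + t) i : ℕ) : ℤ) - (∑ i, α i : ℕ) = ((∑ i, t i : ℕ) : ℤ) := by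
      simp only [Pi.add_apply, Finset.sum_add_distrib, Nat.cast_add]
      ring
    rw [hs, ← sum_hi_lo q hq t, Finset.sum_mul, DP11_G_add]
    refine Finset.sum_congr rfl fun i _ => ?_
    by_cases ht : t i = 0
    · rw [ht, Nat.cast_zero, qn_zero, zero_mul, zero_mul]
      split_ifs with h0
      · have : DP11_G q w α δ (α + t - Pi.single i 1) (δ + t - Pi.single i 1) = 0 := by
          unfold DP11_G
          rw [if_neg]
          rintro ⟨h1, -⟩
          have h2 := h1 i
          have h3 := h0.1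
          simp only [Pi.add_apply, Pi.sub_apply, Pi.single_eq_same, ht] at h2 h3
          omega
        rw [this, mul_zero, mul_zero]
      · rfl
    · obtain ⟨t', rfl⟩ := exists_add ht
      rw [if_pos]
      · rw [← add_assoc, ← add_assoc, add_sub_single, add_sub_single, DP11_G_add, hw,
          DP11_bil_add_left, DP11_bil_add_right, gf_add, gf_add, hi_add_self, lo_add_self,
          hi_add_self, lo_add_self, add_single_self, add_single_self, DP11_hi_add, DP11_lo_add,
          Pi.add_apply]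
        have hne : qn q ((t' i : ℤ) + 1) ≠ 0 := by
          apply hk i
          simp
        have he : q ^ (hi α i + hi t' i - (lo δ i + lo t' i)) * q ^ (bil t' α - bil δ t') =
            q ^ (hi t' i - lo t' i) * q ^ (bil t' α + hi α i - (bil δ t' + lo δ i)) := by
          rw [← zpow_add₀ hq, ← zpow_add₀ hq]
          congr 1
          ring
        have hd : gf q (α + t') / (gf q α * gf q t') =
            qn q ((t' i : ℤ) + 1) * (gf q (α + t') / (gf q α * (gf q t' * qn q ((t' i : ℤ) + 1)))) := by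
          rw [← mul_assoc (gf q α), ← mul_div_assoc, mul_comm (qn q ((t' i : ℤ) + 1)),
            mul_div_mul_right _ _ hne]
        rw [hd]
        push_cast
        linear_combination (qn q ((α i : ℤ) + t' i + 1) * v i * w t' *
          (qn q ((t' i : ℤ) + 1) *
            (gf q (α + t') / (gf q α * (gf q t' * qn q ((t' i : ℤ) + 1)))))) * he
      · simp
  · have : DP11_G q w α δ a d = 0 := by
      unfold DP11_G
      rw [if_neg h]
    rw [this, mul_zero]
    refine Finset.sum_eq_zero fun i _ => ?_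
    split_ifs with h0
    · have : DP11_G q w α δ (a - Pi.single i 1) (d - Pi.single i 1) = 0 := by
        unfold DP11_G
        rw [if_neg]
        rintro ⟨h1, h2⟩
        apply h
        constructor
        · intro j
          have h3 := h1 j
          simp only [Pi.sub_apply] at h3
          omega
        · intro j
          have h3 := h1 j
          have h4 := h2 j
          by_cases hj : j = i
          · subst hj
            have h5 := h0.1
            have h6 := h0.2
            simp only [Pi.sub_apply, Pi.single_eq_same] at h3 h4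
            omega
          · simp only [Pi.sub_apply, Pi.single_eq_of_ne hj] at h3 h4
            omega
      rw [this, mul_zero, mul_zero]
    · rfl

theorem DP11_G_one (q : ℂ) (w : (Fin n → ℕ) → ℂ) (hw : w 0 = 1) {M : ℕ} (x z : I2 n M)
    (hx : gf q x.1.val ≠ 0) :
    (if x = z then 1 else 0) = DP11_G q w z.1.val z.2.val x.1.val x.2.val := by
  classical
  by_cases h : x = z
  · subst h
    rw [if_pos rfl]
    have := DP11_G_add q w x.1.val x.2.val 0
    rw [add_zero, add_zero] at this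
    rw [this, hw, DP11_bil_zero_left, DP11_bil_zero_right, DP11_gf_zero]
    simp [div_self hx]
  · rw [if_neg h]
    symm
    unfold DP11_G
    rw [if_neg]
    intro h1
    apply h
    obtain ⟨t, h2, h3⟩ := DP11_exists h1
    have h4 : t = 0 := by
      have h5 := x.1.sum
      have h6 := z.1.sum
      rw [h2] at h5
      simp only [Pi.add_apply, Finset.sum_add_distrib] at h5
      have h7 : ∑ i, t i = 0 := by omega
      funext i
      exact Finset.sum_eq_zero_iff.1 h7 i (Finset.mem_univ i)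
    rw [h4, add_zero] at h2 h3
    exact Prod.ext (Vn.ext h2) (Vn.ext h3)

/-- The product of minima. -/
noncomputable def DP11_D (q : ℂ) (n M : ℕ) : (j : ℕ) → Matrix (I2 n (M + j)) (I2 n M) ℂ
  | 0 => 1
  | j + 1 => (qn q ((j : ℤ) + 1))⁻¹ • (DD q n (M + j) * DP11_D q n M j)

/-- The product of maxima. -/
noncomputable def DP11_C (q : ℂ) (n M : ℕ) : (j : ℕ) → Matrix (I2 n M) (I2 n (M + j)) ℂ
  | 0 => 1
  | j + 1 => (qn q ((j : ℤ) + 1))⁻¹ • (DP11_C q n M j * CC q n (M + j))

theorem DP11_em (q : ℂ) (n M j : ℕ) :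
    em q n (M + j) j = DP11_D q n M j * DP11_C q n M j := by
  induction j with
  | zero =>
    have : em q n (M + 0) 0 = 1 := by cases M <;> rfl
    rw [this]
    show (1 : Matrix (I2 n M) (I2 n M) ℂ) = 1 * 1
    rw [one_mul]
  | succ j ih =>
    show (qn q ((j : ℤ) + 1) ^ 2)⁻¹ • (DD q n (M + j) * em q n (M + j) j * CC q n (M + j)) =
      ((qn q ((j : ℤ) + 1))⁻¹ • (DD q n (M + j) * DP11_D q n M j)) *
        ((qn q ((j : ℤ) + 1))⁻¹ • (DP11_C q n M j * CC q n (M + j)))
    rw [ih, Matrix.smul_mul, Matrix.mul_smul, smul_smul, ← mul_inv, ← sq]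
    simp only [Matrix.mul_assoc]

theorem DP11_D_entry (q : ℂ) (M j : ℕ) (hg : Gen q n (M + j)) (hn : 1 ≤ n)
    (x : I2 n (M + j)) (z : I2 n M) :
    DP11_D q n M j x z = DP11_G q (fun _ => 1) z.1.val z.2.val x.1.val x.2.val := by
  classical
  induction j with
  | zero =>
    rw [← DP11_G_one q (fun _ => 1) rfl x z (hg.gf_ne hn (by omega) x.1)]
    show (1 : Matrix (I2 n M) (I2 n M) ℂ) x z = _
    rw [Matrix.one_apply]
  | succ j ih =>
    have ih' := ih (hg.mono (by omega))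
    show ((qn q ((j : ℤ) + 1))⁻¹ • (DD q n (M + j) * DP11_D q n M j)) x z = _
    rw [Matrix.smul_apply, Matrix.mul_apply, smul_eq_mul]
    simp only [ih']
    refine (congrArg (fun s => (qn q ((j : ℤ) + 1))⁻¹ * s) (DD_mul_fun (N := M + j) q
      (fun a d => DP11_G q (fun _ => 1) z.1.val z.2.val a d) x)).trans ?_
    have hst := DP11_step q hg.1 (fun _ => 1) (fun _ : Fin n => 1) (by simp) z.1.val z.2.val
      x.1.val x.2.val (by
        intro i k hk
        have h1 : x.1.val i ≤ M + (j + 1) :=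
          (Finset.single_le_sum (fun _ _ => Nat.zero_le _) (Finset.mem_univ i)).trans
            x.1.sum.le
        exact hg.qn_ne hn (by omega) (by omega))
    simp only [one_mul] at hst
    rw [hst, x.1.sum, z.1.sum]
    have hj : qn q ((j : ℤ) + 1) ≠ 0 := hg.qn_ne hn (by omega) (by omega)
    have he : ((M + (j + 1) : ℕ) : ℤ) - (M : ℕ) = (j : ℤ) + 1 := by push_cast; ring
    rw [he, inv_mul_cancel_left₀ hj]

theorem DP11_C_entry (q : ℂ) (M j : ℕ) (hg : Gen q n (M + j)) (hn : 1 ≤ n)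
    (z : I2 n M) (y : I2 n (M + j)) :
    DP11_C q n M j z y = DP11_G q (wt q) z.2.val z.1.val y.2.val y.1.val := by
  classical
  induction j with
  | zero =>
    have := DP11_G_one q (wt q) wt_zero (y.2, y.1) (z.2, z.1) (hg.gf_ne hn (by omega) y.2)
    rw [← this]
    show (1 : Matrix (I2 n M) (I2 n M) ℂ) z y = _
    rw [Matrix.one_apply]
    by_cases h : z = y
    · subst h
      rw [if_pos rfl, if_pos rfl]
    · rw [if_neg h, if_neg]
      intro h'
      apply h
      exact Prod.ext (congrArg Prod.snd h').symm (congrArg Prod.fst h').symm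
  | succ j ih =>
    have ih' := ih (hg.mono (by omega))
    show ((qn q ((j : ℤ) + 1))⁻¹ • (DP11_C q n M j * CC q n (M + j))) z y = _
    rw [Matrix.smul_apply, Matrix.mul_apply, smul_eq_mul]
    simp only [ih']
    refine (congrArg (fun s => (qn q ((j : ℤ) + 1))⁻¹ * s) (mul_CC_fun (N := M + j) q
      (fun a d => DP11_G q (wt q) z.2.val z.1.val d a) y)).trans ?_
    have hst := DP11_step q hg.1 (wt q) (fun i : Fin n => q ^ ((n : ℤ) - 1 - 2 * (i : ℕ)))
      (fun t i => wt_add hg.1 t i) z.2.val z.1.val y.2.val y.1.val (by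
        intro i k hk
        have h1 : y.2.val i ≤ M + (j + 1) :=
          (Finset.single_le_sum (fun _ _ => Nat.zero_le _) (Finset.mem_univ i)).trans
            y.2.sum.le
        exact hg.qn_ne hn (by omega) (by omega))
    have hj : qn q ((j : ℤ) + 1) ≠ 0 := hg.qn_ne hn (by omega) (by omega)
    have he : ((M + (j + 1) : ℕ) : ℤ) - (M : ℕ) = (j : ℤ) + 1 := by push_cast; ring
    have hst' : ∑ i : Fin n, (if y.1.val i ≠ 0 ∧ y.2.val i ≠ 0 then
        DP11_G q (wt q) z.2.val z.1.val (y.2.val - Pi.single i 1) (y.1.val - Pi.single i 1) *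
          (q ^ ((n : ℤ) - 1 - 2 * (i : ℕ)) *
            (qn q (y.2.val i) * q ^ (hi y.2.val i - lo y.1.val i))) else 0) =
        qn q ((j : ℤ) + 1) * DP11_G q (wt q) z.2.val z.1.val y.2.val y.1.val := by
      rw [y.2.sum, z.2.sum, he] at hst
      rw [← hst]
      refine Finset.sum_congr rfl fun i _ => ?_
      by_cases h : y.1.val i ≠ 0 ∧ y.2.val i ≠ 0
      · rw [if_pos h, if_pos ⟨h.2, h.1⟩]
        ring
      · rw [if_neg h, if_neg (fun h' => h ⟨h'.2, h'.1⟩)]
    rw [hst', inv_mul_cancel_left₀ hj]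

/-- The entries of the product of `j` matrices `DD`. -/
theorem em_entry (q : ℂ) (N M j : ℕ) (hN : N = M + j) (hg : Gen q n N) (hn : 1 ≤ n)
    (x y : I2 n N) :
    em q n N j x y = ∑ α : Vn n M, emt q α.val x.1.val x.2.val y.1.val y.2.val := by
  classical
  subst hN
  rw [DP11_em, Matrix.mul_apply]
  simp only [DP11_D_entry q M j hg hn, DP11_C_entry q M j hg hn]
  rw [Fintype.sum_prod_type]
  refine Finset.sum_congr rfl fun α _ => ?_
  dsimp only
  obtain ⟨⟨a', ha'⟩, ⟨d', hd'⟩⟩ := x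
  obtain ⟨⟨a, ha⟩, ⟨d, hd⟩⟩ := y
  obtain ⟨α, hα⟩ := α
  dsimp only
  by_cases h : (∀ i, α i ≤ a i) ∧ (∀ i, a i ≤ d i + α i)
  · obtain ⟨s, hs⟩ : ∃ s : Fin n → ℕ, a = α + s := ⟨a - α, by
      funext i
      have := h.1 i
      simp only [Pi.add_apply, Pi.sub_apply]
      omega⟩
    obtain ⟨δ, hδ⟩ : ∃ δ : Fin n → ℕ, d = δ + s := ⟨d - s, by
      funext i
      have h2 := h.2 i
      have h3 := congrFun hs i
      simp only [Pi.add_apply] at h3
      simp only [Pi.add_apply, Pi.sub_apply]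
      omega⟩
    subst hs hδ
    have hsum : ∑ i, δ i = M := by
      simp only [Pi.add_apply, Finset.sum_add_distrib] at ha hd
      omega
    rw [Finset.sum_eq_single (⟨δ, hsum⟩ : Vn n M)]
    · dsimp only
      rw [DP11_G_add]
      have e1 : δ + s + α - (α + s) = δ := by
        funext i
        simp only [Pi.add_apply, Pi.sub_apply]
        omega
      have e2 : α + s - α = s := add_tsub_cancel_left _ _
      unfold emt DP11_G
      rw [e1, e2]
      by_cases h1 : (∀ i, α i ≤ a' i) ∧ (∀ i, a' i + δ i = d' i + α i)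
      · rw [if_pos h1, if_pos]
        · rw [show bil (a' - α) α - bil δ (a' - α) + bil s δ - bil α s =
            (bil (a' - α) α - bil δ (a' - α)) + (bil s δ - bil α s) by ring, zpow_add₀ hg.1]
          simp only [div_eq_mul_inv, mul_inv]
          ring
        · refine ⟨h1.1, fun i => by simp, fun i => by simp only [Pi.add_apply]; omega, fun i => ?_⟩
          have := h1.2 i
          simp only [Pi.add_apply]
          omega
      · rw [if_neg h1, if_neg, zero_mul]
        rintro ⟨g1, -, -, g4⟩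
        apply h1
        refine ⟨g1, fun i => ?_⟩
        have := g4 i
        simp only [Pi.add_apply] at this
        omega
    · rintro ⟨δ', hδ'⟩ _ hne
      have : DP11_G q (wt q) δ' α (δ + s) (α + s) = 0 := by
        unfold DP11_G
        rw [if_neg]
        rintro ⟨h1, h2⟩
        apply hne
        apply Vn.ext
        funext i
        have := h2 i
        simp only [Pi.add_apply] at this
        show δ' i = δ i
        omega
      rw [this, mul_zero]
    · intro h'
      exact absurd (Finset.mem_univ _) h'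
  · have : emt q α a' d' a d = 0 := by
      unfold emt
      rw [if_neg]
      rintro ⟨-, g2, g3, -⟩
      exact h ⟨g2, g3⟩
    rw [this]
    refine Finset.sum_eq_zero fun δ _ => ?_
    obtain ⟨δ, hδ⟩ := δ
    dsimp only
    have : DP11_G q (wt q) δ α d a = 0 := by
      unfold DP11_G
      rw [if_neg]
      rintro ⟨h1, h2⟩
      apply h
      constructor
      · intro i
        have := h1 i
        have := h2 i
        omega
      · intro i
        have := h1 i
        have := h2 i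
        omega
    rw [this, mul_zero]

end Pool.Agent.H63.VC11

end
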