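import Pool.Agent.H94.PA.M05
import Pool.Agent.H94.PA.M32
import Pool.Agent.H94.PA.M38

/-! The parts of this file: H63.VC8.TreeLev8, H63.VC8.Swap8, H63.VC11.CD11, H63.VC11.Oh11, H63.VC8.Checks8. -/

section

/-! # Orders of zeros and poles on a tree -/

namespace Pool.Agent.H63.VC8

open Pool.Agent.H63.VC
open Pool.Agent.H63.VC3 Pool.Agent.H63.VC4 Pool.Agent.H63.VC7 Complex

variable {m p : ℕ}

/-- On a tree the orders of the zeros exceed the orders of the poles. -/
theorem tree_lev (m : ℕ) (par : Fin m → Fin (m + 1)) (hpar : ∀ j, par j ≤ j.castSucc)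
    (l : Fin m → ℕ) (L : Fin (m + 1) → ℕ)
    (hL : ∀ i, ∀ j ∈ inc par Fin.succ i, l j ≤ L i) (j0 : Fin m) (h0 : 1 ≤ l j0) :
    ∑ j, l j + 1 ≤ ∑ i, L i := by
  have hs : ∀ j : Fin m, l j ≤ L j.succ := fun j => hL _ j (by simp [inc])
  rw [Fin.sum_univ_succ]
  have hsum : ∑ j, l j ≤ ∑ j : Fin m, L j.succ := Finset.sum_le_sum fun j _ => hs j
  rcases Nat.eq_zero_or_pos (L 0) with h | h
  · -- the smallest edge with a pole
    obtain ⟨j, hj1, hj2⟩ : ∃ j : Fin m, 1 ≤ l j ∧ ∀ i : Fin m, i < j → l i = 0 := by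
      classical
      have hne : (Finset.univ.filter fun j : Fin m => 1 ≤ l j).Nonempty := ⟨j0, by simp [h0]⟩
      refine ⟨(Finset.univ.filter fun j : Fin m => 1 ≤ l j).min' hne, ?_, ?_⟩
      · have := Finset.min'_mem _ hne
        simpa using this
      · intro i hi
        by_contra hc
        have := Finset.min'_le (Finset.univ.filter fun j : Fin m => 1 ≤ l j) i
          (by simp; omega)
        exact absurd hi (not_lt.mpr this)
    have h1 : 1 ≤ L (par j) := le_trans hj1 (hL _ j (by simp [inc]))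
    have h2 : par j ≠ 0 := fun h' => by rw [h', h] at h1; omega
    obtain ⟨i, hi⟩ := Fin.exists_succ_eq.mpr h2
    have h3 : i < j := by
      have := hpar j
      rw [← hi] at this
      rw [Fin.lt_def]
      have h4 : i.succ.val ≤ j.castSucc.val := this
      simp at h4
      omega
    have h5 : l i < L i.succ := by rw [hj2 i h3, hi]; omega
    have h6 : ∑ j, l j < ∑ j : Fin m, L j.succ :=
      Finset.sum_lt_sum (fun j _ => hs j) ⟨i, Finset.mem_univ _, h5⟩
    omega
  · omega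

end Pool.Agent.H63.VC8

end

section

/-! # The state sum as a sum over the edges -/

namespace Pool.Agent.H63.VC8

open Pool.Agent.H63.VC
open Pool.Agent.H63.VC3 Pool.Agent.H63.VC4 Pool.Agent.H63.VC7 Complex

variable {m p : ℕ}

theorem Swap8_sixn (n : ℕ) (q : ℂ) (N k l : ℕ) : sixn n q N k l =
    ∑ t ∈ Finset.range (N + 1), E8 n N q t * (pw8 n q t k * pw8 n q t l) := by
  unfold sixn
  refine Finset.sum_congr rfl fun t _ => ?_
  rw [Finset.prod_div_distrib, Finset.prod_mul_distrib]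
  change (-1) ^ t * (pw8 n q t k * pw8 n q t l / ∏ i ∈ Finset.range t,
    (br q ((i : ℤ) + 1) * br q ((n : ℤ) + i - 1) *
      (br q ((n : ℤ) + N + i) * br q ((N : ℤ) - i)))) = _
  unfold E8
  ring

theorem suTree_swap (s t : Fin m → Fin p) (hst : ∀ j, s j ≠ t j) (r : Fin p → ℤ) (n N : ℕ)
    (q : ℂ) :
    suTree s t r n N q = ∑ k ∈ Fintype.piFinset (fun _ : Fin m => Finset.range (N + 1)),
      (∏ j, E8 n N q (k j)) * ∏ i, NF8 (r i) n N q (inc s t i) k := by
  have h1 : ∀ X : Fin p → ℕ, ∏ j, sixn n q N (X (s j)) (X (t j)) =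
      ∑ k ∈ Fintype.piFinset (fun _ : Fin m => Finset.range (N + 1)),
        (∏ j, E8 n N q (k j)) * ∏ i, ∏ j ∈ inc s t i, pw8 n q (k j) (X i) := by
    intro X
    simp only [Swap8_sixn]
    rw [Finset.prod_univ_sum]
    refine Finset.sum_congr rfl fun k _ => ?_
    rw [Finset.prod_mul_distrib, prod_inc s t hst (fun i j => pw8 n q (k j) (X i))]
  unfold suTree
  simp only [h1, Finset.mul_sum]
  rw [Finset.sum_comm]
  refine Finset.sum_congr rfl fun k _ => ?_
  unfold NF8
  rw [Finset.prod_univ_sum, Finset.mul_sum]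
  refine Finset.sum_congr rfl fun X _ => ?_
  have h2 : ∏ i, (q ^ (2 * r i * (X i * (X i + n - 1))) * (dimA n q (X i) / dimS n N q) *
      ∏ j ∈ inc s t i, pw8 n q (k j) (X i)) =
      (∏ i, q ^ (2 * r i * (X i * (X i + n - 1))) * (dimA n q (X i) / dimS n N q)) *
        ∏ i, ∏ j ∈ inc s t i, pw8 n q (k j) (X i) := Finset.prod_mul_distrib
  rw [h2, mul_left_comm]

end Pool.Agent.H63.VC8

end

section

/-! # The relation between `CC` and `DD` -/

namespace Pool.Agent.H63.VC11

open Pool.Agent.H63.VC7 Pool.Agent.H63.VC8 Matrix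

variable {n : ℕ}

theorem CD11_qn_one_mul (q : ℂ) (k : ℤ) : qn q 1 * qn q k = qn q k := by
  by_cases h : br q 1 = 0
  · unfold qn; rw [h]; simp
  · rw [qn_one q h, one_mul]

theorem CD11_diff (q : ℂ) (hq : q ≠ 0) (a b : ℤ) :
    qn q (b + 1) * qn q (a + 1) = qn q a * qn q b + qn q (a + b + 1) := by
  have h := qn_three_term q hq (a + 1) (-b) (-1)
  rw [show (-b + -1 : ℤ) = -(b + 1) by ring, show (a + 1 + -1 : ℤ) = a by ring,
    show (a + 1 - -b : ℤ) = a + b + 1 by ring, qn_neg, qn_neg, qn_neg, neg_mul,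
    CD11_qn_one_mul] at h
  linear_combination -h

theorem CD11_comm {N : ℕ} (z : Vn n N) (i j : Fin n) : (z.add j).add i = (z.add i).add j :=
  Vn.ext (by simp [add_right_comm])

theorem CD11_split {N : ℕ} {x y : Vn n (N + 1)} {i j : Fin n} (hij : i ≠ j)
    (h : x.add i = y.add j) : ∃ z : Vn n N, x = z.add j ∧ y = z.add i := by
  have hv := congrArg Vn.val h
  simp only [Vn.add_val] at hv
  have hj : x.val j ≠ 0 := by
    have := congrFun hv j
    rw [add_single_ne _ (Ne.symm hij), add_single_self] at this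
    omega
  obtain ⟨z, rfl⟩ := Vn.exists_add hj
  refine ⟨z, rfl, ?_⟩
  rw [CD11_comm] at h
  exact (Vn.add_inj.1 h).symm

theorem CD_zero (q : ℂ) (hq : q ≠ 0) : CC q n 0 * DD q n 0 = qn q n • 1 := by
  have hu : ∀ x y : Vn n 0, x = y := by
    intro x y
    apply Vn.ext
    funext i
    have hx := (Finset.sum_eq_zero_iff.1 x.sum) i (Finset.mem_univ _)
    have hy := (Finset.sum_eq_zero_iff.1 y.sum) i (Finset.mem_univ _)
    rw [hx, hy]
  have h0 : ∀ (x : Vn n 0), x.val = 0 := by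
    intro x
    funext i
    exact (Finset.sum_eq_zero_iff.1 x.sum) i (Finset.mem_univ _)
  ext x y
  have hxy : x = y := Prod.ext (hu _ _) (hu _ _)
  subst hxy
  rw [CC_mul, Matrix.smul_apply, Matrix.one_apply_eq, smul_eq_mul, mul_one]
  have hD : ∀ i : Fin n, DD q n 0 (x.1.add i, x.2.add i) x = qn q 1 := by
    intro i
    unfold DD
    rw [Finset.sum_eq_single i]
    · rw [if_pos ⟨rfl, rfl⟩]
      simp only [Vn.add_val, h0, zero_add, Pi.single_eq_same]
      have : hi (0 : Fin n → ℕ) i - lo (0 : Fin n → ℕ) i = 0 := by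
        simp [hi, lo]
      rw [this]
      simp
    · intro j _ hj
      rw [if_neg]
      rintro ⟨h1, -⟩
      have := congrFun (congrArg Vn.val h1) j
      simp only [Vn.add_val, h0, zero_add] at this
      rw [Pi.single_eq_same, Pi.single_eq_of_ne hj] at this
      exact absurd this (by norm_num)
    · intro h; exact absurd (Finset.mem_univ _) h
  simp only [hD]
  have h := sum_hi_lo_succ (n := n) q hq 0
  simp only [Pi.zero_apply, Nat.cast_zero, zero_add, Finset.sum_const_zero] at h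
  rw [← h]
  refine Finset.sum_congr rfl fun i _ => ?_
  simp only [h0, Pi.zero_apply, Nat.cast_zero, zero_add]
  linear_combination q ^ ((n : ℤ) - 1 - 2 * (i : ℕ)) * q ^ (hi (0 : Fin n → ℕ) i -
    lo (0 : Fin n → ℕ) i) * CD11_qn_one_mul q 1

/-- The `(i, j)` term of `CC * DD`. -/
noncomputable def CD11_L (q : ℂ) {N : ℕ} (x y : I2 n (N + 1)) (i j : Fin n) : ℂ :=
  if x.1.add i = y.1.add j ∧ x.2.add i = y.2.add j then
    q ^ ((n : ℤ) - 1 - 2 * (i : ℕ)) *
      (qn q ((x.2.val i : ℤ) + 1) * q ^ (hi x.2.val i - lo x.1.val i)) *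
      (qn q ((x.1.add i).val j) * q ^ (hi y.1.val j - lo y.2.val j)) else 0

/-- The `(i, j)` term of `DD * CC`. -/
noncomputable def CD11_R (q : ℂ) {N : ℕ} (x y : I2 n (N + 1)) (i j : Fin n) : ℂ :=
  ∑ z : I2 n N, (if x.1 = z.1.add j ∧ x.2 = z.2.add j then
    qn q (x.1.val j) * q ^ (hi z.1.val j - lo z.2.val j) else 0) *
    (if y.1 = z.1.add i ∧ y.2 = z.2.add i then
    q ^ ((n : ℤ) - 1 - 2 * (i : ℕ)) * (qn q (y.2.val i) * q ^ (hi z.2.val i - lo z.1.val i)) else 0)

theorem CD11_ne (q : ℂ) (hq : q ≠ 0) {N : ℕ} (x y : I2 n (N + 1)) {i j : Fin n} (hij : i ≠ j) :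
    CD11_L q x y i j = CD11_R q x y i j := by
  unfold CD11_L CD11_R
  split_ifs with h
  · obtain ⟨z1, hx1, hy1⟩ := CD11_split hij h.1
    obtain ⟨z2, hx2, hy2⟩ := CD11_split hij h.2
    rw [Finset.sum_eq_single (z1, z2)]
    · rw [if_pos ⟨hx1, hx2⟩, if_pos ⟨hy1, hy2⟩, hx1, hx2, hy1, hy2]
      simp only [Vn.add_val, hi_add, lo_add, add_single_ne _ hij, add_single_ne _ (Ne.symm hij),
        add_single_self]
      have he : q ^ (hi z2.val i + (if i < j then 1 else 0) -
          (lo z1.val i + if j < i then 1 else 0)) *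
          q ^ (hi z1.val j + (if j < i then 1 else 0) - (lo z2.val j + if i < j then 1 else 0)) =
          q ^ (hi z1.val j - lo z2.val j) * q ^ (hi z2.val i - lo z1.val i) := by
        rw [← zpow_add₀ hq, ← zpow_add₀ hq]
        congr 1
        ring
      push_cast
      linear_combination (q ^ ((n : ℤ) - 1 - 2 * (i : ℕ)) * qn q ((z2.val i : ℤ) + 1) *
        qn q ((z1.val j : ℤ) + 1)) * he
    · intro z _ hz
      rw [if_neg, zero_mul]
      rintro ⟨h1, h2⟩
      rw [hx1] at h1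
      rw [hx2] at h2
      exact hz (Prod.ext (Vn.add_inj.1 h1).symm (Vn.add_inj.1 h2).symm)
    · intro h'; exact absurd (Finset.mem_univ _) h'
  · symm
    refine Finset.sum_eq_zero fun z _ => ?_
    by_cases h1 : x.1 = z.1.add j ∧ x.2 = z.2.add j
    · by_cases h2 : y.1 = z.1.add i ∧ y.2 = z.2.add i
      · exfalso
        apply h
        rw [h1.1, h1.2, h2.1, h2.2]
        exact ⟨CD11_comm _ _ _, CD11_comm _ _ _⟩
      · rw [if_neg h2, mul_zero]
    · rw [if_neg h1, zero_mul]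

theorem CD11_eq (q : ℂ) (hq : q ≠ 0) {N : ℕ} (x y : I2 n (N + 1)) (i : Fin n) :
    CD11_L q x y i i = CD11_R q x y i i + (if x = y then
      q ^ ((n : ℤ) - 1 - 2 * (i : ℕ)) * (qn q (((x.1.val + x.2.val) i : ℕ) + 1) *
        q ^ (hi (x.1.val + x.2.val) i - lo (x.1.val + x.2.val) i)) else 0) := by
  unfold CD11_L CD11_R
  by_cases hxy : x = y
  · subst hxy
    rw [if_pos ⟨rfl, rfl⟩, if_pos rfl]
    have hs : ∀ a b : Fin n → ℕ, hi (a + b) i = hi a i + hi b i := by
      intro a b; simp [hi, Finset.sum_add_distrib]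
    have hs' : ∀ a b : Fin n → ℕ, lo (a + b) i = lo a i + lo b i := by
      intro a b; simp [lo, Finset.sum_add_distrib]
    have hR : (∑ z : I2 n N, (if x.1 = z.1.add i ∧ x.2 = z.2.add i then
        qn q (x.1.val i) * q ^ (hi z.1.val i - lo z.2.val i) else 0) *
        (if x.1 = z.1.add i ∧ x.2 = z.2.add i then
        q ^ ((n : ℤ) - 1 - 2 * (i : ℕ)) * (qn q (x.2.val i) *
          q ^ (hi z.2.val i - lo z.1.val i)) else 0)) =
        q ^ ((n : ℤ) - 1 - 2 * (i : ℕ)) * (qn q (x.1.val i) * qn q (x.2.val i) *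
          (q ^ (hi x.2.val i - lo x.1.val i) * q ^ (hi x.1.val i - lo x.2.val i))) := by
      by_cases h : x.1.val i ≠ 0 ∧ x.2.val i ≠ 0
      · obtain ⟨z1, hx1⟩ := Vn.exists_add h.1
        obtain ⟨z2, hx2⟩ := Vn.exists_add h.2
        rw [Finset.sum_eq_single (z1, z2)]
        · rw [if_pos ⟨hx1, hx2⟩, if_pos ⟨hx1, hx2⟩, hx1, hx2]
          simp only [Vn.add_val, hi_add_self, lo_add_self]
          ring
        · intro z _ hz
          rw [if_neg, zero_mul]
          rintro ⟨h1, h2⟩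
          rw [hx1] at h1
          rw [hx2] at h2
          exact hz (Prod.ext (Vn.add_inj.1 h1).symm (Vn.add_inj.1 h2).symm)
        · intro h'; exact absurd (Finset.mem_univ _) h'
      · rw [Finset.sum_eq_zero]
        · rw [not_and_or, not_not, not_not] at h
          rcases h with h | h
          · rw [h, Nat.cast_zero, qn_zero]; ring
          · rw [h, Nat.cast_zero, qn_zero]; ring
        · intro z _
          rw [if_neg, zero_mul]
          rintro ⟨h1, h2⟩
          apply h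
          rw [h1, h2]
          simp
    rw [hR]
    simp only [Vn.add_val, hs, hs', Pi.add_apply, Pi.single_eq_same]
    have hd := CD11_diff q hq (x.1.val i) (x.2.val i)
    have he : q ^ (hi x.1.val i + hi x.2.val i - (lo x.1.val i + lo x.2.val i)) =
        q ^ (hi x.2.val i - lo x.1.val i) * q ^ (hi x.1.val i - lo x.2.val i) := by
      rw [← zpow_add₀ hq]
      congr 1
      ring
    rw [he]
    push_cast
    linear_combination (q ^ ((n : ℤ) - 1 - 2 * (i : ℕ)) * q ^ (hi x.2.val i - lo x.1.val i) *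
      q ^ (hi x.1.val i - lo x.2.val i)) * hd
  · rw [if_neg hxy, add_zero, if_neg]
    · symm
      refine Finset.sum_eq_zero fun z _ => ?_
      by_cases h1 : x.1 = z.1.add i ∧ x.2 = z.2.add i
      · by_cases h2 : y.1 = z.1.add i ∧ y.2 = z.2.add i
        · exact absurd (Prod.ext (h1.1.trans h2.1.symm) (h1.2.trans h2.2.symm)) hxy
        · rw [if_neg h2, mul_zero]
      · rw [if_neg h1, zero_mul]
    · rintro ⟨h1, h2⟩
      exact hxy (Prod.ext (Vn.add_inj.1 h1) (Vn.add_inj.1 h2))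

theorem CD_succ (q : ℂ) (hq : q ≠ 0) (N : ℕ) :
    CC q n (N + 1) * DD q n (N + 1) = DD q n N * CC q n N + qn q (2 * (N : ℤ) + n + 2) • 1 := by
  ext x y
  have hL : (CC q n (N + 1) * DD q n (N + 1)) x y = ∑ i, ∑ j, CD11_L q x y i j := by
    rw [CC_mul]
    refine Finset.sum_congr rfl fun i _ => ?_
    unfold DD CD11_L
    rw [Finset.mul_sum]
    refine Finset.sum_congr rfl fun j _ => ?_
    rw [mul_ite, mul_zero]
  have hR : (DD q n N * CC q n N) x y = ∑ i, ∑ j, CD11_R q x y i j := by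
    rw [Matrix.mul_apply]
    unfold DD CC CD11_R
    simp only [Finset.sum_mul_sum]
    rw [Finset.sum_comm]
    have : ∀ j : Fin n, (∑ z : I2 n N, ∑ i : Fin n,
        (if x.1 = z.1.add j ∧ x.2 = z.2.add j then
        qn q (x.1.val j) * q ^ (hi z.1.val j - lo z.2.val j) else 0) *
        (if y.1 = z.1.add i ∧ y.2 = z.2.add i then
        q ^ ((n : ℤ) - 1 - 2 * (i : ℕ)) * (qn q (y.2.val i) *
        q ^ (hi z.2.val i - lo z.1.val i)) else 0)) = ∑ i : Fin n, ∑ z : I2 n N,
        (if x.1 = z.1.add j ∧ x.2 = z.2.add j then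
        qn q (x.1.val j) * q ^ (hi z.1.val j - lo z.2.val j) else 0) *
        (if y.1 = z.1.add i ∧ y.2 = z.2.add i then
        q ^ ((n : ℤ) - 1 - 2 * (i : ℕ)) * (qn q (y.2.val i) *
        q ^ (hi z.2.val i - lo z.1.val i)) else 0) := fun j => Finset.sum_comm
    rw [Finset.sum_congr rfl fun j _ => this j, Finset.sum_comm]
  rw [Matrix.add_apply, hL, hR, Matrix.smul_apply, Matrix.one_apply, smul_eq_mul]
  have hi1 : ∀ i : Fin n, ∑ j, CD11_L q x y i j = ∑ j, CD11_R q x y i j +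
      (if x = y then
      q ^ ((n : ℤ) - 1 - 2 * (i : ℕ)) * (qn q (((x.1.val + x.2.val) i : ℕ) + 1) *
        q ^ (hi (x.1.val + x.2.val) i - lo (x.1.val + x.2.val) i)) else 0) := by
    intro i
    rw [← Finset.add_sum_erase _ _ (Finset.mem_univ i),
      ← Finset.add_sum_erase (Finset.univ) (fun j => CD11_R q x y i j) (Finset.mem_univ i),
      CD11_eq q hq]
    have : ∑ j ∈ Finset.univ.erase i, CD11_L q x y i j =
        ∑ j ∈ Finset.univ.erase i, CD11_R q x y i j := by
      refine Finset.sum_congr rfl fun j hj => ?_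
      exact CD11_ne q hq x y (Ne.symm (Finset.ne_of_mem_erase hj))
    rw [this]
    ring
  rw [Finset.sum_congr rfl fun i _ => hi1 i, Finset.sum_add_distrib]
  congr 1
  split_ifs with h
  · rw [mul_one]
    have h := sum_hi_lo_succ q hq (x.1.val + x.2.val)
    rw [h]
    congr 1
    simp only [Pi.add_apply, Finset.sum_add_distrib, x.1.sum, x.2.sum]
    push_cast
    ring
  · simp

end Pool.Agent.H63.VC11

end

section

/-! # The algebra of the operators `Oh N f` -/

namespace Pool.Agent.H63.VC11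

open Pool.Agent.H63.VC7 Pool.Agent.H63.VC8 Matrix

variable {n : ℕ}

theorem E1_self (q : ℂ) (n N : ℕ) : E1 q n N N = 0 := by
  unfold E1
  rw [sub_self, qn_zero, zero_mul]

theorem E1_ne {q : ℂ} {N X : ℕ} (h : Gen q n N) (hn : 1 ≤ n) (hX : X < N) : E1 q n N X ≠ 0 := by
  unfold E1
  have h1 : qn q ((N : ℤ) - X) ≠ 0 := h.qn_ne hn (by omega) (by omega)
  have h2 : qn q ((N : ℤ) + X + n - 1) ≠ 0 := h.qn_ne hn (by omega) (by omega)
  exact mul_ne_zero h1 h2

theorem Oh_congr (q : ℂ) (N : ℕ) (f g : ℕ → ℂ) (h : ∀ X ≤ N, f X = g X) :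
    Oh q n N f = Oh q n N g := by
  induction N generalizing f g with
  | zero => simp only [Oh]; rw [h 0 le_rfl]
  | succ N ih =>
    simp only [Oh]
    rw [h (N + 1) le_rfl, ih (dv q n N f) (dv q n N g)]
    intro k hk
    unfold dv
    rw [h k (by omega), h (N + 1) le_rfl]

theorem Oh_add (q : ℂ) (N : ℕ) (f g : ℕ → ℂ) :
    Oh q n N (fun X => f X + g X) = Oh q n N f + Oh q n N g := by
  induction N generalizing f g with
  | zero => simp only [Oh]; rw [add_smul]
  | succ N ih =>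
    have e : dv q n N (fun k => f k + g k) = fun k => dv q n N f k + dv q n N g k := by
      funext k
      unfold dv
      ring
    simp only [Oh]
    rw [e, ih, add_smul, Matrix.mul_add, Matrix.add_mul]
    abel

theorem Oh_smul (q : ℂ) (N : ℕ) (c : ℂ) (f : ℕ → ℂ) :
    Oh q n N (fun X => c * f X) = c • Oh q n N f := by
  induction N generalizing f with
  | zero => simp only [Oh]; rw [mul_smul]
  | succ N ih =>
    have e : dv q n N (fun k => c * f k) = fun k => c * dv q n N f k := by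
      funext k
      unfold dv
      ring
    simp only [Oh]
    rw [e, ih, smul_add, mul_smul, Matrix.mul_smul, Matrix.smul_mul]

theorem Oh_const (q : ℂ) (N : ℕ) (c : ℂ) : Oh q n N (fun _ => c) = c • 1 := by
  induction N generalizing c with
  | zero => simp only [Oh]
  | succ N ih =>
    have e : dv q n N (fun _ => c) = fun _ => 0 := by
      funext k
      unfold dv
      rw [sub_self, zero_div]
    simp only [Oh]
    rw [e, ih, zero_smul, Matrix.mul_zero, Matrix.zero_mul, add_zero]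

theorem Oh_sum (q : ℂ) (N : ℕ) {ι : Type*} (s : Finset ι) (F : ι → ℕ → ℂ) :
    Oh q n N (fun X => ∑ i ∈ s, F i X) = ∑ i ∈ s, Oh q n N (F i) := by
  classical
  induction s using Finset.induction_on with
  | empty =>
    simp only [Finset.sum_empty]
    rw [Oh_const, zero_smul]
  | insert a s ha ih =>
    simp only [Finset.sum_insert ha]
    rw [Oh_add, ih]

theorem DC_Oh (q : ℂ) (N : ℕ) (h : Gen q n (N + 1)) (hn : 1 ≤ n) :
    DD q n N * CC q n N = Oh q n (N + 1) (E1 q n (N + 1)) := by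
  have e : Oh q n N (dv q n N (E1 q n (N + 1))) = Oh q n N (fun _ => 1) := by
    apply Oh_congr
    intro k hk
    unfold dv
    rw [E1_self, sub_zero, div_self (E1_ne h hn (by omega))]
  simp only [Oh]
  rw [E1_self, zero_smul, zero_add, e, Oh_const, one_smul, Matrix.mul_one]

/-- `CC N * DD N` is the operator with the eigenvalues `E1 (N + 1) X`. -/
theorem CD_Oh (q : ℂ) (N : ℕ) (h : Gen q n (N + 1)) (hn : 1 ≤ n) :
    CC q n N * DD q n N = Oh q n N (E1 q n (N + 1)) := by
  cases N with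
  | zero =>
    rw [CD_zero q h.1]
    simp only [Oh]
    congr 1
    unfold E1
    rw [show (((0 + 1 : ℕ) : ℤ) - ((0 : ℕ) : ℤ)) = 1 by norm_num,
      show (((0 + 1 : ℕ) : ℤ) + ((0 : ℕ) : ℤ) + (n : ℤ) - 1) = n by push_cast; ring,
      qn_one q (h.br_one hn), one_mul]
  | succ N =>
    rw [CD_succ q h.1 N, DC_Oh q N (h.mono (by omega)) hn, ← Oh_const, ← Oh_add]
    apply Oh_congr
    intro k _
    have key := qn_three_term q h.1 ((N : ℤ) + k + n) (-1) ((N : ℤ) + 1 - k + 1)
    have h1 := qn_neg q 1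
    rw [qn_one q (h.br_one hn)] at h1
    unfold E1
    push_cast
    rw [h1, show (-1 : ℤ) + ((N : ℤ) + 1 - k + 1) = (N : ℤ) + 1 - k by ring,
      show (N : ℤ) + k + n + ((N : ℤ) + 1 - k + 1) = 2 * (N : ℤ) + n + 2 by ring,
      show (N : ℤ) + k + n - (-1) = (N : ℤ) + k + n + 1 by ring] at key
    rw [show (N : ℤ) + 1 + k + n - 1 = (N : ℤ) + k + n by ring,
      show (N : ℤ) + 1 + 1 + k + n - 1 = (N : ℤ) + k + n + 1 by ring,
      show (N : ℤ) + 1 + 1 - k = (N : ℤ) + 1 - k + 1 by ring]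
    linear_combination key

theorem Oh_mul (q : ℂ) (N : ℕ) (h : Gen q n N) (hn : 1 ≤ n) (f g : ℕ → ℂ) :
    Oh q n N f * Oh q n N g = Oh q n N (fun X => f X * g X) := by
  induction N generalizing f g with
  | zero =>
    simp only [Oh]
    rw [Matrix.smul_mul, Matrix.one_mul, smul_smul]
  | succ N ih =>
    have hN : Gen q n N := h.mono (by omega)
    have e : Oh q n N (dv q n N (fun k => f k * g k)) =
        f (N + 1) • Oh q n N (dv q n N g) + g (N + 1) • Oh q n N (dv q n N f) +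
          Oh q n N (dv q n N f) * (CC q n N * DD q n N) * Oh q n N (dv q n N g) := by
      rw [CD_Oh q N h hn, ih hN, ih hN, ← Oh_smul, ← Oh_smul, ← Oh_add, ← Oh_add]
      apply Oh_congr
      intro k hk
      have hE := E1_ne (X := k) h hn (by omega)
      unfold dv
      field_simp
      ring
    simp only [Oh]
    rw [e]
    simp only [Matrix.add_mul, Matrix.mul_add, Matrix.smul_mul, Matrix.mul_smul, Matrix.one_mul,
      Matrix.mul_one, Matrix.mul_assoc]
    rw [smul_add, smul_smul, mul_comm (g (N + 1)) (f (N + 1))]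
    abel

theorem Oh_pow (q : ℂ) (N : ℕ) (h : Gen q n N) (hn : 1 ≤ n) (f : ℕ → ℂ) (r : ℕ) :
    Oh q n N f ^ r = Oh q n N (fun X => f X ^ r) := by
  induction r with
  | zero =>
    simp only [pow_zero]
    rw [Oh_const, one_smul]
  | succ r ih =>
    rw [pow_succ, ih, Oh_mul q N h hn]
    simp only [pow_succ]

theorem Oh11_DD_ne (q : ℂ) (N : ℕ) (x : I2 n (N + 1)) (z : I2 n N) (h : DD q n N x z ≠ 0) :
    ∃ i, x.1 = z.1.add i ∧ x.2 = z.2.add i := by
  by_contra hne
  apply h
  unfold DD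
  refine Finset.sum_eq_zero fun i _ => ?_
  rw [if_neg]
  intro hi
  exact hne ⟨i, hi⟩

theorem Oh11_CC_ne (q : ℂ) (N : ℕ) (w : I2 n N) (y : I2 n (N + 1)) (h : CC q n N w y ≠ 0) :
    ∃ i, y.1 = w.1.add i ∧ y.2 = w.2.add i := by
  by_contra hne
  apply h
  unfold CC
  refine Finset.sum_eq_zero fun i _ => ?_
  rw [if_neg]
  intro hi
  exact hne ⟨i, hi⟩

/-- The operators `Oh` preserve the weight. -/
theorem Oh_wt (q : ℂ) (N : ℕ) (f : ℕ → ℂ) (x y : I2 n N) (h : Oh q n N f x y ≠ 0) :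
    x.1.val + y.2.val = y.1.val + x.2.val := by
  induction N generalizing f with
  | zero =>
    simp only [Oh] at h
    by_cases hxy : x = y
    · subst hxy; rfl
    · rw [Matrix.smul_apply, Matrix.one_apply_ne hxy, smul_zero] at h
      exact absurd rfl h
  | succ N ih =>
    by_cases hxy : x = y
    · subst hxy; rfl
    · simp only [Oh] at h
      rw [Matrix.add_apply, Matrix.smul_apply, Matrix.one_apply_ne hxy, smul_zero, zero_add,
        Matrix.mul_apply] at h
      obtain ⟨w, _, hw⟩ := Finset.exists_ne_zero_of_sum_ne_zero h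
      have hw1 := left_ne_zero_of_mul hw
      have hw2 := right_ne_zero_of_mul hw
      rw [Matrix.mul_apply] at hw1
      obtain ⟨z, _, hz⟩ := Finset.exists_ne_zero_of_sum_ne_zero hw1
      have hz1 := left_ne_zero_of_mul hz
      have hz2 := right_ne_zero_of_mul hz
      obtain ⟨i, h1, h2⟩ := Oh11_DD_ne q N x z hz1
      obtain ⟨j, h3, h4⟩ := Oh11_CC_ne q N w y hw2
      have h5 := ih (dv q n N f) z w hz2
      rw [h1, h2, h3, h4]
      simp only [Vn.add_val]
      calc z.1.val + Pi.single i 1 + (w.2.val + Pi.single j 1)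
          = (z.1.val + w.2.val) + (Pi.single i 1 + Pi.single j 1) := by abel
        _ = (w.1.val + z.2.val) + (Pi.single i 1 + Pi.single j 1) := by rw [h5]
        _ = w.1.val + Pi.single j 1 + (z.2.val + Pi.single i 1) := by abel

end Pool.Agent.H63.VC11

end

section

/-!
# Checks: `SU(2)`, and HOMFLY-PT polynomials of some plumbings of annuli

For `n = 2` the state sum is the state sum for the colored Jones polynomials. For `N = 1` it is the
HOMFLY-PT polynomial with `a = q ^ n`.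
-/

namespace Pool.Agent.H63.VC8

open Pool.Agent.H63.VC7 Complex

variable {m p : ℕ}

theorem dimA_two (q : ℂ) (X : ℕ) (h : ∀ i : ℕ, 1 ≤ i → i ≤ X → br q i ≠ 0) :
    dimA 2 q X = br q (2 * (X : ℤ) + 1) / br q 1 := by
  unfold dimA
  rw [Finset.prod_eq_one]
  · rw [mul_one]
    congr 2
    push_cast
    ring
  · intro i hi
    rw [Finset.mem_range] at hi
    have := h (i + 1) (by omega) (by omega)
    push_cast at this
    rw [show ((2 : ℕ) : ℤ) + (i : ℤ) - 1 = (i : ℤ) + 1 by push_cast; ring, div_self this, one_pow]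

theorem dimS_two (q : ℂ) (N : ℕ) (h : ∀ i : ℕ, 1 ≤ i → i ≤ N + 1 → br q i ≠ 0) :
    dimS 2 N q = br q ((N : ℤ) + 1) / br q 1 := by
  induction N with
  | zero =>
    have h1 := h 1 le_rfl (by omega)
    push_cast at h1
    simp [dimS, div_self h1]
  | succ N ih =>
    have h1 := h 1 le_rfl (by omega)
    have h2 := h (N + 1) (by omega) (by omega)
    push_cast at h1 h2
    have := ih (fun i hi hiN => h i hi (by omega))
    unfold dimS at this ⊢
    rw [Finset.prod_range_succ, this]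
    push_cast
    rw [show (2 : ℤ) + (N : ℤ) = (N : ℤ) + 1 + 1 by ring]
    field_simp

theorem sixn_two (q : ℂ) (N k l : ℕ) : sixn 2 q N k l = sixj q N k l := by
  unfold sixn sixj
  refine Finset.sum_congr rfl fun t _ => ?_
  congr 1
  refine Finset.prod_congr rfl fun i _ => ?_
  push_cast
  rw [show (2 : ℤ) + k + i - 1 = k + i + 1 by ring, show (2 : ℤ) + l + i - 1 = l + i + 1 by ring,
    show (2 : ℤ) + i - 1 = i + 1 by ring, show (2 : ℤ) + N + i = N + i + 2 by ring]
  ring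

/-- For `n = 2` the state sum is the one for the colored Jones polynomials. -/
theorem suTree_two (s t : Fin m → Fin p) (r : Fin p → ℤ) (N : ℕ) (q : ℂ)
    (h : ∀ i : ℕ, 1 ≤ i → i ≤ N + 1 → br q i ≠ 0) :
    suTree s t r 2 N q = jones s t (fun i => 2 * r i) N q := by
  unfold suTree jones
  refine Finset.sum_congr rfl fun X hX => ?_
  rw [Fintype.mem_piFinset] at hX
  congr 1
  · refine Finset.prod_congr rfl fun i _ => ?_
    have hXi := hX i
    rw [Finset.mem_range] at hXi
    have h1 := h 1 le_rfl (by omega)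
    push_cast at h1
    rw [dimA_two q (X i) (fun j hj hjX => h j hj (by omega)), dimS_two q N h,
      div_div_div_cancel_right₀ h1]
    congr 1
    have e1 : ((-1 : ℂ) ^ X i) ^ (2 * r i) = 1 := by
      rw [← zpow_natCast (-1 : ℂ) (X i), ← zpow_mul,
        show ((X i : ℕ) : ℤ) * (2 * r i) = 2 * ((X i : ℤ) * r i) by ring, zpow_mul]
      norm_num
    rw [tw, mul_zpow, e1, one_mul, ← zpow_natCast, ← zpow_mul]
    congr 1
    push_cast
    ring
  · refine Finset.prod_congr rfl fun j _ => sixn_two q N _ _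

/-! ### The HOMFLY-PT polynomials of the double twist knots -/

theorem sixn_zero_left (n : ℕ) (q : ℂ) (N l : ℕ) : sixn n q N 0 l = 1 := by
  unfold sixn
  rw [Finset.sum_eq_single_of_mem 0 (by simp)]
  · simp
  · intro t _ ht
    rw [Finset.prod_eq_zero (i := 0) (by simp; omega), mul_zero]
    simp [br]

theorem sixn_zero_right (n : ℕ) (q : ℂ) (N k : ℕ) : sixn n q N k 0 = 1 := by
  unfold sixn
  rw [Finset.sum_eq_single_of_mem 0 (by simp)]
  · simp
  · intro t _ ht
    rw [Finset.prod_eq_zero (i := 0) (by simp; omega), mul_zero]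
    simp [br]

theorem br_sq_n (n : ℤ) (q : ℂ) (h : q ≠ 0) :
    br q n ^ 2 = br q (n - 1) * br q (n + 1) + br q 1 ^ 2 := by
  simp only [br, neg_sub, neg_add, zpow_sub₀ h, zpow_add₀ h, zpow_neg, zpow_one]
  have := zpow_ne_zero n h
  field_simp
  ring

theorem sixn_one (n : ℕ) (q : ℂ) (h : q ≠ 0) (h1 : br q 1 ≠ 0) (h2 : br q ((n : ℤ) - 1) ≠ 0)
    (h3 : br q ((n : ℤ) + 1) ≠ 0) :
    sixn n q 1 1 1 = -(br q 1 ^ 2 / (br q ((n : ℤ) - 1) * br q ((n : ℤ) + 1))) := by
  have e := br_sq_n n q h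
  simp only [sixn, Finset.sum_range_succ, Finset.sum_range_zero, Finset.prod_range_one,
    Finset.prod_range_zero]
  push_cast
  rw [show (n : ℤ) + 1 + 0 - 1 = n by ring, show (n : ℤ) + 0 - 1 = (n : ℤ) - 1 by ring]
  norm_num
  field_simp
  linear_combination -e

theorem dimA_zero (n : ℕ) (q : ℂ) (h2 : br q ((n : ℤ) - 1) ≠ 0) : dimA n q 0 = 1 := by
  simp [dimA, div_self h2]

theorem dimA_one (n : ℕ) (q : ℂ) (h2 : br q ((n : ℤ) - 1) ≠ 0) :
    dimA n q 1 = br q ((n : ℤ) - 1) * br q ((n : ℤ) + 1) / br q 1 ^ 2 := by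
  simp only [dimA, Finset.prod_range_one]
  push_cast
  rw [show (n : ℤ) + 2 - 1 = n + 1 by ring, show (n : ℤ) + 0 - 1 = (n : ℤ) - 1 by ring]
  field_simp

theorem dimS_one (n : ℕ) (q : ℂ) : dimS n 1 q = br q n / br q 1 := by
  simp [dimS]

/-- The HOMFLY-PT polynomials of the double twist knots (`a = q ^ n`). -/
theorem suTree_double (n : ℕ) (q : ℂ) (h : q ≠ 0) (h1 : br q 1 ≠ 0)
    (h2 : br q ((n : ℤ) - 1) ≠ 0) (h0 : br q n ≠ 0) (h3 : br q ((n : ℤ) + 1) ≠ 0) (a b : ℤ) :
    suTree ![0] Fin.succ ![a, b] n 1 q =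
      1 - br q ((n : ℤ) - 1) * br q ((n : ℤ) + 1) *
        ((q ^ (2 * a * n) - 1) * (q ^ (2 * b * n) - 1)) / br q n ^ 2 := by
  unfold suTree
  rw [show (Fintype.piFinset fun _ : Fin 2 => Finset.range (1 + 1)) = _ from piFinset_two]
  rw [Finset.sum_insert (by decide), Finset.sum_insert (by decide), Finset.sum_insert (by decide),
    Finset.sum_singleton]
  have e := br_sq_n n q h
  simp [Fin.prod_univ_succ, sixn_zero_left, sixn_zero_right, sixn_one n q h h1 h2 h3,
    dimA_zero n q h2, dimA_one n q h2, dimS_one]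
  field_simp
  linear_combination -e

/-- The HOMFLY-PT polynomial of the figure-eight knot. -/
theorem suTree_4_1 (n : ℕ) (q : ℂ) (h : q ≠ 0) (h1 : br q 1 ≠ 0)
    (h2 : br q ((n : ℤ) - 1) ≠ 0) (h0 : br q n ≠ 0) (h3 : br q ((n : ℤ) + 1) ≠ 0) :
    suTree ![0] Fin.succ ![1, -1] n 1 q =
      (q ^ (2 * (n : ℤ)) + q ^ (-(2 * (n : ℤ)))) - (q ^ 2 + q ^ (-2 : ℤ)) + 1 := by
  rw [suTree_double n q h h1 h2 h0 h3]
  have hn := zpow_ne_zero (n : ℤ) h
  have e : q ^ (2 * (1 : ℤ) * n) = (q ^ (n : ℤ)) ^ 2 := by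
    rw [← zpow_natCast, ← zpow_mul]; congr 1; push_cast; ring
  have e' : q ^ (2 * (-1 : ℤ) * n) = ((q ^ (n : ℤ)) ^ 2)⁻¹ := by
    rw [← zpow_natCast, ← zpow_mul, ← zpow_neg]; congr 1; push_cast; ring
  have e2 : q ^ (2 * (n : ℤ)) = (q ^ (n : ℤ)) ^ 2 := by
    rw [← zpow_natCast, ← zpow_mul]; congr 1; push_cast; ring
  have hb : br q n = ((q ^ (n : ℤ)) ^ 2 - 1) / q ^ (n : ℤ) := by
    simp only [br, zpow_neg]; field_simp
  have h0' : (q ^ (n : ℤ)) ^ 2 - 1 ≠ 0 := fun e => h0 (by rw [hb, e, zero_div])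
  rw [e, e', hb, zpow_neg, e2]
  simp only [br, neg_sub, neg_add, zpow_sub₀ h, zpow_add₀ h, zpow_neg, zpow_one]
  rw [show q ^ (2 : ℤ) = q ^ 2 by norm_cast]
  field_simp
  ring

/-- The HOMFLY-PT polynomial of the trefoil knot. -/
theorem suTree_3_1 (n : ℕ) (q : ℂ) (h : q ≠ 0) (h1 : br q 1 ≠ 0)
    (h2 : br q ((n : ℤ) - 1) ≠ 0) (h0 : br q n ≠ 0) (h3 : br q ((n : ℤ) + 1) ≠ 0) :
    suTree ![0] Fin.succ ![1, 1] n 1 q =
      q ^ (2 * (n : ℤ)) * (q ^ 2 + q ^ (-2 : ℤ)) - q ^ (4 * (n : ℤ)) := by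
  rw [suTree_double n q h h1 h2 h0 h3]
  have hn := zpow_ne_zero (n : ℤ) h
  have e : q ^ (2 * (1 : ℤ) * n) = (q ^ (n : ℤ)) ^ 2 := by
    rw [← zpow_natCast, ← zpow_mul]; congr 1; push_cast; ring
  have e2 : q ^ (2 * (n : ℤ)) = (q ^ (n : ℤ)) ^ 2 := by
    rw [← zpow_natCast, ← zpow_mul]; congr 1; push_cast; ring
  have e4 : q ^ (4 * (n : ℤ)) = (q ^ (n : ℤ)) ^ 4 := by
    rw [← zpow_natCast, ← zpow_mul]; congr 1; push_cast; ring
  have hb : br q n = ((q ^ (n : ℤ)) ^ 2 - 1) / q ^ (n : ℤ) := by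
    simp only [br, zpow_neg]; field_simp
  have h0' : (q ^ (n : ℤ)) ^ 2 - 1 ≠ 0 := fun e => h0 (by rw [hb, e, zero_div])
  rw [e, hb, e2, e4]
  simp only [br, neg_sub, neg_add, zpow_sub₀ h, zpow_add₀ h, zpow_neg, zpow_one]
  rw [show q ^ (2 : ℤ) = q ^ 2 by norm_cast]
  field_simp
  ring

end Pool.Agent.H63.VC8

end
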