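import Pool.Agent.H94.PA.M12
import Pool.Agent.H94.PA.M39

/-! The parts of this file: H63.VC8.DimA8, H63.VC8.NodeL18, H63.VC8.EdgeLim8, H63.VC8.NodeL08, H63.VC8.RootLim8. -/

section

/-! # Quantum dimensions as trigonometric polynomials -/

namespace Pool.Agent.H63.VC8

open Pool.Agent.H63.VC
open Pool.Agent.H63.VC3 Pool.Agent.H63.VC4 Pool.Agent.H63.VC7 Complex Filter Topology

variable {m p : ℕ}

private theorem DimA8_tel (n : ℕ) (hn : 2 ≤ n) (q : ℂ) (X : ℕ)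
    (hq : ∀ i : ℕ, 1 ≤ i → i ≤ X + n → br q i ≠ 0) :
    ∏ i ∈ Finset.range X, (br q ((n : ℤ) + i - 1) / br q ((i : ℤ) + 1)) =
      ∏ u ∈ Finset.range (n - 2), (br q ((X : ℤ) + u + 1) / br q ((u : ℤ) + 1)) := by
  have hq' : ∀ a : ℤ, 1 ≤ a → a ≤ X + n → br q a ≠ 0 := by
    intro a h1 h2
    have h3 := hq a.toNat (by omega) (by omega)
    rwa [show ((a.toNat : ℕ) : ℤ) = a by omega] at h3
  induction X with
  | zero =>
    rw [Finset.prod_range_zero]
    symm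
    refine Finset.prod_eq_one fun u hu => ?_
    rw [Finset.mem_range] at hu
    have h1 : br q ((u : ℤ) + 1) ≠ 0 := hq' _ (by omega) (by push_cast; omega)
    rw [Nat.cast_zero, zero_add, div_self h1]
  | succ X ih =>
    rw [Finset.prod_range_succ, ih (fun i h1 h2 => hq i h1 (by omega))
      (fun a h1 h2 => hq' a h1 (by push_cast; omega)), Finset.prod_div_distrib,
      Finset.prod_div_distrib]
    have hD : ∏ u ∈ Finset.range (n - 2), br q ((u : ℤ) + 1) ≠ 0 := by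
      refine Finset.prod_ne_zero_iff.2 fun u hu => ?_
      rw [Finset.mem_range] at hu
      exact hq' _ (by omega) (by push_cast; omega)
    have h1 : br q ((X : ℤ) + 1) ≠ 0 := hq' _ (by omega) (by push_cast; omega)
    have e : (∏ u ∈ Finset.range (n - 2), br q ((X : ℤ) + u + 1)) * br q ((n : ℤ) + X - 1) =
        br q ((X : ℤ) + 1) * ∏ u ∈ Finset.range (n - 2), br q (((X + 1 : ℕ) : ℤ) + u + 1) := by
      have h2 := Finset.prod_range_succ (fun u : ℕ => br q ((X : ℤ) + u + 1)) (n - 2)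
      have h3 := Finset.prod_range_succ' (fun u : ℕ => br q ((X : ℤ) + u + 1)) (n - 2)
      have h4 : br q ((X : ℤ) + ((n - 2 : ℕ) : ℤ) + 1) = br q ((n : ℤ) + X - 1) := by
        congr 1
        omega
      have h5 : ∏ u ∈ Finset.range (n - 2), br q ((X : ℤ) + ((u + 1 : ℕ) : ℤ) + 1) =
          ∏ u ∈ Finset.range (n - 2), br q (((X + 1 : ℕ) : ℤ) + u + 1) := by
        refine Finset.prod_congr rfl fun u _ => ?_
        congr 1
        push_cast
        ring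
      simp only [h4] at h2
      simp only [h5] at h3
      rw [← h2, h3, mul_comm]
      congr 1
    rw [div_mul_div_comm, div_eq_div_iff (mul_ne_zero hD h1) hD, e]
    ring

/-- The quantum dimensions as trigonometric polynomials. -/
theorem dimA_eq (n : ℕ) (hn : 2 ≤ n) (q : ℂ) (X : ℕ) (hq : ∀ i : ℕ, 1 ≤ i → i ≤ X + n → br q i ≠ 0) :
    dimA n q X = br q ((n : ℤ) + 2 * X - 1) / br q ((n : ℤ) - 1) *
      ∏ u ∈ Finset.range (n - 2), (br q ((X : ℤ) + u + 1) / br q ((u : ℤ) + 1)) ^ 2 := by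
  unfold dimA
  rw [Finset.prod_pow, Finset.prod_pow, DimA8_tel n hn q X hq]

private theorem DimA8_br (M k : ℕ) (a : ℤ) (ha : a = k) :
    br (exp (Real.pi * I / (M : ℂ))) a = I * ((sg M k : ℝ) : ℂ) := by
  subst ha
  rw [RootLim_br, sg]
  push_cast
  ring

private theorem DimA8_S (M k : ℕ) : S M k = ∏ i ∈ Finset.range k, sg M (i + 1) := by
  unfold S
  rw [Finset.prod_Ico_eq_prod_range]
  refine Finset.prod_congr (by simp) fun i _ => ?_
  rw [add_comm]

private theorem DimA8_ne (M : ℕ) (hM : 0 < M) (x : ℂ) (hx : x ≠ 0) :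
    ∀ᶠ q in 𝓝[≠] x, br q (M : ℤ) ≠ 0 := by
  have hfin : Set.Finite {q : ℂ | q ^ (2 * M) = 1} := by
    have h1 : (Polynomial.X ^ (2 * M) - Polynomial.C (1 : ℂ)) ≠ 0 :=
      Polynomial.X_pow_sub_C_ne_zero (by omega) 1
    refine (Polynomial.finite_setOfPred_isRoot h1).subset fun q hq => ?_
    have hq' : q ^ (2 * M) = 1 := hq
    simp [Polynomial.IsRoot, hq']
  have h2 : ∀ᶠ q in 𝓝 x, q ∉ {q : ℂ | q ^ (2 * M) = 1} \ {x} :=
    (hfin.subset Set.sdiff_subset).isClosed.isOpen_compl.mem_nhds (by simp)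
  have h3 : ∀ᶠ q in 𝓝 x, q ≠ 0 := isOpen_ne.mem_nhds hx
  filter_upwards [nhdsWithin_le_nhds h2, nhdsWithin_le_nhds h3, self_mem_nhdsWithin]
    with q hq1 hq2 hq3 hq4
  refine hq1 ⟨?_, hq3⟩
  unfold br at hq4
  rw [zpow_neg, zpow_natCast, sub_eq_zero] at hq4
  change q ^ (2 * M) = 1
  rw [two_mul, pow_add]
  nth_rw 1 [hq4]
  exact inv_mul_cancel₀ (pow_ne_zero _ hq2)

/-- The zero of the quantum dimension of the symmetric power. -/
theorem dimS_lim (n g N : ℕ) (hn : 2 ≤ n) (hg : 1 ≤ g) (hgn : g < n) (hN : n ≤ N) :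
    Tendsto (fun q => dimS n N q / br q ((N : ℤ) + g))
      (𝓝[≠] exp (Real.pi * I / ((N + g : ℕ) : ℂ)))
      (𝓝 (I * (-1) ^ (n + g) * (S (N + g) (n - g - 1) : ℂ) * (S (N + g) (g - 1) : ℂ) /
        (S (N + g) (n - 1) : ℂ))) := by
  obtain ⟨a, ha⟩ : ∃ a, N + g = n + a := ⟨N + g - n, by omega⟩
  obtain ⟨c, hc⟩ : ∃ c, n = g + c + 1 := ⟨n - g - 1, by omega⟩
  have hNac : N = a + (c + 1) := by omega
  have hcc : n - g - 1 = c := by omega
  rw [hcc]
  set M := N + g with hM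
  have hM0 : 0 < M := by omega
  set ξ : ℂ := exp (Real.pi * I / (M : ℂ)) with hξ
  have hξ0 : ξ ≠ 0 := exp_ne_zero _
  -- the factorization
  have hfac : ∀ q : ℂ, dimS n N q =
      ((∏ i ∈ Finset.range a, br q ((n : ℤ) + i)) *
        ((∏ i ∈ Finset.range c, br q ((M : ℤ) + 1 + i)) * br q (M : ℤ))) /
          ∏ i ∈ Finset.range N, br q ((i : ℤ) + 1) := by
    intro q
    unfold dimS
    rw [Finset.prod_div_distrib]
    congr 1
    have h1 := Finset.prod_range_add (fun i : ℕ => br q ((n : ℤ) + i)) a (c + 1)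
    rw [← hNac] at h1
    rw [h1, Finset.prod_range_succ']
    have h2 : br q ((n : ℤ) + ((a + 0 : ℕ) : ℤ)) = br q (M : ℤ) := by
      congr 1
      omega
    have h3 : ∏ i ∈ Finset.range c, br q ((n : ℤ) + ((a + (i + 1) : ℕ) : ℤ)) =
        ∏ i ∈ Finset.range c, br q ((M : ℤ) + 1 + i) := by
      refine Finset.prod_congr rfl fun i _ => ?_
      congr 1
      omega
    rw [h2, h3]
  have hev : (fun q => dimS n N q / br q ((N : ℤ) + g)) =ᶠ[𝓝[≠] ξ] fun q =>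
      ((∏ i ∈ Finset.range a, br q ((n : ℤ) + i)) *
        (∏ i ∈ Finset.range c, br q ((M : ℤ) + 1 + i))) /
          ∏ i ∈ Finset.range N, br q ((i : ℤ) + 1) := by
    filter_upwards [DimA8_ne M hM0 ξ hξ0] with q hq
    have h1 : br q ((N : ℤ) + g) = br q (M : ℤ) := by
      congr 1
    rw [h1, hfac q, ← mul_assoc, div_div, mul_div_mul_right _ _ hq]
  refine Tendsto.congr' hev.symm ?_
  -- the values at the root of unity
  have hcont : ∀ b : ℤ, Tendsto (fun q => br q b) (𝓝 ξ) (𝓝 (br ξ b)) := fun b =>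
    RootLim_br_cont ξ hξ0 b
  have hS0 : ∀ k, k < M → ((S M k : ℝ) : ℂ) ≠ 0 := fun k hk => by
    exact_mod_cast (S_pos (M := M) (k := k) hk).ne'
  have v1 : ∏ i ∈ Finset.range a, br ξ ((n : ℤ) + i) =
      I ^ a * ((∏ i ∈ Finset.range a, sg M (n + i) : ℝ) : ℂ) := by
    rw [Finset.prod_congr rfl fun i _ => DimA8_br M (n + i) ((n : ℤ) + i) (by push_cast; rfl),
      Finset.prod_mul_distrib, Finset.prod_const, Finset.card_range, ofReal_prod]
  have v2 : ∏ i ∈ Finset.range c, br ξ ((M : ℤ) + 1 + i) = (-1) ^ c * I ^ c * ((S M c : ℝ) : ℂ) := by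
    have h1 : ∀ i ∈ Finset.range c, br ξ ((M : ℤ) + 1 + i) =
        (-I) * ((sg M (i + 1) : ℝ) : ℂ) := by
      intro i _
      rw [DimA8_br M (M + 1 + i) ((M : ℤ) + 1 + i) (by push_cast; rfl)]
      have h2 : sg M (M + 1 + i) = -sg M (i + 1) := by
        unfold sg
        have hM' : (M : ℝ) ≠ 0 := by exact_mod_cast hM0.ne'
        have e : Real.pi * ((M + 1 + i : ℕ) : ℝ) / M =
            Real.pi * ((i + 1 : ℕ) : ℝ) / M + Real.pi := by
          push_cast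
          field_simp
          ring
        rw [e, Real.sin_add_pi]
        ring
      rw [h2]
      push_cast
      ring
    rw [Finset.prod_congr rfl h1, Finset.prod_mul_distrib, Finset.prod_const, Finset.card_range,
      DimA8_S, ofReal_prod, neg_pow]
  have v3 : ∏ i ∈ Finset.range N, br ξ ((i : ℤ) + 1) = I ^ N * ((S M N : ℝ) : ℂ) := by
    rw [Finset.prod_congr rfl fun i _ => DimA8_br M (i + 1) ((i : ℤ) + 1) (by push_cast; rfl),
      Finset.prod_mul_distrib, Finset.prod_const, Finset.card_range, DimA8_S, ofReal_prod]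
  have hN0 : ((S M N : ℝ) : ℂ) ≠ 0 := hS0 N (by omega)
  have hn0 : ((S M (n - 1) : ℝ) : ℂ) ≠ 0 := hS0 (n - 1) (by omega)
  have hlim : Tendsto (fun q => ((∏ i ∈ Finset.range a, br q ((n : ℤ) + i)) *
        (∏ i ∈ Finset.range c, br q ((M : ℤ) + 1 + i))) /
          ∏ i ∈ Finset.range N, br q ((i : ℤ) + 1)) (𝓝 ξ)
      (𝓝 (((∏ i ∈ Finset.range a, br ξ ((n : ℤ) + i)) *
        (∏ i ∈ Finset.range c, br ξ ((M : ℤ) + 1 + i))) /
          ∏ i ∈ Finset.range N, br ξ ((i : ℤ) + 1))) := by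
    refine ((tendsto_finsetProd _ fun i _ => hcont _).mul
      (tendsto_finsetProd _ fun i _ => hcont _)).div (tendsto_finsetProd _ fun i _ => hcont _) ?_
    rw [v3]
    exact mul_ne_zero (pow_ne_zero _ I_ne_zero) hN0
  have hval : ((∏ i ∈ Finset.range a, br ξ ((n : ℤ) + i)) *
        (∏ i ∈ Finset.range c, br ξ ((M : ℤ) + 1 + i))) /
          ∏ i ∈ Finset.range N, br ξ ((i : ℤ) + 1) =
      I * (-1) ^ (n + g) * ((S M c : ℝ) : ℂ) * ((S M (g - 1) : ℝ) : ℂ) /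
        ((S M (n - 1) : ℝ) : ℂ) := by
    rw [v1, v2, v3]
    have h1 : S M (n - 1) * ∏ i ∈ Finset.range a, sg M (n + i) = M := by
      have h2 := S_split (M := M) (k := n - 1) (l := M - 1) (by omega)
      rw [S_full M hM0, show n - 1 + 1 = n by omega, show M - 1 + 1 = M by omega,
        Finset.prod_Ico_eq_prod_range, show M - n = a by omega] at h2
      exact h2.symm
    have h3 : S M (g - 1) * S M N = M := by
      have h4 := S_mul (M := M) (k := g - 1) (by omega)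
      rwa [show M - 1 - (g - 1) = N by omega] at h4
    have h5 : ((S M (n - 1) : ℝ) : ℂ) * ((∏ i ∈ Finset.range a, sg M (n + i) : ℝ) : ℂ) =
        ((S M (g - 1) : ℝ) : ℂ) * ((S M N : ℝ) : ℂ) := by
      rw [← ofReal_mul, ← ofReal_mul, h1, h3]
    have h6 : ((-1 : ℂ)) ^ (n + g) = (-1) ^ (c + 1) := by
      rw [show n + g = 2 * g + (c + 1) by omega, pow_add, pow_mul]
      norm_num
    rw [div_eq_div_iff (mul_ne_zero (pow_ne_zero _ I_ne_zero) hN0) hn0, h6]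
    have h7 : (I : ℂ) ^ N = I ^ a * I ^ c * I := by
      rw [hNac, pow_add, pow_succ, mul_assoc]
    rw [h7, pow_succ (-1 : ℂ) c]
    linear_combination (I ^ a * ((-1) ^ c * I ^ c * ((S M c : ℝ) : ℂ))) * h5 +
      ((-1) ^ c * ((S M c : ℝ) : ℂ) * ((S M (g - 1) : ℝ) : ℂ) * (I ^ a * I ^ c) *
        ((S M N : ℝ) : ℂ)) * I_mul_I
  rw [← hval]
  exact hlim.mono_left nhdsWithin_le_nhds

end Pool.Agent.H63.VC8

end

section

/-! # Zeros of the factor of a node -/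

namespace Pool.Agent.H63.VC8

open Pool.Agent.H63.VC
open Pool.Agent.H63.VC3 Pool.Agent.H63.VC4 Pool.Agent.H63.VC7 Complex Filter Topology

variable {m p : ℕ}

/-- `{a}` without the zero at `a = M`. -/
noncomputable def NodeL18_rho (M : ℕ) (q : ℂ) (a : ℤ) : ℂ := if a = (M : ℤ) then 1 else br q a

theorem NodeL18_rho_mul (M : ℕ) (q : ℂ) (a : ℤ) :
    br q a = (if a = (M : ℤ) then br q M else 1) * NodeL18_rho M q a := by
  unfold NodeL18_rho
  split_ifs with h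
  · rw [h, mul_one]
  · rw [one_mul]

/-- The regular part of the quantum dimension of a channel. -/
noncomputable def NodeL18_R (n M : ℕ) (q : ℂ) (X : ℕ) : ℂ :=
  br q ((n : ℤ) + 2 * X - 1) / br q ((n : ℤ) - 1) *
    ∏ u ∈ Finset.range (n - 2), (NodeL18_rho M q ((X : ℤ) + u + 1) / br q ((u : ℤ) + 1)) ^ 2

/-- The regular part of the quantum dimension of the color. -/
noncomputable def NodeL18_D (n N M : ℕ) (q : ℂ) : ℂ :=
  ∏ i ∈ Finset.range N, NodeL18_rho M q ((n : ℤ) + i) / br q ((i : ℤ) + 1)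

theorem NodeL18_dimS (n N M : ℕ) (hn : n ≤ M) (hM : M < n + N) (q : ℂ) :
    dimS n N q = br q M * NodeL18_D n N M q := by
  unfold dimS NodeL18_D
  have e : ∀ i ∈ Finset.range N, br q ((n : ℤ) + i) / br q ((i : ℤ) + 1) =
      (if i = M - n then br q M else 1) * (NodeL18_rho M q ((n : ℤ) + i) / br q ((i : ℤ) + 1)) := by
    intro i _
    rw [NodeL18_rho_mul M q ((n : ℤ) + i)]
    have h : ((n : ℤ) + i = (M : ℤ)) ↔ i = M - n := by omega
    simp only [h]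
    ring
  rw [Finset.prod_congr rfl e, Finset.prod_mul_distrib, Finset.prod_ite_eq',
    if_pos (Finset.mem_range.2 (by omega))]

theorem NodeL18_dimA (n M X : ℕ) (hn : 2 ≤ n) (h1 : M + 1 < n + X) (h2 : X < M) (q : ℂ)
    (hq : ∀ i : ℕ, 1 ≤ i → i ≤ X + n → br q i ≠ 0) :
    dimA n q X = br q M ^ 2 * NodeL18_R n M q X := by
  rw [dimA_eq n hn q X hq, NodeL18_R]
  have e : ∀ u ∈ Finset.range (n - 2), (br q ((X : ℤ) + u + 1) / br q ((u : ℤ) + 1)) ^ 2 =
      (if u = M - X - 1 then br q M ^ 2 else 1) *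
        (NodeL18_rho M q ((X : ℤ) + u + 1) / br q ((u : ℤ) + 1)) ^ 2 := by
    intro u _
    rw [NodeL18_rho_mul M q ((X : ℤ) + u + 1)]
    have h : ((X : ℤ) + u + 1 = (M : ℤ)) ↔ u = M - X - 1 := by omega
    simp only [h]
    split_ifs <;> ring
  rw [Finset.prod_congr rfl e, Finset.prod_mul_distrib, Finset.prod_ite_eq',
    if_pos (Finset.mem_range.2 (by omega))]
  ring

/-- A term of the sum, without its zero. -/
noncomputable def NodeL18_f (r : ℤ) (n N M : ℕ) (A : Finset (Fin m)) (t : Fin m → ℕ) (X : ℕ)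
    (q : ℂ) : ℂ :=
  q ^ (2 * r * (X * (X + n - 1))) * (NodeL18_R n M q X / NodeL18_D n N M q) *
    ∏ j ∈ A, pw8 n q (t j) X

/-- The sum without its zero. -/
noncomputable def NodeL18_H (r : ℤ) (n N M : ℕ) (A : Finset (Fin m)) (t : Fin m → ℕ) (T : ℕ)
    (q : ℂ) : ℂ :=
  ∑ X ∈ Finset.Icc T N, NodeL18_f r n N M A t X q

theorem NodeL18_pw_zero (n : ℕ) (q : ℂ) (t X : ℕ) (h : X < t) : pw8 n q t X = 0 := by
  unfold pw8
  apply Finset.prod_eq_zero (Finset.mem_range.2 h)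
  simp [br]

theorem NodeL18_NF (r : ℤ) (n g N : ℕ) (hn : 2 ≤ n) (hN : n ≤ N)
    (A : Finset (Fin m)) (t : Fin m → ℕ) (j : Fin m) (hj : j ∈ A) (hl : N + g + 1 < n + t j)
    (hg : 1 ≤ g) (q : ℂ) (hq : ∀ i : ℕ, 1 ≤ i → i ≤ N + n → br q i ≠ 0) :
    NF8 r n N q A t = br q ((N + g : ℕ) : ℤ) * NodeL18_H r n N (N + g) A t (t j) q := by
  unfold NF8 NodeL18_H
  rw [Finset.mul_sum]
  have hsub : Finset.Icc (t j) N ⊆ Finset.range (N + 1) := by
    intro X hX
    rw [Finset.mem_Icc] at hX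
    rw [Finset.mem_range]
    omega
  rw [← Finset.sum_subset hsub]
  · refine Finset.sum_congr rfl fun X hX => ?_
    rw [Finset.mem_Icc] at hX
    have hb : br q ((N + g : ℕ) : ℤ) ≠ 0 := hq (N + g) (by omega) (by omega)
    rw [NodeL18_dimA n (N + g) X hn (by omega) (by omega) q
      (fun i h1 h2 => hq i h1 (by omega)), NodeL18_dimS n N (N + g) (by omega) (by omega) q,
      NodeL18_f, sq, mul_assoc (br q ((N + g : ℕ) : ℤ)) _ (NodeL18_R n (N + g) q X),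
      mul_div_mul_left _ _ hb]
    ring
  · intro X hX1 hX2
    have hX : X < t j := by
      rw [Finset.mem_range] at hX1
      rw [Finset.mem_Icc] at hX2
      omega
    rw [Finset.prod_eq_zero hj (NodeL18_pw_zero n q (t j) X hX), mul_zero]

theorem NodeL18_per (M : ℕ) (hM : 1 ≤ M) (k : ℤ) :
    exp (Real.pi * I / (M : ℂ)) ^ (2 * (M : ℤ) * k) = 1 := by
  rw [← exp_int_mul]
  have hM' : (M : ℂ) ≠ 0 := by exact_mod_cast (by omega : M ≠ 0)
  have h : ((2 * (M : ℤ) * k : ℤ) : ℂ) * (Real.pi * I / (M : ℂ)) = k * (2 * Real.pi * I) := by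
    push_cast
    field_simp
  rw [h, exp_int_mul_two_pi_mul_I]

theorem NodeL18_br_refl (M : ℕ) (hM : 1 ≤ M) (a b k : ℤ) (h : a + b = 2 * (M : ℤ) * k) :
    br (exp (Real.pi * I / (M : ℂ))) a = -br (exp (Real.pi * I / (M : ℂ))) b := by
  have h0 : exp (Real.pi * I / (M : ℂ)) ≠ 0 := exp_ne_zero _
  have e1 : exp (Real.pi * I / (M : ℂ)) ^ a = exp (Real.pi * I / (M : ℂ)) ^ (-b) := by
    rw [show a = 2 * (M : ℤ) * k + (-b) by omega, zpow_add₀ h0, NodeL18_per M hM, one_mul]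
  have e2 : exp (Real.pi * I / (M : ℂ)) ^ (-a) = exp (Real.pi * I / (M : ℂ)) ^ b := by
    rw [zpow_neg, e1, zpow_neg, inv_inv]
  unfold br
  rw [e1, e2]
  ring

theorem NodeL18_pw_refl (n M : ℕ) (hM : 1 ≤ M) (t X X' : ℕ) (h : X + X' + n = 2 * M + 1) :
    pw8 n (exp (Real.pi * I / (M : ℂ))) t X' = pw8 n (exp (Real.pi * I / (M : ℂ))) t X := by
  unfold pw8
  refine Finset.prod_congr rfl fun i _ => ?_
  rw [NodeL18_br_refl M hM ((n : ℤ) + X' + i - 1) ((X : ℤ) - i) 1 (by omega),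
    NodeL18_br_refl M hM ((X' : ℤ) - i) ((n : ℤ) + X + i - 1) 1 (by omega)]
  ring

theorem NodeL18_rho_refl (M : ℕ) (hM : 1 ≤ M) (a b : ℤ) (h : a + b = 2 * (M : ℤ)) :
    NodeL18_rho M (exp (Real.pi * I / (M : ℂ))) a ^ 2 =
      NodeL18_rho M (exp (Real.pi * I / (M : ℂ))) b ^ 2 := by
  unfold NodeL18_rho
  by_cases ha : a = (M : ℤ)
  · rw [if_pos ha, if_pos (by omega)]
  · rw [if_neg ha, if_neg (by omega), NodeL18_br_refl M hM a b 1 (by omega)]
    ring

theorem NodeL18_R_refl (n M : ℕ) (hn : 2 ≤ n) (hM : 1 ≤ M) (X X' : ℕ)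
    (h : X + X' + n = 2 * M + 1) :
    NodeL18_R n M (exp (Real.pi * I / (M : ℂ))) X' =
      -NodeL18_R n M (exp (Real.pi * I / (M : ℂ))) X := by
  set ξ := exp (Real.pi * I / (M : ℂ)) with hξ
  have e1 : ∏ u ∈ Finset.range (n - 2), NodeL18_rho M ξ ((X' : ℤ) + u + 1) ^ 2 =
      ∏ u ∈ Finset.range (n - 2), NodeL18_rho M ξ ((X : ℤ) + u + 1) ^ 2 := by
    rw [← Finset.prod_range_reflect]
    refine Finset.prod_congr rfl fun u hu => ?_
    rw [Finset.mem_range] at hu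
    exact NodeL18_rho_refl M hM _ _ (by omega)
  unfold NodeL18_R
  simp only [div_pow]
  rw [Finset.prod_div_distrib, Finset.prod_div_distrib, e1,
    NodeL18_br_refl M hM ((n : ℤ) + 2 * X' - 1) ((n : ℤ) + 2 * X - 1) 2 (by omega)]
  ring

theorem NodeL18_f_refl (r : ℤ) (n N M : ℕ) (hn : 2 ≤ n) (hM : 1 ≤ M) (A : Finset (Fin m))
    (t : Fin m → ℕ) (X X' : ℕ) (h : X + X' + n = 2 * M + 1) :
    NodeL18_f r n N M A t X' (exp (Real.pi * I / (M : ℂ))) =
      -NodeL18_f r n N M A t X (exp (Real.pi * I / (M : ℂ))) := by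
  unfold NodeL18_f
  rw [NodeL18_R_refl n M hn hM X X' h,
    Finset.prod_congr rfl fun j _ => NodeL18_pw_refl n M hM (t j) X X' h]
  have h1 : 2 * r * ((X' : ℤ) * (X' + n - 1)) =
      2 * (M : ℤ) * (2 * r * (X' - X)) + 2 * r * ((X : ℤ) * (X + n - 1)) := by
    have h' : (X : ℤ) + X' + n = 2 * M + 1 := by exact_mod_cast h
    linear_combination 2 * r * ((X' : ℤ) - X) * h'
  rw [h1, zpow_add₀ (exp_ne_zero _), NodeL18_per M hM]
  ring

theorem NodeL18_br_zero (M : ℕ) (hM : 1 ≤ M) :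
    br (exp (Real.pi * I / (M : ℂ))) (2 * (M : ℤ)) = 0 := by
  have h := NodeL18_br_refl M hM (2 * (M : ℤ)) 0 1 (by omega)
  rw [h]
  simp [br]

theorem NodeL18_H_zero (r : ℤ) (n g N : ℕ) (hn : 2 ≤ n) (hg : 1 ≤ g) (hN : n ≤ N)
    (A : Finset (Fin m)) (t : Fin m → ℕ) (j : Fin m) (hj : j ∈ A) (ht : t j ≤ N)
    (hl : N + 2 * g < n + t j) :
    NodeL18_H r n N (N + g) A t (t j) (exp (Real.pi * I / ((N + g : ℕ) : ℂ))) = 0 := by
  set M := N + g with hM
  set T := t j with hT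
  have hM1 : 1 ≤ M := by omega
  set ξ := exp (Real.pi * I / (M : ℂ)) with hξ
  have hsub : Finset.Icc T (2 * M + 1 - n - T) ⊆ Finset.Icc T N := by
    intro X hX
    rw [Finset.mem_Icc] at hX ⊢
    omega
  unfold NodeL18_H
  rw [← Finset.sum_subset hsub]
  · refine Finset.sum_involution (fun X _ => 2 * M + 1 - n - X) ?_ ?_ ?_ ?_
    · intro X hX
      rw [Finset.mem_Icc] at hX
      rw [NodeL18_f_refl r n N M hn hM1 A t X (2 * M + 1 - n - X) (by omega)]
      ring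
    · intro X hX hf he
      apply hf
      rw [Finset.mem_Icc] at hX
      have h1 := NodeL18_f_refl r n N M hn hM1 A t X X (by omega)
      rw [← hξ] at h1
      have h2 : (2 : ℂ) * NodeL18_f r n N M A t X ξ = 0 := by linear_combination h1
      exact (mul_eq_zero.1 h2).resolve_left two_ne_zero
    · intro X hX
      rw [Finset.mem_Icc] at hX ⊢
      omega
    · intro X hX
      rw [Finset.mem_Icc] at hX
      show 2 * M + 1 - n - (2 * M + 1 - n - X) = X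
      omega
  · intro X hX1 hX2
    rw [Finset.mem_Icc] at hX1 hX2
    have hz : pw8 n ξ T X = 0 := by
      unfold pw8
      refine Finset.prod_eq_zero (i := 2 * M + 1 - n - X) (Finset.mem_range.2 (by omega)) ?_
      rw [show (n : ℤ) + X + ((2 * M + 1 - n - X : ℕ) : ℤ) - 1 = 2 * (M : ℤ) by omega,
        NodeL18_br_zero M hM1, zero_mul]
    unfold NodeL18_f
    rw [Finset.prod_eq_zero hj hz, mul_zero]

/-! ### Regularity -/

theorem NodeL18_br_ne (M : ℕ) (a : ℤ) (h0 : 0 < a) (h1 : a < 2 * (M : ℤ)) (h2 : a ≠ M) :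
    br (exp (Real.pi * I / (M : ℂ))) a ≠ 0 := by
  rw [RootLim_br]
  refine mul_ne_zero (mul_ne_zero two_ne_zero I_ne_zero) ?_
  intro h
  rw [Complex.sin_eq_zero_iff] at h
  obtain ⟨k, hk⟩ := h
  have hM : (M : ℂ) ≠ 0 := by
    have : M ≠ 0 := by omega
    exact_mod_cast this
  have hpi : (Real.pi : ℂ) ≠ 0 := by exact_mod_cast Real.pi_ne_zero
  have h3 : (a : ℂ) = k * M := by
    have h4 : (Real.pi : ℂ) * ((a : ℂ) - k * M) = 0 := by
      field_simp at hk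
      linear_combination Real.pi * hk
    have h5 := (mul_eq_zero.1 h4).resolve_left hpi
    linear_combination h5
  have h4 : a = k * (M : ℤ) := by exact_mod_cast h3
  have hM0 : (0 : ℤ) < M := by omega
  have hk0 : 0 < k := by
    by_contra hk
    have : k * (M : ℤ) ≤ 0 := mul_nonpos_of_nonpos_of_nonneg (by omega) hM0.le
    omega
  have hk2 : k < 2 := by
    by_contra hk
    have : 2 * (M : ℤ) ≤ k * (M : ℤ) := mul_le_mul_of_nonneg_right (by omega) hM0.le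
    omega
  have hk1 : k = 1 := by omega
  rw [hk1, one_mul] at h4
  exact h2 h4

theorem NodeL18_br_diff (x : ℂ) (hx : x ≠ 0) (a : ℤ) :
    DifferentiableAt ℂ (fun q => br q a) x := by
  unfold br
  exact (differentiableAt_zpow.2 (Or.inl hx)).sub (differentiableAt_zpow.2 (Or.inl hx))

theorem NodeL18_rho_diff (M : ℕ) (x : ℂ) (hx : x ≠ 0) (a : ℤ) :
    DifferentiableAt ℂ (fun q => NodeL18_rho M q a) x := by
  unfold NodeL18_rho
  split_ifs
  · exact differentiableAt_const _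
  · exact NodeL18_br_diff x hx a

theorem NodeL18_rho_ne (M : ℕ) (a : ℤ) (h0 : 0 < a) (h1 : a < 2 * (M : ℤ)) :
    NodeL18_rho M (exp (Real.pi * I / (M : ℂ))) a ≠ 0 := by
  unfold NodeL18_rho
  split_ifs with h
  · exact one_ne_zero
  · exact NodeL18_br_ne M a h0 h1 h

theorem NodeL18_D_diff (n g N : ℕ) (hn : 2 ≤ n) (hg : 1 ≤ g) (hN : n ≤ N) :
    DifferentiableAt ℂ (fun q => NodeL18_D n N (N + g) q)
      (exp (Real.pi * I / ((N + g : ℕ) : ℂ))) := by
  unfold NodeL18_D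
  refine DifferentiableAt.fun_finsetProd fun i hi => ?_
  rw [Finset.mem_range] at hi
  exact (NodeL18_rho_diff _ _ (exp_ne_zero _) _).fun_div (NodeL18_br_diff _ (exp_ne_zero _) _)
    (NodeL18_br_ne _ _ (by omega) (by omega) (by omega))

theorem NodeL18_D_ne (n g N : ℕ) (hn : 2 ≤ n) (hg : 1 ≤ g) (hN : n ≤ N) :
    NodeL18_D n N (N + g) (exp (Real.pi * I / ((N + g : ℕ) : ℂ))) ≠ 0 := by
  unfold NodeL18_D
  refine Finset.prod_ne_zero_iff.2 fun i hi => ?_
  rw [Finset.mem_range] at hi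
  exact div_ne_zero (NodeL18_rho_ne _ _ (by omega) (by omega))
    (NodeL18_br_ne _ _ (by omega) (by omega) (by omega))

theorem NodeL18_H_diff (r : ℤ) (n g N : ℕ) (hn : 2 ≤ n) (hg : 1 ≤ g) (hN : n ≤ N)
    (A : Finset (Fin m)) (t : Fin m → ℕ) (T : ℕ) :
    DifferentiableAt ℂ (NodeL18_H r n N (N + g) A t T)
      (exp (Real.pi * I / ((N + g : ℕ) : ℂ))) := by
  set ξ := exp (Real.pi * I / ((N + g : ℕ) : ℂ)) with hξ
  have h0 : ξ ≠ 0 := exp_ne_zero _
  unfold NodeL18_H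
  refine DifferentiableAt.fun_sum fun X _ => ?_
  unfold NodeL18_f
  refine DifferentiableAt.fun_mul (DifferentiableAt.fun_mul ?_ ?_) ?_
  · exact differentiableAt_zpow.2 (Or.inl h0)
  · refine DifferentiableAt.fun_div ?_ (NodeL18_D_diff n g N hn hg hN) (NodeL18_D_ne n g N hn hg hN)
    unfold NodeL18_R
    refine DifferentiableAt.fun_mul ?_ ?_
    · exact (NodeL18_br_diff ξ h0 _).fun_div (NodeL18_br_diff ξ h0 _)
        (NodeL18_br_ne _ _ (by omega) (by omega) (by omega))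
    · refine DifferentiableAt.fun_finsetProd fun u hu => ?_
      rw [Finset.mem_range] at hu
      exact ((NodeL18_rho_diff _ ξ h0 _).fun_div (NodeL18_br_diff ξ h0 _)
        (NodeL18_br_ne _ _ (by omega) (by omega) (by omega))).fun_pow 2
  · refine DifferentiableAt.fun_finsetProd fun j _ => ?_
    unfold pw8
    refine DifferentiableAt.fun_finsetProd fun i _ => ?_
    exact (NodeL18_br_diff ξ h0 _).fun_mul (NodeL18_br_diff ξ h0 _)

theorem NodeL18_br_deriv (M : ℕ) (hM : 1 ≤ M) :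
    ∃ B : ℂ, B ≠ 0 ∧ HasDerivAt (fun q => br q (M : ℤ)) B (exp (Real.pi * I / (M : ℂ))) := by
  set ξ := exp (Real.pi * I / (M : ℂ)) with hξ
  have h0 : ξ ≠ 0 := exp_ne_zero _
  have hM' : (M : ℂ) ≠ 0 := by exact_mod_cast (by omega : M ≠ 0)
  have e1 : ξ ^ (M : ℤ) = -1 := by
    rw [hξ, ← exp_int_mul]
    have h : ((M : ℤ) : ℂ) * (Real.pi * I / (M : ℂ)) = Real.pi * I := by
      push_cast
      field_simp
    rw [h, exp_pi_mul_I]
  have e2 : ξ ^ (-(M : ℤ)) = -1 := by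
    rw [zpow_neg, e1]
    norm_num
  have h1 := hasDerivAt_zpow (M : ℤ) ξ (Or.inl h0)
  have h2 := hasDerivAt_zpow (-(M : ℤ)) ξ (Or.inl h0)
  refine ⟨_, ?_, h1.sub h2⟩
  rw [zpow_sub_one₀ h0, zpow_sub_one₀ h0, e1, e2]
  have e3 : ((M : ℤ) : ℂ) * (-1 * ξ⁻¹) - ((-(M : ℤ) : ℤ) : ℂ) * (-1 * ξ⁻¹) =
      -2 * M * ξ⁻¹ := by
    push_cast
    ring
  rw [e3]
  exact mul_ne_zero (mul_ne_zero (by norm_num) hM') (inv_ne_zero h0)

theorem NodeL18_br_root (M : ℕ) (hM : 1 ≤ M) : br (exp (Real.pi * I / (M : ℂ))) (M : ℤ) = 0 := by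
  have h := NodeL18_br_refl M hM (M : ℤ) (M : ℤ) 1 (by omega)
  have h2 : (2 : ℂ) * br (exp (Real.pi * I / (M : ℂ))) (M : ℤ) = 0 := by linear_combination h
  exact (mul_eq_zero.1 h2).resolve_left two_ne_zero

theorem NodeL18_ev (g N n : ℕ) (hg : 1 ≤ g) (hN : n ≤ N) :
    ∀ᶠ q in 𝓝[≠] exp (Real.pi * I / ((N + g : ℕ) : ℂ)),
      ∀ i : ℕ, 1 ≤ i → i ≤ N + n → br q i ≠ 0 := by
  have key : ∀ i ∈ Finset.Icc 1 (N + n), ∀ᶠ q in 𝓝[≠] exp (Real.pi * I / ((N + g : ℕ) : ℂ)),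
      br q (i : ℤ) ≠ 0 := by
    intro i hi
    rw [Finset.mem_Icc] at hi
    by_cases h : i = N + g
    · obtain ⟨B, hB, hd⟩ := NodeL18_br_deriv (N + g) (by omega)
      have h1 := hd.eventually_ne hB (c := 0)
      rw [h]
      exact h1
    · have h1 := NodeL18_br_ne (N + g) (i : ℤ) (by omega) (by omega) (by omega)
      have h2 := (NodeL18_br_diff (exp (Real.pi * I / ((N + g : ℕ) : ℂ))) (exp_ne_zero _)
        (i : ℤ)).continuousAt.eventually_ne h1
      exact h2.filter_mono nhdsWithin_le_nhds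
  have h := (Filter.eventually_all_finset (Finset.Icc 1 (N + n))).2 key
  filter_upwards [h] with q hq i h1 h2
  exact hq i (Finset.mem_Icc.2 ⟨h1, h2⟩)

/-- If one of the edges has a pole of order `l` then the factor of the node has a zero of order `l`. -/
theorem node_lev (r : ℤ) (n g N : ℕ) (hn : 2 ≤ n) (hg : 1 ≤ g) (hgn : g < n) (hN : n ≤ N)
    (A : Finset (Fin m)) (t : Fin m → ℕ) (ht : ∀ j ∈ A, t j ≤ N) (j : Fin m) (hj : j ∈ A)
    (hl : 1 ≤ lev n g N (t j)) :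
    ∃ L : ℂ, Tendsto (fun q => NF8 r n N q A t / br q ((N : ℤ) + g) ^ lev n g N (t j))
      (𝓝[≠] exp (Real.pi * I / ((N + g : ℕ) : ℂ))) (𝓝 L) := by
  have hcast : ((N : ℤ) + g) = ((N + g : ℕ) : ℤ) := by push_cast; ring
  rw [hcast]
  have hpos : N + g + 1 < n + t j := by
    unfold lev at hl
    split_ifs at hl with h1 h2
    · exact h1
    · exact h1
    · omega
    · omega
  have hH := NodeL18_H_diff r n g N hn hg hN A t (t j)
  by_cases h2 : N + 2 * g < n + t j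
  · have hlev : lev n g N (t j) = 2 := by
      unfold lev
      rw [if_pos hpos, if_pos h2]
    rw [hlev]
    obtain ⟨B, hB, hd⟩ := NodeL18_br_deriv (N + g) (by omega)
    have hH0 := NodeL18_H_zero r n g N hn hg hN A t j hj (ht j hj) h2
    have hB0 := NodeL18_br_root (N + g) (by omega)
    have s1 := hasDerivAt_iff_tendsto_slope.1 hH.hasDerivAt
    have s2 := hasDerivAt_iff_tendsto_slope.1 hd
    have s3 := s1.div s2 hB
    refine ⟨_, s3.congr' ?_⟩
    filter_upwards [self_mem_nhdsWithin, NodeL18_ev g N n hg hN] with q hq hq'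
    have hq1 : q - exp (Real.pi * I / ((N + g : ℕ) : ℂ)) ≠ 0 := sub_ne_zero.2 hq
    have hb : br q ((N + g : ℕ) : ℤ) ≠ 0 := hq' (N + g) (by omega) (by omega)
    rw [NodeL18_NF r n g N hn hN A t j hj hpos hg q hq']
    simp only [Pi.div_apply, slope, vsub_eq_sub, smul_eq_mul, hH0, hB0, sub_zero]
    rw [mul_div_mul_left _ _ (inv_ne_zero hq1), sq, mul_div_mul_left _ _ hb]
  · have hlev : lev n g N (t j) = 1 := by
      unfold lev
      rw [if_pos hpos, if_neg h2]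
    rw [hlev]
    refine ⟨_, (hH.continuousAt.tendsto.mono_left nhdsWithin_le_nhds).congr' ?_⟩
    filter_upwards [NodeL18_ev g N n hg hN] with q hq'
    have hb : br q ((N + g : ℕ) : ℤ) ≠ 0 := hq' (N + g) (by omega) (by omega)
    rw [NodeL18_NF r n g N hn hN A t j hj hpos hg q hq', pow_one, mul_div_cancel_left₀ _ hb]

end Pool.Agent.H63.VC8

end

section

/-! # The limit of the weight of an edge -/

namespace Pool.Agent.H63.VC8

open Pool.Agent.H63.VC
open Pool.Agent.H63.VC3 Pool.Agent.H63.VC4 Pool.Agent.H63.VC7 Complex Filter Topology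

variable {m p : ℕ}

/-! ### Values at the root of unity -/

theorem EdgeLim8_nat (M b : ℕ) (a : ℤ) (ha : a = b) :
    br (exp (Real.pi * I / (M : ℂ))) a = I * (sg M b : ℝ) := by
  subst ha
  rw [RootLim_br, sg]
  push_cast
  ring

theorem EdgeLim8_shift (M : ℕ) (hM : 0 < M) (a : ℤ) :
    br (exp (Real.pi * I / (M : ℂ))) ((M : ℤ) + a) = -br (exp (Real.pi * I / (M : ℂ))) a := by
  have hM' : (M : ℂ) ≠ 0 := by exact_mod_cast hM.ne'
  rw [RootLim_br, RootLim_br]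
  have e : (Real.pi * (((M : ℤ) + a : ℤ) : ℂ) / (M : ℂ) : ℂ) = Real.pi * (a : ℂ) / M + Real.pi := by
    push_cast
    field_simp
    ring
  rw [e, Complex.sin_add_pi]
  ring

theorem EdgeLim8_refl (M : ℕ) (hM : 0 < M) (a : ℤ) :
    br (exp (Real.pi * I / (M : ℂ))) ((M : ℤ) - a) = br (exp (Real.pi * I / (M : ℂ))) a := by
  have hM' : (M : ℂ) ≠ 0 := by exact_mod_cast hM.ne'
  rw [RootLim_br, RootLim_br]
  have e : (Real.pi * (((M : ℤ) - a : ℤ) : ℂ) / (M : ℂ) : ℂ) = Real.pi - Real.pi * (a : ℂ) / M := by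
    push_cast
    field_simp
  rw [e, Complex.sin_pi_sub]

theorem EdgeLim8_ne0 (M : ℕ) (a : ℤ) (h0 : 0 < a) (h1 : a < M) :
    br (exp (Real.pi * I / (M : ℂ))) a ≠ 0 := by
  obtain ⟨b, rfl⟩ : ∃ b : ℕ, a = b := ⟨a.toNat, by omega⟩
  rw [EdgeLim8_nat M b b rfl]
  have h := (sg_pos (M := M) (m := b) (by omega) (by omega)).ne'
  exact mul_ne_zero I_ne_zero (by exact_mod_cast h)

theorem EdgeLim8_ne (M : ℕ) (a : ℤ) (h0 : 0 < a) (h1 : a < 3 * M) (h2 : a ≠ M)
    (h3 : a ≠ 2 * M) : br (exp (Real.pi * I / (M : ℂ))) a ≠ 0 := by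
  have hM : 0 < M := by omega
  by_cases c1 : a < M
  · exact EdgeLim8_ne0 M a h0 c1
  by_cases c2 : a < 2 * M
  · obtain ⟨b, rfl⟩ : ∃ b : ℤ, a = M + b := ⟨a - M, by ring⟩
    rw [EdgeLim8_shift M hM, neg_ne_zero]
    exact EdgeLim8_ne0 M b (by omega) (by omega)
  · obtain ⟨b, rfl⟩ : ∃ b : ℤ, a = M + (M + b) := ⟨a - 2 * M, by ring⟩
    rw [EdgeLim8_shift M hM, EdgeLim8_shift M hM, neg_neg]
    exact EdgeLim8_ne0 M b (by omega) (by omega)

theorem EdgeLim8_pow (M : ℕ) (hM : 0 < M) :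
    exp (Real.pi * I / (M : ℂ)) ^ (M : ℤ) = -1 := by
  have hM' : (M : ℂ) ≠ 0 := by exact_mod_cast hM.ne'
  rw [← exp_int_mul]
  have e : ((M : ℤ) : ℂ) * (Real.pi * I / (M : ℂ)) = Real.pi * I := by
    push_cast
    field_simp
  rw [e, exp_pi_mul_I]

theorem EdgeLim8_pow' (M : ℕ) (hM : 0 < M) :
    exp (Real.pi * I / (M : ℂ)) ^ (-(M : ℤ)) = -1 := by
  rw [zpow_neg, EdgeLim8_pow M hM]
  norm_num

/-! ### The regular part of a factor -/

/-- the regular part of a factor at the root of unity -/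
noncomputable def EdgeLim8_reg (M : ℕ) (a : ℤ) (q : ℂ) : ℂ :=
  if a = M then 1 else if a = 2 * M then q ^ (M : ℤ) + q ^ (-(M : ℤ)) else br q a

theorem EdgeLim8_reg_eq (M : ℕ) (_hM : 0 < M) (a : ℤ) (q : ℂ) (hq : q ≠ 0) :
    br q a = br q M ^ (if a = M ∨ a = 2 * M then 1 else 0) * EdgeLim8_reg M a q := by
  unfold EdgeLim8_reg
  by_cases h1 : a = M
  · rw [if_pos (Or.inl h1), if_pos h1, h1, pow_one, mul_one]
  by_cases h2 : a = 2 * M
  · rw [if_pos (Or.inr h2), if_neg h1, if_pos h2, h2, pow_one]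
    unfold br
    have e1 : q ^ (2 * (M : ℤ)) = q ^ (M : ℤ) * q ^ (M : ℤ) := by
      rw [← zpow_add₀ hq]
      congr 1
      ring
    have e2 : q ^ (-(2 * (M : ℤ))) = q ^ (-(M : ℤ)) * q ^ (-(M : ℤ)) := by
      rw [← zpow_add₀ hq]
      congr 1
      ring
    rw [e1, e2]
    ring
  · rw [if_neg (by tauto), if_neg h1, if_neg h2, pow_zero, one_mul]

theorem EdgeLim8_reg_cont (M : ℕ) (a : ℤ) (x : ℂ) (hx : x ≠ 0) :
    ContinuousAt (EdgeLim8_reg M a) x := by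
  unfold EdgeLim8_reg
  by_cases h1 : a = M
  · simp only [if_pos h1]
    exact continuousAt_const
  by_cases h2 : a = 2 * M
  · simp only [if_neg h1, if_pos h2]
    exact (continuousAt_zpow₀ x _ (Or.inl hx)).add (continuousAt_zpow₀ x _ (Or.inl hx))
  · simp only [if_neg h1, if_neg h2]
    exact RootLim_br_cont x hx a

theorem EdgeLim8_reg_ne (M : ℕ) (a : ℤ) (h0 : 0 < a) (h1 : a < 3 * M) :
    EdgeLim8_reg M a (exp (Real.pi * I / (M : ℂ))) ≠ 0 := by
  have hM : 0 < M := by omega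
  unfold EdgeLim8_reg
  by_cases h2 : a = M
  · rw [if_pos h2]
    exact one_ne_zero
  by_cases h3 : a = 2 * M
  · rw [if_neg h2, if_pos h3, EdgeLim8_pow M hM, EdgeLim8_pow' M hM]
    norm_num
  · rw [if_neg h2, if_neg h3]
    exact EdgeLim8_ne M a h0 h1 h2 h3

theorem EdgeLim8_br_ne (M : ℕ) (hM : 0 < M) :
    ∀ᶠ q in 𝓝[≠] exp (Real.pi * I / (M : ℂ)), br q M ≠ 0 := by
  have hx : exp (Real.pi * I / (M : ℂ)) ≠ 0 := exp_ne_zero _
  have hM' : (M : ℂ) ≠ 0 := by exact_mod_cast hM.ne'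
  have h1 := (hasDerivAt_zpow (M : ℤ) (exp (Real.pi * I / (M : ℂ))) (Or.inl hx)).sub
    (hasDerivAt_zpow (-(M : ℤ)) (exp (Real.pi * I / (M : ℂ))) (Or.inl hx))
  refine h1.eventually_ne ?_
  have e1 : exp (Real.pi * I / (M : ℂ)) ^ ((M : ℤ) - 1) = -(exp (Real.pi * I / (M : ℂ)))⁻¹ := by
    rw [zpow_sub₀ hx, EdgeLim8_pow M hM, zpow_one]
    rw [neg_div, one_div]
  have e2 : exp (Real.pi * I / (M : ℂ)) ^ (-(M : ℤ) - 1) =
      -(exp (Real.pi * I / (M : ℂ)))⁻¹ := by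
    rw [zpow_sub₀ hx, EdgeLim8_pow' M hM, zpow_one]
    rw [neg_div, one_div]
  rw [e1, e2]
  have e3 : ((M : ℤ) : ℂ) * -(exp (Real.pi * I / (M : ℂ)))⁻¹ -
      ((-(M : ℤ) : ℤ) : ℂ) * -(exp (Real.pi * I / (M : ℂ)))⁻¹ =
      -(2 * (M : ℂ) * (exp (Real.pi * I / (M : ℂ)))⁻¹) := by
    push_cast
    ring
  rw [e3]
  exact neg_ne_zero.2 (mul_ne_zero (mul_ne_zero two_ne_zero hM') (inv_ne_zero hx))

/-- The denominator of the weight of an edge. -/
theorem EdgeLim8_den (n g N t : ℕ) (hn : 2 ≤ n) (hg : 1 ≤ g) (hgn : g < n) (hN : n ≤ N)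
    (ht : t ≤ N) : ∃ R : ℂ → ℂ, ContinuousAt R (exp (Real.pi * I / ((N + g : ℕ) : ℂ))) ∧
      R (exp (Real.pi * I / ((N + g : ℕ) : ℂ))) ≠ 0 ∧ ∀ q ≠ 0,
        ∏ i ∈ Finset.range t, (br q ((i : ℤ) + 1) * br q ((n : ℤ) + i - 1) *
          (br q ((n : ℤ) + N + i) * br q ((N : ℤ) - i))) =
        br q ((N + g : ℕ) : ℤ) ^ lev n g N t * R q := by
  have hx : exp (Real.pi * I / ((N + g : ℕ) : ℂ)) ≠ 0 := exp_ne_zero _
  induction t with
  | zero =>
    refine ⟨fun _ => 1, continuousAt_const, one_ne_zero, fun q _ => ?_⟩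
    have : lev n g N 0 = 0 := by
      unfold lev
      rw [if_neg (by omega), if_neg (by omega)]
    rw [this]
    simp
  | succ t ih =>
    obtain ⟨R, hR1, hR2, hR3⟩ := ih (by omega)
    refine ⟨fun q => R q * (br q ((t : ℤ) + 1) * EdgeLim8_reg (N + g) ((n : ℤ) + t - 1) q *
      (EdgeLim8_reg (N + g) ((n : ℤ) + N + t) q * br q ((N : ℤ) - t))), ?_, ?_, ?_⟩
    · exact hR1.mul (((RootLim_br_cont _ hx _).mul (EdgeLim8_reg_cont _ _ _ hx)).mul
        ((EdgeLim8_reg_cont _ _ _ hx).mul (RootLim_br_cont _ hx _)))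
    · refine mul_ne_zero hR2 (mul_ne_zero (mul_ne_zero ?_ ?_) (mul_ne_zero ?_ ?_))
      · exact EdgeLim8_ne0 (N + g) _ (by omega) (by push_cast; omega)
      · exact EdgeLim8_reg_ne (N + g) _ (by omega) (by push_cast; omega)
      · exact EdgeLim8_reg_ne (N + g) _ (by omega) (by push_cast; omega)
      · exact EdgeLim8_ne0 (N + g) _ (by omega) (by push_cast; omega)
    · intro q hq
      rw [Finset.prod_range_succ, hR3 q hq,
        EdgeLim8_reg_eq (N + g) (by omega) ((n : ℤ) + t - 1) q hq,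
        EdgeLim8_reg_eq (N + g) (by omega) ((n : ℤ) + N + t) q hq]
      have e : lev n g N (t + 1) = lev n g N t +
          (if (n : ℤ) + t - 1 = ((N + g : ℕ) : ℤ) ∨ (n : ℤ) + t - 1 = 2 * ((N + g : ℕ) : ℤ)
            then 1 else 0) +
          (if (n : ℤ) + N + t = ((N + g : ℕ) : ℤ) ∨ (n : ℤ) + N + t = 2 * ((N + g : ℕ) : ℤ)
            then 1 else 0) := by
        unfold lev
        split_ifs <;> omega
      rw [e, pow_add, pow_add]
      ring

/-- The order of the pole. -/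
theorem edge_lev (n g N t : ℕ) (hn : 2 ≤ n) (hg : 1 ≤ g) (hgn : g < n) (hN : n ≤ N) (ht : t ≤ N) :
    ∃ L : ℂ, Tendsto (fun q => br q ((N : ℤ) + g) ^ lev n g N t * E8 n N q t)
      (𝓝[≠] exp (Real.pi * I / ((N + g : ℕ) : ℂ))) (𝓝 L) := by
  obtain ⟨R, hR1, hR2, hR3⟩ := EdgeLim8_den n g N t hn hg hgn hN ht
  refine ⟨(-1) ^ t / R (exp (Real.pi * I / ((N + g : ℕ) : ℂ))), ?_⟩
  have hx : exp (Real.pi * I / ((N + g : ℕ) : ℂ)) ≠ 0 := exp_ne_zero _
  have h1 : Tendsto (fun q => (-1) ^ t / R q) (𝓝[≠] exp (Real.pi * I / ((N + g : ℕ) : ℂ)))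
      (𝓝 ((-1) ^ t / R (exp (Real.pi * I / ((N + g : ℕ) : ℂ))))) :=
    (tendsto_const_nhds.div hR1.tendsto hR2).mono_left nhdsWithin_le_nhds
  refine h1.congr' ?_
  have hq0 : ∀ᶠ q in 𝓝[≠] exp (Real.pi * I / ((N + g : ℕ) : ℂ)), q ≠ 0 :=
    (eventually_ne_nhds hx).filter_mono nhdsWithin_le_nhds
  filter_upwards [hq0, EdgeLim8_br_ne (N + g) (by omega)] with q hq hq'
  unfold E8
  rw [hR3 q hq]
  have e : ((N : ℤ) + g) = ((N + g : ℕ) : ℤ) := by push_cast; rfl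
  rw [e, ← mul_div_assoc, mul_div_mul_left _ _ (pow_ne_zero _ hq')]

/-- The value of the denominator at the root of unity. -/
theorem EdgeLim8_prod (d c N t : ℕ) (ht : t ≤ N) :
    (∏ i ∈ Finset.range t, (br (exp (Real.pi * I / ((N + (d + 1) : ℕ) : ℂ))) ((i : ℤ) + 1) *
      br (exp (Real.pi * I / ((N + (d + 1) : ℕ) : ℂ))) (((d + c + 2 : ℕ) : ℤ) + i - 1) *
      (br (exp (Real.pi * I / ((N + (d + 1) : ℕ) : ℂ))) (((d + c + 2 : ℕ) : ℤ) + N + i) *
      br (exp (Real.pi * I / ((N + (d + 1) : ℕ) : ℂ))) ((N : ℤ) - i)))) *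
      ((S (N + (d + 1)) d : ℝ) * (S (N + (d + 1)) c : ℝ) * (S (N + (d + 1)) (d + c) : ℝ)) =
    (-1) ^ t * ((S (N + (d + 1)) t : ℝ) * (S (N + (d + 1)) (d + c + t) : ℝ) *
      (S (N + (d + 1)) (c + t) : ℝ) * (S (N + (d + 1)) (d + t) : ℝ)) := by
  induction t with
  | zero =>
    simp [S]
    ring
  | succ t ih =>
    have hM : 0 < N + (d + 1) := by omega
    have h1 : br (exp (Real.pi * I / ((N + (d + 1) : ℕ) : ℂ))) ((t : ℤ) + 1) =
        I * (sg (N + (d + 1)) (t + 1) : ℝ) :=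
      EdgeLim8_nat _ (t + 1) _ (by push_cast; ring)
    have h2 : br (exp (Real.pi * I / ((N + (d + 1) : ℕ) : ℂ)))
        (((d + c + 2 : ℕ) : ℤ) + t - 1) = I * (sg (N + (d + 1)) (d + c + t + 1) : ℝ) :=
      EdgeLim8_nat _ (d + c + t + 1) _ (by push_cast; ring)
    have h3 : br (exp (Real.pi * I / ((N + (d + 1) : ℕ) : ℂ)))
        (((d + c + 2 : ℕ) : ℤ) + N + t) = -(I * (sg (N + (d + 1)) (c + t + 1) : ℝ)) := by
      have e : (((d + c + 2 : ℕ) : ℤ) + N + t) =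
          ((N + (d + 1) : ℕ) : ℤ) + ((c + t + 1 : ℕ) : ℤ) := by
        push_cast
        ring
      rw [e, EdgeLim8_shift _ hM, EdgeLim8_nat _ (c + t + 1) _ rfl]
    have h4 : br (exp (Real.pi * I / ((N + (d + 1) : ℕ) : ℂ))) ((N : ℤ) - t) =
        I * (sg (N + (d + 1)) (d + t + 1) : ℝ) := by
      have e : ((N : ℤ) - t) = ((N + (d + 1) : ℕ) : ℤ) - ((d + t + 1 : ℕ) : ℤ) := by
        push_cast
        ring
      rw [e, EdgeLim8_refl _ hM, EdgeLim8_nat _ (d + t + 1) _ rfl]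
    have hI : I ^ 4 = 1 := by
      rw [show (4 : ℕ) = 2 * 2 from rfl, pow_mul, I_sq]
      norm_num
    have ih' := ih (by omega)
    rw [Finset.prod_range_succ, h1, h2, h3, h4]
    rw [show d + c + (t + 1) = d + c + t + 1 from rfl, show c + (t + 1) = c + t + 1 from rfl,
      show d + (t + 1) = d + t + 1 from rfl, S_succ _ t, S_succ _ (d + c + t),
      S_succ _ (c + t), S_succ _ (d + t), pow_succ (-1 : ℂ) t]
    push_cast at ih' ⊢
    linear_combination (-(I ^ 4 * (sg (N + (d + 1)) (t + 1) : ℂ) *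
      (sg (N + (d + 1)) (d + c + t + 1) : ℂ) * (sg (N + (d + 1)) (c + t + 1) : ℂ) *
      (sg (N + (d + 1)) (d + t + 1) : ℂ))) * ih' -
      (-1) ^ t * ((S (N + (d + 1)) t : ℂ) * (S (N + (d + 1)) (d + c + t) : ℂ) *
      (S (N + (d + 1)) (c + t) : ℂ) * (S (N + (d + 1)) (d + t) : ℂ)) *
      ((sg (N + (d + 1)) (t + 1) : ℂ) * (sg (N + (d + 1)) (d + c + t + 1) : ℂ) *
      (sg (N + (d + 1)) (c + t + 1) : ℂ) * (sg (N + (d + 1)) (d + t + 1) : ℂ)) * hI

/-- The limit of a regular weight. -/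
theorem edge_lim (n g N t : ℕ) (hn : 2 ≤ n) (hg : 1 ≤ g) (hgn : g < n) (hN : n ≤ N)
    (ht : t + n ≤ N + g + 1) :
    Tendsto (fun q => E8 n N q t) (𝓝[≠] exp (Real.pi * I / ((N + g : ℕ) : ℂ)))
      (𝓝 ((Dg n g (N + g) : ℂ) / ((N + g : ℕ) : ℂ) ^ 4 *
        Cc n g (N + g) (yk n (N + g) (N + g + 1 - n - t)))) := by
  obtain ⟨d, rfl⟩ : ∃ d, g = d + 1 := ⟨g - 1, by omega⟩
  obtain ⟨c, rfl⟩ : ∃ c, n = d + c + 2 := ⟨n - (d + 2), by omega⟩
  have htc : t + c ≤ N := by omega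
  have hx : exp (Real.pi * I / ((N + (d + 1) : ℕ) : ℂ)) ≠ 0 := exp_ne_zero _
  have hP := EdgeLim8_prod d c N t (by omega)
  set P : ℂ → ℂ := fun q => ∏ i ∈ Finset.range t, (br q ((i : ℤ) + 1) *
    br q (((d + c + 2 : ℕ) : ℤ) + i - 1) *
    (br q (((d + c + 2 : ℕ) : ℤ) + N + i) * br q ((N : ℤ) - i))) with hPdef
  have hPc : ContinuousAt P (exp (Real.pi * I / ((N + (d + 1) : ℕ) : ℂ))) := by
    refine tendsto_finsetProd _ fun i _ => ?_
    exact ((RootLim_br_cont _ hx _).mul (RootLim_br_cont _ hx _)).mul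
      ((RootLim_br_cont _ hx _).mul (RootLim_br_cont _ hx _))
  have hS : ∀ j, j < N + (d + 1) → (S (N + (d + 1)) j : ℂ) ≠ 0 := fun j hj => by
    exact_mod_cast (S_pos hj).ne'
  have hSM : ∀ j l, j + l = N + d → (S (N + (d + 1)) j : ℂ) * (S (N + (d + 1)) l : ℂ) =
      ((N + (d + 1) : ℕ) : ℂ) := by
    intro j l hjl
    have h := S_mul (M := N + (d + 1)) (k := j) (by omega)
    rw [show N + (d + 1) - 1 - j = l by omega] at h
    exact_mod_cast h
  have h1 : ((-1 : ℂ)) ^ t ≠ 0 := pow_ne_zero _ (by norm_num)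
  have hM0 : ((N + (d + 1) : ℕ) : ℂ) ≠ 0 := by exact_mod_cast (by omega : N + (d + 1) ≠ 0)
  have hPx : P (exp (Real.pi * I / ((N + (d + 1) : ℕ) : ℂ))) ≠ 0 := by
    intro h0
    have h2 : P (exp (Real.pi * I / ((N + (d + 1) : ℕ) : ℂ))) *
        ((S (N + (d + 1)) d : ℝ) * (S (N + (d + 1)) c : ℝ) * (S (N + (d + 1)) (d + c) : ℝ)) =
        (-1) ^ t * ((S (N + (d + 1)) t : ℝ) * (S (N + (d + 1)) (d + c + t) : ℝ) *
      (S (N + (d + 1)) (c + t) : ℝ) * (S (N + (d + 1)) (d + t) : ℝ)) := hP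
    rw [h0, zero_mul] at h2
    exact mul_ne_zero h1 (mul_ne_zero (mul_ne_zero (mul_ne_zero (hS t (by omega))
      (hS (d + c + t) (by omega))) (hS (c + t) (by omega))) (hS (d + t) (by omega))) h2.symm
  have h3 : Tendsto (fun q => (-1) ^ t / P q) (𝓝[≠] exp (Real.pi * I / ((N + (d + 1) : ℕ) : ℂ)))
      (𝓝 ((-1) ^ t / P (exp (Real.pi * I / ((N + (d + 1) : ℕ) : ℂ))))) :=
    (tendsto_const_nhds.div hPc.tendsto hPx).mono_left nhdsWithin_le_nhds
  have e1 : (-1) ^ t / P (exp (Real.pi * I / ((N + (d + 1) : ℕ) : ℂ))) =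
      (Dg (d + c + 2) (d + 1) (N + (d + 1)) : ℂ) / ((N + (d + 1) : ℕ) : ℂ) ^ 4 *
        Cc (d + c + 2) (d + 1) (N + (d + 1)) (yk (d + c + 2) (N + (d + 1))
          (N + (d + 1) + 1 - (d + c + 2) - t)) := by
    rw [Cc_yk (d + c + 2) (d + 1) (N + (d + 1)) _ (by omega) (by omega) (by omega) (by omega)]
    unfold Dg
    have a1 : N + (d + 1) + 1 - (d + c + 2) - t = N - c - t := by omega
    have a2 : d + 1 - 1 = d := by omega
    have a3 : d + c + 2 - (d + 1) - 1 = c := by omega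
    have a4 : d + c + 2 - 2 = d + c := by omega
    rw [a1, a2, a3, a4]
    have b1 := hSM (N - c - t) (d + c + t) (by omega)
    have b2 := hSM (N - c - t + d) (c + t) (by omega)
    have b3 := hSM (N - c - t + c) (d + t) (by omega)
    have b4 := hSM (N - c - t + (d + c)) t (by omega)
    have h2 : P (exp (Real.pi * I / ((N + (d + 1) : ℕ) : ℂ))) *
        ((S (N + (d + 1)) d : ℝ) * (S (N + (d + 1)) c : ℝ) * (S (N + (d + 1)) (d + c) : ℝ)) =
        (-1) ^ t * ((S (N + (d + 1)) t : ℝ) * (S (N + (d + 1)) (d + c + t) : ℝ) *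
      (S (N + (d + 1)) (c + t) : ℝ) * (S (N + (d + 1)) (d + t) : ℝ)) := hP
    rw [div_eq_iff hPx, div_mul_eq_mul_div, div_mul_eq_mul_div, eq_div_iff (pow_ne_zero 4 hM0)]
    push_cast at h2 b1 b2 b3 b4 ⊢
    have h5 : ((-1 : ℂ) ^ t) * (-1) ^ t = 1 := by
      rw [← mul_pow]
      norm_num
    have h6 : ((N : ℂ) + (d + 1)) ^ 4 =
        ((S (N + (d + 1)) (N - c - t) : ℂ) * (S (N + (d + 1)) (d + c + t) : ℂ)) *
        ((S (N + (d + 1)) (N - c - t + d) : ℂ) * (S (N + (d + 1)) (c + t) : ℂ)) *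
        ((S (N + (d + 1)) (N - c - t + c) : ℂ) * (S (N + (d + 1)) (d + t) : ℂ)) *
        ((S (N + (d + 1)) (N - c - t + (d + c)) : ℂ) * (S (N + (d + 1)) t : ℂ)) := by
      rw [b1, b2, b3, b4]
      ring
    rw [h6]
    linear_combination (-((S (N + (d + 1)) (N - c - t) : ℂ) *
      (S (N + (d + 1)) (N - c - t + d) : ℂ) * (S (N + (d + 1)) (N - c - t + c) : ℂ) *
      (S (N + (d + 1)) (N - c - t + (d + c)) : ℂ))) * h2
  rw [← e1]
  exact h3

end Pool.Agent.H63.VC8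

end

section

/-! # The limit of the factor of a node -/

namespace Pool.Agent.H63.VC8

open Pool.Agent.H63.VC
open Pool.Agent.H63.VC3 Pool.Agent.H63.VC4 Pool.Agent.H63.VC7 Complex Filter Topology

variable {m p : ℕ}

/-- A parametrization near the root of unity. -/
noncomputable def NodeL08_Q (M : ℕ) (e : ℂ) : ℂ :=
  exp (Real.pi * I * (1 + e) / (M : ℂ))

/-- The phase of a term. -/
noncomputable def NodeL08_W (r : ℤ) (n M X : ℕ) (e : ℂ) : ℂ :=
  exp (2 * r * (X * (X + n - 1)) * (Real.pi * I * (1 + e) / (M : ℂ)))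

/-- The amplitude of a term, as a function of two variables. -/
noncomputable def NodeL08_T (n M : ℕ) (A : Finset (Fin m)) (t : Fin m → ℕ) (w : ℂ × ℂ) : ℂ :=
  sin (2 * Real.pi * w.2) *
    (∏ u ∈ Finset.range (n - 2),
      (-4 * sin (Real.pi * (w.2 + ((u : ℂ) + 1 - bt n) * (1 + w.1) / (M : ℂ))) ^ 2)) *
    ∏ j ∈ A, ∏ i ∈ Finset.range (t j),
    (-4 * (sin (Real.pi * (w.2 + (i + bt n) * (1 + w.1) / (M : ℂ))) *
      sin (Real.pi * (w.2 - (i + bt n) * (1 + w.1) / (M : ℂ)))))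

/-- The position of a term. -/
noncomputable def NodeL08_z (n M X : ℕ) (e : ℂ) : ℂ := (1 + e) * (X + bt n) / (M : ℂ)

/-- A term of the sum. -/
noncomputable def NodeL08_f (r : ℤ) (n M : ℕ) (A : Finset (Fin m)) (t : Fin m → ℕ) (X : ℕ)
    (e : ℂ) : ℂ :=
  NodeL08_Q M e ^ (2 * r * ((X : ℤ) * (X + n - 1))) *
    br (NodeL08_Q M e) ((n : ℤ) + 2 * X - 1) *
    (∏ u ∈ Finset.range (n - 2), br (NodeL08_Q M e) ((X : ℤ) + u + 1) ^ 2) *
    ∏ j ∈ A, pw8 n (NodeL08_Q M e) (t j) X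

theorem NodeL08_zpow (M : ℕ) (e : ℂ) (a : ℤ) :
    NodeL08_Q M e ^ a = exp (a * (Real.pi * I * (1 + e) / (M : ℂ))) := by
  rw [NodeL08_Q, ← Complex.exp_int_mul]

theorem NodeL08_br (M : ℕ) (e : ℂ) (a : ℤ) :
    br (NodeL08_Q M e) a = 2 * I * sin (Real.pi * (a * (1 + e) / (M : ℂ))) := by
  rw [br, NodeL08_zpow, NodeL08_zpow, Complex.sin]
  have h1 : (a : ℂ) * (Real.pi * I * (1 + e) / (M : ℂ)) =
      (Real.pi * (a * (1 + e) / (M : ℂ))) * I := by ring
  have h2 : ((-a : ℤ) : ℂ) * (Real.pi * I * (1 + e) / (M : ℂ)) =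
      -(Real.pi * (a * (1 + e) / (M : ℂ))) * I := by push_cast; ring
  rw [h1, h2]
  linear_combination (exp (Real.pi * (a * (1 + e) / (M : ℂ)) * I) -
    exp (-(Real.pi * (a * (1 + e) / (M : ℂ))) * I)) * Complex.I_mul_I

theorem NodeL08_bt (n : ℕ) : ((bt n : ℝ) : ℂ) = ((n : ℂ) - 1) / 2 := by
  rw [bt]
  push_cast
  ring

theorem NodeL08_pw (n M t X : ℕ) (e : ℂ) :
    pw8 n (NodeL08_Q M e) t X = ∏ i ∈ Finset.range t,
    (-4 * (sin (Real.pi * (NodeL08_z n M X e + (i + bt n) * (1 + e) / (M : ℂ))) *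
      sin (Real.pi * (NodeL08_z n M X e - (i + bt n) * (1 + e) / (M : ℂ))))) := by
  rw [pw8]
  refine Finset.prod_congr rfl fun i _ => ?_
  rw [NodeL08_br, NodeL08_br]
  have h1 : (((n : ℤ) + X + i - 1 : ℤ) : ℂ) * (1 + e) / (M : ℂ) =
      NodeL08_z n M X e + (i + bt n) * (1 + e) / (M : ℂ) := by
    rw [NodeL08_z, NodeL08_bt]; push_cast; ring
  have h2 : (((X : ℤ) - i : ℤ) : ℂ) * (1 + e) / (M : ℂ) =
      NodeL08_z n M X e - (i + bt n) * (1 + e) / (M : ℂ) := by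
    rw [NodeL08_z, NodeL08_bt]; push_cast; ring
  rw [h1, h2]
  linear_combination (4 *
    sin (Real.pi * (NodeL08_z n M X e + (i + bt n) * (1 + e) / (M : ℂ))) *
    sin (Real.pi * (NodeL08_z n M X e - (i + bt n) * (1 + e) / (M : ℂ)))) *
    Complex.I_mul_I

theorem NodeL08_pu (n M X : ℕ) (e : ℂ) :
    ∏ u ∈ Finset.range (n - 2), br (NodeL08_Q M e) ((X : ℤ) + u + 1) ^ 2 =
    ∏ u ∈ Finset.range (n - 2),
      (-4 * sin (Real.pi * (NodeL08_z n M X e + ((u : ℂ) + 1 - bt n) * (1 + e) / (M : ℂ))) ^ 2) := by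
  refine Finset.prod_congr rfl fun u _ => ?_
  rw [NodeL08_br]
  have h1 : (((X : ℤ) + u + 1 : ℤ) : ℂ) * (1 + e) / (M : ℂ) =
      NodeL08_z n M X e + ((u : ℂ) + 1 - bt n) * (1 + e) / (M : ℂ) := by
    rw [NodeL08_z, NodeL08_bt]; push_cast; ring
  rw [h1]
  linear_combination (4 *
    sin (Real.pi * (NodeL08_z n M X e + ((u : ℂ) + 1 - bt n) * (1 + e) / (M : ℂ))) ^ 2) *
    Complex.I_mul_I

theorem NodeL08_f_eq (r : ℤ) (n M : ℕ) (A : Finset (Fin m)) (t : Fin m → ℕ) (X : ℕ) (e : ℂ) :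
    NodeL08_f r n M A t X e =
      NodeL08_W r n M X e * (2 * I * NodeL08_T n M A t (e, NodeL08_z n M X e)) := by
  rw [NodeL08_f, NodeL08_zpow, NodeL08_pu, NodeL08_T, NodeL08_W, NodeL08_br,
    Finset.prod_congr rfl (fun j _ => NodeL08_pw n M (t j) X e)]
  have h1 : (((n : ℤ) + 2 * X - 1 : ℤ) : ℂ) * (1 + e) / (M : ℂ) =
      2 * NodeL08_z n M X e := by
    rw [NodeL08_z, NodeL08_bt]; push_cast; ring
  have h2 : (Real.pi : ℂ) * (2 * NodeL08_z n M X e) = 2 * Real.pi * NodeL08_z n M X e := by ring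
  have h3 : (((2 * r * ((X : ℤ) * (X + n - 1)) : ℤ)) : ℂ) = 2 * r * (X * (X + n - 1)) := by
    push_cast
    ring
  rw [h1, h2, h3]
  ring

theorem NodeL08_T_reflect (n M : ℕ) (A : Finset (Fin m)) (t : Fin m → ℕ) (e z : ℂ) :
    NodeL08_T n M A t (e, 1 + e - z) = -NodeL08_T n M A t (e, z - e) := by
  simp only [NodeL08_T]
  have h1 : sin (2 * Real.pi * (1 + e - z)) = -sin (2 * Real.pi * (z - e)) := by
    rw [show 2 * (Real.pi : ℂ) * (1 + e - z) = 2 * Real.pi - 2 * Real.pi * (z - e) by ring,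
      Complex.sin_two_pi_sub]
  have h2 : ∀ b : ℂ, sin (Real.pi * (1 + e - z + b)) = sin (Real.pi * (z - e - b)) := by
    intro b
    rw [show (Real.pi : ℂ) * (1 + e - z + b) = Real.pi - Real.pi * (z - e - b) by ring,
      Complex.sin_pi_sub]
  have h3 : ∀ b : ℂ, sin (Real.pi * (1 + e - z - b)) = sin (Real.pi * (z - e + b)) := by
    intro b
    rw [show (Real.pi : ℂ) * (1 + e - z - b) = Real.pi - Real.pi * (z - e + b) by ring,
      Complex.sin_pi_sub]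
  have h4 : (∏ u ∈ Finset.range (n - 2),
      (-4 * sin (Real.pi * (1 + e - z + ((u : ℂ) + 1 - bt n) * (1 + e) / (M : ℂ))) ^ 2)) =
      ∏ u ∈ Finset.range (n - 2),
      (-4 * sin (Real.pi * (z - e + ((u : ℂ) + 1 - bt n) * (1 + e) / (M : ℂ))) ^ 2) := by
    rw [← Finset.prod_range_reflect]
    refine Finset.prod_congr rfl fun u hu => ?_
    have hu' := Finset.mem_range.1 hu
    rw [h2]
    have h5 : ((n - 2 - 1 - u : ℕ) : ℂ) = (n : ℂ) - 3 - u := by
      rw [show n - 2 - 1 - u = n - (3 + u) by omega, Nat.cast_sub (by omega)]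
      push_cast
      ring
    have h6 : z - e - (((n - 2 - 1 - u : ℕ) : ℂ) + 1 - bt n) * (1 + e) / (M : ℂ) =
        z - e + ((u : ℂ) + 1 - bt n) * (1 + e) / (M : ℂ) := by
      rw [h5, NodeL08_bt]
      ring
    rw [h6]
  have h7 : (∏ j ∈ A, ∏ i ∈ Finset.range (t j),
      (-4 * (sin (Real.pi * (1 + e - z + (i + bt n) * (1 + e) / (M : ℂ))) *
        sin (Real.pi * (1 + e - z - (i + bt n) * (1 + e) / (M : ℂ)))))) =
      ∏ j ∈ A, ∏ i ∈ Finset.range (t j),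
      (-4 * (sin (Real.pi * (z - e + (i + bt n) * (1 + e) / (M : ℂ))) *
        sin (Real.pi * (z - e - (i + bt n) * (1 + e) / (M : ℂ))))) := by
    refine Finset.prod_congr rfl fun j _ => Finset.prod_congr rfl fun i _ => ?_
    rw [h2, h3]
    ring
  rw [h1, h4, h7]
  ring

theorem NodeL08_M (M : ℕ) (hM : 0 < M) : (M : ℂ) ≠ 0 := by
  exact_mod_cast hM.ne'

theorem NodeL08_cast (n M X : ℕ) (hX : X + n ≤ M + 1) :
    ((M + 1 - n - X : ℕ) : ℂ) = (M : ℂ) + 1 - n - X := by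
  rw [show M + 1 - n - X = M + 1 - (n + X) by omega, Nat.cast_sub (by omega)]
  push_cast
  ring

theorem NodeL08_vl (n M X : ℕ) (hM : 0 < M) :
    (M : ℂ) * ((vl n M X : ℝ) : ℂ) = X + bt n - (M : ℂ) / 2 := by
  have h := NodeL08_M M hM
  rw [vl]
  push_cast
  field_simp

theorem NodeL08_W_reflect (r : ℤ) (n M X : ℕ) (hM : 0 < M) (hX : X + n ≤ M + 1) (e : ℂ) :
    NodeL08_W r n M (M + 1 - n - X) e = NodeL08_W r n M X e *
      exp (-(4 * Real.pi * I * r * e * ((M : ℂ) * (vl n M X : ℝ)))) := by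
  rw [NodeL08_W, NodeL08_W, ← Complex.exp_add, NodeL08_cast n M X hX, NodeL08_vl n M X hM,
    NodeL08_bt, Complex.exp_eq_exp_iff_exists_int]
  refine ⟨r * ((M : ℤ) + 1 - n - 2 * X), ?_⟩
  have h := NodeL08_M M hM
  push_cast
  field_simp
  ring

theorem NodeL08_z_reflect (n M X : ℕ) (hM : 0 < M) (hX : X + n ≤ M + 1) (e : ℂ) :
    NodeL08_z n M (M + 1 - n - X) e = 1 + e - NodeL08_z n M X e := by
  have h := NodeL08_M M hM
  rw [NodeL08_z, NodeL08_z, NodeL08_cast n M X hX, NodeL08_bt]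
  field_simp
  ring

theorem NodeL08_f_reflect (r : ℤ) (n M : ℕ) (A : Finset (Fin m)) (t : Fin m → ℕ) (X : ℕ)
    (hM : 0 < M) (hX : X + n ≤ M + 1) (e : ℂ) :
    NodeL08_f r n M A t (M + 1 - n - X) e = -(NodeL08_W r n M X e *
      (2 * I * (exp (-(4 * Real.pi * I * r * e * ((M : ℂ) * (vl n M X : ℝ)))) *
        NodeL08_T n M A t (e, NodeL08_z n M X e - e)))) := by
  rw [NodeL08_f_eq, NodeL08_W_reflect r n M X hM hX, NodeL08_z_reflect n M X hM hX,
    NodeL08_T_reflect]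
  ring

theorem NodeL08_T_diff (n M : ℕ) (A : Finset (Fin m)) (t : Fin m → ℕ) :
    Differentiable ℂ (NodeL08_T n M A t) := by
  unfold NodeL08_T
  fun_prop

/-- The derivative of a pair of terms. -/
theorem NodeL08_pair (n M : ℕ) (A : Finset (Fin m)) (t : Fin m → ℕ) (z z' c : ℂ) (Z : ℂ → ℂ)
    (hZ : HasDerivAt Z z' 0) (hz : Z 0 = z) :
    HasDerivAt (fun e => NodeL08_T n M A t (e, Z e) - exp (c * e) * NodeL08_T n M A t (e, Z e - e))
      (fderiv ℂ (NodeL08_T n M A t) (0, z) (0, 1) - c * NodeL08_T n M A t (0, z)) 0 := by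
  have hT : HasFDerivAt (NodeL08_T n M A t) (fderiv ℂ (NodeL08_T n M A t) (0, z)) (0, z) :=
    (NodeL08_T_diff n M A t (0, z)).hasFDerivAt
  have h1 : HasDerivAt (fun e : ℂ => (e, Z e)) (1, z') 0 := (hasDerivAt_id 0).prodMk hZ
  have h2 : HasDerivAt (fun e : ℂ => (e, Z e - e)) (1, z' - 1) 0 :=
    (hasDerivAt_id 0).prodMk (hZ.sub (hasDerivAt_id 0))
  have g1 : HasDerivAt (fun e : ℂ => NodeL08_T n M A t (e, Z e))
      (fderiv ℂ (NodeL08_T n M A t) (0, z) (1, z')) 0 := by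
    have := HasFDerivAt.comp_hasDerivAt (x := (0 : ℂ)) (f := fun e : ℂ => (e, Z e))
      (l := NodeL08_T n M A t) (by simpa [hz] using hT) h1
    exact this
  have g2 : HasDerivAt (fun e : ℂ => NodeL08_T n M A t (e, Z e - e))
      (fderiv ℂ (NodeL08_T n M A t) (0, z) (1, z' - 1)) 0 := by
    have := HasFDerivAt.comp_hasDerivAt (x := (0 : ℂ)) (f := fun e : ℂ => (e, Z e - e))
      (l := NodeL08_T n M A t) (by simpa [hz] using hT) h2
    exact this
  have g3 : HasDerivAt (fun e : ℂ => exp (c * e)) (exp (c * 0) * (c * 1)) 0 :=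
    ((hasDerivAt_id (0 : ℂ)).const_mul c).cexp
  have h4 := g1.sub (g3.mul g2)
  refine h4.congr_deriv ?_
  have h5 : fderiv ℂ (NodeL08_T n M A t) (0, z) (1, z') =
      fderiv ℂ (NodeL08_T n M A t) (0, z) (1, z' - 1) +
        fderiv ℂ (NodeL08_T n M A t) (0, z) (0, 1) := by
    rw [← map_add]
    simp
  rw [h5]
  simp only [mul_zero, Complex.exp_zero, hz, sub_zero]
  ring

/-- The derivative in the second variable, in terms of `NT8`. -/
theorem NodeL08_NT (r : ℤ) (n M : ℕ) (hn : 2 ≤ n) (hM : 0 < M) (A : Finset (Fin m))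
    (t : Fin m → ℕ) (ht : ∀ j ∈ A, t j + n ≤ M + 1) (v : ℂ) :
    (∏ j ∈ A, (-1) ^ (t j) * (M : ℂ)) *
      NT8 (r : ℝ) n M A (fun j => M + 1 - n - t j) v =
    -2 * (-1) ^ n * (exp (2 * Real.pi * I * r * (M : ℂ) * v ^ 2) *
      NodeL08_T n M A t (0, v + 1 / 2)) := by
  have h := NodeL08_M M hM
  have h1 : sin (2 * (Real.pi : ℂ) * (v + 1 / 2)) = -sin (2 * Real.pi * v) := by
    rw [show 2 * (Real.pi : ℂ) * (v + 1 / 2) = 2 * Real.pi * v + Real.pi by ring,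
      Complex.sin_add_pi]
  have h2 : ∀ j ∈ A, ∏ i ∈ Finset.range (t j),
      (-4 * (sin (Real.pi * ((v + 1 / 2) + (i + bt n) * (1 + 0) / (M : ℂ))) *
        sin (Real.pi * ((v + 1 / 2) - (i + bt n) * (1 + 0) / (M : ℂ))))) =
      ((-1) ^ (t j) * (M : ℂ)) * qcn n M (M + 1 - n - t j) v := by
    intro j hj
    have h3 : M + 1 - n - (M + 1 - n - t j) = t j := by
      have := ht j hj
      omega
    rw [qcn, h3]
    have h4 : ∀ i ∈ Finset.range (t j),
        (-4 * (sin (Real.pi * ((v + 1 / 2) + (i + bt n) * (1 + 0) / (M : ℂ))) *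
          sin (Real.pi * ((v + 1 / 2) - (i + bt n) * (1 + 0) / (M : ℂ))))) =
        (-1) * (4 * (cos (Real.pi * (v + (i + bt n) / (M : ℂ))) *
          cos (Real.pi * (v - (i + bt n) / (M : ℂ))))) := by
      intro i _
      have e1 : (Real.pi : ℂ) * ((v + 1 / 2) + (i + bt n) * (1 + 0) / (M : ℂ)) =
          Real.pi * (v + (i + bt n) / (M : ℂ)) + Real.pi / 2 := by ring
      have e2 : (Real.pi : ℂ) * ((v + 1 / 2) - (i + bt n) * (1 + 0) / (M : ℂ)) =
          Real.pi * (v - (i + bt n) / (M : ℂ)) + Real.pi / 2 := by ring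
      rw [e1, e2, Complex.sin_add_pi_div_two, Complex.sin_add_pi_div_two]
      ring
    rw [Finset.prod_congr rfl h4, Finset.prod_mul_distrib, Finset.prod_const,
      Finset.card_range, mul_assoc ((-1 : ℂ) ^ (t j)), ← mul_assoc (M : ℂ),
      mul_one_div_cancel h, one_mul]
  have h7 : (∏ u ∈ Finset.range (n - 2),
      (-4 * sin (Real.pi * ((v + 1 / 2) + ((u : ℂ) + 1 - bt n) * (1 + 0) / (M : ℂ))) ^ 2)) =
      (-1) ^ n * Bn n M v ^ 2 := by
    have h8 : ∀ u ∈ Finset.range (n - 2),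
        (-4 * sin (Real.pi * ((v + 1 / 2) + ((u : ℂ) + 1 - bt n) * (1 + 0) / (M : ℂ))) ^ 2) =
        (-1) * (2 * cos (Real.pi * (v + ((u : ℂ) + 1 - bt n) / (M : ℂ)))) ^ 2 := by
      intro u _
      have e1 : (Real.pi : ℂ) * ((v + 1 / 2) + ((u : ℂ) + 1 - bt n) * (1 + 0) / (M : ℂ)) =
          Real.pi * (v + ((u : ℂ) + 1 - bt n) / (M : ℂ)) + Real.pi / 2 := by ring
      rw [e1, Complex.sin_add_pi_div_two]
      ring
    rw [Finset.prod_congr rfl h8, Finset.prod_mul_distrib, Finset.prod_const,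
      Finset.card_range, Bn, Finset.prod_pow]
    congr 1
    obtain ⟨k, rfl⟩ : ∃ k, n = k + 2 := ⟨n - 2, by omega⟩
    rw [Nat.add_sub_cancel, pow_add]
    norm_num
  rw [NodeL08_T, NT8]
  simp only
  have h6 : ∏ j ∈ A, ((-1) ^ (t j) * (M : ℂ)) * qcn n M (M + 1 - n - t j) v =
      (∏ j ∈ A, (-1) ^ (t j) * (M : ℂ)) * ∏ j ∈ A, qcn n M (M + 1 - n - t j) v :=
    Finset.prod_mul_distrib
  rw [h1, h7, Finset.prod_congr rfl h2, h6]
  have h9 : ((-1 : ℂ) ^ n) * (-1) ^ n = 1 := by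
    rw [← mul_pow]
    norm_num
  have h5 : exp (2 * (Real.pi : ℂ) * I * (((r : ℤ) : ℝ) : ℂ) * (M : ℂ) * v ^ 2) =
      exp (2 * Real.pi * I * r * (M : ℂ) * v ^ 2) := by
    congr 1
  rw [h5]
  linear_combination (-(exp (2 * Real.pi * I * r * (M : ℂ) * v ^ 2)) *
    (2 * sin (2 * Real.pi * v)) * Bn n M v ^ 2 * (∏ j ∈ A, (-1) ^ (t j) * (M : ℂ)) *
      ∏ j ∈ A, qcn n M (M + 1 - n - t j) v) * h9

theorem NodeL08_NT_deriv (r : ℤ) (n M : ℕ) (hn : 2 ≤ n) (hM : 0 < M) (A : Finset (Fin m))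
    (t : Fin m → ℕ) (ht : ∀ j ∈ A, t j + n ≤ M + 1) (v : ℂ) :
    (∏ j ∈ A, (-1) ^ (t j) * (M : ℂ)) *
      deriv (NT8 (r : ℝ) n M A (fun j => M + 1 - n - t j)) v =
    -2 * (-1) ^ n * (exp (2 * Real.pi * I * r * (M : ℂ) * v ^ 2) *
      (fderiv ℂ (NodeL08_T n M A t) (0, v + 1 / 2) (0, 1) +
        4 * Real.pi * I * r * ((M : ℂ) * v) * NodeL08_T n M A t (0, v + 1 / 2))) := by
  rw [← deriv_const_mul_field, show (fun x => (∏ j ∈ A, (-1) ^ (t j) * (M : ℂ)) *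
      NT8 (r : ℝ) n M A (fun j => M + 1 - n - t j) x) = fun v =>
      -2 * (-1) ^ n * (exp (2 * Real.pi * I * r * (M : ℂ) * v ^ 2) *
        NodeL08_T n M A t (0, v + 1 / 2))
      from funext fun x => NodeL08_NT r n M hn hM A t ht x]
  have hT : HasFDerivAt (NodeL08_T n M A t) (fderiv ℂ (NodeL08_T n M A t) (0, v + 1 / 2))
    (0, v + 1 / 2) := (NodeL08_T_diff n M A t _).hasFDerivAt
  have h1 : HasDerivAt (fun w : ℂ => ((0 : ℂ), w + 1 / 2)) (0, 1) v :=
    (hasDerivAt_const v (0 : ℂ)).prodMk ((hasDerivAt_id v).add_const (1 / 2))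
  have g1 : HasDerivAt (fun w : ℂ => NodeL08_T n M A t (0, w + 1 / 2))
      (fderiv ℂ (NodeL08_T n M A t) (0, v + 1 / 2) (0, 1)) v :=
    HasFDerivAt.comp_hasDerivAt (x := v) (f := fun w : ℂ => ((0 : ℂ), w + 1 / 2))
      (l := NodeL08_T n M A t) hT h1
  have g2 : HasDerivAt (fun w : ℂ => exp (2 * Real.pi * I * r * (M : ℂ) * w ^ 2))
      (exp (2 * Real.pi * I * r * (M : ℂ) * v ^ 2) *
        (2 * Real.pi * I * r * (M : ℂ) * (2 * v ^ (2 - 1)))) v := by
    have := ((hasDerivAt_pow 2 v).const_mul (2 * Real.pi * I * r * (M : ℂ))).cexp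
    simpa using this
  have g3 := ((g2.mul g1).const_mul (-2 * (-1) ^ n)).deriv
  refine g3.trans ?_
  ring

theorem NodeL08_W_zero (r : ℤ) (n M X : ℕ) (hM : 0 < M) :
    NodeL08_W r n M X 0 = cG8 r n M *
      exp (2 * Real.pi * I * r * (M : ℂ) * ((vl n M X : ℝ) : ℂ) ^ 2) := by
  have h := NodeL08_M M hM
  have hv : ((vl n M X : ℝ) : ℂ) = (X + bt n) / (M : ℂ) - 1 / 2 := by
    rw [vl]
    push_cast
    ring
  rw [NodeL08_W, cG8, hv, ← Complex.exp_add, NodeL08_bt, Complex.exp_eq_exp_iff_exists_int]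
  refine ⟨r * X, ?_⟩
  push_cast
  field_simp
  ring

theorem NodeL08_z_zero (n M X : ℕ) :
    NodeL08_z n M X 0 = ((vl n M X : ℝ) : ℂ) + 1 / 2 := by
  rw [NodeL08_z, vl]
  push_cast
  ring

/-- The numerator. -/
noncomputable def NodeL08_H (r : ℤ) (n M N : ℕ) (A : Finset (Fin m)) (t : Fin m → ℕ)
    (e : ℂ) : ℂ :=
  ∑ X ∈ Finset.range (N + 1), NodeL08_f r n M A t X e

/-- The symmetric part of the numerator. -/
noncomputable def NodeL08_G (r : ℤ) (n M : ℕ) (A : Finset (Fin m)) (t : Fin m → ℕ)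
    (e : ℂ) : ℂ :=
  ∑ X ∈ Finset.range (M + 2 - n), NodeL08_f r n M A t X e

theorem NodeL08_G_eq (r : ℤ) (n M : ℕ) (hM : 0 < M) (hnM : n ≤ M) (A : Finset (Fin m))
    (t : Fin m → ℕ) (e : ℂ) :
    NodeL08_G r n M A t e = ∑ X ∈ Finset.range (M + 2 - n), I * (NodeL08_W r n M X e *
      (NodeL08_T n M A t (e, NodeL08_z n M X e) -
        exp (-(4 * Real.pi * I * r * ((M : ℂ) * (vl n M X : ℝ))) * e) *
          NodeL08_T n M A t (e, NodeL08_z n M X e - e))) := by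
  have h1 : NodeL08_G r n M A t e =
      ∑ X ∈ Finset.range (M + 2 - n), NodeL08_f r n M A t (M + 1 - n - X) e := by
    rw [NodeL08_G, ← Finset.sum_range_reflect]
    refine Finset.sum_congr rfl fun X _ => ?_
    rw [show M + 2 - n - 1 - X = M + 1 - n - X by omega]
  have h2 : 2 * NodeL08_G r n M A t e = ∑ X ∈ Finset.range (M + 2 - n),
      (NodeL08_f r n M A t X e + NodeL08_f r n M A t (M + 1 - n - X) e) := by
    rw [Finset.sum_add_distrib, ← h1, NodeL08_G]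
    ring
  have h3 : ∀ X ∈ Finset.range (M + 2 - n),
      NodeL08_f r n M A t X e + NodeL08_f r n M A t (M + 1 - n - X) e =
      2 * (I * (NodeL08_W r n M X e *
      (NodeL08_T n M A t (e, NodeL08_z n M X e) -
        exp (-(4 * Real.pi * I * r * ((M : ℂ) * (vl n M X : ℝ))) * e) *
          NodeL08_T n M A t (e, NodeL08_z n M X e - e)))) := by
    intro X hX
    have hX' : X + n ≤ M + 1 := by
      have := Finset.mem_range.1 hX
      omega
    rw [NodeL08_f_eq, NodeL08_f_reflect r n M A t X hM hX' e]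
    have h4 : -(4 * Real.pi * I * r * ((M : ℂ) * (vl n M X : ℝ))) * e =
        -(4 * Real.pi * I * r * e * ((M : ℂ) * (vl n M X : ℝ))) := by ring
    rw [h4]
    ring
  rw [Finset.sum_congr rfl h3, ← Finset.mul_sum] at h2
  exact mul_left_cancel₀ two_ne_zero h2

theorem NodeL08_G_zero (r : ℤ) (n M : ℕ) (hM : 0 < M) (hnM : n ≤ M) (A : Finset (Fin m))
    (t : Fin m → ℕ) : NodeL08_G r n M A t 0 = 0 := by
  rw [NodeL08_G_eq r n M hM hnM]
  refine Finset.sum_eq_zero fun X _ => ?_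
  simp

theorem NodeL08_G_deriv (r : ℤ) (n M : ℕ) (hn : 2 ≤ n) (hM : 0 < M) (hnM : n ≤ M)
    (A : Finset (Fin m)) (t : Fin m → ℕ) (ht : ∀ j ∈ A, t j + n ≤ M + 1) :
    HasDerivAt (NodeL08_G r n M A t) (-(I / 2) * (-1) ^ n * cG8 r n M *
      (∏ j ∈ A, (-1) ^ (t j) * (M : ℂ)) *
        DG8 (r : ℝ) n M A (fun j => M + 1 - n - t j)) 0 := by
  have h9 : ((-1 : ℂ) ^ n) * (-1) ^ n = 1 := by
    rw [← mul_pow]
    norm_num
  have h1 : ∀ X ∈ Finset.range (M + 2 - n), HasDerivAt (fun e => I * (NodeL08_W r n M X e *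
      (NodeL08_T n M A t (e, NodeL08_z n M X e) -
        exp (-(4 * Real.pi * I * r * ((M : ℂ) * (vl n M X : ℝ))) * e) *
          NodeL08_T n M A t (e, NodeL08_z n M X e - e))))
      (-(I / 2) * (-1) ^ n * cG8 r n M * (∏ j ∈ A, (-1) ^ (t j) * (M : ℂ)) *
        deriv (NT8 (r : ℝ) n M A (fun j => M + 1 - n - t j)) ((vl n M X : ℝ) : ℂ)) 0 := by
    intro X _
    have hW : HasDerivAt (NodeL08_W r n M X) (deriv (NodeL08_W r n M X) 0) 0 := by
      have : Differentiable ℂ (NodeL08_W r n M X) := by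
        unfold NodeL08_W
        fun_prop
      exact (this 0).hasDerivAt
    have hZ : HasDerivAt (NodeL08_z n M X) (deriv (NodeL08_z n M X) 0) 0 := by
      have : Differentiable ℂ (NodeL08_z n M X) := by
        unfold NodeL08_z
        fun_prop
      exact (this 0).hasDerivAt
    have hD := NodeL08_pair n M A t (((vl n M X : ℝ) : ℂ) + 1 / 2) _
      (-(4 * Real.pi * I * r * ((M : ℂ) * (vl n M X : ℝ)))) _ hZ
      (NodeL08_z_zero n M X)
    have h2 := (hW.mul hD).const_mul I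
    refine h2.congr_deriv ?_
    have h3 := NodeL08_NT_deriv r n M hn hM A t ht ((vl n M X : ℝ) : ℂ)
    rw [NodeL08_W_zero r n M X hM]
    simp only [mul_zero, Complex.exp_zero, sub_zero, one_mul, sub_self, zero_add]
    linear_combination ((I / 2) * (-1) ^ n * cG8 r n M) * h3 +
      (-(I * cG8 r n M * (exp (2 * Real.pi * I * r * (M : ℂ) * ((vl n M X : ℝ) : ℂ) ^ 2) *
      (fderiv ℂ (NodeL08_T n M A t) (0, ((vl n M X : ℝ) : ℂ) + 1 / 2) (0, 1) +
        4 * Real.pi * I * r * ((M : ℂ) * ((vl n M X : ℝ) : ℂ)) *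
          NodeL08_T n M A t (0, ((vl n M X : ℝ) : ℂ) + 1 / 2))))) * h9
  have h4 := HasDerivAt.fun_sum h1
  have h5 : NodeL08_G r n M A t = fun e => ∑ X ∈ Finset.range (M + 2 - n),
      I * (NodeL08_W r n M X e *
      (NodeL08_T n M A t (e, NodeL08_z n M X e) -
        exp (-(4 * Real.pi * I * r * ((M : ℂ) * (vl n M X : ℝ))) * e) *
          NodeL08_T n M A t (e, NodeL08_z n M X e - e))) :=
    funext fun e => NodeL08_G_eq r n M hM hnM A t e
  rw [h5, DG8, Finset.mul_sum]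
  exact h4

theorem NodeL08_B (M : ℕ) (hM : 0 < M) (e : ℂ) :
    br (NodeL08_Q M e) (M : ℤ) = -(2 * I * sin (Real.pi * e)) := by
  have h := NodeL08_M M hM
  rw [NodeL08_br]
  have h1 : (Real.pi : ℂ) * (((M : ℤ) : ℂ) * (1 + e) / (M : ℂ)) =
      Real.pi * e + Real.pi := by
    push_cast
    field_simp
    ring
  rw [h1, Complex.sin_add_pi]
  ring

/-- The terms outside of the symmetric range have a double zero. -/
theorem NodeL08_outer (r : ℤ) (n M : ℕ) (hM : 0 < M) (A : Finset (Fin m)) (t : Fin m → ℕ)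
    (X : ℕ) (h1 : M + 2 ≤ X + n) (h2 : X < M) :
    NodeL08_f r n M A t X 0 = 0 ∧ HasDerivAt (NodeL08_f r n M A t X) 0 0 := by
  have hu : M - X - 1 ∈ Finset.range (n - 2) := by
    rw [Finset.mem_range]
    omega
  have hc : ((X : ℤ) + ((M - X - 1 : ℕ) : ℤ) + 1) = (M : ℤ) := by omega
  set R : ℂ → ℂ := fun e => NodeL08_Q M e ^ (2 * r * ((X : ℤ) * (X + n - 1))) *
    br (NodeL08_Q M e) ((n : ℤ) + 2 * X - 1) *
    (∏ u ∈ (Finset.range (n - 2)).erase (M - X - 1),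
      br (NodeL08_Q M e) ((X : ℤ) + u + 1) ^ 2) *
    ∏ j ∈ A, pw8 n (NodeL08_Q M e) (t j) X with hR
  have hfR : NodeL08_f r n M A t X = fun e => R e * (2 * I * sin (Real.pi * e)) ^ 2 := by
    funext e
    rw [NodeL08_f, ← Finset.mul_prod_erase _ _ hu, hc, NodeL08_B M hM, hR]
    ring
  have hbr : ∀ a : ℤ, Differentiable ℂ (fun e => br (NodeL08_Q M e) a) := by
    intro a
    have : (fun e => br (NodeL08_Q M e) a) =
        fun e => 2 * I * sin (Real.pi * (a * (1 + e) / (M : ℂ))) :=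
      funext fun e => NodeL08_br M e a
    rw [this]
    fun_prop
  have hzp : ∀ a : ℤ, Differentiable ℂ (fun e => NodeL08_Q M e ^ a) := by
    intro a
    have : (fun e => NodeL08_Q M e ^ a) =
        fun e => exp (a * (Real.pi * I * (1 + e) / (M : ℂ))) :=
      funext fun e => NodeL08_zpow M e a
    rw [this]
    fun_prop
  have hpw : ∀ k : ℕ, Differentiable ℂ (fun e => pw8 n (NodeL08_Q M e) k X) := by
    intro k
    unfold pw8
    exact Differentiable.fun_finsetProd fun i _ => (hbr _).mul (hbr _)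
  have hRd : Differentiable ℂ R := by
    rw [hR]
    refine ((((hzp _).mul (hbr _)).mul ?_).mul ?_)
    · exact Differentiable.fun_finsetProd fun u _ => (hbr _).pow 2
    · exact Differentiable.fun_finsetProd fun j _ => hpw _
  constructor
  · rw [hfR]
    simp
  · rw [hfR]
    have g1 : HasDerivAt (fun e : ℂ => (2 * I * sin (Real.pi * e)) ^ 2) 0 0 := by
      have := ((((hasDerivAt_id (0 : ℂ)).const_mul (Real.pi : ℂ)).csin.const_mul (2 * I))).pow 2
      refine this.congr_deriv ?_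
      simp
    have g2 := (hRd 0).hasDerivAt.mul g1
    refine g2.congr_deriv ?_
    simp

theorem NodeL08_H_split (r : ℤ) (n g N : ℕ) (hg : 1 ≤ g) (hgn : g < n)
    (A : Finset (Fin m)) (t : Fin m → ℕ) (e : ℂ) :
    NodeL08_H r n (N + g) N A t e = NodeL08_G r n (N + g) A t e +
      ∑ X ∈ Finset.range (N + 1) \ Finset.range (N + g + 2 - n),
        NodeL08_f r n (N + g) A t X e := by
  have h := Finset.sum_sdiff (f := fun X => NodeL08_f r n (N + g) A t X e)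
    (Finset.range_mono (by omega : N + g + 2 - n ≤ N + 1))
  rw [NodeL08_H, NodeL08_G, ← h]
  ring

theorem NodeL08_H_zero (r : ℤ) (n g N : ℕ) (hn : 2 ≤ n) (hg : 1 ≤ g) (hgn : g < n)
    (hN : n ≤ N) (A : Finset (Fin m)) (t : Fin m → ℕ) :
    NodeL08_H r n (N + g) N A t 0 = 0 := by
  rw [NodeL08_H_split r n g N hg hgn, NodeL08_G_zero r n (N + g) (by omega) (by omega), zero_add]
  refine Finset.sum_eq_zero fun X hX => ?_
  rw [Finset.mem_sdiff, Finset.mem_range, Finset.mem_range] at hX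
  exact (NodeL08_outer r n (N + g) (by omega) A t X (by omega) (by omega)).1

theorem NodeL08_H_deriv (r : ℤ) (n g N : ℕ) (hn : 2 ≤ n) (hg : 1 ≤ g) (hgn : g < n)
    (hN : n ≤ N) (A : Finset (Fin m)) (t : Fin m → ℕ) (ht : ∀ j ∈ A, t j + n ≤ N + g + 1) :
    HasDerivAt (NodeL08_H r n (N + g) N A t) (-(I / 2) * (-1) ^ n * cG8 r n (N + g) *
      (∏ j ∈ A, (-1) ^ (t j) * ((N + g : ℕ) : ℂ)) *
        DG8 (r : ℝ) n (N + g) A (fun j => N + g + 1 - n - t j)) 0 := by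
  have h1 : NodeL08_H r n (N + g) N A t = fun e => NodeL08_G r n (N + g) A t e +
      ∑ X ∈ Finset.range (N + 1) \ Finset.range (N + g + 2 - n),
        NodeL08_f r n (N + g) A t X e :=
    funext fun e => NodeL08_H_split r n g N hg hgn A t e
  rw [h1]
  have h2 := NodeL08_G_deriv r n (N + g) hn (by omega) (by omega) A t ht
  have h3 : ∀ X ∈ Finset.range (N + 1) \ Finset.range (N + g + 2 - n),
      HasDerivAt (NodeL08_f r n (N + g) A t X) 0 0 := by
    intro X hX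
    rw [Finset.mem_sdiff, Finset.mem_range, Finset.mem_range] at hX
    exact (NodeL08_outer r n (N + g) (by omega) A t X (by omega) (by omega)).2
  have h4 := h2.add (HasDerivAt.fun_sum h3)
  refine h4.congr_deriv ?_
  rw [Finset.sum_const_zero, add_zero]

/-- Small brackets do not vanish near the root of unity. -/
theorem NodeL08_br_ne (M : ℕ) (hM : 0 < M) (i : ℕ) (h1 : 1 ≤ i) (h2 : i < 2 * M) :
    ∀ᶠ e in 𝓝[≠] (0 : ℂ), br (NodeL08_Q M e) i ≠ 0 := by
  have hpi : (Real.pi : ℂ) ≠ 0 := by exact_mod_cast Real.pi_ne_zero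
  have h := NodeL08_M M hM
  by_cases hi : i = M
  · subst hi
    have h3 : HasDerivAt (fun e : ℂ => sin (Real.pi * e)) (Real.pi : ℂ) 0 := by
      have := ((hasDerivAt_id (0 : ℂ)).const_mul (Real.pi : ℂ)).csin
      refine this.congr_deriv ?_
      simp
    have h4 := h3.eventually_ne (c := 0) hpi
    filter_upwards [h4] with e he
    rw [NodeL08_B i hM]
    simpa [Complex.I_ne_zero] using he
  · have h5 : sin (Real.pi * ((i : ℤ) * (1 + (0 : ℂ)) / (M : ℂ))) ≠ 0 := by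
      rw [Ne, Complex.sin_eq_zero_iff]
      rintro ⟨k, hk⟩
      have h6 : (i : ℂ) = k * M := by
        have h7 : (Real.pi : ℂ) * ((i : ℤ) * (1 + (0 : ℂ)) / (M : ℂ)) = Real.pi * (k : ℂ) := by
          rw [hk]
          ring
        have h8 := mul_left_cancel₀ hpi h7
        field_simp at h8
        push_cast at h8
        linear_combination h8
      have h9 : (i : ℤ) = k * M := by exact_mod_cast h6
      have h10 : 0 < k := by
        by_contra hk0
        push Not at hk0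
        have : k * (M : ℤ) ≤ 0 := mul_nonpos_of_nonpos_of_nonneg hk0 (by positivity)
        omega
      have h11 : k < 2 := by
        by_contra hk0
        push Not at hk0
        have : 2 * (M : ℤ) ≤ k * M := mul_le_mul_of_nonneg_right hk0 (by positivity)
        omega
      have h12 : k = 1 := by omega
      rw [h12] at h9
      omega
    have h6 : ContinuousAt (fun e : ℂ => sin (Real.pi * ((i : ℤ) * (1 + e) / (M : ℂ)))) 0 := by
      fun_prop
    have h7 := (h6.eventually_ne h5).filter_mono (nhdsWithin_le_nhds (s := {0}ᶜ))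
    filter_upwards [h7] with e he
    rw [NodeL08_br]
    simpa [Complex.I_ne_zero] using he

/-- The inverse parametrization. -/
noncomputable def NodeL08_E (M : ℕ) (q : ℂ) : ℂ :=
  Complex.log (q / exp (Real.pi * I / (M : ℂ))) * ((M : ℂ) / (Real.pi * I))

theorem NodeL08_QE (M : ℕ) (hM : 0 < M) (q : ℂ) (hq : q ≠ 0) :
    NodeL08_Q M (NodeL08_E M q) = q := by
  have h := NodeL08_M M hM
  have hI := Complex.I_ne_zero
  have hpi : (Real.pi : ℂ) ≠ 0 := by exact_mod_cast Real.pi_ne_zero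
  have hξ0 : exp (Real.pi * I / (M : ℂ)) ≠ 0 := Complex.exp_ne_zero _
  rw [NodeL08_Q, NodeL08_E]
  have h1 : Real.pi * I * (1 + Complex.log (q / exp (Real.pi * I / (M : ℂ))) *
      ((M : ℂ) / (Real.pi * I))) / (M : ℂ) =
      Real.pi * I / (M : ℂ) + Complex.log (q / exp (Real.pi * I / (M : ℂ))) := by
    field_simp
  rw [h1, Complex.exp_add, Complex.exp_log (div_ne_zero hq hξ0)]
  field_simp

theorem NodeL08_Et (M : ℕ) (hM : 0 < M) :
    Tendsto (NodeL08_E M) (𝓝[≠] exp (Real.pi * I / (M : ℂ))) (𝓝[≠] 0) := by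
  set ξ : ℂ := exp (Real.pi * I / (M : ℂ)) with hξ
  have hξ0 : ξ ≠ 0 := Complex.exp_ne_zero _
  have hQ0 : NodeL08_Q M 0 = ξ := by
    rw [NodeL08_Q, hξ]
    congr 1
    ring
  have hEt : Tendsto (NodeL08_E M) (𝓝 ξ) (𝓝 0) := by
    have h1 : ContinuousAt (NodeL08_E M) ξ := by
      unfold NodeL08_E
      refine ContinuousAt.mul (ContinuousAt.clog (by fun_prop) ?_) continuousAt_const
      rw [← hξ, div_self hξ0]
      exact Complex.one_mem_slitPlane
    have h2 : NodeL08_E M ξ = 0 := by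
      rw [NodeL08_E, ← hξ, div_self hξ0, Complex.log_one, zero_mul]
    have := h1.tendsto
    rwa [h2] at this
  have hq0 : ∀ᶠ q in 𝓝[≠] ξ, q ≠ 0 :=
    (eventually_ne_nhds hξ0).filter_mono nhdsWithin_le_nhds
  rw [tendsto_nhdsWithin_iff]
  refine ⟨hEt.mono_left nhdsWithin_le_nhds, ?_⟩
  filter_upwards [self_mem_nhdsWithin, hq0] with q hq hq'
  intro h
  apply hq
  have h1 := NodeL08_QE M hM q hq'
  rw [Set.mem_singleton_iff] at h
  rw [h, hQ0] at h1
  exact h1.symm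

theorem NodeL08_br_ne' (M : ℕ) (hM : 0 < M) (i : ℕ) (h1 : 1 ≤ i) (h2 : i < 2 * M) :
    ∀ᶠ q in 𝓝[≠] exp (Real.pi * I / (M : ℂ)), br q i ≠ 0 := by
  have hq0 : ∀ᶠ q in 𝓝[≠] exp (Real.pi * I / (M : ℂ)), q ≠ 0 :=
    (eventually_ne_nhds (Complex.exp_ne_zero _)).filter_mono nhdsWithin_le_nhds
  filter_upwards [(NodeL08_Et M hM).eventually (NodeL08_br_ne M hM i h1 h2), hq0] with q hq hq'
  rwa [NodeL08_QE M hM q hq'] at hq

theorem NodeL08_br_at (M a : ℕ) :
    br (exp (Real.pi * I / (M : ℂ))) (a : ℤ) = I * (sg M a : ℂ) := by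
  have h1 := NodeL08_br M 0 (a : ℤ)
  have h2 : NodeL08_Q M 0 = exp (Real.pi * I / (M : ℂ)) := by
    rw [NodeL08_Q]
    congr 1
    ring
  rw [h2] at h1
  rw [h1, sg]
  push_cast
  have h3 : (Real.pi : ℂ) * ((a : ℂ) * (1 + 0) / (M : ℂ)) = Real.pi * a / M := by ring
  rw [h3]
  ring

theorem NodeL08_br_cont (ξ : ℂ) (hξ : ξ ≠ 0) (a : ℤ) :
    Tendsto (fun q => br q a) (𝓝[≠] ξ) (𝓝 (br ξ a)) := by
  have h : ContinuousAt (fun q => br q a) ξ := by
    unfold br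
    exact (continuousAt_zpow₀ ξ a (Or.inl hξ)).sub (continuousAt_zpow₀ ξ (-a) (Or.inl hξ))
  exact h.tendsto.mono_left nhdsWithin_le_nhds

theorem NodeL08_NF (r : ℤ) (n N M : ℕ) (hn : 2 ≤ n) (hM : 0 < M) (A : Finset (Fin m))
    (t : Fin m → ℕ) (q : ℂ) (hq0 : q ≠ 0) (hq : ∀ i ∈ Finset.Icc 1 (N + n), br q ((i : ℕ) : ℤ) ≠ 0)
    (hqM : br q (M : ℤ) ≠ 0) :
    NF8 r n N q A t = NodeL08_H r n M N A t (NodeL08_E M q) / br q (M : ℤ) *
      (br q ((n : ℤ) - 1) * (∏ u ∈ Finset.range (n - 2), br q ((u : ℤ) + 1) ^ 2) *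
        (dimS n N q / br q (M : ℤ)))⁻¹ := by
  have h1 : ∀ X ∈ Finset.range (N + 1), q ^ (2 * r * ((X : ℤ) * (X + n - 1))) *
      (dimA n q X / dimS n N q) * ∏ j ∈ A, pw8 n q (t j) X =
      NodeL08_f r n M A t X (NodeL08_E M q) *
      (br q ((n : ℤ) - 1) * (∏ u ∈ Finset.range (n - 2), br q ((u : ℤ) + 1) ^ 2) *
        dimS n N q)⁻¹ := by
    intro X hX
    have hX' := Finset.mem_range.1 hX
    rw [dimA_eq n hn q X (fun i hi1 hi2 => hq i (Finset.mem_Icc.2 ⟨hi1, by omega⟩)),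
      NodeL08_f, NodeL08_QE M hM q hq0]
    have h2 : ∏ u ∈ Finset.range (n - 2), (br q ((X : ℤ) + u + 1) / br q ((u : ℤ) + 1)) ^ 2 =
        (∏ u ∈ Finset.range (n - 2), br q ((X : ℤ) + u + 1) ^ 2) /
          ∏ u ∈ Finset.range (n - 2), br q ((u : ℤ) + 1) ^ 2 := by
      rw [← Finset.prod_div_distrib]
      exact Finset.prod_congr rfl fun u _ => div_pow _ _ _
    rw [h2]
    simp only [div_eq_mul_inv, mul_inv]
    ring
  rw [NF8, Finset.sum_congr rfl h1, ← Finset.sum_mul, NodeL08_H]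
  simp only [div_eq_mul_inv, mul_inv, inv_inv]
  field_simp

theorem NodeL08_const (n g N : ℕ) (hn : 2 ≤ n) (hg : 1 ≤ g) (hgn : g < n) (hN : n ≤ N)
    (c P D : ℂ) :
    (-(I / 2) * (-1) ^ n * c * P * D) / (-(2 * I * Real.pi)) *
      ((I * (sg (N + g) (n - 1) : ℂ)) *
        (∏ u ∈ Finset.range (n - 2), (I * (sg (N + g) (u + 1) : ℂ)) ^ 2) *
        (I * (-1) ^ (n + g) * (S (N + g) (n - g - 1) : ℂ) * (S (N + g) (g - 1) : ℂ) /
        (S (N + g) (n - 1) : ℂ)))⁻¹ =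
    -(-1) ^ (n + g) * c / (4 * Real.pi * (Dg n g (N + g) : ℂ)) * P * D := by
  have hpi : (Real.pi : ℂ) ≠ 0 := by exact_mod_cast Real.pi_ne_zero
  have hI := Complex.I_ne_zero
  have h1 : (∏ u ∈ Finset.range (n - 2), (I * (sg (N + g) (u + 1) : ℂ)) ^ 2) =
      (-1) ^ n * (S (N + g) (n - 2) : ℂ) ^ 2 := by
    have h2 : ∀ u ∈ Finset.range (n - 2), (I * (sg (N + g) (u + 1) : ℂ)) ^ 2 =
        (-1) * ((sg (N + g) (u + 1) : ℂ)) ^ 2 := by
      intro u _
      rw [mul_pow, Complex.I_sq]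
    rw [Finset.prod_congr rfl h2, Finset.prod_mul_distrib, Finset.prod_const, Finset.card_range,
      Finset.prod_pow, S, Finset.prod_Ico_eq_prod_range]
    have h3 : (-1 : ℂ) ^ (n - 2) = (-1) ^ n := by
      obtain ⟨k, rfl⟩ : ∃ k, n = k + 2 := ⟨n - 2, by omega⟩
      rw [Nat.add_sub_cancel, pow_add]
      norm_num
    rw [h3, show n - 2 + 1 - 1 = n - 2 by omega]
    push_cast
    congr 2
    exact Finset.prod_congr rfl fun u _ => by rw [add_comm 1 u]
  have h4 : S (N + g) (n - 1) = S (N + g) (n - 2) * sg (N + g) (n - 1) := by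
    rw [S, S, show n - 1 + 1 = (n - 2 + 1) + 1 by omega, Finset.prod_Ico_succ_top (by omega),
      show n - 2 + 1 = n - 1 by omega]
  have e1 : (S (N + g) (n - 2) : ℂ) ≠ 0 := by
    exact_mod_cast (S_pos (by omega : n - 2 < N + g)).ne'
  have e2 : (S (N + g) (n - g - 1) : ℂ) ≠ 0 := by
    exact_mod_cast (S_pos (by omega : n - g - 1 < N + g)).ne'
  have e3 : (S (N + g) (g - 1) : ℂ) ≠ 0 := by
    exact_mod_cast (S_pos (by omega : g - 1 < N + g)).ne'
  have e4 : (sg (N + g) (n - 1) : ℂ) ≠ 0 := by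
    exact_mod_cast (sg_pos (by omega : 1 ≤ n - 1) (by omega : n - 1 < N + g)).ne'
  rw [h1, h4, Dg]
  push_cast
  set a : ℂ := (S (N + g) (n - 2) : ℂ)
  set b : ℂ := (S (N + g) (n - g - 1) : ℂ)
  set d : ℂ := (S (N + g) (g - 1) : ℂ)
  set s : ℂ := (sg (N + g) (n - 1) : ℂ)
  have hs1 : ((-1 : ℂ) ^ n) ≠ 0 := pow_ne_zero _ (by norm_num)
  have hs2 : ((-1 : ℂ) ^ g) ≠ 0 := pow_ne_zero _ (by norm_num)
  have hg2 : ((-1 : ℂ) ^ g) * (-1) ^ g = 1 := by
    rw [← mul_pow]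
    norm_num
  have hn2 : ((-1 : ℂ) ^ n) * (-1) ^ n = 1 := by
    rw [← mul_pow]
    norm_num
  have h5 : I * s * ((-1) ^ n * a ^ 2) * (I * (-1) ^ (n + g) * b * d / (a * s)) =
      -((-1) ^ g) * a * b * d := by
    have h7 : I * s * ((-1) ^ n * a ^ 2) * (I * (-1) ^ (n + g) * b * d / (a * s)) =
        (I * I) * ((-1) ^ n * (-1) ^ n) * (-1) ^ g * a * b * d := by
      rw [pow_add, mul_div_assoc', div_eq_iff (mul_ne_zero e1 e4)]
      ring
    rw [h7, Complex.I_mul_I, hn2]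
    ring
  have h40 : (4 : ℂ) ≠ 0 := by norm_num
  rw [h5, pow_add]
  have h6 : -(I / 2) * (-1) ^ n * c * P * D / (-(2 * I * Real.pi)) =
      (-1) ^ n * c * P * D / (4 * Real.pi) := by
    rw [div_eq_div_iff (neg_ne_zero.2 (mul_ne_zero (mul_ne_zero two_ne_zero hI) hpi))
      (mul_ne_zero h40 hpi)]
    ring
  rw [h6, div_mul_eq_mul_div, ← div_eq_mul_inv, div_div, div_mul_eq_mul_div, div_mul_eq_mul_div,
    div_eq_div_iff (by
      refine mul_ne_zero ?_ (mul_ne_zero h40 hpi)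
      exact mul_ne_zero (mul_ne_zero (mul_ne_zero (neg_ne_zero.2 hs2) e1) e2) e3)
      (mul_ne_zero (mul_ne_zero h40 hpi) (mul_ne_zero (mul_ne_zero e3 e2) e1))]
  linear_combination (-(-1) ^ n * c * P * D * (4 * Real.pi) * (a * b * d)) * hg2

theorem node_lim8 (r : ℤ) (n g N : ℕ) (hn : 2 ≤ n) (hg : 1 ≤ g) (hgn : g < n) (hN : n ≤ N)
    (A : Finset (Fin m)) (t : Fin m → ℕ) (ht : ∀ j ∈ A, t j + n ≤ N + g + 1) :
    Tendsto (fun q => NF8 r n N q A t) (𝓝[≠] exp (Real.pi * I / ((N + g : ℕ) : ℂ)))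
      (𝓝 (-(-1) ^ (n + g) * cG8 r n (N + g) / (4 * Real.pi * (Dg n g (N + g) : ℂ)) *
        (∏ j ∈ A, (-1) ^ (t j) * ((N + g : ℕ) : ℂ)) *
        DG8 (r : ℝ) n (N + g) A (fun j => N + g + 1 - n - t j))) := by
  have hM0 : 0 < N + g := by omega
  have hM := NodeL08_M (N + g) hM0
  have hpi : (Real.pi : ℂ) ≠ 0 := by exact_mod_cast Real.pi_ne_zero
  set ξ : ℂ := exp (Real.pi * I / ((N + g : ℕ) : ℂ)) with hξ
  have hξ0 : ξ ≠ 0 := Complex.exp_ne_zero _
  have hq0 : ∀ᶠ q in 𝓝[≠] ξ, q ≠ 0 :=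
    (eventually_ne_nhds hξ0).filter_mono nhdsWithin_le_nhds
  -- the numerator
  have h1 := hasDerivAt_iff_tendsto_slope.1 (NodeL08_H_deriv r n g N hn hg hgn hN A t ht)
  have h2 : HasDerivAt (fun e : ℂ => -(2 * I * sin (Real.pi * e))) (-(2 * I * Real.pi)) 0 := by
    have := (((hasDerivAt_id (0 : ℂ)).const_mul (Real.pi : ℂ)).csin.const_mul (2 * I)).neg
    refine this.congr_deriv ?_
    simp
  have h3 := hasDerivAt_iff_tendsto_slope.1 h2
  have h4 := h1.div h3 (by simp [hpi, Complex.I_ne_zero])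
  have h5 := h4.comp (NodeL08_Et (N + g) hM0)
  have h6 : Tendsto (fun q => NodeL08_H r n (N + g) N A t (NodeL08_E (N + g) q) /
      br q ((N + g : ℕ) : ℤ)) (𝓝[≠] ξ)
      (𝓝 ((-(I / 2) * (-1) ^ n * cG8 r n (N + g) *
      (∏ j ∈ A, (-1) ^ (t j) * ((N + g : ℕ) : ℂ)) *
        DG8 (r : ℝ) n (N + g) A (fun j => N + g + 1 - n - t j)) / (-(2 * I * Real.pi)))) := by
    refine h5.congr' ?_
    have h7 : ∀ᶠ q in 𝓝[≠] ξ, NodeL08_E (N + g) q ∈ ({0}ᶜ : Set ℂ) :=
      (NodeL08_Et (N + g) hM0).eventually self_mem_nhdsWithin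
    filter_upwards [hq0, h7] with q hq hE
    have he' : NodeL08_E (N + g) q ≠ 0 := hE
    have hB := NodeL08_B (N + g) hM0 (NodeL08_E (N + g) q)
    rw [NodeL08_QE (N + g) hM0 q hq] at hB
    simp only [Function.comp, Pi.div_apply, slope, vsub_eq_sub, smul_eq_mul, sub_zero,
      NodeL08_H_zero r n g N hn hg hgn hN, mul_zero, Complex.sin_zero, neg_zero]
    rw [mul_div_mul_left _ _ (inv_ne_zero he'), hB]
  -- the prefactor
  have g1 : Tendsto (fun q => br q ((n : ℤ) - 1)) (𝓝[≠] ξ)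
      (𝓝 (I * (sg (N + g) (n - 1) : ℂ))) := by
    have h8 : br ξ ((n : ℤ) - 1) = I * (sg (N + g) (n - 1) : ℂ) := by
      rw [show (n : ℤ) - 1 = ((n - 1 : ℕ) : ℤ) by omega, hξ, NodeL08_br_at]
    have := NodeL08_br_cont ξ hξ0 ((n : ℤ) - 1)
    rwa [h8] at this
  have g2 : Tendsto (fun q => ∏ u ∈ Finset.range (n - 2), br q ((u : ℤ) + 1) ^ 2) (𝓝[≠] ξ)
      (𝓝 (∏ u ∈ Finset.range (n - 2), (I * (sg (N + g) (u + 1) : ℂ)) ^ 2)) := by
    refine tendsto_finsetProd _ fun u _ => ?_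
    have := (NodeL08_br_cont ξ hξ0 ((u : ℤ) + 1)).pow 2
    have h8 : br ξ ((u : ℤ) + 1) = I * (sg (N + g) (u + 1) : ℂ) := by
      have := NodeL08_br_at (N + g) (u + 1)
      rw [hξ, ← this]
      push_cast
      rfl
    rwa [h8] at this
  have g3 := dimS_lim n g N hn hg hgn hN
  have g3' : Tendsto (fun q => dimS n N q / br q ((N + g : ℕ) : ℤ)) (𝓝[≠] ξ)
      (𝓝 (I * (-1) ^ (n + g) * (S (N + g) (n - g - 1) : ℂ) * (S (N + g) (g - 1) : ℂ) /
        (S (N + g) (n - 1) : ℂ))) := by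
    have h8 : ((N + g : ℕ) : ℤ) = (N : ℤ) + g := by push_cast; rfl
    rw [h8]
    exact g3
  have e1 : (S (N + g) (n - 1) : ℂ) ≠ 0 := by
    exact_mod_cast (S_pos (by omega : n - 1 < N + g)).ne'
  have e2 : (S (N + g) (n - g - 1) : ℂ) ≠ 0 := by
    exact_mod_cast (S_pos (by omega : n - g - 1 < N + g)).ne'
  have e3 : (S (N + g) (g - 1) : ℂ) ≠ 0 := by
    exact_mod_cast (S_pos (by omega : g - 1 < N + g)).ne'
  have e4 : (sg (N + g) (n - 1) : ℂ) ≠ 0 := by
    exact_mod_cast (sg_pos (by omega : 1 ≤ n - 1) (by omega : n - 1 < N + g)).ne'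
  have e5 : (∏ u ∈ Finset.range (n - 2), (I * (sg (N + g) (u + 1) : ℂ)) ^ 2) ≠ 0 := by
    refine Finset.prod_ne_zero_iff.2 fun u hu => ?_
    have hu' := Finset.mem_range.1 hu
    refine pow_ne_zero _ (mul_ne_zero Complex.I_ne_zero ?_)
    exact_mod_cast (sg_pos (by omega : 1 ≤ u + 1) (by omega : u + 1 < N + g)).ne'
  have g4 := ((g1.mul g2).mul g3').inv₀ (by
    refine mul_ne_zero (mul_ne_zero (mul_ne_zero Complex.I_ne_zero e4) e5) ?_
    refine div_ne_zero ?_ e1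
    exact mul_ne_zero (mul_ne_zero (mul_ne_zero Complex.I_ne_zero
      (pow_ne_zero _ (by norm_num))) e2) e3)
  have g5 := h6.mul g4
  rw [NodeL08_const n g N hn hg hgn hN] at g5
  refine g5.congr' ?_
  have hne : ∀ᶠ q in 𝓝[≠] ξ, ∀ i ∈ Finset.Icc 1 (N + n), br q ((i : ℕ) : ℤ) ≠ 0 := by
    rw [Filter.eventually_all_finset]
    intro i hi
    rw [Finset.mem_Icc] at hi
    exact NodeL08_br_ne' (N + g) hM0 i hi.1 (by omega)
  filter_upwards [hq0, hne, NodeL08_br_ne' (N + g) hM0 (N + g) (by omega) (by omega)]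
    with q hq hq1 hq2
  exact (NodeL08_NF r n N (N + g) hn hM0 A t q hq hq1 hq2).symm

end Pool.Agent.H63.VC8

end

section

/-! # The limit of the state sum -/

namespace Pool.Agent.H63.VC8

open Pool.Agent.H63.VC
open Pool.Agent.H63.VC3 Pool.Agent.H63.VC4 Pool.Agent.H63.VC7 Complex Filter Topology

variable {m p : ℕ}

theorem RootLim8_pow (N g : ℕ) (hM : 1 ≤ N + g) :
    exp (Real.pi * I / ((N + g : ℕ) : ℂ)) ^ ((N : ℤ) + g) = -1 := by
  have hM' : ((N + g : ℕ) : ℂ) ≠ 0 := by exact_mod_cast (by omega : N + g ≠ 0)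
  rw [← exp_int_mul]
  have e : (((N : ℤ) + g : ℤ) : ℂ) * (Real.pi * I / ((N + g : ℕ) : ℂ)) = Real.pi * I := by
    rw [← mul_div_assoc, div_eq_iff hM']
    push_cast
    ring
  rw [e, exp_pi_mul_I]

theorem RootLim8_br0 (N g : ℕ) (hM : 1 ≤ N + g) :
    br (exp (Real.pi * I / ((N + g : ℕ) : ℂ))) ((N : ℤ) + g) = 0 := by
  unfold br
  rw [zpow_neg, RootLim8_pow N g hM]
  norm_num

theorem RootLim8_tend (N g : ℕ) (hM : 1 ≤ N + g) :
    Tendsto (fun q => br q ((N : ℤ) + g)) (𝓝[≠] exp (Real.pi * I / ((N + g : ℕ) : ℂ)))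
      (𝓝 0) := by
  have h := (RootLim_br_cont (exp (Real.pi * I / ((N + g : ℕ) : ℂ))) (exp_ne_zero _)
    ((N : ℤ) + g)).tendsto
  rw [RootLim8_br0 N g hM] at h
  exact h.mono_left nhdsWithin_le_nhds

theorem RootLim8_ne (N g : ℕ) (hM : 1 ≤ N + g) :
    ∀ᶠ q in 𝓝[≠] exp (Real.pi * I / ((N + g : ℕ) : ℂ)), br q ((N : ℤ) + g) ≠ 0 := by
  set x := exp (Real.pi * I / ((N + g : ℕ) : ℂ)) with hx
  have hx0 : x ≠ 0 := exp_ne_zero _
  have hpow : x ^ ((N : ℤ) + g) = -1 := RootLim8_pow N g hM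
  have hpow' : x ^ (-((N : ℤ) + g)) = -1 := by
    rw [zpow_neg, hpow]
    norm_num
  have h1 := (hasDerivAt_zpow ((N : ℤ) + g) x (Or.inl hx0)).sub
    (hasDerivAt_zpow (-((N : ℤ) + g)) x (Or.inl hx0))
  have h2 : HasDerivAt (fun q => br q ((N : ℤ) + g)) _ x := h1
  refine h2.eventually_ne ?_
  rw [zpow_sub_one₀ hx0, zpow_sub_one₀ hx0, hpow, hpow']
  have hM' : ((N : ℂ) + g) ≠ 0 := by exact_mod_cast (by omega : N + g ≠ 0)
  have e : (((N : ℤ) + g : ℤ) : ℂ) * (-1 * x⁻¹) - ((-((N : ℤ) + g) : ℤ) : ℂ) * (-1 * x⁻¹) =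
      -2 * ((N : ℂ) + g) * x⁻¹ := by
    push_cast
    ring
  rw [e]
  exact mul_ne_zero (mul_ne_zero (by norm_num) hM') (inv_ne_zero hx0)

theorem RootLim8_lev0 (n g N t : ℕ) (h : lev n g N t = 0) : t + n ≤ N + g + 1 := by
  unfold lev at h
  by_contra hc
  rw [if_pos (by omega : N + g + 1 < n + t)] at h
  omega

theorem RootLim8_lev1 (n g N t : ℕ) (h : ¬ t + n ≤ N + g + 1) : 1 ≤ lev n g N t := by
  unfold lev
  rw [if_pos (by omega : N + g + 1 < n + t)]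
  omega

/-- The factor of a node, divided by the power of the vanishing bracket. -/
theorem RootLim8_node (r : ℤ) (n g N : ℕ) (hn : 2 ≤ n) (hg : 1 ≤ g) (hgn : g < n) (hN : n ≤ N)
    (A : Finset (Fin m)) (t : Fin m → ℕ) (ht : ∀ j ∈ A, t j ≤ N) :
    ∃ L : ℂ, Tendsto (fun q => NF8 r n N q A t / br q ((N : ℤ) + g) ^
        (A.sup fun j => lev n g N (t j)))
      (𝓝[≠] exp (Real.pi * I / ((N + g : ℕ) : ℂ))) (𝓝 L) := by
  by_cases h : (A.sup fun j => lev n g N (t j)) = 0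
  · rw [h]
    simp only [pow_zero, div_one]
    refine ⟨_, node_lim8 r n g N hn hg hgn hN A t fun j hj => ?_⟩
    have h1 : lev n g N (t j) ≤ A.sup fun j => lev n g N (t j) :=
      Finset.le_sup (f := fun j => lev n g N (t j)) hj
    exact RootLim8_lev0 n g N (t j) (by omega)
  · have hne : A.Nonempty := by
      rcases A.eq_empty_or_nonempty with rfl | h'
      · simp at h
      · exact h'
    obtain ⟨j, hj, hj'⟩ := Finset.exists_mem_eq_sup A hne fun j => lev n g N (t j)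
    rw [hj'] at h ⊢
    exact node_lev r n g N hn hg hgn hN A t ht j hj (by omega)

/-- The singular terms tend to zero. -/
theorem RootLim8_zero (m : ℕ) (par : Fin m → Fin (m + 1)) (hpar : ∀ j, par j ≤ j.castSucc)
    (r : Fin (m + 1) → ℤ) (n g N : ℕ) (hn : 2 ≤ n) (hg : 1 ≤ g) (hgn : g < n) (hN : n ≤ N)
    (t : Fin m → ℕ) (ht : ∀ j, t j ≤ N) (j0 : Fin m) (hj0 : ¬ t j0 + n ≤ N + g + 1) :
    Tendsto (fun q => (∏ j, E8 n N q (t j)) * ∏ i, NF8 (r i) n N q (inc par Fin.succ i) t)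
      (𝓝[≠] exp (Real.pi * I / ((N + g : ℕ) : ℂ))) (𝓝 0) := by
  set l : Fin m → ℕ := fun j => lev n g N (t j) with hl
  set L : Fin (m + 1) → ℕ := fun i => (inc par Fin.succ i).sup l with hLdef
  have hsum : ∑ j, l j + 1 ≤ ∑ i, L i :=
    tree_lev m par hpar l L (fun i j hj => Finset.le_sup (f := l) hj) j0
      (RootLim8_lev1 n g N (t j0) hj0)
  have hE : ∀ j : Fin m, ∃ a : ℂ, Tendsto (fun q => br q ((N : ℤ) + g) ^ l j * E8 n N q (t j))
      (𝓝[≠] exp (Real.pi * I / ((N + g : ℕ) : ℂ))) (𝓝 a) := fun j =>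
    edge_lev n g N (t j) hn hg hgn hN (ht j)
  have hF : ∀ i : Fin (m + 1), ∃ a : ℂ, Tendsto
      (fun q => NF8 (r i) n N q (inc par Fin.succ i) t / br q ((N : ℤ) + g) ^ L i)
      (𝓝[≠] exp (Real.pi * I / ((N + g : ℕ) : ℂ))) (𝓝 a) := fun i =>
    RootLim8_node (r i) n g N hn hg hgn hN (inc par Fin.succ i) t fun j _ => ht j
  choose a ha using hE
  choose b hb using hF
  have h1 := tendsto_finsetProd Finset.univ fun j _ => ha j
  have h2 := tendsto_finsetProd Finset.univ fun i _ => hb i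
  have h3 := (RootLim8_tend N g (by omega)).pow (∑ i, L i - ∑ j, l j)
  rw [zero_pow (by omega)] at h3
  have h4 := (h1.mul h2).mul h3
  rw [mul_zero] at h4
  refine h4.congr' ?_
  filter_upwards [RootLim8_ne N g (by omega)] with q hq
  have e1 : br q ((N : ℤ) + g) ^ (∑ i, L i) =
      br q ((N : ℤ) + g) ^ (∑ j, l j) * br q ((N : ℤ) + g) ^ (∑ i, L i - ∑ j, l j) := by
    rw [← pow_add]
    congr 1
    omega
  rw [Finset.prod_mul_distrib, Finset.prod_div_distrib, Finset.prod_pow_eq_pow_sum,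
    Finset.prod_pow_eq_pow_sum]
  have hL0 : br q ((N : ℤ) + g) ^ (∑ i, L i) ≠ 0 := pow_ne_zero _ hq
  calc _ = (∏ j, E8 n N q (t j)) * (∏ i, NF8 (r i) n N q (inc par Fin.succ i) t) *
        ((br q ((N : ℤ) + g) ^ (∑ j, l j) * br q ((N : ℤ) + g) ^ (∑ i, L i - ∑ j, l j)) /
          br q ((N : ℤ) + g) ^ (∑ i, L i)) := by ring
    _ = _ := by
      rw [← e1, div_self hL0, mul_one]

/-- Reindexing of the limit. -/
theorem RootLim8_sum (s t : Fin m → Fin p) (hst : ∀ j, s j ≠ t j)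
    (r : Fin p → ℤ) (n g N : ℕ) (hgn : g < n) (hN : n ≤ N) (hg : 1 ≤ g) :
    ∑ k ∈ Fintype.piFinset (fun _ : Fin m => Finset.range (N + g + 2 - n)),
      (∏ j, ((Dg n g (N + g) : ℂ) / ((N + g : ℕ) : ℂ) ^ 4 *
        Cc n g (N + g) (yk n (N + g) (N + g + 1 - n - k j)))) *
        ∏ i, (-(-1) ^ (n + g) * cG8 (r i) n (N + g) / (4 * Real.pi * (Dg n g (N + g) : ℂ)) *
          (∏ j ∈ inc s t i, (-1) ^ (k j) * ((N + g : ℕ) : ℂ)) *
          DG8 (r i : ℝ) n (N + g) (inc s t i) (fun j => N + g + 1 - n - k j)) =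
    (∏ i, (-(-1) ^ (n + g) * cG8 (r i) n (N + g) /
          (4 * Real.pi * (Dg n g (N + g) : ℂ)))) *
        ((Dg n g (N + g) : ℂ) / ((N + g : ℕ) : ℂ) ^ 2) ^ m *
        JG8 s t (fun i => (r i : ℝ)) n g (N + g) := by
  have hM : ((N + g : ℕ) : ℂ) ≠ 0 := by exact_mod_cast (by omega : N + g ≠ 0)
  unfold JG8
  rw [Finset.mul_sum]
  refine Finset.sum_bij' (fun k _ => fun j => N + g + 1 - n - k j)
    (fun k _ => fun j => N + g + 1 - n - k j) ?_ ?_ ?_ ?_ ?_
  · intro k _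
    rw [Fintype.mem_piFinset]
    intro j
    rw [Finset.mem_range]
    omega
  · intro k _
    rw [Fintype.mem_piFinset]
    intro j
    rw [Finset.mem_range]
    omega
  · intro k hk
    rw [Fintype.mem_piFinset] at hk
    funext j
    have := Finset.mem_range.1 (hk j)
    show N + g + 1 - n - (N + g + 1 - n - k j) = k j
    omega
  · intro k hk
    rw [Fintype.mem_piFinset] at hk
    funext j
    have := Finset.mem_range.1 (hk j)
    show N + g + 1 - n - (N + g + 1 - n - k j) = k j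
    omega
  · intro k hk
    have e0 : ∏ i, (-(-1) ^ (n + g) * cG8 (r i) n (N + g) / (4 * Real.pi * (Dg n g (N + g) : ℂ)) *
          (∏ j ∈ inc s t i, (-1) ^ (k j) * ((N + g : ℕ) : ℂ)) *
          DG8 (r i : ℝ) n (N + g) (inc s t i) (fun j => N + g + 1 - n - k j)) =
        (∏ i, (-(-1) ^ (n + g) * cG8 (r i) n (N + g) / (4 * Real.pi * (Dg n g (N + g) : ℂ)))) *
          (∏ i, ∏ j ∈ inc s t i, (-1) ^ (k j) * ((N + g : ℕ) : ℂ)) *
          ∏ i, DG8 (r i : ℝ) n (N + g) (inc s t i) (fun j => N + g + 1 - n - k j) := by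
      rw [Finset.prod_mul_distrib, Finset.prod_mul_distrib]
    rw [e0, prod_inc s t hst (fun _ j => (-1) ^ (k j) * ((N + g : ℕ) : ℂ))]
    have e1 : ∀ j : Fin m, ((-1) ^ (k j) * ((N + g : ℕ) : ℂ)) * ((-1) ^ (k j) * ((N + g : ℕ) : ℂ)) =
        ((N + g : ℕ) : ℂ) ^ 2 := by
      intro j
      have h : ((-1 : ℂ) ^ (k j)) * (-1) ^ (k j) = 1 := by
        rw [← mul_pow]
        norm_num
      linear_combination ((N + g : ℕ) : ℂ) ^ 2 * h
    rw [Finset.prod_congr rfl fun j _ => e1 j]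
    have e2 : (∏ j, ((Dg n g (N + g) : ℂ) / ((N + g : ℕ) : ℂ) ^ 4 *
          Cc n g (N + g) (yk n (N + g) (N + g + 1 - n - k j)))) *
          (∏ _j : Fin m, ((N + g : ℕ) : ℂ) ^ 2) =
        ((Dg n g (N + g) : ℂ) / ((N + g : ℕ) : ℂ) ^ 2) ^ m *
          ∏ j, Cc n g (N + g) (yk n (N + g) (N + g + 1 - n - k j)) := by
      have e3 : ((Dg n g (N + g) : ℂ) / ((N + g : ℕ) : ℂ) ^ 2) ^ m =
          ∏ _j : Fin m, ((Dg n g (N + g) : ℂ) / ((N + g : ℕ) : ℂ) ^ 2) := by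
        rw [Finset.prod_const, Finset.card_univ, Fintype.card_fin]
      rw [e3, ← Finset.prod_mul_distrib, ← Finset.prod_mul_distrib]
      refine Finset.prod_congr rfl fun j _ => ?_
      field_simp
    calc _ = ((∏ j, ((Dg n g (N + g) : ℂ) / ((N + g : ℕ) : ℂ) ^ 4 *
            Cc n g (N + g) (yk n (N + g) (N + g + 1 - n - k j)))) *
          (∏ _j : Fin m, ((N + g : ℕ) : ℂ) ^ 2)) *
          ((∏ i, (-(-1) ^ (n + g) * cG8 (r i) n (N + g) /
            (4 * Real.pi * (Dg n g (N + g) : ℂ)))) *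
            ∏ i, DG8 (r i : ℝ) n (N + g) (inc s t i) (fun j => N + g + 1 - n - k j)) := by ring
      _ = _ := by
        rw [e2]
        ring

theorem root_lim8 (m : ℕ) (par : Fin m → Fin (m + 1)) (hpar : ∀ j, par j ≤ j.castSucc)
    (r : Fin (m + 1) → ℤ) (n g N : ℕ) (hn : 2 ≤ n) (hg : 1 ≤ g) (hgn : g < n) (hN : n ≤ N) :
    Tendsto (fun q => suTree par Fin.succ r n N q)
      (𝓝[≠] exp (Real.pi * I / ((N + g : ℕ) : ℂ)))
      (𝓝 ((∏ i, (-(-1) ^ (n + g) * cG8 (r i) n (N + g) /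
          (4 * Real.pi * (Dg n g (N + g) : ℂ)))) *
        ((Dg n g (N + g) : ℂ) / ((N + g : ℕ) : ℂ) ^ 2) ^ m *
        JG8 par Fin.succ (fun i => (r i : ℝ)) n g (N + g))) := by
  have hst : ∀ j, par j ≠ Fin.succ j := by
    intro j hj
    have h1 := hpar j
    rw [hj] at h1
    have h2 : j.succ.val ≤ j.castSucc.val := h1
    rw [Fin.val_succ, Fin.val_castSucc] at h2
    omega
  rw [← RootLim8_sum par Fin.succ hst r n g N hgn hN hg]
  have e : (fun q => suTree par Fin.succ r n N q) = fun q =>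
      ∑ k ∈ Fintype.piFinset (fun _ : Fin m => Finset.range (N + 1)),
        (∏ j, E8 n N q (k j)) * ∏ i, NF8 (r i) n N q (inc par Fin.succ i) k := by
    funext q
    exact suTree_swap par Fin.succ hst r n N q
  rw [e]
  have hsub : Fintype.piFinset (fun _ : Fin m => Finset.range (N + g + 2 - n)) ⊆
      Fintype.piFinset (fun _ : Fin m => Finset.range (N + 1)) := by
    intro k hk
    rw [Fintype.mem_piFinset] at hk ⊢
    intro j
    have := Finset.mem_range.1 (hk j)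
    rw [Finset.mem_range]
    omega
  have e2 : (fun q => ∑ k ∈ Fintype.piFinset (fun _ : Fin m => Finset.range (N + 1)),
        (∏ j, E8 n N q (k j)) * ∏ i, NF8 (r i) n N q (inc par Fin.succ i) k) = fun q =>
      ∑ k ∈ Fintype.piFinset (fun _ : Fin m => Finset.range (N + 1)) \
          Fintype.piFinset (fun _ : Fin m => Finset.range (N + g + 2 - n)),
        (∏ j, E8 n N q (k j)) * ∏ i, NF8 (r i) n N q (inc par Fin.succ i) k +
      ∑ k ∈ Fintype.piFinset (fun _ : Fin m => Finset.range (N + g + 2 - n)),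
        (∏ j, E8 n N q (k j)) * ∏ i, NF8 (r i) n N q (inc par Fin.succ i) k := by
    funext q
    exact (Finset.sum_sdiff hsub).symm
  rw [e2]
  rw [← zero_add (∑ k ∈ Fintype.piFinset (fun _ : Fin m => Finset.range (N + g + 2 - n)), _)]
  refine Tendsto.add ?_ ?_
  · rw [← Finset.sum_const_zero (s := Fintype.piFinset (fun _ : Fin m => Finset.range (N + 1)) \
          Fintype.piFinset (fun _ : Fin m => Finset.range (N + g + 2 - n)))]
    refine tendsto_finsetSum _ fun k hk => ?_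
    rw [Finset.mem_sdiff, Fintype.mem_piFinset, Fintype.mem_piFinset] at hk
    obtain ⟨hk1, hk2⟩ := hk
    rw [not_forall] at hk2
    obtain ⟨j0, hj0⟩ := hk2
    rw [Finset.mem_range] at hj0
    refine RootLim8_zero m par hpar r n g N hn hg hgn hN k (fun j => ?_) j0 (by omega)
    have := Finset.mem_range.1 (hk1 j)
    omega
  · refine tendsto_finsetSum _ fun k hk => ?_
    rw [Fintype.mem_piFinset] at hk
    have hk' : ∀ j, k j + n ≤ N + g + 1 := fun j => by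
      have := Finset.mem_range.1 (hk j)
      omega
    refine Tendsto.mul ?_ ?_
    · exact tendsto_finsetProd _ fun j _ => edge_lim n g N (k j) hn hg hgn hN (hk' j)
    · exact tendsto_finsetProd _ fun i _ =>
        node_lim8 (r i) n g N hn hg hgn hN (inc par Fin.succ i) k fun j _ => hk' j

end Pool.Agent.H63.VC8

end
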