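import Pool.Agent.H94.PA.M38

/-! The parts of this file: H63.VC11.KHb11, H63.VC11.YDC11, H63.VC11.Yk11. -/

section

/-! # Identities for the matrix elements of the crossing, II -/

namespace Pool.Agent.H63.VC11

open Pool.Agent.H63.VC7 Pool.Agent.H63.VC8

variable {n : ℕ}

private theorem KHb11_gen (P Q : Fin n → Module.End ℂ (Fn2 n)) (A B : Module.End ℂ (Fn2 n))
    (u : Fin n → ℂ) (ψ : Fn2 n) (s : ℂ) (hP : ∀ i, Commute (P i) A) (hQ : ∀ i, Commute (Q i) B)
    (hs : ∀ x, ∑ i, u i * P i (Q i (B ψ)) x = s * (B ψ) x)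
    (x : (Fin n → ℕ) × (Fin n → ℕ)) :
    ∑ i, u i * P i (A (B (Q i ψ))) x = s * A (B ψ) x := by
  have h1 : ∀ i, P i (A (B (Q i ψ))) = A (P i (Q i (B ψ))) := by
    intro i
    have e1 : B (Q i ψ) = Q i (B ψ) := by
      have := congrArg (fun L : Module.End ℂ (Fn2 n) => L ψ) (hQ i).eq
      simpa [Module.End.mul_apply] using this.symm
    have e2 : ∀ φ : Fn2 n, P i (A φ) = A (P i φ) := by
      intro φ
      have := congrArg (fun L : Module.End ℂ (Fn2 n) => L φ) (hP i).eq
      simpa [Module.End.mul_apply] using this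
    rw [e1, e2]
  have h2 : (∑ i, u i • P i (Q i (B ψ))) = s • B ψ := by
    funext y
    rw [Finset.sum_apply]
    simpa [Pi.smul_apply, smul_eq_mul] using hs y
  have h3 := congrArg (fun φ : Fn2 n => A φ x) h2
  simp only [map_sum, map_smul, Finset.sum_apply, Pi.smul_apply, smul_eq_mul] at h3
  rw [← h3]
  refine Finset.sum_congr rfl fun i _ => ?_
  rw [h1]

private theorem KHb11_XR2 (q : ℂ) (i : Fin n) (b a : Fin n → ℕ) :
    XR2 q i (mon q b a) = q ^ (hi a i) • mon q b (a + Pi.single i 1) := by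
  funext x
  obtain ⟨c, d⟩ := x
  change qn q (d i) * q ^ (hi d i) * mon q b a (c, d - Pi.single i 1) =
    q ^ (hi a i) * mon q b (a + Pi.single i 1) (c, d)
  unfold mon
  by_cases hd : d i = 0
  · have h1 : ((c, d) : (Fin n → ℕ) × (Fin n → ℕ)) ≠ (b, a + Pi.single i 1) := by
      intro h
      have := congrFun (Prod.mk.inj h).2 i
      rw [add_single_self] at this
      omega
    rw [if_neg h1, hd]
    simp [qn_zero]
  · obtain ⟨d', rfl⟩ := exists_add hd
    rw [add_sub_single]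
    by_cases h : c = b ∧ d' = a
    · obtain ⟨rfl, rfl⟩ := h
      rw [if_pos rfl, if_pos rfl, gf_add, hi_add_self, add_single_self]
      push_cast
      ring
    · rw [if_neg (fun h' => h ⟨(Prod.mk.inj h').1, (Prod.mk.inj h').2⟩), if_neg, mul_zero, mul_zero]
      intro h'
      exact h ⟨(Prod.mk.inj h').1, add_right_cancel (Prod.mk.inj h').2⟩

private theorem KHb11_XL1 (q : ℂ) (i : Fin n) (b a : Fin n → ℕ) :
    XL1 q i (mon q b a) = q ^ (lo b i) • mon q (b + Pi.single i 1) a := by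
  funext x
  obtain ⟨c, d⟩ := x
  change qn q (c i) * q ^ (lo c i) * mon q b a (c - Pi.single i 1, d) =
    q ^ (lo b i) * mon q (b + Pi.single i 1) a (c, d)
  unfold mon
  by_cases hd : c i = 0
  · have h1 : ((c, d) : (Fin n → ℕ) × (Fin n → ℕ)) ≠ (b + Pi.single i 1, a) := by
      intro h
      have := congrFun (Prod.mk.inj h).1 i
      rw [add_single_self] at this
      omega
    rw [if_neg h1, hd]
    simp [qn_zero]
  · obtain ⟨c', rfl⟩ := exists_add hd
    rw [add_sub_single]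
    by_cases h : c' = b ∧ d = a
    · obtain ⟨rfl, rfl⟩ := h
      rw [if_pos rfl, if_pos rfl, gf_add, lo_add_self, add_single_self]
      push_cast
      ring
    · rw [if_neg (fun h' => h ⟨(Prod.mk.inj h').1, (Prod.mk.inj h').2⟩), if_neg, mul_zero, mul_zero]
      intro h'
      exact h ⟨add_right_cancel (Prod.mk.inj h').1, (Prod.mk.inj h').2⟩

private theorem KHb11_DL1 (q : ℂ) (i : Fin n) (b a : Fin n → ℕ) :
    DL1 q i (mon q b a) = (qn q (b i) * q ^ (-(hi b i))) • mon q (b - Pi.single i 1) a := by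
  funext x
  obtain ⟨c, d⟩ := x
  change q ^ (-(hi c i)) * mon q b a (c + Pi.single i 1, d) =
    qn q (b i) * q ^ (-(hi b i)) * mon q (b - Pi.single i 1) a (c, d)
  unfold mon
  by_cases hb : b i = 0
  · have h1 : ((c + Pi.single i 1, d) : (Fin n → ℕ) × (Fin n → ℕ)) ≠ (b, a) := by
      intro h
      have := congrFun (Prod.mk.inj h).1 i
      rw [add_single_self] at this
      omega
    rw [if_neg h1, hb]
    simp [qn_zero]
  · obtain ⟨b', rfl⟩ := exists_add hb
    rw [add_sub_single]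
    by_cases h : c = b' ∧ d = a
    · obtain ⟨rfl, rfl⟩ := h
      rw [if_pos rfl, if_pos rfl, gf_add, hi_add_self, add_single_self]
      push_cast
      ring
    · rw [if_neg (fun h' => h ⟨add_right_cancel (Prod.mk.inj h').1, (Prod.mk.inj h').2⟩), if_neg,
        mul_zero, mul_zero]
      intro h'
      exact h ⟨(Prod.mk.inj h').1, (Prod.mk.inj h').2⟩

private theorem KHb11_DR2 (q : ℂ) (i : Fin n) (b a : Fin n → ℕ) :
    DR2 q i (mon q b a) = (qn q (a i) * q ^ (-(lo a i))) • mon q b (a - Pi.single i 1) := by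
  funext x
  obtain ⟨c, d⟩ := x
  change q ^ (-(lo d i)) * mon q b a (c, d + Pi.single i 1) =
    qn q (a i) * q ^ (-(lo a i)) * mon q b (a - Pi.single i 1) (c, d)
  unfold mon
  by_cases hb : a i = 0
  · have h1 : ((c, d + Pi.single i 1) : (Fin n → ℕ) × (Fin n → ℕ)) ≠ (b, a) := by
      intro h
      have := congrFun (Prod.mk.inj h).2 i
      rw [add_single_self] at this
      omega
    rw [if_neg h1, hb]
    simp [qn_zero]
  · obtain ⟨a', rfl⟩ := exists_add hb
    rw [add_sub_single]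
    by_cases h : c = b ∧ d = a'
    · obtain ⟨rfl, rfl⟩ := h
      rw [if_pos rfl, if_pos rfl, gf_add, lo_add_self, add_single_self]
      push_cast
      ring
    · rw [if_neg (fun h' => h ⟨(Prod.mk.inj h').1, add_right_cancel (Prod.mk.inj h').2⟩), if_neg,
        mul_zero, mul_zero]
      intro h'
      exact h ⟨(Prod.mk.inj h').1, (Prod.mk.inj h').2⟩

private theorem KHb11_coef (q : ℂ) (hq : q ≠ 0) (e : ℤ) (he : e = 1 ∨ e = -1) (N k : ℕ) :
    q ^ (e * ((k : ℤ) - ((N + 1 : ℕ) : ℤ))) * qn q ((N : ℤ) + k + n) +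
      q ^ (e * (2 * N + n)) * (q ^ (e * ((k : ℤ) - N)) * qn q ((N : ℤ) + 1 - k)) =
      qn q (2 * (N : ℤ) + n + 1) := by
  rcases he with rfl | rfl
  · have h := qn_add q hq ((N : ℤ) + 1 - k) ((N : ℤ) + k + n)
    rw [show (N : ℤ) + 1 - k + ((N : ℤ) + k + n) = 2 * (N : ℤ) + n + 1 by ring] at h
    rw [← h, ← mul_assoc, ← zpow_add₀ hq, add_comm]
    congr 3
    · push_cast; ring
    · push_cast; ring
  · have h := qn_add q hq ((N : ℤ) + k + n) ((N : ℤ) + 1 - k)
    rw [show ((N : ℤ) + k + n) + ((N : ℤ) + 1 - k) = 2 * (N : ℤ) + n + 1 by ring] at h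
    rw [← h, ← mul_assoc, ← zpow_add₀ hq]
    congr 3
    · push_cast; ring
    · push_cast; ring

/-- The two sums of coefficients. -/
private theorem KHb11_sum (q : ℂ) (hq : q ≠ 0) (e : ℤ) (he : e = 1 ∨ e = -1) (N : ℕ)
    (v : ℕ → ℂ) (h0 : ∑ k ∈ Finset.range (N + 2), (-1) ^ k / qf q k ^ 2 * v k = 0) :
    ∑ k ∈ Finset.range (N + 1 + 1), (-1) ^ (N + 1 - k) *
        q ^ (e * ((k : ℤ) - ((N + 1 : ℕ) : ℤ))) / qf q k ^ 2 *
        (qn q ((N : ℤ) + k + n) * v k) =
      q ^ (e * (2 * N + n)) * ∑ k ∈ Finset.range (N + 1), (-1) ^ (N - k) *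
        q ^ (e * ((k : ℤ) - N)) / qf q k ^ 2 * (qn q ((N : ℤ) + 1 - k) * v k) := by
  have h1 : q ^ (e * (2 * N + n)) * ∑ k ∈ Finset.range (N + 1), (-1) ^ (N - k) *
        q ^ (e * ((k : ℤ) - N)) / qf q k ^ 2 * (qn q ((N : ℤ) + 1 - k) * v k) =
      -∑ k ∈ Finset.range (N + 2), (-1) ^ (N + 1 - k) * (q ^ (e * (2 * N + n)) *
        (q ^ (e * ((k : ℤ) - N)) * qn q ((N : ℤ) + 1 - k))) / qf q k ^ 2 * v k := by
    rw [Finset.sum_range_succ _ (N + 1)]
    have hz : qn q ((N : ℤ) + 1 - ((N + 1 : ℕ) : ℤ)) = 0 := by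
      rw [show (N : ℤ) + 1 - ((N + 1 : ℕ) : ℤ) = 0 by push_cast; ring, qn_zero]
    rw [hz, mul_zero, mul_zero, mul_zero, zero_div, zero_mul, add_zero, Finset.mul_sum,
      ← Finset.sum_neg_distrib]
    refine Finset.sum_congr rfl fun k hk => ?_
    have hk' : k ≤ N := by
      have := Finset.mem_range.1 hk
      omega
    rw [show N + 1 - k = (N - k) + 1 by omega, pow_succ]
    ring
  rw [h1, ← sub_eq_zero, sub_neg_eq_add, ← Finset.sum_add_distrib]
  have h2 : ∀ k ∈ Finset.range (N + 2), (-1 : ℂ) ^ (N + 1 - k) *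
        q ^ (e * ((k : ℤ) - ((N + 1 : ℕ) : ℤ))) / qf q k ^ 2 *
        (qn q ((N : ℤ) + k + n) * v k) + (-1) ^ (N + 1 - k) * (q ^ (e * (2 * N + n)) *
        (q ^ (e * ((k : ℤ) - N)) * qn q ((N : ℤ) + 1 - k))) / qf q k ^ 2 * v k =
      (qn q (2 * (N : ℤ) + n + 1) * (-1) ^ (N + 1)) * ((-1) ^ k / qf q k ^ 2 * v k) := by
    intro k hk
    have hk' : k ≤ N + 1 := by
      have := Finset.mem_range.1 hk
      omega
    have hs : (-1 : ℂ) ^ (N + 1 - k) = (-1) ^ (N + 1) * (-1) ^ k := by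
      obtain ⟨l, hl⟩ := Nat.exists_eq_add_of_le hk'
      rw [hl, Nat.add_sub_cancel_left, pow_add]
      have : ((-1 : ℂ) ^ k) * (-1) ^ k = 1 := by
        rw [← mul_pow]; norm_num
      linear_combination (-((-1 : ℂ) ^ l)) * this
    rw [← KHb11_coef (n := n) q hq e he N k, hs]
    ring
  rw [Finset.sum_congr rfl h2, ← Finset.mul_sum, h0, mul_zero]

theorem KH1 (q : ℂ) (N : ℕ) (e : ℤ) (he : e = 1 ∨ e = -1) (hg : Gen q n (N + 1)) (hn : 1 ≤ n)
    (c d b a : Fin n → ℕ) (hc : ∑ i, c i = N + 1) (hb : ∑ i, b i = N + 1) (hd : ∑ i, d i = N)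
    (ha : ∑ i, a i = N) :
    ∑ i : Fin n, q ^ ((n : ℤ) - 1 - 2 * (i : ℕ)) * q ^ (hi a i - lo d i) *
        KR q (N + 1) e c (d + Pi.single i 1) b (a + Pi.single i 1) =
      q ^ (e * (2 * N + n)) * ∑ j, qn q (c j) * qn q (b j) * q ^ (lo c j - hi b j) *
        KR q N e (c - Pi.single j 1) d (b - Pi.single j 1) a := by
  have hq := hg.1
  set m := mon q b a with hm
  have hH : HomD ((N : ℤ) + 1) N m := by
    have := HomD_mon q b a
    rw [hb, ha] at this
    exact_mod_cast this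
  have hL : ∑ i : Fin n, q ^ ((n : ℤ) - 1 - 2 * (i : ℕ)) * q ^ (hi a i - lo d i) *
        KR q (N + 1) e c (d + Pi.single i 1) b (a + Pi.single i 1) =
      ∑ k ∈ Finset.range (N + 1 + 1), (-1) ^ (N + 1 - k) *
        q ^ (e * ((k : ℤ) - ((N + 1 : ℕ) : ℤ))) / qf q k ^ 2 *
        (qn q ((N : ℤ) + k + n) * (Eo q n ^ k) ((Fo q n ^ k) m) (c, d)) := by
    have h1 : ∀ k : ℕ, ∑ i : Fin n, q ^ ((n : ℤ) - 1 - 2 * (i : ℕ)) *
        DR2 q i ((Eo q n ^ k) ((Fo q n ^ k) (XR2 q i m))) (c, d) =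
        qn q ((N : ℤ) + k + n) * (Eo q n ^ k) ((Fo q n ^ k) m) (c, d) := by
      intro k
      apply KHb11_gen (fun i => DR2 q i) (fun i => XR2 q i)
      · intro i
        exact Commute.pow_right (DR2_E q hq i) k
      · intro i
        exact Commute.pow_right (XR2_F q hq i) k
      · intro x
        rw [sum_DR2_XR2 q hq]
        by_cases hx : (Fo q n ^ k) m x = 0
        · rw [hx, mul_zero, mul_zero]
        · have := (HomD_Fpow q k hH x hx).2
          rw [this]
    have h2 : ∀ i : Fin n, q ^ ((n : ℤ) - 1 - 2 * (i : ℕ)) * q ^ (hi a i - lo d i) *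
        KR q (N + 1) e c (d + Pi.single i 1) b (a + Pi.single i 1) =
        ∑ k ∈ Finset.range (N + 1 + 1), (-1) ^ (N + 1 - k) *
        q ^ (e * ((k : ℤ) - ((N + 1 : ℕ) : ℤ))) / qf q k ^ 2 *
        (q ^ ((n : ℤ) - 1 - 2 * (i : ℕ)) *
        DR2 q i ((Eo q n ^ k) ((Fo q n ^ k) (XR2 q i m))) (c, d)) := by
      intro i
      unfold KR opR
      rw [Finset.mul_sum]
      refine Finset.sum_congr rfl fun k _ => ?_
      rw [← Fo_pow, ← Eo_pow, hm, KHb11_XR2, map_smul, map_smul, map_smul]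
      change _ = _ * (_ * (q ^ (hi a i) * (q ^ (-(lo d i)) * (Eo q n ^ k) ((Fo q n ^ k)
        (mon q b (a + Pi.single i 1))) (c, d + Pi.single i 1))))
      rw [show hi a i - lo d i = hi a i + -(lo d i) by ring, zpow_add₀ hq]
      ring
    rw [Finset.sum_congr rfl fun i _ => h2 i, Finset.sum_comm]
    refine Finset.sum_congr rfl fun k _ => ?_
    rw [← Finset.mul_sum, h1]
  have hR : ∑ j, qn q (c j) * qn q (b j) * q ^ (lo c j - hi b j) *
        KR q N e (c - Pi.single j 1) d (b - Pi.single j 1) a =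
      ∑ k ∈ Finset.range (N + 1), (-1) ^ (N - k) *
        q ^ (e * ((k : ℤ) - N)) / qf q k ^ 2 *
        (qn q ((N : ℤ) + 1 - k) * (Eo q n ^ k) ((Fo q n ^ k) m) (c, d)) := by
    have h1 : ∀ k : ℕ, ∑ i : Fin n, 1 *
        XL1 q i ((Eo q n ^ k) ((Fo q n ^ k) (DL1 q i m))) (c, d) =
        qn q ((N : ℤ) + 1 - k) * (Eo q n ^ k) ((Fo q n ^ k) m) (c, d) := by
      intro k
      apply KHb11_gen (fun i => XL1 q i) (fun i => DL1 q i)
      · intro i
        exact Commute.pow_right (XL1_E q hq i) k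
      · intro i
        exact Commute.pow_right (DL1_F q hq i) k
      · intro x
        simp only [one_mul]
        rw [sum_XL1_DL1 q hq]
        by_cases hx : (Fo q n ^ k) m x = 0
        · rw [hx, mul_zero, mul_zero]
        · have := (HomD_Fpow q k hH x hx).1
          rw [this]
    have h2 : ∀ j : Fin n, qn q (c j) * qn q (b j) * q ^ (lo c j - hi b j) *
        KR q N e (c - Pi.single j 1) d (b - Pi.single j 1) a =
        ∑ k ∈ Finset.range (N + 1), (-1) ^ (N - k) *
        q ^ (e * ((k : ℤ) - N)) / qf q k ^ 2 *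
        (1 * XL1 q j ((Eo q n ^ k) ((Fo q n ^ k) (DL1 q j m))) (c, d)) := by
      intro j
      unfold KR opR
      rw [Finset.mul_sum]
      refine Finset.sum_congr rfl fun k _ => ?_
      rw [← Fo_pow, ← Eo_pow, hm, KHb11_DL1, map_smul, map_smul, map_smul]
      change _ = _ * (1 * (qn q (b j) * q ^ (-(hi b j)) * (qn q (c j) * q ^ (lo c j) *
        (Eo q n ^ k) ((Fo q n ^ k) (mon q (b - Pi.single j 1) a)) (c - Pi.single j 1, d))))
      rw [show lo c j - hi b j = lo c j + -(hi b j) by ring, zpow_add₀ hq]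
      ring
    rw [Finset.sum_congr rfl fun i _ => h2 i, Finset.sum_comm]
    refine Finset.sum_congr rfl fun k _ => ?_
    rw [← Finset.mul_sum, h1]
  rw [hL, hR]
  apply KHb11_sum q hq e he N
  have h0 := sum_EF_zero q N hg hn hH
  have h3 := congrArg (fun φ : Fn2 n => φ (c, d)) h0
  simpa only [Finset.sum_apply, Pi.smul_apply, smul_eq_mul, Pi.zero_apply] using h3

theorem KH2 (q : ℂ) (N : ℕ) (e : ℤ) (he : e = 1 ∨ e = -1) (hg : Gen q n (N + 1)) (hn : 1 ≤ n)
    (c d b a : Fin n → ℕ) (hc : ∑ i, c i = N) (hb : ∑ i, b i = N) (hd : ∑ i, d i = N + 1)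
    (ha : ∑ i, a i = N + 1) :
    ∑ i : Fin n, (q ^ ((n : ℤ) - 1 - 2 * (i : ℕ)))⁻¹ * q ^ (lo b i - hi c i) *
        KR q (N + 1) e (c + Pi.single i 1) d (b + Pi.single i 1) a =
      q ^ (e * (2 * N + n)) * ∑ j, qn q (d j) * qn q (a j) * q ^ (hi d j - lo a j) *
        KR q N e c (d - Pi.single j 1) b (a - Pi.single j 1) := by
  have hq := hg.1
  have hbr := hg.br_one hn
  set m := mon q b a with hm
  have hH : HomD (N : ℤ) ((N : ℤ) + 1) m := by
    have := HomD_mon q b a
    rw [hb, ha] at this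
    exact_mod_cast this
  have hL : ∑ i : Fin n, (q ^ ((n : ℤ) - 1 - 2 * (i : ℕ)))⁻¹ * q ^ (lo b i - hi c i) *
        KR q (N + 1) e (c + Pi.single i 1) d (b + Pi.single i 1) a =
      ∑ k ∈ Finset.range (N + 1 + 1), (-1) ^ (N + 1 - k) *
        q ^ (e * ((k : ℤ) - ((N + 1 : ℕ) : ℤ))) / qf q k ^ 2 *
        (qn q ((N : ℤ) + k + n) * (Fo q n ^ k) ((Eo q n ^ k) m) (c, d)) := by
    have h1 : ∀ k : ℕ, ∑ i : Fin n, (q ^ ((n : ℤ) - 1 - 2 * (i : ℕ)))⁻¹ *
        DL1 q i ((Fo q n ^ k) ((Eo q n ^ k) (XL1 q i m))) (c, d) =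
        qn q ((N : ℤ) + k + n) * (Fo q n ^ k) ((Eo q n ^ k) m) (c, d) := by
      intro k
      apply KHb11_gen (fun i => DL1 q i) (fun i => XL1 q i)
      · intro i
        exact Commute.pow_right (DL1_F q hq i) k
      · intro i
        exact Commute.pow_right (XL1_E q hq i) k
      · intro x
        rw [sum_DL1_XL1 q hq]
        by_cases hx : (Eo q n ^ k) m x = 0
        · rw [hx, mul_zero, mul_zero]
        · have := (HomD_Epow q k hH x hx).1
          rw [this]
    have h2 : ∀ i : Fin n, (q ^ ((n : ℤ) - 1 - 2 * (i : ℕ)))⁻¹ * q ^ (lo b i - hi c i) *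
        KR q (N + 1) e (c + Pi.single i 1) d (b + Pi.single i 1) a =
        ∑ k ∈ Finset.range (N + 1 + 1), (-1) ^ (N + 1 - k) *
        q ^ (e * ((k : ℤ) - ((N + 1 : ℕ) : ℤ))) / qf q k ^ 2 *
        ((q ^ ((n : ℤ) - 1 - 2 * (i : ℕ)))⁻¹ *
        DL1 q i ((Fo q n ^ k) ((Eo q n ^ k) (XL1 q i m))) (c, d)) := by
      intro i
      have hs : ∑ l, (b + Pi.single i 1 : Fin n → ℕ) l = ∑ l, a l := by
        simp only [Pi.add_apply, Finset.sum_add_distrib]
        rw [hb, ha]
        simp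
      rw [KR_KK q (N + 1) e hq hbr _ _ _ _ hs, Finset.mul_sum]
      refine Finset.sum_congr rfl fun k _ => ?_
      unfold KK
      rw [hm, KHb11_XL1, map_smul, map_smul, map_smul]
      change _ = _ * (_ * (q ^ (lo b i) * (q ^ (-(hi c i)) * (Fo q n ^ k) ((Eo q n ^ k)
        (mon q (b + Pi.single i 1) a)) (c + Pi.single i 1, d))))
      rw [show lo b i - hi c i = lo b i + -(hi c i) by ring, zpow_add₀ hq]
      ring
    rw [Finset.sum_congr rfl fun i _ => h2 i, Finset.sum_comm]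
    refine Finset.sum_congr rfl fun k _ => ?_
    rw [← Finset.mul_sum, h1]
  have hR : ∑ j, qn q (d j) * qn q (a j) * q ^ (hi d j - lo a j) *
        KR q N e c (d - Pi.single j 1) b (a - Pi.single j 1) =
      ∑ k ∈ Finset.range (N + 1), (-1) ^ (N - k) *
        q ^ (e * ((k : ℤ) - N)) / qf q k ^ 2 *
        (qn q ((N : ℤ) + 1 - k) * (Fo q n ^ k) ((Eo q n ^ k) m) (c, d)) := by
    have h1 : ∀ k : ℕ, ∑ i : Fin n, 1 *
        XR2 q i ((Fo q n ^ k) ((Eo q n ^ k) (DR2 q i m))) (c, d) =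
        qn q ((N : ℤ) + 1 - k) * (Fo q n ^ k) ((Eo q n ^ k) m) (c, d) := by
      intro k
      apply KHb11_gen (fun i => XR2 q i) (fun i => DR2 q i)
      · intro i
        exact Commute.pow_right (XR2_F q hq i) k
      · intro i
        exact Commute.pow_right (DR2_E q hq i) k
      · intro x
        simp only [one_mul]
        rw [sum_XR2_DR2 q hq]
        by_cases hx : (Eo q n ^ k) m x = 0
        · rw [hx, mul_zero, mul_zero]
        · have := (HomD_Epow q k hH x hx).2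
          rw [this]
    have h2 : ∀ j : Fin n, qn q (d j) * qn q (a j) * q ^ (hi d j - lo a j) *
        KR q N e c (d - Pi.single j 1) b (a - Pi.single j 1) =
        ∑ k ∈ Finset.range (N + 1), (-1) ^ (N - k) *
        q ^ (e * ((k : ℤ) - N)) / qf q k ^ 2 *
        (1 * XR2 q j ((Fo q n ^ k) ((Eo q n ^ k) (DR2 q j m))) (c, d)) := by
      intro j
      have hcoef : ∀ k : ℕ, XR2 q j ((Fo q n ^ k) ((Eo q n ^ k) (DR2 q j m))) (c, d) =
          qn q (a j) * q ^ (-(lo a j)) * (qn q (d j) * q ^ (hi d j) *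
          (Fo q n ^ k) ((Eo q n ^ k) (mon q b (a - Pi.single j 1))) (c, d - Pi.single j 1)) := by
        intro k
        rw [hm, KHb11_DR2, map_smul, map_smul, map_smul]
        rfl
      by_cases haj : a j = 0
      · have hz : qn q ((a j : ℕ) : ℤ) = 0 := by
          rw [haj]
          exact_mod_cast qn_zero q
        simp only [hcoef, hz]
        simp
      have hs : ∑ l, b l = ∑ l, (a - Pi.single j 1 : Fin n → ℕ) l := by
        have h4 : ∑ l, (a - Pi.single j 1 + Pi.single j 1 : Fin n → ℕ) l = N + 1 := by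
          rw [sub_add_single haj, ha]
        simp only [Pi.add_apply, Finset.sum_add_distrib] at h4
        rw [hb]
        have h5 : ∑ l, (Pi.single j 1 : Fin n → ℕ) l = 1 := by simp
        omega
      rw [KR_KK q N e hq hbr _ _ _ _ hs, Finset.mul_sum]
      refine Finset.sum_congr rfl fun k _ => ?_
      unfold KK
      rw [hcoef]
      rw [show hi d j - lo a j = hi d j + -(lo a j) by ring, zpow_add₀ hq]
      ring
    rw [Finset.sum_congr rfl fun i _ => h2 i, Finset.sum_comm]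
    refine Finset.sum_congr rfl fun k _ => ?_
    rw [← Finset.mul_sum, h1]
  rw [hL, hR]
  apply KHb11_sum q hq e he N
  have h0 := sum_FE_zero q N hg hn hH
  have h3 := congrArg (fun φ : Fn2 n => φ (c, d)) h0
  simpa only [Finset.sum_apply, Pi.smul_apply, smul_eq_mul, Pi.zero_apply] using h3

theorem KH3 (q : ℂ) (N k : ℕ) (hk : k ≤ N) (hq : q ≠ 0) (c d b a : Fin n → ℕ)
    (hc : ∑ i, c i = N + 1) (hb : ∑ i, b i = N + 1) (hd : ∑ i, d i = N + 1)
    (ha : ∑ i, a i = N + 1) :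
    qn q ((N : ℤ) + 1 - k) * KK q k c d b a =
      ∑ j, qn q (d j) * qn q (a j) * q ^ (hi d j - lo a j) *
        KK q k c (d - Pi.single j 1) b (a - Pi.single j 1) := by
  set m := mon q b a with hm
  have hH : HomD ((N : ℤ) + 1) ((N : ℤ) + 1) m := by
    have := HomD_mon q b a
    rw [hb, ha] at this
    exact_mod_cast this
  have h1 : ∑ i : Fin n, 1 *
      XR2 q i ((Fo q n ^ k) ((Eo q n ^ k) (DR2 q i m))) (c, d) =
      qn q ((N : ℤ) + 1 - k) * (Fo q n ^ k) ((Eo q n ^ k) m) (c, d) := by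
    apply KHb11_gen (fun i => XR2 q i) (fun i => DR2 q i)
    · intro i
      exact Commute.pow_right (XR2_F q hq i) k
    · intro i
      exact Commute.pow_right (DR2_E q hq i) k
    · intro x
      simp only [one_mul]
      rw [sum_XR2_DR2 q hq]
      by_cases hx : (Eo q n ^ k) m x = 0
      · rw [hx, mul_zero, mul_zero]
      · have := (HomD_Epow q k hH x hx).2
        rw [this]
  change _ * (Fo q n ^ k) ((Eo q n ^ k) m) (c, d) = _
  rw [← h1]
  refine Finset.sum_congr rfl fun j _ => ?_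
  unfold KK
  rw [hm, KHb11_DR2, map_smul, map_smul, map_smul]
  change 1 * (qn q (a j) * q ^ (-(lo a j)) * (qn q (d j) * q ^ (hi d j) *
    (Fo q n ^ k) ((Eo q n ^ k) (mon q b (a - Pi.single j 1))) (c, d - Pi.single j 1))) = _
  rw [show hi d j - lo a j = hi d j + -(lo a j) by ring, zpow_add₀ hq]
  ring

end Pool.Agent.H63.VC11

end

section

/-! # Crossings and insertions of minima and maxima -/

namespace Pool.Agent.H63.VC11

open Pool.Agent.H63.VC7 Pool.Agent.H63.VC8 Matrix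

variable {n : ℕ}

private theorem YDC11_gf_rev (q : ℂ) (a : Fin n → ℕ) : gf q (fun i => a i.rev) = gf q a := by
  unfold gf
  exact Equiv.prod_comp Fin.revPerm (fun i => qf q (a i))

private theorem YDC11_gf_zero (q : ℂ) : gf q (0 : Fin n → ℕ) = 1 := by
  unfold gf
  refine Finset.prod_eq_one fun i _ => ?_
  rw [Pi.zero_apply, qf_zero]

/-- The entries of `Ym`. -/
theorem Ym_eq (q : ℂ) (N : ℕ) (e : ℤ) (hg : Gen q n N) (hn : 1 ≤ n) (x y : I2 n N) :
    Ym q n N e x y = wt q y.2.val * (KR q N e (fun i => x.1.val i.rev) y.2.val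
      (fun i => x.2.val i.rev) y.1.val / (gf q x.2.val * gf q y.1.val)) := by
  unfold Ym
  rw [Rm_eq q N e hg hn]
  simp only [Vn.rev_val, YDC11_gf_rev]

private theorem YDC11_rev_add (a : Fin n → ℕ) (i : Fin n) :
    (fun j : Fin n => (a + Pi.single i 1 : Fin n → ℕ) j.rev) =
      (fun j : Fin n => a j.rev) + Pi.single i.rev 1 := by
  funext j
  have h := congrFun (rev_single i) j
  simp only [Pi.add_apply]
  rw [← h]

private theorem YDC11_rev_sub (a : Fin n → ℕ) (i : Fin n) :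
    (fun j : Fin n => (a - Pi.single i 1 : Fin n → ℕ) j.rev) =
      (fun j : Fin n => a j.rev) - Pi.single i.rev 1 := by
  funext j
  have h := congrFun (rev_single i) j
  simp only [Pi.sub_apply]
  rw [← h]

private theorem YDC11_u_rev (q : ℂ) (i : Fin n) :
    (q ^ ((n : ℤ) - 1 - 2 * ((i.rev : Fin n) : ℕ)))⁻¹ = q ^ ((n : ℤ) - 1 - 2 * (i : ℕ)) := by
  rw [← _root_.zpow_neg]
  congr 1
  rw [Fin.val_rev]
  have h : (i : ℕ) + 1 ≤ n := i.2
  push_cast [Nat.cast_sub h]
  ring

theorem Y_DD (q : ℂ) (N : ℕ) (e : ℤ) (he : e = 1 ∨ e = -1) (hg : Gen q n (N + 1)) (hn : 1 ≤ n) :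
    Ym q n (N + 1) e * DD q n N = q ^ (e * (2 * N + n)) • (DD q n N * Ym q n N e) := by
  have hq : q ≠ 0 := hg.1
  have hgN : Gen q n N := hg.mono (Nat.le_succ N)
  ext x y
  rw [mul_DD, Matrix.smul_apply, smul_eq_mul]
  have hgy : gf q y.1.val ≠ 0 := Gen.gf_ne hg hn (by omega) y.1
  have hgx : gf q x.2.val ≠ 0 := Gen.gf_ne hg hn (by omega) x.2
  have hL : ∀ i : Fin n, Ym q n (N + 1) e x (y.1.add i, y.2.add i) *
      (qn q ((y.1.val i : ℤ) + 1) * q ^ (hi y.1.val i - lo y.2.val i)) =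
      wt q y.2.val / (gf q x.2.val * gf q y.1.val) *
        (q ^ ((n : ℤ) - 1 - 2 * (i : ℕ)) * q ^ (hi y.1.val i - lo y.2.val i) *
          KR q (N + 1) e (fun i => x.1.val i.rev) (y.2.val + Pi.single i 1)
            (fun i => x.2.val i.rev) (y.1.val + Pi.single i 1)) := by
    intro i
    have hle : y.1.val i ≤ N := by
      have h1 := y.1.sum
      have h2 := Finset.single_le_sum (f := y.1.val) (fun j _ => Nat.zero_le _) (Finset.mem_univ i)
      omega
    have hqn : qn q ((y.1.val i : ℤ) + 1) ≠ 0 := hg.qn_ne hn (by omega) (by omega)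
    rw [Ym_eq q (N + 1) e hg hn]
    simp only [Vn.add_val]
    rw [gf_add, wt_add hq]
    field_simp
  rw [Finset.sum_congr rfl fun i _ => hL i, ← Finset.mul_sum,
    KH1 q N e he hg hn (fun i => x.1.val i.rev) y.2.val (fun i => x.2.val i.rev) y.1.val
      ((Equiv.sum_comp Fin.revPerm x.1.val).trans x.1.sum)
      ((Equiv.sum_comp Fin.revPerm x.2.val).trans x.2.sum) y.2.sum y.1.sum]
  set β : (Fin n → ℕ) → (Fin n → ℕ) → ℂ := fun a d : Fin n → ℕ =>
    wt q y.2.val * (KR q N e (fun i => a i.rev) y.2.val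
        (fun i => d i.rev) y.1.val / (gf q d * gf q y.1.val)) with hβ
  have hR : ∀ z : I2 n N, DD q n N x z * Ym q n N e z y = DD q n N x z *
      β z.1.val z.2.val := by
    intro z
    rw [Ym_eq q N e hgN hn]
  have hD : (DD q n N * Ym q n N e) x y = ∑ i, if x.1.val i ≠ 0 ∧ x.2.val i ≠ 0 then
        qn q (x.1.val i) * q ^ (hi x.1.val i - lo x.2.val i) *
          β (x.1.val - Pi.single i 1) (x.2.val - Pi.single i 1) else 0 := by
    rw [Matrix.mul_apply]
    exact (Finset.sum_congr rfl fun z _ => hR z).trans (DD_mul_fun q β x)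
  rw [hD, mul_left_comm]
  congr 1
  rw [Finset.mul_sum, ← Equiv.sum_comp Fin.revPerm]
  refine Finset.sum_congr rfl fun i _ => ?_
  simp only [Fin.revPerm_apply, Fin.rev_rev]
  rw [lo_rev, hi_rev, Fin.rev_rev]
  simp only [hβ]
  split_ifs with h
  · have h2 : gf q x.2.val = gf q (x.2.val - Pi.single i 1) * qn q (x.2.val i) := by
      obtain ⟨b, hb⟩ := exists_add h.2
      rw [hb, gf_add, add_sub_single, add_single_self]
      push_cast
      rfl
    have h3 : gf q (x.2.val - Pi.single i 1) ≠ 0 := by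
      intro h0
      rw [h0, zero_mul] at h2
      exact hgx h2
    have h4 : qn q (x.2.val i) ≠ 0 := by
      intro h0
      rw [h0, mul_zero] at h2
      exact hgx h2
    rw [YDC11_rev_sub, YDC11_rev_sub, h2]
    field_simp
  · have h0 : qn q (x.1.val i) * qn q (x.2.val i) = 0 := by
      by_cases h1 : x.1.val i = 0
      · rw [h1, Nat.cast_zero, qn_zero, zero_mul]
      · have h5 : x.2.val i = 0 := by
          by_contra h6
          exact h ⟨h1, h6⟩
        rw [h5, Nat.cast_zero, qn_zero, mul_zero]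
    rw [h0, zero_mul, zero_mul, mul_zero]

theorem CC_Y (q : ℂ) (N : ℕ) (e : ℤ) (he : e = 1 ∨ e = -1) (hg : Gen q n (N + 1)) (hn : 1 ≤ n) :
    CC q n N * Ym q n (N + 1) e = q ^ (e * (2 * N + n)) • (Ym q n N e * CC q n N) := by
  have hq : q ≠ 0 := hg.1
  have hgN : Gen q n N := hg.mono (Nat.le_succ N)
  ext x y
  rw [CC_mul, Matrix.smul_apply, smul_eq_mul]
  have hgy : gf q y.1.val ≠ 0 := Gen.gf_ne hg hn (by omega) y.1
  have hgx : gf q x.2.val ≠ 0 := Gen.gf_ne hg hn (by omega) x.2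
  have hL : ∀ i : Fin n, q ^ ((n : ℤ) - 1 - 2 * (i : ℕ)) *
      (qn q ((x.2.val i : ℤ) + 1) * q ^ (hi x.2.val i - lo x.1.val i)) *
      Ym q n (N + 1) e (x.1.add i, x.2.add i) y =
      wt q y.2.val / (gf q x.2.val * gf q y.1.val) *
        ((q ^ ((n : ℤ) - 1 - 2 * ((i.rev : Fin n) : ℕ)))⁻¹ *
          q ^ (lo (fun i => x.2.val i.rev) i.rev - hi (fun i => x.1.val i.rev) i.rev) *
          KR q (N + 1) e ((fun i => x.1.val i.rev) + Pi.single i.rev 1) y.2.val
            ((fun i => x.2.val i.rev) + Pi.single i.rev 1) y.1.val) := by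
    intro i
    have hle : x.2.val i ≤ N := by
      have h1 := x.2.sum
      have h2 := Finset.single_le_sum (f := x.2.val) (fun j _ => Nat.zero_le _) (Finset.mem_univ i)
      omega
    have hqn : qn q ((x.2.val i : ℤ) + 1) ≠ 0 := hg.qn_ne hn (by omega) (by omega)
    rw [Ym_eq q (N + 1) e hg hn]
    simp only [Vn.add_val]
    rw [gf_add, YDC11_u_rev, lo_rev, hi_rev, Fin.rev_rev, ← YDC11_rev_add, ← YDC11_rev_add]
    field_simp
  rw [Finset.sum_congr rfl fun i _ => hL i, ← Finset.mul_sum]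
  have hS := Equiv.sum_comp Fin.revPerm (fun i : Fin n => (q ^ ((n : ℤ) - 1 - 2 * (i : ℕ)))⁻¹ *
          q ^ (lo (fun k : Fin n => x.2.val k.rev) i - hi (fun k : Fin n => x.1.val k.rev) i) *
          KR q (N + 1) e ((fun k : Fin n => x.1.val k.rev) + Pi.single i 1) y.2.val
            ((fun k : Fin n => x.2.val k.rev) + Pi.single i 1) y.1.val)
  simp only [Fin.revPerm_apply] at hS
  rw [hS]
  rw [KH2 q N e he hg hn (fun k : Fin n => x.1.val k.rev) y.2.val
      (fun k : Fin n => x.2.val k.rev) y.1.val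
      ((Equiv.sum_comp Fin.revPerm x.1.val).trans x.1.sum)
      ((Equiv.sum_comp Fin.revPerm x.2.val).trans x.2.sum) y.2.sum y.1.sum]
  set β : (Fin n → ℕ) → (Fin n → ℕ) → ℂ := fun a d : Fin n → ℕ =>
    wt q d * (KR q N e (fun k : Fin n => x.1.val k.rev) d
        (fun k : Fin n => x.2.val k.rev) a / (gf q x.2.val * gf q a)) with hβ
  have hR : ∀ z : I2 n N, Ym q n N e x z * CC q n N z y =
      β z.1.val z.2.val * CC q n N z y := by
    intro z
    rw [Ym_eq q N e hgN hn]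
  have hD : (Ym q n N e * CC q n N) x y = ∑ i : Fin n, if y.1.val i ≠ 0 ∧ y.2.val i ≠ 0 then
        β (y.1.val - Pi.single i 1) (y.2.val - Pi.single i 1) *
          (q ^ ((n : ℤ) - 1 - 2 * (i : ℕ)) *
            (qn q (y.2.val i) * q ^ (hi y.2.val i - lo y.1.val i))) else 0 := by
    rw [Matrix.mul_apply]
    exact (Finset.sum_congr rfl fun z _ => hR z).trans (mul_CC_fun q β y)
  rw [hD, mul_left_comm]
  congr 1
  rw [Finset.mul_sum]
  refine Finset.sum_congr rfl fun i _ => ?_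
  simp only [hβ]
  split_ifs with h
  · have h2 : gf q y.1.val = gf q (y.1.val - Pi.single i 1) * qn q (y.1.val i) := by
      obtain ⟨b, hb⟩ := exists_add h.1
      rw [hb, gf_add, add_sub_single, add_single_self]
      push_cast
      rfl
    have h3 : gf q (y.1.val - Pi.single i 1) ≠ 0 := by
      intro h0
      rw [h0, zero_mul] at h2
      exact hgy h2
    have h4 : qn q (y.1.val i) ≠ 0 := by
      intro h0
      rw [h0, mul_zero] at h2
      exact hgy h2
    have h5 : wt q y.2.val = wt q (y.2.val - Pi.single i 1) *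
        q ^ ((n : ℤ) - 1 - 2 * (i : ℕ)) := by
      obtain ⟨b, hb⟩ := exists_add h.2
      rw [hb, wt_add hq, add_sub_single]
    rw [h2, h5]
    field_simp
  · have h0 : qn q (y.2.val i) * qn q (y.1.val i) = 0 := by
      by_cases h1 : y.1.val i = 0
      · rw [h1, Nat.cast_zero, qn_zero, mul_zero]
      · have h5 : y.2.val i = 0 := by
          by_contra h6
          exact h ⟨h1, h6⟩
        rw [h5, Nat.cast_zero, qn_zero, zero_mul]
    rw [h0, zero_mul, zero_mul, mul_zero]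

theorem Ym_zero (q : ℂ) (e : ℤ) (hg : Gen q n 0) (hn : 1 ≤ n) : Ym q n 0 e = 1 := by
  have hv : ∀ a : Vn n 0, a.val = 0 := by
    intro a
    funext i
    have h1 := a.sum
    have h2 := Finset.single_le_sum (f := a.val) (fun j _ => Nat.zero_le _) (Finset.mem_univ i)
    simp only [Pi.zero_apply]
    omega
  have hu : ∀ a b : Vn n 0, a = b := by
    intro a b
    apply Vn.ext
    rw [hv a, hv b]
  ext x y
  have hxy : x = y := Prod.ext (hu _ _) (hu _ _)
  subst hxy
  rw [Matrix.one_apply_eq, Ym_eq q 0 e hg hn, hv x.1, hv x.2]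
  have hz : (fun i : Fin n => (0 : Fin n → ℕ) i.rev) = 0 := by
    funext i
    rfl
  rw [hz, KR_KK q 0 e hg.1 (hg.br_one hn) 0 0 0 0 rfl]
  rw [wt_zero, YDC11_gf_zero]
  have hK : KK q 0 (0 : Fin n → ℕ) 0 0 0 = 1 := by
    unfold KK mon
    rw [pow_zero, pow_zero]
    simp only [Module.End.one_apply, if_true, YDC11_gf_zero, mul_one]
  rw [Finset.range_one, Finset.sum_singleton, hK]
  simp [qf_zero]

end Pool.Agent.H63.VC11

end

section

/-! # The crossing on the kernel of `CC` -/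

namespace Pool.Agent.H63.VC11

open Pool.Agent.H63.VC7 Pool.Agent.H63.VC8 Matrix

variable {n : ℕ}

/-- The term of the crossing given by `F ^ k E ^ k`. -/
noncomputable def Yk (q : ℂ) (n N k : ℕ) : Matrix (I2 n N) (I2 n N) ℂ := fun x y =>
  wt q y.2.val * (KK q k (fun i => x.1.val i.rev) y.2.val (fun i => x.2.val i.rev) y.1.val /
    (gf q x.2.val * gf q y.1.val))

theorem Yk11_rev_sum {N : ℕ} (a : Vn n N) : ∑ i, a.val (Fin.rev i) = N := by
  have h := a.rev.sum
  simpa using h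

theorem Ym_Yk (q : ℂ) (N : ℕ) (e : ℤ) (hg : Gen q n N) (hn : 1 ≤ n) :
    Ym q n N e = ∑ k ∈ Finset.range (N + 1), ((-1) ^ (N - k) * q ^ (e * ((k : ℤ) - N)) /
      qf q k ^ 2) • Yk q n N k := by
  funext x y
  rw [Ym_eq q N e hg hn x y, KR_KK q N e hg.1 (hg.br_one hn) _ _ _ _
    (by rw [Yk11_rev_sum, y.1.sum]), Matrix.sum_apply, Finset.sum_div, Finset.mul_sum]
  refine Finset.sum_congr rfl fun k _ => ?_
  rw [Matrix.smul_apply, smul_eq_mul]
  unfold Yk
  ring

theorem Yk_CC (q : ℂ) (N k : ℕ) (hk : k ≤ N) (hg : Gen q n (N + 1)) (hn : 1 ≤ n) {ι : Type*}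
    (W : Matrix (I2 n (N + 1)) ι ℂ) (hW : CC q n N * W = 0) : Yk q n (N + 1) k * W = 0 := by
  classical
  funext x w
  rw [Matrix.mul_apply, Matrix.zero_apply]
  have hk0 : qn q ((N : ℤ) + 1 - k) ≠ 0 := hg.qn_ne hn (by omega) (by push_cast; omega)
  have hgx : gf q x.2.val ≠ 0 := hg.gf_ne hn (by omega) x.2
  apply (mul_right_injective₀ hk0)
  simp only [mul_zero]
  -- the function of the indices
  let Wf : (Fin n → ℕ) → (Fin n → ℕ) → ℂ := fun a d =>
    if h : (∑ i, a i = N + 1) ∧ (∑ i, d i = N + 1) then W (⟨a, h.1⟩, ⟨d, h.2⟩) w else 0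
  have hWf : ∀ y : I2 n (N + 1), Wf y.1.val y.2.val = W y w := by
    intro y
    have h : (∑ i, y.1.val i = N + 1) ∧ (∑ i, y.2.val i = N + 1) := ⟨y.1.sum, y.2.sum⟩
    show dite _ _ _ = _
    rw [dif_pos h]
  let H : Fin n → (Fin n → ℕ) → (Fin n → ℕ) → ℂ := fun j a d =>
    wt q d * (qn q (d j) * qn q (a j) * q ^ (hi d j - lo a j) *
      KK q k (fun i => x.1.val i.rev) (d - Pi.single j 1) (fun i => x.2.val i.rev)
        (a - Pi.single j 1) / (gf q x.2.val * gf q a)) * Wf a d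
  have e1 : qn q ((N : ℤ) + 1 - k) * ∑ y : I2 n (N + 1), Yk q n (N + 1) k x y * W y w
      = ∑ j, ∑ y : I2 n (N + 1), H j y.1.val y.2.val := by
    rw [Finset.mul_sum, Finset.sum_comm]
    refine Finset.sum_congr rfl fun y _ => ?_
    have h3 := KH3 q N k hk hg.1 (fun i => x.1.val i.rev) y.2.val (fun i => x.2.val i.rev)
      y.1.val (Yk11_rev_sum x.1) (Yk11_rev_sum x.2) y.2.sum y.1.sum
    have h4 : qn q ((N : ℤ) + 1 - k) * (Yk q n (N + 1) k x y * W y w)
        = wt q y.2.val * ((qn q ((N : ℤ) + 1 - k) * KK q k (fun i => x.1.val i.rev) y.2.val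
            (fun i => x.2.val i.rev) y.1.val) / (gf q x.2.val * gf q y.1.val)) * W y w := by
      unfold Yk
      ring
    rw [h4, h3, Finset.sum_div, Finset.mul_sum, Finset.sum_mul]
    refine Finset.sum_congr rfl fun j _ => ?_
    show _ = wt q y.2.val * _ * Wf y.1.val y.2.val
    rw [hWf y]
  rw [e1]
  have e2 : ∀ j : Fin n, ∑ y : I2 n (N + 1), H j y.1.val y.2.val
      = ∑ z : I2 n N, H j (z.1.val + Pi.single j 1) (z.2.val + Pi.single j 1) := by
    intro j
    refine sum_I2_succ (H j) j fun a d h => ?_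
    show wt q d * (qn q (d j) * qn q (a j) * q ^ (hi d j - lo a j) * _ / _) * Wf a d = 0
    rcases h with h | h
    · rw [h, Nat.cast_zero, qn_zero]
      simp
    · rw [h, Nat.cast_zero, qn_zero]
      simp
  rw [Finset.sum_congr rfl fun j _ => e2 j, Finset.sum_comm]
  refine Finset.sum_eq_zero fun z _ => ?_
  have hz : (CC q n N * W) z w = 0 := by
    rw [hW]
    rfl
  rw [CC_mul] at hz
  have hgz : gf q z.1.val ≠ 0 := hg.gf_ne hn (by omega) z.1
  have e3 : ∀ j : Fin n, H j (z.1.val + Pi.single j 1) (z.2.val + Pi.single j 1)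
      = wt q z.2.val * (KK q k (fun i => x.1.val i.rev) z.2.val (fun i => x.2.val i.rev) z.1.val /
          (gf q x.2.val * gf q z.1.val)) * (q ^ ((n : ℤ) - 1 - 2 * (j : ℕ)) *
      (qn q ((z.2.val j : ℤ) + 1) * q ^ (hi z.2.val j - lo z.1.val j)) *
      W (z.1.add j, z.2.add j) w) := by
    intro j
    have hq1 : qn q ((z.1.val j : ℤ) + 1) ≠ 0 := by
      have h5 : z.1.val j ≤ N := by
        have h6 : z.1.val j ≤ ∑ i, z.1.val i :=
          Finset.single_le_sum (f := z.1.val) (fun _ _ => Nat.zero_le _) (Finset.mem_univ j)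
        have h7 := z.1.sum
        omega
      exact hg.qn_ne hn (by omega) (by push_cast; omega)
    have h8 := hWf (z.1.add j, z.2.add j)
    simp only [Vn.add_val] at h8
    show wt q (z.2.val + Pi.single j 1) * (qn q (((z.2.val + Pi.single j 1 : Fin n → ℕ) j : ℕ) : ℤ) *
      qn q (((z.1.val + Pi.single j 1 : Fin n → ℕ) j : ℕ) : ℤ) *
      q ^ (hi (z.2.val + Pi.single j 1) j - lo (z.1.val + Pi.single j 1) j) *
      KK q k (fun i => x.1.val i.rev) (z.2.val + Pi.single j 1 - Pi.single j 1)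
        (fun i => x.2.val i.rev) (z.1.val + Pi.single j 1 - Pi.single j 1) /
        (gf q x.2.val * gf q (z.1.val + Pi.single j 1))) *
      Wf (z.1.val + Pi.single j 1) (z.2.val + Pi.single j 1) = _
    rw [h8, wt_add hg.1, gf_add, add_sub_single, add_sub_single, hi_add_self, lo_add_self,
      add_single_self, add_single_self]
    push_cast
    field_simp
  rw [Finset.sum_congr rfl fun j _ => e3 j, ← Finset.mul_sum, hz, mul_zero]

/-- On the kernel of `CC` the positive and the negative crossing agree. -/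
theorem Y_ker (q : ℂ) (N : ℕ) (e : ℤ) (hg : Gen q n (N + 1)) (hn : 1 ≤ n) {ι : Type*}
    (W : Matrix (I2 n (N + 1)) ι ℂ) (hW : CC q n N * W = 0) :
    Ym q n (N + 1) e * W = (qf q (N + 1) ^ 2)⁻¹ • (Yk q n (N + 1) (N + 1) * W) := by
  rw [Ym_Yk q (N + 1) e hg hn, Finset.sum_range_succ, Matrix.add_mul, Matrix.sum_mul]
  rw [Finset.sum_eq_zero]
  · rw [zero_add, Matrix.smul_mul]
    congr 1
    rw [Nat.sub_self, pow_zero, one_mul]
    have : e * (((N + 1 : ℕ) : ℤ) - ((N + 1 : ℕ) : ℤ)) = 0 := by ring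
    rw [this, zpow_zero, one_div]
  · intro k hk
    have hk' := Finset.mem_range.1 hk
    rw [Matrix.smul_mul, Yk_CC q N k (by omega) hg hn W hW, smul_zero]

end Pool.Agent.H63.VC11

end
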