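import Pool.Agent.H94.PA.M37

/-! The parts of this file: H63.VC11.Qb11, H63.VC11.Saal11, H63.VC11.Vand11, H63.VC11.Ker11, H63.VC11.KerB11. -/

section

/-! # `q`-binomial coefficients -/

namespace Pool.Agent.H63.VC11

open Pool.Agent.H63.VC7 Pool.Agent.H63.VC8

/-- The (symmetric) `q`-binomial coefficients. -/
noncomputable def qb (q : ℂ) : ℕ → ℕ → ℂ
  | _, 0 => 1
  | 0, _ + 1 => 0
  | m + 1, k + 1 => q ^ ((k : ℤ) + 1) * qb q m (k + 1) + q ^ (-((m : ℤ) - k)) * qb q m k

theorem qb_zero_right (q : ℂ) (m : ℕ) : qb q m 0 = 1 := by cases m <;> rfl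

private theorem qb11_succ (q : ℂ) (m k : ℕ) : qb q (m + 1) (k + 1) =
    q ^ ((k : ℤ) + 1) * qb q m (k + 1) + q ^ (-((m : ℤ) - k)) * qb q m k := rfl

theorem qb_lt (q : ℂ) (m k : ℕ) (h : m < k) : qb q m k = 0 := by
  induction m generalizing k with
  | zero =>
    obtain ⟨j, rfl⟩ : ∃ j, k = j + 1 := ⟨k - 1, by omega⟩
    rfl
  | succ m ih =>
    obtain ⟨j, rfl⟩ : ∃ j, k = j + 1 := ⟨k - 1, by omega⟩
    rw [qb11_succ, ih (j + 1) (by omega), ih j (by omega), mul_zero, mul_zero, add_zero]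

theorem qb_self (q : ℂ) (m : ℕ) : qb q m m = 1 := by
  induction m with
  | zero => rfl
  | succ m ih =>
    rw [qb11_succ, ih, qb_lt q m (m + 1) (by omega), sub_self, neg_zero, zpow_zero, mul_zero,
      zero_add, one_mul]

theorem qb_fac (q : ℂ) (hq : q ≠ 0) (m k : ℕ) (h : k ≤ m) :
    qb q m k * (qf q k * qf q (m - k)) = qf q m := by
  induction m generalizing k with
  | zero =>
    obtain rfl : k = 0 := by omega
    rw [qb_zero_right, qf_zero, one_mul, one_mul]
  | succ m ih =>
    rcases Nat.eq_zero_or_pos k with rfl | hk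
    · rw [qb_zero_right, qf_zero, one_mul, one_mul, Nat.sub_zero]
    · obtain ⟨j, rfl⟩ : ∃ j, k = j + 1 := ⟨k - 1, by omega⟩
      rcases Nat.lt_or_ge j m with hj | hj
      · have e1 : m + 1 - (j + 1) = (m - (j + 1)) + 1 := by omega
        have e2 : m - j = (m - (j + 1)) + 1 := by omega
        have e3 : (((m - (j + 1) : ℕ) : ℤ) + 1) = (m : ℤ) - j := by omega
        have i1 := ih (j + 1) (by omega)
        have i2 := ih j (by omega)
        rw [e2, qf_succ, e3] at i2
        have ha := qn_add q hq ((m : ℤ) - j) ((j : ℤ) + 1)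
        have e4 : (m : ℤ) - j + (j + 1) = m + 1 := by ring
        rw [e4] at ha
        rw [qb11_succ, e1, qf_succ, qf_succ, e3, qf_succ q m, ← ha]
        rw [qf_succ] at i1
        linear_combination (q ^ ((j : ℤ) + 1) * qn q ((m : ℤ) - j)) * i1 +
          (q ^ (-((m : ℤ) - j)) * qn q ((j : ℤ) + 1)) * i2
      · obtain rfl : j = m := by omega
        rw [qb_self, Nat.sub_self, qf_zero, one_mul, mul_one]

/-- The other recursion. -/
theorem qb_succ' (q : ℂ) (hq : q ≠ 0) (h1 : br q 1 ≠ 0) (m k : ℕ)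
    (hf : ∀ j ≤ m + 1, qf q j ≠ 0) :
    qb q (m + 1) (k + 1) = q ^ (-((k : ℤ) + 1)) * qb q m (k + 1) +
      q ^ ((m : ℤ) - k) * qb q m k := by
  rcases Nat.lt_trichotomy k m with hk | rfl | hk
  · have e0 : m + 1 - (k + 1) = (m - (k + 1)) + 1 := by omega
    have e2 : m - k = (m - (k + 1)) + 1 := by omega
    have e3 : (((m - (k + 1) : ℕ) : ℤ) + 1) = (m : ℤ) - k := by omega
    have i0 := qb_fac q hq (m + 1) (k + 1) (by omega)
    have i1 := qb_fac q hq m (k + 1) (by omega)
    have i2 := qb_fac q hq m k (by omega)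
    rw [e0, qf_succ q (m - (k + 1)), e3, qf_succ q k, qf_succ q m] at i0
    rw [qf_succ] at i1
    rw [e2, qf_succ, e3] at i2
    have ha := qn_add q hq ((k : ℤ) + 1) ((m : ℤ) - k)
    have e4 : (k : ℤ) + 1 + (m - k) = m + 1 := by ring
    rw [e4] at ha
    have n1 : qf q k * qn q ((k : ℤ) + 1) ≠ 0 := by
      rw [← qf_succ]; exact hf (k + 1) (by omega)
    have n2 : qf q (m - (k + 1)) * qn q ((m : ℤ) - k) ≠ 0 := by
      rw [← e3, ← qf_succ]; exact hf _ (by omega)
    apply mul_right_cancel₀ (mul_ne_zero n1 n2)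
    rw [i0, ← ha]
    linear_combination (-(q ^ (-((k : ℤ) + 1)) * qn q ((m : ℤ) - k))) * i1 -
      (q ^ ((m : ℤ) - k) * qn q ((k : ℤ) + 1)) * i2
  · rw [qb_self, qb_self, qb_lt q k (k + 1) (by omega), sub_self, zpow_zero, mul_zero, zero_add,
      one_mul]
  · rw [qb_lt q (m + 1) (k + 1) (by omega), qb_lt q m (k + 1) (by omega), qb_lt q m k hk,
      mul_zero, mul_zero, add_zero]

end Pool.Agent.H63.VC11

end

section

/-! # Identities for `q`-binomial coefficients -/

namespace Pool.Agent.H63.VC11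

open Pool.Agent.H63.VC7 Pool.Agent.H63.VC8

theorem Saal11_step (q : ℂ) (m k : ℕ) :
    qb q (m + 1) (k + 1) = q ^ ((k : ℤ) + 1) * qb q m (k + 1) + q ^ (-((m : ℤ) - k)) * qb q m k :=
  rfl

theorem Saal11_zero_succ (q : ℂ) (k : ℕ) : qb q 0 (k + 1) = 0 := rfl

/-- The right side. -/
noncomputable def Saal11_S (q : ℂ) (A B C D h : ℕ) : ℂ :=
  ∑ β ∈ Finset.range (D + 1), qb q A β * qb q B (D - β) * qb q (h + C + β) (C + D)

theorem Saal11_S_zero (q : ℂ) (B C D h : ℕ) :
    Saal11_S q 0 B C D h = qb q B D * qb q (h + C) (C + D) := by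
  unfold Saal11_S
  rw [Finset.sum_range_succ']
  have h1 : ∑ β ∈ Finset.range D, qb q 0 (β + 1) * qb q B (D - (β + 1)) *
      qb q (h + C + (β + 1)) (C + D) = 0 := by
    refine Finset.sum_eq_zero fun β _ => ?_
    rw [Saal11_zero_succ]
    ring
  rw [h1, qb_zero_right]
  simp

theorem Saal11_base (q : ℂ) (hq : q ≠ 0) (C D h : ℕ)
    (hf : ∀ j ≤ C + D + h, qf q j ≠ 0) :
    qb q (C + h) C * qb q h D = qb q (C + D) D * qb q (h + C) (C + D) := by
  rcases Nat.lt_or_ge h D with hD | hD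
  · rw [qb_lt q h D hD, qb_lt q (h + C) (C + D) (by omega)]
    ring
  · have e1 := qb_fac q hq (C + h) C (by omega)
    have e2 := qb_fac q hq h D hD
    have e3 := qb_fac q hq (C + D) D (by omega)
    have e4 := qb_fac q hq (h + C) (C + D) (by omega)
    rw [show C + h - C = h by omega] at e1
    rw [show C + D - D = C by omega] at e3
    rw [show h + C - (C + D) = h - D by omega, show h + C = C + h by omega] at e4
    rw [show h + C = C + h by omega]
    have n1 := hf C (by omega)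
    have n2 := hf h (by omega)
    have n3 := hf D (by omega)
    have n4 := hf (h - D) (by omega)
    have n5 := hf (C + D) (by omega)
    have key : (qb q (C + h) C * qb q h D - qb q (C + D) D * qb q (C + h) (C + D)) *
        (qf q C * qf q h * qf q D * qf q (h - D) * qf q (C + D)) = 0 := by
      have l1 : qb q (C + h) C * qb q h D *
          (qf q C * qf q h * qf q D * qf q (h - D) * qf q (C + D))
          = (qb q (C + h) C * (qf q C * qf q h)) * (qb q h D * (qf q D * qf q (h - D))) *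
            qf q (C + D) := by ring
      have l2 : qb q (C + D) D * qb q (C + h) (C + D) *
          (qf q C * qf q h * qf q D * qf q (h - D) * qf q (C + D))
          = (qb q (C + D) D * (qf q D * qf q C)) *
            (qb q (C + h) (C + D) * (qf q (C + D) * qf q (h - D))) * qf q h := by ring
      rw [sub_mul, l1, l2, e1, e2, e3, e4]
      ring
    have hne : qf q C * qf q h * qf q D * qf q (h - D) * qf q (C + D) ≠ 0 := by
      simp only [mul_ne_zero_iff]
      exact ⟨⟨⟨⟨n1, n2⟩, n3⟩, n4⟩, n5⟩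
    have := (mul_eq_zero.1 key).resolve_right hne
    linear_combination this

/-- The recursion of the right side. -/
theorem Saal11_rec (q : ℂ) (hq : q ≠ 0) (h1 : br q 1 ≠ 0) (A B C D h : ℕ)
    (hAB : A + B = C + D) (hf : ∀ j ≤ B + 1, qf q j ≠ 0) :
    Saal11_S q (A + 1) B C (D + 1) h =
      q ^ ((D : ℤ) + 1) * Saal11_S q A (B + 1) C (D + 1) h +
      q ^ (-(((A + h : ℕ) : ℤ) - D)) * Saal11_S q A B C D h := by
  have hL : Saal11_S q (A + 1) B C (D + 1) h =
      ∑ β ∈ Finset.range (D + 2), q ^ (β : ℤ) * (qb q A β * qb q B (D + 1 - β) *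
        qb q (h + C + β) (C + (D + 1))) +
      ∑ β ∈ Finset.range (D + 1), q ^ (-((A : ℤ) - β)) * (qb q A β * qb q B (D - β) *
        qb q (h + C + β + 1) (C + (D + 1))) := by
    unfold Saal11_S
    rw [Finset.sum_range_succ' _ (D + 1), Finset.sum_range_succ' _ (D + 1)]
    have e1 : ∑ β ∈ Finset.range (D + 1), qb q (A + 1) (β + 1) * qb q B (D + 1 - (β + 1)) *
          qb q (h + C + (β + 1)) (C + (D + 1))
        = ∑ β ∈ Finset.range (D + 1), q ^ ((β + 1 : ℕ) : ℤ) * (qb q A (β + 1) *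
          qb q B (D + 1 - (β + 1)) * qb q (h + C + (β + 1)) (C + (D + 1)))
        + ∑ β ∈ Finset.range (D + 1), q ^ (-((A : ℤ) - β)) * (qb q A β * qb q B (D - β) *
          qb q (h + C + β + 1) (C + (D + 1))) := by
      rw [← Finset.sum_add_distrib]
      refine Finset.sum_congr rfl fun β _ => ?_
      rw [Saal11_step, show D + 1 - (β + 1) = D - β by omega,
        show h + C + (β + 1) = h + C + β + 1 by omega]
      push_cast
      ring
    rw [e1, qb_zero_right, qb_zero_right]
    simp only [Nat.cast_zero, zpow_zero]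
    ring
  have hR : q ^ ((D : ℤ) + 1) * Saal11_S q A (B + 1) C (D + 1) h =
      ∑ β ∈ Finset.range (D + 2), q ^ (β : ℤ) * (qb q A β * qb q B (D + 1 - β) *
        qb q (h + C + β) (C + (D + 1))) +
      ∑ β ∈ Finset.range (D + 1), q ^ ((B : ℤ) + 1 + β) * (qb q A β * qb q B (D - β) *
        qb q (h + C + β) (C + (D + 1))) := by
    unfold Saal11_S
    rw [Finset.mul_sum, Finset.sum_range_succ _ (D + 1), Finset.sum_range_succ _ (D + 1)]
    have e2 : ∑ β ∈ Finset.range (D + 1), q ^ ((D : ℤ) + 1) * (qb q A β *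
          qb q (B + 1) (D + 1 - β) * qb q (h + C + β) (C + (D + 1)))
        = ∑ β ∈ Finset.range (D + 1), q ^ (β : ℤ) * (qb q A β *
          qb q B (D + 1 - β) * qb q (h + C + β) (C + (D + 1)))
        + ∑ β ∈ Finset.range (D + 1), q ^ ((B : ℤ) + 1 + β) * (qb q A β * qb q B (D - β) *
          qb q (h + C + β) (C + (D + 1))) := by
      rw [← Finset.sum_add_distrib]
      refine Finset.sum_congr rfl fun β hβ => ?_
      obtain ⟨l, rfl⟩ : ∃ l, D = β + l := ⟨D - β, by
        have := Finset.mem_range.1 hβ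
        omega⟩
      rw [show β + l + 1 - β = l + 1 by omega, show β + l - β = l by omega,
        qb_succ' q hq h1 B l hf]
      have z1 : q ^ (((β + l : ℕ) : ℤ) + 1) * q ^ (-((l : ℤ) + 1)) = q ^ (β : ℤ) := by
        rw [← zpow_add₀ hq]
        congr 1
        push_cast
        ring
      have z2 : q ^ (((β + l : ℕ) : ℤ) + 1) * q ^ ((B : ℤ) - l) = q ^ ((B : ℤ) + 1 + β) := by
        rw [← zpow_add₀ hq]
        congr 1
        push_cast
        ring
      linear_combination (qb q A β * qb q B (l + 1) * qb q (h + C + β) (C + (β + l + 1))) * z1 +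
        (qb q A β * qb q B l * qb q (h + C + β) (C + (β + l + 1))) * z2
    rw [e2, show D + 1 - (D + 1) = 0 by omega, qb_zero_right, qb_zero_right]
    push_cast
    ring
  rw [hL, hR]
  have hM : q ^ (-(((A + h : ℕ) : ℤ) - D)) * Saal11_S q A B C D h =
      ∑ β ∈ Finset.range (D + 1), q ^ (-((A : ℤ) - β)) * (qb q A β * qb q B (D - β) *
        qb q (h + C + β + 1) (C + (D + 1))) -
      ∑ β ∈ Finset.range (D + 1), q ^ ((B : ℤ) + 1 + β) * (qb q A β * qb q B (D - β) *
        qb q (h + C + β) (C + (D + 1))) := by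
    unfold Saal11_S
    rw [Finset.mul_sum, ← Finset.sum_sub_distrib]
    refine Finset.sum_congr rfl fun β _ => ?_
    rw [show C + (D + 1) = (C + D) + 1 by omega, Saal11_step]
    have hABz : (A : ℤ) + B = C + D := by exact_mod_cast hAB
    have z1 : q ^ (-((A : ℤ) - β)) * q ^ (((C + D : ℕ) : ℤ) + 1) = q ^ ((B : ℤ) + 1 + β) := by
      rw [← zpow_add₀ hq]
      congr 1
      push_cast
      linarith
    have z2 : q ^ (-((A : ℤ) - β)) * q ^ (-(((h + C + β : ℕ) : ℤ) - ((C + D : ℕ) : ℤ)))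
        = q ^ (-(((A + h : ℕ) : ℤ) - D)) := by
      rw [← zpow_add₀ hq]
      congr 1
      push_cast
      ring
    linear_combination -(qb q A β * qb q B (D - β) * qb q (h + C + β) (C + D + 1)) * z1 -
      (qb q A β * qb q B (D - β) * qb q (h + C + β) (C + D)) * z2
  rw [hM]
  ring

/-- The `q`-Saalschütz identity. -/
theorem qb_saal (q : ℂ) (hq : q ≠ 0) (A B C D h : ℕ) (hAB : A + B = C + D)
    (hf : ∀ j ≤ A + B + h, qf q j ≠ 0) :
    qb q (C + h) C * qb q (A + h) D =
      ∑ β ∈ Finset.range (D + 1), qb q A β * qb q B (D - β) * qb q (h + C + β) (C + D) := by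
  have key : ∀ A B C D h : ℕ, A + B = C + D → (∀ j ≤ A + B + h, qf q j ≠ 0) →
      qb q (C + h) C * qb q (A + h) D = Saal11_S q A B C D h := by
    intro A
    induction A with
    | zero =>
      intro B C D h hAB hf
      have hB : B = C + D := by omega
      subst hB
      rw [Saal11_S_zero, Nat.zero_add]
      exact Saal11_base q hq C D h fun j hj => hf j (by omega)
    | succ A ih =>
      intro B C D h hAB hf
      have h1 : br q 1 ≠ 0 := by
        intro h0
        apply hf 1 (by omega)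
        simp [qf, qn, h0]
      rcases Nat.eq_zero_or_pos D with hD | hD
      · subst hD
        unfold Saal11_S
        simp only [Nat.zero_add, Finset.range_one, Finset.sum_singleton, Nat.sub_zero,
          qb_zero_right, Nat.add_zero]
        rw [Nat.add_comm C h]
        ring
      · obtain ⟨D, rfl⟩ : ∃ E, D = E + 1 := ⟨D - 1, by omega⟩
        rw [Saal11_rec q hq h1 A B C D h (by omega) (fun j hj => hf j (by omega)),
          ← ih (B + 1) C (D + 1) h (by omega) (fun j hj => hf j (by omega)),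
          ← ih B C D h (by omega) (fun j hj => hf j (by omega)),
          show A + 1 + h = (A + h) + 1 by omega, Saal11_step]
        ring
  exact key A B C D h hAB hf

theorem Saal11_vand (q : ℂ) (hq : q ≠ 0) (x y M : ℕ) :
    ∑ k ∈ Finset.range (M + 1), q ^ (((M : ℤ) - k) * ((x : ℤ) + 1) - (k : ℤ) * ((y : ℤ) + 1)) *
      (qb q (k + x) x * qb q (M - k + y) y) = qb q (M + x + y + 1) (x + y + 1) := by
  induction y generalizing M with
  | zero =>
    induction M with
    | zero =>
      simp [qb_self]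
    | succ M ih =>
      rw [Finset.sum_range_succ]
      have e1 : ∑ k ∈ Finset.range (M + 1), q ^ ((((M + 1 : ℕ) : ℤ) - k) * ((x : ℤ) + 1) -
            (k : ℤ) * (((0 : ℕ) : ℤ) + 1)) * (qb q (k + x) x * qb q (M + 1 - k + 0) 0)
          = q ^ ((x : ℤ) + 1) * ∑ k ∈ Finset.range (M + 1), q ^ (((M : ℤ) - k) * ((x : ℤ) + 1) -
            (k : ℤ) * (((0 : ℕ) : ℤ) + 1)) * (qb q (k + x) x * qb q (M - k + 0) 0) := by
        rw [Finset.mul_sum]
        refine Finset.sum_congr rfl fun k _ => ?_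
        rw [qb_zero_right, qb_zero_right]
        have z1 : q ^ ((((M + 1 : ℕ) : ℤ) - k) * ((x : ℤ) + 1) - (k : ℤ) * (((0 : ℕ) : ℤ) + 1))
            = q ^ ((x : ℤ) + 1) * q ^ (((M : ℤ) - k) * ((x : ℤ) + 1) -
              (k : ℤ) * (((0 : ℕ) : ℤ) + 1)) := by
          rw [← zpow_add₀ hq]
          congr 1
          push_cast
          ring
        rw [z1]
        ring
      rw [e1, ih, qb_zero_right, show M + 1 + x + 0 + 1 = (M + x + 1) + 1 by omega,
        show x + 0 + 1 = x + 1 by omega, Saal11_step q (M + x + 1) x,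
        show M + x + 0 + 1 = M + x + 1 by omega,
        show M + 1 + x = M + x + 1 by omega]
      have z2 : q ^ ((((M + 1 : ℕ) : ℤ) - ((M + 1 : ℕ) : ℤ)) * ((x : ℤ) + 1) -
            ((M + 1 : ℕ) : ℤ) * (((0 : ℕ) : ℤ) + 1))
          = q ^ (-(((M + x + 1 : ℕ) : ℤ) - x)) := by
        congr 1
        push_cast
        ring
      rw [z2]
      ring
  | succ y ihy =>
    induction M with
    | zero =>
      simp [qb_self]
    | succ M ih =>
      have hB := ihy (M + 1)
      rw [Finset.sum_range_succ] at hB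
      rw [Finset.sum_range_succ]
      have e1 : ∑ k ∈ Finset.range (M + 1), q ^ ((((M + 1 : ℕ) : ℤ) - k) * ((x : ℤ) + 1) -
            (k : ℤ) * (((y + 1 : ℕ) : ℤ) + 1)) * (qb q (k + x) x *
              qb q (M + 1 - k + (y + 1)) (y + 1))
          = q ^ ((x : ℤ) + y + 2) * ∑ k ∈ Finset.range (M + 1),
              q ^ (((M : ℤ) - k) * ((x : ℤ) + 1) - (k : ℤ) * (((y + 1 : ℕ) : ℤ) + 1)) *
              (qb q (k + x) x * qb q (M - k + (y + 1)) (y + 1)) +
            q ^ (-((M : ℤ) + 1)) * ∑ k ∈ Finset.range (M + 1),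
              q ^ ((((M + 1 : ℕ) : ℤ) - k) * ((x : ℤ) + 1) - (k : ℤ) * ((y : ℤ) + 1)) *
              (qb q (k + x) x * qb q (M + 1 - k + y) y) := by
        rw [Finset.mul_sum, Finset.mul_sum, ← Finset.sum_add_distrib]
        refine Finset.sum_congr rfl fun k hk => ?_
        obtain ⟨l, rfl⟩ : ∃ l, M = k + l := ⟨M - k, by
          have := Finset.mem_range.1 hk
          omega⟩
        rw [show k + l + 1 - k + (y + 1) = (l + y + 1) + 1 by omega,
          show k + l - k + (y + 1) = l + y + 1 by omega,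
          show k + l + 1 - k + y = l + y + 1 by omega, Saal11_step]
        have z1 : q ^ ((((k + l + 1 : ℕ) : ℤ) - k) * ((x : ℤ) + 1) -
              (k : ℤ) * (((y + 1 : ℕ) : ℤ) + 1)) * q ^ ((y : ℤ) + 1)
            = q ^ ((x : ℤ) + y + 2) * q ^ ((((k + l : ℕ) : ℤ) - k) * ((x : ℤ) + 1) -
              (k : ℤ) * (((y + 1 : ℕ) : ℤ) + 1)) := by
          rw [← zpow_add₀ hq, ← zpow_add₀ hq]
          congr 1
          push_cast
          ring
        have z2 : q ^ ((((k + l + 1 : ℕ) : ℤ) - k) * ((x : ℤ) + 1) -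
              (k : ℤ) * (((y + 1 : ℕ) : ℤ) + 1)) * q ^ (-(((l + y + 1 : ℕ) : ℤ) - y))
            = q ^ (-(((k + l : ℕ) : ℤ) + 1)) * q ^ ((((k + l + 1 : ℕ) : ℤ) - k) *
              ((x : ℤ) + 1) - (k : ℤ) * ((y : ℤ) + 1)) := by
          rw [← zpow_add₀ hq, ← zpow_add₀ hq]
          congr 1
          push_cast
          ring
        linear_combination (qb q (k + x) x * qb q (l + y + 1) (y + 1)) * z1 +
          (qb q (k + x) x * qb q (l + y + 1) y) * z2
      rw [e1, ih]
      have z3 : q ^ ((((M + 1 : ℕ) : ℤ) - ((M + 1 : ℕ) : ℤ)) * ((x : ℤ) + 1) -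
            ((M + 1 : ℕ) : ℤ) * (((y + 1 : ℕ) : ℤ) + 1))
          = q ^ (-((M : ℤ) + 1)) * q ^ ((((M + 1 : ℕ) : ℤ) - ((M + 1 : ℕ) : ℤ)) *
            ((x : ℤ) + 1) - ((M + 1 : ℕ) : ℤ) * ((y : ℤ) + 1)) := by
        rw [← zpow_add₀ hq]
        congr 1
        push_cast
        ring
      rw [show M + 1 - (M + 1) + y = y by omega, qb_self] at hB
      rw [show M + 1 - (M + 1) + (y + 1) = y + 1 by omega, qb_self, z3,
        show M + 1 + x + (y + 1) + 1 = (M + x + y + 2) + 1 by omega,
        show x + (y + 1) + 1 = (x + y + 1) + 1 by omega,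
        Saal11_step q (M + x + y + 2) (x + y + 1),
        show M + x + (y + 1) + 1 = M + x + y + 2 by omega]
      rw [show M + 1 + x + y + 1 = M + x + y + 2 by omega] at hB
      rw [← hB]
      have z4 : q ^ (((x + y + 1 : ℕ) : ℤ) + 1) = q ^ ((x : ℤ) + y + 2) := by
        rw [show ((x + y + 1 : ℕ) : ℤ) + 1 = (x : ℤ) + y + 2 by push_cast; ring]
      have z5 : q ^ (-(((M + x + y + 2 : ℕ) : ℤ) - ((x + y + 1 : ℕ) : ℤ)))
          = q ^ (-((M : ℤ) + 1)) := by
        rw [show -(((M + x + y + 2 : ℕ) : ℤ) - ((x + y + 1 : ℕ) : ℤ)) = -((M : ℤ) + 1) by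
          push_cast; ring]
      rw [z4, z5]
      ring

/-- The `q`-Vandermonde identity. -/
theorem qb_vand (q : ℂ) (hq : q ≠ 0) (x y M : ℕ) (hf : ∀ j ≤ M + x + y + 1, qf q j ≠ 0) :
    ∑ k ∈ Finset.range (M + 1), q ^ (((M : ℤ) - k) * ((x : ℤ) + 1) - (k : ℤ) * ((y : ℤ) + 1)) *
      (qb q (k + x) x * qb q (M - k + y) y) = qb q (M + x + y + 1) (x + y + 1) :=
  Saal11_vand q hq x y M

end Pool.Agent.H63.VC11

end

section

/-! # A multiple `q`-Vandermonde identity -/

namespace Pool.Agent.H63.VC11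

open Pool.Agent.H63.VC7 Pool.Agent.H63.VC8

variable {n : ℕ}

/-- The linear form in the exponent. -/
def lam (p h : Fin n → ℕ) : ℤ :=
  ∑ i : Fin n, (h i : ℤ) * ((n : ℤ) - 1 - 2 * (i : ℕ) + hi p i - lo p i)

theorem Vand11_split (F : (Fin (n + 1) → ℕ) → ℂ) (M : ℕ) :
    ∑ h : Vn (n + 1) M, F h.val =
      ∑ k ∈ Finset.range (M + 1), ∑ h : Vn n (M - k), F (Fin.snoc (α := fun _ => ℕ) h.val k) := by
  classical
  rw [← sum_Vn]
  have h1 : ∀ k ∈ Finset.range (M + 1),
      ∑ h : Vn n (M - k), F (Fin.snoc (α := fun _ => ℕ) h.val k) =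
        ∑ h ∈ Finset.piAntidiag (Finset.univ : Finset (Fin n)) (M - k),
          F (Fin.snoc (α := fun _ => ℕ) h k) := fun k _ =>
    (sum_Vn (fun h => F (Fin.snoc (α := fun _ => ℕ) h k))).symm
  rw [Finset.sum_congr rfl h1, Finset.sum_sigma']
  refine Finset.sum_bij'
    (fun (h : Fin (n + 1) → ℕ) _ => (⟨h (Fin.last n), fun i => h i.castSucc⟩ : Σ _ : ℕ, Fin n → ℕ))
    (fun (z : Σ _ : ℕ, Fin n → ℕ) _ => Fin.snoc (α := fun _ => ℕ) z.2 z.1) ?_ ?_ ?_ ?_ ?_
  · intro h hh
    have h2 := (Finset.mem_piAntidiag.1 hh).1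
    rw [Fin.sum_univ_castSucc] at h2
    rw [Finset.mem_sigma, Finset.mem_range, Finset.mem_piAntidiag]
    refine ⟨?_, ?_, fun _ _ => Finset.mem_univ _⟩
    · change h (Fin.last n) < M + 1
      omega
    · change ∑ i : Fin n, h i.castSucc = M - h (Fin.last n)
      omega
  · intro z hz
    rw [Finset.mem_sigma, Finset.mem_range, Finset.mem_piAntidiag] at hz
    obtain ⟨h2, h3, -⟩ := hz
    rw [Finset.mem_piAntidiag]
    refine ⟨?_, fun _ _ => Finset.mem_univ _⟩
    rw [Fin.sum_univ_castSucc]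
    simp only [Fin.snoc_castSucc, Fin.snoc_last]
    rw [h3]
    omega
  · intro h _
    funext i
    refine Fin.lastCases ?_ (fun i => ?_) i
    · simp only [Fin.snoc_last]
    · simp only [Fin.snoc_castSucc]
  · intro z _
    obtain ⟨k, h⟩ := z
    simp only [Fin.snoc_last, Fin.snoc_castSucc]
  · intro h _
    congr 1
    funext i
    refine Fin.lastCases ?_ (fun i => ?_) i
    · simp only [Fin.snoc_last]
    · simp only [Fin.snoc_castSucc]

theorem Vand11_sum_castSucc_lo (p : Fin (n + 1) → ℕ) (i : Fin n) :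
    lo p i.castSucc = lo (fun j => p j.castSucc) i := by
  unfold lo
  rw [← Finset.sum_filter_add_sum_filter_not (Finset.Iio i.castSucc) (fun j => j ≠ Fin.last n)]
  rw [Finset.sum_eq_zero (s := (Finset.Iio i.castSucc).filter (fun j => ¬ j ≠ Fin.last n)), add_zero]
  · symm
    refine Finset.sum_bij (fun j _ => j.castSucc) ?_ ?_ ?_ ?_
    · intro j hj
      rw [Finset.mem_Iio] at hj
      rw [Finset.mem_filter, Finset.mem_Iio]
      exact ⟨Fin.castSucc_lt_castSucc_iff.2 hj, Fin.castSucc_ne_last j⟩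
    · intro j _ j' _ h
      exact Fin.castSucc_injective n h
    · intro j hj
      rw [Finset.mem_filter, Finset.mem_Iio] at hj
      obtain ⟨k, rfl⟩ := Fin.exists_castSucc_eq.2 hj.2
      exact ⟨k, Finset.mem_Iio.2 (Fin.castSucc_lt_castSucc_iff.1 hj.1), rfl⟩
    · intro j _
      rfl
  · intro j hj
    rw [Finset.mem_filter, Finset.mem_Iio, not_not] at hj
    rw [hj.2] at hj
    exact absurd hj.1 (not_lt.2 (Fin.le_last _))

theorem Vand11_hi_castSucc (p : Fin (n + 1) → ℕ) (i : Fin n) :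
    hi p i.castSucc = hi (fun j => p j.castSucc) i + p (Fin.last n) := by
  have h1 := lo_self_hi p i.castSucc
  have h2 := lo_self_hi (fun j => p j.castSucc) i
  rw [Vand11_sum_castSucc_lo] at h1
  rw [Fin.sum_univ_castSucc] at h1
  push_cast at h1 h2
  linarith

theorem Vand11_lo_last (p : Fin (n + 1) → ℕ) :
    lo p (Fin.last n) = ((∑ i : Fin n, p i.castSucc : ℕ) : ℤ) := by
  have h1 := lo_self_hi p (Fin.last n)
  have h2 : hi p (Fin.last n) = 0 := by
    unfold hi
    refine Finset.sum_eq_zero fun j hj => ?_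
    rw [Finset.mem_Ioi] at hj
    exact absurd hj (not_lt.2 (Fin.le_last _))
  rw [Fin.sum_univ_castSucc] at h1
  push_cast at h1 ⊢
  linarith

theorem Vand11_hi_last (p : Fin (n + 1) → ℕ) : hi p (Fin.last n) = 0 := by
  unfold hi
  refine Finset.sum_eq_zero fun j hj => ?_
  rw [Finset.mem_Ioi] at hj
  exact absurd hj (not_lt.2 (Fin.le_last _))

theorem Vand11_lam_snoc (p : Fin (n + 1) → ℕ) (h : Fin n → ℕ) (k : ℕ) :
    lam p (Fin.snoc (α := fun _ => ℕ) h k) =
      lam (fun j => p j.castSucc) h + ((∑ i, h i : ℕ) : ℤ) * ((p (Fin.last n) : ℤ) + 1) -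
        (k : ℤ) * ((n : ℤ) + ((∑ i : Fin n, p i.castSucc : ℕ) : ℤ)) := by
  unfold lam
  rw [Fin.sum_univ_castSucc]
  simp only [Fin.snoc_castSucc, Fin.snoc_last, Vand11_sum_castSucc_lo, Vand11_hi_castSucc,
    Vand11_lo_last, Vand11_hi_last, Fin.val_castSucc, Fin.val_last]
  have h1 : ∑ i : Fin n, (h i : ℤ) * (((n + 1 : ℕ) : ℤ) - 1 - 2 * ((i : ℕ) : ℤ) +
      (hi (fun j => p j.castSucc) i + (p (Fin.last n) : ℤ)) - lo (fun j => p j.castSucc) i) =
      ∑ i : Fin n, (h i : ℤ) * ((n : ℤ) - 1 - 2 * ((i : ℕ) : ℤ) +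
        hi (fun j => p j.castSucc) i - lo (fun j => p j.castSucc) i) +
        ((∑ i, h i : ℕ) : ℤ) * ((p (Fin.last n) : ℤ) + 1) := by
    push_cast
    rw [Finset.sum_mul, ← Finset.sum_add_distrib]
    refine Finset.sum_congr rfl fun i _ => ?_
    ring
  rw [h1]
  push_cast
  ring

theorem Vand11_vand (q : ℂ) (hq : q ≠ 0) (m : ℕ) : ∀ (M : ℕ) (p : Fin (m + 1) → ℕ)
    (_ : ∀ j ≤ M + ∑ i, p i + m, qf q j ≠ 0),
    ∑ h : Vn (m + 1) M, q ^ lam p h.val * ∏ i, qb q (h.val i + p i) (p i) =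
      qb q (M + ∑ i, p i + m) (∑ i, p i + m) := by
  induction m with
  | zero =>
    intro M p _
    have h1 : ∀ h : Vn 1 M, h = ⟨fun _ => M, by simp⟩ := by
      intro h
      apply Vn.ext
      funext i
      have h2 := h.sum
      rw [Fin.sum_univ_one] at h2
      rw [Subsingleton.elim i 0]
      exact h2
    rw [Finset.sum_eq_single (⟨fun _ => M, by simp⟩ : Vn 1 M)]
    · have h2 : lam p (fun _ => M) = 0 := by
        unfold lam
        rw [Fin.sum_univ_one]
        have h3 : hi p 0 = 0 := Vand11_hi_last p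
        have h4 : lo p 0 = 0 := by
          have := Vand11_lo_last p
          simpa using this
        rw [h3, h4]
        simp
      change q ^ lam p (fun _ => M) * ∏ i : Fin 1, qb q (M + p i) (p i) = _
      rw [h2, zpow_zero, one_mul, Fin.prod_univ_one, Fin.sum_univ_one]
      rfl
    · intro h _ hne
      exact absurd (h1 h) hne
    · intro h
      exact absurd (Finset.mem_univ _) h
  | succ m ih =>
    intro M p hf
    rw [Vand11_split (fun h => q ^ lam p h * ∏ i, qb q (h i + p i) (p i)) M]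
    obtain ⟨x, hx⟩ : ∃ x, x = p (Fin.last (m + 1)) := ⟨_, rfl⟩
    obtain ⟨p', hp'⟩ : ∃ p' : Fin (m + 1) → ℕ, p' = fun j => p j.castSucc := ⟨_, rfl⟩
    obtain ⟨P', hP'⟩ : ∃ P', P' = ∑ i, p' i := ⟨_, rfl⟩
    have hP : ∑ i, p i = P' + x := by
      rw [Fin.sum_univ_castSucc, hP', hp', hx]
    rw [hP] at hf ⊢
    have h1 : ∀ k ∈ Finset.range (M + 1),
        ∑ h : Vn (m + 1) (M - k), (fun h : Fin (m + 1 + 1) → ℕ =>
          q ^ lam p h * ∏ i, qb q (h i + p i) (p i)) (Fin.snoc (α := fun _ => ℕ) h.val k) =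
        q ^ (((M : ℤ) - k) * ((x : ℤ) + 1) - (k : ℤ) * (((P' + m : ℕ) : ℤ) + 1)) *
          (qb q (k + x) x * qb q (M - k + (P' + m)) (P' + m)) := by
      intro k hk
      rw [Finset.mem_range] at hk
      have h2 : ∀ h : Vn (m + 1) (M - k), (fun h : Fin (m + 1 + 1) → ℕ =>
          q ^ lam p h * ∏ i, qb q (h i + p i) (p i)) (Fin.snoc (α := fun _ => ℕ) h.val k) =
          (q ^ (((M : ℤ) - k) * ((x : ℤ) + 1) - (k : ℤ) * (((P' + m : ℕ) : ℤ) + 1)) *
            qb q (k + x) x) * (q ^ lam p' h.val * ∏ i, qb q (h.val i + p' i) (p' i)) := by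
        intro h
        have h3 : lam p (Fin.snoc (α := fun _ => ℕ) h.val k) = lam p' h.val +
            (((M : ℤ) - k) * ((x : ℤ) + 1) - (k : ℤ) * (((P' + m : ℕ) : ℤ) + 1)) := by
          rw [Vand11_lam_snoc, h.sum, ← hx, Nat.cast_sub (by omega : k ≤ M)]
          rw [← hp']
          have h4 : Finset.univ.sum p' = P' := hP'.symm
          rw [h4]
          push_cast
          ring
        have h5 : ∏ i, qb q ((Fin.snoc (α := fun _ => ℕ) h.val k : Fin (m + 1 + 1) → ℕ) i + p i)
            (p i) = (∏ i, qb q (h.val i + p' i) (p' i)) * qb q (k + x) x := by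
          rw [Fin.prod_univ_castSucc]
          simp only [Fin.snoc_castSucc, Fin.snoc_last]
          rw [hp', hx]
        change q ^ lam p (Fin.snoc (α := fun _ => ℕ) h.val k) *
          ∏ i, qb q ((Fin.snoc (α := fun _ => ℕ) h.val k : Fin (m + 1 + 1) → ℕ) i + p i) (p i) = _
        rw [h3, h5, zpow_add₀ hq]
        ring
      rw [Finset.sum_congr rfl fun h _ => h2 h, ← Finset.mul_sum, ih (M - k) p' ?_, ← hP']
      · rw [mul_assoc, Nat.add_assoc]
      · intro j hj
        rw [← hP'] at hj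
        exact hf j (by omega)
    rw [Finset.sum_congr rfl h1, qb_vand q hq x (P' + m) M fun j hj => hf j (by omega)]
    congr 1 <;> omega

theorem vand (q : ℂ) (hq : q ≠ 0) (hn : 1 ≤ n) (M : ℕ) (p : Fin n → ℕ)
    (hf : ∀ j ≤ M + ∑ i, p i + (n - 1), qf q j ≠ 0) :
    ∑ h : Vn n M, q ^ lam p h.val * ∏ i, qb q (h.val i + p i) (p i) =
      qb q (M + ∑ i, p i + (n - 1)) (∑ i, p i + (n - 1)) := by
  obtain ⟨m, rfl⟩ : ∃ m, n = m + 1 := ⟨n - 1, by omega⟩
  rw [Nat.add_sub_cancel] at hf ⊢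
  exact Vand11_vand q hq m M p hf

theorem vand_shift (q : ℂ) (hq : q ≠ 0) (hn : 1 ≤ n) (M M' : ℕ) (p κ : Fin n → ℕ)
    (hκ : ∀ i, κ i ≤ p i) (hM : ∑ i, κ i + M' = M)
    (hf : ∀ j ≤ M + ∑ i, p i + (n - 1), qf q j ≠ 0) :
    ∑ h : Vn n M, q ^ lam p h.val * ∏ i, qb q (h.val i + (p i - κ i)) (p i) =
      q ^ lam p κ * qb q (M' + ∑ i, p i + (n - 1)) (∑ i, p i + (n - 1)) := by
  classical
  have hv := vand q hq hn M' p fun j hj => hf j (by omega)
  rw [← hv, ← sum_Vn (fun h => q ^ lam p h * ∏ i, qb q (h i + p i) (p i)),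
    ← sum_Vn (fun h => q ^ lam p h * ∏ i, qb q (h i + (p i - κ i)) (p i)), Finset.mul_sum]
  have hlam : ∀ h : Fin n → ℕ, lam p (h + κ) = lam p κ + lam p h := by
    intro h
    unfold lam
    rw [← Finset.sum_add_distrib]
    refine Finset.sum_congr rfl fun i _ => ?_
    simp only [Pi.add_apply, Nat.cast_add]
    ring
  have hterm : ∀ h : Fin n → ℕ,
      q ^ lam p κ * (q ^ lam p h * ∏ i, qb q (h i + p i) (p i)) =
        q ^ lam p (h + κ) * ∏ i, qb q ((h + κ) i + (p i - κ i)) (p i) := by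
    intro h
    rw [hlam, zpow_add₀ hq, mul_assoc]
    congr 2
    refine Finset.prod_congr rfl fun i _ => ?_
    have h1 : (h + κ) i + (p i - κ i) = h i + p i := by
      have := hκ i
      simp only [Pi.add_apply]
      omega
    rw [h1]
  rw [Finset.sum_congr rfl fun h _ => hterm h]
  have hinj : Set.InjOn (fun h : Fin n → ℕ => h + κ)
      (Finset.piAntidiag (Finset.univ : Finset (Fin n)) M' : Finset (Fin n → ℕ)) := by
    intro h _ h' _ he
    exact add_right_cancel he
  rw [← Finset.sum_image (g := fun h : Fin n → ℕ => h + κ)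
    (f := fun h => q ^ lam p h * ∏ i, qb q (h i + (p i - κ i)) (p i)) hinj]
  symm
  refine Finset.sum_subset ?_ ?_
  · intro h hh
    obtain ⟨h', hh', rfl⟩ := Finset.mem_image.1 hh
    rw [Finset.mem_piAntidiag] at hh' ⊢
    refine ⟨?_, fun _ _ => Finset.mem_univ _⟩
    simp only [Pi.add_apply, Finset.sum_add_distrib]
    rw [hh'.1]
    omega
  · intro h hh hne
    rw [Finset.mem_piAntidiag] at hh
    have h1 : ∃ i, h i < κ i := by
      by_contra hcon
      push Not at hcon
      apply hne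
      rw [Finset.mem_image]
      refine ⟨fun i => h i - κ i, ?_, ?_⟩
      · rw [Finset.mem_piAntidiag]
        refine ⟨?_, fun _ _ => Finset.mem_univ _⟩
        have h2 : ∑ i, (h i - κ i) + ∑ i, κ i = ∑ i, h i := by
          rw [← Finset.sum_add_distrib]
          refine Finset.sum_congr rfl fun i _ => ?_
          have := hcon i
          omega
        have h3 : ∑ i, h i = M := hh.1
        omega
      · funext i
        have := hcon i
        simp only [Pi.add_apply]
        omega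
    obtain ⟨i, hi⟩ := h1
    rw [Finset.prod_eq_zero (Finset.mem_univ i), mul_zero]
    apply qb_lt
    have := hκ i
    omega

/-- The quantum dimension of `V_N`. -/
theorem sum_wt (q : ℂ) (N : ℕ) (hg : Gen q n N) (hn : 1 ≤ n) :
    ∑ a : Vn n N, wt q a.val = dimS n N q := by
  obtain ⟨m, rfl⟩ : ∃ m, n = m + 1 := ⟨n - 1, by omega⟩
  have hq : q ≠ 0 := hg.1
  have h1 := Vand11_vand q hq m N (fun _ => 0) fun j hj => hg.qf_ne hn (by
    rw [Finset.sum_const_zero] at hj
    omega)
  rw [Finset.sum_const_zero, Nat.add_zero, Nat.zero_add] at h1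
  have h2 : ∀ a : Vn (m + 1) N, q ^ lam (fun _ => 0) a.val *
      ∏ i, qb q (a.val i + (fun _ : Fin (m + 1) => 0) i) ((fun _ : Fin (m + 1) => 0) i) =
      wt q a.val := by
    intro a
    have h3 : lam (fun _ => 0) a.val =
        ∑ i : Fin (m + 1), (a.val i : ℤ) * (((m + 1 : ℕ) : ℤ) - 1 - 2 * (i : ℕ)) := by
      unfold lam
      refine Finset.sum_congr rfl fun i _ => ?_
      have h4 : hi (fun _ : Fin (m + 1) => 0) i = 0 := by simp [hi]
      have h5 : lo (fun _ : Fin (m + 1) => 0) i = 0 := by simp [lo]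
      rw [h4, h5]
      ring
    rw [h3, Finset.prod_eq_one fun i _ => qb_zero_right q _, mul_one]
    rfl
  rw [Finset.sum_congr rfl fun a _ => h2 a] at h1
  rw [h1]
  have hm : ∀ j ≤ N + m, qf q j ≠ 0 := fun j hj => hg.qf_ne hn (by omega)
  have h3 := qb_fac q hq (N + m) m (by omega)
  rw [Nat.add_sub_cancel] at h3
  have h4 : ∀ k ≤ N, dimS (m + 1) k q * (qf q m * qf q k) = qf q (k + m) := by
    intro k
    induction k with
    | zero =>
      intro _
      rw [Nat.zero_add, qf_zero, mul_one]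
      simp [dimS]
    | succ k ih =>
      intro hk
      have h5 := ih (by omega)
      have h6 : qn q ((k : ℤ) + 1) ≠ 0 := hg.qn_ne hn (by omega) (by omega)
      have h7 : br q 1 ≠ 0 := hg.br_one hn
      have h8 : br q ((k : ℤ) + 1) ≠ 0 := hg.br_ne (by omega) (by omega)
      have h9 : dimS (m + 1) (k + 1) q = dimS (m + 1) k q *
          (br q (((m + 1 : ℕ) : ℤ) + k) / br q ((k : ℤ) + 1)) := by
        unfold dimS
        rw [Finset.prod_range_succ]
      have h10 : k + 1 + m = (k + m) + 1 := by ring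
      rw [h9, qf_succ, h10, qf_succ, ← h5]
      have h11 : ((k + m : ℕ) : ℤ) + 1 = ((m + 1 : ℕ) : ℤ) + k := by
        push_cast
        ring
      rw [h11]
      unfold qn
      field_simp
  have h5 := h4 N le_rfl
  have h6 : qf q m * qf q N ≠ 0 := mul_ne_zero (hm m (by omega)) (hm N (by omega))
  exact mul_right_cancel₀ h6 (h3.trans h5.symm)

theorem sum_wt_inv (q : ℂ) (N : ℕ) (hg : Gen q n N) (hn : 1 ≤ n) :
    ∑ a : Vn n N, (wt q a.val)⁻¹ = dimS n N q := by
  rw [← sum_wt q N hg hn, ← Equiv.sum_comp (Vn.revE n N) fun a => wt q a.val]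
  refine Finset.sum_congr rfl fun a _ => ?_
  exact (wt_rev a.val).symm

end Pool.Agent.H63.VC11

end

section

/-! # Sums with the `6j`-symbols -/

namespace Pool.Agent.H63.VC11

open Pool.Agent.H63.VC7 Pool.Agent.H63.VC8

noncomputable def om (q : ℂ) (n t l : ℕ) : ℂ :=
  ∏ i ∈ Finset.range t, (qn q ((n : ℤ) + l + i - 1) * qn q ((l : ℤ) - i))

theorem Ker11_om_zero (q : ℂ) (n l : ℕ) : om q n 0 l = 1 := by
  simp [om]

theorem Ker11_om_succ (q : ℂ) (n t l : ℕ) :
    om q n (t + 1) l = om q n t l * (qn q ((n : ℤ) + l + t - 1) * qn q ((l : ℤ) - t)) := by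
  simp [om, Finset.prod_range_succ]

theorem Ker11_om_lt (q : ℂ) (n t l : ℕ) (h : l < t) : om q n t l = 0 := by
  unfold om
  apply Finset.prod_eq_zero (Finset.mem_range.2 h)
  rw [sub_self, qn_zero, mul_zero]

theorem Ker11_om_closed (q : ℂ) (r t l : ℕ) (h : t ≤ l) :
    om q (r + 2) t l * (qf q (r + l) * qf q (l - t)) = qf q (r + l + t) * qf q l := by
  induction t with
  | zero => simp [Ker11_om_zero]
  | succ t ih =>
    have ih' := ih (by omega)
    have e1 : l - t = (l - (t + 1)) + 1 := by omega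
    have e2 : (((l - (t + 1) : ℕ) : ℤ) + 1) = (l : ℤ) - t := by omega
    rw [e1, qf_succ, e2] at ih'
    rw [Ker11_om_succ, show r + l + (t + 1) = (r + l + t) + 1 by ring, qf_succ]
    have e3 : (((r + 2 : ℕ) : ℤ) + l + t - 1) = (((r + l + t : ℕ) : ℤ) + 1) := by
      push_cast
      ring
    rw [e3]
    calc om q (r + 2) t l * (qn q (((r + l + t : ℕ) : ℤ) + 1) * qn q ((l : ℤ) - t)) *
          (qf q (r + l) * qf q (l - (t + 1)))
        = (om q (r + 2) t l * (qf q (r + l) * (qf q (l - (t + 1)) * qn q ((l : ℤ) - t)))) *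
          qn q (((r + l + t : ℕ) : ℤ) + 1) := by ring
      _ = qf q (r + l + t) * qn q (((r + l + t : ℕ) : ℤ) + 1) * qf q l := by
          rw [ih']
          ring

theorem Ker11_br_div (q : ℂ) (h1 : br q 1 ≠ 0) (a b : ℤ) : br q a / br q b = qn q a / qn q b := by
  unfold qn
  rw [div_div_div_cancel_right₀ h1]

theorem Ker11_prod (q : ℂ) (r N : ℕ) (h : Gen q (r + 2) N) (l : ℕ) (hl : l ≤ N) :
    ∏ i ∈ Finset.range l, (qn q ((r : ℤ) + 1 + i) / qn q ((i : ℤ) + 1))
      = qf q (r + l) / (qf q r * qf q l) := by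
  induction l with
  | zero =>
    have := h.qf_ne (by omega) (k := r) (by omega)
    simp only [Finset.range_zero, Finset.prod_empty, add_zero, qf_zero, mul_one]
    rw [div_self this]
  | succ l ih =>
    have h1 := h.qf_ne (by omega) (k := r) (by omega)
    have h2 := h.qf_ne (by omega) (k := l) (by omega)
    have h3 := h.qn_ne (by omega) (a := (l : ℤ) + 1) (by omega) (by push_cast; omega)
    rw [Finset.prod_range_succ, ih (by omega), ← add_assoc, qf_succ, qf_succ,
      show (((r + l : ℕ) : ℤ) + 1) = (r : ℤ) + 1 + l by push_cast; ring]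
    field_simp

theorem Ker11_dimA (q : ℂ) (r N : ℕ) (h : Gen q (r + 2) N) (l : ℕ) (hl : l ≤ N) :
    dimA (r + 2) q l = qn q ((r : ℤ) + 2 * l + 1) / qn q ((r : ℤ) + 1) *
      (qf q (r + l) / (qf q r * qf q l)) ^ 2 := by
  have hb := h.br_one (by omega)
  unfold dimA
  rw [Finset.prod_pow, ← Ker11_prod q r N h l hl, Ker11_br_div q hb]
  congr 1
  · congr 1
    · congr 1
      push_cast
      ring
    · congr 1
      push_cast
      ring
  · congr 1
    refine Finset.prod_congr rfl fun i _ => ?_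
    rw [Ker11_br_div q hb]
    congr 2
    push_cast
    ring

theorem sixn_om (q : ℂ) (n N : ℕ) (h : Gen q n N) (hn : 2 ≤ n) (k l : ℕ) :
    sixn n q N k l = ∑ t ∈ Finset.range (N + 1), (-1) ^ t *
      (qf q (n - 2) * qf q (N + n - 1) * qf q (N - t) /
        (qf q t * qf q (n + t - 2) * qf q (N + n + t - 1) * qf q N)) *
      (om q n t k * om q n t l) := by
  obtain ⟨r, rfl⟩ : ∃ r, n = r + 2 := ⟨n - 2, by omega⟩
  have hb := h.br_one (by omega)
  unfold sixn
  refine Finset.sum_congr rfl fun t ht => ?_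
  have ht' : t ≤ N := Nat.lt_succ_iff.1 (Finset.mem_range.1 ht)
  rw [mul_assoc]
  congr 1
  clear ht
  induction t with
  | zero =>
    have h1 := h.qf_ne (by omega) (k := r) (by omega)
    have h2 := h.qf_ne (by omega) (k := N + r + 1) (by omega)
    have h3 := h.qf_ne (by omega) (k := N) (by omega)
    simp only [Finset.range_zero, Finset.prod_empty, Ker11_om_zero, qf_zero, Nat.add_zero,
      Nat.sub_zero, mul_one, one_mul, Nat.add_sub_cancel]
    rw [show N + (r + 2) - 1 = N + r + 1 by omega]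
    field_simp
  | succ t ih =>
    have h1 := h.qf_ne (by omega) (k := r) (by omega)
    have h2 := h.qf_ne (by omega) (k := N + r + 1) (by omega)
    have h3 := h.qf_ne (by omega) (k := N) (by omega)
    have h4 := h.qf_ne (by omega) (k := t) (by omega)
    have h5 := h.qf_ne (by omega) (k := r + t) (by omega)
    have h6 := h.qf_ne (by omega) (k := N + r + t + 1) (by omega)
    have h7 := h.qn_ne (by omega) (a := (t : ℤ) + 1) (by omega) (by push_cast; omega)
    have h8 := h.qn_ne (by omega) (a := (r : ℤ) + t + 1) (by omega) (by push_cast; omega)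
    have h9 := h.qn_ne (by omega) (a := (N : ℤ) + r + t + 2) (by omega) (by push_cast; omega)
    have h10 := h.qn_ne (by omega) (a := (N : ℤ) - t) (by omega) (by push_cast; omega)
    have ih' := ih (by omega)
    rw [Finset.prod_range_succ, ih', Ker11_om_succ, Ker11_om_succ]
    have e1 : N - t = (N - (t + 1)) + 1 := by omega
    have e2 : (((N - (t + 1) : ℕ) : ℤ) + 1) = (N : ℤ) - t := by omega
    have f1 : qf q (N - t) = qf q (N - (t + 1)) * qn q ((N : ℤ) - t) := by
      rw [e1, qf_succ, e2]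
    have f2 : qf q (t + 1) = qf q t * qn q ((t : ℤ) + 1) := qf_succ q t
    have f3 : qf q (r + 2 + (t + 1) - 2) = qf q (r + t) * qn q ((r : ℤ) + t + 1) := by
      rw [show r + 2 + (t + 1) - 2 = (r + t) + 1 by omega, qf_succ]
      congr 2
    have f4 : qf q (N + (r + 2) + (t + 1) - 1) = qf q (N + r + t + 1) * qn q ((N : ℤ) + r + t + 2) := by
      rw [show N + (r + 2) + (t + 1) - 1 = (N + r + t + 1) + 1 by omega, qf_succ]
      congr 2
    rw [f1, f2, f3, f4, show r + 2 + t - 2 = r + t by omega,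
      show N + (r + 2) + t - 1 = N + r + t + 1 by omega]
    have g : br q (((r + 2 : ℕ) : ℤ) + k + t - 1) * br q ((k : ℤ) - t) *
        (br q (((r + 2 : ℕ) : ℤ) + l + t - 1) * br q ((l : ℤ) - t)) /
        (br q ((t : ℤ) + 1) * br q (((r + 2 : ℕ) : ℤ) + t - 1) *
          (br q (((r + 2 : ℕ) : ℤ) + N + t) * br q ((N : ℤ) - t))) =
        qn q (((r + 2 : ℕ) : ℤ) + k + t - 1) * qn q ((k : ℤ) - t) *
        (qn q (((r + 2 : ℕ) : ℤ) + l + t - 1) * qn q ((l : ℤ) - t)) /
        (qn q ((t : ℤ) + 1) * qn q ((r : ℤ) + t + 1) *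
          (qn q ((N : ℤ) + r + t + 2) * qn q ((N : ℤ) - t))) := by
      rw [show (((r + 2 : ℕ) : ℤ) + t - 1) = (r : ℤ) + t + 1 by push_cast; ring,
        show (((r + 2 : ℕ) : ℤ) + N + t) = (N : ℤ) + r + t + 2 by push_cast; ring]
      have hbb : ∀ a : ℤ, br q a = qn q a * br q 1 := by
        intro a
        unfold qn
        rw [div_mul_cancel₀ _ hb]
      rw [hbb (((r + 2 : ℕ) : ℤ) + k + t - 1), hbb ((k : ℤ) - t),
        hbb (((r + 2 : ℕ) : ℤ) + l + t - 1), hbb ((l : ℤ) - t), hbb ((t : ℤ) + 1),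
        hbb ((r : ℤ) + t + 1), hbb ((N : ℤ) + r + t + 2), hbb ((N : ℤ) - t)]
      field_simp
    rw [g]
    field_simp

theorem om_E1 (q : ℂ) (hq : q ≠ 0) (n m t l : ℕ) :
    om q n t l * E1 q n m l = qn q ((m : ℤ) - t) * qn q ((m : ℤ) + t + n - 1) * om q n t l -
      om q n (t + 1) l := by
  have h := qn_three_term q hq ((m : ℤ) + t + n - 1) ((t : ℤ) - l) ((l : ℤ) - m)
  rw [show ((t : ℤ) - l + (l - m)) = -((m : ℤ) - t) by ring,
    show ((m : ℤ) + t + n - 1 + (l - m)) = (n : ℤ) + l + t - 1 by ring,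
    show ((t : ℤ) - l) = -((l : ℤ) - t) by ring,
    show ((l : ℤ) - m) = -((m : ℤ) - l) by ring, qn_neg, qn_neg, qn_neg,
    show ((m : ℤ) + t + n - 1 - -((l : ℤ) - t)) = (m : ℤ) + l + n - 1 by ring] at h
  rw [Ker11_om_succ]
  unfold E1
  linear_combination (om q n t l) * h

theorem Ker11_H0 (q : ℂ) (r N t : ℕ) (h : Gen q (r + 2) N) (ht : t ≤ N) :
    ∑ l ∈ Finset.range (N + 1), dimA (r + 2) q l * om q (r + 2) t l =
      (qf q (N + r + 1) * qf q (N + r + t + 1)) /
        (qn q ((r : ℤ) + 1) * qf q r ^ 2 * qn q ((t : ℤ) + r + 1) * (qf q N * qf q (N - t))) := by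
  induction N with
  | zero =>
    obtain rfl : t = 0 := by omega
    have h1 := h.qf_ne (by omega) (k := r) (by omega)
    have h2 := h.qn_ne (by omega) (a := (r : ℤ) + 1) (by omega) (by push_cast; omega)
    have e : dimA (r + 2) q 0 = 1 := by
      rw [Ker11_dimA q r 0 h 0 le_rfl]
      have e1 : ((r : ℤ) + 2 * ((0 : ℕ) : ℤ) + 1) = (r : ℤ) + 1 := by push_cast; ring
      rw [e1, div_self h2, qf_zero, mul_one, Nat.add_zero, div_self h1]
      norm_num
    have e2 : (((0 : ℕ) : ℤ) + r + 1) = (r : ℤ) + 1 := by push_cast; ring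
    rw [Nat.zero_add, Finset.sum_range_one, Ker11_om_zero, e, e2, qf_zero, Nat.zero_add,
      Nat.add_zero, qf_succ]
    field_simp
  | succ N ih =>
    rw [Finset.sum_range_succ]
    have h1 := h.qf_ne (by omega) (k := r) (by omega)
    have h2 := h.qn_ne (by omega) (a := (r : ℤ) + 1) (by omega) (by push_cast; omega)
    have h3 := h.qn_ne (by omega) (a := (t : ℤ) + r + 1) (by omega) (by push_cast; omega)
    have h4 := h.qf_ne (by omega) (k := N) (by omega)
    have h5 := h.qf_ne (by omega) (k := N + 1 - t) (by omega)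
    have h6 := h.qf_ne (by omega) (k := r + (N + 1)) (by omega)
    have h7 := h.qn_ne (by omega) (a := (N : ℤ) + 1) (by omega) (by push_cast; omega)
    have hom := Ker11_om_closed q r t (N + 1) ht
    have hom' : om q (r + 2) t (N + 1) =
        qf q (r + (N + 1) + t) * qf q (N + 1) / (qf q (r + (N + 1)) * qf q (N + 1 - t)) := by
      rw [eq_div_iff (mul_ne_zero h6 h5), hom]
    have key : qn q ((N : ℤ) + r + 2) * qn q ((N : ℤ) + r + t + 2) -
        qn q ((N : ℤ) + 1) * qn q ((N : ℤ) + 1 - t) =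
        qn q ((r : ℤ) + 2 * ((N + 1 : ℕ) : ℤ) + 1) * qn q ((t : ℤ) + r + 1) := by
      have hh := qn_three_term q h.1 ((N : ℤ) + r + t + 2) ((t : ℤ) - (N + 1)) ((r : ℤ) + 2 * N + 3)
      have hh2 := qn_three_term q h.1 ((N : ℤ) + r + t + 2) (t : ℤ) (-((N : ℤ) + 1))
      have hh3 := qn_three_term q h.1 ((N : ℤ) + r + t + 2) ((t : ℤ) + r + 1) ((N : ℤ) + 1 - t)
      rw [show ((t : ℤ) + r + 1 + ((N : ℤ) + 1 - t)) = (N : ℤ) + r + 2 by ring,
        show ((N : ℤ) + r + t + 2 + ((N : ℤ) + 1 - t)) = (r : ℤ) + 2 * ((N + 1 : ℕ) : ℤ) + 1 by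
          push_cast; ring,
        show ((N : ℤ) + r + t + 2 - ((t : ℤ) + r + 1)) = (N : ℤ) + 1 by ring] at hh3
      linear_combination hh3
    have f1 : qf q (N + 1 + r + 1) = qf q (r + (N + 1)) * qn q ((N : ℤ) + r + 2) := by
      rw [show N + 1 + r + 1 = (r + (N + 1)) + 1 by ring, qf_succ]
      congr 2
      push_cast
      ring
    have f2 : qf q (N + 1 + r + t + 1) = qf q (r + (N + 1) + t) * qn q ((N : ℤ) + r + t + 2) := by
      rw [show N + 1 + r + t + 1 = (r + (N + 1) + t) + 1 by ring, qf_succ]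
      congr 2
      push_cast
      ring
    have f3 : qf q (N + 1) = qf q N * qn q ((N : ℤ) + 1) := qf_succ q N
    rw [Ker11_dimA q r (N + 1) h (N + 1) le_rfl, hom', f1, f2]
    by_cases htN : t ≤ N
    · rw [ih (h.mono (by omega)) htN]
      have h8 := h.qf_ne (by omega) (k := N - t) (by omega)
      have h9 := h.qn_ne (by omega) (a := (N : ℤ) + 1 - t) (by omega) (by push_cast; omega)
      have f4 : qf q (N + 1 - t) = qf q (N - t) * qn q ((N : ℤ) + 1 - t) := by
        rw [show N + 1 - t = (N - t) + 1 by omega, qf_succ]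
        congr 2
        omega
      rw [f4, f3, show N + r + 1 = r + (N + 1) by ring, show N + r + t + 1 = r + (N + 1) + t by ring]
      field_simp
      linear_combination -(qf q (r + (N + 1) + t)) * key
    · have htN' : t = N + 1 := by omega
      subst htN'
      have hz : ∑ l ∈ Finset.range (N + 1), dimA (r + 2) q l * om q (r + 2) (N + 1) l = 0 := by
        refine Finset.sum_eq_zero fun l hl => ?_
        rw [Ker11_om_lt q _ _ _ (Finset.mem_range.1 hl), mul_zero]
      rw [hz, zero_add, Nat.sub_self, qf_zero, f3]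
      have k0 : qn q ((N : ℤ) + 1 - ((N + 1 : ℕ) : ℤ)) = 0 := by
        rw [show ((N : ℤ) + 1 - ((N + 1 : ℕ) : ℤ)) = 0 by push_cast; ring, qn_zero]
      rw [k0, mul_zero, sub_zero] at key
      field_simp
      linear_combination -(qf q (r + (N + 1) + (N + 1))) * key

theorem H_sum (q : ℂ) (n N j t : ℕ) (h : Gen q n N) (hn : 2 ≤ n) (hj : j ≤ N) :
    ∑ l ∈ Finset.range (N + 1), dimA n q l * om q n t l * ∏ i ∈ Finset.range j, E1 q n (N - i) l =
      if t + j ≤ N then qn q ((n : ℤ) - 1) / qf q (n - 1) ^ 2 *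
        (qf q (N + n - 1) / qf q (N - j)) * (qf q (N + n + t - 1) / qf q (N - t - j)) *
        (qf q (t + n - 2) / qf q (t + j + n - 1)) * qf q j else 0 := by
  obtain ⟨r, rfl⟩ : ∃ r, n = r + 2 := ⟨n - 2, by omega⟩
  have e0 : (((r + 2 : ℕ) : ℤ) - 1) = (r : ℤ) + 1 := by push_cast; ring
  have hr1 := h.qf_ne (by omega) (k := r) (by omega)
  have hr2 := h.qn_ne (by omega) (a := (r : ℤ) + 1) (by omega) (by push_cast; omega)
  rw [e0, show r + 2 - 1 = r + 1 by omega, qf_succ]
  induction j generalizing t with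
  | zero =>
    simp only [Finset.range_zero, Finset.prod_empty, mul_one, Nat.add_zero, Nat.sub_zero, qf_zero]
    split_ifs with ht
    · rw [Ker11_H0 q r N t h ht]
      have h1 := h.qf_ne (by omega) (k := N) (by omega)
      have h2 := h.qf_ne (by omega) (k := N - t) (by omega)
      have h3 := h.qf_ne (by omega) (k := t + r) (by omega)
      have h4 := h.qn_ne (by omega) (a := (t : ℤ) + r + 1) (by omega) (by push_cast; omega)
      rw [show N + (r + 2) - 1 = N + r + 1 by omega, show N + (r + 2) + t - 1 = N + r + t + 1 by omega,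
        show t + (r + 2) - 2 = t + r by omega, show t + (r + 2) - 1 = (t + r) + 1 by omega,
        qf_succ q (t + r),
        show (((t + r : ℕ) : ℤ) + 1) = (t : ℤ) + r + 1 by push_cast; ring]
      field_simp
    · refine Finset.sum_eq_zero fun l hl => ?_
      rw [Ker11_om_lt q _ _ _ (by have := Finset.mem_range.1 hl; omega), mul_zero]
  | succ j ih =>
    have ih1 := ih t (by omega)
    have ih2 := ih (t + 1) (by omega)
    have step : ∑ l ∈ Finset.range (N + 1), dimA (r + 2) q l * om q (r + 2) t l *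
          ∏ i ∈ Finset.range (j + 1), E1 q (r + 2) (N - i) l =
        qn q (((N - j : ℕ) : ℤ) - t) * qn q (((N - j : ℕ) : ℤ) + t + ((r + 2 : ℕ) : ℤ) - 1) *
          (∑ l ∈ Finset.range (N + 1), dimA (r + 2) q l * om q (r + 2) t l *
            ∏ i ∈ Finset.range j, E1 q (r + 2) (N - i) l) -
          ∑ l ∈ Finset.range (N + 1), dimA (r + 2) q l * om q (r + 2) (t + 1) l *
            ∏ i ∈ Finset.range j, E1 q (r + 2) (N - i) l := by
      rw [Finset.mul_sum, ← Finset.sum_sub_distrib]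
      refine Finset.sum_congr rfl fun l _ => ?_
      rw [Finset.prod_range_succ]
      have hE := om_E1 q h.1 (r + 2) (N - j) t l
      linear_combination (dimA (r + 2) q l * ∏ i ∈ Finset.range j, E1 q (r + 2) (N - i) l) * hE
    rw [step, ih1, ih2]
    by_cases c1 : t + j + 1 ≤ N
    · rw [if_pos (show t + j ≤ N by omega), if_pos (show t + 1 + j ≤ N by omega),
        if_pos (show t + (j + 1) ≤ N by omega)]
      have h1 := h.qf_ne (by omega) (k := N - (j + 1)) (by omega)
      have h2 := h.qf_ne (by omega) (k := N - t - (j + 1)) (by omega)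
      have h3 := h.qf_ne (by omega) (k := t + j + r + 1) (by omega)
      have h4 := h.qn_ne (by omega) (a := (N : ℤ) - j) (by omega) (by push_cast; omega)
      have h5 := h.qn_ne (by omega) (a := (N : ℤ) - t - j) (by omega) (by push_cast; omega)
      have h6 := h.qn_ne (by omega) (a := (t : ℤ) + j + r + 2) (by omega) (by push_cast; omega)
      have f1 : qf q (N - j) = qf q (N - (j + 1)) * qn q ((N : ℤ) - j) := by
        rw [show N - j = (N - (j + 1)) + 1 by omega, qf_succ]
        congr 2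
        omega
      have f2 : qf q (N - t - j) = qf q (N - t - (j + 1)) * qn q ((N : ℤ) - t - j) := by
        rw [show N - t - j = (N - t - (j + 1)) + 1 by omega, qf_succ]
        congr 2
        omega
      have f3 : qf q (N + (r + 2) + (t + 1) - 1) = qf q (N + r + t + 1) * qn q ((N : ℤ) + r + t + 2) := by
        rw [show N + (r + 2) + (t + 1) - 1 = (N + r + t + 1) + 1 by omega, qf_succ]
        congr 2
      have f4 : qf q (t + 1 + (r + 2) - 2) = qf q (t + r) * qn q ((t : ℤ) + r + 1) := by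
        rw [show t + 1 + (r + 2) - 2 = (t + r) + 1 by omega, qf_succ]
        congr 2
      have f5 : qf q (t + 1 + j + (r + 2) - 1) = qf q (t + j + r + 1) * qn q ((t : ℤ) + j + r + 2) := by
        rw [show t + 1 + j + (r + 2) - 1 = (t + j + r + 1) + 1 by omega, qf_succ]
        congr 2
      have f6 : qf q (t + (j + 1) + (r + 2) - 1) = qf q (t + j + r + 1) * qn q ((t : ℤ) + j + r + 2) := by
        rw [show t + (j + 1) + (r + 2) - 1 = (t + j + r + 1) + 1 by omega, qf_succ]
        congr 2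
      have f7 : qf q (j + 1) = qf q j * qn q ((j : ℤ) + 1) := qf_succ q j
      have g1 : (((N - j : ℕ) : ℤ) - t) = (N : ℤ) - t - j := by omega
      have g2 : (((N - j : ℕ) : ℤ) + t + ((r + 2 : ℕ) : ℤ) - 1) = (N : ℤ) - j + t + r + 1 := by omega
      have key : qn q ((N : ℤ) - j + t + r + 1) * qn q ((t : ℤ) + j + r + 2) -
          qn q ((N : ℤ) + r + t + 2) * qn q ((t : ℤ) + r + 1) =
          qn q ((N : ℤ) - j) * qn q ((j : ℤ) + 1) := by
        have hh := qn_three_term q h.1 ((N : ℤ) - j + t + r + 1) ((t : ℤ) + r + 1) ((j : ℤ) + 1)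
        rw [show ((t : ℤ) + r + 1 + ((j : ℤ) + 1)) = (t : ℤ) + j + r + 2 by ring,
          show ((N : ℤ) - j + t + r + 1 + ((j : ℤ) + 1)) = (N : ℤ) + r + t + 2 by ring,
          show ((N : ℤ) - j + t + r + 1 - ((t : ℤ) + r + 1)) = (N : ℤ) - j by ring] at hh
        linear_combination hh
      rw [f1, f2, f3, f4, f5, f6, f7, g1, g2, show N + (r + 2) + t - 1 = N + r + t + 1 by omega,
        show t + (r + 2) - 2 = t + r by omega, show t + j + (r + 2) - 1 = t + j + r + 1 by omega,
        show N - (t + 1) - j = N - t - (j + 1) by omega]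
      field_simp
      linear_combination (qf q (N + (r + 2) - 1) * qf q (N + r + t + 1) * qf q (t + r) * qf q j) * key
    · rw [if_neg (show ¬ t + 1 + j ≤ N by omega), if_neg (show ¬ t + (j + 1) ≤ N by omega)]
      by_cases c2 : t + j ≤ N
      · rw [if_pos c2, show (((N - j : ℕ) : ℤ) - t) = 0 by omega, qn_zero]
        ring
      · rw [if_neg c2]
        ring

end Pool.Agent.H63.VC11

end

section

/-! # Sums with the `6j`-symbols, II -/

namespace Pool.Agent.H63.VC11

open Pool.Agent.H63.VC7 Pool.Agent.H63.VC8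

private theorem KerB11_qf (q : ℂ) (k l : ℕ) (h : l = k + 1) {a : ℤ} (ha : a = (k : ℤ) + 1) :
    qf q l = qf q k * qn q a := by
  rw [h, ha, qf_succ]

/-- the coefficient of `om q n t l` -/
private noncomputable def kcf (q : ℂ) (n N i t : ℕ) : ℂ := (-1) ^ t *
      (qf q i / (qf q t * qf q (i - t))) * (qf q (N - t) / qf q (N - i)) *
      (qf q (N + n - 1) / qf q (N + n - 1 - i + t))

/-- a common factor -/
private noncomputable def kcd (q : ℂ) (n N i t : ℕ) : ℂ := (-1) ^ t *
      (qf q i / (qf q t * qf q (i + 1 - t))) * (qf q (N - t) / qf q (N - i)) *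
      (qf q (N + n - 1) / qf q (N + n - 1 - (i + 1) + t))

private theorem kcf_u (q : ℂ) (n N i t : ℕ) (h : Gen q n N) (hn : 2 ≤ n) (hi : i + 1 ≤ N)
    (ht : t ≤ i) :
    kcf q n N i t * (qn q (((N - i : ℕ) : ℤ) - t) * qn q (((N - i : ℕ) : ℤ) + t + n - 1)) =
      kcd q n N i t * (qn q ((i : ℤ) + 1 - t) * qn q ((N : ℤ) - i - t)) := by
  have h1 : qf q (i + 1 - t) = qf q (i - t) * qn q ((i : ℤ) + 1 - t) :=
    KerB11_qf q _ _ (by omega) (by omega)
  have h2 : qf q (N + n - 1 - i + t) =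
      qf q (N + n - 1 - (i + 1) + t) * qn q (((N - i : ℕ) : ℤ) + t + n - 1) :=
    KerB11_qf q _ _ (by omega) (by omega)
  have h3 : ((N - i : ℕ) : ℤ) - t = (N : ℤ) - i - t := by omega
  have n1 : qn q ((i : ℤ) + 1 - t) ≠ 0 := h.qn_ne (by omega) (by omega) (by omega)
  have n2 : qn q (((N - i : ℕ) : ℤ) + t + n - 1) ≠ 0 := h.qn_ne (by omega) (by omega) (by omega)
  have n3 : qf q t ≠ 0 := h.qf_ne (by omega) (by omega)
  have n4 : qf q (i - t) ≠ 0 := h.qf_ne (by omega) (by omega)
  have n5 : qf q (N - i) ≠ 0 := h.qf_ne (by omega) (by omega)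
  have n6 : qf q (N + n - 1 - (i + 1) + t) ≠ 0 := h.qf_ne (by omega) (by omega)
  unfold kcf kcd
  rw [h1, h2, h3]
  field_simp

private theorem kcf_v (q : ℂ) (n N i t : ℕ) (h : Gen q n N) (hn : 2 ≤ n) (hi : i + 1 ≤ N)
    (ht : t ≤ i) :
    kcd q n N i (t + 1) * (qn q ((t : ℤ) + 1) * qn q ((N : ℤ) - t)) = -kcf q n N i t := by
  have h1 : qf q (t + 1) = qf q t * qn q ((t : ℤ) + 1) := qf_succ q t
  have h2 : qf q (N - t) = qf q (N - (t + 1)) * qn q ((N : ℤ) - t) :=
    KerB11_qf q _ _ (by omega) (by omega)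
  have h3 : i + 1 - (t + 1) = i - t := by omega
  have h4 : N + n - 1 - (i + 1) + (t + 1) = N + n - 1 - i + t := by omega
  have n1 : qn q ((t : ℤ) + 1) ≠ 0 := h.qn_ne (by omega) (by omega) (by omega)
  have n3 : qf q t ≠ 0 := h.qf_ne (by omega) (by omega)
  have n4 : qf q (i - t) ≠ 0 := h.qf_ne (by omega) (by omega)
  have n5 : qf q (N - i) ≠ 0 := h.qf_ne (by omega) (by omega)
  have n6 : qf q (N + n - 1 - i + t) ≠ 0 := h.qf_ne (by omega) (by omega)
  unfold kcf kcd
  rw [h3, h4, h1, h2, pow_succ]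
  field_simp

private theorem kcf_uv (q : ℂ) (n N i t : ℕ) (h : Gen q n N) (hn : 2 ≤ n) (hi : i + 1 ≤ N)
    (ht : t ≤ i + 1) :
    kcf q n N (i + 1) t = kcd q n N i t * (qn q ((i : ℤ) + 1 - t) * qn q ((N : ℤ) - i - t)) +
      kcd q n N i t * (qn q (t : ℤ) * qn q ((N : ℤ) - t + 1)) := by
  have h1 : qf q (i + 1) = qf q i * qn q ((i : ℤ) + 1) := qf_succ q i
  have h2 : qf q (N - i) = qf q (N - (i + 1)) * qn q ((N : ℤ) - i) :=
    KerB11_qf q _ _ (by omega) (by omega)
  have n1 : qn q ((N : ℤ) - i) ≠ 0 := h.qn_ne (by omega) (by omega) (by omega)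
  have n3 : qf q t ≠ 0 := h.qf_ne (by omega) (by omega)
  have n4 : qf q (i + 1 - t) ≠ 0 := h.qf_ne (by omega) (by omega)
  have n5 : qf q (N - (i + 1)) ≠ 0 := h.qf_ne (by omega) (by omega)
  have n6 : qf q (N + n - 1 - (i + 1) + t) ≠ 0 := h.qf_ne (by omega) (by omega)
  have key : qn q ((i : ℤ) + 1) * qn q ((N : ℤ) - i) =
      qn q ((i : ℤ) + 1 - t) * qn q ((N : ℤ) - i - t) + qn q (t : ℤ) * qn q ((N : ℤ) - t + 1) := by
    have h3 := qn_three_term q h.1 ((N : ℤ) - t + 1) ((N : ℤ) - i) (-((N : ℤ) - i - t))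
    rw [qn_neg, show (N : ℤ) - i + -((N : ℤ) - i - t) = t by ring,
      show (N : ℤ) - t + 1 + -((N : ℤ) - i - t) = (i : ℤ) + 1 by ring,
      show (N : ℤ) - t + 1 - ((N : ℤ) - i) = (i : ℤ) + 1 - t by ring] at h3
    linear_combination -h3
  unfold kcf kcd
  rw [h1, h2, ← mul_add, ← key]
  field_simp

theorem EE_om (q : ℂ) (n N i l : ℕ) (h : Gen q n N) (hn : 2 ≤ n) (hi : i ≤ N) :
    ∏ s ∈ Finset.range i, E1 q n (N - s) l = ∑ t ∈ Finset.range (i + 1), (-1) ^ t *
      (qf q i / (qf q t * qf q (i - t))) * (qf q (N - t) / qf q (N - i)) *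
      (qf q (N + n - 1) / qf q (N + n - 1 - i + t)) * om q n t l := by
  show _ = ∑ t ∈ Finset.range (i + 1), kcf q n N i t * om q n t l
  induction i with
  | zero =>
    have n5 : qf q N ≠ 0 := h.qf_ne (by omega) (by omega)
    have n6 : qf q (N + n - 1) ≠ 0 := h.qf_ne (by omega) (by omega)
    simp only [Finset.range_zero, Finset.prod_empty, zero_add, Finset.sum_range_one, kcf, om,
      Nat.sub_zero, Nat.add_zero, qf_zero, pow_zero, mul_one, div_self n5, div_self n6, div_one]
  | succ i ih =>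
    rw [Finset.prod_range_succ, ih (by omega), Finset.sum_mul]
    have hu : ∑ t ∈ Finset.range (i + 2), kcd q n N i t *
        (qn q ((i : ℤ) + 1 - t) * qn q ((N : ℤ) - i - t)) * om q n t l =
        ∑ t ∈ Finset.range (i + 1), kcd q n N i t *
        (qn q ((i : ℤ) + 1 - t) * qn q ((N : ℤ) - i - t)) * om q n t l := by
      rw [Finset.sum_range_succ]
      rw [show (i : ℤ) + 1 - ((i + 1 : ℕ) : ℤ) = 0 by push_cast; ring, qn_zero]
      ring
    have hv : ∑ t ∈ Finset.range (i + 2), kcd q n N i t *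
        (qn q (t : ℤ) * qn q ((N : ℤ) - t + 1)) * om q n t l =
        ∑ t ∈ Finset.range (i + 1), -kcf q n N i t * om q n (t + 1) l := by
      rw [Finset.sum_range_succ']
      rw [show ((0 : ℕ) : ℤ) = 0 by norm_num, qn_zero, zero_mul, mul_zero, zero_mul, add_zero]
      refine Finset.sum_congr rfl fun t ht => ?_
      rw [← kcf_v q n N i t h hn hi (by have := Finset.mem_range.1 ht; omega)]
      rw [show ((t + 1 : ℕ) : ℤ) = (t : ℤ) + 1 by push_cast; ring,
        show (N : ℤ) - ((t : ℤ) + 1) + 1 = (N : ℤ) - t by ring]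
    have hsum : ∑ t ∈ Finset.range (i + 1 + 1), kcf q n N (i + 1) t * om q n t l =
        ∑ t ∈ Finset.range (i + 2), kcd q n N i t *
        (qn q ((i : ℤ) + 1 - t) * qn q ((N : ℤ) - i - t)) * om q n t l +
        ∑ t ∈ Finset.range (i + 2), kcd q n N i t *
        (qn q (t : ℤ) * qn q ((N : ℤ) - t + 1)) * om q n t l := by
      rw [← Finset.sum_add_distrib]
      refine Finset.sum_congr rfl fun t ht => ?_
      rw [kcf_uv q n N i t h hn hi (by have := Finset.mem_range.1 ht; omega)]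
      ring
    rw [hsum, hu, hv, ← Finset.sum_add_distrib]
    refine Finset.sum_congr rfl fun t ht => ?_
    have ht' : t ≤ i := by have := Finset.mem_range.1 ht; omega
    rw [mul_assoc, om_E1 q h.1, ← kcf_u q n N i t h hn hi ht']
    ring

private theorem KerB11_dimS (q : ℂ) (n N : ℕ) (h : Gen q n N) (hn : 2 ≤ n) :
    dimS n N q = qf q (N + n - 1) / (qf q (n - 1) * qf q N) := by
  have hb : br q 1 ≠ 0 := h.br_one (by omega)
  have hM : ∀ M : ℕ, M ≤ N → dimS n M q = qf q (M + n - 1) / (qf q (n - 1) * qf q M) := by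
    intro M
    induction M with
    | zero =>
      intro _
      have n5 : qf q (n - 1) ≠ 0 := h.qf_ne (by omega) (by omega)
      unfold dimS
      rw [Finset.range_zero, Finset.prod_empty, qf_zero, mul_one, Nat.zero_add, div_self n5]
    | succ M ih =>
      intro hM
      have e1 : dimS n (M + 1) q = dimS n M q * (br q ((n : ℤ) + M) / br q ((M : ℤ) + 1)) := by
        unfold dimS
        rw [Finset.prod_range_succ]
      have e2 : br q ((n : ℤ) + M) / br q ((M : ℤ) + 1) =
          qn q ((n : ℤ) + M) / qn q ((M : ℤ) + 1) := by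
        unfold qn
        rw [div_div_div_cancel_right₀ hb]
      have e3 : qf q (M + 1 + n - 1) = qf q (M + n - 1) * qn q ((n : ℤ) + M) :=
        KerB11_qf q _ _ (by omega) (by omega)
      have n5 : qf q (n - 1) ≠ 0 := h.qf_ne (by omega) (by omega)
      have n6 : qf q M ≠ 0 := h.qf_ne (by omega) (by omega)
      have n7 : qn q ((M : ℤ) + 1) ≠ 0 := h.qn_ne (by omega) (by omega) (by omega)
      rw [e1, ih (by omega), e2, e3, qf_succ q M]
      field_simp
  exact hM N le_rfl

theorem sixn_EE (q : ℂ) (n N j X : ℕ) (h : Gen q n N) (hn : 2 ≤ n) (hj : j ≤ N) :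
    ∑ Y ∈ Finset.range (N + 1), dimA n q Y / dimS n N q * sixn n q N X Y * EE q n N j Y =
      EE q n N (N - j) X := by
  have hEE : ∀ i Y : ℕ, EE q n N i Y =
      (∏ s ∈ Finset.range i, E1 q n (N - s) Y) / qf q i ^ 2 := by
    intro i Y
    unfold EE qf
    rw [Finset.prod_div_distrib, Finset.prod_pow]
  have nf : ∀ k : ℕ, k ≤ 4 * N + 2 * n → qf q k ≠ 0 := fun k hk => h.qf_ne (by omega) hk
  have n1 := nf (n - 1) (by omega)
  have n2 := nf (n - 2) (by omega)
  have n3 := nf (N + n - 1) (by omega)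
  have n4 := nf N (by omega)
  have n5 := nf j (by omega)
  have n6 := nf (N - j) (by omega)
  have n7 : qn q ((n : ℤ) - 1) ≠ 0 := h.qn_ne (by omega) (by omega) (by omega)
  have hn1 : qf q (n - 1) = qf q (n - 2) * qn q ((n : ℤ) - 1) :=
    KerB11_qf q _ _ (by omega) (by omega)
  set C : ℕ → ℂ := fun t => (-1) ^ t *
      (qf q (n - 2) * qf q (N + n - 1) * qf q (N - t) /
        (qf q t * qf q (n + t - 2) * qf q (N + n + t - 1) * qf q N)) with hC
  have hL : ∑ Y ∈ Finset.range (N + 1), dimA n q Y / dimS n N q * sixn n q N X Y * EE q n N j Y =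
      ∑ t ∈ Finset.range (N + 1), (C t * om q n t X / (dimS n N q * qf q j ^ 2)) *
        ∑ Y ∈ Finset.range (N + 1),
          dimA n q Y * om q n t Y * ∏ i ∈ Finset.range j, E1 q n (N - i) Y := by
    simp only [Finset.mul_sum]
    rw [Finset.sum_comm]
    refine Finset.sum_congr rfl fun Y _ => ?_
    rw [sixn_om q n N h hn, hEE, Finset.mul_sum, Finset.sum_mul]
    refine Finset.sum_congr rfl fun t _ => ?_
    rw [hC]
    ring
  rw [hL]
  have hR : EE q n N (N - j) X = ∑ t ∈ Finset.range (N - j + 1),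
      (-1) ^ t * (qf q (N - j) / (qf q t * qf q (N - j - t))) * (qf q (N - t) / qf q (N - (N - j))) *
      (qf q (N + n - 1) / qf q (N + n - 1 - (N - j) + t)) * om q n t X / qf q (N - j) ^ 2 := by
    rw [hEE, EE_om q n N (N - j) X h hn (by omega), Finset.sum_div]
  rw [hR]
  have hsub : Finset.range (N - j + 1) ⊆ Finset.range (N + 1) := by
    intro t ht
    rw [Finset.mem_range] at ht ⊢
    omega
  rw [← Finset.sum_subset hsub]
  · refine Finset.sum_congr rfl fun t ht => ?_
    have ht' : t + j ≤ N := by have := Finset.mem_range.1 ht; omega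
    rw [H_sum q n N j t h hn hj, if_pos ht', KerB11_dimS q n N h hn, hC]
    have e1 : N - (N - j) = j := by omega
    have e2 : N + n - 1 - (N - j) + t = t + j + n - 1 := by omega
    have e3 : N - j - t = N - t - j := by omega
    have e4 : n + t - 2 = t + n - 2 := by omega
    beta_reduce
    rw [e1, e2, e3, e4, hn1]
    have m1 := nf t (by omega)
    have m2 := nf (N - t - j) (by omega)
    have m3 := nf (t + j + n - 1) (by omega)
    have m4 := nf (t + n - 2) (by omega)
    have m5 := nf (N + n + t - 1) (by omega)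
    have m6 := nf (N - t) (by omega)
    field_simp
  · intro t ht ht2
    have ht' : ¬ t + j ≤ N := by
      intro h2
      exact ht2 (Finset.mem_range.2 (by omega))
    rw [H_sum q n N j t h hn hj, if_neg ht', mul_zero]

end Pool.Agent.H63.VC11

end
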