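import Pool.Agent.H94.PA.M39
import Pool.Agent.H94.PA.M41
import Pool.Agent.H94.PA.M42

/-! The parts of this file: H63.VC11.Rot11, H63.VC11.Newton11, H63.VC11.PhEq11, H63.VC11.WW11, H63.VC11.T11. -/

section

/-! # The rotation -/

namespace Pool.Agent.H63.VC11

open Pool.Agent.H63.VC7 Pool.Agent.H63.VC8 Matrix

variable {n : ℕ}

private theorem rot11_gf_rev (q : ℂ) (a : Fin n → ℕ) : gf q (fun i => a i.rev) = gf q a := by
  unfold gf
  exact Equiv.prod_comp Fin.revPerm (fun i => qf q (a i))

private theorem rot11_bil_rev (x y : Fin n → ℕ) :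
    bil (fun i => x i.rev) (fun i => y i.rev) = bil y x := by
  unfold bil
  have h1 : ∑ i : Fin n, ((x i.rev : ℕ) : ℤ) * hi (fun i => y i.rev) i
      = ∑ i : Fin n, (x i : ℤ) * lo y i := by
    rw [← Equiv.sum_comp Fin.revPerm (fun i => (x i : ℤ) * lo y i)]
    refine Finset.sum_congr rfl fun i _ => ?_
    rw [hi_rev]
    rfl
  rw [h1]
  unfold lo hi
  simp only [Finset.mul_sum]
  rw [Finset.sum_comm' (s' := fun i => Finset.Ioi i) (t' := Finset.univ)]
  · refine Finset.sum_congr rfl fun j _ => Finset.sum_congr rfl fun i _ => ?_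
    ring
  · intro i j
    simp

private theorem rot11_wt_add {q : ℂ} (hq : q ≠ 0) (a b : Fin n → ℕ) :
    wt q (a + b) = wt q a * wt q b := by
  unfold wt
  rw [← zpow_add₀ hq]
  congr 1
  rw [← Finset.sum_add_distrib]
  refine Finset.sum_congr rfl fun i _ => ?_
  rw [Pi.add_apply]
  push_cast
  ring

private theorem rot11_term {q : ℂ} (hq : q ≠ 0) (α a' d' a d : Fin n → ℕ) (hα : ∀ i, α i ≤ a i) :
    wt q a * emt q (fun i => (a - α) i.rev) (fun i => d i.rev) (fun i => d' i.rev)
      (fun i => a i.rev) (fun i => a' i.rev) = emt q α a' d' a d := by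
  unfold emt
  by_cases h : (∀ i, α i ≤ a' i) ∧ (∀ i, α i ≤ a i) ∧ (∀ i, a i ≤ d i + α i) ∧
      (∀ i, a' i + d i = a i + d' i)
  · rw [if_pos h, if_pos]
    · obtain ⟨h1, h2, h3, h4⟩ := h
      have e1 : (fun i => d i.rev) - (fun i => (a - α) i.rev) = fun i : Fin n => (d + α - a) i.rev := by
        funext i
        simp only [Pi.sub_apply, Pi.add_apply]
        have := h2 i.rev
        omega
      have e2 : (fun i => a' i.rev) + (fun i => (a - α) i.rev) - (fun i => a i.rev)
          = fun i : Fin n => (a' - α) i.rev := by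
        funext i
        simp only [Pi.sub_apply, Pi.add_apply]
        have := h2 i.rev
        have := h1 i.rev
        omega
      have e3 : (fun i => a i.rev) - (fun i => (a - α) i.rev) = fun i : Fin n => α i.rev := by
        funext i
        simp only [Pi.sub_apply]
        have := h2 i.rev
        omega
      rw [e1, e2, e3]
      simp only [rot11_bil_rev, rot11_gf_rev]
      have e4 : wt q (fun i => α i.rev) = (wt q α)⁻¹ := wt_rev α
      have e5 : a = α + (a - α) := by
        funext i
        simp only [Pi.sub_apply, Pi.add_apply]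
        have := h2 i
        omega
      have e6 : wt q a = wt q α * wt q (a - α) := by
        conv_lhs => rw [e5]
        exact rot11_wt_add hq _ _
      have hw : wt q α ≠ 0 := wt_ne hq α
      rw [e4, e6]
      have e7 : bil (a - α) (d + α - a) - bil (d + α - a) (a' - α) + bil (a' - α) α - bil α (a - α)
          = bil (a' - α) α - bil (d + α - a) (a' - α) + bil (a - α) (d + α - a) - bil α (a - α) := by
        ring
      rw [e7]
      have e8 : gf q d * gf q a' / (gf q (a - α) * gf q (d + α - a) * gf q (a' - α) * gf q α)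
          = gf q a' * gf q d / (gf q α * gf q (a' - α) * gf q (d + α - a) * gf q (a - α)) := by
        rw [mul_comm (gf q d)]
        congr 1
        ring
      rw [e8]
      field_simp
    · obtain ⟨h1, h2, h3, h4⟩ := h
      refine ⟨fun i => ?_, fun i => ?_, fun i => ?_, fun i => ?_⟩
      · simp only [Pi.sub_apply]
        have := h3 i.rev
        omega
      · simp only [Pi.sub_apply]
        omega
      · simp only [Pi.sub_apply]
        have := h2 i.rev
        have := h1 i.rev
        omega
      · have := h4 i.rev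
        simp only
        omega
  · rw [if_neg h, if_neg, mul_zero]
    rintro ⟨h1, h2, h3, h4⟩
    apply h
    refine ⟨fun i => ?_, hα, fun i => ?_, fun i => ?_⟩
    · have := h3 i.rev
      simp only [Pi.sub_apply, Fin.rev_rev] at this
      have := hα i
      omega
    · have := h1 i.rev
      simp only [Pi.sub_apply, Fin.rev_rev] at this
      omega
    · have := h4 i.rev
      simp only [Fin.rev_rev] at this
      omega

private theorem rot11_zero {q : ℂ} (α a' d' a d : Fin n → ℕ) (hα : ¬ ∀ i, α i ≤ a i) :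
    emt q α a' d' a d = 0 := by
  unfold emt
  rw [if_neg]
  rintro ⟨_, h, _⟩
  exact hα h

theorem rot_em (q : ℂ) (N j : ℕ) (hj : j ≤ N) (hg : Gen q n N) (hn : 1 ≤ n) :
    rotM q (em q n N j) = em q n N (N - j) := by
  classical
  ext x y
  unfold rotM
  rw [em_entry q N (N - j) j (by omega) hg hn, em_entry q N j (N - j) (by omega) hg hn,
    Finset.mul_sum]
  simp only [Vn.rev_val]
  set a' := x.1.val with ha'
  set d' := x.2.val with hd'
  set a := y.1.val with ha
  set d := y.2.val with hd
  have hsa : ∑ i, a i = N := y.1.sum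
  -- restrict both sums
  have hL : ∑ β : Vn n (N - j), wt q a * emt q β.val (fun i => d i.rev) (fun i => d' i.rev)
      (fun i => a i.rev) (fun i => a' i.rev)
      = ∑ β ∈ Finset.univ.filter (fun β : Vn n (N - j) => ∀ i, β.val i ≤ a i.rev),
        wt q a * emt q β.val (fun i => d i.rev) (fun i => d' i.rev)
        (fun i => a i.rev) (fun i => a' i.rev) := by
    symm
    apply Finset.sum_subset (Finset.subset_univ _)
    intro β _ hβ
    rw [Finset.mem_filter] at hβ
    rw [rot11_zero _ _ _ _ _ (fun h => hβ ⟨Finset.mem_univ _, h⟩), mul_zero]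
  have hR : ∑ α : Vn n j, emt q α.val a' d' a d
      = ∑ α ∈ Finset.univ.filter (fun α : Vn n j => ∀ i, α.val i ≤ a i), emt q α.val a' d' a d := by
    symm
    apply Finset.sum_subset (Finset.subset_univ _)
    intro α _ hα
    rw [Finset.mem_filter] at hα
    exact rot11_zero _ _ _ _ _ (fun h => hα ⟨Finset.mem_univ _, h⟩)
  rw [hL, hR]
  symm
  have hsumL : ∀ α : Vn n j, (∀ i, α.val i ≤ a i) → ∑ i : Fin n, (a - α.val) i.rev = N - j := by
    intro α hα
    rw [show (∑ i : Fin n, (a - α.val) i.rev) = ∑ i : Fin n, (a - α.val) i from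
      Equiv.sum_comp Fin.revPerm (fun i => (a - α.val) i)]
    have h1 : ∑ i, ((a - α.val) i + α.val i) = ∑ i, a i := by
      refine Finset.sum_congr rfl fun i _ => ?_
      rw [Pi.sub_apply]
      have := hα i
      omega
    rw [Finset.sum_add_distrib, α.sum, hsa] at h1
    omega
  have hsumR : ∀ β : Vn n (N - j), (∀ i, β.val i ≤ a i.rev) →
      ∑ i : Fin n, (a i - β.val i.rev) = j := by
    intro β hβ
    have h0 : ∑ i : Fin n, β.val i.rev = N - j :=
      (Equiv.sum_comp Fin.revPerm (fun i => β.val i)).trans β.sum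
    have h1 : ∑ i, ((a i - β.val i.rev) + β.val i.rev) = ∑ i, a i := by
      refine Finset.sum_congr rfl fun i _ => ?_
      have := hβ i.rev
      rw [Fin.rev_rev] at this
      omega
    rw [Finset.sum_add_distrib, h0, hsa] at h1
    omega
  refine Finset.sum_bij'
    (i := fun α hα => (⟨fun i => (a - α.val) i.rev, hsumL α (Finset.mem_filter.1 hα).2⟩ : Vn n (N - j)))
    (j := fun β hβ => (⟨fun i => a i - β.val i.rev, hsumR β (Finset.mem_filter.1 hβ).2⟩ : Vn n j))
    ?_ ?_ ?_ ?_ ?_
  · intro α hα
    rw [Finset.mem_filter]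
    refine ⟨Finset.mem_univ _, fun i => ?_⟩
    simp only [Pi.sub_apply]
    omega
  · intro β hβ
    rw [Finset.mem_filter]
    refine ⟨Finset.mem_univ _, fun i => ?_⟩
    simp only
    omega
  · intro α hα
    apply Vn.ext
    funext i
    have := (Finset.mem_filter.1 hα).2 i
    simp only [Pi.sub_apply, Fin.rev_rev]
    omega
  · intro β hβ
    apply Vn.ext
    funext i
    have := (Finset.mem_filter.1 hβ).2 i
    simp only [Pi.sub_apply, Fin.rev_rev]
    omega
  · intro α hα
    exact (rot11_term hg.1 α.val a' d' a d (Finset.mem_filter.1 hα).2).symm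

end Pool.Agent.H63.VC11

end

section

/-! # The rotation of the operators `Oh N f` -/

namespace Pool.Agent.H63.VC11

open Pool.Agent.H63.VC7 Pool.Agent.H63.VC8 Matrix

variable {n : ℕ}

private theorem newton11_mono {q : ℂ} {n N : ℕ} (h : Gen q n (N + 1)) : Gen q n N :=
  ⟨h.1, fun k h1 h2 => h.2 k h1 (by omega)⟩

private theorem newton11_qn {q : ℂ} {n N j : ℕ} (h : Gen q n N) (hj : j + 1 ≤ N) :
    qn q ((j : ℤ) + 1) ≠ 0 := by
  have h1 : br q ((j + 1 : ℕ) : ℤ) ≠ 0 := h.2 (j + 1) (by omega) (by omega)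
  have h2 : br q ((1 : ℕ) : ℤ) ≠ 0 := h.2 1 le_rfl (by omega)
  unfold qn
  push_cast at h1 h2
  exact div_ne_zero h1 h2

private theorem newton11_em_zero (q : ℂ) (N : ℕ) : em q n N 0 = 1 := by
  cases N <;> simp [em]

private theorem newton11_nt_zero (q : ℂ) (n N : ℕ) (f : ℕ → ℂ) : nt q n N f 0 = f N := by
  cases N <;> simp [nt]

private theorem newton11_EE_succ (q : ℂ) (n N j X : ℕ) : EE q n (N + 1) (j + 1) X =
    (E1 q n (N + 1) X * EE q n N j X) / qn q ((j : ℤ) + 1) ^ 2 := by
  unfold EE
  simp only [Finset.prod_div_distrib]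
  rw [Finset.prod_range_succ' (fun i => E1 q n (N + 1 - i) X), Finset.prod_range_succ (fun i : ℕ => qn q ((i : ℤ) + 1) ^ 2)]
  have h1 : ∏ k ∈ Finset.range j, E1 q n (N + 1 - (k + 1)) X = ∏ k ∈ Finset.range j, E1 q n (N - k) X := by
    refine Finset.prod_congr rfl fun i _ => ?_
    rw [Nat.add_sub_add_right]
  rw [h1, Nat.sub_zero]
  rw [mul_comm (∏ k ∈ Finset.range j, E1 q n (N - k) X), mul_div_assoc, mul_div_assoc, ← div_div]

private theorem newton11_EE_zero (q : ℂ) (n N X : ℕ) : EE q n N 0 X = 1 := by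
  unfold EE
  simp

theorem f_nt (q : ℂ) (N : ℕ) (h : Gen q n N) (hn : 1 ≤ n) (f : ℕ → ℂ) (X : ℕ) (hX : X ≤ N) :
    f X = ∑ j ∈ Finset.range (N + 1), nt q n N f j * EE q n N j X := by
  induction N generalizing f X with
  | zero =>
    obtain rfl : X = 0 := by omega
    simp [nt, EE]
  | succ N ih =>
    rw [Finset.sum_range_succ', newton11_nt_zero, newton11_EE_zero, mul_one]
    have h1 : ∑ j ∈ Finset.range (N + 1), nt q n (N + 1) f (j + 1) * EE q n (N + 1) (j + 1) X =
        E1 q n (N + 1) X * ∑ j ∈ Finset.range (N + 1), nt q n N (dv q n N f) j * EE q n N j X := by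
      rw [Finset.mul_sum]
      refine Finset.sum_congr rfl fun j hj => ?_
      have hj' : j + 1 ≤ N + 1 := by
        have := Finset.mem_range.1 hj
        omega
      have hq := newton11_qn h hj'
      rw [newton11_EE_succ]
      simp only [nt]
      field_simp
    rw [h1]
    rcases Nat.eq_or_lt_of_le hX with rfl | hlt
    · rw [E1_self]
      simp
    · rw [← ih (newton11_mono h) (dv q n N f) X (by omega)]
      unfold dv
      rw [mul_div_cancel₀ _ (E1_ne h hn hlt)]
      ring

theorem Oh_nt (q : ℂ) (N : ℕ) (h : Gen q n N) (hn : 1 ≤ n) (f : ℕ → ℂ) :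
    Oh q n N f = ∑ j ∈ Finset.range (N + 1), nt q n N f j • em q n N j := by
  induction N generalizing f with
  | zero => simp [Oh, nt, em]
  | succ N ih =>
    rw [Finset.sum_range_succ', newton11_em_zero, newton11_nt_zero]
    simp only [Oh, nt, em]
    rw [ih (newton11_mono h) (dv q n N f), Matrix.mul_sum, Matrix.sum_mul]
    refine Eq.trans (add_comm _ _) ?_
    congr 1
    refine Finset.sum_congr rfl fun j hj => ?_
    have hj' : j + 1 ≤ N + 1 := by
      have := Finset.mem_range.1 hj
      omega
    have hq := newton11_qn h hj'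
    rw [Matrix.mul_smul, Matrix.smul_mul, smul_smul]
    congr 1
    field_simp

theorem Oh_EE (q : ℂ) (N j : ℕ) (h : Gen q n N) (hn : 1 ≤ n) (hj : j ≤ N) :
    Oh q n N (EE q n N j) = em q n N j := by
  induction N generalizing j with
  | zero =>
    obtain rfl : j = 0 := by omega
    simp [Oh, em, EE]
  | succ N ih =>
    cases j with
    | zero =>
      rw [newton11_em_zero]
      have h1 : EE q n (N + 1) 0 = fun _ => (1 : ℂ) := by
        funext k
        exact newton11_EE_zero q n (N + 1) k
      rw [h1, Oh_const, one_smul]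
    | succ j =>
      simp only [Oh, em]
      have hq := newton11_qn h hj
      have h1 : EE q n (N + 1) (j + 1) (N + 1) = 0 := by
        rw [newton11_EE_succ, E1_self, zero_mul, zero_div]
      have h2 : Oh q n N (dv q n N (EE q n (N + 1) (j + 1))) =
          Oh q n N (fun X => (qn q ((j : ℤ) + 1) ^ 2)⁻¹ * EE q n N j X) := by
        refine Oh_congr q N _ _ fun k hk => ?_
        unfold dv
        have hE := E1_ne (X := k) h hn (by omega)
        rw [h1, sub_zero, newton11_EE_succ]
        field_simp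
      rw [h1, zero_smul, zero_add, h2, Oh_smul, ih j (newton11_mono h) (by omega), Matrix.mul_smul,
        Matrix.smul_mul]

private theorem newton11_rotM_sum (q : ℂ) (N : ℕ) (s : Finset ℕ) (c : ℕ → ℂ)
    (X : ℕ → Matrix (I2 n N) (I2 n N) ℂ) :
    rotM q (∑ j ∈ s, c j • X j) = ∑ j ∈ s, c j • rotM q (X j) := by
  ext x y
  simp only [rotM, Matrix.sum_apply, Matrix.smul_apply, smul_eq_mul, Finset.mul_sum]
  refine Finset.sum_congr rfl fun j _ => ?_
  ring

theorem rot_Oh (q : ℂ) (N : ℕ) (h : Gen q n N) (hn : 1 ≤ n) (f : ℕ → ℂ) :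
    rotM q (Oh q n N f) = Oh q n N (Ph q n N f) := by
  have h1 : Ph q n N f = fun k => ∑ j ∈ Finset.range (N + 1), nt q n N f j * EE q n N (N - j) k := rfl
  rw [Oh_nt q N h hn f, newton11_rotM_sum, h1, Oh_sum]
  refine Finset.sum_congr rfl fun j hj => ?_
  have hj' : j ≤ N := by
    have := Finset.mem_range.1 hj
    omega
  rw [Oh_smul, rot_em q N j hj' h hn, ← Oh_EE q N (N - j) h hn (by omega)]

end Pool.Agent.H63.VC11

end

section

/-! # The rotation in terms of the `6j`-symbols -/

namespace Pool.Agent.H63.VC11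

open Pool.Agent.H63.VC7 Pool.Agent.H63.VC8

theorem Ph_eq (q : ℂ) (n N : ℕ) (h : Gen q n N) (hn : 2 ≤ n) (f : ℕ → ℂ) (X : ℕ) :
    Ph q n N f X = ∑ Y ∈ Finset.range (N + 1), dimA n q Y / dimS n N q * sixn n q N X Y * f Y := by
  have e1 : ∀ Y ∈ Finset.range (N + 1), dimA n q Y / dimS n N q * sixn n q N X Y * f Y =
      ∑ j ∈ Finset.range (N + 1), nt q n N f j *
        (dimA n q Y / dimS n N q * sixn n q N X Y * EE q n N j Y) := by
    intro Y hY
    rw [f_nt q N h (by omega) f Y (by have := Finset.mem_range.1 hY; omega), Finset.mul_sum]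
    exact Finset.sum_congr rfl fun j _ => by ring
  rw [Finset.sum_congr rfl e1, Finset.sum_comm]
  simp only [← Finset.mul_sum]
  rw [Ph]
  refine Finset.sum_congr rfl fun j hj => ?_
  rw [sixn_EE q n N j X h hn (by have := Finset.mem_range.1 hj; omega)]

end Pool.Agent.H63.VC11

end

section

/-! # The square of the extreme term of the crossing -/

namespace Pool.Agent.H63.VC11

open Pool.Agent.H63.VC7 Pool.Agent.H63.VC8 Matrix

variable {n : ℕ}

/-! ### Exponents -/

/-- The exponent of the weight. -/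
def WW11_w (a : Fin n → ℕ) : ℤ := ∑ i : Fin n, (a i : ℤ) * ((n : ℤ) - 1 - 2 * (i : ℕ))

theorem WW11_wt (q : ℂ) (a : Fin n → ℕ) : wt q a = q ^ WW11_w a := rfl

theorem WW11_w_add (a b : Fin n → ℕ) : WW11_w (a + b) = WW11_w a + WW11_w b := by
  unfold WW11_w
  rw [← Finset.sum_add_distrib]
  refine Finset.sum_congr rfl fun i _ => ?_
  simp only [Pi.add_apply, Nat.cast_add]
  ring

theorem WW11_hi_add (a b : Fin n → ℕ) (i : Fin n) : hi (a + b) i = hi a i + hi b i := by
  unfold hi
  simp only [Pi.add_apply, Nat.cast_add, Finset.sum_add_distrib]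

theorem WW11_bil_add_left (a b c : Fin n → ℕ) : bil (a + b) c = bil a c + bil b c := by
  unfold bil
  rw [← Finset.sum_add_distrib]
  refine Finset.sum_congr rfl fun i _ => ?_
  simp only [Pi.add_apply, Nat.cast_add]
  ring

theorem WW11_bil_add_right (a b c : Fin n → ℕ) : bil a (b + c) = bil a b + bil a c := by
  unfold bil
  rw [← Finset.sum_add_distrib]
  refine Finset.sum_congr rfl fun i _ => ?_
  rw [WW11_hi_add]
  ring

theorem WW11_bil_lo (a b : Fin n → ℕ) : bil a b = ∑ i, (b i : ℤ) * lo a i := by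
  unfold bil hi lo
  simp only [Finset.mul_sum]
  rw [Finset.sum_comm' (t' := Finset.univ) (s' := fun j => Finset.Iio j)]
  · refine Finset.sum_congr rfl fun i _ => Finset.sum_congr rfl fun j _ => ?_
    ring
  · intro i j
    simp

theorem WW11_bil_rev (a b : Fin n → ℕ) :
    bil (fun i => a i.rev) (fun i => b i.rev) = bil b a := by
  rw [WW11_bil_lo b a]
  unfold bil
  rw [← Equiv.sum_comp Fin.revPerm]
  refine Finset.sum_congr rfl fun i _ => ?_
  rw [hi_rev]
  simp

theorem WW11_lam (p h : Fin n → ℕ) : lam p h = WW11_w h + bil h p - bil p h := by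
  rw [WW11_bil_lo p h]
  unfold lam WW11_w bil
  rw [← Finset.sum_add_distrib, ← Finset.sum_sub_distrib]
  refine Finset.sum_congr rfl fun i _ => ?_
  ring

theorem WW11_gf_rev (q : ℂ) (a : Fin n → ℕ) : gf q (fun i => a i.rev) = gf q a := by
  unfold gf
  exact Equiv.prod_comp Fin.revPerm (fun i => qf q (a i))

theorem WW11_prod_qb (q : ℂ) (hq : q ≠ 0) (m k : Fin n → ℕ) (h : ∀ i, k i ≤ m i) :
    (∏ i, qb q (m i) (k i)) * (gf q k * gf q (m - k)) = gf q m := by
  unfold gf
  rw [← Finset.prod_mul_distrib, ← Finset.prod_mul_distrib]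
  refine Finset.prod_congr rfl fun i _ => ?_
  rw [Pi.sub_apply]
  exact qb_fac q hq (m i) (k i) (h i)

theorem WW11_gf_ne {q : ℂ} {N : ℕ} (hg : Gen q n N) (hn : 1 ≤ n) (a : Fin n → ℕ)
    (ha : ∀ i, a i ≤ 4 * N + 2 * n) : gf q a ≠ 0 := by
  unfold gf
  rw [Finset.prod_ne_zero_iff]
  intro i _
  exact hg.qf_ne hn (ha i)

theorem WW11_le_sum (a : Fin n → ℕ) (i : Fin n) : a i ≤ ∑ j, a j :=
  Finset.single_le_sum (f := a) (fun _ _ => Nat.zero_le _) (Finset.mem_univ i)

/-! ### The entries -/

/-- The entries of the extreme term. -/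
theorem WW11_entry (q : ℂ) (N : ℕ) (hg : Gen q n N) (hn : 1 ≤ n) (x y : I2 n N) :
    ((qf q N ^ 2)⁻¹ • Yk q n N N) x y =
      if (fun i => x.1.val i.rev) + y.2.val = y.1.val + (fun i => x.2.val i.rev) then
        q ^ (WW11_w y.2.val + bil y.1.val (fun i => x.2.val i.rev) -
          bil (fun i => x.1.val i.rev) y.2.val) *
        (gf q (y.1.val + (fun i => x.2.val i.rev)) / (gf q x.2.val * gf q y.1.val)) else 0 := by
  have hqf : qf q N ≠ 0 := hg.qf_ne hn (by omega)
  have hq := hg.1
  rw [Matrix.smul_apply, smul_eq_mul]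
  unfold Yk
  rw [KK_full q N hg hn _ _ _ _ y.2.sum y.1.sum]
  split_ifs with h
  · rw [WW11_wt, add_sub_assoc, zpow_add₀ hq]
    field_simp
  · simp

theorem WW11_w_rev (a : Fin n → ℕ) : WW11_w (fun i => a i.rev) = -WW11_w a := by
  unfold WW11_w
  rw [← Finset.sum_neg_distrib, ← Equiv.sum_comp Fin.revPerm]
  refine Finset.sum_congr rfl fun i _ => ?_
  simp only [Fin.revPerm_apply, Fin.rev_rev, Fin.val_rev]
  have : (i : ℕ) + 1 ≤ n := i.2
  push_cast [Nat.cast_sub this]
  ring

theorem WW11_rev_eq (a b c d : Fin n → ℕ) :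
    (fun i => a i.rev) + b = c + (fun i => d i.rev) ↔
      a + (fun i => b i.rev) = (fun i => c i.rev) + d := by
  constructor
  · intro h
    funext i
    have := congrFun h i.rev
    simpa using this
  · intro h
    funext i
    have := congrFun h i.rev
    simpa using this

/-- The entries of the extreme term, with the first index reversed. -/
theorem WW11_entry1 (q : ℂ) (N : ℕ) (hg : Gen q n N) (hn : 1 ≤ n) (x : I2 n N) (z h : Vn n N)
    (B C : Fin n → ℕ) (hB : B = fun i => x.2.val i.rev) (hC : C = fun i => x.1.val i.rev) :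
    ((qf q N ^ 2)⁻¹ • Yk q n N N) x (z, h) =
      if C + h.val = z.val + B then
        q ^ (WW11_w h.val + bil z.val B - bil C h.val) *
        (gf q (C + h.val) / (gf q B * gf q z.val)) else 0 := by
  rw [WW11_entry q N hg hn]
  subst hB hC
  simp only [WW11_gf_rev]
  split_ifs with h1
  · rw [h1]
  · rfl

/-- The entries of the extreme term, with the second index reversed. -/
theorem WW11_entry2 (q : ℂ) (N : ℕ) (hg : Gen q n N) (hn : 1 ≤ n) (y : I2 n N) (z h : Vn n N)
    (A D : Fin n → ℕ) (hA : A = fun i => y.1.val i.rev) (hD : D = fun i => y.2.val i.rev) :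
    ((qf q N ^ 2)⁻¹ • Yk q n N N) (z, h) y =
      if z.val + D = A + h.val then
        q ^ (-WW11_w D + bil h.val A - bil D z.val) *
        (gf q (A + h.val) / (gf q h.val * gf q A)) else 0 := by
  rw [WW11_entry q N hg hn]
  have e1 : y.1.val = fun i => A i.rev := by rw [hA]; funext i; simp
  have e2 : y.2.val = fun i => D i.rev := by rw [hD]; funext i; simp
  simp only [WW11_rev_eq]
  rw [← hA, ← hD]
  have e3 : y.1.val + (fun i => h.val i.rev) = fun i => (A + h.val) i.rev := by
    rw [e1]; rfl
  rw [e3, WW11_gf_rev]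
  conv_lhs => rw [e2, e1]
  rw [WW11_w_rev, WW11_bil_rev, WW11_bil_rev, WW11_gf_rev]
  

/-- The constant part of the exponent. -/
def WW11_cst (A B C D : Fin n → ℕ) : ℤ :=
  bil C B - bil B B - bil D A + bil D D - WW11_w D

theorem WW11_inner (q : ℂ) (N : ℕ) (hg : Gen q n N) (hn : 1 ≤ n) (x y : I2 n N) (h : Vn n N)
    (A B C D : Fin n → ℕ) (hA : A = fun i => y.1.val i.rev) (hB : B = fun i => x.2.val i.rev)
    (hC : C = fun i => x.1.val i.rev) (hD : D = fun i => y.2.val i.rev)
    (sA : ∑ i, A i = N) (sB : ∑ i, B i = N) (sC : ∑ i, C i = N) (sD : ∑ i, D i = N) :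
    ∑ z : Vn n N, ((qf q N ^ 2)⁻¹ • Yk q n N N) x (z, h) *
        ((qf q N ^ 2)⁻¹ • Yk q n N N) (z, h) y =
      if C + D = A + B then q ^ (WW11_cst A B C D + lam (A + B) h.val) *
        (gf q C * gf q D / (gf q A * gf q B)) *
        ∏ i, (qb q (h.val i + C i) (C i) * qb q (h.val i + A i) (D i)) else 0 := by
  have hq := hg.1
  have e1 := fun z => WW11_entry1 q N hg hn x z h B C hB hC
  have e2 := fun z => WW11_entry2 q N hg hn y z h A D hA hD
  have bA : ∀ i, A i ≤ N := fun i => sA ▸ WW11_le_sum A i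
  have bB : ∀ i, B i ≤ N := fun i => sB ▸ WW11_le_sum B i
  have bC : ∀ i, C i ≤ N := fun i => sC ▸ WW11_le_sum C i
  have bD : ∀ i, D i ≤ N := fun i => sD ▸ WW11_le_sum D i
  have bh : ∀ i, h.val i ≤ N := fun i => (WW11_le_sum h.val i).trans h.sum.le
  split_ifs with hAB
  · by_cases hz : ∀ i, B i ≤ C i + h.val i
    · have hzs : ∑ i, (C + h.val - B) i = N := by
        have h1 : ∑ i, (C + h.val - B) i + ∑ i, B i = ∑ i, C i + ∑ i, h.val i := by
          rw [← Finset.sum_add_distrib, ← Finset.sum_add_distrib]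
          refine Finset.sum_congr rfl fun i _ => ?_
          have := hz i
          simp only [Pi.sub_apply, Pi.add_apply]
          omega
        rw [sB, sC, h.sum] at h1
        omega
      obtain ⟨z0, hz0⟩ : ∃ z0 : Vn n N, z0.val = C + h.val - B := ⟨⟨_, hzs⟩, rfl⟩
      have c1 : C + h.val = z0.val + B := by
        rw [hz0]
        funext i
        have := hz i
        simp only [Pi.sub_apply, Pi.add_apply]
        omega
      have c2 : z0.val + D = A + h.val := by
        rw [hz0]
        funext i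
        have h1 := hz i
        have h2 := congrFun hAB i
        simp only [Pi.sub_apply, Pi.add_apply] at h2 ⊢
        omega
      rw [Finset.sum_eq_single z0]
      · rw [e1, e2, if_pos c1, if_pos c2]
        have bz : ∀ i, z0.val i ≤ N := fun i => (WW11_le_sum z0.val i).trans z0.sum.le
        have p1 := WW11_prod_qb q hq (C + h.val) C (fun i => by simp)
        have p2 := WW11_prod_qb q hq (A + h.val) D (fun i => by
          have := congrFun c2 i
          simp only [Pi.add_apply] at this ⊢
          omega)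
        have r1 : C + h.val - C = h.val := by
          funext i
          simp
        have r2 : A + h.val - D = z0.val := by
          rw [← c2]
          funext i
          simp
        rw [r1] at p1
        rw [r2] at p2
        have nA : gf q A ≠ 0 := WW11_gf_ne hg hn A fun i => (bA i).trans (by omega)
        have nB : gf q B ≠ 0 := WW11_gf_ne hg hn B fun i => (bB i).trans (by omega)
        have nC : gf q C ≠ 0 := WW11_gf_ne hg hn C fun i => (bC i).trans (by omega)
        have nD : gf q D ≠ 0 := WW11_gf_ne hg hn D fun i => (bD i).trans (by omega)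
        have nh : gf q h.val ≠ 0 := WW11_gf_ne hg hn h.val fun i => (bh i).trans (by omega)
        have nz : gf q z0.val ≠ 0 := WW11_gf_ne hg hn z0.val fun i => (bz i).trans (by omega)
        have ex : WW11_w h.val + bil z0.val B - bil C h.val +
            (-WW11_w D + bil h.val A - bil D z0.val) =
            WW11_cst A B C D + lam (A + B) h.val := by
          have t1 : bil z0.val B + bil B B = bil C B + bil h.val B := by
            rw [← WW11_bil_add_left, ← WW11_bil_add_left, c1]
          have t2 : bil D z0.val + bil D D = bil D A + bil D h.val := by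
            rw [← WW11_bil_add_right, ← WW11_bil_add_right, c2]
          have t3 : bil (A + B) h.val = bil C h.val + bil D h.val := by
            rw [← WW11_bil_add_left, hAB]
          rw [WW11_lam, WW11_bil_add_right, t3]
          unfold WW11_cst
          linarith
        rw [← ex, zpow_add₀ hq, ← p1, ← p2, Finset.prod_mul_distrib]
        simp only [Pi.add_apply]
        have s1 : ∏ i, qb q (h.val i + C i) (C i) = ∏ i, qb q (C i + h.val i) (C i) :=
          Finset.prod_congr rfl fun i _ => by rw [add_comm]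
        have s2 : ∏ i, qb q (h.val i + A i) (D i) = ∏ i, qb q (A i + h.val i) (D i) :=
          Finset.prod_congr rfl fun i _ => by rw [add_comm]
        rw [s1, s2]
        field_simp
      · intro z _ hne
        rw [e1, if_neg, zero_mul]
        intro h1
        apply hne
        apply Vn.ext
        have := c1.symm.trans h1
        exact (add_right_cancel this).symm
      · intro h1
        exact absurd (Finset.mem_univ _) h1
    · push Not at hz
      obtain ⟨i, hi⟩ := hz
      rw [Finset.sum_eq_zero]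
      · rw [Finset.prod_eq_zero (Finset.mem_univ i), mul_zero]
        rw [qb_lt q (h.val i + A i) (D i), mul_zero]
        have h2 := congrFun hAB i
        simp only [Pi.add_apply] at h2
        omega
      · intro z _
        rw [e1, if_neg, zero_mul]
        intro h1
        have h2 := congrFun h1 i
        simp only [Pi.add_apply] at h2
        omega
  · refine Finset.sum_eq_zero fun z _ => ?_
    rw [e1, e2]
    split_ifs with h1 h2
    · exfalso
      apply hAB
      funext i
      have h3 := congrFun h1 i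
      have h4 := congrFun h2 i
      simp only [Pi.add_apply] at h3 h4 ⊢
      omega
    · rw [mul_zero]
    · rw [zero_mul]
    · rw [zero_mul]

theorem WW11_qb_symm (q : ℂ) (hq : q ≠ 0) (a b : ℕ) (ha : qf q a ≠ 0) (hb : qf q b ≠ 0) :
    qb q (b + a) a = qb q (a + b) b := by
  have h1 := qb_fac q hq (a + b) b (by omega)
  have h2 := qb_fac q hq (a + b) a (by omega)
  rw [show a + b - b = a by omega] at h1
  rw [show a + b - a = b by omega] at h2
  rw [add_comm b a]
  have h3 : (qb q (a + b) a - qb q (a + b) b) * (qf q a * qf q b) = 0 := by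
    rw [sub_mul, h2, ← h1]
    ring
  rcases mul_eq_zero.1 h3 with h4 | h4
  · exact sub_eq_zero.1 h4
  · exact absurd h4 (mul_ne_zero ha hb)

/-- The entries of the square in terms of sums over `β ≤ D`. -/
theorem WW11_lhs (q : ℂ) (N : ℕ) (hg : Gen q n N) (hn : 1 ≤ n) (x y : I2 n N)
    (A B C D : Fin n → ℕ) (hA : A = fun i => y.1.val i.rev) (hB : B = fun i => x.2.val i.rev)
    (hC : C = fun i => x.1.val i.rev) (hD : D = fun i => y.2.val i.rev)
    (sA : ∑ i, A i = N) (sB : ∑ i, B i = N) (sC : ∑ i, C i = N) (sD : ∑ i, D i = N) :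
    (((qf q N ^ 2)⁻¹ • Yk q n N N) * ((qf q N ^ 2)⁻¹ • Yk q n N N)) x y =
      if C + D = A + B then ∑ β ∈ Fintype.piFinset (fun i => Finset.range (D i + 1)),
        qb q (2 * N + (n - 1) + ∑ i, β i) (∑ i, β i) *
          (q ^ (WW11_cst A B C D + lam (A + B) (D - β)) *
            (gf q C * gf q D / (gf q A * gf q B)) *
            ∏ i, (qb q (A i) (β i) * qb q (B i) (D i - β i))) else 0 := by
  have hq := hg.1
  rw [Matrix.mul_apply, Fintype.sum_prod_type_right]
  simp only [WW11_inner q N hg hn x y _ A B C D hA hB hC hD sA sB sC sD]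
  split_ifs with hAB
  · have bA : ∀ i, A i ≤ N := fun i => sA ▸ WW11_le_sum A i
    have bB : ∀ i, B i ≤ N := fun i => sB ▸ WW11_le_sum B i
    have sp : ∑ i, (A + B) i = 2 * N := by
      simp only [Pi.add_apply, Finset.sum_add_distrib, sA, sB]
      omega
    have step : ∀ h : Vn n N, ∏ i, (qb q (h.val i + C i) (C i) * qb q (h.val i + A i) (D i)) =
        ∑ β ∈ Fintype.piFinset (fun i => Finset.range (D i + 1)),
          (∏ i, (qb q (A i) (β i) * qb q (B i) (D i - β i))) *
            ∏ i, qb q (h.val i + C i + β i) ((A + B) i) := by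
      intro h
      have bh : ∀ i, h.val i ≤ N := fun i => (WW11_le_sum h.val i).trans h.sum.le
      have s1 : ∀ i, qb q (h.val i + C i) (C i) * qb q (h.val i + A i) (D i) =
          ∑ β ∈ Finset.range (D i + 1), qb q (A i) β * qb q (B i) (D i - β) *
            qb q (h.val i + C i + β) ((A + B) i) := by
        intro i
        have h2 := congrFun hAB i
        simp only [Pi.add_apply] at h2
        have := qb_saal q hq (A i) (B i) (C i) (D i) (h.val i) h2.symm (fun j hj =>
          hg.qf_ne hn (by have := bA i; have := bB i; have := bh i; omega))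
        rw [add_comm (h.val i) (C i), add_comm (h.val i) (A i), this, Pi.add_apply, h2,
          add_comm (C i) (h.val i)]
      rw [Finset.prod_congr rfl fun i _ => s1 i, Finset.prod_univ_sum]
      refine Finset.sum_congr rfl fun β _ => ?_
      rw [← Finset.prod_mul_distrib]
    simp only [step, Finset.mul_sum]
    rw [Finset.sum_comm]
    refine Finset.sum_congr rfl fun β hβ => ?_
    have bβ : ∀ i, β i ≤ D i := fun i => by
      have := Fintype.mem_piFinset.1 hβ i
      have := Finset.mem_range.1 this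
      omega
    have sκ : ∑ i, (D - β) i + ∑ i, β i = N := by
      rw [← Finset.sum_add_distrib, ← sD]
      refine Finset.sum_congr rfl fun i _ => ?_
      have := bβ i
      simp only [Pi.sub_apply]
      omega
    have v := vand_shift q hq hn N (∑ i, β i) (A + B) (D - β) (fun i => by
      have h2 := congrFun hAB i
      simp only [Pi.add_apply, Pi.sub_apply] at h2 ⊢
      omega) sκ (fun j hj => hg.qf_ne hn (by rw [sp] at hj; omega))
    rw [sp] at v
    have bs : ∑ i, β i ≤ N := by omega
    rw [show ∑ i, β i + 2 * N + (n - 1) = ∑ i, β i + (2 * N + (n - 1)) by ring,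
      WW11_qb_symm q hq (2 * N + (n - 1)) (∑ i, β i) (hg.qf_ne hn (by omega))
        (hg.qf_ne hn (by omega))] at v
    have e : ∀ h : Vn n N, ∏ i, qb q (h.val i + C i + β i) ((A + B) i) =
        ∏ i, qb q (h.val i + ((A + B) i - (D - β) i)) ((A + B) i) := by
      intro h
      refine Finset.prod_congr rfl fun i _ => ?_
      have h2 := congrFun hAB i
      have h3 := bβ i
      simp only [Pi.add_apply, Pi.sub_apply] at h2 ⊢
      rw [show h.val i + C i + β i = h.val i + (A i + B i - (D i - β i)) by omega]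
    simp only [e]
    rw [zpow_add₀ hq (WW11_cst A B C D) (lam (A + B) (D - β))]
    have t : ∀ h : Vn n N, q ^ (WW11_cst A B C D + lam (A + B) h.val) *
        (gf q C * gf q D / (gf q A * gf q B)) *
        ((∏ i, (qb q (A i) (β i) * qb q (B i) (D i - β i))) *
          ∏ i, qb q (h.val i + ((A + B) i - (D - β) i)) ((A + B) i)) =
        (q ^ (WW11_cst A B C D) * (gf q C * gf q D / (gf q A * gf q B)) *
          (∏ i, (qb q (A i) (β i) * qb q (B i) (D i - β i)))) *
        (q ^ (lam (A + B) h.val) *
          ∏ i, qb q (h.val i + ((A + B) i - (D - β) i)) ((A + B) i)) := by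
      intro h
      rw [zpow_add₀ hq]
      ring
    rw [Finset.sum_congr rfl fun h _ => t h, ← Finset.mul_sum, v]
    ring
  · exact Finset.sum_const_zero

theorem WW11_emt (q : ℂ) (hq : q ≠ 0) (β α κ τ : Fin n → ℕ) :
    emt q (fun i => α i.rev) (fun i => (α + τ) i.rev) (fun i => (κ + τ) i.rev)
      (fun i => (β + α) i.rev) (fun i => (β + κ) i.rev) =
      q ^ (bil α τ - bil τ κ + bil κ β - bil β α - WW11_w β) *
        (gf q (α + τ) * gf q (β + κ) / (gf q α * gf q τ * gf q κ * gf q β)) := by
  unfold emt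
  rw [if_pos]
  · have e1 : (fun i : Fin n => (α + τ) i.rev) - (fun i => α i.rev) = fun i => τ i.rev := by
      funext i
      simp
    have e2 : (fun i : Fin n => (β + κ) i.rev) + (fun i => α i.rev) -
        (fun i => (β + α) i.rev) = fun i => κ i.rev := by
      funext i
      simp only [Pi.sub_apply, Pi.add_apply]
      omega
    have e3 : (fun i : Fin n => (β + α) i.rev) - (fun i => α i.rev) = fun i => β i.rev := by
      funext i
      simp
    rw [e1, e2, e3, WW11_wt, WW11_w_rev, WW11_bil_rev, WW11_bil_rev, WW11_bil_rev,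
      WW11_bil_rev, ← zpow_add₀ hq]
    simp only [WW11_gf_rev]
    congr 1
  · refine ⟨fun i => ?_, fun i => ?_, fun i => ?_, fun i => ?_⟩ <;>
      simp only [Pi.add_apply] <;> omega

theorem WW11_exp (β α κ τ : Fin n → ℕ) :
    WW11_cst (β + α) (κ + τ) (α + τ) (β + κ) + lam (β + α + (κ + τ)) κ =
      bil α τ - bil τ κ + bil κ β - bil β α - WW11_w β := by
  rw [WW11_lam]
  unfold WW11_cst
  simp only [WW11_w_add, WW11_bil_add_left, WW11_bil_add_right]
  ring

theorem WW11_term (q : ℂ) (N : ℕ) (hg : Gen q n N) (hn : 1 ≤ n) (A B C D β : Fin n → ℕ)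
    (bA : ∀ i, A i ≤ N) (bB : ∀ i, B i ≤ N) (hAB : C + D = A + B) (h1 : ∀ i, β i ≤ D i)
    (h2 : ∀ i, β i ≤ A i) :
    emt q (fun i => (A - β) i.rev) (fun i => C i.rev) (fun i => B i.rev)
      (fun i => A i.rev) (fun i => D i.rev) =
      q ^ (WW11_cst A B C D + lam (A + B) (D - β)) * (gf q C * gf q D / (gf q A * gf q B)) *
        ∏ i, (qb q (A i) (β i) * qb q (B i) (D i - β i)) := by
  have hq := hg.1
  by_cases h3 : ∀ i, D i ≤ B i + β i
  · obtain ⟨α, hα⟩ : ∃ α : Fin n → ℕ, A = β + α := ⟨A - β, by
      funext i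
      have := h2 i
      simp only [Pi.add_apply, Pi.sub_apply]
      omega⟩
    obtain ⟨κ, hκ⟩ : ∃ κ : Fin n → ℕ, D = β + κ := ⟨D - β, by
      funext i
      have := h1 i
      simp only [Pi.add_apply, Pi.sub_apply]
      omega⟩
    subst hα hκ
    obtain ⟨τ, hτ⟩ : ∃ τ : Fin n → ℕ, B = κ + τ := ⟨B - κ, by
      funext i
      have := h3 i
      simp only [Pi.add_apply, Pi.sub_apply] at this ⊢
      omega⟩
    subst hτ
    obtain rfl : C = α + τ := by
      funext i
      have := congrFun hAB i
      simp only [Pi.add_apply] at this ⊢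
      omega
    have e1 : β + α - β = α := by
      funext i
      simp
    have e2 : β + κ - β = κ := by
      funext i
      simp
    rw [e1, e2, WW11_emt q hq, WW11_exp, Finset.prod_mul_distrib]
    have p1 := WW11_prod_qb q hq (β + α) β (fun i => by simp)
    have p2 := WW11_prod_qb q hq (κ + τ) κ (fun i => by simp)
    have e3 : κ + τ - κ = τ := by
      funext i
      simp
    rw [e1] at p1
    rw [e3] at p2
    have s2 : ∏ i, qb q ((κ + τ) i) ((β + κ) i - β i) = ∏ i, qb q ((κ + τ) i) (κ i) := by
      refine Finset.prod_congr rfl fun i _ => ?_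
      rw [show (β + κ) i - β i = κ i by simp]
    rw [s2]
    have nβ : gf q β ≠ 0 := WW11_gf_ne hg hn β fun i => by
      have := bA i
      simp only [Pi.add_apply] at this
      omega
    have nα : gf q α ≠ 0 := WW11_gf_ne hg hn α fun i => by
      have := bA i
      simp only [Pi.add_apply] at this
      omega
    have nκ : gf q κ ≠ 0 := WW11_gf_ne hg hn κ fun i => by
      have := bB i
      simp only [Pi.add_apply] at this
      omega
    have nτ : gf q τ ≠ 0 := WW11_gf_ne hg hn τ fun i => by
      have := bB i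
      simp only [Pi.add_apply] at this
      omega
    have nA : gf q (β + α) ≠ 0 := WW11_gf_ne hg hn _ fun i => (bA i).trans (by omega)
    have nB : gf q (κ + τ) ≠ 0 := WW11_gf_ne hg hn _ fun i => (bB i).trans (by omega)
    conv_rhs => rw [mul_assoc]
    congr 1
    rw [div_mul_eq_mul_div, div_eq_div_iff
      (mul_ne_zero (mul_ne_zero (mul_ne_zero nα nτ) nκ) nβ) (mul_ne_zero nA nB), ← p1, ← p2]
    ring
  · push Not at h3
    obtain ⟨i, hi⟩ := h3
    rw [Finset.prod_eq_zero (Finset.mem_univ i), mul_zero]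
    · unfold emt
      rw [if_neg]
      rintro ⟨c1, -⟩
      have h4 := c1 i.rev
      have h5 := congrFun hAB i
      have h6 := h2 i
      simp only [Pi.sub_apply, Fin.rev_rev, Pi.add_apply] at h4 h5
      omega
    · rw [qb_lt q (B i) (D i - β i) (by omega), mul_zero]

/-- The square of the extreme term. -/
theorem Yk_sq (q : ℂ) (N : ℕ) (hg : Gen q n N) (hn : 1 ≤ n) :
    ((qf q N ^ 2)⁻¹ • Yk q n N N) * ((qf q N ^ 2)⁻¹ • Yk q n N N) =
      ∑ j ∈ Finset.range (N + 1), qb q (2 * N + (n - 1) + j) j • em q n N j := by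
  have hq := hg.1
  ext x y
  obtain ⟨A, hA⟩ : ∃ A : Fin n → ℕ, A = fun i => y.1.val i.rev := ⟨_, rfl⟩
  obtain ⟨B, hB⟩ : ∃ B : Fin n → ℕ, B = fun i => x.2.val i.rev := ⟨_, rfl⟩
  obtain ⟨C, hC⟩ : ∃ C : Fin n → ℕ, C = fun i => x.1.val i.rev := ⟨_, rfl⟩
  obtain ⟨D, hD⟩ : ∃ D : Fin n → ℕ, D = fun i => y.2.val i.rev := ⟨_, rfl⟩
  have sA : ∑ i, A i = N := by rw [hA]; exact y.1.rev.sum
  have sB : ∑ i, B i = N := by rw [hB]; exact x.2.rev.sum
  have sC : ∑ i, C i = N := by rw [hC]; exact x.1.rev.sum
  have sD : ∑ i, D i = N := by rw [hD]; exact y.2.rev.sum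
  have bA : ∀ i, A i ≤ N := fun i => sA ▸ WW11_le_sum A i
  have bB : ∀ i, B i ≤ N := fun i => sB ▸ WW11_le_sum B i
  have y1 : y.1.val = fun i => A i.rev := by rw [hA]; funext i; simp
  have x2 : x.2.val = fun i => B i.rev := by rw [hB]; funext i; simp
  have x1 : x.1.val = fun i => C i.rev := by rw [hC]; funext i; simp
  have y2 : y.2.val = fun i => D i.rev := by rw [hD]; funext i; simp
  rw [WW11_lhs q N hg hn x y A B C D hA hB hC hD sA sB sC sD, Matrix.sum_apply]
  have rhs : ∀ j ∈ Finset.range (N + 1),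
      (qb q (2 * N + (n - 1) + j) j • em q n N j) x y =
      ∑ β ∈ (Fintype.piFinset (fun i => Finset.range (D i + 1))).filter
        (fun β => ∑ i, β i = j), qb q (2 * N + (n - 1) + j) j *
          (if ∀ i, β i ≤ A i then emt q (fun i => (A - β) i.rev) (fun i => C i.rev)
            (fun i => B i.rev) (fun i => A i.rev) (fun i => D i.rev) else 0) := by
    intro j hj
    have hj' : j ≤ N := by
      have := Finset.mem_range.1 hj
      omega
    rw [Matrix.smul_apply, smul_eq_mul, em_entry q N (N - j) j (by omega) hg hn,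
      ← Finset.mul_sum]
    congr 1
    rw [x1, x2, y1, y2]
    refine Finset.sum_bij_ne_zero (fun α _ _ => fun i => A i - α.val i.rev) ?_ ?_ ?_ ?_
    · intro α _ hα
      have hc : (∀ i, α.val i ≤ A i.rev) ∧ (∀ i, A i.rev ≤ D i.rev + α.val i) := by
        by_contra hcon
        apply hα
        unfold emt
        rw [if_neg]
        rintro ⟨_, c2, c3, _⟩
        exact hcon ⟨c2, c3⟩
      rw [Finset.mem_filter, Fintype.mem_piFinset]
      constructor
      · intro i
        rw [Finset.mem_range]
        have := hc.2 i.rev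
        rw [Fin.rev_rev] at this
        omega
      · have h1 : ∑ i, (A i - α.val i.rev) + ∑ i, α.rev.val i = ∑ i, A i := by
          rw [← Finset.sum_add_distrib]
          refine Finset.sum_congr rfl fun i _ => ?_
          have := hc.1 i.rev
          rw [Fin.rev_rev] at this
          simp only [Vn.rev_val]
          omega
        rw [α.rev.sum, sA] at h1
        change ∑ i, (A i - α.val i.rev) = j
        omega
    · intro α _ hα α' _ hα' heq
      have hc : (∀ i, α.val i ≤ A i.rev) := by
        by_contra hcon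
        apply hα
        unfold emt
        rw [if_neg]
        rintro ⟨_, c2, _⟩
        exact hcon c2
      have hc' : (∀ i, α'.val i ≤ A i.rev) := by
        by_contra hcon
        apply hα'
        unfold emt
        rw [if_neg]
        rintro ⟨_, c2, _⟩
        exact hcon c2
      apply Vn.ext
      funext i
      have h1 := congrFun heq i.rev
      have h2 := hc i
      have h3 := hc' i
      simp only [Fin.rev_rev] at h1
      omega
    · intro β hβ hne
      rw [Finset.mem_filter, Fintype.mem_piFinset] at hβ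
      have hβA : ∀ i, β i ≤ A i := by
        by_contra hcon
        exact hne (if_neg hcon)
      have hs : ∑ i, (A - β) i = N - j := by
        have h1 : ∑ i, (A - β) i + ∑ i, β i = ∑ i, A i := by
          rw [← Finset.sum_add_distrib]
          refine Finset.sum_congr rfl fun i _ => ?_
          have := hβA i
          rw [Pi.sub_apply]
          omega
        rw [hβ.2, sA] at h1
        omega
      refine ⟨(⟨A - β, hs⟩ : Vn n (N - j)).rev, Finset.mem_univ _, ?_, ?_⟩
      · rw [if_pos hβA] at hne
        exact hne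
      · funext i
        have := hβA i
        simp only [Vn.rev_val, Fin.rev_rev, Pi.sub_apply]
        omega
    · intro α _ hα
      have hc : (∀ i, α.val i ≤ A i.rev) := by
        by_contra hcon
        apply hα
        unfold emt
        rw [if_neg]
        rintro ⟨_, c2, _⟩
        exact hcon c2
      rw [if_pos (fun i => Nat.sub_le _ _)]
      congr 1
      funext i
      have := hc i
      simp only [Pi.sub_apply, Fin.rev_rev]
      omega
  rw [Finset.sum_congr rfl rhs]
  split_ifs with hAB
  · have maps : ∀ β ∈ Fintype.piFinset (fun i => Finset.range (D i + 1)),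
        ∑ i, β i ∈ Finset.range (N + 1) := by
      intro β hβ
      rw [Finset.mem_range, ← sD]
      refine Nat.lt_succ_of_le (Finset.sum_le_sum fun i _ => ?_)
      have := Finset.mem_range.1 (Fintype.mem_piFinset.1 hβ i)
      omega
    rw [← Finset.sum_fiberwise_of_maps_to maps]
    refine Finset.sum_congr rfl fun j _ => Finset.sum_congr rfl fun β hβ => ?_
    rw [Finset.mem_filter, Fintype.mem_piFinset] at hβ
    rw [hβ.2]
    congr 1
    have hD' : ∀ i, β i ≤ D i := fun i => by
      have := Finset.mem_range.1 (hβ.1 i)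
      omega
    split_ifs with h1
    · exact (WW11_term q N hg hn A B C D β bA bB hAB hD' h1).symm
    · push Not at h1
      obtain ⟨i, hi⟩ := h1
      rw [Finset.prod_eq_zero (Finset.mem_univ i), mul_zero]
      rw [qb_lt q _ _ hi, zero_mul]
  · symm
    refine Finset.sum_eq_zero fun j _ => Finset.sum_eq_zero fun β _ => ?_
    split_ifs with h1
    · unfold emt
      rw [if_neg, mul_zero]
      rintro ⟨-, -, -, c4⟩
      apply hAB
      funext i
      have := c4 i.rev
      simp only [Fin.rev_rev] at this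
      simp only [Pi.add_apply]
      omega
    · rw [mul_zero]

/-- The square of the crossing is the identity on the kernel of `CC`. -/
theorem YY_ker (q : ℂ) (N : ℕ) (e : ℤ) (he : e = 1 ∨ e = -1) (hg : Gen q n (N + 1)) (hn : 1 ≤ n)
    {ι : Type*} (W : Matrix (I2 n (N + 1)) ι ℂ) (hW : CC q n N * W = 0) :
    Ym q n (N + 1) e * (Ym q n (N + 1) e * W) = W := by
  have h1 : CC q n N * (Ym q n (N + 1) e * W) = 0 := by
    rw [← Matrix.mul_assoc, CC_Y q N e he hg hn, Matrix.smul_mul, Matrix.mul_assoc, hW,
      Matrix.mul_zero, smul_zero]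
  rw [Y_ker q N e hg hn _ h1, Y_ker q N e hg hn W hW]
  rw [← Matrix.smul_mul, ← Matrix.smul_mul, ← Matrix.mul_assoc, Yk_sq q (N + 1) hg hn,
    Finset.sum_range_succ', Matrix.add_mul, Matrix.sum_mul]
  rw [Finset.sum_eq_zero]
  · rw [zero_add, qb_zero_right, one_smul]
    show (1 : Matrix (I2 n (N + 1)) (I2 n (N + 1)) ℂ) * W = W
    rw [Matrix.one_mul]
  · intro j _
    show (qb q (2 * (N + 1) + (n - 1) + (j + 1)) (j + 1) •
      ((qn q ((j : ℤ) + 1) ^ 2)⁻¹ • (DD q n N * em q n N j * CC q n N))) * W = 0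
    rw [Matrix.smul_mul, Matrix.smul_mul, Matrix.mul_assoc, hW, Matrix.mul_zero, smul_zero,
      smul_zero]

end Pool.Agent.H63.VC11

end

section

/-! # The eigenvalues of a full twist -/

namespace Pool.Agent.H63.VC11

open Pool.Agent.H63.VC7 Pool.Agent.H63.VC8 Matrix

variable {n : ℕ}

private theorem T11_step (q : ℂ) (N : ℕ) (e : ℤ) (hg : Gen q n (N + 1)) (hn : 1 ≤ n)
    (he : e = 1 ∨ e = -1)
    (ih : Ym q n N e * Ym q n N e = Oh q n N (fun X => q ^ (e * (2 * ((N : ℤ) * ((N : ℤ) + n - 1) -
      (X : ℤ) * ((X : ℤ) + n - 1)))))) :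
    Ym q n (N + 1) e * Ym q n (N + 1) e = Oh q n (N + 1) (fun X => q ^ (e * (2 *
      (((N + 1 : ℕ) : ℤ) * (((N + 1 : ℕ) : ℤ) + n - 1) - (X : ℤ) * ((X : ℤ) + n - 1))))) := by
  have hgN : Gen q n N := hg.mono (Nat.le_succ N)
  have hq : q ≠ 0 := hg.1
  set Y := Ym q n (N + 1) e with hY
  set D := DD q n N with hD
  set C := CC q n N with hC
  set A := Oh q n N (fun X => (E1 q n (N + 1) X)⁻¹) with hA
  set f : ℕ → ℂ := fun X => q ^ (e * (2 * ((N : ℤ) * ((N : ℤ) + n - 1) -
      (X : ℤ) * ((X : ℤ) + n - 1)))) with hf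
  set g : ℕ → ℂ := fun X => q ^ (e * (2 *
      (((N + 1 : ℕ) : ℤ) * (((N + 1 : ℕ) : ℤ) + n - 1) - (X : ℤ) * ((X : ℤ) + n - 1)))) with hgf
  set c : ℂ := q ^ (e * (2 * (N : ℤ) + n)) with hc
  have hE : ∀ X ≤ N, E1 q n (N + 1) X ≠ 0 := fun X hX => E1_ne hg hn (Nat.lt_succ_of_le hX)
  have hCDA : C * D * A = 1 := by
    rw [hC, hD, hA, CD_Oh q N hg hn, Oh_mul q N hgN hn]
    rw [Oh_congr q N (fun X => E1 q n (N + 1) X * (E1 q n (N + 1) X)⁻¹) (fun _ => 1)
      (fun X hX => mul_inv_cancel₀ (hE X hX)), Oh_const, one_smul]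
  have hker : C * (1 - D * A * C) = 0 := by
    have : C * (D * A * C) = C * D * A * C := by
      simp only [Matrix.mul_assoc]
    rw [Matrix.mul_sub, this, hCDA, Matrix.mul_one, Matrix.one_mul, sub_self]
  have hYY := YY_ker q N e he hg hn (1 - D * A * C) hker
  have hYD : Y * D = c • (D * Ym q n N e) := Y_DD q N e he hg hn
  have hYYD : Y * (Y * D) = (c * c) • (D * Oh q n N f) := by
    rw [hYD, Matrix.mul_smul, ← Matrix.mul_assoc, hYD, Matrix.smul_mul, Matrix.mul_assoc, ih,
      smul_smul]
  have hsum : Y * Y = (c * c) • (D * Oh q n N f * A * C) + (1 - D * A * C) := by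
    have h1 : Y * Y = Y * (Y * (D * A * C)) + Y * (Y * (1 - D * A * C)) := by
      rw [← Matrix.mul_add, ← Matrix.mul_add, add_sub_cancel, Matrix.mul_one]
    have h2 : Y * (Y * (D * A * C)) = Y * (Y * D) * A * C := by
      simp only [Matrix.mul_assoc]
    rw [h1, h2, hYYD]
    change (c * c) • (D * Oh q n N f) * A * C + Y * (Y * (1 - D * A * C)) = _
    rw [hYY, Matrix.smul_mul, Matrix.smul_mul]
  have hfg : ∀ X : ℕ, c * c * f X = g X := by
    intro X
    simp only [hc, hf, hgf]
    rw [← zpow_add₀ hq, ← zpow_add₀ hq]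
    congr 1
    push_cast
    ring
  have hg1 : g (N + 1) = 1 := by
    simp only [hgf]
    rw [sub_self, mul_zero, mul_zero, zpow_zero]
  have hdv : Oh q n N (dv q n N g) = (c * c) • (Oh q n N f * A) - A := by
    rw [hA, Oh_mul q N hgN hn, ← Oh_smul]
    have h1 : Oh q n N (fun X => c * c * (f X * (E1 q n (N + 1) X)⁻¹)) =
        Oh q n N (dv q n N g) + Oh q n N (fun X => (E1 q n (N + 1) X)⁻¹) := by
      rw [← Oh_add]
      apply Oh_congr
      intro X _
      unfold dv
      rw [hg1, ← hfg X, div_eq_mul_inv]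
      ring
    rw [h1, add_sub_cancel_right]
  have hOh : Oh q n (N + 1) g = g (N + 1) • 1 + D * Oh q n N (dv q n N g) * C := rfl
  rw [hOh, hg1, one_smul, hdv, hsum]
  rw [Matrix.mul_sub, Matrix.sub_mul, Matrix.mul_smul, Matrix.smul_mul]
  simp only [Matrix.mul_assoc]
  abel

theorem Y_sq (q : ℂ) (N : ℕ) (e : ℤ) (he : e = 1 ∨ e = -1) (hg : Gen q n N) (hn : 1 ≤ n) :
    Ym q n N e * Ym q n N e = Oh q n N (fun X => q ^ (e * (2 * ((N : ℤ) * ((N : ℤ) + n - 1) -
      (X : ℤ) * ((X : ℤ) + n - 1))))) := by
  induction N with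
  | zero =>
    rw [Ym_zero q e hg hn, Matrix.mul_one]
    have : Oh q n 0 (fun X => q ^ (e * (2 * (((0 : ℕ) : ℤ) * (((0 : ℕ) : ℤ) + n - 1) -
      (X : ℤ) * ((X : ℤ) + n - 1))))) = (q ^ (e * (2 * (((0 : ℕ) : ℤ) * (((0 : ℕ) : ℤ) + n - 1) -
      ((0 : ℕ) : ℤ) * (((0 : ℕ) : ℤ) + n - 1))))) • (1 : Matrix (I2 n 0) (I2 n 0) ℂ) := rfl
    rw [this, sub_self, mul_zero, mul_zero, zpow_zero, one_smul]
  | succ N ih => exact T11_step q N e hg hn he (ih (hg.mono (Nat.le_succ N)))

/-- `|r|` full twists. -/
theorem Y_twist (q : ℂ) (N : ℕ) (hg : Gen q n N) (hn : 1 ≤ n) (r : ℤ) :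
    (Ym q n N (if 0 < r then -1 else 1) * Ym q n N (if 0 < r then -1 else 1)) ^ r.natAbs =
      Oh q n N (tws q n N r) := by
  rw [Y_sq q N _ (by split_ifs <;> simp) hg hn, Oh_pow q N hg hn]
  apply Oh_congr
  intro X _
  unfold tws
  rw [← _root_.zpow_natCast, ← _root_.zpow_mul]
  congr 1
  by_cases hr : 0 < r
  · rw [if_pos hr, Int.natCast_natAbs, abs_of_pos hr]
    ring
  · rw [if_neg hr, Int.natCast_natAbs, abs_of_nonpos (not_lt.mp hr)]
    ring

end Pool.Agent.H63.VC11

end
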