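import Pool.Agent.H94.PA.H63.VC4.KBN
import Pool.Agent.H94.PA.M08
import Pool.Agent.H94.PA.M39
import Pool.Agent.H94.PA.M42

/-! The parts of this file: H63.VC11.Flip11, H63.VC11.Acts11, H63.VC8.GNl8, H63.VC11.Tr11. -/

section

/-! # Tangles seen from behind -/

namespace Pool.Agent.H63.VC11

open Pool.Agent.H63.VC7 Pool.Agent.H63.VC8 Matrix

variable {n N : ℕ}

/-- The matrix of `crossUD`. -/
noncomputable def X1m (q : ℂ) (n N : ℕ) (e : ℤ) : Matrix (I2 n N) (I2 n N) ℂ := fun x y =>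
  (wt q x.1.val)⁻¹ * wt q y.2.val * Rm q n N e (x.2, y.2) (x.1, y.1)

/-- The matrix of `crossDU`. -/
noncomputable def X2m (q : ℂ) (n N : ℕ) (e : ℤ) : Matrix (I2 n N) (I2 n N) ℂ := fun x y =>
  Rm q n N e (y.1, x.1) (y.2, x.2)

/-- The rotation by a quarter turn which appears at the nodes with orientation `true`. -/
noncomputable def rotU (q : ℂ) (B : Matrix (I2 n N) (I2 n N) ℂ) : Matrix (I2 n N) (I2 n N) ℂ :=
  fun x y => wt q y.2.val * B (x.2, y.2) (x.1, y.1)

/-- The rotation by a quarter turn which appears at the nodes with orientation `false`. -/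
noncomputable def rotD (q : ℂ) (B : Matrix (I2 n N) (I2 n N) ℂ) : Matrix (I2 n N) (I2 n N) ℂ :=
  fun x y => (wt q x.2.val)⁻¹ * B (y.1, x.1) (y.2, x.2)

private theorem Flip11_gf_rev (q : ℂ) (a : Fin n → ℕ) : gf q (fun i => a i.rev) = gf q a := by
  unfold gf
  exact Equiv.prod_comp Fin.revPerm (fun i => qf q (a i))

private theorem Flip11_Rm (q : ℂ) (e : ℤ) (hg : Gen q n N) (hn : 1 ≤ n) (a b c d : Vn n N) :
    Rm q n N e (c, d) (b, a) = Rm q n N e (d.rev, c.rev) (a.rev, b.rev) := by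
  rw [Rm_eq q N e hg hn, Rm_eq q N e hg hn]
  simp only [Vn.rev_val]
  rw [KR_flip q N e hg.1 (hg.br_one hn) c.val d.val b.val a.val (b.sum.trans a.sum.symm),
    Flip11_gf_rev, Flip11_gf_rev, mul_comm (gf q b.val)]

private theorem Flip11_wt_add {q : ℂ} (hq : q ≠ 0) (a b : Fin n → ℕ) :
    wt q (a + b) = wt q a * wt q b := by
  unfold wt
  rw [← zpow_add₀ hq]
  congr 1
  simp only [Pi.add_apply, Nat.cast_add, add_mul, Finset.sum_add_distrib]

/-- The exchange of the two factors followed by the reversal. -/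
private def Flip11_E (n N : ℕ) : I2 n N ≃ I2 n N where
  toFun w := (w.2.rev, w.1.rev)
  invFun w := (w.2.rev, w.1.rev)
  left_inv w := by simp
  right_inv w := by simp

theorem X2_X1 (q : ℂ) (e : ℤ) (hg : Gen q n N) (hn : 1 ≤ n) :
    X2m q n N e * X1m q n N e = Ym q n N e * Ym q n N e := by
  ext x y
  rw [Matrix.mul_apply, Matrix.mul_apply, ← Equiv.sum_comp (Flip11_E n N)
    (fun z => Ym q n N e x z * Ym q n N e z y)]
  refine Finset.sum_congr rfl fun w _ => ?_
  simp only [Flip11_E, Equiv.coe_fn_mk, Ym, X1m, X2m]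
  rw [Flip11_Rm q e hg hn w.2.rev x.2.rev x.1.rev w.1.rev]
  simp only [Vn.rev_rev, Vn.rev_val]
  rw [wt_rev]
  ring

theorem X1_X2 (q : ℂ) (e : ℤ) (hg : Gen q n N) (hn : 1 ≤ n) :
    X1m q n N e * X2m q n N e = flipM q (Ym q n N e * Ym q n N e) := by
  ext x y
  have hw := wt_ne hg.1 y.1.val
  simp only [flipM, Matrix.mul_apply, Finset.mul_sum]
  refine Finset.sum_congr rfl fun z _ => ?_
  simp only [Ym, X1m, X2m]
  rw [Flip11_Rm q e hg hn y.2.rev z.2.rev z.1.rev y.1.rev]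
  simp only [Vn.rev_rev, Vn.rev_val]
  rw [wt_rev]
  field_simp

theorem flipM_mul (q : ℂ) (hq : q ≠ 0) (A B : Matrix (I2 n N) (I2 n N) ℂ) :
    flipM q (A * B) = flipM q A * flipM q B := by
  ext x y
  rw [Matrix.mul_apply]
  simp only [flipM]
  rw [Matrix.mul_apply, ← Equiv.sum_comp (Flip11_E n N), Finset.mul_sum]
  refine Finset.sum_congr rfl fun w _ => ?_
  have hw := wt_ne hq w.1.val
  simp only [Flip11_E, Equiv.coe_fn_mk]
  field_simp

theorem flipM_one (q : ℂ) (hq : q ≠ 0) : flipM q (1 : Matrix (I2 n N) (I2 n N) ℂ) = 1 := by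
  ext x y
  simp only [flipM]
  by_cases h : x = y
  · subst h
    rw [Matrix.one_apply_eq, Matrix.one_apply_eq, mul_one, mul_inv_cancel₀ (wt_ne hq _)]
  · rw [Matrix.one_apply_ne h, Matrix.one_apply_ne, mul_zero]
    intro h'
    apply h
    exact (Flip11_E n N).injective h'

theorem flipM_pow (q : ℂ) (hq : q ≠ 0) (A : Matrix (I2 n N) (I2 n N) ℂ) (k : ℕ) :
    flipM q (A ^ k) = flipM q A ^ k := by
  induction k with
  | zero => rw [pow_zero, pow_zero, flipM_one q hq]
  | succ k ih => rw [pow_succ, pow_succ, flipM_mul q hq, ih]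

private theorem Flip11_key {q : ℂ} (hq : q ≠ 0) {a b c d : Fin n → ℕ}
    (h : a + b = c + d) : wt q a * wt q b = wt q c * wt q d := by
  rw [← Flip11_wt_add hq, ← Flip11_wt_add hq, h]

private theorem Flip11_rev_key {a b c d : Vn n N}
    (h : a.rev.val + b.rev.val = c.rev.val + d.rev.val) : a.val + b.val = c.val + d.val := by
  funext i
  have := congrFun h i.rev
  simpa [Vn.rev_val] using this

theorem rotU_flipM (q : ℂ) (hq : q ≠ 0) (X : Matrix (I2 n N) (I2 n N) ℂ)
    (hX : ∀ x y, X x y ≠ 0 → x.1.val + y.2.val = y.1.val + x.2.val) :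
    rotU q (flipM q X) = rotM q X := by
  ext x y
  simp only [rotU, flipM, rotM]
  by_cases h : X (y.2.rev, x.2.rev) (y.1.rev, x.1.rev) = 0
  · rw [h]; simp
  · have h1 := Flip11_key hq (Flip11_rev_key (hX _ _ h))
    have hw := wt_ne hq x.2.val
    rw [← mul_assoc, ← mul_assoc, h1, mul_assoc (wt q y.1.val), mul_inv_cancel₀ hw, mul_one]

theorem rotD_eq (q : ℂ) (hq : q ≠ 0) (X : Matrix (I2 n N) (I2 n N) ℂ)
    (hX : ∀ x y, X x y ≠ 0 → x.1.val + y.2.val = y.1.val + x.2.val) :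
    rotD q X = flipM q (rotM q X) := by
  ext x y
  simp only [rotD, flipM, rotM, Vn.rev_rev]
  by_cases h : X (y.1, x.1) (y.2, x.2) = 0
  · rw [h]; simp
  · have h1 := Flip11_key hq (hX _ _ h)
    have h2 := wt_ne hq x.2.val
    have h3 := wt_ne hq x.1.val
    have h4 := wt_ne hq y.2.val
    rw [Vn.rev_val, wt_rev]
    simp only at h1
    rw [← mul_assoc]
    congr 1
    field_simp
    linear_combination -h1

end Pool.Agent.H63.VC11

end

section

/-! # Diagrams as operators on the tensor product of two factors -/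

namespace Pool.Agent.H63.VC11

open Pool.Agent.H63.VC7 Pool.Agent.H63.VC8 Matrix

variable {n N : ℕ}

/-- The diagram `w` acts as `X` on the strands `i` and `i + 1`. -/
def Acts (q : ℂ) (w : List Piece) (i : ℕ) (X : Matrix (I2 n N) (I2 n N) ℂ) : Prop :=
  ∀ (ψ : List (Fin n → ℕ) → ℂ) (p s : List (Fin n → ℕ)) (x : I2 n N), p.length = i →
    eval q n N w ψ (p ++ x.1.val :: x.2.val :: s) =
      ∑ y : I2 n N, X x y * ψ (p ++ y.1.val :: y.2.val :: s)

theorem eval_append (q : ℂ) (n N : ℕ) (w1 w2 : List Piece) (ψ : List (Fin n → ℕ) → ℂ) :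
    eval q n N (w1 ++ w2) ψ = eval q n N w2 (eval q n N w1 ψ) := by
  induction w1 generalizing ψ with
  | nil => rfl
  | cons x w ih => exact ih (act q n N x ψ)

theorem Acts_nil (q : ℂ) (i : ℕ) : Acts q [] i (1 : Matrix (I2 n N) (I2 n N) ℂ) := by
  intro ψ p s x _
  simp only [Matrix.one_apply, ite_mul, one_mul, zero_mul, Finset.sum_ite_eq, Finset.mem_univ,
    if_true]
  rfl

theorem Acts_append {q : ℂ} {i : ℕ} {w1 w2 : List Piece} {X1 X2 : Matrix (I2 n N) (I2 n N) ℂ}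
    (h1 : Acts q w1 i X1) (h2 : Acts q w2 i X2) : Acts q (w1 ++ w2) i (X2 * X1) := by
  intro ψ p s x hp
  rw [eval_append, h2 _ p s x hp]
  simp only [h1 ψ p s _ hp, Matrix.mul_apply, Finset.sum_mul, Finset.mul_sum]
  rw [Finset.sum_comm]
  refine Finset.sum_congr rfl fun y _ => Finset.sum_congr rfl fun z _ => ?_
  ring

/-- `ψ` vanishes at the pairs of indices of degrees `A` and `B`. -/
private def Acts11_Van (A B : ℤ) (ψ : Fn2 n) : Prop :=
  ∀ x : (Fin n → ℕ) × (Fin n → ℕ), ((∑ i, x.1 i : ℕ) : ℤ) = A → ((∑ i, x.2 i : ℕ) : ℤ) = B → ψ x = 0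

private theorem Acts11_deg_add (a : Fin n → ℕ) (i : Fin n) :
    ((∑ j, (a + Pi.single i 1 : Fin n → ℕ) j : ℕ) : ℤ) = ((∑ j, a j : ℕ) : ℤ) + 1 := by
  simp [Finset.sum_add_distrib]

private theorem Acts11_deg_sub {a : Fin n → ℕ} {i : Fin n} (h : a i ≠ 0) :
    ((∑ j, (a - Pi.single i 1 : Fin n → ℕ) j : ℕ) : ℤ) = ((∑ j, a j : ℕ) : ℤ) - 1 := by
  obtain ⟨b, rfl⟩ := exists_add h
  rw [add_sub_single, Acts11_deg_add]
  ring

private theorem Acts11_Van_E (q : ℂ) {A B : ℤ} {ψ : Fn2 n} (h : Acts11_Van A B ψ) :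
    Acts11_Van (A + 1) (B - 1) (Eo q n ψ) := by
  intro x h1 h2
  rw [Eo_apply]
  unfold opE
  refine Finset.sum_eq_zero fun i _ => ?_
  by_cases hi0 : x.1 i = 0
  · rw [hi0]
    simp [qn_zero]
  · rw [h (x.1 - Pi.single i 1, x.2 + Pi.single i 1), mul_zero]
    · show ((∑ j, (x.1 - Pi.single i 1 : Fin n → ℕ) j : ℕ) : ℤ) = A
      rw [Acts11_deg_sub hi0]; linarith
    · show ((∑ j, (x.2 + Pi.single i 1 : Fin n → ℕ) j : ℕ) : ℤ) = B
      rw [Acts11_deg_add]; linarith

private theorem Acts11_Van_F (q : ℂ) {A B : ℤ} {ψ : Fn2 n} (h : Acts11_Van A B ψ) :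
    Acts11_Van (A - 1) (B + 1) (Fo q n ψ) := by
  intro x h1 h2
  rw [Fo_apply]
  unfold opF
  refine Finset.sum_eq_zero fun i _ => ?_
  by_cases hi0 : x.2 i = 0
  · rw [hi0]
    simp [qn_zero]
  · rw [h (x.1 + Pi.single i 1, x.2 - Pi.single i 1), mul_zero]
    · show ((∑ j, (x.1 + Pi.single i 1 : Fin n → ℕ) j : ℕ) : ℤ) = A
      rw [Acts11_deg_add]; linarith
    · show ((∑ j, (x.2 - Pi.single i 1 : Fin n → ℕ) j : ℕ) : ℤ) = B
      rw [Acts11_deg_sub hi0]; linarith

private theorem Acts11_Van_Epow (q : ℂ) (k : ℕ) {A B : ℤ} {ψ : Fn2 n} (h : Acts11_Van A B ψ) :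
    Acts11_Van (A + k) (B - k) ((Eo q n ^ k) ψ) := by
  induction k with
  | zero => simpa using h
  | succ k ih =>
    have h1 := Acts11_Van_E q ih
    rw [pow_succ', Module.End.mul_apply]
    have e1 : A + ((k + 1 : ℕ) : ℤ) = A + k + 1 := by push_cast; ring
    have e2 : B - ((k + 1 : ℕ) : ℤ) = B - k - 1 := by push_cast; ring
    rw [e1, e2]
    exact h1

private theorem Acts11_Van_Fpow (q : ℂ) (k : ℕ) {A B : ℤ} {ψ : Fn2 n} (h : Acts11_Van A B ψ) :
    Acts11_Van (A - k) (B + k) ((Fo q n ^ k) ψ) := by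
  induction k with
  | zero => simpa using h
  | succ k ih =>
    have h1 := Acts11_Van_F q ih
    rw [pow_succ', Module.End.mul_apply]
    have e1 : A - ((k + 1 : ℕ) : ℤ) = A - k - 1 := by push_cast; ring
    have e2 : B + ((k + 1 : ℕ) : ℤ) = B + k + 1 := by push_cast; ring
    rw [e1, e2]
    exact h1

private theorem Acts11_opR_eq (q : ℂ) (N : ℕ) (e : ℤ) (ψ : Fn2 n)
    (x : (Fin n → ℕ) × (Fin n → ℕ)) :
    opR q N e ψ x = ∑ k ∈ Finset.range (N + 1), (-1) ^ (N - k) * q ^ (e * ((k : ℤ) - N)) /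
      qf q k ^ 2 * (Eo q n ^ k) ((Fo q n ^ k) ψ) x := by
  unfold opR
  refine Finset.sum_congr rfl fun k _ => ?_
  rw [Eo_pow, Fo_pow]

private theorem Acts11_opR_van (q : ℂ) (N : ℕ) (e : ℤ) {ψ : Fn2 n} (h : Acts11_Van N N ψ)
    (x : I2 n N) : opR q N e ψ (x.1.val, x.2.val) = 0 := by
  rw [Acts11_opR_eq]
  refine Finset.sum_eq_zero fun k _ => ?_
  have h1 := Acts11_Van_Epow q k (Acts11_Van_Fpow q k h)
  rw [h1 (x.1.val, x.2.val), mul_zero]
  · show ((∑ i, x.1.val i : ℕ) : ℤ) = _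
    rw [x.1.sum]; ring
  · show ((∑ i, x.2.val i : ℕ) : ℤ) = _
    rw [x.2.sum]; ring

private theorem Acts11_opR_add (q : ℂ) (N : ℕ) (e : ℤ) (ψ φ : Fn2 n)
    (x : (Fin n → ℕ) × (Fin n → ℕ)) :
    opR q N e (ψ + φ) x = opR q N e ψ x + opR q N e φ x := by
  rw [Acts11_opR_eq, Acts11_opR_eq, Acts11_opR_eq, ← Finset.sum_add_distrib]
  refine Finset.sum_congr rfl fun k _ => ?_
  rw [map_add, map_add, Pi.add_apply]
  ring

private theorem Acts11_opR_sum {ι : Type*} (q : ℂ) (N : ℕ) (e : ℤ) (s : Finset ι) (f : ι → Fn2 n)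
    (c : ι → ℂ) (x : (Fin n → ℕ) × (Fin n → ℕ)) :
    opR q N e (∑ i ∈ s, c i • f i) x = ∑ i ∈ s, opR q N e (f i) x * c i := by
  rw [Acts11_opR_eq]
  simp only [map_sum, map_smul, Finset.sum_apply, Pi.smul_apply, smul_eq_mul, Finset.mul_sum]
  rw [Finset.sum_comm]
  refine Finset.sum_congr rfl fun i _ => ?_
  rw [Acts11_opR_eq, Finset.sum_mul]
  refine Finset.sum_congr rfl fun k _ => ?_
  ring

/-- The crossing in terms of its matrix. -/
private theorem Acts11_opR (q : ℂ) (N : ℕ) (e : ℤ) (φ : Fn2 n) (x : I2 n N) :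
    opR q N e φ (x.1.val, x.2.val) = ∑ y : I2 n N, Rm q n N e x y * φ (y.1.val, y.2.val) := by
  set φ1 : Fn2 n := ∑ y : I2 n N, φ (y.1.val, y.2.val) •
    (fun p : (Fin n → ℕ) × (Fin n → ℕ) => if p = (y.1.val, y.2.val) then (1 : ℂ) else 0) with hφ1
  have hval : ∀ z : (Fin n → ℕ) × (Fin n → ℕ), φ1 z =
      ∑ y : I2 n N, φ (y.1.val, y.2.val) * (if z = (y.1.val, y.2.val) then (1 : ℂ) else 0) := by
    intro z
    rw [hφ1, Finset.sum_apply]
    rfl
  have hvan : Acts11_Van (n := n) N N (φ - φ1) := by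
    intro z h1 h2
    have h1' : ∑ i, z.1 i = N := by exact_mod_cast h1
    have h2' : ∑ i, z.2 i = N := by exact_mod_cast h2
    rw [Pi.sub_apply, hval, Finset.sum_eq_single ((⟨z.1, h1'⟩, ⟨z.2, h2'⟩) : I2 n N)]
    · simp
    · intro y _ hy
      rw [if_neg, mul_zero]
      intro hz
      apply hy
      apply Prod.ext
      · exact Vn.ext (congrArg Prod.fst hz).symm
      · exact Vn.ext (congrArg Prod.snd hz).symm
    · intro hne
      exact absurd (Finset.mem_univ _) hne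
  have hsplit : φ = φ1 + (φ - φ1) := by ring
  rw [hsplit, Acts11_opR_add, Acts11_opR_van q N e hvan, add_zero, hφ1, Acts11_opR_sum, ← hφ1,
    ← hsplit]
  rfl

/-- A crossing of two strands oriented upwards. -/
theorem Acts_pos (q : ℂ) (i : ℕ) : Acts q [Piece.pos i] i (Rm q n N 1) := by
  intro ψ p s x hp
  change act q n N (Piece.pos i) ψ _ = _
  simp only [act, List.drop_left' hp, List.take_left' hp]
  exact Acts11_opR q N 1 (fun p' => ψ (p ++ p'.1 :: p'.2 :: s)) x

theorem Acts_neg (q : ℂ) (i : ℕ) : Acts q [Piece.neg i] i (Rm q n N (-1)) := by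
  intro ψ p s x hp
  change act q n N (Piece.neg i) ψ _ = _
  simp only [act, List.drop_left' hp, List.take_left' hp]
  exact Acts11_opR q N (-1) (fun p' => ψ (p ++ p'.1 :: p'.2 :: s)) x

private theorem Acts11_cupUD (q : ℂ) (i : ℕ) (ψ : List (Fin n → ℕ) → ℂ) (p r : List (Fin n → ℕ))
    (a b : Fin n → ℕ) (hp : p.length = i) :
    act q n N (Piece.cupUD i) ψ (p ++ a :: b :: r) =
      if a = b ∧ ∑ j, a j = N then 1 * ψ (p ++ r) else 0 := by
  simp only [act, List.drop_left' hp, List.take_left' hp, one_mul]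

private theorem Acts11_cupDU (q : ℂ) (i : ℕ) (ψ : List (Fin n → ℕ) → ℂ) (p r : List (Fin n → ℕ))
    (a b : Fin n → ℕ) (hp : p.length = i) :
    act q n N (Piece.cupDU i) ψ (p ++ a :: b :: r) =
      if a = b ∧ ∑ j, a j = N then (wt q a)⁻¹ * ψ (p ++ r) else 0 := by
  simp only [act, List.drop_left' hp, List.take_left' hp]

private theorem Acts11_U {q : ℂ} {i : ℕ} {w : List Piece} {B : Matrix (I2 n N) (I2 n N) ℂ}
    (C : Piece) (κ : (Fin n → ℕ) → ℂ)
    (hC : ∀ (ψ : List (Fin n → ℕ) → ℂ) (p r : List (Fin n → ℕ)) (a b : Fin n → ℕ), p.length = i →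
      act q n N C ψ (p ++ a :: b :: r) = if a = b ∧ ∑ j, a j = N then κ a * ψ (p ++ r) else 0)
    (h : Acts q w (i + 1) B) :
    Acts q (C :: (w ++ [Piece.capUD (i + 2)])) i
      (fun x y => κ x.1.val * wt q y.2.val * B (x.2, y.2) (x.1, y.1)) := by
  intro ψ p s x hp
  have e1 : eval q n N (C :: (w ++ [Piece.capUD (i + 2)])) ψ =
      act q n N (Piece.capUD (i + 2)) (eval q n N w (act q n N C ψ)) := by
    change eval q n N (w ++ [Piece.capUD (i + 2)]) (act q n N C ψ) = _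
    rw [eval_append]
    rfl
  rw [e1]
  have hl : p ++ x.1.val :: x.2.val :: s = (p ++ [x.1.val, x.2.val]) ++ s := by simp
  have hlen : (p ++ [x.1.val, x.2.val]).length = i + 2 := by simp [hp]
  rw [hl]
  simp only [act, List.drop_left' hlen, List.take_left' hlen]
  rw [sum_Vn]
  have key : ∀ a : Vn n N, eval q n N w (act q n N C ψ)
      (p ++ [x.1.val, x.2.val] ++ a.val :: a.val :: s) =
      ∑ c : Vn n N, B (x.2, a) (x.1, c) * (κ x.1.val * ψ (p ++ c.val :: a.val :: s)) := by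
    intro a
    have e2 : p ++ [x.1.val, x.2.val] ++ a.val :: a.val :: s =
        (p ++ [x.1.val]) ++ ((x.2, a) : I2 n N).1.val :: ((x.2, a) : I2 n N).2.val ::
          a.val :: s := by simp
    rw [e2, h (act q n N C ψ) (p ++ [x.1.val]) (a.val :: s) (x.2, a) (by simp [hp]),
      Fintype.sum_prod_type, Finset.sum_eq_single x.1]
    · refine Finset.sum_congr rfl fun c _ => ?_
      congr 1
      have e3 : (p ++ [x.1.val]) ++ ((x.1, c) : I2 n N).1.val :: ((x.1, c) : I2 n N).2.val ::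
          a.val :: s = p ++ x.1.val :: x.1.val :: (c.val :: a.val :: s) := by simp
      rw [e3, hC _ _ _ _ _ hp, if_pos ⟨rfl, x.1.sum⟩]
    · intro b _ hb
      refine Finset.sum_eq_zero fun c _ => ?_
      have e3 : (p ++ [x.1.val]) ++ ((b, c) : I2 n N).1.val :: ((b, c) : I2 n N).2.val ::
          a.val :: s = p ++ x.1.val :: b.val :: (c.val :: a.val :: s) := by simp
      rw [e3, hC _ _ _ _ _ hp, if_neg, mul_zero]
      rintro ⟨hc, _⟩
      exact hb (Vn.ext hc).symm
    · intro hne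
      exact absurd (Finset.mem_univ _) hne
  simp only [key, Fintype.sum_prod_type]
  rw [Finset.sum_comm]
  simp only [Finset.mul_sum]
  rw [Finset.sum_comm]
  rw [Finset.sum_comm]
  refine Finset.sum_congr rfl fun y _ => ?_
  refine Finset.sum_congr rfl fun c _ => ?_
  ring

private theorem Acts11_D {q : ℂ} {i : ℕ} {w : List Piece} {B : Matrix (I2 n N) (I2 n N) ℂ}
    (C : Piece) (κ : (Fin n → ℕ) → ℂ)
    (hC : ∀ (ψ : List (Fin n → ℕ) → ℂ) (p r : List (Fin n → ℕ)) (a b : Fin n → ℕ),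
      p.length = i + 2 →
      act q n N C ψ (p ++ a :: b :: r) = if a = b ∧ ∑ j, a j = N then κ a * ψ (p ++ r) else 0)
    (h : Acts q w (i + 1) B) :
    Acts q (C :: (w ++ [Piece.capDU i])) i
      (fun x y => κ x.2.val * B (y.1, x.1) (y.2, x.2)) := by
  intro ψ p s x hp
  have e1 : eval q n N (C :: (w ++ [Piece.capDU i])) ψ =
      act q n N (Piece.capDU i) (eval q n N w (act q n N C ψ)) := by
    change eval q n N (w ++ [Piece.capDU i]) (act q n N C ψ) = _
    rw [eval_append]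
    rfl
  rw [e1]
  simp only [act, List.drop_left' hp, List.take_left' hp]
  rw [sum_Vn]
  have key : ∀ a : Vn n N, eval q n N w (act q n N C ψ)
      (p ++ a.val :: a.val :: x.1.val :: x.2.val :: s) =
      ∑ c : Vn n N, B (a, x.1) (c, x.2) * (κ x.2.val * ψ (p ++ a.val :: c.val :: s)) := by
    intro a
    have e2 : p ++ a.val :: a.val :: x.1.val :: x.2.val :: s =
        (p ++ [a.val]) ++ ((a, x.1) : I2 n N).1.val :: ((a, x.1) : I2 n N).2.val ::
          x.2.val :: s := by simp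
    rw [e2, h (act q n N C ψ) (p ++ [a.val]) (x.2.val :: s) (a, x.1) (by simp [hp]),
      Fintype.sum_prod_type]
    refine Finset.sum_congr rfl fun c _ => ?_
    rw [Finset.sum_eq_single x.2]
    · congr 1
      have e3 : (p ++ [a.val]) ++ ((c, x.2) : I2 n N).1.val :: ((c, x.2) : I2 n N).2.val ::
          x.2.val :: s = (p ++ [a.val, c.val]) ++ x.2.val :: x.2.val :: s := by simp
      have e4 : p ++ a.val :: c.val :: s = (p ++ [a.val, c.val]) ++ s := by simp
      rw [e3, hC _ _ _ _ _ (by simp [hp]), if_pos ⟨rfl, x.2.sum⟩, e4]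
    · intro b _ hb
      have e3 : (p ++ [a.val]) ++ ((c, b) : I2 n N).1.val :: ((c, b) : I2 n N).2.val ::
          x.2.val :: s = (p ++ [a.val, c.val]) ++ b.val :: x.2.val :: s := by simp
      rw [e3, hC _ _ _ _ _ (by simp [hp]), if_neg, mul_zero]
      rintro ⟨hc, _⟩
      exact hb (Vn.ext hc)
    · intro hne
      exact absurd (Finset.mem_univ _) hne
  simp only [key, Fintype.sum_prod_type]
  refine Finset.sum_congr rfl fun y _ => ?_
  refine Finset.sum_congr rfl fun c _ => ?_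
  ring

theorem Acts_crossUD {q : ℂ} {i : ℕ} {P : ℕ → Piece} {e : ℤ}
    (h : Acts q [P (i + 1)] (i + 1) (Rm q n N e)) : Acts q (crossUD P i) i (X1m q n N e) :=
  Acts11_U (Piece.cupDU i) (fun a => (wt q a)⁻¹)
    (fun ψ p r a b hp => Acts11_cupDU q i ψ p r a b hp) h

theorem Acts_crossDU {q : ℂ} {i : ℕ} {P : ℕ → Piece} {e : ℤ}
    (h : Acts q [P (i + 1)] (i + 1) (Rm q n N e)) : Acts q (crossDU P i) i (X2m q n N e) := by
  have h1 := Acts11_D (Piece.cupUD (i + 2)) (fun _ => 1)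
    (fun ψ p r a b hp => Acts11_cupUD q (i + 2) ψ p r a b hp) h
  have h2 : (fun x y : I2 n N => (1 : ℂ) * Rm q n N e (y.1, x.1) (y.2, x.2)) = X2m q n N e := by
    funext x y
    rw [one_mul]
    rfl
  rw [← h2]
  exact h1

theorem Acts_rotU {q : ℂ} {i : ℕ} {w : List Piece} {B : Matrix (I2 n N) (I2 n N) ℂ}
    (h : Acts q w (i + 1) B) :
    Acts q (Piece.cupUD i :: (w ++ [Piece.capUD (i + 2)])) i (rotU q B) := by
  have h1 := Acts11_U (Piece.cupUD i) (fun _ => 1)
    (fun ψ p r a b hp => Acts11_cupUD q i ψ p r a b hp) h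
  have h2 : (fun x y : I2 n N => (1 : ℂ) * wt q y.2.val * B (x.2, y.2) (x.1, y.1)) =
      rotU q B := by
    funext x y
    rw [one_mul]
    rfl
  rw [← h2]
  exact h1

theorem Acts_rotD {q : ℂ} {i : ℕ} {w : List Piece} {B : Matrix (I2 n N) (I2 n N) ℂ}
    (h : Acts q w (i + 1) B) :
    Acts q (Piece.cupDU (i + 2) :: (w ++ [Piece.capDU i])) i (rotD q B) :=
  Acts11_D (Piece.cupDU (i + 2)) (fun a => (wt q a)⁻¹)
    (fun ψ p r a b hp => Acts11_cupDU q (i + 2) ψ p r a b hp) h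

theorem bracket_closure {q : ℂ} {w : List Piece} {X : Matrix (I2 n N) (I2 n N) ℂ}
    (h : Acts q w 0 X) :
    bracket q n N ([Piece.cupUD 0, Piece.cupDU 1] ++ w ++ [Piece.capDU 1, Piece.capUD 0]) =
      trq q X := by
  set δ : List (Fin n → ℕ) → ℂ := fun l => if l = [] then 1 else 0 with hδ
  have e1 : bracket q n N ([Piece.cupUD 0, Piece.cupDU 1] ++ w ++
      [Piece.capDU 1, Piece.capUD 0]) =
      act q n N (Piece.capUD 0) (act q n N (Piece.capDU 1)
        (eval q n N w (act q n N (Piece.cupDU 1) (act q n N (Piece.cupUD 0) δ)))) [] := by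
    unfold bracket
    rw [eval_append, eval_append]
    rfl
  have key : ∀ a b : Vn n N,
      eval q n N w (act q n N (Piece.cupDU 1) (act q n N (Piece.cupUD 0) δ))
        [a.val, b.val, b.val, a.val] = X (a, b) (a, b) * (wt q b.val)⁻¹ := by
    intro a b
    have e2 := h (act q n N (Piece.cupDU 1) (act q n N (Piece.cupUD 0) δ)) [] [b.val, a.val]
      (a, b) rfl
    simp only [List.nil_append] at e2
    rw [e2, Finset.sum_eq_single (a, b)]
    · have e3 : ([a.val, b.val, b.val, a.val] : List (Fin n → ℕ)) =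
        [a.val] ++ b.val :: b.val :: [a.val] := rfl
      rw [e3, Acts11_cupDU q 1 _ _ _ _ _ rfl, if_pos ⟨rfl, b.sum⟩]
      have e4 : ([a.val] ++ [a.val] : List (Fin n → ℕ)) = [] ++ a.val :: a.val :: [] := rfl
      rw [e4, Acts11_cupUD q 0 _ _ _ _ _ rfl, if_pos ⟨rfl, a.sum⟩]
      simp [hδ]
    · intro y _ hy
      have e3 : (y.1.val :: y.2.val :: [b.val, a.val] : List (Fin n → ℕ)) =
        [y.1.val] ++ y.2.val :: b.val :: [a.val] := rfl
      rw [e3, Acts11_cupDU q 1 _ _ _ _ _ rfl]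
      by_cases h1 : y.2.val = b.val ∧ ∑ j, y.2.val j = N
      · rw [if_pos h1]
        have e4 : ([y.1.val] ++ [a.val] : List (Fin n → ℕ)) = [] ++ y.1.val :: a.val :: [] := rfl
        rw [e4, Acts11_cupUD q 0 _ _ _ _ _ rfl, if_neg, mul_zero, mul_zero]
        rintro ⟨h2, _⟩
        exact hy (Prod.ext (Vn.ext h2) (Vn.ext h1.1))
      · rw [if_neg h1, mul_zero]
    · intro hne
      exact absurd (Finset.mem_univ _) hne
  rw [e1]
  have f1 : ∀ φ : List (Fin n → ℕ) → ℂ, act q n N (Piece.capUD 0) φ [] =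
      ∑ a : Vn n N, wt q a.val * φ [a.val, a.val] := by
    intro φ
    simp only [act]
    rw [sum_Vn]
    rfl
  have f2 : ∀ (φ : List (Fin n → ℕ) → ℂ) (a : Fin n → ℕ), act q n N (Piece.capDU 1) φ [a, a] =
      ∑ b : Vn n N, φ [a, b.val, b.val, a] := by
    intro φ a
    simp only [act]
    rw [sum_Vn]
    rfl
  rw [f1]
  simp only [f2, key, trq, Fintype.sum_prod_type, Finset.mul_sum]
  refine Finset.sum_congr rfl fun a _ => Finset.sum_congr rfl fun b _ => ?_
  ring

end Pool.Agent.H63.VC11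

end

section

/-! # The pointwise limit of the integrand -/

namespace Pool.Agent.H63.VC8

open Pool.Agent.H63.VC
open Pool.Agent.H63.VC3 Pool.Agent.H63.VC4 Pool.Agent.H63.VC7 Complex

variable {m p : ℕ}

theorem GNl8_Qo (n : ℕ) (y : Fin m → ℂ) (v : ℂ) (j : Fin m) (Y : ℕ → Fin m → ℂ) (V : ℕ → ℂ)
    (hY : ∀ j, Filter.Tendsto (fun M => Y M j) Filter.atTop (nhds (y j)))
    (hV : Filter.Tendsto V Filter.atTop (nhds v)) (hok : okS v (some (y j))) :
    Filter.Tendsto (fun M : ℕ => (M : ℂ) * Qo n M (some (Y M j)) (V M) *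
      exp (-M * po (some (Y M j)) (V M))) Filter.atTop (nhds 1) := by
  have h := KBN_Qo_lim n j.castSucc.succ y v Y V hY hV (by rw [ext_mid]; exact hok)
  simp only [ext_mid] at h
  exact h

theorem GNl8_fac (r : ℝ) (n M : ℕ) (A : Finset (Fin m)) (y : Fin m → ℂ) (v : ℂ) :
    (-1 : ℂ) ^ (M + n + 1) * (KG8 r n M A y v * om n M v) * (∏ _j ∈ A, (M : ℂ)) *
      exp (-M * WG r A y v) =
    2 * sin (2 * Real.pi * v) * Bn n M v ^ (2 - (A.card : ℤ)) *
      (∏ j ∈ A, ((M : ℂ) * Qo n M (some (y j)) v *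
      exp (-M * po (some (y j)) v))) * (1 / (1 - ww n M v) ^ 2) := by
  have ho := KBN_om n M v
  have hW : exp (-M * WG r A y v) = exp (-(2 * Real.pi * I * r * M * v ^ 2)) *
      exp (-M * (2 * Real.pi * I * v)) * ∏ j ∈ A, exp (-M * po (some (y j)) v) := by
    rw [← Complex.exp_sum, ← Complex.exp_add, ← Complex.exp_add]
    congr 1
    unfold WG
    rw [← Finset.mul_sum]
    ring
  have hsq : ((-1 : ℂ) ^ (M + n + 1)) * (-1) ^ (M + n + 1) = 1 := by
    rw [← pow_add, ← two_mul, pow_mul]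
    simp
  have hee : exp (2 * Real.pi * I * r * M * v ^ 2) *
      exp (-(2 * Real.pi * I * r * M * v ^ 2)) = 1 := by
    rw [← Complex.exp_add, add_neg_cancel, Complex.exp_zero]
  have hP : (∏ j ∈ A, ((M : ℂ) * Qo n M (some (y j)) v * exp (-M * po (some (y j)) v))) =
      (∏ _j ∈ A, (M : ℂ)) * (∏ j ∈ A, Qo n M (some (y j)) v) *
        ∏ j ∈ A, exp (-M * po (some (y j)) v) := by
    rw [Finset.prod_mul_distrib, Finset.prod_mul_distrib]
  rw [hW, hP]
  unfold KG8
  generalize (∏ j ∈ A, Qo n M (some (y j)) v) = q at *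
  generalize (∏ _j ∈ A, (M : ℂ)) = mm at *
  generalize (∏ j ∈ A, exp (-M * po (some (y j)) v)) = pp at *
  generalize exp (2 * Real.pi * I * r * M * v ^ 2) = a1 at *
  generalize exp (-(2 * Real.pi * I * r * M * v ^ 2)) = a2 at *
  generalize exp (-M * (2 * Real.pi * I * v)) = b at *
  generalize om n M v = o at *
  generalize 1 / (1 - ww n M v) ^ 2 = w at *
  generalize ((-1 : ℂ)) ^ (M + n + 1) = s at *
  generalize sin (2 * Real.pi * v) = sn at *
  generalize Bn n M v ^ (2 - (A.card : ℤ)) = bb at *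
  have e : s * (a1 * (2 * sn) * bb * q * o) * mm * (a2 * b * pp) =
      (a1 * a2) * (s * (o * b)) * (2 * sn * bb * (mm * q * pp)) := by ring
  rw [e, hee, ho]
  have e2 : s * (s * w) = w := by rw [← mul_assoc, hsq, one_mul]
  rw [e2]
  ring

/-- The pointwise limit of the integrand. -/
theorem GN8_lim (s t : Fin m → Fin p) (hst : ∀ j, s j ≠ t j) (r : Fin p → ℝ) (n g : ℕ)
    (hn : 2 ≤ n) (hg : 1 ≤ g) (hgn : g < n)
    (y : Fin m → ℂ) (v : Fin p → ℂ) (hy : ∀ j, |(y j).re - 1 / 4| ≤ 55 / 1000)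
    (hv : ∀ i, |(v i).re| ≤ 15 / 100) (him : ∀ i, 0 < (v i).im) :
    ∃ L : ℂ, L ≠ 0 ∧ ∀ (Y : ℕ → Fin m → ℂ) (V : ℕ → Fin p → ℂ),
      (∀ j, Filter.Tendsto (fun M => Y M j) Filter.atTop (nhds (y j))) →
      (∀ i, Filter.Tendsto (fun M => V M i) Filter.atTop (nhds (v i))) →
      (∀ M i, (V M i).im = (v i).im) →
      Filter.Tendsto (fun M : ℕ => ((-1 : ℂ) ^ (M + n + 1)) ^ p *
        GN8 s t r n g M ∅ ∅ (Y M) (V M) *
        exp (-M * VG s t r (Y M) (V M))) Filter.atTop (nhds L) := by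
  have hcos : ∀ i, (2 * cos (Real.pi * v i)) ≠ 0 := by
    intro i h0
    have h1 : Complex.cos (Real.pi * v i) = 0 := by
      rcases mul_eq_zero.1 h0 with h | h
      · norm_num at h
      · exact h
    rw [Complex.cos_eq_zero_iff] at h1
    obtain ⟨k, hk⟩ := h1
    have hpi : (Real.pi : ℂ) ≠ 0 := by exact_mod_cast Real.pi_ne_zero
    have h2 : v i = (((2 * (k : ℝ) + 1) / 2 : ℝ) : ℂ) := by
      apply mul_left_cancel₀ hpi
      rw [hk]
      push_cast
      ring
    have := him i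
    rw [h2, Complex.ofReal_im] at this
    exact lt_irrefl _ this
  refine ⟨(∏ j, exp (-2 * hh (y j + 1 / 2))) * ∏ i : Fin p, (2 * sin (2 * Real.pi * v i) *
    ((2 * cos (Real.pi * v i)) ^ (n - 2)) ^ (2 - ((inc s t i).card : ℤ))),
    ?_, ?_⟩
  · refine mul_ne_zero (Finset.prod_ne_zero_iff.2 fun j _ => Complex.exp_ne_zero _)
      (Finset.prod_ne_zero_iff.2 fun i _ => ?_)
    have hnr : ∀ x : ℝ, v i ≠ x := by
      intro x hx
      have := him i
      rw [hx, Complex.ofReal_im] at this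
      exact lt_irrefl _ this
    have hpi : (Real.pi : ℂ) ≠ 0 := by exact_mod_cast Real.pi_ne_zero
    refine mul_ne_zero (mul_ne_zero two_ne_zero ?_) (zpow_ne_zero _ (pow_ne_zero _ (hcos i)))
    intro h0
    rw [Complex.sin_eq_zero_iff] at h0
    obtain ⟨k, hk⟩ := h0
    refine hnr (k / 2) ?_
    have h1 : (Real.pi : ℂ) * (2 * v i) = Real.pi * k := by
      rw [mul_comm (Real.pi : ℂ) (k : ℂ), ← hk]; ring
    have h2 := mul_left_cancel₀ hpi h1
    have h3 : v i = k / 2 := by rw [← h2]; ring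
    rw [h3]
    push_cast
    ring
  · intro Y V hY hV hVim
    have hCc : Filter.Tendsto (fun M : ℕ => ∏ j : Fin m, (Cc n g M (Y M j) / (M : ℂ) ^ 2 *
        exp (-M * (4 * ff (Y M j + 1 / 2))))) Filter.atTop
        (nhds (∏ j, exp (-2 * hh (y j + 1 / 2)))) := by
      refine tendsto_finsetProd _ fun j _ => ?_
      have h1 := abs_le.1 (hy j)
      exact Cc_lim n g hg (by omega) (y j) (fun M => Y M j) (hY j) (by linarith [h1.1])
        (by linarith [h1.2])
    have hK : Filter.Tendsto (fun M : ℕ => ∏ i : Fin p, (2 * sin (2 * Real.pi * V M i) *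
        Bn n M (V M i) ^ (2 - ((inc s t i).card : ℤ)) *
        (∏ j ∈ inc s t i, ((M : ℂ) * Qo n M (some (Y M j)) (V M i) *
          exp (-M * po (some (Y M j)) (V M i)))) * (1 / (1 - ww n M (V M i)) ^ 2)))
        Filter.atTop (nhds (∏ i : Fin p, (2 * sin (2 * Real.pi * v i) *
          ((2 * cos (Real.pi * v i)) ^ (n - 2)) ^ (2 - ((inc s t i).card : ℤ))))) := by
      refine tendsto_finsetProd _ fun i _ => ?_
      have hs : Filter.Tendsto (fun M : ℕ => 2 * sin (2 * Real.pi * V M i)) Filter.atTop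
          (nhds (2 * sin (2 * Real.pi * v i))) := by
        have hcont : Continuous (fun w : ℂ => 2 * Complex.sin (2 * Real.pi * w)) := by fun_prop
        exact (hcont.tendsto (v i)).comp (hV i)
      have hb : Filter.Tendsto (fun M : ℕ => Bn n M (V M i) ^ (2 - ((inc s t i).card : ℤ)))
          Filter.atTop (nhds (((2 * cos (Real.pi * v i)) ^ (n - 2)) ^
            (2 - ((inc s t i).card : ℤ)))) :=
        (BnB8_lim n (v i) (fun M => V M i) (hV i)).zpow₀ _
          (Or.inl (pow_ne_zero _ (hcos i)))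
      have hq : Filter.Tendsto (fun M : ℕ => ∏ j ∈ inc s t i, ((M : ℂ) *
          Qo n M (some (Y M j)) (V M i) * exp (-M * po (some (Y M j)) (V M i)))) Filter.atTop
          (nhds (∏ _j ∈ inc s t i, (1 : ℂ))) := by
        refine tendsto_finsetProd _ fun j _ => ?_
        refine GNl8_Qo n y (v i) j Y (fun M => V M i) hY (hV i) ?_
        intro z hz
        have hz' : y j = z := Option.some.inj hz
        subst hz'
        have h1 := abs_le.1 (hy j)
        have h2 := abs_le.1 (hv i)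
        rw [Complex.sub_re, Complex.add_re]
        refine ⟨by linarith [h1.1, h2.2], by linarith [h1.2, h2.1], by linarith [h1.1, h2.1],
          by linarith [h1.2, h2.2]⟩
      rw [Finset.prod_const_one] at hq
      have hA := Om_tendsto n (fun M => V M i) (v i).im (him i) (fun M => hVim M i)
      have h1 : Filter.Tendsto (fun M : ℕ => (1 - ww n M (V M i)) ^ 2) Filter.atTop
          (nhds ((1 - 0) ^ 2)) := (tendsto_const_nhds.sub hA).pow 2
      rw [sub_zero, one_pow] at h1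
      have h2 := h1.inv₀ one_ne_zero
      rw [inv_one] at h2
      have h3 : Filter.Tendsto (fun M : ℕ => 1 / (1 - ww n M (V M i)) ^ 2) Filter.atTop
          (nhds 1) := h2.congr fun M => by rw [one_div]
      have h4 := ((hs.mul hb).mul hq).mul h3
      rw [mul_one, mul_one] at h4
      exact h4
    refine (hCc.mul hK).congr' ?_
    filter_upwards [Filter.eventually_ge_atTop 1] with M hM
    have hM0 : (M : ℂ) ≠ 0 := by
      have : M ≠ 0 := by omega
      exact_mod_cast this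
    have hVG : exp (-M * VG s t r (Y M) (V M)) =
        (∏ j, exp (-M * (4 * ff (Y M j + 1 / 2)))) *
        ∏ i : Fin p, exp (-M * WG (r i) (inc s t i) (Y M) (V M i)) := by
      rw [← Complex.exp_sum, ← Complex.exp_sum, ← Complex.exp_add]
      congr 1
      unfold VG
      rw [mul_add, Finset.mul_sum, Finset.mul_sum]
    have hP1 : (∏ j : Fin m, (Cc n g M (Y M j) / (M : ℂ) ^ 2 *
        exp (-M * (4 * ff (Y M j + 1 / 2))))) = (∏ j, Cc n g M (Y M j)) / (M : ℂ) ^ (2 * m) *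
        ∏ j, exp (-M * (4 * ff (Y M j + 1 / 2))) := by
      rw [Finset.prod_mul_distrib, Finset.prod_div_distrib, Finset.prod_const, Finset.card_univ,
        Fintype.card_fin, ← pow_mul]
    have hMM : ∏ i, ∏ _j ∈ inc s t i, (M : ℂ) = (M : ℂ) ^ (2 * m) := by
      rw [prod_inc s t hst (fun _ _ => (M : ℂ)), Finset.prod_const, Finset.card_univ,
        Fintype.card_fin, ← pow_two, ← pow_mul]
    have hP2 : (∏ i : Fin p, (2 * sin (2 * Real.pi * V M i) *
        Bn n M (V M i) ^ (2 - ((inc s t i).card : ℤ)) *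
        (∏ j ∈ inc s t i, ((M : ℂ) * Qo n M (some (Y M j)) (V M i) *
          exp (-M * po (some (Y M j)) (V M i)))) * (1 / (1 - ww n M (V M i)) ^ 2))) =
        ((-1 : ℂ) ^ (M + n + 1)) ^ p * (∏ i : Fin p, (KG8 (r i) n M (inc s t i) (Y M) (V M i) *
          om n M (V M i))) * (M : ℂ) ^ (2 * m) *
        ∏ i : Fin p, exp (-M * WG (r i) (inc s t i) (Y M) (V M i)) := by
      rw [← hMM]
      have hc : ((-1 : ℂ) ^ (M + n + 1)) ^ p = ∏ _i : Fin p, (-1 : ℂ) ^ (M + n + 1) := by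
        rw [Finset.prod_const, Finset.card_univ, Fintype.card_fin]
      rw [hc, ← Finset.prod_mul_distrib, ← Finset.prod_mul_distrib, ← Finset.prod_mul_distrib]
      exact Finset.prod_congr rfl fun i _ =>
        (GNl8_fac (r i) n M (inc s t i) (Y M) (V M i)).symm
    rw [hP1, hP2, hVG]
    unfold GN8
    rw [Finset.compl_empty, Finset.compl_empty]
    have hMp : (M : ℂ) ^ (2 * m) ≠ 0 := pow_ne_zero _ hM0
    generalize (∏ j, Cc n g M (Y M j)) = a1
    generalize (∏ j : Fin m, exp (-M * (4 * ff (Y M j + 1 / 2)))) = a2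
    generalize (∏ i : Fin p, (KG8 (r i) n M (inc s t i) (Y M) (V M i) * om n M (V M i))) = a3
    generalize (∏ i : Fin p, exp (-M * WG (r i) (inc s t i) (Y M) (V M i))) = a4
    generalize ((-1 : ℂ) ^ (M + n + 1)) ^ p = a5
    generalize (M : ℂ) ^ (2 * m) = a6 at hMp ⊢
    field_simp

end Pool.Agent.H63.VC8

end

section

/-! # The trace of `Oh N f` -/

namespace Pool.Agent.H63.VC11

open Pool.Agent.H63.VC7 Pool.Agent.H63.VC8 Matrix

variable {n : ℕ}

private theorem tr11_br_sq (q : ℂ) (hq : q ≠ 0) (a b : ℤ) :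
    br q a ^ 2 - br q b ^ 2 = br q (a + b) * br q (a - b) := by
  unfold br
  have e1 : q ^ (a + b) = q ^ a * q ^ b := zpow_add₀ hq a b
  have e2 : q ^ (-(a + b)) = q ^ (-a) * q ^ (-b) := by
    rw [← zpow_add₀ hq]; congr 1; ring
  have e3 : q ^ (a - b) = q ^ a * q ^ (-b) := by
    rw [← zpow_add₀ hq]; congr 1
  have e4 : q ^ (-(a - b)) = q ^ (-a) * q ^ b := by
    rw [← zpow_add₀ hq]; congr 1; ring
  have h1 : q ^ a * q ^ (-a) = 1 := by
    rw [← zpow_add₀ hq, add_neg_cancel, zpow_zero]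
  have h2 : q ^ b * q ^ (-b) = 1 := by
    rw [← zpow_add₀ hq, add_neg_cancel, zpow_zero]
  rw [e1, e2, e3, e4]
  linear_combination (-2 + (q ^ b) ^ 2 + (q ^ (-b)) ^ 2) * h1 + (2 - (q ^ a) ^ 2 - (q ^ (-a)) ^ 2) * h2

private theorem tr11_Q (q : ℂ) (N : ℕ) (h : Gen q n (N + 1)) (hn : 2 ≤ n) :
    ∏ i ∈ Finset.range (N + 1), (br q ((n : ℤ) + i - 1) / br q ((i : ℤ) + 1)) =
      br q ((n : ℤ) - 1) / br q ((N : ℤ) + 1) * dimS n N q := by
  unfold dimS
  induction N with
  | zero => simp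
  | succ N ih =>
    have h2 : br q ((N : ℤ) + 1) ≠ 0 := h.br_ne (by omega) (by omega)
    have h3 : br q (((N + 1 : ℕ) : ℤ) + 1) ≠ 0 := h.br_ne (by omega) (by omega)
    rw [Finset.prod_range_succ, ih (h.mono (by omega)), Finset.prod_range_succ _ N]
    have e1 : (n : ℤ) + ((N + 1 : ℕ) : ℤ) - 1 = n + N := by push_cast; ring
    rw [e1]
    field_simp

theorem sum_dimA (q : ℂ) (N : ℕ) (h : Gen q n N) (hn : 2 ≤ n) :
    ∑ X ∈ Finset.range (N + 1), dimA n q X = dimS n N q ^ 2 := by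
  induction N with
  | zero =>
    have h1 : br q ((n : ℤ) - 1) ≠ 0 := h.br_ne (by omega) (by omega)
    simp only [zero_add, Finset.sum_range_one]
    unfold dimA dimS
    simp only [Nat.cast_zero, mul_zero, add_zero, Finset.range_zero, Finset.prod_empty, mul_one,
      one_pow]
    exact div_self h1
  | succ N ih =>
    rw [Finset.sum_range_succ, ih (h.mono (by omega))]
    have h1 : br q ((n : ℤ) - 1) ≠ 0 := h.br_ne (by omega) (by omega)
    have h2 : br q ((N : ℤ) + 1) ≠ 0 := h.br_ne (by omega) (by omega)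
    have h3 : dimA n q (N + 1) = br q ((n : ℤ) + 2 * ((N + 1 : ℕ) : ℤ) - 1) / br q ((n : ℤ) - 1) *
        (br q ((n : ℤ) - 1) / br q ((N : ℤ) + 1) * dimS n N q) ^ 2 := by
      unfold dimA
      rw [Finset.prod_pow, tr11_Q q N h hn]
    have h4 : dimS n (N + 1) q = dimS n N q * (br q ((n : ℤ) + N) / br q ((N : ℤ) + 1)) := by
      unfold dimS
      rw [Finset.prod_range_succ]
    rw [h3, h4]
    have h5 := tr11_br_sq q h.1 ((n : ℤ) + N) ((N : ℤ) + 1)
    have e1 : (n : ℤ) + N + (N + 1) = n + 2 * ((N + 1 : ℕ) : ℤ) - 1 := by push_cast; ring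
    have e2 : (n : ℤ) + N - (N + 1) = n - 1 := by ring
    rw [e1, e2] at h5
    field_simp
    linear_combination -(dimS n N q ^ 2) * h5

private noncomputable def tr11_w (q : ℂ) {N : ℕ} (x : I2 n N) : ℂ :=
  wt q x.1.val * (wt q x.2.val)⁻¹

private theorem tr11_w_add {q : ℂ} (hq : q ≠ 0) {N : ℕ} (y : I2 n N) (i : Fin n) :
    tr11_w q ((y.1.add i, y.2.add i) : I2 n (N + 1)) = tr11_w q y := by
  unfold tr11_w
  simp only [Vn.add_val]
  rw [wt_add hq, wt_add hq, mul_inv]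
  have h1 : q ^ ((n : ℤ) - 1 - 2 * (i : ℕ)) ≠ 0 := zpow_ne_zero _ hq
  have h2 : wt q y.2.val ≠ 0 := wt_ne hq _
  field_simp

private theorem tr11_DD {q : ℂ} (hq : q ≠ 0) {N : ℕ} (x : I2 n (N + 1)) (y : I2 n N) :
    tr11_w q x * DD q n N x y = tr11_w q y * DD q n N x y := by
  unfold DD
  rw [Finset.mul_sum, Finset.mul_sum]
  refine Finset.sum_congr rfl fun i _ => ?_
  split_ifs with hc
  · have hx : x = (y.1.add i, y.2.add i) := Prod.ext hc.1 hc.2
    have hw : tr11_w q x = tr11_w q y := by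
      rw [hx, tr11_w_add hq]
    rw [hw]
  · rw [mul_zero, mul_zero]

private theorem tr11_step {q : ℂ} (hq : q ≠ 0) (N : ℕ) (M : Matrix (I2 n N) (I2 n N) ℂ) :
    ∑ x : I2 n (N + 1), tr11_w q x * (DD q n N * M * CC q n N) x x
      = ∑ y : I2 n N, tr11_w q y * (M * (CC q n N * DD q n N)) y y := by
  have h1 : ∀ x : I2 n (N + 1), tr11_w q x * (DD q n N * M * CC q n N) x x
      = ∑ y : I2 n N, tr11_w q y * (DD q n N x y * (M * CC q n N) y x) := by
    intro x
    rw [Matrix.mul_assoc, Matrix.mul_apply, Finset.mul_sum]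
    refine Finset.sum_congr rfl fun y _ => ?_
    rw [← mul_assoc, tr11_DD hq, mul_assoc]
  rw [Finset.sum_congr rfl fun x _ => h1 x, Finset.sum_comm]
  refine Finset.sum_congr rfl fun y _ => ?_
  rw [← Finset.mul_sum, ← Matrix.mul_assoc, Matrix.mul_apply (M := M * CC q n N)]
  congr 1
  exact Finset.sum_congr rfl fun x _ => mul_comm _ _

private theorem tr11_one (q : ℂ) (N : ℕ) (h : Gen q n N) (hn : 1 ≤ n) :
    ∑ x : I2 n N, tr11_w q x * (1 : Matrix (I2 n N) (I2 n N) ℂ) x x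
      = dimS n N q ^ 2 := by
  have e1 := sum_wt q N h hn
  have e2 := sum_wt_inv q N h hn
  rw [sq]
  nth_rewrite 1 [← e1]
  rw [← e2, Finset.sum_mul_sum, Fintype.sum_prod_type]
  refine Finset.sum_congr rfl fun a _ => Finset.sum_congr rfl fun b _ => ?_
  rw [Matrix.one_apply_eq, mul_one]
  rfl

theorem trq_Oh (q : ℂ) (N : ℕ) (h : Gen q n N) (hn : 2 ≤ n) (f : ℕ → ℂ) :
    trq q (Oh q n N f) = ∑ X ∈ Finset.range (N + 1), dimA n q X * f X := by
  have hn1 : 1 ≤ n := by omega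
  have htr : ∀ (N : ℕ) (X : Matrix (I2 n N) (I2 n N) ℂ),
      trq q X = ∑ x : I2 n N, tr11_w q x * X x x := fun _ _ => rfl
  rw [htr]
  induction N generalizing f with
  | zero =>
    rw [Finset.sum_range_one]
    have h2 : ∀ x : I2 n 0, tr11_w q x * (Oh q n 0 f) x x
        = f 0 * (tr11_w q x * (1 : Matrix (I2 n 0) (I2 n 0) ℂ) x x) := by
      intro x
      show tr11_w q x * (f 0 • (1 : Matrix (I2 n 0) (I2 n 0) ℂ)) x x = _
      rw [Matrix.smul_apply, smul_eq_mul]
      ring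
    rw [Finset.sum_congr rfl fun x _ => h2 x, ← Finset.mul_sum, tr11_one q 0 h hn1,
      ← sum_dimA q 0 h hn, Finset.sum_range_one]
    ring
  | succ N ih =>
    have hN : Gen q n N := h.mono (Nat.le_succ N)
    have h2 : ∀ x : I2 n (N + 1), tr11_w q x * (Oh q n (N + 1) f) x x
        = f (N + 1) * (tr11_w q x * (1 : Matrix (I2 n (N + 1)) (I2 n (N + 1)) ℂ) x x)
          + tr11_w q x * (DD q n N * Oh q n N (dv q n N f) * CC q n N) x x := by
      intro x
      show tr11_w q x * (f (N + 1) • (1 : Matrix (I2 n (N + 1)) (I2 n (N + 1)) ℂ)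
        + DD q n N * Oh q n N (dv q n N f) * CC q n N) x x = _
      rw [Matrix.add_apply, Matrix.smul_apply, smul_eq_mul]
      ring
    rw [Finset.sum_congr rfl fun x _ => h2 x, Finset.sum_add_distrib, ← Finset.mul_sum,
      tr11_one q (N + 1) h hn1, tr11_step h.1, CD_Oh q N h hn1, Oh_mul q N hN hn1, ih hN]
    have h3 : ∀ k ∈ Finset.range (N + 1),
        dimA n q k * (dv q n N f k * E1 q n (N + 1) k)
          = dimA n q k * f k - f (N + 1) * dimA n q k := by
      intro k hk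
      rw [Finset.mem_range] at hk
      have h4 : E1 q n (N + 1) k ≠ 0 := E1_ne h hn1 hk
      unfold dv
      rw [div_mul_cancel₀ _ h4]
      ring
    rw [Finset.sum_congr rfl h3, Finset.sum_sub_distrib, ← Finset.mul_sum,
      Finset.sum_range_succ (fun k => dimA n q k * f k) (N + 1),
      ← sum_dimA q (N + 1) h hn, Finset.sum_range_succ (fun k => dimA n q k) (N + 1)]
    ring

end Pool.Agent.H63.VC11

end
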