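import Pool.Agent.H94.PA.H63.VC8.GNb8
import Pool.Agent.H94.PA.M27
import Pool.Agent.H94.PA.M33
import Pool.Agent.H94.PA.M43
import Pool.Agent.H94.PA.M44

/-! The parts of this file: H63.VC8.MainG8, H63.VC11.Bra11, H63.VC11.Brac11. -/

section

/-! # The Laplace method for the main integral -/

namespace Pool.Agent.H63.VC8

open Pool.Agent.H63.VC
open Pool.Agent.H63.VC3 Pool.Agent.H63.VC4 Pool.Agent.H63.VC6 Pool.Agent.H63.VC7 Complex Filter Topology

variable {m p : ℕ}

theorem MainG8_cont (s t : Fin m → Fin p) (r : Fin p → ℝ) (n g M : ℕ) (hn : 2 ≤ n)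
    (hg : 1 ≤ g) (hgn : g < n) (hM : 1000 * (n + 1) ≤ M) (Y0 : Fin m → ℝ) (Y1 : Fin p → ℝ) (hY1 : ∀ i, 0 < Y1 i)
    (y1 y2 ρ : ℝ) (a1 : 1 / 4 - 55 / 1000 ≤ y1) (a4 : y2 ≤ 1 / 4 + 55 / 1000)
    (hρ : ρ ≤ 150 / 1000) :
    ContinuousOn (fun z : Fin m ⊕ Fin p → ℝ => GN8 s t r n g M ∅ ∅ (zy7 Y0 z) (zv7 Y1 z))
      (Bx7 m p y1 y2 ρ) := by
  intro z hz
  apply ContinuousAt.continuousWithinAt
  obtain ⟨hz1, hz2⟩ := MainG_mem.1 hz
  have hMpos : 0 < M := by omega
  have hy : ∀ j, |(zy7 Y0 z j).re - 1 / 4| ≤ 55 / 1000 := by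
    intro j
    rw [MainG_zy_re, abs_le]
    have := hz1 j
    constructor <;> linarith only [a1, this, a4]
  have hv : ∀ i, |(zv7 Y1 z i).re| ≤ 15 / 100 := by
    intro i
    rw [MainG_zv_re, abs_le]
    have := hz2 i
    constructor <;> linarith only [hρ, this]
  have h1 := GN8_continuousAt s t r n g M hn hg hgn hM ∅ ∅ (zy7 Y0 z) (zv7 Y1 z) hy hv
    (fun i => MainG_ww_ne n M hMpos _ (by rw [MainG_zv_im]; exact hY1 i))
  have h2 : Continuous fun z : Fin m ⊕ Fin p → ℝ => (zy7 Y0 z, zv7 Y1 z) := by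
    refine Continuous.prodMk (continuous_pi fun j => ?_) (continuous_pi fun i => ?_)
    · unfold zy7
      fun_prop
    · unfold zv7
      fun_prop
  exact ContinuousAt.comp (f := fun z : Fin m ⊕ Fin p → ℝ => (zy7 Y0 z, zv7 Y1 z))
    (g := fun z : (Fin m → ℂ) × (Fin p → ℂ) => GN8 s t r n g M ∅ ∅ z.1 z.2) h1 h2.continuousAt

theorem MainG8_bound (s t : Fin m → Fin p) (hst : ∀ j, s j ≠ t j) (r : Fin p → ℝ)
    (n g : ℕ) (hn : 2 ≤ n) (hg : 1 ≤ g) (hgn : g < n)
    (Y1 : Fin p → ℝ) (hY1 : ∀ i, 0 < Y1 i ∧ Y1 i ≤ 1 / 50) :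
    ∃ C : ℝ, 0 < C ∧ ∃ M0 : ℕ, ∀ M : ℕ, M0 ≤ M → ∀ (y : Fin m → ℂ) (a : Fin p → ℝ),
      (∀ j, |(y j).re - 1 / 4| ≤ 55 / 1000 ∧ |(y j).im| ≤ 1 / 50) → (∀ i, |a i| ≤ 15 / 100) →
        ‖GN8 s t r n g M ∅ ∅ y (fun i => a i + Y1 i * I)‖ ≤
      C * Real.exp (M * (VG s t r y (fun i => a i + Y1 i * I)).re) := by
  obtain ⟨C, hC, M0, h⟩ := GN8_bound s t hst r n g hn hg hgn ∅ Y1 hY1
  refine ⟨C, hC, M0, fun M hM y a h1 h2 => ?_⟩
  have h3 := h M hM y a h1 h2
  rw [MainG_EB] at h3
  rw [VG_re hst]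
  simpa using h3

theorem main_limG8 (s t : Fin m → Fin p) (r : Fin p → ℝ) (y : Fin m → ℂ) (v : Fin p → ℂ)
    (n g : ℕ) (hn : 2 ≤ n) (hg : 1 ≤ g) (hgn : g < n)
    (hc : CritG s t r y v) (k1 k2 l1 l2 : ℕ → ℕ)
    (hw : ∀ᶠ M in atTop, Win n M (k1 M) (k2 M) (l1 M) (l2 M)) :
    ∃ K : ℂ, K ≠ 0 ∧ Tendsto (fun M : ℕ => (((M : ℝ) ^ (((m : ℝ) + p) / 2) : ℝ) : ℂ) *
      ((-1 : ℂ) ^ (M + n + 1)) ^ p *
      exp (-M * VG s t r y v) * MG8 s t r n g M (fun j => (y j).im) (fun i => (v i).im)
      ((k1 M + bt n) / M - 1 / 2) ((k2 M + 1 + bt n) / M - 1 / 2) (rho n M (l2 M)))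
      atTop (𝓝 K) := by
  have hst := hc.st
  have lY := fun j => (locG_y hc j).1
  have lV := fun i => (locG_v hc i).1
  have hY1 : ∀ i, 0 < (v i).im ∧ (v i).im ≤ 1 / 50 := fun i =>
    ⟨hc.imv i, by linarith only [lV, (lV i).2.2]⟩
  obtain ⟨C, hC, M0, hGB⟩ := MainG8_bound s t hst r n g hn hg hgn (fun i => (v i).im) hY1
  obtain ⟨q, hqs, hq, hT⟩ := phiG_taylor s t r y v hc
  have hre : ∀ j, |(y j).re - 1 / 4| ≤ 55 / 1000 := fun j => (lY j).1.trans (by norm_num)
  have hvr : ∀ i, |(v i).re| ≤ 15 / 100 := fun i => (lV i).1.trans (by norm_num)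
  obtain ⟨L, hL0, hL⟩ := GN8_lim s t hst r n g hn hg hgn y v hre hvr hc.imv
  set y1 : ℕ → ℝ := fun M => (k1 M + bt n) / M - 1 / 2 with hy1
  set y2 : ℕ → ℝ := fun M => (k2 M + 1 + bt n) / M - 1 / 2 with hy2
  set ρ : ℕ → ℝ := fun M => rho n M (l2 M) with hρ
  have hzyp : zy7 (fun j => (y j).im) (pG y v) = y := by
    funext j
    simp [zy7, pG, re_add_im]
  have hzvp : zv7 (fun i => (v i).im) (pG y v) = v := by
    funext i
    simp [zv7, pG, re_add_im]
  have hphip : phiG s t r y v (pG y v) = VG s t r y v := by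
    unfold phiG
    rw [hzyp, hzvp]
  obtain ⟨A, hAdef⟩ : ∃ A : ℕ → (Fin m ⊕ Fin p → ℝ) → ℂ, A = fun M =>
      (Bx7 m p (y1 M) (y2 M) (ρ M)).indicator fun z =>
        GN8 s t r n g M ∅ ∅ (zy7 (fun j => (y j).im) z) (zv7 (fun i => (v i).im) z) *
          ((-1 : ℂ) ^ (M + n + 1)) ^ p * exp (-(M * phiG s t r y v z)) := ⟨_, rfl⟩
  have hfac : ∀ᶠ M : ℕ in atTop, 1 ≤ M ∧ M0 ≤ M ∧ 1000 * (n + 1) ≤ M ∧
      1 / 4 - 55 / 1000 ≤ y1 M ∧ y1 M ≤ 1 / 4 - 54 / 1000 ∧ 1 / 4 + 54 / 1000 ≤ y2 M ∧
      y2 M ≤ 1 / 4 + 55 / 1000 ∧ 149 / 1000 ≤ ρ M ∧ ρ M ≤ 150 / 1000 := by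
    filter_upwards [hw, eventually_ge_atTop M0, eventually_ge_atTop 1] with M h1 h2 h3
    exact ⟨h3, h2, h1.big, h1.a1, h1.a2, h1.a3, h1.a4, h1.b1, h1.b2⟩
  have hAexp : ∀ M, (fun z => A M z * exp (M * (phiG s t r y v z - phiG s t r y v (pG y v)))) =
      (Bx7 m p (y1 M) (y2 M) (ρ M)).indicator (fun z =>
        ((-1 : ℂ) ^ (M + n + 1)) ^ p * exp (-M * VG s t r y v) *
        GN8 s t r n g M ∅ ∅ (zy7 (fun j => (y j).im) z) (zv7 (fun i => (v i).im) z)) := by
    intro M
    funext z
    rw [hAdef]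
    simp only
    by_cases hz : z ∈ Bx7 m p (y1 M) (y2 M) (ρ M)
    · rw [Set.indicator_of_mem hz, Set.indicator_of_mem hz, mul_assoc, ← exp_add, hphip]
      have e : -((M : ℂ) * phiG s t r y v z) + M * (phiG s t r y v z - VG s t r y v) =
          -M * VG s t r y v := by ring
      rw [e]
      ring
    · rw [Set.indicator_of_notMem hz, Set.indicator_of_notMem hz, zero_mul]
  have hcard : ((Fintype.card (Fin m ⊕ Fin p) : ℝ) / 2) = (((m : ℝ) + p) / 2 : ℝ) := by
    rw [Fintype.card_sum, Fintype.card_fin, Fintype.card_fin]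
    push_cast
    ring
  have hlap := laplaceN (phiG s t r y v) (pG y v) A C (1 / 10) (by norm_num)
    (fun ξ => ∑ a, ∑ b, q a b * ξ a * ξ b) L ?_ ?_ ?_ ?_ hT
  · refine ⟨L * ∫ ξ : Fin m ⊕ Fin p → ℝ, exp (-∑ a, ∑ b, q a b * ξ a * ξ b),
      mul_ne_zero hL0 (gaussN_ne q hqs (1 / 10) (by norm_num) hq), ?_⟩
    rw [hcard] at hlap
    refine hlap.congr fun M => ?_
    rw [hAexp M, MeasureTheory.integral_indicator (MainG_meas _ _ _ _ _),
      MeasureTheory.integral_const_mul]
    unfold MG8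
    ring
  · filter_upwards [hfac] with M hM
    obtain ⟨-, -, b1, b2, b3, b4, b5, b6, b7⟩ := hM
    rw [hAexp M, aestronglyMeasurable_indicator_iff (MainG_meas _ _ _ _ _)]
    exact (continuousOn_const.mul (MainG8_cont s t r n g M hn hg hgn b1 _ _ (fun i => (hY1 i).1)
      (y1 M) (y2 M) (ρ M) b2 b5 b7)).aestronglyMeasurable (MainG_meas _ _ _ _ _)
  · filter_upwards [hfac] with M hM
    obtain ⟨b8, b9, b1, b2, b3, b4, b5, b6, b7⟩ := hM
    intro z
    rw [hAdef]
    simp only
    by_cases hz : z ∈ Bx7 m p (y1 M) (y2 M) (ρ M)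
    · rw [Set.indicator_of_mem hz, norm_mul, norm_mul, norm_exp]
      obtain ⟨c1, c2⟩ := MainG_mem.1 hz
      have e1 := hGB M b9 (zy7 (fun j => (y j).im) z) (fun i => z (Sum.inr i))
        (fun j => by
          rw [MainG_zy_re, MainG_zy_im, abs_le]
          have := c1 j
          exact ⟨⟨by linarith only [b2, this], by linarith only [b5, this]⟩, (lY j).2.trans (by norm_num)⟩)
        (fun i => by
          rw [abs_le]
          have := c2 i
          constructor <;> linarith only [b7, this])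
      have e2 : (-((M : ℂ) * phiG s t r y v z)).re = -(M * (phiG s t r y v z).re) := by
        rw [neg_re, ← ofReal_natCast, re_ofReal_mul]
      have e4 : (fun i => ((z (Sum.inr i) : ℝ) : ℂ) + ((v i).im : ℝ) * I) =
          zv7 (fun i => (v i).im) z := rfl
      rw [e4] at e1
      have e5 : ‖((-1 : ℂ) ^ (M + n + 1)) ^ p‖ = 1 := by simp
      rw [e5, mul_one, e2, Real.exp_neg]
      have e3 : 0 < Real.exp (M * (phiG s t r y v z).re) := Real.exp_pos _
      rw [← div_eq_mul_inv, div_le_iff₀ e3]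
      exact e1
    · rw [Set.indicator_of_notMem hz, norm_zero]
      exact hC.le
  · filter_upwards [hfac] with M hM
    obtain ⟨b8, b9, b1, b2, b3, b4, b5, b6, b7⟩ := hM
    intro z hz
    have hz' : z ∈ Bx7 m p (y1 M) (y2 M) (ρ M) := by
      by_contra h
      rw [hAdef] at hz
      exact hz (Set.indicator_of_notMem h _)
    obtain ⟨c1, c2⟩ := MainG_mem.1 hz'
    have e1 := concG hc (fun j => z (Sum.inl j)) (fun i => z (Sum.inr i))
      (fun j => by
        have := c1 j
        rw [abs_le]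
        constructor <;> linarith only [b2, this, b5])
      (fun i => by
        have := c2 i
        rw [abs_le]
        constructor <;> linarith only [b7, this])
    rw [sub_re, hphip, Fintype.sum_sum_type]
    have e2 : (phiG s t r y v z).re = (VG s t r (fun j => (z (Sum.inl j) : ℂ) + (y j).im * I)
      (fun i => (z (Sum.inr i) : ℂ) + (v i).im * I)).re := rfl
    rw [e2]
    simp only [pG, Sum.elim_inl, Sum.elim_inr]
    linarith only [e1]
  · intro ξ
    have hsq : Tendsto (fun M : ℕ => 1 / Real.sqrt M) atTop (𝓝 0) := by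
      have h1 : Tendsto (fun M : ℕ => Real.sqrt (M : ℝ)) atTop atTop :=
        Real.tendsto_sqrt_atTop.comp tendsto_natCast_atTop_atTop
      refine h1.inv_tendsto_atTop.congr fun M => ?_
      simp only [Pi.inv_apply, one_div]
    have hzt : Tendsto (fun M : ℕ => pG y v + (1 / Real.sqrt M) • ξ) atTop (𝓝 (pG y v)) := by
      have := (hsq.smul_const ξ).const_add (pG y v)
      simpa using this
    obtain ⟨Z, hZ⟩ : ∃ Z : ℕ → Fin m ⊕ Fin p → ℝ,
        ∀ M, Z M = pG y v + (1 / Real.sqrt M) • ξ := ⟨_, fun _ => rfl⟩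
    simp only [← hZ] at hzt ⊢
    have hz1 : ∀ j, Tendsto (fun M : ℕ => Z M (Sum.inl j)) atTop (𝓝 (y j).re) := by
      intro j
      have := (tendsto_pi_nhds.1 hzt) (Sum.inl j)
      simpa [pG] using this
    have hz2 : ∀ i, Tendsto (fun M : ℕ => Z M (Sum.inr i)) atTop (𝓝 (v i).re) := by
      intro i
      have := (tendsto_pi_nhds.1 hzt) (Sum.inr i)
      simpa [pG] using this
    have hY : ∀ j, Tendsto (fun M : ℕ => zy7 (fun j => (y j).im) (Z M) j) atTop (𝓝 (y j)) := by
      intro j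
      have := ((continuous_ofReal.tendsto _).comp (hz1 j)).add_const ((y j).im * I : ℂ)
      rw [re_add_im] at this
      exact this
    have hV : ∀ i, Tendsto (fun M : ℕ => zv7 (fun i => (v i).im) (Z M) i) atTop (𝓝 (v i)) := by
      intro i
      have := ((continuous_ofReal.tendsto _).comp (hz2 i)).add_const ((v i).im * I : ℂ)
      rw [re_add_im] at this
      exact this
    have L5 := hL (fun M => zy7 (fun j => (y j).im) (Z M))
      (fun M => zv7 (fun i => (v i).im) (Z M)) hY hV (fun M i => MainG_zv_im _ _ _)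
    refine L5.congr' ?_
    have ev1 : ∀ᶠ M in atTop, ∀ j,
        Z M (Sum.inl j) ∈ Set.Ioo (1 / 4 - 2 / 100 : ℝ) (1 / 4 + 2 / 100) := by
      rw [eventually_all]
      intro j
      have := abs_le.1 (lY j).1
      exact (hz1 j).eventually (Ioo_mem_nhds (by linarith only [this]) (by linarith only [this]))
    have ev2 : ∀ᶠ M in atTop, ∀ i, Z M (Sum.inr i) ∈ Set.Ioo (-(1 / 10) : ℝ) (1 / 10) := by
      rw [eventually_all]
      intro i
      have := abs_le.1 (lV i).1
      exact (hz2 i).eventually (Ioo_mem_nhds (by linarith only [this]) (by linarith only [this]))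
    filter_upwards [hfac, ev1, ev2] with M hM e1 e2
    obtain ⟨b8, b9, b1, b2, b3, b4, b5, b6, b7⟩ := hM
    have hmem : Z M ∈ Bx7 m p (y1 M) (y2 M) (ρ M) := by
      rw [MainG_mem]
      exact ⟨fun j => ⟨by linarith only [b3, e1, (e1 j).1], by linarith only [b4, e1, (e1 j).2]⟩,
        fun i => ⟨by linarith only [b6, e2, (e2 i).1], by linarith only [b6, e2, (e2 i).2]⟩⟩
    rw [hAdef]
    simp only
    rw [Set.indicator_of_mem hmem]
    unfold phiG
    rw [neg_mul]
    ring

end Pool.Agent.H63.VC8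

end

section

/-! # The value of the diagram of a tree -/

namespace Pool.Agent.H63.VC11

open Pool.Agent.H63.VC7 Pool.Agent.H63.VC8 Matrix

variable {n m : ℕ}

theorem Bra11_replicate {q : ℂ} {N i : ℕ} {w : List Piece} {X : Matrix (I2 n N) (I2 n N) ℂ}
    (h : Acts q w i X) (r : ℕ) : Acts q (List.replicate r w).flatten i (X ^ r) := by
  induction r with
  | zero =>
    rw [List.replicate_zero, List.flatten_nil, pow_zero]
    exact Acts_nil q i
  | succ r ih =>
    rw [List.replicate_succ, List.flatten_cons, pow_succ]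
    exact Acts_append h ih

theorem Acts_twists (q : ℂ) (N : ℕ) (h : Gen q n N) (hn : 1 ≤ n) (r : ℤ) (i : ℕ) :
    Acts q (twists r true i) i (Oh q n N (tws q n N r)) ∧
      Acts q (twists r false i) i (flipM q (Oh q n N (tws q n N r))) := by
  obtain ⟨P, e, hP, he, hact⟩ : ∃ (P : ℕ → Piece) (e : ℤ),
      (if 0 < r then Piece.neg else Piece.pos) = P ∧ (if 0 < r then (-1 : ℤ) else 1) = e ∧
      Acts q [P (i + 1)] (i + 1) (Rm q n N e) := by
    by_cases hr : 0 < r
    · refine ⟨Piece.neg, -1, ?_, ?_, Acts_neg q (i + 1)⟩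
      · rw [if_pos hr]
      · rw [if_pos hr]
    · refine ⟨Piece.pos, 1, ?_, ?_, Acts_pos q (i + 1)⟩
      · rw [if_neg hr]
      · rw [if_neg hr]
  have h1 := Acts_crossUD hact
  have h2 := Acts_crossDU hact
  have hY := Y_twist q N h hn r
  rw [he] at hY
  constructor
  · have h3 := Bra11_replicate (Acts_append h1 h2) r.natAbs
    rw [X2_X1 q e h hn, hY] at h3
    unfold twists
    dsimp only
    rw [hP, if_pos rfl]
    exact h3
  · have h3 := Bra11_replicate (Acts_append h2 h1) r.natAbs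
    rw [X1_X2 q e h hn, ← flipM_pow q h.1, hY] at h3
    unfold twists
    dsimp only
    rw [hP, if_neg (by decide)]
    exact h3

theorem Bra11_flatMap (q : ℂ) (N : ℕ) (h : Gen q n N) (hn : 1 ≤ n) (i : ℕ)
    (T : Fin m → List Piece) (g : Fin m → ℕ → ℂ)
    (hT : ∀ j, Acts q (T j) i (Oh q n N (g j))) (l : List (Fin m)) :
    Acts q (l.flatMap T) i (Oh q n N (fun x => (l.map (fun j => g j x)).prod)) := by
  induction l with
  | nil =>
    have h1 : Oh q n N (fun x => (([] : List (Fin m)).map (fun j => g j x)).prod)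
        = (1 : Matrix (I2 n N) (I2 n N) ℂ) := by
      have := Oh_const (n := n) q N 1
      simpa using this
    rw [h1, List.flatMap_nil]
    exact Acts_nil q i
  | cons j l ih =>
    rw [List.flatMap_cons]
    have h1 := Acts_append (hT j) ih
    rw [Oh_mul q N h hn] at h1
    have h2 : (fun x => ((j :: l).map (fun j => g j x)).prod)
        = (fun x => (l.map (fun j => g j x)).prod * g j x) := by
      funext x
      rw [List.map_cons, List.prod_cons, mul_comm]
    rw [h2]
    exact h1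

theorem Bra11_flatMap_flip (q : ℂ) (N : ℕ) (h : Gen q n N) (hn : 1 ≤ n) (i : ℕ)
    (T : Fin m → List Piece) (g : Fin m → ℕ → ℂ)
    (hT : ∀ j, Acts q (T j) i (flipM q (Oh q n N (g j)))) (l : List (Fin m)) :
    Acts q (l.flatMap T) i (flipM q (Oh q n N (fun x => (l.map (fun j => g j x)).prod))) := by
  induction l with
  | nil =>
    have h1 : Oh q n N (fun x => (([] : List (Fin m)).map (fun j => g j x)).prod)
        = (1 : Matrix (I2 n N) (I2 n N) ℂ) := by
      have := Oh_const (n := n) q N 1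
      simpa using this
    rw [h1, flipM_one q h.1, List.flatMap_nil]
    exact Acts_nil q i
  | cons j l ih =>
    rw [List.flatMap_cons]
    have h1 := Acts_append (hT j) ih
    rw [← flipM_mul q h.1, Oh_mul q N h hn] at h1
    have h2 : (fun x => ((j :: l).map (fun j => g j x)).prod)
        = (fun x => (l.map (fun j => g j x)).prod * g j x) := by
      funext x
      rw [List.map_cons, List.prod_cons, mul_comm]
    rw [h2]
    exact h1

theorem Acts_tangle (q : ℂ) (N : ℕ) (h : Gen q n N) (hn : 1 ≤ n) (par : Fin m → Fin (m + 1))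
    (r : Fin (m + 1) → ℤ) (k : ℕ) (v : Fin (m + 1)) (i : ℕ) :
    Acts q (tangle par r k v true i) i (Oh q n N (fv q n N par r k v)) ∧
      Acts q (tangle par r k v false i) i (flipM q (Oh q n N (fv q n N par r k v))) := by
  induction k generalizing v i with
  | zero =>
    have h1 : fv q n N par r 0 v = fun _ => (1 : ℂ) := by
      funext x
      rfl
    rw [h1, Oh_const, one_smul, flipM_one q h.1]
    exact ⟨Acts_nil q i, Acts_nil q i⟩
  | succ k ih =>
    have h3 : fv q n N par r (k + 1) v = fun x =>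
        (((List.finRange m).filter (fun j => par j = v)).map
          (fun j => Ph q n N (fv q n N par r k j.succ) x)).prod * tws q n N (r v) x := by
      funext x
      show tws q n N (r v) x *
        ∏ j ∈ Finset.univ.filter (fun j => par j = v), Ph q n N (fv q n N par r k j.succ) x = _
      rw [mul_comm]
      congr 1
    constructor
    · have h1 := Bra11_flatMap q N h hn i
        (fun j => Piece.cupUD i :: (tangle par r k j.succ false (i + 1) ++ [Piece.capUD (i + 2)]))
        (fun j => Ph q n N (fv q n N par r k j.succ))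
        (fun j => by
          rw [← rot_Oh q N h hn, ← rotU_flipM q h.1 _ (Oh_wt q N _)]
          exact Acts_rotU (ih j.succ (i + 1)).2)
        ((List.finRange m).filter (fun j => par j = v))
      have h2 := Acts_append (Acts_twists q N h hn (r v) i).1 h1
      rw [Oh_mul q N h hn] at h2
      rw [h3]
      exact h2
    · have h1 := Bra11_flatMap_flip q N h hn i
        (fun j => Piece.cupDU (i + 2) :: (tangle par r k j.succ true (i + 1) ++ [Piece.capDU i]))
        (fun j => Ph q n N (fv q n N par r k j.succ))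
        (fun j => by
          rw [← rot_Oh q N h hn, ← rotD_eq q h.1 _ (Oh_wt q N _)]
          exact Acts_rotD (ih j.succ (i + 1)).1)
        ((List.finRange m).filter (fun j => par j = v))
      have h2 := Acts_append (Acts_twists q N h hn (r v) i).2 h1
      rw [← flipM_mul q h.1, Oh_mul q N h hn] at h2
      rw [h3]
      exact h2

theorem bracket_eq_fv (q : ℂ) (N : ℕ) (h : Gen q n N) (hn : 2 ≤ n) (par : Fin m → Fin (m + 1))
    (r : Fin (m + 1) → ℤ) :
    bracket q n N (diagram par r) =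
      ∑ X ∈ Finset.range (N + 1), dimA n q X * fv q n N par r (m + 1) 0 X := by
  unfold diagram
  rw [bracket_closure (Acts_tangle q N h (by omega) par r (m + 1) 0 0).1, trq_Oh q N h hn]

theorem Bra11_writhe_append (w1 w2 : List Piece) :
    writhe (w1 ++ w2) = writhe w1 + writhe w2 := by
  induction w1 with
  | nil => simp [writhe]
  | cons x w ih =>
    cases x <;> simp only [List.cons_append, writhe, ih] <;> ring

theorem Bra11_writhe_replicate (w : List Piece) (r : ℕ) :
    writhe (List.replicate r w).flatten = r * writhe w := by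
  induction r with
  | zero => simp [writhe]
  | succ r ih =>
    rw [List.replicate_succ, List.flatten_cons, Bra11_writhe_append, ih]
    push_cast
    ring

theorem Bra11_writhe_twists (r : ℤ) (o : Bool) (i : ℕ) : writhe (twists r o i) = -2 * r := by
  unfold twists
  dsimp only
  rw [Bra11_writhe_replicate]
  by_cases hr : 0 < r
  · rw [if_pos hr]
    have h1 : (r.natAbs : ℤ) = r := Int.natAbs_of_nonneg hr.le
    rw [h1]
    cases o <;> simp [crossUD, crossDU, writhe] <;> ring
  · rw [if_neg hr]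
    have h1 : (r.natAbs : ℤ) = -r := Int.ofNat_natAbs_of_nonpos (by omega)
    rw [h1]
    cases o <;> simp [crossUD, crossDU, writhe] <;> ring

/-- The sum of the numbers of twists of the subtree at `v`. -/
def Bra11_ws (par : Fin m → Fin (m + 1)) (r : Fin (m + 1) → ℤ) : ℕ → Fin (m + 1) → ℤ
  | 0, _ => 0
  | k + 1, v => r v + ∑ j ∈ Finset.univ.filter (fun j => par j = v), Bra11_ws par r k j.succ

theorem Bra11_writhe_flatMap (T : Fin m → List Piece) (l : List (Fin m)) :
    writhe (l.flatMap T) = (l.map (fun j => writhe (T j))).sum := by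
  induction l with
  | nil => simp [writhe]
  | cons j l ih =>
    rw [List.flatMap_cons, Bra11_writhe_append, ih, List.map_cons, List.sum_cons]

theorem Bra11_sum_filter (p : Fin m → Prop) [DecidablePred p] (f : Fin m → ℤ) :
    ((((List.finRange m).filter (fun j => p j)).map f).sum : ℤ) =
      ∑ j ∈ Finset.univ.filter (fun j => p j), f j := by
  rfl

theorem Bra11_writhe_tangle (par : Fin m → Fin (m + 1)) (r : Fin (m + 1) → ℤ) (k : ℕ) :
    ∀ (v : Fin (m + 1)) (o : Bool) (i : ℕ),
      writhe (tangle par r k v o i) = -2 * Bra11_ws par r k v := by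
  induction k with
  | zero =>
    intro v o i
    cases o <;> simp [tangle, writhe, Bra11_ws]
  | succ k ih =>
    intro v o i
    cases o with
    | true =>
      rw [tangle, Bra11_writhe_append, Bra11_writhe_twists, Bra11_writhe_flatMap, Bra11_ws,
        mul_add, Finset.mul_sum, Bra11_sum_filter]
      congr 1
      refine Finset.sum_congr rfl fun j _ => ?_
      simp only [writhe, Bra11_writhe_append, ih, add_zero]
    | false =>
      rw [tangle, Bra11_writhe_append, Bra11_writhe_twists, Bra11_writhe_flatMap, Bra11_ws,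
        mul_add, Finset.mul_sum, Bra11_sum_filter]
      congr 1
      refine Finset.sum_congr rfl fun j _ => ?_
      simp only [writhe, Bra11_writhe_append, ih, add_zero]

theorem Bra11_ws_trs (par : Fin m → Fin (m + 1)) (r : Fin (m + 1) → ℤ) (k : ℕ) :
    ∀ v : Fin (m + 1), VC10.trs 0 (fun _ _ => 1) par (fun i _ => (2 : ℂ) ^ (r i)) k v 0 =
      (2 : ℂ) ^ (Bra11_ws par r k v) := by
  induction k with
  | zero =>
    intro v
    simp [VC10.trs, Bra11_ws]
  | succ k ih =>
    intro v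
    rw [VC10.trs, Bra11_ws, zpow_add₀ two_ne_zero]
    congr 1
    have h1 : ∀ (s : Finset (Fin m)) (f : Fin m → ℤ),
        (2 : ℂ) ^ (∑ j ∈ s, f j) = ∏ j ∈ s, (2 : ℂ) ^ (f j) := by
      intro s f
      classical
      induction s using Finset.induction_on with
      | empty => simp
      | insert a s ha ih2 =>
        rw [Finset.sum_insert ha, Finset.prod_insert ha, zpow_add₀ two_ne_zero, ih2]
    rw [h1]
    refine Finset.prod_congr rfl fun j _ => ?_
    rw [zero_add, Finset.sum_range_one, one_mul, ih]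

theorem Bra11_ws_eq (par : Fin m → Fin (m + 1)) (hpar : ∀ j, par j ≤ j.castSucc)
    (r : Fin (m + 1) → ℤ) : Bra11_ws par r (m + 1) 0 = ∑ i, r i := by
  have h1 := VC10.trs_eq 0 (fun _ _ => 1) m par hpar (fun i _ => (2 : ℂ) ^ (r i))
  rw [zero_add, Finset.sum_range_one, Bra11_ws_trs] at h1
  have h2 : ∑ X ∈ Fintype.piFinset (fun _ : Fin (m + 1) => Finset.range 1),
      (∏ i, (2 : ℂ) ^ (r i)) * ∏ _j : Fin m, (1 : ℂ) = ∏ i, (2 : ℂ) ^ (r i) := by
    rw [Finset.sum_const, Fintype.card_piFinset]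
    simp
  rw [h2] at h1
  have h3 : ∏ i, (2 : ℂ) ^ (r i) = (2 : ℂ) ^ (∑ i, r i) := by
    have h4 : ∀ (s : Finset (Fin (m + 1))),
        (2 : ℂ) ^ (∑ j ∈ s, r j) = ∏ j ∈ s, (2 : ℂ) ^ (r j) := by
      intro s
      classical
      induction s using Finset.induction_on with
      | empty => simp
      | insert a s ha ih2 =>
        rw [Finset.sum_insert ha, Finset.prod_insert ha, zpow_add₀ two_ne_zero, ih2]
    exact (h4 _).symm
  rw [h3] at h1
  have h5 : ((2 : ℝ) : ℂ) ^ (Bra11_ws par r (m + 1) 0) = ((2 : ℝ) : ℂ) ^ (∑ i, r i) := by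
    simpa using h1
  rw [← Complex.ofReal_zpow, ← Complex.ofReal_zpow, Complex.ofReal_inj] at h5
  exact zpow_right_injective₀ (by norm_num) (by norm_num) h5

theorem writhe_diagram (par : Fin m → Fin (m + 1)) (hpar : ∀ j, par j ≤ j.castSucc)
    (r : Fin (m + 1) → ℤ) : writhe (diagram par r) = -2 * ∑ i, r i := by
  unfold diagram
  rw [Bra11_writhe_append, Bra11_writhe_append, Bra11_writhe_tangle, Bra11_ws_eq par hpar]
  simp [writhe]

end Pool.Agent.H63.VC11

end

section

/-! # The colored `SU(n)` invariants of a plumbing of annuli as a state sum -/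

namespace Pool.Agent.H63.VC11

open Pool.Agent.H63.VC7 Pool.Agent.H63.VC8 Matrix

variable {m : ℕ}

theorem Brac11_dimS_ne (q : ℂ) (n N : ℕ) (h : Gen q n N) (hn : 2 ≤ n) : dimS n N q ≠ 0 := by
  unfold dimS
  rw [Finset.prod_ne_zero_iff]
  intro i hi
  have hi' := Finset.mem_range.1 hi
  exact div_ne_zero (h.br_ne (by omega) (by omega)) (h.br_ne (by omega) (by omega))

/-- The weights of the nodes. -/
noncomputable def Brac11_g (q : ℂ) (n N : ℕ) (r : Fin (m + 1) → ℤ) (v : Fin (m + 1)) (x : ℕ) : ℂ :=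
  dimA n q x / dimS n N q * tws q n N (r v) x

theorem Brac11_fv (q : ℂ) (n N : ℕ) (h : Gen q n N) (hn : 2 ≤ n) (par : Fin m → Fin (m + 1))
    (hpar : ∀ j, par j ≤ j.castSucc) (r : Fin (m + 1) → ℤ) (k : ℕ) (v : Fin (m + 1))
    (hk : m < k + v) (x : ℕ) :
    dimA n q x / dimS n N q * fv q n N par r k v x =
      VC10.trs N (sixn n q N) par (Brac11_g q n N r) k v x := by
  induction k generalizing v x with
  | zero => have := v.2; omega
  | succ k ih =>
    simp only [fv, VC10.trs]
    rw [← mul_assoc, Brac11_g]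
    congr 1
    refine Finset.prod_congr rfl fun j hj => ?_
    have hj' : par j = v := by simpa using hj
    have h0 : (v : ℕ) ≤ j := by
      have := hpar j
      rw [hj'] at this
      exact this
    rw [Ph_eq q n N h hn]
    refine Finset.sum_congr rfl fun y _ => ?_
    rw [← ih j.succ (by simp only [Fin.val_succ]; omega) y]
    ring

theorem bracket_diagram (q : ℂ) (n N : ℕ) (h : Gen q n N) (hn : 2 ≤ n)
    (par : Fin m → Fin (m + 1)) (hpar : ∀ j, par j ≤ j.castSucc) (r : Fin (m + 1) → ℤ) :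
    bracket q n N (diagram par r) = dimS n N q *
      q ^ (-2 * ((N : ℤ) * ((N : ℤ) + n - 1)) * ∑ i, r i) * suTree par Fin.succ r n N q := by
  have hd := Brac11_dimS_ne q n N h hn
  have hq : q ≠ 0 := h.1
  rw [bracket_eq_fv q N h hn par r]
  have e1 : ∑ X ∈ Finset.range (N + 1), dimA n q X * fv q n N par r (m + 1) 0 X =
      dimS n N q * ∑ X ∈ Finset.range (N + 1),
        VC10.trs N (sixn n q N) par (Brac11_g q n N r) (m + 1) 0 X := by
    rw [Finset.mul_sum]
    refine Finset.sum_congr rfl fun X _ => ?_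
    rw [← Brac11_fv q n N h hn par hpar r (m + 1) 0 (by simp) X]
    field_simp
  rw [e1, VC10.trs_eq N (sixn n q N) m par hpar, mul_assoc, suTree]
  congr 1
  rw [Finset.mul_sum]
  refine Finset.sum_congr rfl fun X _ => ?_
  rw [← mul_assoc]
  congr 1
  have e2 : ∀ i, Brac11_g q n N r i (X i) =
      q ^ (-2 * ((N : ℤ) * ((N : ℤ) + n - 1)) * r i) *
        (q ^ (2 * r i * (X i * (X i + n - 1))) * (dimA n q (X i) / dimS n N q)) := by
    intro i
    rw [Brac11_g, tws, ← mul_assoc, ← zpow_add₀ hq, mul_comm]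
    congr 2
    ring
  rw [Finset.prod_congr rfl fun i _ => e2 i, Finset.prod_mul_distrib]
  congr 1
  rw [Finset.mul_sum]
  clear e2 e1 h
  induction (Finset.univ : Finset (Fin (m + 1))) using Finset.induction_on with
  | empty => simp
  | insert i s hi ih => rw [Finset.prod_insert hi, Finset.sum_insert hi, zpow_add₀ hq, ih]

theorem coloredSU_diagram (q : ℂ) (n N : ℕ) (h : Gen q n N) (hn : 2 ≤ n)
    (par : Fin m → Fin (m + 1)) (hpar : ∀ j, par j ≤ j.castSucc) (r : Fin (m + 1) → ℤ) :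
    coloredSU (diagram par r) n N q = suTree par Fin.succ r n N q := by
  have hd := Brac11_dimS_ne q n N h hn
  have hq : q ≠ 0 := h.1
  rw [coloredSU, bracket_diagram q n N h hn par hpar r, writhe_diagram par hpar r,
    div_eq_iff hd]
  have e : q ^ (-((N : ℤ) * ((N : ℤ) + n - 1) * (-2 * ∑ i, r i))) *
      q ^ (-2 * ((N : ℤ) * ((N : ℤ) + n - 1)) * ∑ i, r i) = 1 := by
    rw [← zpow_add₀ hq]
    convert zpow_zero q using 2
    ring
  linear_combination (dimS n N q * suTree par Fin.succ r n N q) * e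

end Pool.Agent.H63.VC11

end
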