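import Pool.Agent.H94.PA.M20
import Pool.Agent.H94.PA.M29
import Pool.Agent.H94.PA.M36
import Pool.Agent.H94.PA.M40
import Pool.Agent.H94.PA.M45

/-! The parts of this file: H63.VC8.JGlim8, H63.VC8.Final8, H63.VC11.Fin11. -/

section

/-! # The asymptotics of the invariant -/

namespace Pool.Agent.H63.VC8

open Pool.Agent.H63.VC
open Pool.Agent.H63.VC3 Pool.Agent.H63.VC4 Pool.Agent.H63.VC6 Pool.Agent.H63.VC7 Complex Filter Topology

variable {m p : ℕ}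

/-- The product of the prefactors of the nodes. -/
theorem JGlim8_cG (r : Fin p → ℤ) (n g M : ℕ) :
    ∏ i, (-(-1) ^ (n + g) * cG8 (r i) n M / (4 * Real.pi * (Dg n g M : ℂ))) =
      (-(-1) ^ (n + g)) ^ p * exp ((∑ i, (r i : ℂ)) * (2 * (Real.pi * I * bt n -
        Real.pi * I * M / 4 - Real.pi * I * (bt n : ℂ) ^ 2 / M))) /
        ((4 * Real.pi) ^ p * (Dg n g M : ℂ) ^ p) := by
  rw [Finset.prod_div_distrib, Finset.prod_mul_distrib, Finset.prod_const, Finset.prod_const,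
    Finset.card_univ, Fintype.card_fin, Finset.sum_mul, Complex.exp_sum, mul_pow]
  congr 2
  refine Finset.prod_congr rfl fun i _ => ?_
  unfold cG8
  congr 1
  ring

/-- The phase at infinity. -/
theorem JGlim8_c (A : ℂ) :
    Tendsto (fun M : ℕ => exp (-(A / (M : ℂ)))) atTop (𝓝 1) := by
  have h1 : Tendsto (fun M : ℕ => ((M : ℂ))⁻¹) atTop (𝓝 0) :=
    tendsto_inv_atTop_nhds_zero_nat (𝕜 := ℂ)
  have h2 : Tendsto (fun M : ℕ => -A * ((M : ℂ))⁻¹) atTop (𝓝 0) := by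
    simpa using h1.const_mul (-A)
  have h3 := (Complex.continuous_exp.tendsto 0).comp h2
  rw [exp_zero] at h3
  refine h3.congr fun M => ?_
  simp only [Function.comp_apply]
  congr 1
  rw [div_eq_mul_inv]
  ring

/-- The powers of `M`. -/
theorem JGlim8_powR (m p n M : ℕ) (hn : 2 ≤ n) (hM : 0 < M) :
    ((M : ℝ) ^ (2 * n - 4)) ^ p / ((M : ℝ) ^ (2 * n - 4)) ^ m / (M : ℝ) ^ (2 * m) /
      (M : ℝ) ^ ((2 * (n : ℝ) - 5 / 2) * ((p : ℝ) - m)) =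
    (M : ℝ) ^ (-(3 / 2 * (p : ℝ) + 1 / 2 * m)) := by
  have hMp : (0 : ℝ) < M := by exact_mod_cast hM
  rw [← pow_mul, ← pow_mul, ← Real.rpow_natCast (M : ℝ) ((2 * n - 4) * p),
    ← Real.rpow_natCast (M : ℝ) ((2 * n - 4) * m),
    ← Real.rpow_natCast (M : ℝ) (2 * m), ← Real.rpow_sub hMp,
    ← Real.rpow_sub hMp, ← Real.rpow_sub hMp]
  congr 1
  rw [Nat.cast_mul, Nat.cast_mul, Nat.cast_mul, Nat.cast_sub (by omega)]
  push_cast
  ring

theorem JGlim8_pow (m p n M : ℕ) (hn : 2 ≤ n) (hM : 0 < M) :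
    (M : ℂ) ^ (2 * p) * (M : ℂ) ^ m * (((M : ℂ) ^ (2 * n - 4)) ^ p /
      ((M : ℂ) ^ (2 * n - 4)) ^ m / (M : ℂ) ^ (2 * m) /
      (((M : ℝ) ^ ((2 * (n : ℝ) - 5 / 2) * ((p : ℝ) - m)) : ℝ) : ℂ)) =
    (((M : ℝ) ^ (((m : ℝ) + p) / 2) : ℝ) : ℂ) := by
  have hMp : (0 : ℝ) < M := by exact_mod_cast hM
  have h : (M : ℝ) ^ (2 * p) * (M : ℝ) ^ m * (((M : ℝ) ^ (2 * n - 4)) ^ p /
      ((M : ℝ) ^ (2 * n - 4)) ^ m / (M : ℝ) ^ (2 * m) /
      (M : ℝ) ^ ((2 * (n : ℝ) - 5 / 2) * ((p : ℝ) - m))) = (M : ℝ) ^ (((m : ℝ) + p) / 2) := by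
    rw [JGlim8_powR m p n M hn hM, ← Real.rpow_natCast (M : ℝ) (2 * p),
      ← Real.rpow_natCast (M : ℝ) m, ← Real.rpow_add hMp, ← Real.rpow_add hMp]
    congr 1
    push_cast
    ring
  have h' := congrArg (fun x : ℝ => (x : ℂ)) h
  push_cast at h' ⊢
  exact h'

theorem JG8_lim (s t : Fin m → Fin p) (r : Fin p → ℤ) (y : Fin m → ℂ) (v : Fin p → ℂ)
    (n g : ℕ) (hn : 2 ≤ n) (hg : 1 ≤ g) (hgn : g < n)
    (hc : CritG s t (fun i => (r i : ℝ)) y v) :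
    ∃ κ : ℂ, κ ≠ 0 ∧ Tendsto (fun M : ℕ =>
      ((∏ i, (-(-1) ^ (n + g) * cG8 (r i) n M / (4 * Real.pi * (Dg n g M : ℂ)))) *
        ((Dg n g M : ℂ) / (M : ℂ) ^ 2) ^ m * JG8 s t (fun i => (r i : ℝ)) n g M) /
      ((((M : ℝ) ^ ((2 * (n : ℝ) - 5 / 2) * ((p : ℝ) - m)) : ℝ) : ℂ) *
        exp (M * (VG s t (fun i => (r i : ℝ)) y v - Real.pi * I / 2 * (∑ i, (r i : ℂ)) +
          Real.pi * I * p)))) atTop (𝓝 κ) := by
  obtain ⟨k1, k2, l1, l2, hwin⟩ := win_exists n hn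
  obtain ⟨K, hK, hKlim⟩ := main_limG8 s t (fun i => (r i : ℝ)) y v n g hn hg hgn hc k1 k2 l1 l2
    hwin
  obtain ⟨C, hC, D, M0, hmain⟩ := JG8_main n g hn hg hgn hc
  obtain ⟨mi, hmi⟩ : ∃ mi : ℕ → ℂ, ∀ M, mi M = MG8 s t (fun i => (r i : ℝ)) n g M
      (fun j => (y j).im) (fun i => (v i).im) ((k1 M + bt n) / M - 1 / 2)
      ((k2 M + 1 + bt n) / M - 1 / 2) (rho n M (l2 M)) := ⟨_, fun _ => rfl⟩
  simp only [← hmi] at hKlim
  obtain ⟨J, hJ⟩ : ∃ J : ℕ → ℂ, ∀ M, J M = JG8 s t (fun i => (r i : ℝ)) n g M :=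
    ⟨_, fun _ => rfl⟩
  obtain ⟨V, hV⟩ : ∃ V, V = VG s t (fun i => (r i : ℝ)) y v := ⟨_, rfl⟩
  have herr : ∀ᶠ M : ℕ in atTop, ‖J M - (-(4 * Real.pi * I * M ^ 2)) ^ p *
      ((M : ℂ) ^ m * mi M)‖ ≤ C * (M : ℝ) ^ D * Real.exp (M * (V.re - 1 / 500)) := by
    filter_upwards [hwin, eventually_ge_atTop M0] with M hw hM0
    rw [hJ, hmi, hV]
    exact hmain M (k1 M) (k2 M) (l1 M) (l2 M) hM0 hw
  rw [← hV] at hKlim
  simp only [← hJ, ← hV, JGlim8_cG]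
  clear hmi hmain hJ hV
  obtain ⟨R, hR⟩ : ∃ R : ℝ, R = ∑ i, (r i : ℝ) := ⟨_, rfl⟩
  have hRC : ∑ i, (r i : ℂ) = (R : ℂ) := by rw [hR]; push_cast; rfl
  rw [hRC]
  clear hR hRC
  -- the constants
  have hDlim : Tendsto (fun M : ℕ => Dg n g M * (M : ℝ) ^ (2 * n - 4)) atTop
      (𝓝 (((2 * Real.pi) ^ (g - 1) * (Nat.factorial (g - 1) : ℝ)) *
        ((2 * Real.pi) ^ (n - g - 1) * (Nat.factorial (n - g - 1) : ℝ)) *
        ((2 * Real.pi) ^ (n - 2) * (Nat.factorial (n - 2) : ℝ)))) := by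
    refine (((S_lim (g - 1)).mul (S_lim (n - g - 1))).mul (S_lim (n - 2))).congr fun M => ?_
    unfold Dg
    have e : 2 * n - 4 = (g - 1) + (n - g - 1) + (n - 2) := by omega
    rw [e, pow_add, pow_add]
    ring
  obtain ⟨c, hcd⟩ : ∃ c, c = ((2 * Real.pi) ^ (g - 1) * (Nat.factorial (g - 1) : ℝ)) *
        ((2 * Real.pi) ^ (n - g - 1) * (Nat.factorial (n - g - 1) : ℝ)) *
        ((2 * Real.pi) ^ (n - 2) * (Nat.factorial (n - 2) : ℝ)) := ⟨_, rfl⟩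
  rw [← hcd] at hDlim
  have hc0 : 0 < c := by
    rw [hcd]
    positivity
  clear hcd
  obtain ⟨X, hX⟩ : ∃ X : ℕ → ℝ, ∀ M, X M = Dg n g M * (M : ℝ) ^ (2 * n - 4) := ⟨_, fun _ => rfl⟩
  simp only [← hX] at hDlim
  obtain ⟨Z, hZ⟩ : ∃ Z : ℕ → ℂ, ∀ M, Z M = ((X M ^ m / X M ^ p : ℝ) : ℂ) := ⟨_, fun _ => rfl⟩
  have hZlim : Tendsto Z atTop (𝓝 ((c ^ m / c ^ p : ℝ) : ℂ)) := by
    have h1 := (hDlim.pow m).div (hDlim.pow p) (pow_ne_zero p hc0.ne')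
    have h2 := (Complex.continuous_ofReal.tendsto _).comp h1
    refine h2.congr fun M => ?_
    rw [hZ]
    rfl
  -- the prefactor
  obtain ⟨P, hP⟩ : ∃ P : ℕ → ℂ, ∀ M, P M =
      (-(-1) ^ (n + g)) ^ p * exp ((R : ℂ) * (2 * (Real.pi * I * bt n -
        Real.pi * I * M / 4 - Real.pi * I * (bt n : ℂ) ^ 2 / M))) /
        ((4 * Real.pi) ^ p * (Dg n g M : ℂ) ^ p) * ((Dg n g M : ℂ) / (M : ℂ) ^ 2) ^ m /
        ((((M : ℝ) ^ ((2 * (n : ℝ) - 5 / 2) * ((p : ℝ) - m)) : ℝ) : ℂ) *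
        exp (M * (V - Real.pi * I / 2 * R + Real.pi * I * p))) := ⟨_, fun _ => rfl⟩
  have h4 : (4 * Real.pi : ℂ) ≠ 0 := by
    have : (Real.pi : ℂ) ≠ 0 := by exact_mod_cast Real.pi_ne_zero
    exact mul_ne_zero (by norm_num) this
  obtain ⟨A, hA⟩ : ∃ A : ℂ, A = R * (2 * (Real.pi * I * (bt n : ℂ) ^ 2)) := ⟨_, rfl⟩
  obtain ⟨Y, hY⟩ : ∃ Y : ℂ, Y = (-(-1) ^ (n + g)) ^ p * exp (R * (2 * (Real.pi * I * bt n))) *
    (-I * (-1) ^ (n + 1)) ^ p := ⟨_, rfl⟩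
  have hY0 : Y ≠ 0 := by
    rw [hY]
    refine mul_ne_zero (mul_ne_zero (pow_ne_zero _ (neg_ne_zero.2 (pow_ne_zero _ (by norm_num))))
      (exp_ne_zero _)) (pow_ne_zero _ (mul_ne_zero (neg_ne_zero.2 I_ne_zero)
        (pow_ne_zero _ (by norm_num))))
  refine ⟨Y * (((c ^ m / c ^ p : ℝ) : ℂ) * (1 * K)), mul_ne_zero hY0 (mul_ne_zero ?_
    (by rwa [one_mul])), ?_⟩
  · exact_mod_cast (div_pos (pow_pos hc0 _) (pow_pos hc0 _)).ne'
  have hmainlim := (hZlim.mul ((JGlim8_c A).mul hKlim)).const_mul Y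
  -- the powers
  have hDX : ∀ M : ℕ, n ≤ M → (Dg n g M : ℂ) ^ m / (Dg n g M : ℂ) ^ p / (M : ℂ) ^ (2 * m) /
      (((M : ℝ) ^ ((2 * (n : ℝ) - 5 / 2) * ((p : ℝ) - m)) : ℝ) : ℂ) = Z M *
      (((M : ℂ) ^ (2 * n - 4)) ^ p / ((M : ℂ) ^ (2 * n - 4)) ^ m / (M : ℂ) ^ (2 * m) /
      (((M : ℝ) ^ ((2 * (n : ℝ) - 5 / 2) * ((p : ℝ) - m)) : ℝ) : ℂ)) := by
    intro M hM
    have hMc : (M : ℂ) ≠ 0 := by
      have : M ≠ 0 := by omega
      exact_mod_cast this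
    obtain ⟨hDg, -⟩ := Reduce_Dg n g M hn hg (by omega) hM
    have hDC : (Dg n g M : ℂ) ≠ 0 := by exact_mod_cast hDg.ne'
    rw [hZ, hX]
    push_cast
    have hpn : (M : ℂ) ^ (2 * n - 4) ≠ 0 := pow_ne_zero _ hMc
    generalize (M : ℂ) ^ (2 * n - 4) = x at hpn ⊢
    generalize (Dg n g M : ℂ) = d at hDC ⊢
    generalize ((((M : ℝ) ^ ((2 * (n : ℝ) - 5 / 2) * ((p : ℝ) - m)) : ℝ) : ℂ)) = w
    rw [mul_pow, mul_pow, ← mul_div_assoc, ← mul_div_assoc]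
    congr 2
    field_simp
  -- the main part
  have hmainP : ∀ M : ℕ, n ≤ M → P M * ((-(4 * Real.pi * I * M ^ 2)) ^ p *
      ((M : ℂ) ^ m * mi M)) = Y * (Z M * (exp (-(A / (M : ℂ))) *
      ((((M : ℝ) ^ (((m : ℝ) + p) / 2) : ℝ) : ℂ) *
      ((-1 : ℂ) ^ (M + n + 1)) ^ p * exp (-M * V) * mi M))) := by
    intro M hM
    have hM0 : 0 < M := by omega
    rw [hP, ← JGlim8_pow m p n M hn hM0]
    have hx := hDX M hM
    have e1 : exp ((R : ℂ) * (2 * (Real.pi * I * bt n - Real.pi * I * M / 4 -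
        Real.pi * I * (bt n : ℂ) ^ 2 / M))) =
        exp (R * (2 * (Real.pi * I * bt n))) * exp (-(A / (M : ℂ))) *
        exp (-(M * (Real.pi * I / 2 * R))) := by
      rw [← exp_add, ← exp_add]
      congr 1
      rw [hA]
      ring
    have e2 : (exp (M * (V - Real.pi * I / 2 * R + Real.pi * I * p)))⁻¹ =
        exp (-M * V) * exp (M * (Real.pi * I / 2 * R)) * ((-1 : ℂ) ^ M) ^ p := by
      have h := JGlim_exp M p
      have h2 := JGlim_sq M p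
      have h3 : exp (M * (V - Real.pi * I / 2 * R + Real.pi * I * p)) =
          exp (M * V - M * (Real.pi * I / 2 * R)) * ((-1 : ℂ) ^ M) ^ p := by
        rw [← h, ← exp_add]
        congr 1
        ring
      rw [h3, mul_inv, ← exp_neg]
      have h5 : (((-1 : ℂ) ^ M) ^ p)⁻¹ = ((-1 : ℂ) ^ M) ^ p := by
        rw [inv_eq_of_mul_eq_one_left h2]
      rw [h5, ← exp_add]
      congr 2
      ring
    have e3 : (-(4 * Real.pi * I * M ^ 2) : ℂ) ^ p =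
        (4 * Real.pi) ^ p * (-I) ^ p * (M : ℂ) ^ (2 * p) := by
      rw [pow_mul, ← mul_pow, ← mul_pow]
      congr 1
      ring
    have e4 : (-I : ℂ) ^ p * ((-1 : ℂ) ^ M) ^ p =
        (-I * (-1) ^ (n + 1)) ^ p * ((-1 : ℂ) ^ (M + n + 1)) ^ p := by
      rw [← mul_pow, ← mul_pow]
      congr 1
      rw [show M + n + 1 = (n + 1) + M by ring, pow_add (-1 : ℂ) (n + 1) M]
      have : ((-1 : ℂ) ^ (n + 1)) * (-1) ^ (n + 1) = 1 := by
        rw [← mul_pow]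
        simp
      linear_combination (I * (-1) ^ M) * this
    have e5 : exp (-(M * (Real.pi * I / 2 * R))) * exp (M * (Real.pi * I / 2 * R)) = 1 := by
      rw [← exp_add, neg_add_cancel, exp_zero]
    have h6 : ((4 * Real.pi : ℂ) ^ p)⁻¹ * (4 * Real.pi : ℂ) ^ p = 1 :=
      inv_mul_cancel₀ (pow_ne_zero _ h4)
    have e6 : (-(-1) ^ (n + g)) ^ p * exp ((R : ℂ) * (2 * (Real.pi * I * bt n -
        Real.pi * I * M / 4 - Real.pi * I * (bt n : ℂ) ^ 2 / M))) /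
        ((4 * Real.pi) ^ p * (Dg n g M : ℂ) ^ p) * ((Dg n g M : ℂ) / (M : ℂ) ^ 2) ^ m /
        ((((M : ℝ) ^ ((2 * (n : ℝ) - 5 / 2) * ((p : ℝ) - m)) : ℝ) : ℂ) *
        exp (M * (V - Real.pi * I / 2 * R + Real.pi * I * p))) =
        (-(-1) ^ (n + g)) ^ p * exp ((R : ℂ) * (2 * (Real.pi * I * bt n -
        Real.pi * I * M / 4 - Real.pi * I * (bt n : ℂ) ^ 2 / M))) *
        ((4 * Real.pi : ℂ) ^ p)⁻¹ * (exp (M * (V - Real.pi * I / 2 * R + Real.pi * I * p)))⁻¹ *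
        ((Dg n g M : ℂ) ^ m / (Dg n g M : ℂ) ^ p / (M : ℂ) ^ (2 * m) /
      (((M : ℝ) ^ ((2 * (n : ℝ) - 5 / 2) * ((p : ℝ) - m)) : ℝ) : ℂ)) := by
      rw [div_pow, pow_mul]
      simp only [div_eq_mul_inv, mul_inv]
      ring
    rw [e6, hx, e1, e2, e3, hY]
    clear e6 e3 e2 e1 hx
    revert e4 e5 h6
    generalize exp ((R : ℂ) * (2 * (Real.pi * I * bt n))) = x1
    generalize exp (-(A / (M : ℂ))) = x2
    generalize exp (-((M : ℂ) * (Real.pi * I / 2 * R))) = x3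
    generalize exp ((M : ℂ) * (Real.pi * I / 2 * R)) = x4
    generalize exp (-(M : ℂ) * V) = x5
    generalize ((4 * Real.pi : ℂ) ^ p)⁻¹ = x6
    generalize (4 * Real.pi : ℂ) ^ p = x7
    generalize ((M : ℂ) ^ (2 * n - 4)) ^ p / ((M : ℂ) ^ (2 * n - 4)) ^ m / (M : ℂ) ^ (2 * m) /
      (((M : ℝ) ^ ((2 * (n : ℝ) - 5 / 2) * ((p : ℝ) - m)) : ℝ) : ℂ) = x8
    generalize ((-1 : ℂ) ^ M) ^ p = x10
    generalize ((-1 : ℂ) ^ (M + n + 1)) ^ p = x11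
    generalize (-I : ℂ) ^ p = x12
    generalize (-I * (-1 : ℂ) ^ (n + 1)) ^ p = x13
    generalize (M : ℂ) ^ (2 * p) = x14
    generalize (M : ℂ) ^ m = x15
    generalize (-(-1 : ℂ) ^ (n + g)) ^ p = x16
    intro e4 e5 h6
    linear_combination (x16 * x1 * x2 * x5 * x8 * x14 * x15 * mi M * Z M) *
      (x12 * x10 * x3 * x4 * h6 + x12 * x10 * e5 + e4)
  -- the error
  have hcomp : ∀ᶠ M : ℕ in atTop, ‖P M * J M - Y * (Z M * (exp (-(A / (M : ℂ))) *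
      ((((M : ℝ) ^ (((m : ℝ) + p) / 2) : ℝ) : ℂ) *
      ((-1 : ℂ) ^ (M + n + 1)) ^ p * exp (-M * V) * mi M)))‖ ≤
      ‖Z M‖ * (C * (M : ℝ) ^ D * Real.exp (-(M / 500))) := by
    filter_upwards [herr, eventually_ge_atTop n] with M h1 hM
    have hM0 : 0 < M := by omega
    have hMr : (1 : ℝ) ≤ M := by exact_mod_cast hM0
    have hMp : (0 : ℝ) < M := by linarith
    rw [← hmainP M hM, ← mul_sub, norm_mul]
    have hPn : ‖P M‖ ≤ ‖Z M‖ * Real.exp (-(M * V.re)) := by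
      have e6 : (-(-1) ^ (n + g)) ^ p * exp ((R : ℂ) * (2 * (Real.pi * I * bt n -
        Real.pi * I * M / 4 - Real.pi * I * (bt n : ℂ) ^ 2 / M))) /
        ((4 * Real.pi) ^ p * (Dg n g M : ℂ) ^ p) * ((Dg n g M : ℂ) / (M : ℂ) ^ 2) ^ m /
        ((((M : ℝ) ^ ((2 * (n : ℝ) - 5 / 2) * ((p : ℝ) - m)) : ℝ) : ℂ) *
        exp (M * (V - Real.pi * I / 2 * R + Real.pi * I * p))) =
        (-(-1) ^ (n + g)) ^ p * exp ((R : ℂ) * (2 * (Real.pi * I * bt n -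
        Real.pi * I * M / 4 - Real.pi * I * (bt n : ℂ) ^ 2 / M))) *
        ((4 * Real.pi : ℂ) ^ p)⁻¹ * (exp (M * (V - Real.pi * I / 2 * R + Real.pi * I * p)))⁻¹ *
        ((Dg n g M : ℂ) ^ m / (Dg n g M : ℂ) ^ p / (M : ℂ) ^ (2 * m) /
      (((M : ℝ) ^ ((2 * (n : ℝ) - 5 / 2) * ((p : ℝ) - m)) : ℝ) : ℂ)) := by
        rw [div_pow, pow_mul]
        simp only [div_eq_mul_inv, mul_inv]
        ring
      rw [hP, e6, hDX M hM]
      clear e6
      have n0 : ‖(-(-1 : ℂ) ^ (n + g)) ^ p‖ = 1 := by simp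
      have n1 : ‖exp ((R : ℂ) * (2 * (Real.pi * I * bt n - Real.pi * I * M / 4 -
          Real.pi * I * (bt n : ℂ) ^ 2 / M)))‖ = 1 := by
        have : ((R : ℂ) * (2 * (Real.pi * I * bt n - Real.pi * I * M / 4 -
          Real.pi * I * (bt n : ℂ) ^ 2 / M))) =
          ((R * (2 * (Real.pi * bt n - Real.pi * M / 4 - Real.pi * bt n ^ 2 / M)) : ℝ) : ℂ) *
            I := by
          push_cast
          ring
        rw [this, Complex.norm_exp_ofReal_mul_I]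
      have n2 : (1 : ℝ) ≤ ‖(4 * Real.pi : ℂ) ^ p‖ := by
        rw [norm_pow]
        apply one_le_pow₀
        have : (4 * Real.pi : ℂ) = ((4 * Real.pi : ℝ) : ℂ) := by push_cast; ring
        rw [this, Complex.norm_real, Real.norm_of_nonneg (by positivity)]
        have := Real.pi_gt_three
        linarith
      have n7 : ‖((4 * Real.pi : ℂ) ^ p)⁻¹‖ ≤ 1 := by
        rw [norm_inv]
        exact inv_le_one_of_one_le₀ n2
      have n5 : ‖(exp (M * (V - Real.pi * I / 2 * R + Real.pi * I * p)))⁻¹‖ =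
          Real.exp (-(M * V.re)) := by
        rw [← exp_neg, Complex.norm_exp]
        congr 1
        have : (-(M * (V - Real.pi * I / 2 * R + Real.pi * I * p)) : ℂ) =
          ((-M : ℝ) : ℂ) * V + ((-(M * (Real.pi * p - Real.pi / 2 * R)) : ℝ) : ℂ) * I := by
          push_cast
          ring
        rw [this, Complex.add_re, Complex.re_ofReal_mul, Complex.re_ofReal_mul, Complex.I_re]
        ring
      have n8 : ‖(((M : ℂ) ^ (2 * n - 4)) ^ p / ((M : ℂ) ^ (2 * n - 4)) ^ m /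
          (M : ℂ) ^ (2 * m) /
          (((M : ℝ) ^ ((2 * (n : ℝ) - 5 / 2) * ((p : ℝ) - m)) : ℝ) : ℂ))‖ ≤ 1 := by
        have h := JGlim8_powR m p n M hn hM0
        have h' := congrArg (fun x : ℝ => (x : ℂ)) h
        push_cast at h'
        have h2 : (((M : ℂ) ^ (2 * n - 4)) ^ p / ((M : ℂ) ^ (2 * n - 4)) ^ m /
          (M : ℂ) ^ (2 * m) /
          (((M : ℝ) ^ ((2 * (n : ℝ) - 5 / 2) * ((p : ℝ) - m)) : ℝ) : ℂ)) =
          (((M : ℝ) ^ (-(3 / 2 * (p : ℝ) + 1 / 2 * m)) : ℝ) : ℂ) := by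
          exact h'
        rw [h2, Complex.norm_real, Real.norm_of_nonneg (by positivity)]
        apply Real.rpow_le_one_of_one_le_of_nonpos hMr
        have h1 : (0 : ℝ) ≤ p := Nat.cast_nonneg p
        have h2 : (0 : ℝ) ≤ m := Nat.cast_nonneg m
        linarith
      rw [norm_mul, norm_mul, norm_mul, norm_mul, norm_mul, n0, n1, n5, one_mul, one_mul]
      calc ‖((4 * Real.pi : ℂ) ^ p)⁻¹‖ * Real.exp (-(M * V.re)) * (‖Z M‖ *
            ‖(((M : ℂ) ^ (2 * n - 4)) ^ p / ((M : ℂ) ^ (2 * n - 4)) ^ m /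
          (M : ℂ) ^ (2 * m) /
          (((M : ℝ) ^ ((2 * (n : ℝ) - 5 / 2) * ((p : ℝ) - m)) : ℝ) : ℂ))‖)
          ≤ 1 * Real.exp (-(M * V.re)) * (‖Z M‖ * 1) := by
            gcongr
        _ = ‖Z M‖ * Real.exp (-(M * V.re)) := by ring
    calc ‖P M‖ * ‖J M - (-(4 * Real.pi * I * M ^ 2)) ^ p * ((M : ℂ) ^ m * mi M)‖
        ≤ (‖Z M‖ * Real.exp (-(M * V.re))) *
          (C * (M : ℝ) ^ D * Real.exp (M * (V.re - 1 / 500))) :=
          mul_le_mul hPn h1 (norm_nonneg _) (by positivity)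
      _ = ‖Z M‖ * (C * (M : ℝ) ^ D * (Real.exp (-(M * V.re)) *
          Real.exp (M * (V.re - 1 / 500)))) := by
          ring
      _ = ‖Z M‖ * (C * (M : ℝ) ^ D * Real.exp (-(M / 500))) := by
          rw [← Real.exp_add]
          congr 3
          ring
  have herr0 := hZlim.norm.mul (JGlim_err C D)
  rw [mul_zero] at herr0
  have hdiff := squeeze_zero_norm' hcomp herr0
  have hsum := hdiff.add hmainlim
  rw [zero_add] at hsum
  refine hsum.congr fun M => ?_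
  rw [sub_add_cancel, hP, mul_comm _ (J M), mul_div_assoc']
  congr 1
  ring

end Pool.Agent.H63.VC8

end

section

/-! # The volume conjecture for the colored `SU(n)` invariants of plumbings of annuli -/

namespace Pool.Agent.H63.VC8

open Pool.Agent.H63.VC
open Pool.Agent.H63.VC3 Pool.Agent.H63.VC4 Pool.Agent.H63.VC5 Pool.Agent.H63.VC6
open Pool.Agent.H63.VC7 Complex Filter Topology

theorem final8 (m : ℕ) (hm : 1 ≤ m) (par : Fin m → Fin (m + 1))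
    (hpar : ∀ j, par j ≤ j.castSucc) (r : Fin (m + 1) → ℤ)
    (h1 : ∀ i, 10 * ((inc par Fin.succ i).card : ℤ) ≤ |r i|)
    (h2 : ∀ j, 10 * ((inc par Fin.succ (par j)).card : ℤ) ≤ r j.succ ^ 2 ∧
      10 * ((inc par Fin.succ j.succ).card : ℤ) ≤ r (par j) ^ 2) :
    ∃ V C : ℝ, Hyp.IsVolume par Fin.succ (fun i => 2 * r i) V ∧
      (∃ Z : ℂ, Hyp.IsComplexVolume par Fin.succ (fun i => 2 * r i) Z ∧
        ∃ k : ℤ, Z = I * (V + C * I) + k * (Real.pi : ℂ) ^ 2) ∧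
      ∀ n a : ℕ, 2 ≤ n → 1 ≤ a → a ≤ n - 1 → ∃ J : ℕ → ℂ,
        (∀ N : ℕ, n ≤ N → Tendsto (fun q => suTree par Fin.succ r n N q)
          (𝓝[≠] exp (Real.pi * I / (N + a))) (𝓝 (J N))) ∧
        (∃ L : ℕ → ℂ, (∀ᶠ N : ℕ in atTop, exp (L N) = J N) ∧
          Tendsto (fun N : ℕ => 2 * (Real.pi : ℂ) * L N / (N + 1)) atTop (𝓝 (V + C * I))) ∧
        Tendsto (fun N : ℕ => 2 * (Real.pi : ℂ) * log (J N) / (N + 1)) atTop (𝓝 (V : ℂ)) ∧
        ∃ κ : ℂ, κ ≠ 0 ∧ Tendsto (fun N : ℕ => J N /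
          ((((N : ℝ) + a) ^ (2 * (n : ℝ) - 5 / 2) : ℝ) *
            exp ((N + a) * (V + C * I) / (2 * Real.pi)))) atTop (𝓝 κ) := by
  have hst : ∀ j, par j ≠ Fin.succ j := fun j => by
    have := hpar j
    exact ne_of_lt (lt_of_le_of_lt this (Fin.castSucc_lt_succ))
  have hne : ∀ i, (inc par Fin.succ i).Nonempty := by
    intro i
    induction i using Fin.cases with
    | zero =>
      refine ⟨⟨0, by omega⟩, ?_⟩
      have h0 := hpar ⟨0, by omega⟩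
      simp only [inc, Finset.mem_filter, Finset.mem_univ, true_and]
      left
      ext
      have : (par ⟨0, by omega⟩ : ℕ) ≤ 0 := h0
      simp only [Fin.val_zero]
      omega
    | succ i =>
      refine ⟨i, ?_⟩
      simp [inc]
  have hr : ∀ i, 10 * dg par Fin.succ i ≤ |(r i : ℝ)| := by
    intro i
    have := h1 i
    have h' : (10 : ℝ) * ((inc par Fin.succ i).card : ℝ) ≤ |(r i : ℝ)| := by exact_mod_cast this
    rw [dg]
    exact h'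
  have hn : ∀ j, 10 * dg par Fin.succ (par j) ≤ (r (Fin.succ j) : ℝ) ^ 2 ∧
      10 * dg par Fin.succ (Fin.succ j) ≤ (r (par j) : ℝ) ^ 2 := by
    intro j
    obtain ⟨h3, h4⟩ := h2 j
    simp only [dg]
    exact ⟨by exact_mod_cast h3, by exact_mod_cast h4⟩
  obtain ⟨y, v, hc⟩ := critG_exists par Fin.succ hst hne (fun i => (r i : ℝ)) hr hn
  have hfun : (fun i => (((fun i => 2 * r i) i : ℤ) : ℝ) / 2) = fun i => (r i : ℝ) := by
    funext i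
    push_cast
    ring
  have hc2 : CritG par Fin.succ (fun i => (((fun i => 2 * r i) i : ℤ) : ℝ) / 2) y v := by
    rw [hfun]; exact hc
  obtain ⟨Z, hZ, nZ, hnZ⟩ := isComplexVolume_of_crit par Fin.succ (fun i => 2 * r i) y v hc2
  have hV := isVolume_of_crit par Fin.succ (fun i => 2 * r i) y v hc2
  rw [hfun] at hV hnZ
  set W : ℂ := VG par Fin.succ (fun i => (r i : ℝ)) y v with hW
  set σ : ℝ := ∑ i, (r i : ℝ) with hσ
  have e : W = (W.re : ℂ) + (W.im : ℂ) * I := (Complex.re_add_im _).symm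
  have e2 : (∑ i, (r i : ℂ)) = (σ : ℂ) := by rw [hσ]; push_cast; rfl
  have e3 : (∑ i, (((2 * r i : ℤ)) : ℂ)) = 2 * (σ : ℂ) := by
    rw [← e2, Finset.mul_sum]; push_cast; rfl
  have hpi : (Real.pi : ℂ) ≠ 0 := by exact_mod_cast Real.pi_ne_zero
  refine ⟨2 * Real.pi * W.re, 2 * Real.pi * W.im - Real.pi ^ 2 * σ + 2 * Real.pi ^ 2 * (m + 1),
    hV, ⟨Z, hZ, nZ + 2 * (m + 1), ?_⟩, ?_⟩
  · rw [hnZ, e3]
    conv_lhs => rw [e]
    push_cast
    linear_combination ((Real.pi : ℂ) ^ 2 * σ - 2 * (Real.pi : ℂ) ^ 2 * (m + 1)) * Complex.I_sq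
  intro n a hn2 ha han
  obtain ⟨κ, hκ, hlim⟩ := JG8_lim par Fin.succ r y v n a hn2 ha (by omega) hc
  set J : ℕ → ℂ := fun N => (∏ i, (-(-1) ^ (n + a) * cG8 (r i) n (N + a) /
      (4 * Real.pi * (Dg n a (N + a) : ℂ)))) *
        ((Dg n a (N + a) : ℂ) / ((N + a : ℕ) : ℂ) ^ 2) ^ m *
        JG8 par Fin.succ (fun i => (r i : ℝ)) n a (N + a) with hJ
  have hasy : Tendsto (fun N : ℕ => J N /
        ((((N : ℝ) + a) ^ (2 * (n : ℝ) - 5 / 2) : ℝ) *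
          exp ((N + a) * ((2 * Real.pi * W.re : ℝ) +
            (2 * Real.pi * W.im - Real.pi ^ 2 * σ + 2 * Real.pi ^ 2 * (m + 1) : ℝ) * I) /
              (2 * Real.pi)))) atTop (𝓝 κ) := by
    have h2 := hlim.comp (tendsto_add_atTop_nat a)
    refine h2.congr' ?_
    filter_upwards with N
    simp only [Function.comp, hJ]
    have hexp : (2 * (n : ℝ) - 5 / 2) * (((m + 1 : ℕ) : ℝ) - m) = 2 * (n : ℝ) - 5 / 2 := by
      push_cast; ring
    rw [hexp]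
    congr 2
    · push_cast
      rfl
    · congr 1
      rw [← hW, e2]
      push_cast
      conv_lhs => rw [e]
      field_simp
      ring
  have hnorm : Tendsto (fun N : ℕ => ‖J N‖ /
        (((N + a : ℕ) : ℝ) ^ (2 * (n : ℝ) - 5 / 2) * Real.exp ((N + a : ℕ) * W.re)))
        atTop (𝓝 ‖κ‖) := by
    refine (hasy.norm).congr fun N => ?_
    rw [norm_div]
    congr 1
    rw [norm_mul, Complex.norm_exp, Complex.norm_real, Real.norm_eq_abs,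
      abs_of_nonneg (by positivity)]
    congr 1
    · push_cast
      rfl
    · congr 1
      have e : ((N : ℂ) + a) * ((2 * Real.pi * W.re : ℝ) +
            (2 * Real.pi * W.im - Real.pi ^ 2 * σ + 2 * Real.pi ^ 2 * (m + 1) : ℝ) * I) /
              (2 * Real.pi) =
          (((N : ℝ) + a) * W.re : ℝ) + (((N : ℝ) + a) *
            (W.im - Real.pi * σ / 2 + Real.pi * (m + 1)) : ℝ) * I := by
        push_cast
        field_simp
      rw [e]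
      simp
  have hlog := final_log J a ha (2 * (n : ℝ) - 5 / 2) W.re ‖κ‖ (norm_pos_iff.2 hκ) hnorm
  refine ⟨J, ?_, log_lift J a ha _ _ κ hκ hasy, hlog, κ, hκ, hasy⟩
  intro N hN
  have := root_lim8 m par hpar r n a N hn2 ha (by omega) hN
  have hcast : ((N + a : ℕ) : ℂ) = (N : ℂ) + a := by push_cast; rfl
  rw [← hcast]
  exact this

end Pool.Agent.H63.VC8

end

section

/-! # The volume conjecture for the diagrams of plumbings of annuli, all `n`, all gaps -/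

namespace Pool.Agent.H63.VC11

open Pool.Agent.H63.VC7 Pool.Agent.H63.VC8 Complex Filter Topology

theorem Fin11_br_ev (x : ℂ) (k : ℕ) (hk : 1 ≤ k) : ∀ᶠ q in 𝓝[≠] x, br q (k : ℤ) ≠ 0 := by
  have hfin : Set.Finite {q : ℂ | q = 0 ∨ q ^ (2 * k) = 1} := by
    have h1 : Set.Finite {q : ℂ | q ^ (2 * k) = 1} := by
      have : {q : ℂ | q ^ (2 * k) = 1} ⊆ ((Polynomial.nthRoots (2 * k) (1 : ℂ)).toFinset : Set ℂ) := by
        intro q hq
        simp only [Finset.mem_coe, Multiset.mem_toFinset]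
        exact (Polynomial.mem_nthRoots (by omega)).2 hq
      exact (Finset.finite_toSet _).subset this
    exact (Set.finite_singleton 0).union h1
  have h2 : ∀ᶠ q in 𝓝[≠] x, q ∉ {q : ℂ | q = 0 ∨ q ^ (2 * k) = 1} := by
    have h3 : (({q : ℂ | q = 0 ∨ q ^ (2 * k) = 1} \ {x})ᶜ) ∈ 𝓝 x :=
      ((hfin.subset Set.sdiff_subset).isClosed.isOpen_compl).mem_nhds (by simp)
    filter_upwards [mem_nhdsWithin_of_mem_nhds h3, self_mem_nhdsWithin] with q h4 h5 h6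
    exact h4 ⟨h6, h5⟩
  filter_upwards [h2] with q hq h0
  simp only [not_or] at hq
  apply hq.2
  unfold br at h0
  have h7 : q ^ (k : ℤ) = q ^ (-(k : ℤ)) := sub_eq_zero.1 h0
  have h8 : q ^ (k : ℤ) * q ^ (k : ℤ) = 1 := by
    nth_rw 2 [h7]
    rw [← zpow_add₀ hq.1]; simp
  rw [two_mul, pow_add]
  exact_mod_cast h8

theorem Fin11_gen_ev (x : ℂ) (n N : ℕ) : ∀ᶠ q in 𝓝[≠] x, Gen q n N := by
  have h1 : ∀ᶠ q in 𝓝[≠] x, q ≠ 0 := by
    by_cases hx : x = 0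
    · subst hx; exact self_mem_nhdsWithin
    · exact mem_nhdsWithin_of_mem_nhds (isOpen_ne.mem_nhds hx)
  have h2 : ∀ᶠ q in 𝓝[≠] x, ∀ k ∈ Finset.Icc 1 (4 * N + 2 * n), br q ((k : ℕ) : ℤ) ≠ 0 := by
    rw [Filter.eventually_all_finset]
    intro k hk
    exact Fin11_br_ev x k (Finset.mem_Icc.1 hk).1
  filter_upwards [h1, h2] with q h3 h4
  exact ⟨h3, fun k h5 h6 => h4 k (Finset.mem_Icc.2 ⟨h5, h6⟩)⟩

theorem final11 (m : ℕ) (hm : 1 ≤ m) (par : Fin m → Fin (m + 1))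
    (hpar : ∀ j, par j ≤ j.castSucc) (r : Fin (m + 1) → ℤ)
    (h1 : ∀ i, 10 * ((Finset.univ.filter fun j => par j = i ∨ j.succ = i).card : ℤ) ≤ |r i|)
    (h2 : ∀ k,
      10 * ((Finset.univ.filter fun j => par j = par k ∨ j.succ = par k).card : ℤ) ≤
        r k.succ ^ 2 ∧
      10 * ((Finset.univ.filter fun j => par j = k.succ ∨ j.succ = k.succ).card : ℤ) ≤
        r (par k) ^ 2) :
    ∃ V C : ℝ, Hyp.IsVolume par Fin.succ (fun i => 2 * r i) V ∧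
      (∃ Z : ℂ, Hyp.IsComplexVolume par Fin.succ (fun i => 2 * r i) Z ∧
        ∃ k : ℤ, Z = Complex.I * (V + C * Complex.I) + k * (Real.pi : ℂ) ^ 2) ∧
      ∀ n a : ℕ, 2 ≤ n → 1 ≤ a → a ≤ n - 1 → ∃ J : ℕ → ℂ,
        (∀ N : ℕ, n ≤ N → Tendsto (fun q => coloredSU (diagram par r) n N q)
          (𝓝[≠] Complex.exp (Real.pi * Complex.I / (N + a))) (𝓝 (J N))) ∧
        (∃ L : ℕ → ℂ, (∀ᶠ N : ℕ in atTop, Complex.exp (L N) = J N) ∧
          Tendsto (fun N : ℕ => 2 * (Real.pi : ℂ) * L N / (N + 1)) atTop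
            (𝓝 (V + C * Complex.I))) ∧
        Tendsto (fun N : ℕ => 2 * (Real.pi : ℂ) * Complex.log (J N) / (N + 1)) atTop
          (𝓝 (V : ℂ)) ∧
        ∃ κ : ℂ, κ ≠ 0 ∧ Tendsto (fun N : ℕ => J N /
          ((((N : ℝ) + a) ^ (2 * (n : ℝ) - 5 / 2) : ℝ) *
            Complex.exp ((N + a) * (V + C * Complex.I) / (2 * Real.pi)))) atTop (𝓝 κ) := by
  obtain ⟨V, C, hV, hZ, H⟩ := final8 m hm par hpar r h1 h2
  refine ⟨V, C, hV, hZ, fun n a hn ha han => ?_⟩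
  obtain ⟨J, hJ, hL, hV', hκ⟩ := H n a hn ha han
  refine ⟨J, fun N hN => ?_, hL, hV', hκ⟩
  refine (hJ N hN).congr' ?_
  filter_upwards [Fin11_gen_ev _ n N] with q hq
  rw [coloredSU_diagram q n N hq hn par hpar r]

end Pool.Agent.H63.VC11

end
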